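import Pool.Agent.helper49.Slope.DefsB

/-!
MP_aedd95_co (slope of k-fold hyperplane covers of triangular grids), module B2a.
Calculus of loads, first part.
-/

set_option autoImplicit false

open MeasureTheory ProbabilityTheory
open scoped ENNReal

namespace Pool.Agent.helper49.Slope

theorem HasLoad.mono {ν : Measure ℝ} {f g : ℝ → ℝ≥0∞} (h : HasLoad ν f) (hfg : ∀ z, f z ≤ g z) :
    HasLoad ν g := by
  unfold HasLoad at *
  refine h.trans (withDensity_mono (Filter.Eventually.of_forall fun z => ?_))
  exact ENNReal.div_le_div_right (hfg z) 2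

/-- loads only have to be estimated for almost every `z` -/
theorem HasLoad.mono_ae {ν : Measure ℝ} {f g : ℝ → ℝ≥0∞} (h : HasLoad ν f)
    (hfg : ∀ᵐ z, f z ≤ g z) : HasLoad ν g := by
  unfold HasLoad at *
  refine h.trans (withDensity_mono ?_)
  filter_upwards [hfg] with z hz
  exact ENNReal.div_le_div_right hz 2

theorem HasLoad.Icc_le {ν : Measure ℝ} (h : HasLoad ν (fun _ => 1)) (a b : ℝ) :
    ν (Set.Icc a b) ≤ ENNReal.ofReal ((b - a) / 2) := by
  unfold HasLoad at h
  refine (h (Set.Icc a b)).trans ?_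
  rw [withDensity_apply _ measurableSet_Icc, setLIntegral_const, Real.volume_Icc,
    ENNReal.ofReal_div_of_pos (by norm_num : (0:ℝ) < 2)]
  rw [div_eq_mul_inv, div_eq_mul_inv, one_mul, mul_comm]
  simp

theorem HasLoad.shift {ν : Measure ℝ} {f : ℝ → ℝ≥0∞} (hf : Measurable f) (h : HasLoad ν f) (c : ℝ) :
    HasLoad (ν.map (fun z => z + c)) (fun z => f (z - c)) := by
  unfold HasLoad at *
  have hm : Measurable (fun z : ℝ => z + c) := measurable_id.add_const c
  refine Measure.le_iff.2 fun s hs => ?_
  rw [Measure.map_apply hm hs, withDensity_apply _ hs]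
  refine (h _).trans ?_
  rw [withDensity_apply _ (hm hs)]
  have hvol : (volume : Measure ℝ) = (volume : Measure ℝ).map (fun z => z + c) :=
    (MeasureTheory.map_add_right_eq_self (volume : Measure ℝ) c).symm
  have hF : Measurable (fun z : ℝ => f (z - c) / 2) :=
    (hf.comp (measurable_id.sub_const c)).div_const 2
  conv_rhs => rw [hvol]
  rw [setLIntegral_map hs hF hm]
  refine le_of_eq ?_
  congr 1
  ext z
  simp

theorem HasLoad.scale {ν : Measure ℝ} {f : ℝ → ℝ≥0∞} (hf : Measurable f) (h : HasLoad ν f) (c : ℝ)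
    (hc : c ≠ 0) : HasLoad (ν.map (fun z => c * z)) (fun z => ENNReal.ofReal (1 / |c|) * f (z / c)) := by
  unfold HasLoad at *
  have hm : Measurable (fun z : ℝ => c * z) := measurable_id.const_mul c
  refine Measure.le_iff.2 fun s hs => ?_
  rw [Measure.map_apply hm hs, withDensity_apply _ hs]
  refine (h _).trans ?_
  rw [withDensity_apply _ (hm hs)]
  have hF : Measurable (fun z : ℝ => f (z / c) / 2) :=
    (hf.comp (measurable_id.div_const c)).div_const 2
  have hmap : (volume : Measure ℝ).map (fun z => c * z) = ENNReal.ofReal |c⁻¹| • volume :=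
    Real.map_volume_mul_left hc
  have h1 : ∫⁻ z in (fun z => c * z) ⁻¹' s, f z / 2 = ∫⁻ z in s, f (z / c) / 2 ∂((volume : Measure ℝ).map (fun z => c * z)) := by
    rw [setLIntegral_map hs hF hm]
    congr 1
    ext z
    rw [mul_div_cancel_left₀ z hc]
  rw [h1, hmap, Measure.restrict_smul, lintegral_smul_measure, smul_eq_mul,
    ← lintegral_const_mul _ hF]
  refine le_of_eq ?_
  congr 1
  ext z
  rw [abs_inv, one_div, mul_div_assoc]

theorem HasLoad.add_smul {μ ν : Measure ℝ} {f g : ℝ → ℝ≥0∞} (hf : Measurable f) (hg : Measurable g)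
    (h : HasLoad μ f) (h' : HasLoad ν g) (p q : ℝ≥0∞) (hp : p ≠ ⊤) (hq : q ≠ ⊤) :
    HasLoad (p • μ + q • ν) (fun z => p * f z + q * g z) := by
  unfold HasLoad at *
  refine Measure.le_iff.2 fun s hs => ?_
  rw [withDensity_apply _ hs, Measure.add_apply, Measure.smul_apply, Measure.smul_apply,
    smul_eq_mul, smul_eq_mul]
  have h1 := h s
  have h2 := h' s
  rw [withDensity_apply _ hs] at h1 h2
  have h3 : ∫⁻ z in s, (p * f z + q * g z) / 2 = p * (∫⁻ z in s, f z / 2) + q * ∫⁻ z in s, g z / 2 := by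
    rw [← lintegral_const_mul _ (hf.div_const 2), ← lintegral_const_mul _ (hg.div_const 2),
      ← lintegral_add_left ((hf.div_const 2).const_mul p)]
    congr 1
    ext z
    rw [ENNReal.add_div, mul_div_assoc, mul_div_assoc]
  rw [h3]
  gcongr

/-- mixtures over a parameter -/
theorem HasLoad.bind {Q : Type} [MeasurableSpace Q] (π : Measure Q) [SFinite π]
    (κ : Kernel Q ℝ) [IsSFiniteKernel κ] (f : Q → ℝ → ℝ≥0∞) (hf : Measurable (Function.uncurry f))
    (h : ∀ᵐ q ∂π, HasLoad (κ q) (f q)) : HasLoad (π.bind κ) (fun z => ∫⁻ q, f q z ∂π) := by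
  unfold HasLoad at *
  refine Measure.le_iff.2 fun s hs => ?_
  rw [Measure.bind_apply hs κ.measurable.aemeasurable, withDensity_apply _ hs]
  have hf2 : Measurable (fun p : Q × ℝ => f p.1 p.2 / 2) := hf.div_const 2
  calc ∫⁻ q, κ q s ∂π ≤ ∫⁻ q, (∫⁻ z in s, f q z / 2) ∂π := by
        refine lintegral_mono_ae ?_
        filter_upwards [h] with q hq
        have := hq s
        rwa [withDensity_apply _ hs] at this
    _ = ∫⁻ z in s, (∫⁻ q, f q z / 2 ∂π) := by
        rw [lintegral_lintegral_swap]
        exact hf2.aemeasurable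
    _ = ∫⁻ z in s, (∫⁻ q, f q z ∂π) / 2 := by
        congr 1
        ext z
        have : Measurable (fun q => f q z) := hf.comp (measurable_id.prodMk measurable_const)
        simp only [div_eq_mul_inv]
        rw [lintegral_mul_const _ this]

end Pool.Agent.helper49.Slope
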