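import Pool.Agent.helper49.Slope.DefsB
import Pool.Agent.helper49.Slope.B2a

/-!
MP_aedd95_co (slope of k-fold hyperplane covers of triangular grids), module B7d.
Symmetrisation.
-/

set_option autoImplicit false

open MeasureTheory ProbabilityTheory
open scoped ENNReal

namespace Pool.Agent.helper49.Slope

theorem B7d_avg {τ : Type} [Fintype τ] (c : ℝ≥0∞) (ν : τ → Measure ℝ) (f : τ → ℝ → ℝ≥0∞)
    (hf : ∀ t, Measurable (f t)) (h : ∀ t, HasLoad (ν t) (f t)) (s : Set ℝ)
    (hs : MeasurableSet s) :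
    c * ∑ t, ν t s ≤ (volume.withDensity (fun z => (c * ∑ t, f t z) / 2)) s := by
  rw [withDensity_apply _ hs]
  have h1 : ∀ t, ν t s ≤ ∫⁻ z in s, f t z / 2 := by
    intro t
    have := Measure.le_iff.mp (h t) s hs
    rwa [withDensity_apply _ hs] at this
  calc c * ∑ t, ν t s ≤ c * ∑ t, ∫⁻ z in s, f t z / 2 := by
        gcongr with t _
        exact h1 t
    _ = ∫⁻ z in s, c * ∑ t, f t z / 2 := by
        rw [lintegral_const_mul _ (Finset.measurable_sum _ fun t _ => (hf t).div_const 2),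
          lintegral_finset_sum _ fun t _ => (hf t).div_const 2]
    _ = ∫⁻ z in s, (c * ∑ t, f t z) / 2 := by
        congr 1
        funext z
        simp only [div_eq_mul_inv]
        rw [← Finset.sum_mul, mul_assoc]

/-- permute the coordinates -/
def B7dperm {ι : Type} (σ : Equiv.Perm ι) (y : ι → ℝ) : ι → ℝ := fun i => y (σ.symm i)

theorem B7d_measurable_perm {ι : Type} (σ : Equiv.Perm ι) : Measurable (B7dperm σ) :=
  measurable_pi_iff.mpr fun i => measurable_pi_apply _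

theorem B7d_measurable_lin {ι : Type} [Fintype ι] (u : ι → ℤ) : Measurable (lin u) := by
  unfold lin
  exact Finset.measurable_sum _ fun i _ => (measurable_pi_apply i).const_mul _

theorem B7d_lin_perm {ι : Type} [Fintype ι] (u : ι → ℤ) (σ : Equiv.Perm ι) :
    lin u ∘ B7dperm σ = lin (u ∘ σ) := by
  funext y
  simp only [Function.comp, lin, B7dperm]
  rw [← Equiv.sum_comp σ (fun i => (u i : ℝ) * y (σ.symm i))]
  simp

/-- the symmetrised kernel -/
noncomputable def B7dker {Q ι : Type} [MeasurableSpace Q] [Fintype ι] [DecidableEq ι]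
    (κ : Kernel Q (ι → ℝ)) : Kernel Q (ι → ℝ) where
  toFun q := (((Fintype.card ι).factorial : ℝ≥0∞)⁻¹) •
    ∑ σ : Equiv.Perm ι, (κ q).map (B7dperm σ)
  measurable' := by
    refine Measure.measurable_of_measurable_coe _ fun s hs => ?_
    simp only [Measure.coe_smul, Pi.smul_apply, smul_eq_mul, Measure.coe_finset_sum,
      Finset.sum_apply]
    refine Measurable.const_mul (Finset.measurable_sum _ fun σ _ => ?_) _
    simp only [Measure.map_apply (B7d_measurable_perm σ) hs]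
    exact κ.measurable_coe ((B7d_measurable_perm σ) hs)

theorem B7dker_apply {Q ι : Type} [MeasurableSpace Q] [Fintype ι] [DecidableEq ι]
    (κ : Kernel Q (ι → ℝ)) (q : Q) (s : Set (ι → ℝ)) (hs : MeasurableSet s) :
    B7dker κ q s = (((Fintype.card ι).factorial : ℝ≥0∞)⁻¹) *
      ∑ σ : Equiv.Perm ι, κ q (B7dperm σ ⁻¹' s) := by
  have : B7dker κ q = (((Fintype.card ι).factorial : ℝ≥0∞)⁻¹) •
    ∑ σ : Equiv.Perm ι, (κ q).map (B7dperm σ) := rfl
  rw [this]
  simp only [Measure.coe_smul, Pi.smul_apply, smul_eq_mul, Measure.coe_finset_sum,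
      Finset.sum_apply, Measure.map_apply (B7d_measurable_perm _) hs]

theorem B7d_count {ι : Type} [Fintype ι] [DecidableEq ι] (i : ι) (g : ι → ℝ≥0∞) :
    (∑ σ : Equiv.Perm ι, g (σ.symm i)) / ((Fintype.card ι).factorial : ℝ≥0∞) =
      (∑ j, g j) / (Fintype.card ι : ℝ≥0∞) := by
  have h0 : ∀ i', ∑ σ : Equiv.Perm ι, g (σ.symm i') = ∑ σ : Equiv.Perm ι, g (σ.symm i) := by
    intro i'
    rw [← Equiv.sum_comp (Equiv.mulLeft (Equiv.swap i i')) (fun σ : Equiv.Perm ι => g (σ.symm i'))]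
    apply Finset.sum_congr rfl
    intro σ _
    congr 1
    change (Equiv.swap i i' * σ)⁻¹ i' = σ⁻¹ i
    rw [mul_inv_rev, Equiv.swap_inv, Equiv.Perm.mul_apply, Equiv.swap_apply_right]
  have h1 : (Fintype.card ι : ℝ≥0∞) * ∑ σ : Equiv.Perm ι, g (σ.symm i) =
      ((Fintype.card ι).factorial : ℝ≥0∞) * ∑ j, g j := by
    calc (Fintype.card ι : ℝ≥0∞) * ∑ σ : Equiv.Perm ι, g (σ.symm i)
        = ∑ i', ∑ σ : Equiv.Perm ι, g (σ.symm i') := by
          simp only [h0, Finset.sum_const, Finset.card_univ, nsmul_eq_mul]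
      _ = ∑ σ : Equiv.Perm ι, ∑ i', g (σ.symm i') := Finset.sum_comm
      _ = ∑ σ : Equiv.Perm ι, ∑ j, g j := by
          apply Finset.sum_congr rfl
          intro σ _
          exact Equiv.sum_comp σ.symm g
      _ = _ := by
          rw [Finset.sum_const, Finset.card_univ, Fintype.card_perm, nsmul_eq_mul]
  have hn : (Fintype.card ι : ℝ≥0∞) ≠ 0 := by
    have : 0 < Fintype.card ι := Fintype.card_pos_iff.mpr ⟨i⟩
    exact_mod_cast this.ne'
  have hn' : (Fintype.card ι : ℝ≥0∞) ≠ ⊤ := ENNReal.natCast_ne_top _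
  have hf : ((Fintype.card ι).factorial : ℝ≥0∞) ≠ 0 := by
    exact_mod_cast (Nat.factorial_pos _).ne'
  have hf' : ((Fintype.card ι).factorial : ℝ≥0∞) ≠ ⊤ := ENNReal.natCast_ne_top _
  rw [ENNReal.div_eq_div_iff hn hn' hf hf', h1]

/-- **B7d.** symmetrisation over all permutations of the coordinates -/
theorem exists_symKernel {Q ι : Type} [MeasurableSpace Q] [Fintype ι] [DecidableEq ι]
    (κ : Kernel Q (ι → ℝ)) [IsMarkovKernel κ] :
    ∃ ζ : Kernel Q (ι → ℝ), IsMarkovKernel ζ ∧ ∀ q,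
      (∀ a : ℝ, Supp (κ q) a → Supp (ζ q) a) ∧
      (∀ (u : ι → ℤ) (f : Equiv.Perm ι → ℝ → ℝ≥0∞), (∀ σ, Measurable (f σ)) →
        (∀ σ : Equiv.Perm ι, HasLoad ((κ q).map (lin (u ∘ σ))) (f σ)) →
        HasLoad ((ζ q).map (lin u))
          (fun z => (∑ σ : Equiv.Perm ι, f σ z) / ((Fintype.card ι).factorial : ℝ≥0∞))) ∧
      (∀ (f : ι → ℝ → ℝ≥0∞), (∀ i, Measurable (f i)) →
        (∀ i : ι, HasLoad ((κ q).map (fun y => y i)) (f i)) → ∀ i : ι,
        HasLoad ((ζ q).map (fun y => y i)) (fun z => (∑ j, f j z) / (Fintype.card ι : ℝ≥0∞))) := by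
  have hfac : ((Fintype.card ι).factorial : ℝ≥0∞) ≠ 0 := by
    exact_mod_cast (Nat.factorial_pos _).ne'
  have hfac' : ((Fintype.card ι).factorial : ℝ≥0∞) ≠ ⊤ := ENNReal.natCast_ne_top _
  refine ⟨B7dker κ, ⟨fun q => ⟨?_⟩⟩, fun q => ⟨?_, ?_, ?_⟩⟩
  · rw [B7dker_apply κ q _ MeasurableSet.univ]
    simp only [Set.preimage_univ, measure_univ, Finset.sum_const, Finset.card_univ,
      Fintype.card_perm, nsmul_eq_mul, mul_one]
    exact ENNReal.inv_mul_cancel hfac hfac'
  · intro a ha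
    have hms : MeasurableSet {y : ι → ℝ | (∀ i, |y i| ≤ 1) ∧ ∑ i, y i = a} := by
      apply MeasurableSet.inter
      · have : {y : ι → ℝ | ∀ i, |y i| ≤ 1} = ⋂ i, {y : ι → ℝ | |y i| ≤ 1} := by
          ext y; simp
        change MeasurableSet {y : ι → ℝ | ∀ i, |y i| ≤ 1}
        rw [this]
        exact MeasurableSet.iInter fun i =>
          measurableSet_le ((measurable_pi_apply i).abs) measurable_const
      · exact measurableSet_eq_fun (Finset.measurable_sum _ fun i _ => measurable_pi_apply i)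
          measurable_const
    unfold Supp at ha ⊢
    rw [ae_iff] at ha ⊢
    have e1 : {y : ι → ℝ | ¬ ((∀ i, |y i| ≤ 1) ∧ ∑ i, y i = a)} =
        {y : ι → ℝ | (∀ i, |y i| ≤ 1) ∧ ∑ i, y i = a}ᶜ := rfl
    rw [e1] at ha ⊢
    rw [B7dker_apply κ q _ hms.compl]
    have e2 : ∀ σ : Equiv.Perm ι, B7dperm σ ⁻¹' {y : ι → ℝ | (∀ i, |y i| ≤ 1) ∧ ∑ i, y i = a}ᶜ =
        {y : ι → ℝ | (∀ i, |y i| ≤ 1) ∧ ∑ i, y i = a}ᶜ := by
      intro σ
      ext y
      have h1 : (∀ i, |y (σ.symm i)| ≤ 1) ↔ ∀ i, |y i| ≤ 1 := by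
        constructor
        · intro h i
          have := h (σ i)
          simpa using this
        · intro h i
          exact h _
      have h2 : ∑ i, y (σ.symm i) = ∑ i, y i := Equiv.sum_comp σ.symm y
      change ¬ ((∀ i, |y (σ.symm i)| ≤ 1) ∧ ∑ i, y (σ.symm i) = a) ↔
        ¬ ((∀ i, |y i| ≤ 1) ∧ ∑ i, y i = a)
      rw [h1, h2]
    simp only [e2, ha, Finset.sum_const_zero, mul_zero]
  · intro u f hf h
    unfold HasLoad
    rw [Measure.le_iff]
    intro s hs
    rw [Measure.map_apply (B7d_measurable_lin u) hs,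
      B7dker_apply κ q _ (B7d_measurable_lin u hs)]
    have h3 := B7d_avg ((((Fintype.card ι).factorial : ℝ≥0∞))⁻¹)
      (fun σ : Equiv.Perm ι => (κ q).map (lin (u ∘ σ))) f hf h s hs
    have e3 : ∀ σ : Equiv.Perm ι, κ q (B7dperm σ ⁻¹' (lin u ⁻¹' s)) =
        (κ q).map (lin (u ∘ σ)) s := by
      intro σ
      rw [Measure.map_apply (B7d_measurable_lin _) hs, ← Set.preimage_comp, B7d_lin_perm]
    simp only [e3]
    refine h3.trans (le_of_eq ?_)
    congr 2
    funext z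
    rw [div_eq_mul_inv (∑ σ : Equiv.Perm ι, f σ z) _, mul_comm]
  · intro f hf h i
    unfold HasLoad
    rw [Measure.le_iff]
    intro s hs
    rw [Measure.map_apply (measurable_pi_apply i) hs,
      B7dker_apply κ q _ (measurable_pi_apply i hs)]
    have h3 := B7d_avg ((((Fintype.card ι).factorial : ℝ≥0∞))⁻¹)
      (fun σ : Equiv.Perm ι => (κ q).map (fun y => y (σ.symm i))) (fun σ => f (σ.symm i))
      (fun σ => hf _) (fun σ => h _) s hs
    have e3 : ∀ σ : Equiv.Perm ι, κ q (B7dperm σ ⁻¹' ((fun y : ι → ℝ => y i) ⁻¹' s)) =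
        (κ q).map (fun y => y (σ.symm i)) s := by
      intro σ
      have hm : Measurable (fun y : ι → ℝ => y (σ.symm i)) := measurable_pi_apply _
      rw [Measure.map_apply hm hs]
      rfl
    simp only [e3]
    refine h3.trans (le_of_eq ?_)
    congr 2
    funext z
    rw [← B7d_count i (fun j => f j z), div_eq_mul_inv (∑ σ : Equiv.Perm ι, f (σ.symm i) z) _,
      mul_comm]

/-- **B7e.** symmetrisation of a single law -/
theorem exists_sym {ι : Type} [Fintype ι] [DecidableEq ι] (μ : Measure (ι → ℝ))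
    [IsProbabilityMeasure μ] :
    ∃ ζ : Measure (ι → ℝ), IsProbabilityMeasure ζ ∧ (∀ a : ℝ, Supp μ a → Supp ζ a) ∧
      (∀ (u : ι → ℤ) (f : Equiv.Perm ι → ℝ → ℝ≥0∞), (∀ σ, Measurable (f σ)) →
        (∀ σ : Equiv.Perm ι, HasLoad (μ.map (lin (u ∘ σ))) (f σ)) →
        HasLoad (ζ.map (lin u))
          (fun z => (∑ σ : Equiv.Perm ι, f σ z) / ((Fintype.card ι).factorial : ℝ≥0∞))) := by
  obtain ⟨ζ, hζ, h⟩ := exists_symKernel (Kernel.const Unit μ)
  refine ⟨ζ (), hζ.isProbabilityMeasure (), ?_, ?_⟩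
  · intro a ha
    exact (h ()).1 a (by rw [Kernel.const_apply]; exact ha)
  · intro u f hf hl
    exact (h ()).2.1 u f hf (fun σ => by rw [Kernel.const_apply]; exact hl σ)

end Pool.Agent.helper49.Slope
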