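import Pool.Agent.helper49.Slope.DefsB

/-!
MP_aedd95_co (slope of k-fold hyperplane covers of triangular grids), module B8a.
Counting, two blocks.
-/

set_option autoImplicit false

open MeasureTheory ProbabilityTheory
open scoped ENNReal

namespace Pool.Agent.helper49.Slope

/-- the sum of `G (σ⁻¹ T)` over all permutations does not depend on `T` of given size -/
theorem B8a_sum_perm_congr {ι : Type} [Fintype ι] [DecidableEq ι] (T T' : Finset ι)
    (h : T.card = T'.card) (G : Finset ι → ℝ) :
    ∑ σ : Equiv.Perm ι, G (Finset.univ.filter (fun x => σ x ∈ T)) =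
      ∑ σ : Equiv.Perm ι, G (Finset.univ.filter (fun x => σ x ∈ T')) := by
  obtain ⟨e⟩ : Nonempty ({x // x ∈ T} ≃ {x // x ∈ T'}) := by
    refine ⟨Fintype.equivOfCardEq ?_⟩
    simp [h]
  set τ : Equiv.Perm ι := Equiv.extendSubtype (p := fun x => x ∈ T) (q := fun x => x ∈ T') e
    with hτ
  have hmem : ∀ x, (τ x ∈ T' ↔ x ∈ T) := by
    intro x
    constructor
    · intro hx
      by_contra hn
      exact Equiv.extendSubtype_not_mem e x hn hx
    · intro hx
      exact Equiv.extendSubtype_mem e x hx
  refine Fintype.sum_equiv (Equiv.mulLeft τ) _ _ ?_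
  intro σ
  congr 1
  ext x
  simp [hmem]

/-- average over the permutations = average over the sets -/
theorem B8a_sum_perm {ι : Type} [Fintype ι] [DecidableEq ι] (T : Finset ι)
    (G : Finset ι → ℝ) :
    ∑ σ : Equiv.Perm ι, G (Finset.univ.filter (fun x => σ x ∈ T)) =
      ((Fintype.card ι).factorial : ℝ) *
        (∑ U ∈ Finset.powersetCard T.card (Finset.univ : Finset ι), G U) /
          ((Fintype.card ι).choose T.card) := by
  have hle : T.card ≤ Fintype.card ι := Finset.card_le_univ T
  have hpos : (0 : ℝ) < ((Fintype.card ι).choose T.card : ℝ) := by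
    exact_mod_cast Nat.choose_pos hle
  rw [eq_div_iff hpos.ne']
  have h1 : ∑ T' ∈ Finset.powersetCard T.card (Finset.univ : Finset ι),
      ∑ σ : Equiv.Perm ι, G (Finset.univ.filter (fun x => σ x ∈ T')) =
      ((Fintype.card ι).choose T.card : ℝ) *
        ∑ σ : Equiv.Perm ι, G (Finset.univ.filter (fun x => σ x ∈ T)) := by
    rw [Finset.sum_congr rfl (g := fun _ =>
      ∑ σ : Equiv.Perm ι, G (Finset.univ.filter (fun x => σ x ∈ T)))]
    · rw [Finset.sum_const, Finset.card_powersetCard, Finset.card_univ, nsmul_eq_mul]
    · intro T' hT'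
      rw [Finset.mem_powersetCard] at hT'
      exact B8a_sum_perm_congr T' T hT'.2 G
  have h2 : ∑ T' ∈ Finset.powersetCard T.card (Finset.univ : Finset ι),
      ∑ σ : Equiv.Perm ι, G (Finset.univ.filter (fun x => σ x ∈ T')) =
      ((Fintype.card ι).factorial : ℝ) *
        ∑ U ∈ Finset.powersetCard T.card (Finset.univ : Finset ι), G U := by
    rw [Finset.sum_comm]
    rw [Finset.sum_congr rfl (g := fun _ =>
      ∑ U ∈ Finset.powersetCard T.card (Finset.univ : Finset ι), G U)]
    · rw [Finset.sum_const, Finset.card_univ, Fintype.card_perm, nsmul_eq_mul]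
    · intro σ _
      refine Finset.sum_nbij' (fun T' => Finset.univ.filter (fun x => σ x ∈ T'))
        (fun U => Finset.univ.filter (fun x => σ.symm x ∈ U)) ?_ ?_ ?_ ?_ ?_
      · intro T' hT'
        rw [Finset.mem_powersetCard] at hT' ⊢
        refine ⟨Finset.subset_univ _, ?_⟩
        rw [← hT'.2]
        refine Finset.card_bij (fun x _ => σ x) ?_ ?_ ?_
        · intro a ha
          simpa using ha
        · intro a _ b _ hab
          exact σ.injective hab
        · intro b hb
          exact ⟨σ.symm b, by simpa using hb, by simp⟩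
      · intro U hU
        rw [Finset.mem_powersetCard] at hU ⊢
        refine ⟨Finset.subset_univ _, ?_⟩
        rw [← hU.2]
        refine Finset.card_bij (fun x _ => σ.symm x) ?_ ?_ ?_
        · intro a ha
          simpa using ha
        · intro a _ b _ hab
          exact σ.symm.injective hab
        · intro b hb
          exact ⟨σ b, by simpa using hb, by simp⟩
      · intro T' _
        ext x
        simp
      · intro U _
        ext x
        simp
      · intro T' _
        rfl
  rw [← h2, h1]
  ring

/-- sum over the subsets of size `k` of a disjoint union -/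
theorem B8a_sum_powersetCard {α β : Type} [Fintype α] [Fintype β] [DecidableEq α]
    [DecidableEq β] (k : ℕ) (g : ℕ → ℕ → ℝ) :
    ∑ U ∈ Finset.powersetCard k (Finset.univ : Finset (α ⊕ β)),
      g (Finset.toLeft U).card (Finset.toRight U).card =
      ∑ j ∈ Finset.range (k + 1), ((Fintype.card α).choose j : ℝ) *
        ((Fintype.card β).choose (k - j)) * g j (k - j) := by
  have h0 : ∑ U ∈ Finset.powersetCard k (Finset.univ : Finset (α ⊕ β)),
      g (Finset.toLeft U).card (Finset.toRight U).card =
      ∑ U : Finset (α ⊕ β), if (Finset.toLeft U).card + (Finset.toRight U).card = k then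
        g (Finset.toLeft U).card (Finset.toRight U).card else 0 := by
    rw [← Finset.sum_filter]
    refine Finset.sum_congr ?_ (fun _ _ => rfl)
    ext U
    simp [Finset.mem_powersetCard, Finset.card_toLeft_add_card_toRight]
  have h1 : ∑ U : Finset (α ⊕ β),
      (if (Finset.toLeft U).card + (Finset.toRight U).card = k then
        g (Finset.toLeft U).card (Finset.toRight U).card else 0) =
      ∑ A : Finset α, ∑ B : Finset β, if A.card + B.card = k then g A.card B.card else 0 := by
    rw [← Fintype.sum_prod_type']
    refine Fintype.sum_equiv (Finset.sumEquiv (α := α) (β := β)).toEquiv _ _ ?_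
    intro U
    rfl
  have h2 : ∀ j : ℕ, ∑ B : Finset β, (if j + B.card = k then g j B.card else 0) =
      ∑ l ∈ Finset.range (Fintype.card β + 1), ((Fintype.card β).choose l : ℝ) *
        (if j + l = k then g j l else 0) := by
    intro j
    have := Finset.sum_powerset_apply_card (x := (Finset.univ : Finset β))
      (fun l => if j + l = k then g j l else 0)
    rw [Finset.powerset_univ, Finset.card_univ] at this
    rw [this]
    refine Finset.sum_congr rfl (fun l _ => ?_)
    rw [nsmul_eq_mul]
  have h3 : ∑ A : Finset α, ∑ B : Finset β, (if A.card + B.card = k then g A.card B.card else 0)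
      = ∑ j ∈ Finset.range (Fintype.card α + 1), ((Fintype.card α).choose j : ℝ) *
        ∑ l ∈ Finset.range (Fintype.card β + 1), ((Fintype.card β).choose l : ℝ) *
        (if j + l = k then g j l else 0) := by
    have := Finset.sum_powerset_apply_card (x := (Finset.univ : Finset α))
      (fun j => ∑ B : Finset β, (if j + B.card = k then g j B.card else 0))
    rw [Finset.powerset_univ, Finset.card_univ] at this
    rw [this]
    refine Finset.sum_congr rfl (fun j _ => ?_)
    rw [nsmul_eq_mul, h2]
  have h4 : ∀ j ∈ Finset.range (k + 1),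
      ∑ l ∈ Finset.range (Fintype.card β + 1), ((Fintype.card β).choose l : ℝ) *
        (if j + l = k then g j l else 0) = ((Fintype.card β).choose (k - j)) * g j (k - j) := by
    intro j hj
    rw [Finset.mem_range] at hj
    by_cases hb : k - j ∈ Finset.range (Fintype.card β + 1)
    · rw [Finset.sum_eq_single_of_mem (k - j) hb]
      · rw [if_pos (by omega)]
      · intro l _ hl
        rw [if_neg (by omega), mul_zero]
    · rw [Finset.mem_range, not_lt] at hb
      rw [Nat.choose_eq_zero_of_lt (by omega), Nat.cast_zero, zero_mul]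
      refine Finset.sum_eq_zero (fun l hl => ?_)
      rw [Finset.mem_range] at hl
      rw [if_neg (by omega), mul_zero]
  have h5 : ∀ j, k < j → ∑ l ∈ Finset.range (Fintype.card β + 1),
      ((Fintype.card β).choose l : ℝ) * (if j + l = k then g j l else 0) = 0 := by
    intro j hj
    refine Finset.sum_eq_zero (fun l _ => ?_)
    rw [if_neg (by omega), mul_zero]
  rw [h0, h1, h3]
  set F : ℕ → ℝ := fun j => ((Fintype.card α).choose j : ℝ) *
        ∑ l ∈ Finset.range (Fintype.card β + 1), ((Fintype.card β).choose l : ℝ) *
        (if j + l = k then g j l else 0) with hF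
  have h6 : ∑ j ∈ Finset.range (k + 1), ((Fintype.card α).choose j : ℝ) *
        ((Fintype.card β).choose (k - j)) * g j (k - j) = ∑ j ∈ Finset.range (k + 1), F j := by
    refine Finset.sum_congr rfl (fun j hj => ?_)
    rw [hF]
    simp only []
    rw [h4 j hj]
    ring
  rw [h6]
  have h7 : ∀ m : ℕ, Fintype.card α + 1 ≤ m → ∑ j ∈ Finset.range m, F j =
      ∑ j ∈ Finset.range (Fintype.card α + 1), F j := by
    intro m hm
    symm
    refine Finset.sum_subset (Finset.range_subset_range.2 hm) (fun j _ hj => ?_)
    rw [Finset.mem_range, not_lt] at hj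
    rw [hF]
    simp only []
    rw [Nat.choose_eq_zero_of_lt (by omega), Nat.cast_zero, zero_mul]
  have h8 : ∀ m : ℕ, k + 1 ≤ m → ∑ j ∈ Finset.range m, F j =
      ∑ j ∈ Finset.range (k + 1), F j := by
    intro m hm
    symm
    refine Finset.sum_subset (Finset.range_subset_range.2 hm) (fun j _ hj => ?_)
    rw [Finset.mem_range, not_lt] at hj
    rw [hF]
    simp only []
    rw [h5 j (by omega), mul_zero]
  rw [← h7 (Fintype.card α + 1 + (k + 1)) (by omega), h8 _ (by omega)]

open Classical in
/-- **B8a.** average over permutations of a function of the intersection size, two blocks -/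
theorem sum_perm_two {α β : Type} [Fintype α] [Fintype β] [DecidableEq α] [DecidableEq β]
    (T : Finset (α ⊕ β)) (g : ℕ → ℕ → ℝ) :
    ∑ σ : Equiv.Perm (α ⊕ β),
      g ((Finset.univ.filter (fun i : α => σ (Sum.inl i) ∈ T)).card)
        ((Finset.univ.filter (fun i : β => σ (Sum.inr i) ∈ T)).card)
    = ((Fintype.card (α ⊕ β)).factorial : ℝ) *
      (∑ j ∈ Finset.range (T.card + 1), ((Fintype.card α).choose j : ℝ) *
        ((Fintype.card β).choose (T.card - j)) * g j (T.card - j)) /
      ((Fintype.card (α ⊕ β)).choose T.card) := by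
  rw [← B8a_sum_powersetCard (α := α) (β := β) T.card g]
  have h := B8a_sum_perm T (fun U => g (Finset.toLeft U).card (Finset.toRight U).card)
  rw [← h]
  refine Finset.sum_congr ?_ ?_
  · ext σ
    simp
  · intro σ _
    have e1 : Finset.toLeft (Finset.univ.filter (fun x : α ⊕ β => σ x ∈ T)) =
        Finset.univ.filter (fun i : α => σ (Sum.inl i) ∈ T) := by
      ext i
      simp
    have e2 : Finset.toRight (Finset.univ.filter (fun x : α ⊕ β => σ x ∈ T)) =
        Finset.univ.filter (fun i : β => σ (Sum.inr i) ∈ T) := by
      ext i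
      simp
    show _ = g _ _
    congr 2
    · rw [← e1]
    · rw [← e2]

end Pool.Agent.helper49.Slope
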