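import Pool.Agent.helper49.Slope.DefsK

/-!
MP_aedd95_co (slope of k-fold hyperplane covers of triangular grids), module B8d.
Sum over all permutations of a function of the images of two elements: the number of permutations
with `σ i = x`, `σ j = y` is `(n-2)!` for `x ≠ y`. Also for functions with values in `ℝ≥0∞`.
-/

set_option autoImplicit false

open MeasureTheory ProbabilityTheory
open scoped ENNReal

namespace Pool.Agent.helper49.Slope

/-- the number of permutations with two prescribed values does not depend on the values -/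
theorem B8d_congr {ι : Type} [Fintype ι] [DecidableEq ι] (i j : ι) {x y x' y' : ι} (h : x ≠ y)
    (h' : x' ≠ y') :
    (Finset.univ.filter (fun σ : Equiv.Perm ι => σ i = x ∧ σ j = y)).card =
      (Finset.univ.filter (fun σ : Equiv.Perm ι => σ i = x' ∧ σ j = y')).card := by
  set τ : Equiv.Perm ι := Equiv.swap (Equiv.swap x x' y) y' * Equiv.swap x x' with hτ
  have h0 : x' ≠ Equiv.swap x x' y := by
    intro h1
    have h2 : Equiv.swap x x' x = Equiv.swap x x' y := by rw [Equiv.swap_apply_left]; exact h1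
    exact h ((Equiv.swap x x').injective h2)
  have hx : τ x = x' := by
    rw [hτ, Equiv.Perm.mul_apply, Equiv.swap_apply_left, Equiv.swap_apply_of_ne_of_ne h0 h']
  have hy : τ y = y' := by
    rw [hτ, Equiv.Perm.mul_apply, Equiv.swap_apply_left]
  refine Finset.card_bij (fun σ _ => τ * σ) ?_ ?_ ?_
  · intro σ hσ
    rw [Finset.mem_filter] at hσ ⊢
    refine ⟨Finset.mem_univ _, ?_, ?_⟩
    · rw [Equiv.Perm.mul_apply, hσ.2.1, hx]
    · rw [Equiv.Perm.mul_apply, hσ.2.2, hy]
  · intro σ _ σ' _ hh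
    exact mul_left_cancel hh
  · intro σ hσ
    rw [Finset.mem_filter] at hσ
    refine ⟨τ⁻¹ * σ, ?_, by rw [mul_inv_cancel_left]⟩
    rw [Finset.mem_filter]
    refine ⟨Finset.mem_univ _, ?_, ?_⟩
    · rw [Equiv.Perm.mul_apply, hσ.2.1, Equiv.Perm.inv_eq_iff_eq, hx]
    · rw [Equiv.Perm.mul_apply, hσ.2.2, Equiv.Perm.inv_eq_iff_eq, hy]

theorem B8d_gen {ι M : Type} [Fintype ι] [DecidableEq ι] [CommSemiring M] (i j : ι) (hij : i ≠ j)
    (f : ι → ι → M) :
    ∑ σ : Equiv.Perm ι, f (σ i) (σ j) =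
      ∑ x, ∑ y ∈ Finset.univ.erase x,
        ((Finset.univ.filter (fun σ : Equiv.Perm ι => σ i = x ∧ σ j = y)).card : M) * f x y := by
  have h1 : ∑ σ : Equiv.Perm ι, f (σ i) (σ j) =
      ∑ x, ∑ y, ∑ σ : Equiv.Perm ι, if σ i = x ∧ σ j = y then f x y else 0 := by
    have h2 : ∀ σ : Equiv.Perm ι, f (σ i) (σ j) =
        ∑ x, ∑ y, if σ i = x ∧ σ j = y then f x y else 0 := by
      intro σ
      rw [Finset.sum_eq_single (σ i)]
      · rw [Finset.sum_eq_single (σ j)]
        · rw [if_pos ⟨rfl, rfl⟩]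
        · intro y _ hy
          rw [if_neg (fun h => hy h.2.symm)]
        · intro h
          exact absurd (Finset.mem_univ _) h
      · intro x _ hx
        refine Finset.sum_eq_zero fun y _ => ?_
        rw [if_neg (fun h => hx h.1.symm)]
      · intro h
        exact absurd (Finset.mem_univ _) h
    rw [Finset.sum_congr rfl (fun σ _ => h2 σ), Finset.sum_comm]
    refine Finset.sum_congr rfl fun x _ => ?_
    rw [Finset.sum_comm]
  rw [h1]
  refine Finset.sum_congr rfl fun x _ => ?_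
  have h3 : ∀ y, (∑ σ : Equiv.Perm ι, if σ i = x ∧ σ j = y then f x y else 0) =
      ((Finset.univ.filter (fun σ : Equiv.Perm ι => σ i = x ∧ σ j = y)).card : M) * f x y := by
    intro y
    rw [← Finset.sum_filter, Finset.sum_const, nsmul_eq_mul]
  rw [Finset.sum_congr rfl (fun y _ => h3 y), ← Finset.add_sum_erase _ _ (Finset.mem_univ x)]
  have h4 : (Finset.univ.filter (fun σ : Equiv.Perm ι => σ i = x ∧ σ j = x)) = ∅ := by
    rw [Finset.filter_eq_empty_iff]
    rintro σ _ ⟨ha, hb⟩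
    exact hij (σ.injective (ha.trans hb.symm))
  rw [h4, Finset.card_empty, Nat.cast_zero, zero_mul, zero_add]

theorem B8d_card {ι : Type} [Fintype ι] [DecidableEq ι] (i j : ι) (hij : i ≠ j) {x y : ι}
    (h : x ≠ y) :
    (Finset.univ.filter (fun σ : Equiv.Perm ι => σ i = x ∧ σ j = y)).card =
      (Fintype.card ι - 2).factorial := by
  have h1 := B8d_gen (M := ℕ) i j hij (fun _ _ => 1)
  have h2 : ∑ a : ι, ∑ b ∈ Finset.univ.erase a,
      ((Finset.univ.filter (fun σ : Equiv.Perm ι => σ i = a ∧ σ j = b)).card : ℕ) * 1 =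
      ∑ a : ι, ∑ b ∈ Finset.univ.erase a,
        (Finset.univ.filter (fun σ : Equiv.Perm ι => σ i = x ∧ σ j = y)).card := by
    refine Finset.sum_congr rfl fun a _ => Finset.sum_congr rfl fun b hb => ?_
    rw [mul_one]
    exact B8d_congr i j (Finset.ne_of_mem_erase hb).symm h
  simp only [Nat.cast_id] at h1
  rw [h2] at h1
  simp only [Finset.sum_const, Finset.card_univ, smul_eq_mul, mul_one, Fintype.card_perm,
    Finset.card_erase_of_mem (Finset.mem_univ _)] at h1
  have hc : 2 ≤ Fintype.card ι := by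
    have h3 := Finset.card_le_univ ({i, j} : Finset ι)
    rwa [Finset.card_pair hij] at h3
  obtain ⟨n, hn⟩ : ∃ n, Fintype.card ι = n + 2 := ⟨Fintype.card ι - 2, by omega⟩
  rw [hn] at h1 ⊢
  have h4 : (n + 2).factorial = (n + 2) * ((n + 2 - 1) * n.factorial) := by
    rw [Nat.factorial_succ, Nat.factorial_succ]
    rfl
  rw [h4] at h1
  have h5 := Nat.eq_of_mul_eq_mul_left (by omega : 0 < n + 2) h1
  have h6 := Nat.eq_of_mul_eq_mul_left (by omega : 0 < n + 2 - 1) h5
  rw [Nat.add_sub_cancel]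
  exact h6.symm

theorem B8d_main {ι M : Type} [Fintype ι] [DecidableEq ι] [CommSemiring M] (i j : ι) (hij : i ≠ j)
    (f : ι → ι → M) :
    ∑ σ : Equiv.Perm ι, f (σ i) (σ j) =
      ((Fintype.card ι - 2).factorial : M) * ∑ x, ∑ y ∈ Finset.univ.erase x, f x y := by
  rw [B8d_gen i j hij f, Finset.mul_sum]
  refine Finset.sum_congr rfl fun x _ => ?_
  rw [Finset.mul_sum]
  refine Finset.sum_congr rfl fun y hy => ?_
  rw [B8d_card i j hij (Finset.ne_of_mem_erase hy).symm]

theorem sum_perm_pairs {ι : Type} [Fintype ι] [DecidableEq ι] (i j : ι) (hij : i ≠ j)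
    (f : ι → ι → ℝ≥0∞) :
    ∑ σ : Equiv.Perm ι, f (σ i) (σ j)
      = ((Fintype.card ι - 2).factorial : ℝ≥0∞) * ∑ x, ∑ y ∈ Finset.univ.erase x, f x y := by
  exact B8d_main i j hij f

theorem sum_perm_pairs_real {ι : Type} [Fintype ι] [DecidableEq ι] (i j : ι) (hij : i ≠ j)
    (f : ι → ι → ℝ) :
    ∑ σ : Equiv.Perm ι, f (σ i) (σ j)
      = ((Fintype.card ι - 2).factorial : ℝ) * ∑ x, ∑ y ∈ Finset.univ.erase x, f x y := by
  exact B8d_main i j hij f

/-- the same with the inverse permutation -/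
theorem sum_perm_pairs_symm {ι : Type} [Fintype ι] [DecidableEq ι] (i j : ι) (hij : i ≠ j)
    (f : ι → ι → ℝ≥0∞) :
    ∑ σ : Equiv.Perm ι, f (σ.symm i) (σ.symm j)
      = ((Fintype.card ι - 2).factorial : ℝ≥0∞) * ∑ x, ∑ y ∈ Finset.univ.erase x, f x y := by
  rw [← B8d_main i j hij f]
  exact Equiv.sum_comp (Equiv.inv (Equiv.Perm ι)) (fun σ : Equiv.Perm ι => f (σ i) (σ j))

end Pool.Agent.helper49.Slope
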