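import Pool.Agent.helper49.Slope.DefsD7

/-!
MP_aedd95_co (slope of k-fold hyperplane covers of triangular grids), module D7s.
The law `D_7`: finite sums of the tables.

PROOFS. `G72_sum`: the 21 sets: 3 pairs and 4 sets with one element of pair 1 and one of pair 2 have
the value `1` (7 sets), 8 sets have `TF7 t`, 4 sets (`6` and one of `0,1,2,3`) `TU7 t`, 2 sets (`6` and
`4` or `5`) `TV7 t`: the sum is `7 + 8 TF7 + 4 TU7 + 2 TV7`, and `8 TF7 t + 4 TU7 t + 2 TV7 t ≤ 14` in each
of the 12 rows of the tables (`split_ifs`, `norm_num`; the three tables have the same conditions).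
`G73_sum`: the 35 sets: `2·0.8108 + 1 + 8·0.999 + 4·0.98 + 8·0.9946 + 4·(1.0784 or 1.1568) + 8·(1 or
0.97)`. `H7_sum`: ordered pairs: `6·(5/2 or 0) + 4·(0.6623 or 0.7531) + 8·(0.6014 or 0.8130) +
16·(0.798 or 1.2815) + 8·(0.8042 or 1.1568)`. Scale the real values to integers (times 10000) in a
function of a Bool (as `D6l_g`, `D6l_h`) and `decide +kernel` or `simp` with `Finset.sum` over
`powersetCard` made explicit.
-/

set_option autoImplicit false

open MeasureTheory ProbabilityTheory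
open scoped ENNReal

namespace Pool.Agent.helper49.Slope

theorem D7s_nn {p : Prop} [Decidable p] {a b : ℝ} (ha : 0 ≤ a) (hb : 0 ≤ b) :
    0 ≤ if p then a else b := by
  by_cases h : p
  · rwa [if_pos h]
  · rwa [if_neg h]

theorem D7s_F_nonneg (t : ℝ) : 0 ≤ TF7 t := by
  unfold TF7
  repeat' refine D7s_nn ?_ ?_
  all_goals norm_num

theorem D7s_U_nonneg (t : ℝ) : 0 ≤ TU7 t := by
  unfold TU7
  repeat' refine D7s_nn ?_ ?_
  all_goals norm_num

theorem D7s_V_nonneg (t : ℝ) : 0 ≤ TV7 t := by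
  unfold TV7
  repeat' refine D7s_nn ?_ ?_
  all_goals norm_num

/-- one row of the three tables -/
theorem D7s_row {p : Prop} [Decidable p] {a b c a' b' c' : ℝ}
    (h : 7 + 8 * a + 4 * b + 2 * c ≤ 21) (h' : 7 + 8 * a' + 4 * b' + 2 * c' ≤ 21) :
    7 + 8 * (if p then a else a') + 4 * (if p then b else b') + 2 * (if p then c else c') ≤ 21 := by
  by_cases hp : p
  · rwa [if_pos hp, if_pos hp, if_pos hp]
  · rwa [if_neg hp, if_neg hp, if_neg hp]

theorem D7s_ite {f g : ℝ → ℝ} (c : ℝ) (hf : Measurable f) (hg : Measurable g) :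
    Measurable fun t : ℝ => if |t| ≤ c then f t else g t :=
  Measurable.ite (measurableSet_le (by fun_prop) measurable_const) hf hg

theorem D7s_ite' {f g : ℝ → ℝ} (c : ℝ) (hf : Measurable f) (hg : Measurable g) :
    Measurable fun t : ℝ => if c ≤ |t| then f t else g t :=
  Measurable.ite (measurableSet_le measurable_const (by fun_prop)) hf hg

theorem D7s_F_meas : Measurable TF7 := by
  unfold TF7
  repeat' first | exact measurable_const | refine D7s_ite _ ?_ ?_

theorem D7s_U_meas : Measurable TU7 := by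
  unfold TU7
  repeat' first | exact measurable_const | refine D7s_ite _ ?_ ?_

theorem D7s_V_meas : Measurable TV7 := by
  unfold TV7
  repeat' first | exact measurable_const | refine D7s_ite _ ?_ ?_

/-- an `if` with a constant condition -/
theorem D7s_const {p : Prop} [Decidable p] {f g : ℝ → ℝ} (hf : Measurable f) (hg : Measurable g) :
    Measurable fun t : ℝ => if p then f t else g t := by
  by_cases h : p
  · simpa only [h, if_true] using hf
  · simpa only [h, if_false] using hg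

theorem G72_nonneg (S : Finset (Fin 7)) (t : ℝ) : 0 ≤ G72 S t := by
  unfold G72
  split_ifs
  · exact D7s_V_nonneg t
  · exact D7s_U_nonneg t
  · exact zero_le_one
  · exact D7s_F_nonneg t

theorem G73_nonneg (S : Finset (Fin 7)) (t : ℝ) : 0 ≤ G73 S t := by
  unfold G73
  split_ifs <;> norm_num

theorem H7_nonneg (i j : Fin 7) (t : ℝ) : 0 ≤ H7 i j t := by
  unfold H7
  split_ifs <;> norm_num

theorem G72_measurable (S : Finset (Fin 7)) : Measurable (G72 S) := by
  unfold G72
  exact D7s_const (D7s_const D7s_V_meas D7s_U_meas) (D7s_const measurable_const D7s_F_meas)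

theorem G73_measurable (S : Finset (Fin 7)) : Measurable (G73 S) := by
  unfold G73
  repeat' first
    | exact measurable_const
    | refine D7s_ite' _ ?_ ?_
    | refine D7s_const ?_ ?_

theorem H7_measurable (i j : Fin 7) : Measurable (H7 i j) := by
  unfold H7
  repeat' first
    | exact measurable_const
    | refine D7s_ite' _ ?_ ?_
    | refine D7s_const ?_ ?_

/-- the kind of a set of size 2: `0` constant, `1` `TF7`, `2` `TU7`, `3` `TV7` -/
def D7s_kind (S : Finset (Fin 7)) : Fin 4 :=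
  if 6 ∈ S then (if 4 ∈ S ∨ 5 ∈ S then 3 else 2)
  else if (4 ∈ S ↔ 5 ∈ S) then 0 else 1

theorem D7s_kind_eq (S : Finset (Fin 7)) (t : ℝ) :
    G72 S t = ![1, TF7 t, TU7 t, TV7 t] (D7s_kind S) := by
  unfold G72 D7s_kind
  split_ifs <;> rfl

theorem D7s_kind_card (k : Fin 4) : ∑ S ∈ Finset.powersetCard 2 (Finset.univ : Finset (Fin 7)),
    (if D7s_kind S = k then (1 : ℤ) else 0) = ![7, 8, 4, 2] k := by
  revert k
  decide +kernel

theorem D7s_rows (t : ℝ) : 7 + 8 * TF7 t + 4 * TU7 t + 2 * TV7 t ≤ 21 := by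
  unfold TF7 TU7 TV7
  repeat' refine D7s_row ?_ ?_
  all_goals norm_num

theorem G72_sum (t : ℝ) :
    ∑ S ∈ Finset.powersetCard 2 (Finset.univ : Finset (Fin 7)), G72 S t ≤ 21 := by
  have h1 : ∀ S : Finset (Fin 7), G72 S t =
      ∑ k : Fin 4, ((if D7s_kind S = k then (1 : ℤ) else 0 : ℤ) : ℝ) * ![1, TF7 t, TU7 t, TV7 t] k := by
    intro S
    rw [D7s_kind_eq, Finset.sum_eq_single (D7s_kind S)]
    · simp
    · intro k _ hk
      rw [if_neg (Ne.symm hk)]
      simp
    · intro h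
      exact absurd (Finset.mem_univ _) h
  have h2 : ∑ S ∈ Finset.powersetCard 2 (Finset.univ : Finset (Fin 7)), G72 S t =
      ∑ k : Fin 4, ((![7, 8, 4, 2] k : ℤ) : ℝ) * ![1, TF7 t, TU7 t, TV7 t] k := by
    rw [Finset.sum_congr rfl fun S _ => h1 S, Finset.sum_comm]
    refine Finset.sum_congr rfl fun k _ => ?_
    rw [← D7s_kind_card k, Int.cast_sum, Finset.sum_mul]
  rw [h2]
  have h3 := D7s_rows t
  simp only [Fin.sum_univ_four]
  simp
  linarith

/-- `10000 G73` -/
def D7s_g (b : Bool) (S : Finset (Fin 7)) : ℤ :=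
  if 6 ∈ S then
    (if (0 ∈ S ∧ 1 ∈ S) ∨ (2 ∈ S ∧ 3 ∈ S) then 8108 else if 4 ∈ S ∧ 5 ∈ S then 10000 else
      if 4 ∈ S ∨ 5 ∈ S then 9990 else 9800)
  else if (4 ∈ S ∧ 5 ∈ S) ∨ (((0 ∈ S ∧ 1 ∈ S) ∨ (2 ∈ S ∧ 3 ∈ S)) ∧ (4 ∈ S ∨ 5 ∈ S)) then
    9946
  else if (0 ∈ S ∧ 1 ∈ S) ∨ (2 ∈ S ∧ 3 ∈ S) then
    (if b then 10784 else 11568)
  else (if b then 10000 else 9700)

theorem D7s_g_eq (S : Finset (Fin 7)) (t : ℝ) (b : Bool) (hb : b = true ↔ 5 / 8 ≤ |t|) :
    G73 S t = ((D7s_g b S : ℤ) : ℝ) / 10000 := by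
  unfold G73 D7s_g
  by_cases h : 5 / 8 ≤ |t|
  · rw [hb.2 h]
    simp only [h, if_true]
    split_ifs <;> norm_num
  · have h2 : b = false := by
      rw [← Bool.not_eq_true, hb]
      exact h
    rw [h2]
    simp only [h, if_false]
    split_ifs <;> simp_all <;> norm_num

theorem D7s_g_sum (b : Bool) :
    ∑ S ∈ Finset.powersetCard 3 (Finset.univ : Finset (Fin 7)), D7s_g b S ≤ 350000 := by
  revert b
  decide +kernel

theorem G73_sum (t : ℝ) :
    ∑ S ∈ Finset.powersetCard 3 (Finset.univ : Finset (Fin 7)), G73 S t ≤ 35 := by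
  classical
  have h1 : ∑ S ∈ Finset.powersetCard 3 (Finset.univ : Finset (Fin 7)), G73 S t =
      ((∑ S ∈ Finset.powersetCard 3 (Finset.univ : Finset (Fin 7)),
        D7s_g (decide (5 / 8 ≤ |t|)) S : ℤ) : ℝ) / 10000 := by
    rw [Int.cast_sum, Finset.sum_div]
    exact Finset.sum_congr rfl fun S _ => D7s_g_eq S t _ (by simp)
  rw [h1, div_le_iff₀ (by norm_num)]
  refine (Int.cast_le.2 (D7s_g_sum _)).trans ?_
  norm_num

/-- `10000 H7` -/
def D7s_h (b : Bool) (i j : Fin 7) : ℤ :=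
  if blk7 i = blk7 j then (if b then 25000 else 0)
  else if blk7 i = 3 ∨ blk7 j = 3 then
    (if blk7 i = 2 ∨ blk7 j = 2 then (if b then 6623 else 7531)
    else (if b then 6014 else 8130))
  else if blk7 i = 2 ∨ blk7 j = 2 then (if b then 7980 else 12815)
  else (if b then 8042 else 11568)

theorem D7s_h_eq (i j : Fin 7) (t : ℝ) (b : Bool) (hb : b = true ↔ 3 / 4 ≤ |t|) :
    H7 i j t = ((D7s_h b i j : ℤ) : ℝ) / 10000 := by
  unfold H7 D7s_h
  by_cases h : 3 / 4 ≤ |t|
  · rw [hb.2 h]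
    simp only [h, if_true]
    split_ifs <;> norm_num
  · have h2 : b = false := by
      rw [← Bool.not_eq_true, hb]
      exact h
    rw [h2]
    simp only [h, if_false]
    split_ifs <;> simp_all

theorem D7s_h_sum (b : Bool) :
    ∑ i : Fin 7, ∑ j : Fin 7, (if i = j then 0 else D7s_h b i j) ≤ 420000 := by
  revert b
  decide +kernel

theorem H7_sum (t : ℝ) : ∑ i : Fin 7, ∑ j : Fin 7, (if i = j then 0 else H7 i j t) ≤ 42 := by
  classical
  have h1 : ∑ i : Fin 7, ∑ j : Fin 7, (if i = j then 0 else H7 i j t) =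
      ((∑ i : Fin 7, ∑ j : Fin 7,
        (if i = j then 0 else D7s_h (decide (3 / 4 ≤ |t|)) i j) : ℤ) : ℝ) / 10000 := by
    rw [Int.cast_sum, Finset.sum_div]
    refine Finset.sum_congr rfl fun i _ => ?_
    rw [Int.cast_sum, Finset.sum_div]
    refine Finset.sum_congr rfl fun j _ => ?_
    by_cases hij : i = j
    · rw [if_pos hij, if_pos hij]
      simp
    · rw [if_neg hij, if_neg hij]
      exact D7s_h_eq i j t _ (by simp)
  rw [h1, div_le_iff₀ (by norm_num)]
  refine (Int.cast_le.2 (D7s_h_sum _)).trans ?_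
  norm_num

end Pool.Agent.helper49.Slope
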