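import Pool.Agent.helper49.Slope.DefsD7

/-!
MP_aedd95_co (slope of k-fold hyperplane covers of triangular grids), module D7t.
The law `D_7`: the sum over all permutations for closure vectors.

PROOFS. `K7_sum`: `v = vec7 A B C`, `A, B ≥ 1`, `C ≥ 0`. (1) the entries `v 0, v 1, v 2, v 3` are nonzero;
the number `N₁` of `ρ` with `v (ρ 6) ≠ 0` is at least the number of `ρ` with `ρ 6 ∈ {0,1,2,3}`, which is
`4 · 720 = 2880` (fibers of `ρ ↦ ρ 6`; or `decide +kernel`; or the lemma `sum_perm_pairs_real` of B8d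
with `i = 6`). (2) If `v (ρ 6) = 0` and `Cl7 (v ∘ ρ)` then `Cl7 (w ∘ ρ)` and `w (ρ 6) = 0` where
`w = ![1,-1,1,-1,1,-1,0]` if `C ≥ 1` and `w = ![1,-1,1,-1,0,0,0]` if `C = 0` (`w i` is the sign of
`v i`; the pair sums `v (ρ 0) + v (ρ 1) = 0` etc. give opposite signs), so the number `N₂` of these
`ρ` is at most the number for `w`, which is `288` in both cases (`decide +kernel` over
`Equiv.Perm (Fin 7)`, about 15 s; if it is too slow count by a smarter enumeration).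
(3) `∑ K7 = 0.82 N₁ + 2.5 N₂ + (5040-N₁-N₂) ≤ 5040 - 0.18·2880 + 1.5·288 = 4953.6`.
-/

set_option autoImplicit false

open MeasureTheory ProbabilityTheory
open scoped ENNReal

namespace Pool.Agent.helper49.Slope

theorem K7_nonneg (w : Fin 7 → ℤ) : 0 ≤ K7 w := by
  unfold K7
  split_ifs <;> norm_num

/-- one hundred times the bound, for the sign vector -/
def D7t_k (w : Fin 7 → ℤ) (ρ : Equiv.Perm (Fin 7)) : ℕ :=
  if w (ρ 6) ≠ 0 then 82 else
    if w (ρ 0) + w (ρ 1) = 0 ∧ w (ρ 2) + w (ρ 3) = 0 ∧ w (ρ 4) + w (ρ 5) = 0 then 250 else 100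

theorem D7t_sum1 : ∑ ρ : Equiv.Perm (Fin 7), D7t_k ![1, -1, 1, -1, 1, -1, 0] ρ ≤ 504000 := by
  decide +kernel

theorem D7t_sum2 : ∑ ρ : Equiv.Perm (Fin 7), D7t_k ![1, -1, 1, -1, 0, 0, 0] ρ ≤ 504000 := by
  decide +kernel

theorem D7t_le (v w : Fin 7 → ℤ) (h0 : ∀ i, w i = (v i).sign) (ρ : Equiv.Perm (Fin 7)) :
    K7 (v ∘ ρ) ≤ (D7t_k w ρ : ℝ) / 100 := by
  have hz : ∀ i, v i = 0 ↔ w i = 0 := fun i => by rw [h0, Int.sign_eq_zero_iff_zero]
  have hp : ∀ i j, v i + v j = 0 → w i + w j = 0 := by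
    intro i j h
    have h' : v j = -v i := by linarith
    rw [h0, h0, h', Int.sign_neg]
    ring
  unfold K7 D7t_k
  simp only [Function.comp_apply]
  by_cases h6 : v (ρ 6) = 0
  · have w6 := (hz _).1 h6
    rw [if_neg (show ¬ (v (ρ 6) ≠ 0) from not_not.2 h6),
      if_neg (show ¬ (w (ρ 6) ≠ 0) from not_not.2 w6)]
    by_cases hc : Cl7 (v ∘ ρ)
    · have hw : w (ρ 0) + w (ρ 1) = 0 ∧ w (ρ 2) + w (ρ 3) = 0 ∧ w (ρ 4) + w (ρ 5) = 0 := by
        obtain ⟨e1, e2, e3⟩ := hc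
        simp only [x7, y7, z7, Function.comp_apply, h6] at e1 e2 e3
        exact ⟨hp _ _ (by linarith), hp _ _ (by linarith), hp _ _ (by linarith)⟩
      rw [if_pos hc, if_pos hw]
      norm_num
    · rw [if_neg hc]
      split_ifs <;> norm_num
  · have w6 : w (ρ 6) ≠ 0 := fun h => h6 ((hz _).2 h)
    rw [if_pos h6, if_pos w6]
    norm_num

theorem K7_sum (A B C : ℤ) (hA : 1 ≤ A) (hB : 1 ≤ B) (hC : 0 ≤ C) :
    ∑ ρ : Equiv.Perm (Fin 7), K7 (vec7 A B C ∘ ρ) ≤ 5040 := by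
  have sA : A.sign = 1 := Int.sign_eq_one_of_pos (by linarith)
  have sB : B.sign = 1 := Int.sign_eq_one_of_pos (by linarith)
  have key : ∀ w : Fin 7 → ℤ, (∀ i, w i = (vec7 A B C i).sign) →
      ∑ ρ : Equiv.Perm (Fin 7), D7t_k w ρ ≤ 504000 →
      ∑ ρ : Equiv.Perm (Fin 7), K7 (vec7 A B C ∘ ρ) ≤ 5040 := by
    intro w h0 hs
    refine (Finset.sum_le_sum fun ρ _ => D7t_le _ w h0 ρ).trans ?_
    rw [← Finset.sum_div, ← Nat.cast_sum, div_le_iff₀ (by norm_num)]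
    have : ((∑ ρ : Equiv.Perm (Fin 7), D7t_k w ρ : ℕ) : ℝ) ≤ (504000 : ℕ) := Nat.cast_le.2 hs
    refine this.trans ?_
    norm_num
  rcases lt_or_eq_of_le hC with hC | hC
  · have sC : C.sign = 1 := Int.sign_eq_one_of_pos hC
    refine key ![1, -1, 1, -1, 1, -1, 0] ?_ D7t_sum1
    intro i
    fin_cases i <;> simp [vec7, sA, sB, sC]
  · subst hC
    refine key ![1, -1, 1, -1, 0, 0, 0] ?_ D7t_sum2
    intro i
    fin_cases i <;> simp [vec7, sA, sB]

end Pool.Agent.helper49.Slope
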