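import Pool.Agent.helper49.Slope.D7r
import Pool.Agent.helper49.Slope.D7s
import Pool.Agent.helper49.Slope.D7t
import Pool.Agent.helper49.Slope.B7d
import Pool.Agent.helper49.Slope.B8a
import Pool.Agent.helper49.Slope.B8d

/-!
MP_aedd95_co (slope of k-fold hyperplane covers of triangular grids), module D7.
The law for N = 7.
-/

set_option autoImplicit false

open MeasureTheory ProbabilityTheory
open scoped ENNReal

namespace Pool.Agent.helper49.Slope

/-- affine images of a form (the coordinate sum is `0`) -/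
theorem D7_affine {ζ : Measure (Fin 7 → ℝ)} (hs : Supp ζ 0) (w u : Fin 7 → ℤ) (t e : ℤ)
    (he : e ≠ 0) (hu : ∀ i, u i = t + e * w i) (h : HasLoad (ζ.map (lin w)) (fun _ => 1)) :
    HasLoad (ζ.map (lin u)) (fun _ => 1) := by
  have hc1 : (1 : ℝ) ≤ |(e : ℝ)| := by
    rw [← Int.cast_abs]
    exact_mod_cast Int.one_le_abs he
  have e1 : ζ.map (lin u) = (ζ.map (lin w)).map (fun z => (e : ℝ) * z) := by
    rw [Measure.map_map (by fun_prop) (B7d_measurable_lin w)]
    refine Measure.map_congr ?_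
    filter_upwards [hs] with y hy
    have hsum : ∑ j, y j = 0 := hy.2
    show lin u y = (e : ℝ) * lin w y
    unfold lin
    have key : ∀ j, (u j : ℝ) * y j = (t : ℝ) * y j + (e : ℝ) * ((w j : ℝ) * y j) := by
      intro j
      rw [hu j]
      push_cast
      ring
    rw [Finset.sum_congr rfl fun j _ => key j, Finset.sum_add_distrib, ← Finset.mul_sum,
      ← Finset.mul_sum, hsum, mul_zero, zero_add]
  rw [e1]
  have h4 := h.scale measurable_const (e : ℝ) (by exact_mod_cast he)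
  refine h4.mono fun z => ?_
  rw [mul_one, ENNReal.ofReal_le_one, div_le_one (by linarith)]
  exact hc1

theorem D7_avg (f : Equiv.Perm (Fin 7) → ℝ) (hf : ∀ σ, 0 ≤ f σ) (h : ∑ σ, f σ ≤ 5040) :
    (∑ σ, ENNReal.ofReal (f σ)) / ((Fintype.card (Fin 7)).factorial : ℝ≥0∞) ≤ 1 := by
  rw [← ENNReal.ofReal_sum_of_nonneg (fun σ _ => hf σ)]
  refine ENNReal.div_le_of_le_mul ?_
  have e : ((Fintype.card (Fin 7)).factorial : ℝ≥0∞) = ENNReal.ofReal 5040 := by
    rw [Fintype.card_fin, show (7 : ℕ).factorial = 5040 from rfl]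
    norm_num
  rw [one_mul, e]
  exact ENNReal.ofReal_le_ofReal h

/-- the symmetrisation clause of `exists_sym` -/
def D7sym (μ ζ : Measure (Fin 7 → ℝ)) : Prop :=
  ∀ (u : Fin 7 → ℤ) (f : Equiv.Perm (Fin 7) → ℝ → ℝ≥0∞), (∀ σ, Measurable (f σ)) →
    (∀ σ : Equiv.Perm (Fin 7), HasLoad (μ.map (lin (u ∘ σ))) (f σ)) →
    HasLoad (ζ.map (lin u))
      (fun z => (∑ σ : Equiv.Perm (Fin 7), f σ z) / ((Fintype.card (Fin 7)).factorial : ℝ≥0∞))

theorem D7_card (σ : Equiv.Perm (Fin 7)) (T : Finset (Fin 7)) :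
    (Finset.univ.filter (fun x => σ x ∈ T)).card = T.card := by
  refine Finset.card_bij (fun x _ => σ x) ?_ ?_ ?_
  · intro a ha
    simpa using ha
  · intro a _ b _ hab
    exact σ.injective hab
  · intro b hb
    exact ⟨σ.symm b, by simpa using hb, by simp⟩

theorem D7_ind2 {μ ζ : Measure (Fin 7 → ℝ)} (hμ : Mu7 μ) (hl : D7sym μ ζ) (T : Finset (Fin 7))
    (hT : T.card = 2) : HasLoad (ζ.map (lin (ind7 T))) (fun _ => 1) := by
  have h := hl (ind7 T)
    (fun σ t => ENNReal.ofReal (G72 (Finset.univ.filter (fun x => σ x ∈ T)) t))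
    (fun σ => (G72_measurable _).ennreal_ofReal) (fun σ => by
      have e : ind7 T ∘ σ = ind7 (Finset.univ.filter (fun x => σ x ∈ T)) := by
        funext i
        simp [ind7]
      rw [e]
      exact hμ.load_ind2 _ ((D7_card σ T).trans hT))
  refine h.mono fun z => D7_avg _ (fun σ => G72_nonneg _ _) ?_
  rw [B8a_sum_perm T (fun S => G72 S z), hT]
  have hG := G72_sum z
  have e1 : ((Fintype.card (Fin 7)).factorial : ℝ) = 5040 := by
    rw [Fintype.card_fin, show (7 : ℕ).factorial = 5040 from rfl]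
    norm_num
  have e2 : ((Fintype.card (Fin 7)).choose 2 : ℝ) = 21 := by
    rw [Fintype.card_fin, show (7 : ℕ).choose 2 = 21 from rfl]
    norm_num
  rw [e1, e2]
  linarith

theorem D7_ind3 {μ ζ : Measure (Fin 7 → ℝ)} (hμ : Mu7 μ) (hl : D7sym μ ζ) (T : Finset (Fin 7))
    (hT : T.card = 3) : HasLoad (ζ.map (lin (ind7 T))) (fun _ => 1) := by
  have h := hl (ind7 T)
    (fun σ t => ENNReal.ofReal (G73 (Finset.univ.filter (fun x => σ x ∈ T)) t))
    (fun σ => (G73_measurable _).ennreal_ofReal) (fun σ => by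
      have e : ind7 T ∘ σ = ind7 (Finset.univ.filter (fun x => σ x ∈ T)) := by
        funext i
        simp [ind7]
      rw [e]
      exact hμ.load_ind3 _ ((D7_card σ T).trans hT))
  refine h.mono fun z => D7_avg _ (fun σ => G73_nonneg _ _) ?_
  rw [B8a_sum_perm T (fun S => G73 S z), hT]
  have hG := G73_sum z
  have e1 : ((Fintype.card (Fin 7)).factorial : ℝ) = 5040 := by
    rw [Fintype.card_fin, show (7 : ℕ).factorial = 5040 from rfl]
    norm_num
  have e2 : ((Fintype.card (Fin 7)).choose 3 : ℝ) = 35 := by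
    rw [Fintype.card_fin, show (7 : ℕ).choose 3 = 35 from rfl]
    norm_num
  rw [e1, e2]
  linarith

theorem D7_erase (f : Fin 7 → Fin 7 → ℝ) : ∑ x, ∑ y ∈ Finset.univ.erase x, f x y =
    ∑ x, ∑ y, if x = y then 0 else f x y := by
  refine Finset.sum_congr rfl fun x _ => ?_
  rw [← Finset.add_sum_erase Finset.univ (fun y => if x = y then 0 else f x y)
    (Finset.mem_univ x)]
  simp only [if_true, zero_add]
  refine Finset.sum_congr rfl fun y hy => ?_
  rw [if_neg]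
  intro hxy
  rw [Finset.mem_erase] at hy
  exact hy.1 hxy.symm

theorem D7_perm (i j : Fin 7) (hij : i ≠ j) (f : Fin 7 → Fin 7 → ℝ)
    (hf : ∑ x, ∑ y, (if x = y then 0 else f x y) ≤ 42) :
    ∑ σ : Equiv.Perm (Fin 7), f (σ i) (σ j) ≤ 5040 := by
  rw [sum_perm_pairs_real i j hij f, D7_erase]
  have e1 : ((Fintype.card (Fin 7) - 2).factorial : ℝ) = 120 := by
    rw [Fintype.card_fin, show (7 - 2 : ℕ).factorial = 120 from rfl]
    norm_num
  rw [e1]
  linarith

theorem D7_dif {μ ζ : Measure (Fin 7 → ℝ)} (hμ : Mu7 μ) (hl : D7sym μ ζ) (i j : Fin 7)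
    (hij : i ≠ j) : HasLoad (ζ.map (lin (dif7 i j))) (fun _ => 1) := by
  have h := hl (dif7 i j) (fun σ z => ENNReal.ofReal (H7 (σ.symm i) (σ.symm j) z))
    (fun σ => (H7_measurable _ _).ennreal_ofReal) (fun σ => by
      have e : dif7 i j ∘ σ = dif7 (σ.symm i) (σ.symm j) := by
        funext k
        simp only [dif7, Function.comp, Equiv.eq_symm_apply]
      rw [e]
      exact hμ.load_dif _ _ (σ.symm.injective.ne hij))
  refine h.mono fun z => D7_avg _ (fun σ => H7_nonneg _ _ _) ?_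
  have e : ∑ σ : Equiv.Perm (Fin 7), H7 (σ.symm i) (σ.symm j) z =
      ∑ σ : Equiv.Perm (Fin 7), H7 (σ i) (σ j) z :=
    Equiv.sum_comp (Equiv.inv (Equiv.Perm (Fin 7))) (fun σ => H7 (σ i) (σ j) z)
  rw [e]
  exact D7_perm i j hij (fun a b => H7 a b z) (H7_sum z)

theorem D7_vec {μ ζ : Measure (Fin 7 → ℝ)} (hμ : Mu7 μ) (hl : D7sym μ ζ) (A B C : ℤ)
    (hA : 1 ≤ A) (hB : 1 ≤ B) (hC : 0 ≤ C) (σ : Equiv.Perm (Fin 7)) :
    HasLoad (ζ.map (lin (vec7 A B C ∘ σ))) (fun _ => 1) := by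
  have h := hl (vec7 A B C ∘ σ)
    (fun ρ _ => ENNReal.ofReal (K7 (vec7 A B C ∘ ((σ * ρ : Equiv.Perm (Fin 7)) : Fin 7 → Fin 7))))
    (fun ρ => measurable_const) (fun ρ => by
      have e : (vec7 A B C ∘ σ) ∘ ρ =
          vec7 A B C ∘ ((σ * ρ : Equiv.Perm (Fin 7)) : Fin 7 → Fin 7) := by
        funext k
        rfl
      rw [e]
      exact hμ.load_vec A B C hA hB hC (σ * ρ))
  refine h.mono fun z => D7_avg _ (fun ρ => K7_nonneg _) ?_
  have e : ∑ ρ : Equiv.Perm (Fin 7),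
      K7 (vec7 A B C ∘ ((σ * ρ : Equiv.Perm (Fin 7)) : Fin 7 → Fin 7)) =
      ∑ ρ : Equiv.Perm (Fin 7), K7 (vec7 A B C ∘ ρ) :=
    Equiv.sum_comp (Equiv.mulLeft σ) (fun ρ : Equiv.Perm (Fin 7) => K7 (vec7 A B C ∘ ρ))
  rw [e]
  exact K7_sum A B C hA hB hC

/-- **the law for `N = 7`** -/
theorem law_seven : LawOK (Fin 7) := by
  obtain ⟨μ, hμ⟩ := exists_Mu7
  haveI := hμ.1
  obtain ⟨ζ, hζ, hs, hl⟩ := exists_sym μ
  have hl' : D7sym μ ζ := hl
  have hs0 : Supp ζ 0 := hs 0 hμ.2.1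
  refine ⟨ζ, hζ, hs0, ?_⟩
  rintro u ⟨i₀, j₀, hne⟩
  by_cases hA : ∃ σ : Equiv.Perm (Fin 7), ExA7 (x7 (u ∘ σ)) (y7 (u ∘ σ)) (z7 (u ∘ σ))
      (a7 (u ∘ σ)) (b7 (u ∘ σ)) (c7 (u ∘ σ))
  · obtain ⟨σ, hσ⟩ := hA
    obtain ⟨t, e, T, he, hT, hu⟩ := exA7_spec _ hσ
    have hTc : (T.map σ.toEmbedding).card = T.card := Finset.card_map _
    refine D7_affine hs0 (ind7 (T.map σ.toEmbedding)) u t e he (fun i => ?_) ?_
    · have h1 := hu (σ.symm i)
      simp only [Function.comp, Equiv.apply_symm_apply] at h1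
      rw [h1]
      congr 2
      unfold ind7
      simp only [Finset.mem_map_equiv]
    · rcases hT with hT | hT
      · exact D7_ind2 hμ hl' _ (hTc.trans hT)
      · exact D7_ind3 hμ hl' _ (hTc.trans hT)
  by_cases hD : ∃ σ : Equiv.Perm (Fin 7), ExD7 (x7 (u ∘ σ)) (y7 (u ∘ σ)) (z7 (u ∘ σ))
      (a7 (u ∘ σ)) (b7 (u ∘ σ)) (c7 (u ∘ σ))
  · obtain ⟨σ, hσ⟩ := hD
    obtain ⟨t, e, i, j, he, hij, hu⟩ := exD7_spec _ hσ
    refine D7_affine hs0 (dif7 (σ i) (σ j)) u t e he (fun k => ?_)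
      (D7_dif hμ hl' _ _ (σ.injective.ne hij))
    have h1 := hu (σ.symm k)
    simp only [Function.comp, Equiv.apply_symm_apply] at h1
    rw [h1]
    congr 2
    simp only [dif7, Equiv.symm_apply_eq]
  by_cases hC : ∃ σ : Equiv.Perm (Fin 7), Cl7 (u ∘ σ)
  · obtain ⟨σ, hσ⟩ := hC
    obtain ⟨t, A, B, C, hu⟩ := closure7_spec _ hσ
    have hu' : ∀ i, u i = t + vec7 A B C (σ.symm i) := by
      intro i
      have h4 := hu (σ.symm i)
      simpa only [Function.comp, Equiv.apply_symm_apply] using h4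
    by_cases hz : (A = 0 ∧ B = 0) ∨ (A = 0 ∧ C = 0) ∨ (B = 0 ∧ C = 0)
    · obtain ⟨e, i, j, hij, hv⟩ := vec7_dif A B C hz
      have he : e ≠ 0 := by
        rintro rfl
        refine hne ?_
        rw [hu' i₀, hu' j₀, hv, hv]
        simp
      refine D7_affine hs0 (dif7 (σ i) (σ j)) u t e he (fun k => ?_)
        (D7_dif hμ hl' _ _ (σ.injective.ne hij))
      rw [hu' k, hv]
      congr 2
      simp only [dif7, Equiv.symm_apply_eq]
    · have hz' : ¬ (A = 0 ∧ B = 0) ∧ ¬ (A = 0 ∧ C = 0) ∧ ¬ (B = 0 ∧ C = 0) := by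
        push Not at hz
        push Not
        exact hz
      obtain ⟨ρ, A', B', C', h1, h2, h3, hv⟩ := vec7_norm A B C hz'
      refine D7_affine hs0 (vec7 A' B' C' ∘ ((ρ * σ.symm : Equiv.Perm (Fin 7)) : Fin 7 → Fin 7))
        u t 1 one_ne_zero (fun i => ?_) (D7_vec hμ hl' A' B' C' h1 h2 h3 _)
      rw [hu' i, one_mul, hv]
      rfl
  · have h := hl' u (fun _ _ => 1) (fun σ => measurable_const) (fun σ =>
      hμ.load_one (u ∘ σ) (fun h0 => hC ⟨σ, h0⟩) (fun h0 => hA ⟨σ, h0⟩) (fun h0 => hD ⟨σ, h0⟩))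
    refine h.mono fun z => ?_
    have h1 := D7_avg (fun _ => 1) (fun _ => zero_le_one) (by
      rw [Finset.sum_const, Finset.card_univ, Fintype.card_perm, Fintype.card_fin,
        show (7 : ℕ).factorial = 5040 from rfl]
      norm_num)
    simpa using h1

end Pool.Agent.helper49.Slope
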