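import Pool.Agent.helper49.Slope.Defs

/-!
MP_aedd95_co (slope of k-fold hyperplane covers of triangular grids), module A1.
Weak duality.
-/

set_option autoImplicit false

open MeasureTheory ProbabilityTheory
open scoped ENNReal

namespace Pool.Agent.helper49.Slope

open Classical in
theorem A1_lintegral_countP {d : ℕ} (P : Measure (Fin d → ℤ)) {δ : ℝ}
    (hδ : ∀ a : Fin d → ℝ, a ≠ 0 → ∀ b : ℝ,
      P {x | ∑ i, a i * (x i : ℝ) = b} ≤ ENNReal.ofReal δ)
    (M : Multiset (Set (Fin d → ℝ))) (hM : ∀ H ∈ M, IsHyperplane H) :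
    ∫⁻ x, ((M.countP (fun H => (fun i => (x i : ℝ)) ∈ H) : ℕ) : ℝ≥0∞) ∂P ≤
      (Multiset.card M : ℝ≥0∞) * ENNReal.ofReal δ := by
  induction M using Multiset.induction_on with
  | empty => simp
  | cons H M ih =>
    have ih' := ih fun K hK => hM K (Multiset.mem_cons_of_mem hK)
    obtain ⟨a, ha, b, rfl⟩ := hM H (Multiset.mem_cons_self H M)
    have hset : MeasurableSet {x : Fin d → ℤ | ∑ i, a i * (x i : ℝ) = b} :=
      MeasurableSet.of_discrete
    have hstep : ∀ x : Fin d → ℤ,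
        (((({x : Fin d → ℝ | ∑ i, a i * x i = b}) ::ₘ M).countP
          (fun H => (fun i => (x i : ℝ)) ∈ H) : ℕ) : ℝ≥0∞) =
        ((M.countP (fun H => (fun i => (x i : ℝ)) ∈ H) : ℕ) : ℝ≥0∞) +
          {x : Fin d → ℤ | ∑ i, a i * (x i : ℝ) = b}.indicator (fun _ => (1 : ℝ≥0∞)) x := by
      intro x
      rw [Multiset.countP_cons]
      by_cases hx : ∑ i, a i * (x i : ℝ) = b
      · simp [hx]
      · simp [hx]
    simp_rw [hstep]
    rw [lintegral_add_right _ (measurable_const.indicator hset), lintegral_indicator_const hset,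
      one_mul, Multiset.card_cons]
    push_cast
    rw [add_mul, one_mul]
    exact add_le_add ih' (hδ a ha b)

/-- **A1 (weak duality).** Proof: sum over the members `H` of `M` the probability `P (x ∈ H) ≤ δ`;
`∑_H P(x ∈ H) = E (number of members through x) ≥ k` because almost surely `x ∈ grid`.
(Induct on the multiset or use `Multiset.countP` as a sum of indicators; every subset of
`Fin d → ℤ` is measurable.) -/
theorem duality {d n k : ℕ} {M : Multiset (Set (Fin d → ℝ))} (hM : IsCover d n k M)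
    (P : Measure (Fin d → ℤ)) [IsProbabilityMeasure P] (hP : P (grid d n)ᶜ = 0) {δ : ℝ}
    (hδ0 : 0 ≤ δ)
    (hδ : ∀ a : Fin d → ℝ, a ≠ 0 → ∀ b : ℝ,
      P {x | ∑ i, a i * (x i : ℝ) = b} ≤ ENNReal.ofReal δ) :
    (k : ℝ) ≤ δ * Multiset.card M := by
  classical
  have h1 := A1_lintegral_countP P hδ M hM.1
  have h2 : (k : ℝ≥0∞) ≤
      ∫⁻ x, ((M.countP (fun H => (fun i => (x i : ℝ)) ∈ H) : ℕ) : ℝ≥0∞) ∂P := by
    calc (k : ℝ≥0∞) = ∫⁻ _, (k : ℝ≥0∞) ∂P := by simp
      _ ≤ _ := by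
        refine lintegral_mono_ae ?_
        have hae : ∀ᵐ x ∂P, x ∈ grid d n := by
          rw [ae_iff]; exact hP
        filter_upwards [hae] with x hx
        exact_mod_cast (by convert hM.2 x hx)
  have h3 : (k : ℝ≥0∞) ≤ ENNReal.ofReal (δ * Multiset.card M) := by
    refine (h2.trans h1).trans (le_of_eq ?_)
    rw [ENNReal.ofReal_mul hδ0, ENNReal.ofReal_natCast, mul_comm]
  rw [← ENNReal.ofReal_natCast] at h3
  exact (ENNReal.ofReal_le_ofReal_iff (by positivity)).1 h3

end Pool.Agent.helper49.Slope
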