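import Pool.Agent.helper49.Slope.Defs

/-!
MP_aedd95_co (slope of k-fold hyperplane covers of triangular grids), module A2.
The cover (upper bound).
-/

set_option autoImplicit false

open MeasureTheory ProbabilityTheory
open scoped ENNReal

namespace Pool.Agent.helper49.Slope

/-- The multiplicity of the hyperplane `y_i = c`. -/
noncomputable def A2w (a T : ℝ) (c : ℕ) : ℕ := ⌈a * (1 - c / T)⌉₊

/-- The hyperplanes `y_i = c`. -/
def A2H (d n : ℕ) : Option (Fin d) → ℕ → Set (Fin d → ℝ)
  | some i, c => {x | x i = c}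
  | none, c => {x | ∑ i, x i = (n : ℝ) - 1 - c}

lemma A2H_isHyperplane (d n : ℕ) (hd : 1 ≤ d) (i : Option (Fin d)) (c : ℕ) :
    IsHyperplane (A2H d n i c) := by
  cases i with
  | some i =>
    refine ⟨Pi.single i 1, ?_, (c : ℝ), ?_⟩
    · intro h
      have := congrFun h i
      simp at this
    · ext x
      simp [A2H, Pi.single_apply]
  | none =>
    refine ⟨fun _ => 1, ?_, (n : ℝ) - 1 - c, ?_⟩
    · intro h
      have := congrFun h ⟨0, hd⟩
      simp at this
    · ext x
      simp [A2H]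

/-- The coordinates `y_i`. -/
def A2y (d n : ℕ) (x : Fin d → ℤ) : Option (Fin d) → ℤ
  | some i => x i
  | none => (n : ℤ) - 1 - ∑ i, x i

lemma A2y_nonneg {d n : ℕ} {x : Fin d → ℤ} (hx : x ∈ grid d n) (i : Option (Fin d)) :
    0 ≤ A2y d n x i := by
  cases i with
  | some i => exact hx.1 i
  | none =>
    have := hx.2
    simp only [A2y]
    omega

lemma A2y_sum {d n : ℕ} (x : Fin d → ℤ) :
    ∑ i, A2y d n x i = (n : ℤ) - 1 := by
  rw [Fintype.sum_option]
  simp [A2y]

lemma A2y_le {d n : ℕ} {x : Fin d → ℤ} (hx : x ∈ grid d n) (i : Option (Fin d)) :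
    A2y d n x i ≤ (n : ℤ) - 1 := by
  rw [← A2y_sum (n := n) x]
  exact Finset.single_le_sum (f := A2y d n x) (fun j _ => A2y_nonneg hx j) (Finset.mem_univ i)

lemma A2_mem {d n : ℕ} {x : Fin d → ℤ} (hx : x ∈ grid d n) (i : Option (Fin d)) :
    (fun j => (x j : ℝ)) ∈ A2H d n i (A2y d n x i).toNat := by
  have h0 := A2y_nonneg hx i
  have h1 : (((A2y d n x i).toNat : ℕ) : ℤ) = A2y d n x i := Int.toNat_of_nonneg h0
  have h2 : (((A2y d n x i).toNat : ℕ) : ℝ) = ((A2y d n x i : ℤ) : ℝ) := by
    exact_mod_cast h1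
  cases i with
  | some i =>
    simp only [A2H, Set.mem_ofPred_eq]
    rw [h2]
    simp [A2y]
  | none =>
    simp only [A2H, Set.mem_ofPred_eq]
    rw [h2]
    simp [A2y]

/-- The cover. -/
noncomputable def A2M (d n : ℕ) (a T : ℝ) : Multiset (Set (Fin d → ℝ)) :=
  ∑ i : Option (Fin d), ∑ c ∈ Finset.range n, Multiset.replicate (A2w a T c) (A2H d n i c)

lemma A2M_hyper (d n : ℕ) (hd : 1 ≤ d) (a T : ℝ) : ∀ H ∈ A2M d n a T, IsHyperplane H := by
  intro H hH
  simp only [A2M, Multiset.mem_sum] at hH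
  obtain ⟨i, _, c, _, h⟩ := hH
  rw [Multiset.eq_of_mem_replicate h]
  exact A2H_isHyperplane d n hd i c

lemma A2M_card (d n : ℕ) (a T : ℝ) :
    Multiset.card (A2M d n a T) = (d + 1) * ∑ c ∈ Finset.range n, A2w a T c := by
  simp [A2M, Multiset.card_sum]
  ring

lemma A2_countP_sum {α ι : Type} (p : α → Prop) [DecidablePred p] (s : Finset ι)
    (g : ι → Multiset α) : (∑ i ∈ s, g i).countP p = ∑ i ∈ s, (g i).countP p := by
  classical
  induction s using Finset.induction_on with
  | empty => simp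
  | insert a s ha ih => rw [Finset.sum_insert ha, Finset.sum_insert ha, Multiset.countP_add, ih]

lemma A2M_count (d n : ℕ) (a T : ℝ) {x : Fin d → ℤ} (hx : x ∈ grid d n)
    [DecidablePred fun H : Set (Fin d → ℝ) => (fun j => (x j : ℝ)) ∈ H] :
    ∑ i, A2w a T (A2y d n x i).toNat ≤
      (A2M d n a T).countP (fun H => (fun j => (x j : ℝ)) ∈ H) := by
  rw [A2M, A2_countP_sum]
  refine Finset.sum_le_sum fun i _ => ?_
  rw [A2_countP_sum]
  have hmem : (A2y d n x i).toNat ∈ Finset.range n := by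
    have h1 := A2y_nonneg hx i
    have h2 := A2y_le hx i
    rw [Finset.mem_range]
    omega
  refine le_trans ?_ (Finset.single_le_sum (f := fun c =>
    (Multiset.replicate (A2w a T c) (A2H d n i c)).countP (fun H => (fun j => (x j : ℝ)) ∈ H))
    (fun _ _ => Nat.zero_le _) hmem)
  rw [Multiset.countP_eq_card.2]
  · simp
  · intro H hH
    rw [Multiset.eq_of_mem_replicate hH]
    exact A2_mem hx i

lemma A2_sum_cast (m : ℕ) : ∑ c ∈ Finset.range (m + 1), (c : ℝ) = m * (m + 1) / 2 := by
  induction m with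
  | zero => simp
  | succ m ih =>
    rw [Finset.sum_range_succ, ih]
    push_cast
    ring

/-- The sum of the multiplicities in one direction. -/
lemma A2w_sum (n : ℕ) (a T : ℝ) (ha : 0 ≤ a) (hT : 0 < T) :
    ((∑ c ∈ Finset.range n, A2w a T c : ℕ) : ℝ) ≤ a * (T / 2 + 1) + T + 1 := by
  set m : ℕ := ⌊T⌋₊ with hm
  have hm1 : (m : ℝ) ≤ T := Nat.floor_le hT.le
  have hm2 : T < m + 1 := Nat.lt_floor_add_one T
  have hzero : ∀ c : ℕ, m + 1 ≤ c → A2w a T c = 0 := by
    intro c hc
    unfold A2w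
    rw [Nat.ceil_eq_zero]
    have h1 : T ≤ (c : ℝ) := by
      have : ((m + 1 : ℕ) : ℝ) ≤ (c : ℝ) := by exact_mod_cast hc
      push_cast at this
      linarith
    have h2 : 1 ≤ (c : ℝ) / T := by
      rw [le_div_iff₀ hT]; linarith
    exact mul_nonpos_of_nonneg_of_nonpos ha (by linarith)
  have hle : ∑ c ∈ Finset.range n, A2w a T c ≤ ∑ c ∈ Finset.range (m + 1), A2w a T c := by
    rw [← Finset.sum_filter_add_sum_filter_not (Finset.range n) (fun c => c < m + 1)]
    have h0 : ∑ c ∈ (Finset.range n).filter (fun c => ¬ c < m + 1), A2w a T c = 0 := by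
      apply Finset.sum_eq_zero
      intro c hc
      rw [Finset.mem_filter] at hc
      exact hzero c (by omega)
    rw [h0, add_zero]
    apply Finset.sum_le_sum_of_subset
    intro c hc
    rw [Finset.mem_filter] at hc
    exact Finset.mem_range.2 hc.2
  have hterm : ∀ c ∈ Finset.range (m + 1), ((A2w a T c : ℕ) : ℝ) ≤ a * (1 - c / T) + 1 := by
    intro c hc
    have hc' : (c : ℝ) ≤ m := by
      have := Finset.mem_range.1 hc
      exact_mod_cast (by omega : c ≤ m)
    have h1 : (c : ℝ) / T ≤ 1 := by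
      rw [div_le_one hT]; linarith
    have h2 : 0 ≤ a * (1 - c / T) := mul_nonneg ha (by linarith)
    exact (Nat.ceil_lt_add_one h2).le
  calc ((∑ c ∈ Finset.range n, A2w a T c : ℕ) : ℝ)
      ≤ ((∑ c ∈ Finset.range (m + 1), A2w a T c : ℕ) : ℝ) := by exact_mod_cast hle
    _ = ∑ c ∈ Finset.range (m + 1), ((A2w a T c : ℕ) : ℝ) := by push_cast; rfl
    _ ≤ ∑ c ∈ Finset.range (m + 1), (a * (1 - c / T) + 1) := Finset.sum_le_sum hterm
    _ = a * ((m + 1) - (m * (m + 1) / 2) / T) + (m + 1) := by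
        rw [Finset.sum_add_distrib, ← Finset.mul_sum, Finset.sum_sub_distrib,
          ← Finset.sum_div, A2_sum_cast]
        simp
    _ ≤ a * (T / 2 + 1) + T + 1 := by
        have h3 : ((m : ℝ) + 1) - (m * (m + 1) / 2) / T ≤ T / 2 + 1 := by
          have h5 : ((m : ℝ) * (m + 1) / 2) / T ≥ (m : ℝ) - T / 2 := by
            rw [ge_iff_le, le_div_iff₀ hT]
            rcases Nat.eq_zero_or_pos m with h0 | h0
            · have : (m : ℝ) = 0 := by exact_mod_cast h0
              rw [this]; nlinarith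
            · have h1m : (1 : ℝ) ≤ m := by exact_mod_cast h0
              nlinarith [sq_nonneg (T - m)]
          linarith
        have h4 := mul_le_mul_of_nonneg_left h3 ha
        linarith

/-- **A2 (the cover).** With `N = d+1`, `T = 2(n-1)/N`, `a = 2k/N` and the `N` coordinates
`y_i = x_i (i ≤ d)`, `y_N = n-1-∑ x_i` take, for every integer `0 ≤ c ≤ T`, the hyperplane
`y_i = c` with multiplicity `⌈a (1 - c/T)⌉` (for `n = 1` take `k` copies of one hyperplane `x_1 = 0`).
A grid point `x` lies in `∑_i ⌈a(1-y_i/T)⌉₊ ≥ ∑_i a (1 - y_i/T) = a (N - (n-1)/T) = a N/2 = k`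
members. Total number: `N ∑_{c=0}^{⌊T⌋} (a(1-c/T) + 1) ≤ N (a (T/2+1) + T + 1)
= 2k(n-1)/N + 2(n-1) + N (a+1)`. -/
theorem upper (d : ℕ) (hd : 1 ≤ d) (k : ℕ) :
    ∃ B : ℝ, ∀ n : ℕ, 1 ≤ n → ∃ M : Multiset (Set (Fin d → ℝ)),
      IsCover d n k M ∧ (Multiset.card M : ℝ) ≤ (2 * k / (d + 1) + 2) * n + B := by
  refine ⟨2 * k + (d + 1), fun n hn => ?_⟩
  have hN : (0 : ℝ) < (d : ℝ) + 1 := by positivity
  set T : ℝ := 2 * ((n : ℝ) - 1) / (d + 1) with hT
  set a : ℝ := 2 * k / (d + 1) with ha
  have ha0 : 0 ≤ a := by positivity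
  have hn1 : (1 : ℝ) ≤ n := by exact_mod_cast hn
  have hT0 : 0 ≤ T := by
    rw [hT]
    exact div_nonneg (by linarith) hN.le
  refine ⟨A2M d n a T, ⟨A2M_hyper d n hd a T, ?_⟩, ?_⟩
  · intro x hx
    classical
    refine le_trans ?_ (le_of_le_of_eq (A2M_count d n a T hx) ?_)
    · have h1 : (k : ℝ) ≤ ((∑ i, A2w a T (A2y d n x i).toNat : ℕ) : ℝ) := by
        push_cast
        have h2 : ∀ i : Option (Fin d), a * (1 - ((A2y d n x i : ℤ) : ℝ) / T) ≤
            ((A2w a T (A2y d n x i).toNat : ℕ) : ℝ) := by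
          intro i
          have h3 : (((A2y d n x i).toNat : ℕ) : ℝ) = ((A2y d n x i : ℤ) : ℝ) := by
            exact_mod_cast Int.toNat_of_nonneg (A2y_nonneg hx i)
          unfold A2w
          rw [h3]
          exact Nat.le_ceil _
        refine le_trans ?_ (Finset.sum_le_sum fun i _ => h2 i)
        rw [← Finset.mul_sum, Finset.sum_sub_distrib, ← Finset.sum_div]
        have h4 : ∑ i, ((A2y d n x i : ℤ) : ℝ) = (n : ℝ) - 1 := by
          exact_mod_cast A2y_sum (n := n) x
        rw [h4]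
        simp only [Finset.sum_const, Finset.card_univ, Fintype.card_option, Fintype.card_fin,
          nsmul_eq_mul, mul_one, Nat.cast_add, Nat.cast_one]
        have h5 : ((n : ℝ) - 1) / T ≤ (d + 1) / 2 := by
          rcases hT0.eq_or_lt with h0 | h0
          · rw [← h0, div_zero]; positivity
          · rw [div_le_iff₀ h0, hT]
            field_simp
            linarith
        have h6 : (k : ℝ) = a * ((d + 1) / 2) := by
          rw [ha]; field_simp
        rw [h6]
        apply mul_le_mul_of_nonneg_left _ ha0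
        linarith
      exact_mod_cast h1
    · congr
  · rw [A2M_card]
    push_cast
    have hsum : ((∑ c ∈ Finset.range n, (A2w a T c : ℝ))) ≤ a * (T / 2 + 1) + T + 1 := by
      rcases hT0.eq_or_lt with h0 | h0
      · have hn' : n = 1 := by
          have h7 : 2 * ((n : ℝ) - 1) / (d + 1) = 0 := by rw [← hT, ← h0]
          rw [div_eq_zero_iff] at h7
          rcases h7 with h7 | h7
          · have : (n : ℝ) = 1 := by linarith
            exact_mod_cast this
          · exact absurd h7 hN.ne'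
        rw [← h0, hn']
        simp only [Finset.sum_range_one, A2w]
        have := (Nat.ceil_lt_add_one ha0).le
        simpa using this
      · have := A2w_sum n a T ha0 h0
        push_cast at this
        exact this
    have h8 := mul_le_mul_of_nonneg_left hsum hN.le
    refine le_trans h8 ?_
    have h9 : ((d : ℝ) + 1) * (a * (T / 2 + 1) + T + 1) =
        (a + 2) * (n - 1) + (2 * k + (d + 1)) := by
      rw [ha, hT]
      field_simp
      ring
    rw [h9]
    nlinarith

end Pool.Agent.helper49.Slope
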