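import Pool.Agent.helper49.Slope.Defs

/-!
MP_aedd95_co (slope of k-fold hyperplane covers of triangular grids), module A3.
Few lattice points on a wild hyperplane.
-/

set_option autoImplicit false

open MeasureTheory ProbabilityTheory
open scoped ENNReal

namespace Pool.Agent.helper49.Slope

open Classical in
private theorem A3_aux (d : ℕ) (L m : ℕ) (a : Fin d → ℝ) (i j : Fin d) (hij : i ≠ j)
    (hj : a j ≠ 0) (hle : |a i| ≤ |a j|)
    (h : ∀ p q : ℤ, |p| ≤ (L : ℤ) → |q| ≤ (L : ℤ) → (p : ℝ) * a i + q * a j = 0 → p = 0 ∧ q = 0)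
    (β : Fin d → ℤ) (b : ℝ) :
    (((Finset.univ : Finset (Fin d → Fin m)).filter
      (fun z => ∑ k, a k * ((β k + (z k : ℤ) : ℤ) : ℝ) = b)).card : ℝ)
      ≤ (m : ℝ) ^ (d - 2) * ((m : ℝ) / (L + 1) + 1) := by
  set S := (Finset.univ : Finset (Fin d → Fin m)).filter
      (fun z => ∑ k, a k * ((β k + (z k : ℤ) : ℤ) : ℝ) = b) with hS
  let T := ({k : Fin d // k ≠ i ∧ k ≠ j} → Fin m) × Fin (m / (L + 1) + 1)
  let φ : (Fin d → Fin m) → T := fun z => (fun k => z k.1,
    ⟨(z i : ℕ) / (L + 1), Nat.lt_succ_of_le (Nat.div_le_div_right (z i).2.le)⟩)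
  have hinj : Set.InjOn φ (S : Set (Fin d → Fin m)) := by
    intro z hz z' hz' hzz
    have hz1 : ∑ k, a k * ((β k + (z k : ℤ) : ℤ) : ℝ) = b := (Finset.mem_filter.1 hz).2
    have hz2 : ∑ k, a k * ((β k + (z' k : ℤ) : ℤ) : ℝ) = b := (Finset.mem_filter.1 hz').2
    have e1 : ∀ k, k ≠ i ∧ k ≠ j → z k = z' k := fun k hk =>
      congrFun (congrArg Prod.fst hzz) ⟨k, hk⟩
    have e2 : (z i : ℕ) / (L + 1) = (z' i : ℕ) / (L + 1) :=
      congrArg Fin.val (congrArg Prod.snd hzz)
    set p : ℤ := ((z i : ℕ) : ℤ) - ((z' i : ℕ) : ℤ) with hp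
    set q : ℤ := ((z j : ℕ) : ℤ) - ((z' j : ℕ) : ℤ) with hq
    have hsum : (p : ℝ) * a i + q * a j = 0 := by
      have h0 : ∑ k, (a k * ((β k + (z k : ℤ) : ℤ) : ℝ) - a k * ((β k + (z' k : ℤ) : ℤ) : ℝ)) = 0 := by
        rw [Finset.sum_sub_distrib, hz1, hz2, sub_self]
      rw [Fintype.sum_eq_add i j hij] at h0
      · rw [hp, hq]
        push_cast at h0 ⊢
        linarith
      · intro k hk
        rw [e1 k hk, sub_self]
    have hpL : |p| ≤ (L : ℤ) := by
      have h1 := Nat.div_add_mod (z i : ℕ) (L + 1)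
      have h2 := Nat.div_add_mod (z' i : ℕ) (L + 1)
      have h3 := Nat.mod_lt (z i : ℕ) (Nat.succ_pos L)
      have h4 := Nat.mod_lt (z' i : ℕ) (Nat.succ_pos L)
      rw [← e2] at h2
      generalize (L + 1) * ((z i : ℕ) / (L + 1)) = P at h1 h2
      generalize (z i : ℕ) % (L + 1) = r1 at h1 h3
      generalize (z' i : ℕ) % (L + 1) = r2 at h2 h4
      rw [abs_le]
      constructor <;> omega
    have hqp : |q| ≤ |p| := by
      have h1 : (q : ℝ) * a j = -((p : ℝ) * a i) := by linarith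
      have h2 : |(q : ℝ)| * |a j| = |(p : ℝ)| * |a i| := by
        rw [← abs_mul, h1, abs_neg, abs_mul]
      have h3 : 0 < |a j| := abs_pos.2 hj
      have h4 : |(q : ℝ)| * |a j| ≤ |(p : ℝ)| * |a j| := by
        rw [h2]
        exact mul_le_mul_of_nonneg_left hle (abs_nonneg _)
      have h5 : |(q : ℝ)| ≤ |(p : ℝ)| := le_of_mul_le_mul_right h4 h3
      exact_mod_cast h5
    obtain ⟨hp0, hq0⟩ := h p q hpL (hqp.trans hpL) hsum
    funext k
    by_cases hki : k = i
    · subst hki
      apply Fin.ext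
      omega
    · by_cases hkj : k = j
      · subst hkj
        apply Fin.ext
        omega
      · exact e1 k ⟨hki, hkj⟩
  have hcard : S.card ≤ Fintype.card T := by
    rw [← Finset.card_univ]
    exact Finset.card_le_card_of_injOn φ (fun _ _ => Finset.mem_coe.2 (Finset.mem_univ _)) hinj
  have hT : Fintype.card T = m ^ (d - 2) * (m / (L + 1) + 1) := by
    have hsub : Fintype.card {k : Fin d // k ≠ i ∧ k ≠ j} = d - 2 := by
      rw [Fintype.card_subtype]
      have : (Finset.univ.filter fun k : Fin d => k ≠ i ∧ k ≠ j) =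
          (Finset.univ.erase i).erase j := by
        ext k
        simp only [Finset.mem_filter, Finset.mem_univ, true_and, Finset.mem_erase, and_true]
        exact and_comm
      rw [this, Finset.card_erase_of_mem (by simp [hij.symm]), Finset.card_erase_of_mem (by simp),
        Finset.card_univ, Fintype.card_fin]
      omega
    show Fintype.card (({k : Fin d // k ≠ i ∧ k ≠ j} → Fin m) × Fin (m / (L + 1) + 1)) = _
    rw [Fintype.card_prod, Fintype.card_fun, Fintype.card_fin, Fintype.card_fin, hsub]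
  rw [hT] at hcard
  have h1 : (S.card : ℝ) ≤ ((m ^ (d - 2) * (m / (L + 1) + 1) : ℕ) : ℝ) := by exact_mod_cast hcard
  refine h1.trans ?_
  push_cast
  have h2 : ((m / (L + 1) : ℕ) : ℝ) ≤ (m : ℝ) / (L + 1) := by
    have := @Nat.cast_div_le ℝ _ _ _ m (L + 1)
    push_cast at this
    exact this
  gcongr

/-- **A3 (few lattice points on a wild hyperplane).** Fix the coordinates other than `i, j`
(`≤ m^(d-2)` choices). Two different solutions `(x_i, x_j)` of the remaining equation
`a_i x_i + a_j x_j = const` differ by `(p,q) ≠ 0` with `a_i p + a_j q = 0`, so both `p, q ≠ 0` and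
`max(|p|,|q|) > L` by hypothesis; all solutions are on one line with slope `-a_i/a_j`; if
`|a_i| ≤ |a_j|` then `|q| ≤ |p|`, so the `x_i` are pairwise more than `L` apart, otherwise the
`x_j` are. Hence at most `(m-1)/(L+1) + 1` solutions. -/
theorem box_count (d : ℕ) (L m : ℕ) (a : Fin d → ℝ) (i j : Fin d) (hij : i ≠ j)
    (hi : a i ≠ 0) (hj : a j ≠ 0)
    (h : ∀ p q : ℤ, |p| ≤ (L : ℤ) → |q| ≤ (L : ℤ) → (p : ℝ) * a i + q * a j = 0 → p = 0 ∧ q = 0)
    (β : Fin d → ℤ) (b : ℝ) :
    (((Finset.univ : Finset (Fin d → Fin m)).filter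
      (fun z => ∑ k, a k * ((β k + (z k : ℤ) : ℤ) : ℝ) = b)).card : ℝ)
      ≤ (m : ℝ) ^ (d - 2) * ((m : ℝ) / (L + 1) + 1) := by
  classical
  rcases le_total |a i| |a j| with hle | hle
  · exact A3_aux d L m a i j hij hj hle h β b
  · refine A3_aux d L m a j i hij.symm hi hle (fun p q hp hq hpq => ?_) β b
    have := h q p hq hp (by linarith)
    exact ⟨this.2, this.1⟩

end Pool.Agent.helper49.Slope
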