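import Pool.Agent.helper49.Slope.Defs

/-!
MP_aedd95_co (slope of k-fold hyperplane covers of triangular grids), module A4.
Directions.
-/

set_option autoImplicit false

open MeasureTheory ProbabilityTheory
open scoped ENNReal

namespace Pool.Agent.helper49.Slope

/-- **A4 (directions).** If the first alternative fails, fix `j₀` with `a_{j₀} ≠ 0`; for every other
`i` with `a_i ≠ 0` there are nonzero integers `p_i, q_i` of absolute value `≤ L` with
`p_i a_i + q_i a_{j₀} = 0`. Put `Π = ∏ p_i`, `u_{j₀} = Π`, `u_i = -q_i Π / p_i`; divide by the gcd. -/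
theorem direction_cases (d L : ℕ) (hL : 1 ≤ L) (a : Fin d → ℝ) (ha : a ≠ 0) :
    (∃ i j : Fin d, i ≠ j ∧ a i ≠ 0 ∧ a j ≠ 0 ∧
      ∀ p q : ℤ, |p| ≤ (L : ℤ) → |q| ≤ (L : ℤ) → (p : ℝ) * a i + q * a j = 0 → p = 0 ∧ q = 0) ∨
    (∃ (u : Fin d → ℤ) (c : ℝ), c ≠ 0 ∧ (∀ i, a i = c * u i) ∧ (∀ i, |u i| ≤ (L : ℤ) ^ d) ∧
      Finset.univ.gcd u = 1) := by
  classical
  by_cases H : ∃ i j : Fin d, i ≠ j ∧ a i ≠ 0 ∧ a j ≠ 0 ∧
      ∀ p q : ℤ, |p| ≤ (L : ℤ) → |q| ≤ (L : ℤ) → (p : ℝ) * a i + q * a j = 0 → p = 0 ∧ q = 0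
  · exact Or.inl H
  refine Or.inr ?_
  push Not at H
  obtain ⟨j₀, hj₀⟩ : ∃ j, a j ≠ 0 := Function.ne_iff.1 ha
  have hLZ : (1 : ℤ) ≤ (L : ℤ) := by exact_mod_cast hL
  have h1 : ∀ i : Fin d, ∃ p q : ℤ, p ≠ 0 ∧ |p| ≤ (L : ℤ) ∧ |q| ≤ (L : ℤ) ∧
      (p : ℝ) * a i + q * a j₀ = 0 ∧ (i = j₀ → q ≠ 0) := by
    intro i
    by_cases hi : i = j₀
    · subst hi
      exact ⟨1, -1, one_ne_zero, by simpa using hLZ, by simpa using hLZ, by push_cast; ring,
        fun _ => by norm_num⟩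
    · by_cases hai : a i = 0
      · exact ⟨1, 0, one_ne_zero, by simpa using hLZ, by simp, by rw [hai]; simp,
          fun h => absurd h hi⟩
      · obtain ⟨p, q, hp, hq, he, hne⟩ := H i j₀ hi hai hj₀
        refine ⟨p, q, fun h0 => ?_, hp, hq, he, fun h => absurd h hi⟩
        rw [h0, Int.cast_zero, zero_mul, zero_add] at he
        rcases mul_eq_zero.1 he with h2 | h2
        · exact hne h0 (by exact_mod_cast h2)
        · exact hj₀ h2
  choose p q hp0 hp hq he hqj using h1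
  set u' : Fin d → ℤ := fun i => -q i * ∏ j ∈ Finset.univ.erase i, p j with hu'
  have hP0 : (∏ j, p j) ≠ 0 := Finset.prod_ne_zero_iff.2 fun j _ => hp0 j
  have hPR : (((∏ j, p j : ℤ)) : ℝ) ≠ 0 := by exact_mod_cast hP0
  have hu'j : u' j₀ ≠ 0 := by
    rw [hu']
    exact mul_ne_zero (neg_ne_zero.2 (hqj j₀ rfl)) (Finset.prod_ne_zero_iff.2 fun j _ => hp0 j)
  have hlin : ∀ i, a i = a j₀ / ((∏ j, p j : ℤ) : ℝ) * (u' i : ℝ) := by
    intro i
    have h2 : (∏ j, p j) = p i * ∏ j ∈ Finset.univ.erase i, p j :=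
      (Finset.mul_prod_erase _ _ (Finset.mem_univ i)).symm
    have h3 : (((∏ j, p j : ℤ)) : ℝ) * a i = a j₀ * (u' i : ℝ) := by
      rw [h2, hu']
      push_cast
      have h4 := he i
      linear_combination (∏ j ∈ Finset.univ.erase i, (p j : ℝ)) * h4
    rw [div_mul_eq_mul_div, eq_div_iff hPR, mul_comm, h3]
  have hbd : ∀ i, |u' i| ≤ (L : ℤ) ^ d := by
    intro i
    have hd : d = (d - 1) + 1 := by have := i.2; omega
    have h5 : |∏ j ∈ Finset.univ.erase i, p j| ≤ (L : ℤ) ^ (d - 1) := by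
      rw [Finset.abs_prod]
      have h6 : ∏ j ∈ Finset.univ.erase i, |p j| ≤ ∏ _j ∈ Finset.univ.erase i, (L : ℤ) :=
        Finset.prod_le_prod (fun j _ => abs_nonneg _) (fun j _ => hp j)
      rw [Finset.prod_const, Finset.card_erase_of_mem (Finset.mem_univ i), Finset.card_univ,
        Fintype.card_fin] at h6
      exact h6
    rw [hu']
    simp only [abs_mul, abs_neg]
    calc |q i| * |∏ j ∈ Finset.univ.erase i, p j| ≤ (L : ℤ) * (L : ℤ) ^ (d - 1) :=
          mul_le_mul (hq i) h5 (abs_nonneg _) (by omega)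
      _ = (L : ℤ) ^ d := by
          conv_rhs => rw [hd, pow_succ]
          ring
  obtain ⟨u, hu, hg⟩ := Finset.extract_gcd (s := Finset.univ) u' ⟨j₀, Finset.mem_univ _⟩
  have hg0 : Finset.univ.gcd u' ≠ 0 := fun h => hu'j (by rw [hu j₀ (Finset.mem_univ _), h, zero_mul])
  refine ⟨u, a j₀ / ((∏ j, p j : ℤ) : ℝ) * ((Finset.univ.gcd u' : ℤ) : ℝ), ?_, ?_, ?_, hg⟩
  · exact mul_ne_zero (div_ne_zero hj₀ hPR) (by exact_mod_cast hg0)
  · intro i
    rw [hlin i, hu i (Finset.mem_univ _)]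
    push_cast
    ring
  · intro i
    refine le_trans ?_ (hbd i)
    rw [hu i (Finset.mem_univ _), abs_mul]
    have h7 : 1 ≤ |Finset.univ.gcd u'| := Int.one_le_abs hg0
    nlinarith [abs_nonneg (u i)]

end Pool.Agent.helper49.Slope
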