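import Pool.Agent.helper49.Slope.DefsA

/-!
MP_aedd95_co (slope of k-fold hyperplane covers of triangular grids), module A5.
Smoothness of u.Z for Z uniform in a box.
-/

set_option autoImplicit false

open MeasureTheory ProbabilityTheory
open scoped ENNReal

namespace Pool.Agent.helper49.Slope

theorem A5_bezout {ι : Type} [DecidableEq ι] (S : Finset ι) (u : ι → ℤ) :
    ∃ s : ι → ℤ, ∑ i ∈ S, u i * s i = S.gcd u := by
  induction S using Finset.induction_on with
  | empty => exact ⟨0, by simp⟩
  | insert a S ha ih =>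
    obtain ⟨s, hs⟩ := ih
    obtain ⟨x, y, hxy⟩ := exists_gcd_eq_mul_add_mul (u a) (S.gcd u)
    refine ⟨fun i => if i = a then x else s i * y, ?_⟩
    rw [Finset.sum_insert ha, Finset.gcd_insert]
    have h1 : ∑ i ∈ S, u i * (if i = a then x else s i * y) = (S.gcd u) * y := by
      rw [← hs, Finset.sum_mul]
      refine Finset.sum_congr rfl fun i hi => ?_
      have : i ≠ a := fun h => ha (h ▸ hi)
      rw [if_neg this]; ring
    rw [h1]
    simp only [if_true]
    exact hxy.symm

/-- the number of points of the box on the slice `z i = ℓ` of the level set. -/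
theorem A5_slice (d m : ℕ) (u : Fin d → ℤ) (c : ℤ) (i k : Fin d) (hik : i ≠ k) (hk : u k ≠ 0)
    (l : ℤ) :
    ((Finset.univ : Finset (Fin d → Fin m)).filter
      (fun z => ∑ j, u j * (z j : ℤ) = c ∧ ((z i : ℕ) : ℤ) = l)).card ≤ m ^ (d - 2) := by
  classical
  have hcard : Fintype.card {j : Fin d // j ≠ i ∧ j ≠ k} = d - 2 := by
    rw [Fintype.card_subtype]
    have : (Finset.univ.filter fun j : Fin d => j ≠ i ∧ j ≠ k) = Finset.univ \ {i, k} := by
      ext j; simp
    rw [this, Finset.card_sdiff_of_subset (Finset.subset_univ _), Finset.card_pair hik]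
    simp
  have hU : (Finset.univ : Finset ({j : Fin d // j ≠ i ∧ j ≠ k} → Fin m)).card = m ^ (d - 2) := by
    rw [Finset.card_univ, Fintype.card_fun, hcard, Fintype.card_fin]
  rw [← hU]
  refine Finset.card_le_card_of_injOn (fun z => fun j => z j.1) (fun z _ => Finset.mem_coe.2
    (Finset.mem_univ _)) ?_
  intro z hz w hw hzw
  simp only [Finset.coe_filter, Finset.mem_univ, true_and, Set.mem_ofPred_eq] at hz hw
  have hoff : ∀ j, j ≠ k → z j = w j := by
    intro j hj
    by_cases hji : j = i
    · subst hji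
      apply Fin.ext
      have := hz.2.trans hw.2.symm
      exact_mod_cast this
    · exact congrFun hzw ⟨j, hji, hj⟩
  have hsum : ∑ j, u j * ((z j : ℕ) : ℤ) - ∑ j, u j * ((w j : ℕ) : ℤ) = 0 := by
    rw [hz.1, hw.1, sub_self]
  rw [← Finset.sum_sub_distrib] at hsum
  rw [Finset.sum_eq_single k] at hsum
  · have h1 : u k * (((z k : ℕ) : ℤ) - ((w k : ℕ) : ℤ)) = 0 := by rw [← hsum]; ring
    have h2 : ((z k : ℕ) : ℤ) - ((w k : ℕ) : ℤ) = 0 := by
      rcases mul_eq_zero.1 h1 with h | h
      · exact absurd h hk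
      · exact h
    funext j
    by_cases hj : j = k
    · subst hj
      apply Fin.ext
      omega
    · exact hoff j hj
  · intro j _ hj
    rw [hoff j hj, sub_self]
  · intro h; exact absurd (Finset.mem_univ _) h

theorem A5_half (d m : ℕ) (u : Fin d → ℤ)
    (h2 : ∃ i j, i ≠ j ∧ u i ≠ 0 ∧ u j ≠ 0) (s : Fin d → ℤ) (e : ℤ)
    (hs : ∑ i, u i * s i = e) (c : ℤ) :
    cnt d m u c ≤ cnt d m u (c + e) + (∑ i, (s i).natAbs) * m ^ (d - 2) := by
  classical
  set A := (Finset.univ : Finset (Fin d → Fin m)).filter (fun z => ∑ i, u i * (z i : ℤ) = c)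
    with hA
  set P : (Fin d → Fin m) → Prop := fun z => ∀ i, 0 ≤ ((z i : ℕ) : ℤ) + s i ∧
    ((z i : ℕ) : ℤ) + s i < m with hP
  have hsplit : A.card = (A.filter P).card + (A.filter fun z => ¬ P z).card :=
    (Finset.card_filter_add_card_filter_not P).symm
  have hgood : (A.filter P).card ≤ cnt d m u (c + e) := by
    unfold cnt
    rcases Nat.eq_zero_or_pos m with hm | hm
    · -- empty box or a single function
      subst hm
      refine Finset.card_le_card_of_injOn (fun z => z) ?_ (fun _ _ _ _ h => h)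
      intro z hz
      obtain ⟨i, j, hij, hi, hj⟩ := h2
      exact (z i).elim0
    · let F : (Fin d → Fin m) → (Fin d → Fin m) := fun z i =>
        ⟨(((z i : ℕ) : ℤ) + s i).toNat % m, Nat.mod_lt _ hm⟩
      have hF : ∀ z, P z → ∀ i, ((F z i : ℕ) : ℤ) = ((z i : ℕ) : ℤ) + s i := by
        intro z hz i
        have h0 := (hz i).1
        have h1 := (hz i).2
        have h3 : (((z i : ℕ) : ℤ) + s i).toNat < m := by omega
        show (((((z i : ℕ) : ℤ) + s i).toNat % m : ℕ) : ℤ) = _
        rw [Nat.mod_eq_of_lt h3]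
        exact Int.toNat_of_nonneg h0
      refine Finset.card_le_card_of_injOn F ?_ ?_
      · intro z hz
        rw [Finset.mem_coe, Finset.mem_filter] at hz
        have hzA : ∑ i, u i * ((z i : ℕ) : ℤ) = c := by
          have := hz.1
          rw [hA, Finset.mem_filter] at this
          exact this.2
        rw [Finset.mem_coe, Finset.mem_filter]
        refine ⟨Finset.mem_univ _, ?_⟩
        have h4 : ∀ i, u i * ((F z i : ℕ) : ℤ) = u i * ((z i : ℕ) : ℤ) + u i * s i := by
          intro i; rw [hF z hz.2 i]; ring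
        rw [Finset.sum_congr rfl (fun i _ => h4 i), Finset.sum_add_distrib, hzA, hs]
      · intro z hz w hw hzw
        rw [Finset.mem_coe, Finset.mem_filter] at hz hw
        funext i
        have h5 := hF z hz.2 i
        have h6 := hF w hw.2 i
        have h7 : F z = F w := hzw
        rw [h7] at h5
        apply Fin.ext
        omega
  have hbad : (A.filter fun z => ¬ P z).card ≤ (∑ i, (s i).natAbs) * m ^ (d - 2) := by
    -- layers
    let L : Fin d → Finset ℤ := fun i =>
      if 0 ≤ s i then Finset.Ico ((m : ℤ) - s i) m else Finset.Ico 0 (- s i)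
    have hL : ∀ i, (L i).card = (s i).natAbs := by
      intro i
      by_cases h : 0 ≤ s i
      · simp only [L, if_pos h, Int.card_Ico]; omega
      · simp only [L, if_neg h, Int.card_Ico]; omega
    have hsub : (A.filter fun z => ¬ P z) ⊆ (Finset.univ : Finset (Fin d)).biUnion (fun i =>
        (L i).biUnion fun l => (Finset.univ : Finset (Fin d → Fin m)).filter
          (fun z => ∑ j, u j * (z j : ℤ) = c ∧ ((z i : ℕ) : ℤ) = l)) := by
      intro z hz
      rw [Finset.mem_filter] at hz
      have hzA : ∑ i, u i * ((z i : ℕ) : ℤ) = c := by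
        have := hz.1
        rw [hA, Finset.mem_filter] at this
        exact this.2
      have hn := hz.2
      rw [hP] at hn
      push Not at hn
      obtain ⟨i, hi⟩ := hn
      rw [Finset.mem_biUnion]
      refine ⟨i, Finset.mem_univ _, ?_⟩
      rw [Finset.mem_biUnion]
      refine ⟨((z i : ℕ) : ℤ), ?_, ?_⟩
      · have hzm : (z i : ℕ) < m := (z i).2
        by_cases h : 0 ≤ s i
        · simp only [L, if_pos h, Finset.mem_Ico]
          have := hi (by omega)
          omega
        · simp only [L, if_neg h, Finset.mem_Ico]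
          refine ⟨by omega, ?_⟩
          by_contra hc
          have := hi (by omega)
          omega
      · rw [Finset.mem_filter]
        exact ⟨Finset.mem_univ _, hzA, rfl⟩
    refine (Finset.card_le_card hsub).trans ?_
    refine Finset.card_biUnion_le.trans ?_
    rw [Finset.sum_mul]
    refine Finset.sum_le_sum fun i _ => ?_
    refine Finset.card_biUnion_le.trans ?_
    rw [← hL i, ← smul_eq_mul, ← Finset.sum_const]
    refine Finset.sum_le_sum fun l _ => ?_
    obtain ⟨a, b, hab, ha, hb⟩ := h2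
    by_cases hia : i = a
    · exact A5_slice d m u c i b (by rw [hia]; exact hab) hb l
    · exact A5_slice d m u c i a hia ha l
  calc cnt d m u c = A.card := rfl
    _ = (A.filter P).card + (A.filter fun z => ¬ P z).card := hsplit
    _ ≤ _ := Nat.add_le_add hgood hbad

/-- **A5 (smoothness of `u·Z`).** Take `s : Fin d → ℤ` with `u·s = 1` (Bezout). `z ↦ z + s` maps
`{u·z = c}` into `{u·z = c+1}` except when `z + s` leaves the box, i.e. when some coordinate
`z_i` lies in one of `|s_i|` boundary layers; the number of `z` in the box with `z_i = ℓ` and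
`u·z = c` is at most `m^(d-2)` (solve for a coordinate `k ≠ i` with `u_k ≠ 0`). Symmetrically for
`z ↦ z - s`. So `C = ∑ |s_i|` works (`d ≥ 2` here). -/
theorem smooth (d : ℕ) (u : Fin d → ℤ) (hu : Finset.univ.gcd u = 1)
    (h2 : ∃ i j, i ≠ j ∧ u i ≠ 0 ∧ u j ≠ 0) :
    ∃ C : ℝ, 0 ≤ C ∧ ∀ (m : ℕ) (c : ℤ),
      |(cnt d m u c : ℝ) - cnt d m u (c + 1)| ≤ C * (m : ℝ) ^ (d - 2) := by
  classical
  obtain ⟨s, hs⟩ := A5_bezout (Finset.univ : Finset (Fin d)) u
  rw [hu] at hs
  refine ⟨((∑ i, (s i).natAbs : ℕ) : ℝ), Nat.cast_nonneg _, fun m c => ?_⟩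
  have h1 := A5_half d m u h2 s 1 hs c
  have hs' : ∑ i, u i * (fun i => - s i) i = -1 := by
    simp only [mul_neg, Finset.sum_neg_distrib, hs]
  have h3 := A5_half d m u h2 (fun i => - s i) (-1) hs' (c + 1)
  simp only [Int.natAbs_neg] at h3
  have h4 : c + 1 + -1 = c := by ring
  rw [h4] at h3
  have h1' : (cnt d m u c : ℝ) ≤ cnt d m u (c + 1) +
      ((∑ i, (s i).natAbs : ℕ) : ℝ) * (m : ℝ) ^ (d - 2) := by exact_mod_cast h1
  have h3' : (cnt d m u (c + 1) : ℝ) ≤ cnt d m u c +
      ((∑ i, (s i).natAbs : ℕ) : ℝ) * (m : ℝ) ^ (d - 2) := by exact_mod_cast h3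
  rw [abs_le]
  constructor <;> linarith

end Pool.Agent.helper49.Slope
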