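import Pool.Agent.helper49.Slope.DefsA

/-!
MP_aedd95_co (slope of k-fold hyperplane covers of triangular grids), module A6.
The discretised law.
-/

set_option autoImplicit false

open MeasureTheory ProbabilityTheory
open scoped ENNReal

namespace Pool.Agent.helper49.Slope

theorem A6_measurable (d m : ℕ) (A : ℝ) (z : Fin d → Fin m) :
    Measurable (fun y : Fin (d + 1) → ℝ => pt d m A y z) := by
  rw [measurable_pi_iff]
  intro i
  have h0 : Measurable (fun y : Fin (d + 1) → ℝ => A * (1 + y i.castSucc)) :=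
    measurable_const.mul (measurable_const.add (measurable_pi_apply i.castSucc))
  have h1 : Measurable (fun y : Fin (d + 1) → ℝ => ⌊A * (1 + y i.castSucc)⌋) := h0.floor
  exact h1.add_const _

theorem A6_mem (d m n : ℕ) (A : ℝ) (hA : 0 ≤ A)
    (hAn : A * (d + 1) + d * m ≤ (n : ℝ) - 1) (y : Fin (d + 1) → ℝ)
    (hy : (∀ i, |y i| ≤ 1) ∧ ∑ i, y i = 0) (z : Fin d → Fin m) : pt d m A y z ∈ grid d n := by
  obtain ⟨h1, h2⟩ := hy
  have hlow : ∀ i, -1 ≤ y i := fun i => (abs_le.1 (h1 i)).1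
  constructor
  · intro i
    have h3 : 0 ≤ A * (1 + y i.castSucc) := mul_nonneg hA (by linarith [hlow i.castSucc])
    have h4 : (0 : ℤ) ≤ ⌊A * (1 + y i.castSucc)⌋ := Int.floor_nonneg.2 h3
    have h5 : (0 : ℤ) ≤ ((z i : ℕ) : ℤ) := Int.natCast_nonneg _
    exact add_nonneg h4 h5
  · have h3 : ((∑ i, pt d m A y z i : ℤ) : ℝ) ≤ (n : ℝ) - 1 := by
      rw [Int.cast_sum]
      have h4 : ∀ i ∈ (Finset.univ : Finset (Fin d)), ((pt d m A y z i : ℤ) : ℝ) ≤
          A * (1 + y i.castSucc) + m := by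
        intro i _
        have h5 : ((z i : ℕ) : ℝ) ≤ m := by exact_mod_cast (z i).2.le
        have h6 := Int.floor_le (A * (1 + y i.castSucc))
        simp only [pt, Int.cast_add, Int.cast_natCast]
        linarith
      refine (Finset.sum_le_sum h4).trans ?_
      rw [Finset.sum_add_distrib, ← Finset.mul_sum, Finset.sum_add_distrib]
      rw [Fin.sum_univ_castSucc] at h2
      simp only [Finset.sum_const, Finset.card_univ, Fintype.card_fin, nsmul_eq_mul, mul_one]
      have h7 : ∑ i : Fin d, y i.castSucc = - y (Fin.last d) := by linarith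
      rw [h7]
      have h8 : A * ((d : ℝ) + -y (Fin.last d)) ≤ A * (d + 1) :=
        mul_le_mul_of_nonneg_left (by linarith [hlow (Fin.last d)]) hA
      linarith
    have h9 : ((∑ i, pt d m A y z i : ℤ) : ℝ) ≤ (((n : ℤ) - 1 : ℤ) : ℝ) := by
      push_cast
      push_cast at h3
      exact h3
    exact_mod_cast h9

/-- **A6 (discretised law).** `P` is the image of `μ ⊗ uniform` under `pt`. Support: if
`|y_i| ≤ 1`, `∑ y_i = 0` then all coordinates are `≥ 0` and
`∑ pt_i ≤ A ∑_{i≤d} (1+y_i) + d(m-1) = A (d - y_{d+1}) + d(m-1) ≤ A(d+1) + d(m-1) ≤ n-1`. -/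
theorem disc_exists (d m n : ℕ) (hm : 1 ≤ m) (A : ℝ) (hA : 0 ≤ A)
    (hAn : A * (d + 1) + d * m ≤ (n : ℝ) - 1)
    (μ : Measure (Fin (d + 1) → ℝ)) [IsProbabilityMeasure μ] (hμ : Supp μ 0) :
    ∃ P : Measure (Fin d → ℤ), IsProbabilityMeasure P ∧ P (grid d n)ᶜ = 0 ∧
      ∀ S : Set (Fin d → ℤ), P S =
        ∫⁻ y, (∑ z : Fin d → Fin m, S.indicator (fun _ => (1 : ℝ≥0∞)) (pt d m A y z))
          / (m : ℝ≥0∞) ^ d ∂μ := by
  classical
  have hS : ∀ S : Set (Fin d → ℤ), MeasurableSet S := fun S => S.to_countable.measurableSet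
  have hm0 : (m : ℝ≥0∞) ^ d ≠ 0 := pow_ne_zero _ (by
    have : m ≠ 0 := by omega
    exact_mod_cast this)
  have hmt : (m : ℝ≥0∞) ^ d ≠ ⊤ := ENNReal.pow_ne_top (ENNReal.natCast_ne_top m)
  set P : Measure (Fin d → ℤ) := ((m : ℝ≥0∞) ^ d)⁻¹ • ∑ z : Fin d → Fin m,
    μ.map (fun y => pt d m A y z) with hP
  have hPS : ∀ S : Set (Fin d → ℤ), P S = ((m : ℝ≥0∞) ^ d)⁻¹ * ∑ z : Fin d → Fin m,
      μ ((fun y => pt d m A y z) ⁻¹' S) := by
    intro S
    rw [hP, Measure.smul_apply, smul_eq_mul, Measure.finsetSum_apply]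
    congr 1
    refine Finset.sum_congr rfl fun z _ => ?_
    rw [Measure.map_apply (A6_measurable d m A z) (hS S)]
  refine ⟨P, ⟨?_⟩, ?_, ?_⟩
  · rw [hPS]
    simp only [Set.preimage_univ, measure_univ, Finset.sum_const, Finset.card_univ,
      Fintype.card_fun, Fintype.card_fin, nsmul_eq_mul, mul_one, Nat.cast_pow]
    exact ENNReal.inv_mul_cancel hm0 hmt
  · rw [hPS]
    have h0 : ∀ z : Fin d → Fin m, μ ((fun y => pt d m A y z) ⁻¹' (grid d n)ᶜ) = 0 := by
      intro z
      have h1 : ∀ᵐ y ∂μ, pt d m A y z ∈ grid d n := by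
        filter_upwards [hμ] with y hy
        exact A6_mem d m n A hA hAn y hy z
      exact h1
    rw [Finset.sum_congr rfl (fun z _ => h0 z), Finset.sum_const_zero, mul_zero]
  · intro S
    rw [hPS]
    have h1 : ∀ y : Fin (d + 1) → ℝ,
        (∑ z : Fin d → Fin m, S.indicator (fun _ => (1 : ℝ≥0∞)) (pt d m A y z)) / (m : ℝ≥0∞) ^ d =
        ((m : ℝ≥0∞) ^ d)⁻¹ * ∑ z : Fin d → Fin m,
          ((fun y => pt d m A y z) ⁻¹' S).indicator (fun _ => (1 : ℝ≥0∞)) y := by
      intro y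
      rw [ENNReal.div_eq_inv_mul]
      rfl
    have hms : ∀ z : Fin d → Fin m, MeasurableSet ((fun y => pt d m A y z) ⁻¹' S) := fun z =>
      A6_measurable d m A z (hS S)
    simp_rw [h1]
    rw [lintegral_const_mul' _ _ (ENNReal.inv_ne_top.2 hm0), lintegral_finsetSum]
    · congr 1
      refine Finset.sum_congr rfl fun z _ => ?_
      rw [lintegral_indicator (hms z), lintegral_const, one_mul, Measure.restrict_apply_univ]
    · intro z _
      exact measurable_const.indicator (hms z)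

end Pool.Agent.helper49.Slope
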