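import Pool.Agent.helper49.Slope.DefsA

/-!
MP_aedd95_co (slope of k-fold hyperplane covers of triangular grids), module A7.
Tame directions, two nonzero coefficients.
-/

set_option autoImplicit false

open MeasureTheory ProbabilityTheory
open scoped ENNReal

namespace Pool.Agent.helper49.Slope

theorem A7_sum_ite_le (X c : ℤ) (J : ℕ) :
    ∑ j ∈ Finset.range J, (if X = c + j then (1 : ℕ) else 0) ≤
      if (c ≤ X ∧ X ≤ c + J - 1) then 1 else 0 := by
  split_ifs with h
  · rw [← Finset.card_filter, Finset.card_le_one]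
    intro a ha b hb
    simp only [Finset.mem_filter] at ha hb
    omega
  · rw [Finset.sum_eq_zero]
    intro j hj
    rw [if_neg]
    intro h1
    rw [Finset.mem_range] at hj
    exact h (by omega)

theorem A7_avg (d m : ℕ) (u : Fin d → ℤ) (C : ℝ) (hC : 0 ≤ C)
    (hs : ∀ c : ℤ, |(cnt d m u c : ℝ) - cnt d m u (c + 1)| ≤ C * (m : ℝ) ^ (d - 2))
    (J : ℕ) (hJ : 1 ≤ J) (e : ℤ) :
    (J : ℝ) * cnt d m u e ≤ ∑ j ∈ Finset.range J, (cnt d m u (e + j) : ℝ)
      + J * (J * (C * (m : ℝ) ^ (d - 2))) := by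
  have hE : 0 ≤ C * (m : ℝ) ^ (d - 2) := by positivity
  have h1 : ∀ j : ℕ, (cnt d m u e : ℝ) ≤ cnt d m u (e + j) + j * (C * (m : ℝ) ^ (d - 2)) := by
    intro j
    induction j with
    | zero => simp
    | succ j ih =>
      have h2 := hs (e + j)
      rw [abs_le] at h2
      have h3 : e + (j : ℤ) + 1 = e + ((j + 1 : ℕ) : ℤ) := by push_cast; ring
      rw [h3] at h2
      push_cast at h2 ⊢
      nlinarith [h2.1, h2.2, ih]
  have h2 : ∑ j ∈ Finset.range J, (cnt d m u e : ℝ) ≤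
      ∑ j ∈ Finset.range J, ((cnt d m u (e + j) : ℝ) + J * (C * (m : ℝ) ^ (d - 2))) := by
    apply Finset.sum_le_sum
    intro j hj
    have hj' : (j : ℝ) ≤ J := by
      exact_mod_cast (Finset.mem_range.mp hj).le
    have := h1 j
    nlinarith [mul_le_mul_of_nonneg_right hj' hE]
  rw [Finset.sum_add_distrib] at h2
  simpa using h2

theorem A7_lin (d : ℕ) (u : Fin d → ℤ) (y : Fin (d + 1) → ℝ) :
    lin (Fin.snoc u 0 : Fin (d + 1) → ℤ) y = ∑ i : Fin d, (u i : ℝ) * y i.castSucc := by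
  unfold lin
  rw [Fin.sum_univ_castSucc]
  simp

theorem A7_meas (d : ℕ) (u : Fin (d + 1) → ℤ) : Measurable (lin u) := by
  unfold lin
  fun_prop

/-- **A7 (tame directions, two nonzero coefficients).** Write `R(y) = ∑ u_i ⌊A(1+y_i)⌋`,
`S = ∑|u_i|`. For each `y`, `cnt (c - R) ≤ (1/J) ∑_{j<J} cnt(c+j-R) + J C m^(d-2)` by `smooth`.
`∑_{j<J} ∫ cnt(c+j-R(y)) dμ / m^d = E_Z μ(R(y) + u·Z ∈ [c, c+J)) ≤ sup_r μ(R ∈ [r, r+J-1])
≤ (J + 2S)/(2A)`, because `R ∈ [r,r+J-1]` puts `A ∑ u_i y_i` in an interval of length `≤ J-1+2S`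
and the form `(u,0)` is not constant. -/
theorem tame_two (d m : ℕ) (hm : 1 ≤ m) (A : ℝ) (hA : 0 < A) (u : Fin d → ℤ)
    (h2 : ∃ i j, i ≠ j ∧ u i ≠ 0 ∧ u j ≠ 0) (C : ℝ) (hC : 0 ≤ C)
    (hs : ∀ c : ℤ, |(cnt d m u c : ℝ) - cnt d m u (c + 1)| ≤ C * (m : ℝ) ^ (d - 2))
    (μ : Measure (Fin (d + 1) → ℝ)) [IsProbabilityMeasure μ]
    (hμ : ∀ u : Fin (d + 1) → ℤ, (∃ i j, u i ≠ u j) → HasLoad (μ.map (lin u)) (fun _ => 1))
    (J : ℕ) (hJ : 1 ≤ J) (c : ℤ) :
    ∫⁻ y, (∑ z : Fin d → Fin m, if ∑ i, u i * pt d m A y z i = c then (1 : ℝ≥0∞) else 0)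
        / (m : ℝ≥0∞) ^ d ∂μ
      ≤ ENNReal.ofReal ((J + 2 * ∑ i, |(u i : ℝ)|) / (2 * A * J) + J * C / (m : ℝ) ^ 2) := by
  classical
  have hm0 : (0 : ℝ) < m := by exact_mod_cast hm
  have hJ0 : (0 : ℝ) < J := by exact_mod_cast hJ
  have hS0 : 0 ≤ ∑ i, |(u i : ℝ)| := Finset.sum_nonneg (fun i _ => abs_nonneg _)
  obtain ⟨i₀, j₀, hij, hui, huj⟩ := h2
  have hd2 : 2 ≤ d := by
    have h1 := i₀.2
    have h2 := j₀.2
    have h3 : (i₀ : ℕ) ≠ j₀ := fun h => hij (Fin.ext h)
    omega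
  set u' : Fin (d + 1) → ℤ := Fin.snoc u 0 with hu'
  have hload : HasLoad (μ.map (lin u')) (fun _ => 1) := by
    apply hμ
    refine ⟨i₀.castSucc, Fin.last d, ?_⟩
    rw [hu']
    simpa using hui
  set S : ℝ := ∑ i, |(u i : ℝ)| with hS
  set U : ℝ := ∑ i, (u i : ℝ) with hU
  -- the interval attached to `z`
  let r : (Fin d → Fin m) → ℤ := fun z => c - ∑ i, u i * (z i : ℤ)
  let I : (Fin d → Fin m) → Set ℝ := fun z =>
    Set.Icc (((r z : ℝ) - A * U - S) / A) (((r z : ℝ) + J - 1 - A * U + S) / A)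
  have hBmeas : ∀ z, MeasurableSet (lin u' ⁻¹' I z) := fun z =>
    A7_meas d u' measurableSet_Icc
  have hB : ∀ z, μ (lin u' ⁻¹' I z) ≤ ENNReal.ofReal ((J + 2 * S) / (2 * A)) := by
    intro z
    rw [← Measure.map_apply (A7_meas d u') measurableSet_Icc]
    refine (hload _).trans ?_
    rw [withDensity_apply _ measurableSet_Icc, setLIntegral_const, Real.volume_Icc]
    have h12 : (1 / 2 : ℝ≥0∞) = ENNReal.ofReal (1 / 2) := by
      rw [ENNReal.ofReal_div_of_pos (by norm_num)]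
      simp
    rw [h12, ← ENNReal.ofReal_mul (by norm_num)]
    apply ENNReal.ofReal_le_ofReal
    have : ((r z : ℝ) + J - 1 - A * U + S) / A - ((r z : ℝ) - A * U - S) / A
        = (J - 1 + 2 * S) / A := by
      rw [← sub_div]; congr 1; ring
    rw [this, show (1 / 2 : ℝ) * ((J - 1 + 2 * S) / A) = (J - 1 + 2 * S) / (2 * A) by
      field_simp]
    gcongr
    linarith
  -- values in the interval
  have hI : ∀ (y : Fin (d + 1) → ℝ) (z : Fin d → Fin m),
      (c ≤ ∑ i, u i * pt d m A y z i ∧ ∑ i, u i * pt d m A y z i ≤ c + J - 1) →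
      y ∈ lin u' ⁻¹' I z := by
    intro y z hyz
    have e1 : ∑ i, u i * pt d m A y z i =
        ∑ i, u i * ⌊A * (1 + y i.castSucc)⌋ + ∑ i, u i * (z i : ℤ) := by
      rw [← Finset.sum_add_distrib]
      apply Finset.sum_congr rfl
      intro i _
      rw [pt]; ring
    have e2 : |A * lin u' y + A * U - ((∑ i, u i * ⌊A * (1 + y i.castSucc)⌋ : ℤ) : ℝ)| ≤ S := by
      have e3 : A * lin u' y + A * U - ((∑ i, u i * ⌊A * (1 + y i.castSucc)⌋ : ℤ) : ℝ)
          = ∑ i, (u i : ℝ) * (A * (1 + y i.castSucc) - ⌊A * (1 + y i.castSucc)⌋) := by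
        rw [hu', A7_lin, hU]
        push_cast
        rw [Finset.mul_sum, Finset.mul_sum, ← Finset.sum_add_distrib, ← Finset.sum_sub_distrib]
        apply Finset.sum_congr rfl
        intro i _
        ring
      rw [e3]
      refine (Finset.abs_sum_le_sum_abs _ _).trans ?_
      rw [hS]
      apply Finset.sum_le_sum
      intro i _
      rw [abs_mul]
      have h1 : |A * (1 + y i.castSucc) - ⌊A * (1 + y i.castSucc)⌋| ≤ 1 := by
        have h2 := Int.floor_le (A * (1 + y i.castSucc))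
        have h3 := Int.lt_floor_add_one (A * (1 + y i.castSucc))
        rw [abs_le]
        constructor <;> linarith
      calc |(u i : ℝ)| * _ ≤ |(u i : ℝ)| * 1 := by gcongr
        _ = _ := mul_one _
    rw [abs_le] at e2
    rw [e1] at hyz
    obtain ⟨h3, h4⟩ := hyz
    have h3' : (r z : ℝ) ≤ ((∑ i, u i * ⌊A * (1 + y i.castSucc)⌋ : ℤ) : ℝ) := by
      have : r z ≤ ∑ i, u i * ⌊A * (1 + y i.castSucc)⌋ := by
        show c - ∑ i, u i * (z i : ℤ) ≤ _
        linarith
      exact_mod_cast this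
    have h4' : ((∑ i, u i * ⌊A * (1 + y i.castSucc)⌋ : ℤ) : ℝ) ≤ (r z : ℝ) + J - 1 := by
      have : ∑ i, u i * ⌊A * (1 + y i.castSucc)⌋ ≤ r z + J - 1 := by
        show _ ≤ c - ∑ i, u i * (z i : ℤ) + J - 1
        linarith
      exact_mod_cast this
    simp only [Set.mem_preimage, I, Set.mem_Icc]
    constructor
    · rw [div_le_iff₀ hA]
      linarith [e2.1, e2.2]
    · rw [le_div_iff₀ hA]
      linarith [e2.1, e2.2]
  -- pointwise bound in `ℝ`
  have hpt : ∀ y : Fin (d + 1) → ℝ,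
      (∑ z : Fin d → Fin m, if ∑ i, u i * pt d m A y z i = c then (1 : ℝ) else 0) / (m : ℝ) ^ d ≤
      (∑ z : Fin d → Fin m, (lin u' ⁻¹' I z).indicator (fun _ => (1 : ℝ)) y) / (J * (m : ℝ) ^ d)
        + J * C / (m : ℝ) ^ 2 := by
    intro y
    set R : ℤ := ∑ i, u i * ⌊A * (1 + y i.castSucc)⌋ with hR
    have e1 : ∀ z : Fin d → Fin m, ∑ i, u i * pt d m A y z i = R + ∑ i, u i * (z i : ℤ) := by
      intro z
      rw [hR, ← Finset.sum_add_distrib]
      apply Finset.sum_congr rfl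
      intro i _
      rw [pt]; ring
    have e2 : ∀ c' : ℤ, (cnt d m u (c' - R) : ℝ) =
        ∑ z : Fin d → Fin m, if ∑ i, u i * pt d m A y z i = c' then (1 : ℝ) else 0 := by
      intro c'
      rw [cnt, Finset.card_filter]
      push_cast
      apply Finset.sum_congr rfl
      intro z _
      rw [e1 z]
      congr 1
      apply propext
      constructor <;> intro h <;> linarith
    have h3 := A7_avg d m u C hC hs J hJ (c - R)
    have e3 : ∀ j : ℕ, c - R + (j : ℤ) = (c + j) - R := by intro j; ring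
    simp only [e3, e2] at h3
    rw [Finset.sum_comm] at h3
    have h4 : ∑ z : Fin d → Fin m, ∑ j ∈ Finset.range J,
        (if ∑ i, u i * pt d m A y z i = c + (j : ℤ) then (1 : ℝ) else 0) ≤
        ∑ z : Fin d → Fin m, (lin u' ⁻¹' I z).indicator (fun _ => (1 : ℝ)) y := by
      apply Finset.sum_le_sum
      intro z _
      have h5 := A7_sum_ite_le (∑ i, u i * pt d m A y z i) c J
      have h6 : ∑ j ∈ Finset.range J,
        (if ∑ i, u i * pt d m A y z i = c + (j : ℤ) then (1 : ℝ) else 0) ≤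
        if (c ≤ ∑ i, u i * pt d m A y z i ∧ ∑ i, u i * pt d m A y z i ≤ c + J - 1)
          then 1 else 0 := by exact_mod_cast h5
      refine h6.trans ?_
      split_ifs with h7
      · rw [Set.indicator_of_mem (hI y z h7)]
      · exact Set.indicator_nonneg (fun _ _ => zero_le_one) _
    set F := ∑ z : Fin d → Fin m, if ∑ i, u i * pt d m A y z i = c then (1 : ℝ) else 0 with hF
    set G := ∑ z : Fin d → Fin m, (lin u' ⁻¹' I z).indicator (fun _ => (1 : ℝ)) y with hG
    have h5 : (J : ℝ) * F ≤ G + J * (J * (C * (m : ℝ) ^ (d - 2))) := h3.trans (by linarith)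
    have h6 : (m : ℝ) ^ d = (m : ℝ) ^ (d - 2) * (m : ℝ) ^ 2 := by
      rw [← pow_add]; congr 1; omega
    have hmd : (0 : ℝ) < (m : ℝ) ^ d := by positivity
    have hmd2 : (0 : ℝ) < (m : ℝ) ^ (d - 2) := by positivity
    rw [div_le_iff₀ hmd]
    have h7 : (G / (J * (m : ℝ) ^ d) + J * C / (m : ℝ) ^ 2) * (m : ℝ) ^ d =
        (G + J * (J * (C * (m : ℝ) ^ (d - 2)))) / J := by
      rw [h6]
      field_simp
    rw [h7, le_div_iff₀ hJ0]
    linarith
  -- pointwise bound in `ℝ≥0∞`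
  have hpt' : ∀ y : Fin (d + 1) → ℝ,
      (∑ z : Fin d → Fin m, if ∑ i, u i * pt d m A y z i = c then (1 : ℝ≥0∞) else 0)
        / (m : ℝ≥0∞) ^ d ≤
      (∑ z : Fin d → Fin m, (lin u' ⁻¹' I z).indicator (fun _ => (1 : ℝ≥0∞)) y) *
        (ENNReal.ofReal (J * (m : ℝ) ^ d)⁻¹) + ENNReal.ofReal (J * C / (m : ℝ) ^ 2) := by
    intro y
    have h1 : (∑ z : Fin d → Fin m, if ∑ i, u i * pt d m A y z i = c then (1 : ℝ≥0∞) else 0)
        / (m : ℝ≥0∞) ^ d = ENNReal.ofReal ((∑ z : Fin d → Fin m,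
          if ∑ i, u i * pt d m A y z i = c then (1 : ℝ) else 0) / (m : ℝ) ^ d) := by
      rw [ENNReal.ofReal_div_of_pos (by positivity), ENNReal.ofReal_pow hm0.le,
        ENNReal.ofReal_natCast, ENNReal.ofReal_sum_of_nonneg]
      · congr 1
        apply Finset.sum_congr rfl
        intro z _
        split_ifs <;> simp
      · intro z _
        split_ifs <;> norm_num
    have h2 : (∑ z : Fin d → Fin m, (lin u' ⁻¹' I z).indicator (fun _ => (1 : ℝ≥0∞)) y) =
        ENNReal.ofReal (∑ z : Fin d → Fin m, (lin u' ⁻¹' I z).indicator (fun _ => (1 : ℝ)) y) := by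
      rw [ENNReal.ofReal_sum_of_nonneg]
      · apply Finset.sum_congr rfl
        intro z _
        by_cases h : y ∈ lin u' ⁻¹' I z
        · rw [Set.indicator_of_mem h, Set.indicator_of_mem h]; simp
        · rw [Set.indicator_of_notMem h, Set.indicator_of_notMem h]; simp
      · intro z _
        exact Set.indicator_nonneg (fun _ _ => zero_le_one) _
    have hG0 : 0 ≤ ∑ z : Fin d → Fin m, (lin u' ⁻¹' I z).indicator (fun _ => (1 : ℝ)) y :=
      Finset.sum_nonneg (fun z _ => Set.indicator_nonneg (fun _ _ => zero_le_one) _)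
    rw [h1, h2, ← ENNReal.ofReal_mul hG0, ← ENNReal.ofReal_add (by positivity) (by positivity)]
    apply ENNReal.ofReal_le_ofReal
    rw [← div_eq_mul_inv]
    exact hpt y
  calc ∫⁻ y, (∑ z : Fin d → Fin m, if ∑ i, u i * pt d m A y z i = c then (1 : ℝ≥0∞) else 0)
        / (m : ℝ≥0∞) ^ d ∂μ
      ≤ ∫⁻ y, ((∑ z : Fin d → Fin m, (lin u' ⁻¹' I z).indicator (fun _ => (1 : ℝ≥0∞)) y) *
        (ENNReal.ofReal (J * (m : ℝ) ^ d)⁻¹) + ENNReal.ofReal (J * C / (m : ℝ) ^ 2)) ∂μ :=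
        lintegral_mono hpt'
    _ = (∑ z : Fin d → Fin m, μ (lin u' ⁻¹' I z)) *
        (ENNReal.ofReal (J * (m : ℝ) ^ d)⁻¹) + ENNReal.ofReal (J * C / (m : ℝ) ^ 2) := by
        have hmz : ∀ z : Fin d → Fin m,
            Measurable ((lin u' ⁻¹' I z).indicator (fun _ => (1 : ℝ≥0∞))) :=
          fun z => measurable_const.indicator (hBmeas z)
        rw [lintegral_add_right _ measurable_const, lintegral_const, measure_univ, mul_one,
          lintegral_mul_const _ (Finset.measurable_sum _ (fun z _ => hmz z)),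
          lintegral_finsetSum _ (fun z _ => hmz z)]
        congr 3
        funext z
        rw [lintegral_indicator (hBmeas z)]
        simp
    _ ≤ (∑ z : Fin d → Fin m, ENNReal.ofReal ((J + 2 * S) / (2 * A))) *
        (ENNReal.ofReal (J * (m : ℝ) ^ d)⁻¹) + ENNReal.ofReal (J * C / (m : ℝ) ^ 2) := by
        gcongr with z _
        exact hB z
    _ = ENNReal.ofReal ((J + 2 * S) / (2 * A * J) + J * C / (m : ℝ) ^ 2) := by
        rw [Finset.sum_const, Finset.card_univ, nsmul_eq_mul]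
        simp only [Fintype.card_pi, Fintype.card_fin, Finset.prod_const, Finset.card_univ]
        rw [show (((m ^ d : ℕ)) : ℝ≥0∞) = ENNReal.ofReal ((m : ℝ) ^ d) by
          rw [ENNReal.ofReal_pow hm0.le, ENNReal.ofReal_natCast]; push_cast; rfl]
        rw [← ENNReal.ofReal_mul (by positivity), ← ENNReal.ofReal_mul (by positivity),
          ← ENNReal.ofReal_add (by positivity) (by positivity)]
        congr 1
        field_simp

end Pool.Agent.helper49.Slope
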