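import Pool.Agent.helper49.Slope.DefsA

/-!
MP_aedd95_co (slope of k-fold hyperplane covers of triangular grids), module A8.
Tame directions, one nonzero coefficient.
-/

set_option autoImplicit false

open MeasureTheory ProbabilityTheory
open scoped ENNReal

namespace Pool.Agent.helper49.Slope

/-- number of points of the box with a given coordinate -/
theorem A8_count (e m : ℕ) (i : Fin (e + 1)) (k : Fin m) :
    ((Finset.univ : Finset (Fin (e + 1) → Fin m)).filter (fun z => z i = k)).card = m ^ e := by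
  classical
  have h : (Finset.univ : Finset (Fin (e + 1) → Fin m)).filter (fun z => z i = k) =
      Fintype.piFinset (fun j => if j = i then {k} else Finset.univ) := by
    ext z
    simp only [Finset.mem_filter, Finset.mem_univ, true_and, Fintype.mem_piFinset]
    constructor
    · intro hz j
      by_cases hj : j = i
      · subst hj
        simp [hz]
      · simp [hj]
    · intro hz
      have := hz i
      simpa using this
  rw [h, Fintype.card_piFinset, ← Finset.mul_prod_erase Finset.univ _ (Finset.mem_univ i)]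
  simp only [if_true, Finset.card_singleton, one_mul]
  rw [Finset.prod_congr rfl (g := fun _ => m)]
  · simp [Finset.card_erase_of_mem]
  · intro j hj
    simp [Finset.ne_of_mem_erase hj]

theorem A8_meas {ι : Type} [Fintype ι] (u : ι → ℤ) : Measurable (lin u) := by
  unfold lin
  fun_prop

/-- **A8 (tame directions, one nonzero coefficient).** `P(x_i = c)` is
`(1/m) μ(⌊A(1+y_i)⌋ ∈ (c-m, c]) ≤ (1/m) μ(y_i ∈ interval of length m/A) ≤ 1/(2A)`. -/
theorem tame_one (d m : ℕ) (hm : 1 ≤ m) (A : ℝ) (hA : 0 < A) (i : Fin d)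
    (μ : Measure (Fin (d + 1) → ℝ)) [IsProbabilityMeasure μ]
    (hμ : ∀ u : Fin (d + 1) → ℤ, (∃ i j, u i ≠ u j) → HasLoad (μ.map (lin u)) (fun _ => 1))
    (c : ℤ) :
    ∫⁻ y, (∑ z : Fin d → Fin m, if pt d m A y z i = c then (1 : ℝ≥0∞) else 0)
        / (m : ℝ≥0∞) ^ d ∂μ
      ≤ ENNReal.ofReal (1 / (2 * A)) := by
  classical
  obtain ⟨e, rfl⟩ : ∃ e, d = e + 1 := ⟨d - 1, by have := i.2; omega⟩
  have hm0 : (0 : ℝ) < m := by exact_mod_cast hm
  set I : Set ℝ := Set.Ico (((c - m + 1 : ℤ) : ℝ) / A - 1) (((c + 1 : ℤ) : ℝ) / A - 1) with hI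
  set u : Fin (e + 1 + 1) → ℤ := Pi.single i.castSucc 1 with hu
  have hlin : ∀ y, lin u y = y i.castSucc := by
    intro y
    simp [lin, hu, Pi.single_apply]
  have hpt : ∀ y : Fin (e + 1 + 1) → ℝ,
      (∑ z : Fin (e + 1) → Fin m, if pt (e + 1) m A y z i = c then (1 : ℝ≥0∞) else 0)
        / (m : ℝ≥0∞) ^ (e + 1) ≤ (lin u ⁻¹' I).indicator (fun _ => (m : ℝ≥0∞)⁻¹) y := by
    intro y
    rw [Finset.sum_boole]
    by_cases hex : ∃ z0 : Fin (e + 1) → Fin m, pt (e + 1) m A y z0 i = c
    · obtain ⟨z0, hz0⟩ := hex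
      have hz0' : ⌊A * (1 + y i.castSucc)⌋ + ((z0 i : ℕ) : ℤ) = c := hz0
      have hyI : y ∈ lin u ⁻¹' I := by
        have h1 := Int.floor_le (A * (1 + y i.castSucc))
        have h2 := Int.lt_floor_add_one (A * (1 + y i.castSucc))
        have h3 : ((z0 i : ℕ) : ℤ) ≤ m - 1 := by
          have := (z0 i).2
          omega
        have h4 : (0 : ℤ) ≤ ((z0 i : ℕ) : ℤ) := by positivity
        have h5 : ((c - m + 1 : ℤ) : ℝ) ≤ A * (1 + y i.castSucc) := by
          refine le_trans ?_ h1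
          exact_mod_cast (by omega : c - m + 1 ≤ ⌊A * (1 + y i.castSucc)⌋)
        have h6 : A * (1 + y i.castSucc) < ((c + 1 : ℤ) : ℝ) := by
          refine lt_of_lt_of_le h2 ?_
          exact_mod_cast (by omega : ⌊A * (1 + y i.castSucc)⌋ + 1 ≤ c + 1)
        rw [Set.mem_preimage, hlin, hI, Set.mem_Ico]
        constructor
        · rw [sub_le_iff_le_add, div_le_iff₀ hA]
          linarith
        · rw [lt_sub_iff_add_lt, lt_div_iff₀ hA]
          linarith
      rw [Set.indicator_of_mem hyI]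
      have hcard : ((Finset.univ : Finset (Fin (e + 1) → Fin m)).filter
          (fun z => pt (e + 1) m A y z i = c)).card ≤ m ^ e := by
        rw [← A8_count e m i (z0 i)]
        apply Finset.card_le_card
        intro z hz
        simp only [Finset.mem_filter, Finset.mem_univ, true_and] at hz ⊢
        have hz' : ⌊A * (1 + y i.castSucc)⌋ + ((z i : ℕ) : ℤ) = c := hz
        apply Fin.ext
        omega
      have hmne : (m : ℝ≥0∞) ≠ 0 := by
        have : m ≠ 0 := by omega
        exact_mod_cast this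
      have hmtop : (m : ℝ≥0∞) ≠ ⊤ := ENNReal.natCast_ne_top m
      calc ((((Finset.univ : Finset (Fin (e + 1) → Fin m)).filter
          (fun z => pt (e + 1) m A y z i = c)).card : ℕ) : ℝ≥0∞) / (m : ℝ≥0∞) ^ (e + 1)
          ≤ ((m ^ e : ℕ) : ℝ≥0∞) / (m : ℝ≥0∞) ^ (e + 1) := by
            apply ENNReal.div_le_div_right
            exact_mod_cast hcard
        _ = (m : ℝ≥0∞)⁻¹ := by
            rw [Nat.cast_pow, pow_succ, ENNReal.div_eq_inv_mul,
              ENNReal.mul_inv (Or.inr hmtop) (Or.inr hmne), mul_right_comm,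
              ENNReal.inv_mul_cancel (pow_ne_zero _ hmne) (ENNReal.pow_ne_top hmtop), one_mul]
    · have h0 : ((Finset.univ : Finset (Fin (e + 1) → Fin m)).filter
          (fun z => pt (e + 1) m A y z i = c)) = ∅ := by
        rw [Finset.filter_eq_empty_iff]
        intro z _ hz
        exact hex ⟨z, hz⟩
      rw [h0]
      simp
  have hne : ∃ j k, u j ≠ u k := by
    refine ⟨i.castSucc, Fin.last (e + 1), ?_⟩
    have h1 : Fin.last (e + 1) ≠ i.castSucc := (Fin.castSucc_lt_last i).ne'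
    simp [hu, Pi.single_apply, h1]
  have hload : (μ.map (lin u)) I ≤ (volume.withDensity (fun _ : ℝ => (1 : ℝ≥0∞) / 2)) I :=
    hμ u hne I
  have hvol : (volume.withDensity (fun _ : ℝ => (1 : ℝ≥0∞) / 2)) I =
      ENNReal.ofReal (1 / 2 * (m / A)) := by
    rw [withDensity_apply _ measurableSet_Ico, setLIntegral_const, Real.volume_Ico]
    have h1 : (((c + 1 : ℤ) : ℝ) / A - 1) - (((c - m + 1 : ℤ) : ℝ) / A - 1) = m / A := by
      push_cast
      ring
    rw [h1, ENNReal.ofReal_mul (by norm_num)]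
    congr 1
    rw [ENNReal.ofReal_div_of_pos (by norm_num)]
    simp
  calc ∫⁻ y, (∑ z : Fin (e + 1) → Fin m, if pt (e + 1) m A y z i = c then (1 : ℝ≥0∞) else 0)
        / (m : ℝ≥0∞) ^ (e + 1) ∂μ
      ≤ ∫⁻ y, (lin u ⁻¹' I).indicator (fun _ => (m : ℝ≥0∞)⁻¹) y ∂μ := lintegral_mono hpt
    _ = (m : ℝ≥0∞)⁻¹ * μ (lin u ⁻¹' I) :=
        lintegral_indicator_const ((A8_meas u) measurableSet_Ico) _
    _ = (m : ℝ≥0∞)⁻¹ * (μ.map (lin u)) I := by
        rw [Measure.map_apply (A8_meas u) measurableSet_Ico]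
    _ ≤ (m : ℝ≥0∞)⁻¹ * ENNReal.ofReal (1 / 2 * (m / A)) := by
        rw [← hvol]
        gcongr
    _ = ENNReal.ofReal (1 / (2 * A)) := by
        have h1 : (m : ℝ≥0∞)⁻¹ = ENNReal.ofReal ((m : ℝ)⁻¹) := by
          rw [ENNReal.ofReal_inv_of_pos hm0, ENNReal.ofReal_natCast]
        rw [h1, ← ENNReal.ofReal_mul (by positivity)]
        congr 1
        field_simp

end Pool.Agent.helper49.Slope
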