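import Pool.Agent.helper49.Slope.DefsA
import Pool.Agent.helper49.Slope.A3
import Pool.Agent.helper49.Slope.A4
import Pool.Agent.helper49.Slope.A5
import Pool.Agent.helper49.Slope.A6
import Pool.Agent.helper49.Slope.A7
import Pool.Agent.helper49.Slope.A8

/-!
MP_aedd95_co (slope of k-fold hyperplane covers of triangular grids), module A9.
Discretisation: assembly of A3 - A8 (import the stubs).
-/

set_option autoImplicit false

open MeasureTheory ProbabilityTheory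
open scoped ENNReal

namespace Pool.Agent.helper49.Slope

/-- a count of box points divided by the number of box points -/
theorem A9_div (d m : ℕ) (hm : 1 ≤ m) (N : ℕ) (B : ℝ) (h : (N : ℝ) ≤ B * (m : ℝ) ^ d) :
    (N : ℝ≥0∞) / (m : ℝ≥0∞) ^ d ≤ ENNReal.ofReal B := by
  have hmr : (0 : ℝ) < (m : ℝ) ^ d := by positivity
  have e1 : (m : ℝ≥0∞) ^ d = ENNReal.ofReal ((m : ℝ) ^ d) := by
    rw [ENNReal.ofReal_pow (Nat.cast_nonneg _), ENNReal.ofReal_natCast]
  have e2 : (N : ℝ≥0∞) = ENNReal.ofReal (N : ℝ) := (ENNReal.ofReal_natCast N).symm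
  rw [e1, e2, ← ENNReal.ofReal_div_of_pos hmr]
  apply ENNReal.ofReal_le_ofReal
  rw [div_le_iff₀ hmr]
  exact h

/-- wild hyperplanes -/
theorem A9_wild (d L m : ℕ) (hm : 1 ≤ m) (A : ℝ) (a : Fin d → ℝ) (i j : Fin d) (hij : i ≠ j)
    (hi : a i ≠ 0) (hj : a j ≠ 0)
    (h : ∀ p q : ℤ, |p| ≤ (L : ℤ) → |q| ≤ (L : ℤ) → (p : ℝ) * a i + q * a j = 0 → p = 0 ∧ q = 0)
    (b : ℝ) (μ : Measure (Fin (d + 1) → ℝ)) [IsProbabilityMeasure μ] (P : Measure (Fin d → ℤ))
    (hP : ∀ S : Set (Fin d → ℤ), P S =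
        ∫⁻ y, (∑ z : Fin d → Fin m, S.indicator (fun _ => (1 : ℝ≥0∞)) (pt d m A y z))
          / (m : ℝ≥0∞) ^ d ∂μ) :
    P {x | ∑ i, a i * (x i : ℝ) = b} ≤
      ENNReal.ofReal (1 / (((L : ℝ) + 1) * m) + 1 / (m : ℝ) ^ 2) := by
  classical
  rw [hP]
  have hd : 2 ≤ d := by
    have h1 := i.2
    have h2 := j.2
    have h3 : i.1 ≠ j.1 := fun h => hij (Fin.ext h)
    omega
  have hmr : (0 : ℝ) < m := by exact_mod_cast hm
  have hpt : ∀ y : Fin (d + 1) → ℝ,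
      (∑ z : Fin d → Fin m, Set.indicator {x : Fin d → ℤ | ∑ i, a i * (x i : ℝ) = b}
        (fun _ => (1 : ℝ≥0∞)) (pt d m A y z)) / (m : ℝ≥0∞) ^ d ≤
      ENNReal.ofReal (1 / (((L : ℝ) + 1) * m) + 1 / (m : ℝ) ^ 2) := by
    intro y
    have e : (∑ z : Fin d → Fin m, Set.indicator {x : Fin d → ℤ | ∑ i, a i * (x i : ℝ) = b}
        (fun _ => (1 : ℝ≥0∞)) (pt d m A y z)) =
        (((Finset.univ : Finset (Fin d → Fin m)).filter
          (fun z => ∑ k, a k * (((⌊A * (1 + y k.castSucc)⌋ + (z k : ℤ) : ℤ)) : ℝ) = b)).card : ℝ≥0∞) := by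
      rw [← Finset.sum_boole]
      apply Finset.sum_congr rfl
      intro z _
      rw [Set.indicator_apply]
      rfl
    rw [e]
    apply A9_div d m hm
    have hb := box_count d L m a i j hij hi hj h (fun k => ⌊A * (1 + y k.castSucc)⌋) b
    refine hb.trans (le_of_eq ?_)
    have hpow : (m : ℝ) ^ d = (m : ℝ) ^ (d - 2) * (m : ℝ) ^ 2 := by
      rw [← pow_add]
      congr 1
      omega
    rw [hpow]
    have hL : (0 : ℝ) < (L : ℝ) + 1 := by positivity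
    field_simp
  calc ∫⁻ y, (∑ z : Fin d → Fin m, Set.indicator {x : Fin d → ℤ | ∑ i, a i * (x i : ℝ) = b}
        (fun _ => (1 : ℝ≥0∞)) (pt d m A y z)) / (m : ℝ≥0∞) ^ d ∂μ
      ≤ ∫⁻ _, ENNReal.ofReal (1 / (((L : ℝ) + 1) * m) + 1 / (m : ℝ) ^ 2) ∂μ := lintegral_mono hpt
    _ = _ := by rw [lintegral_const, measure_univ, mul_one]

/-- tame hyperplanes with one nonzero coefficient -/
theorem A9_one (d m : ℕ) (hm : 1 ≤ m) (A : ℝ) (hA : 0 < A) (a : Fin d → ℝ) (i : Fin d)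
    (hi : a i ≠ 0) (ho : ∀ j, j ≠ i → a j = 0)
    (b : ℝ) (μ : Measure (Fin (d + 1) → ℝ)) [IsProbabilityMeasure μ]
    (hμ : ∀ u : Fin (d + 1) → ℤ, (∃ i j, u i ≠ u j) → HasLoad (μ.map (lin u)) (fun _ => 1))
    (P : Measure (Fin d → ℤ))
    (hP : ∀ S : Set (Fin d → ℤ), P S =
        ∫⁻ y, (∑ z : Fin d → Fin m, S.indicator (fun _ => (1 : ℝ≥0∞)) (pt d m A y z))
          / (m : ℝ≥0∞) ^ d ∂μ) :
    P {x | ∑ i, a i * (x i : ℝ) = b} ≤ ENNReal.ofReal (1 / (2 * A)) := by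
  classical
  have hsum : ∀ x : Fin d → ℤ, ∑ k, a k * (x k : ℝ) = a i * (x i : ℝ) := by
    intro x
    apply Finset.sum_eq_single i
    · intro j _ hj
      rw [ho j hj, zero_mul]
    · intro h
      exact absurd (Finset.mem_univ i) h
  by_cases hc : ∃ c : ℤ, a i * (c : ℝ) = b
  · obtain ⟨c, hc⟩ := hc
    have hset : {x : Fin d → ℤ | ∑ k, a k * (x k : ℝ) = b} = {x | x i = c} := by
      ext x
      simp only [Set.mem_ofPred_eq]
      rw [hsum, ← hc]
      constructor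
      · intro h
        have := mul_left_cancel₀ hi h
        exact_mod_cast this
      · intro h
        rw [h]
    rw [hset, hP]
    refine le_trans (le_of_eq ?_) (tame_one d m hm A hA i μ hμ c)
    apply lintegral_congr
    intro y
    congr 1
    apply Finset.sum_congr rfl
    intro z _
    by_cases hz : pt d m A y z i = c
    · rw [if_pos hz]
      exact Set.indicator_of_mem (s := {x : Fin d → ℤ | x i = c}) hz _
    · rw [if_neg hz]
      exact Set.indicator_of_notMem (s := {x : Fin d → ℤ | x i = c}) hz _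
  · have hset : {x : Fin d → ℤ | ∑ k, a k * (x k : ℝ) = b} = ∅ := by
      ext x
      simp only [Set.mem_ofPred_eq, Set.mem_empty_iff_false, iff_false]
      rw [hsum]
      exact fun h => hc ⟨x i, h⟩
    rw [hset, measure_empty]
    exact zero_le

/-- tame hyperplanes with two nonzero coefficients -/
theorem A9_two (d m : ℕ) (hm : 1 ≤ m) (A : ℝ) (hA : 0 < A) (a : Fin d → ℝ) (u : Fin d → ℤ)
    (c0 : ℝ) (hc0 : c0 ≠ 0) (hau : ∀ i, a i = c0 * u i)
    (h2 : ∃ i j, i ≠ j ∧ u i ≠ 0 ∧ u j ≠ 0) (C : ℝ) (hC : 0 ≤ C)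
    (hs : ∀ c : ℤ, |(cnt d m u c : ℝ) - cnt d m u (c + 1)| ≤ C * (m : ℝ) ^ (d - 2))
    (b : ℝ) (μ : Measure (Fin (d + 1) → ℝ)) [IsProbabilityMeasure μ]
    (hμ : ∀ u : Fin (d + 1) → ℤ, (∃ i j, u i ≠ u j) → HasLoad (μ.map (lin u)) (fun _ => 1))
    (J : ℕ) (hJ : 1 ≤ J) (P : Measure (Fin d → ℤ))
    (hP : ∀ S : Set (Fin d → ℤ), P S =
        ∫⁻ y, (∑ z : Fin d → Fin m, S.indicator (fun _ => (1 : ℝ≥0∞)) (pt d m A y z))
          / (m : ℝ≥0∞) ^ d ∂μ) :
    P {x | ∑ i, a i * (x i : ℝ) = b} ≤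
      ENNReal.ofReal ((J + 2 * ∑ i, |(u i : ℝ)|) / (2 * A * J) + J * C / (m : ℝ) ^ 2) := by
  classical
  have hsum : ∀ x : Fin d → ℤ, ∑ k, a k * (x k : ℝ) = c0 * ((∑ k, u k * x k : ℤ) : ℝ) := by
    intro x
    rw [Int.cast_sum, Finset.mul_sum]
    apply Finset.sum_congr rfl
    intro k _
    rw [hau k, Int.cast_mul, mul_assoc]
  by_cases hc : ∃ c : ℤ, c0 * (c : ℝ) = b
  · obtain ⟨c, hc⟩ := hc
    have hset : {x : Fin d → ℤ | ∑ k, a k * (x k : ℝ) = b} = {x | ∑ k, u k * x k = c} := by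
      ext x
      simp only [Set.mem_ofPred_eq]
      rw [hsum, ← hc]
      constructor
      · intro h
        have := mul_left_cancel₀ hc0 h
        exact_mod_cast this
      · intro h
        rw [h]
    rw [hset, hP]
    refine le_trans (le_of_eq ?_) (tame_two d m hm A hA u h2 C hC hs μ hμ J hJ c)
    apply lintegral_congr
    intro y
    congr 1
    apply Finset.sum_congr rfl
    intro z _
    by_cases hz : ∑ k, u k * pt d m A y z k = c
    · rw [if_pos hz]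
      exact Set.indicator_of_mem (s := {x : Fin d → ℤ | ∑ k, u k * x k = c}) hz _
    · rw [if_neg hz]
      exact Set.indicator_of_notMem (s := {x : Fin d → ℤ | ∑ k, u k * x k = c}) hz _
  · have hset : {x : Fin d → ℤ | ∑ k, a k * (x k : ℝ) = b} = ∅ := by
      ext x
      simp only [Set.mem_ofPred_eq, Set.mem_empty_iff_false, iff_false]
      rw [hsum]
      exact fun h => hc ⟨_, h⟩
    rw [hset, measure_empty]
    exact zero_le

/-- one smoothness constant for all bounded primitive directions -/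
theorem A9_const (d K : ℕ) : ∃ C : ℝ, 0 ≤ C ∧ ∀ u : Fin d → ℤ, (∀ i, |u i| ≤ (K : ℤ)) →
    Finset.univ.gcd u = 1 → (∃ i j, i ≠ j ∧ u i ≠ 0 ∧ u j ≠ 0) → ∀ (m : ℕ) (c : ℤ),
      |(cnt d m u c : ℝ) - cnt d m u (c + 1)| ≤ C * (m : ℝ) ^ (d - 2) := by
  classical
  have hex : ∀ u : Fin d → ℤ, ∃ C : ℝ, 0 ≤ C ∧ (Finset.univ.gcd u = 1 →
      (∃ i j, i ≠ j ∧ u i ≠ 0 ∧ u j ≠ 0) → ∀ (m : ℕ) (c : ℤ),
      |(cnt d m u c : ℝ) - cnt d m u (c + 1)| ≤ C * (m : ℝ) ^ (d - 2)) := by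
    intro u
    by_cases h1 : Finset.univ.gcd u = 1 ∧ ∃ i j, i ≠ j ∧ u i ≠ 0 ∧ u j ≠ 0
    · obtain ⟨C, hC, h⟩ := smooth d u h1.1 h1.2
      exact ⟨C, hC, fun _ _ => h⟩
    · exact ⟨0, le_rfl, fun a b => absurd ⟨a, b⟩ h1⟩
  choose C hC0 hC using hex
  refine ⟨∑ u ∈ Finset.Icc (fun _ : Fin d => -(K : ℤ)) (fun _ => (K : ℤ)), C u,
    Finset.sum_nonneg (fun u _ => hC0 u), fun u hu h1 h2 m c => ?_⟩
  refine (hC u h1 h2 m c).trans ?_
  apply mul_le_mul_of_nonneg_right _ (by positivity)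
  apply Finset.single_le_sum (f := C) (fun u _ => hC0 u)
  rw [Finset.mem_Icc]
  exact ⟨fun i => (abs_le.mp (hu i)).1, fun i => (abs_le.mp (hu i)).2⟩

/-- arithmetic: the main term -/
theorem A9_main {D η ε n R t : ℝ} (hD : 0 < D) (hη : 0 < η) (hη4 : η ≤ 1 / 4)
    (hηD : 12 * D * η ≤ ε) (hn : 0 < n) (hR : n * (1 - 2 * η) ≤ R) (ht : t ≤ 1 + η) :
    D / R * t ≤ (D + ε / 2) / n := by
  have h1 : 0 < 1 - 2 * η := by linarith
  have hRpos : 0 < R := lt_of_lt_of_le (mul_pos hn h1) hR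
  have h2 : D / R * t ≤ D / (n * (1 - 2 * η)) * (1 + η) := by
    have a1 : D / R ≤ D / (n * (1 - 2 * η)) :=
      div_le_div_of_nonneg_left hD.le (mul_pos hn h1) hR
    have a2 : 0 < D / R := div_pos hD hRpos
    calc D / R * t ≤ D / R * (1 + η) := mul_le_mul_of_nonneg_left ht a2.le
      _ ≤ D / (n * (1 - 2 * η)) * (1 + η) := mul_le_mul_of_nonneg_right a1 (by linarith)
  refine h2.trans ?_
  rw [div_mul_eq_mul_div, div_le_div_iff₀ (mul_pos hn h1) hn]
  have h3 : D * (1 + η) ≤ (D + ε / 2) * (1 - 2 * η) := by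
    nlinarith [mul_pos hD hη]
  nlinarith [mul_le_mul_of_nonneg_right h3 hn.le]

/-- **A9 (discretisation).** Assembly of A3-A8: given `ε`, choose `κ` small, `m = ⌊κ n⌋`,
`A = (n - 1 - d m)/(d+1)`, `L` large (depending on `κ`), `J = ⌊√n⌋`; wild hyperplanes have mass
`≤ (m^(d-2) (m/(L+1)+1))/m^d ≤ 2/((L+1) m)` for large `n`; the finitely many tame directions have
mass `≤ 1/(2A) + O(n^{-3/2})`, and `1/(2A) → (d+1)/(2 n (1 - dκ))`. -/
theorem discretise (d : ℕ) (hd : 1 ≤ d) (h : LawOK (Fin (d + 1))) (ε : ℝ) (hε : 0 < ε) :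
    ∃ n₀ : ℕ, ∀ n : ℕ, n₀ ≤ n → ∃ P : Measure (Fin d → ℤ), IsProbabilityMeasure P ∧
      P (grid d n)ᶜ = 0 ∧ ∀ a : Fin d → ℝ, a ≠ 0 → ∀ b : ℝ,
        P {x | ∑ i, a i * (x i : ℝ) = b} ≤ ENNReal.ofReal ((((d : ℝ) + 1) / 2 + ε) / n) := by
  obtain ⟨μ, hμp, hsupp, hload⟩ := h
  have hdr : (1 : ℝ) ≤ d := by exact_mod_cast hd
  set D : ℝ := ((d : ℝ) + 1) / 2 with hD
  have hDpos : 0 < D := by positivity
  have hD1 : 1 ≤ D := by rw [hD]; linarith
  obtain ⟨η, hη, hη4, hηD⟩ : ∃ η : ℝ, 0 < η ∧ η ≤ 1 / 4 ∧ 12 * D * η ≤ ε := by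
    refine ⟨min (1 / 4) (ε / (12 * D)), lt_min (by norm_num) (by positivity), min_le_left _ _, ?_⟩
    calc 12 * D * min (1 / 4) (ε / (12 * D)) ≤ 12 * D * (ε / (12 * D)) :=
          mul_le_mul_of_nonneg_left (min_le_right _ _) (by positivity)
      _ = ε := by field_simp
  set κ : ℝ := η / d with hκdef
  have hκ : 0 < κ := by positivity
  have hdκ : d * κ = η := by rw [hκdef]; field_simp
  obtain ⟨L, hL1, hL⟩ : ∃ L : ℕ, 1 ≤ L ∧ 4 ≤ ((L : ℝ) + 1) * κ := by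
    refine ⟨⌈4 / κ⌉₊ + 1, by omega, ?_⟩
    have h1 : 4 / κ ≤ (⌈4 / κ⌉₊ : ℝ) := Nat.le_ceil _
    rw [div_le_iff₀ hκ] at h1
    push_cast
    nlinarith
  obtain ⟨C, hC, hCs⟩ := A9_const d (L ^ d)
  set S0 : ℝ := d * (L : ℝ) ^ d with hS0
  have hS0nn : 0 ≤ S0 := by positivity
  obtain ⟨J, hJ1, hJ⟩ : ∃ J : ℕ, 1 ≤ J ∧ 2 * S0 ≤ η * J := by
    refine ⟨⌈2 * S0 / η⌉₊ + 1, by omega, ?_⟩
    have h1 : 2 * S0 / η ≤ (⌈2 * S0 / η⌉₊ : ℝ) := Nat.le_ceil _
    rw [div_le_iff₀ hη] at h1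
    push_cast
    nlinarith
  have hJr : (1 : ℝ) ≤ J := by exact_mod_cast hJ1
  refine ⟨⌈2 / κ + 1 / η + 8 / κ ^ 2 + 8 * J * C / (κ ^ 2 * ε)⌉₊ + 1, fun n hn => ?_⟩
  have hnr : 2 / κ + 1 / η + 8 / κ ^ 2 + 8 * J * C / (κ ^ 2 * ε) ≤ (n : ℝ) := by
    have h1 := Nat.le_ceil (2 / κ + 1 / η + 8 / κ ^ 2 + 8 * J * C / (κ ^ 2 * ε))
    have h2 : ((⌈2 / κ + 1 / η + 8 / κ ^ 2 + 8 * J * C / (κ ^ 2 * ε)⌉₊ + 1 : ℕ) : ℝ) ≤ n := by
      exact_mod_cast hn
    push_cast at h2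
    linarith
  have q1 : 0 < 2 / κ := by positivity
  have q2 : 0 < 1 / η := by positivity
  have q3 : 0 < 8 / κ ^ 2 := by positivity
  have q4 : 0 ≤ 8 * J * C / (κ ^ 2 * ε) := by positivity
  have hn1 : 2 / κ ≤ (n : ℝ) := by linarith
  have hn2 : 1 / η ≤ (n : ℝ) := by linarith
  have hn3 : 8 / κ ^ 2 ≤ (n : ℝ) := by linarith
  have hn4 : 8 * J * C / (κ ^ 2 * ε) ≤ (n : ℝ) := by linarith
  have hnpos : (0 : ℝ) < n := by linarith
  clear hnr q1 q2 q3 q4
  rw [div_le_iff₀ hκ] at hn1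
  rw [div_le_iff₀ hη] at hn2
  rw [div_le_iff₀ (by positivity)] at hn3 hn4
  set m : ℕ := ⌊κ * n⌋₊ with hm
  have hκn : 0 ≤ κ * n := by positivity
  have hmle : (m : ℝ) ≤ κ * n := Nat.floor_le hκn
  have hmge : κ * n < m + 1 := Nat.lt_floor_add_one _
  have hmhalf : κ * n / 2 ≤ m := by linarith
  have hm1 : 1 ≤ m := by
    rw [hm]
    apply Nat.le_floor
    push_cast
    linarith
  have hmpos : (0 : ℝ) < m := by exact_mod_cast hm1
  set R : ℝ := (n : ℝ) - 1 - d * m with hR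
  have hRge : (n : ℝ) * (1 - 2 * η) ≤ R := by
    have h1 : (d : ℝ) * m ≤ η * n := by
      calc (d : ℝ) * m ≤ d * (κ * n) := mul_le_mul_of_nonneg_left hmle (by positivity)
        _ = η * n := by rw [← mul_assoc, hdκ]
    rw [hR]
    nlinarith
  have hRpos : 0 < R := by
    have : 0 < (n : ℝ) * (1 - 2 * η) := mul_pos hnpos (by linarith)
    linarith
  set A : ℝ := R / (d + 1) with hA
  have hApos : 0 < A := by positivity
  have hAR : A * (d + 1) = R := by rw [hA]; field_simp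
  have h2A : 1 / (2 * A) = D / R := by
    rw [hA, hD]
    field_simp
  obtain ⟨P, hPp, hPg, hP⟩ := disc_exists d m n hm1 A hApos.le (by rw [hAR, hR]; linarith) μ hsupp
  refine ⟨P, hPp, hPg, fun a ha b => ?_⟩
  -- bound of `1 / m ^ 2`
  have hm2 : 1 / (m : ℝ) ^ 2 ≤ 4 / (κ ^ 2 * n ^ 2) := by
    rw [div_le_div_iff₀ (by positivity) (by positivity)]
    have h1 : (κ * n / 2) ^ 2 ≤ (m : ℝ) ^ 2 := pow_le_pow_left₀ (by positivity) hmhalf 2
    nlinarith
  rcases direction_cases d L hL1 a ha with ⟨i, j, hij, hi, hj, hw⟩ | ⟨u, c0, hc0, hau, hub, hgcd⟩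
  · -- wild
    refine (A9_wild d L m hm1 A a i j hij hi hj hw b μ P hP).trans ?_
    apply ENNReal.ofReal_le_ofReal
    have h1 : 1 / (((L : ℝ) + 1) * m) ≤ 1 / (2 * n) := by
      apply one_div_le_one_div_of_le (by positivity)
      have h2 : ((L : ℝ) + 1) * (κ * n / 2) ≤ ((L : ℝ) + 1) * m :=
        mul_le_mul_of_nonneg_left hmhalf (by positivity)
      nlinarith [mul_le_mul_of_nonneg_right hL hnpos.le]
    have h3 : 4 / (κ ^ 2 * n ^ 2) ≤ 1 / (2 * n) := by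
      rw [div_le_div_iff₀ (by positivity) (by positivity)]
      nlinarith [mul_le_mul_of_nonneg_right hn3 hnpos.le]
    have h4 : 1 / (2 * (n : ℝ)) + 1 / (2 * n) = 1 / n := by field_simp; norm_num
    have h5 : 1 / (n : ℝ) ≤ (D + ε) / n := by
      apply div_le_div_of_nonneg_right _ hnpos.le
      linarith
    linarith
  · by_cases h2 : ∃ i j, i ≠ j ∧ u i ≠ 0 ∧ u j ≠ 0
    · -- two nonzero coefficients
      have hub' : ∀ i, |u i| ≤ ((L ^ d : ℕ) : ℤ) := by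
        intro i
        push_cast
        exact hub i
      refine (A9_two d m hm1 A hApos a u c0 hc0 hau h2 C hC (hCs u hub' hgcd h2 m) b μ hload J hJ1
        P hP).trans ?_
      apply ENNReal.ofReal_le_ofReal
      have hS : ∑ i, |(u i : ℝ)| ≤ S0 := by
        have h3 : ∀ i ∈ (Finset.univ : Finset (Fin d)), |(u i : ℝ)| ≤ (L : ℝ) ^ d := by
          intro i _
          have h4 := hub i
          exact_mod_cast h4
        refine (Finset.sum_le_sum h3).trans (le_of_eq ?_)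
        rw [Finset.sum_const, Finset.card_univ, Fintype.card_fin, nsmul_eq_mul]
      have e1 : ((J : ℝ) + 2 * ∑ i, |(u i : ℝ)|) / (2 * A * J) =
          D / R * ((J + 2 * ∑ i, |(u i : ℝ)|) / J) := by
        rw [← h2A]
        field_simp
      have h5 : ((J : ℝ) + 2 * ∑ i, |(u i : ℝ)|) / J ≤ 1 + η := by
        rw [div_le_iff₀ (by linarith)]
        nlinarith
      have h6 := A9_main hDpos hη hη4 hηD hnpos hRge h5
      have h7 : (J : ℝ) * C / (m : ℝ) ^ 2 ≤ (ε / 2) / n := by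
        have h8 : (J : ℝ) * C / (m : ℝ) ^ 2 = J * C * (1 / (m : ℝ) ^ 2) := by ring
        rw [h8]
        refine (mul_le_mul_of_nonneg_left hm2 (by positivity)).trans ?_
        rw [← mul_div_assoc, div_le_div_iff₀ (by positivity) hnpos]
        nlinarith [mul_le_mul_of_nonneg_right hn4 hnpos.le]
      rw [e1]
      have h9 : (D + ε / 2) / (n : ℝ) + (ε / 2) / n = (D + ε) / n := by ring
      linarith
    · -- one nonzero coefficient
      push Not at h2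
      have hex : ∃ i, a i ≠ 0 := by
        by_contra hcon
        push Not at hcon
        exact ha (funext hcon)
      obtain ⟨i, hi⟩ := hex
      have hui : u i ≠ 0 := by
        intro h0
        apply hi
        rw [hau i, h0]
        simp
      have ho : ∀ j, j ≠ i → a j = 0 := by
        intro j hj
        have h3 := h2 i j hj.symm hui
        rw [hau j, h3]
        simp
      refine (A9_one d m hm1 A hApos a i hi ho b μ hload P hP).trans ?_
      apply ENNReal.ofReal_le_ofReal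
      rw [h2A]
      have h6 := A9_main hDpos hη hη4 hηD hnpos hRge (t := 1) (by linarith)
      rw [mul_one] at h6
      refine h6.trans ?_
      apply div_le_div_of_nonneg_right _ hnpos.le
      linarith

end Pool.Agent.helper49.Slope
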