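import Pool.Agent.helper49.Slope.DefsA
import Pool.Agent.helper49.Slope.A1
import Pool.Agent.helper49.Slope.A2
import Pool.Agent.helper49.Slope.A9

/-!
MP_aedd95_co (slope of k-fold hyperplane covers of triangular grids), module A10.
Assembly of part A.
-/

set_option autoImplicit false

open MeasureTheory ProbabilityTheory
open scoped ENNReal

namespace Pool.Agent.helper49.Slope

/-- comparison of slopes -/
theorem A10_lin {a b c : ℝ} {n₀ : ℕ} (h : ∀ n : ℕ, n₀ ≤ n → a * n ≤ b * n + c) : a ≤ b := by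
  by_contra hab
  push Not at hab
  have hpos : 0 < a - b := by linarith
  obtain ⟨N, hN⟩ := exists_nat_gt (c / (a - b))
  have h1 := h (max n₀ N) (le_max_left _ _)
  have h2 : (N : ℝ) ≤ ((max n₀ N : ℕ) : ℝ) := by exact_mod_cast le_max_right _ _
  rw [div_lt_iff₀ hpos] at hN
  nlinarith

/-- the minimum is attained -/
theorem A10_attained (d : ℕ) (hd : 1 ≤ d) (k n : ℕ) (hn : 1 ≤ n) :
    ∃ M : Multiset (Set (Fin d → ℝ)), IsCover d n k M ∧ Multiset.card M = f n d k := by
  obtain ⟨B, hB⟩ := upper d hd k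
  obtain ⟨M, hM, -⟩ := hB n hn
  have hne : {c | ∃ M : Multiset (Set (Fin d → ℝ)), IsCover d n k M ∧ Multiset.card M = c}.Nonempty :=
    ⟨_, M, hM, rfl⟩
  exact Nat.sInf_mem hne

theorem A10_f_le {d k n : ℕ} {M : Multiset (Set (Fin d → ℝ))} (hM : IsCover d n k M) :
    f n d k ≤ Multiset.card M := Nat.sInf_le ⟨M, hM, rfl⟩

/-- **A10 (assembly of part A).** Lower bound from A9 and A1 (`f ≥ k n/((d+1)/2+ε)`, let `n → ∞`
then `ε → 0`), upper bound from A2 (`f ≤ card`). -/
theorem slope_of_laws (h : ∀ N : ℕ, 2 ≤ N → LawOK (Fin N)) (d : ℕ) (hd : 1 ≤ d) (k : ℕ)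
    (C : ℝ) (hC : SlopeIs d k C) :
    2 * (k : ℝ) / (d + 1) ≤ C ∧ C ≤ 2 * (k : ℝ) / (d + 1) + 2 := by
  obtain ⟨B₀, hB₀⟩ := hC
  have hd1 : (0 : ℝ) < (d : ℝ) + 1 := by positivity
  constructor
  · -- lower bound
    have key : ∀ ε : ℝ, 0 < ε → (k : ℝ) ≤ (((d : ℝ) + 1) / 2 + ε) * C := by
      intro ε hε
      obtain ⟨n₀, hn₀⟩ := discretise d hd (h (d + 1) (by omega)) ε hε
      apply A10_lin (c := (((d : ℝ) + 1) / 2 + ε) * B₀) (n₀ := max n₀ 1)
      intro n hn
      have hn1 : n₀ ≤ n := le_trans (le_max_left _ _) hn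
      have hn2 : 1 ≤ n := le_trans (le_max_right _ _) hn
      have hnpos : (0 : ℝ) < n := by exact_mod_cast hn2
      obtain ⟨P, hP, hP0, hPb⟩ := hn₀ n hn1
      obtain ⟨M, hM, hcard⟩ := A10_attained d hd k n hn2
      have hδ0 : (0 : ℝ) ≤ (((d : ℝ) + 1) / 2 + ε) / n := by positivity
      have hdual := duality hM P hP0 hδ0 hPb
      rw [hcard] at hdual
      have h1 := (abs_le.1 (hB₀ n hn2)).2
      have h2 : (k : ℝ) * n ≤ (((d : ℝ) + 1) / 2 + ε) * f n d k := by
        have := mul_le_mul_of_nonneg_right hdual hnpos.le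
        rwa [div_mul_eq_mul_div, div_mul_cancel₀ _ hnpos.ne'] at this
      have h3 : (0 : ℝ) < ((d : ℝ) + 1) / 2 + ε := by positivity
      nlinarith
    have key2 : (k : ℝ) ≤ ((d : ℝ) + 1) / 2 * C := by
      by_contra hcon
      push Not at hcon
      rcases le_or_gt C 0 with hC0 | hC0
      · have := key 1 one_pos
        nlinarith [Nat.cast_nonneg (α := ℝ) k]
      · have hε : 0 < ((k : ℝ) - ((d : ℝ) + 1) / 2 * C) / (2 * C) := by
          apply div_pos (by linarith) (by linarith)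
        have h1 := key _ hε
        have h2 : ((k : ℝ) - ((d : ℝ) + 1) / 2 * C) / (2 * C) * C = ((k : ℝ) - ((d : ℝ) + 1) / 2 * C) / 2 := by
          field_simp
        rw [add_mul, h2] at h1
        linarith
    rw [div_le_iff₀ hd1]
    linarith
  · -- upper bound
    obtain ⟨B, hB⟩ := upper d hd k
    apply A10_lin (c := B + B₀) (n₀ := 1)
    intro n hn
    obtain ⟨M, hM, hcard⟩ := hB n hn
    have h1 : (f n d k : ℝ) ≤ Multiset.card M := by exact_mod_cast A10_f_le hM
    have h2 := (abs_le.1 (hB₀ n hn)).1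
    linarith

end Pool.Agent.helper49.Slope
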