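import Pool.Agent.helper49.Slope.DefsB
import Pool.Agent.helper49.Slope.B2a

/-!
MP_aedd95_co (slope of k-fold hyperplane covers of triangular grids), module B1.
Archimedes.
-/

set_option autoImplicit false

open MeasureTheory ProbabilityTheory
open scoped ENNReal

namespace Pool.Agent.helper49.Slope

/-- `Φ g (h, q)` is `g (h / √(h² + q))` inside the unit ball -/
noncomputable def B1_Φ (g : ℝ → ℝ≥0∞) (h q : ℝ) : ℝ≥0∞ :=
  if h ^ 2 + q < 1 then g (h / Real.sqrt (h ^ 2 + q)) else 0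

theorem B1_Φ_meas {g : ℝ → ℝ≥0∞} (hg : Measurable g) :
    Measurable (fun p : ℝ × ℝ => B1_Φ g p.1 p.2) := by
  unfold B1_Φ
  refine Measurable.ite ?_ ?_ measurable_const
  · exact measurableSet_lt (by fun_prop) measurable_const
  · exact hg.comp (by fun_prop)

/-- integral in the plane -/
theorem B1_plane {g : ℝ → ℝ≥0∞} (hg : Measurable g) (h : ℝ) :
    ∫⁻ w : ℝ × ℝ, B1_Φ g h (w.1 ^ 2 + w.2 ^ 2) =
      ENNReal.ofReal (2 * Real.pi) * ∫⁻ r : ℝ, ENNReal.ofReal r * B1_Φ g h (r ^ 2) := by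
  have hm : Measurable (fun q : ℝ => B1_Φ g h q) :=
    (B1_Φ_meas hg).comp (measurable_const.prodMk measurable_id)
  rw [← lintegral_comp_polarCoord_symm, polarCoord_target, Measure.volume_eq_prod,
    ← Measure.prod_restrict]
  have h1 : ∀ p : ℝ × ℝ, ENNReal.ofReal p.1 •
      B1_Φ g h ((polarCoord.symm p).1 ^ 2 + (polarCoord.symm p).2 ^ 2) =
      (ENNReal.ofReal p.1 * B1_Φ g h (p.1 ^ 2)) * 1 := by
    intro p
    rw [polarCoord_symm_apply, smul_eq_mul, mul_one]
    congr 2
    simp only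
    have := Real.sin_sq_add_cos_sq p.2
    calc (p.1 * Real.cos p.2) ^ 2 + (p.1 * Real.sin p.2) ^ 2
        = p.1 ^ 2 * (Real.sin p.2 ^ 2 + Real.cos p.2 ^ 2) := by ring
      _ = p.1 ^ 2 := by rw [this, mul_one]
  simp only [h1]
  rw [lintegral_prod_mul (f := fun r : ℝ => ENNReal.ofReal r * B1_Φ g h (r ^ 2))
    (g := fun _ : ℝ => (1 : ℝ≥0∞)) (by fun_prop) measurable_const.aemeasurable, mul_comm]
  congr 1
  · rw [lintegral_one, Measure.restrict_apply MeasurableSet.univ, Set.univ_inter, Real.volume_Ioo]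
    congr 1
    ring
  · have h2 : ∀ r : ℝ, ENNReal.ofReal r * B1_Φ g h (r ^ 2) =
        (Set.Ioi (0 : ℝ)).indicator (fun r => ENNReal.ofReal r * B1_Φ g h (r ^ 2)) r := by
      intro r
      by_cases hr : r ∈ Set.Ioi (0 : ℝ)
      · rw [Set.indicator_of_mem hr]
      · rw [Set.indicator_of_notMem hr, ENNReal.ofReal_of_nonpos (not_lt.1 hr), zero_mul]
    have h3 : ∫⁻ r : ℝ, ENNReal.ofReal r * B1_Φ g h (r ^ 2) =
        ∫⁻ r in Set.Ioi (0 : ℝ), ENNReal.ofReal r * B1_Φ g h (r ^ 2) := by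
      rw [← lintegral_indicator measurableSet_Ioi]
      exact lintegral_congr h2
    rw [h3]

theorem B1_third : ∫⁻ r in Set.Ioi (0 : ℝ), (if r ^ 2 < 1 then ENNReal.ofReal r * ENNReal.ofReal r
    else 0) = ENNReal.ofReal (1 / 3) := by
  have h1 : ∀ r ∈ Set.Ioi (0 : ℝ), (if r ^ 2 < 1 then ENNReal.ofReal r * ENNReal.ofReal r
      else 0) = (Set.Ioo (0 : ℝ) 1).indicator (fun r => ENNReal.ofReal (r ^ 2)) r := by
    intro r hr
    have hr' : 0 < r := hr
    by_cases h : r < 1
    · rw [Set.indicator_of_mem (show r ∈ Set.Ioo (0 : ℝ) 1 from ⟨hr', h⟩), if_pos (by nlinarith),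
        ← ENNReal.ofReal_mul hr'.le]
      congr 1
      ring
    · rw [Set.indicator_of_notMem (fun h' => h h'.2), if_neg (by nlinarith)]
  rw [setLIntegral_congr_fun measurableSet_Ioi h1, lintegral_indicator measurableSet_Ioo,
    Measure.restrict_restrict measurableSet_Ioo,
    show Set.Ioo (0 : ℝ) 1 ∩ Set.Ioi 0 = Set.Ioo 0 1 from
      Set.inter_eq_left.2 fun x hx => hx.1, restrict_Ioo_eq_restrict_Ioc]
  have hint : IntervalIntegrable (fun r : ℝ => r ^ 2) volume 0 1 :=
    (continuous_pow 2).intervalIntegrable _ _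
  rw [← ofReal_integral_eq_lintegral_ofReal
    ((intervalIntegrable_iff_integrableOn_Ioc_of_le zero_le_one).1 hint)
    (Filter.Eventually.of_forall fun r => sq_nonneg r),
    ← intervalIntegral.integral_of_le zero_le_one, integral_pow]
  congr 1
  norm_num

theorem B1_cos (g : ℝ → ℝ≥0∞) :
    ∫⁻ t in Set.Ioo (-Real.pi) Real.pi, ENNReal.ofReal (Real.sin t) * g (Real.cos t) =
      ∫⁻ u in Set.Icc (-1 : ℝ) 1, g u := by
  have hpi := Real.pi_pos
  have h1 : Set.Ioo (-Real.pi) Real.pi = Set.Ioc (-Real.pi) 0 ∪ Set.Ioo 0 Real.pi :=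
    (Set.Ioc_union_Ioo_eq_Ioo (by linarith) hpi).symm
  rw [h1, lintegral_union measurableSet_Ioo (by
    rw [Set.disjoint_left]
    intro x hx hx'
    exact absurd hx.2 (not_le.2 hx'.1))]
  have h2 : ∫⁻ t in Set.Ioc (-Real.pi) 0, ENNReal.ofReal (Real.sin t) * g (Real.cos t) = 0 := by
    rw [setLIntegral_congr_fun (g := fun _ => 0) measurableSet_Ioc]
    · simp
    · intro t ht
      have : Real.sin t ≤ 0 := Real.sin_nonpos_of_nonpos_of_neg_pi_le ht.2 ht.1.le
      simp only
      rw [ENNReal.ofReal_of_nonpos this, zero_mul]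
  rw [h2, zero_add, setLIntegral_congr (Ioo_ae_eq_Icc (μ := volume)), ← Real.bijOn_cos.image_eq,
    lintegral_image_eq_lintegral_abs_deriv_mul measurableSet_Icc
      (fun x _ => (Real.hasDerivAt_cos x).hasDerivWithinAt) Real.injOn_cos]
  refine setLIntegral_congr_fun measurableSet_Icc fun t ht => ?_
  rw [abs_neg, abs_of_nonneg (Real.sin_nonneg_of_mem_Icc ht)]

/-- integral in the half plane -/
theorem B1_half {g : ℝ → ℝ≥0∞} (hg : Measurable g) :
    ∫⁻ p : ℝ × ℝ, ENNReal.ofReal p.2 * B1_Φ g p.1 (p.2 ^ 2) =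
      ENNReal.ofReal (1 / 3) * ∫⁻ u in Set.Icc (-1 : ℝ) 1, g u := by
  rw [← lintegral_comp_polarCoord_symm, polarCoord_target]
  have h1 : ∀ p ∈ Set.Ioi (0 : ℝ) ×ˢ Set.Ioo (-Real.pi) Real.pi, ENNReal.ofReal p.1 •
      (ENNReal.ofReal (polarCoord.symm p).2 *
        B1_Φ g (polarCoord.symm p).1 ((polarCoord.symm p).2 ^ 2)) =
      (if p.1 ^ 2 < 1 then ENNReal.ofReal p.1 * ENNReal.ofReal p.1 else 0) *
        (ENNReal.ofReal (Real.sin p.2) * g (Real.cos p.2)) := by
    rintro ⟨r, t⟩ ⟨hr, -⟩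
    have hr' : (0 : ℝ) < r := hr
    rw [polarCoord_symm_apply, smul_eq_mul]
    simp only
    have h2 : (r * Real.cos t) ^ 2 + (r * Real.sin t) ^ 2 = r ^ 2 := by
      have := Real.sin_sq_add_cos_sq t
      calc (r * Real.cos t) ^ 2 + (r * Real.sin t) ^ 2
          = r ^ 2 * (Real.sin t ^ 2 + Real.cos t ^ 2) := by ring
        _ = r ^ 2 := by rw [this, mul_one]
    unfold B1_Φ
    rw [h2, Real.sqrt_sq hr'.le, mul_div_cancel_left₀ _ hr'.ne', ENNReal.ofReal_mul hr'.le]
    split_ifs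
    · ring
    · simp
  rw [setLIntegral_congr_fun (measurableSet_Ioi.prod measurableSet_Ioo) h1,
    Measure.volume_eq_prod, ← Measure.prod_restrict,
    lintegral_prod_mul
      (f := fun r : ℝ => (if r ^ 2 < 1 then ENNReal.ofReal r * ENNReal.ofReal r else 0))
      (g := fun t : ℝ => ENNReal.ofReal (Real.sin t) * g (Real.cos t)) ?_ (by fun_prop),
    B1_third, B1_cos]
  refine (Measurable.ite ?_ (by fun_prop) measurable_const).aemeasurable
  exact measurableSet_lt (by fun_prop) measurable_const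

theorem B1_space {g : ℝ → ℝ≥0∞} (hg : Measurable g) :
    ∫⁻ p : ℝ × (ℝ × ℝ), B1_Φ g p.1 (p.2.1 ^ 2 + p.2.2 ^ 2) =
      ENNReal.ofReal (2 * Real.pi / 3) * ∫⁻ u in Set.Icc (-1 : ℝ) 1, g u := by
  have hΦ := B1_Φ_meas hg
  have hΦ' : Measurable (fun p : ℝ × (ℝ × ℝ) => B1_Φ g p.1 (p.2.1 ^ 2 + p.2.2 ^ 2)) :=
    hΦ.comp (f := fun p : ℝ × (ℝ × ℝ) => (p.1, p.2.1 ^ 2 + p.2.2 ^ 2)) (by fun_prop)
  have hΦ2 : Measurable (fun p : ℝ × ℝ => ENNReal.ofReal p.2 * B1_Φ g p.1 (p.2 ^ 2)) :=
    (by fun_prop : Measurable fun p : ℝ × ℝ => ENNReal.ofReal p.2).mul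
      (hΦ.comp (f := fun p : ℝ × ℝ => (p.1, p.2 ^ 2)) (by fun_prop))
  rw [Measure.volume_eq_prod, lintegral_prod _ hΦ'.aemeasurable]
  simp only [B1_plane hg]
  rw [lintegral_const_mul _ hΦ2.lintegral_prod_right', ← lintegral_prod
    (fun p : ℝ × ℝ => ENNReal.ofReal p.2 * B1_Φ g p.1 (p.2 ^ 2)) hΦ2.aemeasurable,
    ← Measure.volume_eq_prod, B1_half hg, ← mul_assoc, ← ENNReal.ofReal_mul (by positivity)]
  congr 2
  ring

/-- Euclidean three-space. -/
private abbrev E3 := EuclideanSpace ℝ (Fin 3)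

/-- integral over the unit ball -/
theorem B1_ball {g : ℝ → ℝ≥0∞} (hg : Measurable g) :
    ∫⁻ x : E3 in Metric.ball 0 1, g (x 0 / ‖x‖) =
      ENNReal.ofReal (2 * Real.pi / 3) * ∫⁻ u in Set.Icc (-1 : ℝ) 1, g u := by
  have hΦ := B1_Φ_meas hg
  have hΦ' : Measurable (fun p : ℝ × (ℝ × ℝ) => B1_Φ g p.1 (p.2.1 ^ 2 + p.2.2 ^ 2)) :=
    hΦ.comp (f := fun p : ℝ × (ℝ × ℝ) => (p.1, p.2.1 ^ 2 + p.2.2 ^ 2)) (by fun_prop)
  rw [← B1_space hg]
  have e1 : MeasurePreserving (fun x : E3 => x.ofLp) volume volume := PiLp.volume_preserving_ofLp _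
  have e2 := volume_preserving_piFinSuccAbove (fun _ : Fin 3 => ℝ) 0
  have e3 : MeasurePreserving (Prod.map (id : ℝ → ℝ)
      (MeasurableEquiv.finTwoArrow : (Fin 2 → ℝ) ≃ᵐ ℝ × ℝ)) volume volume :=
    (MeasurePreserving.id volume).prod (volume_preserving_finTwoArrow ℝ)
  have e := e3.comp (e2.comp e1)
  rw [← e.lintegral_comp hΦ', ← lintegral_indicator Metric.isOpen_ball.measurableSet]
  refine lintegral_congr fun x => ?_
  have h1 : B1_Φ g
      (((Prod.map (id : ℝ → ℝ) (MeasurableEquiv.finTwoArrow : (Fin 2 → ℝ) ≃ᵐ ℝ × ℝ)) ∘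
        ((MeasurableEquiv.piFinSuccAbove (fun _ : Fin 3 => ℝ) 0) ∘ fun x : E3 => x.ofLp)) x).1
      ((((Prod.map (id : ℝ → ℝ) (MeasurableEquiv.finTwoArrow : (Fin 2 → ℝ) ≃ᵐ ℝ × ℝ)) ∘
        ((MeasurableEquiv.piFinSuccAbove (fun _ : Fin 3 => ℝ) 0) ∘ fun x : E3 => x.ofLp)) x).2.1 ^ 2
      + (((Prod.map (id : ℝ → ℝ) (MeasurableEquiv.finTwoArrow : (Fin 2 → ℝ) ≃ᵐ ℝ × ℝ)) ∘
        ((MeasurableEquiv.piFinSuccAbove (fun _ : Fin 3 => ℝ) 0) ∘ fun x : E3 => x.ofLp)) x).2.2 ^ 2)
      = B1_Φ g (x 0) (x 1 ^ 2 + x 2 ^ 2) := rfl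
  rw [h1]
  have h2 : x 0 ^ 2 + (x 1 ^ 2 + x 2 ^ 2) = ‖x‖ ^ 2 := by
    rw [EuclideanSpace.real_norm_sq_eq, Fin.sum_univ_three]
    ring
  unfold B1_Φ
  rw [h2, Real.sqrt_sq (norm_nonneg x)]
  by_cases hx : ‖x‖ < 1
  · rw [Set.indicator_of_mem (by simpa using hx), if_pos (by nlinarith [norm_nonneg x])]
  · rw [Set.indicator_of_notMem (by simpa using hx), if_neg (by nlinarith [norm_nonneg x])]

theorem B1_vol : volume (Metric.ball (0 : E3) 1) = ENNReal.ofReal (4 * Real.pi / 3) := by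
  have h := B1_ball (g := fun _ => 1) measurable_const
  simp only [lintegral_one, Measure.restrict_apply MeasurableSet.univ, Set.univ_inter,
    Real.volume_Icc] at h
  rw [h, ← ENNReal.ofReal_mul (by positivity)]
  congr 1
  ring

/-- **B1.** Uniform law on the sphere: the law of `⟨v,ω⟩` is uniform on `[-|v|,|v|]`. (E.g. take the
normalised Lebesgue measure of the unit ball of `EuclideanSpace ℝ (Fin 3)` and `x ↦ x/|x|`;
rotation invariance reduces to `v = e_3`, and `vol {|x| ≤ 1, 0 < x_3 ≤ t|x|} = 2πt/3` by slices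
`x_3 = h`: area `π(1 - h²/t²)`, `0 < h < t`.) -/
theorem exists_sphere : ∃ σ : Measure (Fin 3 → ℝ), IsProbabilityMeasure σ ∧
    (∀ᵐ ω ∂σ, ∑ k, ω k ^ 2 = 1) ∧
    ∀ v : Fin 3 → ℝ, 0 < ∑ k, v k ^ 2 →
      HasLoad (σ.map (fun ω => ∑ k, v k * ω k)) (ker 0 (Real.sqrt (∑ k, v k ^ 2))) := by
  classical
  set B : Set E3 := Metric.ball 0 1 with hB
  have hBm : MeasurableSet B := Metric.isOpen_ball.measurableSet
  have hvol : volume B = ENNReal.ofReal (4 * Real.pi / 3) := B1_vol
  have hv0 : volume B ≠ 0 := by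
    rw [hvol]
    have := Real.pi_pos
    simp only [ne_eq, ENNReal.ofReal_eq_zero, not_le]
    positivity
  have hvt : volume B ≠ ⊤ := by
    rw [hvol]
    exact ENNReal.ofReal_ne_top
  set μ0 : Measure E3 := (volume B)⁻¹ • volume.restrict B with hμ0
  have hμ0p : IsProbabilityMeasure μ0 := by
    refine ⟨?_⟩
    rw [hμ0, Measure.smul_apply, Measure.restrict_apply MeasurableSet.univ, Set.univ_inter,
      smul_eq_mul, ENNReal.inv_mul_cancel hv0 hvt]
  set Nm : E3 → (Fin 3 → ℝ) := fun x k => x k / ‖x‖ with hNm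
  have hNmeas : Measurable Nm := by
    rw [measurable_pi_iff]
    intro k
    have h1 : Measurable fun x : E3 => x k := by fun_prop
    exact h1.div measurable_norm
  refine ⟨μ0.map Nm, Measure.isProbabilityMeasure_map hNmeas.aemeasurable, ?_, ?_⟩
  · have hms : MeasurableSet {ω : Fin 3 → ℝ | ∑ k, ω k ^ 2 = 1} :=
      measurableSet_eq_fun (by fun_prop) measurable_const
    rw [ae_map_iff hNmeas.aemeasurable hms]
    have h1 : ∀ᵐ x ∂(volume : Measure E3), x ≠ 0 := by
      have : (volume : Measure E3) {0} = 0 := measure_singleton 0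
      rw [ae_iff]
      simpa using this
    have h2 : ∀ᵐ x ∂μ0, x ≠ 0 := Measure.ae_smul_measure (ae_restrict_of_ae h1) _
    filter_upwards [h2] with x hx
    have hn : ‖x‖ ≠ 0 := norm_ne_zero_iff.2 hx
    simp only [hNm, div_pow]
    rw [← Finset.sum_div, ← EuclideanSpace.real_norm_sq_eq, div_self (pow_ne_zero 2 hn)]
  · intro v hv
    set V := Real.sqrt (∑ k, v k ^ 2) with hV
    have hVp : 0 < V := Real.sqrt_pos.2 hv
    -- the law of the first coordinate
    set ν : Measure ℝ := μ0.map (fun x => x 0 / ‖x‖) with hν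
    have hm0 : Measurable fun x : E3 => x 0 / ‖x‖ := by
      have h1 : Measurable fun x : E3 => x 0 := by fun_prop
      exact h1.div measurable_norm
    have hload : HasLoad ν (ker 0 1) := by
      unfold HasLoad
      refine Measure.le_iff.2 fun s hs => ?_
      rw [hν, Measure.map_apply hm0 hs, hμ0, Measure.smul_apply, smul_eq_mul,
        ← lintegral_indicator_one (hm0 hs), ]
      have h1 : ∀ x : E3, ((fun x : E3 => x 0 / ‖x‖) ⁻¹' s).indicator (1 : E3 → ℝ≥0∞) x =
          s.indicator (1 : ℝ → ℝ≥0∞) (x 0 / ‖x‖) := by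
        intro x
        by_cases hx : x 0 / ‖x‖ ∈ s
        · rw [Set.indicator_of_mem hx,
            Set.indicator_of_mem (show x ∈ (fun x : E3 => x 0 / ‖x‖) ⁻¹' s from hx)]
          rfl
        · rw [Set.indicator_of_notMem hx,
            Set.indicator_of_notMem (show x ∉ (fun x : E3 => x 0 / ‖x‖) ⁻¹' s from hx)]
      rw [lintegral_congr h1, hB, B1_ball (measurable_one.indicator hs), ← hB, hvol,
        withDensity_apply _ hs]
      have h2 : (ENNReal.ofReal (4 * Real.pi / 3))⁻¹ * (ENNReal.ofReal (2 * Real.pi / 3) *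
          ∫⁻ u in Set.Icc (-1 : ℝ) 1, s.indicator (1 : ℝ → ℝ≥0∞) u) =
          2⁻¹ * ∫⁻ u in Set.Icc (-1 : ℝ) 1, s.indicator (1 : ℝ → ℝ≥0∞) u := by
        rw [← mul_assoc, ← ENNReal.ofReal_inv_of_pos (by positivity),
          ← ENNReal.ofReal_mul (by positivity)]
        congr 1
        have h3 : (4 * Real.pi / 3)⁻¹ * (2 * Real.pi / 3) = (2 : ℝ)⁻¹ := by
          have := Real.pi_pos
          field_simp
          norm_num
        rw [h3, ENNReal.ofReal_inv_of_pos (by norm_num)]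
        norm_num
      rw [h2, ← lintegral_indicator measurableSet_Icc, ← lintegral_indicator hs,
        ← lintegral_const_mul _ ((measurable_one.indicator hs).indicator measurableSet_Icc)]
      refine lintegral_mono fun u => ?_
      by_cases hu : u ∈ Set.Icc (-1 : ℝ) 1
      · by_cases hus : u ∈ s
        · rw [Set.indicator_of_mem hu, Set.indicator_of_mem hus, Set.indicator_of_mem hus]
          have h4 : |u| ≤ 1 := abs_le.2 hu
          simp [ker, h4]
        · rw [Set.indicator_of_mem hu, Set.indicator_of_notMem hus]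
          simp
      · rw [Set.indicator_of_notMem hu]
        simp
    have hker : Measurable (ker 0 1) := by
      unfold ker
      refine Measurable.ite ?_ measurable_const measurable_const
      exact measurableSet_le (by fun_prop) measurable_const
    have hscale := hload.scale hker V hVp.ne'
    have hfun : (fun z => ENNReal.ofReal (1 / |V|) * ker 0 1 (z / V)) = ker 0 V := by
      funext z
      unfold ker
      have hdiv : |z| / V ≤ 1 ↔ |z| ≤ V := div_le_one hVp
      rw [abs_of_pos hVp, sub_zero, sub_zero, abs_div, abs_of_pos hVp]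
      simp only [hdiv]
      split_ifs
      · simp
      · simp
    rw [hfun] at hscale
    -- rotation
    have hmap : (μ0.map Nm).map (fun ω => ∑ k, v k * ω k) = ν.map (fun z => V * z) := by
      set v' : E3 := WithLp.toLp 2 v with hv'
      have hvn : ‖v'‖ = V := by
        rw [EuclideanSpace.norm_eq, hV]
        simp [hv']
      set e0 : E3 := EuclideanSpace.single 0 1 with he0
      have hen : ‖e0‖ = 1 := by simp [he0]
      have hun : ‖V⁻¹ • v'‖ = ‖e0‖ := by
        rw [norm_smul, hvn, hen, Real.norm_of_nonneg (inv_nonneg.2 hVp.le),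
          inv_mul_cancel₀ hVp.ne']
      set A : E3 ≃ₗᵢ[ℝ] E3 := (Submodule.span ℝ {V⁻¹ • v' - e0})ᗮ.reflection with hA
      have hAu : A (V⁻¹ • v') = e0 := Submodule.reflection_sub hun
      have hAB : μ0.map A = μ0 := by
        have h1 : MeasurePreserving A volume volume := A.measurePreserving
        have h2 : MeasurePreserving A (volume.restrict B) (volume.restrict B) := by
          have h3 := h1.restrict_preimage hBm
          have h4 : A ⁻¹' B = B := by
            ext x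
            simp [hB]
          rwa [h4] at h3
        rw [hμ0, Measure.map_smul, h2.map_eq]
      have h5 : ∀ x : E3, ∑ k, v k * Nm x k = V * ((A x) 0 / ‖A x‖) := by
        intro x
        have h6 : inner ℝ (V⁻¹ • v') x = (A x) 0 := by
          rw [← A.inner_map_map, hAu, he0, EuclideanSpace.inner_single_left]
          simp
        have h7 : inner ℝ (V⁻¹ • v') x = V⁻¹ * ∑ k, v k * x k := by
          rw [real_inner_smul_left, PiLp.inner_apply]
          simp [hv', mul_comm]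
        rw [A.norm_map, ← h6, h7]
        simp only [hNm]
        simp only [← mul_div_assoc]
        rw [← Finset.sum_div]
        field_simp
      rw [Measure.map_map (by fun_prop) hNmeas, hν, Measure.map_map (by fun_prop) hm0]
      conv_rhs => rw [← hAB]
      rw [Measure.map_map ((by fun_prop : Measurable fun z : ℝ => V * z).comp hm0)
        A.continuous.measurable]
      congr 1
      funext x
      exact h5 x
    rw [hmap]
    exact hscale

end Pool.Agent.helper49.Slope
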