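import Pool.Agent.helper49.Slope.DefsB
import Pool.Agent.helper49.Slope.B2a

/-!
MP_aedd95_co (slope of k-fold hyperplane covers of triangular grids), module B2b.
Calculus of loads: independent sums.
-/

set_option autoImplicit false

open MeasureTheory ProbabilityTheory
open scoped ENNReal

namespace Pool.Agent.helper49.Slope

theorem B2b_lint (μ ν : Measure ℝ) [IsProbabilityMeasure μ] [IsProbabilityMeasure ν]
    {g : ℝ → ℝ≥0∞} (hg : Measurable g) :
    ∫⁻ z, g z ∂(cnv μ ν) = ∫⁻ y, ∫⁻ x, g (x + y) ∂μ ∂ν := by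
  unfold cnv
  rw [lintegral_map hg (by fun_prop), lintegral_prod_symm' _ (by fun_prop)]

/-- independent sums, general form -/
theorem HasLoad.cnv {μ ν : Measure ℝ} [IsProbabilityMeasure μ] [IsProbabilityMeasure ν]
    {f : ℝ → ℝ≥0∞} (hf : Measurable f) (h : HasLoad μ f) :
    HasLoad (cnv μ ν) (fun z => ∫⁻ y, f (z - y) ∂ν) := by
  unfold HasLoad at h ⊢
  refine Measure.le_iff.2 fun s hs => ?_
  have hg : Measurable (s.indicator (1 : ℝ → ℝ≥0∞)) := measurable_one.indicator hs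
  set g : ℝ → ℝ≥0∞ := s.indicator (1 : ℝ → ℝ≥0∞) with hgdef
  have hJ : Measurable (fun z : ℝ => ∫⁻ y, f (z - y) ∂ν) :=
    Measurable.lintegral_prod_right' (f := fun p : ℝ × ℝ => f (p.1 - p.2)) (by fun_prop)
  have h1 : Slope.cnv μ ν s = ∫⁻ z, g z ∂(Slope.cnv μ ν) := (lintegral_indicator_one hs).symm
  have h2 : (volume.withDensity fun z : ℝ => (∫⁻ y, f (z - y) ∂ν) / 2) s =
      ∫⁻ z, g z ∂(volume.withDensity fun z : ℝ => (∫⁻ y, f (z - y) ∂ν) / 2) :=
    (lintegral_indicator_one hs).symm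
  rw [h1, h2, B2b_lint μ ν hg, lintegral_withDensity_eq_lintegral_mul _ (by fun_prop) hg]
  calc ∫⁻ y, ∫⁻ x, g (x + y) ∂μ ∂ν
      ≤ ∫⁻ y, (∫⁻ z, (f (z - y) / 2) * g z) ∂ν := by
        refine lintegral_mono fun y => ?_
        calc ∫⁻ x, g (x + y) ∂μ ≤ ∫⁻ x, g (x + y) ∂(volume.withDensity fun z => f z / 2) :=
              lintegral_mono' h le_rfl
          _ = ∫⁻ x, (f x / 2) * g (x + y) := by
              rw [lintegral_withDensity_eq_lintegral_mul _ (by fun_prop) (by fun_prop)]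
              rfl
          _ = ∫⁻ z, (f (z - y) / 2) * g (z - y + y) :=
              (lintegral_sub_right_eq_self (fun x => (f x / 2) * g (x + y)) y).symm
          _ = ∫⁻ z, (f (z - y) / 2) * g z := by simp
    _ = ∫⁻ z, (∫⁻ y, (f (z - y) / 2) * g z ∂ν) := lintegral_lintegral_swap (by fun_prop)
    _ = ∫⁻ z, ((fun z : ℝ => (∫⁻ y, f (z - y) ∂ν) / 2) * g) z := by
        refine lintegral_congr fun z => ?_
        simp only [Pi.mul_apply, div_eq_mul_inv]
        rw [lintegral_mul_const _ (by fun_prop), lintegral_mul_const _ (by fun_prop)]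

theorem HasLoad.cnv_const {μ ν : Measure ℝ} [IsProbabilityMeasure μ] [IsProbabilityMeasure ν]
    {M : ℝ≥0∞} (h : HasLoad μ (fun _ => M)) : HasLoad (Slope.cnv μ ν) (fun _ => M) := by
  have h1 := HasLoad.cnv (ν := ν) measurable_const h
  simpa using h1

theorem cnv_comm (μ ν : Measure ℝ) [IsProbabilityMeasure μ] [IsProbabilityMeasure ν] :
    cnv μ ν = cnv ν μ :=
  Measure.conv_comm μ ν

theorem cnv_assoc (μ ν ρ : Measure ℝ) [IsProbabilityMeasure μ] [IsProbabilityMeasure ν]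
    [IsProbabilityMeasure ρ] : cnv (cnv μ ν) ρ = cnv μ (cnv ν ρ) :=
  Measure.conv_assoc μ ν ρ

theorem cnv_add_smul (μ μ' ν : Measure ℝ) [IsProbabilityMeasure μ] [IsProbabilityMeasure μ']
    [IsProbabilityMeasure ν] (p q : ℝ≥0∞) (hp : p ≠ ⊤) (hq : q ≠ ⊤) :
    cnv (p • μ + q • μ') ν = p • cnv μ ν + q • cnv μ' ν := by
  have h1 : Measure.conv (p • μ + q • μ') ν = p • Measure.conv μ ν + q • Measure.conv μ' ν := by
    rw [Measure.add_conv, Measure.conv_smul_left, Measure.conv_smul_left]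
  exact h1

end Pool.Agent.helper49.Slope
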