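import Pool.Agent.helper49.Slope.DefsB
import Pool.Agent.helper49.Slope.B2a
import Pool.Agent.helper49.Slope.B2b

/-!
MP_aedd95_co (slope of k-fold hyperplane covers of triangular grids), module B3.
Sums of two and three coordinates.
-/

set_option autoImplicit false

open MeasureTheory ProbabilityTheory
open scoped ENNReal

namespace Pool.Agent.helper49.Slope

theorem B3_measurable_sprof (a : ℝ) : Measurable (sprof a) := by
  unfold sprof
  refine Measurable.ite ?_ (Measurable.ite ?_ measurable_const measurable_const) measurable_const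
  · exact measurableSet_le (by fun_prop) measurable_const
  · exact measurableSet_le measurable_const measurable_id

theorem B3_measurable_ss (a b : ℝ) : Measurable (ss a b) := by
  unfold ss
  refine Measurable.ite ?_ (by fun_prop) (Measurable.ite ?_ ?_ measurable_const)
  · exact measurableSet_le (by fun_prop) measurable_const
  · exact measurableSet_le (by fun_prop) measurable_const
  · refine Measurable.div_const (Measurable.mul (by fun_prop)
      (Measurable.ite ?_ measurable_const measurable_const)) _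
    exact measurableSet_le measurable_const measurable_id

theorem B3_lint_le {ν : Measure ℝ} {g : ℝ → ℝ≥0∞} (hg : Measurable g) (hν : HasLoad ν g)
    {F : ℝ → ℝ≥0∞} (hF : Measurable F) : ∫⁻ y, F y ∂ν ≤ ∫⁻ y, g y / 2 * F y := by
  refine (lintegral_mono' hν le_rfl).trans ?_
  rw [lintegral_withDensity_eq_lintegral_mul _ (hg.div_const _) hF]
  exact le_of_eq rfl

theorem B3_ofReal_half (x : ℝ) : ENNReal.ofReal x / 2 = ENNReal.ofReal (x / 2) := by
  rw [ENNReal.ofReal_div_of_pos (by norm_num : (0 : ℝ) < 2)]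
  norm_num

theorem B3_point {a b : ℝ} (ha : |a| ≤ 1) (hb : |b| ≤ 1) (z y : ℝ) :
    sprof b y / 2 * sprof a (z - y) ≤
      (Set.Icc (max 0 (z - 1)) (min 1 z)).indicator
          (fun _ => ENNReal.ofReal ((1 + a) * (1 + b) / 2)) y +
      (Set.Icc (max (-1) (z - 1)) (min 0 z)).indicator
          (fun _ => ENNReal.ofReal ((1 + a) * (1 - b) / 2)) y +
      (Set.Icc (max 0 z) (min 1 (z + 1))).indicator
          (fun _ => ENNReal.ofReal ((1 - a) * (1 + b) / 2)) y +
      (Set.Icc (max (-1) z) (min 0 (z + 1))).indicator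
          (fun _ => ENNReal.ofReal ((1 - a) * (1 - b) / 2)) y := by
  obtain ⟨ha1, ha2⟩ := abs_le.1 ha
  obtain ⟨hb1, hb2⟩ := abs_le.1 hb
  unfold sprof
  by_cases h1 : |y| ≤ 1
  · by_cases h2 : |z - y| ≤ 1
    · rw [if_pos h1, if_pos h2]
      obtain ⟨h1a, h1b⟩ := abs_le.1 h1
      obtain ⟨h2a, h2b⟩ := abs_le.1 h2
      by_cases h3 : 0 ≤ y
      · by_cases h4 : 0 ≤ z - y
        · rw [if_pos h3, if_pos h4, B3_ofReal_half, ← ENNReal.ofReal_mul (by linarith)]
          refine le_trans ?_ le_self_add
          refine le_trans ?_ le_self_add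
          refine le_trans ?_ le_self_add
          rw [Set.indicator_of_mem]
          · exact ENNReal.ofReal_le_ofReal (le_of_eq (by ring))
          · exact ⟨max_le h3 (by linarith), le_min h1b (by linarith)⟩
        · rw [if_pos h3, if_neg h4, B3_ofReal_half, ← ENNReal.ofReal_mul (by linarith)]
          refine le_trans ?_ le_self_add
          refine le_trans ?_ le_add_self
          rw [Set.indicator_of_mem]
          · exact ENNReal.ofReal_le_ofReal (le_of_eq (by ring))
          · exact ⟨max_le h3 (by linarith), le_min h1b (by linarith)⟩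
      · by_cases h4 : 0 ≤ z - y
        · rw [if_neg h3, if_pos h4, B3_ofReal_half, ← ENNReal.ofReal_mul (by linarith)]
          refine le_trans ?_ le_self_add
          refine le_trans ?_ le_self_add
          refine le_trans ?_ le_add_self
          rw [Set.indicator_of_mem]
          · exact ENNReal.ofReal_le_ofReal (le_of_eq (by ring))
          · exact ⟨max_le h1a (by linarith), le_min (by linarith) (by linarith)⟩
        · rw [if_neg h3, if_neg h4, B3_ofReal_half, ← ENNReal.ofReal_mul (by linarith)]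
          refine le_trans ?_ le_add_self
          rw [Set.indicator_of_mem]
          · exact ENNReal.ofReal_le_ofReal (le_of_eq (by ring))
          · exact ⟨max_le h1a (by linarith), le_min (by linarith) (by linarith)⟩
    · rw [if_neg h2, mul_zero]
      exact zero_le
  · rw [if_neg h1]
    simp

theorem B3_ofReal_max (x : ℝ) : ENNReal.ofReal x = ENNReal.ofReal (max x 0) := by
  rcases le_total 0 x with h | h
  · rw [max_eq_left h]
  · rw [max_eq_right h, ENNReal.ofReal_of_nonpos h, ENNReal.ofReal_zero]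

theorem B3_real {a b : ℝ} (z : ℝ) :
    (1 + a) * (1 + b) / 2 * max (min 1 z - max 0 (z - 1)) 0 +
      (1 + a) * (1 - b) / 2 * max (min 0 z - max (-1) (z - 1)) 0 +
      (1 - a) * (1 + b) / 2 * max (min 1 (z + 1) - max 0 z) 0 +
      (1 - a) * (1 - b) / 2 * max (min 0 (z + 1) - max (-1) z) 0 = ss a b z := by
  unfold ss
  rcases lt_or_ge z (-2) with h | h
  · rw [if_neg (by rw [abs_of_neg (by linarith)]; linarith),
      if_neg (by rw [abs_of_neg (by linarith)]; linarith)]
    rw [min_eq_right (by linarith : z ≤ 1), max_eq_left (by linarith : z - 1 ≤ 0),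
      min_eq_right (by linarith : z ≤ 0), max_eq_left (by linarith : z - 1 ≤ -1),
      min_eq_right (by linarith : z + 1 ≤ 1), max_eq_left (by linarith : z ≤ 0),
      min_eq_right (by linarith : z + 1 ≤ 0), max_eq_left (by linarith : z ≤ -1),
      max_eq_right (by linarith), max_eq_right (by linarith), max_eq_right (by linarith),
      max_eq_right (by linarith)]
    ring
  rcases lt_or_ge z (-1) with h' | h'
  · have hz : |z| = -z := abs_of_neg (by linarith)
    rw [hz, if_neg (by linarith), if_pos (by linarith), if_neg (by linarith)]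
    rw [min_eq_right (by linarith : z ≤ 1), max_eq_left (by linarith : z - 1 ≤ 0),
      min_eq_right (by linarith : z ≤ 0), max_eq_left (by linarith : z - 1 ≤ -1),
      min_eq_right (by linarith : z + 1 ≤ 1), max_eq_left (by linarith : z ≤ 0),
      min_eq_right (by linarith : z + 1 ≤ 0), max_eq_left (by linarith : z ≤ -1),
      max_eq_right (by linarith), max_eq_right (by linarith), max_eq_right (by linarith),
      max_eq_left (by linarith)]
    ring
  rcases lt_or_ge z 0 with h'' | h''
  · have hz : |z| = -z := abs_of_neg (by linarith)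
    rw [hz, if_pos (by linarith)]
    rw [min_eq_right (by linarith : z ≤ 1), max_eq_left (by linarith : z - 1 ≤ 0),
      min_eq_right (by linarith : z ≤ 0), max_eq_left (by linarith : z - 1 ≤ -1),
      min_eq_right (by linarith : z + 1 ≤ 1), max_eq_left (by linarith : z ≤ 0),
      min_eq_left (by linarith : 0 ≤ z + 1), max_eq_right (by linarith : -1 ≤ z),
      max_eq_right (by linarith), max_eq_left (by linarith), max_eq_left (by linarith),
      max_eq_left (by linarith)]
    ring
  have hz : |z| = z := abs_of_nonneg h''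
  rcases le_or_gt z 1 with g | g
  · rw [hz, if_pos g]
    rw [min_eq_right (by linarith : z ≤ 1), max_eq_left (by linarith : z - 1 ≤ 0),
      min_eq_left (by linarith : 0 ≤ z), max_eq_right (by linarith : -1 ≤ z - 1),
      min_eq_left (by linarith : 1 ≤ z + 1), max_eq_right (by linarith : 0 ≤ z),
      min_eq_left (by linarith : 0 ≤ z + 1), max_eq_right (by linarith : -1 ≤ z),
      max_eq_left (by linarith), max_eq_left (by linarith), max_eq_left (by linarith),
      max_eq_right (by linarith)]
    ring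
  rcases le_or_gt z 2 with g' | g'
  · rw [hz, if_neg (by linarith), if_pos (by linarith), if_pos (by linarith)]
    rw [min_eq_left (by linarith : 1 ≤ z), max_eq_right (by linarith : 0 ≤ z - 1),
      min_eq_left (by linarith : 0 ≤ z), max_eq_right (by linarith : -1 ≤ z - 1),
      min_eq_left (by linarith : 1 ≤ z + 1), max_eq_right (by linarith : 0 ≤ z),
      min_eq_left (by linarith : 0 ≤ z + 1), max_eq_right (by linarith : -1 ≤ z),
      max_eq_left (by linarith), max_eq_right (by linarith), max_eq_right (by linarith),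
      max_eq_right (by linarith)]
    ring
  · rw [hz, if_neg (by linarith), if_neg (by linarith)]
    rw [min_eq_left (by linarith : 1 ≤ z), max_eq_right (by linarith : 0 ≤ z - 1),
      min_eq_left (by linarith : 0 ≤ z), max_eq_right (by linarith : -1 ≤ z - 1),
      min_eq_left (by linarith : 1 ≤ z + 1), max_eq_right (by linarith : 0 ≤ z),
      min_eq_left (by linarith : 0 ≤ z + 1), max_eq_right (by linarith : -1 ≤ z),
      max_eq_right (by linarith), max_eq_right (by linarith), max_eq_right (by linarith),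
      max_eq_right (by linarith)]
    ring

theorem B3_lint {a b : ℝ} (ha : |a| ≤ 1) (hb : |b| ≤ 1) (z : ℝ) :
    ∫⁻ y, sprof b y / 2 * sprof a (z - y) ≤ ENNReal.ofReal (ss a b z) := by
  obtain ⟨ha1, ha2⟩ := abs_le.1 ha
  obtain ⟨hb1, hb2⟩ := abs_le.1 hb
  have p1 : 0 ≤ (1 + a) * (1 + b) / 2 := by
    have := mul_nonneg (by linarith : 0 ≤ 1 + a) (by linarith : 0 ≤ 1 + b); linarith
  have p2 : 0 ≤ (1 + a) * (1 - b) / 2 := by
    have := mul_nonneg (by linarith : 0 ≤ 1 + a) (by linarith : 0 ≤ 1 - b); linarith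
  have p3 : 0 ≤ (1 - a) * (1 + b) / 2 := by
    have := mul_nonneg (by linarith : 0 ≤ 1 - a) (by linarith : 0 ≤ 1 + b); linarith
  have p4 : 0 ≤ (1 - a) * (1 - b) / 2 := by
    have := mul_nonneg (by linarith : 0 ≤ 1 - a) (by linarith : 0 ≤ 1 - b); linarith
  refine (lintegral_mono (B3_point ha hb z)).trans ?_
  rw [lintegral_add_right _ (measurable_const.indicator measurableSet_Icc),
    lintegral_add_right _ (measurable_const.indicator measurableSet_Icc),
    lintegral_add_right _ (measurable_const.indicator measurableSet_Icc),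
    lintegral_indicator_const measurableSet_Icc, lintegral_indicator_const measurableSet_Icc,
    lintegral_indicator_const measurableSet_Icc, lintegral_indicator_const measurableSet_Icc,
    Real.volume_Icc, Real.volume_Icc, Real.volume_Icc, Real.volume_Icc,
    B3_ofReal_max (min 1 z - max 0 (z - 1)), B3_ofReal_max (min 0 z - max (-1) (z - 1)),
    B3_ofReal_max (min 1 (z + 1) - max 0 z), B3_ofReal_max (min 0 (z + 1) - max (-1) z),
    ← ENNReal.ofReal_mul p1, ← ENNReal.ofReal_mul p2, ← ENNReal.ofReal_mul p3,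
    ← ENNReal.ofReal_mul p4]
  have m1 := mul_nonneg p1 (le_max_right (min 1 z - max 0 (z - 1)) 0)
  have m2 := mul_nonneg p2 (le_max_right (min 0 z - max (-1) (z - 1)) 0)
  have m3 := mul_nonneg p3 (le_max_right (min 1 (z + 1) - max 0 z) 0)
  have m4 := mul_nonneg p4 (le_max_right (min 0 (z + 1) - max (-1) z) 0)
  rw [← ENNReal.ofReal_add m1 m2, ← ENNReal.ofReal_add (add_nonneg m1 m2) m3,
    ← ENNReal.ofReal_add (add_nonneg (add_nonneg m1 m2) m3) m4]
  exact ENNReal.ofReal_le_ofReal (le_of_eq (B3_real z))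

/-- **B3a.** For `0 ≤ z ≤ 1` the product density is integrated over `y ∈ [z-1, 1]`:
`∫ sgn y = z`, `∫ sgn (z-y) = z`, `∫ sgn y sgn(z-y) = 3z-2`. -/
theorem load_ss {μ ν : Measure ℝ} [IsProbabilityMeasure μ] [IsProbabilityMeasure ν] {a b : ℝ}
    (ha : |a| ≤ 1) (hb : |b| ≤ 1) (hμ : HasLoad μ (sprof a)) (hν : HasLoad ν (sprof b)) :
    HasLoad (cnv μ ν) (fun z => ENNReal.ofReal (ss a b z)) := by
  refine (HasLoad.cnv (ν := ν) (B3_measurable_sprof a) hμ).mono fun z => ?_
  refine le_trans ?_ (B3_lint ha hb z)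
  exact B3_lint_le (B3_measurable_sprof b) hν
    ((B3_measurable_sprof a).comp (measurable_const.sub measurable_id))

/-- **B3b.** `ss a b z ≤ 1 + |a b|` if `|a|,|b| ≤ 1/2` -/
theorem ss_le (a b z : ℝ) (ha : |a| ≤ 1 / 2) (hb : |b| ≤ 1 / 2) : ss a b z ≤ 1 + |a * b| := by
  obtain ⟨ha1, ha2⟩ := abs_le.1 ha
  obtain ⟨hb1, hb2⟩ := abs_le.1 hb
  have hab := abs_nonneg (a * b)
  have hab1 := le_abs_self (a * b)
  have hab2 := neg_abs_le (a * b)
  have hz0 := abs_nonneg z
  unfold ss
  split_ifs with h1 h2 h3
  · have e1 : (a + b) * z ≤ |z| := by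
      calc (a + b) * z ≤ |(a + b) * z| := le_abs_self _
        _ = |a + b| * |z| := abs_mul _ _
        _ ≤ 1 * |z| := by
          refine mul_le_mul_of_nonneg_right ?_ hz0
          exact abs_le.2 ⟨by linarith, by linarith⟩
        _ = |z| := one_mul _
    have e2 : a * b * (3 * |z| - 2) ≤ |a * b| * 2 := by
      calc a * b * (3 * |z| - 2) ≤ |a * b * (3 * |z| - 2)| := le_abs_self _
        _ = |a * b| * |3 * |z| - 2| := abs_mul _ _
        _ ≤ |a * b| * 2 := by
          refine mul_le_mul_of_nonneg_left ?_ hab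
          exact abs_le.2 ⟨by linarith, by linarith⟩
    linarith
  · have hp : 0 ≤ (1 + a) * (1 + b) := mul_nonneg (by linarith) (by linarith)
    have : (2 - |z|) * ((1 + a) * (1 + b)) ≤ 1 * ((1 + a) * (1 + b)) :=
      mul_le_mul_of_nonneg_right (by linarith) hp
    nlinarith
  · have hp : 0 ≤ (1 - a) * (1 - b) := mul_nonneg (by linarith) (by linarith)
    have : (2 - |z|) * ((1 - a) * (1 - b)) ≤ 1 * ((1 - a) * (1 - b)) :=
      mul_le_mul_of_nonneg_right (by linarith) hp
    nlinarith
  · linarith

theorem B3_ss_le {a b : ℝ} (ha : |a| ≤ 1) (hb : |b| ≤ 1) (z : ℝ) :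
    ss a b z ≤ (1 + |a|) * (1 + |b|) * (max (2 - |z|) 0 / 2) := by
  obtain ⟨ha1, ha2⟩ := abs_le.1 ha
  obtain ⟨hb1, hb2⟩ := abs_le.1 hb
  have a1 := le_abs_self a
  have a2 := neg_abs_le a
  have b1 := le_abs_self b
  have b2 := neg_abs_le b
  have q1 : (1 + a) * (1 + b) ≤ (1 + |a|) * (1 + |b|) :=
    mul_le_mul (by linarith) (by linarith) (by linarith) (by linarith)
  have q2 : (1 + a) * (1 - b) ≤ (1 + |a|) * (1 + |b|) :=
    mul_le_mul (by linarith) (by linarith) (by linarith) (by linarith)
  have q3 : (1 - a) * (1 + b) ≤ (1 + |a|) * (1 + |b|) :=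
    mul_le_mul (by linarith) (by linarith) (by linarith) (by linarith)
  have q4 : (1 - a) * (1 - b) ≤ (1 + |a|) * (1 + |b|) :=
    mul_le_mul (by linarith) (by linarith) (by linarith) (by linarith)
  have hz0 := abs_nonneg z
  have hP : 0 ≤ (1 + |a|) * (1 + |b|) := mul_nonneg (by linarith) (by linarith)
  unfold ss
  split_ifs with h1 h2 h3
  · rw [max_eq_left (by linarith)]
    rcases le_total 0 z with h | h
    · rw [abs_of_nonneg h] at *
      have r1 := mul_le_mul_of_nonneg_left q2 (by linarith : (0 : ℝ) ≤ 1 - z)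
      have r2 := mul_le_mul_of_nonneg_left q3 (by linarith : (0 : ℝ) ≤ 1 - z)
      have r3 := mul_le_mul_of_nonneg_left q1 h
      nlinarith
    · rw [abs_of_nonpos h] at *
      have r1 := mul_le_mul_of_nonneg_left q2 (by linarith : (0 : ℝ) ≤ 1 + z)
      have r2 := mul_le_mul_of_nonneg_left q3 (by linarith : (0 : ℝ) ≤ 1 + z)
      have r3 := mul_le_mul_of_nonneg_left q4 (by linarith : (0 : ℝ) ≤ -z)
      nlinarith
  · rw [max_eq_left (by linarith)]
    have := mul_le_mul_of_nonneg_left q1 (by linarith : (0 : ℝ) ≤ 2 - |z|)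
    linarith
  · rw [max_eq_left (by linarith)]
    have := mul_le_mul_of_nonneg_left q4 (by linarith : (0 : ℝ) ≤ 2 - |z|)
    linarith
  · exact mul_nonneg hP (div_nonneg (le_max_right _ _) (by norm_num))

theorem B3_int (z : ℝ) : ∫ y in (-1 : ℝ)..1, max (2 - |z - y|) 0 ≤ 3 := by
  have hc1 : Continuous fun y : ℝ => max (2 - |z - y|) 0 := by fun_prop
  have hc2 : Continuous fun y : ℝ => max (2 - |z + y|) 0 := by fun_prop
  have e1 : ∫ y in (-1 : ℝ)..1, max (2 - |z - y|) 0 = ∫ y in (-1 : ℝ)..1, max (2 - |z + y|) 0 := by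
    have := intervalIntegral.integral_comp_neg (a := -1) (b := 1)
      (fun y : ℝ => max (2 - |z + y|) 0)
    simp only [neg_neg] at this
    rw [← this]
    rfl
  have e2 : (∫ y in (-1 : ℝ)..1, max (2 - |z - y|) 0) + ∫ y in (-1 : ℝ)..1, max (2 - |z + y|) 0
      ≤ ∫ y in (-1 : ℝ)..1, (4 - 2 * |y|) := by
    rw [← intervalIntegral.integral_add (hc1.intervalIntegrable _ _)
      (hc2.intervalIntegrable _ _)]
    refine intervalIntegral.integral_mono_on (by norm_num)
      ((hc1.add hc2).intervalIntegrable _ _)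
      ((by fun_prop : Continuous fun y : ℝ => 4 - 2 * |y|).intervalIntegrable _ _) ?_
    intro y hy
    have hy1 : |y| ≤ 1 := abs_le.2 hy
    have t1 : 2 * |y| ≤ |z - y| + |z + y| := by
      have h1 : |(z + y) - (z - y)| ≤ |z + y| + |z - y| := abs_sub _ _
      have h2 : (z + y) - (z - y) = 2 * y := by ring
      rw [h2, abs_mul, abs_two] at h1
      linarith
    have t2 := abs_nonneg (z - y)
    have t3 := abs_nonneg (z + y)
    rcases max_cases (2 - |z - y|) 0 with h | h <;> rcases max_cases (2 - |z + y|) 0 with h' | h' <;>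
      rw [h.1, h'.1] <;> linarith
  have e3 : ∫ y in (-1 : ℝ)..1, (4 - 2 * |y|) = 6 := by
    have hc : Continuous fun y : ℝ => 4 - 2 * |y| := by fun_prop
    rw [← intervalIntegral.integral_add_adjacent_intervals (b := 0)
      (hc.intervalIntegrable _ _) (hc.intervalIntegrable _ _)]
    have f1 : ∫ y in (-1 : ℝ)..0, (4 - 2 * |y|) = ∫ y in (-1 : ℝ)..0, (4 + 2 * y) := by
      refine intervalIntegral.integral_congr fun y hy => ?_
      rw [Set.uIcc_of_le (by norm_num)] at hy
      simp only [abs_of_nonpos hy.2]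
      ring
    have f2 : ∫ y in (0 : ℝ)..1, (4 - 2 * |y|) = ∫ y in (0 : ℝ)..1, (4 - 2 * y) := by
      refine intervalIntegral.integral_congr fun y hy => ?_
      rw [Set.uIcc_of_le (by norm_num)] at hy
      simp only [abs_of_nonneg hy.1]
    rw [f1, f2, intervalIntegral.integral_add (by simp) (by
      exact (by fun_prop : Continuous fun y : ℝ => 2 * y).intervalIntegrable _ _),
      intervalIntegral.integral_sub (by simp) (by
      exact (by fun_prop : Continuous fun y : ℝ => 2 * y).intervalIntegrable _ _),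
      intervalIntegral.integral_const_mul, intervalIntegral.integral_const_mul, integral_id,
      integral_id]
    norm_num
  linarith

theorem B3_sprof_le (c y : ℝ) :
    sprof c y ≤ (Set.Icc (-1 : ℝ) 1).indicator (fun _ => ENNReal.ofReal (1 + |c|)) y := by
  unfold sprof
  split_ifs with h1 h2
  · rw [Set.indicator_of_mem (by exact abs_le.1 h1)]
    exact ENNReal.ofReal_le_ofReal (by linarith [le_abs_self c])
  · rw [Set.indicator_of_mem (by exact abs_le.1 h1)]
    exact ENNReal.ofReal_le_ofReal (by linarith [neg_abs_le c])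
  · exact zero_le

/-- **B3c.** three coordinates: bound each density by `(1+|a|)/2` etc.; the load of a sum of three
independent uniform variables on `[-1,1]` is at most `3/4`. -/
theorem load_sss {μ ν ρ : Measure ℝ} [IsProbabilityMeasure μ] [IsProbabilityMeasure ν]
    [IsProbabilityMeasure ρ] {a b c : ℝ} (ha : |a| ≤ 1) (hb : |b| ≤ 1) (hc : |c| ≤ 1)
    (hμ : HasLoad μ (sprof a)) (hν : HasLoad ν (sprof b)) (hρ : HasLoad ρ (sprof c)) :
    HasLoad (cnv (cnv μ ν) ρ)
      (fun _ => ENNReal.ofReal (3 / 4 * (1 + |a|) * (1 + |b|) * (1 + |c|))) := by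
  have h0a := abs_nonneg a
  have h0b := abs_nonneg b
  have h0c := abs_nonneg c
  have hP : 0 ≤ (1 + |a|) * (1 + |b|) := mul_nonneg (by linarith) (by linarith)
  have hmeas : Measurable fun z : ℝ =>
      ENNReal.ofReal ((1 + |a|) * (1 + |b|) * (max (2 - |z|) 0 / 2)) :=
    ENNReal.measurable_ofReal.comp (by fun_prop)
  have h1 : HasLoad (cnv μ ν)
      (fun z => ENNReal.ofReal ((1 + |a|) * (1 + |b|) * (max (2 - |z|) 0 / 2))) :=
    (load_ss ha hb hμ hν).mono fun z => ENNReal.ofReal_le_ofReal (B3_ss_le ha hb z)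
  have : IsProbabilityMeasure (cnv μ ν) := by
    unfold cnv
    exact Measure.isProbabilityMeasure_map (by fun_prop)
  refine (HasLoad.cnv (ν := ρ) hmeas h1).mono fun z => ?_
  refine (B3_lint_le (B3_measurable_sprof c) hρ
    (hmeas.comp (measurable_const.sub measurable_id))).trans ?_
  have hQ : 0 ≤ (1 + |a|) * (1 + |b|) * (1 + |c|) / 4 := by
    have := mul_nonneg hP (by linarith : 0 ≤ 1 + |c|)
    linarith
  have key : ∀ y, sprof c y / 2 * ENNReal.ofReal ((1 + |a|) * (1 + |b|) * (max (2 - |z - y|) 0 / 2))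
      ≤ (Set.Icc (-1 : ℝ) 1).indicator (fun y => ENNReal.ofReal
        ((1 + |a|) * (1 + |b|) * (1 + |c|) / 4 * max (2 - |z - y|) 0)) y := by
    intro y
    have hs := B3_sprof_le c y
    by_cases hy : y ∈ Set.Icc (-1 : ℝ) 1
    · rw [Set.indicator_of_mem hy] at hs ⊢
      calc sprof c y / 2 * ENNReal.ofReal ((1 + |a|) * (1 + |b|) * (max (2 - |z - y|) 0 / 2))
          ≤ ENNReal.ofReal (1 + |c|) / 2 *
            ENNReal.ofReal ((1 + |a|) * (1 + |b|) * (max (2 - |z - y|) 0 / 2)) := by
              gcongr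
        _ = ENNReal.ofReal
            ((1 + |a|) * (1 + |b|) * (1 + |c|) / 4 * max (2 - |z - y|) 0) := by
              rw [B3_ofReal_half, ← ENNReal.ofReal_mul (by linarith)]
              congr 1
              ring
    · rw [Set.indicator_of_notMem hy] at hs ⊢
      have : sprof c y = 0 := le_antisymm hs zero_le
      rw [this]
      simp
  refine (lintegral_mono key).trans ?_
  rw [lintegral_indicator measurableSet_Icc, ← restrict_Ioc_eq_restrict_Icc]
  have hcont : Continuous fun y : ℝ =>
      (1 + |a|) * (1 + |b|) * (1 + |c|) / 4 * max (2 - |z - y|) 0 := by fun_prop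
  rw [← ofReal_integral_eq_lintegral_ofReal]
  · rw [← intervalIntegral.integral_of_le (by norm_num), intervalIntegral.integral_const_mul]
    refine ENNReal.ofReal_le_ofReal ?_
    have := mul_le_mul_of_nonneg_left (B3_int z) hQ
    linarith
  · exact (hcont.intervalIntegrable (-1) 1).1
  · exact Filter.Eventually.of_forall fun y => mul_nonneg hQ (le_max_right _ _)

end Pool.Agent.helper49.Slope
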