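import Pool.Agent.helper49.Slope.DefsB
import Pool.Agent.helper49.Slope.B1
import Pool.Agent.helper49.Slope.B2a
import Pool.Agent.helper49.Slope.B2b

/-!
MP_aedd95_co (slope of k-fold hyperplane covers of triangular grids), module B4.
Laws of polygons.
-/

set_option autoImplicit false

open MeasureTheory ProbabilityTheory
open scoped ENNReal

namespace Pool.Agent.helper49.Slope

theorem B4_cs (v w : Fin 3 → ℝ) (hw : ∑ k, w k ^ 2 = 1) :
    |∑ k, v k * w k| ≤ Real.sqrt (∑ k, v k ^ 2) := by
  rw [← Real.sqrt_sq_eq_abs]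
  refine Real.sqrt_le_sqrt ?_
  have := Finset.sum_mul_sq_le_sq_mul_sq Finset.univ v w
  rw [hw, mul_one] at this
  exact this

theorem B4_lin {ι : Type} [Fintype ι] (u : ι → ℤ) (v : ι → Fin 3 → ℝ) (d : ι → ℝ)
    (w : Fin 3 → ℝ) :
    lin u (fun i => ∑ k, v i k * w k + d i) =
      ∑ k, (∑ i, (u i : ℝ) * v i k) * w k + ∑ i, (u i : ℝ) * d i := by
  unfold lin
  simp only [mul_add, Finset.sum_add_distrib, Finset.mul_sum, Finset.sum_mul]
  rw [Finset.sum_comm]
  congr 1
  refine Finset.sum_congr rfl fun k _ => Finset.sum_congr rfl fun i _ => ?_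
  ring

theorem B4_measurable_ker {Q : Type} [MeasurableSpace Q] {D V : Q → ℝ} (hD : Measurable D)
    (hV : Measurable V) : Measurable (fun p : Q × ℝ => ker (D p.1) (V p.1) p.2) := by
  unfold ker
  refine Measurable.ite ?_ ?_ measurable_const
  · exact measurableSet_le
      ((measurable_snd.sub (hD.comp measurable_fst)).abs) (hV.comp measurable_fst)
  · exact ENNReal.measurable_ofReal.comp (measurable_const.div (hV.comp measurable_fst))

theorem B4_measurable_ker' (D V : ℝ) : Measurable (ker D V) := by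
  unfold ker
  refine Measurable.ite ?_ measurable_const measurable_const
  exact measurableSet_le ((measurable_id.sub measurable_const).abs) measurable_const

/-- **B4.** Laws of polygons. `Π` is the parameter space; `μ` is the image of `π ⊗ σ` under
`(p,ω) ↦ (i ↦ ⟨v_i(p), ω⟩ + d_i(p))`, with `σ` from `exists_sphere`. -/
theorem exists_poly {ι Q : Type} [Fintype ι] [MeasurableSpace Q] (π : Measure Q)
    [IsProbabilityMeasure π] (v : Q → ι → Fin 3 → ℝ) (hv : Measurable v) (d : Q → ι → ℝ)
    (hd : Measurable d) :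
    ∃ μ : Measure (ι → ℝ), IsProbabilityMeasure μ ∧
      (∀ x : ℝ, (∀ᵐ q ∂π, (∀ k, ∑ i, v q i k = 0) ∧ ∑ i, d q i = x ∧
        ∀ i, Real.sqrt (∑ k, v q i k ^ 2) + |d q i| ≤ 1) → Supp μ x) ∧
      (∀ u : ι → ℤ, (∀ᵐ q ∂π, 0 < vsq (v q) u) →
        HasLoad (μ.map (lin u))
          (fun z => ∫⁻ q, ker (∑ i, (u i : ℝ) * d q i) (Real.sqrt (vsq (v q) u)) z ∂π)) ∧
      (∀ u : ι → ℤ, (∀ᵐ q ∂π, vsq (v q) u = 0) →
        μ.map (lin u) = π.map (fun q => ∑ i, (u i : ℝ) * d q i)) := by
  obtain ⟨σ, hσ, hσ1, hσ2⟩ := exists_sphere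
  have hv' : ∀ i k, Measurable fun q => v q i k := fun i k =>
    (measurable_pi_apply k).comp ((measurable_pi_apply i).comp hv)
  have hd' : ∀ i, Measurable fun q => d q i := fun i => (measurable_pi_apply i).comp hd
  have hΦ : Measurable (fun (p : Q × (Fin 3 → ℝ)) (i : ι) =>
      ∑ k, v p.1 i k * p.2 k + d p.1 i) := by
    refine measurable_pi_lambda _ fun i => Measurable.add ?_ ((hd' i).comp measurable_fst)
    refine Finset.measurable_fun_sum _ fun k _ => ?_
    exact ((hv' i k).comp measurable_fst).mul ((measurable_pi_apply k).comp measurable_snd)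
  have hlin : ∀ u : ι → ℤ, Measurable (lin u) := by
    intro u
    unfold lin
    exact Finset.measurable_fun_sum _ fun i _ => measurable_const.mul (measurable_pi_apply i)
  have hD : ∀ u : ι → ℤ, Measurable fun q => ∑ i, (u i : ℝ) * d q i := fun u =>
    Finset.measurable_fun_sum _ fun i _ => measurable_const.mul (hd' i)
  have hW : ∀ (u : ι → ℤ) (k : Fin 3), Measurable fun q => ∑ i, (u i : ℝ) * v q i k :=
    fun u k => Finset.measurable_fun_sum _ fun i _ => measurable_const.mul (hv' i k)
  have hV : ∀ u : ι → ℤ, Measurable fun q => Real.sqrt (vsq (v q) u) := by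
    intro u
    refine Real.continuous_sqrt.measurable.comp ?_
    unfold vsq
    exact Finset.measurable_fun_sum _ fun k _ => (hW u k).pow_const 2
  refine ⟨(π.prod σ).map (fun p i => ∑ k, v p.1 i k * p.2 k + d p.1 i),
    Measure.isProbabilityMeasure_map hΦ.aemeasurable, ?_, ?_, ?_⟩
  · intro x hx
    unfold Supp
    rw [ae_map_iff hΦ.aemeasurable]
    · have h1 : ∀ᵐ p ∂(π.prod σ), (∀ k, ∑ i, v p.1 i k = 0) ∧ ∑ i, d p.1 i = x ∧
          ∀ i, Real.sqrt (∑ k, v p.1 i k ^ 2) + |d p.1 i| ≤ 1 :=
        Measure.quasiMeasurePreserving_fst.ae hx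
      have h2 : ∀ᵐ p ∂(π.prod σ), ∑ k, p.2 k ^ 2 = 1 :=
        Measure.quasiMeasurePreserving_snd.ae hσ1
      filter_upwards [h1, h2] with p hp hp2
      obtain ⟨hp0, hpx, hpi⟩ := hp
      refine ⟨fun i => ?_, ?_⟩
      · have a1 := B4_cs (v p.1 i) p.2 hp2
        have a2 := abs_add_le (∑ k, v p.1 i k * p.2 k) (d p.1 i)
        have a3 := hpi i
        linarith
      · rw [Finset.sum_add_distrib, hpx, Finset.sum_comm]
        have : ∑ k, ∑ i, v p.1 i k * p.2 k = 0 := by
          refine Finset.sum_eq_zero fun k _ => ?_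
          rw [← Finset.sum_mul, hp0 k, zero_mul]
        rw [this, zero_add]
    · have hms : MeasurableSet {y : ι → ℝ | ∀ i, |y i| ≤ 1} := by
        have h := MeasurableSet.iInter fun i : ι =>
          (measurableSet_le ((measurable_pi_apply i).abs) measurable_const :
            MeasurableSet {y : ι → ℝ | |y i| ≤ 1})
        have e : {y : ι → ℝ | ∀ i, |y i| ≤ 1} = ⋂ i, {y : ι → ℝ | |y i| ≤ 1} := by
          ext y
          simp
        rw [e]
        exact h
      refine MeasurableSet.inter hms ?_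
      exact measurableSet_eq_fun
          (Finset.measurable_fun_sum _ fun i _ => measurable_pi_apply i) measurable_const
  · intro u hu
    rw [Measure.map_map (hlin u) hΦ]
    unfold HasLoad
    refine Measure.le_iff.2 fun S hS => ?_
    have hcomp : Measurable ((lin u) ∘ fun (p : Q × (Fin 3 → ℝ)) (i : ι) =>
        ∑ k, v p.1 i k * p.2 k + d p.1 i) := (hlin u).comp hΦ
    rw [Measure.map_apply hcomp hS, Measure.prod_apply (hcomp hS)]
    have key : ∀ᵐ q ∂π, σ (Prod.mk q ⁻¹' (((lin u) ∘ fun (p : Q × (Fin 3 → ℝ)) (i : ι) =>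
        ∑ k, v p.1 i k * p.2 k + d p.1 i) ⁻¹' S)) ≤
        ∫⁻ z in S, ker (∑ i, (u i : ℝ) * d q i) (Real.sqrt (vsq (v q) u)) z / 2 := by
      filter_upwards [hu] with q hq
      have hmw : Measurable fun ω : Fin 3 → ℝ => ∑ k, (∑ i, (u i : ℝ) * v q i k) * ω k :=
        Finset.measurable_fun_sum _ fun k _ => measurable_const.mul (measurable_pi_apply k)
      have h1 := hσ2 (fun k => ∑ i, (u i : ℝ) * v q i k) hq
      have h2 := HasLoad.shift (B4_measurable_ker' _ _) h1 (∑ i, (u i : ℝ) * d q i)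
      have hsh : Measurable fun z : ℝ => z + ∑ i, (u i : ℝ) * d q i :=
        measurable_id.add_const _
      rw [Measure.map_map hsh hmw] at h2
      have h3 := h2 S
      rw [Measure.map_apply (hsh.comp hmw) hS,
        withDensity_apply _ hS] at h3
      have e1 : (Prod.mk q ⁻¹' (((lin u) ∘ fun (p : Q × (Fin 3 → ℝ)) (i : ι) =>
          ∑ k, v p.1 i k * p.2 k + d p.1 i) ⁻¹' S)) =
          ((fun z => z + ∑ i, (u i : ℝ) * d q i) ∘
            fun ω : Fin 3 → ℝ => ∑ k, (∑ i, (u i : ℝ) * v q i k) * ω k) ⁻¹' S := by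
        ext ω
        simp only [Set.mem_preimage, Function.comp_apply]
        rw [B4_lin]
      rw [e1]
      refine h3.trans (le_of_eq ?_)
      refine lintegral_congr fun z => ?_
      unfold ker vsq
      simp only [sub_zero]
    refine (lintegral_mono_ae key).trans ?_
    rw [withDensity_apply _ hS]
    have hjm : Measurable (Function.uncurry fun (q : Q) (z : ℝ) =>
        ker (∑ i, (u i : ℝ) * d q i) (Real.sqrt (vsq (v q) u)) z / 2) :=
      (B4_measurable_ker (hD u) (hV u)).div_const 2
    rw [lintegral_lintegral_swap hjm.aemeasurable]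
    refine lintegral_mono fun z => le_of_eq ?_
    have hm : Measurable fun q : Q =>
        ker (∑ i, (u i : ℝ) * d q i) (Real.sqrt (vsq (v q) u)) z :=
      (B4_measurable_ker (hD u) (hV u)).comp (measurable_id.prodMk measurable_const)
    simp only [div_eq_mul_inv]
    rw [lintegral_mul_const _ hm]
  · intro u hu
    rw [Measure.map_map (hlin u) hΦ]
    have h1 : ∀ᵐ p ∂(π.prod σ), vsq (v p.1) u = 0 :=
      Measure.quasiMeasurePreserving_fst.ae hu
    have h2 : ((lin u) ∘ fun (p : Q × (Fin 3 → ℝ)) (i : ι) =>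
        ∑ k, v p.1 i k * p.2 k + d p.1 i) =ᵐ[π.prod σ]
        ((fun q => ∑ i, (u i : ℝ) * d q i) ∘ Prod.fst) := by
      filter_upwards [h1] with p hp
      simp only [Function.comp_apply]
      rw [B4_lin]
      have h3 : ∀ k, ∑ i, (u i : ℝ) * v p.1 i k = 0 := by
        intro k
        unfold vsq at hp
        have := (Finset.sum_eq_zero_iff_of_nonneg fun k _ => sq_nonneg _).1 hp k (Finset.mem_univ k)
        exact pow_eq_zero_iff (two_ne_zero) |>.1 this
      simp [h3]
    rw [Measure.map_congr h2, ← Measure.map_map (hD u) measurable_fst, Measure.map_fst_prod,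
      measure_univ, one_smul]

end Pool.Agent.helper49.Slope
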