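import Pool.Agent.helper49.Slope.DefsB
import Pool.Agent.helper49.Slope.B1
import Pool.Agent.helper49.Slope.B2a
import Pool.Agent.helper49.Slope.B2b

/-!
MP_aedd95_co (slope of k-fold hyperplane covers of triangular grids), module B5.
Laws of polygons as kernels.
-/

set_option autoImplicit false

open MeasureTheory ProbabilityTheory
open scoped ENNReal

namespace Pool.Agent.helper49.Slope

theorem B5_measurable_ker (D V : ℝ) : Measurable (ker D V) := by
  unfold ker
  refine Measurable.ite ?_ measurable_const measurable_const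
  exact measurableSet_le ((measurable_id.sub_const D).abs) measurable_const

/-- the vertices of the polygon -/
def B5map {ι : Type} (v : ℝ → ι → Fin 3 → ℝ) (d : ℝ → ι → ℝ) (p : ℝ × (Fin 3 → ℝ)) : ι → ℝ :=
  fun i => ∑ k, v p.1 i k * p.2 k + d p.1 i

theorem B5_measurable_map {ι : Type} [Fintype ι] (v : ℝ → ι → Fin 3 → ℝ) (hv : Measurable v)
    (d : ℝ → ι → ℝ) (hd : Measurable d) : Measurable (B5map v d) := by
  refine measurable_pi_iff.mpr fun i => ?_
  unfold B5map
  refine Measurable.add (Finset.measurable_sum _ fun k _ => ?_) ?_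
  · refine Measurable.mul ?_ ((measurable_pi_apply k).comp measurable_snd)
    exact (measurable_pi_apply k).comp ((measurable_pi_apply i).comp (hv.comp measurable_fst))
  · exact (measurable_pi_apply i).comp (hd.comp measurable_fst)

theorem B5_measurable_lin {ι : Type} [Fintype ι] (u : ι → ℤ) : Measurable (lin u) := by
  unfold lin
  exact Finset.measurable_sum _ fun i _ => (measurable_pi_apply i).const_mul _

/-- **B5.** The same with a real parameter `x`, as a kernel. -/
theorem exists_polyKernel {ι : Type} [Fintype ι] (v : ℝ → ι → Fin 3 → ℝ) (hv : Measurable v)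
    (d : ℝ → ι → ℝ) (hd : Measurable d) :
    ∃ κ : Kernel ℝ (ι → ℝ), IsMarkovKernel κ ∧ ∀ x : ℝ,
      (∀ s : ℝ, (∀ k, ∑ i, v x i k = 0) → ∑ i, d x i = s →
        (∀ i, Real.sqrt (∑ k, v x i k ^ 2) + |d x i| ≤ 1) → Supp (κ x) s) ∧
      (∀ u : ι → ℤ, 0 < vsq (v x) u →
        HasLoad ((κ x).map (lin u)) (ker (∑ i, (u i : ℝ) * d x i) (Real.sqrt (vsq (v x) u)))) := by
  obtain ⟨σ, hσ, hunit, hload⟩ := exists_sphere
  have hg := B5_measurable_map v hv d hd
  have hgx : ∀ x, Measurable (fun ω => B5map v d (x, ω)) := fun x =>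
    hg.comp measurable_prodMk_left
  set κ : Kernel ℝ (ι → ℝ) := (Kernel.id ×ₖ Kernel.const ℝ σ).map (B5map v d) with hκ
  have hκx : ∀ x, κ x = σ.map (fun ω => B5map v d (x, ω)) := by
    intro x
    rw [hκ, Kernel.map_apply _ hg, Kernel.prod_apply, Kernel.id_apply, Kernel.const_apply,
      Measure.dirac_prod, Measure.map_map hg measurable_prodMk_left]
    rfl
  have hM : IsMarkovKernel κ := by
    rw [hκ]
    exact Kernel.IsMarkovKernel.map _ hg
  refine ⟨κ, hM, fun x => ⟨?_, ?_⟩⟩
  · intro s h0 hs hb
    unfold Supp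
    rw [hκx x]
    have hms : MeasurableSet {y : ι → ℝ | (∀ i, |y i| ≤ 1) ∧ ∑ i, y i = s} := by
      apply MeasurableSet.inter
      · have : {y : ι → ℝ | ∀ i, |y i| ≤ 1} = ⋂ i, {y : ι → ℝ | |y i| ≤ 1} := by
          ext y; simp
        change MeasurableSet {y : ι → ℝ | ∀ i, |y i| ≤ 1}
        rw [this]
        exact MeasurableSet.iInter fun i =>
          measurableSet_le ((measurable_pi_apply i).abs) measurable_const
      · exact measurableSet_eq_fun (Finset.measurable_sum _ fun i _ => measurable_pi_apply i)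
          measurable_const
    rw [ae_map_iff (hgx x).aemeasurable hms]
    filter_upwards [hunit] with ω hω
    refine ⟨fun i => ?_, ?_⟩
    · have hcs : |∑ k, v x i k * ω k| ≤ Real.sqrt (∑ k, v x i k ^ 2) := by
        apply Real.abs_le_sqrt
        have := Finset.sum_mul_sq_le_sq_mul_sq Finset.univ (fun k => v x i k) (fun k => ω k)
        rw [hω, mul_one] at this
        exact this
      calc |B5map v d (x, ω) i| = |∑ k, v x i k * ω k + d x i| := rfl
        _ ≤ |∑ k, v x i k * ω k| + |d x i| := abs_add_le _ _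
        _ ≤ _ := by linarith
        _ ≤ 1 := hb i
    · change ∑ i, (∑ k, v x i k * ω k + d x i) = s
      rw [Finset.sum_add_distrib, hs, Finset.sum_comm]
      have : ∀ k, ∑ i, v x i k * ω k = 0 := by
        intro k
        rw [← Finset.sum_mul, h0 k, zero_mul]
      simp [this]
  · intro u hu
    rw [hκx x, Measure.map_map (B5_measurable_lin u) (hgx x)]
    have hcomp : (lin u) ∘ (fun ω => B5map v d (x, ω)) =
        (fun z => z + ∑ i, (u i : ℝ) * d x i) ∘
          (fun ω : Fin 3 → ℝ => ∑ k, (∑ i, (u i : ℝ) * v x i k) * ω k) := by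
      funext ω
      simp only [Function.comp, lin, B5map]
      have : ∀ i, (u i : ℝ) * (∑ k, v x i k * ω k + d x i) =
          ∑ k, (u i : ℝ) * v x i k * ω k + (u i : ℝ) * d x i := by
        intro i
        rw [mul_add, Finset.mul_sum]
        simp only [mul_assoc]
      simp only [this]
      rw [Finset.sum_add_distrib, Finset.sum_comm]
      simp only [Finset.sum_mul]
    have hm2 : Measurable (fun ω : Fin 3 → ℝ => ∑ k, (∑ i, (u i : ℝ) * v x i k) * ω k) :=
      Finset.measurable_sum _ fun k _ => (measurable_pi_apply k).const_mul _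
    have hm3 : Measurable (fun z : ℝ => z + ∑ i, (u i : ℝ) * d x i) := measurable_id.add_const _
    rw [hcomp, ← Measure.map_map hm3 hm2]
    have hl := hload (fun k => ∑ i, (u i : ℝ) * v x i k) hu
    have hs := HasLoad.shift (B5_measurable_ker _ _) hl (∑ i, (u i : ℝ) * d x i)
    refine HasLoad.mono hs fun z => ?_
    unfold ker vsq
    simp only [sub_zero]
    exact le_rfl

end Pool.Agent.helper49.Slope
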