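import Pool.Agent.helper49.Slope.DefsB

/-!
MP_aedd95_co (slope of k-fold hyperplane covers of triangular grids), module B6.
Vectors with prescribed Gram matrix.
-/

set_option autoImplicit false

open MeasureTheory ProbabilityTheory
open scoped ENNReal

namespace Pool.Agent.helper49.Slope

/-- the explicit vectors (Cholesky) -/
noncomputable def gramVec (a b c d e f : ℝ) : Fin 3 → Fin 3 → ℝ :=
  ![![Real.sqrt a, 0, 0],
    ![d / Real.sqrt a, Real.sqrt (b - d ^ 2 / a), 0],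
    ![e / Real.sqrt a, (f - d * e / a) / Real.sqrt (b - d ^ 2 / a),
      Real.sqrt (c - e ^ 2 / a - (f - d * e / a) ^ 2 / (b - d ^ 2 / a))]]

theorem gramVec_spec (a b c d e f : ℝ) (ha : 0 < a) (hab : 0 < a * b - d ^ 2)
    (hdet : 0 ≤ a * b * c + 2 * d * e * f - a * f ^ 2 - b * e ^ 2 - c * d ^ 2) :
    (∑ k, gramVec a b c d e f 0 k ^ 2 = a ∧ ∑ k, gramVec a b c d e f 1 k ^ 2 = b ∧
      ∑ k, gramVec a b c d e f 2 k ^ 2 = c ∧
        ∑ k, gramVec a b c d e f 0 k * gramVec a b c d e f 1 k = d ∧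
        ∑ k, gramVec a b c d e f 0 k * gramVec a b c d e f 2 k = e ∧
        ∑ k, gramVec a b c d e f 1 k * gramVec a b c d e f 2 k = f) := by
  have hB : 0 < b - d ^ 2 / a := by
    have : b - d ^ 2 / a = (a * b - d ^ 2) / a := by field_simp
    rw [this]; positivity
  have hC : 0 ≤ c - e ^ 2 / a - (f - d * e / a) ^ 2 / (b - d ^ 2 / a) := by
    have h1 : c - e ^ 2 / a - (f - d * e / a) ^ 2 / (b - d ^ 2 / a) =
        (a * b * c + 2 * d * e * f - a * f ^ 2 - b * e ^ 2 - c * d ^ 2) / (a * (b - d ^ 2 / a)) := by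
      field_simp
      ring
    rw [h1]; positivity
  have hsa : Real.sqrt a ≠ 0 := (Real.sqrt_pos.mpr ha).ne'
  have hsb : Real.sqrt (b - d ^ 2 / a) ≠ 0 := (Real.sqrt_pos.mpr hB).ne'
  have sa : Real.sqrt a ^ 2 = a := Real.sq_sqrt ha.le
  have sb : Real.sqrt (b - d ^ 2 / a) ^ 2 = b - d ^ 2 / a := Real.sq_sqrt hB.le
  have sc : Real.sqrt (c - e ^ 2 / a - (f - d * e / a) ^ 2 / (b - d ^ 2 / a)) ^ 2 =
    c - e ^ 2 / a - (f - d * e / a) ^ 2 / (b - d ^ 2 / a) := Real.sq_sqrt hC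
  simp only [gramVec, Fin.sum_univ_three, Matrix.cons_val_zero, Matrix.cons_val_one,
    Matrix.cons_val_two, Matrix.head_cons, Matrix.tail_cons, Matrix.cons_val]
  refine ⟨?_, ?_, ?_, ?_, ?_, ?_⟩
  · rw [sa]; ring
  · rw [div_pow, sa, sb]; ring
  · rw [div_pow, div_pow, sa, sb, sc]; ring
  · field_simp; ring
  · field_simp; ring
  · have e1 : d / Real.sqrt a * (e / Real.sqrt a) = d * e / a := by
      rw [div_mul_div_comm, ← sq, sa]
    have e2 : Real.sqrt (b - d ^ 2 / a) * ((f - d * e / a) / Real.sqrt (b - d ^ 2 / a)) =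
        f - d * e / a := by
      rw [mul_comm, div_mul_cancel₀ _ hsb]
    rw [e1, e2]; ring

/-- **B6.** Vectors with prescribed Gram matrix (Cholesky), depending measurably on a parameter.
`v₀ = (√a,0,0)`, `v₁ = (d/√a, √(b-d²/a), 0)`, `v₂ = (e/√a, (f - de/a)/√(b-d²/a), √(…))`. -/
theorem exists_gram {Q : Type} [MeasurableSpace Q] (a b c d e f : Q → ℝ)
    (ha : Measurable a) (hb : Measurable b) (hc : Measurable c) (hd : Measurable d)
    (he : Measurable e) (hf : Measurable f) :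
    ∃ v : Q → Fin 3 → Fin 3 → ℝ, Measurable v ∧ ∀ q, 0 < a q → 0 < a q * b q - d q ^ 2 →
      0 ≤ a q * b q * c q + 2 * d q * e q * f q - a q * f q ^ 2 - b q * e q ^ 2 - c q * d q ^ 2 →
      (∑ k, v q 0 k ^ 2 = a q ∧ ∑ k, v q 1 k ^ 2 = b q ∧ ∑ k, v q 2 k ^ 2 = c q ∧
        ∑ k, v q 0 k * v q 1 k = d q ∧ ∑ k, v q 0 k * v q 2 k = e q ∧
        ∑ k, v q 1 k * v q 2 k = f q) := by
  refine ⟨fun q => gramVec (a q) (b q) (c q) (d q) (e q) (f q), ?_, fun q h1 h2 h3 =>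
    gramVec_spec _ _ _ _ _ _ h1 h2 h3⟩
  refine measurable_pi_iff.mpr fun i => measurable_pi_iff.mpr fun k => ?_
  fin_cases i <;> fin_cases k <;>
    simp only [gramVec, Fin.zero_eta, Fin.mk_one, Fin.reduceFinMk, Matrix.cons_val_zero,
      Matrix.cons_val_one, Matrix.cons_val_two, Matrix.head_cons, Matrix.tail_cons,
      Matrix.cons_val] <;> fun_prop

end Pool.Agent.helper49.Slope
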