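import Pool.Agent.helper49.Slope.DefsB
import Pool.Agent.helper49.Slope.B2b

/-!
MP_aedd95_co (slope of k-fold hyperplane covers of triangular grids), module B7a.
Product kernels.
-/

set_option autoImplicit false

open MeasureTheory ProbabilityTheory
open scoped ENNReal

namespace Pool.Agent.helper49.Slope

theorem B7a_measurable_lin {ι : Type} [Fintype ι] (u : ι → ℤ) : Measurable (lin u) := by
  unfold lin
  fun_prop

theorem B7a_measurable_elim {α β : Type} :
    Measurable (fun p : (α → ℝ) × (β → ℝ) => (Sum.elim p.1 p.2 : α ⊕ β → ℝ)) := by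
  refine measurable_pi_iff.2 ?_
  rintro (i | i)
  · exact (measurable_pi_apply i).comp measurable_fst
  · exact (measurable_pi_apply i).comp measurable_snd

theorem B7a_measurableSet {ι : Type} [Fintype ι] (x : ℝ) :
    MeasurableSet {y : ι → ℝ | (∀ i, |y i| ≤ 1) ∧ ∑ i, y i = x} := by
  have h1 : IsClosed {y : ι → ℝ | ∀ i, |y i| ≤ 1} := by
    rw [Set.ofPred_forall]
    exact isClosed_iInter fun i => isClosed_le ((continuous_apply i).abs) continuous_const
  have h2 : IsClosed {y : ι → ℝ | ∑ i, y i = x} :=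
    isClosed_eq (continuous_finsetSum _ fun i _ => continuous_apply i) continuous_const
  exact (h1.inter h2).measurableSet

/-- **B7a.** independent product of two kernels, concatenated -/
theorem exists_prodKernel {Q α β : Type} [MeasurableSpace Q] [Fintype α] [Fintype β]
    (κ : Kernel Q (α → ℝ)) (η : Kernel Q (β → ℝ)) [IsMarkovKernel κ] [IsMarkovKernel η] :
    ∃ ζ : Kernel Q (α ⊕ β → ℝ), IsMarkovKernel ζ ∧ ∀ q,
      (∀ a b : ℝ, Supp (κ q) a → Supp (η q) b → Supp (ζ q) (a + b)) ∧
      (∀ u : α ⊕ β → ℤ, (ζ q).map (lin u) =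
        cnv ((κ q).map (lin (fun i => u (Sum.inl i)))) ((η q).map (lin (fun i => u (Sum.inr i))))) ∧
      (∀ i : α, (ζ q).map (fun y => y (Sum.inl i)) = (κ q).map (fun y => y i)) ∧
      (∀ i : β, (ζ q).map (fun y => y (Sum.inr i)) = (η q).map (fun y => y i)) := by
  have he := B7a_measurable_elim (α := α) (β := β)
  refine ⟨(κ ×ₖ η).map (fun p : (α → ℝ) × (β → ℝ) => (Sum.elim p.1 p.2 : α ⊕ β → ℝ)),
    Kernel.IsMarkovKernel.map _ he, fun q => ?_⟩
  have hζ : ((κ ×ₖ η).map (fun p : (α → ℝ) × (β → ℝ) => (Sum.elim p.1 p.2 : α ⊕ β → ℝ))) q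
      = ((κ q).prod (η q)).map (fun p : (α → ℝ) × (β → ℝ) => (Sum.elim p.1 p.2 : α ⊕ β → ℝ)) := by
    rw [Kernel.map_apply _ he, Kernel.prod_apply]
  rw [hζ]
  refine ⟨?_, ?_, ?_, ?_⟩
  · intro a b ha hb
    unfold Supp at *
    rw [ae_map_iff he.aemeasurable (B7a_measurableSet (a + b))]
    have h1 : ∀ᵐ p ∂((κ q).prod (η q)), (∀ i, |p.1 i| ≤ 1) ∧ ∑ i, p.1 i = a :=
      Measure.quasiMeasurePreserving_fst.ae ha
    have h2 : ∀ᵐ p ∂((κ q).prod (η q)), (∀ i, |p.2 i| ≤ 1) ∧ ∑ i, p.2 i = b :=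
      Measure.quasiMeasurePreserving_snd.ae hb
    filter_upwards [h1, h2] with p hp1 hp2
    refine ⟨?_, ?_⟩
    · rintro (i | i)
      · exact hp1.1 i
      · exact hp2.1 i
    · rw [Fintype.sum_sum_type]
      simp only [Sum.elim_inl, Sum.elim_inr]
      rw [hp1.2, hp2.2]
  · intro u
    unfold cnv
    rw [Measure.map_prod_map _ _ (B7a_measurable_lin _) (B7a_measurable_lin _),
      Measure.map_map (B7a_measurable_lin u) he,
      Measure.map_map (by fun_prop : Measurable fun p : ℝ × ℝ => p.1 + p.2)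
        ((B7a_measurable_lin _).prodMap (B7a_measurable_lin _))]
    congr 1
    ext p
    simp [lin, Fintype.sum_sum_type]
  · intro i
    rw [Measure.map_map (measurable_pi_apply _) he]
    have : ((fun y : α ⊕ β → ℝ => y (Sum.inl i)) ∘
        fun p : (α → ℝ) × (β → ℝ) => (Sum.elim p.1 p.2 : α ⊕ β → ℝ))
        = (fun y : α → ℝ => y i) ∘ Prod.fst := by
      ext p
      rfl
    rw [this, ← Measure.map_map (measurable_pi_apply i) measurable_fst]
    congr 1
    have := Measure.fst_prod (μ := κ q) (ν := η q)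
    exact this
  · intro i
    rw [Measure.map_map (measurable_pi_apply _) he]
    have : ((fun y : α ⊕ β → ℝ => y (Sum.inr i)) ∘
        fun p : (α → ℝ) × (β → ℝ) => (Sum.elim p.1 p.2 : α ⊕ β → ℝ))
        = (fun y : β → ℝ => y i) ∘ Prod.snd := by
      ext p
      rfl
    rw [this, ← Measure.map_map (measurable_pi_apply i) measurable_snd]
    congr 1
    have := Measure.snd_prod (μ := κ q) (ν := η q)
    exact this

end Pool.Agent.helper49.Slope
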