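import Pool.Agent.helper49.Slope.DefsB
import Pool.Agent.helper49.Slope.B2a

/-!
MP_aedd95_co (slope of k-fold hyperplane covers of triangular grids), module B7b.
Mixtures of kernels.
-/

set_option autoImplicit false

open MeasureTheory ProbabilityTheory
open scoped ENNReal

namespace Pool.Agent.helper49.Slope

/-- **B7b.** mixing over a parameter `r` with law `π` -/
theorem exists_mixKernel {Q R ι : Type} [MeasurableSpace Q] [MeasurableSpace R] [Fintype ι]
    (κ : Kernel (Q × R) (ι → ℝ)) [IsMarkovKernel κ] (π : Measure R) [IsProbabilityMeasure π] :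
    ∃ ζ : Kernel Q (ι → ℝ), IsMarkovKernel ζ ∧ ∀ q,
      (∀ a : ℝ, (∀ᵐ r ∂π, Supp (κ (q, r)) a) → Supp (ζ q) a) ∧
      (∀ (g : (ι → ℝ) → ℝ), Measurable g → ∀ (f : R → ℝ → ℝ≥0∞), Measurable (Function.uncurry f) →
        (∀ᵐ r ∂π, HasLoad ((κ (q, r)).map g) (f r)) →
        HasLoad ((ζ q).map g) (fun z => ∫⁻ r, f r z ∂π)) := by
  refine ⟨κ ∘ₖ (Kernel.id ×ₖ Kernel.const Q π), inferInstance, fun q => ?_⟩
  have key : ∀ s : Set (ι → ℝ), MeasurableSet s →
      (κ ∘ₖ (Kernel.id ×ₖ Kernel.const Q π)) q s = ∫⁻ r, κ (q, r) s ∂π := by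
    intro s hs
    rw [Kernel.comp_apply' _ _ _ hs, Kernel.prod_apply, Kernel.id_apply, Kernel.const_apply,
      Measure.dirac_prod, lintegral_map (Kernel.measurable_coe κ hs) (by fun_prop)]
  refine ⟨?_, ?_⟩
  · intro a ha
    unfold Supp
    have hm : MeasurableSet {y : ι → ℝ | (∀ i, |y i| ≤ 1) ∧ ∑ i, y i = a} := by
      have e0 : {y : ι → ℝ | (∀ i, |y i| ≤ 1) ∧ ∑ i, y i = a} =
          (⋂ i, {y : ι → ℝ | |y i| ≤ 1}) ∩ {y : ι → ℝ | ∑ i, y i = a} := by
        ext y; simp
      rw [e0]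
      refine MeasurableSet.inter (MeasurableSet.iInter fun i => ?_) ?_
      · exact measurableSet_le (by fun_prop) measurable_const
      · exact measurableSet_eq_fun (by fun_prop) measurable_const
    rw [ae_iff]
    have e : {y : ι → ℝ | ¬ ((∀ i, |y i| ≤ 1) ∧ ∑ i, y i = a)} = {y : ι → ℝ | (∀ i, |y i| ≤ 1) ∧ ∑ i, y i = a}ᶜ := rfl
    rw [e, key _ hm.compl, lintegral_eq_zero_iff (by exact (Kernel.measurable_coe κ hm.compl).comp measurable_prodMk_left)]
    filter_upwards [ha] with r hr
    exact hr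
  · intro g hg f hf hload
    unfold HasLoad
    refine Measure.le_iff.2 fun s hs => ?_
    rw [Measure.map_apply hg hs, key _ (hg hs), withDensity_apply _ hs]
    calc ∫⁻ r, κ (q, r) (g ⁻¹' s) ∂π ≤ ∫⁻ r, (∫⁻ z in s, f r z / 2) ∂π := by
          apply lintegral_mono_ae
          filter_upwards [hload] with r hr
          have := hr s
          rw [Measure.map_apply hg hs, withDensity_apply _ hs] at this
          exact this
      _ = ∫⁻ z in s, (∫⁻ r, f r z / 2 ∂π) := by
          apply lintegral_lintegral_swap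
          exact (hf.div_const 2).aemeasurable
      _ = ∫⁻ z in s, (∫⁻ r, f r z ∂π) / 2 := by
          congr 1
          ext z
          simp_rw [div_eq_mul_inv]
          rw [lintegral_mul_const]
          exact hf.comp measurable_prodMk_right

end Pool.Agent.helper49.Slope
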