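import Pool.Agent.helper49.Slope.DefsB

/-!
MP_aedd95_co (slope of k-fold hyperplane covers of triangular grids), module B7c.
Two-state mixtures.
-/

set_option autoImplicit false

open MeasureTheory ProbabilityTheory
open scoped ENNReal

namespace Pool.Agent.helper49.Slope

/-- **B7c.** a two-state mixture with weights depending on `q` -/
theorem exists_twoKernel {Q ι : Type} [MeasurableSpace Q] [Fintype ι]
    (κ η : Kernel Q (ι → ℝ)) [IsMarkovKernel κ] [IsMarkovKernel η] (p : Q → ℝ) (hp : Measurable p)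
    (hp0 : ∀ q, 0 ≤ p q) (hp1 : ∀ q, p q ≤ 1) :
    ∃ ζ : Kernel Q (ι → ℝ), IsMarkovKernel ζ ∧
      ∀ q, ζ q = ENNReal.ofReal (1 - p q) • κ q + ENNReal.ofReal (p q) • η q := by
  have hm1 : Measurable (Function.uncurry (fun (q : Q) (_ : ι → ℝ) => ENNReal.ofReal (1 - p q))) :=
    ((measurable_const.sub (hp.comp measurable_fst))).ennreal_ofReal
  have hm2 : Measurable (Function.uncurry (fun (q : Q) (_ : ι → ℝ) => ENNReal.ofReal (p q))) :=
    (hp.comp measurable_fst).ennreal_ofReal
  have key : ∀ q, (Kernel.withDensity κ (fun q _ => ENNReal.ofReal (1 - p q)) +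
      Kernel.withDensity η (fun q _ => ENNReal.ofReal (p q))) q =
      ENNReal.ofReal (1 - p q) • κ q + ENNReal.ofReal (p q) • η q := by
    intro q
    rw [Kernel.add_apply, Kernel.withDensity_apply _ hm1, Kernel.withDensity_apply _ hm2,
      withDensity_const, withDensity_const]
  refine ⟨Kernel.withDensity κ (fun q _ => ENNReal.ofReal (1 - p q)) +
      Kernel.withDensity η (fun q _ => ENNReal.ofReal (p q)), ⟨fun q => ⟨?_⟩⟩, key⟩
  rw [key q]
  simp only [Measure.coe_add, Measure.coe_smul, Pi.add_apply, Pi.smul_apply, measure_univ,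
    smul_eq_mul, mul_one]
  rw [← ENNReal.ofReal_add (by linarith [hp1 q]) (hp0 q)]
  simp

end Pool.Agent.helper49.Slope
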