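import Pool.Agent.helper49.Slope.DefsE
import Pool.Agent.helper49.Slope.B2a
import Pool.Agent.helper49.Slope.B2b
import Pool.Agent.helper49.Slope.B7a
import Pool.Agent.helper49.Slope.B7b

/-!
MP_aedd95_co (slope of k-fold hyperplane covers of triangular grids), module B7f.
Mixtures as `Measure.bind`; the laws `pairLaw`, `triLaw`.
-/

set_option autoImplicit false

open MeasureTheory ProbabilityTheory
open scoped ENNReal

namespace Pool.Agent.helper49.Slope

theorem B7f_meas {Q R ι : Type} [MeasurableSpace Q] [MeasurableSpace R] [Fintype ι]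
    (κ : Kernel (Q × R) (ι → ℝ)) (q : Q) : Measurable (fun r => κ (q, r)) :=
  κ.measurable.comp measurable_prodMk_left

/-- the mixture kernel, with an explicit formula (see the proof of `exists_mixKernel` in B7b) -/
theorem exists_mixKernel_bind {Q R ι : Type} [MeasurableSpace Q] [MeasurableSpace R] [Fintype ι]
    (κ : Kernel (Q × R) (ι → ℝ)) [IsMarkovKernel κ] (π : Measure R) [IsProbabilityMeasure π] :
    ∃ ζ : Kernel Q (ι → ℝ), IsMarkovKernel ζ ∧ ∀ q, ζ q = π.bind (fun r => κ (q, r)) := by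
  refine ⟨κ ∘ₖ (Kernel.id ×ₖ Kernel.const Q π), inferInstance, fun q => ?_⟩
  refine Measure.ext fun s hs => ?_
  rw [Kernel.comp_apply' _ _ _ hs, Kernel.prod_apply, Kernel.id_apply, Kernel.const_apply,
    Measure.dirac_prod, lintegral_map (Kernel.measurable_coe κ hs) (by fun_prop),
    Measure.bind_apply hs (B7f_meas κ q).aemeasurable]

theorem bind_supp {Q R ι : Type} [MeasurableSpace Q] [MeasurableSpace R] [Fintype ι]
    (κ : Kernel (Q × R) (ι → ℝ)) [IsMarkovKernel κ] (π : Measure R) [IsProbabilityMeasure π]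
    (q : Q) (a : ℝ) (h : ∀ᵐ r ∂π, Supp (κ (q, r)) a) : Supp (π.bind (fun r => κ (q, r))) a := by
  unfold Supp
  have hm := B7a_measurableSet (ι := ι) a
  rw [ae_iff]
  have e : {y : ι → ℝ | ¬ ((∀ i, |y i| ≤ 1) ∧ ∑ i, y i = a)} =
    {y : ι → ℝ | (∀ i, |y i| ≤ 1) ∧ ∑ i, y i = a}ᶜ := rfl
  rw [e, Measure.bind_apply hm.compl (B7f_meas κ q).aemeasurable,
    lintegral_eq_zero_iff (by exact (Kernel.measurable_coe κ hm.compl).comp measurable_prodMk_left)]
  filter_upwards [h] with r hr
  exact hr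

theorem bind_map {Q R ι : Type} [MeasurableSpace Q] [MeasurableSpace R] [Fintype ι]
    (κ : Kernel (Q × R) (ι → ℝ)) [IsMarkovKernel κ] (π : Measure R) [IsProbabilityMeasure π]
    (q : Q) (g : (ι → ℝ) → ℝ) (hg : Measurable g) :
    (π.bind (fun r => κ (q, r))).map g = π.bind (fun r => (κ (q, r)).map g) := by
  refine Measure.ext fun s hs => ?_
  have hm2 : Measurable (fun r => (κ (q, r)).map g) :=
    (Measure.measurable_map g hg).comp (B7f_meas κ q)
  rw [Measure.map_apply hg hs, Measure.bind_apply (hg hs) (B7f_meas κ q).aemeasurable,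
    Measure.bind_apply hs hm2.aemeasurable]
  refine lintegral_congr fun r => ?_
  rw [Measure.map_apply hg hs]

theorem B7f_dirac (a b : ℝ) : cnv (Measure.dirac a) (Measure.dirac b) = Measure.dirac (a + b) := by
  unfold cnv
  rw [Measure.dirac_prod_dirac, Measure.map_dirac' (by fun_prop)]

section
variable {R α β γ : Type} [MeasurableSpace R] [Fintype α] [Fintype β] [Fintype γ]
  (κ : Kernel (ℝ × R) (α → ℝ)) (η : Kernel (ℝ × R) (β → ℝ)) (θ : Kernel (ℝ × R) (γ → ℝ))
  [IsMarkovKernel κ] [IsMarkovKernel η] [IsMarkovKernel θ]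
  (π : Measure R) [IsProbabilityMeasure π] (X : ℝ)

/-- loads of the mixture are mixtures of loads (`HasLoad.bind`; the integrand is a kernel: use
`exists_prodKernel`) -/
theorem pairLaw_load (u : α ⊕ β → ℤ) (f : R → ℝ → ℝ≥0∞) (hf : Measurable (Function.uncurry f))
    (h : ∀ᵐ r ∂π, HasLoad (cnv ((κ (X, r)).map (lin (fun i => u (Sum.inl i))))
      ((η (X, r)).map (lin (fun i => u (Sum.inr i))))) (f r)) :
    HasLoad (pairLaw κ η π X u) (fun z => ∫⁻ r, f r z ∂π) := by
  obtain ⟨ζ, hζ, hζ2⟩ := exists_prodKernel κ η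
  have hX : Measurable (fun r : R => (X, r)) := measurable_prodMk_left
  have hK : ∀ r, ((ζ.map (lin u)).comap (fun r : R => (X, r)) hX) r =
      cnv ((κ (X, r)).map (lin (fun i => u (Sum.inl i))))
        ((η (X, r)).map (lin (fun i => u (Sum.inr i)))) := by
    intro r
    rw [Kernel.comap_apply, Kernel.map_apply _ (B7a_measurable_lin u)]
    exact (hζ2 (X, r)).2.1 u
  have hmk : IsMarkovKernel (ζ.map (lin u)) := Kernel.IsMarkovKernel.map _ (B7a_measurable_lin u)
  have key := HasLoad.bind π ((ζ.map (lin u)).comap (fun r : R => (X, r)) hX) f hf (by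
    filter_upwards [h] with r hr
    rw [hK r]
    exact hr)
  have he : pairLaw κ η π X u = π.bind ((ζ.map (lin u)).comap (fun r : R => (X, r)) hX) := by
    unfold pairLaw
    congr 1
    funext r
    exact (hK r).symm
  rw [he]
  exact key

/-- deterministic components -/
theorem pairLaw_dirac (u : α ⊕ β → ℤ) (a b : R → ℝ) (ha : Measurable a) (hb : Measurable b)
    (h : ∀ᵐ r ∂π, (κ (X, r)).map (lin (fun i => u (Sum.inl i))) = Measure.dirac (a r) ∧
      (η (X, r)).map (lin (fun i => u (Sum.inr i))) = Measure.dirac (b r)) :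
    pairLaw κ η π X u = π.map (fun r => a r + b r) := by
  unfold pairLaw
  rw [← Measure.bind_dirac_eq_map π (f := fun r => a r + b r) (ha.add hb)]
  apply Measure.bind_congr_right
  filter_upwards [h] with r hr
  rw [hr.1, hr.2, B7f_dirac]

theorem triLaw_load (u : (α ⊕ β) ⊕ γ → ℤ) (f : R → ℝ → ℝ≥0∞) (hf : Measurable (Function.uncurry f))
    (h : ∀ᵐ r ∂π, HasLoad (cnv (cnv ((κ (X, r)).map (lin (fun i => u (Sum.inl (Sum.inl i)))))
      ((η (X, r)).map (lin (fun i => u (Sum.inl (Sum.inr i))))))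
      ((θ (X, r)).map (lin (fun i => u (Sum.inr i))))) (f r)) :
    HasLoad (triLaw κ η θ π X u) (fun z => ∫⁻ r, f r z ∂π) := by
  obtain ⟨ζ1, hζ1, hζ12⟩ := exists_prodKernel κ η
  obtain ⟨ζ, hζ, hζ2⟩ := exists_prodKernel ζ1 θ
  have hX : Measurable (fun r : R => (X, r)) := measurable_prodMk_left
  have hK : ∀ r, ((ζ.map (lin u)).comap (fun r : R => (X, r)) hX) r =
      cnv (cnv ((κ (X, r)).map (lin (fun i => u (Sum.inl (Sum.inl i)))))
        ((η (X, r)).map (lin (fun i => u (Sum.inl (Sum.inr i))))))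
        ((θ (X, r)).map (lin (fun i => u (Sum.inr i)))) := by
    intro r
    rw [Kernel.comap_apply, Kernel.map_apply _ (B7a_measurable_lin u)]
    rw [(hζ2 (X, r)).2.1 u, (hζ12 (X, r)).2.1 (fun i => u (Sum.inl i))]
  have hmk : IsMarkovKernel (ζ.map (lin u)) := Kernel.IsMarkovKernel.map _ (B7a_measurable_lin u)
  have key := HasLoad.bind π ((ζ.map (lin u)).comap (fun r : R => (X, r)) hX) f hf (by
    filter_upwards [h] with r hr
    rw [hK r]
    exact hr)
  have he : triLaw κ η θ π X u = π.bind ((ζ.map (lin u)).comap (fun r : R => (X, r)) hX) := by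
    unfold triLaw
    congr 1
    funext r
    exact (hK r).symm
  rw [he]
  exact key

theorem triLaw_dirac (u : (α ⊕ β) ⊕ γ → ℤ) (a b c : R → ℝ) (ha : Measurable a)
    (hb : Measurable b) (hc : Measurable c)
    (h : ∀ᵐ r ∂π, (κ (X, r)).map (lin (fun i => u (Sum.inl (Sum.inl i)))) = Measure.dirac (a r) ∧
      (η (X, r)).map (lin (fun i => u (Sum.inl (Sum.inr i)))) = Measure.dirac (b r) ∧
      (θ (X, r)).map (lin (fun i => u (Sum.inr i))) = Measure.dirac (c r)) :
    triLaw κ η θ π X u = π.map (fun r => a r + b r + c r) := by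
  unfold triLaw
  rw [← Measure.bind_dirac_eq_map π (f := fun r => a r + b r + c r) ((ha.add hb).add hc)]
  apply Measure.bind_congr_right
  filter_upwards [h] with r hr
  rw [hr.1, hr.2.1, hr.2.2, B7f_dirac, B7f_dirac]

end

end Pool.Agent.helper49.Slope
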