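import Pool.Agent.helper49.Slope.DefsB

/-!
MP_aedd95_co (slope of k-fold hyperplane covers of triangular grids), module B8b.
Counting, three blocks.
-/

set_option autoImplicit false

open MeasureTheory ProbabilityTheory
open scoped ENNReal

namespace Pool.Agent.helper49.Slope

theorem B8b_exists_perm {X : Type} [Fintype X] [DecidableEq X] (S S' : Finset X)
    (h : S'.card = S.card) : ∃ τ : Equiv.Perm X, ∀ x, τ x ∈ S ↔ x ∈ S' := by
  let e : {x // x ∈ S'} ≃ {x // x ∈ S} := Finset.equivOfCardEq h
  refine ⟨e.extendSubtype, fun x => ?_⟩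
  by_cases hx : x ∈ S'
  · exact ⟨fun _ => hx, fun _ => e.extendSubtype_mem x hx⟩
  · exact ⟨fun h1 => absurd h1 (e.extendSubtype_not_mem x hx), fun h1 => absurd h1 hx⟩

/-- average over permutations of a function of the preimage of a set -/
theorem B8b_perm {X : Type} [Fintype X] [DecidableEq X] (T : Finset X) (F : Finset X → ℝ) :
    ∑ σ : Equiv.Perm X, F (Finset.univ.filter fun x => σ x ∈ T) =
      ((Fintype.card X).factorial : ℝ) *
        (∑ S ∈ Finset.powersetCard T.card (Finset.univ : Finset X), F S) /
        ((Fintype.card X).choose T.card) := by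
  classical
  set P : Equiv.Perm X → Finset X := fun σ => Finset.univ.filter fun x => σ x ∈ T with hP
  have hcard : ∀ σ, (P σ).card = T.card := by
    intro σ
    apply Finset.card_bij (fun x _ => σ x)
    · intro x hx
      exact (Finset.mem_filter.1 hx).2
    · intro x _ y _ hxy
      exact σ.injective hxy
    · intro y hy
      exact ⟨σ.symm y, Finset.mem_filter.2 ⟨Finset.mem_univ _, by simpa using hy⟩, by simp⟩
  have hmaps : ∀ σ ∈ (Finset.univ : Finset (Equiv.Perm X)),
      P σ ∈ Finset.powersetCard T.card (Finset.univ : Finset X) := fun σ _ =>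
    Finset.mem_powersetCard.2 ⟨Finset.subset_univ _, hcard σ⟩
  set c : Finset X → ℕ := fun S =>
    ((Finset.univ : Finset (Equiv.Perm X)).filter fun σ => P σ = S).card with hcdef
  have hc : ∀ S S' : Finset X, S'.card = S.card → c S = c S' := by
    intro S S' h
    obtain ⟨τ, hτ⟩ := B8b_exists_perm S S' h
    apply Finset.card_bij (fun σ _ => σ * τ)
    · intro σ hσ
      have h1 : P σ = S := (Finset.mem_filter.1 hσ).2
      refine Finset.mem_filter.2 ⟨Finset.mem_univ _, ?_⟩
      ext x
      rw [hP, Finset.mem_filter, Equiv.Perm.mul_apply, ← hτ x, ← h1, hP, Finset.mem_filter]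
      simp
    · intro σ _ σ' _ h1
      exact mul_right_cancel h1
    · intro σ hσ
      have h1 : P σ = S' := (Finset.mem_filter.1 hσ).2
      refine ⟨σ * τ⁻¹, Finset.mem_filter.2 ⟨Finset.mem_univ _, ?_⟩, by simp⟩
      ext x
      have h2 : x ∈ S ↔ τ⁻¹ x ∈ S' := by
        have := hτ (τ⁻¹ x)
        rwa [show τ (τ⁻¹ x) = x from τ.apply_symm_apply x] at this
      rw [h2, ← h1, hP, Finset.mem_filter, Finset.mem_filter, Equiv.Perm.mul_apply]
      simp
  have h1 : ∑ σ : Equiv.Perm X, F (P σ) =
      (c T : ℝ) * ∑ S ∈ Finset.powersetCard T.card (Finset.univ : Finset X), F S := by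
    rw [← Finset.sum_fiberwise_of_maps_to hmaps, Finset.mul_sum]
    refine Finset.sum_congr rfl fun S hS => ?_
    rw [Finset.sum_congr rfl (g := fun _ => F S) (fun σ hσ => by
      rw [(Finset.mem_filter.1 hσ).2]), Finset.sum_const, nsmul_eq_mul,
      hc T S (Finset.mem_powersetCard.1 hS).2]
  have h2 : (Fintype.card X).factorial = c T * (Fintype.card X).choose T.card := by
    rw [← Fintype.card_perm, ← Finset.card_univ, Finset.card_eq_sum_card_fiberwise hmaps,
      Finset.sum_congr rfl (g := fun _ => c T) (fun S hS =>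
        (hc T S (Finset.mem_powersetCard.1 hS).2).symm), Finset.sum_const,
      Finset.card_powersetCard, Finset.card_univ, smul_eq_mul, mul_comm]
  have h3 : ((Fintype.card X).choose T.card : ℝ) ≠ 0 := by
    have := Nat.choose_pos (Finset.card_le_univ T)
    positivity
  rw [h1, h2]
  push_cast
  field_simp

/-- sums over all subsets of functions of the cardinality, with a large range -/
theorem B8b_card {X : Type} [Fintype X] (f : ℕ → ℝ) (N : ℕ) (hN : Fintype.card X ≤ N) :
    ∑ A : Finset X, f A.card = ∑ j ∈ Finset.range (N + 1), ((Fintype.card X).choose j : ℝ) * f j := by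
  classical
  have h := Finset.sum_powerset_apply_card f (x := (Finset.univ : Finset X))
  rw [Finset.powerset_univ, Finset.card_univ] at h
  rw [h]
  simp only [nsmul_eq_mul]
  apply Finset.sum_subset
  · intro j hj
    rw [Finset.mem_range] at hj ⊢
    omega
  · intro j _ hj
    rw [Finset.mem_range, not_lt] at hj
    rw [Nat.choose_eq_zero_of_lt (by omega)]
    simp

theorem B8b_sum {α β : Type} [Fintype α] [Fintype β] (F : Finset (α ⊕ β) → ℝ) :
    ∑ S : Finset (α ⊕ β), F S = ∑ A : Finset α, ∑ B : Finset β, F (A.disjSum B) := by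
  classical
  rw [← Fintype.sum_prod_type' (f := fun (A : Finset α) (B : Finset β) => F (A.disjSum B))]
  exact (Equiv.sum_comp (Finset.sumEquiv (α := α) (β := β)).symm.toEquiv F).symm

/-- reordering of the triple sum -/
theorem B8b_range (a b c t N : ℕ) (hN : t ≤ N) (g : ℕ → ℕ → ℕ → ℝ) :
    ∑ j ∈ Finset.range (N + 1), (a.choose j : ℝ) * ∑ l ∈ Finset.range (N + 1), (b.choose l : ℝ) *
      ∑ m ∈ Finset.range (N + 1), (c.choose m : ℝ) * (if j + l + m = t then g j l m else 0) =
    ∑ j ∈ Finset.range (t + 1), ∑ l ∈ Finset.range (t - j + 1),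
      (a.choose j : ℝ) * (b.choose l) * (c.choose (t - j - l)) * g j l (t - j - l) := by
  have h1 : ∀ j l : ℕ, ∑ m ∈ Finset.range (N + 1), (c.choose m : ℝ) *
      (if j + l + m = t then g j l m else 0) =
      if j + l ≤ t then (c.choose (t - j - l) : ℝ) * g j l (t - j - l) else 0 := by
    intro j l
    by_cases h : j + l ≤ t
    · rw [if_pos h, Finset.sum_eq_single (t - j - l)]
      · rw [if_pos (by omega)]
      · intro m _ hm
        rw [if_neg (by omega), mul_zero]
      · intro hm
        rw [Finset.mem_range] at hm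
        omega
    · rw [if_neg h]
      apply Finset.sum_eq_zero
      intro m _
      rw [if_neg (by omega), mul_zero]
  simp only [h1]
  symm
  have h2 : ∀ j ∈ Finset.range (t + 1), ∑ l ∈ Finset.range (t - j + 1),
      (a.choose j : ℝ) * (b.choose l) * (c.choose (t - j - l)) * g j l (t - j - l) =
      (a.choose j : ℝ) * ∑ l ∈ Finset.range (N + 1), (b.choose l : ℝ) *
        (if j + l ≤ t then (c.choose (t - j - l) : ℝ) * g j l (t - j - l) else 0) := by
    intro j hj
    rw [Finset.mem_range] at hj
    rw [Finset.mul_sum]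
    rw [← Finset.sum_subset (s₁ := Finset.range (t - j + 1)) (s₂ := Finset.range (N + 1))]
    · apply Finset.sum_congr rfl
      intro l hl
      rw [Finset.mem_range] at hl
      rw [if_pos (by omega)]
      ring
    · intro l hl
      rw [Finset.mem_range] at hl ⊢
      omega
    · intro l _ hl
      rw [Finset.mem_range, not_lt] at hl
      rw [if_neg (by omega)]
      simp
  rw [Finset.sum_congr rfl h2]
  apply Finset.sum_subset
  · intro j hj
    rw [Finset.mem_range] at hj ⊢
    omega
  · intro j _ hj
    rw [Finset.mem_range, not_lt] at hj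
    rw [Finset.sum_eq_zero, mul_zero]
    intro l _
    rw [if_neg (by omega), mul_zero]

open Classical in
/-- **B8b.** average over permutations, three blocks -/
theorem sum_perm_three {α β γ : Type} [Fintype α] [Fintype β] [Fintype γ] [DecidableEq α]
    [DecidableEq β] [DecidableEq γ] (T : Finset ((α ⊕ β) ⊕ γ)) (g : ℕ → ℕ → ℕ → ℝ) :
    ∑ σ : Equiv.Perm ((α ⊕ β) ⊕ γ),
      g ((Finset.univ.filter (fun i : α => σ (Sum.inl (Sum.inl i)) ∈ T)).card)
        ((Finset.univ.filter (fun i : β => σ (Sum.inl (Sum.inr i)) ∈ T)).card)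
        ((Finset.univ.filter (fun i : γ => σ (Sum.inr i) ∈ T)).card)
    = ((Fintype.card ((α ⊕ β) ⊕ γ)).factorial : ℝ) *
      (∑ j ∈ Finset.range (T.card + 1), ∑ l ∈ Finset.range (T.card - j + 1),
        ((Fintype.card α).choose j : ℝ) * ((Fintype.card β).choose l) *
        ((Fintype.card γ).choose (T.card - j - l)) * g j l (T.card - j - l)) /
      ((Fintype.card ((α ⊕ β) ⊕ γ)).choose T.card) := by
  set F : Finset ((α ⊕ β) ⊕ γ) → ℝ := fun S =>
    g S.toLeft.toLeft.card S.toLeft.toRight.card S.toRight.card with hF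
  have h1 : ∀ σ : Equiv.Perm ((α ⊕ β) ⊕ γ),
      g ((Finset.univ.filter (fun i : α => σ (Sum.inl (Sum.inl i)) ∈ T)).card)
        ((Finset.univ.filter (fun i : β => σ (Sum.inl (Sum.inr i)) ∈ T)).card)
        ((Finset.univ.filter (fun i : γ => σ (Sum.inr i) ∈ T)).card) =
      F (Finset.univ.filter fun x => σ x ∈ T) := by
    intro σ
    have e1 : (Finset.univ.filter (fun i : α => σ (Sum.inl (Sum.inl i)) ∈ T)) =
        (Finset.univ.filter fun x => σ x ∈ T).toLeft.toLeft := by ext; simp
    have e2 : (Finset.univ.filter (fun i : β => σ (Sum.inl (Sum.inr i)) ∈ T)) =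
        (Finset.univ.filter fun x => σ x ∈ T).toLeft.toRight := by ext; simp
    have e3 : (Finset.univ.filter (fun i : γ => σ (Sum.inr i) ∈ T)) =
        (Finset.univ.filter fun x => σ x ∈ T).toRight := by ext; simp
    simp only [hF]
    rw [e1, e2, e3]
  rw [Finset.sum_congr rfl (fun σ _ => h1 σ), B8b_perm]
  congr 2
  have h2 : ∑ S ∈ Finset.powersetCard T.card (Finset.univ : Finset ((α ⊕ β) ⊕ γ)), F S =
      ∑ S : Finset ((α ⊕ β) ⊕ γ), if S.card = T.card then F S else 0 := by
    rw [← Finset.sum_filter]
    apply Finset.sum_congr _ (fun _ _ => rfl)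
    ext S
    simp [Finset.mem_powersetCard]
  set N := Fintype.card α + Fintype.card β + Fintype.card γ + T.card with hN
  rw [h2, B8b_sum, B8b_sum, ← B8b_range _ _ _ _ N (by omega)]
  have h3 : ∀ (A : Finset α) (B : Finset β) (C : Finset γ),
      (if ((A.disjSum B).disjSum C).card = T.card then F ((A.disjSum B).disjSum C) else 0) =
      if A.card + B.card + C.card = T.card then g A.card B.card C.card else 0 := by
    intro A B C
    simp [hF, Finset.card_disjSum]
  simp only [h3]
  have hA : Fintype.card α ≤ N := by omega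
  have hB : Fintype.card β ≤ N := by omega
  have hC : Fintype.card γ ≤ N := by omega
  rw [← B8b_card _ N hA]
  refine Finset.sum_congr rfl fun A _ => ?_
  rw [← B8b_card _ N hB]
  refine Finset.sum_congr rfl fun B _ => ?_
  rw [← B8b_card _ N hC]

end Pool.Agent.helper49.Slope
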