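import Pool.Agent.helper49.Slope.DefsB

/-!
MP_aedd95_co (slope of k-fold hyperplane covers of triangular grids), module B8c.
Unions of levels.
-/

set_option autoImplicit false

open MeasureTheory ProbabilityTheory
open scoped ENNReal

namespace Pool.Agent.helper49.Slope

/-- **B8c.** every rich form has a union of levels `T` with `2 ≤ |T| ≤ |ι| - 2`. (If a level has
size in `[2, |ι|-2]` take it; otherwise, not being an affine single, either all levels are
singletons or there are levels of size `|ι|-2`, `1`, `1`... take the union of two singletons.) -/
theorem exists_levels {ι : Type} [Fintype ι] [DecidableEq ι] (h4 : 4 ≤ Fintype.card ι)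
    (u : ι → ℤ) (hu : Rich u) :
    ∃ (P : ℤ → Bool), 2 ≤ (Finset.univ.filter (fun i => P (u i) = true)).card ∧
      (Finset.univ.filter (fun i => P (u i) = true)).card + 2 ≤ Fintype.card ι := by
  by_cases H : ∃ t : ℤ, 2 ≤ (Finset.univ.filter (fun i => u i = t)).card ∧
      (Finset.univ.filter (fun i => u i = t)).card + 2 ≤ Fintype.card ι
  · obtain ⟨t, h1, h2⟩ := H
    refine ⟨fun z => decide (z = t), ?_⟩
    simpa using And.intro h1 h2
  · simp only [not_exists, not_and, not_le] at H
    by_cases H2 : ∃ t : ℤ, 2 ≤ (Finset.univ.filter (fun i => u i = t)).card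
    · exfalso
      obtain ⟨t, ht⟩ := H2
      have h1 := H t ht
      have h2 := Finset.card_filter_add_card_filter_not (s := (Finset.univ : Finset ι)) (fun i => u i = t)
      rw [Finset.card_univ] at h2
      have h3 : (Finset.univ.filter (fun i => ¬ u i = t)).card ≤ 1 := by omega
      rw [Finset.card_le_one] at h3
      apply hu
      by_cases h4' : ∃ i, u i ≠ t
      · obtain ⟨i, hi⟩ := h4'
        refine ⟨i, t, fun j hj => ?_⟩
        by_contra hne
        exact hj (h3 j (by simpa using hne) i (by simpa using hi))
      · push Not at h4'
        have : Nonempty ι := Fintype.card_pos_iff.1 (by omega)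
        exact ⟨Classical.arbitrary ι, t, fun j _ => h4' j⟩
    · simp only [not_exists, not_le] at H2
      have hinj : Function.Injective u := by
        intro i j hij
        have h1 := H2 (u i)
        have h2 : (Finset.univ.filter (fun k => u k = u i)).card ≤ 1 := by omega
        rw [Finset.card_le_one] at h2
        exact h2 i (by simp) j (by simp [hij])
      obtain ⟨i, j, hij⟩ := Fintype.exists_pair_of_one_lt_card (show 1 < Fintype.card ι by omega)
      refine ⟨fun z => decide (z = u i ∨ z = u j), ?_⟩
      have e : (Finset.univ.filter (fun k => decide (u k = u i ∨ u k = u j) = true)) = {i, j} := by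
        ext k
        simp [hinj.eq_iff]
      rw [e, Finset.card_pair hij]
      omega

end Pool.Agent.helper49.Slope
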