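import Pool.Agent.helper49.Slope.DefsB
import Pool.Agent.helper49.Slope.B2a

/-!
MP_aedd95_co (slope of k-fold hyperplane covers of triangular grids), module B9.
From families to laws.
-/

set_option autoImplicit false

open MeasureTheory ProbabilityTheory
open scoped ENNReal

namespace Pool.Agent.helper49.Slope

theorem B9_lin_meas {ι : Type} [Fintype ι] (u : ι → ℤ) : Measurable (lin u) := by
  unfold lin
  fun_prop

theorem B9_sprof_meas (a : ℝ) : Measurable (sprof a) := by
  unfold sprof
  refine Measurable.ite (measurableSet_le (by fun_prop) measurable_const) ?_ measurable_const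
  exact Measurable.ite (measurableSet_le measurable_const measurable_id) measurable_const
    measurable_const

theorem B9_supp_meas {ι : Type} [Fintype ι] (x : ℝ) :
    MeasurableSet {y : ι → ℝ | (∀ i, |y i| ≤ 1) ∧ ∑ i, y i = x} := by
  refine MeasurableSet.inter ?_ ?_
  · have : {y : ι → ℝ | ∀ i, |y i| ≤ 1} = ⋂ i, {y : ι → ℝ | |y i| ≤ 1} := by
      ext y
      simp
    show MeasurableSet {y : ι → ℝ | ∀ i, |y i| ≤ 1}
    rw [this]
    exact MeasurableSet.iInter fun i => measurableSet_le (by fun_prop) measurable_const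
  · exact measurableSet_eq_fun (by fun_prop) measurable_const

/-- **B9a.** Symmetric kernels satisfy the law at `x = 0`. `u = t + c·e_i`: `lin u = t·0 + c y_i`. -/
theorem Fam.law {ι : Type} [Fintype ι] [DecidableEq ι] {h : ℝ} (hh : 0 ≤ h)
    (H : Fam ι h) : LawOK ι := by
  obtain ⟨κ, hκ, hfam⟩ := H
  obtain ⟨h1, h2, h3⟩ := hfam 0 (by rwa [abs_zero])
  refine ⟨κ 0, hκ.isProbabilityMeasure 0, h1, ?_⟩
  rintro u ⟨i₁, j₁, hij⟩
  by_cases hr : Rich u
  · exact h3 u hr
  · unfold Rich at hr
    rw [not_not] at hr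
    obtain ⟨i, t, hi⟩ := hr
    have hne : u i ≠ t := by
      intro h0
      have key : ∀ j, u j = t := fun j => by
        by_cases hj : j = i
        · rw [hj, h0]
        · exact hi j hj
      exact hij (by rw [key, key])
    set c : ℤ := u i - t with hc
    have hc0 : c ≠ 0 := sub_ne_zero.2 hne
    have hc1 : (1 : ℝ) ≤ |(c : ℝ)| := by
      rw [← Int.cast_abs]
      exact_mod_cast Int.one_le_abs hc0
    have e1 : (κ 0).map (lin u) = ((κ 0).map (fun y => y i)).map (fun z => (c : ℝ) * z) := by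
      rw [Measure.map_map (by fun_prop) (by fun_prop)]
      refine Measure.map_congr ?_
      filter_upwards [h1] with y hy
      have hs : ∑ j, y j = 0 := hy.2
      show lin u y = (c : ℝ) * y i
      unfold lin
      have : ∀ j, (u j : ℝ) * y j = (t : ℝ) * y j + (if j = i then (c : ℝ) * y j else 0) := by
        intro j
        by_cases hj : j = i
        · subst hj
          rw [if_pos rfl, hc]
          push_cast
          ring
        · rw [if_neg hj, hi j hj, add_zero]
      rw [Finset.sum_congr rfl fun j _ => this j, Finset.sum_add_distrib, ← Finset.mul_sum, hs,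
        mul_zero, zero_add, Finset.sum_ite_eq' Finset.univ i, if_pos (Finset.mem_univ i)]
    rw [e1]
    have h4 := (h2 i).scale (B9_sprof_meas _) (c : ℝ) (by exact_mod_cast hc0)
    refine h4.mono fun z => ?_
    have h5 : ENNReal.ofReal (1 / |(c : ℝ)|) ≤ 1 := by
      rw [ENNReal.ofReal_le_one]
      rw [div_le_one (by linarith)]
      exact hc1
    have h6 : sprof (2 / (Fintype.card ι : ℝ) * 0) (z / (c : ℝ)) ≤ 1 := by
      unfold sprof
      split_ifs <;> simp
    calc ENNReal.ofReal (1 / |(c : ℝ)|) * sprof (2 / (Fintype.card ι : ℝ) * 0) (z / (c : ℝ))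
        ≤ 1 * 1 := mul_le_mul' h5 h6
      _ = 1 := one_mul 1

/-- transport map -/
def B9_tr {ι ι' : Type} (e : ι ≃ ι') (y : ι → ℝ) : ι' → ℝ := fun j => y (e.symm j)

theorem B9_tr_meas {ι ι' : Type} (e : ι ≃ ι') : Measurable (B9_tr e) :=
  measurable_pi_lambda _ fun j => measurable_pi_apply (e.symm j)

theorem B9_lin_tr {ι ι' : Type} [Fintype ι] [Fintype ι'] (e : ι ≃ ι') (u : ι' → ℤ)
    (y : ι → ℝ) : lin u (B9_tr e y) = lin (fun i => u (e i)) y := by
  unfold lin B9_tr
  rw [← Equiv.sum_comp e]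
  simp

theorem B9_supp_tr {ι ι' : Type} [Fintype ι] [Fintype ι'] (e : ι ≃ ι') {μ : Measure (ι → ℝ)}
    {x : ℝ} (h : Supp μ x) : Supp (μ.map (B9_tr e)) x := by
  unfold Supp
  rw [ae_map_iff (B9_tr_meas e).aemeasurable (B9_supp_meas x)]
  filter_upwards [h] with y hy
  refine ⟨fun j => hy.1 _, ?_⟩
  rw [← hy.2]
  unfold B9_tr
  exact Equiv.sum_comp e.symm y

/-- **B9b.** transport along an equivalence -/
theorem LawOK.equiv {ι ι' : Type} [Fintype ι] [Fintype ι'] (e : ι ≃ ι') (H : LawOK ι) :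
    LawOK ι' := by
  obtain ⟨μ, hμ, h1, h2⟩ := H
  refine ⟨μ.map (B9_tr e), Measure.isProbabilityMeasure_map (B9_tr_meas e).aemeasurable,
    B9_supp_tr e h1, ?_⟩
  rintro u ⟨i, j, hij⟩
  rw [Measure.map_map (B9_lin_meas u) (B9_tr_meas e)]
  have : lin u ∘ B9_tr e = lin (fun i => u (e i)) := by
    funext y
    exact B9_lin_tr e u y
  rw [this]
  exact h2 _ ⟨e.symm i, e.symm j, by simpa using hij⟩

theorem Fam.equiv {ι ι' : Type} [Fintype ι] [Fintype ι'] (e : ι ≃ ι') {h : ℝ} (H : Fam ι h) :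
    Fam ι' h := by
  obtain ⟨κ, hκ, hfam⟩ := H
  refine ⟨κ.map (B9_tr e), Kernel.IsMarkovKernel.map κ (B9_tr_meas e), fun x hx => ?_⟩
  obtain ⟨h1, h2, h3⟩ := hfam x hx
  rw [Kernel.map_apply κ (B9_tr_meas e)]
  refine ⟨B9_supp_tr e h1, fun i => ?_, fun u hu => ?_⟩
  · rw [Measure.map_map (measurable_pi_apply i) (B9_tr_meas e), ← Fintype.card_congr e]
    exact h2 (e.symm i)
  · rw [Measure.map_map (B9_lin_meas u) (B9_tr_meas e)]
    have : lin u ∘ B9_tr e = lin (fun i => u (e i)) := by
      funext y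
      exact B9_lin_tr e u y
    rw [this]
    refine h3 _ ?_
    rintro ⟨i, t, hi⟩
    apply hu
    refine ⟨e i, t, fun j hj => ?_⟩
    have := hi (e.symm j) (fun h0 => hj (by rw [← h0, e.apply_symm_apply]))
    simpa using this

end Pool.Agent.helper49.Slope
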