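import Pool.Agent.helper49.Slope.DefsB
import Pool.Agent.helper49.Slope.B4

/-!
MP_aedd95_co (slope of k-fold hyperplane covers of triangular grids), module C1.
The laws for N = 2, 3, 4. Apply `exists_poly` with `Q = Unit`, `π = dirac ()`, `d = 0` and vectors
`v_i` with `∑ v_i = 0`, `|v_i| = 1`; then `vsq v u ≥ 1` for every nonconstant integer `u`, so
`ker 0 V ≤ 1 / V ≤ 1`, and the law is not symmetrised at all.
-/

set_option autoImplicit false

open MeasureTheory ProbabilityTheory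
open scoped ENNReal

namespace Pool.Agent.helper49.Slope

/-- the law of a polygon with `|v_i| ≤ 1` and `vsq v u ≥ 1` -/
theorem c1_law {ι : Type} [Fintype ι] (v : ι → Fin 3 → ℝ) (h0 : ∀ k, ∑ i, v i k = 0)
    (h1 : ∀ i, ∑ k, v i k ^ 2 ≤ 1)
    (h2 : ∀ u : ι → ℤ, (∃ i j, u i ≠ u j) → 1 ≤ vsq v u) : LawOK ι := by
  obtain ⟨μ, hμ, hs, hl, -⟩ := exists_poly (Measure.dirac ()) (fun _ : Unit => v)
    measurable_const (fun _ : Unit => fun _ : ι => (0 : ℝ)) measurable_const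
  refine ⟨μ, hμ, hs 0 (Filter.Eventually.of_forall fun _ => ⟨h0, by simp, fun i => ?_⟩),
    fun u hu => ?_⟩
  · rw [abs_zero, add_zero]
    exact Real.sqrt_le_one.2 (h1 i)
  · have h3 := h2 u hu
    have h4 := hl u (Filter.Eventually.of_forall fun _ => lt_of_lt_of_le one_pos h3)
    unfold HasLoad at h4 ⊢
    refine h4.trans (withDensity_mono (Filter.Eventually.of_forall fun z => ?_))
    refine ENNReal.div_le_div_right ?_ 2
    beta_reduce
    rw [lintegral_const, measure_univ, mul_one]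
    unfold ker
    split_ifs
    · rw [ENNReal.ofReal_le_one, div_le_one (Real.sqrt_pos.2 (lt_of_lt_of_le one_pos h3))]
      exact Real.one_le_sqrt.2 h3
    · exact zero_le_one

theorem c1_sq_int {a b : ℤ} (h : a ≠ b) : 1 ≤ (a - b) ^ 2 := by
  have h1 : (a - b) ^ 2 ≠ 0 := pow_ne_zero 2 (sub_ne_zero.2 h)
  have h2 := sq_nonneg (a - b)
  omega

theorem c1_four {a b : ℤ} (c d : ℤ) (h : a ≠ b) : 3 ≤ (a - b) ^ 2 + ((a - c) ^ 2 + (b - c) ^ 2) +
    ((a - d) ^ 2 + (b - d) ^ 2) + (c - d) ^ 2 := by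
  have key : ∀ e : ℤ, 1 ≤ (a - e) ^ 2 + (b - e) ^ 2 := by
    intro e
    by_cases he : a = e
    · have := c1_sq_int (show b ≠ e by rw [← he]; exact h.symm)
      have := sq_nonneg (a - e)
      omega
    · have := c1_sq_int he
      have := sq_nonneg (b - e)
      omega
  have h1 := c1_sq_int h
  have h2 := key c
  have h3 := key d
  have h4 := sq_nonneg (c - d)
  omega

theorem c1_ne {n : ℕ} {u : Fin (n + 1) → ℤ} (h : ∃ i j, u i ≠ u j) : ∃ j, u 0 ≠ u j := by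
  by_contra hc
  push Not at hc
  obtain ⟨i, j, hij⟩ := h
  exact hij ((hc i).symm.trans (hc j))

/-- `v₀ = (1,0,0) = -v₁`, `V² = (u₀-u₁)²`. -/
theorem law_two : LawOK (Fin 2) := by
  refine c1_law ![![1, 0, 0], ![-1, 0, 0]] ?_ ?_ ?_
  · intro k
    fin_cases k <;> simp [Fin.sum_univ_succ]
  · intro i
    fin_cases i <;> simp [Fin.sum_univ_succ]
  · intro u hu
    obtain ⟨j, hj⟩ := c1_ne hu
    have h1 : u 0 ≠ u 1 := by
      fin_cases j
      · exact absurd rfl hj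
      · exact hj
    have h2 : vsq ![![1, 0, 0], ![-1, 0, 0]] u = (((u 0 - u 1) ^ 2 : ℤ) : ℝ) := by
      simp only [vsq, Fin.sum_univ_succ, Fin.sum_univ_zero, Matrix.cons_val_zero,
        Matrix.cons_val_succ, Fin.succ_zero_eq_one]
      push_cast
      simp
      ring
    rw [h2]
    exact_mod_cast c1_sq_int h1

/-- Equilateral triangle `v₀ = (1,0,0)`, `v₁ = (-1/2, √3/2, 0)`, `v₂ = (-1/2, -√3/2, 0)`:
`V² = ½ ∑_{k<l} (u_k-u_l)² ≥ 1` (at least two of the three differences are nonzero). -/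
theorem law_three : LawOK (Fin 3) := by
  have h3 : Real.sqrt 3 ^ 2 = 3 := Real.sq_sqrt (by norm_num)
  refine c1_law ![![1, 0, 0], ![-1 / 2, Real.sqrt 3 / 2, 0], ![-1 / 2, -(Real.sqrt 3 / 2), 0]]
    ?_ ?_ ?_
  · intro k
    fin_cases k <;> simp [Fin.sum_univ_succ]
  · intro i
    fin_cases i <;> simp [Fin.sum_univ_succ, div_pow, h3] <;> norm_num
  · intro u hu
    obtain ⟨j, hj⟩ := c1_ne hu
    have h2 : vsq ![![1, 0, 0], ![-1 / 2, Real.sqrt 3 / 2, 0],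
        ![-1 / 2, -(Real.sqrt 3 / 2), 0]] u =
        (((u 0) ^ 2 + (u 1) ^ 2 + (u 2) ^ 2 - u 0 * u 1 - u 0 * u 2 - u 1 * u 2 : ℤ) : ℝ) := by
      simp [vsq, Fin.sum_univ_succ]
      ring_nf
      rw [h3]
      ring
    rw [h2]
    have h4 : 1 ≤ (u 0) ^ 2 + (u 1) ^ 2 + (u 2) ^ 2 - u 0 * u 1 - u 0 * u 2 - u 1 * u 2 := by
      have e : 2 * ((u 0) ^ 2 + (u 1) ^ 2 + (u 2) ^ 2 - u 0 * u 1 - u 0 * u 2 - u 1 * u 2) =
          (u 0 - u 1) ^ 2 + (u 0 - u 2) ^ 2 + (u 1 - u 2) ^ 2 := by ring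
      have p1 := sq_nonneg (u 0 - u 1)
      have p2 := sq_nonneg (u 0 - u 2)
      have p3 := sq_nonneg (u 1 - u 2)
      fin_cases j
      · exact absurd rfl hj
      · have := c1_sq_int (show u 0 ≠ u 1 from hj)
        omega
      · have := c1_sq_int (show u 0 ≠ u 2 from hj)
        omega
    exact_mod_cast h4

/-- Regular tetrahedron `v = (±1,±1,±1)/√3` with an even number of minus signs:
`V² = ⅓ ∑_{k<l} (u_k-u_l)² ≥ 1` (at least three of the six differences are nonzero). -/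
theorem law_four : LawOK (Fin 4) := by
  have h3 : Real.sqrt 3 ^ 2 = 3 := Real.sq_sqrt (by norm_num)
  have h0 : Real.sqrt 3 ≠ 0 := by positivity
  have hi : (Real.sqrt 3)⁻¹ ^ 2 = 1 / 3 := by rw [inv_pow, h3]; norm_num
  refine c1_law ![![(Real.sqrt 3)⁻¹, (Real.sqrt 3)⁻¹, (Real.sqrt 3)⁻¹],
    ![(Real.sqrt 3)⁻¹, -(Real.sqrt 3)⁻¹, -(Real.sqrt 3)⁻¹],
    ![-(Real.sqrt 3)⁻¹, (Real.sqrt 3)⁻¹, -(Real.sqrt 3)⁻¹],
    ![-(Real.sqrt 3)⁻¹, -(Real.sqrt 3)⁻¹, (Real.sqrt 3)⁻¹]] ?_ ?_ ?_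
  · generalize (Real.sqrt 3)⁻¹ = r
    intro k
    fin_cases k <;> simp [Fin.sum_univ_succ]
  · generalize (Real.sqrt 3)⁻¹ = r at hi
    intro i
    fin_cases i <;> simp [Fin.sum_univ_succ, hi] <;> norm_num
  · generalize (Real.sqrt 3)⁻¹ = r at hi
    intro u hu
    obtain ⟨j, hj⟩ := c1_ne hu
    have h2 : vsq ![![r, r, r], ![r, -r, -r], ![-r, r, -r], ![-r, -r, r]] u =
        (((u 0 - u 1) ^ 2 + (u 0 - u 2) ^ 2 + (u 0 - u 3) ^ 2 + (u 1 - u 2) ^ 2 +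
          (u 1 - u 3) ^ 2 + (u 2 - u 3) ^ 2 : ℤ) : ℝ) / 3 := by
      have e : vsq ![![r, r, r], ![r, -r, -r], ![-r, r, -r], ![-r, -r, r]] u =
        r ^ 2 * ((((u 0 - u 1) ^ 2 + (u 0 - u 2) ^ 2 + (u 0 - u 3) ^ 2 + (u 1 - u 2) ^ 2 +
          (u 1 - u 3) ^ 2 + (u 2 - u 3) ^ 2 : ℤ) : ℝ)) := by
        simp [vsq, Fin.sum_univ_succ]
        ring
      rw [e, hi]
      ring
    rw [h2, le_div_iff₀ (by norm_num), one_mul]
    have h4 : 3 ≤ (u 0 - u 1) ^ 2 + (u 0 - u 2) ^ 2 + (u 0 - u 3) ^ 2 + (u 1 - u 2) ^ 2 +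
          (u 1 - u 3) ^ 2 + (u 2 - u 3) ^ 2 := by
      fin_cases j
      · exact absurd rfl hj
      · have := c1_four (u 2) (u 3) (show u 0 ≠ u 1 from hj)
        linarith
      · have := c1_four (u 1) (u 3) (show u 0 ≠ u 2 from hj)
        have e1 : (u 2 - u 1) ^ 2 = (u 1 - u 2) ^ 2 := by ring
        linarith
      · have := c1_four (u 1) (u 2) (show u 0 ≠ u 3 from hj)
        have e1 : (u 3 - u 1) ^ 2 = (u 1 - u 3) ^ 2 := by ring
        have e2 : (u 3 - u 2) ^ 2 = (u 2 - u 3) ^ 2 := by ring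
        linarith
    exact_mod_cast h4

end Pool.Agent.helper49.Slope
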