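import Pool.Agent.helper49.Slope.DefsJ
import Pool.Agent.helper49.Slope.B2a

/-!
MP_aedd95_co (slope of k-fold hyperplane covers of triangular grids), module J1.
The law of a digit.
-/

set_option autoImplicit false

open MeasureTheory ProbabilityTheory
open scoped ENNReal

namespace Pool.Agent.helper49.Slope

/-- fundamental theorem of calculus for nonnegative functions -/
theorem J1_ftc {a b : ℝ} (hab : a ≤ b) (h G : ℝ → ℝ) (hc : ContinuousOn h (Set.Icc a b))
    (hn : ∀ s ∈ Set.Icc a b, 0 ≤ h s) (hG : ∀ s ∈ Set.Icc a b, HasDerivAt G (h s) s) :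
    ∫⁻ s in Set.Icc a b, ENNReal.ofReal (h s) = ENNReal.ofReal (G b - G a) ∧
      0 ≤ G b - G a := by
  have hI : IntegrableOn h (Set.Icc a b) := hc.integrableOn_Icc
  have e1 : ∫ s in a..b, h s = G b - G a := by
    apply intervalIntegral.integral_eq_sub_of_hasDerivAt
    · intro x hx
      rw [Set.uIcc_of_le hab] at hx
      exact hG x hx
    · exact (intervalIntegrable_iff_integrableOn_Icc_of_le hab).2 hI
  have e2 : ∫ s in Set.Icc a b, h s = G b - G a := by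
    rw [integral_Icc_eq_integral_Ioc, ← intervalIntegral.integral_of_le hab, e1]
  refine ⟨?_, ?_⟩
  · rw [← e2, ofReal_integral_eq_lintegral_ofReal hI]
    filter_upwards [ae_restrict_mem measurableSet_Icc] with s hs
    exact hn s hs
  · rw [← e2]
    exact setIntegral_nonneg measurableSet_Icc hn

theorem J1_lint (τ : ℝ) (g : ℝ → ℝ≥0∞) (hg : Measurable g) :
    ∫⁻ s, g s ∂(lam τ) = ∫⁻ s in Set.Icc (-τ) τ, ENNReal.ofReal ((1 / 2 + s) / τ) * g s := by
  unfold lam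
  rw [lintegral_withDensity_eq_lintegral_mul _ (by fun_prop) hg]
  rfl

theorem J1_key {τ : ℝ} (h0 : 0 < τ) (h1 : τ ≤ 1 / 2) (f G : ℝ → ℝ) (hm : Measurable f)
    (hc : ContinuousOn f (Set.Icc (-τ) τ)) (hf : ∀ s ∈ Set.Icc (-τ) τ, 0 ≤ f s)
    (hG : ∀ s ∈ Set.Icc (-τ) τ, HasDerivAt G ((1 / 2 + s) / τ * f s) s) :
    ∫⁻ s, ENNReal.ofReal (f s) ∂(lam τ) = ENNReal.ofReal (G τ - G (-τ)) ∧
      0 ≤ G τ - G (-τ) := by
  have hw : ∀ s ∈ Set.Icc (-τ) τ, 0 ≤ (1 / 2 + s) / τ :=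
    fun s hs => div_nonneg (by linarith [hs.1]) h0.le
  obtain ⟨e1, e2⟩ := J1_ftc (by linarith : -τ ≤ τ) (fun s => (1 / 2 + s) / τ * f s) G
    (ContinuousOn.mul (Continuous.continuousOn (by fun_prop)) hc)
    (fun s hs => mul_nonneg (hw s hs) (hf s hs)) hG
  refine ⟨?_, e2⟩
  rw [J1_lint τ _ (by fun_prop), ← e1]
  refine setLIntegral_congr_fun measurableSet_Icc ?_
  intro s hs
  exact (ENNReal.ofReal_mul (hw s hs)).symm

theorem J1_abs {τ s : ℝ} (hs : s ∈ Set.Icc (-τ) τ) : |s| ≤ τ := abs_le.2 hs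

theorem lam_prob {τ : ℝ} (h0 : 0 < τ) (h1 : τ ≤ 1 / 2) : IsProbabilityMeasure (lam τ) := by
  constructor
  have h := (J1_key h0 h1 (fun _ => 1) (fun s => (s / 2 + s ^ 2 / 2) / τ) measurable_const
    continuousOn_const (fun _ _ => zero_le_one) (fun s _ => by
      have h2 := (((hasDerivAt_id s).div_const 2).add ((hasDerivAt_pow 2 s).div_const 2)).div_const τ
      refine h2.congr_deriv ?_
      simp)).1
  rw [ENNReal.ofReal_one, lintegral_one] at h
  rw [h, ← ENNReal.ofReal_one]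
  congr 1
  field_simp
  ring

theorem sgnM_prob : IsProbabilityMeasure sgnM := by
  constructor
  unfold sgnM
  simp only [Measure.coe_add, Measure.coe_smul, Pi.add_apply, Pi.smul_apply, measure_univ,
    smul_eq_mul, mul_one]
  exact ENNReal.add_halves 1 |> fun h => by simpa using h

theorem lam_ae (τ : ℝ) : ∀ᵐ s ∂(lam τ), |s| ≤ τ := by
  unfold lam
  have h : ∀ᵐ s ∂(volume.restrict (Set.Icc (-τ) τ)), |s| ≤ τ := by
    filter_upwards [ae_restrict_mem measurableSet_Icc] with s hs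
    exact J1_abs hs
  exact (withDensity_absolutelyContinuous _ _).ae_le h

theorem sgnM_ae : ∀ᵐ η ∂sgnM, η = 1 ∨ η = -1 := by
  unfold sgnM
  rw [ae_add_measure_iff]
  constructor
  · refine Measure.ae_smul_measure ?_ _
    rw [ae_dirac_iff (by measurability)]
    exact Or.inl rfl
  · refine Measure.ae_smul_measure ?_ _
    rw [ae_dirac_iff (by measurability)]
    exact Or.inr rfl

theorem lintegral_sgnM (f : ℝ → ℝ≥0∞) (hf : Measurable f) :
    ∫⁻ η, f η ∂sgnM = (f 1 + f (-1)) / 2 := by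
  unfold sgnM
  rw [lintegral_add_measure, lintegral_smul_measure, lintegral_smul_measure,
    lintegral_dirac' _ hf, lintegral_dirac' _ hf, smul_eq_mul, smul_eq_mul, ← mul_add, one_div,
    mul_comm, ← div_eq_mul_inv]

/-- moments: `∫ s = 2τ²/3`, `∫ s² = τ²/3` -/
theorem lam_moment {τ : ℝ} (h0 : 0 < τ) (h1 : τ ≤ 1 / 2) (c0 c1 c2 : ℝ)
    (hp : ∀ s : ℝ, |s| ≤ τ → 0 ≤ c0 + c1 * s + c2 * s ^ 2) :
    ∫⁻ s, ENNReal.ofReal (c0 + c1 * s + c2 * s ^ 2) ∂(lam τ)
      = ENNReal.ofReal (c0 + c1 * (2 * τ ^ 2 / 3) + c2 * (τ ^ 2 / 3)) := by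
  have h := (J1_key h0 h1 (fun s => c0 + c1 * s + c2 * s ^ 2)
    (fun s => (c0 / 2 * s + (c0 + c1 / 2) / 2 * s ^ 2 + (c1 + c2 / 2) / 3 * s ^ 3
      + c2 / 4 * s ^ 4) / τ) (by fun_prop) (Continuous.continuousOn (by fun_prop))
    (fun s hs => hp s (J1_abs hs)) (fun s _ => by
      have h2 := ((((hasDerivAt_id s).const_mul (c0 / 2)).add
        ((hasDerivAt_pow 2 s).const_mul ((c0 + c1 / 2) / 2))).add
        ((hasDerivAt_pow 3 s).const_mul ((c1 + c2 / 2) / 3))).add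
        ((hasDerivAt_pow 4 s).const_mul (c2 / 4))
      refine (h2.div_const τ).congr_deriv ?_
      field_simp
      push_cast
      ring)).1
  rw [h]
  congr 1
  field_simp
  ring

theorem J1_moment_nonneg {τ : ℝ} (h0 : 0 < τ) (h1 : τ ≤ 1 / 2) (c0 c1 c2 : ℝ)
    (hp : ∀ s : ℝ, |s| ≤ τ → 0 ≤ c0 + c1 * s + c2 * s ^ 2) :
    0 ≤ c0 + c1 * (2 * τ ^ 2 / 3) + c2 * (τ ^ 2 / 3) := by
  have h := (J1_key h0 h1 (fun s => c0 + c1 * s + c2 * s ^ 2)
    (fun s => (c0 / 2 * s + (c0 + c1 / 2) / 2 * s ^ 2 + (c1 + c2 / 2) / 3 * s ^ 3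
      + c2 / 4 * s ^ 4) / τ) (by fun_prop) (Continuous.continuousOn (by fun_prop))
    (fun s hs => hp s (J1_abs hs)) (fun s _ => by
      have h2 := ((((hasDerivAt_id s).const_mul (c0 / 2)).add
        ((hasDerivAt_pow 2 s).const_mul ((c0 + c1 / 2) / 2))).add
        ((hasDerivAt_pow 3 s).const_mul ((c1 + c2 / 2) / 3))).add
        ((hasDerivAt_pow 4 s).const_mul (c2 / 4))
      refine (h2.div_const τ).congr_deriv ?_
      field_simp
      push_cast
      ring)).2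
  refine le_of_le_of_eq h ?_
  field_simp
  ring

theorem J1_alg (L c P R : ℝ) (hR : 0 < R) (h : R * R = P) :
    L * (2 * c) * R + P * (L * (2 * c) / (2 * R)) = 3 * L * c * R := by
  subst h
  field_simp
  ring

/-- affine images of sets -/
theorem J1_vol (b : ℝ) (hb : b ≠ 0) (T : Set ℝ) :
    volume ((fun s : ℝ => b * (1 - 2 * s)) ⁻¹' T) = ENNReal.ofReal (1 / (2 * |b|)) * volume T := by
  have e : (fun s : ℝ => b * (1 - 2 * s)) = (fun x => b + x) ∘ (fun x => (-2 * b) * x) := by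
    funext s
    simp only [Function.comp]
    ring
  rw [e, Set.preimage_comp, Real.volume_preimage_mul_left (by simpa using hb),
    measure_preimage_add]
  congr 2
  rw [abs_inv, abs_mul, one_div]
  norm_num

theorem J1_ker_meas (z : ℝ) :
    Measurable (fun q : ℝ × ℝ => ker (q.2 * (1 / 2 - q.1)) (1 / 2 + q.1) z) := by
  unfold ker
  refine Measurable.ite ?_ (by fun_prop) measurable_const
  exact measurableSet_le (by fun_prop) (by fun_prop)

theorem J1_vol2 (τ y : ℝ) : ∫⁻ s in Set.Icc (-τ) τ, (Set.Ici y).indicator (fun _ => (1 : ℝ≥0∞)) s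
    = ENNReal.ofReal (τ - max (-τ) y) := by
  rw [lintegral_indicator measurableSet_Ici, lintegral_one, Measure.restrict_apply_univ,
    Measure.restrict_apply measurableSet_Ici]
  have : Set.Ici y ∩ Set.Icc (-τ) τ = Set.Icc (max (-τ) y) τ := by
    ext s
    simp only [Set.mem_inter_iff, Set.mem_Ici, Set.mem_Icc, max_le_iff]
    tauto
  rw [this, Real.volume_Icc]

theorem J1_sum {τ : ℝ} (h0 : 0 < τ) (z : ℝ) : ENNReal.ofReal (τ - max (-τ) (-z / 2))
    + ENNReal.ofReal (τ - max (-τ) (z / 2)) ≤ ENNReal.ofReal (2 * τ) := by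
  have h1 := le_max_left (-τ) (-z / 2)
  have h2 := le_max_right (-τ) (-z / 2)
  have h3 := le_max_left (-τ) (z / 2)
  have h4 := le_max_right (-τ) (z / 2)
  rcases le_total (τ - max (-τ) (-z / 2)) 0 with ha | ha
  · rw [ENNReal.ofReal_of_nonpos ha, zero_add]
    exact ENNReal.ofReal_le_ofReal (by linarith)
  · rcases le_total (τ - max (-τ) (z / 2)) 0 with hb | hb
    · rw [ENNReal.ofReal_of_nonpos hb, add_zero]
      exact ENNReal.ofReal_le_ofReal (by linarith)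
    · rw [← ENNReal.ofReal_add ha hb]
      exact ENNReal.ofReal_le_ofReal (by linarith)

theorem J1_lam_Ici {τ : ℝ} (h0 : 0 < τ) (h1 : τ < 1 / 2) (y : ℝ) :
    (lam τ) (Set.Ici y) ≤ ENNReal.ofReal ((1 / 2 + τ) / τ * (τ - y)) := by
  have hK : 0 ≤ (1 / 2 + τ) / τ := by positivity
  unfold lam
  rw [withDensity_apply _ measurableSet_Ici, Measure.restrict_restrict measurableSet_Ici]
  calc ∫⁻ s in Set.Ici y ∩ Set.Icc (-τ) τ, ENNReal.ofReal ((1 / 2 + s) / τ)
      ≤ ∫⁻ s in Set.Ici y ∩ Set.Icc (-τ) τ, ENNReal.ofReal ((1 / 2 + τ) / τ) := by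
        refine setLIntegral_mono measurable_const ?_
        intro s hs
        apply ENNReal.ofReal_le_ofReal
        gcongr
        exact hs.2.2
    _ = ENNReal.ofReal ((1 / 2 + τ) / τ) * volume (Set.Ici y ∩ Set.Icc (-τ) τ) := by
        rw [setLIntegral_const]
    _ ≤ ENNReal.ofReal ((1 / 2 + τ) / τ) * volume (Set.Icc y τ) := by
        gcongr
        intro s hs
        exact ⟨hs.1, hs.2.2⟩
    _ = ENNReal.ofReal ((1 / 2 + τ) / τ * (τ - y)) := by
        rw [Real.volume_Icc, ENNReal.ofReal_mul hK]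

/-- two independent digits, polynomials of degree at most 2 -/
theorem lam_moment_two {τ : ℝ} (h0 : 0 < τ) (h1 : τ ≤ 1 / 2) (c0 c1 c2 c11 c12 c22 : ℝ)
    (hp : ∀ s t : ℝ, |s| ≤ τ → |t| ≤ τ →
      0 ≤ c0 + c1 * s + c2 * t + c11 * s ^ 2 + c12 * (s * t) + c22 * t ^ 2) :
    ∫⁻ q, ENNReal.ofReal (c0 + c1 * q.1 + c2 * q.2 + c11 * q.1 ^ 2 + c12 * (q.1 * q.2)
        + c22 * q.2 ^ 2) ∂((lam τ).prod (lam τ))
      = ENNReal.ofReal (c0 + (c1 + c2) * (2 * τ ^ 2 / 3) + (c11 + c22) * (τ ^ 2 / 3)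
        + c12 * (2 * τ ^ 2 / 3) ^ 2) := by
  have hprob := lam_prob h0 h1
  have hmeas : Measurable (fun q : ℝ × ℝ => ENNReal.ofReal (c0 + c1 * q.1 + c2 * q.2
      + c11 * q.1 ^ 2 + c12 * (q.1 * q.2) + c22 * q.2 ^ 2)) := by fun_prop
  rw [lintegral_prod _ hmeas.aemeasurable]
  have hin : ∀ s : ℝ, |s| ≤ τ → ∀ t : ℝ, |t| ≤ τ →
      0 ≤ (c0 + c1 * s + c11 * s ^ 2) + (c2 + c12 * s) * t + c22 * t ^ 2 := by
    intro s hs t ht
    have := hp s t hs ht
    nlinarith [this]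
  have e : ∫⁻ s, (∫⁻ t, ENNReal.ofReal (c0 + c1 * (s, t).1 + c2 * (s, t).2
      + c11 * (s, t).1 ^ 2 + c12 * ((s, t).1 * (s, t).2) + c22 * (s, t).2 ^ 2) ∂(lam τ)) ∂(lam τ)
      = ∫⁻ s, ENNReal.ofReal ((c0 + c2 * (2 * τ ^ 2 / 3) + c22 * (τ ^ 2 / 3))
        + (c1 + c12 * (2 * τ ^ 2 / 3)) * s + c11 * s ^ 2) ∂(lam τ) := by
    refine lintegral_congr_ae ?_
    filter_upwards [lam_ae τ] with s hs
    have := lam_moment h0 h1 (c0 + c1 * s + c11 * s ^ 2) (c2 + c12 * s) c22 (hin s hs)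
    calc _ = ∫⁻ t, ENNReal.ofReal ((c0 + c1 * s + c11 * s ^ 2) + (c2 + c12 * s) * t
          + c22 * t ^ 2) ∂(lam τ) := by
            refine lintegral_congr fun t => ?_
            congr 1
            ring
      _ = _ := by
            rw [this]
            congr 1
            ring
  rw [e, lam_moment h0 h1]
  · congr 1
    ring
  · intro s hs
    have := J1_moment_nonneg h0 h1 (c0 + c1 * s + c11 * s ^ 2) (c2 + c12 * s) c22 (hin s hs)
    nlinarith [this]

/-- **J1.** With `c = 1/2 + s`: `∫ (c/τ) (A + L c²)^(-1/2) ds`, antiderivative `√(A + L c²)/(L τ)`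
(for `L ≠ 0`), and `√x - √y = (x-y)/(√x+√y)`, `c₊² - c₋² = 2τ`. -/
theorem lam_inv_sqrt {τ : ℝ} (h0 : 0 < τ) (h1 : τ ≤ 1 / 2) (A L : ℝ)
    (hp : ∀ s : ℝ, |s| ≤ τ → 0 < A + L * (1 / 2 + s) ^ 2) :
    ∫⁻ s, ENNReal.ofReal (1 / Real.sqrt (A + L * (1 / 2 + s) ^ 2)) ∂(lam τ)
      = ENNReal.ofReal (2 / (Real.sqrt (A + L * (1 / 2 + τ) ^ 2)
        + Real.sqrt (A + L * (1 / 2 - τ) ^ 2))) := by
  have hpos : ∀ s ∈ Set.Icc (-τ) τ, 0 < Real.sqrt (A + L * (1 / 2 + s) ^ 2) :=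
    fun s hs => Real.sqrt_pos.2 (hp s (J1_abs hs))
  have hcont : ContinuousOn (fun s : ℝ => 1 / Real.sqrt (A + L * (1 / 2 + s) ^ 2))
      (Set.Icc (-τ) τ) :=
    ContinuousOn.div continuousOn_const (Continuous.continuousOn (by fun_prop))
      (fun s hs => (hpos s hs).ne')
  have hm : Measurable (fun s : ℝ => 1 / Real.sqrt (A + L * (1 / 2 + s) ^ 2)) := by fun_prop
  have hnn : ∀ s ∈ Set.Icc (-τ) τ, 0 ≤ 1 / Real.sqrt (A + L * (1 / 2 + s) ^ 2) :=
    fun s hs => (div_pos one_pos (hpos s hs)).le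
  have hτ : τ ∈ Set.Icc (-τ) τ := ⟨by linarith, le_refl _⟩
  have hτ' : -τ ∈ Set.Icc (-τ) τ := ⟨le_refl _, by linarith⟩
  have hx := hpos τ hτ
  have hy := hpos (-τ) hτ'
  have hxx := Real.mul_self_sqrt (hp τ (J1_abs hτ)).le
  have hyy := Real.mul_self_sqrt (hp (-τ) (J1_abs hτ')).le
  rw [show (1 / 2 + -τ : ℝ) = 1 / 2 - τ by ring] at hy hyy
  by_cases hL : L = 0
  · subst hL
    rw [(J1_key h0 h1 (fun s : ℝ => 1 / Real.sqrt (A + 0 * (1 / 2 + s) ^ 2))
      (fun s => (s / 2 + s ^ 2 / 2) / τ * (1 / Real.sqrt A)) hm hcont hnn (fun s _ => by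
        have h2 := ((((hasDerivAt_id s).div_const 2).add
          ((hasDerivAt_pow 2 s).div_const 2)).div_const τ).mul_const (1 / Real.sqrt A)
        refine h2.congr_deriv ?_
        simp)).1]
    congr 1
    simp only [zero_mul, add_zero] at hx ⊢
    field_simp
    ring
  · rw [(J1_key h0 h1 (fun s : ℝ => 1 / Real.sqrt (A + L * (1 / 2 + s) ^ 2))
      (fun s => Real.sqrt (A + L * (1 / 2 + s) ^ 2) / (L * τ)) hm hcont hnn (fun s hs => by
        have h2 : HasDerivAt (fun s : ℝ => A + L * (1 / 2 + s) ^ 2)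
            (L * (2 * (1 / 2 + s))) s := by
          have h3 := ((((hasDerivAt_id s).const_add (1 / 2)).pow 2).const_mul L).const_add A
          refine h3.congr_deriv ?_
          simp
        have h4 := (h2.sqrt (hp s (J1_abs hs)).ne').div_const (L * τ)
        refine h4.congr_deriv ?_
        have := hpos s hs
        field_simp)).1]
    congr 1
    rw [show (1 / 2 + -τ : ℝ) = 1 / 2 - τ by ring, ← sub_div, div_eq_div_iff (by positivity)
      (by positivity)]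
    nlinarith [hxx, hyy]

/-- `∫ 1/c = 2` -/
theorem lam_inv {τ : ℝ} (h0 : 0 < τ) (h1 : τ < 1 / 2) :
    ∫⁻ s, ENNReal.ofReal (1 / (1 / 2 + s)) ∂(lam τ) = 2 := by
  have hpos : ∀ s ∈ Set.Icc (-τ) τ, 0 < 1 / 2 + s := fun s hs => by linarith [hs.1]
  rw [(J1_key h0 h1.le (fun s : ℝ => 1 / (1 / 2 + s)) (fun s => s / τ) (by fun_prop)
    (ContinuousOn.div continuousOn_const (Continuous.continuousOn (by fun_prop))
      (fun s hs => (hpos s hs).ne'))
    (fun s hs => (div_pos one_pos (hpos s hs)).le) (fun s hs => by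
      refine ((hasDerivAt_id s).div_const τ).congr_deriv ?_
      rw [div_mul_div_comm, mul_one, mul_comm τ, ← div_div, div_self (hpos s hs).ne'])).1]
  rw [show τ / τ - -τ / τ = 2 by field_simp; norm_num]
  norm_num

/-- **J4.** Two independent digits. With `F(x,y) = (A + L x² + M y²)^(3/2)`, `c± = 1/2 ± τ`:
the double integral is `(F(c₊,c₊) - F(c₊,c₋) - F(c₋,c₊) + F(c₋,c₋)) / (3 L M τ²)` (integrate
`(c₂/τ)(A+L c₁²+M c₂²)^(-1/2)`, then `(c₁/τ)(…)^(1/2)`). Here `x * √x` is written for `x^(3/2)`. -/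
theorem lam_inv_sqrt_two {τ : ℝ} (h0 : 0 < τ) (h1 : τ < 1 / 2) (A L M : ℝ) (hL : L ≠ 0)
    (hM : M ≠ 0)
    (hp : ∀ s t : ℝ, |s| ≤ τ → |t| ≤ τ → 0 < A + L * (1 / 2 + s) ^ 2 + M * (1 / 2 + t) ^ 2)
    (F : ℝ → ℝ → ℝ) (hF : ∀ x y, F x y = (A + L * x ^ 2 + M * y ^ 2)
      * Real.sqrt (A + L * x ^ 2 + M * y ^ 2)) :
    ∫⁻ q, ENNReal.ofReal (1 / Real.sqrt (A + L * (1 / 2 + q.1) ^ 2 + M * (1 / 2 + q.2) ^ 2))
        ∂((lam τ).prod (lam τ))
      = ENNReal.ofReal ((F (1 / 2 + τ) (1 / 2 + τ) - F (1 / 2 + τ) (1 / 2 - τ)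
        - F (1 / 2 - τ) (1 / 2 + τ) + F (1 / 2 - τ) (1 / 2 - τ)) / (3 * L * M * τ ^ 2)) := by
  have hprob := lam_prob h0 h1.le
  have hmeas : Measurable (fun q : ℝ × ℝ => ENNReal.ofReal
      (1 / Real.sqrt (A + L * (1 / 2 + q.1) ^ 2 + M * (1 / 2 + q.2) ^ 2))) := by fun_prop
  rw [lintegral_prod _ hmeas.aemeasurable]
  have hτ : |τ| ≤ τ := by rw [abs_of_pos h0]
  have hτ' : |(-τ)| ≤ τ := by rw [abs_neg, abs_of_pos h0]
  have hP : ∀ s : ℝ, |s| ≤ τ → 0 < A + L * (1 / 2 + s) ^ 2 + M * (1 / 2 + τ) ^ 2 :=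
    fun s hs => hp s τ hs hτ
  have hQ : ∀ s : ℝ, |s| ≤ τ → 0 < A + L * (1 / 2 + s) ^ 2 + M * (1 / 2 - τ) ^ 2 := by
    intro s hs
    have := hp s (-τ) hs hτ'
    rwa [show (1 / 2 + -τ : ℝ) = 1 / 2 - τ by ring] at this
  have e : ∫⁻ s, (∫⁻ t, ENNReal.ofReal (1 / Real.sqrt (A + L * (1 / 2 + (s, t).1) ^ 2
      + M * (1 / 2 + (s, t).2) ^ 2)) ∂(lam τ)) ∂(lam τ)
      = ∫⁻ s, ENNReal.ofReal (2 / (Real.sqrt (A + L * (1 / 2 + s) ^ 2 + M * (1 / 2 + τ) ^ 2)
        + Real.sqrt (A + L * (1 / 2 + s) ^ 2 + M * (1 / 2 - τ) ^ 2))) ∂(lam τ) := by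
    refine lintegral_congr_ae ?_
    filter_upwards [lam_ae τ] with s hs
    exact lam_inv_sqrt h0 h1.le (A + L * (1 / 2 + s) ^ 2) M (fun t ht => hp s t hs ht)
  rw [e]
  have hsP : ∀ s ∈ Set.Icc (-τ) τ,
      0 < Real.sqrt (A + L * (1 / 2 + s) ^ 2 + M * (1 / 2 + τ) ^ 2) :=
    fun s hs => Real.sqrt_pos.2 (hP s (J1_abs hs))
  have hsQ : ∀ s ∈ Set.Icc (-τ) τ,
      0 < Real.sqrt (A + L * (1 / 2 + s) ^ 2 + M * (1 / 2 - τ) ^ 2) :=
    fun s hs => Real.sqrt_pos.2 (hQ s (J1_abs hs))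
  have hder : ∀ (k s : ℝ), 0 < A + L * (1 / 2 + s) ^ 2 + M * k ^ 2 →
      HasDerivAt (fun s : ℝ => (A + L * (1 / 2 + s) ^ 2 + M * k ^ 2)
        * Real.sqrt (A + L * (1 / 2 + s) ^ 2 + M * k ^ 2))
        (3 * L * (1 / 2 + s) * Real.sqrt (A + L * (1 / 2 + s) ^ 2 + M * k ^ 2)) s := by
    intro k s hs
    have h2 : HasDerivAt (fun s : ℝ => A + L * (1 / 2 + s) ^ 2 + M * k ^ 2)
        (L * (2 * (1 / 2 + s))) s := by
      have h3 := (((((hasDerivAt_id s).const_add (1 / 2)).pow 2).const_mul L).const_add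
        A).add_const (M * k ^ 2)
      refine h3.congr_deriv ?_
      simp
    have h4 := h2.mul (h2.sqrt hs.ne')
    refine h4.congr_deriv ?_
    have h5 := Real.sqrt_pos.2 hs
    have h6 := Real.mul_self_sqrt hs.le
    exact J1_alg _ _ _ _ h5 h6
  rw [(J1_key h0 h1.le (fun s : ℝ =>
      2 / (Real.sqrt (A + L * (1 / 2 + s) ^ 2 + M * (1 / 2 + τ) ^ 2)
        + Real.sqrt (A + L * (1 / 2 + s) ^ 2 + M * (1 / 2 - τ) ^ 2)))
    (fun s => (F (1 / 2 + s) (1 / 2 + τ) - F (1 / 2 + s) (1 / 2 - τ)) / (3 * L * M * τ ^ 2))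
    (by fun_prop)
    (ContinuousOn.div continuousOn_const (Continuous.continuousOn (by fun_prop))
      (fun s hs => (add_pos (hsP s hs) (hsQ s hs)).ne'))
    (fun s hs => (div_pos two_pos (add_pos (hsP s hs) (hsQ s hs))).le) (fun s hs => by
      have h2 := ((hder (1 / 2 + τ) s (hP s (J1_abs hs))).sub
        (hder (1 / 2 - τ) s (hQ s (J1_abs hs)))).div_const (3 * L * M * τ ^ 2)
      have h3 := (h2.congr_deriv (g' := (1 / 2 + s) / τ *
        (2 / (Real.sqrt (A + L * (1 / 2 + s) ^ 2 + M * (1 / 2 + τ) ^ 2)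
        + Real.sqrt (A + L * (1 / 2 + s) ^ 2 + M * (1 / 2 - τ) ^ 2)))) ?_)
      · refine h3.congr_of_eventuallyEq (Filter.Eventually.of_forall fun r => ?_)
        simp only [hF, Pi.sub_apply]
      · have hx := hsP s hs
        have hy := hsQ s hs
        have hxx := Real.mul_self_sqrt (hP s (J1_abs hs)).le
        have hyy := Real.mul_self_sqrt (hQ s (J1_abs hs)).le
        set X := Real.sqrt (A + L * (1 / 2 + s) ^ 2 + M * (1 / 2 + τ) ^ 2) with hX
        set Y := Real.sqrt (A + L * (1 / 2 + s) ^ 2 + M * (1 / 2 - τ) ^ 2) with hY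
        have hXY : X * X - Y * Y = 2 * M * τ := by rw [hxx, hyy]; ring
        have hxy : X + Y ≠ 0 := (add_pos hx hy).ne'
        field_simp
        linear_combination (1 + 2 * s) * hXY)).1]
  congr 1
  rw [show (1 / 2 + -τ : ℝ) = 1 / 2 - τ by ring]
  ring

/-- probability of a half plane: the density is at most `((1/2+τ)/τ)²` and the triangle
`{s + t ≥ x}` has area `(2τ - x)²/2` for `0 ≤ x ≤ 2τ` -/
theorem lam_sum_tail {τ : ℝ} (h0 : 0 < τ) (h1 : τ < 1 / 2) (x : ℝ) (hx : 0 ≤ x)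
    (hx2 : x ≤ 2 * τ) :
    ((lam τ).prod (lam τ)) {q | x ≤ q.1 + q.2}
      ≤ ENNReal.ofReal (((1 / 2 + τ) / τ) ^ 2 * ((2 * τ - x) ^ 2 / 2)) := by
  have hprob := lam_prob h0 h1.le
  have hK : 0 ≤ (1 / 2 + τ) / τ := by positivity
  have hms : MeasurableSet {q : ℝ × ℝ | x ≤ q.1 + q.2} := measurableSet_le (by fun_prop)
    (by fun_prop)
  rw [Measure.prod_apply hms]
  calc ∫⁻ s, (lam τ) (Prod.mk s ⁻¹' {q : ℝ × ℝ | x ≤ q.1 + q.2}) ∂(lam τ)
      ≤ ∫⁻ s, ENNReal.ofReal ((1 / 2 + τ) / τ * (τ - (x - s))) ∂(lam τ) := by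
        refine lintegral_mono fun s => ?_
        have e : Prod.mk s ⁻¹' {q : ℝ × ℝ | x ≤ q.1 + q.2} = Set.Ici (x - s) := by
          ext t
          simp only [Set.mem_preimage, Set.mem_setOf_eq, Set.mem_Ici]
          constructor <;> intro h <;> linarith
        rw [e]
        exact J1_lam_Ici h0 h1 (x - s)
    _ = ∫⁻ s in Set.Icc (-τ) τ, ENNReal.ofReal ((1 / 2 + s) / τ)
          * ENNReal.ofReal ((1 / 2 + τ) / τ * (τ - (x - s))) := J1_lint τ _ (by fun_prop)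
    _ ≤ ∫⁻ s in Set.Icc (-τ) τ, ENNReal.ofReal (((1 / 2 + τ) / τ) ^ 2 * (τ - (x - s))) := by
        refine setLIntegral_mono (by fun_prop) ?_
        intro s hs
        have h2 : ENNReal.ofReal ((1 / 2 + s) / τ) ≤ ENNReal.ofReal ((1 / 2 + τ) / τ) := by
          apply ENNReal.ofReal_le_ofReal
          gcongr
          exact hs.2
        calc _ ≤ ENNReal.ofReal ((1 / 2 + τ) / τ)
              * ENNReal.ofReal ((1 / 2 + τ) / τ * (τ - (x - s))) := by gcongr
          _ = _ := by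
              rw [← ENNReal.ofReal_mul hK]
              congr 1
              ring
    _ ≤ ∫⁻ s in Set.Iio (x - τ) ∪ Set.Icc (x - τ) τ,
          ENNReal.ofReal (((1 / 2 + τ) / τ) ^ 2 * (τ - (x - s))) := by
        refine lintegral_mono_set ?_
        intro s hs
        rcases lt_or_ge s (x - τ) with h | h
        · exact Or.inl h
        · exact Or.inr ⟨h, hs.2⟩
    _ ≤ (∫⁻ s in Set.Iio (x - τ), ENNReal.ofReal (((1 / 2 + τ) / τ) ^ 2 * (τ - (x - s))))
        + ∫⁻ s in Set.Icc (x - τ) τ, ENNReal.ofReal (((1 / 2 + τ) / τ) ^ 2 * (τ - (x - s))) :=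
        lintegral_union_le _ _ _
    _ = 0 + ENNReal.ofReal (((1 / 2 + τ) / τ) ^ 2 * ((2 * τ - x) ^ 2 / 2)) := by
        congr 1
        · rw [setLIntegral_congr_fun (g := fun _ => 0) measurableSet_Iio]
          · simp
          · intro s hs
            apply ENNReal.ofReal_of_nonpos
            have : τ - (x - s) ≤ 0 := by linarith [Set.mem_Iio.1 hs]
            exact mul_nonpos_of_nonneg_of_nonpos (by positivity) this
        · rw [(J1_ftc (by linarith : x - τ ≤ τ)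
            (fun s => ((1 / 2 + τ) / τ) ^ 2 * (τ - (x - s)))
            (fun s => ((1 / 2 + τ) / τ) ^ 2 * ((τ - x + s) ^ 2 / 2))
            (Continuous.continuousOn (by fun_prop))
            (fun s hs => mul_nonneg (by positivity) (by linarith [hs.1])) (fun s _ => by
              have h3 := ((((hasDerivAt_id s).const_add (τ - x)).pow 2).div_const 2).const_mul
                (((1 / 2 + τ) / τ) ^ 2)
              refine h3.congr_deriv ?_
              simp only [id, Nat.cast_ofNat, Nat.add_one_sub_one, pow_one, mul_one]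
              ring)).1]
          congr 1
          ring
    _ = _ := by rw [zero_add]

/-- tail of one digit: `∫_x^τ (1/2+s)/τ = ((τ-x)/2 + (τ²-x²)/2)/τ` -/
theorem lam_tail {τ : ℝ} (h0 : 0 < τ) (h1 : τ < 1 / 2) (x : ℝ) (hx : -τ ≤ x) (hx2 : x ≤ τ) :
    (lam τ) {s | x ≤ s} = ENNReal.ofReal (((τ - x) / 2 + (τ ^ 2 - x ^ 2) / 2) / τ) := by
  have hset : {s : ℝ | x ≤ s} = Set.Ici x := rfl
  unfold lam
  rw [hset, withDensity_apply _ measurableSet_Ici, Measure.restrict_restrict measurableSet_Ici]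
  have e : Set.Ici x ∩ Set.Icc (-τ) τ = Set.Icc x τ := by
    ext s
    simp only [Set.mem_inter_iff, Set.mem_Ici, Set.mem_Icc]
    constructor
    · rintro ⟨a, b, c⟩
      exact ⟨a, c⟩
    · rintro ⟨a, b⟩
      exact ⟨a, hx.trans a, b⟩
  rw [e, (J1_ftc hx2 (fun s => (1 / 2 + s) / τ) (fun s => (s / 2 + s ^ 2 / 2) / τ)
    (Continuous.continuousOn (by fun_prop))
    (fun s hs => div_nonneg (by linarith [hs.1]) h0.le) (fun s _ => by
      have h2 := (((hasDerivAt_id s).div_const 2).add ((hasDerivAt_pow 2 s).div_const 2)).div_const τ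
      refine h2.congr_deriv ?_
      simp)).1]
  congr 1
  ring

/-- **J5.** The coordinate of an element of a pair is uniform on `[-1,1]`: for `η = 1` the interval
is `[-2s, 1]`, for `η = -1` it is `[-1, 2s]`, both with load `1/c`; the factor `c` of the density
cancels and `|{s : s ≥ -z/2}| + |{s : s ≥ z/2}| = 2τ` (within `[-τ,τ]`). -/
theorem digit_single {τ : ℝ} (h0 : 0 < τ) (h1 : τ < 1 / 2) (z : ℝ) :
    ∫⁻ q, ker (q.2 * (1 / 2 - q.1)) (1 / 2 + q.1) z ∂((lam τ).prod sgnM)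
      ≤ if |z| ≤ 1 then 1 else 0 := by
  have hprob := lam_prob h0 h1.le
  have hprob2 := sgnM_prob
  rw [lintegral_prod _ (J1_ker_meas z).aemeasurable]
  have hm1 : Measurable (fun s : ℝ => ker (1 * (1 / 2 - s)) (1 / 2 + s) z) :=
    (J1_ker_meas z).comp (measurable_id.prodMk measurable_const)
  have hm2 : Measurable (fun s : ℝ => ker (-1 * (1 / 2 - s)) (1 / 2 + s) z) :=
    (J1_ker_meas z).comp (measurable_id.prodMk measurable_const)
  have e1 : ∀ s : ℝ, ∫⁻ η, ker ((s, η).2 * (1 / 2 - (s, η).1)) (1 / 2 + (s, η).1) z ∂sgnM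
      = (ker (1 * (1 / 2 - s)) (1 / 2 + s) z + ker (-1 * (1 / 2 - s)) (1 / 2 + s) z) / 2 :=
    fun s => lintegral_sgnM (fun η => ker (η * (1 / 2 - s)) (1 / 2 + s) z)
      ((J1_ker_meas z).comp (measurable_const.prodMk measurable_id))
  simp_rw [e1]
  have hm3 : Measurable (fun s : ℝ => (ker (1 * (1 / 2 - s)) (1 / 2 + s) z
      + ker (-1 * (1 / 2 - s)) (1 / 2 + s) z) / 2) := (hm1.add hm2).div_const 2
  rw [J1_lint τ _ hm3]
  have hS1 : MeasurableSet (Set.Ici (-z / 2)) := measurableSet_Ici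
  have hS2 : MeasurableSet (Set.Ici (z / 2)) := measurableSet_Ici
  have hb : ∀ s ∈ Set.Icc (-τ) τ, ENNReal.ofReal ((1 / 2 + s) / τ)
      * ((ker (1 * (1 / 2 - s)) (1 / 2 + s) z + ker (-1 * (1 / 2 - s)) (1 / 2 + s) z) / 2)
      ≤ (if |z| ≤ 1 then 1 else 0) * (ENNReal.ofReal (1 / τ) / 2
        * ((Set.Ici (-z / 2)).indicator (fun _ => 1) s
          + (Set.Ici (z / 2)).indicator (fun _ => 1) s)) := by
    intro s hs
    have hc : 0 < 1 / 2 + s := by linarith [hs.1]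
    have hr : ENNReal.ofReal ((1 / 2 + s) / τ) * ENNReal.ofReal (1 / (1 / 2 + s))
        = ENNReal.ofReal (1 / τ) := by
      rw [← ENNReal.ofReal_mul (by positivity)]
      congr 1
      rw [div_mul_div_comm, mul_one, mul_comm τ, ← div_div, div_self hc.ne']
    have k1 : ker (1 * (1 / 2 - s)) (1 / 2 + s) z ≤ (if |z| ≤ 1 then 1 else 0)
        * (ENNReal.ofReal (1 / (1 / 2 + s)) * (Set.Ici (-z / 2)).indicator (fun _ => 1) s) := by
      unfold ker
      split_ifs with h2 h3 h3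
      · rw [abs_le] at h2
        rw [Set.indicator_of_mem (by
          simp only [Set.mem_Ici]
          linarith [h2.1]), one_mul, mul_one]
      · exfalso
        apply h3
        rw [abs_le] at h2 ⊢
        have := hs.2
        constructor <;> linarith [h2.1, h2.2]
      · exact zero_le'
      · exact zero_le'
    have k2 : ker (-1 * (1 / 2 - s)) (1 / 2 + s) z ≤ (if |z| ≤ 1 then 1 else 0)
        * (ENNReal.ofReal (1 / (1 / 2 + s)) * (Set.Ici (z / 2)).indicator (fun _ => 1) s) := by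
      unfold ker
      split_ifs with h2 h3 h3
      · rw [abs_le] at h2
        rw [Set.indicator_of_mem (by
          simp only [Set.mem_Ici]
          linarith [h2.2]), one_mul, mul_one]
      · exfalso
        apply h3
        rw [abs_le] at h2 ⊢
        have := hs.2
        constructor <;> linarith [h2.1, h2.2]
      · exact zero_le'
      · exact zero_le'
    calc _ ≤ ENNReal.ofReal ((1 / 2 + s) / τ)
          * (((if |z| ≤ 1 then 1 else 0)
            * (ENNReal.ofReal (1 / (1 / 2 + s)) * (Set.Ici (-z / 2)).indicator (fun _ => 1) s)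
            + (if |z| ≤ 1 then 1 else 0)
            * (ENNReal.ofReal (1 / (1 / 2 + s)) * (Set.Ici (z / 2)).indicator (fun _ => 1) s))
            / 2) := by gcongr
      _ = (if |z| ≤ 1 then 1 else 0) * ((ENNReal.ofReal ((1 / 2 + s) / τ)
          * ENNReal.ofReal (1 / (1 / 2 + s))) / 2
        * ((Set.Ici (-z / 2)).indicator (fun _ => 1) s
          + (Set.Ici (z / 2)).indicator (fun _ => 1) s)) := by
          simp only [div_eq_mul_inv]
          ring
      _ = _ := by rw [hr]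
  refine (setLIntegral_mono' measurableSet_Icc hb).trans ?_
  rw [lintegral_const_mul' _ _ (by split_ifs <;> simp)]
  refine (?_ : _ ≤ (if |z| ≤ 1 then 1 else 0) * (1 : ℝ≥0∞)).trans (by rw [mul_one])
  gcongr
  rw [lintegral_const_mul' _ _ (ENNReal.div_ne_top ENNReal.ofReal_ne_top two_ne_zero),
    lintegral_add_left (measurable_const.indicator measurableSet_Ici), J1_vol2, J1_vol2]
  calc _ ≤ ENNReal.ofReal (1 / τ) / 2 * ENNReal.ofReal (2 * τ) := by
        gcongr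
        exact J1_sum h0 z
    _ = 1 := by
        rw [ENNReal.mul_div_right_comm.symm, ← ENNReal.ofReal_mul (by positivity)]
        rw [show 1 / τ * (2 * τ) = 2 by field_simp, ENNReal.ofReal_ofNat]
        exact ENNReal.div_self two_ne_zero ENNReal.ofNat_ne_top

/-- **J6.** Law of `b η (1 - 2s)`, `b ≠ 0` an integer: load `≤ (1/2+τ)/(2τ) / |b|`. -/
theorem digit_closure {τ : ℝ} (h0 : 0 < τ) (h1 : τ < 1 / 2) (b : ℤ) (hb : b ≠ 0) :
    HasLoad (((lam τ).prod sgnM).map (fun q => (b : ℝ) * (q.2 * (1 - 2 * q.1))))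
      (fun _ => ENNReal.ofReal ((1 / 2 + τ) / (2 * τ) / |(b : ℝ)|)) := by
  have hprob := lam_prob h0 h1.le
  have hprob2 := sgnM_prob
  have hbr : (b : ℝ) ≠ 0 := by exact_mod_cast hb
  have hba : 0 < |(b : ℝ)| := abs_pos.2 hbr
  have hK : 0 ≤ (1 / 2 + τ) / τ := by positivity
  unfold HasLoad
  refine Measure.le_iff.2 fun S hS => ?_
  have hmq : Measurable (fun q : ℝ × ℝ => (b : ℝ) * (q.2 * (1 - 2 * q.1))) := by fun_prop
  rw [Measure.map_apply hmq hS, withDensity_apply _ hS, setLIntegral_const]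
  have hmT : MeasurableSet ((fun q : ℝ × ℝ => (b : ℝ) * (q.2 * (1 - 2 * q.1))) ⁻¹' S) := hmq hS
  rw [← lintegral_indicator_one hmT, lintegral_prod _ (measurable_one.indicator hmT).aemeasurable]
  have hg1 : Measurable (fun s : ℝ => (b : ℝ) * (1 - 2 * s)) := by fun_prop
  have hg2 : Measurable (fun s : ℝ => (-(b : ℝ)) * (1 - 2 * s)) := by fun_prop
  have e1 : ∀ s : ℝ, ∫⁻ η, ((fun q : ℝ × ℝ => (b : ℝ) * (q.2 * (1 - 2 * q.1))) ⁻¹' S).indicator
      (1 : ℝ × ℝ → ℝ≥0∞) (s, η) ∂sgnM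
      = (S.indicator 1 ((b : ℝ) * (1 - 2 * s)) + S.indicator 1 ((-(b : ℝ)) * (1 - 2 * s))) / 2 := by
    intro s
    have := lintegral_sgnM (fun η => S.indicator (1 : ℝ → ℝ≥0∞) ((b : ℝ) * (η * (1 - 2 * s))))
      ((measurable_one.indicator hS).comp (by fun_prop))
    rw [show (b : ℝ) * (1 * (1 - 2 * s)) = (b : ℝ) * (1 - 2 * s) by ring,
      show (b : ℝ) * (-1 * (1 - 2 * s)) = (-(b : ℝ)) * (1 - 2 * s) by ring] at this
    exact this
  simp_rw [e1]
  have hm3 : Measurable (fun s : ℝ => (S.indicator (1 : ℝ → ℝ≥0∞) ((b : ℝ) * (1 - 2 * s))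
      + S.indicator 1 ((-(b : ℝ)) * (1 - 2 * s))) / 2) :=
    (((measurable_one.indicator hS).comp hg1).add ((measurable_one.indicator hS).comp hg2)).div_const 2
  rw [J1_lint τ _ hm3]
  have hT1 : MeasurableSet (S ∩ {w | 0 < (b : ℝ) * w}) :=
    hS.inter (measurableSet_lt measurable_const (by fun_prop))
  have hT2 : MeasurableSet (S \ {w | 0 < (b : ℝ) * w}) :=
    hS.diff (measurableSet_lt measurable_const (by fun_prop))
  calc ∫⁻ s in Set.Icc (-τ) τ, ENNReal.ofReal ((1 / 2 + s) / τ)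
        * ((S.indicator 1 ((b : ℝ) * (1 - 2 * s)) + S.indicator 1 ((-(b : ℝ)) * (1 - 2 * s))) / 2)
      ≤ ∫⁻ s in Set.Icc (-τ) τ, ENNReal.ofReal ((1 / 2 + τ) / τ) / 2
        * (((fun s : ℝ => (b : ℝ) * (1 - 2 * s)) ⁻¹' (S ∩ {w | 0 < (b : ℝ) * w})).indicator
            (1 : ℝ → ℝ≥0∞) s
          + ((fun s : ℝ => (-(b : ℝ)) * (1 - 2 * s)) ⁻¹' (S \ {w | 0 < (b : ℝ) * w})).indicator
            (1 : ℝ → ℝ≥0∞) s) := by
        refine setLIntegral_mono' measurableSet_Icc ?_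
        intro s hs
        have hpos : 0 < 1 - 2 * s := by linarith [hs.2]
        have h2 : ENNReal.ofReal ((1 / 2 + s) / τ) ≤ ENNReal.ofReal ((1 / 2 + τ) / τ) := by
          apply ENNReal.ofReal_le_ofReal
          gcongr
          exact hs.2
        have h3 : S.indicator (1 : ℝ → ℝ≥0∞) ((b : ℝ) * (1 - 2 * s))
            = ((fun s : ℝ => (b : ℝ) * (1 - 2 * s)) ⁻¹' (S ∩ {w | 0 < (b : ℝ) * w})).indicator
            (1 : ℝ → ℝ≥0∞) s := by
          have h5 : 0 < (b : ℝ) * ((b : ℝ) * (1 - 2 * s)) := by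
            rw [← mul_assoc]
            exact mul_pos (mul_self_pos.2 hbr) hpos
          by_cases hw : (b : ℝ) * (1 - 2 * s) ∈ S
          · rw [Set.indicator_of_mem hw, Set.indicator_of_mem
              (show s ∈ (fun s : ℝ => (b : ℝ) * (1 - 2 * s)) ⁻¹' (S ∩ {w | 0 < (b : ℝ) * w}) from
                ⟨hw, h5⟩)]
            rfl
          · rw [Set.indicator_of_notMem hw, Set.indicator_of_notMem (fun h => hw h.1)]
        have h4 : S.indicator (1 : ℝ → ℝ≥0∞) ((-(b : ℝ)) * (1 - 2 * s))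
            = ((fun s : ℝ => (-(b : ℝ)) * (1 - 2 * s)) ⁻¹' (S \ {w | 0 < (b : ℝ) * w})).indicator
            (1 : ℝ → ℝ≥0∞) s := by
          have h5 : ¬ 0 < (b : ℝ) * (-(b : ℝ) * (1 - 2 * s)) := by
            have h5 := mul_pos (mul_self_pos.2 hbr) hpos
            have h6 : (b : ℝ) * (-(b : ℝ) * (1 - 2 * s)) = -((b : ℝ) * b * (1 - 2 * s)) := by ring
            rw [h6]
            linarith
          by_cases hw : (-(b : ℝ)) * (1 - 2 * s) ∈ S
          · rw [Set.indicator_of_mem hw, Set.indicator_of_mem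
              (show s ∈ (fun s : ℝ => (-(b : ℝ)) * (1 - 2 * s)) ⁻¹' (S \ {w | 0 < (b : ℝ) * w}) from
                ⟨hw, h5⟩)]
            rfl
          · rw [Set.indicator_of_notMem hw, Set.indicator_of_notMem (fun h => hw h.1)]
        rw [← h3, ← h4]
        calc _ ≤ ENNReal.ofReal ((1 / 2 + τ) / τ) * ((S.indicator 1 ((b : ℝ) * (1 - 2 * s))
              + S.indicator 1 ((-(b : ℝ)) * (1 - 2 * s))) / 2) := by gcongr
          _ = _ := by
              simp only [div_eq_mul_inv]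
              ring
    _ = ENNReal.ofReal ((1 / 2 + τ) / τ) / 2
        * ∫⁻ s in Set.Icc (-τ) τ,
          (((fun s : ℝ => (b : ℝ) * (1 - 2 * s)) ⁻¹' (S ∩ {w | 0 < (b : ℝ) * w})).indicator
            (1 : ℝ → ℝ≥0∞) s
          + ((fun s : ℝ => (-(b : ℝ)) * (1 - 2 * s)) ⁻¹' (S \ {w | 0 < (b : ℝ) * w})).indicator
            (1 : ℝ → ℝ≥0∞) s) :=
        lintegral_const_mul' _ _ (ENNReal.div_ne_top ENNReal.ofReal_ne_top two_ne_zero)
    _ ≤ ENNReal.ofReal ((1 / 2 + τ) / τ) / 2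
        * ∫⁻ s, (((fun s : ℝ => (b : ℝ) * (1 - 2 * s)) ⁻¹' (S ∩ {w | 0 < (b : ℝ) * w})).indicator
            (1 : ℝ → ℝ≥0∞) s
          + ((fun s : ℝ => (-(b : ℝ)) * (1 - 2 * s)) ⁻¹' (S \ {w | 0 < (b : ℝ) * w})).indicator
            (1 : ℝ → ℝ≥0∞) s) := by
        gcongr
        exact Measure.restrict_le_self
    _ = ENNReal.ofReal ((1 / 2 + τ) / τ) / 2
        * (ENNReal.ofReal (1 / (2 * |(b : ℝ)|)) * volume S) := by
        rw [lintegral_add_left (measurable_one.indicator (hg1 hT1)),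
          lintegral_indicator_one (hg1 hT1), lintegral_indicator_one (hg2 hT2),
          J1_vol _ hbr, J1_vol _ (neg_ne_zero.2 hbr), abs_neg, ← mul_add,
          measure_inter_add_sdiff S (measurableSet_lt measurable_const (by fun_prop))]
    _ = _ := by
        rw [← mul_assoc]
        congr 1
        rw [← ENNReal.mul_div_right_comm, ← ENNReal.ofReal_mul hK]
        congr 2
        field_simp

end Pool.Agent.helper49.Slope
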