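import Pool.Agent.helper49.Slope.D5a
import Pool.Agent.helper49.Slope.J1
import Pool.Agent.helper49.Slope.B4
import Pool.Agent.helper49.Slope.B7d

/-!
MP_aedd95_co (slope of k-fold hyperplane covers of triangular grids), module D5.
The law for N = 5.

PROOF. `exists_poly` with `Q = ℝ × ℝ`, `π = (lam (1/8)).prod sgnM`, `v5`, `d5` gives `μ`; symmetrise
(`exists_sym`). For a vector `u` write `L u z` for the load of `lin u` under `μ` (a function of `z`),
`c = 1/2 + s ∈ [3/8, 5/8]`, `c² ∈ [9/64, 25/64]`.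

(1) `u` nonconstant, not of type A (`Δ = 2, |p| = 1, |u₀-u₁| = 1`), not of type B (`Δ = 0`, `p = 0`,
`u₀ ≠ u₁`): `L u z ≤ 1`. By `class5`:
 * `Δ ≥ 6`: `V² ≥ 6 (1/2 - 2c²/9) = 3 - 4c²/3 ≥ 1`.
 * `Δ = 2, |p| ≥ 2`: `V² ≥ 4c²/9 + 1 - 4c²/9 = 1`.
 * `Δ = 2, |p| = 1, |u₀-u₁| ≥ 3`: `V² = 1 - c²/3 ∈ [0.86, 1)`, the centre is `±D` with
   `|D| ≥ 3 (1-c) ≥ 9/8 > V`, so the two intervals (`η = 1`, `η = -1`) are disjoint and, for each
   `z` and `s`, at most one sign covers `z`: `L ≤ E[1/(2V)] ≤ 1`.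
 * `Δ = 0`, `m = |2t - u₀ - u₁|`: `V = c m`. `m ≥ 2`: `L ≤ E[1/(m c)] = 2/m ≤ 1` (`lam_inv`).
   `m = 1`, `|u₀-u₁| ≥ 3` (it is odd): `|D| ≥ 3(1-c) ≥ 9/8 > c = V`: one sign at most:
   `L ≤ E[1/(2c)] = 1`. `m = 1`, `|u₀-u₁| = 1`: `{u₀,u₁} = {t, t ± 1}`: `u` is an affine single,
   `D = ±η(1-c)`, `V = c`: `digit_single` (the sign of `D` does not matter, as `η` is symmetric).
(2) For nonconstant `u` with no permutation `u ∘ σ` of type A or B all summands are `≤ 1`.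
(3) If some `u ∘ σ` has type A then (`class5`) `u = t + e 1_T`, `|T| = 2`, `e = ±1`. Of the 120
permutations, in 12 the set `T` sits at `{0,1}`: `m = 2`, `L ≤ 1`; in 72 one element of `T` is in
the pair: type A, `L ≤ E[1/√(1-c²/3)] = 2/(√(1 - 25/192) + √(1 - 9/192)) = 1.04772`; in 36 both
are units: `Δ = 2`, `|p| = 4`, `V² = 1 + 4c²/3`,
`E[1/V] = 2/(√(1+25/48) + √(1+9/48)) = 0.86098` (`lam_inv_sqrt`).
Sum: `(1 + 6·1.04773 + 3·0.861)/10 = 0.98694 ≤ 1`.
(4) If some `u ∘ σ` has type B then `u = t + b (e_i - e_j)`, `b ≠ 0`. As `∑ y = 0`, `lin u = b lin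
(e_i - e_j)`: all the loads get the factor `1/|b| ≤ 1`. In 12 permutations `{i,j} = {0,1}`: the
law is that of `±b η (1-2s)`, load `≤ 5/2` (`digit_closure`; use the third clause of
`exists_poly`); in 72 exactly one is in the pair: `Δ = 2b²`, `|p| = 5|b|`,
`V² = b² (1 + 21c²/9) ≥ b² · 1.328`, load `≤ 0.868`; in 36 both are units: `Δ = 6b²`, `p = 0`,
`V² = b² (3 - 4c²/3) ≥ 2.47 b²`, load `≤ 0.637`. Sum: `(2.5 + 6·0.868 + 3·0.637)/10 = 0.962 ≤ 1`.
In (3) the number of permutations can be obtained from `Finset.card` computations by `decide`, or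
from the symmetry, or by writing `∑_σ` as a sum over `(σ 0, σ 1)`.
-/

set_option autoImplicit false

open MeasureTheory ProbabilityTheory
open scoped ENNReal

namespace Pool.Agent.helper49.Slope

/-! ### the parameter measure -/

/-- the parameter measure -/
noncomputable def D5pi : Measure (ℝ × ℝ) := (lam (1 / 8)).prod sgnM

theorem D5_lam_prob : IsProbabilityMeasure (lam (1 / 8)) :=
  lam_prob (by norm_num) (by norm_num)

theorem D5_prob : IsProbabilityMeasure D5pi := by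
  have := D5_lam_prob
  have := sgnM_prob
  unfold D5pi
  infer_instance

theorem D5_ae : ∀ᵐ q ∂D5pi, |q.1| ≤ 1 / 8 ∧ (q.2 = 1 ∨ q.2 = -1) := by
  have := D5_lam_prob
  have := sgnM_prob
  have h1 : ∀ᵐ q ∂D5pi, |q.1| ≤ 1 / 8 :=
    (Measure.quasiMeasurePreserving_fst (μ := lam (1 / 8)) (ν := sgnM)).ae (lam_ae (1 / 8))
  have h2 : ∀ᵐ q ∂D5pi, (q.2 = 1 ∨ q.2 = -1) :=
    (Measure.quasiMeasurePreserving_snd (μ := lam (1 / 8)) (ν := sgnM)).ae sgnM_ae
  filter_upwards [h1, h2] with q hq1 hq2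
  exact ⟨hq1, hq2⟩

theorem D5_fst (f : ℝ → ℝ≥0∞) (hf : Measurable f) :
    ∫⁻ q, f q.1 ∂D5pi = ∫⁻ s, f s ∂(lam (1 / 8)) := by
  have := D5_lam_prob
  have := sgnM_prob
  unfold D5pi
  exact (measurePreserving_fst (μ := lam (1 / 8)) (ν := sgnM)).lintegral_comp hf

theorem D5_vsq (q : ℝ × ℝ) (h : |q.1| ≤ 1 / 8) (w : Fin 5 → ℤ) :
    vsq (v5 q) w = (del5 w : ℝ) / 2 + ((p5 w : ℝ) ^ 2 - 2 * del5 w) / 9 * (1 / 2 + q.1) ^ 2 := by
  rw [vsq_v5 q h]
  ring

theorem D5_sq_bd {s : ℝ} (hs : |s| ≤ 1 / 8) :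
    9 / 64 ≤ (1 / 2 + s) ^ 2 ∧ (1 / 2 + s) ^ 2 ≤ 25 / 64 := by
  rw [abs_le] at hs
  constructor <;> nlinarith

theorem D5_pos {A L x y s : ℝ} (hx : 0 < x) (hy : 0 < y) (hx2 : x ^ 2 ≤ A + L * (25 / 64))
    (hy2 : y ^ 2 ≤ A + L * (9 / 64)) (hs : |s| ≤ 1 / 8) : 0 < A + L * (1 / 2 + s) ^ 2 := by
  obtain ⟨h1, h2⟩ := D5_sq_bd hs
  have hx' : 0 < x ^ 2 := by positivity
  have hy' : 0 < y ^ 2 := by positivity
  rcases le_total 0 L with hL | hL
  · have := mul_le_mul_of_nonneg_left h1 hL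
    linarith
  · have := mul_le_mul_of_nonpos_left h2 hL
    linarith

theorem D5_int {A L x y : ℝ} (hx : 0 < x) (hy : 0 < y) (hx2 : x ^ 2 ≤ A + L * (25 / 64))
    (hy2 : y ^ 2 ≤ A + L * (9 / 64)) :
    ∫⁻ s, ENNReal.ofReal (1 / Real.sqrt (A + L * (1 / 2 + s) ^ 2)) ∂(lam (1 / 8)) ≤
      ENNReal.ofReal (2 / (x + y)) := by
  rw [lam_inv_sqrt (by norm_num) (by norm_num) A L (fun s hs => D5_pos hx hy hx2 hy2 hs)]
  refine ENNReal.ofReal_le_ofReal ?_
  have h1 : x ≤ Real.sqrt (A + L * (1 / 2 + 1 / 8) ^ 2) := by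
    refine Real.le_sqrt_of_sq_le ?_
    have e : ((1 : ℝ) / 2 + 1 / 8) ^ 2 = 25 / 64 := by norm_num
    rw [e]
    exact hx2
  have h2 : y ≤ Real.sqrt (A + L * (1 / 2 - 1 / 8) ^ 2) := by
    refine Real.le_sqrt_of_sq_le ?_
    have e : ((1 : ℝ) / 2 - 1 / 8) ^ 2 = 9 / 64 := by norm_num
    rw [e]
    exact hy2
  gcongr

theorem D5_ker_le (D V z : ℝ) : ker D V z ≤ ENNReal.ofReal (1 / V) := by
  unfold ker
  split_ifs
  · exact le_refl _
  · exact zero_le

theorem D5_meas_inv (A L : ℝ) :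
    Measurable (fun s : ℝ => ENNReal.ofReal (1 / Real.sqrt (A + L * (1 / 2 + s) ^ 2))) := by
  refine ENNReal.measurable_ofReal.comp ?_
  refine measurable_const.div ?_
  refine Measurable.sqrt ?_
  fun_prop

/-- hypothesis on the law -/
def D5L (μ : Measure (Fin 5 → ℝ)) : Prop :=
  ∀ u : Fin 5 → ℤ, (∀ᵐ q ∂D5pi, 0 < vsq (v5 q) u) →
    HasLoad (μ.map (lin u))
      (fun z => ∫⁻ q, ker (∑ i, (u i : ℝ) * d5 q i) (Real.sqrt (vsq (v5 q) u)) z ∂D5pi)

/-- general bound -/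
theorem D5_gen {μ : Measure (Fin 5 → ℝ)} (hL : D5L μ) (w : Fin 5 → ℤ) (x y g : ℝ) (hx : 0 < x)
    (hy : 0 < y)
    (hx2 : x ^ 2 ≤ (del5 w : ℝ) / 2 + ((p5 w : ℝ) ^ 2 - 2 * del5 w) / 9 * (25 / 64))
    (hy2 : y ^ 2 ≤ (del5 w : ℝ) / 2 + ((p5 w : ℝ) ^ 2 - 2 * del5 w) / 9 * (9 / 64))
    (hg : 2 ≤ g * (x + y)) :
    HasLoad (μ.map (lin w)) (fun _ => ENNReal.ofReal g) := by
  refine (hL w ?_).mono fun z => ?_
  · filter_upwards [D5_ae] with q hq
    rw [D5_vsq q hq.1 w]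
    exact D5_pos hx hy hx2 hy2 hq.1
  · calc ∫⁻ q, ker (∑ i, (w i : ℝ) * d5 q i) (Real.sqrt (vsq (v5 q) w)) z ∂D5pi
        ≤ ∫⁻ q, (fun s : ℝ => ENNReal.ofReal (1 / Real.sqrt ((del5 w : ℝ) / 2 +
            ((p5 w : ℝ) ^ 2 - 2 * del5 w) / 9 * (1 / 2 + s) ^ 2))) q.1 ∂D5pi := by
          refine lintegral_mono_ae ?_
          filter_upwards [D5_ae] with q hq
          rw [D5_vsq q hq.1 w]
          exact D5_ker_le _ _ _
      _ = _ := D5_fst _ (D5_meas_inv _ _)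
      _ ≤ ENNReal.ofReal (2 / (x + y)) := D5_int hx hy hx2 hy2
      _ ≤ ENNReal.ofReal g := by
          refine ENNReal.ofReal_le_ofReal ?_
          rw [div_le_iff₀ (by positivity)]
          exact hg

theorem D5_meas_ker (A L k z : ℝ) : Measurable (fun q : ℝ × ℝ =>
    ker (k * (q.2 * (1 / 2 - q.1))) (Real.sqrt (A + L * (1 / 2 + q.1) ^ 2)) z) := by
  have h := B4_measurable_ker (Q := ℝ × ℝ) (D := fun q => k * (q.2 * (1 / 2 - q.1)))
    (V := fun q => Real.sqrt (A + L * (1 / 2 + q.1) ^ 2)) (by fun_prop)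
    (by refine Measurable.sqrt ?_; fun_prop)
  exact h.comp (measurable_id.prodMk measurable_const)

theorem D5_ker_two {D V z : ℝ} (h : V < |D|) :
    ker D V z + ker (-D) V z ≤ ENNReal.ofReal (1 / V) := by
  unfold ker
  split_ifs with h1 h2 h2
  · exfalso
    have h3 : |D - -D| ≤ |z - D| + |z - -D| := by
      have : D - -D = -(z - D) + (z - -D) := by ring
      rw [this]
      exact (abs_add_le _ _).trans (by rw [abs_neg])
    have h4 : |D - -D| = 2 * |D| := by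
      have : D - -D = 2 * D := by ring
      rw [this, abs_mul, abs_of_pos (by norm_num : (0 : ℝ) < 2)]
    linarith
  · rw [add_zero]
  · rw [zero_add]
  · rw [add_zero]
    exact zero_le

/-- bound if the two intervals are disjoint -/
theorem D5_half {μ : Measure (Fin 5 → ℝ)} (hL : D5L μ) (w : Fin 5 → ℤ) (x y g : ℝ) (hx : 0 < x)
    (hy : 0 < y)
    (hx2 : x ^ 2 ≤ (del5 w : ℝ) / 2 + ((p5 w : ℝ) ^ 2 - 2 * del5 w) / 9 * (25 / 64))
    (hy2 : y ^ 2 ≤ (del5 w : ℝ) / 2 + ((p5 w : ℝ) ^ 2 - 2 * del5 w) / 9 * (9 / 64))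
    (hV : ∀ s : ℝ, |s| ≤ 1 / 8 →
      (del5 w : ℝ) / 2 + ((p5 w : ℝ) ^ 2 - 2 * del5 w) / 9 * (1 / 2 + s) ^ 2 ≤ 1)
    (h3 : 3 ≤ |w 0 - w 1|)
    (hg : 1 ≤ g * (x + y)) :
    HasLoad (μ.map (lin w)) (fun _ => ENNReal.ofReal g) := by
  have hp1 := D5_lam_prob
  have hp2 := sgnM_prob
  refine (hL w ?_).mono fun z => ?_
  · filter_upwards [D5_ae] with q hq
    rw [D5_vsq q hq.1 w]
    exact D5_pos hx hy hx2 hy2 hq.1
  · set A : ℝ := (del5 w : ℝ) / 2 with hA
    set L : ℝ := ((p5 w : ℝ) ^ 2 - 2 * del5 w) / 9 with hLdef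
    set k : ℝ := (w 0 : ℝ) - w 1 with hk
    have hk3 : 3 ≤ |k| := by
      rw [hk]
      exact_mod_cast h3
    calc ∫⁻ q, ker (∑ i, (w i : ℝ) * d5 q i) (Real.sqrt (vsq (v5 q) w)) z ∂D5pi
        = ∫⁻ q, ker (k * (q.2 * (1 / 2 - q.1))) (Real.sqrt (A + L * (1 / 2 + q.1) ^ 2)) z ∂D5pi := by
          refine lintegral_congr_ae ?_
          filter_upwards [D5_ae] with q hq
          rw [D5_vsq q hq.1 w, lin_d5]
      _ = ∫⁻ s, ∫⁻ η, ker (k * (η * (1 / 2 - s))) (Real.sqrt (A + L * (1 / 2 + s) ^ 2)) z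
            ∂sgnM ∂(lam (1 / 8)) := by
          unfold D5pi
          exact lintegral_prod _ (D5_meas_ker A L k z).aemeasurable
      _ = ∫⁻ s, (ker (k * (1 * (1 / 2 - s))) (Real.sqrt (A + L * (1 / 2 + s) ^ 2)) z +
            ker (k * ((-1) * (1 / 2 - s))) (Real.sqrt (A + L * (1 / 2 + s) ^ 2)) z) / 2
            ∂(lam (1 / 8)) := by
          refine lintegral_congr fun s => ?_
          exact lintegral_sgnM _ ((D5_meas_ker A L k z).comp (measurable_const.prodMk measurable_id))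
      _ ≤ ∫⁻ s, (2 : ℝ≥0∞)⁻¹ * ENNReal.ofReal (1 / Real.sqrt (A + L * (1 / 2 + s) ^ 2))
            ∂(lam (1 / 8)) := by
          refine lintegral_mono_ae ?_
          filter_upwards [lam_ae (1 / 8)] with s hs
          rw [ENNReal.div_eq_inv_mul]
          gcongr
          have e : k * ((-1) * (1 / 2 - s)) = -(k * (1 * (1 / 2 - s))) := by ring
          rw [e]
          refine D5_ker_two ?_
          have h1 : Real.sqrt (A + L * (1 / 2 + s) ^ 2) ≤ 1 := by
            rw [Real.sqrt_le_one]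
            exact hV s hs
          have h2 : (9 : ℝ) / 8 ≤ |k * (1 * (1 / 2 - s))| := by
            rw [one_mul, abs_mul]
            have h4 : 3 / 8 ≤ |1 / 2 - s| := by
              rw [abs_le] at hs
              exact le_trans (by linarith) (le_abs_self _)
            nlinarith [abs_nonneg k]
          linarith
      _ = (2 : ℝ≥0∞)⁻¹ * ∫⁻ s, ENNReal.ofReal (1 / Real.sqrt (A + L * (1 / 2 + s) ^ 2))
            ∂(lam (1 / 8)) := lintegral_const_mul _ (D5_meas_inv A L)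
      _ ≤ (2 : ℝ≥0∞)⁻¹ * ENNReal.ofReal (2 / (x + y)) := by
          gcongr
          exact D5_int hx hy hx2 hy2
      _ = ENNReal.ofReal (1 / (x + y)) := by
          have e : (2 : ℝ≥0∞)⁻¹ = ENNReal.ofReal (1 / 2) := by
            rw [ENNReal.ofReal_div_of_pos (by norm_num)]
            simp
          rw [e, ← ENNReal.ofReal_mul (by norm_num)]
          congr 1
          field_simp
      _ ≤ ENNReal.ofReal g := by
          refine ENNReal.ofReal_le_ofReal ?_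
          rw [div_le_iff₀ (by positivity)]
          exact hg

theorem D5_ker_neg (D V z : ℝ) : ker (-D) V z = ker D V (-z) := by
  unfold ker
  have : |z - -D| = |-z - D| := by
    rw [← abs_neg]
    congr 1
    ring
  rw [this]

/-- `Δ = 0`, `m = 1`, `|u₀ - u₁| = 1` -/
theorem D5_digit {μ : Measure (Fin 5 → ℝ)} (hL : D5L μ) (w : Fin 5 → ℤ) (h0 : del5 w = 0)
    (hp : |p5 w| = 3) (h1 : |w 0 - w 1| = 1) :
    HasLoad (μ.map (lin w)) (fun _ => 1) := by
  have hp2 : ((p5 w : ℝ)) ^ 2 = 9 := by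
    have : (p5 w) ^ 2 = 9 := by
      rw [← sq_abs, hp]
      norm_num
    exact_mod_cast this
  have hd : (del5 w : ℝ) = 0 := by exact_mod_cast h0
  refine (hL w ?_).mono fun z => ?_
  · filter_upwards [D5_ae] with q hq
    rw [D5_vsq q hq.1 w, hd, hp2]
    have := (D5_sq_bd hq.1).1
    linarith
  · have hstep : ∀ k : ℝ, ((w 0 : ℝ) - w 1) = k →
        ∫⁻ q, ker (∑ i, (w i : ℝ) * d5 q i) (Real.sqrt (vsq (v5 q) w)) z ∂D5pi =
        ∫⁻ q, ker (k * (q.2 * (1 / 2 - q.1))) (1 / 2 + q.1) z ∂D5pi := by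
      intro k hk
      refine lintegral_congr_ae ?_
      filter_upwards [D5_ae] with q hq
      rw [D5_vsq q hq.1 w, lin_d5, hd, hp2, hk]
      congr 1
      have e : (0 : ℝ) / 2 + (9 - 2 * 0) / 9 * (1 / 2 + q.1) ^ 2 = (1 / 2 + q.1) ^ 2 := by ring
      rw [e]
      refine Real.sqrt_sq ?_
      have := abs_le.1 hq.1
      linarith
    have hone : ∀ z : ℝ, ∫⁻ q, ker (q.2 * (1 / 2 - q.1)) (1 / 2 + q.1) z ∂D5pi ≤ 1 := by
      intro z
      refine (digit_single (by norm_num) (by norm_num) z).trans ?_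
      split_ifs
      · exact le_refl _
      · exact zero_le
    rcases abs_eq (by norm_num : (0 : ℤ) ≤ 1) |>.1 h1 with h | h
    · have hk : ((w 0 : ℝ) - w 1) = 1 := by exact_mod_cast h
      rw [hstep 1 hk]
      simp only [one_mul]
      exact hone z
    · have hk : ((w 0 : ℝ) - w 1) = -1 := by exact_mod_cast h
      rw [hstep (-1) hk]
      simp only [neg_mul, one_mul, D5_ker_neg]
      exact hone (-z)

/-- vectors `t + e 1_{i,j}` -/
def D5FA (w : Fin 5 → ℤ) : Prop := ∃ t e : ℤ, ∃ i j : Fin 5, i ≠ j ∧ |e| = 1 ∧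
  ∀ k, w k = t + if k = i ∨ k = j then e else 0

/-- vectors `t + b (e_i - e_j)` -/
def D5FB (w : Fin 5 → ℤ) : Prop := ∃ t b : ℤ, ∃ i j : Fin 5, i ≠ j ∧ b ≠ 0 ∧
  ∀ k, w k = t + if k = i then b else if k = j then -b else 0

theorem D5FA_perm {u : Fin 5 → ℤ} {σ : Equiv.Perm (Fin 5)} (h : D5FA (u ∘ σ)) : D5FA u := by
  obtain ⟨t, e, i, j, hij, he, h⟩ := h
  refine ⟨t, e, σ i, σ j, fun h' => hij (σ.injective h'), he, fun k => ?_⟩
  have := h (σ.symm k)
  simp only [Function.comp, Equiv.apply_symm_apply] at this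
  rw [this]
  simp only [Equiv.symm_apply_eq]

theorem D5FB_perm {u : Fin 5 → ℤ} {σ : Equiv.Perm (Fin 5)} (h : D5FB (u ∘ σ)) : D5FB u := by
  obtain ⟨t, e, i, j, hij, he, h⟩ := h
  refine ⟨t, e, σ i, σ j, fun h' => hij (σ.injective h'), he, fun k => ?_⟩
  have := h (σ.symm k)
  simp only [Function.comp, Equiv.apply_symm_apply] at this
  rw [this]
  simp only [Equiv.symm_apply_eq]

/-- all other vectors have load at most `1` -/
theorem D5_one {μ : Measure (Fin 5 → ℝ)} (hL : D5L μ) (w : Fin 5 → ℤ) (hne : ∃ i j, w i ≠ w j)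
    (hA : ¬ D5FA w) (hB : ¬ D5FB w) : HasLoad (μ.map (lin w)) (fun _ => 1) := by
  have hone : (1 : ℝ≥0∞) = ENNReal.ofReal 1 := by simp
  rcases class5 w with ⟨h0, h23, h34, hp⟩ | ⟨h2, hp⟩ | ⟨h2, hp, h3⟩ | ⟨_, _, _, t, e, he, hte, hc⟩ | h6
  · -- Δ = 0
    have hd : (del5 w : ℝ) = 0 := by exact_mod_cast h0
    by_cases hM0 : 2 * w 2 - w 0 - w 1 = 0
    · exfalso
      apply hB
      refine ⟨w 2, w 0 - w 2, 0, 1, by decide, ?_, ?_⟩
      · intro hb
        obtain ⟨i, j, hij⟩ := hne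
        apply hij
        have e0 : w 0 = w 2 := by omega
        have e1 : w 1 = w 2 := by omega
        have e3 : w 3 = w 2 := h23.symm
        have e4 : w 4 = w 2 := by rw [← h34, h23]
        have hall : ∀ i, w i = w 2 := by
          intro i
          fin_cases i
          · exact e0
          · exact e1
          · rfl
          · exact e3
          · exact e4
        rw [hall i, hall j]
      · intro k
        fin_cases k
        · simp
        · simp only [Fin.mk_one, Fin.isValue, one_ne_zero, ↓reduceIte]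
          omega
        · simp
        · show w 3 = _
          simp [h23]
        · show w 4 = _
          simp [h23, h34]
    · by_cases hM1 : |2 * w 2 - w 0 - w 1| = 1
      · have hp3 : |p5 w| = 3 := by
          rw [hp, abs_mul, hM1]
          norm_num
        have hp2 : ((p5 w : ℝ)) ^ 2 = 9 := by
          have : (p5 w) ^ 2 = 9 := by
            rw [← sq_abs, hp3]
            norm_num
          exact_mod_cast this
        by_cases h1 : |w 0 - w 1| = 1
        · exact D5_digit hL w h0 hp3 h1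
        · have h3 : 3 ≤ |w 0 - w 1| := by
            rcases abs_eq (by norm_num : (0 : ℤ) ≤ 1) |>.1 hM1 with h | h
            · rcases le_total 0 (w 0 - w 1) with h' | h'
              · rw [abs_of_nonneg h'] at h1 ⊢
                omega
              · rw [abs_of_nonpos h'] at h1 ⊢
                omega
            · rcases le_total 0 (w 0 - w 1) with h' | h'
              · rw [abs_of_nonneg h'] at h1 ⊢
                omega
              · rw [abs_of_nonpos h'] at h1 ⊢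
                omega
          rw [hone]
          refine D5_half hL w (5 / 8) (3 / 8) 1 (by norm_num) (by norm_num) ?_ ?_ ?_ h3 (by norm_num)
          · rw [hd, hp2]
            norm_num
          · rw [hd, hp2]
            norm_num
          · intro s hs
            rw [hd, hp2]
            have := (D5_sq_bd hs).2
            linarith
      · -- |M| ≥ 2
        have hM2 : 4 ≤ (2 * w 2 - w 0 - w 1) ^ 2 := by
          have h5 : 2 ≤ |2 * w 2 - w 0 - w 1| := by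
            have h6 : 0 < |2 * w 2 - w 0 - w 1| := abs_pos.2 hM0
            omega
          rw [← sq_abs]
          nlinarith
        have hp2 : (36 : ℝ) ≤ ((p5 w : ℝ)) ^ 2 := by
          have : 36 ≤ (p5 w) ^ 2 := by
            rw [hp]
            nlinarith
          exact_mod_cast this
        rw [hone]
        refine D5_gen hL w (5 / 4) (3 / 4) 1 (by norm_num) (by norm_num) ?_ ?_ (by norm_num)
        · rw [hd]
          linarith
        · rw [hd]
          linarith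
  · -- Δ = 2, |p| ≥ 2
    have hd : (del5 w : ℝ) = 2 := by exact_mod_cast h2
    have hp2 : (4 : ℝ) ≤ ((p5 w : ℝ)) ^ 2 := by
      have : 4 ≤ (p5 w) ^ 2 := by
        rw [← sq_abs]
        nlinarith
      exact_mod_cast this
    rw [hone]
    refine D5_gen hL w 1 1 1 (by norm_num) (by norm_num) ?_ ?_ (by norm_num)
    · rw [hd]
      linarith
    · rw [hd]
      linarith
  · -- Δ = 2, |p| = 1, |u₀ - u₁| ≥ 3
    have hd : (del5 w : ℝ) = 2 := by exact_mod_cast h2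
    have hp2 : ((p5 w : ℝ)) ^ 2 = 1 := by
      have : (p5 w) ^ 2 = 1 := by
        rw [← sq_abs, hp]
        norm_num
      exact_mod_cast this
    rw [hone]
    refine D5_half hL w (1 / 2) (1 / 2) 1 (by norm_num) (by norm_num) ?_ ?_ ?_ h3 (by norm_num)
    · rw [hd, hp2]
      norm_num
    · rw [hd, hp2]
      norm_num
    · intro s hs
      rw [hd, hp2]
      have := sq_nonneg (1 / 2 + s)
      linarith
  · exfalso
    apply hA
    rw [Finset.card_eq_two] at hc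
    obtain ⟨i, j, hij, hc⟩ := hc
    refine ⟨t, e, i, j, hij, he, fun k => ?_⟩
    have hk : k ∈ Finset.univ.filter (fun i => w i = t + e) ↔ (k = i ∨ k = j) := by
      rw [hc]
      simp
    rw [Finset.mem_filter] at hk
    by_cases h : k = i ∨ k = j
    · rw [if_pos h]
      exact (hk.2 h).2
    · rw [if_neg h, add_zero]
      rcases hte k with h' | h'
      · exact h'
      · exact absurd (hk.1 ⟨Finset.mem_univ _, h'⟩) h
  · -- Δ ≥ 6
    have hd : (6 : ℝ) ≤ del5 w := by exact_mod_cast h6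
    have hp2 := sq_nonneg (p5 w : ℝ)
    rw [hone]
    refine D5_gen hL w (3 / 2) (3 / 2) 1 (by norm_num) (by norm_num) ?_ ?_ (by norm_num)
    · linarith
    · linarith

/-- position bounds -/
def D5G (g2 g1 g0 : ℝ) (i j : Fin 5) : ℝ :=
  if i < 2 ∧ j < 2 then g2 else if ¬ i < 2 ∧ ¬ j < 2 then g0 else g1

theorem D5_A {μ : Measure (Fin 5 → ℝ)} (hL : D5L μ) (w : Fin 5 → ℤ) (t e : ℤ) (i j : Fin 5)
    (hij : i ≠ j) (he : |e| = 1) (hw : ∀ k, w k = t + if k = i ∨ k = j then e else 0) :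
    HasLoad (μ.map (lin w)) (fun _ => ENNReal.ofReal (D5G 1 (1048 / 1000) (862 / 1000) i j)) := by
  have he2 : e ^ 2 = 1 := by rw [← sq_abs, he]; norm_num
  have key' : (i < 2 ∧ j < 2 → del5 w = 0 ∧ (p5 w) ^ 2 = 36 * e ^ 2) ∧
      (¬ i < 2 ∧ ¬ j < 2 → del5 w = 2 * e ^ 2 ∧ (p5 w) ^ 2 = 16 * e ^ 2) ∧
      (¬ (i < 2 ∧ j < 2) → ¬ (¬ i < 2 ∧ ¬ j < 2) → del5 w = 2 * e ^ 2 ∧ (p5 w) ^ 2 = e ^ 2) := by
    have w0 := hw 0
    have w1 := hw 1
    have w2 := hw 2
    have w3 := hw 3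
    have w4 := hw 4
    unfold del5 p5
    rw [w0, w1, w2, w3, w4]
    clear hw w0 w1 w2 w3 w4 he he2
    refine ⟨?_, ?_, ?_⟩
    all_goals
      fin_cases i <;> fin_cases j <;> simp at hij ⊢
    all_goals
      first
        | (constructor <;> ring)
        | ring
  have key : (i < 2 ∧ j < 2 → del5 w = 0 ∧ (p5 w) ^ 2 = 36) ∧
      (¬ i < 2 ∧ ¬ j < 2 → del5 w = 2 ∧ (p5 w) ^ 2 = 16) ∧
      (¬ (i < 2 ∧ j < 2) → ¬ (¬ i < 2 ∧ ¬ j < 2) → del5 w = 2 ∧ (p5 w) ^ 2 = 1) := by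
    rw [he2] at key'
    simpa using key'
  unfold D5G
  split_ifs with h1 h2
  · obtain ⟨hd, hp⟩ := key.1 h1
    have hd' : (del5 w : ℝ) = 0 := by exact_mod_cast hd
    have hp' : ((p5 w : ℝ)) ^ 2 = 36 := by exact_mod_cast hp
    refine D5_gen hL w (5 / 4) (3 / 4) 1 (by norm_num) (by norm_num) ?_ ?_ (by norm_num)
    · rw [hd', hp']; norm_num
    · rw [hd', hp']; norm_num
  · obtain ⟨hd, hp⟩ := key.2.1 h2
    have hd' : (del5 w : ℝ) = 2 := by exact_mod_cast hd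
    have hp' : ((p5 w : ℝ)) ^ 2 = 16 := by exact_mod_cast hp
    refine D5_gen hL w (1233 / 1000) (1089 / 1000) _ (by norm_num) (by norm_num) ?_ ?_ (by norm_num)
    · rw [hd', hp']; norm_num
    · rw [hd', hp']; norm_num
  · obtain ⟨hd, hp⟩ := key.2.2 h1 h2
    have hd' : (del5 w : ℝ) = 2 := by exact_mod_cast hd
    have hp' : ((p5 w : ℝ)) ^ 2 = 1 := by exact_mod_cast hp
    refine D5_gen hL w (9326 / 10000) (9762 / 10000) _ (by norm_num) (by norm_num) ?_ ?_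
      (by norm_num)
    · rw [hd', hp']; norm_num
    · rw [hd', hp']; norm_num

/-- third clause of `exists_poly` -/
def D5Z (μ : Measure (Fin 5 → ℝ)) : Prop :=
  ∀ u : Fin 5 → ℤ, (∀ᵐ q ∂D5pi, vsq (v5 q) u = 0) →
    μ.map (lin u) = D5pi.map (fun q => ∑ i, (u i : ℝ) * d5 q i)

theorem D5_B {μ : Measure (Fin 5 → ℝ)} (hL : D5L μ) (hZ : D5Z μ) (w : Fin 5 → ℤ) (t b : ℤ)
    (i j : Fin 5) (hij : i ≠ j) (hb : b ≠ 0)
    (hw : ∀ k, w k = t + if k = i then b else if k = j then -b else 0) :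
    HasLoad (μ.map (lin w)) (fun _ => ENNReal.ofReal (D5G (5 / 2) (8 / 10) (2 / 3) i j)) := by
  have hb2 : 1 ≤ b ^ 2 := by
    have : 0 < b ^ 2 := by positivity
    omega
  have hb2' : (1 : ℝ) ≤ (b : ℝ) ^ 2 := by exact_mod_cast hb2
  have key : (i < 2 ∧ j < 2 → del5 w = 0 ∧ p5 w = 0 ∧ (w 0 - w 1 = 2 * b ∨ w 0 - w 1 = 2 * (-b))) ∧
      (¬ i < 2 ∧ ¬ j < 2 → del5 w = 6 * b ^ 2 ∧ (p5 w) ^ 2 = 0) ∧
      (¬ (i < 2 ∧ j < 2) → ¬ (¬ i < 2 ∧ ¬ j < 2) →
        del5 w = 2 * b ^ 2 ∧ (p5 w) ^ 2 = 25 * b ^ 2) := by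
    have w0 := hw 0
    have w1 := hw 1
    have w2 := hw 2
    have w3 := hw 3
    have w4 := hw 4
    unfold del5 p5
    rw [w0, w1, w2, w3, w4]
    clear hw w0 w1 w2 w3 w4
    refine ⟨?_, ?_, ?_⟩
    · fin_cases i <;> fin_cases j <;> simp at hij ⊢
      · refine ⟨by ring, Or.inl (by ring)⟩
      · refine ⟨by ring, Or.inr (by ring)⟩
    all_goals
      fin_cases i <;> fin_cases j <;> simp at hij ⊢
    all_goals
      constructor <;> ring
  unfold D5G
  split_ifs with h1 h2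
  · obtain ⟨hd, hp, hk⟩ := key.1 h1
    have hd' : (del5 w : ℝ) = 0 := by exact_mod_cast hd
    have hp' : ((p5 w : ℝ)) = 0 := by exact_mod_cast hp
    have h0 : ∀ᵐ q ∂D5pi, vsq (v5 q) w = 0 := by
      filter_upwards [D5_ae] with q hq
      rw [D5_vsq q hq.1 w, hd', hp']
      ring
    rw [hZ w h0]
    have hmain : ∀ b' : ℤ, b' ≠ 0 → w 0 - w 1 = 2 * b' →
        HasLoad (D5pi.map (fun q => ∑ i, (w i : ℝ) * d5 q i)) (fun _ => ENNReal.ofReal (5 / 2)) := by
      intro b' hb' hk'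
      have e : (fun q : ℝ × ℝ => ∑ i, (w i : ℝ) * d5 q i) =
          fun q : ℝ × ℝ => (b' : ℝ) * (q.2 * (1 - 2 * q.1)) := by
        funext q
        rw [lin_d5]
        have : ((w 0 : ℝ) - w 1) = 2 * b' := by exact_mod_cast hk'
        rw [this]
        ring
      rw [e]
      refine (digit_closure (τ := 1 / 8) (by norm_num) (by norm_num) b' hb').mono fun z => ?_
      refine ENNReal.ofReal_le_ofReal ?_
      have h5 : (1 : ℝ) ≤ |(b' : ℝ)| := by
        have : 1 ≤ |b'| := Int.one_le_abs hb'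
        exact_mod_cast this
      have h6 : ((1 : ℝ) / 2 + 1 / 8) / (2 * (1 / 8)) = 5 / 2 := by norm_num
      rw [h6]
      exact div_le_self (by norm_num) h5
    rcases hk with hk | hk
    · exact hmain b hb hk
    · exact hmain (-b) (neg_ne_zero.2 hb) hk
  · obtain ⟨hd, hp⟩ := key.2.1 h2
    have hd' : (del5 w : ℝ) = 6 * (b : ℝ) ^ 2 := by exact_mod_cast hd
    have hp' : ((p5 w : ℝ)) ^ 2 = 0 := by exact_mod_cast hp
    refine D5_gen hL w (3 / 2) (3 / 2) _ (by norm_num) (by norm_num) ?_ ?_ (by norm_num)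
    · rw [hd', hp']; linarith
    · rw [hd', hp']; linarith
  · obtain ⟨hd, hp⟩ := key.2.2 h1 h2
    have hd' : (del5 w : ℝ) = 2 * (b : ℝ) ^ 2 := by exact_mod_cast hd
    have hp' : ((p5 w : ℝ)) ^ 2 = 25 * (b : ℝ) ^ 2 := by exact_mod_cast hp
    refine D5_gen hL w (138 / 100) (115 / 100) _ (by norm_num) (by norm_num) ?_ ?_ (by norm_num)
    · rw [hd', hp']; linarith
    · rw [hd', hp']; linarith

theorem D5_card2 : (Finset.univ.filter (fun ρ : Equiv.Perm (Fin 5) =>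
    ρ.symm 0 < 2 ∧ ρ.symm 1 < 2)).card = 12 := by decide +kernel

theorem D5_card0 : (Finset.univ.filter (fun ρ : Equiv.Perm (Fin 5) =>
    ¬ ρ.symm 0 < 2 ∧ ¬ ρ.symm 1 < 2)).card = 36 := by decide +kernel

theorem D5_sum01 (g2 g1 g0 : ℝ) :
    ∑ ρ : Equiv.Perm (Fin 5), D5G g2 g1 g0 (ρ.symm 0) (ρ.symm 1) = 12 * g2 + 72 * g1 + 36 * g0 := by
  have e : ∀ ρ : Equiv.Perm (Fin 5), D5G g2 g1 g0 (ρ.symm 0) (ρ.symm 1) = g1 +
      (if ρ.symm 0 < 2 ∧ ρ.symm 1 < 2 then (g2 - g1) else 0) +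
      (if ¬ ρ.symm 0 < 2 ∧ ¬ ρ.symm 1 < 2 then (g0 - g1) else 0) := by
    intro ρ
    unfold D5G
    by_cases h1 : ρ.symm 0 < 2 <;> by_cases h2 : ρ.symm 1 < 2 <;> simp [h1, h2]
  rw [Finset.sum_congr rfl fun ρ _ => e ρ, Finset.sum_add_distrib, Finset.sum_add_distrib,
    ← Finset.sum_filter, ← Finset.sum_filter, Finset.sum_const, Finset.sum_const, Finset.sum_const,
    D5_card2, D5_card0, Finset.card_univ, Fintype.card_perm, Fintype.card_fin]
  norm_num [Nat.factorial]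
  ring

theorem D5_sum (g2 g1 g0 : ℝ) (i j : Fin 5) (hij : i ≠ j) :
    ∑ σ : Equiv.Perm (Fin 5), D5G g2 g1 g0 (σ.symm i) (σ.symm j) = 12 * g2 + 72 * g1 + 36 * g0 := by
  obtain ⟨τ, h0, h1⟩ : ∃ τ : Equiv.Perm (Fin 5), τ 0 = i ∧ τ 1 = j := by
    refine ⟨Equiv.swap (Equiv.swap 0 i 1) j * Equiv.swap 0 i, ?_, ?_⟩
    · rw [Equiv.Perm.mul_apply, Equiv.swap_apply_left]
      refine Equiv.swap_apply_of_ne_of_ne ?_ hij
      intro h
      have h' : Equiv.swap 0 i 0 = Equiv.swap 0 i 1 := by rw [Equiv.swap_apply_left]; exact h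
      exact absurd ((Equiv.swap 0 i).injective h') (by decide)
    · rw [Equiv.Perm.mul_apply, Equiv.swap_apply_left]
  rw [← D5_sum01 g2 g1 g0, ← Equiv.sum_comp (Equiv.mulLeft τ)
    (fun σ : Equiv.Perm (Fin 5) => D5G g2 g1 g0 (σ.symm i) (σ.symm j))]
  refine Finset.sum_congr rfl fun ρ _ => ?_
  have e0 : (Equiv.mulLeft τ ρ).symm i = ρ.symm 0 := by
    rw [Equiv.symm_apply_eq]
    show i = (τ * ρ) (ρ.symm 0)
    rw [Equiv.Perm.mul_apply, Equiv.apply_symm_apply, h0]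
  have e1 : (Equiv.mulLeft τ ρ).symm j = ρ.symm 1 := by
    rw [Equiv.symm_apply_eq]
    show j = (τ * ρ) (ρ.symm 1)
    rw [Equiv.Perm.mul_apply, Equiv.apply_symm_apply, h1]
  rw [e0, e1]

theorem D5_fin (g : Equiv.Perm (Fin 5) → ℝ) (h0 : ∀ σ, 0 ≤ g σ) (h : ∑ σ, g σ ≤ 120) :
    (∑ σ, ENNReal.ofReal (g σ)) / ((Fintype.card (Fin 5)).factorial : ℝ≥0∞) ≤ 1 := by
  rw [← ENNReal.ofReal_sum_of_nonneg fun σ _ => h0 σ]
  have e : ((Fintype.card (Fin 5)).factorial : ℝ≥0∞) = ENNReal.ofReal 120 := by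
    rw [Fintype.card_fin]
    norm_num [Nat.factorial]
  rw [e, ENNReal.div_le_iff (by norm_num) (by norm_num), one_mul]
  exact ENNReal.ofReal_le_ofReal h

theorem D5G_nonneg {g2 g1 g0 : ℝ} (h2 : 0 ≤ g2) (h1 : 0 ≤ g1) (h0 : 0 ≤ g0) (i j : Fin 5) :
    0 ≤ D5G g2 g1 g0 i j := by
  unfold D5G
  split_ifs <;> assumption

theorem law_five : LawOK (Fin 5) := by
  have hprob := D5_prob
  obtain ⟨μ, hμ, hS, hL, hZ⟩ := exists_poly D5pi v5 v5_measurable d5 d5_measurable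
  obtain ⟨ζ, hζ, hζS, hζL⟩ := exists_sym μ
  refine ⟨ζ, hζ, hζS 0 (hS 0 ?_), ?_⟩
  · filter_upwards [D5_ae] with q hq
    exact ⟨fun k => v5_sum q k, d5_sum q, fun i => v5_norm q hq.1 hq.2 i⟩
  intro u hu
  have hu' : ∀ σ : Equiv.Perm (Fin 5), ∃ i j, (u ∘ σ) i ≠ (u ∘ σ) j := by
    intro σ
    obtain ⟨i, j, hij⟩ := hu
    exact ⟨σ.symm i, σ.symm j, by simpa using hij⟩
  by_cases hA : D5FA u
  · obtain ⟨t, e, i, j, hij, he, hw⟩ := hA
    refine (hζL u (fun σ _ => ENNReal.ofReal (D5G 1 (1048 / 1000) (862 / 1000) (σ.symm i) (σ.symm j)))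
      (fun _ => measurable_const) fun σ => ?_).mono fun z => ?_
    · refine D5_A hL (u ∘ σ) t e (σ.symm i) (σ.symm j) (fun h => hij (σ.symm.injective h)) he
        fun k => ?_
      show u (σ k) = _
      rw [hw]
      simp only [Equiv.eq_symm_apply]
    · refine D5_fin (fun σ => D5G 1 (1048 / 1000) (862 / 1000) (σ.symm i) (σ.symm j))
        (fun σ => D5G_nonneg (by norm_num) (by norm_num) (by norm_num) _ _) ?_
      rw [D5_sum _ _ _ i j hij]
      norm_num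
  by_cases hB : D5FB u
  · obtain ⟨t, b, i, j, hij, hb, hw⟩ := hB
    refine (hζL u (fun σ _ => ENNReal.ofReal (D5G (5 / 2) (8 / 10) (2 / 3) (σ.symm i) (σ.symm j)))
      (fun _ => measurable_const) fun σ => ?_).mono fun z => ?_
    · refine D5_B hL hZ (u ∘ σ) t b (σ.symm i) (σ.symm j) (fun h => hij (σ.symm.injective h)) hb
        fun k => ?_
      show u (σ k) = _
      rw [hw]
      simp only [Equiv.eq_symm_apply]
    · refine D5_fin (fun σ => D5G (5 / 2) (8 / 10) (2 / 3) (σ.symm i) (σ.symm j))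
        (fun σ => D5G_nonneg (by norm_num) (by norm_num) (by norm_num) _ _) ?_
      rw [D5_sum _ _ _ i j hij]
      norm_num
  · refine (hζL u (fun σ _ => ENNReal.ofReal 1) (fun _ => measurable_const) fun σ => ?_).mono
      fun z => ?_
    · have := D5_one hL (u ∘ σ) (hu' σ) (fun h => hA (D5FA_perm h)) (fun h => hB (D5FB_perm h))
      simpa using this
    · refine D5_fin (fun _ => 1) (fun _ => by norm_num) ?_
      rw [Finset.sum_const, Finset.card_univ, Fintype.card_perm, Fintype.card_fin]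
      norm_num [Nat.factorial]

end Pool.Agent.helper49.Slope
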