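import Pool.Agent.helper49.Slope.DefsJ

/-!
MP_aedd95_co (slope of k-fold hyperplane covers of triangular grids), module D5a.
The law `D_5`: geometry and classification of integer vectors. `q = (s, η)`, `|s| ≤ 1/8`,
`η = ±1`, `c = 1/2 + s`.
-/

set_option autoImplicit false

open MeasureTheory ProbabilityTheory
open scoped ENNReal

namespace Pool.Agent.helper49.Slope

theorem v5_measurable : Measurable v5 := by
  rw [measurable_pi_iff]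
  intro i
  rw [measurable_pi_iff]
  intro k
  fin_cases i <;> fin_cases k <;> simp [v5] <;> fun_prop

theorem d5_measurable : Measurable d5 := by
  rw [measurable_pi_iff]
  intro i
  fin_cases i <;> simp [d5] <;> fun_prop

theorem v5_sum (q : ℝ × ℝ) (k : Fin 3) : ∑ i, v5 q i k = 0 := by
  rw [Fin.sum_univ_five]
  fin_cases k <;> simp [v5] <;> ring

theorem d5_sum (q : ℝ × ℝ) : ∑ i, d5 q i = 0 := by
  rw [Fin.sum_univ_five]
  simp [d5]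

theorem D5a_sqrt_sq (q : ℝ × ℝ) (h : |q.1| ≤ 1 / 8) :
    Real.sqrt (1 - 4 * (1 / 2 + q.1) ^ 2 / 9) ^ 2 = 1 - 4 * (1 / 2 + q.1) ^ 2 / 9 := by
  apply Real.sq_sqrt
  have h1 := abs_le.mp h
  nlinarith [h1.1, h1.2]

theorem v5_norm (q : ℝ × ℝ) (h : |q.1| ≤ 1 / 8) (hη : q.2 = 1 ∨ q.2 = -1) (i : Fin 5) :
    Real.sqrt (∑ k, v5 q i k ^ 2) + |d5 q i| ≤ 1 := by
  have h1 := abs_le.mp h
  have hw := D5a_sqrt_sq q h
  have h3 : Real.sqrt 3 ^ 2 = 3 := Real.sq_sqrt (by norm_num)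
  have hc : 0 ≤ 1 / 2 + q.1 := by linarith [h1.1]
  have hd : |q.2 * (1 / 2 - q.1)| = 1 / 2 - q.1 := by
    rw [abs_mul, abs_of_nonneg (show (0 : ℝ) ≤ 1 / 2 - q.1 by linarith [h1.2])]
    rcases hη with h | h <;> rw [h] <;> simp
  rw [Fin.sum_univ_three]
  have key : ∀ j : Fin 5, (j = 0 ∨ j = 1) →
      Real.sqrt (v5 q j 0 ^ 2 + v5 q j 1 ^ 2 + v5 q j 2 ^ 2) + |d5 q j| ≤ 1 := by
    intro j hj
    have e1 : v5 q j 0 ^ 2 + v5 q j 1 ^ 2 + v5 q j 2 ^ 2 = (1 / 2 + q.1) ^ 2 := by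
      rcases hj with rfl | rfl <;> simp [v5]
    have e2 : |d5 q j| = |q.2 * (1 / 2 - q.1)| := by
      rcases hj with rfl | rfl
      · simp [d5]
      · simp only [d5, Matrix.cons_val_one, Matrix.cons_val_zero, abs_neg]
    rw [e1, Real.sqrt_sq hc, e2, hd]
    linarith
  have key2 : ∀ j : Fin 5, (j = 2 ∨ j = 3 ∨ j = 4) →
      Real.sqrt (v5 q j 0 ^ 2 + v5 q j 1 ^ 2 + v5 q j 2 ^ 2) + |d5 q j| ≤ 1 := by
    intro j hj
    have e1 : v5 q j 0 ^ 2 + v5 q j 1 ^ 2 + v5 q j 2 ^ 2 = 1 := by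
      rcases hj with rfl | rfl | rfl
      · simp only [v5, Matrix.cons_val]
        nlinarith [hw]
      · simp only [v5, Matrix.cons_val]
        nlinarith [hw, h3]
      · simp only [v5, Matrix.cons_val]
        nlinarith [hw, h3]
    have e2 : |d5 q j| = 0 := by
      rcases hj with rfl | rfl | rfl <;> simp [d5]
    rw [e1, Real.sqrt_one, e2]
    norm_num
  by_cases hi : i = 0 ∨ i = 1
  · exact key i hi
  · apply key2 i
    fin_cases i <;> simp_all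

/-- `V² = c² p²/9 + (1/2 - 2c²/9) Δ` -/
theorem vsq_v5 (q : ℝ × ℝ) (h : |q.1| ≤ 1 / 8) (u : Fin 5 → ℤ) :
    vsq (v5 q) u = (1 / 2 + q.1) ^ 2 * (p5 u : ℝ) ^ 2 / 9
      + (1 / 2 - 2 * (1 / 2 + q.1) ^ 2 / 9) * (del5 u : ℝ) := by
  have hw := D5a_sqrt_sq q h
  have h3 : Real.sqrt 3 ^ 2 = 3 := Real.sq_sqrt (by norm_num)
  unfold vsq
  rw [Fin.sum_univ_three]
  simp only [Fin.sum_univ_five, v5, Matrix.cons_val, p5, del5]
  push_cast
  set w := Real.sqrt (1 - 4 * (1 / 2 + q.1) ^ 2 / 9) with hwdef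
  set r := Real.sqrt 3 with hr
  linear_combination (((u 2 : ℝ) - ((u 3 : ℝ) + u 4) / 2) ^ 2
    + r ^ 2 / 4 * ((u 3 : ℝ) - u 4) ^ 2) * hw
    + (1 - 4 * (1 / 2 + q.1) ^ 2 / 9) / 4 * ((u 3 : ℝ) - u 4) ^ 2 * h3

theorem lin_d5 (q : ℝ × ℝ) (u : Fin 5 → ℤ) :
    ∑ i, (u i : ℝ) * d5 q i = ((u 0 : ℝ) - u 1) * (q.2 * (1 / 2 - q.1)) := by
  simp only [Fin.sum_univ_five, d5, Matrix.cons_val]
  ring

theorem D5a_card (u : Fin 5 → ℤ) (w : ℤ) :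
    (Finset.univ.filter (fun i => u i = w)).card
      = (if u 0 = w then 1 else 0) + (if u 1 = w then 1 else 0) + (if u 2 = w then 1 else 0)
        + (if u 3 = w then 1 else 0) + (if u 4 = w then 1 else 0) := by
  rw [Finset.card_filter, Fin.sum_univ_five]

/-- the case `Δ = 2`, units `t, t, t + e` in some order -/
theorem D5a_two (u : Fin 5 → ℤ) (t e : ℤ) (he : e = 1 ∨ e = -1)
    (hu : (u 2 = t + e ∧ u 3 = t ∧ u 4 = t) ∨ (u 2 = t ∧ u 3 = t + e ∧ u 4 = t) ∨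
      (u 2 = t ∧ u 3 = t ∧ u 4 = t + e)) :
    (del5 u = 2 ∧ 2 ≤ |p5 u|) ∨
    (del5 u = 2 ∧ |p5 u| = 1 ∧ 3 ≤ |u 0 - u 1|) ∨
    (del5 u = 2 ∧ |p5 u| = 1 ∧ |u 0 - u 1| = 1 ∧
      ∃ t e : ℤ, |e| = 1 ∧ (∀ i, u i = t ∨ u i = t + e) ∧
        (Finset.univ.filter (fun i => u i = t + e)).card = 2) := by
  have hD : del5 u = 2 := by
    unfold del5
    have he2 : e ^ 2 = 1 := by rcases he with rfl | rfl <;> norm_num
    rcases hu with ⟨a, b, c⟩ | ⟨a, b, c⟩ | ⟨a, b, c⟩ <;> rw [a, b, c] <;> ring_nf <;> rw [he2] <;>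
      norm_num
  have hp : p5 u = 2 * (3 * t + e) - 3 * (u 0 + u 1) := by
    unfold p5
    rcases hu with ⟨a, b, c⟩ | ⟨a, b, c⟩ | ⟨a, b, c⟩ <;> rw [a, b, c] <;> ring
  by_cases h2 : 2 ≤ |p5 u|
  · exact Or.inl ⟨hD, h2⟩
  have hp1 : |p5 u| = 1 := by
    rw [not_le] at h2
    have h0 : p5 u ≠ 0 := by omega
    have := abs_pos.mpr h0
    omega
  by_cases h3 : 3 ≤ |u 0 - u 1|
  · exact Or.inr (Or.inl ⟨hD, hp1, h3⟩)
  have h01 : u 0 + u 1 = 2 * t + e := by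
    have h4 := hp1
    rw [abs_eq (by norm_num)] at h4
    omega
  rw [not_le] at h3
  have hr := abs_lt.mp h3
  have hcase : (u 0 = t ∧ u 1 = t + e) ∨ (u 0 = t + e ∧ u 1 = t) := by omega
  have hd1 : |u 0 - u 1| = 1 := by
    rw [abs_eq (by norm_num)]
    omega
  refine Or.inr (Or.inr ⟨hD, hp1, hd1, t, e, ?_, ?_, ?_⟩)
  · rw [abs_eq (by norm_num)]
    omega
  · intro i
    fin_cases i
    · show u 0 = t ∨ u 0 = t + e
      omega
    · show u 1 = t ∨ u 1 = t + e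
      omega
    · show u 2 = t ∨ u 2 = t + e
      omega
    · show u 3 = t ∨ u 3 = t + e
      omega
    · show u 4 = t ∨ u 4 = t + e
      omega
  · rw [D5a_card]
    have hte : t ≠ t + e := by omega
    rcases hcase with ⟨a0, a1⟩ | ⟨a0, a1⟩ <;>
      rcases hu with ⟨a, b, c⟩ | ⟨a, b, c⟩ | ⟨a, b, c⟩ <;> rw [a0, a1, a, b, c] <;>
      simp only [if_neg hte, if_true]

/-- Classification. `Δ = 0`: the units are all equal to `t`, `p = 3 (2t - u₀ - u₁)`.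
`Δ = 2`: the units are `t, t, t + e`, `e = ±1`, and `p ≡ 2e mod 3`; `|p| = 1` with
`|u₀ - u₁| = 1` forces `{u₀,u₁} = {t, t+e}`. Otherwise `Δ ≥ 6` (the sum of the squares of
`x, y, x+y`). -/
theorem class5 (u : Fin 5 → ℤ) :
    (del5 u = 0 ∧ u 2 = u 3 ∧ u 3 = u 4 ∧ p5 u = 3 * (2 * u 2 - u 0 - u 1)) ∨
    (del5 u = 2 ∧ 2 ≤ |p5 u|) ∨
    (del5 u = 2 ∧ |p5 u| = 1 ∧ 3 ≤ |u 0 - u 1|) ∨
    (del5 u = 2 ∧ |p5 u| = 1 ∧ |u 0 - u 1| = 1 ∧
      ∃ t e : ℤ, |e| = 1 ∧ (∀ i, u i = t ∨ u i = t + e) ∧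
        (Finset.univ.filter (fun i => u i = t + e)).card = 2) ∨
    6 ≤ del5 u := by
  by_cases h6 : 6 ≤ del5 u
  · exact Or.inr (Or.inr (Or.inr (Or.inr h6)))
  rw [not_le] at h6
  obtain ⟨x, hx⟩ : ∃ x, x = u 2 - u 3 := ⟨_, rfl⟩
  obtain ⟨y, hy⟩ : ∃ y, y = u 3 - u 4 := ⟨_, rfl⟩
  have hdel : del5 u = x ^ 2 + (x + y) ^ 2 + y ^ 2 := by
    unfold del5
    rw [hx, hy]
    ring
  have hlt : x ^ 2 + (x + y) ^ 2 + y ^ 2 < 6 := by rw [← hdel]; exact h6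
  have hxb : x ^ 2 < 4 := by nlinarith [sq_nonneg (x + 2 * y)]
  have hyb : y ^ 2 < 4 := by nlinarith [sq_nonneg (2 * x + y)]
  have hx1 : -1 ≤ x := by nlinarith
  have hx2 : x ≤ 1 := by nlinarith
  have hy1 : -1 ≤ y := by nlinarith
  have hy2 : y ≤ 1 := by nlinarith
  have fin : ∀ (t e : ℤ), (e = 1 ∨ e = -1) →
      ((u 2 = t + e ∧ u 3 = t ∧ u 4 = t) ∨ (u 2 = t ∧ u 3 = t + e ∧ u 4 = t) ∨
      (u 2 = t ∧ u 3 = t ∧ u 4 = t + e)) →
    (del5 u = 0 ∧ u 2 = u 3 ∧ u 3 = u 4 ∧ p5 u = 3 * (2 * u 2 - u 0 - u 1)) ∨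
    (del5 u = 2 ∧ 2 ≤ |p5 u|) ∨
    (del5 u = 2 ∧ |p5 u| = 1 ∧ 3 ≤ |u 0 - u 1|) ∨
    (del5 u = 2 ∧ |p5 u| = 1 ∧ |u 0 - u 1| = 1 ∧
      ∃ t e : ℤ, |e| = 1 ∧ (∀ i, u i = t ∨ u i = t + e) ∧
        (Finset.univ.filter (fun i => u i = t + e)).card = 2) ∨
    6 ≤ del5 u := by
    intro t e he hu
    rcases D5a_two u t e he hu with h | h | h
    · exact Or.inr (Or.inl h)
    · exact Or.inr (Or.inr (Or.inl h))
    · exact Or.inr (Or.inr (Or.inr (Or.inl h)))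
  by_cases h0 : x = 0 ∧ y = 0
  · obtain ⟨rfl, rfl⟩ := h0
    left
    refine ⟨by rw [hdel]; norm_num, by omega, by omega, ?_⟩
    unfold p5
    have a : u 3 = u 2 := by omega
    have b : u 4 = u 2 := by omega
    rw [a, b]
    ring
  · interval_cases x <;> interval_cases y
    · exfalso; norm_num at hlt
    · exact fin (u 3) (-1) (by simp) (by omega)
    · exact fin (u 2) 1 (by simp) (by omega)
    · exact fin (u 3) 1 (by simp) (by omega)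
    · exact absurd ⟨rfl, rfl⟩ h0
    · exact fin (u 3) (-1) (by simp) (by omega)
    · exact fin (u 2) (-1) (by simp) (by omega)
    · exact fin (u 3) 1 (by simp) (by omega)
    · exfalso; norm_num at hlt

end Pool.Agent.helper49.Slope
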