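import Pool.Agent.helper49.Slope.D6k
import Pool.Agent.helper49.Slope.B7d
import Pool.Agent.helper49.Slope.B8a
import Pool.Agent.helper49.Slope.B8d

/-!
MP_aedd95_co (slope of k-fold hyperplane covers of triangular grids), module D6.
The law for N = 6.
-/

set_option autoImplicit false

open MeasureTheory ProbabilityTheory
open scoped ENNReal

namespace Pool.Agent.helper49.Slope

/-- affine images of a form (the coordinate sum is `0`) -/
theorem D6_affine {ζ : Measure (Fin 6 → ℝ)} (hs : Supp ζ 0) (w u : Fin 6 → ℤ) (t e : ℤ)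
    (he : e ≠ 0) (hu : ∀ i, u i = t + e * w i) (h : HasLoad (ζ.map (lin w)) (fun _ => 1)) :
    HasLoad (ζ.map (lin u)) (fun _ => 1) := by
  have hc1 : (1 : ℝ) ≤ |(e : ℝ)| := by
    rw [← Int.cast_abs]
    exact_mod_cast Int.one_le_abs he
  have e1 : ζ.map (lin u) = (ζ.map (lin w)).map (fun z => (e : ℝ) * z) := by
    rw [Measure.map_map (by fun_prop) (B7d_measurable_lin w)]
    refine Measure.map_congr ?_
    filter_upwards [hs] with y hy
    have hsum : ∑ j, y j = 0 := hy.2
    show lin u y = (e : ℝ) * lin w y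
    unfold lin
    have key : ∀ j, (u j : ℝ) * y j = (t : ℝ) * y j + (e : ℝ) * ((w j : ℝ) * y j) := by
      intro j
      rw [hu j]
      push_cast
      ring
    rw [Finset.sum_congr rfl fun j _ => key j, Finset.sum_add_distrib, ← Finset.mul_sum,
      ← Finset.mul_sum, hsum, mul_zero, zero_add]
  rw [e1]
  have h4 := h.scale measurable_const (e : ℝ) (by exact_mod_cast he)
  refine h4.mono fun z => ?_
  rw [mul_one, ENNReal.ofReal_le_one, div_le_one (by linarith)]
  exact hc1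

theorem D6_avg (f : Equiv.Perm (Fin 6) → ℝ) (hf : ∀ σ, 0 ≤ f σ) (h : ∑ σ, f σ ≤ 720) :
    (∑ σ, ENNReal.ofReal (f σ)) / ((Fintype.card (Fin 6)).factorial : ℝ≥0∞) ≤ 1 := by
  rw [← ENNReal.ofReal_sum_of_nonneg (fun σ _ => hf σ)]
  refine ENNReal.div_le_of_le_mul ?_
  have e : ((Fintype.card (Fin 6)).factorial : ℝ≥0∞) = ENNReal.ofReal 720 := by
    rw [Fintype.card_fin, show (6 : ℕ).factorial = 720 from rfl]
    norm_num
  rw [one_mul, e]
  exact ENNReal.ofReal_le_ofReal h

/-- the symmetrisation clause of `exists_sym` -/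
def D6sym (μ ζ : Measure (Fin 6 → ℝ)) : Prop :=
  ∀ (u : Fin 6 → ℤ) (f : Equiv.Perm (Fin 6) → ℝ → ℝ≥0∞), (∀ σ, Measurable (f σ)) →
    (∀ σ : Equiv.Perm (Fin 6), HasLoad (μ.map (lin (u ∘ σ))) (f σ)) →
    HasLoad (ζ.map (lin u))
      (fun z => (∑ σ : Equiv.Perm (Fin 6), f σ z) / ((Fintype.card (Fin 6)).factorial : ℝ≥0∞))

theorem D6_ind {μ ζ : Measure (Fin 6 → ℝ)} (hμ : Mu6 μ) (hl : D6sym μ ζ) (T : Finset (Fin 6))
    (hT : T.card = 3) : HasLoad (ζ.map (lin (ind6 T))) (fun _ => 1) := by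
  have h := hl (ind6 T)
    (fun σ _ => ENNReal.ofReal (G6 (Finset.univ.filter (fun x => σ x ∈ T))))
    (fun σ => measurable_const) (fun σ => by
      have e : ind6 T ∘ σ = ind6 (Finset.univ.filter (fun x => σ x ∈ T)) := by
        funext i
        simp [ind6]
      rw [e]
      refine hμ.load_ind _ ?_
      rw [← hT]
      refine Finset.card_bij (fun x _ => σ x) ?_ ?_ ?_
      · intro a ha
        simpa using ha
      · intro a _ b _ hab
        exact σ.injective hab
      · intro b hb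
        exact ⟨σ.symm b, by simpa using hb, by simp⟩)
  refine h.mono fun z => D6_avg _ (fun σ => G6_nonneg _) ?_
  rw [B8a_sum_perm T G6, hT]
  have hG := G6_sum
  have e1 : ((Fintype.card (Fin 6)).factorial : ℝ) = 720 := by
    rw [Fintype.card_fin, show (6 : ℕ).factorial = 720 from rfl]
    norm_num
  have e2 : ((Fintype.card (Fin 6)).choose 3 : ℝ) = 20 := by
    rw [Fintype.card_fin, show (6 : ℕ).choose 3 = 20 from rfl]
    norm_num
  rw [e1, e2]
  linarith

theorem D6_erase (f : Fin 6 → Fin 6 → ℝ) : ∑ x, ∑ y ∈ Finset.univ.erase x, f x y =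
    ∑ x, ∑ y, if x = y then 0 else f x y := by
  refine Finset.sum_congr rfl fun x _ => ?_
  rw [← Finset.add_sum_erase Finset.univ (fun y => if x = y then 0 else f x y)
    (Finset.mem_univ x)]
  simp only [if_true, zero_add]
  refine Finset.sum_congr rfl fun y hy => ?_
  rw [if_neg]
  intro hxy
  rw [Finset.mem_erase] at hy
  exact hy.1 hxy.symm

theorem D6_perm (i j : Fin 6) (hij : i ≠ j) (f : Fin 6 → Fin 6 → ℝ)
    (hf : ∑ x, ∑ y, (if x = y then 0 else f x y) ≤ 30) :
    ∑ σ : Equiv.Perm (Fin 6), f (σ i) (σ j) ≤ 720 := by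
  rw [sum_perm_pairs_real i j hij f, D6_erase]
  have e1 : ((Fintype.card (Fin 6) - 2).factorial : ℝ) = 24 := by
    rw [Fintype.card_fin, show (6 - 2 : ℕ).factorial = 24 from rfl]
    norm_num
  rw [e1]
  linarith

theorem D6_H6_measurable (i j : Fin 6) : Measurable (H6 i j) := by
  have hm : MeasurableSet {z : ℝ | 3 / 4 ≤ |z|} :=
    measurableSet_le measurable_const (by fun_prop)
  unfold H6
  split_ifs
  · exact measurable_const
  · exact Measurable.ite hm measurable_const measurable_const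
  · exact Measurable.ite hm measurable_const measurable_const
  · exact Measurable.ite hm measurable_const measurable_const

theorem D6_dif {μ ζ : Measure (Fin 6 → ℝ)} (hμ : Mu6 μ) (hl : D6sym μ ζ) (i j : Fin 6)
    (hij : i ≠ j) : HasLoad (ζ.map (lin (dif6 i j))) (fun _ => 1) := by
  have h := hl (dif6 i j) (fun σ z => ENNReal.ofReal (H6 (σ.symm i) (σ.symm j) z))
    (fun σ => (D6_H6_measurable _ _).ennreal_ofReal) (fun σ => by
      have e : dif6 i j ∘ σ = dif6 (σ.symm i) (σ.symm j) := by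
        funext k
        simp only [dif6, Function.comp, Equiv.eq_symm_apply]
      rw [e]
      exact hμ.load_dif _ _ (σ.symm.injective.ne hij))
  refine h.mono fun z => D6_avg _ (fun σ => H6_nonneg _ _ _) ?_
  have e : ∑ σ : Equiv.Perm (Fin 6), H6 (σ.symm i) (σ.symm j) z =
      ∑ σ : Equiv.Perm (Fin 6), H6 (σ i) (σ j) z :=
    Equiv.sum_comp (Equiv.inv (Equiv.Perm (Fin 6))) (fun σ => H6 (σ i) (σ j) z)
  rw [e]
  exact D6_perm i j hij (fun a b => H6 a b z) (H6_sum z)

theorem D6_vec {μ ζ : Measure (Fin 6 → ℝ)} (hμ : Mu6 μ) (hl : D6sym μ ζ) (x y : ℤ)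
    (hx : x ≠ 0) (hy : y ≠ 0) (hxy : |y| ≤ |x|) (σ : Equiv.Perm (Fin 6)) :
    HasLoad (ζ.map (lin (vec6 x y ∘ σ))) (fun _ => 1) := by
  have h := hl (vec6 x y ∘ σ)
    (fun ρ _ => ENNReal.ofReal (K6 x (vec6 x y ((σ * ρ) 4)) (vec6 x y ((σ * ρ) 5))))
    (fun ρ => measurable_const) (fun ρ => by
      have e : (vec6 x y ∘ σ) ∘ ρ = vec6 x y ∘ ((σ * ρ : Equiv.Perm (Fin 6)) : Fin 6 → Fin 6) := by
        funext k
        rfl
      rw [e]
      exact hμ.load_vec x y hx hxy (σ * ρ))
  refine h.mono fun z => D6_avg _ (fun ρ => K6_nonneg _ _ _) ?_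
  have e : ∑ ρ : Equiv.Perm (Fin 6), K6 x (vec6 x y ((σ * ρ) 4)) (vec6 x y ((σ * ρ) 5)) =
      ∑ ρ : Equiv.Perm (Fin 6), K6 x (vec6 x y (ρ 4)) (vec6 x y (ρ 5)) :=
    Equiv.sum_comp (Equiv.mulLeft σ) (fun ρ : Equiv.Perm (Fin 6) =>
      K6 x (vec6 x y (ρ 4)) (vec6 x y (ρ 5)))
  rw [e]
  exact D6_perm 4 5 (by decide) (fun a b => K6 x (vec6 x y a) (vec6 x y b))
    (K6_sum x y hx hy hxy)

/-- **the law for `N = 6`** -/
theorem law_six : LawOK (Fin 6) := by
  obtain ⟨μ, hμ⟩ := exists_Mu6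
  haveI := hμ.1
  obtain ⟨ζ, hζ, hs, hl⟩ := exists_sym μ
  have hl' : D6sym μ ζ := hl
  have hs0 : Supp ζ 0 := hs 0 hμ.2.1
  refine ⟨ζ, hζ, hs0, ?_⟩
  rintro u ⟨i₀, j₀, hne⟩
  by_cases hA : ∃ σ : Equiv.Perm (Fin 6), TypeA6 (m6 (u ∘ σ)) (n6 (u ∘ σ)) (r6 (u ∘ σ))
      (a6 (u ∘ σ)) (b6 (u ∘ σ))
  · obtain ⟨σ, hσ⟩ := hA
    obtain ⟨t, e, T, he, hT, hu⟩ := typeA6_spec _ hσ
    refine D6_affine hs0 (ind6 (T.map σ.toEmbedding)) u t e he (fun i => ?_)
      (D6_ind hμ hl' _ (by rw [Finset.card_map, hT]))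
    have h1 := hu (σ.symm i)
    simp only [Function.comp, Equiv.apply_symm_apply] at h1
    rw [h1]
    congr 2
    unfold ind6
    simp only [Finset.mem_map_equiv]
  by_cases hC : ∃ σ : Equiv.Perm (Fin 6), m6 (u ∘ σ) = 0 ∧ n6 (u ∘ σ) = 0 ∧ r6 (u ∘ σ) = 0
  · obtain ⟨σ, h1, h2, h3⟩ := hC
    obtain ⟨t, x, y, hu⟩ := closure6_spec _ h1 h2 h3
    have hu' : ∀ i, u i = t + vec6 x y (σ.symm i) := by
      intro i
      have h4 := hu (σ.symm i)
      simpa only [Function.comp, Equiv.apply_symm_apply] using h4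
    have hv : ∀ (a b : ℤ) (k : Fin 6), vec6 a b k = if k = 0 then a else if k = 1 then -a else
        if k = 2 then b else if k = 3 then -b else 0 := by
      intro a b k
      fin_cases k <;> rfl
    by_cases hy : y = 0
    · subst hy
      have hx : x ≠ 0 := by
        rintro rfl
        refine hne ?_
        rw [hu' i₀, hu' j₀]
        simp [hv]
      refine D6_affine hs0 (dif6 (σ 0) (σ 1)) u t x hx (fun i => ?_)
        (D6_dif hμ hl' _ _ (σ.injective.ne (by decide)))
      rw [hu' i, hv]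
      simp only [dif6, ← Equiv.symm_apply_eq]
      split_ifs <;> ring
    · by_cases hx : x = 0
      · subst hx
        refine D6_affine hs0 (dif6 (σ 2) (σ 3)) u t y hy (fun i => ?_)
          (D6_dif hμ hl' _ _ (σ.injective.ne (by decide)))
        rw [hu' i, hv]
        simp only [dif6, ← Equiv.symm_apply_eq]
        generalize σ.symm i = k
        fin_cases k <;> simp
      · rcases le_total |y| |x| with h | h
        · exact D6_affine hs0 (vec6 x y ∘ σ.symm) u t 1 one_ne_zero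
            (fun i => by rw [hu' i, one_mul]; rfl) (D6_vec hμ hl' x y hx hy h σ.symm)
        · refine D6_affine hs0
            (vec6 y x ∘ ((Equiv.swap (0 : Fin 6) 2 * Equiv.swap (1 : Fin 6) 3) * σ.symm :
              Equiv.Perm (Fin 6))) u t 1 one_ne_zero
            (fun i => ?_) (D6_vec hμ hl' y x hy hx h _)
          rw [hu' i, one_mul]
          simp only [Function.comp, Equiv.Perm.mul_apply]
          congr 1
          generalize σ.symm i = k
          fin_cases k <;> rfl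
  · have h := hl' u (fun _ _ => 1) (fun σ => measurable_const) (fun σ =>
      hμ.load_one (u ∘ σ) (fun h0 => hC ⟨σ, h0⟩) (fun h0 => hA ⟨σ, h0⟩))
    refine h.mono fun z => ?_
    have h1 := D6_avg (fun _ => 1) (fun _ => zero_le_one) (by
      rw [Finset.sum_const, Finset.card_univ, Fintype.card_perm, Fintype.card_fin,
        show (6 : ℕ).factorial = 720 from rfl]
      norm_num)
    simpa using h1

end Pool.Agent.helper49.Slope
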