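import Pool.Agent.helper49.Slope.DefsD6

/-!
MP_aedd95_co (slope of k-fold hyperplane covers of triangular grids), module D6a.
The law `D_6`: geometry. `q = ((s₁,s₂),(η₁,η₂))`, `|s_i| ≤ 1/8`, `η_i = ±1`; `c = 1/2 + s₁`,
`e = 1/2 + s₂` lie in `[3/8, 5/8]`.

PROOFS. `x = (1-4c²-4e²)/(8c)`, so `c x = S₁·S₂ = (1-4c²-4e²)/8` and `c²e² - (c x)² =
(c e - |c x|)(c e + |c x|) > 0`, because `1 - 4c² - 4e² < 0` and `8 c e - (4c²+4e²-1) =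
1 - 4(c-e)² ≥ 3/4`. Hence `e² - x² > 0` and `x² + y² = e²`.
Norms: pairs: `√(c²) + |±(1/2 - s₁)| = 1`; units: `(c+x)² + y² + 3/4 = c² + 2cx + e² + 3/4 = 1`.
`∑ u_i v_i = P₁ S₁ + P₂ S₂ + r (0,0,√(3/4))`, so `vsq = P₁²c² + 2 P₁P₂ c x + P₂² e² + (3/4) r²`
and `2 c x = (1 - 4c² - 4e²)/4`, which is `W6`.
`W6_ge`, `W6_pos`: `W6 m n r s - (3/4) r² = c²m² + 2cx mn + e²n² =: F` and
`c² F = (c² m + c x n)² + (c²e² - (cx)²) n²`.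
-/

set_option autoImplicit false

open MeasureTheory ProbabilityTheory
open scoped ENNReal

namespace Pool.Agent.helper49.Slope

/-- measurability of the common expressions -/
private theorem D6a_meas : Measurable (fun q : (ℝ × ℝ) × (ℝ × ℝ) =>
    (1 - 4 * (1 / 2 + q.1.1) ^ 2 - 4 * (1 / 2 + q.1.2) ^ 2) / (8 * (1 / 2 + q.1.1))) := by
  fun_prop

theorem v6_measurable : Measurable v6 := by
  refine measurable_pi_iff.2 fun i => measurable_pi_iff.2 fun k => ?_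
  have h := D6a_meas
  fin_cases i <;> fin_cases k <;>
    simp only [v6, Matrix.cons_val', Matrix.cons_val, Matrix.cons_val_zero, Matrix.cons_val_one,
      Fin.mk_zero, Fin.mk_one, Fin.isValue, Fin.reduceFinMk, Matrix.cons_val_fin_one] <;>
    fun_prop

theorem d6_measurable : Measurable d6 := by
  refine measurable_pi_iff.2 fun i => ?_
  fin_cases i <;>
    simp only [d6, Matrix.cons_val, Matrix.cons_val_zero, Matrix.cons_val_one,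
      Fin.mk_zero, Fin.mk_one, Fin.isValue, Fin.reduceFinMk] <;> fun_prop

theorem v6_sum (q : (ℝ × ℝ) × (ℝ × ℝ)) (k : Fin 3) : ∑ i, v6 q i k = 0 := by
  rw [Fin.sum_univ_six]
  fin_cases k <;> simp [v6] <;> ring

theorem d6_sum (q : (ℝ × ℝ) × (ℝ × ℝ)) : ∑ i, d6 q i = 0 := by
  rw [Fin.sum_univ_six]
  simp [d6]

/-- the facts about the triangle with sides `c`, `e` -/
private theorem D6a_tri {s t : ℝ} (h1 : |s| ≤ 1 / 8) (h2 : |t| ≤ 1 / 8) :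
    0 < 1 / 2 + s ∧ 0 < (1 / 2 + s) ^ 2 * (1 / 2 + t) ^ 2 -
      ((1 - 4 * (1 / 2 + s) ^ 2 - 4 * (1 / 2 + t) ^ 2) / 8) ^ 2 := by
  obtain ⟨h3, h4⟩ := abs_le.1 h1
  obtain ⟨h5, h6⟩ := abs_le.1 h2
  refine ⟨by linarith, ?_⟩
  set c := 1 / 2 + s with hc
  set e := 1 / 2 + t with he
  have hc1 : 3 / 8 ≤ c := by linarith
  have hc2 : c ≤ 5 / 8 := by linarith
  have he1 : 3 / 8 ≤ e := by linarith
  have he2 : e ≤ 5 / 8 := by linarith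
  have hd1 : -(1 / 4) ≤ c - e := by linarith
  have hd2 : c - e ≤ 1 / 4 := by linarith
  have k1 : 0 < 8 * (c * e) - (4 * c ^ 2 + 4 * e ^ 2 - 1) := by nlinarith
  have k2 : 0 < 8 * (c * e) + (4 * c ^ 2 + 4 * e ^ 2 - 1) := by nlinarith
  have := mul_pos k1 k2
  nlinarith

private theorem D6a_x {s t : ℝ} (h1 : |s| ≤ 1 / 8) :
    (1 / 2 + s) * ((1 - 4 * (1 / 2 + s) ^ 2 - 4 * (1 / 2 + t) ^ 2) / (8 * (1 / 2 + s))) =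
      (1 - 4 * (1 / 2 + s) ^ 2 - 4 * (1 / 2 + t) ^ 2) / 8 := by
  obtain ⟨h3, h4⟩ := abs_le.1 h1
  have h0 : (8 : ℝ) * (1 / 2 + s) ≠ 0 := by
    have : 0 < 8 * (1 / 2 + s) := by linarith
    exact this.ne'
  rw [mul_div_assoc', div_eq_div_iff h0 (by norm_num)]
  ring

private theorem D6a_pos {s t : ℝ} (h1 : |s| ≤ 1 / 8) (h2 : |t| ≤ 1 / 8) :
    0 < (1 / 2 + t) ^ 2 -
      ((1 - 4 * (1 / 2 + s) ^ 2 - 4 * (1 / 2 + t) ^ 2) / (8 * (1 / 2 + s))) ^ 2 := by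
  obtain ⟨hc, hp⟩ := D6a_tri h1 h2
  have hx := D6a_x (t := t) h1
  set x := (1 - 4 * (1 / 2 + s) ^ 2 - 4 * (1 / 2 + t) ^ 2) / (8 * (1 / 2 + s)) with hxd
  rw [← hx] at hp
  have h3 : 0 < (1 / 2 + s) ^ 2 * ((1 / 2 + t) ^ 2 - x ^ 2) := by
    have : (1 / 2 + s) ^ 2 * (1 / 2 + t) ^ 2 - ((1 / 2 + s) * x) ^ 2 =
        (1 / 2 + s) ^ 2 * ((1 / 2 + t) ^ 2 - x ^ 2) := by ring
    linarith
  exact (pos_iff_pos_of_mul_pos h3).1 (by positivity)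

theorem v6_norm (q : (ℝ × ℝ) × (ℝ × ℝ)) (h1 : |q.1.1| ≤ 1 / 8) (h2 : |q.1.2| ≤ 1 / 8)
    (e1 : q.2.1 = 1 ∨ q.2.1 = -1) (e2 : q.2.2 = 1 ∨ q.2.2 = -1) (i : Fin 6) :
    Real.sqrt (∑ k, v6 q i k ^ 2) + |d6 q i| ≤ 1 := by
  obtain ⟨⟨s, t⟩, ⟨η, θ⟩⟩ := q
  simp only at h1 h2 e1 e2
  have hx := D6a_x (t := t) h1
  have hp := D6a_pos h1 h2
  obtain ⟨h3, h4⟩ := abs_le.1 h1
  obtain ⟨h5, h6⟩ := abs_le.1 h2
  set x := (1 - 4 * (1 / 2 + s) ^ 2 - 4 * (1 / 2 + t) ^ 2) / (8 * (1 / 2 + s)) with hxd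
  have hy := Real.sq_sqrt hp.le
  have hh := Real.sq_sqrt (show (0 : ℝ) ≤ 3 / 4 by norm_num)
  set y := Real.sqrt ((1 / 2 + t) ^ 2 - x ^ 2) with hyd
  set h := Real.sqrt (3 / 4) with hhd
  have hc : 0 ≤ 1 / 2 + s := by linarith
  have he : 0 ≤ 1 / 2 + t := by linarith
  have hη : |η * (1 / 2 - s)| = 1 / 2 - s := by
    rcases e1 with rfl | rfl
    · rw [one_mul, abs_of_nonneg (by linarith)]
    · rw [neg_one_mul, abs_neg, abs_of_nonneg (by linarith)]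
  have hθ : |θ * (1 / 2 - t)| = 1 / 2 - t := by
    rcases e2 with rfl | rfl
    · rw [one_mul, abs_of_nonneg (by linarith)]
    · rw [neg_one_mul, abs_neg, abs_of_nonneg (by linarith)]
  have u1 : Real.sqrt ((1 / 2 + s) ^ 2 + 0 ^ 2 + 0 ^ 2) = 1 / 2 + s := by
    rw [show (1 / 2 + s) ^ 2 + (0 : ℝ) ^ 2 + 0 ^ 2 = (1 / 2 + s) ^ 2 by ring, Real.sqrt_sq hc]
  have u2 : Real.sqrt (x ^ 2 + y ^ 2 + 0 ^ 2) = 1 / 2 + t := by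
    rw [hy, show x ^ 2 + ((1 / 2 + t) ^ 2 - x ^ 2) + (0 : ℝ) ^ 2 = (1 / 2 + t) ^ 2 by ring,
      Real.sqrt_sq he]
  have u3 : Real.sqrt ((-((1 / 2 + s) + x)) ^ 2 + (-y) ^ 2 + h ^ 2) = 1 := by
    rw [show (-((1 / 2 + s) + x)) ^ 2 + (-y) ^ 2 + h ^ 2 = 1 by nlinarith, Real.sqrt_one]
  have u4 : Real.sqrt ((-((1 / 2 + s) + x)) ^ 2 + (-y) ^ 2 + (-h) ^ 2) = 1 := by
    rw [neg_sq h, u3]
  rw [Fin.sum_univ_three]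
  fin_cases i
  · change Real.sqrt ((1 / 2 + s) ^ 2 + 0 ^ 2 + 0 ^ 2) + |η * (1 / 2 - s)| ≤ 1
    rw [u1, hη]; linarith
  · change Real.sqrt ((1 / 2 + s) ^ 2 + 0 ^ 2 + 0 ^ 2) + |-(η * (1 / 2 - s))| ≤ 1
    rw [u1, abs_neg, hη]; linarith
  · change Real.sqrt (x ^ 2 + y ^ 2 + 0 ^ 2) + |θ * (1 / 2 - t)| ≤ 1
    rw [u2, hθ]; linarith
  · change Real.sqrt (x ^ 2 + y ^ 2 + 0 ^ 2) + |-(θ * (1 / 2 - t))| ≤ 1
    rw [u2, abs_neg, hθ]; linarith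
  · change Real.sqrt ((-((1 / 2 + s) + x)) ^ 2 + (-y) ^ 2 + h ^ 2) + |(0 : ℝ)| ≤ 1
    rw [u3, abs_zero, add_zero]
  · change Real.sqrt ((-((1 / 2 + s) + x)) ^ 2 + (-y) ^ 2 + (-h) ^ 2) + |(0 : ℝ)| ≤ 1
    rw [u4, abs_zero, add_zero]

theorem vsq_v6 (q : (ℝ × ℝ) × (ℝ × ℝ)) (h1 : |q.1.1| ≤ 1 / 8) (h2 : |q.1.2| ≤ 1 / 8)
    (u : Fin 6 → ℤ) : vsq (v6 q) u = W6 (m6 u) (n6 u) (r6 u) q.1 := by
  obtain ⟨⟨s, t⟩, ⟨η, θ⟩⟩ := q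
  simp only at h1 h2
  have hx := D6a_x (t := t) h1
  have hp := D6a_pos h1 h2
  have hy := Real.sq_sqrt hp.le
  have hh := Real.sq_sqrt (show (0 : ℝ) ≤ 3 / 4 by norm_num)
  have e0 : vsq (v6 ((s, t), (η, θ))) u =
      ((u 0 : ℝ) * (1 / 2 + s) + u 1 * (1 / 2 + s) +
        u 2 * ((1 - 4 * (1 / 2 + s) ^ 2 - 4 * (1 / 2 + t) ^ 2) / (8 * (1 / 2 + s))) +
        u 3 * ((1 - 4 * (1 / 2 + s) ^ 2 - 4 * (1 / 2 + t) ^ 2) / (8 * (1 / 2 + s))) +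
        u 4 * (-((1 / 2 + s) +
          (1 - 4 * (1 / 2 + s) ^ 2 - 4 * (1 / 2 + t) ^ 2) / (8 * (1 / 2 + s)))) +
        u 5 * (-((1 / 2 + s) +
          (1 - 4 * (1 / 2 + s) ^ 2 - 4 * (1 / 2 + t) ^ 2) / (8 * (1 / 2 + s))))) ^ 2 +
      ((u 0 : ℝ) * 0 + u 1 * 0 +
        u 2 * Real.sqrt ((1 / 2 + t) ^ 2 -
          ((1 - 4 * (1 / 2 + s) ^ 2 - 4 * (1 / 2 + t) ^ 2) / (8 * (1 / 2 + s))) ^ 2) +
        u 3 * Real.sqrt ((1 / 2 + t) ^ 2 -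
          ((1 - 4 * (1 / 2 + s) ^ 2 - 4 * (1 / 2 + t) ^ 2) / (8 * (1 / 2 + s))) ^ 2) +
        u 4 * (-Real.sqrt ((1 / 2 + t) ^ 2 -
          ((1 - 4 * (1 / 2 + s) ^ 2 - 4 * (1 / 2 + t) ^ 2) / (8 * (1 / 2 + s))) ^ 2)) +
        u 5 * (-Real.sqrt ((1 / 2 + t) ^ 2 -
          ((1 - 4 * (1 / 2 + s) ^ 2 - 4 * (1 / 2 + t) ^ 2) / (8 * (1 / 2 + s))) ^ 2))) ^ 2 +
      ((u 0 : ℝ) * 0 + u 1 * 0 + u 2 * 0 + u 3 * 0 + u 4 * Real.sqrt (3 / 4) +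
        u 5 * (-Real.sqrt (3 / 4))) ^ 2 := by
    unfold vsq
    rw [Fin.sum_univ_three, Fin.sum_univ_six, Fin.sum_univ_six, Fin.sum_univ_six]
    rfl
  rw [e0]
  set x := (1 - 4 * (1 / 2 + s) ^ 2 - 4 * (1 / 2 + t) ^ 2) / (8 * (1 / 2 + s)) with hxd
  set y := Real.sqrt ((1 / 2 + t) ^ 2 - x ^ 2) with hyd
  set h := Real.sqrt (3 / 4) with hhd
  unfold W6 m6 n6 r6
  push_cast
  linear_combination
    (2 * ((u 0 : ℝ) + u 1 - u 4 - u 5) * ((u 2 : ℝ) + u 3 - u 4 - u 5)) * hx +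
    ((u 2 : ℝ) + u 3 - u 4 - u 5) ^ 2 * hy + ((u 4 : ℝ) - u 5) ^ 2 * hh

theorem lin_d6 (q : (ℝ × ℝ) × (ℝ × ℝ)) (u : Fin 6 → ℤ) :
    ∑ i, (u i : ℝ) * d6 q i = D6c (a6 u) (b6 u) q := by
  rw [Fin.sum_univ_six]
  have e0 : (u 0 : ℝ) * d6 q 0 + u 1 * d6 q 1 + u 2 * d6 q 2 + u 3 * d6 q 3 + u 4 * d6 q 4 +
      u 5 * d6 q 5 = (u 0 : ℝ) * (q.2.1 * (1 / 2 - q.1.1)) + u 1 * (-(q.2.1 * (1 / 2 - q.1.1))) +
      u 2 * (q.2.2 * (1 / 2 - q.1.2)) + u 3 * (-(q.2.2 * (1 / 2 - q.1.2))) + u 4 * 0 +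
      u 5 * 0 := rfl
  rw [e0]
  unfold D6c a6 b6
  push_cast
  ring

/-- the quadratic form without the last coordinate -/
private theorem D6a_form (m n r : ℤ) (s : ℝ × ℝ) :
    (1 / 2 + s.1) ^ 2 * (W6 m n r s - 3 / 4 * (r : ℝ) ^ 2) =
      ((1 / 2 + s.1) ^ 2 * m +
        (1 - 4 * (1 / 2 + s.1) ^ 2 - 4 * (1 / 2 + s.2) ^ 2) / 8 * n) ^ 2 +
      ((1 / 2 + s.1) ^ 2 * (1 / 2 + s.2) ^ 2 -
      ((1 - 4 * (1 / 2 + s.1) ^ 2 - 4 * (1 / 2 + s.2) ^ 2) / 8) ^ 2) * (n : ℝ) ^ 2 := by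
  unfold W6
  ring

theorem W6_ge (m n r : ℤ) (s : ℝ × ℝ) (h1 : |s.1| ≤ 1 / 8) (h2 : |s.2| ≤ 1 / 8) :
    3 / 4 * (r : ℝ) ^ 2 ≤ W6 m n r s := by
  obtain ⟨hc, hp⟩ := D6a_tri h1 h2
  have hf := D6a_form m n r s
  have h3 : 0 ≤ (1 / 2 + s.1) ^ 2 * (W6 m n r s - 3 / 4 * (r : ℝ) ^ 2) := by
    rw [hf]
    have := mul_nonneg hp.le (sq_nonneg (n : ℝ))
    have := sq_nonneg ((1 / 2 + s.1) ^ 2 * m +
        (1 - 4 * (1 / 2 + s.1) ^ 2 - 4 * (1 / 2 + s.2) ^ 2) / 8 * n)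
    linarith
  have h4 : 0 ≤ W6 m n r s - 3 / 4 * (r : ℝ) ^ 2 := by
    have h5 : 0 < (1 / 2 + s.1) ^ 2 := by positivity
    exact nonneg_of_mul_nonneg_right h3 h5
  linarith

theorem W6_pos (m n r : ℤ) (h : ¬ (m = 0 ∧ n = 0 ∧ r = 0)) (s : ℝ × ℝ) (h1 : |s.1| ≤ 1 / 8)
    (h2 : |s.2| ≤ 1 / 8) : 0 < W6 m n r s := by
  obtain ⟨hc, hp⟩ := D6a_tri h1 h2
  have hge := W6_ge m n r s h1 h2
  by_cases hr : r = 0
  swap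
  · have : 0 < (r : ℝ) ^ 2 := by
      have : (r : ℝ) ≠ 0 := by exact_mod_cast hr
      positivity
    linarith
  subst hr
  have hf := D6a_form m n 0 s
  have h5 : 0 < (1 / 2 + s.1) ^ 2 := by positivity
  have h3 : 0 < (1 / 2 + s.1) ^ 2 * (W6 m n 0 s - 3 / 4 * ((0 : ℤ) : ℝ) ^ 2) := by
    rw [hf]
    by_cases hn : n = 0
    · subst hn
      have hm : m ≠ 0 := fun hm => h ⟨hm, rfl, rfl⟩
      have hm' : (m : ℝ) ≠ 0 := by exact_mod_cast hm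
      have h6 : 0 < ((1 / 2 + s.1) ^ 2 * (m : ℝ)) ^ 2 := by positivity
      simpa using h6
    · have hn' : (n : ℝ) ≠ 0 := by exact_mod_cast hn
      have h6 : 0 < (n : ℝ) ^ 2 := by positivity
      have h7 := mul_pos hp h6
      have h8 := sq_nonneg ((1 / 2 + s.1) ^ 2 * m +
        (1 - 4 * (1 / 2 + s.1) ^ 2 - 4 * (1 / 2 + s.2) ^ 2) / 8 * n)
      linarith
  have h4 := (pos_iff_pos_of_mul_pos h3).1 h5
  simpa using h4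

theorem W6_measurable (m n r : ℤ) : Measurable (W6 m n r) := by
  unfold W6
  fun_prop

end Pool.Agent.helper49.Slope
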