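import Pool.Agent.helper49.Slope.DefsD6
import Pool.Agent.helper49.Slope.D6a

/-!
MP_aedd95_co (slope of k-fold hyperplane covers of triangular grids), module D6b.
The law `D_6`: lower bounds of the quadratic form `W6`, patterns.

`q₁ = (1/2+s₁)²` and `q₂ = (1/2+s₂)²` lie in `[9/64, 25/64]`; all statements below are consequences
of these bounds (linear in `q₁, q₂`).
PROOFS (`W = W6 m n 0 s = (m-n)(q₁m - q₂n) + mn/4`).
* `m = k ≥ 0`, `n = -l ≤ 0`: `W = (k+l)(q₁k+q₂l) - kl/4 ≥ (k+l)²(9/64) - (k+l)²/16 = 5(k+l)²/64`.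
* `m ≥ n ≥ 0`: `W ≥ (m-n)(9m-25n)/64 + mn/4 = (9(m-n)² + 16 n²)/64`.
So for `|n| ≤ m` and `r = 0`: `W ≥ 1` if `n < 0` and `m - n ≥ 4`; if `n ≥ 2`, except possibly... (for
`n = 2`, `m ≥ 2`: `16·4/64 = 1`, fine; all `n ≥ 2` are fine); `n = 1`, `m ≥ 4`: `81/64`; `n = 0`,
`m ≥ 3`: `81/64`. Remaining: the list.
For `|r| = 1` one needs `W ≥ 1/4`: `(1,1)`: `W = 1/4`; `(1,-1)`: `W = 2(q₁+q₂) - 1/4 ≥ 5/16`; `n < 0`,
`m - n ≥ 3`: `45/64`; `n ≥ 1`: `≥ 16/64`; `n = 0`, `m ≥ 2`: `≥ 36/64`.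
-/

set_option autoImplicit false

open MeasureTheory ProbabilityTheory
open scoped ENNReal

namespace Pool.Agent.helper49.Slope

/-- the square of a scale -/
lemma D6b_sq {t : ℝ} (h : |t| ≤ 1 / 8) : 9 / 64 ≤ (1 / 2 + t) ^ 2 ∧ (1 / 2 + t) ^ 2 ≤ 25 / 64 := by
  obtain ⟨h1, h2⟩ := abs_le.1 h
  constructor <;> nlinarith

lemma D6b_neg {m n r : ℤ} (h : -n ≤ m) (hn : n < 0) {s : ℝ × ℝ} (h1 : |s.1| ≤ 1 / 8)
    (h2 : |s.2| ≤ 1 / 8) :
    5 / 64 * ((m : ℝ) - n) ^ 2 + 3 / 4 * (r : ℝ) ^ 2 ≤ W6 m n r s := by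
  obtain ⟨a1, -⟩ := D6b_sq h1
  obtain ⟨b1, -⟩ := D6b_sq h2
  have hm' : (-(n : ℝ)) ≤ m := by exact_mod_cast h
  have hn' : (n : ℝ) < 0 := by exact_mod_cast hn
  unfold W6
  set q1 := (1 / 2 + s.1) ^ 2
  set q2 := (1 / 2 + s.2) ^ 2
  have e1 : 0 ≤ ((m : ℝ) - n) * ((q1 - 9 / 64) * m) := by
    apply mul_nonneg (by linarith)
    exact mul_nonneg (by linarith) (by linarith)
  have e2 : 0 ≤ ((m : ℝ) - n) * ((q2 - 9 / 64) * (-n)) := by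
    apply mul_nonneg (by linarith)
    exact mul_nonneg (by linarith) (by linarith)
  nlinarith [sq_nonneg ((m : ℝ) + n)]

lemma D6b_pos {m n r : ℤ} (h : n ≤ m) (hn : 0 ≤ n) {s : ℝ × ℝ} (h1 : |s.1| ≤ 1 / 8)
    (h2 : |s.2| ≤ 1 / 8) :
    (9 * ((m : ℝ) - n) ^ 2 + 16 * (n : ℝ) ^ 2) / 64 + 3 / 4 * (r : ℝ) ^ 2 ≤ W6 m n r s := by
  obtain ⟨a1, -⟩ := D6b_sq h1
  obtain ⟨-, b2⟩ := D6b_sq h2
  have hm' : (n : ℝ) ≤ m := by exact_mod_cast h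
  have hn' : 0 ≤ (n : ℝ) := by exact_mod_cast hn
  unfold W6
  set q1 := (1 / 2 + s.1) ^ 2
  set q2 := (1 / 2 + s.2) ^ 2
  have e1 : 0 ≤ ((m : ℝ) - n) * ((q1 - 9 / 64) * m) := by
    apply mul_nonneg (by linarith)
    exact mul_nonneg (by linarith) (by linarith)
  have e2 : 0 ≤ ((m : ℝ) - n) * ((25 / 64 - q2) * n) := by
    apply mul_nonneg (by linarith)
    exact mul_nonneg (by linarith) (by linarith)
  nlinarith

/-- patterns for `r = 0` -/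
theorem pattern6 (m n : ℤ) (h : |n| ≤ m) :
    (m = 0 ∧ n = 0) ∨ (m = 1 ∧ n = 0) ∨ (m = 1 ∧ n = 1) ∨ (m = 1 ∧ n = -1) ∨
    (m = 2 ∧ n = 0) ∨ (m = 2 ∧ n = 1) ∨ (m = 2 ∧ n = -1) ∨ (m = 3 ∧ n = 1) ∨
    ∀ s : ℝ × ℝ, |s.1| ≤ 1 / 8 → |s.2| ≤ 1 / 8 → 1 ≤ W6 m n 0 s := by
  obtain ⟨h1, h2⟩ := abs_le.1 h
  rcases lt_or_ge n 0 with hn | hn
  · by_cases h4 : m - n ≤ 3
    · omega
    · iterate 8 right
      intro s hs1 hs2
      have h5 := D6b_neg (r := 0) (by omega : -n ≤ m) hn hs1 hs2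
      have h6 : (4 : ℝ) ≤ (m : ℝ) - n := by
        have : (4 : ℤ) ≤ m - n := by omega
        exact_mod_cast this
      push_cast at h5
      nlinarith
  · by_cases h4 : (n = 0 ∧ m ≤ 2) ∨ (n = 1 ∧ m ≤ 3)
    · omega
    · iterate 8 right
      intro s hs1 hs2
      have h5 := D6b_pos (r := 0) h2 hn hs1 hs2
      push_cast at h5
      have h7 : 0 ≤ ((m : ℝ) - n) := by
        have : (0 : ℤ) ≤ m - n := by omega
        exact_mod_cast this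
      have hc : (n = 0 ∧ 3 ≤ m) ∨ (n = 1 ∧ 4 ≤ m) ∨ 2 ≤ n := by omega
      rcases hc with ⟨rfl, h6⟩ | ⟨rfl, h6⟩ | h6
      · have : (3 : ℝ) ≤ m := by exact_mod_cast h6
        push_cast at h5
        nlinarith
      · have : (4 : ℝ) ≤ m := by exact_mod_cast h6
        push_cast at h5
        nlinarith
      · have : (2 : ℝ) ≤ n := by exact_mod_cast h6
        nlinarith [sq_nonneg ((m : ℝ) - n)]

/-- patterns for `|r| = 1` -/
theorem pattern6' (m n r : ℤ) (h : |n| ≤ m) (hr : |r| = 1) :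
    (m = 0 ∧ n = 0) ∨ (m = 1 ∧ n = 0) ∨
    ∀ s : ℝ × ℝ, |s.1| ≤ 1 / 8 → |s.2| ≤ 1 / 8 → 1 ≤ W6 m n r s := by
  obtain ⟨h1, h2⟩ := abs_le.1 h
  have hr2 : (r : ℝ) ^ 2 = 1 := by
    have : r ^ 2 = 1 := by rw [← sq_abs, hr, one_pow]
    exact_mod_cast this
  rcases lt_or_ge n 0 with hn | hn
  · iterate 2 right
    intro s hs1 hs2
    have h5 := D6b_neg (r := r) (by omega : -n ≤ m) hn hs1 hs2
    rw [hr2] at h5
    have h6 : (2 : ℝ) ≤ (m : ℝ) - n := by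
      have : (2 : ℤ) ≤ m - n := by omega
      exact_mod_cast this
    nlinarith
  · by_cases h4 : n = 0 ∧ m ≤ 1
    · omega
    · iterate 2 right
      intro s hs1 hs2
      have h5 := D6b_pos (r := r) h2 hn hs1 hs2
      rw [hr2] at h5
      have h7 : 0 ≤ ((m : ℝ) - n) := by
        have : (0 : ℤ) ≤ m - n := by omega
        exact_mod_cast this
      have hc : (n = 0 ∧ 2 ≤ m) ∨ 1 ≤ n := by omega
      rcases hc with ⟨rfl, h6⟩ | h6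
      · have : (2 : ℝ) ≤ m := by exact_mod_cast h6
        push_cast at h5
        nlinarith
      · have : (1 : ℝ) ≤ n := by exact_mod_cast h6
        nlinarith [sq_nonneg ((m : ℝ) - n)]

end Pool.Agent.helper49.Slope
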