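import Pool.Agent.helper49.Slope.DefsD6

/-!
MP_aedd95_co (slope of k-fold hyperplane covers of triangular grids), module D6ca.
The law `D_6`: pointwise counting for the average of four kernels.

PROOFS. `ker D V z` is `ofReal (1/V)` if `|z - D| ≤ V` and `0` otherwise. The four centres `±A±B`
form two pairs at distance `2|A|` (`(A+B, -A+B)` and `(A-B, -A-B)`) and two pairs at distance
`2|B|`: if `V < |A|` or `V < |B|` at most two kernels are nonzero at `z`. The largest distance of `z`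
from a centre is `|z| + |A| + |B|` (the centre `-sgn(z)(|A|+|B|)` is one of the four), so if it
exceeds `V` at most three kernels are nonzero. If `B = 0` the four centres are `A, A, -A, -A`.
(If `V ≤ 0` all the terms are `0`: `ENNReal.ofReal (1/V) = 0`.)
-/

set_option autoImplicit false

open MeasureTheory ProbabilityTheory
open scoped ENNReal

namespace Pool.Agent.helper49.Slope

/-- indicator -/
noncomputable def D6ca_i (D V z : ℝ) : ℝ := if |z - D| ≤ V then 1 else 0

theorem D6ca_i_nn (D V z : ℝ) : 0 ≤ D6ca_i D V z := by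
  unfold D6ca_i; split_ifs <;> norm_num

theorem D6ca_i_le (D V z : ℝ) : D6ca_i D V z ≤ 1 := by
  unfold D6ca_i; split_ifs <;> norm_num

theorem D6ca_ker0 {V : ℝ} (hV : V ≤ 0) (D z : ℝ) : ker D V z = 0 := by
  unfold ker
  split_ifs
  · exact ENNReal.ofReal_of_nonpos (div_nonpos_of_nonneg_of_nonpos zero_le_one hV)
  · rfl

theorem D6ca_ker {V : ℝ} (D z : ℝ) : ker D V z = ENNReal.ofReal (D6ca_i D V z * (1 / V)) := by
  unfold ker D6ca_i
  split_ifs <;> simp

theorem D6ca_k4 {V : ℝ} (hV : 0 < V) (A B z : ℝ) : k4 A B V z =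
    ENNReal.ofReal ((D6ca_i (A + B) V z + D6ca_i (A - B) V z + D6ca_i (-A + B) V z +
      D6ca_i (-A - B) V z) / 4 * (1 / V)) := by
  have hc : 0 ≤ 1 / V := by positivity
  have n1 := mul_nonneg (D6ca_i_nn (A + B) V z) hc
  have n2 := mul_nonneg (D6ca_i_nn (A - B) V z) hc
  have n3 := mul_nonneg (D6ca_i_nn (-A + B) V z) hc
  have n4 := mul_nonneg (D6ca_i_nn (-A - B) V z) hc
  have h4 : (4 : ℝ≥0∞) = ENNReal.ofReal 4 := by norm_num
  unfold k4
  rw [D6ca_ker, D6ca_ker, D6ca_ker, D6ca_ker, ← ENNReal.ofReal_add n1 n2,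
    ← ENNReal.ofReal_add (add_nonneg n1 n2) n3,
    ← ENNReal.ofReal_add (add_nonneg (add_nonneg n1 n2) n3) n4, h4,
    ← ENNReal.ofReal_div_of_pos (by norm_num)]
  congr 1
  ring

theorem D6ca_k40 {V : ℝ} (hV : V ≤ 0) (A B z : ℝ) : k4 A B V z = 0 := by
  unfold k4
  simp [D6ca_ker0 hV]

theorem D6ca_le {V q : ℝ} (hq : 0 ≤ q) (A B z : ℝ)
    (h : D6ca_i (A + B) V z + D6ca_i (A - B) V z + D6ca_i (-A + B) V z +
      D6ca_i (-A - B) V z ≤ 4 * q) :
    k4 A B V z ≤ ENNReal.ofReal q * ENNReal.ofReal (1 / V) := by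
  rcases le_or_gt V 0 with hV | hV
  · rw [D6ca_k40 hV]
    exact zero_le
  · rw [D6ca_k4 hV, ← ENNReal.ofReal_mul hq]
    apply ENNReal.ofReal_le_ofReal
    have hc : 0 ≤ 1 / V := by positivity
    apply mul_le_mul_of_nonneg_right _ hc
    linarith

theorem k4_le (A B V z : ℝ) : k4 A B V z ≤ ENNReal.ofReal (1 / V) := by
  have h := D6ca_le (V := V) (q := 1) zero_le_one A B z (by
    have h1 := D6ca_i_le (A + B) V z
    have h2 := D6ca_i_le (A - B) V z
    have h3 := D6ca_i_le (-A + B) V z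
    have h4 := D6ca_i_le (-A - B) V z
    linarith)
  simpa using h

theorem k4_le_34 (A B V z : ℝ) (h : V < |z| + |A| + |B|) :
    k4 A B V z ≤ ENNReal.ofReal (3 / 4) * ENNReal.ofReal (1 / V) := by
  apply D6ca_le (by norm_num)
  by_cases hall : |z - (A + B)| ≤ V ∧ |z - (A - B)| ≤ V ∧ |z - (-A + B)| ≤ V ∧
      |z - (-A - B)| ≤ V
  · exfalso
    obtain ⟨h1, h2, h3, h4⟩ := hall
    rw [abs_le] at h1 h2 h3 h4
    obtain ⟨a1, b1⟩ := h1
    obtain ⟨a2, b2⟩ := h2
    obtain ⟨a3, b3⟩ := h3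
    obtain ⟨a4, b4⟩ := h4
    rcases abs_cases z with ⟨e1, _⟩ | ⟨e1, _⟩ <;> rcases abs_cases A with ⟨e2, _⟩ | ⟨e2, _⟩ <;>
      rcases abs_cases B with ⟨e3, _⟩ | ⟨e3, _⟩ <;> rw [e1, e2, e3] at h <;> linarith
  · unfold D6ca_i
    split_ifs <;> first | (exfalso; tauto) | norm_num

theorem k4_le_12 (A B V z : ℝ) (h : V < |A| ∨ V < |B|) :
    k4 A B V z ≤ ENNReal.ofReal (1 / 2) * ENNReal.ofReal (1 / V) := by
  apply D6ca_le (by norm_num)
  have key : ∀ x y : ℝ, 2 * V < |x - y| → D6ca_i x V z + D6ca_i y V z ≤ 1 := by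
    intro x y hxy
    unfold D6ca_i
    split_ifs with h1 h2 h2
    · exfalso
      have : |x - y| ≤ |z - y| + |z - x| := by
        calc |x - y| = |(z - y) - (z - x)| := by ring_nf
          _ ≤ |z - y| + |z - x| := abs_sub _ _
      linarith
    · norm_num
    · norm_num
    · norm_num
  rcases h with h | h
  · have k1 := key (A + B) (-A + B) (by
      have : A + B - (-A + B) = 2 * A := by ring
      rw [this, abs_mul, abs_two]; linarith)
    have k2 := key (A - B) (-A - B) (by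
      have : A - B - (-A - B) = 2 * A := by ring
      rw [this, abs_mul, abs_two]; linarith)
    linarith
  · have k1 := key (A + B) (A - B) (by
      have : A + B - (A - B) = 2 * B := by ring
      rw [this, abs_mul, abs_two]; linarith)
    have k2 := key (-A + B) (-A - B) (by
      have : -A + B - (-A - B) = 2 * B := by ring
      rw [this, abs_mul, abs_two]; linarith)
    linarith

theorem k4_zero (A V z : ℝ) : k4 A 0 V z = (ker A V z + ker (-A) V z) / 2 := by
  rcases le_or_gt V 0 with hV | hV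
  · rw [D6ca_k40 hV]
    simp [D6ca_ker0 hV]
  · have hc : 0 ≤ 1 / V := by positivity
    have n1 := mul_nonneg (D6ca_i_nn A V z) hc
    have n2 := mul_nonneg (D6ca_i_nn (-A) V z) hc
    have h2 : (2 : ℝ≥0∞) = ENNReal.ofReal 2 := by norm_num
    rw [D6ca_k4 hV, D6ca_ker, D6ca_ker, ← ENNReal.ofReal_add n1 n2, h2,
      ← ENNReal.ofReal_div_of_pos (by norm_num)]
    simp only [add_zero, sub_zero]
    congr 1
    ring

theorem k4_zero_le (A V z : ℝ) (h : V < |z| + |A|) :
    k4 A 0 V z ≤ ENNReal.ofReal (1 / 2) * ENNReal.ofReal (1 / V) := by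
  apply D6ca_le (by norm_num)
  simp only [add_zero, sub_zero]
  by_cases hall : |z - A| ≤ V ∧ |z - -A| ≤ V
  · exfalso
    obtain ⟨h1, h2⟩ := hall
    rw [abs_le] at h1 h2
    obtain ⟨a1, b1⟩ := h1
    obtain ⟨a2, b2⟩ := h2
    rcases abs_cases z with ⟨e1, _⟩ | ⟨e1, _⟩ <;> rcases abs_cases A with ⟨e2, _⟩ | ⟨e2, _⟩ <;>
      rw [e1, e2] at h <;> linarith
  · unfold D6ca_i
    split_ifs <;> first | (exfalso; tauto) | norm_num

end Pool.Agent.helper49.Slope
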