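import Pool.Agent.helper49.Slope.DefsD6
import Pool.Agent.helper49.Slope.D6ca
import Pool.Agent.helper49.Slope.J1
import Pool.Agent.helper49.Slope.B4

/-!
MP_aedd95_co (slope of k-fold hyperplane covers of triangular grids), module D6c.
The law `D_6`: average over the signs, counting, symmetries.

PROOFS. Pointwise bounds are in D6ca (`|a (1/2-s₁)| = |a| (1/2-s₁)` for `s₁` in range; a.e. by
`lam2_ae`, `lintegral_mono_ae`, `lintegral_const_mul`).
`L6_eq`: `lintegral_prod` (the integrand is measurable, see `B4_measurable_ker`), then twice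
`lintegral_sgnM` for each `s`.
Symmetries: `L6_swap` from `lintegral_prod_symm`/`Measure.prod_swap` (`W6 n m r s.swap = W6 m n r s`
by `ring`); `L6_neg`, `L6_negr`: `W6` does not change; `L6_abs`: `k4` is even in `A` and in `B`;
`L6_negz`: `k4 A B V (-z) = k4 A B V z`.
-/

set_option autoImplicit false

open MeasureTheory ProbabilityTheory
open scoped ENNReal

namespace Pool.Agent.helper49.Slope

theorem lam2_prob : IsProbabilityMeasure lam2 := by
  have : IsProbabilityMeasure (lam (1 / 8)) := lam_prob (by norm_num) (by norm_num)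
  infer_instance

theorem pi6_prob : IsProbabilityMeasure pi6 := by
  have := lam2_prob
  have := sgnM_prob
  infer_instance

theorem lam2_ae : ∀ᵐ s ∂lam2, |s.1| ≤ 1 / 8 ∧ |s.2| ≤ 1 / 8 := by
  have : IsProbabilityMeasure (lam (1 / 8)) := lam_prob (by norm_num) (by norm_num)
  have h1 : ∀ᵐ s ∂lam2, |s.1| ≤ 1 / 8 :=
    Measure.quasiMeasurePreserving_fst.ae (lam_ae (1 / 8))
  have h2 : ∀ᵐ s ∂lam2, |s.2| ≤ 1 / 8 :=
    Measure.quasiMeasurePreserving_snd.ae (lam_ae (1 / 8))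
  exact h1.and h2

theorem pi6_ae : ∀ᵐ q ∂pi6, (|q.1.1| ≤ 1 / 8 ∧ |q.1.2| ≤ 1 / 8) ∧
    (q.2.1 = 1 ∨ q.2.1 = -1) ∧ (q.2.2 = 1 ∨ q.2.2 = -1) := by
  have := lam2_prob
  have := sgnM_prob
  have h1 : ∀ᵐ q ∂pi6, |q.1.1| ≤ 1 / 8 ∧ |q.1.2| ≤ 1 / 8 :=
    Measure.quasiMeasurePreserving_fst.ae lam2_ae
  have h2 : ∀ᵐ t ∂(sgnM.prod sgnM), t.1 = 1 ∨ t.1 = -1 :=
    Measure.quasiMeasurePreserving_fst.ae sgnM_ae
  have h3 : ∀ᵐ t ∂(sgnM.prod sgnM), t.2 = 1 ∨ t.2 = -1 :=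
    Measure.quasiMeasurePreserving_snd.ae sgnM_ae
  have h4 : ∀ᵐ q ∂pi6, (q.2.1 = 1 ∨ q.2.1 = -1) ∧ (q.2.2 = 1 ∨ q.2.2 = -1) :=
    Measure.quasiMeasurePreserving_snd.ae (h2.and h3)
  exact h1.and h4

theorem D6c_measurable (a b : ℤ) : Measurable (D6c a b) := by
  unfold D6c
  fun_prop

theorem D6c_W_measurable (m n r : ℤ) : Measurable (fun s : ℝ × ℝ => Real.sqrt (W6 m n r s)) := by
  unfold W6
  fun_prop

theorem k4_measurable (m n r a b : ℤ) : Measurable (fun p : (ℝ × ℝ) × ℝ =>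
    k4 (a * (1 / 2 - p.1.1)) (b * (1 / 2 - p.1.2)) (Real.sqrt (W6 m n r p.1)) p.2) := by
  have hV := D6c_W_measurable m n r
  have hA : Measurable (fun s : ℝ × ℝ => (a : ℝ) * (1 / 2 - s.1)) := by fun_prop
  have hB : Measurable (fun s : ℝ × ℝ => (b : ℝ) * (1 / 2 - s.2)) := by fun_prop
  unfold k4
  refine Measurable.div_const ?_ 4
  refine ((Measurable.add ?_ ?_).add ?_).add ?_
  · exact B4_measurable_ker (hA.add hB) hV
  · exact B4_measurable_ker (hA.sub hB) hV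
  · exact B4_measurable_ker (hA.neg.add hB) hV
  · exact B4_measurable_ker (hA.neg.sub hB) hV

theorem D6c_ker_measurable (m n r a b : ℤ) :
    Measurable (fun p : ((ℝ × ℝ) × (ℝ × ℝ)) × ℝ =>
      ker (D6c a b p.1) (Real.sqrt (W6 m n r p.1.1)) p.2) :=
  B4_measurable_ker (D6c_measurable a b) ((D6c_W_measurable m n r).comp measurable_fst)

theorem L6_measurable (m n r a b : ℤ) : Measurable (L6 m n r a b) := by
  have := pi6_prob
  exact Measurable.lintegral_prod_left' (D6c_ker_measurable m n r a b)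

theorem D6c_half (x y z w : ℝ≥0∞) :
    ((x + y) / 2 + (z + w) / 2) / 2 = (x + y + z + w) / 4 := by
  have h : (4 : ℝ≥0∞)⁻¹ = 2⁻¹ * 2⁻¹ := by
    rw [← ENNReal.mul_inv (Or.inl (by norm_num)) (Or.inl (by norm_num))]
    norm_num
  simp only [div_eq_mul_inv, h]
  ring

theorem L6_eq (m n r a b : ℤ) (z : ℝ) : L6 m n r a b z =
    ∫⁻ s, k4 (a * (1 / 2 - s.1)) (b * (1 / 2 - s.2)) (Real.sqrt (W6 m n r s)) z ∂lam2 := by
  have := lam2_prob
  have := sgnM_prob
  have hm : Measurable (fun q : (ℝ × ℝ) × (ℝ × ℝ) =>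
      ker (D6c a b q) (Real.sqrt (W6 m n r q.1)) z) :=
    (D6c_ker_measurable m n r a b).comp (measurable_id.prodMk measurable_const)
  unfold L6
  rw [lintegral_prod _ hm.aemeasurable]
  refine lintegral_congr fun s => ?_
  have hs : Measurable (fun t : ℝ × ℝ => ker (D6c a b (s, t)) (Real.sqrt (W6 m n r s)) z) :=
    hm.comp (measurable_const.prodMk measurable_id)
  rw [lintegral_prod _ hs.aemeasurable]
  have h1 : ∀ x : ℝ, ∫⁻ y, ker (D6c a b (s, (x, y))) (Real.sqrt (W6 m n r s)) z ∂sgnM =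
      (ker (D6c a b (s, (x, 1))) (Real.sqrt (W6 m n r s)) z +
        ker (D6c a b (s, (x, -1))) (Real.sqrt (W6 m n r s)) z) / 2 := by
    intro x
    exact lintegral_sgnM _ (hs.comp (measurable_const.prodMk measurable_id))
  simp only [h1]
  rw [lintegral_sgnM]
  · rw [D6c_half]
    unfold k4 D6c
    simp only [one_mul, neg_mul, mul_neg, ← sub_eq_add_neg]
  · refine Measurable.div_const (Measurable.add ?_ ?_) 2
    · exact hs.comp (measurable_id.prodMk measurable_const)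
    · exact hs.comp (measurable_id.prodMk measurable_const)

theorem D6c_W_swap (m n r : ℤ) (s : ℝ × ℝ) : W6 n m r s.swap = W6 m n r s := by
  unfold W6
  simp only [Prod.fst_swap, Prod.snd_swap]
  ring

theorem k4_swap (A B V z : ℝ) : k4 B A V z = k4 A B V z := by
  unfold k4
  rw [add_comm B A, show B - A = -A + B by ring, show -B + A = A - B by ring,
    show -B - A = -A - B by ring]
  congr 1
  ring

theorem L6_swap (m n r a b : ℤ) (z : ℝ) : L6 m n r a b z = L6 n m r b a z := by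
  rw [L6_eq, L6_eq]
  have : IsProbabilityMeasure (lam (1 / 8)) := lam_prob (by norm_num) (by norm_num)
  rw [← lintegral_prod_swap (fun s : ℝ × ℝ =>
    k4 (b * (1 / 2 - s.1)) (a * (1 / 2 - s.2)) (Real.sqrt (W6 n m r s)) z)]
  refine lintegral_congr fun s => ?_
  rw [D6c_W_swap, Prod.fst_swap, Prod.snd_swap, k4_swap]

theorem L6_neg (m n r a b : ℤ) (z : ℝ) : L6 m n r a b z = L6 (-m) (-n) r a b z := by
  have h : ∀ s, W6 (-m) (-n) r s = W6 m n r s := by
    intro s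
    unfold W6
    push_cast
    ring
  unfold L6
  simp only [h]

theorem L6_negr (m n r a b : ℤ) (z : ℝ) : L6 m n r a b z = L6 m n (-r) a b z := by
  have h : ∀ s, W6 m n (-r) s = W6 m n r s := by
    intro s
    unfold W6
    push_cast
    ring
  unfold L6
  simp only [h]

theorem k4_negA (A B V z : ℝ) : k4 (-A) B V z = k4 A B V z := by
  unfold k4
  rw [neg_neg]
  congr 1
  ring

theorem k4_negB (A B V z : ℝ) : k4 A (-B) V z = k4 A B V z := by
  rw [k4_swap, k4_negA, k4_swap]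

theorem D6c_abs (a : ℤ) (x : ℝ) (f : ℝ → ℝ≥0∞) (hf : ∀ A, f (-A) = f A) :
    f ((a : ℝ) * x) = f (((|a| : ℤ) : ℝ) * x) := by
  rcases abs_choice a with h | h
  · rw [h]
  · rw [h, Int.cast_neg, neg_mul, hf]

theorem L6_abs (m n r a b : ℤ) (z : ℝ) : L6 m n r a b z = L6 m n r |a| |b| z := by
  rw [L6_eq, L6_eq]
  refine lintegral_congr fun s => ?_
  rw [D6c_abs a _ (fun A => k4 A (b * (1 / 2 - s.2)) (Real.sqrt (W6 m n r s)) z)
    (fun A => k4_negA _ _ _ _),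
    D6c_abs b _ (fun B => k4 ((|a| : ℤ) * (1 / 2 - s.1)) B (Real.sqrt (W6 m n r s)) z)
    (fun A => k4_negB _ _ _ _)]

theorem ker_negz (D V z : ℝ) : ker D V (-z) = ker (-D) V z := by
  unfold ker
  rw [show -z - D = -(z - -D) by ring, abs_neg]

theorem k4_negz (A B V z : ℝ) : k4 A B V (-z) = k4 A B V z := by
  unfold k4
  simp only [ker_negz]
  rw [show -(A + B) = -A - B by ring, show -(A - B) = -A + B by ring,
    show -(-A + B) = A - B by ring, show -(-A - B) = A + B by ring]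
  congr 1
  ring

theorem L6_negz (m n r a b : ℤ) (z : ℝ) : L6 m n r a b (-z) = L6 m n r a b z := by
  rw [L6_eq, L6_eq]
  exact lintegral_congr fun s => k4_negz _ _ _ _

theorem E6_swap (m n r : ℤ) : E6 m n r = E6 n m r := by
  unfold E6
  have : IsProbabilityMeasure (lam (1 / 8)) := lam_prob (by norm_num) (by norm_num)
  rw [← lintegral_prod_swap (fun s : ℝ × ℝ => ENNReal.ofReal (1 / Real.sqrt (W6 n m r s)))]
  refine lintegral_congr fun s => ?_
  rw [D6c_W_swap]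

theorem L6_le (m n r a b : ℤ) (z : ℝ) : L6 m n r a b z ≤ E6 m n r := by
  rw [L6_eq]
  exact lintegral_mono fun s => k4_le _ _ _ _

theorem D6c_inv_measurable (m n r : ℤ) :
    Measurable (fun s : ℝ × ℝ => ENNReal.ofReal (1 / Real.sqrt (W6 m n r s))) :=
  ENNReal.measurable_ofReal.comp (measurable_const.div (D6c_W_measurable m n r))

theorem D6c_abs_mul (a : ℤ) {x : ℝ} (hx : |x| ≤ 1 / 8) :
    |(a : ℝ) * (1 / 2 - x)| = |(a : ℝ)| * (1 / 2 - x) := by
  rw [abs_mul, abs_of_nonneg (by linarith [(abs_le.1 hx).2] : (0 : ℝ) ≤ 1 / 2 - x)]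

theorem D6c_le_mul (m n r a b : ℤ) (z : ℝ) (c : ℝ≥0∞)
    (h : ∀ s : ℝ × ℝ, |s.1| ≤ 1 / 8 → |s.2| ≤ 1 / 8 →
      k4 (a * (1 / 2 - s.1)) (b * (1 / 2 - s.2)) (Real.sqrt (W6 m n r s)) z ≤
        c * ENNReal.ofReal (1 / Real.sqrt (W6 m n r s))) :
    L6 m n r a b z ≤ c * E6 m n r := by
  rw [L6_eq]
  unfold E6
  rw [← lintegral_const_mul _ (D6c_inv_measurable m n r)]
  refine lintegral_mono_ae ?_
  filter_upwards [lam2_ae] with s hs
  exact h s hs.1 hs.2

theorem L6_le_34 (m n r a b : ℤ) (z : ℝ) (h : ∀ s : ℝ × ℝ, |s.1| ≤ 1 / 8 → |s.2| ≤ 1 / 8 →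
    Real.sqrt (W6 m n r s) < |z| + |(a : ℝ)| * (1 / 2 - s.1) + |(b : ℝ)| * (1 / 2 - s.2)) :
    L6 m n r a b z ≤ ENNReal.ofReal (3 / 4) * E6 m n r := by
  refine D6c_le_mul m n r a b z _ fun s h1 h2 => ?_
  refine k4_le_34 _ _ _ _ ?_
  rw [D6c_abs_mul a h1, D6c_abs_mul b h2]
  exact h s h1 h2

theorem L6_le_12 (m n r a b : ℤ) (z : ℝ) (h : ∀ s : ℝ × ℝ, |s.1| ≤ 1 / 8 → |s.2| ≤ 1 / 8 →
    Real.sqrt (W6 m n r s) < |(a : ℝ)| * (1 / 2 - s.1) ∨
    Real.sqrt (W6 m n r s) < |(b : ℝ)| * (1 / 2 - s.2)) :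
    L6 m n r a b z ≤ ENNReal.ofReal (1 / 2) * E6 m n r := by
  refine D6c_le_mul m n r a b z _ fun s h1 h2 => ?_
  refine k4_le_12 _ _ _ _ ?_
  rw [D6c_abs_mul a h1, D6c_abs_mul b h2]
  exact h s h1 h2

theorem E6_le_const (m n r : ℤ) (c : ℝ) (hc : 0 < c) (h : ∀ s : ℝ × ℝ, |s.1| ≤ 1 / 8 →
    |s.2| ≤ 1 / 8 → c ^ 2 ≤ W6 m n r s) : E6 m n r ≤ ENNReal.ofReal (1 / c) := by
  have := lam2_prob
  have h1 : E6 m n r ≤ ∫⁻ _ : ℝ × ℝ, ENNReal.ofReal (1 / c) ∂lam2 := by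
    refine lintegral_mono_ae ?_
    filter_upwards [lam2_ae] with s hs
    refine ENNReal.ofReal_le_ofReal ?_
    exact one_div_le_one_div_of_le hc (Real.le_sqrt_of_sq_le (h s hs.1 hs.2))
  refine h1.trans (le_of_eq ?_)
  rw [lintegral_const, measure_univ, mul_one]

theorem L6_le_one (m n r a b : ℤ) (z : ℝ) (h : ∀ s : ℝ × ℝ, |s.1| ≤ 1 / 8 → |s.2| ≤ 1 / 8 →
    1 ≤ W6 m n r s) : L6 m n r a b z ≤ 1 := by
  refine (L6_le m n r a b z).trans ?_
  refine (E6_le_const m n r 1 one_pos (fun s h1 h2 => by simpa using h s h1 h2)).trans ?_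
  simp

end Pool.Agent.helper49.Slope
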