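import Pool.Agent.helper49.Slope.DefsD6
import Pool.Agent.helper49.Slope.J1

/-!
MP_aedd95_co (slope of k-fold hyperplane covers of triangular grids), module D6d.
The law `D_6`: the expectations `E6 m n r` of `1/V`.

`q₁ = (1/2+s₁)²`, `q₂ = (1/2+s₂)²`, `V² = W6 m n r s`:
 `(1,0,0)`: `q₁`, `V = 1/2+s₁`, `lam_inv` (and marginal: `lintegral_prod`, `lam` is a probability);
 `(1,1,0)`: `1/4`; `(2,0,0)`: `4 q₁`;
 `(2,1,0)`: `1/2 + 2q₁ - q₂`, exact value `1.16340868…`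
 `(1,-1,0)`: `-1/4 + 2q₁ + 2q₂`, exact value `1.13917469…`
 `(2,-1,0)`: `-1/2 + 6q₁ + 3q₂`, `0.7474`; `(3,1,0)`: `3/4 + 6q₁ - 2q₂`, `0.7624`;
 `(1,0,±1)`: `3/4 + q₁`: `2/(√(73/64)+√(57/64)) = 0.99417` (`lam_inv_sqrt`);
 `(1,-1,±1)`: `1/2 + 2q₁ + 2q₂`: `0.80528`.
`lam_inv_sqrt_two` with `τ = 1/8`, `F(x,y) = (A+Lx²+My²)^(3/2)`: the value is
`(F(5/8,5/8) - F(5/8,3/8) - F(3/8,5/8) + F(3/8,3/8)) / (3 L M / 64)`; all the radicands are
rationals with denominator 64, bound the square roots by rationals from both sides with 5 digits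
(for `(2,1,0)`: radicands `57/64, 73/64, 25/64, 41/64`; for `(1,-1,0)`: `84/64, 52/64, 52/64, 20/64`;
for `(2,-1,0)`: `193/64, 145/64, 97/64, 49/64`; for `(3,1,0)`: `148/64, 180/64, 52/64, 84/64`; for
`(1,-1,±1)`: `132/64, 100/64, 100/64, 68/64`). For `(2,-1,0)` and `(3,1,0)` very rough bounds are
enough.
-/

set_option autoImplicit false

open MeasureTheory ProbabilityTheory
open scoped ENNReal

namespace Pool.Agent.helper49.Slope

theorem D6d_prob : IsProbabilityMeasure (lam (1 / 8)) := lam_prob (by norm_num) (by norm_num)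

theorem D6d_bd {s : ℝ} (hs : |s| ≤ 1 / 8) : 9 / 64 ≤ (1 / 2 + s) ^ 2 ∧ (1 / 2 + s) ^ 2 ≤ 25 / 64 := by
  obtain ⟨h1, h2⟩ := abs_le.1 hs
  constructor <;> nlinarith

theorem D6d_one (m n r : ℤ) (A L : ℝ) (hW : ∀ s, W6 m n r s = A + L * (1 / 2 + s.1) ^ 2)
    (hp : ∀ s : ℝ, |s| ≤ 1 / 8 → 0 < A + L * (1 / 2 + s) ^ 2) :
    E6 m n r = ENNReal.ofReal (2 / (Real.sqrt (A + L * (1 / 2 + 1 / 8) ^ 2)
        + Real.sqrt (A + L * (1 / 2 - 1 / 8) ^ 2))) := by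
  have := D6d_prob
  rw [← lam_inv_sqrt (by norm_num) (by norm_num) A L hp, E6]
  simp_rw [hW]
  have hm : Measurable (fun s : ℝ => ENNReal.ofReal (1 / Real.sqrt (A + L * (1 / 2 + s) ^ 2))) := by
    fun_prop
  exact (measurePreserving_fst (μ := lam (1 / 8)) (ν := lam (1 / 8))).lintegral_comp hm

theorem D6d_two (m n r : ℤ) (A L M : ℝ) (hL : L ≠ 0) (hM : M ≠ 0)
    (hW : ∀ s, W6 m n r s = A + L * (1 / 2 + s.1) ^ 2 + M * (1 / 2 + s.2) ^ 2)
    (hp : ∀ x y : ℝ, 9 / 64 ≤ x → x ≤ 25 / 64 → 9 / 64 ≤ y → y ≤ 25 / 64 →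
      0 < A + L * x + M * y) (a b c d C : ℝ)
    (ha : a = A + L * (25 / 64) + M * (25 / 64))
    (hb : b = A + L * (25 / 64) + M * (9 / 64))
    (hc : c = A + L * (9 / 64) + M * (25 / 64))
    (hd : d = A + L * (9 / 64) + M * (9 / 64))
    (hC : (a * Real.sqrt a - b * Real.sqrt b - c * Real.sqrt c + d * Real.sqrt d)
      / (3 * L * M * (1 / 8) ^ 2) ≤ C) :
    E6 m n r ≤ ENNReal.ofReal C := by
  have h1 := lam_inv_sqrt_two (τ := 1 / 8) (by norm_num) (by norm_num) A L M hL hM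
    (fun s t hs ht => hp _ _ (D6d_bd hs).1 (D6d_bd hs).2 (D6d_bd ht).1 (D6d_bd ht).2)
    (fun x y => (A + L * x ^ 2 + M * y ^ 2) * Real.sqrt (A + L * x ^ 2 + M * y ^ 2))
    (fun _ _ => rfl)
  rw [E6]
  simp_rw [hW]
  rw [h1]
  apply ENNReal.ofReal_le_ofReal
  refine le_trans (le_of_eq ?_) hC
  have e1 : ((1 / 2 : ℝ) + 1 / 8) ^ 2 = 25 / 64 := by norm_num
  have e2 : ((1 / 2 : ℝ) - 1 / 8) ^ 2 = 9 / 64 := by norm_num
  simp only [e1, e2, ← ha, ← hb, ← hc, ← hd]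

theorem E6_10 : E6 1 0 0 ≤ 2 := by
  rw [D6d_one 1 0 0 0 1 (fun s => by rw [W6]; push_cast; ring)
    (fun s hs => by have := (D6d_bd hs).1; linarith)]
  have e1 : Real.sqrt (0 + 1 * (1 / 2 + 1 / 8) ^ 2) = 5 / 8 := by
    rw [show (0 + 1 * (1 / 2 + 1 / 8) ^ 2 : ℝ) = (5 / 8) ^ 2 by norm_num]
    exact Real.sqrt_sq (by norm_num)
  have e2 : Real.sqrt (0 + 1 * (1 / 2 - 1 / 8) ^ 2) = 3 / 8 := by
    rw [show (0 + 1 * (1 / 2 - 1 / 8) ^ 2 : ℝ) = (3 / 8) ^ 2 by norm_num]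
    exact Real.sqrt_sq (by norm_num)
  rw [e1, e2, show (2 / (5 / 8 + 3 / 8) : ℝ) = 2 by norm_num]
  simp

theorem E6_11 : E6 1 1 0 ≤ 2 := by
  have := D6d_prob
  have h : ∀ s, ENNReal.ofReal (1 / Real.sqrt (W6 1 1 0 s)) = 2 := by
    intro s
    have e1 : W6 1 1 0 s = (1 / 2) ^ 2 := by rw [W6]; push_cast; ring
    rw [e1, Real.sqrt_sq (by norm_num), show (1 / (1 / 2) : ℝ) = 2 by norm_num]
    simp
  rw [E6]
  simp_rw [h]
  simp

theorem E6_20 : E6 2 0 0 ≤ 1 := by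
  rw [D6d_one 2 0 0 0 4 (fun s => by rw [W6]; push_cast; ring)
    (fun s hs => by have := (D6d_bd hs).1; linarith)]
  have e1 : Real.sqrt (0 + 4 * (1 / 2 + 1 / 8) ^ 2) = 5 / 4 := by
    rw [show (0 + 4 * (1 / 2 + 1 / 8) ^ 2 : ℝ) = (5 / 4) ^ 2 by norm_num]
    exact Real.sqrt_sq (by norm_num)
  have e2 : Real.sqrt (0 + 4 * (1 / 2 - 1 / 8) ^ 2) = 3 / 4 := by
    rw [show (0 + 4 * (1 / 2 - 1 / 8) ^ 2 : ℝ) = (3 / 4) ^ 2 by norm_num]
    exact Real.sqrt_sq (by norm_num)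
  rw [e1, e2, show (2 / (5 / 4 + 3 / 4) : ℝ) = 1 by norm_num]
  simp

theorem D6d_lo {x y : ℝ} (hx : 0 ≤ x) (h : x ^ 2 ≤ y) : x ≤ Real.sqrt y := Real.le_sqrt_of_sq_le h

theorem D6d_hi {x y : ℝ} (hx : 0 ≤ x) (h : y ≤ x ^ 2) : Real.sqrt y ≤ x :=
  Real.sqrt_le_iff.2 ⟨hx, h⟩

theorem E6_21 : E6 2 1 0 ≤ ENNReal.ofReal (1164 / 1000) := by
  refine D6d_two 2 1 0 (1 / 2) 2 (-1) (by norm_num) (by norm_num)
    (fun s => by rw [W6]; push_cast; ring) (fun x y h1 h2 h3 h4 => by linarith)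
    (57 / 64) (73 / 64) (25 / 64) (41 / 64) _ (by norm_num) (by norm_num) (by norm_num)
    (by norm_num) ?_
  have h1 := D6d_lo (x := 94372 / 100000) (y := 57 / 64) (by norm_num) (by norm_num)
  have h2 := D6d_hi (x := 106801 / 100000) (y := 73 / 64) (by norm_num) (by norm_num)
  have h3 := D6d_hi (x := 5 / 8) (y := 25 / 64) (by norm_num) (by norm_num)
  have h4 := D6d_lo (x := 80039 / 100000) (y := 41 / 64) (by norm_num) (by norm_num)
  have e : (3 * 2 * (-1) * (1 / 8) ^ 2 : ℝ) = -(6 / 64) := by norm_num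
  rw [e, div_neg, neg_le, le_div_iff₀ (by norm_num)]
  linarith

theorem E6_1m1 : E6 1 (-1) 0 ≤ ENNReal.ofReal (114 / 100) := by
  refine D6d_two 1 (-1) 0 (-1 / 4) 2 2 (by norm_num) (by norm_num)
    (fun s => by rw [W6]; push_cast; ring) (fun x y h1 h2 h3 h4 => by linarith)
    (84 / 64) (52 / 64) (52 / 64) (20 / 64) _ (by norm_num) (by norm_num) (by norm_num)
    (by norm_num) ?_
  have h1 := D6d_hi (x := 114565 / 100000) (y := 84 / 64) (by norm_num) (by norm_num)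
  have h2 := D6d_lo (x := 90138 / 100000) (y := 52 / 64) (by norm_num) (by norm_num)
  have h4 := D6d_hi (x := 55902 / 100000) (y := 20 / 64) (by norm_num) (by norm_num)
  rw [div_le_iff₀ (by norm_num)]
  linarith

theorem E6_2m1 : E6 2 (-1) 0 ≤ 1 := by
  rw [← ENNReal.ofReal_one]
  refine D6d_two 2 (-1) 0 (-1 / 2) 6 3 (by norm_num) (by norm_num)
    (fun s => by rw [W6]; push_cast; ring) (fun x y h1 h2 h3 h4 => by linarith)
    (193 / 64) (145 / 64) (97 / 64) (49 / 64) _ (by norm_num) (by norm_num) (by norm_num)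
    (by norm_num) ?_
  have h1 := D6d_hi (x := 17366 / 10000) (y := 193 / 64) (by norm_num) (by norm_num)
  have h2 := D6d_lo (x := 15051 / 10000) (y := 145 / 64) (by norm_num) (by norm_num)
  have h3 := D6d_lo (x := 12311 / 10000) (y := 97 / 64) (by norm_num) (by norm_num)
  have h4 := D6d_hi (x := 8750 / 10000) (y := 49 / 64) (by norm_num) (by norm_num)
  rw [div_le_iff₀ (by norm_num)]
  linarith

theorem E6_31 : E6 3 1 0 ≤ 1 := by
  rw [← ENNReal.ofReal_one]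
  refine D6d_two 3 1 0 (3 / 4) 6 (-2) (by norm_num) (by norm_num)
    (fun s => by rw [W6]; push_cast; ring) (fun x y h1 h2 h3 h4 => by linarith)
    (148 / 64) (180 / 64) (52 / 64) (84 / 64) _ (by norm_num) (by norm_num) (by norm_num)
    (by norm_num) ?_
  have h1 := D6d_lo (x := 15206 / 10000) (y := 148 / 64) (by norm_num) (by norm_num)
  have h2 := D6d_hi (x := 16771 / 10000) (y := 180 / 64) (by norm_num) (by norm_num)
  have h3 := D6d_hi (x := 9014 / 10000) (y := 52 / 64) (by norm_num) (by norm_num)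
  have h4 := D6d_lo (x := 11456 / 10000) (y := 84 / 64) (by norm_num) (by norm_num)
  have e : (3 * 6 * (-2) * (1 / 8) ^ 2 : ℝ) = -(36 / 64) := by norm_num
  rw [e, div_neg, neg_le, le_div_iff₀ (by norm_num)]
  linarith

theorem D6d_sq {r : ℤ} (hr : |r| = 1) : (r : ℝ) ^ 2 = 1 := by
  have h : r ^ 2 = 1 := by rw [← sq_abs, hr]; norm_num
  exact_mod_cast h

theorem E6_10_1 (r : ℤ) (hr : |r| = 1) : E6 1 0 r ≤ 1 := by
  rw [D6d_one 1 0 r (3 / 4) 1 (fun s => by rw [W6, D6d_sq hr]; push_cast; ring)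
    (fun s hs => by have := (D6d_bd hs).1; linarith)]
  have h1 := D6d_lo (x := 1068 / 1000) (y := 3 / 4 + 1 * (1 / 2 + 1 / 8) ^ 2) (by norm_num)
    (by norm_num)
  have h2 := D6d_lo (x := 943 / 1000) (y := 3 / 4 + 1 * (1 / 2 - 1 / 8) ^ 2) (by norm_num)
    (by norm_num)
  rw [← ENNReal.ofReal_one]
  apply ENNReal.ofReal_le_ofReal
  rw [div_le_iff₀ (by linarith)]
  linarith

theorem E6_1m1_1 (r : ℤ) (hr : |r| = 1) : E6 1 (-1) r ≤ ENNReal.ofReal (811 / 1000) := by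
  refine D6d_two 1 (-1) r (1 / 2) 2 2 (by norm_num) (by norm_num)
    (fun s => by rw [W6, D6d_sq hr]; push_cast; ring) (fun x y h1 h2 h3 h4 => by linarith)
    (132 / 64) (100 / 64) (100 / 64) (68 / 64) _ (by norm_num) (by norm_num) (by norm_num)
    (by norm_num) ?_
  have h1 := D6d_hi (x := 143615 / 100000) (y := 132 / 64) (by norm_num) (by norm_num)
  have h2 := D6d_lo (x := 125 / 100) (y := 100 / 64) (by norm_num) (by norm_num)
  have h4 := D6d_hi (x := 103079 / 100000) (y := 68 / 64) (by norm_num) (by norm_num)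
  rw [div_le_iff₀ (by norm_num)]
  linarith

end Pool.Agent.helper49.Slope
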