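import Pool.Agent.helper49.Slope.D6c

/-!
MP_aedd95_co (slope of k-fold hyperplane covers of triangular grids), module D6e.
The law `D_6`, Lemma 2: pattern `(1,1)`, `r = 0`, `|a₁| = |a₂| = 1`.

PROOF. `W6 1 1 0 s = 1/4`, `V = 1/2`, `1/V = 2`. By `L6_abs` take `a = b = 1`, by `L6_negz` take
`z ≥ 0`. Put `m = s₂ - s₁`, `σ = s₁ + s₂`, `g = 1 - σ`; the four centres are `m, -m, g, -g`, so
(`L6_eq`) `L = (1/2) [P(|z-m| ≤ 1/2) + P(|z+m| ≤ 1/2) + P(|z-g| ≤ 1/2) + P(|z+g| ≤ 1/2)]`, `P` with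
respect to `lam2`. Almost surely `|m|, |σ| ≤ 1/4`, `g ≥ 3/4`; the last probability is `0`; the third
event implies `σ ≥ 1/2 - z`. By the exchange symmetry of `lam2` the first two probabilities are
equal.
* `z > 1/2`: `|z-m| ≤ 1/2` implies `m ≥ z - 1/2 > 0` and `P(m > 0) ≤ 1/2` (symmetry), so
  `L ≤ (1/2)[1/2 + 1/2 + 1] = 1`.
* `z ≤ 1/2`, `t = 1/2 - z ≥ 0`: the event `|z-m| ≤ 1/2` is `m ≥ -t`, with probability
  `1 - P(-m > t) = 1 - P(m > t)`; so `L ≤ 1 - P(m > t) + (1/2) P(σ ≥ t) ≤ 1` by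
* REFLECTION: `lam2 {t ≤ s.1 + s.2} ≤ 2 lam2 {t < s.2 - s.1}`: the density `(1/2+s)/τ` of `lam` is at
  most twice the density `(1/2-s)/τ` of its image under `s ↦ -s` (`1/2 + s ≤ 2(1/2-s)` iff
  `s ≤ 1/6`), i.e. `lam (1/8) ≤ 2 • (lam (1/8)).map Neg.neg`; apply it to the first digit (Fubini).
  The set `{s.2 - s.1 = t}` has measure `0` (`lam` has no atoms), so `≤` or `<` does not matter.
-/

set_option autoImplicit false

open MeasureTheory ProbabilityTheory
open scoped ENNReal

namespace Pool.Agent.helper49.Slope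

theorem D6e_lam_apply {A : Set ℝ} (hA : MeasurableSet A) :
    lam (1 / 8) A = ∫⁻ s, (A ∩ Set.Icc (-(1 / 8)) (1 / 8)).indicator
      (fun s => ENNReal.ofReal ((1 / 2 + s) / (1 / 8))) s := by
  unfold lam
  rw [withDensity_apply _ hA, Measure.restrict_restrict hA,
    lintegral_indicator (hA.inter measurableSet_Icc)]

theorem lam_le_neg : lam (1 / 8) ≤ (2 : ℝ≥0∞) • (lam (1 / 8)).map (fun s => -s) := by
  refine Measure.le_iff.2 fun A hA => ?_
  rw [Measure.smul_apply, Measure.map_apply measurable_neg hA, smul_eq_mul,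
    D6e_lam_apply hA, D6e_lam_apply (measurable_neg hA),
    ← lintegral_const_mul' _ _ (by norm_num),
    ← lintegral_neg_eq_self (fun s => 2 * ((fun s => -s) ⁻¹' A ∩ Set.Icc (-(1 / 8)) (1 / 8)).indicator
      (fun s => ENNReal.ofReal ((1 / 2 + s) / (1 / 8))) s)]
  refine lintegral_mono fun s => ?_
  by_cases hs : s ∈ A ∩ Set.Icc (-(1 / 8) : ℝ) (1 / 8)
  · have hs' : -s ∈ (fun s => -s) ⁻¹' A ∩ Set.Icc (-(1 / 8) : ℝ) (1 / 8) := by
      obtain ⟨h1, h2, h3⟩ := hs
      refine ⟨?_, ?_, ?_⟩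
      · simpa using h1
      · linarith
      · linarith
    rw [Set.indicator_of_mem hs, Set.indicator_of_mem hs']
    obtain ⟨h1, h2, h3⟩ := hs
    rw [show (2 : ℝ≥0∞) = ENNReal.ofReal 2 by simp, ← ENNReal.ofReal_mul (by norm_num)]
    refine ENNReal.ofReal_le_ofReal ?_
    linarith
  · rw [Set.indicator_of_notMem hs]
    exact zero_le

theorem D6e_lam_singleton (x : ℝ) : lam (1 / 8) {x} = 0 := by
  have h : lam (1 / 8) ≪ volume.restrict (Set.Icc (-(1 / 8)) (1 / 8)) :=
    withDensity_absolutelyContinuous _ _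
  refine h ?_
  exact le_antisymm ((Measure.restrict_apply_le _ _).trans (by simp)) zero_le

theorem lam2_reflect (t : ℝ) :
    lam2 {s | t ≤ s.1 + s.2} ≤ 2 * lam2 {s | t < s.2 - s.1} := by
  have : IsProbabilityMeasure (lam (1 / 8)) := lam_prob (by norm_num) (by norm_num)
  have hm1 : MeasurableSet {s : ℝ × ℝ | t ≤ s.1 + s.2} :=
    measurableSet_le measurable_const (measurable_fst.add measurable_snd)
  have hm2 : MeasurableSet {s : ℝ × ℝ | t < s.2 - s.1} :=
    measurableSet_lt measurable_const (measurable_snd.sub measurable_fst)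
  rw [Measure.prod_apply_symm hm1, Measure.prod_apply_symm hm2,
    ← lintegral_const_mul' _ _ (by norm_num)]
  refine lintegral_mono fun y => ?_
  have e1 : (fun x : ℝ => (x, y)) ⁻¹' {s : ℝ × ℝ | t ≤ s.1 + s.2} = Set.Ici (t - y) := by
    ext x
    simp only [Set.mem_preimage, Set.mem_ofPred_eq, Set.mem_Ici]
    constructor <;> intro h <;> linarith
  have e2 : (fun x : ℝ => (x, y)) ⁻¹' {s : ℝ × ℝ | t < s.2 - s.1} = Set.Iio (y - t) := by
    ext x
    simp only [Set.mem_preimage, Set.mem_ofPred_eq, Set.mem_Iio]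
    constructor <;> intro h <;> linarith
  simp only [e1, e2]
  have h1 := Measure.le_iff.1 lam_le_neg (Set.Ici (t - y)) measurableSet_Ici
  rw [Measure.smul_apply, Measure.map_apply measurable_neg measurableSet_Ici, smul_eq_mul] at h1
  refine h1.trans ?_
  have e3 : (fun s : ℝ => -s) ⁻¹' Set.Ici (t - y) ⊆ Set.Iio (y - t) ∪ {y - t} := by
    intro x hx
    simp only [Set.mem_preimage, Set.mem_Ici] at hx
    rcases lt_or_eq_of_le (show x ≤ y - t by linarith) with h | h
    · exact Or.inl h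
    · exact Or.inr h
  have h2 := (measure_mono (μ := lam (1 / 8)) e3).trans (measure_union_le _ _)
  rw [D6e_lam_singleton, add_zero] at h2
  gcongr

theorem D6e_swap (A : Set (ℝ × ℝ)) (hA : MeasurableSet A) :
    lam2 (Prod.swap ⁻¹' A) = lam2 A := by
  have : IsProbabilityMeasure (lam (1 / 8)) := lam_prob (by norm_num) (by norm_num)
  rw [← Measure.map_apply measurable_swap hA, Measure.prod_swap]

/-- the set `|z - m| ≤ 1/2`, `m = s₂ - s₁` -/
def D6eA (z : ℝ) : Set (ℝ × ℝ) := {s | |z - (s.2 - s.1)| ≤ 1 / 2}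
/-- the set `|z + m| ≤ 1/2` -/
def D6eB (z : ℝ) : Set (ℝ × ℝ) := {s | |z + (s.2 - s.1)| ≤ 1 / 2}
/-- the set `|z - g| ≤ 1/2`, `g = 1 - s₁ - s₂` -/
def D6eC (z : ℝ) : Set (ℝ × ℝ) := {s | |z - (1 - s.1 - s.2)| ≤ 1 / 2}

theorem D6eA_meas (z : ℝ) : MeasurableSet (D6eA z) :=
  measurableSet_le ((measurable_const.sub (measurable_snd.sub measurable_fst)).abs)
    measurable_const
theorem D6eB_meas (z : ℝ) : MeasurableSet (D6eB z) :=
  measurableSet_le ((measurable_const.add (measurable_snd.sub measurable_fst)).abs)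
    measurable_const
theorem D6eC_meas (z : ℝ) : MeasurableSet (D6eC z) :=
  measurableSet_le ((measurable_const.sub ((measurable_const.sub measurable_fst).sub
    measurable_snd)).abs) measurable_const

theorem D6e_pos {z : ℝ} (hz : 0 ≤ z) : L6 1 1 0 1 1 z ≤ 1 := by
  have : IsProbabilityMeasure (lam (1 / 8)) := lam_prob (by norm_num) (by norm_num)
  have : IsProbabilityMeasure lam2 := lam2_prob
  have hpt : ∀ᵐ s ∂lam2, k4 ((1 : ℤ) * (1 / 2 - s.1)) ((1 : ℤ) * (1 / 2 - s.2))
      (Real.sqrt (W6 1 1 0 s)) z ≤ (1 / 2) * ((D6eA z).indicator (fun _ => (1 : ℝ≥0∞)) s +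
        (D6eB z).indicator (fun _ => (1 : ℝ≥0∞)) s +
        (D6eC z).indicator (fun _ => (1 : ℝ≥0∞)) s) := by
    filter_upwards [lam2_ae] with s hs
    obtain ⟨hs1, hs2⟩ := hs
    rw [abs_le] at hs1 hs2
    have hW : Real.sqrt (W6 1 1 0 s) = 1 / 2 := by
      rw [show W6 1 1 0 s = (1 / 2) ^ 2 by unfold W6; push_cast; ring]
      exact Real.sqrt_sq (by norm_num)
    rw [hW]
    have k2 : ENNReal.ofReal (1 / (1 / 2)) = 2 := by norm_num
    have hA : ∀ D : ℝ, ∀ A : Set (ℝ × ℝ), (|z - D| ≤ 1 / 2 ↔ s ∈ A) →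
        ker D (1 / 2) z = 2 * A.indicator (fun _ => (1 : ℝ≥0∞)) s := by
      intro D A h
      unfold ker
      rw [k2]
      by_cases hs : s ∈ A
      · rw [if_pos (h.2 hs), Set.indicator_of_mem hs, mul_one]
      · rw [if_neg (fun h' => hs (h.1 h')), Set.indicator_of_notMem hs, mul_zero]
    unfold k4
    push_cast
    rw [hA (1 * (1 / 2 - s.1) + 1 * (1 / 2 - s.2)) (D6eC z) (by
        unfold D6eC
        rw [Set.mem_ofPred_eq]
        ring_nf),
      hA (1 * (1 / 2 - s.1) - 1 * (1 / 2 - s.2)) (D6eA z) (by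
        unfold D6eA
        rw [Set.mem_ofPred_eq]
        ring_nf),
      hA (-(1 * (1 / 2 - s.1)) + 1 * (1 / 2 - s.2)) (D6eB z) (by
        unfold D6eB
        rw [Set.mem_ofPred_eq]
        ring_nf)]
    have h0 : ker (-(1 * (1 / 2 - s.1)) - 1 * (1 / 2 - s.2)) (1 / 2) z = 0 := by
      unfold ker
      rw [if_neg]
      intro h
      have := (abs_le.1 h).2
      linarith [hs1.2, hs2.2]
    rw [h0, add_zero]
    apply le_of_eq
    rw [ENNReal.div_eq_inv_mul, ← mul_add, ← mul_add, ← mul_assoc]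
    congr 1
    · rw [show (4 : ℝ≥0∞) = 2 * 2 by norm_num, ENNReal.mul_inv (by norm_num) (by norm_num),
        mul_assoc, ENNReal.inv_mul_cancel (by norm_num) (by norm_num), mul_one, one_div]
    · ring
  have hAB : lam2 (D6eA z) = lam2 (D6eB z) := by
    rw [← D6e_swap _ (D6eA_meas z)]
    congr 1
    ext s
    simp only [D6eA, D6eB, Set.mem_preimage, Set.mem_ofPred_eq, Prod.fst_swap, Prod.snd_swap]
    ring_nf
  have hL : L6 1 1 0 1 1 z ≤ (1 / 2) * (lam2 (D6eA z) + lam2 (D6eB z) + lam2 (D6eC z)) := by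
    rw [L6_eq]
    refine (lintegral_mono_ae hpt).trans (le_of_eq ?_)
    rw [lintegral_const_mul' _ _ (by norm_num), lintegral_add_left, lintegral_add_left,
      lintegral_indicator_const (D6eA_meas z), lintegral_indicator_const (D6eB_meas z),
      lintegral_indicator_const (D6eC_meas z), one_mul, one_mul, one_mul]
    · exact measurable_const.indicator (D6eA_meas z)
    · exact (measurable_const.indicator (D6eA_meas z)).add
        (measurable_const.indicator (D6eB_meas z))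
  refine hL.trans ?_
  have hsum : lam2 (D6eA z) + lam2 (D6eB z) + lam2 (D6eC z) ≤ 2 := by
    rcases le_or_gt z (1 / 2) with h | h
    · -- `t = 1/2 - z`
      have hC : lam2 (D6eC z) ≤ 2 * lam2 {s | 1 / 2 - z < s.2 - s.1} := by
        refine le_trans (measure_mono fun s hs => ?_) (lam2_reflect (1 / 2 - z))
        have := (abs_le.1 (show |z - (1 - s.1 - s.2)| ≤ 1 / 2 from hs)).1
        simp only [Set.mem_ofPred_eq]
        linarith
      have hm : MeasurableSet {s : ℝ × ℝ | 1 / 2 - z < s.2 - s.1} :=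
        measurableSet_lt measurable_const (measurable_snd.sub measurable_fst)
      have hB : lam2 (D6eB z) + lam2 {s | 1 / 2 - z < s.2 - s.1} ≤ 1 := by
        rw [← measure_union _ hm]
        · exact prob_le_one
        · rw [Set.disjoint_left]
          intro s hs hs'
          have h1 := (abs_le.1 (show |z + (s.2 - s.1)| ≤ 1 / 2 from hs)).2
          simp only [Set.mem_ofPred_eq] at hs'
          linarith
      calc lam2 (D6eA z) + lam2 (D6eB z) + lam2 (D6eC z)
          ≤ lam2 (D6eB z) + lam2 (D6eB z) + 2 * lam2 {s | 1 / 2 - z < s.2 - s.1} := by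
            rw [hAB]; gcongr
        _ = (lam2 (D6eB z) + lam2 {s | 1 / 2 - z < s.2 - s.1}) +
            (lam2 (D6eB z) + lam2 {s | 1 / 2 - z < s.2 - s.1}) := by ring
        _ ≤ 1 + 1 := by gcongr
        _ = 2 := by norm_num
    · have hAB1 : lam2 (D6eA z) + lam2 (D6eB z) ≤ 1 := by
        rw [← measure_union _ (D6eB_meas z)]
        · exact prob_le_one
        · rw [Set.disjoint_left]
          intro s hs hs'
          have h1 := (abs_le.1 (show |z - (s.2 - s.1)| ≤ 1 / 2 from hs)).2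
          have h2 := (abs_le.1 (show |z + (s.2 - s.1)| ≤ 1 / 2 from hs')).2
          linarith
      calc lam2 (D6eA z) + lam2 (D6eB z) + lam2 (D6eC z) ≤ 1 + 1 := by
            gcongr
            exact prob_le_one
        _ = 2 := by norm_num
  calc (1 / 2) * (lam2 (D6eA z) + lam2 (D6eB z) + lam2 (D6eC z)) ≤ (1 / 2) * 2 := by gcongr
    _ = 1 := by
      rw [one_div, ENNReal.inv_mul_cancel (by norm_num) (by norm_num)]

theorem L6_11 (a b : ℤ) (ha : |a| = 1) (hb : |b| = 1) (z : ℝ) : L6 1 1 0 a b z ≤ 1 := by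
  rw [L6_abs, ha, hb]
  rcases le_total 0 z with h | h
  · exact D6e_pos h
  · rw [← L6_negz]
    exact D6e_pos (by linarith)

end Pool.Agent.helper49.Slope
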