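import Pool.Agent.helper49.Slope.D6c
import Pool.Agent.helper49.Slope.D6d

/-!
MP_aedd95_co (slope of k-fold hyperplane covers of triangular grids), module D6f.
The law `D_6`, Lemma 3: pattern `(1,-1)`, `r = 0`.

`σ = s₁ + s₂`; `lam_sum_tail` with `τ = 1/8`: `lam2 {x ≤ s.1 + s.2} ≤ 25 (1/4 - x)²/2`.

LEMMA 3. `V² = W6 1 (-1) 0 s = 2(q₁+q₂) - 1/4 = 3/4 + 2σ + 2(s₁²+s₂²)`, so `V² ≤ 84/64 = 1.3125`,
`V ≤ 1.146` and `V² ≤ 0.8125 + 2σ`. `E6 1 (-1) 0 ≤ 1.14` (`E6_1m1`).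
* `|z| ≥ 3/4`: `|a|,|b| ≥ 1` (odd), `|z| + |a|(1/2-s₁) + |b|(1/2-s₂) ≥ 3/4 + 3/8 + 3/8 > V`:
  `L6_le_34`: `L ≤ (3/4) 1.14 = 0.855`.
* `max(|a|,|b|) ≥ 3`: `|A| + |B| ≥ 9/8 + 3/8 > V`: `L ≤ 0.855`.
* `|a| = |b| = 1` (`L6_abs`): `|A| + |B| = 1 - σ`. For each `s` (in range)
  `k4 ≤ (3/4)(1/V) + (1/4)·1.09·1{σ ≥ 0.047}`: if `1 - σ > V` use `k4_le_34`; otherwise
  `(1-σ)² ≤ V² ≤ 0.8125 + 2σ`, i.e. `σ² - 4σ + 0.1875 ≤ 0`, so `σ ≥ 0.047`, and then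
  `V² ≥ 3/4 + 2σ ≥ 0.844`, `1/V ≤ 1.09` (`1.09² · 0.844 = 1.0027`), `k4 ≤ 1/V`. So
  `L ≤ 0.855 + 0.2725 · 25 · 0.203²/2 = 0.855 + 0.1404 ≤ 1`.
-/

set_option autoImplicit false

open MeasureTheory ProbabilityTheory
open scoped ENNReal

namespace Pool.Agent.helper49.Slope

lemma D6f_W (s : ℝ × ℝ) : W6 1 (-1) 0 s =
    3 / 4 + 2 * (s.1 + s.2) + 2 * (s.1 ^ 2 + s.2 ^ 2) := by
  unfold W6
  push_cast
  ring

lemma D6f_sq {t : ℝ} (h : |t| ≤ 1 / 8) : t ^ 2 ≤ 1 / 64 := by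
  rw [← sq_abs]
  have := abs_nonneg t
  nlinarith

lemma D6f_sqrt {s : ℝ × ℝ} (h1 : |s.1| ≤ 1 / 8) (h2 : |s.2| ≤ 1 / 8) :
    Real.sqrt (W6 1 (-1) 0 s) < 3 / 2 := by
  rw [Real.sqrt_lt' (by norm_num), D6f_W]
  have e1 := D6f_sq h1
  have e2 := D6f_sq h2
  have e3 := (abs_le.1 h1).2
  have e4 := (abs_le.1 h2).2
  norm_num
  linarith

lemma D6f_odd {a : ℤ} (ha : Odd a) : (1 : ℝ) ≤ |(a : ℝ)| := by
  have h : (1 : ℤ) ≤ |a| := by
    apply Int.one_le_abs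
    rintro rfl
    exact absurd ha (by decide)
  exact_mod_cast h

lemma D6f_odd3 {a : ℤ} (ha : Odd a) (h1 : |a| ≠ 1) : (3 : ℝ) ≤ |(a : ℝ)| := by
  have h2 : Odd |a| := by rwa [odd_abs]
  have h3 : (0 : ℤ) ≤ |a| := abs_nonneg a
  have h4 : (3 : ℤ) ≤ |a| := by
    obtain ⟨k, hk⟩ := h2
    omega
  exact_mod_cast h4

lemma D6f_mul : ENNReal.ofReal (3 / 4) * E6 1 (-1) 0 ≤ ENNReal.ofReal (855 / 1000) := by
  refine (mul_le_mul_right E6_1m1 _).trans ?_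
  rw [← ENNReal.ofReal_mul (by norm_num)]
  apply ENNReal.ofReal_le_ofReal
  norm_num

theorem L6_1m1_far (a b : ℤ) (ha : Odd a) (hb : Odd b) (z : ℝ) (hz : 3 / 4 ≤ |z|) :
    L6 1 (-1) 0 a b z ≤ ENNReal.ofReal (855 / 1000) := by
  refine (L6_le_34 1 (-1) 0 a b z ?_).trans D6f_mul
  intro s h1 h2
  have e0 := D6f_sqrt h1 h2
  have e1 := (abs_le.1 h1).2
  have e2 := (abs_le.1 h2).2
  have e3 := D6f_odd ha
  have e4 := D6f_odd hb
  nlinarith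

/-- a factor at least three -/
lemma D6f_three (a b : ℤ) (ha : Odd a) (hb : Odd b) (z : ℝ) (h : |a| ≠ 1 ∨ |b| ≠ 1) :
    L6 1 (-1) 0 a b z ≤ ENNReal.ofReal (855 / 1000) := by
  refine (L6_le_34 1 (-1) 0 a b z ?_).trans D6f_mul
  intro s h1 h2
  have e0 := D6f_sqrt h1 h2
  have e1 := (abs_le.1 h1).2
  have e2 := (abs_le.1 h2).2
  have e3 := D6f_odd ha
  have e4 := D6f_odd hb
  have e5 := abs_nonneg z
  rcases h with h | h
  · have e6 := D6f_odd3 ha h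
    nlinarith
  · have e6 := D6f_odd3 hb h
    nlinarith

lemma D6f_point (z : ℝ) {s : ℝ × ℝ} (h1 : |s.1| ≤ 1 / 8) (h2 : |s.2| ≤ 1 / 8) :
    k4 (1 * (1 / 2 - s.1)) (1 * (1 / 2 - s.2)) (Real.sqrt (W6 1 (-1) 0 s)) z ≤
      ENNReal.ofReal (3 / 4) * ENNReal.ofReal (1 / Real.sqrt (W6 1 (-1) 0 s)) +
        ENNReal.ofReal (2725 / 10000) *
          ({q : ℝ × ℝ | 47 / 1000 ≤ q.1 + q.2}.indicator (fun _ => 1) s) := by
  set V := Real.sqrt (W6 1 (-1) 0 s) with hV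
  have e1 := abs_le.1 h1
  have e2 := abs_le.1 h2
  have e3 := D6f_sq h1
  have e4 := D6f_sq h2
  have hA : |1 * (1 / 2 - s.1)| = 1 / 2 - s.1 := by
    rw [one_mul, abs_of_nonneg (by linarith)]
  have hB : |1 * (1 / 2 - s.2)| = 1 / 2 - s.2 := by
    rw [one_mul, abs_of_nonneg (by linarith)]
  rcases lt_or_ge V (|z| + |1 * (1 / 2 - s.1)| + |1 * (1 / 2 - s.2)|) with h | h
  · exact (k4_le_34 _ _ _ _ h).trans le_self_add
  · rw [hA, hB] at h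
    have hz := abs_nonneg z
    have hle : 1 - (s.1 + s.2) ≤ V := by linarith
    have hW0 : 0 ≤ W6 1 (-1) 0 s := by rw [D6f_W]; nlinarith [sq_nonneg s.1, sq_nonneg s.2]
    have hV2 : V ^ 2 = 3 / 4 + 2 * (s.1 + s.2) + 2 * (s.1 ^ 2 + s.2 ^ 2) := by
      rw [hV, Real.sq_sqrt hW0, D6f_W]
    have hV0 : 0 ≤ V := Real.sqrt_nonneg _
    have hs : 47 / 1000 ≤ s.1 + s.2 := by
      by_contra hlt
      push Not at hlt
      have h3 : (1 - (s.1 + s.2)) ^ 2 ≤ V ^ 2 := pow_le_pow_left₀ (by linarith) hle 2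
      nlinarith
    have hmem : s ∈ {q : ℝ × ℝ | 47 / 1000 ≤ q.1 + q.2} := hs
    rw [Set.indicator_of_mem hmem, mul_one]
    refine (k4_le _ _ _ _).trans ?_
    have h5 : (1 / 109 * 100 : ℝ) ≤ V := by
      by_contra hlt
      push Not at hlt
      nlinarith [sq_nonneg s.1, sq_nonneg s.2]
    have hVpos : 0 < V := lt_of_lt_of_le (by norm_num) h5
    have h6 : 1 / V ≤ 109 / 100 := by
      rw [div_le_div_iff₀ hVpos (by norm_num)]
      linarith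
    rw [← ENNReal.ofReal_mul (by norm_num), ← ENNReal.ofReal_add (by positivity) (by norm_num)]
    apply ENNReal.ofReal_le_ofReal
    linarith

theorem L6_1m1 (a b : ℤ) (ha : Odd a) (hb : Odd b) (z : ℝ) : L6 1 (-1) 0 a b z ≤ 1 := by
  have h0 : ENNReal.ofReal (855 / 1000) ≤ 1 := by
    rw [ENNReal.ofReal_le_one]; norm_num
  by_cases h : |a| ≠ 1 ∨ |b| ≠ 1
  · exact (D6f_three a b ha hb z h).trans h0
  push Not at h
  rw [L6_abs, h.1, h.2, L6_eq]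
  have hm : Measurable fun s : ℝ × ℝ =>
      ENNReal.ofReal (3 / 4) * ENNReal.ofReal (1 / Real.sqrt (W6 1 (-1) 0 s)) := by
    unfold W6
    fun_prop
  have hset : MeasurableSet {q : ℝ × ℝ | 47 / 1000 ≤ q.1 + q.2} :=
    measurableSet_le measurable_const (by fun_prop)
  calc ∫⁻ s, k4 (((1 : ℤ) : ℝ) * (1 / 2 - s.1)) (((1 : ℤ) : ℝ) * (1 / 2 - s.2))
          (Real.sqrt (W6 1 (-1) 0 s)) z ∂lam2
      ≤ ∫⁻ s, (ENNReal.ofReal (3 / 4) * ENNReal.ofReal (1 / Real.sqrt (W6 1 (-1) 0 s)) +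
        ENNReal.ofReal (2725 / 10000) *
          ({q : ℝ × ℝ | 47 / 1000 ≤ q.1 + q.2}.indicator (fun _ => 1) s)) ∂lam2 := by
        apply lintegral_mono_ae
        filter_upwards [lam2_ae] with s hs
        rw [Int.cast_one]
        exact D6f_point z hs.1 hs.2
    _ = ENNReal.ofReal (3 / 4) * E6 1 (-1) 0 +
        ENNReal.ofReal (2725 / 10000) * lam2 {q : ℝ × ℝ | 47 / 1000 ≤ q.1 + q.2} := by
        rw [lintegral_add_left hm, lintegral_const_mul' _ _ ENNReal.ofReal_ne_top,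
          lintegral_const_mul' _ _ ENNReal.ofReal_ne_top, lintegral_indicator_const hset, one_mul]
        rfl
    _ ≤ ENNReal.ofReal (855 / 1000) + ENNReal.ofReal (2725 / 10000) *
        ENNReal.ofReal (((1 / 2 + 1 / 8) / (1 / 8)) ^ 2 * ((2 * (1 / 8) - 47 / 1000) ^ 2 / 2)) := by
        gcongr
        · exact D6f_mul
        · exact lam_sum_tail (by norm_num) (by norm_num) _ (by norm_num) (by norm_num)
    _ ≤ 1 := by
        rw [← ENNReal.ofReal_mul (by norm_num), ← ENNReal.ofReal_add (by norm_num) (by norm_num),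
          ENNReal.ofReal_le_one]
        norm_num

end Pool.Agent.helper49.Slope
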