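import Pool.Agent.helper49.Slope.D6c

/-!
MP_aedd95_co (slope of k-fold hyperplane covers of triangular grids), module D6g.
The law `D_6`: affine singles.

`L6_single`: `W6 1 0 0 s = (1/2+s₁)²`, so `V = 1/2 + s₁` (in range); by `L6_abs` take `a = 1`; by
`k4_zero` the integrand is `(ker (1/2-s₁) (1/2+s₁) z + ker (-(1/2-s₁)) (1/2+s₁) z)/2`, which does not
depend on `s₂`, and its integral is the one of `digit_single` (`lintegral_prod`,
`lintegral_sgnM`); `digit_single` bounds it by `1`.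
`L6_21_far`: `W6 2 1 r s = 5/4 + 2q₁ - q₂ ≥ 5/4 + 18/64 - 25/64 = 73/64`, so `1/V ≤ 1/1.068`
(`1.068² = 1.140624 ≤ 73/64`). `k4 = (ker A + ker (-A))/2` with `A = ±(1/2-s₁)`. If `V < |z| + |A|` then
`k4 ≤ (1/2)(1/V) ≤ (1/2)/1.068` (`k4_zero_le`). Otherwise `5/4 - s₁ ≤ |z| + (1/2-s₁) ≤ V`, hence
`(5/4-s₁)² ≤ V² = 3/2 + 2s₁ + 2s₁² - s₂ - s₂²`, i.e. `1/16 + s₂ + s₂² ≤ (9/2) s₁ + s₁²`; as
`s₂ + s₂² ≥ -7/64`, `(9/2)s₁ + s₁² ≥ -3/64`, so `s₁ ≥ -0.0105`; and `1/V ≤ 1/(5/4-s₁) ≤ 8/9`,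
`k4 ≤ 1/V ≤ 8/9`. In all cases `k4 ≤ (1/2)/1.068 + (4/9)·1{s₁ ≥ -0.0105}` (in the second case
`1/V ≤ (1/2)/1.068 + 4/9`, because `(1/2)(1/V)` is bounded by either term). So
`L ≤ 0.46817 + (4/9)·0.60406 = 0.73664 ≤ 0.737` (`lam_tail`: `lam {s ≥ -0.0105} = 0.604059…`).
-/

set_option autoImplicit false

open MeasureTheory ProbabilityTheory
open scoped ENNReal

namespace Pool.Agent.helper49.Slope

theorem D6g_abs_one {a : ℤ} (ha : |a| = 1) (m n r : ℤ) (z : ℝ) :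
    L6 m n r a 0 z = ∫⁻ s, k4 (1 / 2 - s.1) 0 (Real.sqrt (W6 m n r s)) z ∂lam2 := by
  rw [L6_abs, ha, abs_zero, L6_eq]
  refine lintegral_congr fun s => ?_
  push_cast
  rw [one_mul, zero_mul]

/-- functions of the first digit -/
theorem D6g_fst (f : ℝ → ℝ≥0∞) (hf : Measurable f) :
    ∫⁻ s, f s.1 ∂lam2 = ∫⁻ s, f s ∂(lam (1 / 8)) := by
  have := lam_prob (τ := 1 / 8) (by norm_num) (by norm_num)
  rw [lintegral_prod (fun s : ℝ × ℝ => f s.1) (hf.comp measurable_fst).aemeasurable]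
  refine lintegral_congr fun s => ?_
  simp only
  rw [lintegral_const, measure_univ, mul_one]

theorem L6_single (a : ℤ) (ha : |a| = 1) (z : ℝ) : L6 1 0 0 a 0 z ≤ 1 := by
  have := lam_prob (τ := 1 / 8) (by norm_num) (by norm_num)
  have := sgnM_prob
  rw [D6g_abs_one ha]
  have hm1 : Measurable (fun s : ℝ => ker (1 * (1 / 2 - s)) (1 / 2 + s) z) :=
    (J1_ker_meas z).comp (measurable_id.prodMk measurable_const)
  have hm2 : Measurable (fun s : ℝ => ker (-1 * (1 / 2 - s)) (1 / 2 + s) z) :=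
    (J1_ker_meas z).comp (measurable_id.prodMk measurable_const)
  have e1 : ∫⁻ s, k4 (1 / 2 - s.1) 0 (Real.sqrt (W6 1 0 0 s)) z ∂lam2
      = ∫⁻ s, (fun t : ℝ => (ker (1 * (1 / 2 - t)) (1 / 2 + t) z
        + ker (-1 * (1 / 2 - t)) (1 / 2 + t) z) / 2) s.1 ∂lam2 := by
    refine lintegral_congr_ae ?_
    filter_upwards [lam2_ae] with s hs
    have h1 := abs_le.1 hs.1
    have hW : Real.sqrt (W6 1 0 0 s) = 1 / 2 + s.1 := by
      have : W6 1 0 0 s = (1 / 2 + s.1) ^ 2 := by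
        unfold W6
        push_cast
        ring
      rw [this, Real.sqrt_sq (by linarith [h1.1])]
    rw [hW, k4_zero, one_mul, neg_one_mul]
  rw [e1, D6g_fst (fun t : ℝ => (ker (1 * (1 / 2 - t)) (1 / 2 + t) z
    + ker (-1 * (1 / 2 - t)) (1 / 2 + t) z) / 2) ((hm1.add hm2).div_const 2)]
  have e2 : ∫⁻ q, ker (q.2 * (1 / 2 - q.1)) (1 / 2 + q.1) z ∂((lam (1 / 8)).prod sgnM)
      = ∫⁻ t, (ker (1 * (1 / 2 - t)) (1 / 2 + t) z
        + ker (-1 * (1 / 2 - t)) (1 / 2 + t) z) / 2 ∂(lam (1 / 8)) := by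
    rw [lintegral_prod _ (J1_ker_meas z).aemeasurable]
    refine lintegral_congr fun t => ?_
    rw [lintegral_sgnM (fun η => ker (η * (1 / 2 - t)) (1 / 2 + t) z)
      ((J1_ker_meas z).comp (measurable_const.prodMk measurable_id))]
  rw [← e2]
  refine (digit_single (by norm_num) (by norm_num) z).trans ?_
  split_ifs
  · exact le_refl _
  · exact zero_le_one

/-- pointwise bound for `L6_21_far` -/
theorem D6g_point (r : ℤ) (hr : |r| = 1) (z : ℝ) (hz : 3 / 4 ≤ |z|) (s : ℝ × ℝ)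
    (h1 : |s.1| ≤ 1 / 8) (h2 : |s.2| ≤ 1 / 8) :
    k4 (1 / 2 - s.1) 0 (Real.sqrt (W6 2 1 r s)) z ≤ ENNReal.ofReal (1 / 2 / (1068 / 1000))
      + ({t : ℝ | -(105 / 10000) ≤ t}.indicator (fun _ => ENNReal.ofReal (4 / 9)) s.1) := by
  have h1' := abs_le.1 h1
  have h2' := abs_le.1 h2
  have hr2 : (r : ℝ) ^ 2 = 1 := by
    have : r ^ 2 = 1 := by rw [← sq_abs, hr]; norm_num
    exact_mod_cast this
  have hW : W6 2 1 r s = 3 / 2 + 2 * s.1 + 2 * s.1 ^ 2 - s.2 - s.2 ^ 2 := by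
    unfold W6
    rw [hr2]
    push_cast
    ring
  have hWlow : (1068 / 1000 : ℝ) ^ 2 ≤ W6 2 1 r s := by
    rw [hW]
    nlinarith [mul_nonneg (by linarith [h1'.1] : (0 : ℝ) ≤ s.1 + 1 / 8)
      (by linarith [h1'.1] : (0 : ℝ) ≤ s.1 + 1 / 8 + 1), mul_nonneg
      (by linarith [h2'.2] : (0 : ℝ) ≤ 1 / 8 - s.2) (by linarith [h2'.1] : (0 : ℝ) ≤ s.2 + 1 / 8)]
  have hVlow : (1068 / 1000 : ℝ) ≤ Real.sqrt (W6 2 1 r s) := Real.le_sqrt_of_sq_le hWlow
  have hVpos : 0 < Real.sqrt (W6 2 1 r s) := lt_of_lt_of_le (by norm_num) hVlow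
  have hinv : 1 / Real.sqrt (W6 2 1 r s) ≤ 1 / (1068 / 1000) :=
    one_div_le_one_div_of_le (by norm_num) hVlow
  have hA : |1 / 2 - s.1| = 1 / 2 - s.1 := abs_of_nonneg (by linarith [h1'.2])
  by_cases hc : Real.sqrt (W6 2 1 r s) < |z| + |1 / 2 - s.1|
  · refine (k4_zero_le _ _ _ hc).trans ?_
    rw [← ENNReal.ofReal_mul (by norm_num)]
    refine le_trans (ENNReal.ofReal_le_ofReal ?_) le_self_add
    calc (1 / 2 : ℝ) * (1 / Real.sqrt (W6 2 1 r s)) ≤ 1 / 2 * (1 / (1068 / 1000)) := by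
          gcongr
      _ = 1 / 2 / (1068 / 1000) := by norm_num
  · rw [not_lt, hA] at hc
    have hc2 : 5 / 4 - s.1 ≤ Real.sqrt (W6 2 1 r s) := by linarith
    have hsq : (5 / 4 - s.1) ^ 2 ≤ W6 2 1 r s := by
      have := Real.sq_sqrt (le_trans (by positivity) hWlow : (0 : ℝ) ≤ W6 2 1 r s)
      rw [← this]
      exact pow_le_pow_left₀ (by linarith [h1'.2]) hc2 2
    rw [hW] at hsq
    have hs1 : -(105 / 10000) ≤ s.1 := by
      by_contra hcon
      rw [not_le] at hcon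
      nlinarith [mul_nonneg (by linarith [h2'.1] : (0 : ℝ) ≤ s.2 + 1 / 8)
        (by linarith [h2'.1] : (0 : ℝ) ≤ s.2 + 1 / 8 + 1 / 2)]
    have hmem : s.1 ∈ {t : ℝ | -(105 / 10000) ≤ t} := hs1
    rw [Set.indicator_of_mem hmem]
    refine (k4_le _ _ _ _).trans ?_
    rw [← ENNReal.ofReal_add (by norm_num) (by norm_num)]
    apply ENNReal.ofReal_le_ofReal
    have h89 : 1 / Real.sqrt (W6 2 1 r s) ≤ 8 / 9 := by
      have : (9 / 8 : ℝ) ≤ Real.sqrt (W6 2 1 r s) := by linarith [h1'.2]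
      calc 1 / Real.sqrt (W6 2 1 r s) ≤ 1 / (9 / 8) := one_div_le_one_div_of_le (by norm_num) this
        _ = 8 / 9 := by norm_num
    have : (1 : ℝ) / 2 / (1068 / 1000) = 1 / 2 * (1 / (1068 / 1000)) := by norm_num
    rw [this]
    linarith

theorem L6_21_far (r a : ℤ) (hr : |r| = 1) (ha : |a| = 1) (z : ℝ) (hz : 3 / 4 ≤ |z|) :
    L6 2 1 r a 0 z ≤ ENNReal.ofReal (737 / 1000) := by
  have := lam_prob (τ := 1 / 8) (by norm_num) (by norm_num)
  rw [D6g_abs_one ha]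
  have hms : MeasurableSet {t : ℝ | -(105 / 10000) ≤ t} := measurableSet_Ici
  calc ∫⁻ s, k4 (1 / 2 - s.1) 0 (Real.sqrt (W6 2 1 r s)) z ∂lam2
      ≤ ∫⁻ s, (fun t : ℝ => ENNReal.ofReal (1 / 2 / (1068 / 1000))
        + ({t : ℝ | -(105 / 10000) ≤ t}.indicator (fun _ => ENNReal.ofReal (4 / 9)) t)) s.1
          ∂lam2 := by
        refine lintegral_mono_ae ?_
        filter_upwards [lam2_ae] with s hs
        exact D6g_point r hr z hz s hs.1 hs.2
    _ = ENNReal.ofReal (1 / 2 / (1068 / 1000)) + ENNReal.ofReal (4 / 9)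
        * lam (1 / 8) {t : ℝ | -(105 / 10000) ≤ t} := by
        rw [D6g_fst (fun t : ℝ => ENNReal.ofReal (1 / 2 / (1068 / 1000))
            + ({t : ℝ | -(105 / 10000) ≤ t}.indicator (fun _ => ENNReal.ofReal (4 / 9)) t))
            (Measurable.add (f := fun _ => ENNReal.ofReal (1 / 2 / (1068 / 1000)))
              (g := {t : ℝ | -(105 / 10000) ≤ t}.indicator (fun _ => ENNReal.ofReal (4 / 9)))
              measurable_const (measurable_const.indicator hms)),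
          lintegral_add_left measurable_const, lintegral_const, measure_univ, mul_one,
          lintegral_indicator hms, setLIntegral_const]
    _ ≤ ENNReal.ofReal (737 / 1000) := by
        rw [lam_tail (by norm_num) (by norm_num) _ (by norm_num) (by norm_num),
          ← ENNReal.ofReal_mul (by norm_num), ← ENNReal.ofReal_add (by norm_num) (by norm_num)]
        apply ENNReal.ofReal_le_ofReal
        norm_num

end Pool.Agent.helper49.Slope
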