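import Pool.Agent.helper49.Slope.D6c

/-!
MP_aedd95_co (slope of k-fold hyperplane covers of triangular grids), module D6n.
The law `D_6`, Lemma 4: pattern `(0,0)`, `|r| = 1`.

`σ = s₁ + s₂`; `lam_sum_tail` with `τ = 1/8`: `lam2 {x ≤ s.1 + s.2} ≤ 25 (1/4 - x)²/2`.
LEMMA 4. `V² = W6 0 0 r s = 3/4`, `V = √3/2 ∈ (0.866, 0.8661)`, `1/V ≤ 1.1548`.
* `max(|a|,|b|) ≥ 3`: `9/8 > V`: `L6_le_12` (and `E6_le_const`): `L ≤ 0.58`.
* `|a| = |b| = 1`: `k4 ≤ (3/4)(1/V) + (1/4)(1/V)·1{σ ≥ 0.1339}` (if `1 - σ ≤ V < 0.8661` then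
  `σ > 0.1339`): `L ≤ 1.1548 (0.75 + 0.25 · 25 · 0.1161²/2) = 1.1548 · 0.79213 = 0.91475`
  (with `1/V = 2/√3 ≤ 1.154701` it is `0.91467`).
-/

set_option autoImplicit false

open MeasureTheory ProbabilityTheory
open scoped ENNReal

namespace Pool.Agent.helper49.Slope

theorem D6n_V : Real.sqrt (3 / 4) ≤ 8661 / 10000 ∧ 1 / Real.sqrt (3 / 4) ≤ 115471 / 100000 ∧
    0 < Real.sqrt (3 / 4) := by
  have h0 : (86602 / 100000 : ℝ) ≤ Real.sqrt (3 / 4) := by
    apply Real.le_sqrt_of_sq_le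
    norm_num
  refine ⟨?_, ?_, by linarith⟩
  · rw [Real.sqrt_le_left (by norm_num)]
    norm_num
  · rw [div_le_iff₀ (by linarith)]
    linarith

theorem D6n_W (r : ℤ) (hr : |r| = 1) (s : ℝ × ℝ) : W6 0 0 r s = 3 / 4 := by
  have h1 : ((r : ℝ)) ^ 2 = 1 := by
    rw [← sq_abs, ← Int.cast_abs, hr]
    norm_num
  unfold W6
  rw [h1]
  norm_num

theorem D6n_one {a : ℤ} (ha : Odd a) (h : ¬ 3 ≤ |a|) : |a| = 1 := by
  have h1 : a ≠ 0 := by
    rintro rfl
    exact absurd ha (by decide)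
  obtain ⟨t, ht⟩ := ha
  rcases abs_cases a with h2 | h2 <;> omega

theorem D6n_k4 (s : ℝ × ℝ) (z : ℝ) (h1 : |s.1| ≤ 1 / 8) (h2 : |s.2| ≤ 1 / 8) :
    k4 (1 / 2 - s.1) (1 / 2 - s.2) (Real.sqrt (3 / 4)) z ≤
      ENNReal.ofReal (3 / 4 * (115471 / 100000)) +
        Set.indicator {s : ℝ × ℝ | 1339 / 10000 ≤ s.1 + s.2}
          (fun _ => ENNReal.ofReal (1 / 4 * (115471 / 100000))) s := by
  obtain ⟨v1, v2, v3⟩ := D6n_V
  have a1 := abs_le.1 h1
  have a2 := abs_le.1 h2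
  by_cases hs : 1339 / 10000 ≤ s.1 + s.2
  · rw [Set.indicator_of_mem (show s ∈ {s : ℝ × ℝ | 1339 / 10000 ≤ s.1 + s.2} from hs),
      ← ENNReal.ofReal_add (by norm_num) (by norm_num)]
    refine (k4_le _ _ _ _).trans (ENNReal.ofReal_le_ofReal ?_)
    linarith
  · rw [Set.indicator_of_notMem (show s ∉ {s : ℝ × ℝ | 1339 / 10000 ≤ s.1 + s.2} from hs), add_zero]
    refine (k4_le_34 _ _ _ _ ?_).trans ?_
    · rw [abs_of_pos (by linarith : 0 < 1 / 2 - s.1), abs_of_pos (by linarith : 0 < 1 / 2 - s.2)]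
      have := abs_nonneg z
      rw [not_le] at hs
      linarith
    · rw [← ENNReal.ofReal_mul (by norm_num)]
      apply ENNReal.ofReal_le_ofReal
      linarith

theorem L6_00 (r a b : ℤ) (hr : |r| = 1) (ha : Odd a) (hb : Odd b) (z : ℝ) :
    L6 0 0 r a b z ≤ ENNReal.ofReal (915 / 1000) := by
  obtain ⟨v1, v2, v3⟩ := D6n_V
  by_cases h3 : 3 ≤ |a| ∨ 3 ≤ |b|
  · have h1 := L6_le_12 0 0 r a b z (by
      intro s hs1 hs2
      rw [D6n_W r hr s]
      have a1 := abs_le.1 hs1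
      have a2 := abs_le.1 hs2
      rcases h3 with h | h
      · left
        have h4 : (3 : ℝ) ≤ |(a : ℝ)| := by exact_mod_cast h
        have h5 : 3 * (3 / 8) ≤ |(a : ℝ)| * (1 / 2 - s.1) :=
          mul_le_mul h4 (by linarith) (by norm_num) (abs_nonneg _)
        linarith
      · right
        have h4 : (3 : ℝ) ≤ |(b : ℝ)| := by exact_mod_cast h
        have h5 : 3 * (3 / 8) ≤ |(b : ℝ)| * (1 / 2 - s.2) :=
          mul_le_mul h4 (by linarith) (by norm_num) (abs_nonneg _)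
        linarith)
    have h2 := E6_le_const 0 0 r (866 / 1000) (by norm_num) (by
      intro s _ _
      rw [D6n_W r hr s]
      norm_num)
    calc L6 0 0 r a b z ≤ ENNReal.ofReal (1 / 2) * E6 0 0 r := h1
      _ ≤ ENNReal.ofReal (1 / 2) * ENNReal.ofReal (1 / (866 / 1000)) := by gcongr
      _ ≤ ENNReal.ofReal (915 / 1000) := by
        rw [← ENNReal.ofReal_mul (by norm_num)]
        apply ENNReal.ofReal_le_ofReal
        norm_num
  · rw [not_or] at h3
    have ha1 := D6n_one ha h3.1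
    have hb1 := D6n_one hb h3.2
    rw [L6_abs, ha1, hb1, L6_eq]
    have := lam2_prob
    have hae : ∀ᵐ s ∂lam2, k4 (((1 : ℤ) : ℝ) * (1 / 2 - s.1)) (((1 : ℤ) : ℝ) * (1 / 2 - s.2))
        (Real.sqrt (W6 0 0 r s)) z ≤ ENNReal.ofReal (3 / 4 * (115471 / 100000)) +
        Set.indicator {s : ℝ × ℝ | 1339 / 10000 ≤ s.1 + s.2}
          (fun _ => ENNReal.ofReal (1 / 4 * (115471 / 100000))) s := by
      filter_upwards [lam2_ae] with s hs
      rw [D6n_W r hr s, Int.cast_one, one_mul, one_mul]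
      exact D6n_k4 s z hs.1 hs.2
    have hmeas : MeasurableSet {s : ℝ × ℝ | 1339 / 10000 ≤ s.1 + s.2} :=
      measurableSet_le measurable_const (measurable_fst.add measurable_snd)
    have htail := lam_sum_tail (τ := 1 / 8) (by norm_num) (by norm_num) (1339 / 10000)
      (by norm_num) (by norm_num)
    calc ∫⁻ s, k4 (((1 : ℤ) : ℝ) * (1 / 2 - s.1)) (((1 : ℤ) : ℝ) * (1 / 2 - s.2))
          (Real.sqrt (W6 0 0 r s)) z ∂lam2
        ≤ ∫⁻ s, (ENNReal.ofReal (3 / 4 * (115471 / 100000)) +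
          Set.indicator {s : ℝ × ℝ | 1339 / 10000 ≤ s.1 + s.2}
          (fun _ => ENNReal.ofReal (1 / 4 * (115471 / 100000))) s) ∂lam2 :=
          lintegral_mono_ae hae
      _ = ENNReal.ofReal (3 / 4 * (115471 / 100000)) +
          ENNReal.ofReal (1 / 4 * (115471 / 100000)) *
            lam2 {s : ℝ × ℝ | 1339 / 10000 ≤ s.1 + s.2} := by
          rw [lintegral_add_left measurable_const, lintegral_const, measure_univ, mul_one,
            lintegral_indicator_const hmeas]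
      _ ≤ ENNReal.ofReal (3 / 4 * (115471 / 100000)) +
          ENNReal.ofReal (1 / 4 * (115471 / 100000)) *
            ENNReal.ofReal (25 * (1 / 4 - 1339 / 10000) ^ 2 / 2) := by
          gcongr
          refine htail.trans (ENNReal.ofReal_le_ofReal ?_)
          norm_num
      _ ≤ ENNReal.ofReal (915 / 1000) := by
          rw [← ENNReal.ofReal_mul (by norm_num), ← ENNReal.ofReal_add (by norm_num) (by norm_num)]
          apply ENNReal.ofReal_le_ofReal
          norm_num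

end Pool.Agent.helper49.Slope
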