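import Pool.Agent.helper49.Slope.D6b
import Pool.Agent.helper49.Slope.D6e
import Pool.Agent.helper49.Slope.D6f
import Pool.Agent.helper49.Slope.D6g
import Pool.Agent.helper49.Slope.D6n

/-!
MP_aedd95_co (slope of k-fold hyperplane covers of triangular grids), module D6h.
The law `D_6`, Lemma 1: all vectors which are not of type A.

PROOFS. `L6_r2`: `W6_ge`: `V² ≥ (3/4) r² ≥ 3 ≥ 1.7305²`... (`E6_le_const` with `c = 1000/578 ≤ √3`).
`L6_r1` (`|r| = 1`): `pattern6'`: `(0,0)`: `a, b` odd, `L6_00`; `(1,0)`: `L6_le`, `E6_10_1`;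
otherwise `L6_le_one`.
`L6_r0`: `pattern6`, `(0,0)` is excluded. Upper bounds of `V`: `c, e ∈ [3/8,5/8]`.
 `(1,0)`: `a` odd, `b` even. `b = 0, |a| = 1`: `L6_single`. `|a| ≥ 3`: `|a|(1/2-s₁) ≥ 9/8 > 5/8 ≥ V`;
   `|b| ≥ 2`: `|b|(1/2-s₂) ≥ 3/4 > 5/8`: `L6_le_12`, `E6_10`: `L ≤ (1/2)·2 = 1`.
 `(1,1)`: `a, b` odd, `V = 1/2`. `|a| = |b| = 1`: `L6_11`; otherwise `9/8 > 1/2`: `L6_le_12`, `E6_11`.
 `(1,-1)`: `L6_1m1`. `(2,0)`: `L6_le`, `E6_20`. `(2,-1)`: `E6_2m1`. `(3,1)`: `E6_31`.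
 `(2,1)`: `a` even, `b` odd, `V² = 1/2 + 2q₁ - q₂ ≤ 73/64`, `V < 1.07`. `a = 0`: `|b| ≥ 3`,
   `|b|(1/2-s₂) ≥ 9/8 > V`: `L6_le_12`, `E6_21`: `0.582`. `|a| ≥ 2`: `|A| + |B| ≥ 3/4 + 3/8 = 9/8 > V`:
   `L6_le_34`, `E6_21`: `0.873`.
 the rest: `L6_le_one`.
`lemma6_one`: reduction to `|n| ≤ m` by `L6_swap` and `L6_neg` (and `L6_abs`); `|r| = 0, 1` or `≥ 2`.
-/

set_option autoImplicit false

open MeasureTheory ProbabilityTheory
open scoped ENNReal

namespace Pool.Agent.helper49.Slope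

theorem D6h_term (a : ℤ) (k : ℕ) (hk : (k : ℤ) ≤ |a|) (s : ℝ) (hs : |s| ≤ 1 / 8) :
    (k : ℝ) * (3 / 8) ≤ |(a : ℝ)| * (1 / 2 - s) := by
  have h1 : (k : ℝ) ≤ |(a : ℝ)| := by
    rw [← Int.cast_abs]
    exact_mod_cast hk
  have h2 := abs_le.1 hs
  have h3 : (0 : ℝ) ≤ k := Nat.cast_nonneg k
  have h4 : (3 : ℝ) / 8 ≤ 1 / 2 - s := by linarith [h2.2]
  exact mul_le_mul h1 h4 (by norm_num) (h3.trans h1)

theorem D6h_half {x : ℝ≥0∞} (h : x ≤ 2) : ENNReal.ofReal (1 / 2) * x ≤ 1 := by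
  calc ENNReal.ofReal (1 / 2) * x ≤ ENNReal.ofReal (1 / 2) * 2 := by gcongr
    _ = ENNReal.ofReal (1 / 2) * ENNReal.ofReal 2 := by norm_num
    _ = 1 := by
        rw [← ENNReal.ofReal_mul (by norm_num)]
        norm_num

theorem D6h_mul {x : ℝ≥0∞} (p q : ℝ) (hp : 0 ≤ p) (h : x ≤ ENNReal.ofReal q) (hpq : p * q ≤ 1) :
    ENNReal.ofReal p * x ≤ 1 := by
  calc ENNReal.ofReal p * x ≤ ENNReal.ofReal p * ENNReal.ofReal q := by gcongr
    _ = ENNReal.ofReal (p * q) := (ENNReal.ofReal_mul hp).symm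
    _ ≤ 1 := ENNReal.ofReal_le_one.2 hpq

theorem L6_r2 (m n r a b : ℤ) (hr : 2 ≤ |r|) (z : ℝ) :
    L6 m n r a b z ≤ ENNReal.ofReal (578 / 1000) := by
  refine (L6_le m n r a b z).trans ?_
  have h := E6_le_const m n r (1000 / 578) (by norm_num) (fun s h1 h2 => by
    have h3 := W6_ge m n r s h1 h2
    have h4 : (2 : ℝ) ≤ |(r : ℝ)| := by
      rw [← Int.cast_abs]
      exact_mod_cast hr
    have h5 : (4 : ℝ) ≤ (r : ℝ) ^ 2 := by
      rw [← sq_abs]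
      nlinarith
    refine le_trans ?_ h3
    nlinarith)
  refine h.trans (le_of_eq ?_)
  congr 1
  norm_num

theorem L6_r1 (m n r a b : ℤ) (h : |n| ≤ m) (hr : |r| = 1) (ha : Even (a - m - r))
    (hb : Even (b - n - r)) (z : ℝ) : L6 m n r a b z ≤ 1 := by
  rcases pattern6' m n r h hr with ⟨rfl, rfl⟩ | ⟨rfl, rfl⟩ | h1
  · have hr' : Odd r := by
      rcases abs_eq (zero_le_one) |>.1 hr with rfl | rfl <;> decide
    have ha' : Odd a := by
      have : a = (a - 0 - r) + r := by ring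
      rw [this]
      exact ha.add_odd hr'
    have hb' : Odd b := by
      have : b = (b - 0 - r) + r := by ring
      rw [this]
      exact hb.add_odd hr'
    refine (L6_00 r a b hr ha' hb' z).trans ?_
    exact ENNReal.ofReal_le_one.2 (by norm_num)
  · exact (L6_le 1 0 r a b z).trans (E6_10_1 r hr)
  · exact L6_le_one m n r a b z h1

theorem D6h_odd {a : ℤ} (h : Odd a) (h1 : |a| ≠ 1) : 3 ≤ |a| := by
  have h2 : Odd |a| := odd_abs.2 h
  have h3 : 0 ≤ |a| := abs_nonneg a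
  obtain ⟨k, hk⟩ := h2
  omega

theorem D6h_even {a : ℤ} (h : Even a) (h1 : a ≠ 0) : 2 ≤ |a| := by
  have h2 : Even |a| := even_abs.2 h
  have h3 : 0 < |a| := abs_pos.2 h1
  obtain ⟨k, hk⟩ := h2
  omega

theorem D6h_q (s : ℝ) (hs : |s| ≤ 1 / 8) :
    9 / 64 ≤ (1 / 2 + s) ^ 2 ∧ (1 / 2 + s) ^ 2 ≤ 25 / 64 := by
  have h := abs_le.1 hs
  constructor
  · nlinarith [h.1, h.2]
  · nlinarith [h.1, h.2]

theorem D6h_10 (a b : ℤ) (ha : Odd a) (hb : Even b) (z : ℝ) : L6 1 0 0 a b z ≤ 1 := by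
  have hV : ∀ s : ℝ × ℝ, |s.1| ≤ 1 / 8 → Real.sqrt (W6 1 0 0 s) ≤ 5 / 8 := by
    intro s hs
    have h1 := D6h_q s.1 hs
    refine (Real.sqrt_le_iff).2 ⟨by norm_num, ?_⟩
    unfold W6
    push_cast
    nlinarith [h1.2]
  by_cases h1 : |a| = 1
  · by_cases h2 : b = 0
    · subst h2
      exact L6_single a h1 z
    · refine (L6_le_12 1 0 0 a b z fun s hs1 hs2 => Or.inr ?_).trans (D6h_half E6_10)
      have h3 := D6h_term b 2 (D6h_even hb h2) s.2 hs2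
      have h4 := hV s hs1
      push_cast at h3
      linarith
  · refine (L6_le_12 1 0 0 a b z fun s hs1 hs2 => Or.inl ?_).trans (D6h_half E6_10)
    have h3 := D6h_term a 3 (D6h_odd ha h1) s.1 hs1
    have h4 := hV s hs1
    push_cast at h3
    linarith

theorem D6h_11 (a b : ℤ) (ha : Odd a) (hb : Odd b) (z : ℝ) : L6 1 1 0 a b z ≤ 1 := by
  have hV : ∀ s : ℝ × ℝ, Real.sqrt (W6 1 1 0 s) ≤ 5 / 8 := by
    intro s
    refine (Real.sqrt_le_iff).2 ⟨by norm_num, ?_⟩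
    unfold W6
    push_cast
    nlinarith
  by_cases h1 : |a| = 1
  · by_cases h2 : |b| = 1
    · exact L6_11 a b h1 h2 z
    · refine (L6_le_12 1 1 0 a b z fun s hs1 hs2 => Or.inr ?_).trans (D6h_half E6_11)
      have h3 := D6h_term b 3 (D6h_odd hb h2) s.2 hs2
      have h4 := hV s
      push_cast at h3
      linarith
  · refine (L6_le_12 1 1 0 a b z fun s hs1 hs2 => Or.inl ?_).trans (D6h_half E6_11)
    have h3 := D6h_term a 3 (D6h_odd ha h1) s.1 hs1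
    have h4 := hV s
    push_cast at h3
    linarith

theorem D6h_21 (a b : ℤ) (ha : Even a) (hb : Odd b) (hA : ¬ (a = 0 ∧ |b| = 1)) (z : ℝ) :
    L6 2 1 0 a b z ≤ 1 := by
  have hV : ∀ s : ℝ × ℝ, |s.1| ≤ 1 / 8 → |s.2| ≤ 1 / 8 →
      Real.sqrt (W6 2 1 0 s) < 107 / 100 := by
    intro s hs1 hs2
    have h1 := D6h_q s.1 hs1
    have h2 := D6h_q s.2 hs2
    refine (Real.sqrt_lt' (by norm_num)).2 ?_
    unfold W6
    push_cast
    nlinarith [h1.2, h2.1]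
  by_cases h1 : a = 0
  · have h2 : |b| ≠ 1 := fun h => hA ⟨h1, h⟩
    refine (L6_le_12 2 1 0 a b z fun s hs1 hs2 => Or.inr ?_).trans
      (D6h_mul _ _ (by norm_num) E6_21 (by norm_num))
    have h3 := D6h_term b 3 (D6h_odd hb h2) s.2 hs2
    have h4 := hV s hs1 hs2
    push_cast at h3
    linarith
  · refine (L6_le_34 2 1 0 a b z fun s hs1 hs2 => ?_).trans
      (D6h_mul _ _ (by norm_num) E6_21 (by norm_num))
    have h3 := D6h_term a 2 (D6h_even ha h1) s.1 hs1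
    have hb1 : ((1 : ℕ) : ℤ) ≤ |b| := by
      have : b ≠ 0 := by
        rintro rfl
        exact absurd hb (by decide)
      have h5 := abs_pos.2 this
      push_cast
      omega
    have h4 := D6h_term b 1 hb1 s.2 hs2
    have h5 := hV s hs1 hs2
    have h6 := abs_nonneg z
    push_cast at h3 h4
    linarith

theorem L6_r0 (m n a b : ℤ) (h : |n| ≤ m) (ha : Even (a - m)) (hb : Even (b - n)) (h0 : m ≠ 0)
    (hA : ¬ (m = 2 ∧ n = 1 ∧ a = 0 ∧ |b| = 1)) (z : ℝ) : L6 m n 0 a b z ≤ 1 := by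
  have ev : ∀ x y : ℤ, Even (x - y) → Even y → Even x := by
    intro x y h1 h2
    have : x = (x - y) + y := by ring
    rw [this]
    exact h1.add h2
  have od : ∀ x y : ℤ, Even (x - y) → Odd y → Odd x := by
    intro x y h1 h2
    have : x = (x - y) + y := by ring
    rw [this]
    exact h1.add_odd h2
  rcases pattern6 m n h with ⟨rfl, rfl⟩ | ⟨rfl, rfl⟩ | ⟨rfl, rfl⟩ | ⟨rfl, rfl⟩ | ⟨rfl, rfl⟩ |
    ⟨rfl, rfl⟩ | ⟨rfl, rfl⟩ | ⟨rfl, rfl⟩ | h1
  · exact absurd rfl h0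
  · exact D6h_10 a b (od a 1 ha (by decide)) (ev b 0 hb (by decide)) z
  · exact D6h_11 a b (od a 1 ha (by decide)) (od b 1 hb (by decide)) z
  · exact L6_1m1 a b (od a 1 ha (by decide)) (od b (-1) hb (by decide)) z
  · exact (L6_le 2 0 0 a b z).trans E6_20
  · exact D6h_21 a b (ev a 2 ha (by decide)) (od b 1 hb (by decide))
      (fun h2 => hA ⟨rfl, rfl, h2.1, h2.2⟩) z
  · exact (L6_le 2 (-1) 0 a b z).trans E6_2m1
  · exact (L6_le 3 1 0 a b z).trans E6_31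
  · exact L6_le_one m n 0 a b z h1

/-- Lemma 1 for `|n| ≤ m` -/
theorem D6h_main (m n r a b : ℤ) (h : |n| ≤ m) (ha : Even (a - m - r)) (hb : Even (b - n - r))
    (h0 : ¬ (m = 0 ∧ n = 0 ∧ r = 0)) (hA : ¬ TypeA6 m n r a b) (z : ℝ) :
    L6 m n r a b z ≤ 1 := by
  rcases lt_trichotomy |r| 1 with hr | hr | hr
  · have hr0 : r = 0 := by
      have := abs_nonneg r
      exact abs_eq_zero.1 (by omega)
    subst hr0
    refine L6_r0 m n a b h (by simpa using ha) (by simpa using hb) ?_ ?_ z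
    · rintro rfl
      refine h0 ⟨rfl, ?_, rfl⟩
      exact abs_eq_zero.1 (le_antisymm h (abs_nonneg n))
    · rintro ⟨rfl, rfl, h1, h2⟩
      exact hA ⟨rfl, Or.inl ⟨by norm_num, by norm_num, h1, h2⟩⟩
  · exact L6_r1 m n r a b h hr ha hb z
  · refine (L6_r2 m n r a b (by omega) z).trans ?_
    exact ENNReal.ofReal_le_one.2 (by norm_num)

/-- Lemma 1 for `|n| ≤ |m|` -/
theorem D6h_main' (m n r a b : ℤ) (h : |n| ≤ |m|) (ha : Even (a - m - r))
    (hb : Even (b - n - r)) (h0 : ¬ (m = 0 ∧ n = 0 ∧ r = 0)) (hA : ¬ TypeA6 m n r a b) (z : ℝ) :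
    L6 m n r a b z ≤ 1 := by
  rcases le_total 0 m with hm | hm
  · rw [abs_of_nonneg hm] at h
    exact D6h_main m n r a b h ha hb h0 hA z
  · rw [L6_neg]
    rw [abs_of_nonpos hm] at h
    refine D6h_main (-m) (-n) r a b (by rwa [abs_neg]) ?_ ?_ ?_ ?_ z
    · have : a - -m - r = (a - m - r) + 2 * m := by ring
      rw [this]
      exact ha.add (even_two_mul m)
    · have : b - -n - r = (b - n - r) + 2 * n := by ring
      rw [this]
      exact hb.add (even_two_mul n)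
    · rintro ⟨h1, h2, h3⟩
      exact h0 ⟨by omega, by omega, h3⟩
    · rintro ⟨h1, h2⟩
      refine hA ⟨h1, ?_⟩
      rcases h2 with ⟨h3, h4, h5, h6⟩ | ⟨h3, h4, h5, h6⟩
      · exact Or.inl ⟨by rwa [abs_neg] at h3, by omega, h5, h6⟩
      · exact Or.inr ⟨by rwa [abs_neg] at h3, by omega, h5, h6⟩

/-- **Lemma 1** -/
theorem lemma6_one (m n r a b : ℤ) (ha : Even (a - m - r)) (hb : Even (b - n - r))
    (h0 : ¬ (m = 0 ∧ n = 0 ∧ r = 0)) (hA : ¬ TypeA6 m n r a b) (z : ℝ) :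
    L6 m n r a b z ≤ 1 := by
  rcases le_total |n| |m| with h | h
  · exact D6h_main' m n r a b h ha hb h0 hA z
  · rw [L6_swap]
    refine D6h_main' n m r b a h hb ha (fun h1 => h0 ⟨h1.2.1, h1.1, h1.2.2⟩) ?_ z
    rintro ⟨h1, h2⟩
    refine hA ⟨h1, ?_⟩
    rcases h2 with ⟨h3, h4, h5, h6⟩ | ⟨h3, h4, h5, h6⟩
    · exact Or.inr ⟨h3, h4, h6, h5⟩
    · exact Or.inl ⟨h3, h4, h6, h5⟩

end Pool.Agent.helper49.Slope
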