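import Pool.Agent.helper49.Slope.DefsD6
import Pool.Agent.helper49.Slope.J1
import Pool.Agent.helper49.Slope.B2a

/-!
MP_aedd95_co (slope of k-fold hyperplane covers of triangular grids), module D6i.
The law `D_6`: laws of the closure vectors, `D = 2x η₁(1/2-s₁) + b η₂(1/2-s₂)`.

PROOFS. `closure6_fst`: `2x η₁ (1/2 - s₁) = x η₁ (1 - 2s₁)` has load `≤ (5/2)/|x|`
(`digit_closure` with `τ = 1/8`: `(5/8)/(1/4) = 5/2`), for fixed `(s₂,η₂)` the law of `D` is a
translate (`HasLoad.shift`), and then `HasLoad.bind` or Tonelli: for a Borel set `S`,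
`pi6 (D ∈ S) = ∫ P((s₁,η₁): x η₁(1-2s₁) ∈ S - const) ≤ ∫ |S| (5/2)/|x|/2`. One has to rearrange
`lam2.prod (sgnM.prod sgnM)` into `(lam.prod sgnM).prod (lam.prod sgnM)` (`lintegral_prod`,
`lintegral_lintegral_swap`), or compute `∫⁻ … ∂pi6` as an iterated integral
`∫ ds₂ ∫ ds₁ ∑_{η}` directly. `closure6_snd` is the same with the roles exchanged.
`closure6_supp_*`: `D = ±η(1-2s)` with `|D| ∈ [3/4, 5/4]` almost surely, and the load is `≤ 5/2`: a
law with load `≤ 5/2` giving mass `0` to `{|z| < 3/4}` has the load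
`if 3/4 ≤ |z| then 5/2 else 0` (intersect a Borel set with `{3/4 ≤ |z|}`).
-/

set_option autoImplicit false

open MeasureTheory ProbabilityTheory
open scoped ENNReal

namespace Pool.Agent.helper49.Slope

/-- the law of one digit with its sign -/
noncomputable abbrev D6i_A : Measure (ℝ × ℝ) := (lam (1 / 8)).prod sgnM

theorem D6i_lint (F : (ℝ × ℝ) × (ℝ × ℝ) → ℝ≥0∞) (hF : Measurable F) :
    ∫⁻ q, F q ∂pi6 = ∫⁻ r, ∫⁻ p, F ((p.1, r.1), (p.2, r.2)) ∂D6i_A ∂D6i_A := by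
  have := lam_prob (τ := 1 / 8) (by norm_num) (by norm_num)
  have := sgnM_prob
  have hF2 : ∀ s : ℝ × ℝ, Measurable (fun η : ℝ × ℝ => F (s, η)) := fun s =>
    hF.comp (measurable_const.prodMk measurable_id)
  have e1 : ∫⁻ q, F q ∂pi6 = ∫⁻ s2, ∫⁻ s1, ∫⁻ η2, ∫⁻ η1, F ((s1, s2), (η1, η2))
      ∂sgnM ∂sgnM ∂(lam (1 / 8)) ∂(lam (1 / 8)) := by
    rw [lintegral_prod _ hF.aemeasurable]
    rw [lintegral_prod_symm _ (Measurable.lintegral_prod_right' hF).aemeasurable]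
    refine lintegral_congr fun s2 => lintegral_congr fun s1 => ?_
    rw [lintegral_prod_symm _ (hF2 _).aemeasurable]
  have e2 : ∫⁻ r, ∫⁻ p, F ((p.1, r.1), (p.2, r.2)) ∂D6i_A ∂D6i_A
      = ∫⁻ s2, ∫⁻ η2, ∫⁻ s1, ∫⁻ η1, F ((s1, s2), (η1, η2))
      ∂sgnM ∂(lam (1 / 8)) ∂sgnM ∂(lam (1 / 8)) := by
    rw [lintegral_prod]
    · refine lintegral_congr fun s2 => lintegral_congr fun η2 => ?_
      rw [lintegral_prod]
      exact (hF.comp (by fun_prop : Measurable (fun p : ℝ × ℝ => ((p.1, s2), (p.2, η2))))).aemeasurable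
    · refine Measurable.aemeasurable ?_
      exact Measurable.lintegral_prod_right'
        (f := fun z : (ℝ × ℝ) × (ℝ × ℝ) => F ((z.2.1, z.1.1), (z.2.2, z.1.2)))
        (hF.comp (by fun_prop))
  rw [e1, e2]
  refine lintegral_congr fun s2 => ?_
  rw [lintegral_lintegral_swap]
  refine Measurable.aemeasurable ?_
  exact Measurable.lintegral_prod_right'
    (f := fun z : (ℝ × ℝ) × ℝ => F ((z.1.1, s2), (z.2, z.1.2))) (hF.comp (by fun_prop))

theorem D6i_lint2 (F : (ℝ × ℝ) × (ℝ × ℝ) → ℝ≥0∞) (hF : Measurable F) :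
    ∫⁻ q, F q ∂pi6 = ∫⁻ p, ∫⁻ r, F ((p.1, r.1), (p.2, r.2)) ∂D6i_A ∂D6i_A := by
  have := lam_prob (τ := 1 / 8) (by norm_num) (by norm_num)
  have := sgnM_prob
  rw [D6i_lint F hF, lintegral_lintegral_swap]
  refine Measurable.aemeasurable ?_
  exact hF.comp (by fun_prop : Measurable (fun z : (ℝ × ℝ) × (ℝ × ℝ) =>
    ((z.2.1, z.1.1), (z.2.2, z.1.2))))

/-- the law of `b η (1 - 2 s) + c` -/
theorem D6i_bd (b : ℤ) (hb : b ≠ 0) (c : ℝ) (S : Set ℝ) (hS : MeasurableSet S) :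
    D6i_A ((fun q : ℝ × ℝ => (b : ℝ) * (q.2 * (1 - 2 * q.1)) + c) ⁻¹' S)
      ≤ ENNReal.ofReal (5 / 2 / |(b : ℝ)|) / 2 * volume S := by
  have h := digit_closure (τ := 1 / 8) (by norm_num) (by norm_num) b hb
  have h2 := HasLoad.shift measurable_const h c
  have hm : Measurable (fun q : ℝ × ℝ => (b : ℝ) * (q.2 * (1 - 2 * q.1))) := by fun_prop
  rw [Measure.map_map (by fun_prop) hm] at h2
  unfold HasLoad at h2
  have h3 := h2 S
  rw [Measure.map_apply (by fun_prop) hS, withDensity_apply _ hS, setLIntegral_const] at h3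
  refine h3.trans (le_of_eq ?_)
  norm_num

theorem D6i_meas (a b : ℤ) : Measurable (D6c a b) := by
  unfold D6c
  fun_prop

theorem D6i_ind (f : (ℝ × ℝ) × (ℝ × ℝ) → ℝ) (hf : Measurable f) (S : Set ℝ)
    (hS : MeasurableSet S) : (pi6.map f) S = ∫⁻ q, S.indicator 1 (f q) ∂pi6 := by
  rw [Measure.map_apply hf hS, ← lintegral_indicator_one (hf hS)]
  rfl

theorem closure6_fst (x b : ℤ) (hx : x ≠ 0) :
    HasLoad (pi6.map (D6c (2 * x) b)) (fun _ => ENNReal.ofReal (5 / 2 / |(x : ℝ)|)) := by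
  have := lam_prob (τ := 1 / 8) (by norm_num) (by norm_num)
  have := sgnM_prob
  unfold HasLoad
  refine Measure.le_iff.2 fun S hS => ?_
  have hm := D6i_meas (2 * x) b
  have e0 := D6i_lint (fun q => S.indicator (1 : ℝ → ℝ≥0∞) (D6c (2 * x) b q))
    ((measurable_one.indicator hS).comp hm)
  rw [D6i_ind _ hm S hS, e0, withDensity_apply _ hS, setLIntegral_const]
  calc ∫⁻ r, ∫⁻ p, S.indicator (1 : ℝ → ℝ≥0∞) (D6c (2 * x) b ((p.1, r.1), (p.2, r.2))) ∂D6i_A ∂D6i_A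
      ≤ ∫⁻ _r, ENNReal.ofReal (5 / 2 / |(x : ℝ)|) / 2 * volume S ∂D6i_A := by
        refine lintegral_mono fun r => ?_
        have h := D6i_bd x hx ((b : ℝ) * (r.2 * (1 / 2 - r.1))) S hS
        refine le_trans (le_of_eq ?_) h
        rw [← lintegral_indicator_one ((by fun_prop :
          Measurable (fun q : ℝ × ℝ => (x : ℝ) * (q.2 * (1 - 2 * q.1))
            + (b : ℝ) * (r.2 * (1 / 2 - r.1)))) hS)]
        refine lintegral_congr fun p => ?_
        have e : D6c (2 * x) b ((p.1, r.1), (p.2, r.2)) = (x : ℝ) * (p.2 * (1 - 2 * p.1))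
            + (b : ℝ) * (r.2 * (1 / 2 - r.1)) := by
          unfold D6c
          push_cast
          ring
        rw [e]
        rfl
    _ = _ := by
        rw [lintegral_const, measure_univ, mul_one]

theorem closure6_snd (a y : ℤ) (hy : y ≠ 0) :
    HasLoad (pi6.map (D6c a (2 * y))) (fun _ => ENNReal.ofReal (5 / 2 / |(y : ℝ)|)) := by
  have := lam_prob (τ := 1 / 8) (by norm_num) (by norm_num)
  have := sgnM_prob
  unfold HasLoad
  refine Measure.le_iff.2 fun S hS => ?_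
  have hm := D6i_meas a (2 * y)
  have e0 := D6i_lint2 (fun q => S.indicator (1 : ℝ → ℝ≥0∞) (D6c a (2 * y) q))
    ((measurable_one.indicator hS).comp hm)
  rw [D6i_ind _ hm S hS, e0, withDensity_apply _ hS, setLIntegral_const]
  clear e0
  calc ∫⁻ r, ∫⁻ p, S.indicator (1 : ℝ → ℝ≥0∞) (D6c a (2 * y) ((r.1, p.1), (r.2, p.2))) ∂D6i_A ∂D6i_A
      ≤ ∫⁻ _r, ENNReal.ofReal (5 / 2 / |(y : ℝ)|) / 2 * volume S ∂D6i_A := by
        refine lintegral_mono fun r => ?_
        have h := D6i_bd y hy ((a : ℝ) * (r.2 * (1 / 2 - r.1))) S hS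
        refine le_trans (le_of_eq ?_) h
        rw [← lintegral_indicator_one ((by fun_prop :
          Measurable (fun q : ℝ × ℝ => (y : ℝ) * (q.2 * (1 - 2 * q.1))
            + (a : ℝ) * (r.2 * (1 / 2 - r.1)))) hS)]
        refine lintegral_congr fun p => ?_
        have e : D6c a (2 * y) ((r.1, p.1), (r.2, p.2)) = (y : ℝ) * (p.2 * (1 - 2 * p.1))
            + (a : ℝ) * (r.2 * (1 / 2 - r.1)) := by
          unfold D6c
          push_cast
          ring
        rw [e]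
        rfl
    _ = _ := by
        rw [lintegral_const, measure_univ, mul_one]

/-- a law with load `≤ 5/2` concentrated on `{3/4 ≤ |z|}` -/
theorem D6i_supp (ν : Measure ℝ) (h : HasLoad ν (fun _ => ENNReal.ofReal (5 / 2)))
    (h2 : ∀ᵐ z ∂ν, 3 / 4 ≤ |z|) :
    HasLoad ν (fun z => if 3 / 4 ≤ |z| then ENNReal.ofReal (5 / 2) else 0) := by
  unfold HasLoad at *
  refine Measure.le_iff.2 fun S hS => ?_
  have hT : MeasurableSet {z : ℝ | 3 / 4 ≤ |z|} := measurableSet_le measurable_const (by fun_prop)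
  have e1 : ν S = ν (S ∩ {z : ℝ | 3 / 4 ≤ |z|}) := by
    refine (measure_inter_conull ?_).symm
    exact h2
  rw [e1]
  refine (h _).trans (le_of_eq ?_)
  rw [withDensity_apply _ (hS.inter hT), withDensity_apply _ hS]
  rw [← lintegral_indicator hS, ← lintegral_indicator (hS.inter hT)]
  refine lintegral_congr fun z => ?_
  by_cases hz : z ∈ S
  · by_cases hz2 : 3 / 4 ≤ |z|
    · rw [Set.indicator_of_mem (show z ∈ S ∩ {z : ℝ | 3 / 4 ≤ |z|} from ⟨hz, hz2⟩),
        Set.indicator_of_mem hz]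
      simp only [hz2, if_true]
    · rw [Set.indicator_of_notMem (fun h => hz2 h.2), Set.indicator_of_mem hz]
      simp only [hz2, if_false, ENNReal.zero_div]
  · rw [Set.indicator_of_notMem (fun h => hz h.1), Set.indicator_of_notMem hz]

/-- support of the digit laws -/
theorem D6i_ae : (∀ᵐ q ∂pi6, |q.1.1| ≤ 1 / 8 ∧ |q.1.2| ≤ 1 / 8) ∧
    (∀ᵐ q ∂pi6, |q.2.1| = 1 ∧ |q.2.2| = 1) := by
  have := lam_prob (τ := 1 / 8) (by norm_num) (by norm_num)
  have := sgnM_prob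
  have habs : ∀ η : ℝ, η = 1 ∨ η = -1 → |η| = 1 := by
    rintro η (h | h) <;> rw [h] <;> norm_num
  have h1 : ∀ᵐ s ∂lam2, |s.1| ≤ 1 / 8 ∧ |s.2| ≤ 1 / 8 := by
    have a1 : ∀ᵐ s ∂lam2, |s.1| ≤ 1 / 8 :=
      Measure.quasiMeasurePreserving_fst.ae (lam_ae (1 / 8))
    have a2 : ∀ᵐ s ∂lam2, |s.2| ≤ 1 / 8 :=
      Measure.quasiMeasurePreserving_snd.ae (lam_ae (1 / 8))
    filter_upwards [a1, a2] with s b1 b2 using ⟨b1, b2⟩
  have h2 : ∀ᵐ η ∂(sgnM.prod sgnM), |η.1| = 1 ∧ |η.2| = 1 := by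
    have hs : ∀ᵐ η ∂sgnM, |η| = 1 := by
      filter_upwards [sgnM_ae] with η h using habs η h
    have a1 : ∀ᵐ η ∂(sgnM.prod sgnM), |η.1| = 1 :=
      Measure.quasiMeasurePreserving_fst.ae hs
    have a2 : ∀ᵐ η ∂(sgnM.prod sgnM), |η.2| = 1 :=
      Measure.quasiMeasurePreserving_snd.ae hs
    filter_upwards [a1, a2] with η b1 b2 using ⟨b1, b2⟩
  exact ⟨Measure.quasiMeasurePreserving_fst.ae h1, Measure.quasiMeasurePreserving_snd.ae h2⟩

theorem D6i_abs (x s η : ℝ) (hx : |x| = 1) (hη : |η| = 1) (hs : |s| ≤ 1 / 8) :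
    3 / 4 ≤ |2 * x * (η * (1 / 2 - s))| := by
  rw [abs_mul, abs_mul, abs_mul, hx, hη]
  have h1 := abs_le.1 hs
  rw [abs_of_nonneg (by linarith [h1.2] : (0 : ℝ) ≤ 1 / 2 - s)]
  norm_num
  linarith [h1.2]

theorem closure6_supp_fst (x : ℤ) (hx : |x| = 1) :
    HasLoad (pi6.map (D6c (2 * x) 0))
      (fun z => if 3 / 4 ≤ |z| then ENNReal.ofReal (5 / 2) else 0) := by
  have hx0 : x ≠ 0 := by
    rintro rfl
    simp at hx
  have hxr : |(x : ℝ)| = 1 := by exact_mod_cast hx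
  refine D6i_supp _ ?_ ?_
  · have h := closure6_fst x 0 hx0
    rw [hxr, div_one] at h
    exact h
  · have hT : MeasurableSet {z : ℝ | 3 / 4 ≤ |z|} :=
      measurableSet_le measurable_const (by fun_prop)
    rw [ae_map_iff (D6i_meas _ _).aemeasurable hT]
    filter_upwards [D6i_ae.1, D6i_ae.2] with q h1 h2
    have := D6i_abs x q.1.1 q.2.1 hxr h2.1 h1.1
    unfold D6c
    push_cast
    rw [zero_mul, add_zero]
    exact this

theorem closure6_supp_snd (y : ℤ) (hy : |y| = 1) :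
    HasLoad (pi6.map (D6c 0 (2 * y)))
      (fun z => if 3 / 4 ≤ |z| then ENNReal.ofReal (5 / 2) else 0) := by
  have hy0 : y ≠ 0 := by
    rintro rfl
    simp at hy
  have hyr : |(y : ℝ)| = 1 := by exact_mod_cast hy
  refine D6i_supp _ ?_ ?_
  · have h := closure6_snd 0 y hy0
    rw [hyr, div_one] at h
    exact h
  · have hT : MeasurableSet {z : ℝ | 3 / 4 ≤ |z|} :=
      measurableSet_le measurable_const (by fun_prop)
    rw [ae_map_iff (D6i_meas _ _).aemeasurable hT]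
    filter_upwards [D6i_ae.1, D6i_ae.2] with q h1 h2
    have := D6i_abs y q.1.2 q.2.2 hyr h2.2 h1.2
    unfold D6c
    push_cast
    rw [zero_mul, zero_add]
    exact this

end Pool.Agent.helper49.Slope
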