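import Pool.Agent.helper49.Slope.DefsD6

/-!
MP_aedd95_co (slope of k-fold hyperplane covers of triangular grids), module D6j.
The law `D_6`: combinatorics (no measures).

PROOFS. `typeA6_spec`: `r = 0`: `u₄ = u₅ =: t`. First alternative: `m = 2e`, `n = e`, `e = ±1`, `u₀ = u₁`
gives `u₀ = u₁ = t + e`; `u₂ + u₃ = 2t + e` and `|u₂ - u₃| = 1` give `{u₂,u₃} = {t, t+e}`; `T` is
`{0,1,2}` or `{0,1,3}`. The second alternative: `T = {2,3,0}` or `{2,3,1}`.
`closure6_spec`: `t = u₄`, `x = u₀ - t`, `y = u₂ - t`.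
`vec6_closure`: `w = vec6 x y ∘ σ` has `∑ w = 0` (`Equiv.sum_comp`), `w 4 = w 5 =: t`, `w 0 + w 1 = 2t`,
`w 2 + w 3 = 2t`, so `6t = 0`, `t = 0`; `x' = w 0`, `y' = w 2`; the value `x` is taken by `w`, at an index
`k`: `k = 4, 5` is impossible (`x ≠ 0`), so `|x'| = |x|` or `|y'| = |x|`.
`vec6_not_typeA`: a vector of type A takes only two values (`typeA6_spec`), `w` takes the three
different values `x, -x, 0`.
-/

set_option autoImplicit false

open MeasureTheory ProbabilityTheory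
open scoped ENNReal

namespace Pool.Agent.helper49.Slope

theorem parity6 (u : Fin 6 → ℤ) :
    Even (a6 u - m6 u - r6 u) ∧ Even (b6 u - n6 u - r6 u) := by
  constructor
  · refine ⟨u 5 - u 1, ?_⟩
    unfold a6 m6 r6
    ring
  · refine ⟨u 5 - u 3, ?_⟩
    unfold b6 n6 r6
    ring

theorem typeA6_spec (u : Fin 6 → ℤ) (h : TypeA6 (m6 u) (n6 u) (r6 u) (a6 u) (b6 u)) :
    ∃ (t e : ℤ) (T : Finset (Fin 6)), e ≠ 0 ∧ T.card = 3 ∧ ∀ i, u i = t + e * ind6 T i := by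
  obtain ⟨hr, h⟩ := h
  unfold r6 at hr
  rcases h with ⟨h1, h2, h3, h4⟩ | ⟨h1, h2, h3, h4⟩
  · have hn : n6 u ≠ 0 := by
      intro h0
      rw [h0, zero_mul] at h2
      rw [← h2] at h1
      norm_num at h1
    have h5 : b6 u = n6 u ∨ b6 u = - n6 u := by
      rcases abs_eq (by norm_num : (0 : ℤ) ≤ 2) |>.1 h1 with h | h <;>
        rcases abs_eq (by norm_num : (0 : ℤ) ≤ 1) |>.1 h4 with h' | h' <;> omega
    unfold m6 a6 b6 at *
    unfold n6 at *
    rcases h5 with h5 | h5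
    · refine ⟨u 4, u 2 + u 3 - u 4 - u 5, {0, 1, 2}, hn, by decide, fun i => ?_⟩
      fin_cases i <;> simp [ind6] <;> omega
    · refine ⟨u 4, u 2 + u 3 - u 4 - u 5, {0, 1, 3}, hn, by decide, fun i => ?_⟩
      fin_cases i <;> simp [ind6] <;> omega
  · have hn : m6 u ≠ 0 := by
      intro h0
      rw [h0, zero_mul] at h2
      rw [← h2] at h1
      norm_num at h1
    have h5 : a6 u = m6 u ∨ a6 u = - m6 u := by
      rcases abs_eq (by norm_num : (0 : ℤ) ≤ 2) |>.1 h1 with h | h <;>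
        rcases abs_eq (by norm_num : (0 : ℤ) ≤ 1) |>.1 h3 with h' | h' <;> omega
    unfold m6 a6 b6 at *
    unfold n6 at *
    rcases h5 with h5 | h5
    · refine ⟨u 4, u 0 + u 1 - u 4 - u 5, {2, 3, 0}, hn, by decide, fun i => ?_⟩
      fin_cases i <;> simp [ind6] <;> omega
    · refine ⟨u 4, u 0 + u 1 - u 4 - u 5, {2, 3, 1}, hn, by decide, fun i => ?_⟩
      fin_cases i <;> simp [ind6] <;> omega

theorem closure6_spec (u : Fin 6 → ℤ) (hm : m6 u = 0) (hn : n6 u = 0) (hr : r6 u = 0) :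
    ∃ t x y : ℤ, ∀ i, u i = t + vec6 x y i := by
  unfold m6 at hm
  unfold n6 at hn
  unfold r6 at hr
  refine ⟨u 4, u 0 - u 4, u 2 - u 4, fun i => ?_⟩
  fin_cases i <;> simp [vec6] <;> omega

/-- the five numbers of `vec6`-like vectors: `r = 0` etc. hold exactly for permutations of the form
`(x',-x',y',-y',0,0)`; `{x',-x',y',-y'}` is then `{x,-x,y,-y}` -/
theorem vec6_closure (x y : ℤ) (hx : x ≠ 0) (hxy : |y| ≤ |x|) (σ : Equiv.Perm (Fin 6))
    (hm : m6 (vec6 x y ∘ σ) = 0) (hn : n6 (vec6 x y ∘ σ) = 0) (hr : r6 (vec6 x y ∘ σ) = 0) :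
    ∃ x' y' : ℤ, a6 (vec6 x y ∘ σ) = 2 * x' ∧ b6 (vec6 x y ∘ σ) = 2 * y' ∧
      (|x'| = |x| ∨ |y'| = |x|) ∧ vec6 x y (σ 4) = 0 ∧ vec6 x y (σ 5) = 0 := by
  have _ := hxy
  have hs : ∑ i, (vec6 x y ∘ σ) i = 0 := by
    have h1 : ∑ i, vec6 x y (σ i) = ∑ i, vec6 x y i := Equiv.sum_comp σ (vec6 x y)
    have h2 : ∑ i, vec6 x y i = 0 := by
      simp [vec6, Fin.sum_univ_succ]
    exact h1.trans h2
  have hk : ∃ k, (vec6 x y ∘ σ) k = x := ⟨σ.symm 0, by simp [vec6]⟩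
  have e4 : vec6 x y (σ 4) = (vec6 x y ∘ σ) 4 := rfl
  have e5 : vec6 x y (σ 5) = (vec6 x y ∘ σ) 5 := rfl
  rw [e4, e5]
  generalize vec6 x y ∘ σ = w at *
  unfold m6 at hm
  unfold n6 at hn
  unfold r6 at hr
  unfold a6 b6
  rw [Fin.sum_univ_six] at hs
  refine ⟨w 0, w 2, by omega, by omega, ?_, by omega, by omega⟩
  obtain ⟨k, hk⟩ := hk
  have h0 : w 1 = - w 0 := by omega
  have h2 : w 3 = - w 2 := by omega
  have h4 : w 4 = 0 := by omega
  have h5 : w 5 = 0 := by omega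
  fin_cases k
  · left
    rw [← hk]
    rfl
  · left
    rw [← hk]
    show |w 0| = |w 1|
    rw [h0, abs_neg]
  · right
    rw [← hk]
    rfl
  · right
    rw [← hk]
    show |w 2| = |w 3|
    rw [h2, abs_neg]
  · exact absurd (hk.symm.trans h4) hx
  · exact absurd (hk.symm.trans h5) hx

theorem vec6_not_typeA (x y : ℤ) (hx : x ≠ 0) (σ : Equiv.Perm (Fin 6)) :
    ¬ TypeA6 (m6 (vec6 x y ∘ σ)) (n6 (vec6 x y ∘ σ)) (r6 (vec6 x y ∘ σ)) (a6 (vec6 x y ∘ σ))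
      (b6 (vec6 x y ∘ σ)) := by
  intro h
  obtain ⟨t, e, T, he, hT, hu⟩ := typeA6_spec _ h
  have hv : ∀ i, (vec6 x y ∘ σ) i = t ∨ (vec6 x y ∘ σ) i = t + e := by
    intro i
    rw [hu i]
    unfold ind6
    split_ifs
    · right
      ring
    · left
      ring
  have h0 := hv (σ.symm 0)
  have h1 := hv (σ.symm 1)
  have h4 := hv (σ.symm 4)
  simp only [Function.comp, Equiv.apply_symm_apply] at h0 h1 h4
  have e0 : vec6 x y 0 = x := rfl
  have e1 : vec6 x y 1 = -x := rfl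
  have e4 : vec6 x y 4 = 0 := rfl
  rw [e0] at h0
  rw [e1] at h1
  rw [e4] at h4
  omega

end Pool.Agent.helper49.Slope
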