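import Pool.Agent.helper49.Slope.DefsD6

/-!
MP_aedd95_co (slope of k-fold hyperplane covers of triangular grids), module D6l.
The law `D_6`: tables.

PROOFS. `set6_cases`: `decide` over the 64 subsets (or 20), e.g. with `m6 (ind6 S)` etc. as computable
integers (`ind6`, `m6` … are computable; `TypeA6` unfolds to a decidable proposition; `decide +kernel`
is allowed, native decision is not).
`dif6_cases`: `decide` over the 30 pairs.
`G6_sum`: the sum is `8·1.164 + 8·0.915 + 4·0.811 = 19.876`; count the subsets of each kind with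
`decide` (write `G6` as `g (decide (4 ∈ S ↔ 5 ∈ S)) (decide (0 ∈ S ↔ 1 ∈ S))` and use
`Finset.sum_comp`/`Finset.sum_ite`), or `simp` on the explicit list.
`H6_sum`: `|z| ≥ 3/4`: `4·(5/2) + 2·0.578 + 16·0.737 + 8·0.855 = 29.788`; `|z| < 3/4`:
`0 + 1.156 + 16 + 8`.
`K6_sum`: of the 30 ordered pairs `(i,j)`, `i ≠ j`, two have values `(0,0)`; four have
`|p - q| = 2|x|` or `2|y|`, `≥ 2`; if `|x| = 1` (then `|y| = 1`) eight have `|p - q| = 2`:
`2·(5/2) + 8·0.578 + 20 = 29.624`; if `|x| ≥ 2`: `≤ 2·(5/4) + 4·0.578 + 24 = 28.812`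
(the summands are `≤ 1` except at the two pairs). `fin_cases`/`Fin.sum_univ_six` and `split_ifs`
or `norm_num` on 30 terms; bound most terms by `1`.
-/

set_option autoImplicit false

open MeasureTheory ProbabilityTheory
open scoped ENNReal

namespace Pool.Agent.helper49.Slope

/-- the sets of size 3 -/
theorem set6_cases (S : Finset (Fin 6)) (hS : S.card = 3) :
    ((4 ∈ S ↔ 5 ∈ S) ∧ TypeA6 (m6 (ind6 S)) (n6 (ind6 S)) (r6 (ind6 S)) (a6 (ind6 S))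
      (b6 (ind6 S))) ∨
    (¬ (4 ∈ S ↔ 5 ∈ S) ∧ (0 ∈ S ↔ 1 ∈ S) ∧ |r6 (ind6 S)| = 1 ∧
      ((m6 (ind6 S) = 1 ∧ n6 (ind6 S) = -1) ∨ (m6 (ind6 S) = -1 ∧ n6 (ind6 S) = 1))) ∨
    (¬ (4 ∈ S ↔ 5 ∈ S) ∧ ¬ (0 ∈ S ↔ 1 ∈ S) ∧ |r6 (ind6 S)| = 1 ∧ m6 (ind6 S) = 0 ∧
      n6 (ind6 S) = 0 ∧ |a6 (ind6 S)| = 1 ∧ |b6 (ind6 S)| = 1) := by
  revert S
  unfold TypeA6
  decide +kernel

/-- the vectors `e_i - e_j` -/
theorem dif6_cases (i j : Fin 6) (hij : i ≠ j) :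
    (blk6 i = blk6 j ∧ blk6 i = 0 ∧ m6 (dif6 i j) = 0 ∧ n6 (dif6 i j) = 0 ∧ r6 (dif6 i j) = 0 ∧
      |a6 (dif6 i j)| = 2 ∧ b6 (dif6 i j) = 0) ∨
    (blk6 i = blk6 j ∧ blk6 i = 1 ∧ m6 (dif6 i j) = 0 ∧ n6 (dif6 i j) = 0 ∧ r6 (dif6 i j) = 0 ∧
      a6 (dif6 i j) = 0 ∧ |b6 (dif6 i j)| = 2) ∨
    (blk6 i = blk6 j ∧ blk6 i = 2 ∧ |r6 (dif6 i j)| = 2) ∨
    (blk6 i ≠ blk6 j ∧ (blk6 i = 2 ∨ blk6 j = 2) ∧ |r6 (dif6 i j)| = 1 ∧
      (((|m6 (dif6 i j)| = 2 ∧ n6 (dif6 i j) * 2 = m6 (dif6 i j) ∧ |a6 (dif6 i j)| = 1 ∧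
        b6 (dif6 i j) = 0)) ∨
      ((|n6 (dif6 i j)| = 2 ∧ m6 (dif6 i j) * 2 = n6 (dif6 i j) ∧ a6 (dif6 i j) = 0 ∧
        |b6 (dif6 i j)| = 1)))) ∨
    (blk6 i ≠ blk6 j ∧ blk6 i ≠ 2 ∧ blk6 j ≠ 2 ∧ r6 (dif6 i j) = 0 ∧
      ((m6 (dif6 i j) = 1 ∧ n6 (dif6 i j) = -1) ∨ (m6 (dif6 i j) = -1 ∧ n6 (dif6 i j) = 1)) ∧
      |a6 (dif6 i j)| = 1 ∧ |b6 (dif6 i j)| = 1) := by
  revert i j
  decide +kernel

theorem G6_nonneg (S : Finset (Fin 6)) : 0 ≤ G6 S := by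
  unfold G6
  split_ifs <;> norm_num
theorem H6_nonneg (i j : Fin 6) (z : ℝ) : 0 ≤ H6 i j z := by
  unfold H6
  split_ifs <;> norm_num
theorem K6_nonneg (x p q : ℤ) : 0 ≤ K6 x p q := by
  unfold K6
  split_ifs <;> norm_num

/-- `1000 G6` -/
def D6l_g (S : Finset (Fin 6)) : ℤ :=
  if (4 ∈ S ↔ 5 ∈ S) then 1164 else if (0 ∈ S ↔ 1 ∈ S) then 811 else 915

theorem D6l_g_eq (S : Finset (Fin 6)) : G6 S = ((D6l_g S : ℤ) : ℝ) / 1000 := by
  unfold G6 D6l_g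
  split_ifs <;> norm_num

theorem D6l_g_sum : ∑ S ∈ Finset.powersetCard 3 (Finset.univ : Finset (Fin 6)), D6l_g S = 19876 := by
  decide +kernel

/-- `1000 H6` -/
def D6l_h (b : Bool) (i j : Fin 6) : ℤ :=
  if blk6 i = blk6 j then
    (if blk6 i = 2 then 578 else if b then 2500 else 0)
  else if blk6 i = 2 ∨ blk6 j = 2 then (if b then 737 else 1000)
  else (if b then 855 else 1000)

theorem D6l_h_eq (i j : Fin 6) (z : ℝ) (b : Bool) (hb : b = true ↔ 3 / 4 ≤ |z|) :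
    H6 i j z = ((D6l_h b i j : ℤ) : ℝ) / 1000 := by
  unfold H6 D6l_h
  by_cases h : 3 / 4 ≤ |z|
  · rw [hb.2 h]
    simp only [h, if_true]
    split_ifs <;> norm_num
  · have h2 : b = false := by
      rw [← Bool.not_eq_true, hb]
      exact h
    rw [h2]
    simp only [h, if_false]
    split_ifs <;> simp_all

theorem D6l_h_sum (b : Bool) : ∑ i : Fin 6, ∑ j : Fin 6, (if i = j then 0 else D6l_h b i j) ≤ 30000 := by
  revert b
  decide +kernel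

/-- `1000 K6` -/
def D6l_k (x p q : ℤ) : ℤ :=
  if p = 0 ∧ q = 0 then (if |x| = 1 then 2500 else 1250)
  else if 2 ≤ |p - q| then 578 else 1000

theorem D6l_k_eq (x p q : ℤ) : K6 x p q = ((D6l_k x p q : ℤ) : ℝ) / 1000 := by
  unfold K6 D6l_k
  split_ifs <;> norm_num

/-- the table for `2 ≤ |x|` -/
def D6l_t (i j : Fin 6) : ℤ :=
  if blk6 i = blk6 j then (if blk6 i = 2 then 1250 else 578) else 1000

theorem D6l_t_sum : ∑ i : Fin 6, ∑ j : Fin 6, (if i = j then 0 else D6l_t i j) ≤ 30000 := by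
  decide +kernel

theorem D6l_k_a (x p q : ℤ) (h : ¬ (p = 0 ∧ q = 0)) : D6l_k x p q ≤ 1000 := by
  unfold D6l_k
  rw [if_neg h]
  split_ifs <;> norm_num

theorem D6l_k_b (x p q : ℤ) (h : ¬ (p = 0 ∧ q = 0)) (h2 : 2 ≤ |p - q|) : D6l_k x p q ≤ 578 := by
  unfold D6l_k
  rw [if_neg h, if_pos h2]

theorem D6l_k_c (x : ℤ) (h : |x| ≠ 1) : D6l_k x 0 0 ≤ 1250 := by
  unfold D6l_k
  simp [h]

theorem D6l_k_le (x y : ℤ) (hx : x ≠ 0) (hy : y ≠ 0) (hx1 : |x| ≠ 1) (i j : Fin 6) (hij : i ≠ j) :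
    D6l_k x (vec6 x y i) (vec6 x y j) ≤ D6l_t i j := by
  have h2x : 2 ≤ |x - -x| := by
    have : |x - -x| = 2 * |x| := by
      rw [show x - -x = 2 * x by ring, abs_mul]
      norm_num
    have := Int.one_le_abs hx
    omega
  have h2x' : 2 ≤ |-x - x| := by
    rw [abs_sub_comm]
    exact h2x
  have h2y : 2 ≤ |y - -y| := by
    have : |y - -y| = 2 * |y| := by
      rw [show y - -y = 2 * y by ring, abs_mul]
      norm_num
    have := Int.one_le_abs hy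
    omega
  have h2y' : 2 ≤ |-y - y| := by
    rw [abs_sub_comm]
    exact h2y
  have hx' : -x ≠ 0 := neg_ne_zero.2 hx
  have hy' : -y ≠ 0 := neg_ne_zero.2 hy
  fin_cases i <;> fin_cases j <;>
    first
      | exact absurd rfl hij
      | exact D6l_k_b x x (-x) (fun h => hx h.1) h2x
      | exact D6l_k_b x (-x) x (fun h => hx h.2) h2x'
      | exact D6l_k_b x y (-y) (fun h => hy h.1) h2y
      | exact D6l_k_b x (-y) y (fun h => hy h.2) h2y'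
      | exact D6l_k_c x hx1
      | exact D6l_k_a x _ _ (fun h => hx h.1)
      | exact D6l_k_a x _ _ (fun h => hx h.2)
      | exact D6l_k_a x _ _ (fun h => hy h.1)
      | exact D6l_k_a x _ _ (fun h => hy h.2)
      | exact D6l_k_a x _ _ (fun h => hx' h.1)
      | exact D6l_k_a x _ _ (fun h => hx' h.2)
      | exact D6l_k_a x _ _ (fun h => hy' h.1)
      | exact D6l_k_a x _ _ (fun h => hy' h.2)

theorem D6l_k_one (x y : ℤ) (hx : x = 1 ∨ x = -1) (hy : y = 1 ∨ y = -1) :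
    ∑ i : Fin 6, ∑ j : Fin 6, (if i = j then 0 else D6l_k x (vec6 x y i) (vec6 x y j)) ≤ 30000 := by
  rcases hx with rfl | rfl <;> rcases hy with rfl | rfl <;> decide +kernel

/-- from integers to reals -/
theorem D6l_cast (g : Fin 6 → Fin 6 → ℤ) (G : Fin 6 → Fin 6 → ℝ)
    (hg : ∀ i j, i ≠ j → G i j = ((g i j : ℤ) : ℝ) / 1000)
    (h : ∑ i : Fin 6, ∑ j : Fin 6, (if i = j then 0 else g i j) ≤ 30000) :
    ∑ i : Fin 6, ∑ j : Fin 6, (if i = j then 0 else G i j) ≤ 30 := by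
  have h1 : ∑ i : Fin 6, ∑ j : Fin 6, (if i = j then 0 else G i j) =
      ((∑ i : Fin 6, ∑ j : Fin 6, (if i = j then 0 else g i j) : ℤ) : ℝ) / 1000 := by
    push_cast
    rw [Finset.sum_div]
    refine Finset.sum_congr rfl fun i _ => ?_
    rw [Finset.sum_div]
    refine Finset.sum_congr rfl fun j _ => ?_
    split_ifs with hij
    · simp
    · exact hg i j hij
  rw [h1, div_le_iff₀ (by norm_num)]
  have h2 : ((∑ i : Fin 6, ∑ j : Fin 6, (if i = j then 0 else g i j) : ℤ) : ℝ) ≤ ((30000 : ℤ) : ℝ) :=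
    Int.cast_le.2 h
  refine h2.trans ?_
  norm_num

theorem G6_sum : ∑ S ∈ Finset.powersetCard 3 (Finset.univ : Finset (Fin 6)), G6 S ≤ 20 := by
  have h1 : ∑ S ∈ Finset.powersetCard 3 (Finset.univ : Finset (Fin 6)), G6 S =
      ((∑ S ∈ Finset.powersetCard 3 (Finset.univ : Finset (Fin 6)), D6l_g S : ℤ) : ℝ) / 1000 := by
    push_cast
    rw [Finset.sum_div]
    exact Finset.sum_congr rfl fun S _ => D6l_g_eq S
  rw [h1, D6l_g_sum]
  norm_num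

theorem H6_sum (z : ℝ) : ∑ i : Fin 6, ∑ j : Fin 6, (if i = j then 0 else H6 i j z) ≤ 30 := by
  classical
  exact D6l_cast (D6l_h (decide (3 / 4 ≤ |z|))) (fun i j => H6 i j z)
    (fun i j _ => D6l_h_eq i j z _ (by simp)) (D6l_h_sum _)

theorem K6_sum (x y : ℤ) (hx : x ≠ 0) (hy : y ≠ 0) (hxy : |y| ≤ |x|) :
    ∑ i : Fin 6, ∑ j : Fin 6, (if i = j then 0 else K6 x (vec6 x y i) (vec6 x y j)) ≤ 30 := by
  refine D6l_cast (fun i j => D6l_k x (vec6 x y i) (vec6 x y j))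
    (fun i j => K6 x (vec6 x y i) (vec6 x y j)) (fun i j _ => D6l_k_eq _ _ _) ?_
  by_cases h1 : |x| = 1
  · have hx' : x = 1 ∨ x = -1 := eq_or_eq_neg_of_abs_eq h1
    have hy1 : |y| = 1 := le_antisymm (hxy.trans h1.le) (Int.one_le_abs hy)
    exact D6l_k_one x y hx' (eq_or_eq_neg_of_abs_eq hy1)
  · refine le_trans ?_ D6l_t_sum
    refine Finset.sum_le_sum fun i _ => Finset.sum_le_sum fun j _ => ?_
    split_ifs with hij
    · exact le_rfl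
    · exact D6l_k_le x y hx hy h1 i j hij

end Pool.Agent.helper49.Slope
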