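import Pool.Agent.helper49.Slope.D6a
import Pool.Agent.helper49.Slope.D6c
import Pool.Agent.helper49.Slope.D6h
import Pool.Agent.helper49.Slope.D6i
import Pool.Agent.helper49.Slope.D6j
import Pool.Agent.helper49.Slope.D6l
import Pool.Agent.helper49.Slope.B4

/-!
MP_aedd95_co (slope of k-fold hyperplane covers of triangular grids), module D6k.
The law `D_6` before symmetrisation: existence, loads of the special vectors.

PROOFS. `exists_Mu6`: `exists_poly` with `π = pi6`, `v6`, `d6` (`D6a`; `pi6_ae`, `vsq_v6`, `lin_d6`,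
`W6_pos`; the third clause of `exists_poly` for `vsq = 0`).
`Mu6.load_one`: `lemma6_one`, `parity6`.
`Mu6.load_ind`: `set6_cases`. Type A: `L6 ≤ E6` (`L6_le`), `(m,n) = ±(2,1)` or `±(1,2)`, `r = 0`:
`E6_21` after `L6_neg`, `L6_swap`. Second case: `L6_le`, `E6_1m1_1`. Third case: `L6_00`.
`Mu6.load_dif`: `dif6_cases`. Pair: the closure clause with `closure6_supp_fst` or `_snd`. Units: `L6_r2`.
Mixed: `(m,n) = ±(2,1)` or `±(1,2)`, `|r| = 1`: for `|z| ≥ 3/4` `L6_21_far` (after `L6_neg`, `L6_swap`,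
`L6_abs`), for `|z| < 3/4` `lemma6_one`. Two pairs: `L6_1m1_far`, `L6_1m1`.
`Mu6.load_vec`: if `m = n = r = 0`: `vec6_closure` and `closure6_fst` or `closure6_snd`:
`5/2/|x| ≤ K6` (`|x| = 1` or `|x| ≥ 2`, `p = q = 0`). Otherwise `lemma6_one` (`vec6_not_typeA`) gives
`≤ 1 ≤ K6` unless `2 ≤ |p - q|`, where `p - q = r` and `L6_r2` applies.
-/

set_option autoImplicit false

open MeasureTheory ProbabilityTheory
open scoped ENNReal

namespace Pool.Agent.helper49.Slope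

theorem exists_Mu6 : ∃ μ : Measure (Fin 6 → ℝ), Mu6 μ := by
  have := pi6_prob
  obtain ⟨μ, hμ, hs, h1, h2⟩ := exists_poly pi6 v6 v6_measurable d6 d6_measurable
  refine ⟨μ, hμ, ?_, ?_, ?_⟩
  · apply hs 0
    filter_upwards [pi6_ae] with q hq
    exact ⟨v6_sum q, d6_sum q, v6_norm q hq.1.1 hq.1.2 hq.2.1 hq.2.2⟩
  · intro u hu
    have h3 := h1 u (by
      filter_upwards [pi6_ae] with q hq
      rw [vsq_v6 q hq.1.1 hq.1.2]
      exact W6_pos _ _ _ hu _ hq.1.1 hq.1.2)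
    refine h3.mono fun z => ?_
    refine lintegral_mono_ae ?_
    filter_upwards [pi6_ae] with q hq
    rw [vsq_v6 q hq.1.1 hq.1.2, lin_d6]
  · intro u hm hn hr
    have h3 := h2 u (by
      filter_upwards [pi6_ae] with q hq
      rw [vsq_v6 q hq.1.1 hq.1.2, hm, hn, hr, W6]
      simp)
    rw [h3]
    congr 1
    funext q
    exact lin_d6 q u

theorem Mu6.load_one {μ : Measure (Fin 6 → ℝ)} (h : Mu6 μ) (u : Fin 6 → ℤ)
    (h0 : ¬ (m6 u = 0 ∧ n6 u = 0 ∧ r6 u = 0))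
    (hA : ¬ TypeA6 (m6 u) (n6 u) (r6 u) (a6 u) (b6 u)) :
    HasLoad (μ.map (lin u)) (fun _ => 1) :=
  (h.2.2.1 u h0).mono fun z => lemma6_one _ _ _ _ _ (parity6 u).1 (parity6 u).2 h0 hA z

theorem D6k_typeA (m n a b : ℤ) (h : (|m| = 2 ∧ n * 2 = m) ∨ (|n| = 2 ∧ m * 2 = n)) (z : ℝ) :
    L6 m n 0 a b z ≤ ENNReal.ofReal (1164 / 1000) := by
  rcases h with ⟨h1, h2⟩ | ⟨h1, h2⟩
  · rcases abs_eq (by norm_num : (0 : ℤ) ≤ 2) |>.1 h1 with h3 | h3
    · obtain rfl : n = 1 := by omega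
      subst h3
      exact (L6_le _ _ _ _ _ _).trans E6_21
    · obtain rfl : n = -1 := by omega
      subst h3
      rw [L6_neg]
      exact (L6_le _ _ _ _ _ _).trans E6_21
  · rcases abs_eq (by norm_num : (0 : ℤ) ≤ 2) |>.1 h1 with h3 | h3
    · obtain rfl : m = 1 := by omega
      subst h3
      rw [L6_swap]
      exact (L6_le _ _ _ _ _ _).trans E6_21
    · obtain rfl : m = -1 := by omega
      subst h3
      rw [L6_neg, L6_swap]
      exact (L6_le _ _ _ _ _ _).trans E6_21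

theorem D6k_odd {a : ℤ} (h : |a| = 1) : Odd a := by
  rcases abs_eq (by norm_num : (0 : ℤ) ≤ 1) |>.1 h with h | h
  · rw [h]; decide
  · rw [h]; decide

theorem Mu6.load_ind {μ : Measure (Fin 6 → ℝ)} (h : Mu6 μ) (S : Finset (Fin 6))
    (hS : S.card = 3) : HasLoad (μ.map (lin (ind6 S))) (fun _ => ENNReal.ofReal (G6 S)) := by
  rcases set6_cases S hS with ⟨h1, h2⟩ | ⟨h1, h2, h3, h4⟩ | ⟨h1, h2, h3, h4, h5, h6, h7⟩
  · have hG : G6 S = 1164 / 1000 := by rw [G6, if_pos h1]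
    have h0 : ¬ (m6 (ind6 S) = 0 ∧ n6 (ind6 S) = 0 ∧ r6 (ind6 S) = 0) := by
      rintro ⟨hm, hn, hr⟩
      rcases h2 with ⟨-, ⟨h3, -⟩ | ⟨h3, -⟩⟩
      · rw [hm] at h3; norm_num at h3
      · rw [hn] at h3; norm_num at h3
    refine (h.2.2.1 _ h0).mono fun z => ?_
    rw [hG, h2.1]
    refine D6k_typeA _ _ _ _ ?_ z
    rcases h2.2 with h3 | h3
    · exact Or.inl ⟨h3.1, h3.2.1⟩
    · exact Or.inr ⟨h3.1, h3.2.1⟩
  · have hG : G6 S = 811 / 1000 := by rw [G6, if_neg h1, if_pos h2]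
    have h0 : ¬ (m6 (ind6 S) = 0 ∧ n6 (ind6 S) = 0 ∧ r6 (ind6 S) = 0) := by
      rintro ⟨hm, hn, hr⟩
      rw [hr] at h3
      norm_num at h3
    refine (h.2.2.1 _ h0).mono fun z => ?_
    rw [hG]
    rcases h4 with ⟨h4, h5⟩ | ⟨h4, h5⟩
    · rw [h4, h5]
      exact (L6_le _ _ _ _ _ _).trans (E6_1m1_1 _ h3)
    · rw [h4, h5, L6_neg]
      exact (L6_le _ _ _ _ _ _).trans (E6_1m1_1 _ h3)
  · have hG : G6 S = 915 / 1000 := by rw [G6, if_neg h1, if_neg h2]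
    have h0 : ¬ (m6 (ind6 S) = 0 ∧ n6 (ind6 S) = 0 ∧ r6 (ind6 S) = 0) := by
      rintro ⟨hm, hn, hr⟩
      rw [hr] at h3
      norm_num at h3
    refine (h.2.2.1 _ h0).mono fun z => ?_
    rw [hG, h4, h5]
    exact L6_00 _ _ _ h3 (D6k_odd h6) (D6k_odd h7) z

theorem D6k_21 (m n r a b : ℤ) (hr : |r| = 1)
    (h : (|m| = 2 ∧ n * 2 = m ∧ |a| = 1 ∧ b = 0) ∨ (|n| = 2 ∧ m * 2 = n ∧ a = 0 ∧ |b| = 1))
    (z : ℝ) (hz : 3 / 4 ≤ |z|) : L6 m n r a b z ≤ ENNReal.ofReal (737 / 1000) := by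
  rcases h with ⟨h1, h2, h3, rfl⟩ | ⟨h1, h2, rfl, h3⟩
  · rcases abs_eq (by norm_num : (0 : ℤ) ≤ 2) |>.1 h1 with h4 | h4
    · obtain rfl : n = 1 := by omega
      subst h4
      exact L6_21_far r a hr h3 z hz
    · obtain rfl : n = -1 := by omega
      subst h4
      rw [L6_neg]
      exact L6_21_far r a hr h3 z hz
  · rcases abs_eq (by norm_num : (0 : ℤ) ≤ 2) |>.1 h1 with h4 | h4
    · obtain rfl : m = 1 := by omega
      subst h4
      rw [L6_swap]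
      exact L6_21_far r b hr h3 z hz
    · obtain rfl : m = -1 := by omega
      subst h4
      rw [L6_neg, L6_swap]
      exact L6_21_far r b hr h3 z hz

theorem D6k_two {a : ℤ} (h : |a| = 2) : ∃ x : ℤ, a = 2 * x ∧ |x| = 1 := by
  rcases abs_eq (by norm_num : (0 : ℤ) ≤ 2) |>.1 h with h | h
  · exact ⟨1, by rw [h]; rfl, rfl⟩
  · exact ⟨-1, by rw [h]; rfl, rfl⟩

theorem Mu6.load_dif {μ : Measure (Fin 6 → ℝ)} (h : Mu6 μ) (i j : Fin 6) (hij : i ≠ j) :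
    HasLoad (μ.map (lin (dif6 i j))) (fun z => ENNReal.ofReal (H6 i j z)) := by
  have hpar := parity6 (dif6 i j)
  rcases dif6_cases i j hij with ⟨h1, h2, hm, hn, hr, ha, hb⟩ | ⟨h1, h2, hm, hn, hr, ha, hb⟩ |
    ⟨h1, h2, hr⟩ | ⟨h1, h2, hr, h3⟩ | ⟨h1, h2, h3, hr, h4, ha, hb⟩
  · rw [h.2.2.2 _ hm hn hr, hb]
    obtain ⟨x, hx, hx1⟩ := D6k_two ha
    rw [hx]
    refine (closure6_supp_fst x hx1).mono fun z => ?_
    have h5 : blk6 i ≠ 2 := by rw [h2]; decide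
    rw [H6, if_pos h1, if_neg h5]
    split_ifs
    · exact le_rfl
    · exact zero_le
  · rw [h.2.2.2 _ hm hn hr, ha]
    obtain ⟨x, hx, hx1⟩ := D6k_two hb
    rw [hx]
    refine (closure6_supp_snd x hx1).mono fun z => ?_
    have h5 : blk6 i ≠ 2 := by rw [h2]; decide
    rw [H6, if_pos h1, if_neg h5]
    split_ifs
    · exact le_rfl
    · exact zero_le
  · have h0 : ¬ (m6 (dif6 i j) = 0 ∧ n6 (dif6 i j) = 0 ∧ r6 (dif6 i j) = 0) := by
      rintro ⟨hm, hn, hr'⟩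
      rw [hr'] at hr
      norm_num at hr
    refine (h.2.2.1 _ h0).mono fun z => ?_
    rw [H6, if_pos h1, if_pos h2]
    exact L6_r2 _ _ _ _ _ hr.ge z
  · have h0 : ¬ (m6 (dif6 i j) = 0 ∧ n6 (dif6 i j) = 0 ∧ r6 (dif6 i j) = 0) := by
      rintro ⟨hm, hn, hr'⟩
      rw [hr'] at hr
      norm_num at hr
    refine (h.2.2.1 _ h0).mono fun z => ?_
    rw [H6, if_neg h1, if_pos h2]
    by_cases hz : 3 / 4 ≤ |z|
    · rw [if_pos hz]
      exact D6k_21 _ _ _ _ _ hr h3 z hz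
    · rw [if_neg hz, ENNReal.ofReal_one]
      refine lemma6_one _ _ _ _ _ hpar.1 hpar.2 h0 ?_ z
      rintro ⟨hr', -⟩
      rw [hr'] at hr
      norm_num at hr
  · have h0 : ¬ (m6 (dif6 i j) = 0 ∧ n6 (dif6 i j) = 0 ∧ r6 (dif6 i j) = 0) := by
      rintro ⟨hm, hn, hr'⟩
      rcases h4 with ⟨h4, -⟩ | ⟨h4, -⟩ <;> rw [hm] at h4 <;> norm_num at h4
    refine (h.2.2.1 _ h0).mono fun z => ?_
    have h5 : ¬ (blk6 i = 2 ∨ blk6 j = 2) := by
      rintro (h5 | h5)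
      · exact h2 h5
      · exact h3 h5
    rw [H6, if_neg h1, if_neg h5, hr]
    have key : ∀ z : ℝ, L6 (m6 (dif6 i j)) (n6 (dif6 i j)) 0 (a6 (dif6 i j)) (b6 (dif6 i j)) z =
        L6 1 (-1) 0 (a6 (dif6 i j)) (b6 (dif6 i j)) z := by
      intro z
      rcases h4 with ⟨h4, h6⟩ | ⟨h4, h6⟩
      · rw [h4, h6]
      · rw [h4, h6, L6_neg]
        rfl
    rw [key]
    by_cases hz : 3 / 4 ≤ |z|
    · rw [if_pos hz]
      exact L6_1m1_far _ _ (D6k_odd ha) (D6k_odd hb) z hz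
    · rw [if_neg hz, ENNReal.ofReal_one]
      exact L6_1m1 _ _ (D6k_odd ha) (D6k_odd hb) z

theorem D6k_K (x x' p q : ℤ) (hx : x ≠ 0) (h : |x'| = |x|) (hp : p = 0) (hq : q = 0) :
    5 / 2 / |(x' : ℝ)| ≤ K6 x p q := by
  have h1 : |(x' : ℝ)| = |(x : ℝ)| := by exact_mod_cast h
  rw [h1, K6, if_pos ⟨hp, hq⟩]
  have h2 : (1 : ℤ) ≤ |x| := Int.one_le_abs hx
  by_cases h3 : |x| = 1
  · rw [if_pos h3]
    have h4 : |(x : ℝ)| = 1 := by exact_mod_cast h3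
    rw [h4]
    norm_num
  · rw [if_neg h3]
    have h4 : (2 : ℤ) ≤ |x| := by omega
    have h5 : (2 : ℝ) ≤ |(x : ℝ)| := by exact_mod_cast h4
    rw [div_le_iff₀ (by linarith)]
    linarith

theorem Mu6.load_vec {μ : Measure (Fin 6 → ℝ)} (h : Mu6 μ) (x y : ℤ) (hx : x ≠ 0)
    (hxy : |y| ≤ |x|) (σ : Equiv.Perm (Fin 6)) :
    HasLoad (μ.map (lin (vec6 x y ∘ σ)))
      (fun _ => ENNReal.ofReal (K6 x (vec6 x y (σ 4)) (vec6 x y (σ 5)))) := by
  by_cases h0 : m6 (vec6 x y ∘ σ) = 0 ∧ n6 (vec6 x y ∘ σ) = 0 ∧ r6 (vec6 x y ∘ σ) = 0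
  · obtain ⟨hm, hn, hr⟩ := h0
    obtain ⟨x', y', ha, hb, hc, h4, h5⟩ := vec6_closure x y hx hxy σ hm hn hr
    rw [h.2.2.2 _ hm hn hr, ha, hb]
    rcases hc with hc | hc
    · have hx' : x' ≠ 0 := by
        rintro rfl
        rw [abs_zero] at hc
        exact hx (abs_eq_zero.1 hc.symm)
      refine (closure6_fst x' (2 * y') hx').mono fun z => ENNReal.ofReal_le_ofReal ?_
      exact D6k_K x x' _ _ hx hc h4 h5
    · have hy' : y' ≠ 0 := by
        rintro rfl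
        rw [abs_zero] at hc
        exact hx (abs_eq_zero.1 hc.symm)
      refine (closure6_snd (2 * x') y' hy').mono fun z => ENNReal.ofReal_le_ofReal ?_
      exact D6k_K x y' _ _ hx hc h4 h5
  · refine (h.2.2.1 _ h0).mono fun z => ?_
    have hr : r6 (vec6 x y ∘ σ) = vec6 x y (σ 4) - vec6 x y (σ 5) := rfl
    by_cases h2 : 2 ≤ |r6 (vec6 x y ∘ σ)|
    · refine (L6_r2 _ _ _ _ _ h2 z).trans (ENNReal.ofReal_le_ofReal ?_)
      rw [hr] at h2
      have h3 : ¬ (vec6 x y (σ 4) = 0 ∧ vec6 x y (σ 5) = 0) := by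
        rintro ⟨h3, h4⟩
        rw [h3, h4] at h2
        norm_num at h2
      rw [K6, if_neg h3, if_pos h2]
    · refine (lemma6_one _ _ _ _ _ (parity6 _).1 (parity6 _).2 h0 (vec6_not_typeA x y hx σ)
        z).trans ?_
      rw [← ENNReal.ofReal_one]
      refine ENNReal.ofReal_le_ofReal ?_
      rw [hr] at h2
      rw [K6]
      split_ifs
      · norm_num
      · norm_num
      · exact le_rfl

end Pool.Agent.helper49.Slope
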