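import Pool.Agent.helper49.Slope.D7z
import Pool.Agent.helper49.Slope.B4
import Pool.Agent.helper49.Slope.B6

/-!
MP_aedd95_co (slope of k-fold hyperplane covers of triangular grids), module D7a.
The law `D_7`: positivity of the quadratic form and existence of the law before symmetrisation.

PROOFS. Write `q_i = (1/2+s_i)²`, `q_i ∈ [9/64, 25/64]` on `R7`.
Gram matrix of three vectors `S1, S2, S3`: `a,b,c = q1,q2,q3`, `d = S1·S2 = (q3-q1-q2)/2`,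
`e = S1·S3 = (q2-q1-q3+1/8)/2`, `f = S2·S3 = (q1-q2-q3+1/8)/2`. Then (ring)
`W7 x y z s = q1 x² + q2 y² + q3 z² + 2 d x y + 2 e x z + 2 f y z`.
`a > 0`. `4 (a b - d²) = 4 q1 q2 - (q1+q2-q3)²` is concave in each of the three variables and
positive at the eight corners of `[9/64,25/64]³` (times 64²: 243, 275, 275, 275, 819, 819, 819, 1875).
`det = a b c + 2 d e f - a f² - b e² - c d²` `= -(q1²+q2²+q3²)/16 + (q1q2+q1q3+q2q3)/8 - (q1+q2)/128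
+ q3/256` (check by ring) is concave in each variable and positive at the corners. Lemma for both:
if `f(q) = α + β q - γ q²` with `γ ≥ 0` and `f(9/64) > 0`, `f(25/64) > 0` then `f > 0` on
`[9/64,25/64]` (`f(q)·(16/64) ≥ (25/64-q) f(9/64) + (q-9/64) f(25/64)`).
`W7_pos`: `a (a b - d²) W = (a b - d²) (a x + d y + e z)² + ((a b - d²) y + (a f - d e) z)² + a det z²`
(ring); if `z ≠ 0` the last term is positive, if `z = 0, y ≠ 0` the second, if `y = z = 0` the first.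
`exists_Mu7`: `exists_gram` with `Q = (ℝ × ℝ × ℝ) × (ℝ × ℝ × ℝ)` and the six functions above gives
measurable `v q : Fin 3 → Fin 3 → ℝ`. Vectors of the seven elements: `v 0, v 0, v 1, v 1, v 2, v 2,
-2 (v 0 + v 1 + v 2)`, numbers `d`: `η₁ h₁, -η₁ h₁, η₂ h₂, -η₂ h₂, η₃ h₃, -η₃ h₃, 0` with
`h_i = 1/2 - s_i`, `η = q.2`. Sum zero. Norms: `|v i| = 1/2+s_i` and `|d| = 1/2 - s_i`;
`|2(S1+S2+S3)|² = 4 (q1+q2+q3+2d+2e+2f) = 4 · (1/4) = 1` (ring). `vsq = W7 (x7 u) (y7 u) (z7 u)`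
(the combination is `x S1 + y S2 + z S3`), `∑ u_i d_i = D7c (a7 u) (b7 u) (c7 u) q`. Then `exists_poly`
with `π = pi7` (`pi7_prob`, `pi7_ae`) exactly as `exists_Mu6` in D6k.
-/

set_option autoImplicit false

open MeasureTheory ProbabilityTheory
open scoped ENNReal

namespace Pool.Agent.helper49.Slope

theorem D7a_q {t : ℝ} (h : |t| ≤ 1 / 8) : 9 / 64 ≤ (1 / 2 + t) ^ 2 ∧ (1 / 2 + t) ^ 2 ≤ 25 / 64 := by
  obtain ⟨h1, h2⟩ := abs_le.1 h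
  constructor
  · nlinarith
  · nlinarith

/-- a concave quadratic polynomial is positive on `[9/64,25/64]` if it is so at the end points -/
theorem D7a_conc (α β γ : ℝ) (hγ : 0 ≤ γ) (h1 : 0 < α + β * (9 / 64) - γ * (9 / 64) ^ 2)
    (h2 : 0 < α + β * (25 / 64) - γ * (25 / 64) ^ 2) (q : ℝ) (hq : 9 / 64 ≤ q ∧ q ≤ 25 / 64) :
    0 < α + β * q - γ * q ^ 2 := by
  obtain ⟨hq1, hq2⟩ := hq
  have e1 : 0 ≤ q - 9 / 64 := by linarith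
  have e2 : 0 ≤ 25 / 64 - q := by linarith
  have e3 : 0 ≤ γ * ((q - 9 / 64) * (25 / 64 - q)) := mul_nonneg hγ (mul_nonneg e1 e2)
  have e4 : 0 ≤ (25 / 64 - q) * (α + β * (9 / 64) - γ * (9 / 64) ^ 2) := mul_nonneg e2 h1.le
  have e5 : 0 ≤ (q - 9 / 64) * (α + β * (25 / 64) - γ * (25 / 64) ^ 2) := mul_nonneg e1 h2.le
  have e6 : 0 < (25 / 64 - q) * (α + β * (9 / 64) - γ * (9 / 64) ^ 2) +
      (q - 9 / 64) * (α + β * (25 / 64) - γ * (25 / 64) ^ 2) := by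
    rcases le_total q (17 / 64) with h | h
    · have : 0 < (25 / 64 - q) * (α + β * (9 / 64) - γ * (9 / 64) ^ 2) :=
        mul_pos (by linarith) h1
      linarith
    · have : 0 < (q - 9 / 64) * (α + β * (25 / 64) - γ * (25 / 64) ^ 2) :=
        mul_pos (by linarith) h2
      linarith
  have e7 : (16 / 64) * (α + β * q - γ * q ^ 2) =
      (25 / 64 - q) * (α + β * (9 / 64) - γ * (9 / 64) ^ 2) +
      (q - 9 / 64) * (α + β * (25 / 64) - γ * (25 / 64) ^ 2) +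
      (16 / 64) * (γ * ((q - 9 / 64) * (25 / 64 - q))) := by ring
  have e8 : 0 < (16 / 64 : ℝ) * (α + β * q - γ * q ^ 2) := by
    rw [e7]
    linarith
  linarith

/-- a polynomial concave in each of the three variables and positive at the corners of the cube
`[9/64,25/64]³` is positive on the cube -/
theorem D7a_cube (F : ℝ → ℝ → ℝ → ℝ)
    (c1 : ∀ y z, ∃ α β γ : ℝ, 0 ≤ γ ∧ ∀ x, F x y z = α + β * x - γ * x ^ 2)
    (c2 : ∀ x z, ∃ α β γ : ℝ, 0 ≤ γ ∧ ∀ y, F x y z = α + β * y - γ * y ^ 2)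
    (c3 : ∀ x y, ∃ α β γ : ℝ, 0 ≤ γ ∧ ∀ z, F x y z = α + β * z - γ * z ^ 2)
    (k1 : 0 < F (9 / 64) (9 / 64) (9 / 64)) (k2 : 0 < F (25 / 64) (9 / 64) (9 / 64))
    (k3 : 0 < F (9 / 64) (25 / 64) (9 / 64)) (k4 : 0 < F (25 / 64) (25 / 64) (9 / 64))
    (k5 : 0 < F (9 / 64) (9 / 64) (25 / 64)) (k6 : 0 < F (25 / 64) (9 / 64) (25 / 64))
    (k7 : 0 < F (9 / 64) (25 / 64) (25 / 64)) (k8 : 0 < F (25 / 64) (25 / 64) (25 / 64))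
    (x y z : ℝ) (hx : 9 / 64 ≤ x ∧ x ≤ 25 / 64) (hy : 9 / 64 ≤ y ∧ y ≤ 25 / 64)
    (hz : 9 / 64 ≤ z ∧ z ≤ 25 / 64) : 0 < F x y z := by
  have s1 : ∀ y z, 0 < F (9 / 64) y z → 0 < F (25 / 64) y z → 0 < F x y z := by
    intro y z h1 h2
    obtain ⟨α, β, γ, hγ, h⟩ := c1 y z
    rw [h] at h1 h2 ⊢
    exact D7a_conc α β γ hγ h1 h2 x hx
  have s2 : ∀ z, 0 < F x (9 / 64) z → 0 < F x (25 / 64) z → 0 < F x y z := by
    intro z h1 h2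
    obtain ⟨α, β, γ, hγ, h⟩ := c2 x z
    rw [h] at h1 h2 ⊢
    exact D7a_conc α β γ hγ h1 h2 y hy
  have t1 : 0 < F x y (9 / 64) := s2 _ (s1 _ _ k1 k2) (s1 _ _ k3 k4)
  have t2 : 0 < F x y (25 / 64) := s2 _ (s1 _ _ k5 k6) (s1 _ _ k7 k8)
  obtain ⟨α, β, γ, hγ, h⟩ := c3 x y
  rw [h] at t1 t2 ⊢
  exact D7a_conc α β γ hγ t1 t2 z hz

theorem D7a_minor (x y z : ℝ) (hx : 9 / 64 ≤ x ∧ x ≤ 25 / 64) (hy : 9 / 64 ≤ y ∧ y ≤ 25 / 64)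
    (hz : 9 / 64 ≤ z ∧ z ≤ 25 / 64) : 0 < x * y - ((z - x - y) / 2) ^ 2 := by
  refine D7a_cube (fun x y z => x * y - ((z - x - y) / 2) ^ 2) ?_ ?_ ?_ ?_ ?_ ?_ ?_ ?_ ?_ ?_ ?_
    x y z hx hy hz
  · intro y z
    exact ⟨-((z - y) ^ 2 / 4), y + (z - y) / 2, 1 / 4, by norm_num, fun x => by ring⟩
  · intro x z
    exact ⟨-((z - x) ^ 2 / 4), x + (z - x) / 2, 1 / 4, by norm_num, fun y => by ring⟩
  · intro x y
    exact ⟨x * y - (x + y) ^ 2 / 4, (x + y) / 2, 1 / 4, by norm_num, fun z => by ring⟩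
  all_goals norm_num

theorem D7a_det (x y z : ℝ) (hx : 9 / 64 ≤ x ∧ x ≤ 25 / 64) (hy : 9 / 64 ≤ y ∧ y ≤ 25 / 64)
    (hz : 9 / 64 ≤ z ∧ z ≤ 25 / 64) :
    0 < x * y * z + 2 * ((z - x - y) / 2) * ((y - x - z + 1 / 8) / 2) * ((x - y - z + 1 / 8) / 2)
      - x * ((x - y - z + 1 / 8) / 2) ^ 2 - y * ((y - x - z + 1 / 8) / 2) ^ 2
      - z * ((z - x - y) / 2) ^ 2 := by
  have h := D7a_cube (fun x y z => -(x ^ 2 + y ^ 2 + z ^ 2) / 16 + (x * y + x * z + y * z) / 8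
    - (x + y) / 128 + z / 256) ?_ ?_ ?_ ?_ ?_ ?_ ?_ ?_ ?_ ?_ ?_ x y z hx hy hz
  · have e : x * y * z
        + 2 * ((z - x - y) / 2) * ((y - x - z + 1 / 8) / 2) * ((x - y - z + 1 / 8) / 2)
        - x * ((x - y - z + 1 / 8) / 2) ^ 2 - y * ((y - x - z + 1 / 8) / 2) ^ 2
        - z * ((z - x - y) / 2) ^ 2 = -(x ^ 2 + y ^ 2 + z ^ 2) / 16 + (x * y + x * z + y * z) / 8
        - (x + y) / 128 + z / 256 := by ring
    rw [e]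
    exact h
  · intro y z
    exact ⟨-(y ^ 2 + z ^ 2) / 16 + y * z / 8 - y / 128 + z / 256, (y + z) / 8 - 1 / 128, 1 / 16,
      by norm_num, fun x => by ring⟩
  · intro x z
    exact ⟨-(x ^ 2 + z ^ 2) / 16 + x * z / 8 - x / 128 + z / 256, (x + z) / 8 - 1 / 128, 1 / 16,
      by norm_num, fun y => by ring⟩
  · intro x y
    exact ⟨-(x ^ 2 + y ^ 2) / 16 + x * y / 8 - (x + y) / 128, (x + y) / 8 + 1 / 256, 1 / 16,
      by norm_num, fun z => by ring⟩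
  all_goals norm_num

theorem D7a_form (x y z : ℤ) (s : ℝ × ℝ × ℝ) :
    W7 x y z s = (1 / 2 + s.1) ^ 2 * (x : ℝ) ^ 2 + (1 / 2 + s.2.1) ^ 2 * (y : ℝ) ^ 2
      + (1 / 2 + s.2.2) ^ 2 * (z : ℝ) ^ 2
      + 2 * (((1 / 2 + s.2.2) ^ 2 - (1 / 2 + s.1) ^ 2 - (1 / 2 + s.2.1) ^ 2) / 2) * (x * y)
      + 2 * (((1 / 2 + s.2.1) ^ 2 - (1 / 2 + s.1) ^ 2 - (1 / 2 + s.2.2) ^ 2 + 1 / 8) / 2) * (x * z)
      + 2 * (((1 / 2 + s.1) ^ 2 - (1 / 2 + s.2.1) ^ 2 - (1 / 2 + s.2.2) ^ 2 + 1 / 8) / 2)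
        * (y * z) := by
  unfold W7
  ring

theorem D7a_pd (a b c d e f : ℝ) (ha : 0 < a) (hm : 0 < a * b - d ^ 2)
    (hd : 0 < a * b * c + 2 * d * e * f - a * f ^ 2 - b * e ^ 2 - c * d ^ 2) (x y z : ℝ)
    (h : ¬ (x = 0 ∧ y = 0 ∧ z = 0)) :
    0 < a * x ^ 2 + b * y ^ 2 + c * z ^ 2 + 2 * d * (x * y) + 2 * e * (x * z)
      + 2 * f * (y * z) := by
  have key : (a * (a * b - d ^ 2)) * (a * x ^ 2 + b * y ^ 2 + c * z ^ 2 + 2 * d * (x * y)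
      + 2 * e * (x * z) + 2 * f * (y * z)) = (a * b - d ^ 2) * (a * x + d * y + e * z) ^ 2
      + ((a * b - d ^ 2) * y + (a * f - d * e) * z) ^ 2
      + a * (a * b * c + 2 * d * e * f - a * f ^ 2 - b * e ^ 2 - c * d ^ 2) * z ^ 2 := by ring
  have h1 : 0 ≤ (a * b - d ^ 2) * (a * x + d * y + e * z) ^ 2 :=
    mul_nonneg hm.le (sq_nonneg _)
  have h2 : 0 ≤ ((a * b - d ^ 2) * y + (a * f - d * e) * z) ^ 2 := sq_nonneg _
  have h3 : 0 ≤ a * (a * b * c + 2 * d * e * f - a * f ^ 2 - b * e ^ 2 - c * d ^ 2) * z ^ 2 :=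
    mul_nonneg (mul_pos ha hd).le (sq_nonneg _)
  have h4 : 0 < (a * (a * b - d ^ 2)) * (a * x ^ 2 + b * y ^ 2 + c * z ^ 2 + 2 * d * (x * y)
      + 2 * e * (x * z) + 2 * f * (y * z)) := by
    rw [key]
    by_cases hz : z = 0
    · by_cases hy : y = 0
      · have hx : x ≠ 0 := fun hx => h ⟨hx, hy, hz⟩
        have h5 : 0 < (a * b - d ^ 2) * (a * x + d * y + e * z) ^ 2 := by
          rw [hy, hz, mul_zero, mul_zero, add_zero, add_zero]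
          positivity
        linarith
      · have h5 : 0 < ((a * b - d ^ 2) * y + (a * f - d * e) * z) ^ 2 := by
          rw [hz, mul_zero, add_zero]
          positivity
        linarith
    · have h5 : 0 < a * (a * b * c + 2 * d * e * f - a * f ^ 2 - b * e ^ 2 - c * d ^ 2)
          * z ^ 2 := by
        have := mul_pos ha hd
        positivity
      linarith
  exact (pos_iff_pos_of_mul_pos h4).1 (mul_pos ha hm)

theorem W7_pos (x y z : ℤ) (h : ¬ (x = 0 ∧ y = 0 ∧ z = 0)) (s : ℝ × ℝ × ℝ) (hs : R7 s) :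
    0 < W7 x y z s := by
  obtain ⟨h1, h2, h3⟩ := hs
  have q1 := D7a_q h1
  have q2 := D7a_q h2
  have q3 := D7a_q h3
  rw [D7a_form]
  refine D7a_pd _ _ _ _ _ _ (by linarith [q1.1]) (D7a_minor _ _ _ q1 q2 q3)
    (D7a_det _ _ _ q1 q2 q3) _ _ _ ?_
  rintro ⟨hx, hy, hz⟩
  exact h ⟨by exact_mod_cast hx, by exact_mod_cast hy, by exact_mod_cast hz⟩

/-- the seven vectors -/
def D7a_v (w : Fin 3 → Fin 3 → ℝ) : Fin 7 → Fin 3 → ℝ :=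
  ![w 0, w 0, w 1, w 1, w 2, w 2, fun k => -2 * (w 0 k + w 1 k + w 2 k)]

/-- the seven numbers -/
noncomputable def D7a_d (q : (ℝ × ℝ × ℝ) × (ℝ × ℝ × ℝ)) : Fin 7 → ℝ :=
  ![q.2.1 * (1 / 2 - q.1.1), -(q.2.1 * (1 / 2 - q.1.1)), q.2.2.1 * (1 / 2 - q.1.2.1),
    -(q.2.2.1 * (1 / 2 - q.1.2.1)), q.2.2.2 * (1 / 2 - q.1.2.2), -(q.2.2.2 * (1 / 2 - q.1.2.2)), 0]

theorem D7a_v_measurable {Q : Type} [MeasurableSpace Q] (w : Q → Fin 3 → Fin 3 → ℝ)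
    (hw : Measurable w) : Measurable (fun q => D7a_v (w q)) := by
  have hw' : ∀ i k, Measurable fun q => w q i k := fun i k =>
    (measurable_pi_apply k).comp ((measurable_pi_apply i).comp hw)
  refine measurable_pi_iff.2 fun i => measurable_pi_iff.2 fun k => ?_
  have h6 : Measurable fun q => -2 * (w q 0 k + w q 1 k + w q 2 k) :=
    (((hw' 0 k).add (hw' 1 k)).add (hw' 2 k)).const_mul (-2)
  fin_cases i
  · exact hw' 0 k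
  · exact hw' 0 k
  · exact hw' 1 k
  · exact hw' 1 k
  · exact hw' 2 k
  · exact hw' 2 k
  · exact h6

theorem D7a_d_measurable : Measurable D7a_d := by
  refine measurable_pi_iff.2 fun i => ?_
  fin_cases i <;>
    simp only [D7a_d, Matrix.cons_val, Matrix.cons_val_zero, Matrix.cons_val_one,
      Fin.mk_zero, Fin.mk_one, Fin.isValue, Fin.reduceFinMk] <;> fun_prop

theorem D7a_lin (q : (ℝ × ℝ × ℝ) × (ℝ × ℝ × ℝ)) (u : Fin 7 → ℤ) :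
    ∑ i, (u i : ℝ) * D7a_d q i = D7c (a7 u) (b7 u) (c7 u) q := by
  rw [Fin.sum_univ_seven]
  have e0 : (u 0 : ℝ) * D7a_d q 0 + u 1 * D7a_d q 1 + u 2 * D7a_d q 2 + u 3 * D7a_d q 3 +
      u 4 * D7a_d q 4 + u 5 * D7a_d q 5 + u 6 * D7a_d q 6 =
      (u 0 : ℝ) * (q.2.1 * (1 / 2 - q.1.1)) + u 1 * (-(q.2.1 * (1 / 2 - q.1.1))) +
      u 2 * (q.2.2.1 * (1 / 2 - q.1.2.1)) + u 3 * (-(q.2.2.1 * (1 / 2 - q.1.2.1))) +
      u 4 * (q.2.2.2 * (1 / 2 - q.1.2.2)) + u 5 * (-(q.2.2.2 * (1 / 2 - q.1.2.2))) +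
      u 6 * 0 := rfl
  rw [e0]
  unfold D7c a7 b7 c7
  push_cast
  ring

theorem D7a_dsum (q : (ℝ × ℝ × ℝ) × (ℝ × ℝ × ℝ)) : ∑ i, D7a_d q i = 0 := by
  rw [Fin.sum_univ_seven]
  simp [D7a_d]

theorem D7a_vsum (w : Fin 3 → Fin 3 → ℝ) (k : Fin 3) : ∑ i, D7a_v w i k = 0 := by
  rw [Fin.sum_univ_seven]
  have e0 : D7a_v w 0 k + D7a_v w 1 k + D7a_v w 2 k + D7a_v w 3 k + D7a_v w 4 k + D7a_v w 5 k +
      D7a_v w 6 k = w 0 k + w 0 k + w 1 k + w 1 k + w 2 k + w 2 k +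
      (-2 * (w 0 k + w 1 k + w 2 k)) := rfl
  rw [e0]
  ring

/-- the Gram matrix -/
def D7a_G (s : ℝ × ℝ × ℝ) (w : Fin 3 → Fin 3 → ℝ) : Prop :=
  ∑ k, w 0 k ^ 2 = (1 / 2 + s.1) ^ 2 ∧ ∑ k, w 1 k ^ 2 = (1 / 2 + s.2.1) ^ 2 ∧
    ∑ k, w 2 k ^ 2 = (1 / 2 + s.2.2) ^ 2 ∧
    ∑ k, w 0 k * w 1 k = ((1 / 2 + s.2.2) ^ 2 - (1 / 2 + s.1) ^ 2 - (1 / 2 + s.2.1) ^ 2) / 2 ∧
    ∑ k, w 0 k * w 2 k =
      ((1 / 2 + s.2.1) ^ 2 - (1 / 2 + s.1) ^ 2 - (1 / 2 + s.2.2) ^ 2 + 1 / 8) / 2 ∧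
    ∑ k, w 1 k * w 2 k =
      ((1 / 2 + s.1) ^ 2 - (1 / 2 + s.2.1) ^ 2 - (1 / 2 + s.2.2) ^ 2 + 1 / 8) / 2

theorem D7a_vsq (s : ℝ × ℝ × ℝ) (w : Fin 3 → Fin 3 → ℝ) (h : D7a_G s w) (u : Fin 7 → ℤ) :
    vsq (D7a_v w) u = W7 (x7 u) (y7 u) (z7 u) s := by
  obtain ⟨h1, h2, h3, h4, h5, h6⟩ := h
  rw [Fin.sum_univ_three] at h1 h2 h3 h4 h5 h6
  have key : ∀ k : Fin 3, ∑ i, (u i : ℝ) * D7a_v w i k =
      (x7 u : ℝ) * w 0 k + (y7 u : ℝ) * w 1 k + (z7 u : ℝ) * w 2 k := by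
    intro k
    rw [Fin.sum_univ_seven]
    have e0 : (u 0 : ℝ) * D7a_v w 0 k + u 1 * D7a_v w 1 k + u 2 * D7a_v w 2 k +
        u 3 * D7a_v w 3 k + u 4 * D7a_v w 4 k + u 5 * D7a_v w 5 k + u 6 * D7a_v w 6 k =
        (u 0 : ℝ) * w 0 k + u 1 * w 0 k + u 2 * w 1 k + u 3 * w 1 k + u 4 * w 2 k +
        u 5 * w 2 k + u 6 * (-2 * (w 0 k + w 1 k + w 2 k)) := rfl
    rw [e0]
    unfold x7 y7 z7
    push_cast
    ring
  rw [D7a_form]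
  unfold vsq
  rw [Fin.sum_univ_three, key, key, key]
  linear_combination (x7 u : ℝ) ^ 2 * h1 + (y7 u : ℝ) ^ 2 * h2 + (z7 u : ℝ) ^ 2 * h3
    + 2 * ((x7 u : ℝ) * y7 u) * h4 + 2 * ((x7 u : ℝ) * z7 u) * h5
    + 2 * ((y7 u : ℝ) * z7 u) * h6

theorem D7a_one {s η : ℝ} (w : Fin 3 → ℝ) (h : ∑ k, w k ^ 2 = (1 / 2 + s) ^ 2)
    (hs : |s| ≤ 1 / 8) (e : η = 1 ∨ η = -1) :
    Real.sqrt (∑ k, w k ^ 2) + |η * (1 / 2 - s)| ≤ 1 := by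
  obtain ⟨h1, h2⟩ := abs_le.1 hs
  have hη : |η * (1 / 2 - s)| = 1 / 2 - s := by
    rcases e with rfl | rfl
    · rw [one_mul, abs_of_nonneg (by linarith)]
    · rw [neg_one_mul, abs_neg, abs_of_nonneg (by linarith)]
  rw [h, hη, Real.sqrt_sq (by linarith)]
  linarith

theorem D7a_norm (q : (ℝ × ℝ × ℝ) × (ℝ × ℝ × ℝ)) (w : Fin 3 → Fin 3 → ℝ) (h : D7a_G q.1 w)
    (hs : R7 q.1) (e1 : q.2.1 = 1 ∨ q.2.1 = -1) (e2 : q.2.2.1 = 1 ∨ q.2.2.1 = -1)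
    (e3 : q.2.2.2 = 1 ∨ q.2.2.2 = -1) (i : Fin 7) :
    Real.sqrt (∑ k, D7a_v w i k ^ 2) + |D7a_d q i| ≤ 1 := by
  obtain ⟨g1, g2, g3, g4, g5, g6⟩ := h
  obtain ⟨s1, s2, s3⟩ := hs
  have n1 := D7a_one (w 0) g1 s1 e1
  have n2 := D7a_one (w 1) g2 s2 e2
  have n3 := D7a_one (w 2) g3 s3 e3
  have m1 := n1
  have m2 := n2
  have m3 := n3
  rw [← abs_neg] at m1 m2 m3
  fin_cases i
  · exact n1
  · exact m1
  · exact n2
  · exact m2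
  · exact n3
  · exact m3
  · change Real.sqrt (∑ k, (-2 * (w 0 k + w 1 k + w 2 k)) ^ 2) + |(0 : ℝ)| ≤ 1
    have e : ∑ k, (-2 * (w 0 k + w 1 k + w 2 k)) ^ 2 = 1 := by
      rw [Fin.sum_univ_three] at g1 g2 g3 g4 g5 g6 ⊢
      linear_combination 4 * g1 + 4 * g2 + 4 * g3 + 8 * g4 + 8 * g5 + 8 * g6
    rw [e, Real.sqrt_one, abs_zero, add_zero]

theorem exists_Mu7 : ∃ μ : Measure (Fin 7 → ℝ), Mu7 μ := by
  have := pi7_prob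
  obtain ⟨w, hw, hG⟩ := exists_gram (Q := (ℝ × ℝ × ℝ) × (ℝ × ℝ × ℝ))
    (fun q => (1 / 2 + q.1.1) ^ 2) (fun q => (1 / 2 + q.1.2.1) ^ 2)
    (fun q => (1 / 2 + q.1.2.2) ^ 2)
    (fun q => ((1 / 2 + q.1.2.2) ^ 2 - (1 / 2 + q.1.1) ^ 2 - (1 / 2 + q.1.2.1) ^ 2) / 2)
    (fun q => ((1 / 2 + q.1.2.1) ^ 2 - (1 / 2 + q.1.1) ^ 2 - (1 / 2 + q.1.2.2) ^ 2 + 1 / 8) / 2)
    (fun q => ((1 / 2 + q.1.1) ^ 2 - (1 / 2 + q.1.2.1) ^ 2 - (1 / 2 + q.1.2.2) ^ 2 + 1 / 8) / 2)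
    (by fun_prop) (by fun_prop) (by fun_prop) (by fun_prop) (by fun_prop) (by fun_prop)
  have hG' : ∀ q : (ℝ × ℝ × ℝ) × (ℝ × ℝ × ℝ), R7 q.1 → D7a_G q.1 (w q) := by
    intro q hq
    have q1 := D7a_q hq.1
    have q2 := D7a_q hq.2.1
    have q3 := D7a_q hq.2.2
    exact hG q (by linarith [q1.1]) (D7a_minor _ _ _ q1 q2 q3) (D7a_det _ _ _ q1 q2 q3).le
  obtain ⟨μ, hμ, hs, h1, h2⟩ := exists_poly pi7 (fun q => D7a_v (w q)) (D7a_v_measurable w hw)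
    D7a_d D7a_d_measurable
  refine ⟨μ, hμ, ?_, ?_, ?_⟩
  · apply hs 0
    filter_upwards [pi7_ae] with q hq
    exact ⟨D7a_vsum (w q), D7a_dsum q, D7a_norm q (w q) (hG' q hq.1) hq.1 hq.2.1 hq.2.2.1
      hq.2.2.2⟩
  · intro u hu
    have h3 := h1 u (by
      filter_upwards [pi7_ae] with q hq
      rw [D7a_vsq q.1 (w q) (hG' q hq.1) u]
      exact W7_pos _ _ _ hu _ hq.1)
    refine h3.mono fun z => ?_
    refine lintegral_mono_ae ?_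
    filter_upwards [pi7_ae] with q hq
    rw [D7a_vsq q.1 (w q) (hG' q hq.1) u, D7a_lin]
  · intro u hx hy hz
    have h3 := h2 u (by
      filter_upwards [pi7_ae] with q hq
      rw [D7a_vsq q.1 (w q) (hG' q hq.1) u, hx, hy, hz, W7]
      simp)
    rw [h3]
    congr 1
    funext q
    exact D7a_lin q u

end Pool.Agent.helper49.Slope
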