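import Pool.Agent.helper49.Slope.D7z
import Pool.Agent.helper49.Slope.D6ca
import Pool.Agent.helper49.Slope.D6c

/-!
MP_aedd95_co (slope of k-fold hyperplane covers of triangular grids), module D7b.
Pointwise counting for the average `k8` of eight kernels with centres `±A ± B ± C`.

PROOFS. As in D6ca (`D6ca_i D V z = 1` if the kernel with centre `D` covers `z`, else `0`).
`k8_eq`: from `D6ca_k4` (twice) and `ENNReal.ofReal_add`.
`k8_le_12`: `V < |A|`: for each of the four sign choices of `B, C` the centres `A+g`, `-A+g` are at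
distance `2|A| > 2V`, so at most one covers: the count is at most `4`; same for `B`, `C`.
`k8_le_34`: `V < |A|+|B|` (then `V < |A+B|` or `V < |A-B|`): for each sign of `C` two of the four
centres `±A±B+g` are opposite with distance `2|A±B|... = 2(|A|+|B|) > 2V`, so at most three cover.
`k8_le_78`: the farthest centre (distance `|t|+|A|+|B|+|C|`) does not cover.
`k8_zero`: `C = 0`. The symmetries: the set of the eight centres is invariant.
-/

set_option autoImplicit false

open MeasureTheory ProbabilityTheory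
open scoped ENNReal

namespace Pool.Agent.helper49.Slope

theorem D7b_ker_sub (D g V z : ℝ) : ker D V (z - g) = ker (D + g) V z := by
  unfold ker
  rw [show z - g - D = z - (D + g) by ring]

theorem D7b_sum (A B C V t : ℝ) : k8 A B C V t =
    (ker (A + B + C) V t + ker (A - B + C) V t + ker (-A + B + C) V t + ker (-A - B + C) V t +
      ker (A + B - C) V t + ker (A - B - C) V t + ker (-A + B - C) V t +
      ker (-A - B - C) V t) / 8 := by
  have h8 : (8 : ℝ≥0∞)⁻¹ = 4⁻¹ * 2⁻¹ := by
    rw [← ENNReal.mul_inv (by simp) (by simp)]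
    norm_num
  unfold k8 k4
  rw [show t + C = t - -C by ring]
  simp only [D7b_ker_sub, ← sub_eq_add_neg]
  rw [div_eq_mul_inv, div_eq_mul_inv, div_eq_mul_inv, div_eq_mul_inv, h8]
  ring

/-- average of two quantities bounded by multiples of `X` -/
theorem D7b_avg {x y X : ℝ≥0∞} {p q r : ℝ} (hp : 0 ≤ p) (hq : 0 ≤ q) (hr : (p + q) / 2 ≤ r)
    (hx : x ≤ ENNReal.ofReal p * X) (hy : y ≤ ENNReal.ofReal q * X) :
    (x + y) / 2 ≤ ENNReal.ofReal r * X := by
  calc (x + y) / 2 ≤ (ENNReal.ofReal p * X + ENNReal.ofReal q * X) / 2 := by gcongr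
    _ = ENNReal.ofReal ((p + q) / 2) * X := by
        rw [ENNReal.ofReal_div_of_pos (by norm_num), ENNReal.ofReal_add hp hq,
          show ENNReal.ofReal 2 = 2 by norm_num, ← add_mul, div_eq_mul_inv, div_eq_mul_inv]
        ring
    _ ≤ ENNReal.ofReal r * X := by gcongr

theorem k8_eq {V : ℝ} (hV : 0 < V) (A B C t : ℝ) : k8 A B C V t =
    ENNReal.ofReal ((D6ca_i (A + B) V (t - C) + D6ca_i (A - B) V (t - C) +
      D6ca_i (-A + B) V (t - C) + D6ca_i (-A - B) V (t - C) + D6ca_i (A + B) V (t + C) +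
      D6ca_i (A - B) V (t + C) + D6ca_i (-A + B) V (t + C) + D6ca_i (-A - B) V (t + C)) / 8
        * (1 / V)) := by
  have hc : 0 ≤ 1 / V := by positivity
  have n : ∀ z, 0 ≤ (D6ca_i (A + B) V z + D6ca_i (A - B) V z + D6ca_i (-A + B) V z +
      D6ca_i (-A - B) V z) / 4 * (1 / V) := by
    intro z
    have h1 := D6ca_i_nn (A + B) V z
    have h2 := D6ca_i_nn (A - B) V z
    have h3 := D6ca_i_nn (-A + B) V z
    have h4 := D6ca_i_nn (-A - B) V z
    exact mul_nonneg (by positivity) hc
  unfold k8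
  rw [D6ca_k4 hV, D6ca_k4 hV, ← ENNReal.ofReal_add (n _) (n _),
    show (2 : ℝ≥0∞) = ENNReal.ofReal 2 by norm_num, ← ENNReal.ofReal_div_of_pos (by norm_num)]
  congr 1
  ring

theorem k8_le (A B C V t : ℝ) : k8 A B C V t ≤ ENNReal.ofReal (1 / V) := by
  have h := D7b_avg (x := k4 A B V (t - C)) (y := k4 A B V (t + C)) (X := ENNReal.ofReal (1 / V))
    (p := 1) (q := 1) (r := 1) (by norm_num) (by norm_num) (by norm_num)
    (by simpa using k4_le A B V (t - C)) (by simpa using k4_le A B V (t + C))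
  rw [ENNReal.ofReal_one, one_mul] at h
  exact h

theorem k8_le_78 (A B C V t : ℝ) (h : V < |t| + |A| + |B| + |C|) :
    k8 A B C V t ≤ ENNReal.ofReal (7 / 8) * ENNReal.ofReal (1 / V) := by
  have h1 : ∀ z, k4 A B V z ≤ ENNReal.ofReal 1 * ENNReal.ofReal (1 / V) := fun z => by
    simpa using k4_le A B V z
  have h2 : |t| + |C| = |t - C| ∨ |t| + |C| = |t + C| := by
    rcases abs_cases t with ⟨e1, f1⟩ | ⟨e1, f1⟩ <;> rcases abs_cases C with ⟨e2, f2⟩ | ⟨e2, f2⟩
    · right; rw [e1, e2, abs_of_nonneg (by linarith)]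
    · left; rw [e1, e2, abs_of_nonneg (by linarith)]; ring
    · left; rw [e1, e2, abs_of_nonpos (by linarith)]; ring
    · right; rw [e1, e2, abs_of_nonpos (by linarith)]; ring
  rcases h2 with h2 | h2
  · exact D7b_avg (by norm_num) (by norm_num) (by norm_num)
      (k4_le_34 A B V (t - C) (by linarith)) (h1 _)
  · exact D7b_avg (by norm_num) (by norm_num) (by norm_num) (h1 _)
      (k4_le_34 A B V (t + C) (by linarith))

theorem k8_swap12 (A B C V t : ℝ) : k8 B A C V t = k8 A B C V t := by
  unfold k8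
  rw [k4_swap B A, k4_swap B A]

theorem k8_swap23 (A B C V t : ℝ) : k8 A C B V t = k8 A B C V t := by
  rw [D7b_sum, D7b_sum, show A + C + B = A + B + C by ring, show A - C + B = A + B - C by ring,
    show -A + C + B = -A + B + C by ring, show -A - C + B = -A + B - C by ring,
    show A + C - B = A - B + C by ring, show A - C - B = A - B - C by ring,
    show -A + C - B = -A - B + C by ring, show -A - C - B = -A - B - C by ring]
  congr 1
  ring

theorem k8_swap13 (A B C V t : ℝ) : k8 C B A V t = k8 A B C V t := by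
  rw [k8_swap12, k8_swap23, k8_swap12]

theorem k8_negA (A B C V t : ℝ) : k8 (-A) B C V t = k8 A B C V t := by
  unfold k8
  rw [k4_negA, k4_negA]

theorem k8_negB (A B C V t : ℝ) : k8 A (-B) C V t = k8 A B C V t := by
  unfold k8
  rw [k4_negB, k4_negB]

theorem k8_negC (A B C V t : ℝ) : k8 A B (-C) V t = k8 A B C V t := by
  unfold k8
  rw [sub_neg_eq_add, ← sub_eq_add_neg, add_comm]

theorem k8_negt (A B C V t : ℝ) : k8 A B C V (-t) = k8 A B C V t := by
  unfold k8
  rw [show -t - C = -(t + C) by ring, show -t + C = -(t - C) by ring, k4_negz, k4_negz, add_comm]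

theorem k8_le_34 (A B C V t : ℝ) (h : V < |A| + |B| ∨ V < |A| + |C| ∨ V < |B| + |C|) :
    k8 A B C V t ≤ ENNReal.ofReal (3 / 4) * ENNReal.ofReal (1 / V) := by
  have key : ∀ A B C : ℝ, V < |A| + |B| →
      k8 A B C V t ≤ ENNReal.ofReal (3 / 4) * ENNReal.ofReal (1 / V) := by
    intro A B C h
    have h1 : ∀ z, k4 A B V z ≤ ENNReal.ofReal (3 / 4) * ENNReal.ofReal (1 / V) := fun z =>
      k4_le_34 A B V z (by have := abs_nonneg z; linarith)
    exact D7b_avg (by norm_num) (by norm_num) (by norm_num) (h1 _) (h1 _)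
  rcases h with h | h | h
  · exact key A B C h
  · rw [← k8_swap23]
    exact key A C B h
  · rw [← k8_swap13]
    exact key C B A (by linarith)

theorem k8_le_12 (A B C V t : ℝ) (h : V < |A| ∨ V < |B| ∨ V < |C|) :
    k8 A B C V t ≤ ENNReal.ofReal (1 / 2) * ENNReal.ofReal (1 / V) := by
  have key : ∀ A B C : ℝ, V < |A| ∨ V < |B| →
      k8 A B C V t ≤ ENNReal.ofReal (1 / 2) * ENNReal.ofReal (1 / V) := by
    intro A B C h
    exact D7b_avg (by norm_num) (by norm_num) (by norm_num) (k4_le_12 A B V _ h)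
      (k4_le_12 A B V _ h)
  rcases h with h | h | h
  · exact key A B C (Or.inl h)
  · exact key A B C (Or.inr h)
  · rw [← k8_swap23]
    exact key A C B (Or.inr h)

theorem k8_zero (A B V t : ℝ) : k8 A B 0 V t = k4 A B V t := by
  unfold k8
  rw [sub_zero, add_zero, ENNReal.add_div, ENNReal.add_halves]

/-- one nonzero centre -/
theorem k8_zero_zero (A V t : ℝ) : k8 A 0 0 V t = (ker A V t + ker (-A) V t) / 2 := by
  rw [k8_zero, k4_zero]

end Pool.Agent.helper49.Slope
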