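import Pool.Agent.helper49.Slope.DefsD7
import Pool.Agent.helper49.Slope.D6c

/-!
MP_aedd95_co (slope of k-fold hyperplane covers of triangular grids), module D7z.
The law `D_7`: basic facts about the measures `lam3`, `pi7`: probability, support, iterated
integrals with any digit innermost, permutations of the digits, marginals.
-/

set_option autoImplicit false

open MeasureTheory ProbabilityTheory
open scoped ENNReal

namespace Pool.Agent.helper49.Slope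

theorem lam8_prob : IsProbabilityMeasure (lam (1 / 8)) := lam_prob (by norm_num) (by norm_num)

theorem lam3_prob : IsProbabilityMeasure lam3 := by
  have := lam8_prob
  have := lam2_prob
  infer_instance

theorem sgn3_prob : IsProbabilityMeasure sgn3 := by
  have := sgnM_prob
  infer_instance

theorem pi7_prob : IsProbabilityMeasure pi7 := by
  have := lam3_prob
  have := sgn3_prob
  infer_instance

theorem lam3_ae : ∀ᵐ s ∂lam3, R7 s := by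
  have := lam8_prob
  have := lam2_prob
  have h1 : ∀ᵐ s ∂lam3, |s.1| ≤ 1 / 8 :=
    Measure.quasiMeasurePreserving_fst.ae (lam_ae (1 / 8))
  have h2 : ∀ᵐ s ∂lam3, |s.2.1| ≤ 1 / 8 ∧ |s.2.2| ≤ 1 / 8 :=
    Measure.quasiMeasurePreserving_snd.ae lam2_ae
  exact h1.and h2

theorem pi7_ae : ∀ᵐ q ∂pi7, R7 q.1 ∧ (q.2.1 = 1 ∨ q.2.1 = -1) ∧ (q.2.2.1 = 1 ∨ q.2.2.1 = -1) ∧
    (q.2.2.2 = 1 ∨ q.2.2.2 = -1) := by
  have := lam3_prob
  have := sgn3_prob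
  have := sgnM_prob
  have h1 : ∀ᵐ q ∂pi7, R7 q.1 := Measure.quasiMeasurePreserving_fst.ae lam3_ae
  have h2 : ∀ᵐ t ∂sgn3, t.1 = 1 ∨ t.1 = -1 :=
    Measure.quasiMeasurePreserving_fst.ae sgnM_ae
  have h3 : ∀ᵐ t ∂(sgnM.prod sgnM), t.1 = 1 ∨ t.1 = -1 :=
    Measure.quasiMeasurePreserving_fst.ae sgnM_ae
  have h4 : ∀ᵐ t ∂(sgnM.prod sgnM), t.2 = 1 ∨ t.2 = -1 :=
    Measure.quasiMeasurePreserving_snd.ae sgnM_ae
  have h5 : ∀ᵐ t ∂sgn3, (t.2.1 = 1 ∨ t.2.1 = -1) ∧ (t.2.2 = 1 ∨ t.2.2 = -1) :=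
    Measure.quasiMeasurePreserving_snd.ae (h3.and h4)
  have h6 : ∀ᵐ q ∂pi7, (q.2.1 = 1 ∨ q.2.1 = -1) ∧ (q.2.2.1 = 1 ∨ q.2.2.1 = -1) ∧
    (q.2.2.2 = 1 ∨ q.2.2.2 = -1) := Measure.quasiMeasurePreserving_snd.ae (h2.and h5)
  exact h1.and h6

theorem W7_measurable (x y z : ℤ) : Measurable (W7 x y z) := by
  unfold W7
  fun_prop

theorem D7c_measurable (a b c : ℤ) : Measurable (D7c a b c) := by
  unfold D7c
  fun_prop

theorem I7_measurable (x y z : ℤ) : Measurable (I7 x y z) := by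
  unfold I7
  have := W7_measurable x y z
  fun_prop

/-- the first digit innermost -/
theorem lint7_1 (f : ℝ × ℝ × ℝ → ℝ≥0∞) (hf : Measurable f) :
    ∫⁻ s, f s ∂lam3 = ∫⁻ p, ∫⁻ s, f (s, p.1, p.2) ∂(lam (1 / 8)) ∂lam2 := by
  have := lam8_prob
  have := lam2_prob
  rw [lintegral_prod_symm _ hf.aemeasurable]

/-- the first digit outermost -/
theorem lint7_o1 (f : ℝ × ℝ × ℝ → ℝ≥0∞) (hf : Measurable f) :
    ∫⁻ s, f s ∂lam3 = ∫⁻ s, ∫⁻ p, f (s, p.1, p.2) ∂lam2 ∂(lam (1 / 8)) := by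
  have := lam8_prob
  have := lam2_prob
  rw [lintegral_prod _ hf.aemeasurable]

/-- exchange of the digits 2 and 3 -/
theorem lint7_swap23 (f : ℝ × ℝ × ℝ → ℝ≥0∞) (hf : Measurable f) :
    ∫⁻ s, f (s.1, s.2.2, s.2.1) ∂lam3 = ∫⁻ s, f s ∂lam3 := by
  have := lam8_prob
  have := lam2_prob
  have hf' : Measurable (fun s : ℝ × ℝ × ℝ => f (s.1, s.2.2, s.2.1)) := hf.comp (by fun_prop)
  rw [lint7_o1 _ hf, lint7_o1 _ hf']
  refine lintegral_congr fun s => ?_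
  have hg : Measurable (fun p : ℝ × ℝ => f (s, p.1, p.2)) := hf.comp (by fun_prop)
  have h := lintegral_prod_swap (μ := lam (1 / 8)) (ν := lam (1 / 8))
    (fun p : ℝ × ℝ => f (s, p.1, p.2))
  exact h

/-- exchange of the digits 1 and 2 -/
theorem lint7_swap12 (f : ℝ × ℝ × ℝ → ℝ≥0∞) (hf : Measurable f) :
    ∫⁻ s, f (s.2.1, s.1, s.2.2) ∂lam3 = ∫⁻ s, f s ∂lam3 := by
  have := lam8_prob
  have := lam2_prob
  have hf' : Measurable (fun s : ℝ × ℝ × ℝ => f (s.2.1, s.1, s.2.2)) := hf.comp (by fun_prop)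
  have e1 : ∀ (g : ℝ × ℝ × ℝ → ℝ≥0∞), Measurable g → ∫⁻ s, g s ∂lam3 =
      ∫⁻ s1, ∫⁻ s2, ∫⁻ s3, g (s1, s2, s3) ∂(lam (1 / 8)) ∂(lam (1 / 8)) ∂(lam (1 / 8)) := by
    intro g hg
    rw [lint7_o1 _ hg]
    refine lintegral_congr fun s1 => ?_
    have hg' : Measurable (fun p : ℝ × ℝ => g (s1, p.1, p.2)) := hg.comp (by fun_prop)
    rw [lintegral_prod _ hg'.aemeasurable]
  rw [e1 _ hf, e1 _ hf', lintegral_lintegral_swap]
  have h2 : Measurable (fun z : (ℝ × ℝ) × ℝ => f (z.1.2, z.1.1, z.2)) := hf.comp (by fun_prop)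
  exact (Measurable.lintegral_prod_right' h2).aemeasurable

/-- exchange of the digits 1 and 3 -/
theorem lint7_swap13 (f : ℝ × ℝ × ℝ → ℝ≥0∞) (hf : Measurable f) :
    ∫⁻ s, f (s.2.2, s.2.1, s.1) ∂lam3 = ∫⁻ s, f s ∂lam3 := by
  have h1 : Measurable (fun s : ℝ × ℝ × ℝ => f (s.1, s.2.2, s.2.1)) := hf.comp (by fun_prop)
  have h2 : Measurable (fun s : ℝ × ℝ × ℝ => f (s.2.1, s.2.2, s.1)) := hf.comp (by fun_prop)
  rw [← lint7_swap23 f hf, ← lint7_swap12 _ h1, ← lint7_swap23 _ h2]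

/-- the second digit innermost -/
theorem lint7_2 (f : ℝ × ℝ × ℝ → ℝ≥0∞) (hf : Measurable f) :
    ∫⁻ s, f s ∂lam3 = ∫⁻ p, ∫⁻ s, f (p.1, s, p.2) ∂(lam (1 / 8)) ∂lam2 := by
  have hf' : Measurable (fun s : ℝ × ℝ × ℝ => f (s.2.1, s.1, s.2.2)) := hf.comp (by fun_prop)
  rw [← lint7_swap12 f hf, lint7_1 _ hf']

/-- the third digit innermost -/
theorem lint7_3 (f : ℝ × ℝ × ℝ → ℝ≥0∞) (hf : Measurable f) :
    ∫⁻ s, f s ∂lam3 = ∫⁻ p, ∫⁻ s, f (p.1, p.2, s) ∂(lam (1 / 8)) ∂lam2 := by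
  have hf' : Measurable (fun s : ℝ × ℝ × ℝ => f (s.1, s.2.2, s.2.1)) := hf.comp (by fun_prop)
  rw [← lint7_swap23 f hf, lint7_2 _ hf']

/-- the second digit outermost -/
theorem lint7_o2 (f : ℝ × ℝ × ℝ → ℝ≥0∞) (hf : Measurable f) :
    ∫⁻ s, f s ∂lam3 = ∫⁻ s, ∫⁻ p, f (p.1, s, p.2) ∂lam2 ∂(lam (1 / 8)) := by
  have hf' : Measurable (fun s : ℝ × ℝ × ℝ => f (s.2.1, s.1, s.2.2)) := hf.comp (by fun_prop)
  rw [← lint7_swap12 f hf, lint7_o1 _ hf']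

/-- the third digit outermost -/
theorem lint7_o3 (f : ℝ × ℝ × ℝ → ℝ≥0∞) (hf : Measurable f) :
    ∫⁻ s, f s ∂lam3 = ∫⁻ s, ∫⁻ p, f (p.1, p.2, s) ∂lam2 ∂(lam (1 / 8)) := by
  have hf' : Measurable (fun s : ℝ × ℝ × ℝ => f (s.1, s.2.2, s.2.1)) := hf.comp (by fun_prop)
  rw [← lint7_swap23 f hf, lint7_o2 _ hf']

/-- marginals: one digit -/
theorem lint7_m1 (g : ℝ → ℝ≥0∞) (hg : Measurable g) :
    ∫⁻ s, g s.1 ∂lam3 = ∫⁻ s, g s ∂(lam (1 / 8)) := by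
  have := lam2_prob
  have hg' : Measurable (fun s : ℝ × ℝ × ℝ => g s.1) := hg.comp measurable_fst
  rw [lint7_o1 _ hg']
  refine lintegral_congr fun s => ?_
  simp only
  rw [lintegral_const, measure_univ, mul_one]

theorem lint7_m2 (g : ℝ → ℝ≥0∞) (hg : Measurable g) :
    ∫⁻ s, g s.2.1 ∂lam3 = ∫⁻ s, g s ∂(lam (1 / 8)) := by
  have hg' : Measurable (fun s : ℝ × ℝ × ℝ => g s.1) := hg.comp measurable_fst
  rw [← lint7_m1 g hg, ← lint7_swap12 _ hg']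

theorem lint7_m3 (g : ℝ → ℝ≥0∞) (hg : Measurable g) :
    ∫⁻ s, g s.2.2 ∂lam3 = ∫⁻ s, g s ∂(lam (1 / 8)) := by
  have hg' : Measurable (fun s : ℝ × ℝ × ℝ => g s.1) := hg.comp measurable_fst
  rw [← lint7_m1 g hg, ← lint7_swap13 _ hg']

/-- marginals: two digits -/
theorem lint7_m23 (g : ℝ × ℝ → ℝ≥0∞) (hg : Measurable g) :
    ∫⁻ s, g (s.2.1, s.2.2) ∂lam3 = ∫⁻ p, g p ∂lam2 := by
  have := lam8_prob
  have hg' : Measurable (fun s : ℝ × ℝ × ℝ => g (s.2.1, s.2.2)) := hg.comp (by fun_prop)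
  rw [lint7_1 _ hg']
  refine lintegral_congr fun p => ?_
  simp only
  rw [lintegral_const, measure_univ, mul_one]

theorem lint7_m13 (g : ℝ × ℝ → ℝ≥0∞) (hg : Measurable g) :
    ∫⁻ s, g (s.1, s.2.2) ∂lam3 = ∫⁻ p, g p ∂lam2 := by
  have := lam8_prob
  have hg' : Measurable (fun s : ℝ × ℝ × ℝ => g (s.1, s.2.2)) := hg.comp (by fun_prop)
  rw [lint7_2 _ hg']
  refine lintegral_congr fun p => ?_
  simp only
  rw [lintegral_const, measure_univ, mul_one]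

theorem lint7_m12 (g : ℝ × ℝ → ℝ≥0∞) (hg : Measurable g) :
    ∫⁻ s, g (s.1, s.2.1) ∂lam3 = ∫⁻ p, g p ∂lam2 := by
  have := lam8_prob
  have hg' : Measurable (fun s : ℝ × ℝ × ℝ => g (s.1, s.2.1)) := hg.comp (by fun_prop)
  rw [lint7_3 _ hg']
  refine lintegral_congr fun p => ?_
  simp only
  rw [lintegral_const, measure_univ, mul_one]

end Pool.Agent.helper49.Slope
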