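import Pool.Agent.helper49.Slope.D7b
import Pool.Agent.helper49.Slope.D7z

/-!
MP_aedd95_co (slope of k-fold hyperplane covers of triangular grids), module D7c.
Author: helper6 (statements: helper49, helper23).
The law `D_7`: average over the signs, symmetries of `L7`, integrated bounds.

PROOFS. As D6c. `L7_eq`: `lintegral_prod`, then `lintegral_sgnM` three times; the average over the
eight signs of `ker (±A ± B ± C) V t` is `k8 A B C V t` (`ker (D + C) V t = ker D V (t - C)`).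
`L7_le`, `L7_le_12`, `L7_le_34`, `L7_le_78`: pointwise bounds of D7b on `R7` (`lam3_ae`),
`lintegral_mono_ae`, `lintegral_const_mul`. `L7_split`: the same with an additional indicator.
`L7_swap`, `E7_swap`: `lint7_swap12`, `k8_swap12` and `W7 y x z (s₂,s₁,s₃) = W7 x y z s` (ring).
`L7_neg`, `E7_neg`: `W7` is even. `L7_abs`: `k8_negA/B/C` (see `D6c_abs`). `L7_negt`: `k8_negt`.
-/

set_option autoImplicit false

open MeasureTheory ProbabilityTheory
open scoped ENNReal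

namespace Pool.Agent.helper49.Slope

theorem D7c_V_measurable (x y z : ℤ) : Measurable (fun s : ℝ × ℝ × ℝ => Real.sqrt (W7 x y z s)) :=
  (W7_measurable x y z).sqrt

/-- joint measurability of the average of the eight kernels -/
theorem D7c_k8_measurable {Q : Type} [MeasurableSpace Q] {A B C V : Q → ℝ} (hA : Measurable A)
    (hB : Measurable B) (hC : Measurable C) (hV : Measurable V) (t : ℝ) :
    Measurable (fun q : Q => k8 (A q) (B q) (C q) (V q) t) := by
  have key : ∀ D : Q → ℝ, Measurable D → ∀ T : Q → ℝ, Measurable T →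
      Measurable (fun q : Q => ker (D q) (V q) (T q)) := fun D hD T hT =>
    (B4_measurable_ker hD hV).comp (measurable_id.prodMk hT)
  have k : ∀ T : Q → ℝ, Measurable T → Measurable (fun q : Q => k4 (A q) (B q) (V q) (T q)) := by
    intro T hT
    unfold k4
    refine Measurable.div_const ?_ 4
    refine ((Measurable.add ?_ ?_).add ?_).add ?_
    · exact key _ (hA.add hB) _ hT
    · exact key _ (hA.sub hB) _ hT
    · exact key _ (hA.neg.add hB) _ hT
    · exact key _ (hA.neg.sub hB) _ hT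
  unfold k8
  exact Measurable.div_const ((k _ (measurable_const.sub hC)).add (k _ (measurable_const.add hC))) 2

theorem K8_measurable (x y z a b c : ℤ) (t : ℝ) : Measurable (K8 x y z a b c t) := by
  unfold K8
  exact D7c_k8_measurable (by fun_prop) (by fun_prop) (by fun_prop) (D7c_V_measurable x y z) t

theorem D7c_ker_measurable (x y z a b c : ℤ) :
    Measurable (fun p : ((ℝ × ℝ × ℝ) × (ℝ × ℝ × ℝ)) × ℝ =>
      ker (D7c a b c p.1) (Real.sqrt (W7 x y z p.1.1)) p.2) :=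
  B4_measurable_ker (D7c_measurable a b c) ((D7c_V_measurable x y z).comp measurable_fst)

theorem L7_measurable (x y z a b c : ℤ) : Measurable (L7 x y z a b c) := by
  have := pi7_prob
  exact Measurable.lintegral_prod_left' (D7c_ker_measurable x y z a b c)

theorem D7c_ker_add (D C V t : ℝ) : ker (D + C) V t = ker D V (t - C) := by
  unfold ker
  rw [show t - (D + C) = t - C - D by ring]

theorem D7c_ker_sub (D C V t : ℝ) : ker (D - C) V t = ker D V (t + C) := by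
  unfold ker
  rw [show t - (D - C) = t + C - D by ring]

theorem D7c_eighth (x1 x2 x3 x4 y1 y2 y3 y4 : ℝ≥0∞) :
    (((x1 + y1) / 2 + (x2 + y2) / 2) / 2 + ((x3 + y3) / 2 + (x4 + y4) / 2) / 2) / 2 =
      ((x1 + x2 + x3 + x4) / 4 + (y1 + y2 + y3 + y4) / 4) / 2 := by
  have h : (4 : ℝ≥0∞)⁻¹ = 2⁻¹ * 2⁻¹ := by
    rw [← ENNReal.mul_inv (Or.inl (by norm_num)) (Or.inl (by norm_num))]
    norm_num
  simp only [div_eq_mul_inv, h]
  ring

theorem L7_eq (x y z a b c : ℤ) (t : ℝ) : L7 x y z a b c t = ∫⁻ s, K8 x y z a b c t s ∂lam3 := by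
  have := lam3_prob
  have := sgn3_prob
  have := sgnM_prob
  have hm : Measurable (fun q : (ℝ × ℝ × ℝ) × (ℝ × ℝ × ℝ) =>
      ker (D7c a b c q) (Real.sqrt (W7 x y z q.1)) t) :=
    (D7c_ker_measurable x y z a b c).comp (measurable_id.prodMk measurable_const)
  unfold L7
  rw [lintegral_prod _ hm.aemeasurable]
  refine lintegral_congr fun s => ?_
  have hs : Measurable (fun e : ℝ × ℝ × ℝ =>
      ker (D7c a b c (s, e)) (Real.sqrt (W7 x y z s)) t) :=
    hm.comp (measurable_const.prodMk measurable_id)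
  rw [lintegral_prod _ hs.aemeasurable]
  have h2 : ∀ e1 : ℝ, ∫⁻ e, ker (D7c a b c (s, (e1, e))) (Real.sqrt (W7 x y z s)) t
      ∂(sgnM.prod sgnM) =
      ((ker (D7c a b c (s, (e1, 1, 1))) (Real.sqrt (W7 x y z s)) t +
        ker (D7c a b c (s, (e1, 1, -1))) (Real.sqrt (W7 x y z s)) t) / 2 +
      (ker (D7c a b c (s, (e1, -1, 1))) (Real.sqrt (W7 x y z s)) t +
        ker (D7c a b c (s, (e1, -1, -1))) (Real.sqrt (W7 x y z s)) t) / 2) / 2 := by
    intro e1
    have hs1 : Measurable (fun e : ℝ × ℝ =>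
        ker (D7c a b c (s, (e1, e))) (Real.sqrt (W7 x y z s)) t) :=
      hs.comp (measurable_const.prodMk measurable_id)
    rw [lintegral_prod _ hs1.aemeasurable]
    have h1 : ∀ e2 : ℝ, ∫⁻ e3, ker (D7c a b c (s, (e1, e2, e3))) (Real.sqrt (W7 x y z s)) t
        ∂sgnM = (ker (D7c a b c (s, (e1, e2, 1))) (Real.sqrt (W7 x y z s)) t +
          ker (D7c a b c (s, (e1, e2, -1))) (Real.sqrt (W7 x y z s)) t) / 2 := by
      intro e2
      exact lintegral_sgnM _ (hs1.comp (measurable_const.prodMk measurable_id))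
    simp only [h1]
    rw [lintegral_sgnM]
    refine Measurable.div_const (Measurable.add ?_ ?_) 2
    · exact hs1.comp (measurable_id.prodMk measurable_const)
    · exact hs1.comp (measurable_id.prodMk measurable_const)
  have h3 : ∀ e1 : ℝ, ∫⁻ e, ker (D7c a b c (s, (e1, e))) (Real.sqrt (W7 x y z (s, (e1, e)).1)) t
      ∂(sgnM.prod sgnM) =
      ((ker (D7c a b c (s, (e1, 1, 1))) (Real.sqrt (W7 x y z s)) t +
        ker (D7c a b c (s, (e1, 1, -1))) (Real.sqrt (W7 x y z s)) t) / 2 +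
      (ker (D7c a b c (s, (e1, -1, 1))) (Real.sqrt (W7 x y z s)) t +
        ker (D7c a b c (s, (e1, -1, -1))) (Real.sqrt (W7 x y z s)) t) / 2) / 2 := h2
  simp only [h3]
  rw [lintegral_sgnM]
  · rw [D7c_eighth]
    unfold K8 k8 k4 D7c
    simp only [one_mul, neg_mul, mul_neg, ← sub_eq_add_neg, D7c_ker_add, D7c_ker_sub]
  · have hc : ∀ u v : ℝ, Measurable (fun e1 : ℝ =>
        ker (D7c a b c (s, (e1, u, v))) (Real.sqrt (W7 x y z s)) t) := by
      intro u v
      exact hs.comp (measurable_id.prodMk measurable_const)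
    exact (((hc 1 1).add (hc 1 (-1))).div_const 2 |>.add
      (((hc (-1) 1).add (hc (-1) (-1))).div_const 2)).div_const 2

theorem D7c_W_swap (x y z : ℤ) (s : ℝ × ℝ × ℝ) : W7 y x z (s.2.1, s.1, s.2.2) = W7 x y z s := by
  unfold W7
  simp only
  ring

theorem D7c_W_neg (x y z : ℤ) (s : ℝ × ℝ × ℝ) : W7 (-x) (-y) (-z) s = W7 x y z s := by
  unfold W7
  push_cast
  ring

theorem E7_swap (x y z : ℤ) : E7 x y z = E7 y x z := by
  unfold E7
  rw [← lint7_swap12 _ (I7_measurable y x z)]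
  refine lintegral_congr fun s => ?_
  unfold I7
  rw [D7c_W_swap]

theorem E7_neg (x y z : ℤ) : E7 x y z = E7 (-x) (-y) (-z) := by
  unfold E7 I7
  simp only [D7c_W_neg]

theorem L7_swap (x y z a b c : ℤ) (t : ℝ) : L7 x y z a b c t = L7 y x z b a c t := by
  rw [L7_eq, L7_eq, ← lint7_swap12 _ (K8_measurable y x z b a c t)]
  refine lintegral_congr fun s => ?_
  unfold K8
  rw [D7c_W_swap, k8_swap12]

theorem L7_neg (x y z a b c : ℤ) (t : ℝ) : L7 x y z a b c t = L7 (-x) (-y) (-z) a b c t := by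
  unfold L7
  simp only [D7c_W_neg]

theorem L7_abs (x y z a b c : ℤ) (t : ℝ) : L7 x y z a b c t = L7 x y z |a| |b| |c| t := by
  rw [L7_eq, L7_eq]
  refine lintegral_congr fun s => ?_
  unfold K8
  rw [D6c_abs a _ (fun A => k8 A (b * (1 / 2 - s.2.1)) (c * (1 / 2 - s.2.2))
      (Real.sqrt (W7 x y z s)) t) (fun A => k8_negA _ _ _ _ _),
    D6c_abs b _ (fun B => k8 ((|a| : ℤ) * (1 / 2 - s.1)) B (c * (1 / 2 - s.2.2))
      (Real.sqrt (W7 x y z s)) t) (fun A => k8_negB _ _ _ _ _),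
    D6c_abs c _ (fun C => k8 ((|a| : ℤ) * (1 / 2 - s.1)) ((|b| : ℤ) * (1 / 2 - s.2.1)) C
      (Real.sqrt (W7 x y z s)) t) (fun A => k8_negC _ _ _ _ _)]

theorem L7_negt (x y z a b c : ℤ) (t : ℝ) : L7 x y z a b c (-t) = L7 x y z a b c t := by
  rw [L7_eq, L7_eq]
  exact lintegral_congr fun s => k8_negt _ _ _ _ _

theorem L7_abst (x y z a b c : ℤ) (t : ℝ) : L7 x y z a b c |t| = L7 x y z a b c t := by
  rcases abs_choice t with h | h
  · rw [h]
  · rw [h, L7_negt]

theorem L7_le (x y z a b c : ℤ) (t : ℝ) : L7 x y z a b c t ≤ E7 x y z := by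
  rw [L7_eq]
  exact lintegral_mono fun s => k8_le _ _ _ _ _

theorem D7c_le_mul (x y z a b c : ℤ) (t : ℝ) (p : ℝ≥0∞)
    (h : ∀ s : ℝ × ℝ × ℝ, R7 s → K8 x y z a b c t s ≤ p * I7 x y z s) :
    L7 x y z a b c t ≤ p * E7 x y z := by
  rw [L7_eq]
  unfold E7
  rw [← lintegral_const_mul _ (I7_measurable x y z)]
  refine lintegral_mono_ae ?_
  filter_upwards [lam3_ae] with s hs
  exact h s hs

theorem L7_le_12 (x y z a b c : ℤ) (t : ℝ)
    (h : ∀ s, R7 s → Real.sqrt (W7 x y z s) < |(a : ℝ) * (1 / 2 - s.1)| ∨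
      Real.sqrt (W7 x y z s) < |(b : ℝ) * (1 / 2 - s.2.1)| ∨
      Real.sqrt (W7 x y z s) < |(c : ℝ) * (1 / 2 - s.2.2)|) :
    L7 x y z a b c t ≤ ENNReal.ofReal (1 / 2) * E7 x y z :=
  D7c_le_mul x y z a b c t _ fun s hs => k8_le_12 _ _ _ _ _ (h s hs)

theorem L7_le_34 (x y z a b c : ℤ) (t : ℝ)
    (h : ∀ s, R7 s →
      Real.sqrt (W7 x y z s) < |(a : ℝ) * (1 / 2 - s.1)| + |(b : ℝ) * (1 / 2 - s.2.1)| ∨
      Real.sqrt (W7 x y z s) < |(a : ℝ) * (1 / 2 - s.1)| + |(c : ℝ) * (1 / 2 - s.2.2)| ∨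
      Real.sqrt (W7 x y z s) < |(b : ℝ) * (1 / 2 - s.2.1)| + |(c : ℝ) * (1 / 2 - s.2.2)|) :
    L7 x y z a b c t ≤ ENNReal.ofReal (3 / 4) * E7 x y z :=
  D7c_le_mul x y z a b c t _ fun s hs => k8_le_34 _ _ _ _ _ (h s hs)

theorem L7_le_78 (x y z a b c : ℤ) (t : ℝ)
    (h : ∀ s, R7 s → Real.sqrt (W7 x y z s) < |t| + |(a : ℝ) * (1 / 2 - s.1)| +
      |(b : ℝ) * (1 / 2 - s.2.1)| + |(c : ℝ) * (1 / 2 - s.2.2)|) :
    L7 x y z a b c t ≤ ENNReal.ofReal (7 / 8) * E7 x y z :=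
  D7c_le_mul x y z a b c t _ fun s hs => k8_le_78 _ _ _ _ _ (h s hs)

/-- general pointwise bound with a set of exceptions -/
theorem L7_split (x y z a b c : ℤ) (t : ℝ) (p : ℝ≥0∞) (r : ℝ≥0∞) (S : Set (ℝ × ℝ × ℝ))
    (hS : MeasurableSet S)
    (h : ∀ s, R7 s → K8 x y z a b c t s ≤ p * I7 x y z s + S.indicator (fun _ => r) s) :
    L7 x y z a b c t ≤ p * E7 x y z + r * lam3 S := by
  have h1 : ∫⁻ s, (p * I7 x y z s + S.indicator (fun _ => r) s) ∂lam3 =
      p * E7 x y z + r * lam3 S := by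
    rw [lintegral_add_left ((I7_measurable x y z).const_mul p),
      lintegral_const_mul _ (I7_measurable x y z), lintegral_indicator_const hS]
    rfl
  rw [L7_eq, ← h1]
  refine lintegral_mono_ae ?_
  filter_upwards [lam3_ae] with s hs
  exact h s hs

/-- lower bound for the absolute value of `a (1/2 - s)` -/
theorem D7_abs (a : ℤ) (k : ℕ) (hk : (k : ℤ) ≤ |a|) {s : ℝ} (hs : |s| ≤ 1 / 8) :
    (k : ℝ) * (1 / 2 - s) ≤ |(a : ℝ) * (1 / 2 - s)| ∧
      (k : ℝ) * (3 / 8) ≤ |(a : ℝ) * (1 / 2 - s)| := by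
  have h1 : (k : ℝ) ≤ |(a : ℝ)| := by
    have : ((k : ℤ) : ℝ) ≤ ((|a| : ℤ) : ℝ) := by exact_mod_cast hk
    simpa using this
  have h2 := (abs_le.1 hs).2
  have h3 : (3 / 8 : ℝ) ≤ 1 / 2 - s := by linarith
  rw [D6c_abs_mul a hs]
  have h4 : (k : ℝ) * (1 / 2 - s) ≤ |(a : ℝ)| * (1 / 2 - s) :=
    mul_le_mul_of_nonneg_right h1 (by linarith)
  exact ⟨h4, (mul_le_mul_of_nonneg_left h3 (Nat.cast_nonneg k)).trans h4⟩

end Pool.Agent.helper49.Slope
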