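import Pool.Agent.helper49.Slope.D7a
import Pool.Agent.helper49.Slope.D7z

/-!
MP_aedd95_co (slope of k-fold hyperplane covers of triangular grids), module D7d.
The law `D_7`: the one-digit certificate for the expectation of `1/V`.

PROOFS. `l71+..`: `W7 x y z s = q1 l71 + q2 l72 + q3 l73 + z (x+y)/8`, `q_i = (1/2+s_i)² ∈ [9/64,25/64]`,
so `W7 ≥ mm7/64` (`g7 l ≤ 64 q l`). `mm7_pos`: `mm7/64` is the value of `W7` at a corner (`s_i = -1/8`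
if `0 ≤ l_i`, else `1/8`), `W7_pos`. `E7_cert` for `l = |l_i|`: integrate the digit `i` first
(`lint7_1`, `lint7_2`, `lint7_3`): for fixed other digits (a.e. in range, `lam2_ae`)
`W7 = A + l_i (1/2+s_i)²`, `lam_inv_sqrt` gives `2/(√(A+25 l_i/64)+√(A+9 l_i/64))`; both radicands are
`≥ mm7/64` and they differ by `16 l_i/64`, so the larger is `≥ (mm7 + 16 |l_i|)/64`; hence the inner
integral is `≤ 2/(√mm7/8 + √(mm7+16|l_i|)/8)`. Then `lam2` is a probability measure.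
-/

set_option autoImplicit false

open MeasureTheory ProbabilityTheory
open scoped ENNReal

namespace Pool.Agent.helper49.Slope

theorem D7d_g (l : ℤ) {q : ℝ} (h1 : 9 / 64 ≤ q) (h2 : q ≤ 25 / 64) :
    (g7 l : ℝ) ≤ 64 * (q * l) := by
  unfold g7
  split_ifs with h
  · have h' : (0 : ℝ) ≤ l := by exact_mod_cast h
    push_cast
    nlinarith [mul_le_mul_of_nonneg_right h1 h']
  · have h' : (l : ℝ) ≤ 0 := by exact_mod_cast (not_le.1 h).le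
    push_cast
    nlinarith [mul_le_mul_of_nonpos_right h2 h']

theorem D7d_W (x y z : ℤ) (s : ℝ × ℝ × ℝ) : W7 x y z s =
    (1 / 2 + s.1) ^ 2 * (l71 x y z : ℝ) + (1 / 2 + s.2.1) ^ 2 * (l72 x y z : ℝ)
      + (1 / 2 + s.2.2) ^ 2 * (l73 x y z : ℝ) + (z : ℝ) * (x + y) / 8 := by
  unfold W7 l71 l72 l73
  push_cast
  ring

theorem D7d_mm (x y z : ℤ) : (mm7 x y z : ℝ) / 64 =
    (g7 (l71 x y z) : ℝ) / 64 + (g7 (l72 x y z) : ℝ) / 64 + (g7 (l73 x y z) : ℝ) / 64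
      + (z : ℝ) * (x + y) / 8 := by
  unfold mm7
  push_cast
  ring

theorem W7_ge_mm (x y z : ℤ) (s : ℝ × ℝ × ℝ) (hs : R7 s) : (mm7 x y z : ℝ) / 64 ≤ W7 x y z s := by
  obtain ⟨h1, h2, h3⟩ := hs
  have a1 := D7d_g (l71 x y z) (D7a_q h1).1 (D7a_q h1).2
  have a2 := D7d_g (l72 x y z) (D7a_q h2).1 (D7a_q h2).2
  have a3 := D7d_g (l73 x y z) (D7a_q h3).1 (D7a_q h3).2
  rw [D7d_W, D7d_mm]
  linarith

theorem mm7_pos (x y z : ℤ) (h : ¬ (x = 0 ∧ y = 0 ∧ z = 0)) : 0 < mm7 x y z := by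
  have key : ∀ l : ℤ, ∃ t : ℝ, |t| ≤ 1 / 8 ∧ (1 / 2 + t) ^ 2 * (l : ℝ) = (g7 l : ℝ) / 64 := by
    intro l
    by_cases hl : 0 ≤ l
    · refine ⟨-(1 / 8), by rw [abs_neg, abs_of_pos] <;> norm_num, ?_⟩
      rw [g7, if_pos hl]
      push_cast
      ring
    · refine ⟨1 / 8, by rw [abs_of_pos]; norm_num, ?_⟩
      rw [g7, if_neg hl]
      push_cast
      ring
  obtain ⟨t1, h1, e1⟩ := key (l71 x y z)
  obtain ⟨t2, h2, e2⟩ := key (l72 x y z)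
  obtain ⟨t3, h3, e3⟩ := key (l73 x y z)
  have hW := W7_pos x y z h (t1, t2, t3) ⟨h1, h2, h3⟩
  rw [D7d_W] at hW
  simp only at hW
  rw [e1, e2, e3, ← D7d_mm] at hW
  have h4 : (0 : ℝ) < mm7 x y z := by linarith
  exact_mod_cast h4

theorem D7d_sqrt {m r : ℝ} (h0 : 0 ≤ r) (h : m ≤ 64 * r) : Real.sqrt m ≤ 8 * Real.sqrt r := by
  rw [Real.sqrt_le_iff]
  refine ⟨by positivity, ?_⟩
  rw [mul_pow, Real.sq_sqrt h0]
  linarith

/-- one digit -/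
theorem D7d_core (A L m : ℝ) (hm : 0 < m)
    (h : ∀ s : ℝ, |s| ≤ 1 / 8 → m / 64 ≤ A + L * (1 / 2 + s) ^ 2) :
    ∫⁻ s, ENNReal.ofReal (1 / Real.sqrt (A + L * (1 / 2 + s) ^ 2)) ∂(lam (1 / 8)) ≤
      ENNReal.ofReal (16 / (Real.sqrt m + Real.sqrt (m + 16 * |L|))) := by
  rw [lam_inv_sqrt (by norm_num) (by norm_num) A L fun s hs => by have := h s hs; linarith]
  refine ENNReal.ofReal_le_ofReal ?_
  have h1 := h (1 / 8) (by rw [abs_of_pos]; norm_num)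
  have h2 := h (-(1 / 8)) (by rw [abs_neg, abs_of_pos] <;> norm_num)
  have e2 : (1 / 2 + -(1 / 8) : ℝ) = 1 / 2 - 1 / 8 := by norm_num
  rw [e2] at h2
  have hs : 0 < Real.sqrt m := Real.sqrt_pos.2 hm
  have hs' : 0 ≤ Real.sqrt (m + 16 * |L|) := Real.sqrt_nonneg _
  have h3 : Real.sqrt m + Real.sqrt (m + 16 * |L|) ≤
      8 * (Real.sqrt (A + L * (1 / 2 + 1 / 8) ^ 2) + Real.sqrt (A + L * (1 / 2 - 1 / 8) ^ 2)) := by
    rcases le_total 0 L with hL | hL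
    · rw [abs_of_nonneg hL]
      have a1 : Real.sqrt (m + 16 * L) ≤ 8 * Real.sqrt (A + L * (1 / 2 + 1 / 8) ^ 2) :=
        D7d_sqrt (by linarith) (by nlinarith)
      have a2 : Real.sqrt m ≤ 8 * Real.sqrt (A + L * (1 / 2 - 1 / 8) ^ 2) :=
        D7d_sqrt (by linarith) (by linarith)
      linarith
    · rw [abs_of_nonpos hL]
      have a1 : Real.sqrt (m + 16 * -L) ≤ 8 * Real.sqrt (A + L * (1 / 2 - 1 / 8) ^ 2) :=
        D7d_sqrt (by linarith) (by nlinarith)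
      have a2 : Real.sqrt m ≤ 8 * Real.sqrt (A + L * (1 / 2 + 1 / 8) ^ 2) :=
        D7d_sqrt (by linarith) (by linarith)
      linarith
  rw [div_le_div_iff₀ (by linarith) (by linarith)]
  linarith

theorem E7_cert (x y z : ℤ) (h : ¬ (x = 0 ∧ y = 0 ∧ z = 0)) (l : ℤ)
    (hl : l = |l71 x y z| ∨ l = |l72 x y z| ∨ l = |l73 x y z|) :
    E7 x y z ≤ ENNReal.ofReal (16 / (Real.sqrt (mm7 x y z) + Real.sqrt (mm7 x y z + 16 * l))) := by
  have := lam2_prob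
  have hm : (0 : ℝ) < mm7 x y z := by exact_mod_cast mm7_pos x y z h
  have hmeas := I7_measurable x y z
  have fin : ∀ (c : ℝ≥0∞) (J : ℝ × ℝ → ℝ≥0∞), (∀ p : ℝ × ℝ, |p.1| ≤ 1 / 8 ∧ |p.2| ≤ 1 / 8 →
      J p ≤ c) → ∫⁻ p, J p ∂lam2 ≤ c := by
    intro c J hJ
    refine (lintegral_mono_ae (lam2_ae.mono fun p hp => hJ p hp)).trans ?_
    rw [lintegral_const, measure_univ, mul_one]
  unfold E7
  rcases hl with hl | hl | hl
  · have hl' : (l : ℝ) = |(l71 x y z : ℝ)| := by rw [hl, Int.cast_abs]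
    rw [lint7_1 _ hmeas, hl']
    refine fin _ _ fun p hp => ?_
    obtain ⟨A, hA⟩ : ∃ A : ℝ, A = (1 / 2 + p.1) ^ 2 * (l72 x y z : ℝ)
      + (1 / 2 + p.2) ^ 2 * (l73 x y z : ℝ) + (z : ℝ) * (x + y) / 8 := ⟨_, rfl⟩
    have e : ∀ s : ℝ, W7 x y z (s, p.1, p.2) = A + (l71 x y z : ℝ) * (1 / 2 + s) ^ 2 := by
      intro s
      rw [D7d_W, hA]
      ring
    unfold I7
    simp only [e]
    refine D7d_core A _ _ hm fun s hs => ?_
    rw [← e]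
    exact W7_ge_mm x y z _ ⟨hs, hp.1, hp.2⟩
  · have hl' : (l : ℝ) = |(l72 x y z : ℝ)| := by rw [hl, Int.cast_abs]
    rw [lint7_2 _ hmeas, hl']
    refine fin _ _ fun p hp => ?_
    obtain ⟨A, hA⟩ : ∃ A : ℝ, A = (1 / 2 + p.1) ^ 2 * (l71 x y z : ℝ)
      + (1 / 2 + p.2) ^ 2 * (l73 x y z : ℝ) + (z : ℝ) * (x + y) / 8 := ⟨_, rfl⟩
    have e : ∀ s : ℝ, W7 x y z (p.1, s, p.2) = A + (l72 x y z : ℝ) * (1 / 2 + s) ^ 2 := by
      intro s
      rw [D7d_W, hA]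
      ring
    unfold I7
    simp only [e]
    refine D7d_core A _ _ hm fun s hs => ?_
    rw [← e]
    exact W7_ge_mm x y z _ ⟨hp.1, hs, hp.2⟩
  · have hl' : (l : ℝ) = |(l73 x y z : ℝ)| := by rw [hl, Int.cast_abs]
    rw [lint7_3 _ hmeas, hl']
    refine fin _ _ fun p hp => ?_
    obtain ⟨A, hA⟩ : ∃ A : ℝ, A = (1 / 2 + p.1) ^ 2 * (l71 x y z : ℝ)
      + (1 / 2 + p.2) ^ 2 * (l72 x y z : ℝ) + (z : ℝ) * (x + y) / 8 := ⟨_, rfl⟩
    have e : ∀ s : ℝ, W7 x y z (p.1, p.2, s) = A + (l73 x y z : ℝ) * (1 / 2 + s) ^ 2 := by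
      intro s
      rw [D7d_W, hA]
      ring
    unfold I7
    simp only [e]
    refine D7d_core A _ _ hm fun s hs => ?_
    rw [← e]
    exact W7_ge_mm x y z _ ⟨hp.1, hp.2, hs⟩

end Pool.Agent.helper49.Slope
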