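import Pool.Agent.helper49.Slope.D7d

/-!
MP_aedd95_co (slope of k-fold hyperplane covers of triangular grids), module D7e.
The law `D_7`: the expectation of `1/V` is at most `1` except for 20 patterns.

PROOFS. Integer conditions. Let `m = mm7 x y z > 0` (`mm7_pos`), `l` one of `|l7i|`.
(1) If `16 ≤ l` or `(16-l)² ≤ 4 m` then `√m + √(m+16 l) ≥ 16`, so `E7 ≤ 1` by `E7_cert`:
    if `l ≥ 16`, `√(m+16l) ≥ √256`; if `l < 16` then `2√m ≥ 16-l`, so
    `(16-√m)² = 256 - 32√m + m ≤ m + 16 l` and `√(m+16l) ≥ 16 - √m`.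
(2) If `38416 ≤ 1600 l` or `(38416 - 1600 l)² ≤ 15366400 m` then `√m + √(m+16 l) ≥ 19.6`, so
    `E7 ≤ 16/19.6 ≤ 0.82` (same computation with `19.6` for `16`: `39.2 √m ≥ 384.16 - 16 l`).
`E7_generic`: let `p = x - z`, `r = y - z`. `l71 = (p-r) p`, `l72 = (r-p) r`, `l73 = p r`.
 a) `max(p,r,0) - min(p,r,0) ≥ 6`: some `|l7i| ≥ 18` (the product of the two differences at the
    middle... at the extreme which is farther from the middle element: `w · ⌈w/2⌉ ≥ 18`).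
 b) otherwise `|p|,|r|,|p-r| ≤ 5`; if `|z| ≥ 6` then `8 z (x+y) = 8 z (2z + p + r) ≥ 8·6·2 = 96`
    (`|p + r| ≤ 10`) and the rest of `mm7` is `≥ 0` (`9 (p² + r²) - 7 p r`-type lower bounds; for each
    of the finitely many `(p, r)` with `|p|,|r| ≤ 5` by `decide`), so `m ≥ 64`, `(16-l)² ≤ 256 ≤ 4m`.
 c) otherwise `(x,y,z)` is in a finite set (`|z| ≤ 5`, `|x-z| ≤ 5`, `|y-z| ≤ 5`): `decide +kernel` of
    `Sp7 x y z ∨ (x,y,z) = 0 ∨ ∃ i, condition (1)`.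
`E7_seven`: `7 ≤ |x+y+z|` (so not all zero): a) width `≥ 7`: some `|l7i| ≥ 28`, `1600·28 ≥ 38416`.
 b) width `≤ 6` and `|z| ≥ 7`: `8 z (2z + p + r) ≥ 8·7·2 = 112`, rest `≥ 0` (decide over `|p|,|r| ≤ 6`),
    `m ≥ 97`: condition (2). c) else finite (`|z| ≤ 6`, `|p|,|r| ≤ 6`): `decide +kernel`.
-/

set_option autoImplicit false

open MeasureTheory ProbabilityTheory
open scoped ENNReal

namespace Pool.Agent.helper49.Slope

/-- the real inequality behind both conditions -/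
theorem D7e_sqrt {m l : ℤ} {c : ℝ} (hc : 0 ≤ c) (hm : 0 ≤ m) (hl : 0 ≤ l)
    (h : c ^ 2 ≤ 16 * (l : ℝ) ∨ (c ^ 2 - 16 * l) ^ 2 ≤ (2 * c) ^ 2 * (m : ℝ)) :
    c ≤ Real.sqrt (m : ℝ) + Real.sqrt ((m : ℝ) + 16 * l) := by
  have hm' : (0 : ℝ) ≤ m := by exact_mod_cast hm
  have hl' : (0 : ℝ) ≤ l := by exact_mod_cast hl
  have h0 := Real.sqrt_nonneg (m : ℝ)
  have hsq : Real.sqrt (m : ℝ) ^ 2 = m := Real.sq_sqrt hm'
  rcases h with h | h
  · have h1 : c ≤ Real.sqrt ((m : ℝ) + 16 * l) := Real.le_sqrt_of_sq_le (by linarith)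
    linarith
  · have h1 : c ^ 2 - 16 * (l : ℝ) ≤ 2 * c * Real.sqrt (m : ℝ) := by
      apply le_of_sq_le_sq _ (by positivity)
      rw [mul_pow, hsq]
      exact h
    have h2 : c - Real.sqrt (m : ℝ) ≤ Real.sqrt ((m : ℝ) + 16 * l) := by
      apply Real.le_sqrt_of_sq_le
      nlinarith
    linarith

theorem D7e_cond1 (x y z : ℤ) (h0 : ¬ (x = 0 ∧ y = 0 ∧ z = 0)) (l : ℤ)
    (hl : l = |l71 x y z| ∨ l = |l72 x y z| ∨ l = |l73 x y z|)
    (h : 16 ≤ l ∨ (16 - l) ^ 2 ≤ 4 * mm7 x y z) : E7 x y z ≤ 1 := by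
  have hl0 : 0 ≤ l := by
    rcases hl with rfl | rfl | rfl <;> exact abs_nonneg _
  have hm := mm7_pos x y z h0
  refine (E7_cert x y z h0 l hl).trans ?_
  rw [← ENNReal.ofReal_one]
  apply ENNReal.ofReal_le_ofReal
  have h1 : (16 : ℝ) ≤ Real.sqrt (mm7 x y z) + Real.sqrt (mm7 x y z + 16 * l) := by
    apply D7e_sqrt (by norm_num) hm.le hl0
    rcases h with h | h
    · left
      have h2 : (16 : ℝ) ≤ l := by exact_mod_cast h
      linarith
    · right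
      have h2 : ((16 : ℝ) - l) ^ 2 ≤ 4 * mm7 x y z := by exact_mod_cast h
      nlinarith
  rw [div_le_one (by linarith)]
  exact h1

theorem D7e_cond2 (x y z : ℤ) (h0 : ¬ (x = 0 ∧ y = 0 ∧ z = 0)) (l : ℤ)
    (hl : l = |l71 x y z| ∨ l = |l72 x y z| ∨ l = |l73 x y z|)
    (h : 38416 ≤ 1600 * l ∨ (38416 - 1600 * l) ^ 2 ≤ 15366400 * mm7 x y z) :
    E7 x y z ≤ ENNReal.ofReal (82 / 100) := by
  have hl0 : 0 ≤ l := by
    rcases hl with rfl | rfl | rfl <;> exact abs_nonneg _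
  have hm := mm7_pos x y z h0
  refine (E7_cert x y z h0 l hl).trans ?_
  apply ENNReal.ofReal_le_ofReal
  have h1 : (196 / 10 : ℝ) ≤ Real.sqrt (mm7 x y z) + Real.sqrt (mm7 x y z + 16 * l) := by
    apply D7e_sqrt (by norm_num) hm.le hl0
    rcases h with h | h
    · left
      have h2 : (38416 : ℝ) ≤ 1600 * l := by exact_mod_cast h
      linarith
    · right
      have h2 : ((38416 : ℝ) - 1600 * l) ^ 2 ≤ 15366400 * mm7 x y z := by exact_mod_cast h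
      nlinarith
  rw [div_le_iff₀ (by linarith)]
  linarith

/-- the rest of `mm7` -/
def D7e_rest (p r : ℤ) : ℤ := g7 ((p - r) * p) + g7 ((r - p) * r) + g7 (p * r)

theorem D7e_mm (z p r : ℤ) :
    mm7 (z + p) (z + r) z = 8 * (z * (2 * z + (p + r))) + D7e_rest p r := by
  unfold mm7 D7e_rest l71 l72 l73
  have e1 : (z + p - (z + r)) * (z + p - z) = (p - r) * p := by ring
  have e2 : (z + r - (z + p)) * (z + r - z) = (r - p) * r := by ring
  have e3 : (z - (z + p)) * (z - (z + r)) = p * r := by ring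
  rw [e1, e2, e3]
  ring

theorem D7e_rest_nonneg : ∀ p ∈ Finset.Icc (-6 : ℤ) 6, ∀ r ∈ Finset.Icc (-6 : ℤ) 6,
    0 ≤ D7e_rest p r := by
  decide +kernel

theorem D7e_fin1 : ∀ z ∈ Finset.Icc (-5 : ℤ) 5, ∀ p ∈ Finset.Icc (-5 : ℤ) 5,
    ∀ r ∈ Finset.Icc (-5 : ℤ) 5, Sp7 (z + p) (z + r) z ∨ (z + p = 0 ∧ z + r = 0 ∧ z = 0) ∨
      (16 ≤ |l71 (z + p) (z + r) z| ∨ (16 - |l71 (z + p) (z + r) z|) ^ 2 ≤ 4 * mm7 (z + p) (z + r) z) ∨
      (16 ≤ |l72 (z + p) (z + r) z| ∨ (16 - |l72 (z + p) (z + r) z|) ^ 2 ≤ 4 * mm7 (z + p) (z + r) z) ∨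
      (16 ≤ |l73 (z + p) (z + r) z| ∨ (16 - |l73 (z + p) (z + r) z|) ^ 2 ≤ 4 * mm7 (z + p) (z + r) z) := by
  decide +kernel

theorem D7e_fin2 : ∀ z ∈ Finset.Icc (-6 : ℤ) 6, ∀ p ∈ Finset.Icc (-6 : ℤ) 6,
    ∀ r ∈ Finset.Icc (-6 : ℤ) 6, |z + p + (z + r) + z| < 7 ∨
      (38416 ≤ 1600 * |l71 (z + p) (z + r) z| ∨
        (38416 - 1600 * |l71 (z + p) (z + r) z|) ^ 2 ≤ 15366400 * mm7 (z + p) (z + r) z) ∨
      (38416 ≤ 1600 * |l72 (z + p) (z + r) z| ∨
        (38416 - 1600 * |l72 (z + p) (z + r) z|) ^ 2 ≤ 15366400 * mm7 (z + p) (z + r) z) ∨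
      (38416 ≤ 1600 * |l73 (z + p) (z + r) z| ∨
        (38416 - 1600 * |l73 (z + p) (z + r) z|) ^ 2 ≤ 15366400 * mm7 (z + p) (z + r) z) := by
  decide +kernel

/-- wide triples have a large coefficient -/
theorem D7e_wide (p r w k : ℤ) (hk : 0 ≤ k) (hw : 2 * k ≤ w + 1)
    (h : w ≤ |p| ∨ w ≤ |r| ∨ w ≤ |p - r|) (_hw0 : 0 ≤ w) :
    w * k ≤ |(p - r) * p| ∨ w * k ≤ |(r - p) * r| ∨ w * k ≤ |p * r| := by
  have e1 : |(p - r) * p| = |p - r| * |p| := abs_mul _ _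
  have e2 : |(r - p) * r| = |p - r| * |r| := by rw [abs_mul, abs_sub_comm]
  have e3 : |p * r| = |p| * |r| := abs_mul _ _
  rw [e1, e2, e3]
  have t1 : |p| ≤ |p - r| + |r| := by
    have := abs_add_le (p - r) r
    rwa [sub_add_cancel] at this
  have t2 : |r| ≤ |p - r| + |p| := by
    have := abs_add_le (r - p) p
    rwa [sub_add_cancel, abs_sub_comm] at this
  have t3 : |p - r| ≤ |p| + |r| := abs_sub p r
  have n1 := abs_nonneg p
  have n2 := abs_nonneg r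
  have n3 := abs_nonneg (p - r)
  generalize |p| = A at *
  generalize |r| = B at *
  generalize |p - r| = C at *
  rcases h with h | h | h
  · by_cases hB : k ≤ B
    · exact Or.inr (Or.inr (mul_le_mul h hB hk n1))
    · left
      have hC : k ≤ C := by omega
      rw [mul_comm C A]
      exact mul_le_mul h hC hk n1
  · by_cases hA : k ≤ A
    · right; right
      rw [mul_comm A B]
      exact mul_le_mul h hA hk n2
    · right; left
      have hC : k ≤ C := by omega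
      rw [mul_comm C B]
      exact mul_le_mul h hC hk n2
  · by_cases hA : k ≤ A
    · exact Or.inl (mul_le_mul h hA hk n3)
    · right; left
      have hB : k ≤ B := by omega
      exact mul_le_mul h hB hk n3

theorem D7e_far (z p r k : ℤ) (hk : 0 ≤ k) (hp : |p| ≤ k) (hr : |r| ≤ k) (hz : k + 1 ≤ |z|) :
    2 * (k + 1) ≤ z * (2 * z + (p + r)) := by
  have h1 : |p + r| ≤ 2 * k := (abs_add_le p r).trans (by linarith)
  have h2 : -(|z| * |p + r|) ≤ z * (p + r) := by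
    rw [← abs_mul]
    exact neg_abs_le _
  have h3 : z * z = |z| * |z| := (abs_mul_abs_self z).symm
  have h4 := abs_nonneg z
  have h5 := abs_nonneg (p + r)
  have h6 : z * (2 * z + (p + r)) = 2 * (z * z) + z * (p + r) := by ring
  rw [h6, h3]
  generalize |z| = Z at *
  generalize |p + r| = Q at *
  nlinarith

theorem E7_generic (x y z : ℤ) (h0 : ¬ (x = 0 ∧ y = 0 ∧ z = 0)) (h : ¬ Sp7 x y z) :
    E7 x y z ≤ 1 := by
  obtain ⟨p, rfl⟩ : ∃ p, x = z + p := ⟨x - z, by ring⟩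
  obtain ⟨r, rfl⟩ : ∃ r, y = z + r := ⟨y - z, by ring⟩
  have e1 : l71 (z + p) (z + r) z = (p - r) * p := by unfold l71; ring
  have e2 : l72 (z + p) (z + r) z = (r - p) * r := by unfold l72; ring
  have e3 : l73 (z + p) (z + r) z = p * r := by unfold l73; ring
  by_cases hw : 6 ≤ |p| ∨ 6 ≤ |r| ∨ 6 ≤ |p - r|
  · rcases D7e_wide p r 6 3 (by norm_num) (by norm_num) hw (by norm_num) with h1 | h1 | h1
    · exact D7e_cond1 _ _ _ h0 _ (Or.inl rfl) (Or.inl (by rw [e1]; linarith))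
    · exact D7e_cond1 _ _ _ h0 _ (Or.inr (Or.inl rfl)) (Or.inl (by rw [e2]; linarith))
    · exact D7e_cond1 _ _ _ h0 _ (Or.inr (Or.inr rfl)) (Or.inl (by rw [e3]; linarith))
  push Not at hw
  obtain ⟨hp, hr, -⟩ := hw
  have hp5 : |p| ≤ 5 := by omega
  have hr5 : |r| ≤ 5 := by omega
  by_cases hz : 6 ≤ |z|
  · refine D7e_cond1 _ _ _ h0 _ (Or.inl rfl) ?_
    by_cases hl : 16 ≤ |l71 (z + p) (z + r) z|
    · exact Or.inl hl
    · right
      have h1 := D7e_far z p r 5 (by norm_num) hp5 hr5 (by linarith)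
      have hp6 := abs_le.1 (hp5.trans (show (5 : ℤ) ≤ 6 by norm_num))
      have hr6 := abs_le.1 (hr5.trans (show (5 : ℤ) ≤ 6 by norm_num))
      have h2 := D7e_rest_nonneg p (Finset.mem_Icc.2 hp6) r (Finset.mem_Icc.2 hr6)
      have h3 := D7e_mm z p r
      have h4 := abs_nonneg (l71 (z + p) (z + r) z)
      generalize |l71 (z + p) (z + r) z| = l at *
      nlinarith
  · have hz5 := abs_le.1 (show |z| ≤ 5 by omega)
    rcases D7e_fin1 z (Finset.mem_Icc.2 hz5) p (Finset.mem_Icc.2 (abs_le.1 hp5)) r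
      (Finset.mem_Icc.2 (abs_le.1 hr5)) with h1 | h1 | h1 | h1 | h1
    · exact absurd h1 h
    · exact absurd h1 h0
    · exact D7e_cond1 _ _ _ h0 _ (Or.inl rfl) h1
    · exact D7e_cond1 _ _ _ h0 _ (Or.inr (Or.inl rfl)) h1
    · exact D7e_cond1 _ _ _ h0 _ (Or.inr (Or.inr rfl)) h1

theorem E7_seven (x y z : ℤ) (h : 7 ≤ |x + y + z|) : E7 x y z ≤ ENNReal.ofReal (82 / 100) := by
  have h0 : ¬ (x = 0 ∧ y = 0 ∧ z = 0) := by
    rintro ⟨rfl, rfl, rfl⟩
    norm_num at h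
  obtain ⟨p, rfl⟩ : ∃ p, x = z + p := ⟨x - z, by ring⟩
  obtain ⟨r, rfl⟩ : ∃ r, y = z + r := ⟨y - z, by ring⟩
  have e1 : l71 (z + p) (z + r) z = (p - r) * p := by unfold l71; ring
  have e2 : l72 (z + p) (z + r) z = (r - p) * r := by unfold l72; ring
  have e3 : l73 (z + p) (z + r) z = p * r := by unfold l73; ring
  by_cases hw : 7 ≤ |p| ∨ 7 ≤ |r| ∨ 7 ≤ |p - r|
  · rcases D7e_wide p r 7 4 (by norm_num) (by norm_num) hw (by norm_num) with h1 | h1 | h1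
    · exact D7e_cond2 _ _ _ h0 _ (Or.inl rfl) (Or.inl (by rw [e1]; linarith))
    · exact D7e_cond2 _ _ _ h0 _ (Or.inr (Or.inl rfl)) (Or.inl (by rw [e2]; linarith))
    · exact D7e_cond2 _ _ _ h0 _ (Or.inr (Or.inr rfl)) (Or.inl (by rw [e3]; linarith))
  push Not at hw
  obtain ⟨hp, hr, -⟩ := hw
  have hp6' : |p| ≤ 6 := by omega
  have hr6' : |r| ≤ 6 := by omega
  have hp6 := abs_le.1 hp6'
  have hr6 := abs_le.1 hr6'
  by_cases hz : 7 ≤ |z|
  · refine D7e_cond2 _ _ _ h0 _ (Or.inl rfl) ?_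
    by_cases hl : 38416 ≤ 1600 * |l71 (z + p) (z + r) z|
    · exact Or.inl hl
    · right
      have h1 := D7e_far z p r 6 (by norm_num) hp6' hr6' (by linarith)
      have h2 := D7e_rest_nonneg p (Finset.mem_Icc.2 hp6) r (Finset.mem_Icc.2 hr6)
      have h3 := D7e_mm z p r
      have h4 := abs_nonneg (l71 (z + p) (z + r) z)
      generalize |l71 (z + p) (z + r) z| = l at *
      nlinarith
  · have hz6 := abs_le.1 (show |z| ≤ 6 by omega)
    rcases D7e_fin2 z (Finset.mem_Icc.2 hz6) p (Finset.mem_Icc.2 hp6) r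
      (Finset.mem_Icc.2 hr6) with h1 | h1 | h1 | h1
    · omega
    · exact D7e_cond2 _ _ _ h0 _ (Or.inl rfl) h1
    · exact D7e_cond2 _ _ _ h0 _ (Or.inr (Or.inl rfl)) h1
    · exact D7e_cond2 _ _ _ h0 _ (Or.inr (Or.inr rfl)) h1

end Pool.Agent.helper49.Slope
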