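import Pool.Agent.helper49.Slope.D7d
import Pool.Agent.helper49.Slope.D7c

/-!
MP_aedd95_co (slope of k-fold hyperplane covers of triangular grids), module D7f.
The law `D_7`: expectations of `1/V` which depend on one digit only.

PROOFS. `E7_cert` with `l` the only nonzero (or the largest) `|l7i|`; `mm7` and `l7i` by
`decide`/`norm_num [mm7, g7, l71, l72, l73]`; then numerical bounds of square roots. The values:
`(1,0,0),(0,1,0),(0,0,1),(1,1,0)`: `m = 9, l = 1`: `16/(3+5) = 2`; `(1,1,1)`: `m = 16, l = 0`: `2`;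
`(2,0,0),(0,2,0),(0,0,2),(2,2,0)`: `m = 36, l = 4`: `1`; `(1,0,1),(0,1,1)`: `m = 17, l = 1`:
`16/(√17+√33)`; `(2,2,1),(1,1,2)`: `m = 41, l = 1`; `(2,1,1),(1,2,1)`: `m = 33, l = 1`;
`(2,1,2),(1,2,2)`: `m = 57, l = 1`; `(0,2,2),(2,0,2)`: `m = 68, l = 4`; `(3,2,2),(2,3,2)`: `m = 89`,
`l = 1`; `(2,2,3)`: `m = 105, l = 1`; `(1,1,-1)`: `m = 20, l = 4`. The mirror images by `E7_swap`.
-/

set_option autoImplicit false

open MeasureTheory ProbabilityTheory
open scoped ENNReal

namespace Pool.Agent.helper49.Slope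

theorem D7f_le (x y z : ℤ) (h : ¬ (x = 0 ∧ y = 0 ∧ z = 0)) (m l : ℤ) (hm : mm7 x y z = m)
    (hl : l = |l71 x y z| ∨ l = |l72 x y z| ∨ l = |l73 x y z|) (α β r : ℝ) (hα : 0 < α)
    (hβ : 0 < β) (h1 : α ^ 2 ≤ m) (h2 : β ^ 2 ≤ m + 16 * l) (h3 : 16 ≤ r * (α + β)) :
    E7 x y z ≤ ENNReal.ofReal r := by
  refine (E7_cert x y z h l hl).trans (ENNReal.ofReal_le_ofReal ?_)
  rw [hm]
  have e1 : α ≤ Real.sqrt m := Real.le_sqrt_of_sq_le h1
  have e2 : β ≤ Real.sqrt (m + 16 * l) := Real.le_sqrt_of_sq_le h2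
  have hr : 0 < r := by
    by_contra hr
    have : r * (α + β) ≤ 0 := mul_nonpos_of_nonpos_of_nonneg (not_lt.1 hr) (by linarith)
    linarith
  rw [div_le_iff₀ (by linarith)]
  exact h3.trans (mul_le_mul_of_nonneg_left (add_le_add e1 e2) hr.le)

theorem E7_100 : E7 1 0 0 ≤ 2 := by
  have h := D7f_le 1 0 0 (by norm_num) 9 1 (by norm_num [mm7, g7, l71, l72, l73])
    (Or.inl (by norm_num [l71])) 3 5 2 (by norm_num) (by norm_num)
    (by norm_num) (by norm_num) (by norm_num)
  simpa using h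

theorem E7_001 : E7 0 0 1 ≤ 2 := by
  have h := D7f_le 0 0 1 (by norm_num) 9 1 (by norm_num [mm7, g7, l71, l72, l73])
    (Or.inr (Or.inr (by norm_num [l73]))) 3 5 2 (by norm_num) (by norm_num)
    (by norm_num) (by norm_num) (by norm_num)
  simpa using h

theorem E7_110 : E7 1 1 0 ≤ 2 := by
  have h := D7f_le 1 1 0 (by norm_num) 9 1 (by norm_num [mm7, g7, l71, l72, l73])
    (Or.inr (Or.inr (by norm_num [l73]))) 3 5 2 (by norm_num) (by norm_num)
    (by norm_num) (by norm_num) (by norm_num)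
  simpa using h

theorem E7_111 : E7 1 1 1 ≤ 2 := by
  have h := D7f_le 1 1 1 (by norm_num) 16 0 (by norm_num [mm7, g7, l71, l72, l73])
    (Or.inl (by norm_num [l71])) 4 4 2 (by norm_num) (by norm_num)
    (by norm_num) (by norm_num) (by norm_num)
  simpa using h

theorem E7_200 : E7 2 0 0 ≤ 1 := by
  have h := D7f_le 2 0 0 (by norm_num) 36 4 (by norm_num [mm7, g7, l71, l72, l73])
    (Or.inl (by norm_num [l71])) 6 10 1 (by norm_num) (by norm_num)
    (by norm_num) (by norm_num) (by norm_num)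
  simpa using h

theorem E7_002 : E7 0 0 2 ≤ 1 := by
  have h := D7f_le 0 0 2 (by norm_num) 36 4 (by norm_num [mm7, g7, l71, l72, l73])
    (Or.inr (Or.inr (by norm_num [l73]))) 6 10 1 (by norm_num) (by norm_num)
    (by norm_num) (by norm_num) (by norm_num)
  simpa using h

theorem E7_220 : E7 2 2 0 ≤ 1 := by
  have h := D7f_le 2 2 0 (by norm_num) 36 4 (by norm_num [mm7, g7, l71, l72, l73])
    (Or.inr (Or.inr (by norm_num [l73]))) 6 10 1 (by norm_num) (by norm_num)
    (by norm_num) (by norm_num) (by norm_num)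
  simpa using h

theorem E7_101 : E7 1 0 1 ≤ ENNReal.ofReal (162146 / 100000) := by
  exact D7f_le 1 0 1 (by norm_num) 17 1 (by norm_num [mm7, g7, l71, l72, l73])
    (Or.inr (Or.inl (by norm_num [l72]))) (824621 / 200000) (2872281 / 500000) _ (by norm_num) (by norm_num)
    (by norm_num) (by norm_num) (by norm_num)

theorem E7_221 : E7 2 2 1 ≤ ENNReal.ofReal (114673 / 100000) := by
  exact D7f_le 2 2 1 (by norm_num) 41 1 (by norm_num [mm7, g7, l71, l72, l73])
    (Or.inr (Or.inr (by norm_num [l73]))) (1600781 / 250000) (3774917 / 500000) _ (by norm_num) (by norm_num)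
    (by norm_num) (by norm_num) (by norm_num)

theorem E7_112 : E7 1 1 2 ≤ ENNReal.ofReal (114673 / 100000) := by
  exact D7f_le 1 1 2 (by norm_num) 41 1 (by norm_num [mm7, g7, l71, l72, l73])
    (Or.inr (Or.inr (by norm_num [l73]))) (1600781 / 250000) (3774917 / 500000) _ (by norm_num) (by norm_num)
    (by norm_num) (by norm_num) (by norm_num)

theorem E7_211 : E7 2 1 1 ≤ ENNReal.ofReal (125544 / 100000) := by
  exact D7f_le 2 1 1 (by norm_num) 33 1 (by norm_num [mm7, g7, l71, l72, l73])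
    (Or.inl (by norm_num [l71])) (2872281 / 500000) 7 _ (by norm_num) (by norm_num)
    (by norm_num) (by norm_num) (by norm_num)

theorem E7_212 : E7 2 1 2 ≤ ENNReal.ofReal (9943 / 10000) := by
  exact D7f_le 2 1 2 (by norm_num) 57 1 (by norm_num [mm7, g7, l71, l72, l73])
    (Or.inr (Or.inl (by norm_num [l72]))) (3774917 / 500000) (8544003 / 1000000) _ (by norm_num) (by norm_num)
    (by norm_num) (by norm_num) (by norm_num)

theorem E7_022 : E7 0 2 2 ≤ ENNReal.ofReal (8108 / 10000) := by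
  exact D7f_le 0 2 2 (by norm_num) 68 4 (by norm_num [mm7, g7, l71, l72, l73])
    (Or.inl (by norm_num [l71])) (8246211 / 1000000) (91913 / 8000) _ (by norm_num) (by norm_num)
    (by norm_num) (by norm_num) (by norm_num)

theorem E7_322 : E7 3 2 2 ≤ ENNReal.ofReal (8130 / 10000) := by
  exact D7f_le 3 2 2 (by norm_num) 89 1 (by norm_num [mm7, g7, l71, l72, l73])
    (Or.inl (by norm_num [l71])) (9433981 / 1000000) (204939 / 20000) _ (by norm_num) (by norm_num)
    (by norm_num) (by norm_num) (by norm_num)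

theorem E7_223 : E7 2 2 3 ≤ ENNReal.ofReal (7531 / 10000) := by
  exact D7f_le 2 2 3 (by norm_num) 105 1 (by norm_num [mm7, g7, l71, l72, l73])
    (Or.inr (Or.inr (by norm_num [l73]))) (204939 / 20000) 11 _ (by norm_num) (by norm_num)
    (by norm_num) (by norm_num) (by norm_num)

theorem E7_11m1 : E7 1 1 (-1) ≤ ENNReal.ofReal (117327 / 100000) := by
  exact D7f_le 1 1 (-1) (by norm_num) 20 4 (by norm_num [mm7, g7, l71, l72, l73])
    (Or.inr (Or.inr (by norm_num [l73]))) (894427 / 200000) (9165151 / 1000000) _ (by norm_num) (by norm_num)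
    (by norm_num) (by norm_num) (by norm_num)

end Pool.Agent.helper49.Slope
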