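import Pool.Agent.helper49.Slope.D7z
import Pool.Agent.helper49.Slope.D6d

/-!
MP_aedd95_co (slope of k-fold hyperplane covers of triangular grids), module D7f2.
The law `D_7`: expectations of `1/V` with two digits.

PROOFS. `(2,1,-1)`: `W7 = 3q₁ - 2q₂ + 6q₃ - 3/8 ≥ 3q₁ + 6q₃ - 74/64`; `(2,0,-1)`: `6q₁ - 2q₂ + 3q₃
- 1/4 ≥ 6q₁ + 3q₃ - 66/64`; `(1,0,-2)`: `3q₁ - 2q₂ + 6q₃ - 1/4 ≥ 3 q₁ + 6 q₃ - 66/64`; `(3,1,-1)` and
`(2,0,-2)`: `8q₁ - 4q₂ + 8q₃ - 1/2 ≥ 8q₁ + 8q₃ - 132/64`. The two digits `(s₁,s₃)` have the law `lam2`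
(`lint7_m13`), `lam_inv_sqrt_two` with `τ = 1/8`, then rational bounds of the four square roots as in
D6d (`D6d_lo`, `D6d_hi`). Values: `0.97411`, `0.9109`, `0.9109`, `0.7266`.
Radicands times 64: `A=-74, (L,M)=(3,6)`: `151, 7, 103, 55`... i.e. `-74+75+150 = 151`,
`-74+75+54 = 55`, `-74+27+150 = 103`, `-74+27+54 = 7`. `A=-66`: `159, 63, 111, 15`.
`A=-132, L=M=8`: `268, 140, 140, 12`.
-/

set_option autoImplicit false

open MeasureTheory ProbabilityTheory
open scoped ENNReal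

namespace Pool.Agent.helper49.Slope

theorem D7f2_gen (x y z : ℤ) (A L M : ℝ) (hL : L ≠ 0) (hM : M ≠ 0)
    (hW : ∀ s, R7 s → A + L * (1 / 2 + s.1) ^ 2 + M * (1 / 2 + s.2.2) ^ 2 ≤ W7 x y z s)
    (hp : ∀ x y : ℝ, 9 / 64 ≤ x → x ≤ 25 / 64 → 9 / 64 ≤ y → y ≤ 25 / 64 →
      0 < A + L * x + M * y) (a b c d C : ℝ)
    (ha : a = A + L * (25 / 64) + M * (25 / 64))
    (hb : b = A + L * (25 / 64) + M * (9 / 64))
    (hc : c = A + L * (9 / 64) + M * (25 / 64))
    (hd : d = A + L * (9 / 64) + M * (9 / 64))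
    (hC : (a * Real.sqrt a - b * Real.sqrt b - c * Real.sqrt c + d * Real.sqrt d)
      / (3 * L * M * (1 / 8) ^ 2) ≤ C) :
    E7 x y z ≤ ENNReal.ofReal C := by
  have hg : Measurable (fun p : ℝ × ℝ => ENNReal.ofReal
      (1 / Real.sqrt (A + L * (1 / 2 + p.1) ^ 2 + M * (1 / 2 + p.2) ^ 2))) := by fun_prop
  have h0 : E7 x y z ≤ ∫⁻ p, ENNReal.ofReal
      (1 / Real.sqrt (A + L * (1 / 2 + p.1) ^ 2 + M * (1 / 2 + p.2) ^ 2)) ∂lam2 := by
    rw [← lint7_m13 _ hg, E7]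
    refine lintegral_mono_ae ?_
    filter_upwards [lam3_ae] with s hs
    rw [I7]
    apply ENNReal.ofReal_le_ofReal
    have h1 := D6d_bd hs.1
    have h3 := D6d_bd hs.2.2
    have hpos := hp _ _ h1.1 h1.2 h3.1 h3.2
    exact one_div_le_one_div_of_le (Real.sqrt_pos.2 hpos) (Real.sqrt_le_sqrt (hW s hs))
  refine h0.trans ?_
  have h1 := lam_inv_sqrt_two (τ := 1 / 8) (by norm_num) (by norm_num) A L M hL hM
    (fun s t hs ht => hp _ _ (D6d_bd hs).1 (D6d_bd hs).2 (D6d_bd ht).1 (D6d_bd ht).2)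
    (fun x y => (A + L * x ^ 2 + M * y ^ 2) * Real.sqrt (A + L * x ^ 2 + M * y ^ 2))
    (fun _ _ => rfl)
  rw [h1]
  apply ENNReal.ofReal_le_ofReal
  refine le_trans (le_of_eq ?_) hC
  have e1 : ((1 / 2 : ℝ) + 1 / 8) ^ 2 = 25 / 64 := by norm_num
  have e2 : ((1 / 2 : ℝ) - 1 / 8) ^ 2 = 9 / 64 := by norm_num
  simp only [e1, e2, ← ha, ← hb, ← hc, ← hd]

theorem E7_21m1 : E7 2 1 (-1) ≤ ENNReal.ofReal (975 / 1000) := by
  refine D7f2_gen 2 1 (-1) (-74 / 64) 3 6 (by norm_num) (by norm_num)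
    (fun s hs => by rw [W7]; push_cast; linarith [(D6d_bd hs.2.1).2])
    (fun x y h1 h2 h3 h4 => by linarith)
    (151 / 64) (55 / 64) (103 / 64) (7 / 64) _ (by norm_num) (by norm_num) (by norm_num)
    (by norm_num) ?_
  have h1 := D6d_hi (x := 15361 / 10000) (y := 151 / 64) (by norm_num) (by norm_num)
  have h2 := D6d_lo (x := 9270 / 10000) (y := 55 / 64) (by norm_num) (by norm_num)
  have h3 := D6d_lo (x := 12686 / 10000) (y := 103 / 64) (by norm_num) (by norm_num)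
  have h4 := D6d_hi (x := 3308 / 10000) (y := 7 / 64) (by norm_num) (by norm_num)
  rw [div_le_iff₀ (by norm_num)]
  linarith

theorem E7_20m1 : E7 2 0 (-1) ≤ ENNReal.ofReal (92 / 100) := by
  refine D7f2_gen 2 0 (-1) (-66 / 64) 6 3 (by norm_num) (by norm_num)
    (fun s hs => by rw [W7]; push_cast; linarith [(D6d_bd hs.2.1).2])
    (fun x y h1 h2 h3 h4 => by linarith)
    (159 / 64) (111 / 64) (63 / 64) (15 / 64) _ (by norm_num) (by norm_num) (by norm_num)
    (by norm_num) ?_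
  have h1 := D6d_hi (x := 15762 / 10000) (y := 159 / 64) (by norm_num) (by norm_num)
  have h2 := D6d_lo (x := 13169 / 10000) (y := 111 / 64) (by norm_num) (by norm_num)
  have h3 := D6d_lo (x := 9921 / 10000) (y := 63 / 64) (by norm_num) (by norm_num)
  have h4 := D6d_hi (x := 4842 / 10000) (y := 15 / 64) (by norm_num) (by norm_num)
  rw [div_le_iff₀ (by norm_num)]
  linarith

theorem E7_10m2 : E7 1 0 (-2) ≤ ENNReal.ofReal (92 / 100) := by
  refine D7f2_gen 1 0 (-2) (-66 / 64) 3 6 (by norm_num) (by norm_num)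
    (fun s hs => by rw [W7]; push_cast; linarith [(D6d_bd hs.2.1).2])
    (fun x y h1 h2 h3 h4 => by linarith)
    (159 / 64) (63 / 64) (111 / 64) (15 / 64) _ (by norm_num) (by norm_num) (by norm_num)
    (by norm_num) ?_
  have h1 := D6d_hi (x := 15762 / 10000) (y := 159 / 64) (by norm_num) (by norm_num)
  have h2 := D6d_lo (x := 13169 / 10000) (y := 111 / 64) (by norm_num) (by norm_num)
  have h3 := D6d_lo (x := 9921 / 10000) (y := 63 / 64) (by norm_num) (by norm_num)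
  have h4 := D6d_hi (x := 4842 / 10000) (y := 15 / 64) (by norm_num) (by norm_num)
  rw [div_le_iff₀ (by norm_num)]
  linarith

theorem E7_31m1 : E7 3 1 (-1) ≤ ENNReal.ofReal (73 / 100) := by
  refine D7f2_gen 3 1 (-1) (-132 / 64) 8 8 (by norm_num) (by norm_num)
    (fun s hs => by rw [W7]; push_cast; linarith [(D6d_bd hs.2.1).2])
    (fun x y h1 h2 h3 h4 => by linarith)
    (268 / 64) (140 / 64) (140 / 64) (12 / 64) _ (by norm_num) (by norm_num) (by norm_num)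
    (by norm_num) ?_
  have h1 := D6d_hi (x := 20464 / 10000) (y := 268 / 64) (by norm_num) (by norm_num)
  have h2 := D6d_lo (x := 14790 / 10000) (y := 140 / 64) (by norm_num) (by norm_num)
  have h4 := D6d_hi (x := 4331 / 10000) (y := 12 / 64) (by norm_num) (by norm_num)
  rw [div_le_iff₀ (by norm_num)]
  linarith

theorem E7_20m2 : E7 2 0 (-2) ≤ ENNReal.ofReal (73 / 100) := by
  refine D7f2_gen 2 0 (-2) (-132 / 64) 8 8 (by norm_num) (by norm_num)
    (fun s hs => by rw [W7]; push_cast; linarith [(D6d_bd hs.2.1).2])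
    (fun x y h1 h2 h3 h4 => by linarith)
    (268 / 64) (140 / 64) (140 / 64) (12 / 64) _ (by norm_num) (by norm_num) (by norm_num)
    (by norm_num) ?_
  have h1 := D6d_hi (x := 20464 / 10000) (y := 268 / 64) (by norm_num) (by norm_num)
  have h2 := D6d_lo (x := 14790 / 10000) (y := 140 / 64) (by norm_num) (by norm_num)
  have h4 := D6d_hi (x := 4331 / 10000) (y := 12 / 64) (by norm_num) (by norm_num)
  rw [div_le_iff₀ (by norm_num)]
  linarith

end Pool.Agent.helper49.Slope
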