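import Pool.Agent.helper49.Slope.D7c
import Pool.Agent.helper49.Slope.D7z

/-!
MP_aedd95_co (slope of k-fold hyperplane covers of triangular grids), module D7g.
The law `D_7`: expectations of `1/V` with three digits.

PROOFS. `T7 A = E 1/√(A + 2q₁ + 2q₂ - q₃)`, `q_i = (1/2+s_i)²`. For `A + 27/64... > 0` (`A ≥ -1/8`: the
radicand is `≥ A + 36/64 - 25/64 > 0`)
`T7 A = (512/(15·2·2·(-1))) ∑ ± F(..)`, `F = (A + 2x + 2y - z)^{5/2}` at the 8 corners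
`x,y,z ∈ {9/64, 25/64}`, sign `+` if the number of `9/64` is even. Proof: three successive one-digit
integrals by `J1_key` (`τ = 1/8`, density `(1/2+s)/τ`): `∫ 1/√(B + L c²) = (8/L)(√(B+25L/64)-√(B+9L/64))`,
`∫ √(B + L c²) ↦ (8/(3L)) (..)^{3/2}`, `∫ (..)^{3/2} ↦ (8/(5L)) (..)^{5/2}`; write `x^{3/2} = x √x`,
`x^{5/2} = x² √x`; nonnegativity of the intermediate real functions is the second part of `J1_key`
(the integral of a nonnegative function). One-sided bound `≤` is enough. Radicands times 64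
(`A = 0`): `75, 91, 43, 59, 43, 59, 11, 27` for `(25,25,25), (25,25,9), (25,9,25), (25,9,9), (9,25,25),
(9,25,9), (9,9,25), (9,9,9)`; `A = -1/8`: subtract 8; `A = 1/4`: add 16.
Values: `T7 0 = 1.15671`, `T7 (-1/8) = 1.28136`, `T7 (1/4) = 0.99445`.
The patterns: `W7 1 (-1) 0 = 2q₁+2q₂-q₃`, `W7 2 1 0 = 2q₁-q₂+2q₃`, `W7 1 0 (-1) = 2q₁-q₂+2q₃-1/8`,
`W7 2 0 1 = 2q₁+2q₂-q₃+1/4`, `W7 1 0 2 = -q₁+2q₂+2q₃+1/4`, `W7 0 1 2 = 2q₁-q₂+2q₃+1/4`; permute the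
digits (`lint7_swap12`, `lint7_swap23`, `lint7_swap13`).
-/

set_option autoImplicit false

open MeasureTheory ProbabilityTheory
open scoped ENNReal

namespace Pool.Agent.helper49.Slope

noncomputable def T7 (A : ℝ) : ℝ≥0∞ :=
  ∫⁻ s, ENNReal.ofReal (1 / Real.sqrt (A + 2 * (1 / 2 + s.1) ^ 2 + 2 * (1 / 2 + s.2.1) ^ 2
    - (1 / 2 + s.2.2) ^ 2)) ∂lam3

theorem D7g_nn {p q r : ℝ} (hp : 0 ≤ p) (hq : 0 ≤ q) (hr : 0 ≤ r) (h : p * p + r * r = 2 * (q * q)) :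
    0 ≤ p * p * p - 2 * (q * q * q) + r * r * r := by
  have h1 : 0 ≤ (p - q) ^ 2 * (p + q / 2) := by positivity
  have h2 : 0 ≤ (r - q) ^ 2 * (r + q / 2) := by positivity
  have h3 : p * p * p - 2 * (q * q * q) + r * r * r =
      (p - q) ^ 2 * (p + q / 2) + (r - q) ^ 2 * (r + q / 2)
        + 3 / 2 * q * (p * p + r * r - 2 * (q * q)) := by ring
  rw [h3, h]
  nlinarith

/-- derivative of `X^(5/2)`, `X = K - (1/2+s)²` -/
theorem D7g_der (K s : ℝ) (hs : 0 < K - (1 / 2 + s) ^ 2) :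
    HasDerivAt (fun s : ℝ => (K - (1 / 2 + s) ^ 2) ^ 2 * Real.sqrt (K - (1 / 2 + s) ^ 2))
      (-(5 * (1 / 2 + s) * ((K - (1 / 2 + s) ^ 2) * Real.sqrt (K - (1 / 2 + s) ^ 2)))) s := by
  have h2 : HasDerivAt (fun s : ℝ => K - (1 / 2 + s) ^ 2) (-(2 * (1 / 2 + s))) s := by
    have h3 := (((hasDerivAt_id s).const_add (1 / 2)).pow 2).const_sub K
    refine h3.congr_deriv ?_
    simp
  have h4 := (h2.pow 2).mul (h2.sqrt hs.ne')
  refine h4.congr_deriv ?_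
  have h5 := Real.sqrt_pos.2 hs
  have h6 := Real.mul_self_sqrt hs.le
  simp only [Pi.pow_apply]
  set x := Real.sqrt (K - (1 / 2 + s) ^ 2) with hx
  rw [← h6]
  field_simp
  ring

theorem D7g_main (A : ℝ) (hA : -(1 / 8) ≤ A) (H : ℝ → ℝ) (hH : ∀ x, H x = x ^ 2 * Real.sqrt x) :
    T7 A = ENNReal.ofReal (128 / 15 * ((H (A + 91 / 64) - 2 * H (A + 59 / 64) + H (A + 27 / 64))
      - (H (A + 75 / 64) - 2 * H (A + 43 / 64) + H (A + 11 / 64)))) := by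
  unfold T7
  have hm : Measurable (fun s : ℝ × ℝ × ℝ => ENNReal.ofReal (1 / Real.sqrt (A + 2 * (1 / 2 + s.1) ^ 2
      + 2 * (1 / 2 + s.2.1) ^ 2 - (1 / 2 + s.2.2) ^ 2))) := by fun_prop
  rw [lint7_o3 _ hm]
  have hsq : ∀ s : ℝ, |s| ≤ 1 / 8 → (1 / 2 + s) ^ 2 ≤ 25 / 64 := by
    intro s hs
    rw [abs_le] at hs
    nlinarith [hs.1, hs.2]
  have hsq' : ∀ s : ℝ, |s| ≤ 1 / 8 → 9 / 64 ≤ (1 / 2 + s) ^ 2 := by
    intro s hs
    rw [abs_le] at hs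
    nlinarith [hs.1, hs.2]
  set g : ℝ → ℝ := fun s => 16 / 3 *
    ((A + 100 / 64 - (1 / 2 + s) ^ 2) * Real.sqrt (A + 100 / 64 - (1 / 2 + s) ^ 2)
      - 2 * ((A + 68 / 64 - (1 / 2 + s) ^ 2) * Real.sqrt (A + 68 / 64 - (1 / 2 + s) ^ 2))
      + (A + 36 / 64 - (1 / 2 + s) ^ 2) * Real.sqrt (A + 36 / 64 - (1 / 2 + s) ^ 2)) with hg
  have e1 : ∫⁻ s, (∫⁻ p, ENNReal.ofReal (1 / Real.sqrt (A + 2 * (1 / 2 + (p.1, p.2, s).1) ^ 2
      + 2 * (1 / 2 + (p.1, p.2, s).2.1) ^ 2 - (1 / 2 + (p.1, p.2, s).2.2) ^ 2)) ∂lam2)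
        ∂(lam (1 / 8)) = ∫⁻ s, ENNReal.ofReal (g s) ∂(lam (1 / 8)) := by
    refine lintegral_congr_ae ?_
    filter_upwards [lam_ae (1 / 8)] with s hs
    have h := lam_inv_sqrt_two (τ := 1 / 8) (by norm_num) (by norm_num)
      (A - (1 / 2 + s) ^ 2) 2 2 (by norm_num) (by norm_num) (by
        intro x y hx hy
        have h1 := hsq s hs
        have h2 := hsq' x hx
        have h3 := hsq' y hy
        linarith) (fun x y => (A - (1 / 2 + s) ^ 2 + 2 * x ^ 2 + 2 * y ^ 2)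
          * Real.sqrt (A - (1 / 2 + s) ^ 2 + 2 * x ^ 2 + 2 * y ^ 2)) (fun _ _ => rfl)
    have h2 : (fun p : ℝ × ℝ => ENNReal.ofReal (1 / Real.sqrt (A + 2 * (1 / 2 + (p.1, p.2, s).1) ^ 2
      + 2 * (1 / 2 + (p.1, p.2, s).2.1) ^ 2 - (1 / 2 + (p.1, p.2, s).2.2) ^ 2)))
      = fun q : ℝ × ℝ => ENNReal.ofReal (1 / Real.sqrt (A - (1 / 2 + s) ^ 2 + 2 * (1 / 2 + q.1) ^ 2
        + 2 * (1 / 2 + q.2) ^ 2)) := by
      funext p
      congr 3
      simp only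
      ring
    rw [h2, h, hg]
    congr 1
    simp only
    rw [show A - (1 / 2 + s) ^ 2 + 2 * (1 / 2 + 1 / 8) ^ 2 + 2 * (1 / 2 + 1 / 8) ^ 2
        = A + 100 / 64 - (1 / 2 + s) ^ 2 by ring,
      show A - (1 / 2 + s) ^ 2 + 2 * (1 / 2 + 1 / 8) ^ 2 + 2 * (1 / 2 - 1 / 8) ^ 2
        = A + 68 / 64 - (1 / 2 + s) ^ 2 by ring,
      show A - (1 / 2 + s) ^ 2 + 2 * (1 / 2 - 1 / 8) ^ 2 + 2 * (1 / 2 + 1 / 8) ^ 2
        = A + 68 / 64 - (1 / 2 + s) ^ 2 by ring,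
      show A - (1 / 2 + s) ^ 2 + 2 * (1 / 2 - 1 / 8) ^ 2 + 2 * (1 / 2 - 1 / 8) ^ 2
        = A + 36 / 64 - (1 / 2 + s) ^ 2 by ring]
    ring
  rw [e1]
  have hpos : ∀ (K s : ℝ), 36 / 64 ≤ K → s ∈ Set.Icc (-(1 / 8) : ℝ) (1 / 8) →
      0 < A + K - (1 / 2 + s) ^ 2 := by
    intro K s hK hs
    have h1 := hsq s (abs_le.2 hs)
    linarith
  rw [(J1_key (τ := 1 / 8) (by norm_num) (by norm_num) g
    (fun s => -(128 / 15) *
      ((A + 100 / 64 - (1 / 2 + s) ^ 2) ^ 2 * Real.sqrt (A + 100 / 64 - (1 / 2 + s) ^ 2)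
      - 2 * ((A + 68 / 64 - (1 / 2 + s) ^ 2) ^ 2 * Real.sqrt (A + 68 / 64 - (1 / 2 + s) ^ 2))
      + (A + 36 / 64 - (1 / 2 + s) ^ 2) ^ 2 * Real.sqrt (A + 36 / 64 - (1 / 2 + s) ^ 2)))
    (by rw [hg]; fun_prop) (by rw [hg]; exact Continuous.continuousOn (by fun_prop))
    (fun s hs => by
      rw [hg]
      simp only
      have h1 := hpos (100 / 64) s (by norm_num) hs
      have h2 := hpos (68 / 64) s (by norm_num) hs
      have h3 := hpos (36 / 64) s (by norm_num) hs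
      have k1 := Real.mul_self_sqrt h1.le
      have k2 := Real.mul_self_sqrt h2.le
      have k3 := Real.mul_self_sqrt h3.le
      have hn := D7g_nn (Real.sqrt_nonneg (A + 100 / 64 - (1 / 2 + s) ^ 2))
        (Real.sqrt_nonneg (A + 68 / 64 - (1 / 2 + s) ^ 2))
        (Real.sqrt_nonneg (A + 36 / 64 - (1 / 2 + s) ^ 2)) (by rw [k1, k2, k3]; ring)
      rw [k1, k2, k3] at hn
      linarith)
    (fun s hs => by
      have h1 := D7g_der _ s (hpos (100 / 64) s (by norm_num) hs)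
      have h2 := D7g_der _ s (hpos (68 / 64) s (by norm_num) hs)
      have h3 := D7g_der _ s (hpos (36 / 64) s (by norm_num) hs)
      have h4 := ((h1.sub (h2.const_mul 2)).add h3).const_mul (-(128 / 15))
      refine h4.congr_deriv ?_
      rw [hg]
      ring)).1]
  congr 1
  simp only [hH]
  rw [show A + 100 / 64 - (1 / 2 + 1 / 8) ^ 2 = A + 75 / 64 by ring,
    show A + 68 / 64 - (1 / 2 + 1 / 8) ^ 2 = A + 43 / 64 by ring,
    show A + 36 / 64 - (1 / 2 + 1 / 8) ^ 2 = A + 11 / 64 by ring,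
    show A + 100 / 64 - (1 / 2 + -(1 / 8)) ^ 2 = A + 91 / 64 by ring,
    show A + 68 / 64 - (1 / 2 + -(1 / 8)) ^ 2 = A + 59 / 64 by ring,
    show A + 36 / 64 - (1 / 2 + -(1 / 8)) ^ 2 = A + 27 / 64 by ring]
  ring

theorem D7g_up (x y : ℝ) (hy : 0 ≤ y) (h : x ≤ y ^ 2) : Real.sqrt x ≤ y :=
  Real.sqrt_le_iff.2 ⟨hy, h⟩

theorem D7g_lo (x y : ℝ) (h : y ^ 2 ≤ x) : y ≤ Real.sqrt x := Real.le_sqrt_of_sq_le h

theorem T7_0 : T7 0 ≤ ENNReal.ofReal (11568 / 10000) := by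
  rw [D7g_main 0 (by norm_num) (fun x => x ^ 2 * Real.sqrt x) (fun _ => rfl)]
  refine ENNReal.ofReal_le_ofReal ?_
  have h0 := D7g_up (0 + 91 / 64) (47697 / 40000) (by norm_num) (by norm_num)
  have h1 := D7g_lo (0 + 59 / 64) (960143 / 1000000) (by norm_num)
  have h2 := D7g_up (0 + 27 / 64) (8119 / 12500) (by norm_num) (by norm_num)
  have h3 := D7g_lo (0 + 75 / 64) (1082531 / 1000000) (by norm_num)
  have h4 := D7g_up (0 + 43 / 64) (5123 / 6250) (by norm_num) (by norm_num)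
  have h5 := D7g_lo (0 + 11 / 64) (207289 / 500000) (by norm_num)

  rw [show (0 + 91 / 64 : ℝ) = 91 / 64 by norm_num] at h0 ⊢
  rw [show (0 + 59 / 64 : ℝ) = 59 / 64 by norm_num] at h1 ⊢
  rw [show (0 + 27 / 64 : ℝ) = 27 / 64 by norm_num] at h2 ⊢
  rw [show (0 + 75 / 64 : ℝ) = 75 / 64 by norm_num] at h3 ⊢
  rw [show (0 + 43 / 64 : ℝ) = 43 / 64 by norm_num] at h4 ⊢
  rw [show (0 + 11 / 64 : ℝ) = 11 / 64 by norm_num] at h5 ⊢
  linarith

theorem T7_8 : T7 (-(1 / 8)) ≤ ENNReal.ofReal (12815 / 10000) := by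
  rw [D7g_main (-(1 / 8)) (by norm_num) (fun x => x ^ 2 * Real.sqrt x) (fun _ => rfl)]
  refine ENNReal.ofReal_le_ofReal ?_
  have h0 := D7g_up ((-(1 / 8)) + 91 / 64) (227761 / 200000) (by norm_num) (by norm_num)
  have h1 := D7g_lo ((-(1 / 8)) + 59 / 64) (446339 / 500000) (by norm_num)
  have h2 := D7g_up ((-(1 / 8)) + 27 / 64) (544863 / 1000000) (by norm_num) (by norm_num)
  have h3 := D7g_lo ((-(1 / 8)) + 75 / 64) (1023169 / 1000000) (by norm_num)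
  have h4 := D7g_up ((-(1 / 8)) + 43 / 64) (73951 / 100000) (by norm_num) (by norm_num)
  have h5 := D7g_lo ((-(1 / 8)) + 11 / 64) (108253 / 500000) (by norm_num)

  rw [show ((-(1 / 8)) + 91 / 64 : ℝ) = 83 / 64 by norm_num] at h0 ⊢
  rw [show ((-(1 / 8)) + 59 / 64 : ℝ) = 51 / 64 by norm_num] at h1 ⊢
  rw [show ((-(1 / 8)) + 27 / 64 : ℝ) = 19 / 64 by norm_num] at h2 ⊢
  rw [show ((-(1 / 8)) + 75 / 64 : ℝ) = 67 / 64 by norm_num] at h3 ⊢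
  rw [show ((-(1 / 8)) + 43 / 64 : ℝ) = 35 / 64 by norm_num] at h4 ⊢
  rw [show ((-(1 / 8)) + 11 / 64 : ℝ) = 3 / 64 by norm_num] at h5 ⊢
  linarith

theorem T7_4 : T7 (1 / 4) ≤ ENNReal.ofReal (9946 / 10000) := by
  rw [D7g_main (1 / 4) (by norm_num) (fun x => x ^ 2 * Real.sqrt x) (fun _ => rfl)]
  refine ENNReal.ofReal_le_ofReal ?_
  have h0 := D7g_up ((1 / 4) + 91 / 64) (1293011 / 1000000) (by norm_num) (by norm_num)
  have h1 := D7g_lo ((1 / 4) + 59 / 64) (1082531 / 1000000) (by norm_num)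
  have h2 := D7g_up ((1 / 4) + 27 / 64) (5123 / 6250) (by norm_num) (by norm_num)
  have h3 := D7g_lo ((1 / 4) + 75 / 64) (149053 / 125000) (by norm_num)
  have h4 := D7g_up ((1 / 4) + 43 / 64) (60009 / 62500) (by norm_num) (by norm_num)
  have h5 := D7g_lo ((1 / 4) + 11 / 64) (649519 / 1000000) (by norm_num)

  rw [show ((1 / 4) + 91 / 64 : ℝ) = 107 / 64 by norm_num] at h0 ⊢
  rw [show ((1 / 4) + 59 / 64 : ℝ) = 75 / 64 by norm_num] at h1 ⊢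
  rw [show ((1 / 4) + 27 / 64 : ℝ) = 43 / 64 by norm_num] at h2 ⊢
  rw [show ((1 / 4) + 75 / 64 : ℝ) = 91 / 64 by norm_num] at h3 ⊢
  rw [show ((1 / 4) + 43 / 64 : ℝ) = 59 / 64 by norm_num] at h4 ⊢
  rw [show ((1 / 4) + 11 / 64 : ℝ) = 27 / 64 by norm_num] at h5 ⊢
  linarith

theorem D7g_T7m (A : ℝ) : Measurable (fun s : ℝ × ℝ × ℝ => ENNReal.ofReal
    (1 / Real.sqrt (A + 2 * (1 / 2 + s.1) ^ 2 + 2 * (1 / 2 + s.2.1) ^ 2
      - (1 / 2 + s.2.2) ^ 2))) := by fun_prop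

theorem E7_1m10 : E7 1 (-1) 0 ≤ ENNReal.ofReal (11568 / 10000) := by
  refine le_trans (le_of_eq ?_) T7_0
  unfold E7 T7 I7 W7
  refine lintegral_congr fun s => ?_
  congr 3
  push_cast
  ring

theorem E7_210 : E7 2 1 0 ≤ ENNReal.ofReal (11568 / 10000) := by
  refine le_trans (le_of_eq ?_) T7_0
  unfold E7 T7 I7 W7
  rw [← lint7_swap23 _ (D7g_T7m 0)]
  refine lintegral_congr fun s => ?_
  congr 3
  push_cast
  ring

theorem E7_10m1 : E7 1 0 (-1) ≤ ENNReal.ofReal (12815 / 10000) := by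
  refine le_trans (le_of_eq ?_) T7_8
  unfold E7 T7 I7 W7
  rw [← lint7_swap23 _ (D7g_T7m (-(1 / 8)))]
  refine lintegral_congr fun s => ?_
  congr 3
  push_cast
  ring

theorem E7_201 : E7 2 0 1 ≤ ENNReal.ofReal (9946 / 10000) := by
  refine le_trans (le_of_eq ?_) T7_4
  unfold E7 T7 I7 W7
  refine lintegral_congr fun s => ?_
  congr 3
  push_cast
  ring

theorem E7_102 : E7 1 0 2 ≤ ENNReal.ofReal (9946 / 10000) := by
  refine le_trans (le_of_eq ?_) T7_4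
  unfold E7 T7 I7 W7
  rw [← lint7_swap13 _ (D7g_T7m (1 / 4))]
  refine lintegral_congr fun s => ?_
  congr 3
  push_cast
  ring

end Pool.Agent.helper49.Slope
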