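import Pool.Agent.helper49.Slope.D7z

/-!
MP_aedd95_co (slope of k-fold hyperplane covers of triangular grids), module D7h.
The law `D_7`: tails of a sum of two digits.

PROOFS. `lam3_set*`: apply `lint7_m*` (D7z) to the indicator of the set.
`sig7_pos`: with `u_i = 1/8 - s_i ∈ [0,1/4]` (density `8 (5/8 - u)` on `[0,1/4]`), `h = 1/4 - t ≤ 1/4`:
`P(u₁+u₂ ≤ h) = ∫_{0≤u₁≤h} 8(5/8-u₁) ∫_{0≤u₂≤h-u₁} 8(5/8-u₂)` `= (25/2)h² - (40/3)h³ + (8/3)h⁴`. In Lean: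
`lintegral_prod`-type formula `lam2 S = ∫⁻ s₁, lam (1/8) {s₂ | t - s₁ ≤ s₂} ∂lam`, inner by `lam_tail`
(for `-1/8 ≤ t - s₁ ≤ 1/8`; it is `0` if `t - s₁ > 1/8` and `1` if `t - s₁ < -1/8`), outer by
`J1_ftc`/`J1_lint` (polynomial). `sig7_neg`: the complement with `u_i = 1/8 + s_i`, density `8(3/8+u)`:
`P(u₁+u₂ < k) = (9/2)k² + 8k³ + (8/3)k⁴`, `k = 1/4 + t` (points have measure `0`: `D6e_lam_singleton`
is not needed if one works with `<` and `≤` separately; `s₁ + s₂ = t` is a null set).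
`sig7_lin`: polynomial inequalities: for `0 ≤ h ≤ 1/4`:
`(25/2)h² - (40/3)h³ + (8/3)h⁴ ≤ 0.631 - 2.5(1/4 - h) = 0.006 + 2.5h`; for `0 ≤ k ≤ 1/4`:
`1 - (9/2)k² - 8k³ - (8/3)k⁴ ≤ 0.631 - 2.5(k - 1/4) = 1.256 - 2.5 k`.
`sig7_18`: `h = 1/8`: `0.16992..`. `sig7_05625`: `h = 0.19375`: `0.37602..`.
-/

set_option autoImplicit false

open MeasureTheory ProbabilityTheory
open scoped ENNReal

namespace Pool.Agent.helper49.Slope

theorem D7h_ind {α : Type*} [MeasurableSpace α] (μ : Measure α) (S : Set α)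
    (hS : MeasurableSet S) : ∫⁻ x, S.indicator (fun _ => (1 : ℝ≥0∞)) x ∂μ = μ S := by
  rw [lintegral_indicator hS, lintegral_const, one_mul, Measure.restrict_apply MeasurableSet.univ,
    Set.univ_inter]

theorem D7h_meas {α : Type*} [MeasurableSpace α] (S : Set α) (hS : MeasurableSet S) :
    Measurable (S.indicator (fun _ => (1 : ℝ≥0∞))) := measurable_const.indicator hS

theorem lam3_set1 (S : Set ℝ) (hS : MeasurableSet S) :
    lam3 {s | s.1 ∈ S} = lam (1 / 8) S := by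
  have hS' : MeasurableSet {s : ℝ × ℝ × ℝ | s.1 ∈ S} := hS.preimage (by fun_prop)
  rw [← D7h_ind lam3 _ hS', ← D7h_ind (lam (1 / 8)) S hS, ← lint7_m1 _ (D7h_meas S hS)]
  rfl

theorem lam3_set2 (S : Set ℝ) (hS : MeasurableSet S) :
    lam3 {s | s.2.1 ∈ S} = lam (1 / 8) S := by
  have hS' : MeasurableSet {s : ℝ × ℝ × ℝ | s.2.1 ∈ S} := hS.preimage (by fun_prop)
  rw [← D7h_ind lam3 _ hS', ← D7h_ind (lam (1 / 8)) S hS, ← lint7_m2 _ (D7h_meas S hS)]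
  rfl

theorem lam3_set3 (S : Set ℝ) (hS : MeasurableSet S) :
    lam3 {s | s.2.2 ∈ S} = lam (1 / 8) S := by
  have hS' : MeasurableSet {s : ℝ × ℝ × ℝ | s.2.2 ∈ S} := hS.preimage (by fun_prop)
  rw [← D7h_ind lam3 _ hS', ← D7h_ind (lam (1 / 8)) S hS, ← lint7_m3 _ (D7h_meas S hS)]
  rfl

theorem lam3_set12 (S : Set (ℝ × ℝ)) (hS : MeasurableSet S) :
    lam3 {s | (s.1, s.2.1) ∈ S} = lam2 S := by
  have hS' : MeasurableSet {s : ℝ × ℝ × ℝ | (s.1, s.2.1) ∈ S} := hS.preimage (by fun_prop)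
  rw [← D7h_ind lam3 _ hS', ← D7h_ind lam2 S hS, ← lint7_m12 _ (D7h_meas S hS)]
  rfl

theorem lam3_set13 (S : Set (ℝ × ℝ)) (hS : MeasurableSet S) :
    lam3 {s | (s.1, s.2.2) ∈ S} = lam2 S := by
  have hS' : MeasurableSet {s : ℝ × ℝ × ℝ | (s.1, s.2.2) ∈ S} := hS.preimage (by fun_prop)
  rw [← D7h_ind lam3 _ hS', ← D7h_ind lam2 S hS, ← lint7_m13 _ (D7h_meas S hS)]
  rfl

theorem lam3_set23 (S : Set (ℝ × ℝ)) (hS : MeasurableSet S) :
    lam3 {s | (s.2.1, s.2.2) ∈ S} = lam2 S := by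
  have hS' : MeasurableSet {s : ℝ × ℝ × ℝ | (s.2.1, s.2.2) ∈ S} := hS.preimage (by fun_prop)
  rw [← D7h_ind lam3 _ hS', ← D7h_ind lam2 S hS, ← lint7_m23 _ (D7h_meas S hS)]
  rfl

theorem D7h_Ici (x : ℝ) : lam (1 / 8) {s | x ≤ s} = if x ≤ -(1 / 8) then 1 else
    if x ≤ 1 / 8 then ENNReal.ofReal (((1 / 8 - x) / 2 + ((1 / 8) ^ 2 - x ^ 2) / 2) / (1 / 8))
    else 0 := by
  have := lam8_prob
  split_ifs with h1 h2
  · have h3 : ∀ᵐ s ∂(lam (1 / 8)), s ∈ {s | x ≤ s} := by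
      filter_upwards [lam_ae (1 / 8)] with s hs
      have h4 := (abs_le.1 hs).1
      change x ≤ s
      linarith
    rw [← measure_univ (μ := lam (1 / 8))]
    exact measure_congr (Filter.eventuallyEq_univ.2 h3)
  · exact lam_tail (by norm_num) (by norm_num) x (by linarith) h2
  · have h3 : ∀ᵐ s ∂(lam (1 / 8)), s ∉ {s | x ≤ s} := by
      filter_upwards [lam_ae (1 / 8)] with s hs
      have h4 := (abs_le.1 hs).2
      change ¬ x ≤ s
      linarith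
    exact measure_eq_zero_iff_ae_notMem.2 h3

theorem D7h_sig (t : ℝ) : lam2 {s | t ≤ s.1 + s.2} =
    ∫⁻ s in Set.Icc (-(1 / 8) : ℝ) (1 / 8), ENNReal.ofReal ((1 / 2 + s) / (1 / 8)) *
      lam (1 / 8) {x | t - s ≤ x} := by
  have := lam8_prob
  have hms : MeasurableSet {q : ℝ × ℝ | t ≤ q.1 + q.2} := measurableSet_le (by fun_prop)
    (by fun_prop)
  rw [Measure.prod_apply hms]
  have e : ∀ s, Prod.mk s ⁻¹' {q : ℝ × ℝ | t ≤ q.1 + q.2} = {x | t - s ≤ x} := by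
    intro s
    ext x
    change t ≤ s + x ↔ t - s ≤ x
    constructor <;> intro h <;> linarith
  simp only [e]
  refine J1_lint _ _ ?_
  have h1 := measurable_measure_prodMk_left (ν := lam (1 / 8)) hms
  simp only [e] at h1
  exact h1

theorem sig7_pos (t : ℝ) (h0 : 0 ≤ t) (h1 : t ≤ 1 / 4) :
    lam2 {s | t ≤ s.1 + s.2} = ENNReal.ofReal
      (25 / 2 * (1 / 4 - t) ^ 2 - 40 / 3 * (1 / 4 - t) ^ 3 + 8 / 3 * (1 / 4 - t) ^ 4) := by
  rw [D7h_sig]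
  have hu : Set.Icc (-(1 / 8) : ℝ) (1 / 8) = Set.Ico (-(1 / 8)) (t - 1 / 8) ∪
      Set.Icc (t - 1 / 8) (1 / 8) :=
    (Set.Ico_union_Icc_eq_Icc (by linarith) (by linarith)).symm
  have hd : Disjoint (Set.Ico (-(1 / 8) : ℝ) (t - 1 / 8)) (Set.Icc (t - 1 / 8) (1 / 8)) := by
    rw [Set.disjoint_left]
    intro s h2 h3
    exact absurd h2.2 (not_lt.2 h3.1)
  rw [hu, lintegral_union measurableSet_Icc hd]
  have e1 : ∫⁻ s in Set.Ico (-(1 / 8) : ℝ) (t - 1 / 8), ENNReal.ofReal ((1 / 2 + s) / (1 / 8)) *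
      lam (1 / 8) {x | t - s ≤ x} = 0 := by
    rw [setLIntegral_congr_fun (g := fun _ => 0) measurableSet_Ico]
    · simp
    · intro s hs
      change ENNReal.ofReal ((1 / 2 + s) / (1 / 8)) * lam (1 / 8) {x | t - s ≤ x} = 0
      rw [D7h_Ici, if_neg (by linarith [hs.2]), if_neg (by linarith [hs.2]), mul_zero]
  have e2 : ∫⁻ s in Set.Icc (t - 1 / 8) (1 / 8 : ℝ), ENNReal.ofReal ((1 / 2 + s) / (1 / 8)) *
      lam (1 / 8) {x | t - s ≤ x} = ∫⁻ s in Set.Icc (t - 1 / 8) (1 / 8 : ℝ),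
        ENNReal.ofReal (32 * ((1 / 2 + s) * (9 / 64 - t - t ^ 2 + (1 + 2 * t) * s - s ^ 2))) := by
    refine setLIntegral_congr_fun measurableSet_Icc fun s hs => ?_
    change ENNReal.ofReal ((1 / 2 + s) / (1 / 8)) * lam (1 / 8) {x | t - s ≤ x} = _
    have h5 : 0 ≤ (1 / 2 + s) / (1 / 8) := div_nonneg (by linarith [hs.1]) (by norm_num)
    rcases eq_or_lt_of_le (by linarith [hs.1, hs.2] : -(1 / 8) ≤ t - s) with h6 | h6
    · rw [D7h_Ici, if_pos h6.symm.le, mul_one]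
      congr 1
      have h7 : t = s - 1 / 8 := by linarith
      rw [h7]
      ring
    · rw [D7h_Ici, if_neg (not_le.2 h6), if_pos (by linarith [hs.1]), ← ENNReal.ofReal_mul h5]
      congr 1
      ring
  rw [e1, e2, zero_add, (J1_ftc (by linarith : t - 1 / 8 ≤ 1 / 8)
    (fun s => 32 * ((1 / 2 + s) * (9 / 64 - t - t ^ 2 + (1 + 2 * t) * s - s ^ 2)))
    (fun s => 32 * ((9 / 64 - t - t ^ 2) / 2 * s + ((1 + 2 * t) / 2 + (9 / 64 - t - t ^ 2)) *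
      (s ^ 2 / 2) + ((1 + 2 * t) - 1 / 2) * (s ^ 3 / 3) - s ^ 4 / 4))
    (Continuous.continuousOn (by fun_prop)) ?_ ?_).1]
  · congr 1
    ring
  · intro s hs
    have h5 : 0 ≤ 1 / 2 + s := by linarith [hs.1]
    have h6 : 9 / 64 - t - t ^ 2 + (1 + 2 * t) * s - s ^ 2 = (1 / 8 - (t - s)) * (9 / 8 + (t - s)) := by
      ring
    rw [h6]
    have h7 : 0 ≤ 1 / 8 - (t - s) := by linarith [hs.1]
    have h8 : 0 ≤ 9 / 8 + (t - s) := by linarith [hs.2]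
    positivity
  · intro s _
    have h2 := (((((hasDerivAt_id s).const_mul ((9 / 64 - t - t ^ 2) / 2)).add
      (((hasDerivAt_pow 2 s).div_const 2).const_mul ((1 + 2 * t) / 2 + (9 / 64 - t - t ^ 2)))).add
      (((hasDerivAt_pow 3 s).div_const 3).const_mul ((1 + 2 * t) - 1 / 2))).sub
      ((hasDerivAt_pow 4 s).div_const 4)).const_mul 32
    refine h2.congr_deriv ?_
    push_cast
    ring

theorem sig7_neg (t : ℝ) (h0 : -(1 / 4) ≤ t) (h1 : t ≤ 0) :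
    lam2 {s | t ≤ s.1 + s.2} = ENNReal.ofReal
      (1 - 9 / 2 * (1 / 4 + t) ^ 2 - 8 * (1 / 4 + t) ^ 3 - 8 / 3 * (1 / 4 + t) ^ 4) := by
  rw [D7h_sig]
  have hu : Set.Icc (-(1 / 8) : ℝ) (1 / 8) = Set.Icc (-(1 / 8)) (t + 1 / 8) ∪
      Set.Ioc (t + 1 / 8) (1 / 8) :=
    (Set.Icc_union_Ioc_eq_Icc (by linarith) (by linarith)).symm
  have hd : Disjoint (Set.Icc (-(1 / 8) : ℝ) (t + 1 / 8)) (Set.Ioc (t + 1 / 8) (1 / 8)) := by
    rw [Set.disjoint_left]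
    intro s h2 h3
    exact absurd h3.1 (not_lt.2 h2.2)
  rw [hu, lintegral_union measurableSet_Ioc hd]
  have e1 : ∫⁻ s in Set.Ioc (t + 1 / 8) (1 / 8 : ℝ), ENNReal.ofReal ((1 / 2 + s) / (1 / 8)) *
      lam (1 / 8) {x | t - s ≤ x} =
      ENNReal.ofReal (8 * ((1 / 8) / 2 + (1 / 8) ^ 2 / 2) -
        8 * ((t + 1 / 8) / 2 + (t + 1 / 8) ^ 2 / 2)) ∧
      0 ≤ 8 * ((1 / 8) / 2 + (1 / 8) ^ 2 / 2) - 8 * ((t + 1 / 8) / 2 + (t + 1 / 8) ^ 2 / 2) := by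
    obtain ⟨f1, f2⟩ := J1_ftc (by linarith : t + 1 / 8 ≤ 1 / 8)
      (fun s => (1 / 2 + s) / (1 / 8)) (fun s => 8 * (s / 2 + s ^ 2 / 2))
      (Continuous.continuousOn (by fun_prop))
      (fun s hs => div_nonneg (by linarith [hs.1]) (by norm_num)) (fun s _ => by
        have h2 := (((hasDerivAt_id s).div_const 2).add
          ((hasDerivAt_pow 2 s).div_const 2)).const_mul 8
        refine h2.congr_deriv ?_
        push_cast
        ring)
    refine ⟨?_, f2⟩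
    rw [← f1, ← restrict_Ioc_eq_restrict_Icc]
    refine setLIntegral_congr_fun measurableSet_Ioc fun s hs => ?_
    change ENNReal.ofReal ((1 / 2 + s) / (1 / 8)) * lam (1 / 8) {x | t - s ≤ x} = _
    rw [D7h_Ici, if_pos (by linarith [hs.1]), mul_one]
  have e2 : ∫⁻ s in Set.Icc (-(1 / 8)) (t + 1 / 8 : ℝ), ENNReal.ofReal ((1 / 2 + s) / (1 / 8)) *
      lam (1 / 8) {x | t - s ≤ x} = ∫⁻ s in Set.Icc (-(1 / 8)) (t + 1 / 8 : ℝ),
        ENNReal.ofReal (32 * ((1 / 2 + s) * (9 / 64 - t - t ^ 2 + (1 + 2 * t) * s - s ^ 2))) := by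
    refine setLIntegral_congr_fun measurableSet_Icc fun s hs => ?_
    change ENNReal.ofReal ((1 / 2 + s) / (1 / 8)) * lam (1 / 8) {x | t - s ≤ x} = _
    have h5 : 0 ≤ (1 / 2 + s) / (1 / 8) := div_nonneg (by linarith [hs.1]) (by norm_num)
    rcases eq_or_lt_of_le (by linarith [hs.1, hs.2] : -(1 / 8) ≤ t - s) with h6 | h6
    · rw [D7h_Ici, if_pos h6.symm.le, mul_one]
      congr 1
      have h7 : t = s - 1 / 8 := by linarith
      rw [h7]
      ring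
    · rw [D7h_Ici, if_neg (not_le.2 h6), if_pos (by linarith [hs.1]), ← ENNReal.ofReal_mul h5]
      congr 1
      ring
  obtain ⟨f1, f2⟩ := J1_ftc (by linarith : -(1 / 8) ≤ t + 1 / 8)
    (fun s => 32 * ((1 / 2 + s) * (9 / 64 - t - t ^ 2 + (1 + 2 * t) * s - s ^ 2)))
    (fun s => 32 * ((9 / 64 - t - t ^ 2) / 2 * s + ((1 + 2 * t) / 2 + (9 / 64 - t - t ^ 2)) *
      (s ^ 2 / 2) + ((1 + 2 * t) - 1 / 2) * (s ^ 3 / 3) - s ^ 4 / 4))
    (Continuous.continuousOn (by fun_prop)) (fun s hs => by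
      have h5 : 0 ≤ 1 / 2 + s := by linarith [hs.1]
      have h6 : 9 / 64 - t - t ^ 2 + (1 + 2 * t) * s - s ^ 2 =
        (1 / 8 - (t - s)) * (9 / 8 + (t - s)) := by ring
      simp only [h6]
      have h7 : 0 ≤ 1 / 8 - (t - s) := by linarith [hs.1]
      have h8 : 0 ≤ 9 / 8 + (t - s) := by linarith [hs.2]
      positivity) (fun s _ => by
      have h2 := (((((hasDerivAt_id s).const_mul ((9 / 64 - t - t ^ 2) / 2)).add
        (((hasDerivAt_pow 2 s).div_const 2).const_mul ((1 + 2 * t) / 2 + (9 / 64 - t - t ^ 2)))).add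
        (((hasDerivAt_pow 3 s).div_const 3).const_mul ((1 + 2 * t) - 1 / 2))).sub
        ((hasDerivAt_pow 4 s).div_const 4)).const_mul 32
      refine h2.congr_deriv ?_
      push_cast
      ring)
  rw [e1.1, e2, f1, ← ENNReal.ofReal_add f2 e1.2]
  congr 1
  ring

theorem sig7_lin (t : ℝ) (h : |t| ≤ 1 / 4) :
    lam2 {s | t ≤ s.1 + s.2} ≤ ENNReal.ofReal (631 / 1000 - 5 / 2 * t) := by
  obtain ⟨h1, h2⟩ := abs_le.1 h
  rcases le_total 0 t with h0 | h0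
  · rw [sig7_pos t h0 h2]
    apply ENNReal.ofReal_le_ofReal
    obtain ⟨x, hx⟩ : ∃ x, x = 1 / 4 - t := ⟨_, rfl⟩
    have ht : t = 1 / 4 - x := by linarith
    have hx0 : 0 ≤ x := by linarith
    have hx1 : x ≤ 1 / 4 := by linarith
    rw [← hx, ht]
    have h3 : 0 ≤ x * (x ^ 2 * (1 / 4 - x)) :=
      mul_nonneg hx0 (mul_nonneg (sq_nonneg x) (by linarith))
    have h4 : 0 ≤ x * (5 / 2 - 25 / 2 * x + 38 / 3 * x ^ 2) := by
      refine mul_nonneg hx0 ?_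
      nlinarith [sq_nonneg (x - 1 / 4)]
    nlinarith [h3, h4]
  · rw [sig7_neg t h1 h0]
    apply ENNReal.ofReal_le_ofReal
    obtain ⟨x, hx⟩ : ∃ x, x = 1 / 4 + t := ⟨_, rfl⟩
    have ht : t = x - 1 / 4 := by linarith
    have hx0 : 0 ≤ x := by linarith
    have hx1 : x ≤ 1 / 4 := by linarith
    rw [← hx, ht]
    have h3 : 0 ≤ (x - 365 / 2000) ^ 2 * (x + 365 / 1000) := by positivity
    have h4 : 0 ≤ (x - 365 / 2000) ^ 2 * (x ^ 2 + 365 / 1000 * x + 3 * (365 / 2000) ^ 2) := by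
      positivity
    nlinarith [h3, h4, sq_nonneg (x - 1817 / 10000)]

theorem sig7_18 : lam2 {s | 1 / 8 ≤ s.1 + s.2} ≤ ENNReal.ofReal (17 / 100) := by
  rw [sig7_pos _ (by norm_num) (by norm_num)]
  apply ENNReal.ofReal_le_ofReal
  norm_num

theorem sig7_05625 : lam2 {s | 5625 / 100000 ≤ s.1 + s.2} ≤ ENNReal.ofReal (3761 / 10000) := by
  rw [sig7_pos _ (by norm_num) (by norm_num)]
  apply ENNReal.ofReal_le_ofReal
  norm_num

end Pool.Agent.helper49.Slope
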