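import Pool.Agent.helper49.Slope.D7h

/-!
MP_aedd95_co (slope of k-fold hyperplane covers of triangular grids), module D7h2.
The law `D_7`: the function `G7 t = E (s₁+s₂-t)₊` and two tails of squares.

PROOFS. `G7_pos`: with `u_i = 1/8 - s_i`, `h = 1/4 - t`: `G7 t = E (h - u₁ - u₂)₊
= ∫_0^h P(u₁+u₂ ≤ r) dr = (25/6)h³ - (10/3)h⁴ + (8/15)h⁵` (layer cake `lintegral_eq_lintegral_meas_le`
or directly as an iterated integral). `G7_neg`: `(x-t)₊ = (x - t) + (t - x)₊`, so for `-1/4 ≤ t ≤ 0`,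
`k = 1/4 + t`: `G7 t = 1/48 - t + (3/2)k³ + 2k⁴ + (8/15)k⁵` (`E s = 1/96`). Work with the iterated
integral: inner integral over `s₂` of `(s₂ - y)₊`, `y = t - s₁`: for `|y| ≤ 1/8` it is
`8 ((1/8-y)²/4 + ...)` (polynomial in `y`), for `y < -1/8` it is `1/96 - y`, for `y > 1/8` it is `0`.
`lam_q20`: `P(q ≥ 20/64) = 5/16`: `(1/2+s)² ≥ 20/64` iff `s ≥ √20/8 - 1/2`, `lam_tail`.
`lam2_q`: `P(q₁+q₂ ≥ K) ≤ 4(21/32 - K)` for `K ≤ 17/32`: for fixed `s₁`,
`P(q₂ ≥ K - q₁) ≤ 4 (25/64 - K + q₁)` (for `K - q₁ ≥ 9/64` equality with `K - q₁ ≤ 25/64`; for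
`K - q₁ ≤ 9/64` the right side is `≥ 1`; for `K - q₁ > 25/64`: not possible for `K ≤ 34/64`), and
`E q₁ = 17/64` (`lam_moment`).
-/

set_option autoImplicit false

open MeasureTheory ProbabilityTheory
open scoped ENNReal

namespace Pool.Agent.helper49.Slope

theorem D7h2_split {a c b : ℝ} (h1 : a ≤ c) (h2 : c ≤ b) (g : ℝ → ℝ≥0∞) :
    ∫⁻ s in Set.Icc a b, g s = (∫⁻ s in Set.Icc a c, g s) + ∫⁻ s in Set.Icc c b, g s := by
  have e : Set.Icc a b = Set.Icc a c ∪ Set.Ioc c b := (Set.Icc_union_Ioc_eq_Icc h1 h2).symm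
  have hd : Disjoint (Set.Icc a c) (Set.Ioc c b) := by
    rw [Set.disjoint_left]
    rintro x ⟨-, h3⟩ ⟨h4, -⟩
    exact absurd h3 (not_le.mpr h4)
  rw [e, lintegral_union (measurableSet_Ioc : MeasurableSet (Set.Ioc c b)) hd]
  congr 1
  exact setLIntegral_congr Ioc_ae_eq_Icc

theorem D7h2_Icc {a b : ℝ} (ha : -(1 / 8) ≤ a) (hab : a ≤ b) (hb : b ≤ 1 / 8) :
    lam (1 / 8) (Set.Icc a b) = ENNReal.ofReal (4 * ((1 / 2 + b) ^ 2 - (1 / 2 + a) ^ 2)) := by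
  unfold lam
  rw [withDensity_apply _ measurableSet_Icc, Measure.restrict_restrict measurableSet_Icc]
  have e : Set.Icc a b ∩ Set.Icc (-(1 / 8)) (1 / 8) = Set.Icc a b := by
    apply Set.inter_eq_left.mpr
    exact Set.Icc_subset_Icc ha hb
  rw [e, (J1_ftc hab (fun s => (1 / 2 + s) / (1 / 8)) (fun s => 4 * (1 / 2 + s) ^ 2)
    (Continuous.continuousOn (by fun_prop))
    (fun s hs => div_nonneg (by linarith [hs.1]) (by norm_num)) (fun s _ => by
      have h2 := (((hasDerivAt_id s).const_add (1 / 2 : ℝ)).pow 2).const_mul 4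
      refine h2.congr_deriv ?_
      simp
      ring)).1]
  congr 1
  ring

theorem D7h2_sq (K : ℝ) :
    lam (1 / 8) {s | K ≤ (1 / 2 + s) ^ 2} ≤ ENNReal.ofReal (4 * (25 / 64 - K)) := by
  have hp := lam_prob (τ := 1 / 8) (by norm_num) (by norm_num)
  rcases lt_or_ge K (9 / 64) with h | h
  · refine prob_le_one.trans ?_
    rw [← ENNReal.ofReal_one]
    exact ENNReal.ofReal_le_ofReal (by linarith)
  rcases le_or_gt K (25 / 64) with h' | h'
  · have hs : Real.sqrt K ^ 2 = K := Real.sq_sqrt (by linarith)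
    have hs0 : 0 ≤ Real.sqrt K := Real.sqrt_nonneg K
    have hs1 : 3 / 8 ≤ Real.sqrt K := Real.le_sqrt_of_sq_le (by norm_num; linarith)
    have hs2 : Real.sqrt K ≤ 5 / 8 := Real.sqrt_le_iff.2 ⟨by norm_num, by norm_num; linarith⟩
    have h1 : lam (1 / 8) {s | K ≤ (1 / 2 + s) ^ 2} ≤
        lam (1 / 8) (Set.Icc (Real.sqrt K - 1 / 2) (1 / 8)) := by
      refine measure_mono_ae ?_
      filter_upwards [lam_ae (1 / 8)] with s hs3 hs4
      have h5 := abs_le.1 hs3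
      have h6 : K ≤ (1 / 2 + s) ^ 2 := hs4
      refine ⟨?_, h5.2⟩
      have h7 : Real.sqrt K ≤ 1 / 2 + s := by
        apply Real.sqrt_le_iff.2
        exact ⟨by linarith [h5.1], h6⟩
      linarith
    refine h1.trans ?_
    rw [D7h2_Icc (by linarith) (by linarith) le_rfl]
    apply ENNReal.ofReal_le_ofReal
    have : 1 / 2 + (Real.sqrt K - 1 / 2) = Real.sqrt K := by ring
    rw [this, hs]
    linarith
  · have h1 : lam (1 / 8) {s | K ≤ (1 / 2 + s) ^ 2} ≤ lam (1 / 8) ∅ := by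
      refine measure_mono_ae ?_
      filter_upwards [lam_ae (1 / 8)] with s hs3 hs4
      have h5 := abs_le.1 hs3
      have h6 : K ≤ (1 / 2 + s) ^ 2 := hs4
      exfalso
      nlinarith [h5.1, h5.2]
    refine h1.trans ?_
    rw [measure_empty]
    exact zero_le

/-- the inner integral: large threshold -/
theorem D7h2_in0 (y : ℝ) (h : 1 / 8 ≤ y) : ∫⁻ s, ENNReal.ofReal (s - y) ∂(lam (1 / 8)) = 0 := by
  rw [← lintegral_zero (μ := lam (1 / 8))]
  refine lintegral_congr_ae ?_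
  filter_upwards [lam_ae (1 / 8)] with s hs
  have h5 := abs_le.1 hs
  exact ENNReal.ofReal_of_nonpos (by linarith [h5.2])

/-- the inner integral: threshold in range -/
theorem D7h2_in1 (y : ℝ) (h0 : -(1 / 8) ≤ y) (h1 : y ≤ 1 / 8) :
    ∫⁻ s, ENNReal.ofReal (s - y) ∂(lam (1 / 8)) =
      ENNReal.ofReal (5 / 2 * (1 / 8 - y) ^ 2 - 4 / 3 * (1 / 8 - y) ^ 3) := by
  rw [J1_lint _ _ (by fun_prop), D7h2_split h0 h1]
  have e1 : ∫⁻ s in Set.Icc (-(1 / 8)) y, ENNReal.ofReal ((1 / 2 + s) / (1 / 8)) *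
      ENNReal.ofReal (s - y) = 0 := by
    rw [← lintegral_zero (μ := volume.restrict (Set.Icc (-(1 / 8)) y))]
    refine setLIntegral_congr_fun measurableSet_Icc ?_
    intro s hs
    show ENNReal.ofReal ((1 / 2 + s) / (1 / 8)) * ENNReal.ofReal (s - y) = 0
    rw [ENNReal.ofReal_of_nonpos (by linarith [hs.2] : s - y ≤ 0), mul_zero]
  have e2 : ∫⁻ s in Set.Icc y (1 / 8), ENNReal.ofReal ((1 / 2 + s) / (1 / 8)) *
      ENNReal.ofReal (s - y) =
      ∫⁻ s in Set.Icc y (1 / 8), ENNReal.ofReal ((1 / 2 + s) / (1 / 8) * (s - y)) := by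
    refine setLIntegral_congr_fun measurableSet_Icc ?_
    intro s hs
    exact (ENNReal.ofReal_mul (div_nonneg (by linarith [hs.1]) (by norm_num))).symm
  rw [e1, e2, zero_add, (J1_ftc h1 (fun s => (1 / 2 + s) / (1 / 8) * (s - y))
    (fun s => (2 + 4 * y) * (s - y) ^ 2 + 8 / 3 * (s - y) ^ 3)
    (Continuous.continuousOn (by fun_prop))
    (fun s hs => mul_nonneg (div_nonneg (by linarith [hs.1]) (by norm_num)) (by linarith [hs.1]))
    (fun s _ => by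
      have h2 := (hasDerivAt_id s).sub_const y
      have h3 := ((h2.pow 2).const_mul (2 + 4 * y)).add ((h2.pow 3).const_mul (8 / 3))
      refine h3.congr_deriv ?_
      simp
      ring)).1]
  congr 1
  ring

/-- the inner integral: small threshold -/
theorem D7h2_in2 (y : ℝ) (h0 : y ≤ -(1 / 8)) :
    ∫⁻ s, ENNReal.ofReal (s - y) ∂(lam (1 / 8)) = ENNReal.ofReal (1 / 96 - y) := by
  have h := lam_moment (τ := 1 / 8) (by norm_num) (by norm_num) (-y) 1 0 (fun s hs => by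
    have h5 := abs_le.1 hs
    linarith [h5.1])
  have e : ∫⁻ s, ENNReal.ofReal (s - y) ∂(lam (1 / 8)) =
      ∫⁻ s, ENNReal.ofReal (-y + 1 * s + 0 * s ^ 2) ∂(lam (1 / 8)) := by
    refine lintegral_congr fun s => ?_
    congr 1
    ring
  rw [e, h]
  congr 1
  ring

theorem D7h2_G7 (t : ℝ) : G7 t = ∫⁻ s in Set.Icc (-(1 / 8)) (1 / 8 : ℝ),
    ENNReal.ofReal ((1 / 2 + s) / (1 / 8)) *
      ∫⁻ s', ENNReal.ofReal (s' - (t - s)) ∂(lam (1 / 8)) := by
  have hp := lam_prob (τ := 1 / 8) (by norm_num) (by norm_num)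
  unfold G7
  have hm : Measurable (fun s : ℝ × ℝ => ENNReal.ofReal (s.1 + s.2 - t)) := by fun_prop
  have hm2 : Measurable (fun s : ℝ × ℝ => ENNReal.ofReal (s.2 - (t - s.1))) := by fun_prop
  rw [lintegral_prod _ hm.aemeasurable]
  have e : ∀ s : ℝ, ∫⁻ s', ENNReal.ofReal ((s, s').1 + (s, s').2 - t) ∂(lam (1 / 8)) =
      ∫⁻ s', ENNReal.ofReal (s' - (t - s)) ∂(lam (1 / 8)) := by
    intro s
    refine lintegral_congr fun s' => ?_
    congr 1
    ring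
  rw [lintegral_congr e]
  exact J1_lint _ _ (Measurable.lintegral_prod_right' hm2)

theorem G7_pos (t : ℝ) (h0 : 0 ≤ t) (h1 : t ≤ 1 / 4) :
    G7 t = ENNReal.ofReal
      (25 / 6 * (1 / 4 - t) ^ 3 - 10 / 3 * (1 / 4 - t) ^ 4 + 8 / 15 * (1 / 4 - t) ^ 5) := by
  rw [D7h2_G7, D7h2_split (c := t - 1 / 8) (by linarith) (by linarith)]
  have e1 : ∫⁻ s in Set.Icc (-(1 / 8)) (t - 1 / 8), ENNReal.ofReal ((1 / 2 + s) / (1 / 8)) *
      ∫⁻ s', ENNReal.ofReal (s' - (t - s)) ∂(lam (1 / 8)) = 0 := by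
    rw [← lintegral_zero (μ := volume.restrict (Set.Icc (-(1 / 8)) (t - 1 / 8)))]
    refine setLIntegral_congr_fun measurableSet_Icc ?_
    intro s hs
    show ENNReal.ofReal ((1 / 2 + s) / (1 / 8)) *
      ∫⁻ s', ENNReal.ofReal (s' - (t - s)) ∂(lam (1 / 8)) = 0
    rw [D7h2_in0 _ (by linarith [hs.2]), mul_zero]
  have e2 : ∫⁻ s in Set.Icc (t - 1 / 8) (1 / 8), ENNReal.ofReal ((1 / 2 + s) / (1 / 8)) *
      ∫⁻ s', ENNReal.ofReal (s' - (t - s)) ∂(lam (1 / 8)) =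
      ∫⁻ s in Set.Icc (t - 1 / 8) (1 / 8), ENNReal.ofReal ((1 / 2 + s) / (1 / 8) *
        (5 / 2 * (1 / 8 - (t - s)) ^ 2 - 4 / 3 * (1 / 8 - (t - s)) ^ 3)) := by
    refine setLIntegral_congr_fun measurableSet_Icc ?_
    intro s hs
    show ENNReal.ofReal ((1 / 2 + s) / (1 / 8)) *
      ∫⁻ s', ENNReal.ofReal (s' - (t - s)) ∂(lam (1 / 8)) = _
    rw [D7h2_in1 _ (by linarith [hs.2]) (by linarith [hs.1])]
    exact (ENNReal.ofReal_mul (div_nonneg (by linarith [hs.1]) (by norm_num))).symm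
  rw [e1, e2, zero_add, (J1_ftc (by linarith) (fun s => (1 / 2 + s) / (1 / 8) *
      (5 / 2 * (1 / 8 - (t - s)) ^ 2 - 4 / 3 * (1 / 8 - (t - s)) ^ 3))
    (fun s => (3 + 8 * t) * (5 / 6 * (1 / 8 - (t - s)) ^ 3 - 1 / 3 * (1 / 8 - (t - s)) ^ 4)
      + (5 * (1 / 8 - (t - s)) ^ 4 - 32 / 15 * (1 / 8 - (t - s)) ^ 5))
    (Continuous.continuousOn (by fun_prop))
    (fun s hs => by
      have h5 : 0 ≤ 1 / 8 - (t - s) := by linarith [hs.1]
      have h6 : 1 / 8 - (t - s) ≤ 1 / 4 := by linarith [hs.2]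
      refine mul_nonneg (div_nonneg (by linarith [hs.1]) (by norm_num)) ?_
      have h7 : 0 ≤ (1 / 8 - (t - s)) ^ 2 * (5 / 2 - 4 / 3 * (1 / 8 - (t - s))) :=
        mul_nonneg (sq_nonneg _) (by linarith)
      nlinarith [h7])
    (fun s _ => by
      have h2 : HasDerivAt (fun s : ℝ => 1 / 8 - (t - s)) 1 s := by
        have := ((hasDerivAt_id s).const_sub t).const_sub (1 / 8)
        simpa using this
      have h3 := (((h2.pow 3).const_mul (5 / 6)).sub ((h2.pow 4).const_mul (1 / 3))).const_mul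
        (3 + 8 * t)
      have h4 := h3.add (((h2.pow 4).const_mul 5).sub ((h2.pow 5).const_mul (32 / 15)))
      refine h4.congr_deriv ?_
      simp
      ring)).1]
  congr 1
  ring

theorem G7_neg (t : ℝ) (h0 : -(1 / 4) ≤ t) (h1 : t ≤ 0) :
    G7 t = ENNReal.ofReal
      (1 / 48 - t + 3 / 2 * (1 / 4 + t) ^ 3 + 2 * (1 / 4 + t) ^ 4 + 8 / 15 * (1 / 4 + t) ^ 5) := by
  rw [D7h2_G7, D7h2_split (c := t + 1 / 8) (by linarith) (by linarith)]
  have e1 : ∫⁻ s in Set.Icc (-(1 / 8)) (t + 1 / 8), ENNReal.ofReal ((1 / 2 + s) / (1 / 8)) *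
      ∫⁻ s', ENNReal.ofReal (s' - (t - s)) ∂(lam (1 / 8)) =
      ∫⁻ s in Set.Icc (-(1 / 8)) (t + 1 / 8), ENNReal.ofReal ((1 / 2 + s) / (1 / 8) *
        (5 / 2 * (1 / 8 - (t - s)) ^ 2 - 4 / 3 * (1 / 8 - (t - s)) ^ 3)) := by
    refine setLIntegral_congr_fun measurableSet_Icc ?_
    intro s hs
    show ENNReal.ofReal ((1 / 2 + s) / (1 / 8)) *
      ∫⁻ s', ENNReal.ofReal (s' - (t - s)) ∂(lam (1 / 8)) = _
    rw [D7h2_in1 _ (by linarith [hs.2]) (by linarith [hs.1])]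
    exact (ENNReal.ofReal_mul (div_nonneg (by linarith [hs.1]) (by norm_num))).symm
  have e2 : ∫⁻ s in Set.Icc (t + 1 / 8) (1 / 8), ENNReal.ofReal ((1 / 2 + s) / (1 / 8)) *
      ∫⁻ s', ENNReal.ofReal (s' - (t - s)) ∂(lam (1 / 8)) =
      ∫⁻ s in Set.Icc (t + 1 / 8) (1 / 8), ENNReal.ofReal ((1 / 2 + s) / (1 / 8) *
        (1 / 96 - (t - s))) := by
    refine setLIntegral_congr_fun measurableSet_Icc ?_
    intro s hs
    show ENNReal.ofReal ((1 / 2 + s) / (1 / 8)) *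
      ∫⁻ s', ENNReal.ofReal (s' - (t - s)) ∂(lam (1 / 8)) = _
    rw [D7h2_in2 _ (by linarith [hs.1])]
    exact (ENNReal.ofReal_mul (div_nonneg (by linarith [hs.1]) (by norm_num))).symm
  obtain ⟨f1, g1⟩ := J1_ftc (by linarith : -(1 / 8) ≤ t + 1 / 8) (fun s => (1 / 2 + s) / (1 / 8) *
      (5 / 2 * (1 / 8 - (t - s)) ^ 2 - 4 / 3 * (1 / 8 - (t - s)) ^ 3))
    (fun s => (3 + 8 * t) * (5 / 6 * (1 / 8 - (t - s)) ^ 3 - 1 / 3 * (1 / 8 - (t - s)) ^ 4)
      + (5 * (1 / 8 - (t - s)) ^ 4 - 32 / 15 * (1 / 8 - (t - s)) ^ 5))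
    (Continuous.continuousOn (by fun_prop))
    (fun s hs => by
      have h5 : 0 ≤ 1 / 8 - (t - s) := by linarith [hs.1]
      have h6 : 1 / 8 - (t - s) ≤ 1 / 4 := by linarith [hs.2]
      refine mul_nonneg (div_nonneg (by linarith [hs.1]) (by norm_num)) ?_
      have h7 : 0 ≤ (1 / 8 - (t - s)) ^ 2 * (5 / 2 - 4 / 3 * (1 / 8 - (t - s))) :=
        mul_nonneg (sq_nonneg _) (by linarith)
      nlinarith [h7])
    (fun s _ => by
      have h2 : HasDerivAt (fun s : ℝ => 1 / 8 - (t - s)) 1 s := by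
        have := ((hasDerivAt_id s).const_sub t).const_sub (1 / 8)
        simpa using this
      have h3 := (((h2.pow 3).const_mul (5 / 6)).sub ((h2.pow 4).const_mul (1 / 3))).const_mul
        (3 + 8 * t)
      have h4 := h3.add (((h2.pow 4).const_mul 5).sub ((h2.pow 5).const_mul (32 / 15)))
      refine h4.congr_deriv ?_
      simp
      ring)
  obtain ⟨f2, g2⟩ := J1_ftc (by linarith : t + 1 / 8 ≤ 1 / 8) (fun s => (1 / 2 + s) / (1 / 8) *
      (1 / 96 - (t - s)))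
    (fun s => (4 * (1 / 96 - t) * s + 2 * s ^ 2) + (4 * (1 / 96 - t) * s ^ 2 + 8 / 3 * s ^ 3))
    (Continuous.continuousOn (by fun_prop))
    (fun s hs => mul_nonneg (div_nonneg (by linarith [hs.1]) (by norm_num)) (by linarith [hs.1]))
    (fun s _ => by
      have h2 := hasDerivAt_id s
      have h3 := (h2.const_mul (4 * (1 / 96 - t))).add ((h2.pow 2).const_mul 2)
      have h4 := ((h2.pow 2).const_mul (4 * (1 / 96 - t))).add ((h2.pow 3).const_mul (8 / 3))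
      refine (h3.add h4).congr_deriv ?_
      simp
      ring)
  rw [e1, e2, f1, f2, ← ENNReal.ofReal_add g1 g2]
  congr 1
  ring

theorem lam_q20 : lam (1 / 8) {s | 20 / 64 ≤ (1 / 2 + s) ^ 2} ≤ ENNReal.ofReal (5 / 16) := by
  refine (D7h2_sq (20 / 64)).trans ?_
  exact ENNReal.ofReal_le_ofReal (by norm_num)

theorem lam_q17 : lam (1 / 8) {s | (1 / 2 + s) ^ 2 ≤ 17 / 64} ≤ ENNReal.ofReal (1 / 2) ∧
    lam (1 / 8) {s | 17 / 64 < (1 / 2 + s) ^ 2} ≤ ENNReal.ofReal (1 / 2) := by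
  constructor
  · have hs : Real.sqrt (17 / 64) ^ 2 = 17 / 64 := Real.sq_sqrt (by norm_num)
    have hs0 : 0 ≤ Real.sqrt (17 / 64) := Real.sqrt_nonneg _
    have hs1 : 3 / 8 ≤ Real.sqrt (17 / 64) := Real.le_sqrt_of_sq_le (by norm_num)
    have hs2 : Real.sqrt (17 / 64) ≤ 5 / 8 := Real.sqrt_le_iff.2 ⟨by norm_num, by norm_num⟩
    have h1 : lam (1 / 8) {s | (1 / 2 + s) ^ 2 ≤ 17 / 64} ≤
        lam (1 / 8) (Set.Icc (-(1 / 8)) (Real.sqrt (17 / 64) - 1 / 2)) := by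
      refine measure_mono_ae ?_
      filter_upwards [lam_ae (1 / 8)] with s hs3 hs4
      have h5 := abs_le.1 hs3
      have h6 : (1 / 2 + s) ^ 2 ≤ 17 / 64 := hs4
      refine ⟨h5.1, ?_⟩
      have h7 : 1 / 2 + s ≤ Real.sqrt (17 / 64) := Real.le_sqrt_of_sq_le h6
      linarith
    refine h1.trans ?_
    rw [D7h2_Icc le_rfl (by linarith) (by linarith)]
    apply ENNReal.ofReal_le_ofReal
    have : 1 / 2 + (Real.sqrt (17 / 64) - 1 / 2) = Real.sqrt (17 / 64) := by ring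
    rw [this, hs]
    norm_num
  · refine (measure_mono ?_).trans ((D7h2_sq (17 / 64)).trans ?_)
    · intro s hs
      have h6 : 17 / 64 < (1 / 2 + s) ^ 2 := hs
      exact h6.le
    · exact ENNReal.ofReal_le_ofReal (by norm_num)

theorem lam2_q (K : ℝ) (h1 : K ≤ 17 / 32) :
    lam2 {s | K ≤ (1 / 2 + s.1) ^ 2 + (1 / 2 + s.2) ^ 2} ≤ ENNReal.ofReal (4 * (21 / 32 - K)) := by
  have hp := lam_prob (τ := 1 / 8) (by norm_num) (by norm_num)
  have hm : MeasurableSet {s : ℝ × ℝ | K ≤ (1 / 2 + s.1) ^ 2 + (1 / 2 + s.2) ^ 2} :=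
    measurableSet_le measurable_const (by fun_prop)
  rw [Measure.prod_apply hm]
  have h2 : ∀ s : ℝ, lam (1 / 8) (Prod.mk s ⁻¹' {s : ℝ × ℝ | K ≤ (1 / 2 + s.1) ^ 2 +
      (1 / 2 + s.2) ^ 2}) ≤ ENNReal.ofReal (4 * (41 / 64 - K) + 4 * s + 4 * s ^ 2) := by
    intro s
    have h3 : Prod.mk s ⁻¹' {s : ℝ × ℝ | K ≤ (1 / 2 + s.1) ^ 2 + (1 / 2 + s.2) ^ 2} ⊆
        {s' : ℝ | K - (1 / 2 + s) ^ 2 ≤ (1 / 2 + s') ^ 2} := by
      intro s' hs'
      have : K ≤ (1 / 2 + s) ^ 2 + (1 / 2 + s') ^ 2 := hs'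
      show K - (1 / 2 + s) ^ 2 ≤ (1 / 2 + s') ^ 2
      linarith
    refine (measure_mono h3).trans ((D7h2_sq _).trans (le_of_eq ?_))
    congr 1
    ring
  refine (lintegral_mono h2).trans ?_
  rw [lam_moment (by norm_num) (by norm_num) (4 * (41 / 64 - K)) 4 4 (fun s hs => by
    have h5 := abs_le.1 hs
    nlinarith [h5.1, h5.2])]
  apply ENNReal.ofReal_le_ofReal
  norm_num
  linarith

end Pool.Agent.helper49.Slope
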