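import Pool.Agent.helper49.Slope.D7c
import Pool.Agent.helper49.Slope.D6e
import Pool.Agent.helper49.Slope.J1

/-!
MP_aedd95_co (slope of k-fold hyperplane covers of triangular grids), module D7i.
The law `D_7`, Lemma R: pattern `(1,1,0;1,1,0)`.

PROOFS. `W7 1 1 0 s = c₃²`, `c₃ = 1/2 + s₃`, so `V = c₃`; the centres are `±(h₁+h₂)`, `±(h₁-h₂)` with
`h_i = 1/2 - s_i`, each twice (`k8_zero`), i.e. `±(1-s₁-s₂)`, `±(s₂-s₁)`. By `L7_negt` let `t ≥ 0`.
The centre `-(h₁+h₂)` has distance `≥ 3/4 > 5/8 ≥ V`. So `4 K8 ≤ (1/c₃)(1{A} + 1{B} + 1{C})`,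
`A: t ≥ 1-s₁-s₂-c₃`, i.e. `s₁+s₂ ≥ r'` with `r' = 1/2 - t - s₃`; `B: t - (s₂-s₁) ≤ c₃`,
`C: t + (s₂-s₁) ≤ c₃`. With `r = 1/2 - t + s₃`: `B` fails iff `s₂ - s₁ < t - c₃ = -r`, i.e.
`r < s₁ - s₂`; `C` fails iff `r < s₂ - s₁`. Integrate the digit `s₃` outermost (`lint7_o3`): the
density `8 c₃` times `1/c₃` is the constant `8` on `[-1/8,1/8]` (`J1_lint`):
`4 L7 ≤ 8 ∫_{-1/8}^{1/8} [Σ(1/2-t-s) + (1-Δ(1/2-t+s)) + (1-Δ(1/2-t+s))] ds` with
`Σ(r) = lam2 {s | r ≤ s.1+s.2}`, `Δ(r) = lam2 {s | r < s.2 - s.1}` (`= lam2 {s | r < s.1 - s.2}`,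
`D6e_swap`). Substitute `s → -s` in the first term (`lintegral_neg_eq_self`):
the integrand becomes `Σ(r) + 2 - 2Δ(r) ≤ 2` by `lam2_reflect` (`Σ(r) ≤ 2 Δ(r)` for every `r`).
So `4 L7 ≤ 8 · (1/4) · 2 = 4`. (See `D6e_pos` for the same argument with `V = 1/2`.)
-/

set_option autoImplicit false

open MeasureTheory ProbabilityTheory
open scoped ENNReal

namespace Pool.Agent.helper49.Slope

/-- the probability of `r ≤ s₁ + s₂` -/
noncomputable def D7iS (r : ℝ) : ℝ≥0∞ := lam2 {s | r ≤ s.1 + s.2}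
/-- the probability of `s₂ - s₁ ≤ r` -/
noncomputable def D7iD (r : ℝ) : ℝ≥0∞ := lam2 {s | s.2 - s.1 ≤ r}

theorem D7i_S_anti : Antitone D7iS :=
  fun _ _ h => measure_mono fun _ hs => le_trans h hs

theorem D7i_D_mono : Monotone D7iD :=
  fun _ _ h => measure_mono fun _ hs => le_trans hs h

theorem D7i_sum (r : ℝ) : D7iS r + (D7iD r + D7iD r) ≤ 2 := by
  have hprob := lam2_prob
  have h1 : D7iS r ≤ 2 * lam2 {s | r < s.2 - s.1} := lam2_reflect r
  have hm : MeasurableSet {s : ℝ × ℝ | r < s.2 - s.1} :=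
    measurableSet_lt measurable_const (measurable_snd.sub measurable_fst)
  have h2 : D7iD r + lam2 {s | r < s.2 - s.1} ≤ 1 := by
    unfold D7iD
    rw [← measure_union _ hm]
    · exact prob_le_one
    · rw [Set.disjoint_left]
      intro s hs hs'
      simp only [Set.mem_ofPred_eq] at hs hs'
      linarith
  calc D7iS r + (D7iD r + D7iD r)
      ≤ 2 * lam2 {s | r < s.2 - s.1} + (D7iD r + D7iD r) := by gcongr
    _ = (D7iD r + lam2 {s | r < s.2 - s.1}) + (D7iD r + lam2 {s | r < s.2 - s.1}) := by ring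
    _ ≤ 1 + 1 := by gcongr
    _ = 2 := by norm_num

theorem D7i_swap (r : ℝ) : lam2 {s | s.1 - s.2 ≤ r} = D7iD r := by
  have hm : MeasurableSet {s : ℝ × ℝ | s.2 - s.1 ≤ r} :=
    measurableSet_le (measurable_snd.sub measurable_fst) measurable_const
  exact D6e_swap _ hm

theorem D7i_ker {D V t : ℝ} {S : Set (ℝ × ℝ)} {p : ℝ × ℝ} (h : |t - D| ≤ V → p ∈ S) :
    ker D V t ≤ ENNReal.ofReal (1 / V) * S.indicator (fun _ => (1 : ℝ≥0∞)) p := by
  unfold ker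
  by_cases h1 : |t - D| ≤ V
  · rw [if_pos h1, Set.indicator_of_mem (h h1), mul_one]
  · rw [if_neg h1]
    exact zero_le

theorem D7i_inner {t s : ℝ} (ht : 0 ≤ t) (hs : |s| ≤ 1 / 8) :
    ∫⁻ p, K8 1 1 0 1 1 0 t (p.1, p.2, s) ∂lam2 ≤
      ENNReal.ofReal (1 / (1 / 2 + s)) *
        ((1 / 4) * (D7iS (1 / 2 - t - s) + (D7iD (1 / 2 - t + s) + D7iD (1 / 2 - t + s)))) := by
  have hprob := lam2_prob
  rw [abs_le] at hs
  have mA : MeasurableSet {p : ℝ × ℝ | 1 / 2 - t - s ≤ p.1 + p.2} :=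
    measurableSet_le measurable_const (measurable_fst.add measurable_snd)
  have mB : MeasurableSet {p : ℝ × ℝ | p.1 - p.2 ≤ 1 / 2 - t + s} :=
    measurableSet_le (measurable_fst.sub measurable_snd) measurable_const
  have mC : MeasurableSet {p : ℝ × ℝ | p.2 - p.1 ≤ 1 / 2 - t + s} :=
    measurableSet_le (measurable_snd.sub measurable_fst) measurable_const
  have hpt : ∀ᵐ p ∂lam2, K8 1 1 0 1 1 0 t (p.1, p.2, s) ≤ ENNReal.ofReal (1 / (1 / 2 + s)) *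
      ((1 / 4) * ({p : ℝ × ℝ | 1 / 2 - t - s ≤ p.1 + p.2}.indicator (fun _ => (1 : ℝ≥0∞)) p +
        ({p : ℝ × ℝ | p.1 - p.2 ≤ 1 / 2 - t + s}.indicator (fun _ => (1 : ℝ≥0∞)) p +
        {p : ℝ × ℝ | p.2 - p.1 ≤ 1 / 2 - t + s}.indicator (fun _ => (1 : ℝ≥0∞)) p))) := by
    filter_upwards [lam2_ae] with p hp
    obtain ⟨hp1, hp2⟩ := hp
    rw [abs_le] at hp1 hp2
    have hW : Real.sqrt (W7 1 1 0 (p.1, p.2, s)) = 1 / 2 + s := by
      rw [show W7 1 1 0 (p.1, p.2, s) = (1 / 2 + s) ^ 2 by unfold W7; push_cast; ring]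
      exact Real.sqrt_sq (by linarith)
    unfold K8
    rw [hW]
    simp only [Int.cast_one, Int.cast_zero, one_mul, zero_mul]
    rw [k8_zero]
    unfold k4
    have hA : ker (1 / 2 - p.1 + (1 / 2 - p.2)) (1 / 2 + s) t ≤ ENNReal.ofReal (1 / (1 / 2 + s)) *
        {p : ℝ × ℝ | 1 / 2 - t - s ≤ p.1 + p.2}.indicator (fun _ => (1 : ℝ≥0∞)) p :=
      D7i_ker fun h => by
        have h1 := (abs_le.1 h).1
        simp only [Set.mem_ofPred_eq]
        linarith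
    have hB : ker (1 / 2 - p.1 - (1 / 2 - p.2)) (1 / 2 + s) t ≤ ENNReal.ofReal (1 / (1 / 2 + s)) *
        {p : ℝ × ℝ | p.1 - p.2 ≤ 1 / 2 - t + s}.indicator (fun _ => (1 : ℝ≥0∞)) p :=
      D7i_ker fun h => by
        have h1 := (abs_le.1 h).2
        simp only [Set.mem_ofPred_eq]
        linarith
    have hC : ker (-(1 / 2 - p.1) + (1 / 2 - p.2)) (1 / 2 + s) t ≤
        ENNReal.ofReal (1 / (1 / 2 + s)) *
        {p : ℝ × ℝ | p.2 - p.1 ≤ 1 / 2 - t + s}.indicator (fun _ => (1 : ℝ≥0∞)) p :=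
      D7i_ker fun h => by
        have h1 := (abs_le.1 h).2
        simp only [Set.mem_ofPred_eq]
        linarith
    have h0 : ker (-(1 / 2 - p.1) - (1 / 2 - p.2)) (1 / 2 + s) t = 0 := by
      unfold ker
      rw [if_neg]
      intro h
      have := (abs_le.1 h).2
      linarith [hp1.2, hp2.2]
    rw [h0, add_zero, ENNReal.div_eq_inv_mul]
    calc (4 : ℝ≥0∞)⁻¹ * (ker (1 / 2 - p.1 + (1 / 2 - p.2)) (1 / 2 + s) t +
          ker (1 / 2 - p.1 - (1 / 2 - p.2)) (1 / 2 + s) t +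
          ker (-(1 / 2 - p.1) + (1 / 2 - p.2)) (1 / 2 + s) t)
        ≤ (4 : ℝ≥0∞)⁻¹ * (ENNReal.ofReal (1 / (1 / 2 + s)) *
            {p : ℝ × ℝ | 1 / 2 - t - s ≤ p.1 + p.2}.indicator (fun _ => (1 : ℝ≥0∞)) p +
          ENNReal.ofReal (1 / (1 / 2 + s)) *
            {p : ℝ × ℝ | p.1 - p.2 ≤ 1 / 2 - t + s}.indicator (fun _ => (1 : ℝ≥0∞)) p +
          ENNReal.ofReal (1 / (1 / 2 + s)) *
            {p : ℝ × ℝ | p.2 - p.1 ≤ 1 / 2 - t + s}.indicator (fun _ => (1 : ℝ≥0∞)) p) := by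
          gcongr
      _ = _ := by
          rw [one_div (4 : ℝ≥0∞)]
          ring
  refine (lintegral_mono_ae hpt).trans (le_of_eq ?_)
  have e1 : ∀ S : Set (ℝ × ℝ), MeasurableSet S →
      Measurable (S.indicator (fun _ => (1 : ℝ≥0∞))) := fun S hS => measurable_const.indicator hS
  rw [lintegral_const_mul' _ _ ENNReal.ofReal_ne_top, lintegral_const_mul' _ _ (by norm_num),
    lintegral_add_left (e1 _ mA), lintegral_add_left (e1 _ mB), lintegral_indicator_const mA,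
    lintegral_indicator_const mB, lintegral_indicator_const mC, one_mul, one_mul, one_mul,
    D7i_swap]
  rfl

theorem D7i_pos {t : ℝ} (ht : 0 ≤ t) : L7 1 1 0 1 1 0 t ≤ 1 := by
  have hprob := lam2_prob
  have mS : Measurable D7iS := D7i_S_anti.measurable
  have mD : Measurable D7iD := D7i_D_mono.measurable
  rw [L7_eq, lint7_o3 _ (K8_measurable 1 1 0 1 1 0 t)]
  have hae : ∀ᵐ s ∂(lam (1 / 8)), |s| ≤ 1 / 8 := lam_ae (1 / 8)
  have step1 : ∫⁻ s, ∫⁻ p, K8 1 1 0 1 1 0 t (p.1, p.2, s) ∂lam2 ∂(lam (1 / 8)) ≤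
      ∫⁻ s, ENNReal.ofReal (1 / (1 / 2 + s)) *
        ((1 / 4) * (D7iS (1 / 2 - t - s) + (D7iD (1 / 2 - t + s) + D7iD (1 / 2 - t + s))))
        ∂(lam (1 / 8)) := by
    refine lintegral_mono_ae ?_
    filter_upwards [hae] with s hs using D7i_inner ht hs
  refine step1.trans ?_
  have mS' : Measurable fun s : ℝ => D7iS (1 / 2 - t - s) := mS.comp (by fun_prop)
  have mS'' : Measurable fun s : ℝ => D7iS (1 / 2 - t + s) := mS.comp (by fun_prop)
  have mD' : Measurable fun s : ℝ => D7iD (1 / 2 - t + s) := mD.comp (by fun_prop)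
  have mF : Measurable fun s : ℝ => ENNReal.ofReal (1 / (1 / 2 + s)) *
      ((1 / 4) * (D7iS (1 / 2 - t - s) + (D7iD (1 / 2 - t + s) + D7iD (1 / 2 - t + s)))) :=
    (by fun_prop : Measurable fun s : ℝ => ENNReal.ofReal (1 / (1 / 2 + s))).mul
      ((mS'.add (mD'.add mD')).const_mul _)
  rw [J1_lint (1 / 8) _ mF]
  have hD2 : Measurable fun s : ℝ => D7iD (1 / 2 - t + s) + D7iD (1 / 2 - t + s) := mD'.add mD'
  have step2 : ∫⁻ s in Set.Icc (-(1 / 8) : ℝ) (1 / 8), ENNReal.ofReal ((1 / 2 + s) / (1 / 8)) *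
      (ENNReal.ofReal (1 / (1 / 2 + s)) *
        ((1 / 4) * (D7iS (1 / 2 - t - s) + (D7iD (1 / 2 - t + s) + D7iD (1 / 2 - t + s))))) =
      2 * ∫⁻ s in Set.Icc (-(1 / 8) : ℝ) (1 / 8),
        (D7iS (1 / 2 - t - s) + (D7iD (1 / 2 - t + s) + D7iD (1 / 2 - t + s))) := by
    rw [← lintegral_const_mul' _ _ (by norm_num)]
    refine setLIntegral_congr_fun measurableSet_Icc fun s hs => ?_
    have h1 : 0 < 1 / 2 + s := by linarith [hs.1]
    have e : ENNReal.ofReal ((1 / 2 + s) / (1 / 8)) * ENNReal.ofReal (1 / (1 / 2 + s)) = 8 := by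
      rw [← ENNReal.ofReal_mul (by positivity)]
      rw [show (1 / 2 + s) / (1 / 8) * (1 / (1 / 2 + s)) = (8 : ℕ) * ((1 / 2 + s) / (1 / 2 + s)) by
        push_cast; ring, div_self h1.ne', mul_one, ENNReal.ofReal_natCast]
      norm_num
    have e2 : (8 : ℝ≥0∞) * (1 / 4) = 2 := by
      rw [show (8 : ℝ≥0∞) = 2 * 4 by norm_num, mul_assoc, one_div,
        ENNReal.mul_inv_cancel (by norm_num) (by norm_num), mul_one]
    rw [← mul_assoc, e, ← mul_assoc, e2]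
  rw [step2, lintegral_add_right _ hD2]
  have step3 : ∫⁻ s in Set.Icc (-(1 / 8) : ℝ) (1 / 8), D7iS (1 / 2 - t - s) =
      ∫⁻ s in Set.Icc (-(1 / 8) : ℝ) (1 / 8), D7iS (1 / 2 - t + s) := by
    rw [← lintegral_indicator measurableSet_Icc, ← lintegral_indicator measurableSet_Icc,
      ← lintegral_neg_eq_self]
    refine lintegral_congr fun s => ?_
    by_cases hs : s ∈ Set.Icc (-(1 / 8) : ℝ) (1 / 8)
    · have hs' : -s ∈ Set.Icc (-(1 / 8) : ℝ) (1 / 8) := ⟨by linarith [hs.2], by linarith [hs.1]⟩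
      rw [Set.indicator_of_mem hs, Set.indicator_of_mem hs']
      congr 1
      ring
    · have hs' : -s ∉ Set.Icc (-(1 / 8) : ℝ) (1 / 8) := fun h =>
        hs ⟨by linarith [h.2], by linarith [h.1]⟩
      rw [Set.indicator_of_notMem hs, Set.indicator_of_notMem hs']
  rw [step3, ← lintegral_add_right _ hD2]
  have step4 : ∫⁻ s in Set.Icc (-(1 / 8) : ℝ) (1 / 8),
      (D7iS (1 / 2 - t + s) + (D7iD (1 / 2 - t + s) + D7iD (1 / 2 - t + s))) ≤
      ∫⁻ _ in Set.Icc (-(1 / 8) : ℝ) (1 / 8), (2 : ℝ≥0∞) :=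
    lintegral_mono fun s => D7i_sum _
  calc 2 * ∫⁻ s in Set.Icc (-(1 / 8) : ℝ) (1 / 8),
        (D7iS (1 / 2 - t + s) + (D7iD (1 / 2 - t + s) + D7iD (1 / 2 - t + s)))
      ≤ 2 * ∫⁻ _ in Set.Icc (-(1 / 8) : ℝ) (1 / 8), (2 : ℝ≥0∞) := by gcongr
    _ = 2 * (2 * ENNReal.ofReal (1 / 4)) := by
        rw [lintegral_const, Measure.restrict_apply MeasurableSet.univ, Set.univ_inter,
          Real.volume_Icc]
        norm_num
    _ = 1 := by
        rw [← mul_assoc, show (2 : ℝ≥0∞) * 2 = ENNReal.ofReal 4 by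
          rw [show (4 : ℝ) = ((4 : ℕ) : ℝ) by norm_num, ENNReal.ofReal_natCast]; norm_num,
          ← ENNReal.ofReal_mul (by norm_num)]
        norm_num

theorem L7_110 (t : ℝ) : L7 1 1 0 1 1 0 t ≤ 1 := by
  rcases le_total 0 t with h | h
  · exact D7i_pos h
  · rw [← L7_negt]
    exact D7i_pos (by linarith)

end Pool.Agent.helper49.Slope
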