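import Pool.Agent.helper49.Slope.D7c

/-!
MP_aedd95_co (slope of k-fold hyperplane covers of triangular grids), module D7j.
The law `D_7`, Lemma U: loads which depend on one digit.

PROOFS. `L7_single_i`: if `W7 x y z s = κ + (1/2+s_i)²` and the only nonzero centre coefficient is
`±1` at the digit `i`: `L7_eq`, `L7_abs`, `k8_zero_zero` (after `k8_swap*`), `lint7_m1`, `lint7_m2`,
`lint7_m3`.
`U7_le`: the integrand is `≤ 1/√(κ+c²)`, `lam_inv_sqrt`: `2/(√(κ+25/64)+√(κ+9/64)) =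
√(64κ+25) - √(64κ+9)`.
`U7_far`: if both centres `±(1-c)` cover `t` then `|t| + (1 - c) ≤ V = √(κ+c²)`, so `V ≥ (1+r) - c`,
`κ + c² ≥ ((1+r)-c)²`, `c ≥ w`. Hence the integrand is `≤ (1/2)(1/V) + (1/2)(1/V) 1{c ≥ w}`; the first
part as in `U7_le`, the second by `J1_lint`, `J1_ftc` on `[w - 1/2, 1/8]` (antiderivative
`8 √(κ + (1/2+s)²)`): `8 (√(κ+25/64) - √(κ+w²))` and `√(κ+w²) = (1+r) - w = ((1+r)+κ/(1+r))/2`.
-/

set_option autoImplicit false

open MeasureTheory ProbabilityTheory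
open scoped ENNReal

namespace Pool.Agent.helper49.Slope

/-- the integrand of `U7` -/
noncomputable def D7j_f (κ t s : ℝ) : ℝ≥0∞ :=
  (ker (1 / 2 - s) (Real.sqrt (κ + (1 / 2 + s) ^ 2)) t
    + ker (-(1 / 2 - s)) (Real.sqrt (κ + (1 / 2 + s) ^ 2)) t) / 2

theorem D7j_ker_meas {D V : ℝ → ℝ} (hD : Measurable D) (hV : Measurable V) (t : ℝ) :
    Measurable (fun s => ker (D s) (V s) t) := by
  unfold ker
  refine Measurable.ite ?_ (by fun_prop) measurable_const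
  exact measurableSet_le (by fun_prop) (by fun_prop)

theorem D7j_f_meas (κ t : ℝ) : Measurable (D7j_f κ t) := by
  unfold D7j_f
  refine Measurable.div_const ?_ 2
  refine Measurable.add ?_ ?_
  · exact D7j_ker_meas (by fun_prop) (by fun_prop) t
  · exact D7j_ker_meas (by fun_prop) (by fun_prop) t

theorem L7_single_1 (x y z a : ℤ) (κ : ℝ) (hW : ∀ s, W7 x y z s = κ + (1 / 2 + s.1) ^ 2)
    (ha : |a| = 1) (t : ℝ) : L7 x y z a 0 0 t = U7 κ t := by
  rw [L7_abs, L7_eq, ha]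
  have h : ∀ s : ℝ × ℝ × ℝ, K8 x y z 1 |0| |0| t s = D7j_f κ t s.1 := by
    intro s
    unfold K8 D7j_f
    rw [hW]
    simp only [abs_zero, Int.cast_one, Int.cast_zero, zero_mul, one_mul]
    rw [k8_zero_zero]
  rw [lintegral_congr h, lint7_m1 _ (D7j_f_meas κ t)]
  rfl

theorem L7_single_2 (x y z b : ℤ) (κ : ℝ) (hW : ∀ s, W7 x y z s = κ + (1 / 2 + s.2.1) ^ 2)
    (hb : |b| = 1) (t : ℝ) : L7 x y z 0 b 0 t = U7 κ t := by
  rw [L7_abs, L7_eq, hb]
  have h : ∀ s : ℝ × ℝ × ℝ, K8 x y z |0| 1 |0| t s = D7j_f κ t s.2.1 := by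
    intro s
    unfold K8 D7j_f
    rw [hW]
    simp only [abs_zero, Int.cast_one, Int.cast_zero, zero_mul, one_mul]
    rw [k8_swap12, k8_zero_zero]
  rw [lintegral_congr h, lint7_m2 _ (D7j_f_meas κ t)]
  rfl

theorem L7_single_3 (x y z c : ℤ) (κ : ℝ) (hW : ∀ s, W7 x y z s = κ + (1 / 2 + s.2.2) ^ 2)
    (hc : |c| = 1) (t : ℝ) : L7 x y z 0 0 c t = U7 κ t := by
  rw [L7_abs, L7_eq, hc]
  have h : ∀ s : ℝ × ℝ × ℝ, K8 x y z |0| |0| 1 t s = D7j_f κ t s.2.2 := by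
    intro s
    unfold K8 D7j_f
    rw [hW]
    simp only [abs_zero, Int.cast_one, Int.cast_zero, zero_mul, one_mul]
    rw [k8_swap13, k8_zero_zero]
  rw [lintegral_congr h, lint7_m3 _ (D7j_f_meas κ t)]
  rfl

/-- the affine single -/
theorem U7_zero (t : ℝ) : U7 0 t ≤ 1 := by
  have := lam8_prob
  have := sgnM_prob
  have h := digit_single (τ := 1 / 8) (by norm_num) (by norm_num) t
  have hm := J1_ker_meas t
  rw [lintegral_prod _ hm.aemeasurable] at h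
  have h2 : U7 0 t = ∫⁻ s, ∫⁻ η, ker (η * (1 / 2 - s)) (1 / 2 + s) t ∂sgnM ∂(lam (1 / 8)) := by
    unfold U7
    refine lintegral_congr_ae ?_
    filter_upwards [lam_ae (1 / 8)] with s hs
    have hs1 := (abs_le.1 hs).1
    rw [lintegral_sgnM _ (D7j_ker_meas (by fun_prop) measurable_const t), zero_add,
      Real.sqrt_sq (by linarith), one_mul, neg_one_mul]
  rw [h2]
  refine h.trans ?_
  split_ifs
  · exact le_refl _
  · exact zero_le_one

theorem D7j_ker_le (D V t : ℝ) : ker D V t ≤ ENNReal.ofReal (1 / V) := by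
  unfold ker
  split_ifs
  · exact le_refl _
  · exact zero_le

theorem D7j_f_le (κ t s : ℝ) :
    D7j_f κ t s ≤ ENNReal.ofReal (1 / Real.sqrt (κ + (1 / 2 + s) ^ 2)) := by
  unfold D7j_f
  refine ENNReal.div_le_of_le_mul ?_
  rw [mul_two]
  exact add_le_add (D7j_ker_le _ _ _) (D7j_ker_le _ _ _)

/-- `√(κ + 25/64) = √(64κ+25)/8` -/
theorem D7j_sqrt (κ a b : ℝ) (h : 64 * a = b) :
    Real.sqrt (κ + a) = Real.sqrt (64 * κ + b) / 8 := by
  rw [← h, show 64 * κ + 64 * a = 8 ^ 2 * (κ + a) by ring, Real.sqrt_mul (by norm_num),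
    Real.sqrt_sq (by norm_num)]
  ring

theorem D7j_int (κ : ℝ) (hκ : 0 < κ) :
    ∫⁻ s, ENNReal.ofReal (1 / Real.sqrt (κ + (1 / 2 + s) ^ 2)) ∂(lam (1 / 8)) =
      ENNReal.ofReal (Real.sqrt (64 * κ + 25) - Real.sqrt (64 * κ + 9)) := by
  have h := lam_inv_sqrt (τ := 1 / 8) (by norm_num) (by norm_num) κ 1 (fun s _ => by positivity)
  simp only [one_mul] at h
  rw [h]
  congr 1
  rw [show ((1 / 2 + 1 / 8) ^ 2 : ℝ) = 25 / 64 by norm_num,
    show ((1 / 2 - 1 / 8) ^ 2 : ℝ) = 9 / 64 by norm_num, D7j_sqrt κ (25 / 64) 25 (by norm_num),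
    D7j_sqrt κ (9 / 64) 9 (by norm_num)]
  have h1 : 0 < Real.sqrt (64 * κ + 25) := Real.sqrt_pos.2 (by linarith)
  have h2 : 0 < Real.sqrt (64 * κ + 9) := Real.sqrt_pos.2 (by linarith)
  have e1 := Real.mul_self_sqrt (show (0 : ℝ) ≤ 64 * κ + 25 by linarith)
  have e2 := Real.mul_self_sqrt (show (0 : ℝ) ≤ 64 * κ + 9 by linarith)
  rw [div_eq_iff (by positivity)]
  nlinarith [e1, e2]

theorem U7_le (κ t : ℝ) (hκ : 0 < κ) :
    U7 κ t ≤ ENNReal.ofReal (Real.sqrt (64 * κ + 25) - Real.sqrt (64 * κ + 9)) := by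
  rw [← D7j_int κ hκ]
  exact lintegral_mono fun s => D7j_f_le κ t s

/-- if both centres cover `t` then `w ≤ 1/2 + s` -/
theorem D7j_far (κ r t w s : ℝ) (hr : 0 ≤ r) (ht : r ≤ |t|)
    (hw : w = ((1 + r) - κ / (1 + r)) / 2) (hs : |s| ≤ 1 / 8) (hc : 1 / 2 + s < w) :
    D7j_f κ t s ≤ ENNReal.ofReal (1 / 2) *
      ENNReal.ofReal (1 / Real.sqrt (κ + (1 / 2 + s) ^ 2)) := by
  have hs1 := (abs_le.1 hs).1
  have hs2 := (abs_le.1 hs).2
  have hr1 : 0 < 1 + r := by linarith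
  have hkey : κ + (1 / 2 + s) ^ 2 < ((1 + r) - (1 / 2 + s)) ^ 2 := by
    have h1 : 2 * (1 + r) * (1 / 2 + s) < 2 * (1 + r) * w :=
      mul_lt_mul_of_pos_left hc (by linarith)
    have h2 : 2 * (1 + r) * w = (1 + r) ^ 2 - κ := by
      rw [hw]
      field_simp
    nlinarith [h1, h2]
  have hV : Real.sqrt (κ + (1 / 2 + s) ^ 2) < (1 + r) - (1 / 2 + s) := by
    rw [Real.sqrt_lt' (by linarith)]
    exact hkey
  have h := k4_zero_le (1 / 2 - s) (Real.sqrt (κ + (1 / 2 + s) ^ 2)) t (by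
    rw [abs_of_pos (by linarith : (0 : ℝ) < 1 / 2 - s)]
    linarith)
  rw [k4_zero] at h
  exact h

/-- the integral over `[w - 1/2, 1/8]` -/
theorem D7j_int2 (κ w : ℝ) (hκ : 0 < κ) (h1 : 3 / 8 ≤ w) (h2 : w ≤ 5 / 8) :
    ∫⁻ s, (Set.Ici (w - 1 / 2)).indicator
      (fun s => ENNReal.ofReal (1 / Real.sqrt (κ + (1 / 2 + s) ^ 2))) s ∂(lam (1 / 8)) =
      ENNReal.ofReal (Real.sqrt (64 * κ + 25) - 8 * Real.sqrt (κ + w ^ 2)) ∧
      0 ≤ Real.sqrt (64 * κ + 25) - 8 * Real.sqrt (κ + w ^ 2) := by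
  have hm : Measurable (fun s : ℝ => ENNReal.ofReal (1 / Real.sqrt (κ + (1 / 2 + s) ^ 2))) := by
    fun_prop
  rw [J1_lint _ _ (hm.indicator measurableSet_Ici)]
  have e : ∀ s : ℝ, ENNReal.ofReal ((1 / 2 + s) / (1 / 8)) * (Set.Ici (w - 1 / 2)).indicator
      (fun s => ENNReal.ofReal (1 / Real.sqrt (κ + (1 / 2 + s) ^ 2))) s =
      (Set.Ici (w - 1 / 2)).indicator (fun s => ENNReal.ofReal ((1 / 2 + s) / (1 / 8)) *
        ENNReal.ofReal (1 / Real.sqrt (κ + (1 / 2 + s) ^ 2))) s := by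
    intro s
    by_cases h : s ∈ Set.Ici (w - 1 / 2)
    · rw [Set.indicator_of_mem h, Set.indicator_of_mem h]
    · rw [Set.indicator_of_notMem h, Set.indicator_of_notMem h, mul_zero]
  rw [lintegral_congr e, lintegral_indicator measurableSet_Ici,
    Measure.restrict_restrict measurableSet_Ici]
  have e2 : Set.Ici (w - 1 / 2) ∩ Set.Icc (-(1 / 8)) (1 / 8 : ℝ) = Set.Icc (w - 1 / 2) (1 / 8) := by
    ext s
    simp only [Set.mem_inter_iff, Set.mem_Ici, Set.mem_Icc]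
    constructor
    · rintro ⟨a, b, c⟩
      exact ⟨a, c⟩
    · rintro ⟨a, b⟩
      exact ⟨a, by linarith, b⟩
  rw [e2]
  have hpos : ∀ s : ℝ, 0 < κ + (1 / 2 + s) ^ 2 := fun s => by positivity
  have hsp : ∀ s : ℝ, 0 < Real.sqrt (κ + (1 / 2 + s) ^ 2) := fun s => Real.sqrt_pos.2 (hpos s)
  have h := J1_ftc (by linarith : w - 1 / 2 ≤ 1 / 8)
    (fun s : ℝ => (1 / 2 + s) / (1 / 8) * (1 / Real.sqrt (κ + (1 / 2 + s) ^ 2)))
    (fun s => 8 * Real.sqrt (κ + (1 / 2 + s) ^ 2))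
    (by
      refine ContinuousOn.mul (Continuous.continuousOn (by fun_prop)) ?_
      exact ContinuousOn.div continuousOn_const (Continuous.continuousOn (by fun_prop))
        (fun s _ => (hsp s).ne'))
    (fun s hs => mul_nonneg (div_nonneg (by linarith [hs.1]) (by norm_num))
      (div_pos one_pos (hsp s)).le)
    (fun s _ => by
      have h2 : HasDerivAt (fun s : ℝ => κ + (1 / 2 + s) ^ 2) (2 * (1 / 2 + s)) s := by
        have h3 := (((hasDerivAt_id s).const_add (1 / 2)).pow 2).const_add κ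
        refine h3.congr_deriv ?_
        simp
      have h4 := (h2.sqrt (hpos s).ne').const_mul 8
      refine h4.congr_deriv ?_
      have := hsp s
      field_simp)
  have e3 : ∫⁻ s in Set.Icc (w - 1 / 2) (1 / 8), ENNReal.ofReal ((1 / 2 + s) / (1 / 8)) *
      ENNReal.ofReal (1 / Real.sqrt (κ + (1 / 2 + s) ^ 2)) =
      ∫⁻ s in Set.Icc (w - 1 / 2) (1 / 8), ENNReal.ofReal ((1 / 2 + s) / (1 / 8) *
        (1 / Real.sqrt (κ + (1 / 2 + s) ^ 2))) := by
    refine setLIntegral_congr_fun measurableSet_Icc ?_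
    intro s hs
    simp only
    rw [ENNReal.ofReal_mul (div_nonneg (by linarith [hs.1]) (by norm_num))]
  have e4 : 8 * Real.sqrt (κ + (1 / 2 + 1 / 8) ^ 2) - 8 * Real.sqrt (κ + (1 / 2 + (w - 1 / 2)) ^ 2)
      = Real.sqrt (64 * κ + 25) - 8 * Real.sqrt (κ + w ^ 2) := by
    rw [show ((1 / 2 + 1 / 8) ^ 2 : ℝ) = 25 / 64 by norm_num, D7j_sqrt κ (25 / 64) 25 (by norm_num),
      show 1 / 2 + (w - 1 / 2) = w by ring]
    ring
  rw [e3, h.1, ← e4]
  exact ⟨rfl, h.2⟩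

theorem U7_far (κ r t w : ℝ) (hκ : 0 < κ) (hr : 0 ≤ r) (ht : r ≤ |t|)
    (hw : w = ((1 + r) - κ / (1 + r)) / 2) (h1 : 3 / 8 ≤ w) (h2 : w ≤ 5 / 8) :
    U7 κ t ≤ ENNReal.ofReal (1 / 2 * (Real.sqrt (64 * κ + 25) - Real.sqrt (64 * κ + 9)) +
      1 / 2 * (Real.sqrt (64 * κ + 25) - 4 * ((1 + r) + κ / (1 + r)))) := by
  have hr1 : 0 < 1 + r := by linarith
  obtain ⟨i1, i2⟩ := D7j_int2 κ w hκ h1 h2
  have hsw : Real.sqrt (κ + w ^ 2) = ((1 + r) + κ / (1 + r)) / 2 := by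
    rw [Real.sqrt_eq_iff_mul_self_eq (by positivity) (by positivity), hw]
    field_simp
    ring
  have hm : Measurable (fun s : ℝ => ENNReal.ofReal (1 / Real.sqrt (κ + (1 / 2 + s) ^ 2))) := by
    fun_prop
  have hdiff : 0 ≤ Real.sqrt (64 * κ + 25) - Real.sqrt (64 * κ + 9) := by
    rw [sub_nonneg]
    exact Real.sqrt_le_sqrt (by linarith)
  have e : U7 κ t ≤ ∫⁻ s, (ENNReal.ofReal (1 / 2) *
      ENNReal.ofReal (1 / Real.sqrt (κ + (1 / 2 + s) ^ 2)) + ENNReal.ofReal (1 / 2) *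
        (Set.Ici (w - 1 / 2)).indicator
          (fun s => ENNReal.ofReal (1 / Real.sqrt (κ + (1 / 2 + s) ^ 2))) s) ∂(lam (1 / 8)) := by
    refine lintegral_mono_ae ?_
    filter_upwards [lam_ae (1 / 8)] with s hs
    by_cases hc : s ∈ Set.Ici (w - 1 / 2)
    · rw [Set.indicator_of_mem hc, ← add_mul, ← ENNReal.ofReal_add (by norm_num) (by norm_num),
        show (1 / 2 + 1 / 2 : ℝ) = 1 by norm_num, ENNReal.ofReal_one, one_mul]
      exact D7j_f_le κ t s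
    · rw [Set.indicator_of_notMem hc, mul_zero, add_zero]
      refine D7j_far κ r t w s hr ht hw hs ?_
      have : s < w - 1 / 2 := not_le.1 hc
      linarith
  refine e.trans ?_
  have hm1 : Measurable (fun s : ℝ => ENNReal.ofReal (1 / 2) *
      ENNReal.ofReal (1 / Real.sqrt (κ + (1 / 2 + s) ^ 2))) := hm.const_mul _
  rw [lintegral_add_left hm1, lintegral_const_mul _ hm,
    lintegral_const_mul _ (hm.indicator measurableSet_Ici), D7j_int κ hκ, i1,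
    ← ENNReal.ofReal_mul (by norm_num), ← ENNReal.ofReal_mul (by norm_num),
    ← ENNReal.ofReal_add (by positivity) (by positivity)]
  refine ENNReal.ofReal_le_ofReal ?_
  rw [hsw]
  apply le_of_eq
  ring

end Pool.Agent.helper49.Slope
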