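import Pool.Agent.helper49.Slope.D7j

/-!
MP_aedd95_co (slope of k-fold hyperplane covers of triangular grids), module D7j2.
The law `D_7`: the tables of Lemma U.

PROOFS. `TU7_ok`: `κ = 3/4`: unfold `TU7`, `split_ifs`; first case `U7_le` (`√73 - √57 ≤ 0.9943`); in
the next cases `U7_far` with `r` the left end of the interval (`r = 0.32, 0.355, .., 0.525`) and
rational bounds `8.5440 ≤ √73 ≤ 8.54401`, `7.5498 ≤ √57`. `TV7_ok`: `κ = 1/2`, `√57 ≤ 7.54984`,
`6.40312 ≤ √41`. `U7_54`: `κ = 5/4`, `r = 3/4`: `√105, √89`, `w = 29/56`. `U7_32`: `κ = 3/2`,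
`r = 3/4`: `√121 = 11`, `√105`, `w = 25/56`. The four loads by `L7_single_1`, `L7_single_3`.
-/

set_option autoImplicit false

open MeasureTheory ProbabilityTheory
open scoped ENNReal

namespace Pool.Agent.helper49.Slope

/-- numerical form of `U7_far` -/
theorem D7j2_far (κ r t a b B : ℝ) (hκ : 0 < κ) (hr : 0 ≤ r) (ht : r ≤ |t|)
    (h1 : 3 / 8 ≤ ((1 + r) - κ / (1 + r)) / 2) (h2 : ((1 + r) - κ / (1 + r)) / 2 ≤ 5 / 8)
    (ha : Real.sqrt (64 * κ + 25) ≤ a) (hb : b ≤ Real.sqrt (64 * κ + 9))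
    (hB : a - b / 2 - 2 * ((1 + r) + κ / (1 + r)) ≤ B) : U7 κ t ≤ ENNReal.ofReal B := by
  refine (U7_far κ r t _ hκ hr ht rfl h1 h2).trans (ENNReal.ofReal_le_ofReal ?_)
  linarith

theorem D7j2_far34 (r t B : ℝ) (hr : 0 ≤ r) (ht : r ≤ |t|)
    (h1 : 3 / 8 ≤ ((1 + r) - (3 / 4) / (1 + r)) / 2)
    (h2 : ((1 + r) - (3 / 4) / (1 + r)) / 2 ≤ 5 / 8)
    (hB : 854401 / 100000 - 75498 / 10000 / 2 - 2 * ((1 + r) + (3 / 4) / (1 + r)) ≤ B) :
    U7 (3 / 4) t ≤ ENNReal.ofReal B := by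
  refine D7j2_far (3 / 4) r t (854401 / 100000) (75498 / 10000) B (by norm_num) hr ht h1 h2 ?_ ?_ hB
  · exact Real.sqrt_le_iff.mpr ⟨by norm_num, by norm_num⟩
  · exact (Real.le_sqrt' (by norm_num)).mpr (by norm_num)

theorem D7j2_far12 (r t B : ℝ) (hr : 0 ≤ r) (ht : r ≤ |t|)
    (h1 : 3 / 8 ≤ ((1 + r) - (1 / 2) / (1 + r)) / 2)
    (h2 : ((1 + r) - (1 / 2) / (1 + r)) / 2 ≤ 5 / 8)
    (hB : 754984 / 100000 - 640312 / 100000 / 2 - 2 * ((1 + r) + (1 / 2) / (1 + r)) ≤ B) :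
    U7 (1 / 2) t ≤ ENNReal.ofReal B := by
  refine D7j2_far (1 / 2) r t (754984 / 100000) (640312 / 100000) B (by norm_num) hr ht h1 h2
    ?_ ?_ hB
  · exact Real.sqrt_le_iff.mpr ⟨by norm_num, by norm_num⟩
  · exact (Real.le_sqrt' (by norm_num)).mpr (by norm_num)

theorem TU7_ok (t : ℝ) : U7 (3 / 4) t ≤ ENNReal.ofReal (TU7 t) := by
  unfold TU7
  split_ifs with c1 c2 c3 c4 c5 c6 c7 c8 c9 c10 c11
  · refine (U7_le (3 / 4) t (by norm_num)).trans (ENNReal.ofReal_le_ofReal ?_)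
    have h1 : Real.sqrt (64 * (3 / 4) + 25) ≤ 854401 / 100000 :=
      Real.sqrt_le_iff.mpr ⟨by norm_num, by norm_num⟩
    have h2 : (75498 / 10000 : ℝ) ≤ Real.sqrt (64 * (3 / 4) + 9) :=
      (Real.le_sqrt' (by norm_num)).mpr (by norm_num)
    linarith
  · exact D7j2_far34 (32 / 100) t _ (by norm_num) (le_of_not_ge c1) (by norm_num) (by norm_num)
      (by norm_num)
  · exact D7j2_far34 (355 / 1000) t _ (by norm_num) (le_of_not_ge c2) (by norm_num) (by norm_num)
      (by norm_num)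
  · exact D7j2_far34 (38 / 100) t _ (by norm_num) (le_of_not_ge c3) (by norm_num) (by norm_num)
      (by norm_num)
  · exact D7j2_far34 (40 / 100) t _ (by norm_num) (le_of_not_ge c4) (by norm_num) (by norm_num)
      (by norm_num)
  · exact D7j2_far34 (42 / 100) t _ (by norm_num) (le_of_not_ge c5) (by norm_num) (by norm_num)
      (by norm_num)
  · exact D7j2_far34 (435 / 1000) t _ (by norm_num) (le_of_not_ge c6) (by norm_num) (by norm_num)
      (by norm_num)
  · exact D7j2_far34 (45 / 100) t _ (by norm_num) (le_of_not_ge c7) (by norm_num) (by norm_num)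
      (by norm_num)
  · exact D7j2_far34 (465 / 1000) t _ (by norm_num) (le_of_not_ge c8) (by norm_num) (by norm_num)
      (by norm_num)
  · exact D7j2_far34 (48 / 100) t _ (by norm_num) (le_of_not_ge c9) (by norm_num) (by norm_num)
      (by norm_num)
  · exact D7j2_far34 (50 / 100) t _ (by norm_num) (le_of_not_ge c10) (by norm_num) (by norm_num)
      (by norm_num)
  · exact D7j2_far34 (525 / 1000) t _ (by norm_num) (le_of_not_ge c11) (by norm_num) (by norm_num)
      (by norm_num)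

theorem TV7_ok (t : ℝ) : U7 (1 / 2) t ≤ ENNReal.ofReal (TV7 t) := by
  unfold TV7
  split_ifs with c1 c2 c3 c4 c5 c6 c7 c8 c9 c10 c11
  · refine (U7_le (1 / 2) t (by norm_num)).trans (ENNReal.ofReal_le_ofReal ?_)
    have h1 : Real.sqrt (64 * (1 / 2) + 25) ≤ 754984 / 100000 :=
      Real.sqrt_le_iff.mpr ⟨by norm_num, by norm_num⟩
    have h2 : (640312 / 100000 : ℝ) ≤ Real.sqrt (64 * (1 / 2) + 9) :=
      (Real.le_sqrt' (by norm_num)).mpr (by norm_num)
    linarith
  · exact D7j2_far12 (32 / 100) t _ (by norm_num) (le_of_not_ge c1) (by norm_num) (by norm_num)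
      (by norm_num)
  · exact D7j2_far12 (355 / 1000) t _ (by norm_num) (le_of_not_ge c2) (by norm_num) (by norm_num)
      (by norm_num)
  · exact D7j2_far12 (38 / 100) t _ (by norm_num) (le_of_not_ge c3) (by norm_num) (by norm_num)
      (by norm_num)
  · exact D7j2_far12 (40 / 100) t _ (by norm_num) (le_of_not_ge c4) (by norm_num) (by norm_num)
      (by norm_num)
  · exact D7j2_far12 (42 / 100) t _ (by norm_num) (le_of_not_ge c5) (by norm_num) (by norm_num)
      (by norm_num)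
  · exact D7j2_far12 (435 / 1000) t _ (by norm_num) (le_of_not_ge c6) (by norm_num) (by norm_num)
      (by norm_num)
  · exact D7j2_far12 (45 / 100) t _ (by norm_num) (le_of_not_ge c7) (by norm_num) (by norm_num)
      (by norm_num)
  · exact D7j2_far12 (465 / 1000) t _ (by norm_num) (le_of_not_ge c8) (by norm_num) (by norm_num)
      (by norm_num)
  · exact D7j2_far12 (48 / 100) t _ (by norm_num) (le_of_not_ge c9) (by norm_num) (by norm_num)
      (by norm_num)
  · exact D7j2_far12 (50 / 100) t _ (by norm_num) (le_of_not_ge c10) (by norm_num) (by norm_num)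
      (by norm_num)
  · exact D7j2_far12 (525 / 1000) t _ (by norm_num) (le_of_not_ge c11) (by norm_num) (by norm_num)
      (by norm_num)

theorem U7_54 (t : ℝ) (ht : 3 / 4 ≤ |t|) : U7 (5 / 4) t ≤ ENNReal.ofReal (6014 / 10000) := by
  refine D7j2_far (5 / 4) (3 / 4) t (10246951 / 1000000) (943398 / 100000) _ (by norm_num)
    (by norm_num) ht (by norm_num) (by norm_num) ?_ ?_ (by norm_num)
  · exact Real.sqrt_le_iff.mpr ⟨by norm_num, by norm_num⟩
  · exact (Real.le_sqrt' (by norm_num)).mpr (by norm_num)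

theorem U7_32 (t : ℝ) (ht : 3 / 4 ≤ |t|) : U7 (3 / 2) t ≤ ENNReal.ofReal (6623 / 10000) := by
  refine D7j2_far (3 / 2) (3 / 4) t 11 (1024695 / 100000) _ (by norm_num)
    (by norm_num) ht (by norm_num) (by norm_num) ?_ ?_ (by norm_num)
  · exact Real.sqrt_le_iff.mpr ⟨by norm_num, by norm_num⟩
  · exact (Real.le_sqrt' (by norm_num)).mpr (by norm_num)

theorem L7_122 (t : ℝ) : L7 1 2 2 1 0 0 t ≤ ENNReal.ofReal (TU7 t) := by
  rw [L7_single_1 1 2 2 1 (3 / 4) (fun s => by unfold W7; push_cast; ring) (by norm_num) t]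
  exact TU7_ok t

theorem L7_221 (t : ℝ) : L7 2 2 1 0 0 1 t ≤ ENNReal.ofReal (TV7 t) := by
  rw [L7_single_3 2 2 1 1 (1 / 2) (fun s => by unfold W7; push_cast; ring) (by norm_num) t]
  exact TV7_ok t

theorem L7_322_far (t : ℝ) (ht : 3 / 4 ≤ |t|) :
    L7 3 2 2 1 0 0 t ≤ ENNReal.ofReal (6014 / 10000) := by
  rw [L7_single_1 3 2 2 1 (5 / 4) (fun s => by unfold W7; push_cast; ring) (by norm_num) t]
  exact U7_54 t ht

theorem L7_223_far (t : ℝ) (ht : 3 / 4 ≤ |t|) :
    L7 2 2 3 0 0 1 t ≤ ENNReal.ofReal (6623 / 10000) := by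
  rw [L7_single_3 2 2 3 1 (3 / 2) (fun s => by unfold W7; push_cast; ring) (by norm_num) t]
  exact U7_32 t ht

end Pool.Agent.helper49.Slope
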