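import Pool.Agent.helper49.Slope.D7c

/-!
MP_aedd95_co (slope of k-fold hyperplane covers of triangular grids), module D7k.
The law `D_7`: pattern `(1,0,1;1,0,1)`, reduction to the function `G7`.

PROOFS. `W7 1 0 1 s = q₂ + 1/8`, `V = √(1/8 + (1/2+s₂)²) ≤ √33/8 < 3/4`, centres `±(h₁+h₃)`,
`±(h₁-h₃)`, each twice (`k8_swap23`, `k8_zero`), `h₁+h₃ = 1-s₁-s₃`. `L7_101_le`: by `L7_negt`/`L7_abst`
take `t ≥ 0`; the centre `-(h₁+h₃)` has distance `≥ 3/4 > V`; the centre `h₁+h₃` covers only if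
`1-s₁-s₃-t ≤ V`; the other two are bounded by `1`: the integrand is `≤ (1/V)(2 + 1{1-t ≤ s₁+s₃+V})/4`.
`O7_mono`: the set grows with `t`.
`O7_eq`: digit 2 innermost (`lint7_2`, then `lint7_m13`-type `lam2` in `(s₁,s₃)`): for fixed `(s₁,s₃)`,
`th = 1-t-s₁-s₃`: `∫⁻ 1/V · 1{V ≥ th} dlam + 8 (a-th)₊ = 8 (b-th)₊` in `ℝ≥0∞`, where `a = √17/8`,
`b = √33/8` are the values of `V` at `s₂ = ∓1/8` (`V` is increasing in `s₂`): the density times `1/V`
is `8 c/V = (8V)'`, so the integral is `8(b - max(a, th))` if `th ≤ b` and `0` otherwise (`J1_lint`,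
`J1_ftc`). Then integrate over `(s₁,s₃)`: `lintegral_add_left`, `G7`.
-/

set_option autoImplicit false

open MeasureTheory ProbabilityTheory
open scoped ENNReal

namespace Pool.Agent.helper49.Slope

/-- `E [1/V; s₁ + s₃ ≥ 1 - t - V]` -/
noncomputable def O7 (t : ℝ) : ℝ≥0∞ :=
  ∫⁻ s, {s : ℝ × ℝ × ℝ | 1 - t ≤ s.1 + s.2.2 + Real.sqrt (1 / 8 + (1 / 2 + s.2.1) ^ 2)}.indicator
    (fun s => ENNReal.ofReal (1 / Real.sqrt (1 / 8 + (1 / 2 + s.2.1) ^ 2))) s ∂lam3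

theorem D7k_W (s : ℝ × ℝ × ℝ) : W7 1 0 1 s = 1 / 8 + (1 / 2 + s.2.1) ^ 2 := by
  unfold W7
  push_cast
  ring

theorem D7k_V {x : ℝ} (hx : |x| ≤ 1 / 8) : 0 < Real.sqrt (1 / 8 + (1 / 2 + x) ^ 2) ∧
    Real.sqrt (1 / 8 + (1 / 2 + x) ^ 2) < 3 / 4 := by
  have h := abs_le.1 hx
  refine ⟨Real.sqrt_pos.2 (by positivity), ?_⟩
  rw [Real.sqrt_lt' (by norm_num)]
  nlinarith [h.1, h.2]

theorem D7k_Vmeas : Measurable (fun s : ℝ × ℝ × ℝ =>
    Real.sqrt (1 / 8 + (1 / 2 + s.2.1) ^ 2)) := by fun_prop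

theorem D7k_meas (t : ℝ) : MeasurableSet {s : ℝ × ℝ × ℝ | 1 - t ≤ s.1 + s.2.2 +
    Real.sqrt (1 / 8 + (1 / 2 + s.2.1) ^ 2)} :=
  measurableSet_le measurable_const (by fun_prop)

theorem D7k_fmeas (t : ℝ) : Measurable ({s : ℝ × ℝ × ℝ | 1 - t ≤ s.1 + s.2.2 +
    Real.sqrt (1 / 8 + (1 / 2 + s.2.1) ^ 2)}.indicator
    (fun s => ENNReal.ofReal (1 / Real.sqrt (1 / 8 + (1 / 2 + s.2.1) ^ 2)))) :=
  Measurable.indicator (by fun_prop) (D7k_meas t)

theorem D7k_pt {t : ℝ} (ht : 0 ≤ t) {s : ℝ × ℝ × ℝ} (hs : R7 s) :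
    K8 1 0 1 1 0 1 t s ≤ ENNReal.ofReal (1 / 2) * I7 1 0 1 s + ENNReal.ofReal (1 / 4) *
      {s : ℝ × ℝ × ℝ | 1 - t ≤ s.1 + s.2.2 + Real.sqrt (1 / 8 + (1 / 2 + s.2.1) ^ 2)}.indicator
        (fun s => ENNReal.ofReal (1 / Real.sqrt (1 / 8 + (1 / 2 + s.2.1) ^ 2))) s := by
  obtain ⟨h1, h2, h3⟩ := hs
  obtain ⟨hV0, hV1⟩ := D7k_V h2
  rw [abs_le] at h1 h3
  unfold K8 I7
  rw [D7k_W]
  set V := Real.sqrt (1 / 8 + (1 / 2 + s.2.1) ^ 2) with hV
  rw [k8_eq hV0]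
  push_cast
  have hiV : 0 ≤ 1 / V := by positivity
  have e4 : D6ca_i (-(1 * (1 / 2 - s.1)) + 0 * (1 / 2 - s.2.1)) V (t + 1 * (1 / 2 - s.2.2)) = 0 := by
    unfold D6ca_i
    rw [if_neg]
    intro h
    have := (abs_le.1 h).2
    linarith
  have e4' : D6ca_i (-(1 * (1 / 2 - s.1)) - 0 * (1 / 2 - s.2.1)) V (t + 1 * (1 / 2 - s.2.2)) = 0 := by
    unfold D6ca_i
    rw [if_neg]
    intro h
    have := (abs_le.1 h).2
    linarith
  have e2 := D6ca_i_le (-(1 * (1 / 2 - s.1)) + 0 * (1 / 2 - s.2.1)) V (t - 1 * (1 / 2 - s.2.2))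
  have e2' := D6ca_i_le (-(1 * (1 / 2 - s.1)) - 0 * (1 / 2 - s.2.1)) V (t - 1 * (1 / 2 - s.2.2))
  have e3 := D6ca_i_le (1 * (1 / 2 - s.1) + 0 * (1 / 2 - s.2.1)) V (t + 1 * (1 / 2 - s.2.2))
  have e3' := D6ca_i_le (1 * (1 / 2 - s.1) - 0 * (1 / 2 - s.2.1)) V (t + 1 * (1 / 2 - s.2.2))
  by_cases hc : 1 - t ≤ s.1 + s.2.2 + V
  · have hmem : s ∈ {s : ℝ × ℝ × ℝ | 1 - t ≤ s.1 + s.2.2 +
        Real.sqrt (1 / 8 + (1 / 2 + s.2.1) ^ 2)} := hc
    rw [Set.indicator_of_mem hmem, ← hV, ← ENNReal.ofReal_mul (by norm_num),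
      ← ENNReal.ofReal_mul (by norm_num), ← ENNReal.ofReal_add (by positivity) (by positivity)]
    apply ENNReal.ofReal_le_ofReal
    rw [← add_mul]
    apply mul_le_mul_of_nonneg_right _ hiV
    have e1 := D6ca_i_le (1 * (1 / 2 - s.1) + 0 * (1 / 2 - s.2.1)) V (t - 1 * (1 / 2 - s.2.2))
    have e1' := D6ca_i_le (1 * (1 / 2 - s.1) - 0 * (1 / 2 - s.2.1)) V (t - 1 * (1 / 2 - s.2.2))
    rw [e4, e4']
    linarith
  · have hmem : s ∉ {s : ℝ × ℝ × ℝ | 1 - t ≤ s.1 + s.2.2 +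
        Real.sqrt (1 / 8 + (1 / 2 + s.2.1) ^ 2)} := hc
    rw [Set.indicator_of_notMem hmem, mul_zero, add_zero, ← ENNReal.ofReal_mul (by norm_num)]
    apply ENNReal.ofReal_le_ofReal
    apply mul_le_mul_of_nonneg_right _ hiV
    have e1 : D6ca_i (1 * (1 / 2 - s.1) + 0 * (1 / 2 - s.2.1)) V (t - 1 * (1 / 2 - s.2.2)) = 0 := by
      unfold D6ca_i
      rw [if_neg]
      intro h
      have := (abs_le.1 h).1
      exact hc (by linarith)
    have e1' : D6ca_i (1 * (1 / 2 - s.1) - 0 * (1 / 2 - s.2.1)) V (t - 1 * (1 / 2 - s.2.2)) = 0 := by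
      unfold D6ca_i
      rw [if_neg]
      intro h
      have := (abs_le.1 h).1
      exact hc (by linarith)
    rw [e1, e1', e4, e4']
    linarith

theorem L7_101_le (t : ℝ) : L7 1 0 1 1 0 1 t ≤
    ENNReal.ofReal (1 / 2) * E7 1 0 1 + ENNReal.ofReal (1 / 4) * O7 |t| := by
  rw [← L7_abst, L7_eq]
  have h1 : ∫⁻ s, K8 1 0 1 1 0 1 |t| s ∂lam3 ≤
      ∫⁻ s, (ENNReal.ofReal (1 / 2) * I7 1 0 1 s + ENNReal.ofReal (1 / 4) *
      {s : ℝ × ℝ × ℝ | 1 - |t| ≤ s.1 + s.2.2 +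
        Real.sqrt (1 / 8 + (1 / 2 + s.2.1) ^ 2)}.indicator
        (fun s => ENNReal.ofReal (1 / Real.sqrt (1 / 8 + (1 / 2 + s.2.1) ^ 2))) s) ∂lam3 := by
    refine lintegral_mono_ae ?_
    filter_upwards [lam3_ae] with s hs
    exact D7k_pt (abs_nonneg t) hs
  refine h1.trans (le_of_eq ?_)
  rw [lintegral_add_left ((I7_measurable 1 0 1).const_mul _),
    lintegral_const_mul _ (I7_measurable 1 0 1), lintegral_const_mul _ (D7k_fmeas |t|)]
  rfl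

theorem L7_101_34 (t : ℝ) : L7 1 0 1 1 0 1 t ≤ ENNReal.ofReal (3 / 4) * E7 1 0 1 := by
  refine L7_le_34 1 0 1 1 0 1 t fun s hs => Or.inr (Or.inl ?_)
  obtain ⟨h1, h2, h3⟩ := hs
  rw [D7k_W]
  have hV := (D7k_V h2).2
  rw [abs_le] at h1 h3
  have e1 := le_abs_self (((1 : ℤ) : ℝ) * (1 / 2 - s.1))
  have e2 := le_abs_self (((1 : ℤ) : ℝ) * (1 / 2 - s.2.2))
  push_cast at e1 e2 ⊢
  linarith

theorem O7_mono (s t : ℝ) (h : s ≤ t) : O7 s ≤ O7 t := by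
  unfold O7
  refine lintegral_mono fun x => ?_
  refine Set.indicator_le_indicator_of_subset (fun y hy => ?_) (fun _ => zero_le) x
  have hy' : 1 - s ≤ y.1 + y.2.2 + Real.sqrt (1 / 8 + (1 / 2 + y.2.1) ^ 2) := hy
  change 1 - t ≤ y.1 + y.2.2 + Real.sqrt (1 / 8 + (1 / 2 + y.2.1) ^ 2)
  linarith

theorem D7k_a : Real.sqrt (1 / 8 + (1 / 2 + -(1 / 8)) ^ 2) = Real.sqrt 17 / 8 := by
  rw [Real.sqrt_eq_iff_mul_self_eq (by norm_num) (by positivity)]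
  have := Real.mul_self_sqrt (show (0 : ℝ) ≤ 17 by norm_num)
  nlinarith

theorem D7k_b : Real.sqrt (1 / 8 + (1 / 2 + 1 / 8) ^ 2) = Real.sqrt 33 / 8 := by
  rw [Real.sqrt_eq_iff_mul_self_eq (by norm_num) (by positivity)]
  have := Real.mul_self_sqrt (show (0 : ℝ) ≤ 33 by norm_num)
  nlinarith

theorem D7k_ftc {x : ℝ} (h0 : -(1 / 8) ≤ x) (h1 : x ≤ 1 / 8) :
    ∫⁻ s in Set.Icc x (1 / 8), ENNReal.ofReal ((1 / 2 + s) / (1 / 8)) *
      ENNReal.ofReal (1 / Real.sqrt (1 / 8 + (1 / 2 + s) ^ 2)) =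
    ENNReal.ofReal (8 * (Real.sqrt 33 / 8 - Real.sqrt (1 / 8 + (1 / 2 + x) ^ 2))) := by
  have hpos : ∀ s : ℝ, 0 < Real.sqrt (1 / 8 + (1 / 2 + s) ^ 2) :=
    fun s => Real.sqrt_pos.2 (by positivity)
  have h := (J1_ftc h1 (fun s => (1 / 2 + s) / (1 / 8) * (1 / Real.sqrt (1 / 8 + (1 / 2 + s) ^ 2)))
    (fun s => 8 * Real.sqrt (1 / 8 + (1 / 2 + s) ^ 2))
    (ContinuousOn.mul (Continuous.continuousOn (by fun_prop))
      (ContinuousOn.div continuousOn_const (Continuous.continuousOn (by fun_prop))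
        fun s _ => (hpos s).ne'))
    (fun s hs => mul_nonneg (div_nonneg (by linarith [hs.1]) (by norm_num))
      (div_nonneg zero_le_one (hpos s).le))
    (fun s _ => by
      have h2 : HasDerivAt (fun s : ℝ => 1 / 8 + (1 / 2 + s) ^ 2) (2 * (1 / 2 + s)) s := by
        have h3 := (((hasDerivAt_id s).const_add (1 / 2)).pow 2).const_add (1 / 8)
        refine h3.congr_deriv ?_
        simp
      have h4 := (h2.sqrt (by positivity)).const_mul 8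
      refine h4.congr_deriv ?_
      have := hpos s
      field_simp)).1
  rw [D7k_b] at h
  rw [show 8 * (Real.sqrt 33 / 8 - Real.sqrt (1 / 8 + (1 / 2 + x) ^ 2)) =
    8 * (Real.sqrt 33 / 8) - 8 * Real.sqrt (1 / 8 + (1 / 2 + x) ^ 2) by ring, ← h]
  refine setLIntegral_congr_fun measurableSet_Icc ?_
  intro s hs
  exact (ENNReal.ofReal_mul (div_nonneg (by linarith [hs.1]) (by norm_num))).symm

/-- one digit -/
theorem D7k_in (r : ℝ) : ∫⁻ s, {s : ℝ | r ≤ Real.sqrt (1 / 8 + (1 / 2 + s) ^ 2)}.indicator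
      (fun s => ENNReal.ofReal (1 / Real.sqrt (1 / 8 + (1 / 2 + s) ^ 2))) s ∂(lam (1 / 8)) +
      8 * ENNReal.ofReal (Real.sqrt 17 / 8 - r) = 8 * ENNReal.ofReal (Real.sqrt 33 / 8 - r) := by
  have hset : MeasurableSet {s : ℝ | r ≤ Real.sqrt (1 / 8 + (1 / 2 + s) ^ 2)} :=
    measurableSet_le measurable_const (by fun_prop)
  have hm : Measurable ({s : ℝ | r ≤ Real.sqrt (1 / 8 + (1 / 2 + s) ^ 2)}.indicator
      (fun s => ENNReal.ofReal (1 / Real.sqrt (1 / 8 + (1 / 2 + s) ^ 2)))) :=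
    Measurable.indicator (by fun_prop) hset
  rw [J1_lint _ _ hm]
  have e8 : ∀ y : ℝ, 8 * ENNReal.ofReal y = ENNReal.ofReal (8 * y) := by
    intro y
    rw [ENNReal.ofReal_mul (by norm_num)]
    norm_num
  have h17 : Real.sqrt 17 / 8 ≤ Real.sqrt 33 / 8 := by
    have := Real.sqrt_le_sqrt (show (17 : ℝ) ≤ 33 by norm_num)
    linarith
  -- integral over the set where the indicator is one
  have key : ∀ x : ℝ, -(1 / 8) ≤ x → x ≤ 1 / 8 →
      (∀ s ∈ Set.Icc (-(1 / 8) : ℝ) (1 / 8),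
        (r ≤ Real.sqrt (1 / 8 + (1 / 2 + s) ^ 2) ↔ x ≤ s)) →
      ∫⁻ s in Set.Icc (-(1 / 8) : ℝ) (1 / 8), ENNReal.ofReal ((1 / 2 + s) / (1 / 8)) *
        {s : ℝ | r ≤ Real.sqrt (1 / 8 + (1 / 2 + s) ^ 2)}.indicator
          (fun s => ENNReal.ofReal (1 / Real.sqrt (1 / 8 + (1 / 2 + s) ^ 2))) s =
      ENNReal.ofReal (8 * (Real.sqrt 33 / 8 - Real.sqrt (1 / 8 + (1 / 2 + x) ^ 2))) := by
    intro x h0 h1 hx
    rw [← D7k_ftc h0 h1]
    have e1 : ∀ s ∈ Set.Icc (-(1 / 8) : ℝ) (1 / 8), ENNReal.ofReal ((1 / 2 + s) / (1 / 8)) *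
        {s : ℝ | r ≤ Real.sqrt (1 / 8 + (1 / 2 + s) ^ 2)}.indicator
          (fun s => ENNReal.ofReal (1 / Real.sqrt (1 / 8 + (1 / 2 + s) ^ 2))) s =
        (Set.Ici x).indicator (fun s => ENNReal.ofReal ((1 / 2 + s) / (1 / 8)) *
          ENNReal.ofReal (1 / Real.sqrt (1 / 8 + (1 / 2 + s) ^ 2))) s := by
      intro s hs
      by_cases hc : x ≤ s
      · rw [Set.indicator_of_mem (show s ∈ {s : ℝ | r ≤ Real.sqrt (1 / 8 + (1 / 2 + s) ^ 2)} from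
          (hx s hs).2 hc), Set.indicator_of_mem (show s ∈ Set.Ici x from hc)]
      · rw [Set.indicator_of_notMem (show s ∉ {s : ℝ | r ≤ Real.sqrt (1 / 8 + (1 / 2 + s) ^ 2)}
          from fun h => hc ((hx s hs).1 h)), Set.indicator_of_notMem (show s ∉ Set.Ici x from hc),
          mul_zero]
    rw [setLIntegral_congr_fun measurableSet_Icc e1, lintegral_indicator measurableSet_Ici,
      Measure.restrict_restrict measurableSet_Ici]
    congr 2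
    ext s
    simp only [Set.mem_inter_iff, Set.mem_Ici, Set.mem_Icc]
    constructor
    · rintro ⟨a1, a2, a3⟩
      exact ⟨a1, a3⟩
    · rintro ⟨a1, a2⟩
      exact ⟨a1, h0.trans a1, a2⟩
  rcases le_or_gt r (Real.sqrt 17 / 8) with hr | hr
  · rw [key (-(1 / 8)) le_rfl (by norm_num) (fun s hs => ⟨fun _ => hs.1, fun _ => ?_⟩), D7k_a,
      e8, e8, ← ENNReal.ofReal_add (by linarith) (by linarith)]
    · congr 1
      ring
    · refine hr.trans ?_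
      rw [← D7k_a]
      apply Real.sqrt_le_sqrt
      nlinarith [hs.1]
  · rw [ENNReal.ofReal_of_nonpos (show Real.sqrt 17 / 8 - r ≤ 0 by linarith), mul_zero, add_zero]
    have hr0 : 0 < r := lt_of_le_of_lt (by positivity) hr
    rcases le_or_gt r (Real.sqrt 33 / 8) with hr2 | hr2
    · have q17 := Real.mul_self_sqrt (show (0 : ℝ) ≤ 17 by norm_num)
      have q33 := Real.mul_self_sqrt (show (0 : ℝ) ≤ 33 by norm_num)
      have p17 := Real.sqrt_nonneg 17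
      have p33 := Real.sqrt_nonneg 33
      have h1 : 17 / 64 < r ^ 2 := by nlinarith
      have h2 : r ^ 2 ≤ 33 / 64 := by nlinarith
      have h3 : 3 / 8 ≤ Real.sqrt (r ^ 2 - 1 / 8) := by
        rw [Real.le_sqrt' (by norm_num)]
        nlinarith
      have h4 : Real.sqrt (r ^ 2 - 1 / 8) ≤ 5 / 8 := by
        rw [Real.sqrt_le_left (by norm_num)]
        nlinarith
      rw [key (Real.sqrt (r ^ 2 - 1 / 8) - 1 / 2) (by linarith) (by linarith), e8]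
      · congr 2
        rw [show 1 / 2 + (Real.sqrt (r ^ 2 - 1 / 8) - 1 / 2) = Real.sqrt (r ^ 2 - 1 / 8) by ring,
          Real.sq_sqrt (by linarith), show 1 / 8 + (r ^ 2 - 1 / 8) = r ^ 2 by ring,
          Real.sqrt_sq hr0.le]
      · intro s hs
        rw [Real.le_sqrt' hr0, sub_le_iff_le_add, Real.sqrt_le_left (by linarith [hs.1])]
        constructor <;> intro h <;> nlinarith
    · rw [ENNReal.ofReal_of_nonpos (show Real.sqrt 33 / 8 - r ≤ 0 by linarith), mul_zero]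
      rw [← lintegral_zero (μ := volume.restrict (Set.Icc (-(1 / 8) : ℝ) (1 / 8)))]
      refine setLIntegral_congr_fun measurableSet_Icc ?_
      intro s hs
      have h5 : s ∉ {s : ℝ | r ≤ Real.sqrt (1 / 8 + (1 / 2 + s) ^ 2)} := by
        intro h
        have h' : r ≤ Real.sqrt (1 / 8 + (1 / 2 + s) ^ 2) := h
        have h6 : Real.sqrt (1 / 8 + (1 / 2 + s) ^ 2) ≤ Real.sqrt 33 / 8 := by
          rw [← D7k_b]
          apply Real.sqrt_le_sqrt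
          nlinarith [hs.1, hs.2]
        linarith
      simp only [Set.indicator_of_notMem h5, mul_zero]

theorem O7_eq (t : ℝ) : O7 t + 8 * G7 (1 - t - Real.sqrt 17 / 8) =
    8 * G7 (1 - t - Real.sqrt 33 / 8) := by
  unfold O7 G7
  rw [lint7_2 _ (D7k_fmeas t), ← lintegral_const_mul _ (by fun_prop),
    ← lintegral_const_mul _ (by fun_prop), ← lintegral_add_right _ (by fun_prop)]
  refine lintegral_congr fun p => ?_
  have h := D7k_in (1 - t - p.1 - p.2)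
  rw [show p.1 + p.2 - (1 - t - Real.sqrt 17 / 8) = Real.sqrt 17 / 8 - (1 - t - p.1 - p.2) by ring,
    show p.1 + p.2 - (1 - t - Real.sqrt 33 / 8) = Real.sqrt 33 / 8 - (1 - t - p.1 - p.2) by ring,
    ← h]
  congr 1
  refine lintegral_congr fun s => ?_
  rw [Set.indicator_apply, Set.indicator_apply]
  refine if_congr ?_ rfl rfl
  simp only [Set.mem_ofPred_eq]
  constructor <;> intro h <;> linarith

end Pool.Agent.helper49.Slope
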