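import Pool.Agent.helper49.Slope.D7k
import Pool.Agent.helper49.Slope.D7f
import Pool.Agent.helper49.Slope.D7h2

/-!
MP_aedd95_co (slope of k-fold hyperplane covers of triangular grids), module D7k2.
The law `D_7`: pattern `(1,0,1;1,0,1)`, the table.
-/

set_option autoImplicit false

open MeasureTheory ProbabilityTheory
open scoped ENNReal

namespace Pool.Agent.helper49.Slope

theorem D7k2_anti (s t : ℝ) (h : s ≤ t) : G7 t ≤ G7 s := by
  unfold G7
  refine lintegral_mono fun q => ?_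
  exact ENNReal.ofReal_le_ofReal (by linarith)

theorem D7k2_b : Real.sqrt 33 / 8 ≤ 718071 / 1000000 := by
  have h : Real.sqrt 33 ≤ 718071 / 1000000 * 8 :=
    Real.sqrt_le_iff.2 ⟨by norm_num, by norm_num⟩
  linarith

theorem D7k2_a : 515388 / 1000000 ≤ Real.sqrt 17 / 8 := by
  have h : 515388 / 1000000 * 8 ≤ Real.sqrt 17 := Real.le_sqrt_of_sq_le (by norm_num)
  linarith

theorem D7k2_step (t r C A B : ℝ) (ht : |t| ≤ r)
    (h1 : G7 (1 - r - 718071 / 1000000) = ENNReal.ofReal B)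
    (h2 : G7 (1 - r - 515388 / 1000000) = ENNReal.ofReal A) (hA : 0 ≤ A)
    (hAB : A ≤ B) (hC : 1 / 2 * (162146 / 100000) + 2 * (B - A) ≤ C) :
    L7 1 0 1 1 0 1 t ≤ ENNReal.ofReal C := by
  have h3 : O7 r + 8 * ENNReal.ofReal A ≤ 8 * ENNReal.ofReal B := by
    have h4 := O7_eq r
    have h5 : ENNReal.ofReal A ≤ G7 (1 - r - Real.sqrt 17 / 8) := by
      rw [← h2]
      exact D7k2_anti _ _ (by have := D7k2_a; linarith)
    have h6 : G7 (1 - r - Real.sqrt 33 / 8) ≤ ENNReal.ofReal B := by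
      rw [← h1]
      exact D7k2_anti _ _ (by have := D7k2_b; linarith)
    calc O7 r + 8 * ENNReal.ofReal A ≤ O7 r + 8 * G7 (1 - r - Real.sqrt 17 / 8) := by gcongr
      _ = 8 * G7 (1 - r - Real.sqrt 33 / 8) := h4
      _ ≤ 8 * ENNReal.ofReal B := by gcongr
  have e8 : (8 : ℝ≥0∞) = ENNReal.ofReal 8 := by norm_num
  have h7 : O7 r ≤ ENNReal.ofReal (8 * B - 8 * A) := by
    rw [ENNReal.ofReal_sub _ (by positivity), ENNReal.ofReal_mul (by norm_num),
      ENNReal.ofReal_mul (by norm_num), ← e8]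
    exact ENNReal.le_sub_of_add_le_right (by finiteness) h3
  have h8 : O7 |t| ≤ ENNReal.ofReal (8 * B - 8 * A) := (O7_mono _ _ ht).trans h7
  calc L7 1 0 1 1 0 1 t ≤ ENNReal.ofReal (1 / 2) * E7 1 0 1 + ENNReal.ofReal (1 / 4) * O7 |t| :=
        L7_101_le t
    _ ≤ ENNReal.ofReal (1 / 2) * ENNReal.ofReal (162146 / 100000) +
        ENNReal.ofReal (1 / 4) * ENNReal.ofReal (8 * B - 8 * A) := by
        gcongr
        exact E7_101
    _ = ENNReal.ofReal (1 / 2 * (162146 / 100000) + 1 / 4 * (8 * B - 8 * A)) := by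
        rw [← ENNReal.ofReal_mul (by norm_num), ← ENNReal.ofReal_mul (by norm_num),
          ← ENNReal.ofReal_add (by norm_num) (by linarith)]
    _ ≤ ENNReal.ofReal C := ENNReal.ofReal_le_ofReal (by linarith)

theorem D7k2_pos (t r C : ℝ) (ht : |t| ≤ r) (hr0 : 281929 / 1000000 ≤ r)
    (hr2 : r ≤ 484612 / 1000000)
    (hA : 0 ≤ 25 / 6 * (1 / 4 - (1 - r - 515388 / 1000000)) ^ 3 -
      10 / 3 * (1 / 4 - (1 - r - 515388 / 1000000)) ^ 4 +
      8 / 15 * (1 / 4 - (1 - r - 515388 / 1000000)) ^ 5)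
    (hAB : 25 / 6 * (1 / 4 - (1 - r - 515388 / 1000000)) ^ 3 -
      10 / 3 * (1 / 4 - (1 - r - 515388 / 1000000)) ^ 4 +
      8 / 15 * (1 / 4 - (1 - r - 515388 / 1000000)) ^ 5 ≤
      1 / 48 - (1 - r - 718071 / 1000000) + 3 / 2 * (1 / 4 + (1 - r - 718071 / 1000000)) ^ 3 +
      2 * (1 / 4 + (1 - r - 718071 / 1000000)) ^ 4 +
      8 / 15 * (1 / 4 + (1 - r - 718071 / 1000000)) ^ 5)
    (hC : 1 / 2 * (162146 / 100000) + 2 * (1 / 48 - (1 - r - 718071 / 1000000) +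
      3 / 2 * (1 / 4 + (1 - r - 718071 / 1000000)) ^ 3 +
      2 * (1 / 4 + (1 - r - 718071 / 1000000)) ^ 4 +
      8 / 15 * (1 / 4 + (1 - r - 718071 / 1000000)) ^ 5 -
      (25 / 6 * (1 / 4 - (1 - r - 515388 / 1000000)) ^ 3 -
      10 / 3 * (1 / 4 - (1 - r - 515388 / 1000000)) ^ 4 +
      8 / 15 * (1 / 4 - (1 - r - 515388 / 1000000)) ^ 5)) ≤ C) :
    L7 1 0 1 1 0 1 t ≤ ENNReal.ofReal C :=
  D7k2_step t r C _ _ ht (G7_neg _ (by linarith) (by linarith))
    (G7_pos _ (by linarith) (by linarith)) hA hAB hC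

theorem D7k2_neg (t r C : ℝ) (ht : |t| ≤ r) (hr0 : 484612 / 1000000 ≤ r)
    (hr2 : r ≤ 531929 / 1000000)
    (hA : 0 ≤ 1 / 48 - (1 - r - 515388 / 1000000) +
      3 / 2 * (1 / 4 + (1 - r - 515388 / 1000000)) ^ 3 +
      2 * (1 / 4 + (1 - r - 515388 / 1000000)) ^ 4 +
      8 / 15 * (1 / 4 + (1 - r - 515388 / 1000000)) ^ 5)
    (hAB : 1 / 48 - (1 - r - 515388 / 1000000) +
      3 / 2 * (1 / 4 + (1 - r - 515388 / 1000000)) ^ 3 +
      2 * (1 / 4 + (1 - r - 515388 / 1000000)) ^ 4 +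
      8 / 15 * (1 / 4 + (1 - r - 515388 / 1000000)) ^ 5 ≤
      1 / 48 - (1 - r - 718071 / 1000000) + 3 / 2 * (1 / 4 + (1 - r - 718071 / 1000000)) ^ 3 +
      2 * (1 / 4 + (1 - r - 718071 / 1000000)) ^ 4 +
      8 / 15 * (1 / 4 + (1 - r - 718071 / 1000000)) ^ 5)
    (hC : 1 / 2 * (162146 / 100000) + 2 * (1 / 48 - (1 - r - 718071 / 1000000) +
      3 / 2 * (1 / 4 + (1 - r - 718071 / 1000000)) ^ 3 +
      2 * (1 / 4 + (1 - r - 718071 / 1000000)) ^ 4 +
      8 / 15 * (1 / 4 + (1 - r - 718071 / 1000000)) ^ 5 -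
      (1 / 48 - (1 - r - 515388 / 1000000) +
      3 / 2 * (1 / 4 + (1 - r - 515388 / 1000000)) ^ 3 +
      2 * (1 / 4 + (1 - r - 515388 / 1000000)) ^ 4 +
      8 / 15 * (1 / 4 + (1 - r - 515388 / 1000000)) ^ 5)) ≤ C) :
    L7 1 0 1 1 0 1 t ≤ ENNReal.ofReal C :=
  D7k2_step t r C _ _ ht (G7_neg _ (by linarith) (by linarith))
    (G7_neg _ (by linarith) (by linarith)) hA hAB hC

theorem L7_101 (t : ℝ) : L7 1 0 1 1 0 1 t ≤ ENNReal.ofReal (TF7 t) := by
  unfold TF7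
  split_ifs with h1 h2 h3 h4 h5 h6 h7 h8 h9 h10 h11
  · exact D7k2_pos t _ _ h1 (by norm_num) (by norm_num) (by norm_num) (by norm_num) (by norm_num)
  · exact D7k2_pos t _ _ h2 (by norm_num) (by norm_num) (by norm_num) (by norm_num) (by norm_num)
  · exact D7k2_pos t _ _ h3 (by norm_num) (by norm_num) (by norm_num) (by norm_num) (by norm_num)
  · exact D7k2_pos t _ _ h4 (by norm_num) (by norm_num) (by norm_num) (by norm_num) (by norm_num)
  · exact D7k2_pos t _ _ h5 (by norm_num) (by norm_num) (by norm_num) (by norm_num) (by norm_num)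
  · exact D7k2_pos t _ _ h6 (by norm_num) (by norm_num) (by norm_num) (by norm_num) (by norm_num)
  · exact D7k2_pos t _ _ h7 (by norm_num) (by norm_num) (by norm_num) (by norm_num) (by norm_num)
  · exact D7k2_pos t _ _ h8 (by norm_num) (by norm_num) (by norm_num) (by norm_num) (by norm_num)
  · exact D7k2_pos t _ _ h9 (by norm_num) (by norm_num) (by norm_num) (by norm_num) (by norm_num)
  · exact D7k2_neg t _ _ h10 (by norm_num) (by norm_num) (by norm_num) (by norm_num) (by norm_num)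
  · exact D7k2_neg t _ _ h11 (by norm_num) (by norm_num) (by norm_num) (by norm_num) (by norm_num)
  · refine (L7_101_34 t).trans ?_
    calc ENNReal.ofReal (3 / 4) * E7 1 0 1 ≤
        ENNReal.ofReal (3 / 4) * ENNReal.ofReal (162146 / 100000) := by
          gcongr
          exact E7_101
      _ = ENNReal.ofReal (3 / 4 * (162146 / 100000)) := by
          rw [← ENNReal.ofReal_mul (by norm_num)]
      _ ≤ _ := ENNReal.ofReal_le_ofReal (by norm_num)

end Pool.Agent.helper49.Slope
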