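import Pool.Agent.helper49.Slope.D7f
import Pool.Agent.helper49.Slope.D7i
import Pool.Agent.helper49.Slope.D7j

/-!
MP_aedd95_co (slope of k-fold hyperplane covers of triangular grids), module D7l1.
The law `D_7`: special patterns with `E 1/V = 2`.

PROOFS. `h_i = 1/2 - s_i ∈ [3/8,5/8]`, `D7_abs`. `(1,0,0)`: `V = c₁ ≤ 5/8`, `a` odd, `b, c` even. If
`|a| = 1, b = c = 0`: `L7_single_1` with `κ = 0` and `U7_zero`. Otherwise `|a| ≥ 3` (`3·3/8 = 9/8 > V`)
or `|b| ≥ 2` (`3/4 > V`) or `|c| ≥ 2`: `L7_le_12` and `E7_100`. `(0,0,1)` the same with digit 3,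
`E7_001`. `(1,1,0)`: `V = c₃ ≤ 5/8`; `|a| = |b| = 1`, `c = 0`: `L7_abs`, `L7_110`; otherwise
`L7_le_12`, `E7_110`. `(1,1,1)`: `V = 1/2` (`W7 1 1 1 s = 1/4`), some coefficient `≥ 3` in absolute
value: `L7_le_12`, `E7_111`.
-/

set_option autoImplicit false

open MeasureTheory ProbabilityTheory
open scoped ENNReal

namespace Pool.Agent.helper49.Slope

theorem D7l1_two (a : ℤ) (h : 2 ≤ |a|) {s : ℝ} (hs : |s| ≤ 1 / 8) :
    3 / 4 ≤ |(a : ℝ) * (1 / 2 - s)| := by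
  have h1 := (D7_abs a 2 (by exact_mod_cast h) hs).2
  norm_num at h1
  norm_num
  linarith

theorem D7l1_half : ENNReal.ofReal (1 / 2) * 2 = 1 := by
  rw [show (2 : ℝ≥0∞) = ENNReal.ofReal 2 by norm_num, ← ENNReal.ofReal_mul (by norm_num)]
  norm_num

/-- an odd integer has absolute value one or at least two -/
theorem D7l1_odd (a : ℤ) (ha : Odd a) : |a| = 1 ∨ 2 ≤ |a| := by
  have h0 : a ≠ 0 := by
    rintro rfl
    exact absurd ha (by decide)
  have := Int.one_le_abs h0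
  omega

/-- an even integer is zero or has absolute value at least two -/
theorem D7l1_even (a : ℤ) (ha : Even a) : a = 0 ∨ 2 ≤ |a| := by
  by_cases h0 : a = 0
  · exact Or.inl h0
  · right
    obtain ⟨k, rfl⟩ := ha
    have hk : k ≠ 0 := by
      rintro rfl
      exact h0 (by norm_num)
    have h1 := Int.one_le_abs hk
    have h2 : |k + k| = 2 * |k| := by
      rw [← two_mul, abs_mul]
      norm_num
    omega

/-- the common step: some coefficient is at least two and `V < 3/4` -/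
theorem D7l1_gen (x y z a b c : ℤ) (t : ℝ) (hE : E7 x y z ≤ 2)
    (hV : ∀ s, R7 s → Real.sqrt (W7 x y z s) < 3 / 4)
    (h : 2 ≤ |a| ∨ 2 ≤ |b| ∨ 2 ≤ |c|) : L7 x y z a b c t ≤ 1 := by
  have h1 := L7_le_12 x y z a b c t (fun s hs => by
    have hV' := hV s hs
    rcases h with h | h | h
    · exact Or.inl (hV'.trans_le (D7l1_two a h hs.1))
    · exact Or.inr (Or.inl (hV'.trans_le (D7l1_two b h hs.2.1)))
    · exact Or.inr (Or.inr (hV'.trans_le (D7l1_two c h hs.2.2))))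
  calc L7 x y z a b c t ≤ ENNReal.ofReal (1 / 2) * E7 x y z := h1
    _ ≤ ENNReal.ofReal (1 / 2) * 2 := by gcongr
    _ = 1 := D7l1_half

theorem D7l1_V {w s : ℝ} (hw : w = (1 / 2 + s) ^ 2) (hs : |s| ≤ 1 / 8) : Real.sqrt w < 3 / 4 := by
  have h := abs_le.1 hs
  rw [hw, Real.sqrt_sq (by linarith)]
  linarith

theorem D7l1_W100 (s : ℝ × ℝ × ℝ) : W7 1 0 0 s = (1 / 2 + s.1) ^ 2 := by
  unfold W7
  push_cast
  ring

theorem D7l1_W001 (s : ℝ × ℝ × ℝ) : W7 0 0 1 s = (1 / 2 + s.2.2) ^ 2 := by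
  unfold W7
  push_cast
  ring

theorem D7l1_W110 (s : ℝ × ℝ × ℝ) : W7 1 1 0 s = (1 / 2 + s.2.2) ^ 2 := by
  unfold W7
  push_cast
  ring

theorem D7l1_W111 (s : ℝ × ℝ × ℝ) : W7 1 1 1 s = (1 / 2) ^ 2 := by
  unfold W7
  push_cast
  ring

theorem L7_sp_100 (a b c : ℤ) (ha : Odd a) (hb : Even b) (hc : Even c) (t : ℝ) :
    L7 1 0 0 a b c t ≤ 1 := by
  have key : 2 ≤ |a| ∨ 2 ≤ |b| ∨ 2 ≤ |c| → L7 1 0 0 a b c t ≤ 1 :=
    D7l1_gen 1 0 0 a b c t E7_100 (fun s hs => D7l1_V (D7l1_W100 s) hs.1)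
  rcases D7l1_odd a ha with h1 | h1
  · rcases D7l1_even b hb with h2 | h2
    · rcases D7l1_even c hc with h3 | h3
      · subst h2 h3
        rw [L7_single_1 1 0 0 a 0 (fun s => by rw [D7l1_W100, zero_add]) h1]
        exact U7_zero t
      · exact key (Or.inr (Or.inr h3))
    · exact key (Or.inr (Or.inl h2))
  · exact key (Or.inl h1)

theorem L7_sp_001 (a b c : ℤ) (ha : Even a) (hb : Even b) (hc : Odd c) (t : ℝ) :
    L7 0 0 1 a b c t ≤ 1 := by
  have key : 2 ≤ |a| ∨ 2 ≤ |b| ∨ 2 ≤ |c| → L7 0 0 1 a b c t ≤ 1 :=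
    D7l1_gen 0 0 1 a b c t E7_001 (fun s hs => D7l1_V (D7l1_W001 s) hs.2.2)
  rcases D7l1_odd c hc with h1 | h1
  · rcases D7l1_even a ha with h2 | h2
    · rcases D7l1_even b hb with h3 | h3
      · subst h2 h3
        rw [L7_single_3 0 0 1 c 0 (fun s => by rw [D7l1_W001, zero_add]) h1]
        exact U7_zero t
      · exact key (Or.inr (Or.inl h3))
    · exact key (Or.inl h2)
  · exact key (Or.inr (Or.inr h1))

theorem L7_sp_110 (a b c : ℤ) (ha : Odd a) (hb : Odd b) (hc : Even c) (t : ℝ) :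
    L7 1 1 0 a b c t ≤ 1 := by
  have key : 2 ≤ |a| ∨ 2 ≤ |b| ∨ 2 ≤ |c| → L7 1 1 0 a b c t ≤ 1 :=
    D7l1_gen 1 1 0 a b c t E7_110 (fun s hs => D7l1_V (D7l1_W110 s) hs.2.2)
  rcases D7l1_odd a ha with h1 | h1
  · rcases D7l1_odd b hb with h2 | h2
    · rcases D7l1_even c hc with h3 | h3
      · subst h3
        rw [L7_abs, h1, h2, abs_zero]
        exact L7_110 t
      · exact key (Or.inr (Or.inr h3))
    · exact key (Or.inr (Or.inl h2))
  · exact key (Or.inl h1)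

theorem L7_sp_111 (a b c : ℤ) (ha : Odd a) (hb : Odd b) (hc : Odd c)
    (h : ¬ (|a| = 1 ∧ |b| = 1 ∧ |c| = 1)) (t : ℝ) : L7 1 1 1 a b c t ≤ 1 := by
  refine D7l1_gen 1 1 1 a b c t E7_111 (fun s hs => ?_) ?_
  · rw [D7l1_W111, Real.sqrt_sq (by norm_num)]
    norm_num
  · rcases D7l1_odd a ha with h1 | h1
    · rcases D7l1_odd b hb with h2 | h2
      · rcases D7l1_odd c hc with h3 | h3
        · exact absurd ⟨h1, h2, h3⟩ h
        · exact Or.inr (Or.inr h3)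
      · exact Or.inr (Or.inl h2)
    · exact Or.inl h1

end Pool.Agent.helper49.Slope
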