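import Pool.Agent.helper49.Slope.D7g
import Pool.Agent.helper49.Slope.D7h2

/-!
MP_aedd95_co (slope of k-fold hyperplane covers of triangular grids), module D7l3.
The law `D_7`: special patterns `(2,1,0)`, `(1,-1,0)`.

PROOFS. `h_i = 1/2 - s_i ∈ [3/8,5/8]`, `q_i = (1/2+s_i)² ∈ [9/64,25/64]`, `D7_abs`.
`(2,1,0)`: `V² = 2q₁ - q₂ + 2q₃ ≤ 91/64`, `a` even, `b` odd, `c` even, not `a = 0, |b| = 1, c = 0`. Then
`|b| h₂ + (|a| h₁ or |c| h₃ or 0) ≥ 9/8` in one of the three forms (`|a| ≥ 2`: `|a|h₁+|b|h₂ ≥ 9/8`;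
`|c| ≥ 2` similarly; `|b| ≥ 3`: `9/8`): if `V < 9/8`: `k8_le_34`; if `V ≥ 9/8` then
`2 q₁ ≥ 81/64 + q₂ - 2q₃ ≥ (81+9-50)/64 = 40/64`, `q₁ ≥ 20/64`, and `1/V ≤ 8/9`:
`k8 ≤ 1/V ≤ (3/4)(1/V) + (1/4)(8/9)`. `L7_split` with `p = ofReal (3/4)`, `r = ofReal (2/9)`,
`S = {s | 20/64 ≤ (1/2+s.1)²}`, `lam3_set1`, `lam_q20`, `E7_210`: `0.8676 + 0.0695 = 0.938`.
`(1,-1,0)`: `V² = 2q₁ + 2q₂ - q₃ ≤ 91/64 < (9/8)²·1.13`, `V ≤ 1.193`. Not `|a| = |b| = 1, c = 0`.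
 Case `|a| ≥ 3` or `|b| ≥ 3`: if `V < 9/8`: `k8_le_12`; if `V ≥ 9/8`: `q₁ ≥ 20/64`
 (`2q₁ ≥ 81/64 + 9/64 - 50/64`), `1/V ≤ 8/9`: `p = ofReal (1/2)`, `r = ofReal (4/9)`, `lam_q20`:
 `0.5784 + 0.1389`.
 Case `|a| = |b| = 1`, `|c| ≥ 2`: `h₁ + h₂ + |c| h₃ ≥ 3/2 > V`: `k8_le_78`; if `V < |c| h₃`: `k8_le_12`.
 If `V ≥ |c| h₃ ≥ 2 h₃` then `V ≥ 3/4`, `1/V ≤ 4/3`, and `2(q₁+q₂) ≥ q₃ + 4 (1-c₃)² ≥ 61/64`
 (`5c² - 8c + 4` is decreasing on `[3/8,5/8]`, at `5/8` it is `61/64`), `q₁+q₂ ≥ 61/128`: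
 `k8 ≤ (1/2)(1/V) + (3/8)(4/3) 1{q₁+q₂ ≥ 61/128}`: `p = ofReal (1/2)`, `r = ofReal (1/2)`,
 `lam3_set12`, `lam2_q (61/128)`: `0.5784 + 0.5·0.71875 = 0.9378`.
-/

set_option autoImplicit false

open MeasureTheory ProbabilityTheory
open scoped ENNReal

namespace Pool.Agent.helper49.Slope

theorem D7l3_add {x p r y : ℝ} (hp : 0 ≤ p) (hx : 0 ≤ x) (hr : 0 ≤ r) (h : y ≤ p * x + r) :
    ENNReal.ofReal y ≤ ENNReal.ofReal p * ENNReal.ofReal x + ENNReal.ofReal r := by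
  rw [← ENNReal.ofReal_mul hp, ← ENNReal.ofReal_add (mul_nonneg hp hx) hr]
  exact ENNReal.ofReal_le_ofReal h

theorem D7l3_fin {E M : ℝ≥0∞} {p r e m : ℝ} (hp : 0 ≤ p) (hr : 0 ≤ r) (he : 0 ≤ e) (hm : 0 ≤ m)
    (hE : E ≤ ENNReal.ofReal e) (hM : M ≤ ENNReal.ofReal m) (h : p * e + r * m ≤ 1) :
    ENNReal.ofReal p * E + ENNReal.ofReal r * M ≤ 1 := by
  calc ENNReal.ofReal p * E + ENNReal.ofReal r * M
      ≤ ENNReal.ofReal p * ENNReal.ofReal e + ENNReal.ofReal r * ENNReal.ofReal m := by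
        gcongr
    _ = ENNReal.ofReal (p * e + r * m) := by
        rw [← ENNReal.ofReal_mul hp, ← ENNReal.ofReal_mul hr,
          ← ENNReal.ofReal_add (mul_nonneg hp he) (mul_nonneg hr hm)]
    _ ≤ 1 := by
        rw [← ENNReal.ofReal_one]
        exact ENNReal.ofReal_le_ofReal h

/-- bounds for the squares -/
theorem D7l3_q {t : ℝ} (h : |t| ≤ 1 / 8) : 9 / 64 ≤ (1 / 2 + t) ^ 2 ∧ (1 / 2 + t) ^ 2 ≤ 25 / 64 := by
  obtain ⟨h1, h2⟩ := abs_le.1 h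
  constructor <;> nlinarith

/-- `V ≥ 9/8` gives `81/64 ≤ W` -/
theorem D7l3_V {W : ℝ} (h : 9 / 8 ≤ Real.sqrt W) : 81 / 64 ≤ W ∧ 1 / Real.sqrt W ≤ 8 / 9 := by
  constructor
  · have h0 : 0 ≤ W := by
      by_contra hneg
      rw [Real.sqrt_eq_zero_of_nonpos (by linarith)] at h
      norm_num at h
    have h1 := Real.sq_sqrt h0
    nlinarith
  · rw [div_le_iff₀ (by linarith)]
    linarith

theorem D7l3_meas1 : MeasurableSet {s : ℝ | 20 / 64 ≤ (1 / 2 + s) ^ 2} :=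
  measurableSet_le measurable_const (by fun_prop)

theorem D7l3_measS : MeasurableSet {s : ℝ × ℝ × ℝ | s.1 ∈ {s : ℝ | 20 / 64 ≤ (1 / 2 + s) ^ 2}} :=
  measurable_fst D7l3_meas1

theorem D7l3_one {a : ℤ} (h : Odd a) : ((1 : ℕ) : ℤ) ≤ |a| := by
  have : a ≠ 0 := by
    rintro rfl
    exact absurd h (by decide)
  have := abs_pos.2 this
  push_cast
  omega

theorem D7l3_two {a : ℤ} (h : Even a) (h0 : a ≠ 0) : ((2 : ℕ) : ℤ) ≤ |a| := by
  obtain ⟨k, rfl⟩ := h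
  have hk : k ≠ 0 := by
    rintro rfl
    exact h0 rfl
  have := abs_pos.2 hk
  have e : |k + k| = 2 * |k| := by
    rw [← two_mul, abs_mul, abs_two]
  rw [e]
  push_cast
  omega

theorem D7l3_three {a : ℤ} (h : Odd a) (h1 : |a| ≠ 1) : ((3 : ℕ) : ℤ) ≤ |a| := by
  obtain ⟨k, hk⟩ := h
  have h2 := D7l3_one (a := a) ⟨k, hk⟩
  push_cast at h2 ⊢
  rcases abs_cases a with ⟨e, _⟩ | ⟨e, _⟩ <;> omega

theorem L7_sp_210 (a b c : ℤ) (ha : Even a) (hb : Odd b) (hc : Even c)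
    (h : ¬ (a = 0 ∧ |b| = 1 ∧ c = 0)) (t : ℝ) : L7 2 1 0 a b c t ≤ 1 := by
  have key : ∀ s, R7 s → K8 2 1 0 a b c t s ≤ ENNReal.ofReal (3 / 4) * I7 2 1 0 s +
      ({s : ℝ × ℝ × ℝ | s.1 ∈ {s : ℝ | 20 / 64 ≤ (1 / 2 + s) ^ 2}}).indicator
        (fun _ => ENNReal.ofReal (2 / 9)) s := by
    intro s hs
    obtain ⟨s1, s2, s3⟩ := s
    obtain ⟨h1, h2, h3⟩ := hs
    change |s1| ≤ 1 / 8 at h1
    change |s2| ≤ 1 / 8 at h2
    change |s3| ≤ 1 / 8 at h3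
    have hW : W7 2 1 0 (s1, s2, s3) = 2 * (1 / 2 + s1) ^ 2 - (1 / 2 + s2) ^ 2
        + 2 * (1 / 2 + s3) ^ 2 := by
      unfold W7
      push_cast
      ring
    by_cases hV : Real.sqrt (W7 2 1 0 (s1, s2, s3)) < 9 / 8
    · refine le_trans (k8_le_34 _ _ _ _ _ ?_) (le_add_of_nonneg_right zero_le)
      have hb1 := (D7_abs b 1 (D7l3_one hb) h2).2
      have a0 := abs_nonneg ((a : ℝ) * (1 / 2 - s1))
      by_cases ha0 : a = 0
      · by_cases hc0 : c = 0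
        · have hb3 := (D7_abs b 3 (D7l3_three hb fun hb1 => h ⟨ha0, hb1, hc0⟩) h2).2
          left
          push_cast at hb3
          change Real.sqrt (W7 2 1 0 (s1, s2, s3)) <
            |(a : ℝ) * (1 / 2 - s1)| + |(b : ℝ) * (1 / 2 - s2)|
          linarith
        · have hc2 := (D7_abs c 2 (D7l3_two hc hc0) h3).2
          right
          right
          push_cast at hc2 hb1
          change Real.sqrt (W7 2 1 0 (s1, s2, s3)) <
            |(b : ℝ) * (1 / 2 - s2)| + |(c : ℝ) * (1 / 2 - s3)|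
          linarith
      · have ha2 := (D7_abs a 2 (D7l3_two ha ha0) h1).2
        left
        push_cast at ha2 hb1
        change Real.sqrt (W7 2 1 0 (s1, s2, s3)) <
          |(a : ℝ) * (1 / 2 - s1)| + |(b : ℝ) * (1 / 2 - s2)|
        linarith
    · push Not at hV
      obtain ⟨g1, g2⟩ := D7l3_V hV
      have q2 := D7l3_q h2
      have q3 := D7l3_q h3
      rw [hW] at g1
      have hmem : ((s1, s2, s3) : ℝ × ℝ × ℝ) ∈
          {s : ℝ × ℝ × ℝ | s.1 ∈ {s : ℝ | 20 / 64 ≤ (1 / 2 + s) ^ 2}} := by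
        change 20 / 64 ≤ (1 / 2 + s1) ^ 2
        linarith [q2.1, q3.2]
      rw [Set.indicator_of_mem hmem]
      refine (k8_le _ _ _ _ _).trans ?_
      refine D7l3_add (by norm_num) (by positivity) (by norm_num) ?_
      linarith
  refine (L7_split 2 1 0 a b c t _ _ _ D7l3_measS key).trans ?_
  rw [lam3_set1 _ D7l3_meas1]
  exact D7l3_fin (by norm_num) (by norm_num) (by norm_num) (by norm_num) E7_210 lam_q20
    (by norm_num)

theorem D7l3_meas2 : MeasurableSet {s : ℝ × ℝ | 61 / 128 ≤ (1 / 2 + s.1) ^ 2 + (1 / 2 + s.2) ^ 2} :=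
  measurableSet_le measurable_const (by fun_prop)

theorem D7l3_measS2 : MeasurableSet {s : ℝ × ℝ × ℝ | (s.1, s.2.1) ∈
    {s : ℝ × ℝ | 61 / 128 ≤ (1 / 2 + s.1) ^ 2 + (1 / 2 + s.2) ^ 2}} :=
  (measurable_fst.prodMk (measurable_fst.comp measurable_snd)) D7l3_meas2

theorem L7_sp_1m10 (a b c : ℤ) (ha : Odd a) (hb : Odd b) (hc : Even c)
    (h : ¬ (|a| = 1 ∧ |b| = 1 ∧ c = 0)) (t : ℝ) : L7 1 (-1) 0 a b c t ≤ 1 := by
  have hW : ∀ s1 s2 s3 : ℝ, W7 1 (-1) 0 (s1, s2, s3) = 2 * (1 / 2 + s1) ^ 2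
      + 2 * (1 / 2 + s2) ^ 2 - (1 / 2 + s3) ^ 2 := by
    intro s1 s2 s3
    unfold W7
    push_cast
    ring
  by_cases hab : |a| ≠ 1 ∨ |b| ≠ 1
  · have key : ∀ s, R7 s → K8 1 (-1) 0 a b c t s ≤ ENNReal.ofReal (1 / 2) * I7 1 (-1) 0 s +
        ({s : ℝ × ℝ × ℝ | s.1 ∈ {s : ℝ | 20 / 64 ≤ (1 / 2 + s) ^ 2}}).indicator
          (fun _ => ENNReal.ofReal (4 / 9)) s := by
      intro s hs
      obtain ⟨s1, s2, s3⟩ := s
      obtain ⟨h1, h2, h3⟩ := hs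
      change |s1| ≤ 1 / 8 at h1
      change |s2| ≤ 1 / 8 at h2
      change |s3| ≤ 1 / 8 at h3
      by_cases hV : Real.sqrt (W7 1 (-1) 0 (s1, s2, s3)) < 9 / 8
      · refine le_trans (k8_le_12 _ _ _ _ _ ?_) (le_add_of_nonneg_right zero_le)
        rcases hab with ha1 | hb1
        · have ha3 := (D7_abs a 3 (D7l3_three ha ha1) h1).2
          left
          push_cast at ha3
          change Real.sqrt (W7 1 (-1) 0 (s1, s2, s3)) < |(a : ℝ) * (1 / 2 - s1)|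
          linarith
        · have hb3 := (D7_abs b 3 (D7l3_three hb hb1) h2).2
          right
          left
          push_cast at hb3
          change Real.sqrt (W7 1 (-1) 0 (s1, s2, s3)) < |(b : ℝ) * (1 / 2 - s2)|
          linarith
      · push Not at hV
        obtain ⟨g1, g2⟩ := D7l3_V hV
        have q2 := D7l3_q h2
        have q3 := D7l3_q h3
        rw [hW] at g1
        have hmem : ((s1, s2, s3) : ℝ × ℝ × ℝ) ∈
            {s : ℝ × ℝ × ℝ | s.1 ∈ {s : ℝ | 20 / 64 ≤ (1 / 2 + s) ^ 2}} := by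
          change 20 / 64 ≤ (1 / 2 + s1) ^ 2
          linarith [q2.2, q3.1]
        rw [Set.indicator_of_mem hmem]
        refine (k8_le _ _ _ _ _).trans ?_
        refine D7l3_add (by norm_num) (by positivity) (by norm_num) ?_
        linarith
    refine (L7_split 1 (-1) 0 a b c t _ _ _ D7l3_measS key).trans ?_
    rw [lam3_set1 _ D7l3_meas1]
    exact D7l3_fin (by norm_num) (by norm_num) (by norm_num) (by norm_num) E7_1m10 lam_q20
      (by norm_num)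
  · push Not at hab
    have hc0 : c ≠ 0 := fun hc0 => h ⟨hab.1, hab.2, hc0⟩
    have key : ∀ s, R7 s → K8 1 (-1) 0 a b c t s ≤ ENNReal.ofReal (1 / 2) * I7 1 (-1) 0 s +
        ({s : ℝ × ℝ × ℝ | (s.1, s.2.1) ∈
          {s : ℝ × ℝ | 61 / 128 ≤ (1 / 2 + s.1) ^ 2 + (1 / 2 + s.2) ^ 2}}).indicator
          (fun _ => ENNReal.ofReal (1 / 2)) s := by
      intro s hs
      obtain ⟨s1, s2, s3⟩ := s
      obtain ⟨h1, h2, h3⟩ := hs
      change |s1| ≤ 1 / 8 at h1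
      change |s2| ≤ 1 / 8 at h2
      change |s3| ≤ 1 / 8 at h3
      have ha1 := (D7_abs a 1 (D7l3_one ha) h1).2
      have hb1 := (D7_abs b 1 (D7l3_one hb) h2).2
      obtain ⟨hc2, hc2'⟩ := D7_abs c 2 (D7l3_two hc hc0) h3
      push_cast at ha1 hb1 hc2 hc2'
      by_cases hV : Real.sqrt (W7 1 (-1) 0 (s1, s2, s3)) < |(c : ℝ) * (1 / 2 - s3)|
      · refine le_trans (k8_le_12 _ _ _ _ _ ?_) (le_add_of_nonneg_right zero_le)
        right
        right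
        exact hV
      · push Not at hV
        have q1 := D7l3_q h1
        have q2 := D7l3_q h2
        have q3 := D7l3_q h3
        obtain ⟨b1, b2⟩ := abs_le.1 h3
        have hV0 : 3 / 4 ≤ Real.sqrt (W7 1 (-1) 0 (s1, s2, s3)) := by linarith
        have hW0 : 0 ≤ W7 1 (-1) 0 (s1, s2, s3) := by
          rw [hW]
          linarith [q1.1, q2.1, q3.2]
        have hsq := Real.sq_sqrt hW0
        have hV2 : Real.sqrt (W7 1 (-1) 0 (s1, s2, s3)) < 3 / 2 := by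
          rw [show (3 / 2 : ℝ) = Real.sqrt (9 / 4) by
            rw [show (9 / 4 : ℝ) = (3 / 2) ^ 2 by norm_num, Real.sqrt_sq (by norm_num)]]
          apply Real.sqrt_lt_sqrt hW0
          rw [hW]
          linarith [q1.2, q2.2, q3.1]
        have hge : (2 * (1 / 2 - s3)) ^ 2 ≤ W7 1 (-1) 0 (s1, s2, s3) := by
          rw [← hsq]
          apply pow_le_pow_left₀ (by linarith)
          linarith
        rw [hW] at hge
        have hmem : ((s1, s2, s3) : ℝ × ℝ × ℝ) ∈ {s : ℝ × ℝ × ℝ | (s.1, s.2.1) ∈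
            {s : ℝ × ℝ | 61 / 128 ≤ (1 / 2 + s.1) ^ 2 + (1 / 2 + s.2) ^ 2}} := by
          change 61 / 128 ≤ (1 / 2 + s1) ^ 2 + (1 / 2 + s2) ^ 2
          nlinarith
        rw [Set.indicator_of_mem hmem]
        refine (k8_le_78 _ _ _ _ _ ?_).trans ?_
        · change Real.sqrt (W7 1 (-1) 0 (s1, s2, s3)) < |t| + |(a : ℝ) * (1 / 2 - s1)|
            + |(b : ℝ) * (1 / 2 - s2)| + |(c : ℝ) * (1 / 2 - s3)|
          linarith [abs_nonneg t]
        · rw [← ENNReal.ofReal_mul (by norm_num)]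
          refine D7l3_add (by norm_num) (by positivity) (by norm_num) ?_
          have h5 : 1 / Real.sqrt (W7 1 (-1) 0 (s1, s2, s3)) ≤ 4 / 3 := by
            rw [div_le_iff₀ (by linarith)]
            linarith
          linarith
    refine (L7_split 1 (-1) 0 a b c t _ _ _ D7l3_measS2 key).trans ?_
    rw [lam3_set12 _ D7l3_meas2]
    exact D7l3_fin (by norm_num) (by norm_num) (by norm_num) (by norm_num) E7_1m10
      (lam2_q (61 / 128) (by norm_num)) (by norm_num)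

end Pool.Agent.helper49.Slope
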