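import Pool.Agent.helper49.Slope.D7f
import Pool.Agent.helper49.Slope.D7h
import Pool.Agent.helper49.Slope.D7l3

/-!
MP_aedd95_co (slope of k-fold hyperplane covers of triangular grids), module D7l2.
The law `D_7`: special patterns `(1,0,1)`, `(2,2,1)`, `(1,1,2)`, `(2,1,1)`.
-/

set_option autoImplicit false

open MeasureTheory ProbabilityTheory
open scoped ENNReal

namespace Pool.Agent.helper49.Slope

theorem D7l2_mul {E : ℝ≥0∞} {p e C : ℝ} (hp : 0 ≤ p) (hE : E ≤ ENNReal.ofReal e)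
    (h : p * e ≤ C) : ENNReal.ofReal p * E ≤ ENNReal.ofReal C := by
  calc ENNReal.ofReal p * E ≤ ENNReal.ofReal p * ENNReal.ofReal e := by gcongr
    _ = ENNReal.ofReal (p * e) := (ENNReal.ofReal_mul hp).symm
    _ ≤ ENNReal.ofReal C := ENNReal.ofReal_le_ofReal h

theorem D7l2_fin {E M : ℝ≥0∞} {p r e m C : ℝ} (hp : 0 ≤ p) (hr : 0 ≤ r) (he : 0 ≤ e)
    (hm : 0 ≤ m) (hE : E ≤ ENNReal.ofReal e) (hM : M ≤ ENNReal.ofReal m)
    (h : p * e + r * m ≤ C) :
    ENNReal.ofReal p * E + ENNReal.ofReal r * M ≤ ENNReal.ofReal C := by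
  calc ENNReal.ofReal p * E + ENNReal.ofReal r * M
      ≤ ENNReal.ofReal p * ENNReal.ofReal e + ENNReal.ofReal r * ENNReal.ofReal m := by
        gcongr
    _ = ENNReal.ofReal (p * e + r * m) := by
        rw [← ENNReal.ofReal_mul hp, ← ENNReal.ofReal_mul hr,
          ← ENNReal.ofReal_add (mul_nonneg hp he) (mul_nonneg hr hm)]
    _ ≤ ENNReal.ofReal C := ENNReal.ofReal_le_ofReal h

theorem L7_sp_101 (a b c : ℤ) (ha : Odd a) (hb : Even b) (hc : Odd c)
    (h : ¬ (|a| = 1 ∧ b = 0 ∧ |c| = 1)) (t : ℝ) : L7 1 0 1 a b c t ≤ 1 := by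
  have key : ∀ s, R7 s → Real.sqrt (W7 1 0 1 s) < |(a : ℝ) * (1 / 2 - s.1)| ∨
      Real.sqrt (W7 1 0 1 s) < |(b : ℝ) * (1 / 2 - s.2.1)| ∨
      Real.sqrt (W7 1 0 1 s) < |(c : ℝ) * (1 / 2 - s.2.2)| := by
    intro s hs
    obtain ⟨h1, h2, h3⟩ := hs
    have hW : W7 1 0 1 s = (1 / 2 + s.2.1) ^ 2 + 1 / 8 := by
      unfold W7
      push_cast
      ring
    have hV : Real.sqrt (W7 1 0 1 s) < 3 / 4 := by
      rw [hW]
      refine (Real.sqrt_lt' (by norm_num)).2 ?_
      have := (D7l3_q h2).2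
      linarith
    by_cases ha1 : |a| = 1
    · by_cases hb0 : b = 0
      · have hc3 := (D7_abs c 3 (D7l3_three hc fun hc1 => h ⟨ha1, hb0, hc1⟩) h3).2
        push_cast at hc3
        right
        right
        linarith
      · have hb2 := (D7_abs b 2 (D7l3_two hb hb0) h2).2
        push_cast at hb2
        right
        left
        linarith
    · have ha3 := (D7_abs a 3 (D7l3_three ha ha1) h1).2
      push_cast at ha3
      left
      linarith
  refine (L7_le_12 1 0 1 a b c t key).trans ?_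
  rw [← ENNReal.ofReal_one]
  exact D7l2_mul (by norm_num) E7_101 (by norm_num)

theorem L7_sp_221 (a b c : ℤ) (ha : Even a) (hb : Even b) (hc : Odd c)
    (h : ¬ (a = 0 ∧ b = 0 ∧ |c| = 1)) (t : ℝ) : L7 2 2 1 a b c t ≤ 1 := by
  have key : ∀ s, R7 s →
      Real.sqrt (W7 2 2 1 s) < |(a : ℝ) * (1 / 2 - s.1)| + |(b : ℝ) * (1 / 2 - s.2.1)| ∨
      Real.sqrt (W7 2 2 1 s) < |(a : ℝ) * (1 / 2 - s.1)| + |(c : ℝ) * (1 / 2 - s.2.2)| ∨
      Real.sqrt (W7 2 2 1 s) < |(b : ℝ) * (1 / 2 - s.2.1)| + |(c : ℝ) * (1 / 2 - s.2.2)| := by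
    intro s hs
    obtain ⟨h1, h2, h3⟩ := hs
    have hW : W7 2 2 1 s = (1 / 2 + s.2.2) ^ 2 + 1 / 2 := by
      unfold W7
      push_cast
      ring
    have hV : Real.sqrt (W7 2 2 1 s) < 9 / 8 := by
      rw [hW]
      refine (Real.sqrt_lt' (by norm_num)).2 ?_
      have := (D7l3_q h3).2
      linarith
    have hc1 := (D7_abs c 1 (D7l3_one hc) h3).2
    push_cast at hc1
    have a0 := abs_nonneg ((a : ℝ) * (1 / 2 - s.1))
    have b0 := abs_nonneg ((b : ℝ) * (1 / 2 - s.2.1))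
    by_cases ha0 : a = 0
    · by_cases hb0 : b = 0
      · have hc3 := (D7_abs c 3 (D7l3_three hc fun hc1 => h ⟨ha0, hb0, hc1⟩) h3).2
        push_cast at hc3
        right
        left
        linarith
      · have hb2 := (D7_abs b 2 (D7l3_two hb hb0) h2).2
        push_cast at hb2
        right
        right
        linarith
    · have ha2 := (D7_abs a 2 (D7l3_two ha ha0) h1).2
      push_cast at ha2
      right
      left
      linarith
  refine (L7_le_34 2 2 1 a b c t key).trans ?_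
  rw [← ENNReal.ofReal_one]
  exact D7l2_mul (by norm_num) E7_221 (by norm_num)

theorem D7l2_meas1 : MeasurableSet {s : ℝ × ℝ | 5625 / 100000 ≤ s.1 + s.2} :=
  measurableSet_le measurable_const (by fun_prop)

theorem D7l2_measS1 : MeasurableSet {s : ℝ × ℝ × ℝ | (s.1, s.2.1) ∈
    {s : ℝ × ℝ | 5625 / 100000 ≤ s.1 + s.2}} :=
  (measurable_fst.prodMk (measurable_fst.comp measurable_snd)) D7l2_meas1

theorem D7l2_meas2 : MeasurableSet {s : ℝ × ℝ | 1 / 8 ≤ s.1 + s.2} :=
  measurableSet_le measurable_const (by fun_prop)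

theorem D7l2_measS2 : MeasurableSet {s : ℝ × ℝ × ℝ | (s.2.1, s.2.2) ∈
    {s : ℝ × ℝ | 1 / 8 ≤ s.1 + s.2}} :=
  ((measurable_fst.comp measurable_snd).prodMk (measurable_snd.comp measurable_snd)) D7l2_meas2

theorem L7_sp_112 (a b c : ℤ) (ha : Odd a) (hb : Odd b) (t : ℝ) :
    L7 1 1 2 a b c t ≤ ENNReal.ofReal (98 / 100) := by
  have hW : ∀ s, W7 1 1 2 s = (1 / 2 + s.2.2) ^ 2 + 1 / 2 := by
    intro s
    unfold W7
    push_cast
    ring
  by_cases hab : |a| = 1 ∧ |b| = 1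
  · obtain ⟨ha1, hb1⟩ := hab
    have key : ∀ s, R7 s → K8 1 1 2 a b c t s ≤ ENNReal.ofReal (3 / 4) * I7 1 1 2 s +
        ({s : ℝ × ℝ × ℝ | (s.1, s.2.1) ∈ {s : ℝ × ℝ | 5625 / 100000 ≤ s.1 + s.2}}).indicator
          (fun _ => ENNReal.ofReal (5 / 16)) s := by
      intro s hs
      obtain ⟨h1, h2, h3⟩ := hs
      by_cases hV : Real.sqrt (W7 1 1 2 s) < |(a : ℝ) * (1 / 2 - s.1)| + |(b : ℝ) * (1 / 2 - s.2.1)|
      · exact le_trans (k8_le_34 _ _ _ _ _ (Or.inl hV)) (le_add_of_nonneg_right zero_le)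
      · push Not at hV
        have q3 := D7l3_q h3
        have hV1 : Real.sqrt (W7 1 1 2 s) ≤ 94375 / 100000 := by
          rw [hW]
          refine Real.sqrt_le_iff.2 ⟨by norm_num, ?_⟩
          linarith [q3.2]
        have hV2 : 8 / 10 ≤ Real.sqrt (W7 1 1 2 s) := by
          rw [hW]
          refine Real.le_sqrt_of_sq_le ?_
          linarith [q3.1]
        have g1 := (D7_abs a 1 (D7l3_one ha) h1).1
        have g2 := (D7_abs b 1 (D7l3_one hb) h2).1
        push_cast at g1 g2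
        have hmem : s ∈ {s : ℝ × ℝ × ℝ | (s.1, s.2.1) ∈
            {s : ℝ × ℝ | 5625 / 100000 ≤ s.1 + s.2}} := by
          change 5625 / 100000 ≤ s.1 + s.2.1
          linarith
        rw [Set.indicator_of_mem hmem]
        refine (k8_le _ _ _ _ _).trans ?_
        refine D7l3_add (by norm_num) (by positivity) (by norm_num) ?_
        have h4 : 1 / Real.sqrt (W7 1 1 2 s) ≤ 5 / 4 := by
          rw [div_le_iff₀ (by linarith)]
          linarith
        linarith
    refine (L7_split 1 1 2 a b c t _ _ _ D7l2_measS1 key).trans ?_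
    rw [lam3_set12 _ D7l2_meas1]
    exact D7l2_fin (by norm_num) (by norm_num) (by norm_num) (by norm_num) E7_112 sig7_05625
      (by norm_num)
  · have key : ∀ s, R7 s → Real.sqrt (W7 1 1 2 s) < |(a : ℝ) * (1 / 2 - s.1)| ∨
        Real.sqrt (W7 1 1 2 s) < |(b : ℝ) * (1 / 2 - s.2.1)| ∨
        Real.sqrt (W7 1 1 2 s) < |(c : ℝ) * (1 / 2 - s.2.2)| := by
      intro s hs
      obtain ⟨h1, h2, h3⟩ := hs
      have hV : Real.sqrt (W7 1 1 2 s) < 9 / 8 := by
        rw [hW]
        refine (Real.sqrt_lt' (by norm_num)).2 ?_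
        have := (D7l3_q h3).2
        linarith
      by_cases ha1 : |a| = 1
      · have hb3 := (D7_abs b 3 (D7l3_three hb fun hb1 => hab ⟨ha1, hb1⟩) h2).2
        push_cast at hb3
        right
        left
        linarith
      · have ha3 := (D7_abs a 3 (D7l3_three ha ha1) h1).2
        push_cast at ha3
        left
        linarith
    refine (L7_le_12 1 1 2 a b c t key).trans ?_
    exact D7l2_mul (by norm_num) E7_112 (by norm_num)

theorem L7_sp_211 (a b c : ℤ) (hb : Odd b) (hc : Odd c) (t : ℝ) :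
    L7 2 1 1 a b c t ≤ ENNReal.ofReal (999 / 1000) := by
  have hW : ∀ s, W7 2 1 1 s = (1 / 2 + s.1) ^ 2 + 3 / 8 := by
    intro s
    unfold W7
    push_cast
    ring
  by_cases hbc : |b| = 1 ∧ |c| = 1
  · obtain ⟨hb1, hc1⟩ := hbc
    have key : ∀ s, R7 s → K8 2 1 1 a b c t s ≤ ENNReal.ofReal (3 / 4) * I7 2 1 1 s +
        ({s : ℝ × ℝ × ℝ | (s.2.1, s.2.2) ∈ {s : ℝ × ℝ | 1 / 8 ≤ s.1 + s.2}}).indicator
          (fun _ => ENNReal.ofReal (1 / 3)) s := by
      intro s hs
      obtain ⟨h1, h2, h3⟩ := hs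
      by_cases hV : Real.sqrt (W7 2 1 1 s) <
          |(b : ℝ) * (1 / 2 - s.2.1)| + |(c : ℝ) * (1 / 2 - s.2.2)|
      · exact le_trans (k8_le_34 _ _ _ _ _ (Or.inr (Or.inr hV))) (le_add_of_nonneg_right zero_le)
      · push Not at hV
        have q1 := D7l3_q h1
        have hV1 : Real.sqrt (W7 2 1 1 s) ≤ 7 / 8 := by
          rw [hW]
          refine Real.sqrt_le_iff.2 ⟨by norm_num, ?_⟩
          linarith [q1.2]
        have g1 := (D7_abs b 1 (D7l3_one hb) h2).1
        have g2 := (D7_abs c 1 (D7l3_one hc) h3).1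
        push_cast at g1 g2
        have g3 := (abs_le.1 h2).2
        have g4 := (abs_le.1 h3).2
        have hV2 : 3 / 4 ≤ Real.sqrt (W7 2 1 1 s) := by linarith
        have hmem : s ∈ {s : ℝ × ℝ × ℝ | (s.2.1, s.2.2) ∈
            {s : ℝ × ℝ | 1 / 8 ≤ s.1 + s.2}} := by
          change 1 / 8 ≤ s.2.1 + s.2.2
          linarith
        rw [Set.indicator_of_mem hmem]
        refine (k8_le _ _ _ _ _).trans ?_
        refine D7l3_add (by norm_num) (by positivity) (by norm_num) ?_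
        have h4 : 1 / Real.sqrt (W7 2 1 1 s) ≤ 4 / 3 := by
          rw [div_le_iff₀ (by linarith)]
          linarith
        linarith
    refine (L7_split 2 1 1 a b c t _ _ _ D7l2_measS2 key).trans ?_
    rw [lam3_set23 _ D7l2_meas2]
    exact D7l2_fin (by norm_num) (by norm_num) (by norm_num) (by norm_num) E7_211 sig7_18
      (by norm_num)
  · have key : ∀ s, R7 s → Real.sqrt (W7 2 1 1 s) < |(a : ℝ) * (1 / 2 - s.1)| ∨
        Real.sqrt (W7 2 1 1 s) < |(b : ℝ) * (1 / 2 - s.2.1)| ∨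
        Real.sqrt (W7 2 1 1 s) < |(c : ℝ) * (1 / 2 - s.2.2)| := by
      intro s hs
      obtain ⟨h1, h2, h3⟩ := hs
      have hV : Real.sqrt (W7 2 1 1 s) < 9 / 8 := by
        rw [hW]
        refine (Real.sqrt_lt' (by norm_num)).2 ?_
        have := (D7l3_q h1).2
        linarith
      by_cases hb1 : |b| = 1
      · have hc3 := (D7_abs c 3 (D7l3_three hc fun hc1 => hbc ⟨hb1, hc1⟩) h3).2
        push_cast at hc3
        right
        right
        linarith
      · have hb3 := (D7_abs b 3 (D7l3_three hb hb1) h2).2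
        push_cast at hb3
        right
        left
        linarith
    refine (L7_le_12 2 1 1 a b c t key).trans ?_
    exact D7l2_mul (by norm_num) E7_211 (by norm_num)

end Pool.Agent.helper49.Slope
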