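import Pool.Agent.helper49.Slope.D7g
import Pool.Agent.helper49.Slope.D7h2
import Pool.Agent.helper49.Slope.D7f

/-!
MP_aedd95_co (slope of k-fold hyperplane covers of triangular grids), module D7l4.
The law `D_7`: special patterns `(1,0,-1)`, `(1,1,-1)`.

PROOFS. `h_i = 1/2 - s_i ∈ [3/8,5/8]`, `q_i = (1/2+s_i)² ∈ [9/64,25/64]`, `D7_abs`.
`(1,0,-1)`: `V² = 2q₁ + 2q₃ - q₂ - 1/8 ≤ 83/64`, `V < 1.14`; `a, c` odd, `b` even, not `|a| = |c| = 1,
b = 0`. Case `|a| ≥ 3` or `|c| ≥ 3`: `V < 9/8`: `k8_le_12`; `V ≥ 9/8`: `2q₁ ≥ 81/64 + 9/64 + 8/64 -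
50/64 = 48/64`, so `q₁ ≥ 20/64`, `1/V ≤ 8/9`: `p = ofReal (1/2)`, `r = ofReal (4/9)`, `lam3_set1`,
`lam_q20`, `E7_10m1`: `0.6408 + 0.1389`. Case `|a| = |c| = 1`, `|b| ≥ 2`: `h₁ + |b| h₂ + h₃ ≥ 3/2 > V`:
`k8_le_78`; `V < |b| h₂`: `k8_le_12`; otherwise `V ≥ 2 h₂ ≥ 3/4`, `1/V ≤ 4/3` and
`2(q₁+q₃) ≥ q₂ + 1/8 + 4(1-c₂)² ≥ 69/64` (`5c²-8c+4 ≥ 61/64` on `[3/8,5/8]`), `q₁+q₃ ≥ 69/128 ≥ 17/32`:
`p = ofReal (1/2)`, `r = ofReal ((3/8)(4/3)) = ofReal (1/2)`, `S = {17/32 ≤ q₁+q₃}`, `lam3_set13`,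
`lam2_q (17/32)`: `0.6408 + 0.25 = 0.891`.
`(1,1,-1)`: `V² = 4q₃ - 1/4 ∈ [20/64, 84/64]`, `a, b, c` odd. `k8 ≤ (1/8)(6 + 1{V ≥ 3/4} + 1{V ≥ 9/8})
(1/V)`: if `V < 3/4`: `|a| h₁ + |b| h₂ ≥ 3/4 > V`: `k8_le_34`; if `V < 9/8`:
`|a|h₁+|b|h₂+|c|h₃ ≥ 9/8 > V`: `k8_le_78`; else `k8_le`. So
`L ≤ (3/4) E + (1/8) E[1/V; V ≥ 3/4] + (1/8) E[1/V; V ≥ 9/8]`, `E = E7 1 1 (-1) ≤ 1.17327`. The two
restricted expectations depend on the digit 3 only (`lint7_m3`): `8 c/V` has the antiderivative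
`2 V` (`V² = 4c² - 1/4`, `(2V)' = 8c/V`): `E[1/V; V ≥ v] = 2(√84/8 - v)` (`J1_lint`, `J1_ftc`; the set
`{V ≥ v}` is `{c ≥ √((v²+1/4)/4)}`), `√84/8 ≤ 1.14565`: `0.87996 + 0.09892 + 0.00517 = 0.98405`.
-/

set_option autoImplicit false

open MeasureTheory ProbabilityTheory
open scoped ENNReal

namespace Pool.Agent.helper49.Slope

/-- range of the squares -/
theorem D7l4_q {x : ℝ} (h : |x| ≤ 1 / 8) :
    9 / 64 ≤ (1 / 2 + x) ^ 2 ∧ (1 / 2 + x) ^ 2 ≤ 25 / 64 := by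
  obtain ⟨h1, h2⟩ := abs_le.1 h
  constructor <;> nlinarith

theorem D7l4_W1 (s : ℝ × ℝ × ℝ) : W7 1 0 (-1) s =
    2 * (1 / 2 + s.1) ^ 2 - (1 / 2 + s.2.1) ^ 2 + 2 * (1 / 2 + s.2.2) ^ 2 - 1 / 8 := by
  unfold W7
  push_cast
  ring

theorem D7l4_W2 (s : ℝ × ℝ × ℝ) : W7 1 1 (-1) s = 4 * (1 / 2 + s.2.2) ^ 2 - 1 / 4 := by
  unfold W7
  push_cast
  ring

theorem D7l4_odd {a : ℤ} (ha : Odd a) : 1 ≤ |a| := by
  apply Int.one_le_abs
  rintro rfl
  simp at ha

theorem D7l4_odd' {a : ℤ} (ha : Odd a) (h : ¬ 3 ≤ |a|) : |a| = 1 := by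
  have h1 := D7l4_odd ha
  obtain ⟨k, hk⟩ := ha
  rcases abs_cases a with h2 | h2 <;> omega

theorem D7l4_even {b : ℤ} (hb : Even b) (h : b ≠ 0) : 2 ≤ |b| := by
  have h1 := Int.one_le_abs h
  obtain ⟨k, hk⟩ := hb
  rcases abs_cases b with h2 | h2 <;> omega

/-- splitting a bound -/
theorem D7l4_split {p r v : ℝ} (hp : 0 ≤ p) (hr : 0 ≤ r) :
    ENNReal.ofReal (p + r) * ENNReal.ofReal v =
      ENNReal.ofReal p * ENNReal.ofReal v + ENNReal.ofReal r * ENNReal.ofReal v := by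
  rw [ENNReal.ofReal_add hp hr, add_mul]

theorem D7l4_inv {p v w : ℝ} (hp : 0 ≤ p) (hw : 0 < w) (h : w ≤ v) :
    ENNReal.ofReal p * ENNReal.ofReal (1 / v) ≤ ENNReal.ofReal (p * (1 / w)) := by
  rw [← ENNReal.ofReal_mul hp]
  apply ENNReal.ofReal_le_ofReal
  apply mul_le_mul_of_nonneg_left _ hp
  exact one_div_le_one_div_of_le hw h

/-- the restricted expectation of `1/V`, `V² = 4c² - 1/4` -/
theorem D7l4_J (v : ℝ) (hv : 0 < v) (h1 : 20 / 64 ≤ v ^ 2) (h2 : v ^ 2 ≤ 84 / 64) :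
    ∫⁻ x, Set.indicator {x : ℝ | v ≤ Real.sqrt (4 * (1 / 2 + x) ^ 2 - 1 / 4)}
      (fun x => ENNReal.ofReal (1 / Real.sqrt (4 * (1 / 2 + x) ^ 2 - 1 / 4))) x ∂(lam (1 / 8)) ≤
      ENNReal.ofReal (2 * (Real.sqrt (84 / 64) - v)) := by
  set w : ℝ := Real.sqrt ((v ^ 2 + 1 / 4) / 4) with hw
  have hw2 : w ^ 2 = (v ^ 2 + 1 / 4) / 4 := Real.sq_sqrt (by positivity)
  have hw0 : 0 ≤ w := Real.sqrt_nonneg _
  have hwl : 3 / 8 ≤ w := by nlinarith
  have hwu : w ≤ 5 / 8 := by nlinarith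
  have hmeas : MeasurableSet {x : ℝ | v ≤ Real.sqrt (4 * (1 / 2 + x) ^ 2 - 1 / 4)} :=
    measurableSet_le measurable_const (by fun_prop)
  have hm : Measurable (fun x : ℝ => Set.indicator
      {x : ℝ | v ≤ Real.sqrt (4 * (1 / 2 + x) ^ 2 - 1 / 4)}
      (fun x => ENNReal.ofReal (1 / Real.sqrt (4 * (1 / 2 + x) ^ 2 - 1 / 4))) x) :=
    Measurable.indicator (by fun_prop) hmeas
  rw [J1_lint _ _ hm]
  have hpos : ∀ s ∈ Set.Icc (w - 1 / 2) (1 / 8 : ℝ), 0 < 4 * (1 / 2 + s) ^ 2 - 1 / 4 := by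
    intro s hs
    have h3 : w ≤ 1 / 2 + s := by linarith [hs.1]
    have h4 : w ^ 2 ≤ (1 / 2 + s) ^ 2 := pow_le_pow_left₀ hw0 h3 2
    nlinarith
  have hf := (J1_ftc (a := w - 1 / 2) (b := 1 / 8) (by linarith)
    (fun s => (1 / 2 + s) / (1 / 8) * (1 / Real.sqrt (4 * (1 / 2 + s) ^ 2 - 1 / 4)))
    (fun s => 2 * Real.sqrt (4 * (1 / 2 + s) ^ 2 - 1 / 4))
    (ContinuousOn.mul (Continuous.continuousOn (by fun_prop))
      (ContinuousOn.div continuousOn_const (Continuous.continuousOn (by fun_prop))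
        (fun s hs => (Real.sqrt_pos.2 (hpos s hs)).ne')))
    (fun s hs => by
      have h3 : 0 ≤ 1 / 2 + s := by linarith [hs.1]
      positivity)
    (fun s hs => by
      have h3 : HasDerivAt (fun s : ℝ => 4 * (1 / 2 + s) ^ 2 - 1 / 4)
          (4 * (2 * (1 / 2 + s))) s := by
        have h4 := (((hasDerivAt_id s).const_add (1 / 2)).pow 2).const_mul 4 |>.sub_const (1 / 4)
        refine h4.congr_deriv ?_
        simp
      have h5 := (h3.sqrt (hpos s hs).ne').const_mul 2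
      refine h5.congr_deriv ?_
      have h6 := Real.sqrt_pos.2 (hpos s hs)
      field_simp
      ring)).1
  have e1 : 4 * (1 / 2 + 1 / 8 : ℝ) ^ 2 - 1 / 4 = 84 / 64 := by norm_num
  have e2 : Real.sqrt (4 * (1 / 2 + (w - 1 / 2)) ^ 2 - 1 / 4) = v := by
    rw [show 4 * (1 / 2 + (w - 1 / 2)) ^ 2 - 1 / 4 = v ^ 2 by
      rw [show 1 / 2 + (w - 1 / 2) = w by ring, hw2]; ring]
    exact Real.sqrt_sq hv.le
  rw [e1, e2, ← mul_sub] at hf
  rw [← hf, ← lintegral_indicator measurableSet_Icc, ← lintegral_indicator measurableSet_Icc]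
  refine lintegral_mono fun s => ?_
  by_cases hs : s ∈ Set.Icc (-(1 / 8)) (1 / 8 : ℝ)
  · rw [Set.indicator_of_mem hs]
    by_cases hs2 : v ≤ Real.sqrt (4 * (1 / 2 + s) ^ 2 - 1 / 4)
    · have h3 : s ∈ Set.Icc (w - 1 / 2) (1 / 8 : ℝ) := by
        refine ⟨?_, hs.2⟩
        have h4 : 0 < 4 * (1 / 2 + s) ^ 2 - 1 / 4 := Real.sqrt_pos.1 (hv.trans_le hs2)
        have h5 : v ^ 2 ≤ 4 * (1 / 2 + s) ^ 2 - 1 / 4 := by
          have := Real.sq_sqrt h4.le
          nlinarith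
        have h6 : 0 ≤ 1 / 2 + s := by linarith [hs.1]
        nlinarith
      have hT : s ∈ {x : ℝ | v ≤ Real.sqrt (4 * (1 / 2 + x) ^ 2 - 1 / 4)} := hs2
      rw [Set.indicator_of_mem h3, Set.indicator_of_mem hT, ← ENNReal.ofReal_mul (by
          have h6 : 0 ≤ 1 / 2 + s := by linarith [hs.1]
          positivity)]
    · have hT : s ∉ {x : ℝ | v ≤ Real.sqrt (4 * (1 / 2 + x) ^ 2 - 1 / 4)} := hs2
      rw [Set.indicator_of_notMem hT, mul_zero]
      exact bot_le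
  · rw [Set.indicator_of_notMem hs]
    exact bot_le

theorem L7_sp_10m1 (a b c : ℤ) (ha : Odd a) (hb : Even b) (hc : Odd c)
    (h : ¬ (|a| = 1 ∧ b = 0 ∧ |c| = 1)) (t : ℝ) : L7 1 0 (-1) a b c t ≤ 1 := by
  have hc0 := D7l4_odd hc
  have ha0 := D7l4_odd ha
  by_cases h3 : 3 ≤ |a| ∨ 3 ≤ |c|
  · refine (L7_split 1 0 (-1) a b c t (ENNReal.ofReal (1 / 2)) (ENNReal.ofReal (4 / 9))
      {s | s.1 ∈ {x : ℝ | 20 / 64 ≤ (1 / 2 + x) ^ 2}}
      (measurable_fst (measurableSet_le measurable_const (by fun_prop))) ?_).trans ?_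
    · intro s hs
      obtain ⟨h1, h2, h4⟩ := hs
      have hV := D7l4_W1 s
      have hq1 := D7l4_q h1
      have hq2 := D7l4_q h2
      have hq3 := D7l4_q h4
      unfold K8 I7
      rw [hV]
      set V := Real.sqrt (2 * (1 / 2 + s.1) ^ 2 - (1 / 2 + s.2.1) ^ 2 + 2 * (1 / 2 + s.2.2) ^ 2
        - 1 / 8) with hVd
      rcases lt_or_ge V (9 / 8) with hlt | hge
      · refine (k8_le_12 _ _ _ _ _ ?_).trans le_self_add
        rcases h3 with h3 | h3
        · left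
          have := (D7_abs a 3 (by exact_mod_cast h3) h1).2
          norm_num at this ⊢
          linarith
        · right
          right
          have := (D7_abs c 3 (by exact_mod_cast h3) h4).2
          norm_num at this ⊢
          linarith
      · have hmem : s ∈ {s : ℝ × ℝ × ℝ | s.1 ∈ {x : ℝ | 20 / 64 ≤ (1 / 2 + x) ^ 2}} := by
          change 20 / 64 ≤ (1 / 2 + s.1) ^ 2
          have h5 : 0 < 2 * (1 / 2 + s.1) ^ 2 - (1 / 2 + s.2.1) ^ 2 + 2 * (1 / 2 + s.2.2) ^ 2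
            - 1 / 8 := Real.sqrt_pos.1 (lt_of_lt_of_le (by norm_num) hge)
          have h6 := Real.sq_sqrt h5.le
          rw [← hVd] at h6
          nlinarith
        rw [Set.indicator_of_mem hmem]
        refine (k8_le _ _ _ _ _).trans ?_
        have e : ENNReal.ofReal (1 / V) = ENNReal.ofReal (1 / 2 + 1 / 2) * ENNReal.ofReal (1 / V) := by
          norm_num
        conv_lhs => rw [e]
        rw [D7l4_split (by norm_num) (by norm_num)]
        refine add_le_add le_rfl ((D7l4_inv (by norm_num) (by norm_num) hge).trans ?_)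
        apply ENNReal.ofReal_le_ofReal
        norm_num
    · rw [lam3_set1 _ (measurableSet_le measurable_const (by fun_prop))]
      refine (add_le_add (mul_le_mul_right E7_10m1 _) (mul_le_mul_right lam_q20 _)).trans ?_
      rw [← ENNReal.ofReal_mul (by norm_num), ← ENNReal.ofReal_mul (by norm_num),
        ← ENNReal.ofReal_add (by norm_num) (by norm_num), ← ENNReal.ofReal_one]
      apply ENNReal.ofReal_le_ofReal
      norm_num
  · push Not at h3
    have ha1 := D7l4_odd' ha (not_le.2 h3.1)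
    have hc1 := D7l4_odd' hc (not_le.2 h3.2)
    have hb0 : b ≠ 0 := fun hb0 => h ⟨ha1, hb0, hc1⟩
    have hb2 := D7l4_even hb hb0
    refine (L7_split 1 0 (-1) a b c t (ENNReal.ofReal (1 / 2)) (ENNReal.ofReal (1 / 2))
      {s | (s.1, s.2.2) ∈ {s : ℝ × ℝ | 17 / 32 ≤ (1 / 2 + s.1) ^ 2 + (1 / 2 + s.2) ^ 2}}
      (by
        have hm : Measurable (fun s : ℝ × ℝ × ℝ => (s.1, s.2.2)) := by fun_prop
        exact hm (measurableSet_le measurable_const (by fun_prop))) ?_).trans ?_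
    · intro s hs
      obtain ⟨h1, h2, h4⟩ := hs
      have hV := D7l4_W1 s
      have hq1 := D7l4_q h1
      have hq2 := D7l4_q h2
      have hq3 := D7l4_q h4
      unfold K8 I7
      rw [hV]
      set V := Real.sqrt (2 * (1 / 2 + s.1) ^ 2 - (1 / 2 + s.2.1) ^ 2 + 2 * (1 / 2 + s.2.2) ^ 2
        - 1 / 8) with hVd
      have hBl := (D7_abs b 2 (by exact_mod_cast hb2) h2).1
      have hAl := (D7_abs a 1 (by exact_mod_cast ha0) h1).2
      have hCl := (D7_abs c 1 (by exact_mod_cast hc0) h4).2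
      push_cast at hBl hAl hCl
      obtain ⟨h2a, h2b⟩ := abs_le.1 h2
      rcases lt_or_ge V |(b : ℝ) * (1 / 2 - s.2.1)| with hlt | hge
      · exact (k8_le_12 _ _ _ _ _ (Or.inr (Or.inl hlt))).trans le_self_add
      · have hV2 : 2 * (1 / 2 - s.2.1) ≤ V := hBl.trans hge
        have h5 : 0 < 2 * (1 / 2 + s.1) ^ 2 - (1 / 2 + s.2.1) ^ 2 + 2 * (1 / 2 + s.2.2) ^ 2
            - 1 / 8 := Real.sqrt_pos.1 (lt_of_lt_of_le (by linarith) hV2)
        have h6 := Real.sq_sqrt h5.le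
        rw [← hVd] at h6
        have hV0 : 0 ≤ V := Real.sqrt_nonneg _
        have hmem : s ∈ {s : ℝ × ℝ × ℝ | (s.1, s.2.2) ∈
            {s : ℝ × ℝ | 17 / 32 ≤ (1 / 2 + s.1) ^ 2 + (1 / 2 + s.2) ^ 2}} := by
          change 17 / 32 ≤ (1 / 2 + s.1) ^ 2 + (1 / 2 + s.2.2) ^ 2
          have h7 : (2 * (1 / 2 - s.2.1)) ^ 2 ≤ V ^ 2 :=
            pow_le_pow_left₀ (by linarith) hV2 2
          nlinarith
        rw [Set.indicator_of_mem hmem]
        have hV32 : V < 3 / 2 := by nlinarith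
        refine (k8_le_78 _ _ _ _ _ ?_).trans ?_
        · have := abs_nonneg t
          linarith
        · rw [show (7 / 8 : ℝ) = 1 / 2 + 3 / 8 by norm_num, D7l4_split (by norm_num) (by norm_num)]
          refine add_le_add le_rfl
            ((D7l4_inv (w := 3 / 4) (by norm_num) (by norm_num) (by linarith)).trans ?_)
          apply ENNReal.ofReal_le_ofReal
          norm_num
    · rw [lam3_set13 _ (measurableSet_le measurable_const (by fun_prop))]
      refine (add_le_add (mul_le_mul_right E7_10m1 _) (mul_le_mul_right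
        (lam2_q (17 / 32) le_rfl) _)).trans ?_
      rw [← ENNReal.ofReal_mul (by norm_num), ← ENNReal.ofReal_mul (by norm_num),
        ← ENNReal.ofReal_add (by norm_num) (by norm_num), ← ENNReal.ofReal_one]
      apply ENNReal.ofReal_le_ofReal
      norm_num

theorem L7_sp_11m1 (a b c : ℤ) (ha : Odd a) (hb : Odd b) (hc : Odd c) (t : ℝ) :
    L7 1 1 (-1) a b c t ≤ 1 := by
  have hc0 := D7l4_odd hc
  have ha0 := D7l4_odd ha
  have hb0 := D7l4_odd hb
  -- the restricted functions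
  let g : ℝ → ℝ → ℝ≥0∞ := fun v x =>
    Set.indicator {x : ℝ | v ≤ Real.sqrt (4 * (1 / 2 + x) ^ 2 - 1 / 4)}
      (fun x => ENNReal.ofReal (1 / Real.sqrt (4 * (1 / 2 + x) ^ 2 - 1 / 4))) x
  have hg : ∀ v, Measurable (g v) := fun v =>
    Measurable.indicator (by fun_prop) (measurableSet_le measurable_const (by fun_prop))
  have hpt : ∀ s, R7 s → K8 1 1 (-1) a b c t s ≤ ENNReal.ofReal (3 / 4) * I7 1 1 (-1) s +
      (ENNReal.ofReal (1 / 8) * g (3 / 4) s.2.2 + ENNReal.ofReal (1 / 8) * g (9 / 8) s.2.2) := by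
    intro s hs
    obtain ⟨h1, h2, h4⟩ := hs
    have hAl := (D7_abs a 1 (by exact_mod_cast ha0) h1).2
    have hBl := (D7_abs b 1 (by exact_mod_cast hb0) h2).2
    have hCl := (D7_abs c 1 (by exact_mod_cast hc0) h4).2
    push_cast at hBl hAl hCl
    unfold K8 I7
    rw [D7l4_W2 s]
    set V := Real.sqrt (4 * (1 / 2 + s.2.2) ^ 2 - 1 / 4) with hVd
    have hg1 : ∀ v, v ≤ V → g v s.2.2 = ENNReal.ofReal (1 / V) := by
      intro v hv
      have hT : s.2.2 ∈ {x : ℝ | v ≤ Real.sqrt (4 * (1 / 2 + x) ^ 2 - 1 / 4)} := hv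
      exact Set.indicator_of_mem hT _
    rcases lt_or_ge V (3 / 4) with hlt | hge
    · exact (k8_le_34 _ _ _ _ _ (Or.inl (by linarith))).trans le_self_add
    rcases lt_or_ge V (9 / 8) with hlt2 | hge2
    · refine (k8_le_78 _ _ _ _ _ ?_).trans ?_
      · have := abs_nonneg t
        linarith
      · rw [show (7 / 8 : ℝ) = 3 / 4 + 1 / 8 by norm_num, D7l4_split (by norm_num) (by norm_num),
          hg1 _ hge]
        exact add_le_add le_rfl le_self_add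
    · refine (k8_le _ _ _ _ _).trans ?_
      have e : ENNReal.ofReal (1 / V) =
          ENNReal.ofReal (3 / 4 + (1 / 8 + 1 / 8)) * ENNReal.ofReal (1 / V) := by
        norm_num
      rw [hg1 _ hge, hg1 _ hge2]
      conv_lhs => rw [e]
      rw [D7l4_split (by norm_num) (by norm_num), D7l4_split (by norm_num) (by norm_num)]
  have hI := I7_measurable 1 1 (-1)
  have hg2 : ∀ v, Measurable (fun s : ℝ × ℝ × ℝ => g v s.2.2) := fun v =>
    (hg v).comp (by fun_prop)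
  have hs84 : Real.sqrt (84 / 64) ≤ 114565 / 100000 := by
    rw [Real.sqrt_le_left (by norm_num)]
    norm_num
  have hs84' : 9 / 8 ≤ Real.sqrt (84 / 64) := by
    apply Real.le_sqrt_of_sq_le
    norm_num
  calc L7 1 1 (-1) a b c t = ∫⁻ s, K8 1 1 (-1) a b c t s ∂lam3 := L7_eq _ _ _ _ _ _ _
    _ ≤ ∫⁻ s, (ENNReal.ofReal (3 / 4) * I7 1 1 (-1) s + (ENNReal.ofReal (1 / 8) * g (3 / 4) s.2.2 +
          ENNReal.ofReal (1 / 8) * g (9 / 8) s.2.2)) ∂lam3 := by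
        refine lintegral_mono_ae ?_
        filter_upwards [lam3_ae] with s hs
        exact hpt s hs
    _ = ENNReal.ofReal (3 / 4) * E7 1 1 (-1) + (ENNReal.ofReal (1 / 8) *
          ∫⁻ x, g (3 / 4) x ∂(lam (1 / 8)) + ENNReal.ofReal (1 / 8) *
          ∫⁻ x, g (9 / 8) x ∂(lam (1 / 8))) := by
        rw [lintegral_add_left (hI.const_mul _), lintegral_const_mul _ hI,
          lintegral_add_left ((hg2 _).const_mul _), lintegral_const_mul _ (hg2 _),
          lintegral_const_mul _ (hg2 _), lint7_m3 _ (hg _), lint7_m3 _ (hg _)]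
        rfl
    _ ≤ ENNReal.ofReal (3 / 4) * ENNReal.ofReal (117327 / 100000) + (ENNReal.ofReal (1 / 8) *
          ENNReal.ofReal (2 * (Real.sqrt (84 / 64) - 3 / 4)) + ENNReal.ofReal (1 / 8) *
          ENNReal.ofReal (2 * (Real.sqrt (84 / 64) - 9 / 8))) := by
        refine add_le_add (mul_le_mul_right E7_11m1 _) (add_le_add (mul_le_mul_right ?_ _)
          (mul_le_mul_right ?_ _))
        · exact D7l4_J (3 / 4) (by norm_num) (by norm_num) (by norm_num)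
        · exact D7l4_J (9 / 8) (by norm_num) (by norm_num) (by norm_num)
    _ ≤ 1 := by
        rw [← ENNReal.ofReal_mul (by norm_num), ← ENNReal.ofReal_mul (by norm_num),
          ← ENNReal.ofReal_mul (by norm_num), ← ENNReal.ofReal_add (by linarith) (by linarith),
          ← ENNReal.ofReal_add (by norm_num) (by linarith), ← ENNReal.ofReal_one]
        apply ENNReal.ofReal_le_ofReal
        linarith

end Pool.Agent.helper49.Slope
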