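import Pool.Agent.helper49.Slope.D7e
import Pool.Agent.helper49.Slope.D7f
import Pool.Agent.helper49.Slope.D7f2
import Pool.Agent.helper49.Slope.D7g
import Pool.Agent.helper49.Slope.D7l1
import Pool.Agent.helper49.Slope.D7l2
import Pool.Agent.helper49.Slope.D7l3
import Pool.Agent.helper49.Slope.D7l4

/-!
MP_aedd95_co (slope of k-fold hyperplane covers of triangular grids), module D7m.
The law `D_7`: the pointwise lemma for all vectors which are not exceptional.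

PROOFS. If `¬ Sp7 x y z`: `L7_le` and `E7_generic`. Otherwise up to `L7_neg` and `L7_swap` (with the
parities and the hypotheses carried along; `ExA7`, `ExD7` are invariant: prove
`ExA7 x y z a b c → ExA7 (-x) (-y) (-z) a b c` and `ExA7 x y z a b c → ExA7 y x z b a c`, same for
`ExD7`) `(x,y,z) ∈ spl7`: 20 cases. `L7_sp_*` for the twelve patterns `(1,0,0) (0,0,1) (1,1,0) (1,1,1)
(1,0,1) (1,-1,0) (1,0,-1) (1,1,-1) (2,1,0) (2,2,1) (1,1,2) (2,1,1)`; `L7_le` and the bound of `E7` for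
`(2,1,2) (2,0,1) (1,0,2) (2,1,-1) (2,0,-1) (1,0,-2) (3,1,-1) (2,0,-2)` (`ofReal r ≤ 1`).
-/

set_option autoImplicit false

open MeasureTheory ProbabilityTheory
open scoped ENNReal

namespace Pool.Agent.helper49.Slope

private theorem D7m_Pt_neg {x y z a b c x' y' z' a' b' c' : ℤ}
    (h : Pt7 (-x) (-y) (-z) a b c x' y' z' a' b' c') : Pt7 x y z a b c x' y' z' a' b' c' := by
  obtain ⟨h1 | h1, h2⟩ := h
  · exact ⟨Or.inr ⟨by omega, by omega, by omega⟩, h2⟩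
  · exact ⟨Or.inl ⟨by omega, by omega, by omega⟩, h2⟩

private theorem D7m_Pt_swap {x y z a b c x' y' z' a' b' c' : ℤ}
    (h : Pt7 y x z b a c x' y' z' a' b' c') : Pt7 x y z a b c y' x' z' b' a' c' := by
  obtain ⟨h1, h2, h3, h4⟩ := h
  refine ⟨?_, h3, h2, h4⟩
  rcases h1 with h1 | h1
  · exact Or.inl ⟨h1.2.1, h1.1, h1.2.2⟩
  · exact Or.inr ⟨h1.2.1, h1.1, h1.2.2⟩

private theorem D7m_A_neg {x y z a b c : ℤ} (h : ExA7 (-x) (-y) (-z) a b c) :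
    ExA7 x y z a b c := by
  unfold ExA7 at h ⊢
  rcases h with h | h | h | h | h | h
  · exact Or.inl (D7m_Pt_neg h)
  · exact Or.inr (Or.inl (D7m_Pt_neg h))
  · exact Or.inr (Or.inr (Or.inl (D7m_Pt_neg h)))
  · exact Or.inr (Or.inr (Or.inr (Or.inl (D7m_Pt_neg h))))
  · exact Or.inr (Or.inr (Or.inr (Or.inr (Or.inl (D7m_Pt_neg h)))))
  · exact Or.inr (Or.inr (Or.inr (Or.inr (Or.inr (D7m_Pt_neg h)))))

private theorem D7m_A_swap {x y z a b c : ℤ} (h : ExA7 y x z b a c) : ExA7 x y z a b c := by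
  unfold ExA7 at h ⊢
  rcases h with h | h | h | h | h | h
  · exact Or.inr (Or.inl (D7m_Pt_swap h))
  · exact Or.inl (D7m_Pt_swap h)
  · exact Or.inr (Or.inr (Or.inl (D7m_Pt_swap h)))
  · exact Or.inr (Or.inr (Or.inr (Or.inr (Or.inl (D7m_Pt_swap h)))))
  · exact Or.inr (Or.inr (Or.inr (Or.inl (D7m_Pt_swap h))))
  · exact Or.inr (Or.inr (Or.inr (Or.inr (Or.inr (D7m_Pt_swap h)))))

private theorem D7m_D_neg {x y z a b c : ℤ} (h : ExD7 (-x) (-y) (-z) a b c) :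
    ExD7 x y z a b c := by
  unfold ExD7 at h ⊢
  rcases h with h | h | h
  · exact Or.inl (D7m_Pt_neg h)
  · exact Or.inr (Or.inl (D7m_Pt_neg h))
  · exact Or.inr (Or.inr (D7m_Pt_neg h))

private theorem D7m_D_swap {x y z a b c : ℤ} (h : ExD7 y x z b a c) : ExD7 x y z a b c := by
  unfold ExD7 at h ⊢
  rcases h with h | h | h
  · left
    obtain ⟨h1, h2, h3, h4⟩ := D7m_Pt_swap h
    refine ⟨?_, h2, h3, h4⟩
    rcases h1 with h1 | h1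
    · exact Or.inr ⟨by omega, by omega, by omega⟩
    · exact Or.inl ⟨by omega, by omega, by omega⟩
  · exact Or.inr (Or.inr (D7m_Pt_swap h))
  · exact Or.inr (Or.inl (D7m_Pt_swap h))

private theorem D7m_le {u : ℝ≥0∞} {r : ℝ} (h : u ≤ ENNReal.ofReal r) (hr : r ≤ 1) : u ≤ 1 :=
  h.trans (ENNReal.ofReal_le_one.2 hr)

private theorem D7m_core (x y z a b c : ℤ) (ha : Even (a - x)) (hb : Even (b - y))
    (hc : Even (c - z)) (hA : ¬ ExA7 x y z a b c) (hD : ¬ ExD7 x y z a b c)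
    (hs : (x, y, z) ∈ spl7) (t : ℝ) : L7 x y z a b c t ≤ 1 := by
  have e0 : ∀ n : ℤ, Even (n - 0) → Even n := fun n h => by rwa [sub_zero] at h
  have e1 : ∀ n : ℤ, Even (n - 1) → Odd n := fun n h => by
    obtain ⟨m, hm⟩ := h
    exact ⟨m, by omega⟩
  have em1 : ∀ n : ℤ, Even (n - (-1)) → Odd n := fun n h => by
    obtain ⟨m, hm⟩ := h
    exact ⟨m - 1, by omega⟩
  have e2 : ∀ n : ℤ, Even (n - 2) → Even n := fun n h => by
    obtain ⟨m, hm⟩ := h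
    exact ⟨m + 1, by omega⟩
  simp only [spl7, List.mem_cons, Prod.mk.injEq, List.not_mem_nil, or_false] at hs
  rcases hs with ⟨rfl, rfl, rfl⟩ | ⟨rfl, rfl, rfl⟩ | ⟨rfl, rfl, rfl⟩ | ⟨rfl, rfl, rfl⟩ |
    ⟨rfl, rfl, rfl⟩ | ⟨rfl, rfl, rfl⟩ | ⟨rfl, rfl, rfl⟩ | ⟨rfl, rfl, rfl⟩ | ⟨rfl, rfl, rfl⟩ |
    ⟨rfl, rfl, rfl⟩ | ⟨rfl, rfl, rfl⟩ | ⟨rfl, rfl, rfl⟩ | ⟨rfl, rfl, rfl⟩ | ⟨rfl, rfl, rfl⟩ |
    ⟨rfl, rfl, rfl⟩ | ⟨rfl, rfl, rfl⟩ | ⟨rfl, rfl, rfl⟩ | ⟨rfl, rfl, rfl⟩ | ⟨rfl, rfl, rfl⟩ |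
    ⟨rfl, rfl, rfl⟩
  · exact L7_sp_100 a b c (e1 _ ha) (e0 _ hb) (e0 _ hc) t
  · exact L7_sp_001 a b c (e0 _ ha) (e0 _ hb) (e1 _ hc) t
  · exact L7_sp_110 a b c (e1 _ ha) (e1 _ hb) (e0 _ hc) t
  · refine L7_sp_111 a b c (e1 _ ha) (e1 _ hb) (e1 _ hc) (fun h => hA ?_) t
    exact Or.inr (Or.inr (Or.inr (Or.inr (Or.inr ⟨Or.inl ⟨rfl, rfl, rfl⟩, h⟩))))
  · refine L7_sp_101 a b c (e1 _ ha) (e0 _ hb) (e1 _ hc) (fun h => hA ?_) t
    exact Or.inl ⟨Or.inl ⟨rfl, rfl, rfl⟩, h.1, by rw [h.2.1, abs_zero], h.2.2⟩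
  · refine L7_sp_1m10 a b c (e1 _ ha) (em1 _ hb) (e0 _ hc) (fun h => hD ?_) t
    exact Or.inl ⟨Or.inl ⟨rfl, rfl, rfl⟩, h.1, h.2.1, by rw [h.2.2, abs_zero]⟩
  · refine L7_sp_10m1 a b c (e1 _ ha) (e0 _ hb) (em1 _ hc) (fun h => hD ?_) t
    exact Or.inr (Or.inl ⟨Or.inl ⟨rfl, rfl, rfl⟩, h.1, by rw [h.2.1, abs_zero], h.2.2⟩)
  · exact L7_sp_11m1 a b c (e1 _ ha) (e1 _ hb) (em1 _ hc) t
  · refine L7_sp_210 a b c (e2 _ ha) (e1 _ hb) (e0 _ hc) (fun h => hA ?_) t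
    exact Or.inr (Or.inr (Or.inr (Or.inl ⟨Or.inl ⟨rfl, rfl, rfl⟩, by rw [h.1, abs_zero], h.2.1,
      by rw [h.2.2, abs_zero]⟩)))
  · refine L7_sp_221 a b c (e2 _ ha) (e2 _ hb) (e1 _ hc) (fun h => hA ?_) t
    exact Or.inr (Or.inr (Or.inl ⟨Or.inl ⟨rfl, rfl, rfl⟩, by rw [h.1, abs_zero],
      by rw [h.2.1, abs_zero], h.2.2⟩))
  · exact D7m_le (L7_sp_112 a b c (e1 _ ha) (e1 _ hb) t) (by norm_num)
  · exact D7m_le (L7_sp_211 a b c (e1 _ hb) (e1 _ hc) t) (by norm_num)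
  · exact D7m_le ((L7_le _ _ _ a b c t).trans E7_212) (by norm_num)
  · exact D7m_le ((L7_le _ _ _ a b c t).trans E7_201) (by norm_num)
  · exact D7m_le ((L7_le _ _ _ a b c t).trans E7_102) (by norm_num)
  · exact D7m_le ((L7_le _ _ _ a b c t).trans E7_21m1) (by norm_num)
  · exact D7m_le ((L7_le _ _ _ a b c t).trans E7_20m1) (by norm_num)
  · exact D7m_le ((L7_le _ _ _ a b c t).trans E7_10m2) (by norm_num)
  · exact D7m_le ((L7_le _ _ _ a b c t).trans E7_31m1) (by norm_num)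
  · exact D7m_le ((L7_le _ _ _ a b c t).trans E7_20m2) (by norm_num)

theorem L7_le_one (x y z a b c : ℤ) (ha : Even (a - x)) (hb : Even (b - y)) (hc : Even (c - z))
    (h0 : ¬ (x = 0 ∧ y = 0 ∧ z = 0)) (hA : ¬ ExA7 x y z a b c) (hD : ¬ ExD7 x y z a b c) (t : ℝ) :
    L7 x y z a b c t ≤ 1 := by
  have en : ∀ n m : ℤ, Even (n - m) → Even (n - (-m)) := fun n m h => by
    obtain ⟨k, hk⟩ := h
    exact ⟨k + m, by omega⟩
  by_cases hs : Sp7 x y z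
  · rcases hs with hs | hs | hs | hs
    · exact D7m_core x y z a b c ha hb hc hA hD hs t
    · rw [L7_neg]
      exact D7m_core (-x) (-y) (-z) a b c (en _ _ ha) (en _ _ hb) (en _ _ hc)
        (fun h => hA (D7m_A_neg h)) (fun h => hD (D7m_D_neg h)) hs t
    · rw [L7_swap]
      exact D7m_core y x z b a c hb ha hc (fun h => hA (D7m_A_swap h))
        (fun h => hD (D7m_D_swap h)) hs t
    · rw [L7_swap, L7_neg]
      exact D7m_core (-y) (-x) (-z) b a c (en _ _ hb) (en _ _ ha) (en _ _ hc)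
        (fun h => hA (D7m_A_swap (D7m_A_neg h))) (fun h => hD (D7m_D_swap (D7m_D_neg h))) hs t
  · exact (L7_le x y z a b c t).trans (E7_generic x y z h0 hs)

end Pool.Agent.helper49.Slope
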