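import Pool.Agent.helper49.Slope.D7f
import Pool.Agent.helper49.Slope.D7g
import Pool.Agent.helper49.Slope.D7h

/-!
MP_aedd95_co (slope of k-fold hyperplane covers of triangular grids), module D7n.
The law `D_7`: patterns `(1,1,1;1,1,1)` and `(2,1,0;0,1,0)` (indicators of sets of size 3).

PROOFS. `L7_111`: `W7 1 1 1 s = 1/4`, `V = 1/2`; `t ≥ 0` by `L7_negt`. Centres `±(h₁+h₂+h₃)` and `±x_i`,
`x_i = h_j + h_k - h_i = 1/2 - y_i`, `y_i = s_j + s_k - s_i`, `x_i ∈ [1/8, 7/8]`.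
 `t ≥ 5/8`: of each couple `{x,-x}` at most one covers (both would give `t + |x| ≤ 1/2`):
 count `≤ 4`, `k8 ≤ 4/8·2 = 1`. `t < 5/8`: the centres `±(h₁+h₂+h₃)` (`≥ 9/8`) do not cover (distance
 `> 1/2`); `x_i` covers only if `y_i ≥ -t`, `-x_i` only if `y_i ≥ t`. So
 `k8 ≤ (1/4) ∑_i (1{y_i ≥ t} + 1{y_i ≥ -t})`. `P(y_i ≥ r) ≤ 0.631 - 2.5 (r + 1/96)` for `|r| ≤ 1/8`:
 condition on `s_i` (`lint7_o1`, `lint7_o2`, `lint7_o3`), `sig7_lin (r + s_i)`, then
 `lam_moment` (`E s = 1/96`, the function `0.631 - 2.5 r - 2.5 s ≥ 0.006 ≥ 0` on `|s| ≤ 1/8`).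
 `t ≤ 1/8`: sum `≤ 3·2·(0.631 - 2.5/96) ≤ 3.63`. `1/8 ≤ t < 5/8`: `P(y_i ≥ t) ≤ P(y_i ≥ 1/8) ≤
 0.29246`, `P(y_i ≥ -t) ≤ 1`: `≤ 3·1.29246 = 3.8774`; `L ≤ 3.8774/4 ≤ 0.97`.
`L7_210_far`: `W7 2 1 0 s = 2q₁ - q₂ + 2q₃`, centres `±h₂` (`k8_swap12`, `k8_zero_zero`). If both cover
`|t| + h₂ ≤ V`, so `V ≥ 5/8 + 3/8 = 1`. Hence pointwise `k8 ≤ (1/2)(1/V) + 1/2`:
`(1/2)·1.1568 + 1/2 = 1.0784` (`E7_210`).
-/

set_option autoImplicit false

open MeasureTheory ProbabilityTheory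
open scoped ENNReal

namespace Pool.Agent.helper49.Slope

theorem D7n_W (s : ℝ × ℝ × ℝ) : Real.sqrt (W7 1 1 1 s) = 1 / 2 := by
  have h : W7 1 1 1 s = (1 / 2) ^ 2 := by
    unfold W7
    push_cast
    ring
  rw [h, Real.sqrt_sq (by norm_num)]

/-- opposite centres do not both cover a point `t > V` -/
theorem D7n_pair (x V t : ℝ) (h : V < t) : D6ca_i x V t + D6ca_i (-x) V t ≤ 1 := by
  unfold D6ca_i
  split_ifs with h1 h2 h2
  · exfalso
    have e1 := (abs_le.1 h1).2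
    have e2 := (abs_le.1 h2).2
    linarith
  · norm_num
  · norm_num
  · norm_num

theorem D7n_shift (x y V t : ℝ) : D6ca_i x V (t - y) = D6ca_i (x + y) V t := by
  unfold D6ca_i
  rw [show t - y - x = t - (x + y) by ring]

theorem D7n_shift' (x y V t : ℝ) : D6ca_i x V (t + y) = D6ca_i (x - y) V t := by
  unfold D6ca_i
  rw [show t + y - x = t - (x - y) by ring]

open Classical in
theorem D7n_le_ind (x V t : ℝ) (P : Prop) (h : |t - x| ≤ V → P) :
    D6ca_i x V t ≤ if P then 1 else 0 := by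
  unfold D6ca_i
  split_ifs with h1 h2
  · exact le_rfl
  · exact absurd (h h1) h2
  · norm_num
  · exact le_rfl

/-- the eight centres -/
theorem D7n_eq (A B C t : ℝ) : k8 A B C (1 / 2) t = ENNReal.ofReal (1 / 4 *
    ((D6ca_i (A + B + C) (1 / 2) t + D6ca_i (-(A + B + C)) (1 / 2) t) +
    (D6ca_i (B + C - A) (1 / 2) t + D6ca_i (-(B + C - A)) (1 / 2) t) +
    (D6ca_i (A + C - B) (1 / 2) t + D6ca_i (-(A + C - B)) (1 / 2) t) +
    (D6ca_i (A + B - C) (1 / 2) t + D6ca_i (-(A + B - C)) (1 / 2) t))) := by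
  rw [k8_eq (by norm_num)]
  simp only [D7n_shift, D7n_shift']
  congr 1
  rw [show -A + B + C = B + C - A by ring, show A - B + C = A + C - B by ring,
    show -A - B + C = -(A + B - C) by ring, show A - B - C = -(B + C - A) by ring,
    show -A + B - C = -(A + C - B) by ring, show -A - B - C = -(A + B + C) by ring]
  ring

theorem D7n_K8 (t : ℝ) (s : ℝ × ℝ × ℝ) : K8 1 1 1 1 1 1 t s =
    k8 (1 / 2 - s.1) (1 / 2 - s.2.1) (1 / 2 - s.2.2) (1 / 2) t := by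
  unfold K8
  rw [D7n_W]
  push_cast
  rw [one_mul, one_mul, one_mul]

theorem D7n_far {t : ℝ} (ht : 5 / 8 ≤ t) (s : ℝ × ℝ × ℝ) : K8 1 1 1 1 1 1 t s ≤ 1 := by
  rw [D7n_K8, D7n_eq, ← ENNReal.ofReal_one]
  apply ENNReal.ofReal_le_ofReal
  have hp := fun x => D7n_pair x (1 / 2) t (by linarith)
  have h1 := hp ((1 / 2 - s.1) + (1 / 2 - s.2.1) + (1 / 2 - s.2.2))
  have h2 := hp ((1 / 2 - s.2.1) + (1 / 2 - s.2.2) - (1 / 2 - s.1))
  have h3 := hp ((1 / 2 - s.1) + (1 / 2 - s.2.2) - (1 / 2 - s.2.1))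
  have h4 := hp ((1 / 2 - s.1) + (1 / 2 - s.2.1) - (1 / 2 - s.2.2))
  linarith

/-- the three combinations -/
noncomputable def D7n_y (i : Fin 3) (s : ℝ × ℝ × ℝ) : ℝ :=
  ![s.2.1 + s.2.2 - s.1, s.1 + s.2.2 - s.2.1, s.1 + s.2.1 - s.2.2] i

theorem D7n_y_meas (i : Fin 3) : Measurable (D7n_y i) := by
  unfold D7n_y
  fin_cases i
  · show Measurable fun s : ℝ × ℝ × ℝ => s.2.1 + s.2.2 - s.1
    fun_prop
  · show Measurable fun s : ℝ × ℝ × ℝ => s.1 + s.2.2 - s.2.1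
    fun_prop
  · show Measurable fun s : ℝ × ℝ × ℝ => s.1 + s.2.1 - s.2.2
    fun_prop

/-- the set where `r ≤ y_i` -/
def D7n_S (i : Fin 3) (r : ℝ) : Set (ℝ × ℝ × ℝ) := {s | r ≤ D7n_y i s}

theorem D7n_S_meas (i : Fin 3) (r : ℝ) : MeasurableSet (D7n_S i r) :=
  measurableSet_le measurable_const (D7n_y_meas i)

/-- indicator with values in the extended reals -/
noncomputable def D7n_J (i : Fin 3) (r : ℝ) (s : ℝ × ℝ × ℝ) : ℝ≥0∞ :=
  (D7n_S i r).indicator (fun _ => 1) s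

theorem D7n_J_meas (i : Fin 3) (r : ℝ) : Measurable (D7n_J i r) :=
  measurable_const.indicator (D7n_S_meas i r)

theorem D7n_J_int (i : Fin 3) (r : ℝ) : ∫⁻ s, D7n_J i r s ∂lam3 = lam3 (D7n_S i r) := by
  unfold D7n_J
  rw [lintegral_indicator (D7n_S_meas i r), lintegral_one, Measure.restrict_apply_univ]

open Classical in
theorem D7n_J_eq (i : Fin 3) (r : ℝ) (s : ℝ × ℝ × ℝ) :
    D7n_J i r s = ENNReal.ofReal (if r ≤ D7n_y i s then 1 else 0) := by
  unfold D7n_J D7n_S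
  rw [Set.indicator_apply]
  simp only [Set.mem_setOf_eq]
  split_ifs <;> simp

theorem D7n_near {t : ℝ} (h0 : 0 ≤ t) (ht : t < 5 / 8) (s : ℝ × ℝ × ℝ) (hs : R7 s) :
    K8 1 1 1 1 1 1 t s ≤ ENNReal.ofReal (1 / 4) *
      ∑ i : Fin 3, (D7n_J i (-t) s + D7n_J i t s) := by
  classical
  obtain ⟨h1, h2, h3⟩ := hs
  obtain ⟨a1, b1⟩ := abs_le.1 h1
  obtain ⟨a2, b2⟩ := abs_le.1 h2
  obtain ⟨a3, b3⟩ := abs_le.1 h3
  rw [D7n_K8, D7n_eq]
  have e : ∑ i : Fin 3, (D7n_J i (-t) s + D7n_J i t s) = ENNReal.ofReal (∑ i : Fin 3,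
      ((if -t ≤ D7n_y i s then (1 : ℝ) else 0) + (if t ≤ D7n_y i s then (1 : ℝ) else 0))) := by
    rw [ENNReal.ofReal_sum_of_nonneg]
    · refine Finset.sum_congr rfl fun i _ => ?_
      rw [D7n_J_eq, D7n_J_eq, ENNReal.ofReal_add]
      · split_ifs <;> norm_num
      · split_ifs <;> norm_num
    · intro i _
      split_ifs <;> norm_num
  rw [e, ← ENNReal.ofReal_mul (by norm_num)]
  apply ENNReal.ofReal_le_ofReal
  apply mul_le_mul_of_nonneg_left _ (by norm_num)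
  rw [Fin.sum_univ_three]
  have z1 : D6ca_i ((1 / 2 - s.1) + (1 / 2 - s.2.1) + (1 / 2 - s.2.2)) (1 / 2) t ≤ 0 := by
    have := D7n_le_ind ((1 / 2 - s.1) + (1 / 2 - s.2.1) + (1 / 2 - s.2.2)) (1 / 2) t False
      (fun h => by
        have := (abs_le.1 h).1
        linarith)
    simpa using this
  have z2 : D6ca_i (-((1 / 2 - s.1) + (1 / 2 - s.2.1) + (1 / 2 - s.2.2))) (1 / 2) t ≤ 0 := by
    have := D7n_le_ind (-((1 / 2 - s.1) + (1 / 2 - s.2.1) + (1 / 2 - s.2.2))) (1 / 2) t False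
      (fun h => by
        have := (abs_le.1 h).2
        linarith)
    simpa using this
  have k1 := D7n_le_ind ((1 / 2 - s.2.1) + (1 / 2 - s.2.2) - (1 / 2 - s.1)) (1 / 2) t
    (-t ≤ D7n_y 0 s) (fun h => by
      have := (abs_le.1 h).1
      show -t ≤ s.2.1 + s.2.2 - s.1
      linarith)
  have k1' := D7n_le_ind (-((1 / 2 - s.2.1) + (1 / 2 - s.2.2) - (1 / 2 - s.1))) (1 / 2) t
    (t ≤ D7n_y 0 s) (fun h => by
      have := (abs_le.1 h).2
      show t ≤ s.2.1 + s.2.2 - s.1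
      linarith)
  have k2 := D7n_le_ind ((1 / 2 - s.1) + (1 / 2 - s.2.2) - (1 / 2 - s.2.1)) (1 / 2) t
    (-t ≤ D7n_y 1 s) (fun h => by
      have := (abs_le.1 h).1
      show -t ≤ s.1 + s.2.2 - s.2.1
      linarith)
  have k2' := D7n_le_ind (-((1 / 2 - s.1) + (1 / 2 - s.2.2) - (1 / 2 - s.2.1))) (1 / 2) t
    (t ≤ D7n_y 1 s) (fun h => by
      have := (abs_le.1 h).2
      show t ≤ s.1 + s.2.2 - s.2.1
      linarith)
  have k3 := D7n_le_ind ((1 / 2 - s.1) + (1 / 2 - s.2.1) - (1 / 2 - s.2.2)) (1 / 2) t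
    (-t ≤ D7n_y 2 s) (fun h => by
      have := (abs_le.1 h).1
      show -t ≤ s.1 + s.2.1 - s.2.2
      linarith)
  have k3' := D7n_le_ind (-((1 / 2 - s.1) + (1 / 2 - s.2.1) - (1 / 2 - s.2.2))) (1 / 2) t
    (t ≤ D7n_y 2 s) (fun h => by
      have := (abs_le.1 h).2
      show t ≤ s.1 + s.2.1 - s.2.2
      linarith)
  linarith

theorem D7n_P_inner (r s : ℝ) (hr : |r| ≤ 1 / 8) (hs : |s| ≤ 1 / 8) :
    lam2 {p | r + s ≤ p.1 + p.2} ≤ ENNReal.ofReal ((631 / 1000 - 5 / 2 * r) + (-(5 / 2)) * s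
      + 0 * s ^ 2) := by
  have h := sig7_lin (r + s) ((abs_add_le r s).trans (by linarith))
  refine h.trans (ENNReal.ofReal_le_ofReal (le_of_eq ?_))
  ring

theorem D7n_P_outer (r : ℝ) (hr : |r| ≤ 1 / 8) :
    ∫⁻ s, lam2 {p | r + s ≤ p.1 + p.2} ∂(lam (1 / 8)) ≤
      ENNReal.ofReal (631 / 1000 - 5 / 2 * (r + 1 / 96)) := by
  have h1 : ∫⁻ s, lam2 {p | r + s ≤ p.1 + p.2} ∂(lam (1 / 8)) ≤
      ∫⁻ s, ENNReal.ofReal ((631 / 1000 - 5 / 2 * r) + (-(5 / 2)) * s + 0 * s ^ 2)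
        ∂(lam (1 / 8)) := by
    refine lintegral_mono_ae ?_
    filter_upwards [lam_ae (1 / 8)] with s hs
    exact D7n_P_inner r s hr hs
  refine h1.trans (le_of_eq ?_)
  rw [lam_moment (by norm_num) (by norm_num)]
  · congr 1
    ring
  · intro s hs
    have e1 := (abs_le.1 hr).2
    have e2 := (abs_le.1 hs).2
    linarith

theorem D7n_P (i : Fin 3) (r : ℝ) (hr : |r| ≤ 1 / 8) :
    lam3 (D7n_S i r) ≤ ENNReal.ofReal (631 / 1000 - 5 / 2 * (r + 1 / 96)) := by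
  rw [← D7n_J_int]
  have hm := D7n_J_meas i r
  refine le_trans (le_of_eq ?_) (D7n_P_outer r hr)
  have hset : ∀ s : ℝ, MeasurableSet {p : ℝ × ℝ | r + s ≤ p.1 + p.2} := fun s =>
    measurableSet_le measurable_const (by fun_prop)
  have key : ∀ s : ℝ, ∫⁻ p : ℝ × ℝ, {p : ℝ × ℝ | r + s ≤ p.1 + p.2}.indicator
      (fun _ => (1 : ℝ≥0∞)) p ∂lam2 = lam2 {p | r + s ≤ p.1 + p.2} := by
    intro s
    rw [lintegral_indicator (hset s), lintegral_one, Measure.restrict_apply_univ]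
  have h3 : i = 0 ∨ i = 1 ∨ i = 2 := by omega
  rcases h3 with rfl | rfl | rfl
  · rw [lint7_o1 _ hm]
    refine lintegral_congr fun s => ?_
    rw [← key s]
    refine lintegral_congr fun p => ?_
    unfold D7n_J D7n_S
    simp only [Set.indicator_apply, Set.mem_setOf_eq]
    have : r ≤ D7n_y 0 (s, p.1, p.2) ↔ r + s ≤ p.1 + p.2 := by
      show r ≤ p.1 + p.2 - s ↔ _
      constructor <;> intro h <;> linarith
    simp only [this]
  · rw [lint7_o2 _ hm]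
    refine lintegral_congr fun s => ?_
    rw [← key s]
    refine lintegral_congr fun p => ?_
    unfold D7n_J D7n_S
    simp only [Set.indicator_apply, Set.mem_setOf_eq]
    have : r ≤ D7n_y 1 (p.1, s, p.2) ↔ r + s ≤ p.1 + p.2 := by
      show r ≤ p.1 + p.2 - s ↔ _
      constructor <;> intro h <;> linarith
    simp only [this]
  · rw [lint7_o3 _ hm]
    refine lintegral_congr fun s => ?_
    rw [← key s]
    refine lintegral_congr fun p => ?_
    unfold D7n_J D7n_S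
    simp only [Set.indicator_apply, Set.mem_setOf_eq]
    have : r ≤ D7n_y 2 (p.1, p.2, s) ↔ r + s ≤ p.1 + p.2 := by
      show r ≤ p.1 + p.2 - s ↔ _
      constructor <;> intro h <;> linarith
    simp only [this]

theorem D7n_int {t : ℝ} (h0 : 0 ≤ t) (ht : t < 5 / 8) : L7 1 1 1 1 1 1 t ≤
    ENNReal.ofReal (1 / 4) * ∑ i : Fin 3, (lam3 (D7n_S i (-t)) + lam3 (D7n_S i t)) := by
  rw [L7_eq]
  have hm : ∀ i : Fin 3, Measurable (fun s => D7n_J i (-t) s + D7n_J i t s) := fun i =>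
    (D7n_J_meas i (-t)).add (D7n_J_meas i t)
  have h1 : ∫⁻ s, K8 1 1 1 1 1 1 t s ∂lam3 ≤ ∫⁻ s, ENNReal.ofReal (1 / 4) *
      ∑ i : Fin 3, (D7n_J i (-t) s + D7n_J i t s) ∂lam3 := by
    refine lintegral_mono_ae ?_
    filter_upwards [lam3_ae] with s hs
    exact D7n_near h0 ht s hs
  refine h1.trans (le_of_eq ?_)
  rw [lintegral_const_mul _ (Finset.measurable_sum _ fun i _ => hm i),
    lintegral_finset_sum _ fun i _ => hm i]
  congr 1
  refine Finset.sum_congr rfl fun i _ => ?_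
  rw [lintegral_add_left (D7n_J_meas i (-t)), D7n_J_int, D7n_J_int]

theorem D7n_sum {t : ℝ} (h0 : 0 ≤ t) (ht : t < 5 / 8) (c : ℝ) (hc : 0 ≤ c)
    (h : ∀ i : Fin 3, lam3 (D7n_S i (-t)) + lam3 (D7n_S i t) ≤ ENNReal.ofReal c) :
    L7 1 1 1 1 1 1 t ≤ ENNReal.ofReal (1 / 4 * (3 * c)) := by
  refine (D7n_int h0 ht).trans ?_
  rw [ENNReal.ofReal_mul (by norm_num)]
  gcongr
  refine (Finset.sum_le_sum fun i _ => h i).trans (le_of_eq ?_)
  rw [Finset.sum_const, Finset.card_univ, Fintype.card_fin, nsmul_eq_mul,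
    ENNReal.ofReal_mul (by norm_num)]
  congr 1
  norm_num

theorem D7n_pos {t : ℝ} (h0 : 0 ≤ t) :
    L7 1 1 1 1 1 1 t ≤ ENNReal.ofReal (if 5 / 8 ≤ t then 1 else 97 / 100) := by
  have := lam3_prob
  split_ifs with h
  · rw [L7_eq]
    calc ∫⁻ s, K8 1 1 1 1 1 1 t s ∂lam3 ≤ ∫⁻ _, 1 ∂lam3 := lintegral_mono fun s => D7n_far h s
      _ = ENNReal.ofReal 1 := by rw [lintegral_one, measure_univ, ENNReal.ofReal_one]
  · have h' : t < 5 / 8 := not_le.1 h
    rcases le_total t (1 / 8) with h8 | h8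
    · refine (D7n_sum h0 h' ((631 / 1000 - 5 / 2 * (-t + 1 / 96)) +
        (631 / 1000 - 5 / 2 * (t + 1 / 96))) (by linarith) fun i => ?_).trans
        (ENNReal.ofReal_le_ofReal (by linarith))
      rw [ENNReal.ofReal_add (by linarith) (by linarith)]
      refine add_le_add (D7n_P i (-t) ?_) (D7n_P i t ?_)
      · rw [abs_neg, abs_of_nonneg h0]
        exact h8
      · rw [abs_of_nonneg h0]
        exact h8
    · refine (D7n_sum h0 h' (1 + (631 / 1000 - 5 / 2 * (1 / 8 + 1 / 96)))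
        (by norm_num) fun i => ?_).trans (ENNReal.ofReal_le_ofReal (by norm_num))
      rw [ENNReal.ofReal_add (by norm_num) (by norm_num), ENNReal.ofReal_one]
      refine add_le_add prob_le_one ?_
      refine (measure_mono ?_).trans (D7n_P i (1 / 8) (by rw [abs_of_pos (by norm_num)]))
      intro s hs
      exact h8.trans hs

theorem L7_111 (t : ℝ) :
    L7 1 1 1 1 1 1 t ≤ ENNReal.ofReal (if 5 / 8 ≤ |t| then 1 else 97 / 100) := by
  rw [← L7_abst]
  exact D7n_pos (abs_nonneg t)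

theorem L7_210_far (t : ℝ) (ht : 5 / 8 ≤ |t|) :
    L7 2 1 0 0 1 0 t ≤ ENNReal.ofReal (10784 / 10000) := by
  have := lam3_prob
  have h := L7_split 2 1 0 0 1 0 t (ENNReal.ofReal (1 / 2)) (ENNReal.ofReal (1 / 2)) Set.univ
    MeasurableSet.univ (fun s hs => ?_)
  · refine h.trans ?_
    rw [measure_univ, mul_one]
    calc ENNReal.ofReal (1 / 2) * E7 2 1 0 + ENNReal.ofReal (1 / 2)
        ≤ ENNReal.ofReal (1 / 2) * ENNReal.ofReal (11568 / 10000) + ENNReal.ofReal (1 / 2) := by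
          gcongr
          exact E7_210
      _ = ENNReal.ofReal (10784 / 10000) := by
          rw [← ENNReal.ofReal_mul (by norm_num), ← ENNReal.ofReal_add (by norm_num) (by norm_num)]
          congr 1
          norm_num
  · obtain ⟨h1, h2, h3⟩ := hs
    obtain ⟨a2, b2⟩ := abs_le.1 h2
    have e : K8 2 1 0 0 1 0 t s = (ker (1 / 2 - s.2.1) (Real.sqrt (W7 2 1 0 s)) t +
        ker (-(1 / 2 - s.2.1)) (Real.sqrt (W7 2 1 0 s)) t) / 2 := by
      unfold K8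
      push_cast
      rw [zero_mul, zero_mul, one_mul, ← k8_swap12, k8_zero_zero]
    rw [e]
    unfold I7
    simp only [Set.indicator_univ]
    set V := Real.sqrt (W7 2 1 0 s) with hV
    have hV0 : 0 ≤ V := Real.sqrt_nonneg _
    have hn : 0 ≤ 1 / V := by positivity
    rw [D6ca_ker, D6ca_ker, ← ENNReal.ofReal_add (mul_nonneg (D6ca_i_nn _ _ _) hn)
      (mul_nonneg (D6ca_i_nn _ _ _) hn), show (2 : ℝ≥0∞) = ENNReal.ofReal 2 by norm_num,
      ← ENNReal.ofReal_div_of_pos (by norm_num), ← ENNReal.ofReal_mul (by norm_num),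
      ← ENNReal.ofReal_add (by positivity) (by norm_num)]
    apply ENNReal.ofReal_le_ofReal
    by_cases hb : |t - (1 / 2 - s.2.1)| ≤ V ∧ |t - -(1 / 2 - s.2.1)| ≤ V
    · have hV1 : 1 ≤ V := by
        obtain ⟨c1, c2⟩ := hb
        have c1' := abs_le.1 c1
        have c2' := abs_le.1 c2
        rcases abs_cases t with ⟨e1, _⟩ | ⟨e1, _⟩ <;> linarith
      have hle : 1 / V ≤ 1 := by
        rw [div_le_one (by linarith)]
        exact hV1
      have i1 := mul_le_mul_of_nonneg_right (D6ca_i_le (1 / 2 - s.2.1) V t) hn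
      have i2 := mul_le_mul_of_nonneg_right (D6ca_i_le (-(1 / 2 - s.2.1)) V t) hn
      linarith
    · have i3 : D6ca_i (1 / 2 - s.2.1) V t + D6ca_i (-(1 / 2 - s.2.1)) V t ≤ 1 := by
        unfold D6ca_i
        split_ifs with g1 g2 g2
        · exact absurd ⟨g1, g2⟩ hb
        · norm_num
        · norm_num
        · norm_num
      have i4 := mul_le_mul_of_nonneg_right i3 hn
      linarith

end Pool.Agent.helper49.Slope
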