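import Pool.Agent.helper49.Slope.D7z

/-!
MP_aedd95_co (slope of k-fold hyperplane covers of triangular grids), module D7o.
The law `D_7`: restricted expectation with two digits.

PROOFS. `R7w A w = E [1/√(A + 2q₁ + 2q₂); c₂ ≥ w]`. For `A + 36/64 > 0` and `3/8 ≤ w ≤ 5/8`
`R7w A w = (16/3)(F(5/8,5/8) - F(3/8,5/8) - F(5/8,w) + F(3/8,w))`, `F(x,y) = (A+2x²+2y²)^{3/2}`: inner
integral over the first digit `4(√(A+2·25/64+2c²) - √(A+2·9/64+2c²))` (`lam_inv_sqrt` form: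
`2/(√..+√..)`, or `J1_key`), outer: density `8c` on `[w,5/8]`, antiderivative of `8c √(B+2c²)` is
`(4/3)(B+2c²)^{3/2}` (`J1_lint`, indicator, `J1_ftc`). `4·(4/3) = 16/3`. Numerical values (`≤`):
 `A = -25/64, w = 43/100`: `2·0.50043 = 1.00086`; `A = -33/64, w = 466/1000`: `2·0.45474 = 0.90948`;
 `A = -17/64, w = 397/1000`: `2·0.52936 = 1.05872`.
-/

set_option autoImplicit false

open MeasureTheory ProbabilityTheory
open scoped ENNReal

namespace Pool.Agent.helper49.Slope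

noncomputable def R7w (A w : ℝ) : ℝ≥0∞ :=
  ∫⁻ s, {s : ℝ × ℝ | w ≤ 1 / 2 + s.2}.indicator (fun s => ENNReal.ofReal
    (1 / Real.sqrt (A + 2 * (1 / 2 + s.1) ^ 2 + 2 * (1 / 2 + s.2) ^ 2))) s ∂lam2

/-- the antiderivative -/
noncomputable def D7oF (A x y : ℝ) : ℝ :=
  (A + 2 * x ^ 2 + 2 * y ^ 2) * Real.sqrt (A + 2 * x ^ 2 + 2 * y ^ 2)

theorem D7o_indic (w : ℝ) (hw1 : 3 / 8 ≤ w) (g : ℝ → ℝ≥0∞) (hg : Measurable g) :
    ∫⁻ s, {s : ℝ | w ≤ 1 / 2 + s}.indicator g s ∂(lam (1 / 8)) =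
      ∫⁻ s in Set.Icc (w - 1 / 2) (1 / 8), ENNReal.ofReal ((1 / 2 + s) / (1 / 8)) * g s := by
  have hS : MeasurableSet {s : ℝ | w ≤ 1 / 2 + s} :=
    measurableSet_le measurable_const (by fun_prop)
  rw [J1_lint _ _ (hg.indicator hS)]
  have e : ∀ s : ℝ, ENNReal.ofReal ((1 / 2 + s) / (1 / 8)) *
      {s : ℝ | w ≤ 1 / 2 + s}.indicator g s = {s : ℝ | w ≤ 1 / 2 + s}.indicator
        (fun s => ENNReal.ofReal ((1 / 2 + s) / (1 / 8)) * g s) s := by
    intro s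
    by_cases h : s ∈ {s : ℝ | w ≤ 1 / 2 + s}
    · rw [Set.indicator_of_mem h, Set.indicator_of_mem h]
    · rw [Set.indicator_of_notMem h, Set.indicator_of_notMem h, mul_zero]
  simp_rw [e]
  rw [lintegral_indicator hS, Measure.restrict_restrict hS]
  have e2 : {s : ℝ | w ≤ 1 / 2 + s} ∩ Set.Icc (-(1 / 8)) (1 / 8) =
      Set.Icc (w - 1 / 2) (1 / 8) := by
    ext s
    simp only [Set.mem_inter_iff, Set.mem_ofPred_eq, Set.mem_Icc]
    constructor
    · rintro ⟨h1, h2, h3⟩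
      exact ⟨by linarith, h3⟩
    · rintro ⟨h1, h2⟩
      exact ⟨by linarith, by linarith, h2⟩
  rw [e2]

theorem D7o_inner (A w : ℝ) (hA : 0 < A + 36 / 64) :
    R7w A w = ∫⁻ s, {s : ℝ | w ≤ 1 / 2 + s}.indicator (fun s => ENNReal.ofReal
      (2 / (Real.sqrt (A + 2 * (1 / 2 + s) ^ 2 + 2 * (5 / 8) ^ 2)
        + Real.sqrt (A + 2 * (1 / 2 + s) ^ 2 + 2 * (3 / 8) ^ 2)))) s ∂(lam (1 / 8)) := by
  have := lam8_prob
  have hS : MeasurableSet {s : ℝ × ℝ | w ≤ 1 / 2 + s.2} :=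
    measurableSet_le measurable_const (by fun_prop)
  have hm : Measurable (fun s : ℝ × ℝ => ENNReal.ofReal
    (1 / Real.sqrt (A + 2 * (1 / 2 + s.1) ^ 2 + 2 * (1 / 2 + s.2) ^ 2))) := by fun_prop
  unfold R7w
  rw [lintegral_prod_symm _ (hm.indicator hS).aemeasurable]
  refine lintegral_congr_ae ?_
  filter_upwards [lam_ae (1 / 8)] with y hy
  by_cases h : w ≤ 1 / 2 + y
  · have e1 : ∀ x : ℝ, {s : ℝ × ℝ | w ≤ 1 / 2 + s.2}.indicator (fun s : ℝ × ℝ => ENNReal.ofReal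
        (1 / Real.sqrt (A + 2 * (1 / 2 + s.1) ^ 2 + 2 * (1 / 2 + s.2) ^ 2))) (x, y) =
        ENNReal.ofReal (1 / Real.sqrt (A + 2 * (1 / 2 + y) ^ 2 + 2 * (1 / 2 + x) ^ 2)) := by
      intro x
      rw [Set.indicator_of_mem (show (x, y) ∈ {s : ℝ × ℝ | w ≤ 1 / 2 + s.2} from h)]
      congr 3
      ring
    simp_rw [e1]
    rw [Set.indicator_of_mem (show y ∈ {s : ℝ | w ≤ 1 / 2 + s} from h),
      lam_inv_sqrt (by norm_num) (by norm_num) (A + 2 * (1 / 2 + y) ^ 2) 2]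
    · norm_num
    · intro x hx
      obtain ⟨h1, h2⟩ := abs_le.1 hy
      obtain ⟨h3, h4⟩ := abs_le.1 hx
      nlinarith [sq_nonneg (1 / 2 + y - 3 / 8), sq_nonneg (1 / 2 + x - 3 / 8)]
  · have e1 : ∀ x : ℝ, {s : ℝ × ℝ | w ≤ 1 / 2 + s.2}.indicator (fun s : ℝ × ℝ => ENNReal.ofReal
        (1 / Real.sqrt (A + 2 * (1 / 2 + s.1) ^ 2 + 2 * (1 / 2 + s.2) ^ 2))) (x, y) = 0 := by
      intro x
      exact Set.indicator_of_notMem (show (x, y) ∉ {s : ℝ × ℝ | w ≤ 1 / 2 + s.2} from h) _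
    simp_rw [e1]
    rw [Set.indicator_of_notMem (show y ∉ {s : ℝ | w ≤ 1 / 2 + s} from h), lintegral_zero]

theorem D7o_key (A w : ℝ) (hw1 : 3 / 8 ≤ w) (hw2 : w ≤ 5 / 8) (hA : 0 < A + 36 / 64) :
    R7w A w = ENNReal.ofReal (16 / 3 * (D7oF A (5 / 8) (5 / 8) - D7oF A (5 / 8) (3 / 8)
      - D7oF A w (5 / 8) + D7oF A w (3 / 8))) := by
  rw [D7o_inner A w hA, D7o_indic w hw1 _ (by fun_prop)]
  have hbd : ∀ s ∈ Set.Icc (w - 1 / 2) (1 / 8 : ℝ), ∀ k : ℝ, 3 / 8 ≤ k →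
      0 < A + 2 * (1 / 2 + s) ^ 2 + 2 * k ^ 2 := by
    intro s hs k hk
    nlinarith [hs.1, sq_nonneg (1 / 2 + s - 3 / 8), sq_nonneg (k - 3 / 8)]
  have hder : ∀ (k s : ℝ), 0 < A + 2 * (1 / 2 + s) ^ 2 + 2 * k ^ 2 →
      HasDerivAt (fun s : ℝ => D7oF A (1 / 2 + s) k)
        (3 * 2 * (1 / 2 + s) * Real.sqrt (A + 2 * (1 / 2 + s) ^ 2 + 2 * k ^ 2)) s := by
    intro k s hs
    have h2 : HasDerivAt (fun s : ℝ => A + 2 * (1 / 2 + s) ^ 2 + 2 * k ^ 2)
        (2 * (2 * (1 / 2 + s))) s := by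
      have h3 := (((((hasDerivAt_id s).const_add (1 / 2)).pow 2).const_mul 2).const_add
        A).add_const (2 * k ^ 2)
      refine h3.congr_deriv ?_
      simp
    have h4 := h2.mul (h2.sqrt hs.ne')
    refine h4.congr_deriv ?_
    have h5 := Real.sqrt_pos.2 hs
    have h6 := Real.mul_self_sqrt hs.le
    exact J1_alg _ _ _ _ h5 h6
  have h1 := (J1_ftc (by linarith : w - 1 / 2 ≤ 1 / 8) (fun s : ℝ => (1 / 2 + s) / (1 / 8) *
      (2 / (Real.sqrt (A + 2 * (1 / 2 + s) ^ 2 + 2 * (5 / 8) ^ 2)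
        + Real.sqrt (A + 2 * (1 / 2 + s) ^ 2 + 2 * (3 / 8) ^ 2))))
    (fun s => 16 / 3 * (D7oF A (1 / 2 + s) (5 / 8) - D7oF A (1 / 2 + s) (3 / 8)))
    ?_ ?_ ?_).1
  · have e1 : ∫⁻ s in Set.Icc (w - 1 / 2) (1 / 8 : ℝ), ENNReal.ofReal ((1 / 2 + s) / (1 / 8)) *
        ENNReal.ofReal (2 / (Real.sqrt (A + 2 * (1 / 2 + s) ^ 2 + 2 * (5 / 8) ^ 2)
        + Real.sqrt (A + 2 * (1 / 2 + s) ^ 2 + 2 * (3 / 8) ^ 2))) =
        ∫⁻ s in Set.Icc (w - 1 / 2) (1 / 8 : ℝ), ENNReal.ofReal ((1 / 2 + s) / (1 / 8) *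
      (2 / (Real.sqrt (A + 2 * (1 / 2 + s) ^ 2 + 2 * (5 / 8) ^ 2)
        + Real.sqrt (A + 2 * (1 / 2 + s) ^ 2 + 2 * (3 / 8) ^ 2)))) := by
      refine setLIntegral_congr_fun measurableSet_Icc ?_
      intro s hs
      exact (ENNReal.ofReal_mul (div_nonneg (by linarith [hs.1]) (by norm_num))).symm
    rw [e1, h1]
    congr 1
    rw [show (1 / 2 + 1 / 8 : ℝ) = 5 / 8 by norm_num, show (1 / 2 + (w - 1 / 2) : ℝ) = w by ring]
    ring
  · refine ContinuousOn.mul (Continuous.continuousOn (by fun_prop)) ?_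
    refine ContinuousOn.div continuousOn_const (Continuous.continuousOn (by fun_prop)) ?_
    intro s hs
    exact (add_pos (Real.sqrt_pos.2 (hbd s hs _ (by norm_num)))
      (Real.sqrt_pos.2 (hbd s hs _ le_rfl))).ne'
  · intro s hs
    have a1 := Real.sqrt_pos.2 (hbd s hs (5 / 8) (by norm_num))
    have a2 := Real.sqrt_pos.2 (hbd s hs (3 / 8) le_rfl)
    exact mul_nonneg (div_nonneg (by linarith [hs.1]) (by norm_num))
      (div_nonneg (by norm_num) (by linarith))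
  · intro s hs
    have b1 := hbd s hs (5 / 8) (by norm_num)
    have b2 := hbd s hs (3 / 8) le_rfl
    have h2 := ((hder (5 / 8) s b1).sub (hder (3 / 8) s b2)).const_mul (16 / 3)
    refine h2.congr_deriv ?_
    have hx := Real.sqrt_pos.2 b1
    have hy := Real.sqrt_pos.2 b2
    have hxx := Real.mul_self_sqrt b1.le
    have hyy := Real.mul_self_sqrt b2.le
    set X := Real.sqrt (A + 2 * (1 / 2 + s) ^ 2 + 2 * (5 / 8) ^ 2) with hX
    set Y := Real.sqrt (A + 2 * (1 / 2 + s) ^ 2 + 2 * (3 / 8) ^ 2) with hY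
    have hXY : X * X - Y * Y = 1 / 2 := by rw [hxx, hyy]; ring
    have hxy : X + Y ≠ 0 := (add_pos hx hy).ne'
    field_simp
    linear_combination (1 + 2 * s) * 16 * hXY

theorem D7o_val {A x y V c : ℝ} (hV : A + 2 * x ^ 2 + 2 * y ^ 2 = V) (hV0 : 0 ≤ V) (hc : 0 ≤ c) :
    (V ≤ c ^ 2 → D7oF A x y ≤ V * c) ∧ (c ^ 2 ≤ V → V * c ≤ D7oF A x y) := by
  unfold D7oF
  rw [hV]
  exact ⟨fun h => mul_le_mul_of_nonneg_left (Real.sqrt_le_iff.2 ⟨hc, h⟩) hV0,
    fun h => mul_le_mul_of_nonneg_left (Real.le_sqrt_of_sq_le h) hV0⟩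

theorem R7w_1 : R7w (-(25 / 64)) (43 / 100) ≤ ENNReal.ofReal (10009 / 10000) := by
  rw [D7o_key _ _ (by norm_num) (by norm_num) (by norm_num)]
  refine ENNReal.ofReal_le_ofReal ?_
  have h1 := (D7o_val (A := -(25 / 64)) (x := 5 / 8) (y := 5 / 8) (V := 75 / 64)
    (c := 10825318 / 10000000) (by norm_num) (by norm_num) (by norm_num)).1 (by norm_num)
  have h2 := (D7o_val (A := -(25 / 64)) (x := 5 / 8) (y := 3 / 8) (V := 43 / 64)
    (c := 8196798 / 10000000) (by norm_num) (by norm_num) (by norm_num)).2 (by norm_num)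
  have h3 := (D7o_val (A := -(25 / 64)) (x := 43 / 100) (y := 5 / 8) (V := 30417 / 40000)
    (c := 8720235 / 10000000) (by norm_num) (by norm_num) (by norm_num)).2 (by norm_num)
  have h4 := (D7o_val (A := -(25 / 64)) (x := 43 / 100) (y := 3 / 8) (V := 10417 / 40000)
    (c := 5103186 / 10000000) (by norm_num) (by norm_num) (by norm_num)).1 (by norm_num)
  linarith

theorem R7w_2 : R7w (-(33 / 64)) (466 / 1000) ≤ ENNReal.ofReal (9095 / 10000) := by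
  rw [D7o_key _ _ (by norm_num) (by norm_num) (by norm_num)]
  refine ENNReal.ofReal_le_ofReal ?_
  have h1 := (D7o_val (A := -(33 / 64)) (x := 5 / 8) (y := 5 / 8) (V := 67 / 64)
    (c := 10231691 / 10000000) (by norm_num) (by norm_num) (by norm_num)).1 (by norm_num)
  have h2 := (D7o_val (A := -(33 / 64)) (x := 5 / 8) (y := 3 / 8) (V := 35 / 64)
    (c := 7395099 / 10000000) (by norm_num) (by norm_num) (by norm_num)).2 (by norm_num)
  have h3 := (D7o_val (A := -(33 / 64)) (x := 466 / 1000) (y := 5 / 8) (V := 699937 / 1000000)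
    (c := 8366223 / 10000000) (by norm_num) (by norm_num) (by norm_num)).2 (by norm_num)
  have h4 := (D7o_val (A := -(33 / 64)) (x := 466 / 1000) (y := 3 / 8) (V := 199937 / 1000000)
    (c := 4471432 / 10000000) (by norm_num) (by norm_num) (by norm_num)).1 (by norm_num)
  linarith

theorem R7w_3 : R7w (-(17 / 64)) (397 / 1000) ≤ ENNReal.ofReal (10588 / 10000) := by
  rw [D7o_key _ _ (by norm_num) (by norm_num) (by norm_num)]
  refine ENNReal.ofReal_le_ofReal ?_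
  have h1 := (D7o_val (A := -(17 / 64)) (x := 5 / 8) (y := 5 / 8) (V := 83 / 64)
    (c := 11388042 / 10000000) (by norm_num) (by norm_num) (by norm_num)).1 (by norm_num)
  have h2 := (D7o_val (A := -(17 / 64)) (x := 5 / 8) (y := 3 / 8) (V := 51 / 64)
    (c := 8926785 / 10000000) (by norm_num) (by norm_num) (by norm_num)).2 (by norm_num)
  have h3 := (D7o_val (A := -(17 / 64)) (x := 397 / 1000) (y := 5 / 8) (V := 830843 / 1000000)
    (c := 9115058 / 10000000) (by norm_num) (by norm_num) (by norm_num)).2 (by norm_num)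
  have h4 := (D7o_val (A := -(17 / 64)) (x := 397 / 1000) (y := 3 / 8) (V := 330843 / 1000000)
    (c := 5751896 / 10000000) (by norm_num) (by norm_num) (by norm_num)).1 (by norm_num)
  linarith

end Pool.Agent.helper49.Slope
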