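import Pool.Agent.helper49.Slope.D7o
import Pool.Agent.helper49.Slope.D7g
import Pool.Agent.helper49.Slope.D7h2

/-!
MP_aedd95_co (slope of k-fold hyperplane covers of triangular grids), module D7o2.
The law `D_7`: the patterns `(1,0,-1;1,0,1)` and `(1,-1,0;1,1,0)` for `|t| ≥ 3/4`.

PROOFS. By `L7_negt`/`L7_abst` `t ≥ 3/4`. `c_i = 1/2+s_i`, `h_i = 1/2-s_i = 1-c_i`.
`(1,0,-1)`: `V² = 2q₁ + 2q₃ - q₂ - 1/8 ≤ 83/64`, `V < 3/2`; centres (each twice, `k8_swap23`, `k8_zero`)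
`±(h₁+h₃)`, `±(c₃-c₁)`. `-(h₁+h₃)` has distance `≥ 3/4 + 3/4 > V`. `c₃ - c₁` covers only if
`V ≥ 3/4 + c₁ - c₃`, `c₁ - c₃` only if `V ≥ 3/4 + c₃ - c₁`. Hence
`L ≤ (1/4) E7 + (1/4) J + (1/4) J'`, `J = E[1/V; V ≥ 3/4+c₁-c₃]`, `J' = E[1/V; V ≥ 3/4+c₃-c₁] = J`
(`lint7_swap13`, `V` is symmetric in the digits 1, 3). If `V ≥ 3/4 + c₁ - c₃` (`≥ 1/2 > 0`) then squaring
`(c₁+c₃)² - (3/2)(c₁-c₃) ≥ 11/16 + q₂`; the left side is nondecreasing in `c₁` (`c₁+c₃ ≥ 3/4`), so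
`c₃² + (11/4) c₃ ≥ 79/64 + q₂`: since `q₂ ≥ 9/64`: `c₃ ≥ 0.43` (`0.43² + 2.75·0.43 = 1.3674 < 88/64`);
if `q₂ ≥ 17/64`: `c₃ ≥ 0.466` (`1.49866 < 96/64`). Integrate the digit 2 outermost (`lint7_o2`): if
`q₂ ≤ 17/64`, `V² ≥ 2q₁+2q₃-25/64`: inner `≤ R7w (-25/64) (43/100)`; if `q₂ > 17/64`,
`V² ≥ 2q₁+2q₃-33/64`: inner `≤ R7w (-33/64) (466/1000)`; `lam_q17`: each of the two has probability
`≤ 1/2`: `J ≤ (1.0009 + 0.9095)/2 = 0.9552`. `L ≤ 1.2815/4 + 0.9552/2 = 0.79798 ≤ 0.798`.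
`(1,-1,0)`: `V² = 2q₁+2q₂-q₃ ≤ 91/64`, centres `±(h₁+h₂)`, `±(c₂-c₁)`, digits `1,2` instead of `1,3`,
`q₃` instead of `q₂`: `c₂² + (11/4)c₂ ≥ 71/64 + q₃`: `c₂ ≥ 0.397` (`1.24936 < 80/64`), and `c₂ ≥ 0.43`
if `q₃ ≥ 17/64` (`88/64`); `A = -17/64, w = 0.397` and `A = -25/64, w = 0.43`:
`J ≤ (1.0588 + 1.0009)/2 = 1.02985`. `L ≤ 1.1568/4 + 1.02985/2 = 0.80413 ≤ 0.8042`.
-/

set_option autoImplicit false

open MeasureTheory ProbabilityTheory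
open scoped ENNReal

namespace Pool.Agent.helper49.Slope

/-- the radicand -/
noncomputable def D7o2_Q (κ : ℝ) (s : ℝ × ℝ × ℝ) : ℝ :=
  2 * (1 / 2 + s.1) ^ 2 + 2 * (1 / 2 + s.2.2) ^ 2 - (1 / 2 + s.2.1) ^ 2 - κ

/-- `1/V` -/
noncomputable def D7o2_I (κ : ℝ) (s : ℝ × ℝ × ℝ) : ℝ≥0∞ :=
  ENNReal.ofReal (1 / Real.sqrt (D7o2_Q κ s))

/-- the two dominating functions -/
noncomputable def D7o2_h (A : ℝ) (s : ℝ × ℝ × ℝ) : ℝ≥0∞ :=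
  ENNReal.ofReal (1 / Real.sqrt (A + 2 * (1 / 2 + s.1) ^ 2 + 2 * (1 / 2 + s.2.2) ^ 2))

noncomputable def D7o2_g (A1 w1 A2 w2 : ℝ) (s : ℝ × ℝ × ℝ) : ℝ≥0∞ :=
  {s : ℝ × ℝ × ℝ | (1 / 2 + s.2.1) ^ 2 ≤ 17 / 64 ∧ w1 ≤ 1 / 2 + s.2.2}.indicator (D7o2_h A1) s +
  {s : ℝ × ℝ × ℝ | 17 / 64 < (1 / 2 + s.2.1) ^ 2 ∧ w2 ≤ 1 / 2 + s.2.2}.indicator (D7o2_h A2) s

theorem D7o2_Q_measurable (κ : ℝ) : Measurable (D7o2_Q κ) := by
  unfold D7o2_Q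
  fun_prop

theorem D7o2_I_measurable (κ : ℝ) : Measurable (D7o2_I κ) := by
  unfold D7o2_I
  have := D7o2_Q_measurable κ
  fun_prop

theorem D7o2_h_measurable (A : ℝ) : Measurable (D7o2_h A) := by
  unfold D7o2_h
  fun_prop

theorem D7o2_set1 (w : ℝ) : MeasurableSet
    {s : ℝ × ℝ × ℝ | (1 / 2 + s.2.1) ^ 2 ≤ 17 / 64 ∧ w ≤ 1 / 2 + s.2.2} := by
  have h1 : MeasurableSet {s : ℝ × ℝ × ℝ | (1 / 2 + s.2.1) ^ 2 ≤ 17 / 64} :=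
    measurableSet_le (by fun_prop) (by fun_prop)
  have h2 : MeasurableSet {s : ℝ × ℝ × ℝ | w ≤ 1 / 2 + s.2.2} :=
    measurableSet_le (by fun_prop) (by fun_prop)
  exact h1.inter h2

theorem D7o2_set2 (w : ℝ) : MeasurableSet
    {s : ℝ × ℝ × ℝ | 17 / 64 < (1 / 2 + s.2.1) ^ 2 ∧ w ≤ 1 / 2 + s.2.2} := by
  have h1 : MeasurableSet {s : ℝ × ℝ × ℝ | 17 / 64 < (1 / 2 + s.2.1) ^ 2} :=
    measurableSet_lt (by fun_prop) (by fun_prop)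
  have h2 : MeasurableSet {s : ℝ × ℝ × ℝ | w ≤ 1 / 2 + s.2.2} :=
    measurableSet_le (by fun_prop) (by fun_prop)
  exact h1.inter h2

theorem D7o2_g_measurable (A1 w1 A2 w2 : ℝ) : Measurable (D7o2_g A1 w1 A2 w2) :=
  ((D7o2_h_measurable A1).indicator (D7o2_set1 w1)).add
    ((D7o2_h_measurable A2).indicator (D7o2_set2 w2))

/-- one part of the integral of `g` -/
theorem D7o2_part (A w : ℝ) (S : Set ℝ) (hS : MeasurableSet S) (T : Set (ℝ × ℝ × ℝ))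
    (hT : MeasurableSet T) (hST : ∀ s : ℝ × ℝ × ℝ, s ∈ T ↔ s.2.1 ∈ S ∧ w ≤ 1 / 2 + s.2.2) :
    ∫⁻ s, T.indicator (D7o2_h A) s ∂lam3 = R7w A w * lam (1 / 8) S := by
  rw [lint7_o2 _ ((D7o2_h_measurable A).indicator hT)]
  have h1 : ∀ s : ℝ, ∫⁻ p : ℝ × ℝ, T.indicator (D7o2_h A) (p.1, s, p.2) ∂lam2 =
      S.indicator (fun _ => R7w A w) s := by
    intro s
    by_cases hs : s ∈ S
    · rw [Set.indicator_of_mem hs]
      unfold R7w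
      refine lintegral_congr fun p => ?_
      by_cases hp : w ≤ 1 / 2 + p.2
      · have h2 : (p.1, s, p.2) ∈ T := (hST _).2 ⟨hs, hp⟩
        have h3 : p ∈ {s : ℝ × ℝ | w ≤ 1 / 2 + s.2} := hp
        rw [Set.indicator_of_mem h2, Set.indicator_of_mem h3]
        rfl
      · have h2 : (p.1, s, p.2) ∉ T := fun h => hp ((hST _).1 h).2
        have h3 : p ∉ {s : ℝ × ℝ | w ≤ 1 / 2 + s.2} := hp
        rw [Set.indicator_of_notMem h2, Set.indicator_of_notMem h3]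
    · rw [Set.indicator_of_notMem hs]
      have h2 : ∀ p : ℝ × ℝ, T.indicator (D7o2_h A) (p.1, s, p.2) = 0 := fun p =>
        Set.indicator_of_notMem (fun h => hs ((hST _).1 h).1) _
      simp only [h2, lintegral_zero]
  simp only [h1]
  rw [lintegral_indicator_const hS]

theorem D7o2_int_g (A1 w1 A2 w2 r1 r2 : ℝ) (hr1 : 0 ≤ r1) (hr2 : 0 ≤ r2)
    (h1 : R7w A1 w1 ≤ ENNReal.ofReal r1) (h2 : R7w A2 w2 ≤ ENNReal.ofReal r2) :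
    ∫⁻ s, D7o2_g A1 w1 A2 w2 s ∂lam3 ≤ ENNReal.ofReal ((r1 + r2) / 2) := by
  unfold D7o2_g
  rw [lintegral_add_left ((D7o2_h_measurable A1).indicator (D7o2_set1 w1))]
  rw [D7o2_part A1 w1 {s | (1 / 2 + s) ^ 2 ≤ 17 / 64}
      (measurableSet_le (by fun_prop) (by fun_prop)) _ (D7o2_set1 w1) (fun s => Iff.rfl),
    D7o2_part A2 w2 {s | 17 / 64 < (1 / 2 + s) ^ 2}
      (measurableSet_lt (by fun_prop) (by fun_prop)) _ (D7o2_set2 w2) (fun s => Iff.rfl)]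
  calc R7w A1 w1 * lam (1 / 8) {s | (1 / 2 + s) ^ 2 ≤ 17 / 64} +
        R7w A2 w2 * lam (1 / 8) {s | 17 / 64 < (1 / 2 + s) ^ 2}
      ≤ ENNReal.ofReal r1 * ENNReal.ofReal (1 / 2) +
        ENNReal.ofReal r2 * ENNReal.ofReal (1 / 2) :=
        add_le_add (mul_le_mul' h1 lam_q17.1) (mul_le_mul' h2 lam_q17.2)
    _ = ENNReal.ofReal ((r1 + r2) / 2) := by
        rw [← ENNReal.ofReal_mul hr1, ← ENNReal.ofReal_mul hr2,
          ← ENNReal.ofReal_add (by positivity) (by positivity)]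
        congr 1
        ring

/-- the polynomial inequality -/
theorem D7o2_poly {κ c1 c2 c3 : ℝ} (hc1 : c1 ≤ 5 / 8) (hc1' : 3 / 8 ≤ c1)
    (hc3 : 3 / 8 ≤ c3) (h : (3 / 4 + c1 - c3) ^ 2 ≤ 2 * c1 ^ 2 + 2 * c3 ^ 2 - c2 ^ 2 - κ) :
    71 / 64 + κ + c2 ^ 2 ≤ c3 ^ 2 + 11 / 4 * c3 := by
  nlinarith [mul_nonneg (sub_nonneg.2 hc1) (by linarith : (0 : ℝ) ≤ 5 / 8 + c1 + 2 * c3 - 3 / 2)]

theorem D7o2_w {w c3 b : ℝ} (hw : w ^ 2 + 11 / 4 * w < b) (hw0 : 0 ≤ w) (hc3 : 0 ≤ c3)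
    (h : b ≤ c3 ^ 2 + 11 / 4 * c3) : w ≤ c3 := by
  by_contra hc
  push Not at hc
  nlinarith

theorem D7o2_ofReal_inv {a b : ℝ} (ha : 0 < a) (h : a ≤ b) :
    ENNReal.ofReal (1 / Real.sqrt b) ≤ ENNReal.ofReal (1 / Real.sqrt a) :=
  ENNReal.ofReal_le_ofReal
    (one_div_le_one_div_of_le (Real.sqrt_pos.2 ha) (Real.sqrt_le_sqrt h))

/-- the pointwise bound on the set where the centre `c₃ - c₁` covers -/
theorem D7o2_point {κ A1 w1 A2 w2 : ℝ} (_hκ0 : 0 ≤ κ) (hκ1 : κ ≤ 1 / 8)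
    (hA1 : A1 = -(17 / 64) - κ) (hA2 : A2 = -(25 / 64) - κ) (hw1 : 0 ≤ w1) (hw2 : 0 ≤ w2)
    (hw1' : w1 ^ 2 + 11 / 4 * w1 < 80 / 64 + κ) (hw2' : w2 ^ 2 + 11 / 4 * w2 ≤ 88 / 64 + κ)
    {s : ℝ × ℝ × ℝ} (hs : R7 s)
    (hV : 3 / 4 + (1 / 2 + s.1) - (1 / 2 + s.2.2) ≤ Real.sqrt (D7o2_Q κ s)) :
    D7o2_I κ s ≤ D7o2_g A1 w1 A2 w2 s := by
  obtain ⟨h1, h2, h3⟩ := hs
  rw [abs_le] at h1 h2 h3
  have hQ : 0 < D7o2_Q κ s := by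
    unfold D7o2_Q
    nlinarith [h1.1, h1.2, h2.1, h2.2, h3.1, h3.2]
  have hsq : (3 / 4 + (1 / 2 + s.1) - (1 / 2 + s.2.2)) ^ 2 ≤ D7o2_Q κ s := by
    rw [← Real.sq_sqrt hQ.le]
    exact pow_le_pow_left₀ (by linarith [h1.1, h3.2]) hV 2
  unfold D7o2_Q at hsq
  have hp := D7o2_poly (c1 := 1 / 2 + s.1) (c2 := 1 / 2 + s.2.1) (c3 := 1 / 2 + s.2.2)
    (by linarith [h1.2]) (by linarith [h1.1]) (by linarith [h3.1]) hsq
  have hq1 : 9 / 64 ≤ (1 / 2 + s.1) ^ 2 := by nlinarith [h1.1]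
  have hq2 : 9 / 64 ≤ (1 / 2 + s.2.1) ^ 2 := by nlinarith [h2.1]
  have hq2' : (1 / 2 + s.2.1) ^ 2 ≤ 25 / 64 := by nlinarith [h2.1, h2.2]
  have hq3 : 9 / 64 ≤ (1 / 2 + s.2.2) ^ 2 := by nlinarith [h3.1]
  unfold D7o2_g
  by_cases hc : (1 / 2 + s.2.1) ^ 2 ≤ 17 / 64
  · have hmem : s ∈ {s : ℝ × ℝ × ℝ | (1 / 2 + s.2.1) ^ 2 ≤ 17 / 64 ∧ w1 ≤ 1 / 2 + s.2.2} :=
      ⟨hc, D7o2_w hw1' hw1 (by linarith [h3.1]) (by linarith)⟩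
    rw [Set.indicator_of_mem hmem]
    refine le_trans ?_ (le_add_of_nonneg_right zero_le)
    unfold D7o2_I D7o2_h
    apply D7o2_ofReal_inv
    · rw [hA1]
      linarith
    · unfold D7o2_Q
      rw [hA1]
      linarith
  · push Not at hc
    have hmem : s ∈ {s : ℝ × ℝ × ℝ | 17 / 64 < (1 / 2 + s.2.1) ^ 2 ∧ w2 ≤ 1 / 2 + s.2.2} := by
      refine ⟨hc, D7o2_w (b := 71 / 64 + κ + (1 / 2 + s.2.1) ^ 2) (by linarith) hw2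
        (by linarith [h3.1]) hp⟩
    rw [Set.indicator_of_mem hmem]
    refine le_trans ?_ (le_add_of_nonneg_left zero_le)
    unfold D7o2_I D7o2_h
    apply D7o2_ofReal_inv
    · rw [hA2]
      linarith
    · unfold D7o2_Q
      rw [hA2]
      linarith

/-- the bound of the kernel -/
noncomputable def D7o2_G (κ A1 w1 A2 w2 : ℝ) (s : ℝ × ℝ × ℝ) : ℝ≥0∞ :=
  (D7o2_I κ s + D7o2_g A1 w1 A2 w2 s + D7o2_g A1 w1 A2 w2 (s.2.2, s.2.1, s.1)) / 4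

theorem D7o2_G_measurable (κ A1 w1 A2 w2 : ℝ) : Measurable (D7o2_G κ A1 w1 A2 w2) := by
  have h1 := D7o2_I_measurable κ
  have h2 := D7o2_g_measurable A1 w1 A2 w2
  have h3 : Measurable (fun s : ℝ × ℝ × ℝ => D7o2_g A1 w1 A2 w2 (s.2.2, s.2.1, s.1)) :=
    h2.comp (by fun_prop)
  exact ((h1.add h2).add h3).div_const 4

theorem D7o2_ker {κ A1 w1 A2 w2 : ℝ} (hκ0 : 0 ≤ κ) (hκ1 : κ ≤ 1 / 8)
    (hA1 : A1 = -(17 / 64) - κ) (hA2 : A2 = -(25 / 64) - κ) (hw1 : 0 ≤ w1) (hw2 : 0 ≤ w2)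
    (hw1' : w1 ^ 2 + 11 / 4 * w1 < 80 / 64 + κ) (hw2' : w2 ^ 2 + 11 / 4 * w2 ≤ 88 / 64 + κ)
    {s : ℝ × ℝ × ℝ} (hs : R7 s) {t : ℝ} (ht : 3 / 4 ≤ t) :
    k4 (1 / 2 - s.1) (1 / 2 - s.2.2) (Real.sqrt (D7o2_Q κ s)) t ≤ D7o2_G κ A1 w1 A2 w2 s := by
  have hs' : R7 (s.2.2, s.2.1, s.1) := ⟨hs.2.2, hs.2.1, hs.1⟩
  have hQs : D7o2_Q κ (s.2.2, s.2.1, s.1) = D7o2_Q κ s := by
    unfold D7o2_Q
    ring
  have hp1 := fun h => D7o2_point hκ0 hκ1 hA1 hA2 hw1 hw2 hw1' hw2' hs h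
  have hp2 := fun h => D7o2_point hκ0 hκ1 hA1 hA2 hw1 hw2 hw1' hw2' hs' h
  have hIs : D7o2_I κ (s.2.2, s.2.1, s.1) = D7o2_I κ s := by
    unfold D7o2_I
    rw [hQs]
  rw [hQs, hIs] at hp2
  obtain ⟨h1, h2, h3⟩ := hs
  rw [abs_le] at h1 h2 h3
  have hV : Real.sqrt (D7o2_Q κ s) < 3 / 2 := by
    rw [Real.sqrt_lt' (by norm_num)]
    unfold D7o2_Q
    nlinarith [h1.1, h1.2, h2.1, h2.2, h3.1, h3.2]
  have e1 : ker ((1 / 2 - s.1) + (1 / 2 - s.2.2)) (Real.sqrt (D7o2_Q κ s)) t ≤ D7o2_I κ s := by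
    unfold ker D7o2_I
    split_ifs
    · exact le_rfl
    · exact zero_le
  have e2 : ker ((1 / 2 - s.1) - (1 / 2 - s.2.2)) (Real.sqrt (D7o2_Q κ s)) t ≤
      D7o2_g A1 w1 A2 w2 s := by
    unfold ker
    split_ifs with h
    · apply hp1
      have := (abs_le.1 h).2
      linarith
    · exact zero_le
  have e3 : ker (-(1 / 2 - s.1) + (1 / 2 - s.2.2)) (Real.sqrt (D7o2_Q κ s)) t ≤
      D7o2_g A1 w1 A2 w2 (s.2.2, s.2.1, s.1) := by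
    unfold ker
    split_ifs with h
    · apply hp2
      have := (abs_le.1 h).2
      show 3 / 4 + (1 / 2 + s.2.2) - (1 / 2 + s.1) ≤ _
      linarith
    · exact zero_le
  have e4 : ker (-(1 / 2 - s.1) - (1 / 2 - s.2.2)) (Real.sqrt (D7o2_Q κ s)) t = 0 := by
    unfold ker
    rw [if_neg]
    intro h
    have := (abs_le.1 h).2
    linarith [h1.2, h3.2]
  unfold k4 D7o2_G
  rw [e4, add_zero]
  exact ENNReal.div_le_div_right (add_le_add (add_le_add e1 e2) e3) 4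

theorem D7o2_int {κ A1 w1 A2 w2 r1 r2 e : ℝ} (hr1 : 0 ≤ r1) (hr2 : 0 ≤ r2) (he : 0 ≤ e)
    (h1 : R7w A1 w1 ≤ ENNReal.ofReal r1) (h2 : R7w A2 w2 ≤ ENNReal.ofReal r2)
    (hE : ∫⁻ s, D7o2_I κ s ∂lam3 ≤ ENNReal.ofReal e) :
    ∫⁻ s, D7o2_G κ A1 w1 A2 w2 s ∂lam3 ≤ ENNReal.ofReal ((e + r1 + r2) / 4) := by
  have m1 := D7o2_I_measurable κ
  have m2 := D7o2_g_measurable A1 w1 A2 w2
  have hg := D7o2_int_g A1 w1 A2 w2 r1 r2 hr1 hr2 h1 h2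
  have hsum : ∫⁻ s, (D7o2_I κ s + D7o2_g A1 w1 A2 w2 s +
      D7o2_g A1 w1 A2 w2 (s.2.2, s.2.1, s.1)) ∂lam3 ≤ ENNReal.ofReal (e + r1 + r2) := by
    rw [lintegral_add_left (f := fun s => D7o2_I κ s + D7o2_g A1 w1 A2 w2 s) (m1.add m2),
      lintegral_add_left m1,
      lint7_swap13 (D7o2_g A1 w1 A2 w2) m2]
    calc _ ≤ ENNReal.ofReal e + ENNReal.ofReal ((r1 + r2) / 2) +
          ENNReal.ofReal ((r1 + r2) / 2) := add_le_add (add_le_add hE hg) hg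
      _ = _ := by
          rw [← ENNReal.ofReal_add he (by positivity),
            ← ENNReal.ofReal_add (by positivity) (by positivity)]
          congr 1
          ring
  unfold D7o2_G
  simp only [div_eq_mul_inv]
  rw [lintegral_mul_const' _ _ (by simp)]
  calc _ ≤ ENNReal.ofReal (e + r1 + r2) * (4 : ℝ≥0∞)⁻¹ := mul_le_mul_left hsum _
    _ = _ := by
        rw [ENNReal.ofReal_mul (by positivity), ENNReal.ofReal_inv_of_pos (by norm_num)]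
        norm_num

theorem L7_10m1_far (t : ℝ) (ht : 3 / 4 ≤ |t|) :
    L7 1 0 (-1) 1 0 1 t ≤ ENNReal.ofReal (798 / 1000) := by
  rw [← L7_abst, L7_eq]
  have hW : ∀ s, W7 1 0 (-1) s = D7o2_Q (1 / 8) s := by
    intro s
    unfold W7 D7o2_Q
    push_cast
    ring
  have hK : ∀ s, K8 1 0 (-1) 1 0 1 |t| s =
      k4 (1 / 2 - s.1) (1 / 2 - s.2.2) (Real.sqrt (D7o2_Q (1 / 8) s)) |t| := by
    intro s
    unfold K8
    rw [hW, Int.cast_one, Int.cast_zero, one_mul, one_mul, zero_mul, k8_swap23, k8_zero]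
  have hE : ∫⁻ s, D7o2_I (1 / 8) s ∂lam3 ≤ ENNReal.ofReal (12815 / 10000) := by
    refine le_trans (le_of_eq ?_) E7_10m1
    unfold E7 D7o2_I I7
    simp only [hW]
  calc ∫⁻ s, K8 1 0 (-1) 1 0 1 |t| s ∂lam3
      ≤ ∫⁻ s, D7o2_G (1 / 8) (-(25 / 64)) (43 / 100) (-(33 / 64)) (466 / 1000) s ∂lam3 := by
        refine lintegral_mono_ae (lam3_ae.mono fun s hs => ?_)
        rw [hK]
        exact D7o2_ker (by norm_num) le_rfl (by norm_num) (by norm_num) (by norm_num)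
          (by norm_num) (by norm_num) (by norm_num) hs ht
    _ ≤ ENNReal.ofReal ((12815 / 10000 + 10009 / 10000 + 9095 / 10000) / 4) :=
        D7o2_int (by norm_num) (by norm_num) (by norm_num) R7w_1 R7w_2 hE
    _ ≤ _ := ENNReal.ofReal_le_ofReal (by norm_num)

theorem L7_1m10_far (t : ℝ) (ht : 3 / 4 ≤ |t|) :
    L7 1 (-1) 0 1 1 0 t ≤ ENNReal.ofReal (8042 / 10000) := by
  rw [← L7_abst, L7_eq]
  have hW : ∀ s, W7 1 (-1) 0 s = D7o2_Q 0 (s.1, s.2.2, s.2.1) := by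
    intro s
    unfold W7 D7o2_Q
    push_cast
    ring
  have hK : ∀ s, K8 1 (-1) 0 1 1 0 |t| s =
      k4 (1 / 2 - s.1) (1 / 2 - s.2.1) (Real.sqrt (D7o2_Q 0 (s.1, s.2.2, s.2.1))) |t| := by
    intro s
    unfold K8
    rw [hW, Int.cast_one, Int.cast_zero, one_mul, one_mul, zero_mul, k8_zero]
  have hE : ∫⁻ s, D7o2_I 0 s ∂lam3 ≤ ENNReal.ofReal (11568 / 10000) := by
    refine le_trans (le_of_eq ?_) E7_1m10
    rw [← lint7_swap23 (D7o2_I 0) (D7o2_I_measurable 0)]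
    unfold E7 D7o2_I I7
    simp only [hW]
  have m := D7o2_G_measurable 0 (-(17 / 64)) (397 / 1000) (-(25 / 64)) (43 / 100)
  calc ∫⁻ s, K8 1 (-1) 0 1 1 0 |t| s ∂lam3
      ≤ ∫⁻ s, D7o2_G 0 (-(17 / 64)) (397 / 1000) (-(25 / 64)) (43 / 100)
          (s.1, s.2.2, s.2.1) ∂lam3 := by
        refine lintegral_mono_ae (lam3_ae.mono fun s hs => ?_)
        rw [hK]
        have hs' : R7 (s.1, s.2.2, s.2.1) := ⟨hs.1, hs.2.2, hs.2.1⟩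
        exact D7o2_ker (s := (s.1, s.2.2, s.2.1)) le_rfl (by norm_num) (by norm_num)
          (by norm_num) (by norm_num) (by norm_num) (by norm_num) (by norm_num) hs' ht
    _ = ∫⁻ s, D7o2_G 0 (-(17 / 64)) (397 / 1000) (-(25 / 64)) (43 / 100) s ∂lam3 :=
        lint7_swap23 _ m
    _ ≤ ENNReal.ofReal ((11568 / 10000 + 10588 / 10000 + 10009 / 10000) / 4) :=
        D7o2_int (by norm_num) (by norm_num) (by norm_num) R7w_3 R7w_1 hE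
    _ ≤ _ := ENNReal.ofReal_le_ofReal (by norm_num)

end Pool.Agent.helper49.Slope
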