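import Pool.Agent.helper49.Slope.D7z
import Pool.Agent.helper49.Slope.D6i

/-!
MP_aedd95_co (slope of k-fold hyperplane covers of triangular grids), module D7p.
The laws of the closure vectors of `D_7`.

PROOFS. As D6i (`D6i_A`, `D6i_bd`, `D6i_supp`): `closure7_fst`: condition on the digits and signs 2, 3;
the law of `(s₁, η₁)` is a product factor of `pi7` (rearrangement of the product measure as in
`D6i_lint`); for fixed other variables `D7c = 2x η₁ (1/2-s₁) + const`, `digit_closure` with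
`τ = 1/8`: density bound `(5/8)/(1/4)/|x| = 5/2/|x|`. Same for the second and third pair.
`closure7_supp_*`: `D7c (2x) 0 0 = ± (1 - 2 s₁)`, `|.| ≥ 3/4` a.e., then `D6i_supp`.
-/

set_option autoImplicit false

open MeasureTheory ProbabilityTheory
open scoped ENNReal

namespace Pool.Agent.helper49.Slope

theorem D7p_lint {α β γ δ : Type} [MeasurableSpace α] [MeasurableSpace β] [MeasurableSpace γ]
    [MeasurableSpace δ] (μ : Measure α) (ν : Measure β) (ρ : Measure γ) (τ : Measure δ)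
    [SFinite μ] [SFinite ν] [SFinite ρ] [SFinite τ]
    (F : (α × β) × (γ × δ) → ℝ≥0∞) (hF : Measurable F) :
    ∫⁻ q, F q ∂((μ.prod ν).prod (ρ.prod τ))
      = ∫⁻ r, ∫⁻ p, F ((p.1, r.1), (p.2, r.2)) ∂(μ.prod ρ) ∂(ν.prod τ) := by
  have hF2 : ∀ s : α × β, Measurable (fun η : γ × δ => F (s, η)) := fun s =>
    hF.comp (measurable_const.prodMk measurable_id)
  have e1 : ∫⁻ q, F q ∂((μ.prod ν).prod (ρ.prod τ)) = ∫⁻ s2, ∫⁻ s1, ∫⁻ η2, ∫⁻ η1,
      F ((s1, s2), (η1, η2)) ∂ρ ∂τ ∂μ ∂ν := by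
    rw [lintegral_prod _ hF.aemeasurable]
    rw [lintegral_prod_symm _ (Measurable.lintegral_prod_right' hF).aemeasurable]
    refine lintegral_congr fun s2 => lintegral_congr fun s1 => ?_
    rw [lintegral_prod_symm _ (hF2 _).aemeasurable]
  have e2 : ∫⁻ r, ∫⁻ p, F ((p.1, r.1), (p.2, r.2)) ∂(μ.prod ρ) ∂(ν.prod τ)
      = ∫⁻ s2, ∫⁻ η2, ∫⁻ s1, ∫⁻ η1, F ((s1, s2), (η1, η2)) ∂ρ ∂μ ∂τ ∂ν := by
    rw [lintegral_prod]
    · refine lintegral_congr fun s2 => lintegral_congr fun η2 => ?_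
      rw [lintegral_prod]
      exact (hF.comp (by fun_prop : Measurable (fun p : α × γ => ((p.1, s2), (p.2, η2))))).aemeasurable
    · refine Measurable.aemeasurable ?_
      exact Measurable.lintegral_prod_right'
        (f := fun z : (β × δ) × (α × γ) => F ((z.2.1, z.1.1), (z.2.2, z.1.2)))
        (hF.comp (by fun_prop))
  rw [e1, e2]
  refine lintegral_congr fun s2 => ?_
  rw [lintegral_lintegral_swap]
  refine Measurable.aemeasurable ?_
  exact Measurable.lintegral_prod_right'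
    (f := fun z : (α × δ) × γ => F ((z.1.1, s2), (z.2, z.1.2))) (hF.comp (by fun_prop))

theorem D7p_lint1 (F : (ℝ × ℝ × ℝ) × (ℝ × ℝ × ℝ) → ℝ≥0∞) (hF : Measurable F) :
    ∫⁻ q, F q ∂pi7 = ∫⁻ r, ∫⁻ p, F ((p.1, r.1), (p.2, r.2)) ∂D6i_A ∂pi6 := by
  have := lam_prob (τ := 1 / 8) (by norm_num) (by norm_num)
  have := sgnM_prob
  exact D7p_lint (lam (1 / 8)) lam2 sgnM (sgnM.prod sgnM) F hF

theorem D7p_lint0 (F : (ℝ × ℝ × ℝ) × (ℝ × ℝ × ℝ) → ℝ≥0∞) (hF : Measurable F) :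
    ∫⁻ q, F q ∂pi7 = ∫⁻ p, ∫⁻ r, F ((p.1, r.1), (p.2, r.2)) ∂pi6 ∂D6i_A := by
  have := lam_prob (τ := 1 / 8) (by norm_num) (by norm_num)
  have := sgnM_prob
  rw [D7p_lint1 F hF, lintegral_lintegral_swap]
  refine Measurable.aemeasurable ?_
  exact hF.comp (by fun_prop : Measurable (fun z : ((ℝ × ℝ) × (ℝ × ℝ)) × (ℝ × ℝ) =>
    ((z.2.1, z.1.1), (z.2.2, z.1.2))))

theorem D7p_lint2 (F : (ℝ × ℝ × ℝ) × (ℝ × ℝ × ℝ) → ℝ≥0∞) (hF : Measurable F) :
    ∫⁻ q, F q ∂pi7 = ∫⁻ p, ∫⁻ r', ∫⁻ p', F ((p.1, (p'.1, r'.1)), (p.2, (p'.2, r'.2)))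
      ∂D6i_A ∂D6i_A ∂D6i_A := by
  rw [D7p_lint0 F hF]
  refine lintegral_congr fun p => ?_
  exact D6i_lint (fun r => F ((p.1, r.1), (p.2, r.2))) (hF.comp (by fun_prop))

theorem D7p_lint3 (F : (ℝ × ℝ × ℝ) × (ℝ × ℝ × ℝ) → ℝ≥0∞) (hF : Measurable F) :
    ∫⁻ q, F q ∂pi7 = ∫⁻ p, ∫⁻ p', ∫⁻ r', F ((p.1, (p'.1, r'.1)), (p.2, (p'.2, r'.2)))
      ∂D6i_A ∂D6i_A ∂D6i_A := by
  rw [D7p_lint0 F hF]
  refine lintegral_congr fun p => ?_
  exact D6i_lint2 (fun r => F ((p.1, r.1), (p.2, r.2))) (hF.comp (by fun_prop))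

theorem D7p_meas (a b c : ℤ) : Measurable (D7c a b c) := by
  unfold D7c
  fun_prop

theorem D7p_ind (f : (ℝ × ℝ × ℝ) × (ℝ × ℝ × ℝ) → ℝ) (hf : Measurable f) (S : Set ℝ)
    (hS : MeasurableSet S) : (pi7.map f) S = ∫⁻ q, S.indicator 1 (f q) ∂pi7 := by
  rw [Measure.map_apply hf hS, ← lintegral_indicator_one (hf hS)]
  rfl

/-- bound of the inner integral -/
theorem D7p_in (x : ℤ) (hx : x ≠ 0) (k : ℝ) (f : ℝ × ℝ → ℝ)
    (hf : ∀ p, f p = (x : ℝ) * (p.2 * (1 - 2 * p.1)) + k) (S : Set ℝ) (hS : MeasurableSet S) :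
    ∫⁻ p, S.indicator (1 : ℝ → ℝ≥0∞) (f p) ∂D6i_A
      ≤ ENNReal.ofReal (5 / 2 / |(x : ℝ)|) / 2 * volume S := by
  refine le_trans (le_of_eq ?_) (D6i_bd x hx k S hS)
  rw [← lintegral_indicator_one ((by fun_prop :
    Measurable (fun q : ℝ × ℝ => (x : ℝ) * (q.2 * (1 - 2 * q.1)) + k)) hS)]
  refine lintegral_congr fun p => ?_
  rw [hf p]
  rfl

theorem D7p_A_prob : IsProbabilityMeasure D6i_A := by
  have := lam_prob (τ := 1 / 8) (by norm_num) (by norm_num)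
  have := sgnM_prob
  infer_instance

theorem D7p_pi6_prob : IsProbabilityMeasure pi6 := by
  have := lam_prob (τ := 1 / 8) (by norm_num) (by norm_num)
  have := sgnM_prob
  infer_instance

theorem closure7_fst (x b c : ℤ) (hx : x ≠ 0) :
    HasLoad (pi7.map (D7c (2 * x) b c)) (fun _ => ENNReal.ofReal (5 / 2 / |(x : ℝ)|)) := by
  have := D7p_pi6_prob
  unfold HasLoad
  refine Measure.le_iff.2 fun S hS => ?_
  have hm := D7p_meas (2 * x) b c
  rw [D7p_ind _ hm S hS, D7p_lint1 (fun q => S.indicator (1 : ℝ → ℝ≥0∞) (D7c (2 * x) b c q))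
    ((measurable_one.indicator hS).comp hm), withDensity_apply _ hS, setLIntegral_const]
  refine (lintegral_mono fun r => D7p_in x hx ((b : ℝ) * (r.2.1 * (1 / 2 - r.1.1))
    + (c : ℝ) * (r.2.2 * (1 / 2 - r.1.2))) _ (fun p => ?_) S hS).trans (le_of_eq ?_)
  · unfold D7c
    push_cast
    ring
  · rw [lintegral_const, measure_univ, mul_one]

theorem closure7_snd (a y c : ℤ) (hy : y ≠ 0) :
    HasLoad (pi7.map (D7c a (2 * y) c)) (fun _ => ENNReal.ofReal (5 / 2 / |(y : ℝ)|)) := by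
  have := D7p_A_prob
  unfold HasLoad
  refine Measure.le_iff.2 fun S hS => ?_
  have hm := D7p_meas a (2 * y) c
  rw [D7p_ind _ hm S hS, D7p_lint2 (fun q => S.indicator (1 : ℝ → ℝ≥0∞) (D7c a (2 * y) c q))
    ((measurable_one.indicator hS).comp hm), withDensity_apply _ hS, setLIntegral_const]
  refine (lintegral_mono fun p => lintegral_mono fun r => D7p_in y hy
    ((a : ℝ) * (p.2 * (1 / 2 - p.1)) + (c : ℝ) * (r.2 * (1 / 2 - r.1))) _
    (fun p' => ?_) S hS).trans (le_of_eq ?_)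
  · unfold D7c
    push_cast
    ring
  · rw [lintegral_const, measure_univ, mul_one, lintegral_const, measure_univ, mul_one]

theorem closure7_thd (a b z : ℤ) (hz : z ≠ 0) :
    HasLoad (pi7.map (D7c a b (2 * z))) (fun _ => ENNReal.ofReal (5 / 2 / |(z : ℝ)|)) := by
  have := D7p_A_prob
  unfold HasLoad
  refine Measure.le_iff.2 fun S hS => ?_
  have hm := D7p_meas a b (2 * z)
  rw [D7p_ind _ hm S hS, D7p_lint3 (fun q => S.indicator (1 : ℝ → ℝ≥0∞) (D7c a b (2 * z) q))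
    ((measurable_one.indicator hS).comp hm), withDensity_apply _ hS, setLIntegral_const]
  refine (lintegral_mono fun p => lintegral_mono fun p' => D7p_in z hz
    ((a : ℝ) * (p.2 * (1 / 2 - p.1)) + (b : ℝ) * (p'.2 * (1 / 2 - p'.1))) _
    (fun r => ?_) S hS).trans (le_of_eq ?_)
  · unfold D7c
    push_cast
    ring
  · rw [lintegral_const, measure_univ, mul_one, lintegral_const, measure_univ, mul_one]

/-- support of the digit laws -/
theorem D7p_ae : (∀ᵐ q ∂pi7, |q.1.1| ≤ 1 / 8 ∧ |q.1.2.1| ≤ 1 / 8 ∧ |q.1.2.2| ≤ 1 / 8) ∧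
    (∀ᵐ q ∂pi7, |q.2.1| = 1 ∧ |q.2.2.1| = 1 ∧ |q.2.2.2| = 1) := by
  have := lam_prob (τ := 1 / 8) (by norm_num) (by norm_num)
  have := sgnM_prob
  have habs : ∀ η : ℝ, η = 1 ∨ η = -1 → |η| = 1 := by
    rintro η (h | h) <;> rw [h] <;> norm_num
  have h0 : ∀ᵐ s ∂lam2, |s.1| ≤ 1 / 8 ∧ |s.2| ≤ 1 / 8 := by
    have a1 : ∀ᵐ s ∂lam2, |s.1| ≤ 1 / 8 :=
      Measure.quasiMeasurePreserving_fst.ae (lam_ae (1 / 8))
    have a2 : ∀ᵐ s ∂lam2, |s.2| ≤ 1 / 8 :=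
      Measure.quasiMeasurePreserving_snd.ae (lam_ae (1 / 8))
    filter_upwards [a1, a2] with s b1 b2 using ⟨b1, b2⟩
  have h1 : ∀ᵐ s ∂lam3, |s.1| ≤ 1 / 8 ∧ |s.2.1| ≤ 1 / 8 ∧ |s.2.2| ≤ 1 / 8 := by
    have a1 : ∀ᵐ s ∂lam3, |s.1| ≤ 1 / 8 :=
      Measure.quasiMeasurePreserving_fst.ae (lam_ae (1 / 8))
    have a2 : ∀ᵐ s ∂lam3, |s.2.1| ≤ 1 / 8 ∧ |s.2.2| ≤ 1 / 8 :=
      Measure.quasiMeasurePreserving_snd.ae h0
    filter_upwards [a1, a2] with s b1 b2 using ⟨b1, b2⟩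
  have hs : ∀ᵐ η ∂sgnM, |η| = 1 := by
    filter_upwards [sgnM_ae] with η h using habs η h
  have h2 : ∀ᵐ η ∂(sgnM.prod sgnM), |η.1| = 1 ∧ |η.2| = 1 := by
    have a1 : ∀ᵐ η ∂(sgnM.prod sgnM), |η.1| = 1 :=
      Measure.quasiMeasurePreserving_fst.ae hs
    have a2 : ∀ᵐ η ∂(sgnM.prod sgnM), |η.2| = 1 :=
      Measure.quasiMeasurePreserving_snd.ae hs
    filter_upwards [a1, a2] with η b1 b2 using ⟨b1, b2⟩
  have h3 : ∀ᵐ η ∂sgn3, |η.1| = 1 ∧ |η.2.1| = 1 ∧ |η.2.2| = 1 := by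
    have a1 : ∀ᵐ η ∂sgn3, |η.1| = 1 :=
      Measure.quasiMeasurePreserving_fst.ae hs
    have a2 : ∀ᵐ η ∂sgn3, |η.2.1| = 1 ∧ |η.2.2| = 1 :=
      Measure.quasiMeasurePreserving_snd.ae h2
    filter_upwards [a1, a2] with η b1 b2 using ⟨b1, b2⟩
  exact ⟨Measure.quasiMeasurePreserving_fst.ae h1, Measure.quasiMeasurePreserving_snd.ae h3⟩

theorem closure7_supp_fst (x : ℤ) (hx : |x| = 1) :
    HasLoad (pi7.map (D7c (2 * x) 0 0))
      (fun z => if 3 / 4 ≤ |z| then ENNReal.ofReal (5 / 2) else 0) := by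
  have hx0 : x ≠ 0 := by
    rintro rfl
    simp at hx
  have hxr : |(x : ℝ)| = 1 := by exact_mod_cast hx
  refine D6i_supp _ ?_ ?_
  · have h := closure7_fst x 0 0 hx0
    rw [hxr, div_one] at h
    exact h
  · have hT : MeasurableSet {z : ℝ | 3 / 4 ≤ |z|} :=
      measurableSet_le measurable_const (by fun_prop)
    rw [ae_map_iff (D7p_meas _ _ _).aemeasurable hT]
    filter_upwards [D7p_ae.1, D7p_ae.2] with q h1 h2
    have := D6i_abs x q.1.1 q.2.1 hxr h2.1 h1.1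
    unfold D7c
    push_cast
    rw [zero_mul, add_zero, zero_mul, add_zero]
    exact this

theorem closure7_supp_snd (y : ℤ) (hy : |y| = 1) :
    HasLoad (pi7.map (D7c 0 (2 * y) 0))
      (fun z => if 3 / 4 ≤ |z| then ENNReal.ofReal (5 / 2) else 0) := by
  have hy0 : y ≠ 0 := by
    rintro rfl
    simp at hy
  have hyr : |(y : ℝ)| = 1 := by exact_mod_cast hy
  refine D6i_supp _ ?_ ?_
  · have h := closure7_snd 0 y 0 hy0
    rw [hyr, div_one] at h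
    exact h
  · have hT : MeasurableSet {z : ℝ | 3 / 4 ≤ |z|} :=
      measurableSet_le measurable_const (by fun_prop)
    rw [ae_map_iff (D7p_meas _ _ _).aemeasurable hT]
    filter_upwards [D7p_ae.1, D7p_ae.2] with q h1 h2
    have := D6i_abs y q.1.2.1 q.2.2.1 hyr h2.2.1 h1.2.1
    unfold D7c
    push_cast
    rw [zero_mul, zero_add, zero_mul, add_zero]
    exact this

theorem closure7_supp_thd (w : ℤ) (hw : |w| = 1) :
    HasLoad (pi7.map (D7c 0 0 (2 * w)))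
      (fun z => if 3 / 4 ≤ |z| then ENNReal.ofReal (5 / 2) else 0) := by
  have hw0 : w ≠ 0 := by
    rintro rfl
    simp at hw
  have hwr : |(w : ℝ)| = 1 := by exact_mod_cast hw
  refine D6i_supp _ ?_ ?_
  · have h := closure7_thd 0 0 w hw0
    rw [hwr, div_one] at h
    exact h
  · have hT : MeasurableSet {z : ℝ | 3 / 4 ≤ |z|} :=
      measurableSet_le measurable_const (by fun_prop)
    rw [ae_map_iff (D7p_meas _ _ _).aemeasurable hT]
    filter_upwards [D7p_ae.1, D7p_ae.2] with q h1 h2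
    have := D6i_abs w q.1.2.2 q.2.2.2 hwr h2.2.2 h1.2.2
    unfold D7c
    push_cast
    rw [zero_mul, zero_mul, zero_add, zero_add]
    exact this

end Pool.Agent.helper49.Slope
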