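import Pool.Agent.helper49.Slope.DefsD7

/-!
MP_aedd95_co (slope of k-fold hyperplane covers of triangular grids), module D7q.
The law `D_7`: combinatorics of integer vectors of length 7.

PROOFS. `parity7`: `u 0 - u 1 - (u 0 + u 1 - 2 u 6)` is even, etc. `exA7_spec`, `exD7_spec`: from the six
linear equations (`omega` after case distinction of the signs) all `u i - u 6` are determined: in each
of the finitely many cases give `t`, `e`, `T` (resp. `i, j`) explicitly. `closure7_spec`: `u 1 = 2 u 6 - u 0`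
etc., `t = u 6`. `set7_two`, `set7_three`, `dif7_cases`: `decide` over `S` (or `i, j`) for integer
statements (`Pt7` is decidable: unfold, `infer_instance`). `vec7_not_ex`: if `vec7 A B C ∘ σ` were of
type `ExA7` it would take at most two values (`exA7_spec`), but it takes the values `A, -A, 0`; if it
were `ExD7` five coordinates would be equal (`exD7_spec`), but each value is taken at most four times
(`A, -A, B, -B ≠ 0`: value `0` at most three times; a positive value at most three times since at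
most one of each pair is positive).
-/

set_option autoImplicit false

open MeasureTheory ProbabilityTheory
open scoped ENNReal

namespace Pool.Agent.helper49.Slope

theorem parity7 (u : Fin 7 → ℤ) :
    Even (a7 u - x7 u) ∧ Even (b7 u - y7 u) ∧ Even (c7 u - z7 u) := by
  unfold a7 b7 c7 x7 y7 z7
  exact ⟨⟨u 6 - u 1, by ring⟩, ⟨u 6 - u 3, by ring⟩, ⟨u 6 - u 5, by ring⟩⟩

theorem D7q_closeA (u v : Fin 7 → ℤ) (t e : ℤ) (hv : ∀ i, u i = u 6 + v i) (he : e ≠ 0)
    (hT : (Finset.univ.filter (fun i => v i ≠ t)).card = 2 ∨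
      (Finset.univ.filter (fun i => v i ≠ t)).card = 3)
    (h : ∀ i, v i = t + e * ind7 (Finset.univ.filter (fun i => v i ≠ t)) i) :
    ∃ (t e : ℤ) (T : Finset (Fin 7)), e ≠ 0 ∧ (T.card = 2 ∨ T.card = 3) ∧
      ∀ i, u i = t + e * ind7 T i := by
  refine ⟨u 6 + t, e, _, he, hT, fun i => ?_⟩
  rw [hv i, add_assoc, ← h i]

theorem D7q_closeD (u v : Fin 7 → ℤ) (i j : Fin 7) (hv : ∀ i, u i = u 6 + v i) (hij : i ≠ j)
    (h : ∀ k, v k = dif7 i j k) :
    ∃ (t e : ℤ) (i j : Fin 7), e ≠ 0 ∧ i ≠ j ∧ ∀ k, u k = t + e * dif7 i j k := by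
  refine ⟨u 6, 1, i, j, one_ne_zero, hij, fun k => ?_⟩
  rw [hv k, h k, one_mul]

theorem D7q_vals7 {u : Fin 7 → ℤ} {v0 v1 v2 v3 v4 v5 : ℤ} (h0 : u 0 = u 6 + v0)
    (h1 : u 1 = u 6 + v1) (h2 : u 2 = u 6 + v2) (h3 : u 3 = u 6 + v3) (h4 : u 4 = u 6 + v4)
    (h5 : u 5 = u 6 + v5) : ∀ i, u i = u 6 + ![v0, v1, v2, v3, v4, v5, 0] i := by
  intro i
  fin_cases i
  · exact h0
  · exact h1
  · exact h2
  · exact h3
  · exact h4
  · exact h5
  · exact (add_zero _).symm

theorem exA7_spec (u : Fin 7 → ℤ) (h : ExA7 (x7 u) (y7 u) (z7 u) (a7 u) (b7 u) (c7 u)) :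
    ∃ (t e : ℤ) (T : Finset (Fin 7)), e ≠ 0 ∧ (T.card = 2 ∨ T.card = 3) ∧
      ∀ i, u i = t + e * ind7 T i := by
  rcases h with h | h | h | h | h | h
  · obtain ⟨hs, ha, hb, hc⟩ := h
    rcases hs with ⟨hx, hy, hz⟩ | ⟨hx, hy, hz⟩ <;>
    rcases (abs_eq (by norm_num : (0 : ℤ) ≤ 1)).1 ha with ha | ha <;>
    (try rw [abs_eq_zero] at hb) <;>
    rcases (abs_eq (by norm_num : (0 : ℤ) ≤ 1)).1 hc with hc | hc
    · exact D7q_closeA u ![1, 0, 0, 0, 1, 0, 0] (0) (1) (by unfold x7 at hx; unfold y7 at hy; unfold z7 at hz; unfold a7 at ha; unfold b7 at hb; unfold c7 at hc; exact D7q_vals7 (by omega) (by omega) (by omega) (by omega) (by omega) (by omega)) (by norm_num) (by decide) (by decide)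
    · exact D7q_closeA u ![1, 0, 0, 0, 0, 1, 0] (0) (1) (by unfold x7 at hx; unfold y7 at hy; unfold z7 at hz; unfold a7 at ha; unfold b7 at hb; unfold c7 at hc; exact D7q_vals7 (by omega) (by omega) (by omega) (by omega) (by omega) (by omega)) (by norm_num) (by decide) (by decide)
    · exact D7q_closeA u ![0, 1, 0, 0, 1, 0, 0] (0) (1) (by unfold x7 at hx; unfold y7 at hy; unfold z7 at hz; unfold a7 at ha; unfold b7 at hb; unfold c7 at hc; exact D7q_vals7 (by omega) (by omega) (by omega) (by omega) (by omega) (by omega)) (by norm_num) (by decide) (by decide)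
    · exact D7q_closeA u ![0, 1, 0, 0, 0, 1, 0] (0) (1) (by unfold x7 at hx; unfold y7 at hy; unfold z7 at hz; unfold a7 at ha; unfold b7 at hb; unfold c7 at hc; exact D7q_vals7 (by omega) (by omega) (by omega) (by omega) (by omega) (by omega)) (by norm_num) (by decide) (by decide)
    · exact D7q_closeA u ![0, -1, 0, 0, 0, -1, 0] (0) (-1) (by unfold x7 at hx; unfold y7 at hy; unfold z7 at hz; unfold a7 at ha; unfold b7 at hb; unfold c7 at hc; exact D7q_vals7 (by omega) (by omega) (by omega) (by omega) (by omega) (by omega)) (by norm_num) (by decide) (by decide)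
    · exact D7q_closeA u ![0, -1, 0, 0, -1, 0, 0] (0) (-1) (by unfold x7 at hx; unfold y7 at hy; unfold z7 at hz; unfold a7 at ha; unfold b7 at hb; unfold c7 at hc; exact D7q_vals7 (by omega) (by omega) (by omega) (by omega) (by omega) (by omega)) (by norm_num) (by decide) (by decide)
    · exact D7q_closeA u ![-1, 0, 0, 0, 0, -1, 0] (0) (-1) (by unfold x7 at hx; unfold y7 at hy; unfold z7 at hz; unfold a7 at ha; unfold b7 at hb; unfold c7 at hc; exact D7q_vals7 (by omega) (by omega) (by omega) (by omega) (by omega) (by omega)) (by norm_num) (by decide) (by decide)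
    · exact D7q_closeA u ![-1, 0, 0, 0, -1, 0, 0] (0) (-1) (by unfold x7 at hx; unfold y7 at hy; unfold z7 at hz; unfold a7 at ha; unfold b7 at hb; unfold c7 at hc; exact D7q_vals7 (by omega) (by omega) (by omega) (by omega) (by omega) (by omega)) (by norm_num) (by decide) (by decide)
  · obtain ⟨hs, ha, hb, hc⟩ := h
    rcases hs with ⟨hx, hy, hz⟩ | ⟨hx, hy, hz⟩ <;>
    (try rw [abs_eq_zero] at ha) <;>
    rcases (abs_eq (by norm_num : (0 : ℤ) ≤ 1)).1 hb with hb | hb <;>
    rcases (abs_eq (by norm_num : (0 : ℤ) ≤ 1)).1 hc with hc | hc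
    · exact D7q_closeA u ![0, 0, 1, 0, 1, 0, 0] (0) (1) (by unfold x7 at hx; unfold y7 at hy; unfold z7 at hz; unfold a7 at ha; unfold b7 at hb; unfold c7 at hc; exact D7q_vals7 (by omega) (by omega) (by omega) (by omega) (by omega) (by omega)) (by norm_num) (by decide) (by decide)
    · exact D7q_closeA u ![0, 0, 1, 0, 0, 1, 0] (0) (1) (by unfold x7 at hx; unfold y7 at hy; unfold z7 at hz; unfold a7 at ha; unfold b7 at hb; unfold c7 at hc; exact D7q_vals7 (by omega) (by omega) (by omega) (by omega) (by omega) (by omega)) (by norm_num) (by decide) (by decide)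
    · exact D7q_closeA u ![0, 0, 0, 1, 1, 0, 0] (0) (1) (by unfold x7 at hx; unfold y7 at hy; unfold z7 at hz; unfold a7 at ha; unfold b7 at hb; unfold c7 at hc; exact D7q_vals7 (by omega) (by omega) (by omega) (by omega) (by omega) (by omega)) (by norm_num) (by decide) (by decide)
    · exact D7q_closeA u ![0, 0, 0, 1, 0, 1, 0] (0) (1) (by unfold x7 at hx; unfold y7 at hy; unfold z7 at hz; unfold a7 at ha; unfold b7 at hb; unfold c7 at hc; exact D7q_vals7 (by omega) (by omega) (by omega) (by omega) (by omega) (by omega)) (by norm_num) (by decide) (by decide)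
    · exact D7q_closeA u ![0, 0, 0, -1, 0, -1, 0] (0) (-1) (by unfold x7 at hx; unfold y7 at hy; unfold z7 at hz; unfold a7 at ha; unfold b7 at hb; unfold c7 at hc; exact D7q_vals7 (by omega) (by omega) (by omega) (by omega) (by omega) (by omega)) (by norm_num) (by decide) (by decide)
    · exact D7q_closeA u ![0, 0, 0, -1, -1, 0, 0] (0) (-1) (by unfold x7 at hx; unfold y7 at hy; unfold z7 at hz; unfold a7 at ha; unfold b7 at hb; unfold c7 at hc; exact D7q_vals7 (by omega) (by omega) (by omega) (by omega) (by omega) (by omega)) (by norm_num) (by decide) (by decide)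
    · exact D7q_closeA u ![0, 0, -1, 0, 0, -1, 0] (0) (-1) (by unfold x7 at hx; unfold y7 at hy; unfold z7 at hz; unfold a7 at ha; unfold b7 at hb; unfold c7 at hc; exact D7q_vals7 (by omega) (by omega) (by omega) (by omega) (by omega) (by omega)) (by norm_num) (by decide) (by decide)
    · exact D7q_closeA u ![0, 0, -1, 0, -1, 0, 0] (0) (-1) (by unfold x7 at hx; unfold y7 at hy; unfold z7 at hz; unfold a7 at ha; unfold b7 at hb; unfold c7 at hc; exact D7q_vals7 (by omega) (by omega) (by omega) (by omega) (by omega) (by omega)) (by norm_num) (by decide) (by decide)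
  · obtain ⟨hs, ha, hb, hc⟩ := h
    rcases hs with ⟨hx, hy, hz⟩ | ⟨hx, hy, hz⟩ <;>
    (try rw [abs_eq_zero] at ha) <;>
    (try rw [abs_eq_zero] at hb) <;>
    rcases (abs_eq (by norm_num : (0 : ℤ) ≤ 1)).1 hc with hc | hc
    · exact D7q_closeA u ![1, 1, 1, 1, 1, 0, 0] (1) (-1) (by unfold x7 at hx; unfold y7 at hy; unfold z7 at hz; unfold a7 at ha; unfold b7 at hb; unfold c7 at hc; exact D7q_vals7 (by omega) (by omega) (by omega) (by omega) (by omega) (by omega)) (by norm_num) (by decide) (by decide)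
    · exact D7q_closeA u ![1, 1, 1, 1, 0, 1, 0] (1) (-1) (by unfold x7 at hx; unfold y7 at hy; unfold z7 at hz; unfold a7 at ha; unfold b7 at hb; unfold c7 at hc; exact D7q_vals7 (by omega) (by omega) (by omega) (by omega) (by omega) (by omega)) (by norm_num) (by decide) (by decide)
    · exact D7q_closeA u ![-1, -1, -1, -1, 0, -1, 0] (-1) (1) (by unfold x7 at hx; unfold y7 at hy; unfold z7 at hz; unfold a7 at ha; unfold b7 at hb; unfold c7 at hc; exact D7q_vals7 (by omega) (by omega) (by omega) (by omega) (by omega) (by omega)) (by norm_num) (by decide) (by decide)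
    · exact D7q_closeA u ![-1, -1, -1, -1, -1, 0, 0] (-1) (1) (by unfold x7 at hx; unfold y7 at hy; unfold z7 at hz; unfold a7 at ha; unfold b7 at hb; unfold c7 at hc; exact D7q_vals7 (by omega) (by omega) (by omega) (by omega) (by omega) (by omega)) (by norm_num) (by decide) (by decide)
  · obtain ⟨hs, ha, hb, hc⟩ := h
    rcases hs with ⟨hx, hy, hz⟩ | ⟨hx, hy, hz⟩ <;>
    (try rw [abs_eq_zero] at ha) <;>
    rcases (abs_eq (by norm_num : (0 : ℤ) ≤ 1)).1 hb with hb | hb <;>
    (try rw [abs_eq_zero] at hc)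
    · exact D7q_closeA u ![1, 1, 1, 0, 0, 0, 0] (0) (1) (by unfold x7 at hx; unfold y7 at hy; unfold z7 at hz; unfold a7 at ha; unfold b7 at hb; unfold c7 at hc; exact D7q_vals7 (by omega) (by omega) (by omega) (by omega) (by omega) (by omega)) (by norm_num) (by decide) (by decide)
    · exact D7q_closeA u ![1, 1, 0, 1, 0, 0, 0] (0) (1) (by unfold x7 at hx; unfold y7 at hy; unfold z7 at hz; unfold a7 at ha; unfold b7 at hb; unfold c7 at hc; exact D7q_vals7 (by omega) (by omega) (by omega) (by omega) (by omega) (by omega)) (by norm_num) (by decide) (by decide)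
    · exact D7q_closeA u ![-1, -1, 0, -1, 0, 0, 0] (0) (-1) (by unfold x7 at hx; unfold y7 at hy; unfold z7 at hz; unfold a7 at ha; unfold b7 at hb; unfold c7 at hc; exact D7q_vals7 (by omega) (by omega) (by omega) (by omega) (by omega) (by omega)) (by norm_num) (by decide) (by decide)
    · exact D7q_closeA u ![-1, -1, -1, 0, 0, 0, 0] (0) (-1) (by unfold x7 at hx; unfold y7 at hy; unfold z7 at hz; unfold a7 at ha; unfold b7 at hb; unfold c7 at hc; exact D7q_vals7 (by omega) (by omega) (by omega) (by omega) (by omega) (by omega)) (by norm_num) (by decide) (by decide)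
  · obtain ⟨hs, ha, hb, hc⟩ := h
    rcases hs with ⟨hx, hy, hz⟩ | ⟨hx, hy, hz⟩ <;>
    rcases (abs_eq (by norm_num : (0 : ℤ) ≤ 1)).1 ha with ha | ha <;>
    (try rw [abs_eq_zero] at hb) <;>
    (try rw [abs_eq_zero] at hc)
    · exact D7q_closeA u ![1, 0, 1, 1, 0, 0, 0] (0) (1) (by unfold x7 at hx; unfold y7 at hy; unfold z7 at hz; unfold a7 at ha; unfold b7 at hb; unfold c7 at hc; exact D7q_vals7 (by omega) (by omega) (by omega) (by omega) (by omega) (by omega)) (by norm_num) (by decide) (by decide)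
    · exact D7q_closeA u ![0, 1, 1, 1, 0, 0, 0] (0) (1) (by unfold x7 at hx; unfold y7 at hy; unfold z7 at hz; unfold a7 at ha; unfold b7 at hb; unfold c7 at hc; exact D7q_vals7 (by omega) (by omega) (by omega) (by omega) (by omega) (by omega)) (by norm_num) (by decide) (by decide)
    · exact D7q_closeA u ![0, -1, -1, -1, 0, 0, 0] (0) (-1) (by unfold x7 at hx; unfold y7 at hy; unfold z7 at hz; unfold a7 at ha; unfold b7 at hb; unfold c7 at hc; exact D7q_vals7 (by omega) (by omega) (by omega) (by omega) (by omega) (by omega)) (by norm_num) (by decide) (by decide)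
    · exact D7q_closeA u ![-1, 0, -1, -1, 0, 0, 0] (0) (-1) (by unfold x7 at hx; unfold y7 at hy; unfold z7 at hz; unfold a7 at ha; unfold b7 at hb; unfold c7 at hc; exact D7q_vals7 (by omega) (by omega) (by omega) (by omega) (by omega) (by omega)) (by norm_num) (by decide) (by decide)
  · obtain ⟨hs, ha, hb, hc⟩ := h
    rcases hs with ⟨hx, hy, hz⟩ | ⟨hx, hy, hz⟩ <;>
    rcases (abs_eq (by norm_num : (0 : ℤ) ≤ 1)).1 ha with ha | ha <;>
    rcases (abs_eq (by norm_num : (0 : ℤ) ≤ 1)).1 hb with hb | hb <;>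
    rcases (abs_eq (by norm_num : (0 : ℤ) ≤ 1)).1 hc with hc | hc
    · exact D7q_closeA u ![1, 0, 1, 0, 1, 0, 0] (0) (1) (by unfold x7 at hx; unfold y7 at hy; unfold z7 at hz; unfold a7 at ha; unfold b7 at hb; unfold c7 at hc; exact D7q_vals7 (by omega) (by omega) (by omega) (by omega) (by omega) (by omega)) (by norm_num) (by decide) (by decide)
    · exact D7q_closeA u ![1, 0, 1, 0, 0, 1, 0] (0) (1) (by unfold x7 at hx; unfold y7 at hy; unfold z7 at hz; unfold a7 at ha; unfold b7 at hb; unfold c7 at hc; exact D7q_vals7 (by omega) (by omega) (by omega) (by omega) (by omega) (by omega)) (by norm_num) (by decide) (by decide)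
    · exact D7q_closeA u ![1, 0, 0, 1, 1, 0, 0] (0) (1) (by unfold x7 at hx; unfold y7 at hy; unfold z7 at hz; unfold a7 at ha; unfold b7 at hb; unfold c7 at hc; exact D7q_vals7 (by omega) (by omega) (by omega) (by omega) (by omega) (by omega)) (by norm_num) (by decide) (by decide)
    · exact D7q_closeA u ![1, 0, 0, 1, 0, 1, 0] (0) (1) (by unfold x7 at hx; unfold y7 at hy; unfold z7 at hz; unfold a7 at ha; unfold b7 at hb; unfold c7 at hc; exact D7q_vals7 (by omega) (by omega) (by omega) (by omega) (by omega) (by omega)) (by norm_num) (by decide) (by decide)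
    · exact D7q_closeA u ![0, 1, 1, 0, 1, 0, 0] (0) (1) (by unfold x7 at hx; unfold y7 at hy; unfold z7 at hz; unfold a7 at ha; unfold b7 at hb; unfold c7 at hc; exact D7q_vals7 (by omega) (by omega) (by omega) (by omega) (by omega) (by omega)) (by norm_num) (by decide) (by decide)
    · exact D7q_closeA u ![0, 1, 1, 0, 0, 1, 0] (0) (1) (by unfold x7 at hx; unfold y7 at hy; unfold z7 at hz; unfold a7 at ha; unfold b7 at hb; unfold c7 at hc; exact D7q_vals7 (by omega) (by omega) (by omega) (by omega) (by omega) (by omega)) (by norm_num) (by decide) (by decide)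
    · exact D7q_closeA u ![0, 1, 0, 1, 1, 0, 0] (0) (1) (by unfold x7 at hx; unfold y7 at hy; unfold z7 at hz; unfold a7 at ha; unfold b7 at hb; unfold c7 at hc; exact D7q_vals7 (by omega) (by omega) (by omega) (by omega) (by omega) (by omega)) (by norm_num) (by decide) (by decide)
    · exact D7q_closeA u ![0, 1, 0, 1, 0, 1, 0] (0) (1) (by unfold x7 at hx; unfold y7 at hy; unfold z7 at hz; unfold a7 at ha; unfold b7 at hb; unfold c7 at hc; exact D7q_vals7 (by omega) (by omega) (by omega) (by omega) (by omega) (by omega)) (by norm_num) (by decide) (by decide)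
    · exact D7q_closeA u ![0, -1, 0, -1, 0, -1, 0] (0) (-1) (by unfold x7 at hx; unfold y7 at hy; unfold z7 at hz; unfold a7 at ha; unfold b7 at hb; unfold c7 at hc; exact D7q_vals7 (by omega) (by omega) (by omega) (by omega) (by omega) (by omega)) (by norm_num) (by decide) (by decide)
    · exact D7q_closeA u ![0, -1, 0, -1, -1, 0, 0] (0) (-1) (by unfold x7 at hx; unfold y7 at hy; unfold z7 at hz; unfold a7 at ha; unfold b7 at hb; unfold c7 at hc; exact D7q_vals7 (by omega) (by omega) (by omega) (by omega) (by omega) (by omega)) (by norm_num) (by decide) (by decide)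
    · exact D7q_closeA u ![0, -1, -1, 0, 0, -1, 0] (0) (-1) (by unfold x7 at hx; unfold y7 at hy; unfold z7 at hz; unfold a7 at ha; unfold b7 at hb; unfold c7 at hc; exact D7q_vals7 (by omega) (by omega) (by omega) (by omega) (by omega) (by omega)) (by norm_num) (by decide) (by decide)
    · exact D7q_closeA u ![0, -1, -1, 0, -1, 0, 0] (0) (-1) (by unfold x7 at hx; unfold y7 at hy; unfold z7 at hz; unfold a7 at ha; unfold b7 at hb; unfold c7 at hc; exact D7q_vals7 (by omega) (by omega) (by omega) (by omega) (by omega) (by omega)) (by norm_num) (by decide) (by decide)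
    · exact D7q_closeA u ![-1, 0, 0, -1, 0, -1, 0] (0) (-1) (by unfold x7 at hx; unfold y7 at hy; unfold z7 at hz; unfold a7 at ha; unfold b7 at hb; unfold c7 at hc; exact D7q_vals7 (by omega) (by omega) (by omega) (by omega) (by omega) (by omega)) (by norm_num) (by decide) (by decide)
    · exact D7q_closeA u ![-1, 0, 0, -1, -1, 0, 0] (0) (-1) (by unfold x7 at hx; unfold y7 at hy; unfold z7 at hz; unfold a7 at ha; unfold b7 at hb; unfold c7 at hc; exact D7q_vals7 (by omega) (by omega) (by omega) (by omega) (by omega) (by omega)) (by norm_num) (by decide) (by decide)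
    · exact D7q_closeA u ![-1, 0, -1, 0, 0, -1, 0] (0) (-1) (by unfold x7 at hx; unfold y7 at hy; unfold z7 at hz; unfold a7 at ha; unfold b7 at hb; unfold c7 at hc; exact D7q_vals7 (by omega) (by omega) (by omega) (by omega) (by omega) (by omega)) (by norm_num) (by decide) (by decide)
    · exact D7q_closeA u ![-1, 0, -1, 0, -1, 0, 0] (0) (-1) (by unfold x7 at hx; unfold y7 at hy; unfold z7 at hz; unfold a7 at ha; unfold b7 at hb; unfold c7 at hc; exact D7q_vals7 (by omega) (by omega) (by omega) (by omega) (by omega) (by omega)) (by norm_num) (by decide) (by decide)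

theorem exD7_spec (u : Fin 7 → ℤ) (h : ExD7 (x7 u) (y7 u) (z7 u) (a7 u) (b7 u) (c7 u)) :
    ∃ (t e : ℤ) (i j : Fin 7), e ≠ 0 ∧ i ≠ j ∧ ∀ k, u k = t + e * dif7 i j k := by
  rcases h with h | h | h
  · obtain ⟨hs, ha, hb, hc⟩ := h
    rcases hs with ⟨hx, hy, hz⟩ | ⟨hx, hy, hz⟩ <;>
    rcases (abs_eq (by norm_num : (0 : ℤ) ≤ 1)).1 ha with ha | ha <;>
    rcases (abs_eq (by norm_num : (0 : ℤ) ≤ 1)).1 hb with hb | hb <;>
    (try rw [abs_eq_zero] at hc)
    · exact D7q_closeD u ![1, 0, 0, -1, 0, 0, 0] 0 3 (by unfold x7 at hx; unfold y7 at hy; unfold z7 at hz; unfold a7 at ha; unfold b7 at hb; unfold c7 at hc; exact D7q_vals7 (by omega) (by omega) (by omega) (by omega) (by omega) (by omega)) (by decide) (by decide)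
    · exact D7q_closeD u ![1, 0, -1, 0, 0, 0, 0] 0 2 (by unfold x7 at hx; unfold y7 at hy; unfold z7 at hz; unfold a7 at ha; unfold b7 at hb; unfold c7 at hc; exact D7q_vals7 (by omega) (by omega) (by omega) (by omega) (by omega) (by omega)) (by decide) (by decide)
    · exact D7q_closeD u ![0, 1, 0, -1, 0, 0, 0] 1 3 (by unfold x7 at hx; unfold y7 at hy; unfold z7 at hz; unfold a7 at ha; unfold b7 at hb; unfold c7 at hc; exact D7q_vals7 (by omega) (by omega) (by omega) (by omega) (by omega) (by omega)) (by decide) (by decide)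
    · exact D7q_closeD u ![0, 1, -1, 0, 0, 0, 0] 1 2 (by unfold x7 at hx; unfold y7 at hy; unfold z7 at hz; unfold a7 at ha; unfold b7 at hb; unfold c7 at hc; exact D7q_vals7 (by omega) (by omega) (by omega) (by omega) (by omega) (by omega)) (by decide) (by decide)
    · exact D7q_closeD u ![0, -1, 1, 0, 0, 0, 0] 2 1 (by unfold x7 at hx; unfold y7 at hy; unfold z7 at hz; unfold a7 at ha; unfold b7 at hb; unfold c7 at hc; exact D7q_vals7 (by omega) (by omega) (by omega) (by omega) (by omega) (by omega)) (by decide) (by decide)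
    · exact D7q_closeD u ![0, -1, 0, 1, 0, 0, 0] 3 1 (by unfold x7 at hx; unfold y7 at hy; unfold z7 at hz; unfold a7 at ha; unfold b7 at hb; unfold c7 at hc; exact D7q_vals7 (by omega) (by omega) (by omega) (by omega) (by omega) (by omega)) (by decide) (by decide)
    · exact D7q_closeD u ![-1, 0, 1, 0, 0, 0, 0] 2 0 (by unfold x7 at hx; unfold y7 at hy; unfold z7 at hz; unfold a7 at ha; unfold b7 at hb; unfold c7 at hc; exact D7q_vals7 (by omega) (by omega) (by omega) (by omega) (by omega) (by omega)) (by decide) (by decide)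
    · exact D7q_closeD u ![-1, 0, 0, 1, 0, 0, 0] 3 0 (by unfold x7 at hx; unfold y7 at hy; unfold z7 at hz; unfold a7 at ha; unfold b7 at hb; unfold c7 at hc; exact D7q_vals7 (by omega) (by omega) (by omega) (by omega) (by omega) (by omega)) (by decide) (by decide)
  · obtain ⟨hs, ha, hb, hc⟩ := h
    rcases hs with ⟨hx, hy, hz⟩ | ⟨hx, hy, hz⟩ <;>
    rcases (abs_eq (by norm_num : (0 : ℤ) ≤ 1)).1 ha with ha | ha <;>
    (try rw [abs_eq_zero] at hb) <;>
    rcases (abs_eq (by norm_num : (0 : ℤ) ≤ 1)).1 hc with hc | hc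
    · exact D7q_closeD u ![1, 0, 0, 0, 0, -1, 0] 0 5 (by unfold x7 at hx; unfold y7 at hy; unfold z7 at hz; unfold a7 at ha; unfold b7 at hb; unfold c7 at hc; exact D7q_vals7 (by omega) (by omega) (by omega) (by omega) (by omega) (by omega)) (by decide) (by decide)
    · exact D7q_closeD u ![1, 0, 0, 0, -1, 0, 0] 0 4 (by unfold x7 at hx; unfold y7 at hy; unfold z7 at hz; unfold a7 at ha; unfold b7 at hb; unfold c7 at hc; exact D7q_vals7 (by omega) (by omega) (by omega) (by omega) (by omega) (by omega)) (by decide) (by decide)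
    · exact D7q_closeD u ![0, 1, 0, 0, 0, -1, 0] 1 5 (by unfold x7 at hx; unfold y7 at hy; unfold z7 at hz; unfold a7 at ha; unfold b7 at hb; unfold c7 at hc; exact D7q_vals7 (by omega) (by omega) (by omega) (by omega) (by omega) (by omega)) (by decide) (by decide)
    · exact D7q_closeD u ![0, 1, 0, 0, -1, 0, 0] 1 4 (by unfold x7 at hx; unfold y7 at hy; unfold z7 at hz; unfold a7 at ha; unfold b7 at hb; unfold c7 at hc; exact D7q_vals7 (by omega) (by omega) (by omega) (by omega) (by omega) (by omega)) (by decide) (by decide)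
    · exact D7q_closeD u ![0, -1, 0, 0, 1, 0, 0] 4 1 (by unfold x7 at hx; unfold y7 at hy; unfold z7 at hz; unfold a7 at ha; unfold b7 at hb; unfold c7 at hc; exact D7q_vals7 (by omega) (by omega) (by omega) (by omega) (by omega) (by omega)) (by decide) (by decide)
    · exact D7q_closeD u ![0, -1, 0, 0, 0, 1, 0] 5 1 (by unfold x7 at hx; unfold y7 at hy; unfold z7 at hz; unfold a7 at ha; unfold b7 at hb; unfold c7 at hc; exact D7q_vals7 (by omega) (by omega) (by omega) (by omega) (by omega) (by omega)) (by decide) (by decide)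
    · exact D7q_closeD u ![-1, 0, 0, 0, 1, 0, 0] 4 0 (by unfold x7 at hx; unfold y7 at hy; unfold z7 at hz; unfold a7 at ha; unfold b7 at hb; unfold c7 at hc; exact D7q_vals7 (by omega) (by omega) (by omega) (by omega) (by omega) (by omega)) (by decide) (by decide)
    · exact D7q_closeD u ![-1, 0, 0, 0, 0, 1, 0] 5 0 (by unfold x7 at hx; unfold y7 at hy; unfold z7 at hz; unfold a7 at ha; unfold b7 at hb; unfold c7 at hc; exact D7q_vals7 (by omega) (by omega) (by omega) (by omega) (by omega) (by omega)) (by decide) (by decide)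
  · obtain ⟨hs, ha, hb, hc⟩ := h
    rcases hs with ⟨hx, hy, hz⟩ | ⟨hx, hy, hz⟩ <;>
    (try rw [abs_eq_zero] at ha) <;>
    rcases (abs_eq (by norm_num : (0 : ℤ) ≤ 1)).1 hb with hb | hb <;>
    rcases (abs_eq (by norm_num : (0 : ℤ) ≤ 1)).1 hc with hc | hc
    · exact D7q_closeD u ![0, 0, 1, 0, 0, -1, 0] 2 5 (by unfold x7 at hx; unfold y7 at hy; unfold z7 at hz; unfold a7 at ha; unfold b7 at hb; unfold c7 at hc; exact D7q_vals7 (by omega) (by omega) (by omega) (by omega) (by omega) (by omega)) (by decide) (by decide)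
    · exact D7q_closeD u ![0, 0, 1, 0, -1, 0, 0] 2 4 (by unfold x7 at hx; unfold y7 at hy; unfold z7 at hz; unfold a7 at ha; unfold b7 at hb; unfold c7 at hc; exact D7q_vals7 (by omega) (by omega) (by omega) (by omega) (by omega) (by omega)) (by decide) (by decide)
    · exact D7q_closeD u ![0, 0, 0, 1, 0, -1, 0] 3 5 (by unfold x7 at hx; unfold y7 at hy; unfold z7 at hz; unfold a7 at ha; unfold b7 at hb; unfold c7 at hc; exact D7q_vals7 (by omega) (by omega) (by omega) (by omega) (by omega) (by omega)) (by decide) (by decide)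
    · exact D7q_closeD u ![0, 0, 0, 1, -1, 0, 0] 3 4 (by unfold x7 at hx; unfold y7 at hy; unfold z7 at hz; unfold a7 at ha; unfold b7 at hb; unfold c7 at hc; exact D7q_vals7 (by omega) (by omega) (by omega) (by omega) (by omega) (by omega)) (by decide) (by decide)
    · exact D7q_closeD u ![0, 0, 0, -1, 1, 0, 0] 4 3 (by unfold x7 at hx; unfold y7 at hy; unfold z7 at hz; unfold a7 at ha; unfold b7 at hb; unfold c7 at hc; exact D7q_vals7 (by omega) (by omega) (by omega) (by omega) (by omega) (by omega)) (by decide) (by decide)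
    · exact D7q_closeD u ![0, 0, 0, -1, 0, 1, 0] 5 3 (by unfold x7 at hx; unfold y7 at hy; unfold z7 at hz; unfold a7 at ha; unfold b7 at hb; unfold c7 at hc; exact D7q_vals7 (by omega) (by omega) (by omega) (by omega) (by omega) (by omega)) (by decide) (by decide)
    · exact D7q_closeD u ![0, 0, -1, 0, 1, 0, 0] 4 2 (by unfold x7 at hx; unfold y7 at hy; unfold z7 at hz; unfold a7 at ha; unfold b7 at hb; unfold c7 at hc; exact D7q_vals7 (by omega) (by omega) (by omega) (by omega) (by omega) (by omega)) (by decide) (by decide)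
    · exact D7q_closeD u ![0, 0, -1, 0, 0, 1, 0] 5 2 (by unfold x7 at hx; unfold y7 at hy; unfold z7 at hz; unfold a7 at ha; unfold b7 at hb; unfold c7 at hc; exact D7q_vals7 (by omega) (by omega) (by omega) (by omega) (by omega) (by omega)) (by decide) (by decide)

theorem closure7_spec (u : Fin 7 → ℤ) (h : Cl7 u) :
    ∃ t A B C : ℤ, ∀ i, u i = t + vec7 A B C i := by
  obtain ⟨hx, hy, hz⟩ := h
  unfold x7 at hx; unfold y7 at hy; unfold z7 at hz
  refine ⟨u 6, u 0 - u 6, u 2 - u 6, u 4 - u 6, ?_⟩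
  exact D7q_vals7 (by omega) (by omega) (by omega) (by omega) (by omega) (by omega)

/-- cyclic permutation of the blocks -/
def D7q_rot : Equiv.Perm (Fin 7) :=
  ⟨![4, 5, 0, 1, 2, 3, 6], ![2, 3, 4, 5, 0, 1, 6], by decide, by decide⟩

/-- exchange of the blocks 2 and 3 -/
def D7q_swp : Equiv.Perm (Fin 7) :=
  ⟨![0, 1, 4, 5, 2, 3, 6], ![0, 1, 4, 5, 2, 3, 6], by decide, by decide⟩

theorem D7q_sign1 (A B C : ℤ) : ∃ ρ : Equiv.Perm (Fin 7), ∀ k, vec7 A B C k = vec7 |A| B C (ρ k) := by
  rcases le_total 0 A with h | h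
  · exact ⟨1, fun k => by rw [abs_of_nonneg h]; rfl⟩
  · refine ⟨Equiv.swap 0 1, fun k => ?_⟩
    rw [abs_of_nonpos h]
    fin_cases k <;> simp [vec7, Equiv.swap_apply_def]

theorem D7q_sign2 (A B C : ℤ) : ∃ ρ : Equiv.Perm (Fin 7), ∀ k, vec7 A B C k = vec7 A |B| C (ρ k) := by
  rcases le_total 0 B with h | h
  · exact ⟨1, fun k => by rw [abs_of_nonneg h]; rfl⟩
  · refine ⟨Equiv.swap 2 3, fun k => ?_⟩
    rw [abs_of_nonpos h]
    fin_cases k <;> simp [vec7, Equiv.swap_apply_def]

theorem D7q_sign3 (A B C : ℤ) : ∃ ρ : Equiv.Perm (Fin 7), ∀ k, vec7 A B C k = vec7 A B |C| (ρ k) := by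
  rcases le_total 0 C with h | h
  · exact ⟨1, fun k => by rw [abs_of_nonneg h]; rfl⟩
  · refine ⟨Equiv.swap 4 5, fun k => ?_⟩
    rw [abs_of_nonpos h]
    fin_cases k <;> simp [vec7, Equiv.swap_apply_def]

/-- permutation and signs: two nonzero entries can be made positive and put in front -/
theorem vec7_norm (A B C : ℤ) (h : ¬ (A = 0 ∧ B = 0) ∧ ¬ (A = 0 ∧ C = 0) ∧ ¬ (B = 0 ∧ C = 0)) :
    ∃ (ρ : Equiv.Perm (Fin 7)) (A' B' C' : ℤ), 1 ≤ A' ∧ 1 ≤ B' ∧ 0 ≤ C' ∧
      ∀ k, vec7 A B C k = vec7 A' B' C' (ρ k) := by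
  obtain ⟨ρ1, h1⟩ := D7q_sign1 A B C
  obtain ⟨ρ2, h2⟩ := D7q_sign2 |A| B C
  obtain ⟨ρ3, h3⟩ := D7q_sign3 |A| |B| C
  have h0 : ∀ k, vec7 A B C k = vec7 |A| |B| |C| (ρ3 (ρ2 (ρ1 k))) := fun k => by
    rw [h1, h2, h3]
  have ha := abs_nonneg A
  have hb := abs_nonneg B
  have hc := abs_nonneg C
  have ea := abs_eq_zero (a := A)
  have eb := abs_eq_zero (a := B)
  have ec := abs_eq_zero (a := C)
  by_cases hA : A = 0
  · have h4 : ∀ k, vec7 0 |B| |C| k = vec7 |B| |C| 0 (D7q_rot k) := by
      intro k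
      fin_cases k <;> simp [vec7, D7q_rot]
    refine ⟨ρ1.trans (ρ2.trans (ρ3.trans D7q_rot)), |B|, |C|, 0, by omega, by omega, le_rfl,
      fun k => ?_⟩
    rw [h0 k, hA, abs_zero, h4]
    rfl
  · by_cases hB : B = 0
    · have h4 : ∀ k, vec7 |A| 0 |C| k = vec7 |A| |C| 0 (D7q_swp k) := by
        intro k
        fin_cases k <;> simp [vec7, D7q_swp]
      refine ⟨ρ1.trans (ρ2.trans (ρ3.trans D7q_swp)), |A|, |C|, 0, by omega, by omega, le_rfl,
        fun k => ?_⟩
      rw [h0 k, hB, abs_zero, h4]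
      rfl
    · exact ⟨ρ1.trans (ρ2.trans ρ3), |A|, |B|, |C|, by omega, by omega, hc, fun k => h0 k⟩

/-- only one of the three entries is nonzero -/
theorem vec7_dif (A B C : ℤ) (h : (A = 0 ∧ B = 0) ∨ (A = 0 ∧ C = 0) ∨ (B = 0 ∧ C = 0)) :
    ∃ (e : ℤ) (i j : Fin 7), i ≠ j ∧ ∀ k, vec7 A B C k = e * dif7 i j k := by
  rcases h with ⟨rfl, rfl⟩ | ⟨rfl, rfl⟩ | ⟨rfl, rfl⟩
  · refine ⟨C, 4, 5, by decide, fun k => ?_⟩
    fin_cases k <;> simp [vec7, dif7]
  · refine ⟨B, 2, 3, by decide, fun k => ?_⟩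
    fin_cases k <;> simp [vec7, dif7]
  · refine ⟨A, 0, 1, by decide, fun k => ?_⟩
    fin_cases k <;> simp [vec7, dif7]

theorem vec7_not_ex (A B C : ℤ) (hA : 1 ≤ A) (hB : 1 ≤ B) (hC : 0 ≤ C) (σ : Equiv.Perm (Fin 7))
    (w : Fin 7 → ℤ) (hw : w = vec7 A B C ∘ σ) :
    ¬ ExA7 (x7 w) (y7 w) (z7 w) (a7 w) (b7 w) (c7 w) ∧
      ¬ ExD7 (x7 w) (y7 w) (z7 w) (a7 w) (b7 w) (c7 w) := by
  have hval : ∀ m, w (σ.symm m) = vec7 A B C m := fun m => by
    rw [hw, Function.comp_apply, Equiv.apply_symm_apply]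
  constructor
  · intro h
    obtain ⟨t, e, T, -, -, hT⟩ := exA7_spec w h
    have h2 : ∀ m, vec7 A B C m = t ∨ vec7 A B C m = t + e := by
      intro m
      rw [← hval m, hT]
      unfold ind7
      split_ifs
      · right; ring
      · left; ring
    have e0 : A = t ∨ A = t + e := h2 0
    have e1 : -A = t ∨ -A = t + e := h2 1
    have e6 : (0 : ℤ) = t ∨ (0 : ℤ) = t + e := h2 6
    omega
  · intro h
    obtain ⟨t, e, i, j, -, -, hT⟩ := exD7_spec w h
    have h2 : ∀ m : Fin 7, m.val ≠ (σ i).val → m.val ≠ (σ j).val → vec7 A B C m = t := by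
      intro m hi hj
      rw [← hval m, hT]
      unfold dif7
      rw [if_neg, if_neg]
      · ring
      · rintro rfl
        exact hj (by rw [Equiv.apply_symm_apply])
      · rintro rfl
        exact hi (by rw [Equiv.apply_symm_apply])
    have e0 : 0 ≠ (σ i).val → 0 ≠ (σ j).val → A = t := h2 0
    have e1 : 1 ≠ (σ i).val → 1 ≠ (σ j).val → -A = t := h2 1
    have e2 : 2 ≠ (σ i).val → 2 ≠ (σ j).val → B = t := h2 2
    have e3 : 3 ≠ (σ i).val → 3 ≠ (σ j).val → -B = t := h2 3
    have e6 : 6 ≠ (σ i).val → 6 ≠ (σ j).val → (0 : ℤ) = t := h2 6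
    omega

/-- the sum of the three numbers for a vector with sum `0` -/
theorem vec7_sum (A B C : ℤ) (σ : Equiv.Perm (Fin 7)) (w : Fin 7 → ℤ) (hw : w = vec7 A B C ∘ σ) :
    x7 w + y7 w + z7 w = -7 * w 6 := by
  have h1 : ∑ i, w i = ∑ i, vec7 A B C i := by
    rw [hw]
    exact Equiv.sum_comp σ (vec7 A B C)
  have h2 : ∑ i, vec7 A B C i = 0 := by
    rw [Fin.sum_univ_seven]
    change A + -A + B + -B + C + -C + 0 = 0
    ring
  rw [h2, Fin.sum_univ_seven] at h1
  unfold x7 y7 z7
  linarith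

/-- closures among the permutations: one of the three pairs carries a nonzero number -/
theorem vec7_closure (A B C : ℤ) (hA : 1 ≤ A) (σ : Equiv.Perm (Fin 7))
    (w : Fin 7 → ℤ) (hw : w = vec7 A B C ∘ σ) (h6 : w 6 = 0) (hcl : Cl7 w) :
    a7 w = 2 * w 0 ∧ b7 w = 2 * w 2 ∧ c7 w = 2 * w 4 ∧ (w 0 ≠ 0 ∨ w 2 ≠ 0 ∨ w 4 ≠ 0) := by
  obtain ⟨hx, hy, hz⟩ := hcl
  unfold x7 at hx; unfold y7 at hy; unfold z7 at hz
  refine ⟨by unfold a7; omega, by unfold b7; omega, by unfold c7; omega, ?_⟩
  by_contra hc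
  push Not at hc
  obtain ⟨c0, c2, c4⟩ := hc
  have hall : ∀ i, w i = 0 := by
    intro i
    fin_cases i
    · exact c0
    · change w 1 = 0; omega
    · exact c2
    · change w 3 = 0; omega
    · exact c4
    · change w 5 = 0; omega
    · exact h6
  have h0 : w (σ.symm 0) = A := by
    rw [hw, Function.comp_apply, Equiv.apply_symm_apply]
    rfl
  rw [hall] at h0
  omega

end Pool.Agent.helper49.Slope
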