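import Pool.Agent.helper49.Slope.DefsD7

/-!
MP_aedd95_co (slope of k-fold hyperplane covers of triangular grids), module D7q2.
The law `D_7`: case distinctions for sets of size 2 and 3 and for pairs of slots.

PROOFS. All statements about `S` with `S.card = 2` or `3` are finite: convert to decidable integer
statements and `decide` (or `decide +kernel`; `revert S`). `Pt7` is a disjunction of equalities of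
integers (unfold everything: `x7, y7, .., ind7, dif7, blk7`). The real tables `G72`, `G73`, `H7` are
`if .. then .. else ..` of decidable conditions on `S`.
-/

set_option autoImplicit false

open MeasureTheory ProbabilityTheory
open scoped ENNReal

namespace Pool.Agent.helper49.Slope

/-- `Pt7` for a vector -/
def Pu7 (u : Fin 7 → ℤ) (x y z a b c : ℤ) : Prop :=
  Pt7 (x7 u) (y7 u) (z7 u) (a7 u) (b7 u) (c7 u) x y z a b c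

instance Pu7_dec (u : Fin 7 → ℤ) (x y z a b c : ℤ) : Decidable (Pu7 u x y z a b c) := by
  unfold Pu7 Pt7; infer_instance

/-- one of the two pairs of the first kind lies in `S` -/
def D7q2_A (S : Finset (Fin 7)) : Prop := (0 ∈ S ∧ 1 ∈ S) ∨ (2 ∈ S ∧ 3 ∈ S)

instance D7q2_A_dec (S : Finset (Fin 7)) : Decidable (D7q2_A S) := by
  unfold D7q2_A; infer_instance

theorem set7_two (S : Finset (Fin 7)) (hS : S.card = 2) :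
    (6 ∈ S ∧ (4 ∈ S ∨ 5 ∈ S) ∧ Pu7 (ind7 S) 2 2 1 0 0 1) ∨
    (6 ∈ S ∧ ¬ (4 ∈ S ∨ 5 ∈ S) ∧ (Pu7 (ind7 S) 1 2 2 1 0 0 ∨ Pu7 (ind7 S) 2 1 2 0 1 0)) ∨
    (6 ∉ S ∧ (4 ∈ S ↔ 5 ∈ S) ∧ (Pu7 (ind7 S) 2 0 0 0 0 0 ∨ Pu7 (ind7 S) 0 2 0 0 0 0 ∨
      Pu7 (ind7 S) 0 0 2 0 0 0 ∨ Pu7 (ind7 S) 1 1 0 1 1 0)) ∨
    (6 ∉ S ∧ ¬ (4 ∈ S ↔ 5 ∈ S) ∧ (Pu7 (ind7 S) 1 0 1 1 0 1 ∨ Pu7 (ind7 S) 0 1 1 0 1 1)) := by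
  revert S
  decide +kernel

set_option synthInstance.maxSize 2000 in
theorem D7q2_three (S : Finset (Fin 7)) (hS : S.card = 3) :
    ((6 ∈ S ∧ D7q2_A S) ∧ (Pu7 (ind7 S) 0 2 2 0 0 0 ∨ Pu7 (ind7 S) 2 0 2 0 0 0)) ∨
    ((6 ∈ S ∧ ¬ D7q2_A S ∧ (4 ∈ S ∧ 5 ∈ S)) ∧ Pu7 (ind7 S) 2 2 0 0 0 0) ∨
    ((6 ∈ S ∧ ¬ D7q2_A S ∧ ¬ (4 ∈ S ∧ 5 ∈ S) ∧ (4 ∈ S ∨ 5 ∈ S)) ∧
      (Pu7 (ind7 S) 2 1 1 0 1 1 ∨ Pu7 (ind7 S) 1 2 1 1 0 1)) ∨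
    ((6 ∈ S ∧ ¬ D7q2_A S ∧ ¬ (4 ∈ S ∧ 5 ∈ S) ∧ ¬ (4 ∈ S ∨ 5 ∈ S)) ∧
      Pu7 (ind7 S) 1 1 2 1 1 0) ∨
    ((6 ∉ S ∧ ((4 ∈ S ∧ 5 ∈ S) ∨ (D7q2_A S ∧ (4 ∈ S ∨ 5 ∈ S)))) ∧
      (Pu7 (ind7 S) 2 0 1 0 0 1 ∨ Pu7 (ind7 S) 0 2 1 0 0 1 ∨
      Pu7 (ind7 S) 1 0 2 1 0 0 ∨ Pu7 (ind7 S) 0 1 2 0 1 0)) ∨
    ((6 ∉ S ∧ ¬ ((4 ∈ S ∧ 5 ∈ S) ∨ (D7q2_A S ∧ (4 ∈ S ∨ 5 ∈ S))) ∧ D7q2_A S) ∧
      (Pu7 (ind7 S) 2 1 0 0 1 0 ∨ Pu7 (ind7 S) 1 2 0 1 0 0)) ∨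
    ((6 ∉ S ∧ ¬ ((4 ∈ S ∧ 5 ∈ S) ∨ (D7q2_A S ∧ (4 ∈ S ∨ 5 ∈ S))) ∧ ¬ D7q2_A S) ∧
      Pu7 (ind7 S) 1 1 1 1 1 1) := by
  revert S
  decide +kernel

theorem set7_three (S : Finset (Fin 7)) (hS : S.card = 3) :
    (G73 S = (fun _ => 8108 / 10000) ∧ (Pu7 (ind7 S) 0 2 2 0 0 0 ∨ Pu7 (ind7 S) 2 0 2 0 0 0)) ∨
    (G73 S = (fun _ => 1) ∧ Pu7 (ind7 S) 2 2 0 0 0 0) ∨
    (G73 S = (fun _ => 999 / 1000) ∧ (Pu7 (ind7 S) 2 1 1 0 1 1 ∨ Pu7 (ind7 S) 1 2 1 1 0 1)) ∨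
    (G73 S = (fun _ => 98 / 100) ∧ Pu7 (ind7 S) 1 1 2 1 1 0) ∨
    (G73 S = (fun _ => 9946 / 10000) ∧ (Pu7 (ind7 S) 2 0 1 0 0 1 ∨ Pu7 (ind7 S) 0 2 1 0 0 1 ∨
      Pu7 (ind7 S) 1 0 2 1 0 0 ∨ Pu7 (ind7 S) 0 1 2 0 1 0)) ∨
    (G73 S = (fun t => if 5 / 8 ≤ |t| then 10784 / 10000 else 11568 / 10000) ∧
      (Pu7 (ind7 S) 2 1 0 0 1 0 ∨ Pu7 (ind7 S) 1 2 0 1 0 0)) ∨
    (G73 S = (fun t => if 5 / 8 ≤ |t| then 1 else 97 / 100) ∧ Pu7 (ind7 S) 1 1 1 1 1 1) := by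
  rcases D7q2_three S hS with ⟨⟨h6, hA⟩, h⟩ | ⟨⟨h6, hA, h45⟩, h⟩ | ⟨⟨h6, hA, h45, h45'⟩, h⟩ |
    ⟨⟨h6, hA, h45, h45'⟩, h⟩ | ⟨⟨h6, hB⟩, h⟩ | ⟨⟨h6, hB, hA⟩, h⟩ | ⟨⟨h6, hB, hA⟩, h⟩ <;>
    simp only [D7q2_A] at *
  · refine Or.inl ⟨?_, h⟩
    funext t
    unfold G73
    rw [if_pos h6, if_pos hA]
  · refine Or.inr (Or.inl ⟨?_, h⟩)
    funext t
    unfold G73
    rw [if_pos h6, if_neg hA, if_pos h45]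
  · refine Or.inr (Or.inr (Or.inl ⟨?_, h⟩))
    funext t
    unfold G73
    rw [if_pos h6, if_neg hA, if_neg h45, if_pos h45']
  · refine Or.inr (Or.inr (Or.inr (Or.inl ⟨?_, h⟩)))
    funext t
    unfold G73
    rw [if_pos h6, if_neg hA, if_neg h45, if_neg h45']
  · refine Or.inr (Or.inr (Or.inr (Or.inr (Or.inl ⟨?_, h⟩))))
    funext t
    unfold G73
    rw [if_neg h6, if_pos hB]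
  · refine Or.inr (Or.inr (Or.inr (Or.inr (Or.inr (Or.inl ⟨?_, h⟩)))))
    funext t
    unfold G73
    rw [if_neg h6, if_neg hB, if_pos hA]
  · refine Or.inr (Or.inr (Or.inr (Or.inr (Or.inr (Or.inr ⟨?_, h⟩)))))
    funext t
    unfold G73
    rw [if_neg h6, if_neg hB, if_neg hA]

theorem D7q2_dif (i j : Fin 7) (hij : i ≠ j) :
    (blk7 i = blk7 j ∧ Cl7 (dif7 i j) ∧
      ((|a7 (dif7 i j)| = 2 ∧ b7 (dif7 i j) = 0 ∧ c7 (dif7 i j) = 0) ∨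
        (a7 (dif7 i j) = 0 ∧ |b7 (dif7 i j)| = 2 ∧ c7 (dif7 i j) = 0) ∨
        (a7 (dif7 i j) = 0 ∧ b7 (dif7 i j) = 0 ∧ |c7 (dif7 i j)| = 2))) ∨
    ((¬ blk7 i = blk7 j ∧ (blk7 i = 3 ∨ blk7 j = 3) ∧ (blk7 i = 2 ∨ blk7 j = 2)) ∧
      Pu7 (dif7 i j) 2 2 3 0 0 1) ∨
    ((¬ blk7 i = blk7 j ∧ (blk7 i = 3 ∨ blk7 j = 3) ∧ ¬ (blk7 i = 2 ∨ blk7 j = 2)) ∧
      (Pu7 (dif7 i j) 3 2 2 1 0 0 ∨ Pu7 (dif7 i j) 2 3 2 0 1 0)) ∨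
    ((¬ blk7 i = blk7 j ∧ ¬ (blk7 i = 3 ∨ blk7 j = 3) ∧ (blk7 i = 2 ∨ blk7 j = 2)) ∧
      (Pu7 (dif7 i j) 1 0 (-1) 1 0 1 ∨ Pu7 (dif7 i j) 0 1 (-1) 0 1 1)) ∨
    ((¬ blk7 i = blk7 j ∧ ¬ (blk7 i = 3 ∨ blk7 j = 3) ∧ ¬ (blk7 i = 2 ∨ blk7 j = 2)) ∧
      Pu7 (dif7 i j) 1 (-1) 0 1 1 0) := by
  revert i j
  decide +kernel

theorem dif7_cases (i j : Fin 7) (hij : i ≠ j) :
    (H7 i j = (fun t => if 3 / 4 ≤ |t| then 5 / 2 else 0) ∧ Cl7 (dif7 i j) ∧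
      ((|a7 (dif7 i j)| = 2 ∧ b7 (dif7 i j) = 0 ∧ c7 (dif7 i j) = 0) ∨
        (a7 (dif7 i j) = 0 ∧ |b7 (dif7 i j)| = 2 ∧ c7 (dif7 i j) = 0) ∨
        (a7 (dif7 i j) = 0 ∧ b7 (dif7 i j) = 0 ∧ |c7 (dif7 i j)| = 2))) ∨
    (H7 i j = (fun t => if 3 / 4 ≤ |t| then 6623 / 10000 else 7531 / 10000) ∧
      Pu7 (dif7 i j) 2 2 3 0 0 1) ∨
    (H7 i j = (fun t => if 3 / 4 ≤ |t| then 6014 / 10000 else 8130 / 10000) ∧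
      (Pu7 (dif7 i j) 3 2 2 1 0 0 ∨ Pu7 (dif7 i j) 2 3 2 0 1 0)) ∨
    (H7 i j = (fun t => if 3 / 4 ≤ |t| then 798 / 1000 else 12815 / 10000) ∧
      (Pu7 (dif7 i j) 1 0 (-1) 1 0 1 ∨ Pu7 (dif7 i j) 0 1 (-1) 0 1 1)) ∨
    (H7 i j = (fun t => if 3 / 4 ≤ |t| then 8042 / 10000 else 11568 / 10000) ∧
      Pu7 (dif7 i j) 1 (-1) 0 1 1 0) := by
  rcases D7q2_dif i j hij with ⟨h1, h⟩ | ⟨⟨h1, h2, h3⟩, h⟩ | ⟨⟨h1, h2, h3⟩, h⟩ |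
    ⟨⟨h1, h2, h3⟩, h⟩ | ⟨⟨h1, h2, h3⟩, h⟩
  · refine Or.inl ⟨?_, h⟩
    funext t
    unfold H7
    rw [if_pos h1]
  · refine Or.inr (Or.inl ⟨?_, h⟩)
    funext t
    unfold H7
    rw [if_neg h1, if_pos h2, if_pos h3]
  · refine Or.inr (Or.inr (Or.inl ⟨?_, h⟩))
    funext t
    unfold H7
    rw [if_neg h1, if_pos h2, if_neg h3]
  · refine Or.inr (Or.inr (Or.inr (Or.inl ⟨?_, h⟩)))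
    funext t
    unfold H7
    rw [if_neg h1, if_neg h2, if_pos h3]
  · refine Or.inr (Or.inr (Or.inr (Or.inr ⟨?_, h⟩)))
    funext t
    unfold H7
    rw [if_neg h1, if_neg h2, if_neg h3]

end Pool.Agent.helper49.Slope
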