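import Pool.Agent.helper49.Slope.D7a
import Pool.Agent.helper49.Slope.D7m
import Pool.Agent.helper49.Slope.D7n
import Pool.Agent.helper49.Slope.D7j2
import Pool.Agent.helper49.Slope.D7k2
import Pool.Agent.helper49.Slope.D7o2
import Pool.Agent.helper49.Slope.D7p
import Pool.Agent.helper49.Slope.D7q
import Pool.Agent.helper49.Slope.D7q2

/-!
MP_aedd95_co (slope of k-fold hyperplane covers of triangular grids), module D7r.
The law `D_7` before symmetrisation: loads of the special vectors.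

PROOFS. General step: if `Pu7 u x y z a b c` then `L7 (x7 u) .. (c7 u) t = L7 x y z a b c t` (`L7_neg`,
`L7_abs`; note `|a'| = a` for the numbers of the table) — prove this first as
`D7r_pt (h : Pu7 u x y z a b c) (t) : L7 (x7 u) (y7 u) (z7 u) (a7 u) (b7 u) (c7 u) t = L7 x y z a b c t`
(for `a, b, c ≥ 0`), and `¬ Cl7 u` when `(x,y,z) ≠ 0`; then the third clause of `Mu7` and `HasLoad.mono`.
`load_one`: `L7_le_one`, `parity7`. `load_ind2`: `set7_two`: `TV7`: `L7_221`; `TU7`: `L7_122` and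
`L7_swap`; value `1`: `L7_le` with `E7_200`, `E7_swap`, `E7_002`, and `L7_110`; `TF7`: `L7_101` and
`L7_swap`. `load_ind3`: `set7_three`: `E7_022` (and swap); `E7_220`; `L7_sp_211` (and swap); `L7_sp_112`;
`E7_201`, `E7_102` (and swaps); `(2,1,0)`: `L7_210_far` for `|t| ≥ 5/8`, `L7_le` and `E7_210` else;
`(1,1,1)`: `L7_111`. `load_dif`: `dif7_cases`: closures: fourth clause of `Mu7` with
`closure7_supp_*` (`a7 = 2 x`, `|x| = 1`); `(2,2,3)`: `L7_223_far`, `E7_223`; `(3,2,2)`: `L7_322_far`,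
`E7_322` (and swaps); `(1,0,-1)`: `L7_10m1_far`, `E7_10m1`; `(1,-1,0)`: `L7_1m10_far`, `E7_1m10`.
`load_vec`: `w = vec7 A B C ∘ σ`. `w 6 ≠ 0`: `|x+y+z| = 7 |w 6| ≥ 7` (`vec7_sum`), so `¬ Cl7 w`,
`L7_le`, `E7_seven`. `w 6 = 0` and `Cl7 w`: `vec7_closure` and `closure7_fst/snd/thd`:
`5/2/|x| ≤ 5/2`. Otherwise `load_one` with `vec7_not_ex`.
-/

set_option autoImplicit false

open MeasureTheory ProbabilityTheory
open scoped ENNReal

namespace Pool.Agent.helper49.Slope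

/-- the load depends only on the pattern -/
theorem D7r_pt {u : Fin 7 → ℤ} {x y z a b c : ℤ} (h : Pu7 u x y z a b c) (t : ℝ) :
    L7 (x7 u) (y7 u) (z7 u) (a7 u) (b7 u) (c7 u) t = L7 x y z a b c t := by
  obtain ⟨h1, ha, hb, hc⟩ := h
  rw [L7_abs, ha, hb, hc]
  rcases h1 with ⟨hx, hy, hz⟩ | ⟨hx, hy, hz⟩
  · rw [hx, hy, hz]
  · rw [hx, hy, hz, ← L7_neg]

theorem D7r_ncl {u : Fin 7 → ℤ} {x y z a b c : ℤ} (h : Pu7 u x y z a b c)
    (h0 : ¬ (x = 0 ∧ y = 0 ∧ z = 0)) : ¬ (x7 u = 0 ∧ y7 u = 0 ∧ z7 u = 0) := by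
  obtain ⟨h1, -⟩ := h
  rintro ⟨hx, hy, hz⟩
  apply h0
  rcases h1 with ⟨h2, h3, h4⟩ | ⟨h2, h3, h4⟩
  · exact ⟨by omega, by omega, by omega⟩
  · exact ⟨by omega, by omega, by omega⟩

theorem D7r_load {μ : Measure (Fin 7 → ℝ)} (hm : Mu7 μ) {u : Fin 7 → ℤ} {x y z a b c : ℤ}
    (h : Pu7 u x y z a b c) (h0 : ¬ (x = 0 ∧ y = 0 ∧ z = 0)) {f : ℝ → ℝ≥0∞}
    (hf : ∀ t, L7 x y z a b c t ≤ f t) : HasLoad (μ.map (lin u)) f := by
  refine (hm.2.2.1 u (D7r_ncl h h0)).mono fun t => ?_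
  rw [D7r_pt h]
  exact hf t

theorem D7r_load' {μ : Measure (Fin 7 → ℝ)} (hm : Mu7 μ) {u : Fin 7 → ℤ} {x y z a b c : ℤ}
    (h : Pu7 u x y z a b c) (h0 : ¬ (x = 0 ∧ y = 0 ∧ z = 0)) {f : ℝ → ℝ≥0∞}
    (hf : ∀ t, L7 y x z b a c t ≤ f t) : HasLoad (μ.map (lin u)) f :=
  D7r_load hm h h0 fun t => by rw [L7_swap]; exact hf t

theorem Mu7.load_one {μ : Measure (Fin 7 → ℝ)} (h : Mu7 μ) (u : Fin 7 → ℤ) (h0 : ¬ Cl7 u)
    (hA : ¬ ExA7 (x7 u) (y7 u) (z7 u) (a7 u) (b7 u) (c7 u))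
    (hD : ¬ ExD7 (x7 u) (y7 u) (z7 u) (a7 u) (b7 u) (c7 u)) :
    HasLoad (μ.map (lin u)) (fun _ => 1) := by
  obtain ⟨p1, p2, p3⟩ := parity7 u
  exact (h.2.2.1 u h0).mono fun t => L7_le_one _ _ _ _ _ _ p1 p2 p3 h0 hA hD t

theorem Mu7.load_ind2 {μ : Measure (Fin 7 → ℝ)} (h : Mu7 μ) (S : Finset (Fin 7))
    (hS : S.card = 2) : HasLoad (μ.map (lin (ind7 S))) (fun t => ENNReal.ofReal (G72 S t)) := by
  have e020 : E7 0 2 0 ≤ 1 := by
    rw [E7_swap]
    exact E7_200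
  rcases set7_two S hS with ⟨h6, h45, hp⟩ | ⟨h6, h45, hp⟩ | ⟨h6, h45, hp⟩ | ⟨h6, h45, hp⟩
  · have hG : G72 S = TV7 := by
      funext t
      unfold G72
      rw [if_pos h6, if_pos h45]
    rw [hG]
    exact D7r_load h hp (by decide) L7_221
  · have hG : G72 S = TU7 := by
      funext t
      unfold G72
      rw [if_pos h6, if_neg h45]
    rw [hG]
    rcases hp with hp | hp
    · exact D7r_load h hp (by decide) L7_122
    · exact D7r_load' h hp (by decide) L7_122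
  · have hG : G72 S = fun _ => 1 := by
      funext t
      unfold G72
      rw [if_neg h6, if_pos h45]
    rw [hG]
    simp only [ENNReal.ofReal_one]
    rcases hp with hp | hp | hp | hp
    · exact D7r_load h hp (by decide) fun t => (L7_le _ _ _ _ _ _ t).trans E7_200
    · exact D7r_load h hp (by decide) fun t => (L7_le _ _ _ _ _ _ t).trans e020
    · exact D7r_load h hp (by decide) fun t => (L7_le _ _ _ _ _ _ t).trans E7_002
    · exact D7r_load h hp (by decide) L7_110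
  · have hG : G72 S = TF7 := by
      funext t
      unfold G72
      rw [if_neg h6, if_neg h45]
    rw [hG]
    rcases hp with hp | hp
    · exact D7r_load h hp (by decide) L7_101
    · exact D7r_load' h hp (by decide) L7_101

theorem Mu7.load_ind3 {μ : Measure (Fin 7 → ℝ)} (h : Mu7 μ) (S : Finset (Fin 7))
    (hS : S.card = 3) : HasLoad (μ.map (lin (ind7 S))) (fun t => ENNReal.ofReal (G73 S t)) := by
  rcases set7_three S hS with ⟨hG, hp⟩ | ⟨hG, hp⟩ | ⟨hG, hp⟩ | ⟨hG, hp⟩ | ⟨hG, hp⟩ | ⟨hG, hp⟩ |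
    ⟨hG, hp⟩
  · rw [hG]
    rcases hp with hp | hp
    · exact D7r_load h hp (by decide) fun t => (L7_le _ _ _ _ _ _ t).trans E7_022
    · exact D7r_load' h hp (by decide) fun t => (L7_le _ _ _ _ _ _ t).trans E7_022
  · rw [hG]
    simp only [ENNReal.ofReal_one]
    exact D7r_load h hp (by decide) fun t => (L7_le _ _ _ _ _ _ t).trans E7_220
  · rw [hG]
    rcases hp with hp | hp
    · exact D7r_load h hp (by decide) fun t => L7_sp_211 _ _ _ (by decide) (by decide) t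
    · exact D7r_load' h hp (by decide) fun t => L7_sp_211 _ _ _ (by decide) (by decide) t
  · rw [hG]
    exact D7r_load h hp (by decide) fun t => L7_sp_112 _ _ _ (by decide) (by decide) t
  · rw [hG]
    rcases hp with hp | hp | hp | hp
    · exact D7r_load h hp (by decide) fun t => (L7_le _ _ _ _ _ _ t).trans E7_201
    · exact D7r_load' h hp (by decide) fun t => (L7_le _ _ _ _ _ _ t).trans E7_201
    · exact D7r_load h hp (by decide) fun t => (L7_le _ _ _ _ _ _ t).trans E7_102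
    · exact D7r_load' h hp (by decide) fun t => (L7_le _ _ _ _ _ _ t).trans E7_102
  · rw [hG]
    have h1 : ∀ t, L7 2 1 0 0 1 0 t ≤
        ENNReal.ofReal (if 5 / 8 ≤ |t| then 10784 / 10000 else 11568 / 10000) := by
      intro t
      split_ifs with ht
      · exact L7_210_far t ht
      · exact (L7_le _ _ _ _ _ _ t).trans E7_210
    rcases hp with hp | hp
    · exact D7r_load h hp (by decide) h1
    · exact D7r_load' h hp (by decide) h1
  · rw [hG]
    exact D7r_load h hp (by decide) L7_111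

theorem D7r_two {a : ℤ} (h : |a| = 2) : ∃ x : ℤ, |x| = 1 ∧ a = 2 * x := by
  rcases abs_eq (by norm_num : (0 : ℤ) ≤ 2) |>.1 h with h | h
  · exact ⟨1, by norm_num, by rw [h]; norm_num⟩
  · exact ⟨-1, by norm_num, by rw [h]; norm_num⟩

theorem Mu7.load_dif {μ : Measure (Fin 7 → ℝ)} (h : Mu7 μ) (i j : Fin 7) (hij : i ≠ j) :
    HasLoad (μ.map (lin (dif7 i j))) (fun t => ENNReal.ofReal (H7 i j t)) := by
  rcases dif7_cases i j hij with ⟨hH, hcl, hp⟩ | ⟨hH, hp⟩ | ⟨hH, hp⟩ | ⟨hH, hp⟩ | ⟨hH, hp⟩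
  · rw [hH, h.2.2.2 _ hcl.1 hcl.2.1 hcl.2.2]
    have h1 : ∀ z : ℝ, (if 3 / 4 ≤ |z| then ENNReal.ofReal (5 / 2) else 0) ≤
        ENNReal.ofReal (if 3 / 4 ≤ |z| then 5 / 2 else 0) := by
      intro z
      split_ifs
      · exact le_rfl
      · exact zero_le
    rcases hp with ⟨ha, hb, hc⟩ | ⟨ha, hb, hc⟩ | ⟨ha, hb, hc⟩
    · obtain ⟨x, hx, hax⟩ := D7r_two ha
      rw [hax, hb, hc]
      exact (closure7_supp_fst x hx).mono h1
    · obtain ⟨x, hx, hax⟩ := D7r_two hb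
      rw [hax, ha, hc]
      exact (closure7_supp_snd x hx).mono h1
    · obtain ⟨x, hx, hax⟩ := D7r_two hc
      rw [hax, ha, hb]
      exact (closure7_supp_thd x hx).mono h1
  · rw [hH]
    refine D7r_load h hp (by decide) fun t => ?_
    beta_reduce
    split_ifs with ht
    · exact L7_223_far t ht
    · exact (L7_le _ _ _ _ _ _ t).trans E7_223
  · rw [hH]
    have h1 : ∀ t, L7 3 2 2 1 0 0 t ≤
        ENNReal.ofReal (if 3 / 4 ≤ |t| then 6014 / 10000 else 8130 / 10000) := by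
      intro t
      split_ifs with ht
      · exact L7_322_far t ht
      · exact (L7_le _ _ _ _ _ _ t).trans E7_322
    rcases hp with hp | hp
    · exact D7r_load h hp (by decide) h1
    · exact D7r_load' h hp (by decide) h1
  · rw [hH]
    have h1 : ∀ t, L7 1 0 (-1) 1 0 1 t ≤
        ENNReal.ofReal (if 3 / 4 ≤ |t| then 798 / 1000 else 12815 / 10000) := by
      intro t
      split_ifs with ht
      · exact L7_10m1_far t ht
      · exact (L7_le _ _ _ _ _ _ t).trans E7_10m1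
    rcases hp with hp | hp
    · exact D7r_load h hp (by decide) h1
    · exact D7r_load' h hp (by decide) h1
  · rw [hH]
    refine D7r_load h hp (by decide) fun t => ?_
    beta_reduce
    split_ifs with ht
    · exact L7_1m10_far t ht
    · exact (L7_le _ _ _ _ _ _ t).trans E7_1m10

theorem D7r_52 {x : ℤ} (hx : x ≠ 0) :
    ENNReal.ofReal (5 / 2 / |(x : ℝ)|) ≤ ENNReal.ofReal (5 / 2) := by
  apply ENNReal.ofReal_le_ofReal
  have h1 : (1 : ℝ) ≤ |(x : ℝ)| := by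
    rw [← Int.cast_abs]
    exact_mod_cast Int.one_le_abs hx
  exact div_le_self (by norm_num) h1

theorem Mu7.load_vec {μ : Measure (Fin 7 → ℝ)} (h : Mu7 μ) (A B C : ℤ) (hA : 1 ≤ A)
    (hB : 1 ≤ B) (hC : 0 ≤ C) (σ : Equiv.Perm (Fin 7)) :
    HasLoad (μ.map (lin (vec7 A B C ∘ σ))) (fun _ => ENNReal.ofReal (K7 (vec7 A B C ∘ σ))) := by
  obtain ⟨w, hw⟩ : ∃ w : Fin 7 → ℤ, w = vec7 A B C ∘ σ := ⟨_, rfl⟩
  rw [← hw]
  unfold K7
  by_cases h6 : w 6 = 0
  · rw [if_neg (by simpa using h6)]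
    by_cases hcl : Cl7 w
    · rw [if_pos hcl]
      obtain ⟨e1, e2, e3, h0⟩ := vec7_closure A B C hA σ w hw h6 hcl
      rw [h.2.2.2 _ hcl.1 hcl.2.1 hcl.2.2, e1, e2, e3]
      rcases h0 with h0 | h0 | h0
      · exact (closure7_fst _ _ _ h0).mono fun _ => D7r_52 h0
      · exact (closure7_snd _ _ _ h0).mono fun _ => D7r_52 h0
      · exact (closure7_thd _ _ _ h0).mono fun _ => D7r_52 h0
    · rw [if_neg hcl]
      simp only [ENNReal.ofReal_one]
      obtain ⟨h1, h2⟩ := vec7_not_ex A B C hA hB hC σ w hw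
      exact h.load_one w hcl h1 h2
  · rw [if_pos h6]
    have h1 := vec7_sum A B C σ w hw
    have h2 : 7 ≤ |x7 w + y7 w + z7 w| := by
      rw [h1, abs_mul]
      have h3 := Int.one_le_abs h6
      have h4 : |(-7 : ℤ)| = 7 := by norm_num
      rw [h4]
      omega
    have h3 : ¬ (x7 w = 0 ∧ y7 w = 0 ∧ z7 w = 0) := by
      rintro ⟨hx, hy, hz⟩
      rw [hx, hy, hz] at h2
      norm_num at h2
    exact (h.2.2.1 w h3).mono fun t => (L7_le _ _ _ _ _ _ t).trans (E7_seven _ _ _ h2)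

end Pool.Agent.helper49.Slope
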