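import Mathlib

/-!
MP_aedd95_co (slope of k-fold hyperplane covers of triangular grids): definitions.
-/

set_option autoImplicit false

open MeasureTheory ProbabilityTheory
open scoped ENNReal

namespace Pool.Agent.helper49.Slope

/-! ### The problem -/

/-- The triangular grid `T_d(n)`. -/
def grid (d n : ℕ) : Set (Fin d → ℤ) := {x | (∀ i, 0 ≤ x i) ∧ ∑ i, x i ≤ (n : ℤ) - 1}

/-- Affine hyperplanes of `ℝ^d`. -/
def IsHyperplane {d : ℕ} (H : Set (Fin d → ℝ)) : Prop :=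
  ∃ a : Fin d → ℝ, a ≠ 0 ∧ ∃ b : ℝ, H = {x | ∑ i, a i * x i = b}

open Classical in
/-- `M` is a `k`-cover of `T_d(n)`. -/
def IsCover (d n k : ℕ) (M : Multiset (Set (Fin d → ℝ))) : Prop :=
  (∀ H ∈ M, IsHyperplane H) ∧
    ∀ x ∈ grid d n, k ≤ M.countP (fun H => (fun i => (x i : ℝ)) ∈ H)

/-- `f(n,d,k)`: the minimum cardinality of a `k`-cover of `T_d(n)`. -/
noncomputable def f (n d k : ℕ) : ℕ :=
  sInf {c | ∃ M : Multiset (Set (Fin d → ℝ)), IsCover d n k M ∧ Multiset.card M = c}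

/-- `C` is the slope `C_{d,k}`. -/
def SlopeIs (d k : ℕ) (C : ℝ) : Prop :=
  ∃ B : ℝ, ∀ n : ℕ, 1 ≤ n → |(f n d k : ℝ) - C * n| ≤ B

/-! ### Laws -/

/-- The linear form with integer coefficients `u`. -/
def lin {ι : Type} [Fintype ι] (u : ι → ℤ) (y : ι → ℝ) : ℝ := ∑ i, (u i : ℝ) * y i

/-- The law `ν` on the line has load at most `f`, i.e. density at most `f/2`. -/
def HasLoad (ν : Measure ℝ) (f : ℝ → ℝ≥0∞) : Prop :=
  ν ≤ volume.withDensity (fun z => f z / 2)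

/-- A law on `[-1,1]^ι` with coordinate sum `x`. -/
def Supp {ι : Type} [Fintype ι] (μ : Measure (ι → ℝ)) (x : ℝ) : Prop :=
  ∀ᵐ y ∂μ, (∀ i, |y i| ≤ 1) ∧ ∑ i, y i = x

/-- The law required by the lower bound. -/
def LawOK (ι : Type) [Fintype ι] : Prop :=
  ∃ μ : Measure (ι → ℝ), IsProbabilityMeasure μ ∧ Supp μ 0 ∧
    ∀ u : ι → ℤ, (∃ i j, u i ≠ u j) → HasLoad (μ.map (lin u)) (fun _ => 1)

end Pool.Agent.helper49.Slope
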