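import Pool.Agent.helper49.Slope.Defs

/-!
MP_aedd95_co (slope of k-fold hyperplane covers of triangular grids), module DefsA.
Definitions of part A.
-/

set_option autoImplicit false

open MeasureTheory ProbabilityTheory
open scoped ENNReal

namespace Pool.Agent.helper49.Slope

/-- number of points of the box `{0..m-1}^d` with `u·z = c` -/
def cnt (d m : ℕ) (u : Fin d → ℤ) (c : ℤ) : ℕ :=
  ((Finset.univ : Finset (Fin d → Fin m)).filter (fun z => ∑ i, u i * (z i : ℤ) = c)).card

/-- the lattice point attached to `y` and `z` -/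
noncomputable def pt (d m : ℕ) (A : ℝ) (y : Fin (d + 1) → ℝ) (z : Fin d → Fin m) : Fin d → ℤ :=
  fun i => ⌊A * (1 + y i.castSucc)⌋ + (z i : ℤ)

end Pool.Agent.helper49.Slope
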