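import Pool.Agent.helper49.Slope.Defs

/-!
Definitions for the construction of the laws (parts B - H).
-/

set_option autoImplicit false

open MeasureTheory ProbabilityTheory
open scoped ENNReal

namespace Pool.Agent.helper49.Slope

/-- law of the sum of two independent variables -/
noncomputable def cnv (μ ν : Measure ℝ) : Measure ℝ := (μ.prod ν).map (fun p => p.1 + p.2)

/-- load function of the uniform law on `[D-V, D+V]` -/
noncomputable def ker (D V z : ℝ) : ℝ≥0∞ := if |z - D| ≤ V then ENNReal.ofReal (1 / V) else 0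

/-- load profile of one coordinate of a block: `1 + a` on `[0,1]`, `1 - a` on `[-1,0)` -/
noncomputable def sprof (a z : ℝ) : ℝ≥0∞ :=
  if |z| ≤ 1 then (if 0 ≤ z then ENNReal.ofReal (1 + a) else ENNReal.ofReal (1 - a)) else 0

/-- load profile of the sum of two independent coordinates -/
noncomputable def ss (a b z : ℝ) : ℝ :=
  if |z| ≤ 1 then 1 - |z| / 2 + (a + b) * z / 2 + a * b * (3 * |z| - 2) / 2
  else if |z| ≤ 2 then (2 - |z|) * (if 0 ≤ z then (1 + a) * (1 + b) else (1 - a) * (1 - b)) / 2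
  else 0

/-- affine singles (constants included): all values but possibly one are equal -/
def AffSingle {ι : Type} (u : ι → ℤ) : Prop := ∃ (i : ι) (t : ℤ), ∀ j, j ≠ i → u j = t

/-- everything else -/
def Rich {ι : Type} (u : ι → ℤ) : Prop := ¬ AffSingle u

/-- squared length of `∑ u_i v_i` -/
def vsq {ι : Type} [Fintype ι] (v : ι → Fin 3 → ℝ) (u : ι → ℤ) : ℝ :=
  ∑ k, (∑ i, (u i : ℝ) * v i k) ^ 2

/-- A family of laws indexed by the coordinate sum `x`, `|x| ≤ h`. -/
def Fam (ι : Type) [Fintype ι] (h : ℝ) : Prop :=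
  ∃ κ : Kernel ℝ (ι → ℝ), IsMarkovKernel κ ∧ ∀ x : ℝ, |x| ≤ h →
    Supp (κ x) x ∧
    (∀ i : ι, HasLoad ((κ x).map (fun y => y i)) (sprof (2 / (Fintype.card ι : ℝ) * x))) ∧
    ∀ u : ι → ℤ, Rich u → HasLoad ((κ x).map (lin u)) (fun _ => 1)

end Pool.Agent.helper49.Slope
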