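import Pool.Agent.helper49.Slope.DefsJ

/-!
MP_aedd95_co, definitions for the law `D_6`. The pairs are `{0,1}` and `{2,3}`, the units are
`4, 5`. The parameters are `q = ((s₁,s₂),(η₁,η₂))`: two digits and two signs.
-/

set_option autoImplicit false

open MeasureTheory ProbabilityTheory
open scoped ENNReal

namespace Pool.Agent.helper49.Slope

/-- two independent digits -/
noncomputable abbrev lam2 : Measure (ℝ × ℝ) := (lam (1 / 8)).prod (lam (1 / 8))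

/-- the law of the parameters of `D_6` -/
noncomputable abbrev pi6 : Measure ((ℝ × ℝ) × (ℝ × ℝ)) := lam2.prod (sgnM.prod sgnM)

/-- the vectors of `D_6`: with `c = 1/2 + s₁`, `e = 1/2 + s₂`: `S₁ = (c,0,0)`, `S₂ = (x,y,0)`,
`|S₂| = e`, `S₁·S₂ = (1-4c²-4e²)/8`, units `-(S₁+S₂) ± (0,0,√(3/4))` -/
noncomputable def v6 (q : (ℝ × ℝ) × (ℝ × ℝ)) : Fin 6 → Fin 3 → ℝ :=
  let c := 1 / 2 + q.1.1
  let e := 1 / 2 + q.1.2
  let x := (1 - 4 * c ^ 2 - 4 * e ^ 2) / (8 * c)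
  let y := Real.sqrt (e ^ 2 - x ^ 2)
  let h := Real.sqrt (3 / 4)
  ![![c, 0, 0], ![c, 0, 0], ![x, y, 0], ![x, y, 0], ![-(c + x), -y, h], ![-(c + x), -y, -h]]

noncomputable def d6 (q : (ℝ × ℝ) × (ℝ × ℝ)) : Fin 6 → ℝ :=
  ![q.2.1 * (1 / 2 - q.1.1), -(q.2.1 * (1 / 2 - q.1.1)), q.2.2 * (1 / 2 - q.1.2),
    -(q.2.2 * (1 / 2 - q.1.2)), 0, 0]

/-- the five numbers attached to an integer vector: `P₁, P₂, r, a₁, a₂` -/
def m6 (u : Fin 6 → ℤ) : ℤ := u 0 + u 1 - u 4 - u 5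
def n6 (u : Fin 6 → ℤ) : ℤ := u 2 + u 3 - u 4 - u 5
def r6 (u : Fin 6 → ℤ) : ℤ := u 4 - u 5
def a6 (u : Fin 6 → ℤ) : ℤ := u 0 - u 1
def b6 (u : Fin 6 → ℤ) : ℤ := u 2 - u 3

/-- the squared length of `∑ u_i v_i` as a function of `P₁, P₂, r` and of the digits -/
noncomputable def W6 (m n r : ℤ) (s : ℝ × ℝ) : ℝ :=
  ((m : ℝ) - n) * ((1 / 2 + s.1) ^ 2 * m - (1 / 2 + s.2) ^ 2 * n) + (m : ℝ) * n / 4
    + 3 / 4 * (r : ℝ) ^ 2

/-- the centre `D = a η₁ (1/2-s₁) + b η₂ (1/2-s₂)` -/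
noncomputable def D6c (a b : ℤ) (q : (ℝ × ℝ) × (ℝ × ℝ)) : ℝ :=
  (a : ℝ) * (q.2.1 * (1 / 2 - q.1.1)) + (b : ℝ) * (q.2.2 * (1 / 2 - q.1.2))

/-- the load of `lin u` -/
noncomputable def L6 (m n r a b : ℤ) (z : ℝ) : ℝ≥0∞ :=
  ∫⁻ q, ker (D6c a b q) (Real.sqrt (W6 m n r q.1)) z ∂pi6

/-- average of the four kernels with centres `±A ± B` -/
noncomputable def k4 (A B V z : ℝ) : ℝ≥0∞ :=
  (ker (A + B) V z + ker (A - B) V z + ker (-A + B) V z + ker (-A - B) V z) / 4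

/-- the expectation of `1/V` -/
noncomputable def E6 (m n r : ℤ) : ℝ≥0∞ :=
  ∫⁻ s, ENNReal.ofReal (1 / Real.sqrt (W6 m n r s)) ∂lam2

/-- the vectors of type A -/
def TypeA6 (m n r a b : ℤ) : Prop :=
  r = 0 ∧ ((|m| = 2 ∧ n * 2 = m ∧ a = 0 ∧ |b| = 1) ∨ (|n| = 2 ∧ m * 2 = n ∧ |a| = 1 ∧ b = 0))

/-- the law before symmetrisation -/
def Mu6 (μ : Measure (Fin 6 → ℝ)) : Prop :=
  IsProbabilityMeasure μ ∧ Supp μ 0 ∧
  (∀ u : Fin 6 → ℤ, ¬ (m6 u = 0 ∧ n6 u = 0 ∧ r6 u = 0) →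
    HasLoad (μ.map (lin u)) (L6 (m6 u) (n6 u) (r6 u) (a6 u) (b6 u))) ∧
  (∀ u : Fin 6 → ℤ, m6 u = 0 → n6 u = 0 → r6 u = 0 →
    μ.map (lin u) = pi6.map (D6c (a6 u) (b6 u)))

/-- indicator function of a set -/
def ind6 (S : Finset (Fin 6)) : Fin 6 → ℤ := fun i => if i ∈ S then 1 else 0

/-- `e_i - e_j` -/
def dif6 (i j : Fin 6) : Fin 6 → ℤ := fun k => if k = i then 1 else if k = j then -1 else 0

/-- `(x,-x,y,-y,0,0)` -/
def vec6 (x y : ℤ) : Fin 6 → ℤ := ![x, -x, y, -y, 0, 0]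

/-- blocks: pair 1, pair 2, units -/
def blk6 : Fin 6 → Fin 3 := ![0, 0, 1, 1, 2, 2]

/-- bound for the load of the indicator function of a set of size 3 -/
noncomputable def G6 (S : Finset (Fin 6)) : ℝ :=
  if (4 ∈ S ↔ 5 ∈ S) then 1164 / 1000 else if (0 ∈ S ↔ 1 ∈ S) then 811 / 1000 else 915 / 1000

/-- bound for the load of `e_i - e_j` -/
noncomputable def H6 (i j : Fin 6) (z : ℝ) : ℝ :=
  if blk6 i = blk6 j then
    (if blk6 i = 2 then 578 / 1000 else if 3 / 4 ≤ |z| then 5 / 2 else 0)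
  else if blk6 i = 2 ∨ blk6 j = 2 then (if 3 / 4 ≤ |z| then 737 / 1000 else 1)
  else (if 3 / 4 ≤ |z| then 855 / 1000 else 1)

/-- bound for the load of `vec6 x y ∘ σ` as a function of the values `p, q` on the units -/
noncomputable def K6 (x p q : ℤ) : ℝ :=
  if p = 0 ∧ q = 0 then (if |x| = 1 then 5 / 2 else 5 / 4)
  else if 2 ≤ |p - q| then 578 / 1000 else 1

end Pool.Agent.helper49.Slope
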