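import Pool.Agent.helper49.Slope.DefsD6

/-!
MP_aedd95_co, definitions for the law `D_7`. The pairs are `{0,1}`, `{2,3}`, `{4,5}`, the unit is
`6`. The parameters are `q = ((s₁,s₂,s₃),(η₁,η₂,η₃))`: three digits and three signs.
-/

set_option autoImplicit false

open MeasureTheory ProbabilityTheory
open scoped ENNReal

namespace Pool.Agent.helper49.Slope

/-- three independent digits -/
noncomputable abbrev lam3 : Measure (ℝ × ℝ × ℝ) := (lam (1 / 8)).prod lam2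

/-- three independent signs -/
noncomputable abbrev sgn3 : Measure (ℝ × ℝ × ℝ) := sgnM.prod (sgnM.prod sgnM)

/-- the law of the parameters of `D_7` -/
noncomputable abbrev pi7 : Measure ((ℝ × ℝ × ℝ) × (ℝ × ℝ × ℝ)) := lam3.prod sgn3

/-- all digits are in range -/
def R7 (s : ℝ × ℝ × ℝ) : Prop := |s.1| ≤ 1 / 8 ∧ |s.2.1| ≤ 1 / 8 ∧ |s.2.2| ≤ 1 / 8

/-- the six numbers attached to an integer vector -/
def x7 (u : Fin 7 → ℤ) : ℤ := u 0 + u 1 - 2 * u 6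
def y7 (u : Fin 7 → ℤ) : ℤ := u 2 + u 3 - 2 * u 6
def z7 (u : Fin 7 → ℤ) : ℤ := u 4 + u 5 - 2 * u 6
def a7 (u : Fin 7 → ℤ) : ℤ := u 0 - u 1
def b7 (u : Fin 7 → ℤ) : ℤ := u 2 - u 3
def c7 (u : Fin 7 → ℤ) : ℤ := u 4 - u 5

/-- the squared length of `∑ u_i v_i` as a function of `x, y, z` and of the digits -/
noncomputable def W7 (x y z : ℤ) (s : ℝ × ℝ × ℝ) : ℝ :=
  (1 / 2 + s.1) ^ 2 * (((x : ℝ) - y) * (x - z)) + (1 / 2 + s.2.1) ^ 2 * (((y : ℝ) - x) * (y - z))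
    + (1 / 2 + s.2.2) ^ 2 * (((z : ℝ) - x) * (z - y)) + (z : ℝ) * (x + y) / 8

/-- the centre -/
noncomputable def D7c (a b c : ℤ) (q : (ℝ × ℝ × ℝ) × (ℝ × ℝ × ℝ)) : ℝ :=
  (a : ℝ) * (q.2.1 * (1 / 2 - q.1.1)) + (b : ℝ) * (q.2.2.1 * (1 / 2 - q.1.2.1))
    + (c : ℝ) * (q.2.2.2 * (1 / 2 - q.1.2.2))

/-- average of the eight kernels with centres `±A ± B ± C` -/
noncomputable def k8 (A B C V t : ℝ) : ℝ≥0∞ := (k4 A B V (t - C) + k4 A B V (t + C)) / 2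

/-- the load of `lin u` -/
noncomputable def L7 (x y z a b c : ℤ) (t : ℝ) : ℝ≥0∞ :=
  ∫⁻ q, ker (D7c a b c q) (Real.sqrt (W7 x y z q.1)) t ∂pi7

/-- the integrand of `L7` after averaging over the signs -/
noncomputable def K8 (x y z a b c : ℤ) (t : ℝ) (s : ℝ × ℝ × ℝ) : ℝ≥0∞ :=
  k8 (a * (1 / 2 - s.1)) (b * (1 / 2 - s.2.1)) (c * (1 / 2 - s.2.2)) (Real.sqrt (W7 x y z s)) t

/-- `1/V` -/
noncomputable def I7 (x y z : ℤ) (s : ℝ × ℝ × ℝ) : ℝ≥0∞ :=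
  ENNReal.ofReal (1 / Real.sqrt (W7 x y z s))

/-- the expectation of `1/V` -/
noncomputable def E7 (x y z : ℤ) : ℝ≥0∞ := ∫⁻ s, I7 x y z s ∂lam3

/-- `(x,y,z) = ±(x',y',z')`, `|a| = a'`, `|b| = b'`, `|c| = c'` -/
def Pt7 (x y z a b c x' y' z' a' b' c' : ℤ) : Prop :=
  ((x = x' ∧ y = y' ∧ z = z') ∨ (x = -x' ∧ y = -y' ∧ z = -z')) ∧ |a| = a' ∧ |b| = b' ∧ |c| = c'

/-- exceptional vectors of the types X2 and X3 -/
def ExA7 (x y z a b c : ℤ) : Prop :=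
  Pt7 x y z a b c 1 0 1 1 0 1 ∨ Pt7 x y z a b c 0 1 1 0 1 1 ∨ Pt7 x y z a b c 2 2 1 0 0 1 ∨
  Pt7 x y z a b c 2 1 0 0 1 0 ∨ Pt7 x y z a b c 1 2 0 1 0 0 ∨ Pt7 x y z a b c 1 1 1 1 1 1

/-- exceptional vectors of the type XD -/
def ExD7 (x y z a b c : ℤ) : Prop :=
  Pt7 x y z a b c 1 (-1) 0 1 1 0 ∨ Pt7 x y z a b c 1 0 (-1) 1 0 1 ∨ Pt7 x y z a b c 0 1 (-1) 0 1 1

/-- the coefficients of the digits in `W7` and 64 times the minimum of `W7` -/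
def l71 (x y z : ℤ) : ℤ := (x - y) * (x - z)
def l72 (x y z : ℤ) : ℤ := (y - x) * (y - z)
def l73 (x y z : ℤ) : ℤ := (z - x) * (z - y)
def g7 (l : ℤ) : ℤ := if 0 ≤ l then 9 * l else 25 * l
def mm7 (x y z : ℤ) : ℤ := 8 * z * (x + y) + g7 (l71 x y z) + g7 (l72 x y z) + g7 (l73 x y z)

/-- the 20 special patterns -/
def spl7 : List (ℤ × ℤ × ℤ) :=
  [(1, 0, 0), (0, 0, 1), (1, 1, 0), (1, 1, 1), (1, 0, 1), (1, -1, 0), (1, 0, -1), (1, 1, -1),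
    (2, 1, 0), (2, 2, 1), (1, 1, 2), (2, 1, 1), (2, 1, 2), (2, 0, 1), (1, 0, 2), (2, 1, -1),
    (2, 0, -1), (1, 0, -2), (3, 1, -1), (2, 0, -2)]

/-- special pattern up to the sign and the exchange of the first two -/
def Sp7 (x y z : ℤ) : Prop :=
  (x, y, z) ∈ spl7 ∨ (-x, -y, -z) ∈ spl7 ∨ (y, x, z) ∈ spl7 ∨ (-y, -x, -z) ∈ spl7

instance (x y z : ℤ) : Decidable (Sp7 x y z) := by unfold Sp7; infer_instance

/-- the law before symmetrisation -/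
def Mu7 (μ : Measure (Fin 7 → ℝ)) : Prop :=
  IsProbabilityMeasure μ ∧ Supp μ 0 ∧
  (∀ u : Fin 7 → ℤ, ¬ (x7 u = 0 ∧ y7 u = 0 ∧ z7 u = 0) →
    HasLoad (μ.map (lin u)) (L7 (x7 u) (y7 u) (z7 u) (a7 u) (b7 u) (c7 u))) ∧
  (∀ u : Fin 7 → ℤ, x7 u = 0 → y7 u = 0 → z7 u = 0 →
    μ.map (lin u) = pi7.map (D7c (a7 u) (b7 u) (c7 u)))

/-- indicator function of a set -/
def ind7 (S : Finset (Fin 7)) : Fin 7 → ℤ := fun i => if i ∈ S then 1 else 0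

/-- `e_i - e_j` -/
def dif7 (i j : Fin 7) : Fin 7 → ℤ := fun k => if k = i then 1 else if k = j then -1 else 0

/-- `(x,-x,y,-y,z,-z,0)` -/
def vec7 (x y z : ℤ) : Fin 7 → ℤ := ![x, -x, y, -y, z, -z, 0]

/-- blocks: pair 1, pair 2, pair 3, unit -/
def blk7 : Fin 7 → Fin 4 := ![0, 0, 1, 1, 2, 2, 3]

/-- the load of one digit: squared half length `κ + c²`, centres `±(1-c)` of the same digit -/
noncomputable def U7 (κ t : ℝ) : ℝ≥0∞ :=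
  ∫⁻ s, (ker (1 / 2 - s) (Real.sqrt (κ + (1 / 2 + s) ^ 2)) t
    + ker (-(1 / 2 - s)) (Real.sqrt (κ + (1 / 2 + s) ^ 2)) t) / 2 ∂(lam (1 / 8))

/-- `E (s₁ + s₂ - t)₊` -/
noncomputable def G7 (t : ℝ) : ℝ≥0∞ := ∫⁻ s, ENNReal.ofReal (s.1 + s.2 - t) ∂lam2

/-- table for `L(1,0,1;1,0,1)` -/
noncomputable def TF7 (t : ℝ) : ℝ :=
  if |t| ≤ 32 / 100 then 9609 / 10000 else if |t| ≤ 355 / 1000 then 10062 / 10000 else
  if |t| ≤ 38 / 100 then 10387 / 10000 else if |t| ≤ 40 / 100 then 10640 / 10000 else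
  if |t| ≤ 42 / 100 then 10881 / 10000 else if |t| ≤ 435 / 1000 then 11051 / 10000 else
  if |t| ≤ 45 / 100 then 11211 / 10000 else if |t| ≤ 465 / 1000 then 11358 / 10000 else
  if |t| ≤ 48 / 100 then 11492 / 10000 else if |t| ≤ 50 / 100 then 11647 / 10000 else
  if |t| ≤ 525 / 1000 then 11804 / 10000 else 12162 / 10000

/-- table for `L(1,2,2;1,0,0)` -/
noncomputable def TU7 (t : ℝ) : ℝ :=
  if |t| ≤ 32 / 100 then 9943 / 10000 else if |t| ≤ 355 / 1000 then 9928 / 10000 else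
  if |t| ≤ 38 / 100 then 9522 / 10000 else if |t| ≤ 40 / 100 then 9223 / 10000 else
  if |t| ≤ 42 / 100 then 8978 / 10000 else if |t| ≤ 435 / 1000 then 8729 / 10000 else
  if |t| ≤ 45 / 100 then 8539 / 10000 else if |t| ≤ 465 / 1000 then 8347 / 10000 else
  if |t| ≤ 48 / 100 then 8153 / 10000 else if |t| ≤ 50 / 100 then 7957 / 10000 else
  if |t| ≤ 525 / 1000 then 7692 / 10000 else 7356 / 10000

/-- table for `L(2,2,1;0,0,1)` -/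
noncomputable def TV7 (t : ℝ) : ℝ :=
  if |t| ≤ 32 / 100 then 11468 / 10000 else if |t| ≤ 355 / 1000 then 9508 / 10000 else
  if |t| ≤ 38 / 100 then 9004 / 10000 else if |t| ≤ 40 / 100 then 8638 / 10000 else
  if |t| ≤ 42 / 100 then 8341 / 10000 else if |t| ≤ 435 / 1000 then 8042 / 10000 else
  if |t| ≤ 45 / 100 then 7816 / 10000 else if |t| ≤ 465 / 1000 then 7588 / 10000 else
  if |t| ≤ 48 / 100 then 7358 / 10000 else if |t| ≤ 50 / 100 then 7128 / 10000 else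
  if |t| ≤ 525 / 1000 then 6818 / 10000 else 6427 / 10000

/-- bound for the load of the indicator function of a set of size 2 -/
noncomputable def G72 (S : Finset (Fin 7)) (t : ℝ) : ℝ :=
  if 6 ∈ S then (if 4 ∈ S ∨ 5 ∈ S then TV7 t else TU7 t)
  else if (4 ∈ S ↔ 5 ∈ S) then 1 else TF7 t

/-- bound for the load of the indicator function of a set of size 3 -/
noncomputable def G73 (S : Finset (Fin 7)) (t : ℝ) : ℝ :=
  if 6 ∈ S then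
    (if (0 ∈ S ∧ 1 ∈ S) ∨ (2 ∈ S ∧ 3 ∈ S) then 8108 / 10000 else if 4 ∈ S ∧ 5 ∈ S then 1 else
      if 4 ∈ S ∨ 5 ∈ S then 999 / 1000 else 98 / 100)
  else if (4 ∈ S ∧ 5 ∈ S) ∨ (((0 ∈ S ∧ 1 ∈ S) ∨ (2 ∈ S ∧ 3 ∈ S)) ∧ (4 ∈ S ∨ 5 ∈ S)) then
    9946 / 10000
  else if (0 ∈ S ∧ 1 ∈ S) ∨ (2 ∈ S ∧ 3 ∈ S) then
    (if 5 / 8 ≤ |t| then 10784 / 10000 else 11568 / 10000)
  else (if 5 / 8 ≤ |t| then 1 else 97 / 100)

/-- bound for the load of `e_i - e_j` -/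
noncomputable def H7 (i j : Fin 7) (t : ℝ) : ℝ :=
  if blk7 i = blk7 j then (if 3 / 4 ≤ |t| then 5 / 2 else 0)
  else if blk7 i = 3 ∨ blk7 j = 3 then
    (if blk7 i = 2 ∨ blk7 j = 2 then (if 3 / 4 ≤ |t| then 6623 / 10000 else 7531 / 10000)
    else (if 3 / 4 ≤ |t| then 6014 / 10000 else 8130 / 10000))
  else if blk7 i = 2 ∨ blk7 j = 2 then (if 3 / 4 ≤ |t| then 798 / 1000 else 12815 / 10000)
  else (if 3 / 4 ≤ |t| then 8042 / 10000 else 11568 / 10000)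

/-- closures -/
def Cl7 (u : Fin 7 → ℤ) : Prop := x7 u = 0 ∧ y7 u = 0 ∧ z7 u = 0

instance (u : Fin 7 → ℤ) : Decidable (Cl7 u) := by unfold Cl7; infer_instance

/-- bound for the load of `w = vec7 x y z ∘ σ`, at least two of `x, y, z` nonzero -/
noncomputable def K7 (w : Fin 7 → ℤ) : ℝ := if w 6 ≠ 0 then 82 / 100 else if Cl7 w then 5 / 2 else 1

end Pool.Agent.helper49.Slope
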