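import Pool.Agent.helper49.Slope.DefsB

/-!
MP_aedd95_co, definitions for the block construction (parts E, F, G).
-/

set_option autoImplicit false

open MeasureTheory ProbabilityTheory
open scoped ENNReal

namespace Pool.Agent.helper49.Slope

/-- types of integer vectors on a block: constant, affine single, rich -/
inductive Ty
  | C
  | S
  | R
  deriving DecidableEq, Fintype

/-- rank of a type -/
def Ty.rk : Ty → ℕ
  | .C => 0
  | .S => 1
  | .R => 2

open Classical in
/-- the type of `u` -/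
noncomputable def ty {ι : Type} (u : ι → ℤ) : Ty :=
  if ∀ i j, u i = u j then Ty.C else if AffSingle u then Ty.S else Ty.R

/-- the type of a subset with `j` elements of a block with `m` elements -/
def tyc (m j : ℕ) : Ty :=
  if j = 0 ∨ j = m then Ty.C else if j = 1 ∨ j + 1 = m then Ty.S else Ty.R

/-- A block: a kernel on `ι → ℝ` indexed by the coordinate sum `x`, `|x| ≤ h`; `P |x|` bounds the
load of rich forms, `n |x| + |x| * M` bounds the load of a rich form plus an independent variable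
of load `≤ M`. -/
structure Blk {ι : Type} [Fintype ι] (κ : Kernel ℝ (ι → ℝ)) (h : ℝ) (P n : ℝ → ℝ) : Prop where
  supp : ∀ x : ℝ, |x| ≤ h → Supp (κ x) x
  single : ∀ x : ℝ, |x| ≤ h → ∀ i : ι,
    HasLoad ((κ x).map (fun y => y i)) (sprof (2 / (Fintype.card ι : ℝ) * x))
  rich : ∀ x : ℝ, |x| ≤ h → ∀ u : ι → ℤ, Rich u →
    HasLoad ((κ x).map (lin u)) (fun _ => ENNReal.ofReal (P |x|))
  partner : ∀ x : ℝ, |x| ≤ h → ∀ u : ι → ℤ, Rich u → ∀ (ν : Measure ℝ) [IsProbabilityMeasure ν]
    (M : ℝ), 0 ≤ M → HasLoad ν (fun _ => ENNReal.ofReal M) →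
      HasLoad (cnv ((κ x).map (lin u)) ν) (fun _ => ENNReal.ofReal (n |x| + |x| * M))

/-- constant bound `g` for the load of independent sums, by types -/
def PairBd {α β : Type} [Fintype α] [Fintype β] (κ : Kernel ℝ (α → ℝ)) (η : Kernel ℝ (β → ℝ))
    (x y : ℝ) (a b : Ty) (g : ℝ) : Prop :=
  ∀ (u : α → ℤ) (v : β → ℤ), ty u = a → ty v = b →
    HasLoad (cnv ((κ x).map (lin u)) ((η y).map (lin v))) (fun _ => ENNReal.ofReal g)

/-- the same for three blocks -/
def TriBd {α β γ : Type} [Fintype α] [Fintype β] [Fintype γ] (κ : Kernel ℝ (α → ℝ))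
    (η : Kernel ℝ (β → ℝ)) (θ : Kernel ℝ (γ → ℝ)) (x y w : ℝ) (a b c : Ty) (g : ℝ) : Prop :=
  ∀ (u : α → ℤ) (v : β → ℤ) (r : γ → ℤ), ty u = a → ty v = b → ty r = c →
    HasLoad (cnv (cnv ((κ x).map (lin u)) ((η y).map (lin v))) ((θ w).map (lin r)))
      (fun _ => ENNReal.ofReal g)

/-- uniform law on `[-h, h]` -/
noncomputable def unif (h : ℝ) : Measure ℝ :=
  ENNReal.ofReal (1 / (2 * h)) • volume.restrict (Set.Icc (-h) h)

/-- bounds for the block of size 4 -/
noncomputable def P4 (r : ℝ) : ℝ := 8717 / 10000 + 9432 / 10000 * r - 896 / 1000 * r ^ 2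

noncomputable def n4 (r : ℝ) : ℝ := 8717 / 10000 - 7235 / 10000 * r

/-- bound for the block of size 3 -/
noncomputable def P3 (_ : ℝ) : ℝ := 88 / 100

/-- the law of the form `u` in the mixture over `r ∼ π` of the product of two kernels -/
noncomputable def pairLaw {R α β : Type} [MeasurableSpace R] [Fintype α] [Fintype β]
    (κ : Kernel (ℝ × R) (α → ℝ)) (η : Kernel (ℝ × R) (β → ℝ)) (π : Measure R) (X : ℝ)
    (u : α ⊕ β → ℤ) : Measure ℝ :=
  π.bind (fun r =>
    cnv ((κ (X, r)).map (lin (fun i => u (Sum.inl i))))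
      ((η (X, r)).map (lin (fun i => u (Sum.inr i)))))

/-- the same for three kernels -/
noncomputable def triLaw {R α β γ : Type} [MeasurableSpace R] [Fintype α] [Fintype β] [Fintype γ]
    (κ : Kernel (ℝ × R) (α → ℝ)) (η : Kernel (ℝ × R) (β → ℝ)) (θ : Kernel (ℝ × R) (γ → ℝ))
    (π : Measure R) (X : ℝ) (u : (α ⊕ β) ⊕ γ → ℤ) : Measure ℝ :=
  π.bind (fun r =>
    cnv (cnv ((κ (X, r)).map (lin (fun i => u (Sum.inl (Sum.inl i)))))
      ((η (X, r)).map (lin (fun i => u (Sum.inl (Sum.inr i))))))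
      ((θ (X, r)).map (lin (fun i => u (Sum.inr i)))))

end Pool.Agent.helper49.Slope
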