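import Pool.Agent.helper49.Slope.DefsE

/-!
MP_aedd95_co, the vectors of the blocks of size 3 and 4.
-/

set_option autoImplicit false

open MeasureTheory ProbabilityTheory
open scoped ENNReal

namespace Pool.Agent.helper49.Slope

/-- the sign `-sgn x` -/
noncomputable def eps (x : ℝ) : ℝ := if 0 < x then -1 else 1

/-- state N of the block of size 4, `c = 1 - |x|`: `v₀ = (c,0,0)`,
`v_k = (-c/3, √(1-c²/9) e_k)` with `e_k` at 120 degrees -/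
noncomputable def vN4 (x : ℝ) : Fin 4 → Fin 3 → ℝ :=
  let c := 1 - |x|
  let s := Real.sqrt (1 - c ^ 2 / 9)
  ![![c, 0, 0], ![-c / 3, s, 0], ![-c / 3, -s / 2, s * Real.sqrt 3 / 2],
    ![-c / 3, -s / 2, -s * Real.sqrt 3 / 2]]

noncomputable def dN4 (x : ℝ) : Fin 4 → ℝ := ![x, 0, 0, 0]

/-- state E of the block of size 4, `ρ = |x|`, `g = -ρ(1+ρ)/2`: `v₀ = (g, √(ρ²-g²), 0)`,
`v₁ = (1,0,0)`, `v₂, v₃ = -(v₀+v₁)/2 ± (0,0,√ρ/2)` -/
noncomputable def vE4 (x : ℝ) : Fin 4 → Fin 3 → ℝ :=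
  let r := |x|
  let g := -(r * (1 + r)) / 2
  let w := Real.sqrt (r ^ 2 - g ^ 2)
  ![![g, w, 0], ![1, 0, 0], ![-(g + 1) / 2, -w / 2, Real.sqrt r / 2],
    ![-(g + 1) / 2, -w / 2, -Real.sqrt r / 2]]

noncomputable def dE4 (x : ℝ) : Fin 4 → ℝ :=
  ![eps x * (1 - |x|), 0, -eps x / 2, -eps x / 2]

/-- state N of the block of size 3: triangle with sides `c = 1 - |x|, 1, 1` -/
noncomputable def vN3 (x : ℝ) : Fin 3 → Fin 3 → ℝ :=
  let c := 1 - |x|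
  let s := Real.sqrt (1 - c ^ 2 / 4)
  ![![c, 0, 0], ![-c / 2, s, 0], ![-c / 2, -s, 0]]

noncomputable def dN3 (x : ℝ) : Fin 3 → ℝ := ![x, 0, 0]

/-- state E of the block of size 3: triangle with sides `ρ = |x|, 1/2, 1/2` -/
noncomputable def vE3 (x : ℝ) : Fin 3 → Fin 3 → ℝ :=
  let r := |x|
  let s := Real.sqrt (1 - r ^ 2) / 2
  ![![r, 0, 0], ![-r / 2, s, 0], ![-r / 2, -s, 0]]

noncomputable def dE3 (x : ℝ) : Fin 3 → ℝ := ![eps x * (1 - |x|), -eps x / 2, -eps x / 2]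

end Pool.Agent.helper49.Slope
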