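import Pool.Agent.helper49.Slope.DefsE

/-!
MP_aedd95_co, definitions for the laws with digits (parts J, D).
-/

set_option autoImplicit false

open MeasureTheory ProbabilityTheory
open scoped ENNReal

namespace Pool.Agent.helper49.Slope

/-- the law of the digit `s`: density `(1/2 + s)/τ` on `[-τ, τ]` -/
noncomputable def lam (τ : ℝ) : Measure ℝ :=
  (volume.restrict (Set.Icc (-τ) τ)).withDensity (fun s => ENNReal.ofReal ((1 / 2 + s) / τ))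

/-- a uniform sign -/
noncomputable def sgnM : Measure ℝ :=
  (1 / 2 : ℝ≥0∞) • Measure.dirac (1 : ℝ) + (1 / 2 : ℝ≥0∞) • Measure.dirac (-1 : ℝ)

/-- the vectors of `D_5`: pair `0, 1` (common vector of length `c = 1/2 + s`), units `2, 3, 4`;
`q = (s, η)` -/
noncomputable def v5 (q : ℝ × ℝ) : Fin 5 → Fin 3 → ℝ :=
  let c := 1 / 2 + q.1
  let s := Real.sqrt (1 - 4 * c ^ 2 / 9)
  ![![c, 0, 0], ![c, 0, 0], ![-2 * c / 3, s, 0],
    ![-2 * c / 3, -s / 2, s * Real.sqrt 3 / 2], ![-2 * c / 3, -s / 2, -s * Real.sqrt 3 / 2]]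

noncomputable def d5 (q : ℝ × ℝ) : Fin 5 → ℝ :=
  ![q.2 * (1 / 2 - q.1), -(q.2 * (1 / 2 - q.1)), 0, 0, 0]

/-- `∑_{k<l} (u_k-u_l)²` over the units of `D_5` -/
def del5 (u : Fin 5 → ℤ) : ℤ := (u 2 - u 3) ^ 2 + (u 2 - u 4) ^ 2 + (u 3 - u 4) ^ 2

/-- `p = 2 (u₂+u₃+u₄) - 3 (u₀+u₁)` -/
def p5 (u : Fin 5 → ℤ) : ℤ := 2 * (u 2 + u 3 + u 4) - 3 * (u 0 + u 1)

end Pool.Agent.helper49.Slope
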