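import Pool.Agent.helper49.Slope.DefsJ

/-!
MP_aedd95_co, definitions for the family with 9 elements (blocks 5* and 4).
-/

set_option autoImplicit false

open MeasureTheory ProbabilityTheory
open scoped ENNReal

namespace Pool.Agent.helper49.Slope

/-- index set: pair, three units, block of size 4 -/
abbrev I9 := (Fin 2 ⊕ Fin 3) ⊕ Fin 4

/-- parameters `((s₁, s₂), η)` -/
abbrev Q9 := (ℝ × ℝ) × ℝ

noncomputable def pi9 : Measure Q9 := ((lam (1 / 12)).prod (lam (1 / 12))).prod sgnM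

noncomputable def ca (q : Q9) : ℝ := 1 / 2 + q.1.1

noncomputable def cb (q : Q9) : ℝ := 1 / 2 + q.1.2

/-- admissible parameters -/
def Val (q : Q9) : Prop := |q.1.1| ≤ 1 / 12 ∧ |q.1.2| ≤ 1 / 12 ∧ (q.2 = 1 ∨ q.2 = -1)

/-- the vectors: pair `(ca,0,0)`, `(cb,0,0)`, units `(-C/3, √(1-C²/9) e_k)`, `C = ca + cb` -/
noncomputable def v9 (q : Q9) : Fin 2 ⊕ Fin 3 → Fin 3 → ℝ :=
  Sum.elim ![![ca q, 0, 0], ![cb q, 0, 0]]
    ![![-(ca q + cb q) / 3, Real.sqrt (1 - (ca q + cb q) ^ 2 / 9), 0],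
      ![-(ca q + cb q) / 3, -Real.sqrt (1 - (ca q + cb q) ^ 2 / 9) / 2,
        Real.sqrt (1 - (ca q + cb q) ^ 2 / 9) * Real.sqrt 3 / 2],
      ![-(ca q + cb q) / 3, -Real.sqrt (1 - (ca q + cb q) ^ 2 / 9) / 2,
        -Real.sqrt (1 - (ca q + cb q) ^ 2 / 9) * Real.sqrt 3 / 2]]

noncomputable def d9 (q : Q9) : Fin 2 ⊕ Fin 3 → ℝ :=
  Sum.elim ![q.2 * (1 - ca q), -(q.2 * (1 - cb q))] ![0, 0, 0]

/-- the sum of the block 5* -/
noncomputable def xA (q : Q9) : ℝ := q.2 * (q.1.2 - q.1.1)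

/-- `∑_{k<l} (u_k - u_l)²` over the units -/
def del9 (u : Fin 2 ⊕ Fin 3 → ℤ) : ℤ :=
  (u (Sum.inr 0) - u (Sum.inr 1)) ^ 2 + (u (Sum.inr 0) - u (Sum.inr 2)) ^ 2
    + (u (Sum.inr 1) - u (Sum.inr 2)) ^ 2

/-- the units are all equal to `t` -/
def UEq (u : Fin 2 ⊕ Fin 3 → ℤ) (t : ℤ) : Prop := ∀ k, u (Sum.inr k) = t

/-- three different values -/
def Three {ι : Type} (u : ι → ℤ) : Prop := ∃ i j k, u i ≠ u j ∧ u i ≠ u k ∧ u j ≠ u k

/-- the block of size 4 with the additional bounds for forms with three values -/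
structure Blk4x (θ : Kernel ℝ (Fin 4 → ℝ)) : Prop where
  blk : Blk θ (3 / 10) P4 n4
  three : ∀ x : ℝ, |x| ≤ 3 / 10 → ∀ u : Fin 4 → ℤ, Rich u → Three u →
    HasLoad ((θ x).map (lin u)) (fun _ => ENNReal.ofReal (70 / 100 + 122 / 100 * |x|))
  threePartner : ∀ x : ℝ, |x| ≤ 3 / 10 → ∀ u : Fin 4 → ℤ, Rich u → Three u →
    ∀ (ν : Measure ℝ) [IsProbabilityMeasure ν] (M : ℝ), 0 ≤ M →
      HasLoad ν (fun _ => ENNReal.ofReal M) →
      HasLoad (cnv ((θ x).map (lin u)) ν) (fun _ => ENNReal.ofReal (613 / 1000 + |x| * M))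

/-- the two kernels of the construction -/
structure Nine (θ : Kernel ℝ (Fin 4 → ℝ)) (κA : Kernel (ℝ × Q9) (Fin 2 ⊕ Fin 3 → ℝ))
    (κB : Kernel (ℝ × Q9) (Fin 4 → ℝ)) : Prop where
  kB : ∀ (X : ℝ) (q : Q9), κB (X, q) = θ (X - xA q)
  supp : ∀ (X : ℝ) (q : Q9), Val q → Supp (κA (X, q)) (xA q)
  load : ∀ (X : ℝ) (q : Q9), Val q → ∀ u : Fin 2 ⊕ Fin 3 → ℤ, 0 < vsq (v9 q) u →
    HasLoad ((κA (X, q)).map (lin u))
      (ker (∑ i, (u i : ℝ) * d9 q i) (Real.sqrt (vsq (v9 q) u)))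
  det : ∀ (X : ℝ) (q : Q9), Val q → ∀ u : Fin 2 ⊕ Fin 3 → ℤ, vsq (v9 q) u = 0 →
    (κA (X, q)).map (lin u) = Measure.dirac (∑ i, (u i : ℝ) * d9 q i)

/-- table of bounds for the indicator of a set with `j` elements in the pair, `l` units and `i`
elements in the block of size 4 (`j + l + i = 2, 3, 4`) -/
noncomputable def F9 : ℕ → ℕ → ℕ → ℝ
  | 2, 0, 0 => 1
  | 1, 1, 0 => 1046 / 1000
  | 0, 2, 0 => 867 / 1000
  | 0, 3, 0 => 1
  | 2, 1, 0 => 867 / 1000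
  | 1, 2, 0 => 1046 / 1000
  | 2, 2, 0 => 1
  | 1, 3, 0 => 7 / 6
  | 0, 0, 4 => 1212 / 100
  | 1, 0, 1 => 10423 / 10000
  | 0, 1, 1 => 1
  | 2, 0, 1 => 1
  | 1, 1, 1 => 811 / 1000
  | 0, 2, 1 => 867 / 1000
  | 0, 3, 1 => 1
  | 2, 1, 1 => 867 / 1000
  | 1, 2, 1 => 811 / 1000
  | 0, 0, 2 => 945 / 1000
  | 1, 0, 2 => 945 / 1000
  | 0, 1, 2 => 896 / 1000
  | 2, 0, 2 => 912 / 1000
  | 1, 1, 2 => 901 / 1000
  | 0, 2, 2 => 887 / 1000
  | 0, 0, 3 => 10423 / 10000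
  | 1, 0, 3 => 10423 / 10000
  | 0, 1, 3 => 1
  | _, _, _ => 0

/-- bounds by class patterns: `w` assigns one of three classes to each of the 9 positions -/
noncomputable def H9 (w : I9 → Fin 3) : ℝ :=
  let U : Prop := ∃ k l : Fin 3, w (Sum.inl (Sum.inr k)) ≠ w (Sum.inl (Sum.inr l))
  let cnt : Fin 3 → ℕ := fun c => (Finset.univ.filter (fun i : Fin 4 => w (Sum.inr i) = c)).card
  open Classical in
  if ∃ c, cnt c = 4 then (if U then 10855 / 10000 else 14)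
  else if ∃ c, cnt c = 3 then 10423 / 10000
  else if ∃ c, cnt c = 1 then (if U then 705 / 1000 else 804 / 1000)
  else (if U then 9023 / 10000 else 945 / 1000)

end Pool.Agent.helper49.Slope
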