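import Pool.Agent.helper49.Slope.DefsE
import Pool.Agent.helper49.Slope.B8c

/-!
MP_aedd95_co (slope of k-fold hyperplane covers of triangular grids), module E1.
Types of integer vectors and of subsets of a block. `cnt P u` below means the number of `i` with
`P (u i) = true`.
-/

set_option autoImplicit false

open MeasureTheory ProbabilityTheory
open scoped ENNReal

namespace Pool.Agent.helper49.Slope

theorem ty_eq_C {ι : Type} (u : ι → ℤ) : ty u = Ty.C ↔ ∀ i j, u i = u j := by
  unfold ty
  split_ifs with h1 h2
  · exact ⟨fun _ => h1, fun _ => rfl⟩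
  · exact ⟨fun h => absurd h (by decide), fun h => absurd h h1⟩
  · exact ⟨fun h => absurd h (by decide), fun h => absurd h h1⟩

theorem ty_eq_S {ι : Type} (u : ι → ℤ) :
    ty u = Ty.S ↔ (¬ ∀ i j, u i = u j) ∧ AffSingle u := by
  unfold ty
  split_ifs with h1 h2
  · exact ⟨fun h => absurd h (by decide), fun h => absurd h1 h.1⟩
  · exact ⟨fun _ => ⟨h1, h2⟩, fun _ => rfl⟩
  · exact ⟨fun h => absurd h (by decide), fun h => absurd h.2 h2⟩

/-- (`ι` must be nonempty: for empty `ι` all vectors are constant and there are no affine singles) -/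
theorem ty_eq_R {ι : Type} [Nonempty ι] (u : ι → ℤ) : ty u = Ty.R ↔ Rich u := by
  unfold ty
  split_ifs with h1 h2
  · refine ⟨fun h => absurd h (by decide), fun h => absurd ?_ h⟩
    exact ⟨Classical.arbitrary ι, u (Classical.arbitrary ι), fun j _ => h1 _ _⟩
  · exact ⟨fun h => absurd h (by decide), fun h => absurd h2 h⟩
  · exact ⟨fun _ => h2, fun _ => rfl⟩

/-- an affine single that is not constant: `u = t + c e_i`, `c ≠ 0` -/
theorem ty_S_form {ι : Type} [DecidableEq ι] (u : ι → ℤ) (h : ty u = Ty.S) :
    ∃ (i : ι) (t c : ℤ), c ≠ 0 ∧ ∀ j, u j = t + if j = i then c else 0 := by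
  rw [ty_eq_S] at h
  obtain ⟨hn, i, t, hi⟩ := h
  refine ⟨i, t, u i - t, ?_, ?_⟩
  · intro hc
    apply hn
    have h1 : ∀ j, u j = t := by
      intro j
      by_cases hj : j = i
      · subst hj
        omega
      · exact hi j hj
    intro j k
    rw [h1 j, h1 k]
  · intro j
    by_cases hj : j = i
    · subst hj
      rw [if_pos rfl]
      ring
    · rw [if_neg hj, add_zero]
      exact hi j hj

theorem E1_rk_le_two (t : Ty) : t.rk ≤ 2 := by
  cases t <;> simp [Ty.rk]

theorem E1_rk_inj {s t : Ty} (h : s.rk = t.rk) : s = t := by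
  cases s <;> cases t <;> simp [Ty.rk] at h <;> rfl

theorem E1_tyc_le_one (m j : ℕ) (hjm : j ≤ m) (h : j ≤ 1 ∨ m ≤ j + 1) : (tyc m j).rk ≤ 1 := by
  unfold tyc
  split_ifs with h1 h2
  · simp [Ty.rk]
  · simp [Ty.rk]
  · exfalso
    omega

theorem E1_const {ι : Type} [Fintype ι] (P : ι → Prop) [DecidablePred P]
    (h : ∀ i j, P i ↔ P j) :
    (Finset.univ.filter P).card = 0 ∨ (Finset.univ.filter P).card = Fintype.card ι := by
  by_cases he : ∃ i, P i
  · right
    obtain ⟨i, hi⟩ := he
    rw [Finset.filter_true_of_mem (fun j _ => (h i j).1 hi), Finset.card_univ]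
  · left
    push Not at he
    rw [Finset.filter_false_of_mem (fun j _ => he j), Finset.card_empty]

theorem E1_single {ι : Type} [Fintype ι] (P : ι → Prop) [DecidablePred P] (i : ι)
    (h : ∀ j k, j ≠ i → k ≠ i → (P j ↔ P k)) :
    (Finset.univ.filter P).card ≤ 1 ∨ Fintype.card ι ≤ (Finset.univ.filter P).card + 1 := by
  classical
  by_cases he : ∃ j, j ≠ i ∧ P j
  · right
    obtain ⟨j, hj, hP⟩ := he
    have h1 : Finset.univ.erase i ⊆ Finset.univ.filter P := by
      intro k hk
      rw [Finset.mem_erase] at hk
      rw [Finset.mem_filter]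
      exact ⟨Finset.mem_univ _, (h j k hj hk.1).1 hP⟩
    have h2 := Finset.card_le_card h1
    rw [Finset.card_erase_of_mem (Finset.mem_univ _), Finset.card_univ] at h2
    omega
  · left
    push Not at he
    rw [Finset.card_le_one]
    intro a ha b hb
    rw [Finset.mem_filter] at ha hb
    have h1 : a = i := by
      by_contra hne
      exact he a hne ha.2
    have h2 : b = i := by
      by_contra hne
      exact he b hne hb.2
    rw [h1, h2]

/-- **E1a (domination).** If `P` selects `j` elements of the block by their values and `0 < j < m`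
then `u` is not constant; if `2 ≤ j ≤ m - 2` then `u` is rich (if all values but one are equal to
`t` then `j ∈ {0, 1}` or `j ∈ {m - 1, m}`). -/
theorem tyc_le_ty {ι : Type} [Fintype ι] (u : ι → ℤ) (P : ℤ → Bool) :
    (tyc (Fintype.card ι) (Finset.univ.filter (fun i => P (u i) = true)).card).rk ≤ (ty u).rk := by
  have hle : (Finset.univ.filter (fun i => P (u i) = true)).card ≤ Fintype.card ι := by
    rw [← Finset.card_univ]
    exact Finset.card_filter_le _ _
  cases hty : ty u with
  | C =>
    rw [ty_eq_C] at hty
    have h1 := E1_const (fun i => P (u i) = true) (fun i j => by rw [hty i j])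
    unfold tyc
    rw [if_pos h1]
  | S =>
    rw [ty_eq_S] at hty
    obtain ⟨_, i, t, hi⟩ := hty
    exact E1_tyc_le_one _ _ hle (E1_single (fun i => P (u i) = true) i
      (fun j k hj hk => by rw [hi j hj, hi k hk]))
  | R => exact E1_rk_le_two _

/-- for two-valued `u` there is equality (blocks with at least 3 elements) -/
theorem tyc_eq_ty {ι : Type} [Fintype ι] (h3 : 3 ≤ Fintype.card ι) (u : ι → ℤ) (P : ℤ → Bool)
    (h2 : ∀ i j, P (u i) = P (u j) → u i = u j) :
    tyc (Fintype.card ι) (Finset.univ.filter (fun i => P (u i) = true)).card = ty u := by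
  have hle := tyc_le_ty u P
  refine E1_rk_inj (le_antisymm hle ?_)
  have hcompl := Finset.card_filter_add_card_filter_not (s := (Finset.univ : Finset ι))
    (fun i => P (u i) = true)
  rw [Finset.card_univ] at hcompl
  unfold tyc
  split_ifs with ha hb
  · -- constant
    have : ty u = Ty.C := by
      rw [ty_eq_C]
      intro i j
      apply h2
      rcases ha with ha | ha
      · rw [Finset.card_eq_zero, Finset.filter_eq_empty_iff] at ha
        have h4 := ha (Finset.mem_univ i)
        have h5 := ha (Finset.mem_univ j)
        rw [Bool.not_eq_true] at h4 h5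
        rw [h4, h5]
      · have h6 : (Finset.univ.filter (fun i => ¬ P (u i) = true)).card = 0 := by omega
        rw [Finset.card_eq_zero, Finset.filter_eq_empty_iff] at h6
        have h4 := h6 (Finset.mem_univ i)
        have h5 := h6 (Finset.mem_univ j)
        rw [not_not] at h4 h5
        rw [h4, h5]
    rw [this]
  · -- single
    have hA : AffSingle u := by
      rcases hb with hb | hb
      · rw [Finset.card_eq_one] at hb
        obtain ⟨i, hi⟩ := hb
        have hP : ∀ j, j ≠ i → P (u j) = false := by
          intro j hj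
          rw [← Bool.not_eq_true]
          intro hc
          have : j ∈ Finset.univ.filter (fun i => P (u i) = true) :=
            Finset.mem_filter.2 ⟨Finset.mem_univ _, hc⟩
          rw [hi, Finset.mem_singleton] at this
          exact hj this
        obtain ⟨k, hk⟩ : ∃ k, k ≠ i := by
          have : 1 < Fintype.card ι := by omega
          haveI := Fintype.one_lt_card_iff_nontrivial.1 this
          exact exists_ne i
        exact ⟨i, u k, fun j hj => h2 j k (by rw [hP j hj, hP k hk])⟩
      · have h6 : (Finset.univ.filter (fun i => ¬ P (u i) = true)).card = 1 := by omega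
        rw [Finset.card_eq_one] at h6
        obtain ⟨i, hi⟩ := h6
        have hP : ∀ j, j ≠ i → P (u j) = true := by
          intro j hj
          by_contra hc
          have : j ∈ Finset.univ.filter (fun i => ¬ P (u i) = true) :=
            Finset.mem_filter.2 ⟨Finset.mem_univ _, hc⟩
          rw [hi, Finset.mem_singleton] at this
          exact hj this
        obtain ⟨k, hk⟩ : ∃ k, k ≠ i := by
          have : 1 < Fintype.card ι := by omega
          haveI := Fintype.one_lt_card_iff_nontrivial.1 this
          exact exists_ne i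
        exact ⟨i, u k, fun j hj => h2 j k (by rw [hP j hj, hP k hk])⟩
    show (ty u).rk ≤ 1
    unfold ty
    split_ifs with h5
    · simp [Ty.rk]
    · simp [Ty.rk]
  · exact E1_rk_le_two _

/-- **E1b.** from `exists_levels`, passing to the complement if necessary -/
theorem exists_half_levels {ι : Type} [Fintype ι] [DecidableEq ι] (h4 : 4 ≤ Fintype.card ι)
    (u : ι → ℤ) (hu : Rich u) :
    ∃ (P : ℤ → Bool), 2 ≤ (Finset.univ.filter (fun i => P (u i) = true)).card ∧
      2 * (Finset.univ.filter (fun i => P (u i) = true)).card ≤ Fintype.card ι := by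
  obtain ⟨P, h1, h2⟩ := exists_levels h4 u hu
  have hcompl := Finset.card_filter_add_card_filter_not (s := (Finset.univ : Finset ι))
    (fun i => P (u i) = true)
  rw [Finset.card_univ] at hcompl
  by_cases h : 2 * (Finset.univ.filter (fun i => P (u i) = true)).card ≤ Fintype.card ι
  · exact ⟨P, h1, h⟩
  · refine ⟨fun z => !P z, ?_⟩
    have e : (Finset.univ.filter (fun i => (!P (u i)) = true)) =
        Finset.univ.filter (fun i => ¬ P (u i) = true) := by
      refine Finset.filter_congr fun i _ => ?_
      simp
    rw [e]
    omega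

/-- richness is invariant under permutations -/
theorem Rich.perm {ι : Type} (u : ι → ℤ) (σ : Equiv.Perm ι) (hu : Rich u) : Rich (u ∘ σ) := by
  rintro ⟨i, t, h⟩
  refine hu ⟨σ i, t, fun k hk => ?_⟩
  have h1 := h (σ.symm k) (by
    intro hc
    apply hk
    rw [← hc, Equiv.apply_symm_apply])
  simpa using h1

end Pool.Agent.helper49.Slope
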