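import Pool.Agent.helper49.Slope.E1
import Pool.Agent.helper49.Slope.B2a
import Pool.Agent.helper49.Slope.B2b
import Pool.Agent.helper49.Slope.B3

/-!
MP_aedd95_co (slope of k-fold hyperplane covers of triangular grids), module E2.
Bounds for independent sums of two blocks, by types.
-/

set_option autoImplicit false

open MeasureTheory ProbabilityTheory
open scoped ENNReal

namespace Pool.Agent.helper49.Slope

theorem E2_rich_of_R {ι : Type} {u : ι → ℤ} (h : ty u = Ty.R) : Rich u := by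
  intro hs
  unfold ty at h
  split_ifs at h

theorem E2_meas_lin {ι : Type} [Fintype ι] (u : ι → ℤ) : Measurable (lin u) := by
  unfold lin
  exact Finset.measurable_sum _ fun i _ => (measurable_pi_apply i).const_mul _

theorem E2_prob_lin {ι : Type} [Fintype ι] (κ : Kernel ℝ (ι → ℝ)) [IsMarkovKernel κ] (x : ℝ)
    (u : ι → ℤ) : IsProbabilityMeasure ((κ x).map (lin u)) :=
  Measure.isProbabilityMeasure_map (E2_meas_lin u).aemeasurable

theorem E2_prob_aff (μ : Measure ℝ) [IsProbabilityMeasure μ] (c d : ℝ) :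
    IsProbabilityMeasure (μ.map (fun z => c * z + d)) :=
  Measure.isProbabilityMeasure_map (by fun_prop)

theorem E2_abs_sprof {m : ℕ} (h3 : 3 ≤ m) {h x : ℝ} (hh : h ≤ 1 / 2) (hx : |x| ≤ h) :
    |2 / (m : ℝ) * x| = 2 / (m : ℝ) * |x| ∧ 2 / (m : ℝ) * |x| ≤ 1 / 2 := by
  have hm : (3 : ℝ) ≤ m := by exact_mod_cast h3
  have h2 : 0 ≤ 2 / (m : ℝ) := by positivity
  have h2' : 2 / (m : ℝ) ≤ 2 / 3 := div_le_div_of_nonneg_left (by norm_num) (by norm_num) hm
  constructor
  · rw [abs_mul, abs_of_nonneg h2]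
  · have h0 := abs_nonneg x
    nlinarith

theorem E2_sprof_le {a z : ℝ} : sprof a z ≤ ENNReal.ofReal (1 + |a|) := by
  unfold sprof
  split_ifs with h1 h2
  · exact ENNReal.ofReal_le_ofReal (by linarith [le_abs_self a])
  · exact ENNReal.ofReal_le_ofReal (by linarith [neg_abs_le a])
  · exact zero_le

theorem E2_one_le_abs {c : ℤ} (hc : c ≠ 0) : (1 : ℝ) ≤ |(c : ℝ)| := by
  have h := Int.one_le_abs hc
  rw [← Int.cast_abs]
  exact_mod_cast h

theorem E2_unit_or {c : ℤ} (hc : c ≠ 0) : |(c : ℝ)| = 1 ∨ (2 : ℝ) ≤ |(c : ℝ)| := by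
  have h := Int.one_le_abs hc
  rw [← Int.cast_abs]
  rcases h.lt_or_eq with h | h
  · right
    exact_mod_cast h
  · left
    rw [← h]
    norm_num

/-- the unit case -/
theorem E2_unit {μ : Measure ℝ} [IsProbabilityMeasure μ] {a : ℝ} (h : HasLoad μ (sprof a))
    {c : ℤ} (hc : |(c : ℝ)| = 1) :
    ∃ a' : ℝ, |a'| = |a| ∧ HasLoad (μ.map (fun z => (c : ℝ) * z)) (sprof a') := by
  rcases (abs_eq (zero_le_one' ℝ)).1 hc with h1 | h1
  · refine ⟨a, rfl, ?_⟩
    have : (fun z : ℝ => (c : ℝ) * z) = id := by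
      funext z
      rw [h1]
      simp
    rw [this, Measure.map_id]
    exact h
  · refine ⟨-a, abs_neg a, ?_⟩
    have hs := HasLoad.scale (B3_measurable_sprof a) h (c : ℝ) (by rw [h1]; norm_num)
    refine hs.mono_ae ?_
    have h0 : ∀ᵐ z : ℝ, z ≠ 0 := by
      rw [ae_iff]
      simp
    filter_upwards [h0] with z hz
    rw [h1]
    have e1 : (1 : ℝ) / |(-1 : ℝ)| = 1 := by norm_num
    rw [e1, ENNReal.ofReal_one, one_mul]
    have e2 : z / (-1 : ℝ) = -z := by ring
    rw [e2]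
    unfold sprof
    rw [abs_neg]
    split_ifs with h2 h3 h4 h5
    · exact absurd (le_antisymm (by linarith) h4) hz
    · exact ENNReal.ofReal_le_ofReal (by linarith)
    · exact ENNReal.ofReal_le_ofReal (by linarith)
    · exfalso
      linarith [not_le.1 h3, not_le.1 h5]
    · exact le_refl _

theorem E2_cnv_shift (A B : Measure ℝ) [IsProbabilityMeasure A] [IsProbabilityMeasure B]
    (d d' : ℝ) : cnv (A.map (fun z => z + d)) (B.map (fun z => z + d')) =
      (cnv A B).map (fun z => z + (d + d')) := by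
  unfold cnv
  have hf : Measurable (fun z : ℝ => z + d) := by fun_prop
  have hg : Measurable (fun z : ℝ => z + d') := by fun_prop
  rw [Measure.map_prod_map _ _ hf hg, Measure.map_map (by fun_prop) (hf.prodMap hg),
    Measure.map_map (by fun_prop) (by fun_prop)]
  congr 1
  funext p
  simp only [Function.comp_apply, Prod.map_fst, Prod.map_snd]
  ring

theorem E2_map_aff (μ : Measure ℝ) (c d : ℝ) :
    μ.map (fun z => c * z + d) = (μ.map (fun z => c * z)).map (fun z => z + d) := by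
  rw [Measure.map_map (by fun_prop) (by fun_prop)]
  rfl

theorem E2_shift_const {A : Measure ℝ} {M : ℝ≥0∞} (h : HasLoad A (fun _ => M)) (d : ℝ) :
    HasLoad (A.map (fun z => z + d)) (fun _ => M) :=
  HasLoad.shift measurable_const h d

theorem E2_prob_shift (A : Measure ℝ) [IsProbabilityMeasure A] (d : ℝ) :
    IsProbabilityMeasure (A.map (fun z => z + d)) :=
  Measure.isProbabilityMeasure_map (by fun_prop)

theorem E2_prob_scale (A : Measure ℝ) [IsProbabilityMeasure A] (c : ℝ) :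
    IsProbabilityMeasure (A.map (fun z => c * z)) :=
  Measure.isProbabilityMeasure_map (by fun_prop)

theorem E2_prob_cnv (A B : Measure ℝ) [IsProbabilityMeasure A] [IsProbabilityMeasure B] :
    IsProbabilityMeasure (cnv A B) :=
  Measure.isProbabilityMeasure_map (by fun_prop)

/-- **E2a.** If `ty u = S`, `u = t + c e_i`, then almost surely `lin u y = t x + c y_i`; so the law
of `lin u` is the image of a law of load `≤ sprof a`, `a = 2x/m`, under `z ↦ c z + t x`, `c ≠ 0`.
-/
theorem Blk.single_form {ι : Type} [Fintype ι] [DecidableEq ι] {κ : Kernel ℝ (ι → ℝ)}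
    [IsMarkovKernel κ] {h : ℝ} {P n : ℝ → ℝ} (b : Blk κ h P n) {x : ℝ} (hx : |x| ≤ h)
    (u : ι → ℤ) (hu : ty u = Ty.S) :
    ∃ (μ : Measure ℝ) (c : ℤ) (d : ℝ), IsProbabilityMeasure μ ∧ c ≠ 0 ∧
      HasLoad μ (sprof (2 / (Fintype.card ι : ℝ) * x)) ∧
      (κ x).map (lin u) = μ.map (fun z => (c : ℝ) * z + d) := by
  obtain ⟨i, t, c, hc, hut⟩ := ty_S_form u hu
  refine ⟨(κ x).map (fun y => y i), c, (t : ℝ) * x,
    Measure.isProbabilityMeasure_map (measurable_pi_apply i).aemeasurable, hc,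
    b.single x hx i, ?_⟩
  have hpi : Measurable (fun y : ι → ℝ => y i) := measurable_pi_apply i
  have haf : Measurable (fun z : ℝ => (c : ℝ) * z + (t : ℝ) * x) := by fun_prop
  rw [Measure.map_map haf hpi]
  refine Measure.map_congr ?_
  filter_upwards [b.supp x hx] with y hy
  have h1 : lin u y = ∑ j, ((t : ℝ) * y j + if j = i then (c : ℝ) * y i else 0) := by
    unfold lin
    refine Finset.sum_congr rfl fun j _ => ?_
    rw [hut j]
    by_cases hj : j = i
    · subst hj
      simp only [if_true]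
      push_cast
      ring
    · simp only [if_neg hj]
      push_cast
      ring
  rw [h1, Finset.sum_add_distrib, ← Finset.mul_sum, hy.2, Finset.sum_ite_eq' Finset.univ i]
  simp only [Finset.mem_univ, if_true, Function.comp_apply]
  ring

/-- if `ty u = C` the law of `lin u` is a point mass -/
theorem Blk.const_form {ι : Type} [Fintype ι] {κ : Kernel ℝ (ι → ℝ)}
    [IsMarkovKernel κ] {h : ℝ} {P n : ℝ → ℝ} (b : Blk κ h P n) {x : ℝ} (hx : |x| ≤ h)
    (t : ℤ) (u : ι → ℤ) (hu : ∀ i, u i = t) :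
    (κ x).map (lin u) = Measure.dirac ((t : ℝ) * x) := by
  have h1 : (κ x).map (lin u) = (κ x).map (fun _ => (t : ℝ) * x) := by
    refine Measure.map_congr ?_
    filter_upwards [b.supp x hx] with y hy
    unfold lin
    have h2 : ∑ j, (u j : ℝ) * y j = ∑ j, (t : ℝ) * y j :=
      Finset.sum_congr rfl fun j _ => by rw [hu j]
    rw [h2, ← Finset.mul_sum, hy.2]
  rw [h1, Measure.map_const]
  simp

/-- **E2b.** Load of `c z + d` for `z` of load `≤ sprof a`: at most `1 + |a|` (`(1 + |a|)/|c|`). -/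
theorem load_affine {μ : Measure ℝ} [IsProbabilityMeasure μ] {a : ℝ} (ha : |a| ≤ 1)
    (h : HasLoad μ (sprof a)) (c : ℤ) (hc : c ≠ 0) (d : ℝ) :
    HasLoad (μ.map (fun z => (c : ℝ) * z + d)) (fun _ => ENNReal.ofReal ((1 + |a|) / |(c : ℝ)|)) := by
  have h1 : HasLoad μ (fun _ => ENNReal.ofReal (1 + |a|)) := h.mono fun z => E2_sprof_le
  have h2 := HasLoad.scale measurable_const h1 (c : ℝ) (by exact_mod_cast hc)
  rw [E2_map_aff]
  refine (E2_shift_const h2 d).mono fun z => ?_
  have h0 : (0 : ℝ) ≤ 1 / |(c : ℝ)| := by positivity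
  rw [← ENNReal.ofReal_mul h0]
  refine ENNReal.ofReal_le_ofReal (le_of_eq ?_)
  ring

/-- **E2c.** Sum of two independent affine singles. For `|c| = |c'| = 1` use `load_ss`, `ss_le`
(`z ↦ -z` turns `sprof a` into `sprof (-a)` almost everywhere) and `HasLoad.shift`; if `|c| ≥ 2` the
load of the first one is at most `(1 + |a|)/2 ≤ 3/4` already. -/
theorem load_affine_two {μ ν : Measure ℝ} [IsProbabilityMeasure μ] [IsProbabilityMeasure ν]
    {a b : ℝ} (ha : |a| ≤ 1 / 2) (hb : |b| ≤ 1 / 2) (hμ : HasLoad μ (sprof a))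
    (hν : HasLoad ν (sprof b)) (c c' : ℤ) (hc : c ≠ 0) (hc' : c' ≠ 0) (d d' : ℝ) :
    HasLoad (cnv (μ.map (fun z => (c : ℝ) * z + d)) (ν.map (fun z => (c' : ℝ) * z + d')))
      (fun _ => ENNReal.ofReal (1 + |a| * |b|)) := by
  have := E2_prob_aff μ c d
  have := E2_prob_aff ν c' d'
  have ha0 := abs_nonneg a
  have hb0 := abs_nonneg b
  have hab := mul_nonneg ha0 hb0
  rcases E2_unit_or hc with h1 | h1
  · rcases E2_unit_or hc' with h2 | h2
    · obtain ⟨a', ha', hA⟩ := E2_unit hμ h1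
      obtain ⟨b', hb', hB⟩ := E2_unit hν h2
      have := E2_prob_scale μ c
      have := E2_prob_scale ν c'
      rw [E2_map_aff μ, E2_map_aff ν, E2_cnv_shift]
      refine E2_shift_const (M := ENNReal.ofReal (1 + |a| * |b|)) ?_ _
      refine (load_ss (by rw [ha']; linarith) (by rw [hb']; linarith) hA hB).mono fun z => ?_
      refine ENNReal.ofReal_le_ofReal ?_
      have := ss_le a' b' z (by rw [ha']; exact ha) (by rw [hb']; exact hb)
      rw [abs_mul, ha', hb'] at this
      exact this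
    · rw [cnv_comm]
      refine HasLoad.cnv_const ((load_affine (by linarith) hν c' hc' d').mono fun z => ?_)
      refine ENNReal.ofReal_le_ofReal ?_
      rw [div_le_iff₀ (by linarith)]
      nlinarith
  · refine HasLoad.cnv_const ((load_affine (by linarith) hμ c hc d).mono fun z => ?_)
    refine ENNReal.ofReal_le_ofReal ?_
    rw [div_le_iff₀ (by linarith)]
    nlinarith

/-- **E2d.** Three affine singles (`load_sss`; if some `|c| ≥ 2` the load of that one is at most
`(1+|a|)/2`). -/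
theorem load_affine_three {μ ν ρ : Measure ℝ} [IsProbabilityMeasure μ] [IsProbabilityMeasure ν]
    [IsProbabilityMeasure ρ] {a b e : ℝ} (ha : |a| ≤ 1 / 2) (hb : |b| ≤ 1 / 2) (he : |e| ≤ 1 / 2)
    (hμ : HasLoad μ (sprof a)) (hν : HasLoad ν (sprof b)) (hρ : HasLoad ρ (sprof e))
    (c c' c'' : ℤ) (hc : c ≠ 0) (hc' : c' ≠ 0) (hc'' : c'' ≠ 0) (d d' d'' : ℝ) :
    HasLoad (cnv (cnv (μ.map (fun z => (c : ℝ) * z + d)) (ν.map (fun z => (c' : ℝ) * z + d')))
        (ρ.map (fun z => (c'' : ℝ) * z + d'')))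
      (fun _ => ENNReal.ofReal (3 / 4 * ((1 + |a|) * (1 + |b|) * (1 + |e|)))) := by
  have := E2_prob_aff μ c d
  have := E2_prob_aff ν c' d'
  have := E2_prob_aff ρ c'' d''
  have ha0 := abs_nonneg a
  have hb0 := abs_nonneg b
  have he0 := abs_nonneg e
  have hab := mul_nonneg ha0 hb0
  have hae := mul_nonneg ha0 he0
  have hbe := mul_nonneg hb0 he0
  have habe := mul_nonneg hab he0
  have := E2_prob_cnv (μ.map (fun z => (c : ℝ) * z + d)) (ν.map (fun z => (c' : ℝ) * z + d'))
  rcases E2_unit_or hc with h1 | h1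
  · rcases E2_unit_or hc' with h2 | h2
    · rcases E2_unit_or hc'' with h3 | h3
      · obtain ⟨a', ha', hA⟩ := E2_unit hμ h1
        obtain ⟨b', hb', hB⟩ := E2_unit hν h2
        obtain ⟨e', he', hE⟩ := E2_unit hρ h3
        have := E2_prob_scale μ c
        have := E2_prob_scale ν c'
        have := E2_prob_scale ρ c''
        have := E2_prob_cnv (μ.map (fun z => (c : ℝ) * z)) (ν.map (fun z => (c' : ℝ) * z))
        rw [E2_map_aff μ, E2_map_aff ν, E2_map_aff ρ, E2_cnv_shift, E2_cnv_shift]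
        refine E2_shift_const
          (M := ENNReal.ofReal (3 / 4 * ((1 + |a|) * (1 + |b|) * (1 + |e|)))) ?_ _
        refine (load_sss (by rw [ha']; linarith) (by rw [hb']; linarith) (by rw [he']; linarith)
          hA hB hE).mono fun z => ?_
        rw [ha', hb', he']
        refine ENNReal.ofReal_le_ofReal (le_of_eq (by ring))
      · rw [cnv_comm]
        refine HasLoad.cnv_const ((load_affine (by linarith) hρ c'' hc'' d'').mono fun z => ?_)
        refine ENNReal.ofReal_le_ofReal ?_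
        rw [div_le_iff₀ (by linarith)]
        have h5 : 1 + |e| ≤ (1 + |a|) * (1 + |b|) * (1 + |e|) := by nlinarith
        nlinarith
    · refine HasLoad.cnv_const ?_
      rw [cnv_comm]
      refine HasLoad.cnv_const ((load_affine (by linarith) hν c' hc' d').mono fun z => ?_)
      refine ENNReal.ofReal_le_ofReal ?_
      rw [div_le_iff₀ (by linarith)]
      have h5 : 1 + |b| ≤ (1 + |a|) * (1 + |b|) * (1 + |e|) := by nlinarith
      nlinarith
  · refine HasLoad.cnv_const (HasLoad.cnv_const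
      ((load_affine (by linarith) hμ c hc d).mono fun z => ?_))
    refine ENNReal.ofReal_le_ofReal ?_
    rw [div_le_iff₀ (by linarith)]
    have h5 : 1 + |a| ≤ (1 + |a|) * (1 + |b|) * (1 + |e|) := by nlinarith
    nlinarith

section
variable {α β : Type} [Fintype α] [Fintype β] [DecidableEq α] [DecidableEq β]
  {κ : Kernel ℝ (α → ℝ)} {η : Kernel ℝ (β → ℝ)} [IsMarkovKernel κ] [IsMarkovKernel η]
  {hA hB : ℝ} {PA nA PB nB : ℝ → ℝ}

theorem pair_symm {x y : ℝ} {a b : Ty} {g : ℝ} (h : PairBd η κ y x b a g) :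
    PairBd κ η x y a b g := by
  intro u v hu hv
  have := E2_prob_lin κ x u
  have := E2_prob_lin η y v
  rw [cnv_comm]
  exact h v u hv hu

/-- `S` with anything -/
theorem pair_S (h3 : 3 ≤ Fintype.card α) (bA : Blk κ hA PA nA) (hA1 : hA ≤ 1 / 2) {x y : ℝ}
    (hx : |x| ≤ hA) (b : Ty) :
    PairBd κ η x y Ty.S b (1 + 2 / (Fintype.card α : ℝ) * |x|) := by
  intro u v hu _
  have := E2_prob_lin κ x u
  have := E2_prob_lin η y v
  obtain ⟨μ, c, d, hμp, hc, hμ, he⟩ := bA.single_form hx u hu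
  obtain ⟨h1, h2⟩ := E2_abs_sprof h3 hA1 hx
  refine HasLoad.cnv_const ?_
  rw [he]
  refine (load_affine (by rw [h1]; linarith) hμ c hc d).mono fun z => ?_
  refine ENNReal.ofReal_le_ofReal ?_
  have h4 := E2_one_le_abs hc
  have h5 : 0 ≤ 2 / (Fintype.card α : ℝ) * |x| := by positivity
  rw [h1, div_le_iff₀ (by linarith)]
  nlinarith

/-- `R` with anything -/
theorem pair_R (bA : Blk κ hA PA nA) {x y : ℝ} (hx : |x| ≤ hA) (b : Ty) :
    PairBd κ η x y Ty.R b (PA |x|) := by
  intro u v hu _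
  have := E2_prob_lin κ x u
  have := E2_prob_lin η y v
  exact HasLoad.cnv_const (bA.rich x hx u (E2_rich_of_R hu))

theorem pair_SS (h3 : 3 ≤ Fintype.card α) (h3' : 3 ≤ Fintype.card β) (bA : Blk κ hA PA nA)
    (bB : Blk η hB PB nB) (hA1 : hA ≤ 1 / 2) (hB1 : hB ≤ 1 / 2) {x y : ℝ} (hx : |x| ≤ hA)
    (hy : |y| ≤ hB) :
    PairBd κ η x y Ty.S Ty.S
      (1 + 2 / (Fintype.card α : ℝ) * (2 / (Fintype.card β : ℝ)) * (|x| * |y|)) := by
  intro u v hu hv
  obtain ⟨μ, c, d, hμp, hc, hμ, he⟩ := bA.single_form hx u hu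
  obtain ⟨ν, c', d', hνp, hc', hν, he'⟩ := bB.single_form hy v hv
  obtain ⟨h1, h2⟩ := E2_abs_sprof h3 hA1 hx
  obtain ⟨h1', h2'⟩ := E2_abs_sprof h3' hB1 hy
  rw [he, he']
  refine (load_affine_two (by rw [h1]; exact h2) (by rw [h1']; exact h2') hμ hν c c' hc hc'
    d d').mono fun z => ?_
  refine ENNReal.ofReal_le_ofReal (le_of_eq ?_)
  rw [h1, h1']
  ring

theorem pair_RS (h3' : 3 ≤ Fintype.card β) (bA : Blk κ hA PA nA) (bB : Blk η hB PB nB)
    (hB1 : hB ≤ 1 / 2) {x y : ℝ} (hx : |x| ≤ hA) (hy : |y| ≤ hB) :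
    PairBd κ η x y Ty.R Ty.S (nA |x| + |x| * (1 + 2 / (Fintype.card β : ℝ) * |y|)) := by
  intro u v hu hv
  have := E2_prob_lin κ x u
  have := E2_prob_lin η y v
  obtain ⟨ν, c', d', hνp, hc', hν, he'⟩ := bB.single_form hy v hv
  obtain ⟨h1', h2'⟩ := E2_abs_sprof h3' hB1 hy
  have h5 : 0 ≤ 2 / (Fintype.card β : ℝ) * |y| := by positivity
  refine bA.partner x hx u (E2_rich_of_R hu) _ _ (by linarith) ?_
  rw [he']
  refine (load_affine (by rw [h1']; linarith) hν c' hc' d').mono fun z => ?_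
  refine ENNReal.ofReal_le_ofReal ?_
  have h4 := E2_one_le_abs hc'
  rw [h1', div_le_iff₀ (by linarith)]
  nlinarith

theorem pair_RR (bA : Blk κ hA PA nA) (bB : Blk η hB PB nB) {x y : ℝ} (hx : |x| ≤ hA)
    (hy : |y| ≤ hB) (hP : 0 ≤ PB |y|) :
    PairBd κ η x y Ty.R Ty.R (nA |x| + |x| * PB |y|) := by
  intro u v hu hv
  have := E2_prob_lin κ x u
  have := E2_prob_lin η y v
  exact bA.partner x hx u (E2_rich_of_R hu) _ _ hP (bB.rich y hy v (E2_rich_of_R hv))

end

/-- families are blocks with `P = n = 1` -/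
theorem Fam.blk {ι : Type} [Fintype ι] {h : ℝ} (H : Fam ι h) :
    ∃ κ : Kernel ℝ (ι → ℝ), IsMarkovKernel κ ∧ Blk κ h (fun _ => 1) (fun _ => 1) := by
  obtain ⟨κ, hκ, H⟩ := H
  refine ⟨κ, hκ, ⟨fun x hx => (H x hx).1, fun x hx i => (H x hx).2.1 i, fun x hx u hu => ?_,
    fun x hx u hu ν hν M hM hνM => ?_⟩⟩
  · simpa using (H x hx).2.2 u hu
  · have := E2_prob_lin κ x u
    refine (HasLoad.cnv_const (ν := ν) ((H x hx).2.2 u hu)).mono fun z => ?_
    rw [← ENNReal.ofReal_one]
    refine ENNReal.ofReal_le_ofReal ?_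
    have := mul_nonneg (abs_nonneg x) hM
    linarith

end Pool.Agent.helper49.Slope
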