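import Pool.Agent.helper49.Slope.B7f
import Pool.Agent.helper49.Slope.B7d

/-!
MP_aedd95_co (slope of k-fold hyperplane covers of triangular grids), module E3.
Symmetrised mixtures of products of two and of three kernels. For `exists_two` combine
`exists_prodKernel`, `exists_mixKernel_bind`, `bind_supp`, `bind_map` and `exists_symKernel`
(the form `u ∘ σ` of the unsymmetrised mixture has law `pairLaw κ η π X (u ∘ σ)`). For
`exists_three` apply the same with `exists_prodKernel` twice.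
-/

set_option autoImplicit false

open MeasureTheory ProbabilityTheory
open scoped ENNReal

namespace Pool.Agent.helper49.Slope

/-- load of a coordinate of the mixture kernel -/
theorem E3_coord {R ι : Type} [MeasurableSpace R] [Fintype ι]
    (κ : Kernel (ℝ × R) (ι → ℝ)) [IsMarkovKernel κ] (π : Measure R) [IsProbabilityMeasure π]
    (X : ℝ) (i : ι) (ν : R → Measure ℝ)
    (hν : ∀ r, (κ (X, r)).map (fun y => y i) = ν r) (f : R → ℝ → ℝ≥0∞)
    (hf : Measurable (Function.uncurry f)) (h : ∀ᵐ r ∂π, HasLoad (ν r) (f r)) :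
    HasLoad ((π.bind (fun r => κ (X, r))).map (fun y => y i)) (fun z => ∫⁻ r, f r z ∂π) := by
  have hX : Measurable (fun r : R => (X, r)) := measurable_prodMk_left
  have hg : Measurable (fun y : ι → ℝ => y i) := measurable_pi_apply i
  rw [bind_map κ π X _ hg]
  have hK : ∀ r, ((κ.map (fun y : ι → ℝ => y i)).comap (fun r : R => (X, r)) hX) r =
      (κ (X, r)).map (fun y => y i) := by
    intro r
    rw [Kernel.comap_apply, Kernel.map_apply _ hg]
  have hmk : IsMarkovKernel (κ.map (fun y : ι → ℝ => y i)) := Kernel.IsMarkovKernel.map _ hg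
  have key := HasLoad.bind π ((κ.map (fun y : ι → ℝ => y i)).comap (fun r : R => (X, r)) hX) f hf
    (by
      filter_upwards [h] with r hr
      rw [hK r, hν r]
      exact hr)
  have he : (π.bind fun r => (κ (X, r)).map (fun y => y i)) =
      π.bind ((κ.map (fun y : ι → ℝ => y i)).comap (fun r : R => (X, r)) hX) := by
    congr 1
    funext r
    exact (hK r).symm
  rw [he]
  exact key

theorem E3_meas {R : Type} [MeasurableSpace R] (π : Measure R) [IsProbabilityMeasure π]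
    (f : R → ℝ → ℝ≥0∞) (hf : Measurable (Function.uncurry f)) :
    Measurable (fun z => ∫⁻ r, f r z ∂π) :=
  Measurable.lintegral_prod_left (f := fun r z => f r z) hf

theorem exists_two {R α β : Type} [MeasurableSpace R] [Fintype α] [Fintype β] [DecidableEq α]
    [DecidableEq β] (κ : Kernel (ℝ × R) (α → ℝ)) (η : Kernel (ℝ × R) (β → ℝ)) [IsMarkovKernel κ]
    [IsMarkovKernel η] (π : Measure R) [IsProbabilityMeasure π] :
    ∃ ζ : Kernel ℝ (α ⊕ β → ℝ), IsMarkovKernel ζ ∧ ∀ X : ℝ,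
      (∀ a b : R → ℝ, (∀ᵐ r ∂π, Supp (κ (X, r)) (a r) ∧ Supp (η (X, r)) (b r) ∧ a r + b r = X) →
        Supp (ζ X) X) ∧
      (∀ (f : α → R → ℝ → ℝ≥0∞) (g : β → R → ℝ → ℝ≥0∞),
        (∀ i, Measurable (Function.uncurry (f i))) → (∀ i, Measurable (Function.uncurry (g i))) →
        (∀ i, ∀ᵐ r ∂π, HasLoad ((κ (X, r)).map (fun y => y i)) (f i r)) →
        (∀ i, ∀ᵐ r ∂π, HasLoad ((η (X, r)).map (fun y => y i)) (g i r)) → ∀ i : α ⊕ β,
        HasLoad ((ζ X).map (fun y => y i)) (fun z =>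
          ((∑ j, ∫⁻ r, f j r z ∂π) + ∑ j, ∫⁻ r, g j r z ∂π) / (Fintype.card (α ⊕ β) : ℝ≥0∞))) ∧
      (∀ (u : α ⊕ β → ℤ) (F : Equiv.Perm (α ⊕ β) → ℝ → ℝ≥0∞), (∀ σ, Measurable (F σ)) →
        (∀ σ : Equiv.Perm (α ⊕ β), HasLoad (pairLaw κ η π X (u ∘ σ)) (F σ)) →
        HasLoad ((ζ X).map (lin u)) (fun z =>
          (∑ σ : Equiv.Perm (α ⊕ β), F σ z) / ((Fintype.card (α ⊕ β)).factorial : ℝ≥0∞))) := by
  obtain ⟨Z, hZ, hZ2⟩ := exists_prodKernel κ η
  obtain ⟨M, hM, hM2⟩ := exists_mixKernel_bind Z π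
  obtain ⟨ζ, hζ, hζ2⟩ := exists_symKernel M
  refine ⟨ζ, hζ, fun X => ⟨?_, ?_, ?_⟩⟩
  · intro a b h
    refine (hζ2 X).1 X ?_
    rw [hM2 X]
    refine bind_supp Z π X X ?_
    filter_upwards [h] with r hr
    have := (hZ2 (X, r)).1 (a r) (b r) hr.1 hr.2.1
    rwa [hr.2.2] at this
  · intro f g hf hg hfl hgl i
    have hmain := (hζ2 X).2.2 (Sum.elim (fun j z => ∫⁻ r, f j r z ∂π) (fun j z => ∫⁻ r, g j r z ∂π))
      (by
        rintro (j | j)
        · exact E3_meas π (f j) (hf j)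
        · exact E3_meas π (g j) (hg j))
      (by
        rintro (j | j)
        · rw [hM2 X]
          exact E3_coord Z π X (Sum.inl j) (fun r => (κ (X, r)).map (fun y => y j))
            (fun r => (hZ2 (X, r)).2.2.1 j) (f j) (hf j) (hfl j)
        · rw [hM2 X]
          exact E3_coord Z π X (Sum.inr j) (fun r => (η (X, r)).map (fun y => y j))
            (fun r => (hZ2 (X, r)).2.2.2 j) (g j) (hg j) (hgl j)) i
    simpa only [Fintype.sum_sum_type, Sum.elim_inl, Sum.elim_inr] using hmain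
  · intro u F hF hload
    refine (hζ2 X).2.1 u F hF (fun σ => ?_)
    have h1 : (M X).map (lin (u ∘ σ)) = pairLaw κ η π X (u ∘ σ) := by
      rw [hM2 X, bind_map Z π X _ (B7a_measurable_lin _)]
      unfold pairLaw
      congr 1
      funext r
      exact (hZ2 (X, r)).2.1 (u ∘ σ)
    rw [h1]
    exact hload σ

theorem exists_three {R α β γ : Type} [MeasurableSpace R] [Fintype α] [Fintype β] [Fintype γ]
    [DecidableEq α] [DecidableEq β] [DecidableEq γ] (κ : Kernel (ℝ × R) (α → ℝ))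
    (η : Kernel (ℝ × R) (β → ℝ)) (θ : Kernel (ℝ × R) (γ → ℝ)) [IsMarkovKernel κ]
    [IsMarkovKernel η] [IsMarkovKernel θ] (π : Measure R) [IsProbabilityMeasure π] :
    ∃ ζ : Kernel ℝ ((α ⊕ β) ⊕ γ → ℝ), IsMarkovKernel ζ ∧ ∀ X : ℝ,
      (∀ a b c : R → ℝ, (∀ᵐ r ∂π, Supp (κ (X, r)) (a r) ∧ Supp (η (X, r)) (b r) ∧
          Supp (θ (X, r)) (c r) ∧ a r + b r + c r = X) → Supp (ζ X) X) ∧
      (∀ (f : α → R → ℝ → ℝ≥0∞) (g : β → R → ℝ → ℝ≥0∞) (k : γ → R → ℝ → ℝ≥0∞),
        (∀ i, Measurable (Function.uncurry (f i))) → (∀ i, Measurable (Function.uncurry (g i))) →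
        (∀ i, Measurable (Function.uncurry (k i))) →
        (∀ i, ∀ᵐ r ∂π, HasLoad ((κ (X, r)).map (fun y => y i)) (f i r)) →
        (∀ i, ∀ᵐ r ∂π, HasLoad ((η (X, r)).map (fun y => y i)) (g i r)) →
        (∀ i, ∀ᵐ r ∂π, HasLoad ((θ (X, r)).map (fun y => y i)) (k i r)) → ∀ i : (α ⊕ β) ⊕ γ,
        HasLoad ((ζ X).map (fun y => y i)) (fun z =>
          ((∑ j, ∫⁻ r, f j r z ∂π) + (∑ j, ∫⁻ r, g j r z ∂π) + ∑ j, ∫⁻ r, k j r z ∂π)
            / (Fintype.card ((α ⊕ β) ⊕ γ) : ℝ≥0∞))) ∧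
      (∀ (u : (α ⊕ β) ⊕ γ → ℤ) (F : Equiv.Perm ((α ⊕ β) ⊕ γ) → ℝ → ℝ≥0∞),
        (∀ σ, Measurable (F σ)) →
        (∀ σ : Equiv.Perm ((α ⊕ β) ⊕ γ), HasLoad (triLaw κ η θ π X (u ∘ σ)) (F σ)) →
        HasLoad ((ζ X).map (lin u)) (fun z =>
          (∑ σ : Equiv.Perm ((α ⊕ β) ⊕ γ), F σ z)
            / ((Fintype.card ((α ⊕ β) ⊕ γ)).factorial : ℝ≥0∞))) := by
  obtain ⟨Y, hY, hY2⟩ := exists_prodKernel κ η
  obtain ⟨Z, hZ, hZ2⟩ := exists_prodKernel Y θ
  obtain ⟨M, hM, hM2⟩ := exists_mixKernel_bind Z π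
  obtain ⟨ζ, hζ, hζ2⟩ := exists_symKernel M
  refine ⟨ζ, hζ, fun X => ⟨?_, ?_, ?_⟩⟩
  · intro a b c h
    refine (hζ2 X).1 X ?_
    rw [hM2 X]
    refine bind_supp Z π X X ?_
    filter_upwards [h] with r hr
    have h1 := (hY2 (X, r)).1 (a r) (b r) hr.1 hr.2.1
    have h2 := (hZ2 (X, r)).1 (a r + b r) (c r) h1 hr.2.2.1
    rwa [hr.2.2.2] at h2
  · intro f g k hf hg hk hfl hgl hkl i
    have hmain := (hζ2 X).2.2 (Sum.elim (Sum.elim (fun j z => ∫⁻ r, f j r z ∂π)
        (fun j z => ∫⁻ r, g j r z ∂π)) (fun j z => ∫⁻ r, k j r z ∂π))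
      (by
        rintro ((j | j) | j)
        · exact E3_meas π (f j) (hf j)
        · exact E3_meas π (g j) (hg j)
        · exact E3_meas π (k j) (hk j))
      (by
        rintro ((j | j) | j)
        · rw [hM2 X]
          exact E3_coord Z π X (Sum.inl (Sum.inl j)) (fun r => (κ (X, r)).map (fun y => y j))
            (fun r => ((hZ2 (X, r)).2.2.1 (Sum.inl j)).trans ((hY2 (X, r)).2.2.1 j))
            (f j) (hf j) (hfl j)
        · rw [hM2 X]
          exact E3_coord Z π X (Sum.inl (Sum.inr j)) (fun r => (η (X, r)).map (fun y => y j))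
            (fun r => ((hZ2 (X, r)).2.2.1 (Sum.inr j)).trans ((hY2 (X, r)).2.2.2 j))
            (g j) (hg j) (hgl j)
        · rw [hM2 X]
          exact E3_coord Z π X (Sum.inr j) (fun r => (θ (X, r)).map (fun y => y j))
            (fun r => (hZ2 (X, r)).2.2.2 j) (k j) (hk j) (hkl j)) i
    simpa only [Fintype.sum_sum_type, Sum.elim_inl, Sum.elim_inr] using hmain
  · intro u F hF hload
    refine (hζ2 X).2.1 u F hF (fun σ => ?_)
    have h1 : (M X).map (lin (u ∘ σ)) = triLaw κ η θ π X (u ∘ σ) := by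
      rw [hM2 X, bind_map Z π X _ (B7a_measurable_lin _)]
      unfold triLaw
      congr 1
      funext r
      rw [(hZ2 (X, r)).2.1 (u ∘ σ), (hY2 (X, r)).2.1 (fun i => (u ∘ σ) (Sum.inl i))]
    rw [h1]
    exact hload σ

end Pool.Agent.helper49.Slope
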