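import Pool.Agent.helper49.Slope.DefsE
import Pool.Agent.helper49.Slope.B2a
import Pool.Agent.helper49.Slope.B2b

/-!
MP_aedd95_co (slope of k-fold hyperplane covers of triangular grids), module E4.
The uniform law on `[-h,h]`: moments and loads.
-/

set_option autoImplicit false

open MeasureTheory ProbabilityTheory
open scoped ENNReal

namespace Pool.Agent.helper49.Slope

theorem unif_prob {h : ℝ} (hh : 0 < h) : IsProbabilityMeasure (unif h) := by
  constructor
  unfold unif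
  rw [Measure.smul_apply, Measure.restrict_apply_univ, Real.volume_Icc, smul_eq_mul,
    ← ENNReal.ofReal_mul (by positivity)]
  rw [show 1 / (2 * h) * (h - -h) = 1 by field_simp; ring, ENNReal.ofReal_one]

theorem unif_ae {h : ℝ} : ∀ᵐ ξ ∂(unif h), |ξ| ≤ h := by
  unfold unif
  refine Measure.ae_smul_measure ?_ _
  filter_upwards [ae_restrict_mem measurableSet_Icc] with x hx
  exact abs_le.2 hx

theorem unif_load {h : ℝ} (hh : 0 < h) : HasLoad (unif h) (fun _ => ENNReal.ofReal (1 / h)) := by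
  unfold HasLoad unif
  rw [withDensity_const]
  have h1 : ENNReal.ofReal (1 / h) / 2 = ENNReal.ofReal (1 / (2 * h)) := by
    rw [show (1:ℝ) / (2 * h) = (1 / h) / 2 by field_simp,
      ENNReal.ofReal_div_of_pos (by norm_num : (0:ℝ) < 2), ENNReal.ofReal_ofNat]
  rw [h1]
  refine Measure.le_iff.2 fun s _ => ?_
  rw [Measure.smul_apply, Measure.smul_apply]
  exact mul_le_mul_right (Measure.restrict_apply_le _ s) _

/-- symmetry `ξ ↦ -ξ` -/
theorem unif_symm {h : ℝ} (f : ℝ → ℝ≥0∞) (hf : Measurable f) :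
    ∫⁻ ξ, f ξ ∂(unif h) = ∫⁻ ξ, (f ξ + f (-ξ)) / 2 ∂(unif h) := by
  have h1 : ∫⁻ ξ, f (-ξ) ∂(unif h) = ∫⁻ ξ, f ξ ∂(unif h) := by
    unfold unif
    rw [lintegral_smul_measure, lintegral_smul_measure]
    congr 1
    have hmp : MeasurePreserving (fun x : ℝ => -x) (volume.restrict (Set.Icc (-h) h))
        (volume.restrict (Set.Icc (-h) h)) := by
      have h2 := (Measure.measurePreserving_neg (volume : Measure ℝ)).restrict_preimage
        (measurableSet_Icc (a := -h) (b := h))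
      have h3 : (fun x : ℝ => -x) ⁻¹' Set.Icc (-h) h = Set.Icc (-h) h := by
        ext x
        simp only [Set.mem_preimage, Set.mem_Icc]
        constructor <;> rintro ⟨h4, h5⟩ <;> constructor <;> linarith
      have h4 : Neg.neg ⁻¹' Set.Icc (-h) h = Set.Icc (-h) h := h3
      rw [h4] at h2
      exact h2
    exact hmp.lintegral_comp hf
  have h2 : ∀ ξ, (f ξ + f (-ξ)) / 2 = (f ξ + f (-ξ)) * 2⁻¹ := fun ξ => div_eq_mul_inv _ _
  simp only [h2]
  rw [lintegral_mul_const _ (by fun_prop), lintegral_add_left hf, h1, ← two_mul, mul_comm,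
    ← mul_assoc, ENNReal.inv_mul_cancel (by norm_num) (by norm_num), one_mul]

theorem E4_real {h : ℝ} (hh : 0 < h) (f : ℝ → ℝ) :
    ∫ ξ, f ξ ∂(unif h) = (1 / (2 * h)) * ∫ x in (-h)..h, f x := by
  unfold unif
  rw [integral_smul_measure, ENNReal.toReal_ofReal (by positivity), smul_eq_mul,
    integral_Icc_eq_integral_Ioc, intervalIntegral.integral_of_le (by linarith)]

theorem E4_integrable {h : ℝ} {f : ℝ → ℝ} (hf : Continuous f) : Integrable f (unif h) := by
  unfold unif
  exact (hf.integrableOn_Icc).smul_measure ENNReal.ofReal_ne_top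

theorem E4_lint {h : ℝ} (hh : 0 < h) {f : ℝ → ℝ} (hf : Continuous f)
    (hp : ∀ x, |x| ≤ h → 0 ≤ f x) :
    ∫⁻ ξ, ENNReal.ofReal (f ξ) ∂(unif h) =
      ENNReal.ofReal ((1 / (2 * h)) * ∫ x in (-h)..h, f x) := by
  rw [← E4_real hh f]
  refine (ofReal_integral_eq_lintegral_ofReal (E4_integrable hf) ?_).symm
  filter_upwards [unif_ae (h := h)] with x hx
  exact hp x hx

theorem E4_abs {h : ℝ} (hh : 0 < h) {p : ℝ → ℝ} (hp : Continuous p) :
    ∫ x in (-h)..h, p |x| = 2 * ∫ r in (0:ℝ)..h, p r := by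
  have hc : Continuous fun x : ℝ => p |x| := hp.comp continuous_abs
  rw [← intervalIntegral.integral_add_adjacent_intervals (hc.intervalIntegrable (-h) 0)
    (hc.intervalIntegrable 0 h)]
  have h1 : ∫ x in (0:ℝ)..h, p |x| = ∫ r in (0:ℝ)..h, p r := by
    apply intervalIntegral.integral_congr
    intro x hx
    rw [Set.uIcc_of_le hh.le] at hx
    simp only [abs_of_nonneg hx.1]
  have h2 : ∫ x in (-h)..0, p |x| = ∫ r in (0:ℝ)..h, p r := by
    have h3 := intervalIntegral.integral_comp_neg (a := 0) (b := h) (fun x => p |x|)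
    simp only [abs_neg, neg_zero] at h3
    rw [← h3, h1]
  rw [h1, h2]
  ring

theorem E4_pow {h : ℝ} (hh : 0 < h) (i : ℕ) :
    ∫ ξ, |ξ| ^ i ∂(unif h) = h ^ i / (i + 1) := by
  rw [E4_real hh, E4_abs hh (p := fun x => x ^ i) (by fun_prop), integral_pow]
  have : (i : ℝ) + 1 ≠ 0 := by positivity
  simp only [ne_eq, Nat.add_eq_zero_iff, one_ne_zero, and_false, not_false_eq_true, zero_pow,
    sub_zero]
  field_simp
  ring


/-- moments, one variable -/
theorem unif_moment {h : ℝ} (hh : 0 < h) (c0 c1 c2 c3 : ℝ)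
    (hp : ∀ r : ℝ, 0 ≤ r → r ≤ h → 0 ≤ c0 + c1 * r + c2 * r ^ 2 + c3 * r ^ 3) :
    ∫⁻ ξ, ENNReal.ofReal (c0 + c1 * |ξ| + c2 * |ξ| ^ 2 + c3 * |ξ| ^ 3) ∂(unif h)
      = ENNReal.ofReal (c0 + c1 * (h / 2) + c2 * (h ^ 2 / 3) + c3 * (h ^ 3 / 4)) := by
  have hc : Continuous fun x : ℝ => c0 + c1 * x + c2 * x ^ 2 + c3 * x ^ 3 := by fun_prop
  rw [E4_lint hh (f := fun ξ => c0 + c1 * |ξ| + c2 * |ξ| ^ 2 + c3 * |ξ| ^ 3) (by fun_prop)
    (fun x hx => hp |x| (abs_nonneg x) hx),
    E4_abs hh (p := fun x => c0 + c1 * x + c2 * x ^ 2 + c3 * x ^ 3) hc]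
  congr 1
  rw [intervalIntegral.integral_add (by apply Continuous.intervalIntegrable; fun_prop)
    (by apply Continuous.intervalIntegrable; fun_prop),
    intervalIntegral.integral_add (by apply Continuous.intervalIntegrable; fun_prop)
    (by apply Continuous.intervalIntegrable; fun_prop),
    intervalIntegral.integral_add (by apply Continuous.intervalIntegrable; fun_prop)
    (by apply Continuous.intervalIntegrable; fun_prop)]
  have e1 : ∫ x in (0:ℝ)..h, c1 * x = c1 * (h ^ 2 / 2) := by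
    rw [intervalIntegral.integral_const_mul, integral_id]
    ring
  rw [e1]
  simp only [intervalIntegral.integral_const_mul, intervalIntegral.integral_const,
    integral_pow, smul_eq_mul]
  field_simp
  ring

/-- `E|ξ+s| = (h² + s²)/(2h)` for `|s| ≤ h`, together with the other terms of degree at most 2 -/
theorem unif_shift_moment {h : ℝ} (hh : 0 < h) (s : ℝ) (hs : |s| ≤ h) (c0 c1 c2 : ℝ)
    (h0 : 0 ≤ c0) (h1 : 0 ≤ c1) (h2 : 0 ≤ c2) :
    ∫⁻ ξ, ENNReal.ofReal (c0 + c1 * |ξ + s| + c2 * (ξ + s) ^ 2) ∂(unif h)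
      = ENNReal.ofReal (c0 + c1 * ((h ^ 2 + s ^ 2) / (2 * h)) + c2 * (h ^ 2 / 3 + s ^ 2)) := by
  obtain ⟨hs1, hs2⟩ := abs_le.1 hs
  rw [E4_lint hh (f := fun ξ => c0 + c1 * |ξ + s| + c2 * (ξ + s) ^ 2) (by fun_prop)
    (fun x _ => by positivity)]
  congr 1
  have h3 := intervalIntegral.integral_comp_add_right (a := -h) (b := h)
    (fun x => c0 + c1 * |x| + c2 * x ^ 2) s
  rw [h3]
  have hc : Continuous fun x : ℝ => c0 + c1 * |x| + c2 * x ^ 2 := by fun_prop
  rw [← intervalIntegral.integral_add_adjacent_intervals (hc.intervalIntegrable (-h + s) 0)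
    (hc.intervalIntegrable 0 (h + s))]
  have h4 : ∫ x in (0:ℝ)..(h + s), (c0 + c1 * |x| + c2 * x ^ 2) =
      ∫ x in (0:ℝ)..(h + s), (c0 + c1 * x + c2 * x ^ 2) := by
    apply intervalIntegral.integral_congr
    intro x hx
    rw [Set.uIcc_of_le (by linarith)] at hx
    simp only [abs_of_nonneg hx.1]
  have h5 : ∫ x in (-h + s)..0, (c0 + c1 * |x| + c2 * x ^ 2) =
      ∫ x in (-h + s)..0, (c0 + (-c1) * x + c2 * x ^ 2) := by
    apply intervalIntegral.integral_congr
    intro x hx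
    rw [Set.uIcc_of_le (by linarith)] at hx
    simp only [abs_of_nonpos hx.2]
    ring
  have h6 : ∀ a b d : ℝ, ∫ x in a..b, (c0 + d * x + c2 * x ^ 2) =
      c0 * (b - a) + d * ((b ^ 2 - a ^ 2) / 2) + c2 * ((b ^ 3 - a ^ 3) / 3) := by
    intro a b d
    rw [intervalIntegral.integral_add (by apply Continuous.intervalIntegrable; fun_prop)
      (by apply Continuous.intervalIntegrable; fun_prop),
      intervalIntegral.integral_add (by apply Continuous.intervalIntegrable; fun_prop)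
      (by apply Continuous.intervalIntegrable; fun_prop)]
    have e1 : ∫ x in a..b, d * x = d * ((b ^ 2 - a ^ 2) / 2) := by
      rw [intervalIntegral.integral_const_mul, integral_id]
    rw [e1]
    simp only [intervalIntegral.integral_const_mul, intervalIntegral.integral_const,
      integral_pow, smul_eq_mul]
    norm_num
    ring
  rw [h4, h5, h6, h6]
  field_simp
  ring

/-- moments, two independent variables; `c i j` is the coefficient of `|ξ₁|^i |ξ₂|^j` -/
theorem unif_moment_two {h k : ℝ} (hh : 0 < h) (hk : 0 < k) (c : Fin 4 → Fin 4 → ℝ)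
    (hp : ∀ r s : ℝ, 0 ≤ r → r ≤ h → 0 ≤ s → s ≤ k →
      0 ≤ ∑ i : Fin 4, ∑ j : Fin 4, c i j * r ^ (i : ℕ) * s ^ (j : ℕ)) :
    ∫⁻ ξ, ENNReal.ofReal (∑ i : Fin 4, ∑ j : Fin 4, c i j * |ξ.1| ^ (i : ℕ) * |ξ.2| ^ (j : ℕ))
        ∂((unif h).prod (unif k))
      = ENNReal.ofReal (∑ i : Fin 4, ∑ j : Fin 4,
          c i j * (h ^ (i : ℕ) / ((i : ℕ) + 1)) * (k ^ (j : ℕ) / ((j : ℕ) + 1))) := by
  have := unif_prob hh
  have := unif_prob hk
  have hint : ∀ i j : Fin 4, Integrable (fun ξ : ℝ × ℝ => c i j * |ξ.1| ^ (i : ℕ) * |ξ.2| ^ (j : ℕ))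
      ((unif h).prod (unif k)) := by
    intro i j
    exact (E4_integrable (h := h) (f := fun x => c i j * |x| ^ (i : ℕ)) (by fun_prop)).mul_prod
      (E4_integrable (h := k) (f := fun x => |x| ^ (j : ℕ)) (by fun_prop))
  have hval : ∀ i j : Fin 4, ∫ ξ : ℝ × ℝ, c i j * |ξ.1| ^ (i : ℕ) * |ξ.2| ^ (j : ℕ)
      ∂((unif h).prod (unif k)) =
      c i j * (h ^ (i : ℕ) / ((i : ℕ) + 1)) * (k ^ (j : ℕ) / ((j : ℕ) + 1)) := by
    intro i j
    have h1 := integral_prod_mul (μ := unif h) (ν := unif k) (fun x : ℝ => c i j * |x| ^ (i : ℕ))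
      (fun x : ℝ => |x| ^ (j : ℕ))
    rw [h1, integral_const_mul, E4_pow hh, E4_pow hk]
  rw [← ofReal_integral_eq_lintegral_ofReal]
  · congr 1
    rw [integral_finsetSum _ (fun i _ => integrable_finsetSum _ (fun j _ => hint i j))]
    refine Finset.sum_congr rfl fun i _ => ?_
    rw [integral_finsetSum _ (fun j _ => hint i j)]
    exact Finset.sum_congr rfl fun j _ => hval i j
  · exact integrable_finsetSum _ (fun i _ => integrable_finsetSum _ (fun j _ => hint i j))
  · have h1 : ∀ᵐ ξ ∂((unif h).prod (unif k)), |ξ.1| ≤ h :=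
      Measure.quasiMeasurePreserving_fst.ae unif_ae
    have h2 : ∀ᵐ ξ ∂((unif h).prod (unif k)), |ξ.2| ≤ k :=
      Measure.quasiMeasurePreserving_snd.ae unif_ae
    filter_upwards [h1, h2] with ξ h3 h4
    exact hp _ _ (abs_nonneg _) h3 (abs_nonneg _) h4

theorem E4_scale {h : ℝ} (hh : 0 < h) (p : ℝ) (hp : 1 ≤ |p|) :
    HasLoad ((unif h).map (fun ξ => p * ξ)) (fun _ => ENNReal.ofReal (1 / h)) := by
  have hp0 : p ≠ 0 := by
    intro h0
    rw [h0, abs_zero] at hp
    linarith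
  refine (HasLoad.scale measurable_const (unif_load hh) p hp0).mono fun z => ?_
  have h1 : ENNReal.ofReal (1 / |p|) ≤ 1 := by
    rw [← ENNReal.ofReal_one]
    apply ENNReal.ofReal_le_ofReal
    rw [div_le_one (by linarith)]
    exact hp
  calc ENNReal.ofReal (1 / |p|) * ENNReal.ofReal (1 / h) ≤ 1 * ENNReal.ofReal (1 / h) :=
        mul_le_mul_left h1 _
    _ = _ := one_mul _

theorem E4_affine {h : ℝ} (hh : 0 < h) (p r : ℝ) (hp : 1 ≤ |p|) :
    HasLoad ((unif h).map (fun ξ => p * ξ + r)) (fun _ => ENNReal.ofReal (1 / h)) := by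
  have h1 := HasLoad.shift measurable_const (E4_scale hh p hp) r
  rw [Measure.map_map (by fun_prop) (by fun_prop)] at h1
  exact h1

theorem E4_prob {h : ℝ} (hh : 0 < h) (p r : ℝ) :
    IsProbabilityMeasure ((unif h).map (fun ξ => p * ξ + r)) := by
  have := unif_prob hh
  exact Measure.isProbabilityMeasure_map (by fun_prop)

theorem E4_cnv {h k : ℝ} (hh : 0 < h) (hk : 0 < k) (p q r : ℝ) :
    ((unif h).prod (unif k)).map (fun ξ => p * ξ.1 + q * ξ.2 + r) =
      cnv ((unif h).map (fun ξ => p * ξ + r)) ((unif k).map (fun ξ => q * ξ + 0)) := by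
  have := unif_prob hh
  have := unif_prob hk
  unfold cnv
  rw [Measure.map_prod_map _ _ (by fun_prop) (by fun_prop),
    Measure.map_map (by fun_prop) (by fun_prop)]
  congr 1
  ext ξ
  simp only [Function.comp_apply, Prod.map_fst, Prod.map_snd]
  ring

/-- linear forms in two independent uniform variables, first coefficient of modulus `≥ 1` -/
theorem unif_lin_load_fst {h k : ℝ} (hh : 0 < h) (hk : 0 < k) (p q r : ℝ) (hp : 1 ≤ |p|) :
    HasLoad (((unif h).prod (unif k)).map (fun ξ => p * ξ.1 + q * ξ.2 + r))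
      (fun _ => ENNReal.ofReal (1 / h)) := by
  have := E4_prob hh p r
  have := E4_prob hk q 0
  rw [E4_cnv hh hk]
  exact HasLoad.cnv_const (E4_affine hh p r hp)

/-- second coefficient of modulus `≥ 1` -/
theorem unif_lin_load_snd {h k : ℝ} (hh : 0 < h) (hk : 0 < k) (p q r : ℝ) (hq : 1 ≤ |q|) :
    HasLoad (((unif h).prod (unif k)).map (fun ξ => p * ξ.1 + q * ξ.2 + r))
      (fun _ => ENNReal.ofReal (1 / k)) := by
  have := E4_prob hh p r
  have := E4_prob hk q 0
  rw [E4_cnv hh hk, cnv_comm]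
  exact HasLoad.cnv_const (E4_affine hk q 0 hq)

/-- one variable -/
theorem unif_affine_load {h : ℝ} (hh : 0 < h) (p r : ℝ) (hp : 1 ≤ |p|) :
    HasLoad ((unif h).map (fun ξ => p * ξ + r)) (fun _ => ENNReal.ofReal (1 / h)) :=
  E4_affine hh p r hp

end Pool.Agent.helper49.Slope
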