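import Pool.Agent.helper49.Slope.E1
import Pool.Agent.helper49.Slope.E2
import Pool.Agent.helper49.Slope.E3
import Pool.Agent.helper49.Slope.B8a

/-!
MP_aedd95_co (slope of k-fold hyperplane covers of triangular grids), module E5.
The two-block criterion. (helper51)

PROOF. Apply `exists_two` with `R = ℝ`, the kernels `κ.comap (fun p => p.2)` (block sum `ξ`) and
`η.comap (fun p => p.1 - p.2)` (block sum `X - ξ`). Let `|X| ≤ h0`.
* Support: `a r = r`, `b r = X - r`.
* Singles: with `f i r = sprof (2/m r)`, `g i r = sprof (2/m' (X-r))` (bounded by `exists_two`):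
  `∑_j ∫ f + ∑_j ∫ g = m ∫ sprof(2ξ/m) + m' ∫ sprof (2(X-ξ)/m')`, and for `0 ≤ z ≤ 1` this is
  `∫ (m + 2ξ) + (m' + 2(X-ξ)) = (m+m') (1 + 2X/(m+m'))` (all quantities nonnegative because
  `hA, hB ≤ 1/2`), similarly for `-1 ≤ z < 0`.
* Rich forms `u`: take `P` from `exists_half_levels`, `T = {i | P (u i)}`, `t = |T|`. For a
  permutation `σ` let `j = #{i : α | P (u (σ (inl i)))}`, so `t - j = #{i : β | …}`. By
  `tyc_le_ty` the types `a, b` of the two restrictions of `u ∘ σ` satisfy
  `(tyc m j).rk ≤ a.rk`, `(tyc m' (t-j)).rk ≤ b.rk`. If `(a,b) ≠ (C,C)` then `pairLaw_load` with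
  `f r z = ofReal (g a b r (X-r))` and `hG` give the load `G a b ≤ G (tyc m j) (tyc m' (t-j))`. If
  `a = b = C` the two constants differ (`u` is not constant), the law is that of
  `t₁ ξ + t₂ (X - ξ)`, an affine image of `π` with integer factor `t₁ - t₂ ≠ 0`, load `≤ G C C`,
  and `G C C = G (tyc m j) (tyc m' (t-j))` as ranks can only go up. So the constant
  `F σ = G (tyc m j) (tyc m' (t-j))` works; the average over `σ` is computed by `sum_perm_two`
  and is `≤ 1` by `hsum`.
-/

set_option autoImplicit false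

open MeasureTheory ProbabilityTheory
open scoped ENNReal

namespace Pool.Agent.helper49.Slope

theorem E5_meas_sprof : Measurable (fun p : ℝ × ℝ => sprof p.1 p.2) := by
  unfold sprof
  refine Measurable.ite (measurableSet_le (by fun_prop) measurable_const) ?_ measurable_const
  exact Measurable.ite (measurableSet_le measurable_const measurable_snd) (by fun_prop)
    (by fun_prop)

theorem E5_affine {π : Measure ℝ} {K : ℝ≥0∞} (h : HasLoad π (fun _ => K)) (c : ℤ) (hc : c ≠ 0)
    (d : ℝ) : HasLoad (π.map (fun z => (c : ℝ) * z + d)) (fun _ => K) := by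
  have hc' : (c : ℝ) ≠ 0 := by exact_mod_cast hc
  have h1 := HasLoad.scale measurable_const h (c : ℝ) hc'
  have h2 : HasLoad (π.map (fun z => (c : ℝ) * z)) (fun _ => K) := by
    refine h1.mono fun z => ?_
    have h3 : ENNReal.ofReal (1 / |(c : ℝ)|) ≤ 1 := by
      rw [ENNReal.ofReal_le_one]
      have : (1 : ℝ) ≤ |(c : ℝ)| := by exact_mod_cast Int.one_le_abs hc
      rw [div_le_one (by linarith)]
      exact this
    calc ENNReal.ofReal (1 / |(c : ℝ)|) * K ≤ 1 * K := by gcongr
      _ = K := one_mul K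
  have h3 := HasLoad.shift measurable_const h2 d
  rw [Measure.map_map (by fun_prop) (by fun_prop)] at h3
  exact h3

/-- average of the profiles -/
theorem E5_avg {m m' : ℕ} (hm : 3 ≤ m) (hm' : 3 ≤ m') {hA hB X : ℝ} (hA1 : hA ≤ 1 / 2)
    (hB1 : hB ≤ 1 / 2) (π : Measure ℝ) [IsProbabilityMeasure π]
    (hs : ∀ᵐ ξ ∂π, |ξ| ≤ hA ∧ |X - ξ| ≤ hB) (z : ℝ) :
    ((m : ℝ≥0∞) * ∫⁻ r, sprof (2 / (m : ℝ) * r) z ∂π +
      (m' : ℝ≥0∞) * ∫⁻ r, sprof (2 / (m' : ℝ) * (X - r)) z ∂π) / ((m + m' : ℕ) : ℝ≥0∞) ≤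
      sprof (2 / ((m + m' : ℕ) : ℝ) * X) z := by
  by_cases hz : |z| ≤ 1
  · have hs0 : ∃ s : ℝ, |s| = 1 ∧ ∀ a, sprof a z = ENNReal.ofReal (1 + s * a) := by
      by_cases h0 : 0 ≤ z
      · exact ⟨1, by simp, fun a => by simp [sprof, hz, h0]⟩
      · exact ⟨-1, by simp, fun a => by
          simp only [sprof, if_pos hz, if_neg h0]
          congr 1; ring⟩
    obtain ⟨s, hs1, hsp⟩ := hs0
    have hmR : (3 : ℝ) ≤ m := by exact_mod_cast hm
    have hmR' : (3 : ℝ) ≤ m' := by exact_mod_cast hm'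
    have hmul : ∀ (k : ℕ) (a : ℝ), (k : ℝ≥0∞) * ENNReal.ofReal a = ENNReal.ofReal (k * a) := by
      intro k a
      rw [ENNReal.ofReal_mul (by positivity), ENNReal.ofReal_natCast]
    have e1 : (m : ℝ≥0∞) * ∫⁻ r, sprof (2 / (m : ℝ) * r) z ∂π =
        ∫⁻ r, ENNReal.ofReal (m + 2 * s * r) ∂π := by
      rw [← lintegral_const_mul' _ _ (ENNReal.natCast_ne_top m)]
      refine lintegral_congr fun r => ?_
      rw [hsp, hmul]
      congr 1
      field_simp
    have e2 : (m' : ℝ≥0∞) * ∫⁻ r, sprof (2 / (m' : ℝ) * (X - r)) z ∂π =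
        ∫⁻ r, ENNReal.ofReal (m' + 2 * s * (X - r)) ∂π := by
      rw [← lintegral_const_mul' _ _ (ENNReal.natCast_ne_top m')]
      refine lintegral_congr fun r => ?_
      rw [hsp, hmul]
      congr 1
      field_simp
    have e3 : ∫⁻ r, ENNReal.ofReal (m + 2 * s * r) ∂π +
        ∫⁻ r, ENNReal.ofReal (m' + 2 * s * (X - r)) ∂π =
        ENNReal.ofReal (m + m' + 2 * s * X) := by
      rw [← lintegral_add_left (by fun_prop)]
      have e4 : ∀ᵐ r ∂π, ENNReal.ofReal (m + 2 * s * r) + ENNReal.ofReal (m' + 2 * s * (X - r)) =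
          ENNReal.ofReal (m + m' + 2 * s * X) := by
        filter_upwards [hs] with r hr
        have h1 : |s * r| ≤ 1 / 2 := by
          rw [abs_mul, hs1, one_mul]; linarith [hr.1]
        have h2 : |s * (X - r)| ≤ 1 / 2 := by
          rw [abs_mul, hs1, one_mul]; linarith [hr.2]
        rw [abs_le] at h1 h2
        rw [← ENNReal.ofReal_add (by linarith [h1.1]) (by linarith [h2.1])]
        congr 1
        ring
      rw [lintegral_congr_ae e4]
      simp
    rw [e1, e2, e3, hsp]
    rw [← ENNReal.ofReal_natCast, ← ENNReal.ofReal_div_of_pos (by push_cast; linarith)]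
    apply ENNReal.ofReal_le_ofReal
    apply le_of_eq
    have : (m : ℝ) + m' ≠ 0 := by linarith
    push_cast
    field_simp
  · have h0 : ∀ a, sprof a z = 0 := fun a => by simp [sprof, hz]
    simp [h0]

theorem two_block {α β : Type} [Fintype α] [Fintype β] [DecidableEq α] [DecidableEq β]
    (hα : 3 ≤ Fintype.card α) (hβ : 3 ≤ Fintype.card β)
    (κ : Kernel ℝ (α → ℝ)) [IsMarkovKernel κ] (η : Kernel ℝ (β → ℝ)) [IsMarkovKernel η]
    {hA hB h0 : ℝ} {PA nA PB nB : ℝ → ℝ} (bA : Blk κ hA PA nA) (bB : Blk η hB PB nB)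
    (hA1 : hA ≤ 1 / 2) (hB1 : hB ≤ 1 / 2)
    (π : Measure ℝ) [IsProbabilityMeasure π]
    (hs : ∀ X : ℝ, |X| ≤ h0 → ∀ᵐ ξ ∂π, |ξ| ≤ hA ∧ |X - ξ| ≤ hB)
    (g : Ty → Ty → ℝ → ℝ → ℝ) (hgm : ∀ a b, Measurable (Function.uncurry (g a b)))
    (hg : ∀ x y : ℝ, |x| ≤ hA → |y| ≤ hB → ∀ a b : Ty, ¬ (a = Ty.C ∧ b = Ty.C) →
      PairBd κ η x y a b (g a b x y))
    (G : Ty → Ty → ℝ) (hpos : ∀ a b, 0 ≤ G a b)
    (hK : HasLoad π (fun _ => ENNReal.ofReal (G Ty.C Ty.C)))
    (hG : ∀ X : ℝ, |X| ≤ h0 → ∀ a b : Ty, ¬ (a = Ty.C ∧ b = Ty.C) →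
      ∫⁻ ξ, ENNReal.ofReal (g a b ξ (X - ξ)) ∂π ≤ ENNReal.ofReal (G a b))
    (hmono : ∀ a a' b b' : Ty, a.rk ≤ a'.rk → b.rk ≤ b'.rk → G a' b' ≤ G a b)
    (hsum : ∀ t : ℕ, 2 ≤ t → 2 * t ≤ Fintype.card α + Fintype.card β →
      ∑ j ∈ Finset.range (t + 1), ((Fintype.card α).choose j : ℝ) *
        ((Fintype.card β).choose (t - j)) *
        G (tyc (Fintype.card α) j) (tyc (Fintype.card β) (t - j))
        ≤ ((Fintype.card α + Fintype.card β).choose t : ℝ)) :
    Fam (α ⊕ β) h0 := by
  classical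
  set m := Fintype.card α with hm
  set m' := Fintype.card β with hm'
  set K₁ : Kernel (ℝ × ℝ) (α → ℝ) := κ.comap (fun p => p.2) measurable_snd with hK1
  set K₂ : Kernel (ℝ × ℝ) (β → ℝ) := η.comap (fun p => p.1 - p.2) (by fun_prop) with hK2
  have e1 : ∀ X r : ℝ, K₁ (X, r) = κ r := fun X r => by rw [hK1, Kernel.comap_apply]
  have e2 : ∀ X r : ℝ, K₂ (X, r) = η (X - r) := fun X r => by rw [hK2, Kernel.comap_apply]
  have : IsMarkovKernel K₁ := by rw [hK1]; infer_instance
  have : IsMarkovKernel K₂ := by rw [hK2]; infer_instance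
  obtain ⟨ζ, hζM, hζ⟩ := exists_two K₁ K₂ π
  refine ⟨ζ, hζM, fun X hX => ⟨?_, ?_, ?_⟩⟩
  · refine (hζ X).1 (fun r => r) (fun r => X - r) ?_
    filter_upwards [hs X hX] with r hr
    rw [e1, e2]
    exact ⟨bA.supp r hr.1, bB.supp (X - r) hr.2, by ring⟩
  · intro i
    have h1 := (hζ X).2.1 (fun _ r z => sprof (2 / (m : ℝ) * r) z)
      (fun _ r z => sprof (2 / (m' : ℝ) * (X - r)) z)
      (fun _ => E5_meas_sprof.comp (f := fun p : ℝ × ℝ => (2 / (m : ℝ) * p.1, p.2)) (by fun_prop))
      (fun _ => E5_meas_sprof.comp (f := fun p : ℝ × ℝ => (2 / (m' : ℝ) * (X - p.1), p.2))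
        (by fun_prop))
      (fun j => by
        filter_upwards [hs X hX] with r hr
        rw [e1]
        exact bA.single r hr.1 j)
      (fun j => by
        filter_upwards [hs X hX] with r hr
        rw [e2]
        exact bB.single (X - r) hr.2 j) i
    refine h1.mono fun z => ?_
    have h2 := E5_avg (hm ▸ hα) (hm' ▸ hβ) hA1 hB1 π (hs X hX) z
    simp only [Finset.sum_const, Finset.card_univ, nsmul_eq_mul, Fintype.card_sum]
    rw [← hm, ← hm']
    exact h2
  · intro u hu
    have hcard : Fintype.card (α ⊕ β) = m + m' := Fintype.card_sum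
    obtain ⟨P, hP2, hPh⟩ := exists_half_levels (ι := α ⊕ β) (by rw [hcard]; omega) u hu
    set T : Finset (α ⊕ β) := Finset.univ.filter (fun i => P (u i) = true) with hT
    let jl : Equiv.Perm (α ⊕ β) → ℕ := fun σ =>
      (Finset.univ.filter (fun i : α => σ (Sum.inl i) ∈ T)).card
    let jr : Equiv.Perm (α ⊕ β) → ℕ := fun σ =>
      (Finset.univ.filter (fun i : β => σ (Sum.inr i) ∈ T)).card
    have hjl : ∀ σ : Equiv.Perm (α ⊕ β), (tyc m (jl σ)).rk ≤
        (ty (fun i : α => (u ∘ σ) (Sum.inl i))).rk := by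
      intro σ
      have h1 := tyc_le_ty (fun i : α => (u ∘ σ) (Sum.inl i)) P
      have h2 : jl σ = (Finset.univ.filter (fun i : α => P ((u ∘ σ) (Sum.inl i)) = true)).card := by
        simp only [jl, hT, Finset.mem_filter, Finset.mem_univ, true_and, Function.comp]
      rw [h2]
      exact h1
    have hjr : ∀ σ : Equiv.Perm (α ⊕ β), (tyc m' (jr σ)).rk ≤
        (ty (fun i : β => (u ∘ σ) (Sum.inr i))).rk := by
      intro σ
      have h1 := tyc_le_ty (fun i : β => (u ∘ σ) (Sum.inr i)) P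
      have h2 : jr σ = (Finset.univ.filter (fun i : β => P ((u ∘ σ) (Sum.inr i)) = true)).card := by
        simp only [jr, hT, Finset.mem_filter, Finset.mem_univ, true_and, Function.comp]
      rw [h2]
      exact h1
    let F : Equiv.Perm (α ⊕ β) → ℝ → ℝ≥0∞ := fun σ _ =>
      ENNReal.ofReal (G (tyc m (jl σ)) (tyc m' (jr σ)))
    have h3 := (hζ X).2.2 u F (fun σ => measurable_const) ?_
    · refine h3.mono fun z => ?_
      have h4 := sum_perm_two T (fun j j' => G (tyc m j) (tyc m' j'))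
      have h5 : ∑ σ : Equiv.Perm (α ⊕ β), G (tyc m (jl σ)) (tyc m' (jr σ)) ≤
          ((Fintype.card (α ⊕ β)).factorial : ℝ) := by
        have h6 : ∑ σ : Equiv.Perm (α ⊕ β), G (tyc m (jl σ)) (tyc m' (jr σ)) =
            ((Fintype.card (α ⊕ β)).factorial : ℝ) *
            (∑ j ∈ Finset.range (T.card + 1), ((Fintype.card α).choose j : ℝ) *
              ((Fintype.card β).choose (T.card - j)) * G (tyc m j) (tyc m' (T.card - j))) /
            ((Fintype.card (α ⊕ β)).choose T.card) := by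
          rw [← h4]
        rw [h6, mul_div_assoc]
        have h7 := hsum T.card hP2 (by rw [← hcard]; exact hPh)
        have h8 : (0 : ℝ) < ((Fintype.card (α ⊕ β)).choose T.card : ℝ) := by
          have : T.card ≤ Fintype.card (α ⊕ β) := Finset.card_le_univ T
          exact_mod_cast Nat.choose_pos this
        have h9 : (∑ j ∈ Finset.range (T.card + 1), ((Fintype.card α).choose j : ℝ) *
              ((Fintype.card β).choose (T.card - j)) * G (tyc m j) (tyc m' (T.card - j))) /
            ((Fintype.card (α ⊕ β)).choose T.card) ≤ 1 := by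
          rw [div_le_one h8, hcard]
          exact h7
        calc _ ≤ ((Fintype.card (α ⊕ β)).factorial : ℝ) * 1 :=
              mul_le_mul_of_nonneg_left h9 (by positivity)
          _ = _ := mul_one _
      have h10 : ∑ σ : Equiv.Perm (α ⊕ β), F σ z =
          ENNReal.ofReal (∑ σ : Equiv.Perm (α ⊕ β), G (tyc m (jl σ)) (tyc m' (jr σ))) :=
        (ENNReal.ofReal_sum_of_nonneg fun σ _ => hpos _ _).symm
      rw [h10]
      refine ENNReal.div_le_of_le_mul ?_
      rw [one_mul, ← ENNReal.ofReal_natCast]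
      exact ENNReal.ofReal_le_ofReal h5
    · intro σ
      by_cases hC : ty (fun i : α => (u ∘ σ) (Sum.inl i)) = Ty.C ∧
          ty (fun i : β => (u ∘ σ) (Sum.inr i)) = Ty.C
      · -- both constant
        have hc1 := (ty_eq_C _).1 hC.1
        have hc2 := (ty_eq_C _).1 hC.2
        have hrk : ∀ a : Ty, a.rk ≤ Ty.C.rk → a = Ty.C := by
          intro a ha
          cases a <;> simp [Ty.rk] at ha ⊢
        have t1 : tyc m (jl σ) = Ty.C := hrk _ (by
          have := hjl σ
          rwa [hC.1] at this)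
        have t2 : tyc m' (jr σ) = Ty.C := hrk _ (by
          have := hjr σ
          rwa [hC.2] at this)
        have hF : F σ = fun _ => ENNReal.ofReal (G Ty.C Ty.C) := by
          funext z
          simp only [F, t1, t2]
        rw [hF]
        have hαn : Nonempty α := Fintype.card_pos_iff.1 (by omega)
        have hβn : Nonempty β := Fintype.card_pos_iff.1 (by omega)
        obtain ⟨i0⟩ := hαn
        obtain ⟨k0⟩ := hβn
        set s1 : ℤ := (u ∘ σ) (Sum.inl i0) with hs1
        set s2 : ℤ := (u ∘ σ) (Sum.inr k0) with hs2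
        have hne : s1 - s2 ≠ 0 := by
          intro h0
          have h0' : s1 = s2 := by omega
          refine Rich.perm u σ hu ⟨Sum.inl i0, s1, fun j _ => ?_⟩
          rcases j with j | j
          · exact hc1 j i0
          · rw [h0']
            exact hc2 j k0
        have hlaw := pairLaw_dirac K₁ K₂ π X (u ∘ σ) (fun r => (s1 : ℝ) * r)
          (fun r => (s2 : ℝ) * (X - r)) (by fun_prop) (by fun_prop) (by
            filter_upwards [hs X hX] with r hr
            rw [e1, e2]
            exact ⟨bA.const_form hr.1 s1 _ (fun i => hc1 i i0),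
              bB.const_form hr.2 s2 _ (fun i => hc2 i k0)⟩)
        rw [hlaw]
        have h11 := E5_affine hK (s1 - s2) hne ((s2 : ℝ) * X)
        have h12 : (fun r : ℝ => (s1 : ℝ) * r + (s2 : ℝ) * (X - r)) =
            fun r => ((s1 - s2 : ℤ) : ℝ) * r + (s2 : ℝ) * X := by
          funext r
          push_cast
          ring
        rw [h12]
        exact h11
      · set a := ty (fun i : α => (u ∘ σ) (Sum.inl i)) with ha
        set b := ty (fun i : β => (u ∘ σ) (Sum.inr i)) with hb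
        have h13 := pairLaw_load K₁ K₂ π X (u ∘ σ)
          (fun r _ => ENNReal.ofReal (g a b r (X - r))) (by
            have h14 : Measurable (fun p : ℝ × ℝ => g a b p.1 (X - p.1)) :=
              (hgm a b).comp (f := fun p : ℝ × ℝ => (p.1, X - p.1)) (by fun_prop)
            exact h14.ennreal_ofReal) (by
            filter_upwards [hs X hX] with r hr
            rw [e1, e2]
            exact hg r (X - r) hr.1 hr.2 a b hC _ _ rfl rfl)
        refine h13.mono fun z => ?_
        refine (hG X hX a b hC).trans ?_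
        exact ENNReal.ofReal_le_ofReal (hmono _ _ _ _ (hjl σ) (hjr σ))

end Pool.Agent.helper49.Slope
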