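import Pool.Agent.helper49.Slope.DefsF

/-!
MP_aedd95_co (slope of k-fold hyperplane covers of triangular grids), module F4a.
The vectors of the block of size 4: sums, lengths, the quadratic form. Everything is a direct
computation (expand; `Real.sq_sqrt`, `Real.sqrt_le_sqrt`, `nlinarith`).
-/

set_option autoImplicit false

open MeasureTheory ProbabilityTheory
open scoped ENNReal

namespace Pool.Agent.helper49.Slope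

set_option linter.unusedSimpArgs false
set_option linter.style.longLine false

theorem F4a_vN4_00 (x : ℝ) : vN4 x 0 0 = (1 - |x|) := rfl
theorem F4a_vN4_01 (x : ℝ) : vN4 x 0 1 = 0 := rfl
theorem F4a_vN4_02 (x : ℝ) : vN4 x 0 2 = 0 := rfl
theorem F4a_vN4_10 (x : ℝ) : vN4 x 1 0 = -(1 - |x|) / 3 := rfl
theorem F4a_vN4_11 (x : ℝ) : vN4 x 1 1 = Real.sqrt (1 - (1 - |x|) ^ 2 / 9) := rfl
theorem F4a_vN4_12 (x : ℝ) : vN4 x 1 2 = 0 := rfl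
theorem F4a_vN4_20 (x : ℝ) : vN4 x 2 0 = -(1 - |x|) / 3 := rfl
theorem F4a_vN4_21 (x : ℝ) : vN4 x 2 1 = -Real.sqrt (1 - (1 - |x|) ^ 2 / 9) / 2 := rfl
theorem F4a_vN4_22 (x : ℝ) : vN4 x 2 2 = Real.sqrt (1 - (1 - |x|) ^ 2 / 9) * Real.sqrt 3 / 2 := rfl
theorem F4a_vN4_30 (x : ℝ) : vN4 x 3 0 = -(1 - |x|) / 3 := rfl
theorem F4a_vN4_31 (x : ℝ) : vN4 x 3 1 = -Real.sqrt (1 - (1 - |x|) ^ 2 / 9) / 2 := rfl
theorem F4a_vN4_32 (x : ℝ) : vN4 x 3 2 = -Real.sqrt (1 - (1 - |x|) ^ 2 / 9) * Real.sqrt 3 / 2 := rfl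
theorem F4a_vE4_00 (x : ℝ) : vE4 x 0 0 = -(|x| * (1 + |x|)) / 2 := rfl
theorem F4a_vE4_01 (x : ℝ) : vE4 x 0 1 = Real.sqrt (|x| ^ 2 - (-(|x| * (1 + |x|)) / 2) ^ 2) := rfl
theorem F4a_vE4_02 (x : ℝ) : vE4 x 0 2 = 0 := rfl
theorem F4a_vE4_10 (x : ℝ) : vE4 x 1 0 = 1 := rfl
theorem F4a_vE4_11 (x : ℝ) : vE4 x 1 1 = 0 := rfl
theorem F4a_vE4_12 (x : ℝ) : vE4 x 1 2 = 0 := rfl
theorem F4a_vE4_20 (x : ℝ) : vE4 x 2 0 = -(-(|x| * (1 + |x|)) / 2 + 1) / 2 := rfl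
theorem F4a_vE4_21 (x : ℝ) : vE4 x 2 1 = -Real.sqrt (|x| ^ 2 - (-(|x| * (1 + |x|)) / 2) ^ 2) / 2 := rfl
theorem F4a_vE4_22 (x : ℝ) : vE4 x 2 2 = Real.sqrt |x| / 2 := rfl
theorem F4a_vE4_30 (x : ℝ) : vE4 x 3 0 = -(-(|x| * (1 + |x|)) / 2 + 1) / 2 := rfl
theorem F4a_vE4_31 (x : ℝ) : vE4 x 3 1 = -Real.sqrt (|x| ^ 2 - (-(|x| * (1 + |x|)) / 2) ^ 2) / 2 := rfl
theorem F4a_vE4_32 (x : ℝ) : vE4 x 3 2 = -Real.sqrt |x| / 2 := rfl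

theorem F4a_eps_measurable : Measurable eps := by
  unfold eps
  exact Measurable.ite measurableSet_Ioi measurable_const measurable_const

theorem vN4_measurable : Measurable vN4 := by
  rw [measurable_pi_iff]
  intro i
  rw [measurable_pi_iff]
  intro k
  fin_cases i <;> fin_cases k
  · exact (by fun_prop : Measurable fun x : ℝ => ((1 - |x|) : ℝ))
  · exact (by fun_prop : Measurable fun x : ℝ => (0 : ℝ))
  · exact (by fun_prop : Measurable fun x : ℝ => (0 : ℝ))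
  · exact (by fun_prop : Measurable fun x : ℝ => (-(1 - |x|) / 3 : ℝ))
  · exact (by fun_prop : Measurable fun x : ℝ => (Real.sqrt (1 - (1 - |x|) ^ 2 / 9) : ℝ))
  · exact (by fun_prop : Measurable fun x : ℝ => (0 : ℝ))
  · exact (by fun_prop : Measurable fun x : ℝ => (-(1 - |x|) / 3 : ℝ))
  · exact (by fun_prop : Measurable fun x : ℝ => (-Real.sqrt (1 - (1 - |x|) ^ 2 / 9) / 2 : ℝ))
  · exact (by fun_prop : Measurable fun x : ℝ => (Real.sqrt (1 - (1 - |x|) ^ 2 / 9) * Real.sqrt 3 / 2 : ℝ))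
  · exact (by fun_prop : Measurable fun x : ℝ => (-(1 - |x|) / 3 : ℝ))
  · exact (by fun_prop : Measurable fun x : ℝ => (-Real.sqrt (1 - (1 - |x|) ^ 2 / 9) / 2 : ℝ))
  · exact (by fun_prop : Measurable fun x : ℝ => (-Real.sqrt (1 - (1 - |x|) ^ 2 / 9) * Real.sqrt 3 / 2 : ℝ))

theorem dN4_measurable : Measurable dN4 := by
  rw [measurable_pi_iff]
  intro i
  fin_cases i
  · exact measurable_id
  · exact measurable_const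
  · exact measurable_const
  · exact measurable_const

theorem vE4_measurable : Measurable vE4 := by
  rw [measurable_pi_iff]
  intro i
  rw [measurable_pi_iff]
  intro k
  fin_cases i <;> fin_cases k
  · exact (by fun_prop : Measurable fun x : ℝ => (-(|x| * (1 + |x|)) / 2 : ℝ))
  · exact (by fun_prop : Measurable fun x : ℝ => (Real.sqrt (|x| ^ 2 - (-(|x| * (1 + |x|)) / 2) ^ 2) : ℝ))
  · exact (by fun_prop : Measurable fun x : ℝ => (0 : ℝ))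
  · exact (by fun_prop : Measurable fun x : ℝ => (1 : ℝ))
  · exact (by fun_prop : Measurable fun x : ℝ => (0 : ℝ))
  · exact (by fun_prop : Measurable fun x : ℝ => (0 : ℝ))
  · exact (by fun_prop : Measurable fun x : ℝ => (-(-(|x| * (1 + |x|)) / 2 + 1) / 2 : ℝ))
  · exact (by fun_prop : Measurable fun x : ℝ => (-Real.sqrt (|x| ^ 2 - (-(|x| * (1 + |x|)) / 2) ^ 2) / 2 : ℝ))
  · exact (by fun_prop : Measurable fun x : ℝ => (Real.sqrt |x| / 2 : ℝ))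
  · exact (by fun_prop : Measurable fun x : ℝ => (-(-(|x| * (1 + |x|)) / 2 + 1) / 2 : ℝ))
  · exact (by fun_prop : Measurable fun x : ℝ => (-Real.sqrt (|x| ^ 2 - (-(|x| * (1 + |x|)) / 2) ^ 2) / 2 : ℝ))
  · exact (by fun_prop : Measurable fun x : ℝ => (-Real.sqrt |x| / 2 : ℝ))

theorem dE4_measurable : Measurable dE4 := by
  rw [measurable_pi_iff]
  intro i
  have h := F4a_eps_measurable
  fin_cases i
  · exact (by fun_prop : Measurable fun x : ℝ => eps x * (1 - |x|))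
  · exact measurable_const
  · exact (by fun_prop : Measurable fun x : ℝ => -eps x / 2)
  · exact (by fun_prop : Measurable fun x : ℝ => -eps x / 2)

theorem vN4_sum (x : ℝ) (k : Fin 3) : ∑ i, vN4 x i k = 0 := by
  rw [Fin.sum_univ_four]
  match k with
  | 0 => simp only [F4a_vN4_00, F4a_vN4_01, F4a_vN4_02, F4a_vN4_10, F4a_vN4_11, F4a_vN4_12, F4a_vN4_20, F4a_vN4_21, F4a_vN4_22, F4a_vN4_30, F4a_vN4_31, F4a_vN4_32]; ring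
  | 1 => simp only [F4a_vN4_00, F4a_vN4_01, F4a_vN4_02, F4a_vN4_10, F4a_vN4_11, F4a_vN4_12, F4a_vN4_20, F4a_vN4_21, F4a_vN4_22, F4a_vN4_30, F4a_vN4_31, F4a_vN4_32]; ring
  | 2 => simp only [F4a_vN4_00, F4a_vN4_01, F4a_vN4_02, F4a_vN4_10, F4a_vN4_11, F4a_vN4_12, F4a_vN4_20, F4a_vN4_21, F4a_vN4_22, F4a_vN4_30, F4a_vN4_31, F4a_vN4_32]; ring

theorem dN4_sum (x : ℝ) : ∑ i, dN4 x i = x := by
  rw [Fin.sum_univ_four]
  change x + 0 + 0 + 0 = x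
  ring

theorem F4a_hs (x : ℝ) (hx : |x| ≤ 3 / 10) :
    Real.sqrt (1 - (1 - |x|) ^ 2 / 9) ^ 2 = 1 - (1 - |x|) ^ 2 / 9 := by
  have h0 := abs_nonneg x
  exact Real.sq_sqrt (by nlinarith)

theorem F4a_h3 : Real.sqrt 3 ^ 2 = 3 := Real.sq_sqrt (by norm_num)

theorem F4a_hw (x : ℝ) (hx : |x| ≤ 3 / 10) :
    Real.sqrt (|x| ^ 2 - (-(|x| * (1 + |x|)) / 2) ^ 2) ^ 2 =
      |x| ^ 2 - (-(|x| * (1 + |x|)) / 2) ^ 2 := by
  have h0 := abs_nonneg x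
  refine Real.sq_sqrt ?_
  have h1 : |x| ^ 2 - (-(|x| * (1 + |x|)) / 2) ^ 2 =
      |x| ^ 2 * ((1 - |x|) * (3 + |x|)) / 4 := by ring
  rw [h1]
  have h2 : 0 ≤ (1 - |x|) * (3 + |x|) := mul_nonneg (by linarith) (by linarith)
  positivity

theorem F4a_hr (x : ℝ) : Real.sqrt |x| ^ 2 = |x| := Real.sq_sqrt (abs_nonneg x)

/-- lengths: `1 - |x|` and `1` -/
theorem vN4_norm (x : ℝ) (hx : |x| ≤ 3 / 10) (i : Fin 4) :
    ∑ k, vN4 x i k ^ 2 = (if i = 0 then 1 - |x| else 1) ^ 2 := by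
  have hs := F4a_hs x hx
  have h3 := F4a_h3
  rw [Fin.sum_univ_three]
  match i with
  | 0 => rw [if_pos rfl]; simp only [F4a_vN4_00, F4a_vN4_01, F4a_vN4_02, F4a_vN4_10, F4a_vN4_11, F4a_vN4_12, F4a_vN4_20, F4a_vN4_21, F4a_vN4_22, F4a_vN4_30, F4a_vN4_31, F4a_vN4_32]; ring
  | 1 => rw [if_neg (by decide)]; simp only [F4a_vN4_00, F4a_vN4_01, F4a_vN4_02, F4a_vN4_10, F4a_vN4_11, F4a_vN4_12, F4a_vN4_20, F4a_vN4_21, F4a_vN4_22, F4a_vN4_30, F4a_vN4_31, F4a_vN4_32]; linear_combination hs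
  | 2 =>
    rw [if_neg (by decide)]; simp only [F4a_vN4_00, F4a_vN4_01, F4a_vN4_02, F4a_vN4_10, F4a_vN4_11, F4a_vN4_12, F4a_vN4_20, F4a_vN4_21, F4a_vN4_22, F4a_vN4_30, F4a_vN4_31, F4a_vN4_32]
    linear_combination hs + (Real.sqrt (1 - (1 - |x|) ^ 2 / 9) ^ 2 / 4) * h3
  | 3 =>
    rw [if_neg (by decide)]; simp only [F4a_vN4_00, F4a_vN4_01, F4a_vN4_02, F4a_vN4_10, F4a_vN4_11, F4a_vN4_12, F4a_vN4_20, F4a_vN4_21, F4a_vN4_22, F4a_vN4_30, F4a_vN4_31, F4a_vN4_32]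
    linear_combination hs + (Real.sqrt (1 - (1 - |x|) ^ 2 / 9) ^ 2 / 4) * h3

theorem vE4_sum (x : ℝ) (k : Fin 3) : ∑ i, vE4 x i k = 0 := by
  rw [Fin.sum_univ_four]
  match k with
  | 0 => simp only [F4a_vE4_00, F4a_vE4_01, F4a_vE4_02, F4a_vE4_10, F4a_vE4_11, F4a_vE4_12, F4a_vE4_20, F4a_vE4_21, F4a_vE4_22, F4a_vE4_30, F4a_vE4_31, F4a_vE4_32]; ring
  | 1 => simp only [F4a_vE4_00, F4a_vE4_01, F4a_vE4_02, F4a_vE4_10, F4a_vE4_11, F4a_vE4_12, F4a_vE4_20, F4a_vE4_21, F4a_vE4_22, F4a_vE4_30, F4a_vE4_31, F4a_vE4_32]; ring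
  | 2 => simp only [F4a_vE4_00, F4a_vE4_01, F4a_vE4_02, F4a_vE4_10, F4a_vE4_11, F4a_vE4_12, F4a_vE4_20, F4a_vE4_21, F4a_vE4_22, F4a_vE4_30, F4a_vE4_31, F4a_vE4_32]; ring

/-- `ε (1-ρ) - ε = -ε ρ = x` for `x ≠ 0` -/
theorem dE4_sum (x : ℝ) (hx : x ≠ 0) : ∑ i, dE4 x i = x := by
  rw [Fin.sum_univ_four]
  change eps x * (1 - |x|) + 0 + -eps x / 2 + -eps x / 2 = x
  unfold eps
  rcases lt_or_gt_of_ne hx with h | h
  · rw [if_neg (by linarith), abs_of_neg h]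
    ring
  · rw [if_pos h, abs_of_pos h]
    ring

/-- lengths `|x|, 1, 1/2, 1/2`: `|(v₀+v₁)/2|² + ρ/4 = (1 + ρ² + 2g)/4 + ρ/4 = 1/4` -/
theorem vE4_norm (x : ℝ) (hx : |x| ≤ 3 / 10) (i : Fin 4) :
    ∑ k, vE4 x i k ^ 2 = (![|x|, 1, 1 / 2, 1 / 2] i) ^ 2 := by
  have hw := F4a_hw x hx
  have hr := F4a_hr x
  rw [Fin.sum_univ_three]
  match i with
  | 0 =>
    change _ = |x| ^ 2
    simp only [F4a_vE4_00, F4a_vE4_01, F4a_vE4_02, F4a_vE4_10, F4a_vE4_11, F4a_vE4_12, F4a_vE4_20, F4a_vE4_21, F4a_vE4_22, F4a_vE4_30, F4a_vE4_31, F4a_vE4_32]; linear_combination hw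
  | 1 =>
    change _ = (1 : ℝ) ^ 2
    simp only [F4a_vE4_00, F4a_vE4_01, F4a_vE4_02, F4a_vE4_10, F4a_vE4_11, F4a_vE4_12, F4a_vE4_20, F4a_vE4_21, F4a_vE4_22, F4a_vE4_30, F4a_vE4_31, F4a_vE4_32]; ring
  | 2 =>
    change _ = (1 / 2 : ℝ) ^ 2
    simp only [F4a_vE4_00, F4a_vE4_01, F4a_vE4_02, F4a_vE4_10, F4a_vE4_11, F4a_vE4_12, F4a_vE4_20, F4a_vE4_21, F4a_vE4_22, F4a_vE4_30, F4a_vE4_31, F4a_vE4_32]; linear_combination hw / 4 + hr / 4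
  | 3 =>
    change _ = (1 / 2 : ℝ) ^ 2
    simp only [F4a_vE4_00, F4a_vE4_01, F4a_vE4_02, F4a_vE4_10, F4a_vE4_11, F4a_vE4_12, F4a_vE4_20, F4a_vE4_21, F4a_vE4_22, F4a_vE4_30, F4a_vE4_31, F4a_vE4_32]; linear_combination hw / 4 + hr / 4

/-- `V_N² = (c²/3) ∑_k (u₀-u_k)² + (1/2 - c²/6) ∑_{k<l} (u_k-u_l)²`, `c = 1 - |x|` -/
theorem vsq_N4 (x : ℝ) (hx : |x| ≤ 3 / 10) (u : Fin 4 → ℤ) :
    vsq (vN4 x) u = (1 - |x|) ^ 2 / 3 *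
        (((u 0 : ℝ) - u 1) ^ 2 + ((u 0 : ℝ) - u 2) ^ 2 + ((u 0 : ℝ) - u 3) ^ 2)
      + (1 / 2 - (1 - |x|) ^ 2 / 6) *
        (((u 1 : ℝ) - u 2) ^ 2 + ((u 1 : ℝ) - u 3) ^ 2 + ((u 2 : ℝ) - u 3) ^ 2) := by
  have hs := F4a_hs x hx
  have h3 := F4a_h3
  simp only [vsq, Fin.sum_univ_three, Fin.sum_univ_four, F4a_vN4_00, F4a_vN4_01, F4a_vN4_02, F4a_vN4_10, F4a_vN4_11, F4a_vN4_12, F4a_vN4_20, F4a_vN4_21, F4a_vN4_22, F4a_vN4_30, F4a_vN4_31, F4a_vN4_32]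
  linear_combination (((u 1 : ℝ) - (u 2 + u 3) / 2) ^ 2 + 3 / 4 * ((u 2 : ℝ) - u 3) ^ 2) * hs +
    (Real.sqrt (1 - (1 - |x|) ^ 2 / 9) ^ 2 / 4 * ((u 2 : ℝ) - u 3) ^ 2) * h3

/-- `V_E² = (1-ρ) y² + ρ(1-ρ) w y + ρ² w² + ρ δ²/4` with `y = u₁ - (u₂+u₃)/2`, `w = u₁ - u₀`,
`δ = u₂ - u₃` (write `∑ u_i v_i` using `v₂ + v₃ = -(v₀+v₁)`) -/
theorem vsq_E4 (x : ℝ) (hx : |x| ≤ 3 / 10) (u : Fin 4 → ℤ) :
    vsq (vE4 x) u = (1 - |x|) * ((u 1 : ℝ) - (u 2 + u 3) / 2) ^ 2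
      + |x| * (1 - |x|) * ((u 1 : ℝ) - u 0) * ((u 1 : ℝ) - (u 2 + u 3) / 2)
      + |x| ^ 2 * ((u 1 : ℝ) - u 0) ^ 2 + |x| * ((u 2 : ℝ) - u 3) ^ 2 / 4 := by
  have hw := F4a_hw x hx
  have hr := F4a_hr x
  simp only [vsq, Fin.sum_univ_three, Fin.sum_univ_four, F4a_vE4_00, F4a_vE4_01, F4a_vE4_02, F4a_vE4_10, F4a_vE4_11, F4a_vE4_12, F4a_vE4_20, F4a_vE4_21, F4a_vE4_22, F4a_vE4_30, F4a_vE4_31, F4a_vE4_32]
  linear_combination (((u 0 : ℝ) - (u 2 + u 3) / 2) ^ 2) * hw +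
    (((u 2 : ℝ) - u 3) ^ 2 / 4) * hr

end Pool.Agent.helper49.Slope
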