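import Pool.Agent.helper49.Slope.DefsF

/-!
MP_aedd95_co (slope of k-fold hyperplane covers of triangular grids), module F4b.
Lower bounds for the quadratic form of state N of the block of size 4. `c² ≤ 1`.

`qN c u = (c²/3) ∑_k (u₀-u_k)² + (1/2 - c²/6) ∑_{k<l} (u_k-u_l)²`, all weights nonnegative.
Only the number of nonzero differences matters: let `e₀ = #{k ≥ 1 : u₀ ≠ u_k}` and
`e = #{k<l, k,l ≥ 1 : u_k ≠ u_l}`; if `u` is rich (no three equal values) and has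
two values then `e₀ = 2, e = 2`: `qN ≥ 2c²/3 + 1 - c²/3 = 1 + c²/3`. If `u` has at least three
values (still no three equal): (i) all four distinct: sorted values `a<b<c<d` ...
in all cases `qN ≥ 1 + 5c²/3`. A convenient way: for every integer vector
`(u₀-u_k)² ≥ |u₀-u_k|`-type bounds are not enough; use the sorted values. Equal pair `p = p'` and
two other distinct values `q ≠ r` (both `≠ p`):
 * `u₀` is one of the equal pair: differences from `u₀`: `0, q-p, r-p`, among the rest `p,q,r`: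
   `(q-p)², (r-p)², (q-r)²`, total `c²/3·S + (1/2-c²/6)·(S + (q-r)²)` with `S = (q-p)²+(r-p)²`,
   where `S ≥ 5, (q-r)² ≥ 1` or `S ≥ 2, (q-r)² ≥ 4`: values `5c²/3+3-c² ≥ 1+5c²/3` resp.
   `2c²/3 + 3 - c² ≥ 1 + 5c²/3` as `2 ≥ 2c²`.
 * `u₀ = q` single: differences `q-p, q-p, q-r`; rest `p,p,r`: `0, (r-p)², (r-p)²`:
   `c²/3 (2(q-p)²+(q-r)²) + (1-c²/3)(r-p)²`; the three numbers `|q-p|,|q-r|,|r-p|` are positive
   integers, one of them is the sum of the other two: minimum over `(1,1,2),(1,2,1),(2,1,1)` for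
   `(|q-p|,|q-r|,|r-p|)`: `c²+4-4c²/3`, `2c²+1-c²/3 = 1+5c²/3`, `3c²+1-c²/3`: all `≥ 1+5c²/3`.
 * four distinct values: bigger (sum of differences), e.g. compare with the previous cases or
   use `(u_k-u_l)²` with sorted differences `≥ 1,1,1,2,2,3`: any three differences from one
   point have squares summing to at least `1+1+4 = 6`, the other three likewise `≥ 6`:
   `2c² + 3 - c² ≥ 1 + 5c²/3`.
-/

set_option autoImplicit false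

open MeasureTheory ProbabilityTheory
open scoped ENNReal

namespace Pool.Agent.helper49.Slope

theorem F4b_sq {x : ℤ} (h : x ≠ 0) : 1 ≤ x ^ 2 := by
  rcases lt_or_gt_of_ne h with h | h <;> nlinarith

theorem F4b_t2 (a b c : ℤ) (h : ¬ (a = b ∧ a = c)) :
    2 ≤ (a - b) ^ 2 + (a - c) ^ 2 + (b - c) ^ 2 := by
  by_cases hab : a = b
  · have hac : a ≠ c := fun e => h ⟨hab, e⟩
    have hbc : b ≠ c := fun e => hac (hab.trans e)
    have h1 := F4b_sq (sub_ne_zero.mpr hac)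
    have h2 := F4b_sq (sub_ne_zero.mpr hbc)
    nlinarith [sq_nonneg (a - b)]
  · have h1 := F4b_sq (sub_ne_zero.mpr hab)
    by_cases hac : a = c
    · have hbc : b ≠ c := fun e => hab (hac.trans e.symm)
      have h2 := F4b_sq (sub_ne_zero.mpr hbc)
      nlinarith [sq_nonneg (a - c)]
    · have h2 := F4b_sq (sub_ne_zero.mpr hac)
      nlinarith [sq_nonneg (b - c)]

theorem F4b_xy (x y : ℤ) (hx : x ≠ 0) (hy : y ≠ 0) (hxy : x + y ≠ 0) :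
    6 ≤ x ^ 2 + (x + y) ^ 2 + y ^ 2 := by
  rcases lt_or_gt_of_ne hx with h1 | h1 <;> rcases lt_or_gt_of_ne hy with h2 | h2
  · nlinarith [mul_nonneg (show 0 ≤ -x - 1 by omega) (show 0 ≤ -y - 1 by omega)]
  · rcases lt_or_gt_of_ne hxy with h3 | h3
    · -- y ≤ -x - 1
      nlinarith [mul_nonneg (show 0 ≤ -x - 2 by omega) (show 0 ≤ -x by omega),
        mul_nonneg (show 0 ≤ y - 1 by omega) (show 0 ≤ y by omega),
        mul_nonneg (show 0 ≤ -(x + y) - 1 by omega) (show 0 ≤ -(x + y) by omega)]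
    · nlinarith [mul_nonneg (show 0 ≤ -x - 1 by omega) (show 0 ≤ -x by omega),
        mul_nonneg (show 0 ≤ y - 2 by omega) (show 0 ≤ y by omega),
        mul_nonneg (show 0 ≤ (x + y) - 1 by omega) (show 0 ≤ (x + y) by omega)]
  · rcases lt_or_gt_of_ne hxy with h3 | h3
    · nlinarith [mul_nonneg (show 0 ≤ x - 1 by omega) (show 0 ≤ x by omega),
        mul_nonneg (show 0 ≤ -y - 2 by omega) (show 0 ≤ -y by omega),
        mul_nonneg (show 0 ≤ -(x + y) - 1 by omega) (show 0 ≤ -(x + y) by omega)]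
    · nlinarith [mul_nonneg (show 0 ≤ x - 2 by omega) (show 0 ≤ x by omega),
        mul_nonneg (show 0 ≤ -y - 1 by omega) (show 0 ≤ -y by omega),
        mul_nonneg (show 0 ≤ (x + y) - 1 by omega) (show 0 ≤ (x + y) by omega)]
  · nlinarith [mul_nonneg (show 0 ≤ x - 1 by omega) (show 0 ≤ y - 1 by omega)]

theorem F4b_t6 (a b c : ℤ) (hab : a ≠ b) (hac : a ≠ c) (hbc : b ≠ c) :
    6 ≤ (a - b) ^ 2 + (a - c) ^ 2 + (b - c) ^ 2 := by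
  have h := F4b_xy (a - b) (b - c) (sub_ne_zero.mpr hab) (sub_ne_zero.mpr hbc)
    (by rw [sub_add_sub_cancel]; exact sub_ne_zero.mpr hac)
  rwa [sub_add_sub_cancel] at h

/-- one distinct triple (first three values), the other triples not constant -/
theorem F4b_base (a b c d : ℤ) (hab : a ≠ b) (hac : a ≠ c) (hbc : b ≠ c) :
    8 ≤ (a - b) ^ 2 + (a - c) ^ 2 + (a - d) ^ 2 + (b - c) ^ 2 + (b - d) ^ 2 + (c - d) ^ 2 := by
  have h0 := F4b_t6 a b c hab hac hbc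
  have h1 := F4b_t2 a b d (fun h => hab h.1)
  have h2 := F4b_t2 a c d (fun h => hac h.1)
  have h3 := F4b_t2 b c d (fun h => hbc h.1)
  by_cases had : a = d
  · have h4 := F4b_t6 b c d hbc (fun e => hab (had.trans e.symm)) (fun e => hac (had.trans e.symm))
    nlinarith
  · by_cases hbd : b = d
    · have h4 := F4b_t6 a c d hac had (fun e => hbc (hbd.trans e.symm))
      nlinarith
    · have h4 := F4b_t6 a b d hab had hbd
      nlinarith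

theorem F4b_rich (u : Fin 4 → ℤ) (hu : Rich u) :
    2 ≤ (u 1 - u 2) ^ 2 + (u 1 - u 3) ^ 2 + (u 2 - u 3) ^ 2 ∧
    4 ≤ ((u 0 - u 1) ^ 2 + (u 0 - u 2) ^ 2 + (u 0 - u 3) ^ 2) +
      ((u 1 - u 2) ^ 2 + (u 1 - u 3) ^ 2 + (u 2 - u 3) ^ 2) := by
  have h0 : ¬ (u 1 = u 2 ∧ u 1 = u 3) := by
    rintro ⟨h1, h2⟩
    refine hu ⟨0, u 1, fun j hj => ?_⟩
    fin_cases j
    · exact absurd rfl hj
    · rfl
    · exact h1.symm
    · exact h2.symm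
  have h1 : ¬ (u 0 = u 2 ∧ u 0 = u 3) := by
    rintro ⟨h1, h2⟩
    refine hu ⟨1, u 0, fun j hj => ?_⟩
    fin_cases j
    · rfl
    · exact absurd rfl hj
    · exact h1.symm
    · exact h2.symm
  have h2 : ¬ (u 0 = u 1 ∧ u 0 = u 3) := by
    rintro ⟨h1, h2⟩
    refine hu ⟨2, u 0, fun j hj => ?_⟩
    fin_cases j
    · rfl
    · exact h1.symm
    · exact absurd rfl hj
    · exact h2.symm
  have h3 : ¬ (u 0 = u 1 ∧ u 0 = u 2) := by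
    rintro ⟨h1, h2⟩
    refine hu ⟨3, u 0, fun j hj => ?_⟩
    fin_cases j
    · rfl
    · exact h1.symm
    · exact h2.symm
    · exact absurd rfl hj
  have k0 := F4b_t2 _ _ _ h0
  have k1 := F4b_t2 _ _ _ h1
  have k2 := F4b_t2 _ _ _ h2
  have k3 := F4b_t2 _ _ _ h3
  exact ⟨k0, by linarith⟩

theorem F4b_three (u : Fin 4 → ℤ) (h3 : ∃ i j k, u i ≠ u j ∧ u i ≠ u k ∧ u j ≠ u k) :
    8 ≤ ((u 0 - u 1) ^ 2 + (u 0 - u 2) ^ 2 + (u 0 - u 3) ^ 2) +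
      ((u 1 - u 2) ^ 2 + (u 1 - u 3) ^ 2 + (u 2 - u 3) ^ 2) := by
  have key : (u 0 ≠ u 1 ∧ u 0 ≠ u 2 ∧ u 1 ≠ u 2) ∨ (u 0 ≠ u 1 ∧ u 0 ≠ u 3 ∧ u 1 ≠ u 3) ∨
      (u 0 ≠ u 2 ∧ u 0 ≠ u 3 ∧ u 2 ≠ u 3) ∨ (u 1 ≠ u 2 ∧ u 1 ≠ u 3 ∧ u 2 ≠ u 3) := by
    obtain ⟨i, j, k, h1, h2, h3⟩ := h3
    fin_cases i <;> fin_cases j <;> fin_cases k <;> simp_all <;> tauto
  rcases key with ⟨h1, h2, h3⟩ | ⟨h1, h2, h3⟩ | ⟨h1, h2, h3⟩ | ⟨h1, h2, h3⟩
  · linarith [F4b_base (u 0) (u 1) (u 2) (u 3) h1 h2 h3]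
  · have := F4b_base (u 0) (u 1) (u 3) (u 2) h1 h2 h3
    nlinarith
  · have := F4b_base (u 0) (u 2) (u 3) (u 1) h1 h2 h3
    nlinarith
  · have := F4b_base (u 1) (u 2) (u 3) (u 0) h1 h2 h3
    nlinarith

theorem qN4_rich (c : ℝ) (hc0 : 0 ≤ c) (hc : c ≤ 1) (u : Fin 4 → ℤ) (hu : Rich u) :
    1 + c ^ 2 / 3 ≤ c ^ 2 / 3 *
        (((u 0 : ℝ) - u 1) ^ 2 + ((u 0 : ℝ) - u 2) ^ 2 + ((u 0 : ℝ) - u 3) ^ 2)
      + (1 / 2 - c ^ 2 / 6) *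
        (((u 1 : ℝ) - u 2) ^ 2 + ((u 1 : ℝ) - u 3) ^ 2 + ((u 2 : ℝ) - u 3) ^ 2) := by
  obtain ⟨h1, h2⟩ := F4b_rich u hu
  have h1' : (2 : ℝ) ≤ ((u 1 : ℝ) - u 2) ^ 2 + ((u 1 : ℝ) - u 3) ^ 2 + ((u 2 : ℝ) - u 3) ^ 2 := by
    exact_mod_cast h1
  have h2' : (4 : ℝ) ≤ (((u 0 : ℝ) - u 1) ^ 2 + ((u 0 : ℝ) - u 2) ^ 2 + ((u 0 : ℝ) - u 3) ^ 2) +
      (((u 1 : ℝ) - u 2) ^ 2 + ((u 1 : ℝ) - u 3) ^ 2 + ((u 2 : ℝ) - u 3) ^ 2) := by
    exact_mod_cast h2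
  have ht0 : 0 ≤ c ^ 2 := sq_nonneg c
  have ht1 : c ^ 2 ≤ 1 := by nlinarith
  generalize c ^ 2 = t at *
  generalize ((u 0 : ℝ) - u 1) ^ 2 + ((u 0 : ℝ) - u 2) ^ 2 + ((u 0 : ℝ) - u 3) ^ 2 = S at *
  generalize ((u 1 : ℝ) - u 2) ^ 2 + ((u 1 : ℝ) - u 3) ^ 2 + ((u 2 : ℝ) - u 3) ^ 2 = T at *
  nlinarith [mul_nonneg ht0 (sub_nonneg.mpr h2'), mul_nonneg (sub_nonneg.mpr ht1) (sub_nonneg.mpr h1')]

/-- at least three values: for some indices three pairwise distinct values -/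
theorem qN4_three (c : ℝ) (hc0 : 0 ≤ c) (hc : c ≤ 1) (u : Fin 4 → ℤ) (hu : Rich u)
    (h3 : ∃ i j k, u i ≠ u j ∧ u i ≠ u k ∧ u j ≠ u k) :
    1 + 5 * c ^ 2 / 3 ≤ c ^ 2 / 3 *
        (((u 0 : ℝ) - u 1) ^ 2 + ((u 0 : ℝ) - u 2) ^ 2 + ((u 0 : ℝ) - u 3) ^ 2)
      + (1 / 2 - c ^ 2 / 6) *
        (((u 1 : ℝ) - u 2) ^ 2 + ((u 1 : ℝ) - u 3) ^ 2 + ((u 2 : ℝ) - u 3) ^ 2) := by
  have h1 := (F4b_rich u hu).1
  have h2 := F4b_three u h3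
  have h1' : (2 : ℝ) ≤ ((u 1 : ℝ) - u 2) ^ 2 + ((u 1 : ℝ) - u 3) ^ 2 + ((u 2 : ℝ) - u 3) ^ 2 := by
    exact_mod_cast h1
  have h2' : (8 : ℝ) ≤ (((u 0 : ℝ) - u 1) ^ 2 + ((u 0 : ℝ) - u 2) ^ 2 + ((u 0 : ℝ) - u 3) ^ 2) +
      (((u 1 : ℝ) - u 2) ^ 2 + ((u 1 : ℝ) - u 3) ^ 2 + ((u 2 : ℝ) - u 3) ^ 2) := by
    exact_mod_cast h2
  have ht0 : 0 ≤ c ^ 2 := sq_nonneg c
  have ht1 : c ^ 2 ≤ 1 := by nlinarith
  generalize c ^ 2 = t at *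
  generalize ((u 0 : ℝ) - u 1) ^ 2 + ((u 0 : ℝ) - u 2) ^ 2 + ((u 0 : ℝ) - u 3) ^ 2 = S at *
  generalize ((u 1 : ℝ) - u 2) ^ 2 + ((u 1 : ℝ) - u 3) ^ 2 + ((u 2 : ℝ) - u 3) ^ 2 = T at *
  nlinarith [mul_nonneg ht0 (sub_nonneg.mpr h2'), mul_nonneg (sub_nonneg.mpr ht1) (sub_nonneg.mpr h1')]

end Pool.Agent.helper49.Slope
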