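import Pool.Agent.helper49.Slope.DefsF

/-!
MP_aedd95_co (slope of k-fold hyperplane covers of triangular grids), module F4c.
State E of the block of size 4, averages over the permutations. `0 < r ≤ 3/10`,
`qE r u = (1-r) y² + r(1-r) w y + r² w² + r δ²/4`, `y = u₁ - (u₂+u₃)/2`, `w = u₁ - u₀`,
`δ = u₂ - u₃`.

Pointwise bounds: `|y| ≥ 1`: minimise over real `w`: `r²w² + r(1-r)wy ≥ -(1-r)²y²/4`, so
`qE ≥ (1-r) y² (3+r)/4 ≥ (1-r)(3+r)/4`; `|y| = 1/2`: `δ` is odd, `qE ≥ (1-r)/4 + r/4 - (1-r)²/16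
≥ 3/16`; `y = 0`: `δ` is even, and `δ ≠ 0` (else `u₁=u₂=u₃`, not rich), so `qE ≥ r`.

Two-valued `u` (values `α` twice and `β` twice, scale and shift to `0,1`: `qE` gets the factor
`(α-β)² ≥ 1`): of the 6 sets `T` the two with `1,0` on one side (`u₁ = u₀ ≠ u₂ = u₃`) have
`qE = 1-r`, the four others (`u₂ ≠ u₃`) have `y = ±1/2, w = ±1` (same sign as `y`... check:
`u₁ = u₂ = 0`, `u₀ = u₃ = 1` gives `y = -1/2`, `w = -1`), `qE = (1-r)/4 + r(1-r)/2 + r² + r/4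
= 1/4 + r/2 + r²/2`. Average of `1/√qE`: `(1/3)/√(1-r) + (2/3)/√(1/4+r/2+r²/2)`.

At least three values: sort the values `a ≤ b ≤ c ≤ d` (no three equal, `d - a ≥ 2`). There are 12
pairs `(i | {j,k})` (value of `u₁`, values of `u₂,u₃`), each from 2 permutations, and
`2y = 2u_i - u_j - u_k`. `|2y| ≥ 2` holds for `d|{a,b}`, `d|{a,c}`, `a|{c,d}`, `a|{b,d}` always; for
`d|{b,c}` unless `c = d, b = d-1`, for `a|{b,c}` unless `a = b, c = a+1`; both exceptions together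
would give `d = a+1`. If exactly one of them occurs, say `c = d, b = d-1`, then also
`c|{a,b}` has `2c-a-b ≥ 2`; similarly in the other case `b|{c,d}`. So at least 6 of the 12 are good,
and the average of `1/√qE` is at most `½·2/√((1-r)(3+r)) + ½·max(1/√r, 4/√3)`.
-/

set_option autoImplicit false

open MeasureTheory ProbabilityTheory
open scoped ENNReal

namespace Pool.Agent.helper49.Slope

noncomputable def qE4 (r : ℝ) (u : Fin 4 → ℤ) : ℝ :=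
  (1 - r) * ((u 1 : ℝ) - (u 2 + u 3) / 2) ^ 2
    + r * (1 - r) * ((u 1 : ℝ) - u 0) * ((u 1 : ℝ) - (u 2 + u 3) / 2)
    + r ^ 2 * ((u 1 : ℝ) - u 0) ^ 2 + r * ((u 2 : ℝ) - u 3) ^ 2 / 4

def F4c_L : List (Fin 4 × Fin 4 × Fin 4 × Fin 4) :=
  [(0,1,2,3),(0,1,3,2),(0,2,1,3),(0,2,3,1),(0,3,1,2),(0,3,2,1),
   (1,0,2,3),(1,0,3,2),(1,2,0,3),(1,2,3,0),(1,3,0,2),(1,3,2,0),
   (2,0,1,3),(2,0,3,1),(2,1,0,3),(2,1,3,0),(2,3,0,1),(2,3,1,0),
   (3,0,1,2),(3,0,2,1),(3,1,0,2),(3,1,2,0),(3,2,0,1),(3,2,1,0)]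

set_option maxRecDepth 100000 in
theorem F4c_img : (Finset.univ : Finset (Equiv.Perm (Fin 4))).image
    (fun σ => (σ 0, σ 1, σ 2, σ 3)) = F4c_L.toFinset := by decide

theorem F4c_sum (G : Fin 4 → Fin 4 → Fin 4 → Fin 4 → ℝ) :
    ∑ σ : Equiv.Perm (Fin 4), G (σ 0) (σ 1) (σ 2) (σ 3) =
      G 0 1 2 3 + (G 0 1 3 2 + (G 0 2 1 3 + (G 0 2 3 1 + (G 0 3 1 2 + (G 0 3 2 1 + (
      G 1 0 2 3 + (G 1 0 3 2 + (G 1 2 0 3 + (G 1 2 3 0 + (G 1 3 0 2 + (G 1 3 2 0 + (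
      G 2 0 1 3 + (G 2 0 3 1 + (G 2 1 0 3 + (G 2 1 3 0 + (G 2 3 0 1 + (G 2 3 1 0 + (
      G 3 0 1 2 + (G 3 0 2 1 + (G 3 1 0 2 + (G 3 1 2 0 + (G 3 2 0 1 + (G 3 2 1 0 + 0))))))))))))))))))))))) := by
  have hinj : Function.Injective (fun σ : Equiv.Perm (Fin 4) => (σ 0, σ 1, σ 2, σ 3)) := by
    intro σ τ h
    simp only [Prod.mk.injEq] at h
    ext i
    match i with
    | 0 => rw [h.1]
    | 1 => rw [h.2.1]
    | 2 => rw [h.2.2.1]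
    | 3 => rw [h.2.2.2]
  have h1 : ∑ t ∈ (Finset.univ : Finset (Equiv.Perm (Fin 4))).image
      (fun σ => (σ 0, σ 1, σ 2, σ 3)), G t.1 t.2.1 t.2.2.1 t.2.2.2 =
      ∑ σ : Equiv.Perm (Fin 4), G (σ 0) (σ 1) (σ 2) (σ 3) :=
    Finset.sum_image (fun a _ b _ h => hinj h)
  rw [← h1, F4c_img, List.sum_toFinset _ (by decide)]
  rfl

/-- `qE4` as a function of the four values -/
noncomputable def F4c_H (r : ℝ) (a b c d : ℤ) : ℝ :=
  (1 - r) * ((b : ℝ) - (c + d) / 2) ^ 2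
    + r * (1 - r) * ((b : ℝ) - a) * ((b : ℝ) - (c + d) / 2)
    + r ^ 2 * ((b : ℝ) - a) ^ 2 + r * ((c : ℝ) - d) ^ 2 / 4

theorem F4c_sumH (r : ℝ) (u : Fin 4 → ℤ) :
    ∑ σ : Equiv.Perm (Fin 4), 1 / Real.sqrt (qE4 r (u ∘ σ)) =
      ∑ σ : Equiv.Perm (Fin 4),
        1 / Real.sqrt (F4c_H r (u (σ 0)) (u (σ 1)) (u (σ 2)) (u (σ 3))) := rfl

theorem F4c_lower (r : ℝ) (a b c d : ℤ) :
    (1 - r) * (3 + r) / 4 * ((b : ℝ) - (c + d) / 2) ^ 2 + r * ((c : ℝ) - d) ^ 2 / 4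
      ≤ F4c_H r a b c d := by
  unfold F4c_H
  nlinarith [sq_nonneg (r * ((b : ℝ) - a) + (1 - r) * ((b : ℝ) - (c + d) / 2) / 2)]

theorem F4c_lowG (r : ℝ) (h0 : 0 < r) (h1 : r ≤ 3 / 10) (a b c d : ℤ)
    (h : 2 ≤ |2 * b - c - d|) : (1 - r) * (3 + r) / 4 ≤ F4c_H r a b c d := by
  have h2 := F4c_lower r a b c d
  have h3 : (1 : ℝ) ≤ ((b : ℝ) - (c + d) / 2) ^ 2 := by
    have h4 : (2 : ℝ) ≤ |2 * (b : ℝ) - c - d| := by exact_mod_cast h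
    have h5 : (b : ℝ) - (c + d) / 2 = (2 * (b : ℝ) - c - d) / 2 := by ring
    rw [h5, ← sq_abs, abs_div, abs_of_pos (by norm_num : (0 : ℝ) < 2)]
    have h6 : 1 ≤ |2 * (b : ℝ) - c - d| / 2 := by linarith
    nlinarith
  have h7 : 0 ≤ (1 - r) * (3 + r) / 4 := by
    have : 0 ≤ (1 - r) * (3 + r) := mul_nonneg (by linarith) (by linarith)
    linarith
  have h8 : 0 ≤ r * ((c : ℝ) - d) ^ 2 / 4 := by positivity
  nlinarith

theorem F4c_lowB (r : ℝ) (h0 : 0 < r) (h1 : r ≤ 3 / 10) (a b c d : ℤ)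
    (h : ¬ (b = c ∧ c = d)) : r ≤ F4c_H r a b c d ∨ 3 / 16 ≤ F4c_H r a b c d := by
  have h2 := F4c_lower r a b c d
  by_cases hz : 2 ≤ |2 * b - c - d|
  · right
    have h3 := F4c_lowG r h0 h1 a b c d hz
    nlinarith
  · by_cases hz0 : 2 * b - c - d = 0
    · left
      have h4 : 2 ≤ |c - d| := by
        by_contra hcon
        rw [not_le] at hcon
        have h5 := abs_lt.1 hcon
        apply h
        constructor <;> omega
      have h5 : (4 : ℝ) ≤ ((c : ℝ) - d) ^ 2 := by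
        have h6 : (2 : ℝ) ≤ |(c : ℝ) - d| := by exact_mod_cast h4
        rw [← sq_abs]; nlinarith
      have h7 : 0 ≤ (1 - r) * (3 + r) / 4 * ((b : ℝ) - (c + d) / 2) ^ 2 := by
        have : 0 ≤ (1 - r) * (3 + r) := mul_nonneg (by linarith) (by linarith)
        positivity
      nlinarith
    · right
      have hz1 : |2 * b - c - d| = 1 := by
        have h3 : 0 < |2 * b - c - d| := abs_pos.2 hz0
        omega
      have h4 : 1 ≤ |c - d| := by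
        have : c - d ≠ 0 := by
          intro hcd
          rcases abs_eq (by norm_num : (0 : ℤ) ≤ 1) |>.1 hz1 with h5 | h5 <;> omega
        have := abs_pos.2 this
        omega
      have h5 : (1 : ℝ) ≤ ((c : ℝ) - d) ^ 2 := by
        have h6 : (1 : ℝ) ≤ |(c : ℝ) - d| := by exact_mod_cast h4
        rw [← sq_abs]; nlinarith
      have h6 : ((b : ℝ) - (c + d) / 2) ^ 2 = 1 / 4 := by
        have h7 : |2 * (b : ℝ) - c - d| = 1 := by exact_mod_cast hz1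
        have h8 : (b : ℝ) - (c + d) / 2 = (2 * (b : ℝ) - c - d) / 2 := by ring
        rw [h8, ← sq_abs, abs_div, abs_of_pos (by norm_num : (0 : ℝ) < 2), h7]
        norm_num
      rw [h6] at h2
      nlinarith

theorem F4c_G (r : ℝ) (h0 : 0 < r) (h1 : r ≤ 3 / 10) (a b c d : ℤ)
    (h : 2 ≤ |2 * b - c - d|) :
    1 / Real.sqrt (F4c_H r a b c d) ≤ 2 / Real.sqrt ((1 - r) * (3 + r)) := by
  have h2 := F4c_lowG r h0 h1 a b c d h
  have h3 : 0 < (1 - r) * (3 + r) := mul_pos (by linarith) (by linarith)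
  have h4 : 2 / Real.sqrt ((1 - r) * (3 + r)) = 1 / Real.sqrt ((1 - r) * (3 + r) / 4) := by
    rw [Real.sqrt_div h3.le, show (4 : ℝ) = 2 ^ 2 by norm_num, Real.sqrt_sq (by norm_num)]
    field_simp
  rw [h4]
  exact one_div_le_one_div_of_le (Real.sqrt_pos.2 (by positivity)) (Real.sqrt_le_sqrt h2)

theorem F4c_B (r : ℝ) (h0 : 0 < r) (h1 : r ≤ 3 / 10) (a b c d : ℤ)
    (h : ¬ (b = c ∧ c = d)) :
    1 / Real.sqrt (F4c_H r a b c d) ≤ max (1 / Real.sqrt r) (4 / Real.sqrt 3) := by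
  rcases F4c_lowB r h0 h1 a b c d h with h2 | h2
  · refine le_trans ?_ (le_max_left _ _)
    exact one_div_le_one_div_of_le (Real.sqrt_pos.2 h0) (Real.sqrt_le_sqrt h2)
  · refine le_trans ?_ (le_max_right _ _)
    have h4 : 4 / Real.sqrt 3 = 1 / Real.sqrt (3 / 16) := by
      rw [Real.sqrt_div (by norm_num), show (16 : ℝ) = 4 ^ 2 by norm_num,
        Real.sqrt_sq (by norm_num)]
      field_simp
    rw [h4]
    exact one_div_le_one_div_of_le (Real.sqrt_pos.2 (by norm_num)) (Real.sqrt_le_sqrt h2)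

/-- no three equal values -/
theorem F4c_rich (u : Fin 4 → ℤ) (hu : Rich u) :
    ¬ (u 0 = u 1 ∧ u 1 = u 2) ∧ ¬ (u 0 = u 1 ∧ u 1 = u 3) ∧ ¬ (u 0 = u 2 ∧ u 2 = u 3) ∧
      ¬ (u 1 = u 2 ∧ u 2 = u 3) := by
  refine ⟨?_, ?_, ?_, ?_⟩
  · rintro ⟨h1, h2⟩
    refine hu ⟨3, u 0, fun j hj => ?_⟩
    match j with
    | 0 => rfl
    | 1 => exact h1.symm
    | 2 => rw [h1, h2]
    | 3 => exact absurd rfl hj
  · rintro ⟨h1, h2⟩
    refine hu ⟨2, u 0, fun j hj => ?_⟩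
    match j with
    | 0 => rfl
    | 1 => exact h1.symm
    | 2 => exact absurd rfl hj
    | 3 => rw [h1, h2]
  · rintro ⟨h1, h2⟩
    refine hu ⟨1, u 0, fun j hj => ?_⟩
    match j with
    | 0 => rfl
    | 1 => exact absurd rfl hj
    | 2 => exact h1.symm
    | 3 => rw [h1, h2]
  · rintro ⟨h1, h2⟩
    refine hu ⟨0, u 1, fun j hj => ?_⟩
    match j with
    | 0 => exact absurd rfl hj
    | 1 => rfl
    | 2 => exact h1.symm
    | 3 => rw [h1, h2]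

theorem qE4_pos (r : ℝ) (h0 : 0 < r) (h1 : r ≤ 3 / 10) (u : Fin 4 → ℤ) (hu : Rich u) :
    0 < qE4 r u := by
  have h := F4c_rich u hu
  change 0 < F4c_H r (u 0) (u 1) (u 2) (u 3)
  rcases F4c_lowB r h0 h1 (u 0) (u 1) (u 2) (u 3) h.2.2.2 with h2 | h2
  · linarith
  · linarith

theorem F4c_scale (q : ℝ) (hq : 0 < q) (D : ℤ) (hD : D ≠ 0) :
    1 / Real.sqrt (q * (D : ℝ) ^ 2) ≤ 1 / Real.sqrt q := by
  apply one_div_le_one_div_of_le (Real.sqrt_pos.2 hq)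
  apply Real.sqrt_le_sqrt
  have h1 : (1 : ℝ) ≤ (D : ℝ) ^ 2 := by
    have h2 : (1 : ℤ) ≤ D ^ 2 := by
      have := abs_pos.2 hD
      rw [← sq_abs]; nlinarith
    exact_mod_cast h2
  nlinarith

theorem F4c_I (r : ℝ) (h1 : r ≤ 3 / 10) (α β : ℤ) (h : α ≠ β) :
    1 / Real.sqrt (F4c_H r α α β β) ≤ 1 / Real.sqrt (1 - r) := by
  have h2 : F4c_H r α α β β = (1 - r) * ((α - β : ℤ) : ℝ) ^ 2 := by
    unfold F4c_H; push_cast; ring
  rw [h2]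
  exact F4c_scale _ (by linarith) _ (sub_ne_zero.2 h)

theorem F4c_II (r : ℝ) (h0 : 0 < r) (α β : ℤ) (h : α ≠ β) :
    1 / Real.sqrt (F4c_H r α β α β) ≤ 1 / Real.sqrt (1 / 4 + r / 2 + r ^ 2 / 2) := by
  have h2 : F4c_H r α β α β = (1 / 4 + r / 2 + r ^ 2 / 2) * ((α - β : ℤ) : ℝ) ^ 2 := by
    unfold F4c_H; push_cast; ring
  rw [h2]
  exact F4c_scale _ (by positivity) _ (sub_ne_zero.2 h)

theorem F4c_III (r : ℝ) (h0 : 0 < r) (α β : ℤ) (h : α ≠ β) :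
    1 / Real.sqrt (F4c_H r α β β α) ≤ 1 / Real.sqrt (1 / 4 + r / 2 + r ^ 2 / 2) := by
  have h2 : F4c_H r α β β α = (1 / 4 + r / 2 + r ^ 2 / 2) * ((α - β : ℤ) : ℝ) ^ 2 := by
    unfold F4c_H; push_cast; ring
  rw [h2]
  exact F4c_scale _ (by positivity) _ (sub_ne_zero.2 h)

theorem qE4_two (r : ℝ) (h0 : 0 < r) (h1 : r ≤ 3 / 10) (u : Fin 4 → ℤ) (hu : Rich u)
    (h2 : ¬ ∃ i j k, u i ≠ u j ∧ u i ≠ u k ∧ u j ≠ u k) :
    (∑ σ : Equiv.Perm (Fin 4), 1 / Real.sqrt (qE4 r (u ∘ σ))) / 24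
      ≤ 1 / 3 / Real.sqrt (1 - r) + 2 / 3 / Real.sqrt (1 / 4 + r / 2 + r ^ 2 / 2) := by
  obtain ⟨r1, r2, r3, r4⟩ := F4c_rich u hu
  have d1 : ¬ (u 0 ≠ u 1 ∧ u 0 ≠ u 2 ∧ u 1 ≠ u 2) := fun h => h2 ⟨0, 1, 2, h⟩
  have d2 : ¬ (u 0 ≠ u 1 ∧ u 0 ≠ u 3 ∧ u 1 ≠ u 3) := fun h => h2 ⟨0, 1, 3, h⟩
  have d3 : ¬ (u 0 ≠ u 2 ∧ u 0 ≠ u 3 ∧ u 2 ≠ u 3) := fun h => h2 ⟨0, 2, 3, h⟩
  have d4 : ¬ (u 1 ≠ u 2 ∧ u 1 ≠ u 3 ∧ u 2 ≠ u 3) := fun h => h2 ⟨1, 2, 3, h⟩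
  have hI := F4c_I r h1
  have hII := F4c_II r h0
  have hIII := F4c_III r h0
  have e1 : 1 / 3 / Real.sqrt (1 - r) = (1 / Real.sqrt (1 - r)) / 3 := by ring
  have e2 : 2 / 3 / Real.sqrt (1 / 4 + r / 2 + r ^ 2 / 2) =
      2 * (1 / Real.sqrt (1 / 4 + r / 2 + r ^ 2 / 2)) / 3 := by ring
  rw [F4c_sumH, F4c_sum (fun a b c d => 1 / Real.sqrt (F4c_H r (u a) (u b) (u c) (u d))), e1, e2]
  have hc : (u 1 = u 0 ∧ u 3 = u 2 ∧ u 0 ≠ u 2) ∨ (u 2 = u 0 ∧ u 3 = u 1 ∧ u 0 ≠ u 1) ∨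
      (u 3 = u 0 ∧ u 2 = u 1 ∧ u 0 ≠ u 1) := by
    omega
  rcases hc with ⟨c1, c2, c3⟩ | ⟨c1, c2, c3⟩ | ⟨c1, c2, c3⟩
  · simp only [c1, c2]
    linarith [hI _ _ c3, hI _ _ c3.symm, hII _ _ c3, hII _ _ c3.symm, hIII _ _ c3,
      hIII _ _ c3.symm]
  · simp only [c1, c2]
    linarith [hI _ _ c3, hI _ _ c3.symm, hII _ _ c3, hII _ _ c3.symm, hIII _ _ c3,
      hIII _ _ c3.symm]
  · simp only [c1, c2]
    linarith [hI _ _ c3, hI _ _ c3.symm, hII _ _ c3, hII _ _ c3.symm, hIII _ _ c3,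
      hIII _ _ c3.symm]

theorem F4c_three_sorted (r : ℝ) (h0 : 0 < r) (h1 : r ≤ 3 / 10) (v : Fin 4 → ℤ) (hv : Rich v)
    (hm : v 0 ≤ v 1 ∧ v 1 ≤ v 2 ∧ v 2 ≤ v 3) (h3 : v 0 + 2 ≤ v 3) :
    (∑ σ : Equiv.Perm (Fin 4), 1 / Real.sqrt (qE4 r (v ∘ σ))) / 24
      ≤ 1 / Real.sqrt ((1 - r) * (3 + r)) + max (1 / Real.sqrt r) (4 / Real.sqrt 3) / 2 := by
  obtain ⟨r1, r2, r3, r4⟩ := F4c_rich v hv
  obtain ⟨m1, m2, m3⟩ := hm
  have hG := F4c_G r h0 h1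
  have hB := F4c_B r h0 h1
  have hG : ∀ a b c d : ℤ, (2 ≤ 2 * b - c - d ∨ 2 * b - c - d ≤ -2) →
      1 / Real.sqrt (F4c_H r a b c d) ≤ 2 / Real.sqrt ((1 - r) * (3 + r)) := by
    intro a b c d h
    apply hG
    rw [le_abs]
    omega
  have e1 : 2 / Real.sqrt ((1 - r) * (3 + r)) = 2 * (1 / Real.sqrt ((1 - r) * (3 + r))) := by ring
  rw [e1] at hG
  rw [F4c_sumH, F4c_sum (fun a b c d => 1 / Real.sqrt (F4c_H r (v a) (v b) (v c) (v d)))]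
  have hc : (2 ≤ 2 * v 3 - v 1 - v 2 ∧ 2 * v 0 - v 1 - v 2 ≤ -2) ∨
      (v 2 = v 3 ∧ v 1 + 1 = v 3) ∨ (v 1 = v 0 ∧ v 2 = v 0 + 1) := by
    omega
  rcases hc with ⟨c1, c2⟩ | ⟨c1, c2⟩ | ⟨c1, c2⟩
  · linarith [
        hB (v 0) (v 1) (v 2) (v 3) (by omega),
        hB (v 0) (v 1) (v 3) (v 2) (by omega),
        hB (v 0) (v 2) (v 1) (v 3) (by omega),
        hB (v 0) (v 2) (v 3) (v 1) (by omega),
        hG (v 0) (v 3) (v 1) (v 2) (by omega),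
        hG (v 0) (v 3) (v 2) (v 1) (by omega),
        hG (v 1) (v 0) (v 2) (v 3) (by omega),
        hG (v 1) (v 0) (v 3) (v 2) (by omega),
        hB (v 1) (v 2) (v 0) (v 3) (by omega),
        hB (v 1) (v 2) (v 3) (v 0) (by omega),
        hG (v 1) (v 3) (v 0) (v 2) (by omega),
        hG (v 1) (v 3) (v 2) (v 0) (by omega),
        hG (v 2) (v 0) (v 1) (v 3) (by omega),
        hG (v 2) (v 0) (v 3) (v 1) (by omega),
        hB (v 2) (v 1) (v 0) (v 3) (by omega),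
        hB (v 2) (v 1) (v 3) (v 0) (by omega),
        hG (v 2) (v 3) (v 0) (v 1) (by omega),
        hG (v 2) (v 3) (v 1) (v 0) (by omega),
        hG (v 3) (v 0) (v 1) (v 2) (by omega),
        hG (v 3) (v 0) (v 2) (v 1) (by omega),
        hB (v 3) (v 1) (v 0) (v 2) (by omega),
        hB (v 3) (v 1) (v 2) (v 0) (by omega),
        hB (v 3) (v 2) (v 0) (v 1) (by omega),
        hB (v 3) (v 2) (v 1) (v 0) (by omega)]
  · linarith [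
        hB (v 0) (v 1) (v 2) (v 3) (by omega),
        hB (v 0) (v 1) (v 3) (v 2) (by omega),
        hB (v 0) (v 2) (v 1) (v 3) (by omega),
        hB (v 0) (v 2) (v 3) (v 1) (by omega),
        hB (v 0) (v 3) (v 1) (v 2) (by omega),
        hB (v 0) (v 3) (v 2) (v 1) (by omega),
        hG (v 1) (v 0) (v 2) (v 3) (by omega),
        hG (v 1) (v 0) (v 3) (v 2) (by omega),
        hB (v 1) (v 2) (v 0) (v 3) (by omega),
        hB (v 1) (v 2) (v 3) (v 0) (by omega),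
        hG (v 1) (v 3) (v 0) (v 2) (by omega),
        hG (v 1) (v 3) (v 2) (v 0) (by omega),
        hG (v 2) (v 0) (v 1) (v 3) (by omega),
        hG (v 2) (v 0) (v 3) (v 1) (by omega),
        hB (v 2) (v 1) (v 0) (v 3) (by omega),
        hB (v 2) (v 1) (v 3) (v 0) (by omega),
        hG (v 2) (v 3) (v 0) (v 1) (by omega),
        hG (v 2) (v 3) (v 1) (v 0) (by omega),
        hG (v 3) (v 0) (v 1) (v 2) (by omega),
        hG (v 3) (v 0) (v 2) (v 1) (by omega),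
        hB (v 3) (v 1) (v 0) (v 2) (by omega),
        hB (v 3) (v 1) (v 2) (v 0) (by omega),
        hG (v 3) (v 2) (v 0) (v 1) (by omega),
        hG (v 3) (v 2) (v 1) (v 0) (by omega)]
  · linarith [
        hG (v 0) (v 1) (v 2) (v 3) (by omega),
        hG (v 0) (v 1) (v 3) (v 2) (by omega),
        hB (v 0) (v 2) (v 1) (v 3) (by omega),
        hB (v 0) (v 2) (v 3) (v 1) (by omega),
        hG (v 0) (v 3) (v 1) (v 2) (by omega),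
        hG (v 0) (v 3) (v 2) (v 1) (by omega),
        hG (v 1) (v 0) (v 2) (v 3) (by omega),
        hG (v 1) (v 0) (v 3) (v 2) (by omega),
        hB (v 1) (v 2) (v 0) (v 3) (by omega),
        hB (v 1) (v 2) (v 3) (v 0) (by omega),
        hG (v 1) (v 3) (v 0) (v 2) (by omega),
        hG (v 1) (v 3) (v 2) (v 0) (by omega),
        hG (v 2) (v 0) (v 1) (v 3) (by omega),
        hG (v 2) (v 0) (v 3) (v 1) (by omega),
        hB (v 2) (v 1) (v 0) (v 3) (by omega),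
        hB (v 2) (v 1) (v 3) (v 0) (by omega),
        hG (v 2) (v 3) (v 0) (v 1) (by omega),
        hG (v 2) (v 3) (v 1) (v 0) (by omega),
        hB (v 3) (v 0) (v 1) (v 2) (by omega),
        hB (v 3) (v 0) (v 2) (v 1) (by omega),
        hB (v 3) (v 1) (v 0) (v 2) (by omega),
        hB (v 3) (v 1) (v 2) (v 0) (by omega),
        hB (v 3) (v 2) (v 0) (v 1) (by omega),
        hB (v 3) (v 2) (v 1) (v 0) (by omega)]

theorem qE4_three (r : ℝ) (h0 : 0 < r) (h1 : r ≤ 3 / 10) (u : Fin 4 → ℤ) (hu : Rich u)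
    (h3 : ∃ i j k, u i ≠ u j ∧ u i ≠ u k ∧ u j ≠ u k) :
    (∑ σ : Equiv.Perm (Fin 4), 1 / Real.sqrt (qE4 r (u ∘ σ))) / 24
      ≤ 1 / Real.sqrt ((1 - r) * (3 + r)) + max (1 / Real.sqrt r) (4 / Real.sqrt 3) / 2 := by
  set τ : Equiv.Perm (Fin 4) := Tuple.sort u with hτ
  have hmono : Monotone (u ∘ τ) := Tuple.monotone_sort u
  have hsum : ∑ σ : Equiv.Perm (Fin 4), 1 / Real.sqrt (qE4 r (u ∘ σ)) =
      ∑ σ : Equiv.Perm (Fin 4), 1 / Real.sqrt (qE4 r ((u ∘ τ) ∘ σ)) := by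
    rw [← Equiv.sum_comp (Equiv.mulLeft τ)]
    rfl
  have hrich : Rich (u ∘ τ) := by
    rintro ⟨i, t, h⟩
    refine hu ⟨τ i, t, fun j hj => ?_⟩
    have h4 := h (τ.symm j) (by
      intro h5
      apply hj
      rw [← h5]; simp)
    simpa using h4
  rw [hsum]
  have m1 : (u ∘ τ) 0 ≤ (u ∘ τ) 1 := hmono (by decide)
  have m2 : (u ∘ τ) 1 ≤ (u ∘ τ) 2 := hmono (by decide)
  have m3 : (u ∘ τ) 2 ≤ (u ∘ τ) 3 := hmono (by decide)
  refine F4c_three_sorted r h0 h1 (u ∘ τ) hrich ⟨m1, m2, m3⟩ ?_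
  obtain ⟨i, j, k, hij, hik, hjk⟩ := h3
  have hall : ∀ l, (u ∘ τ) 0 ≤ u l ∧ u l ≤ (u ∘ τ) 3 := by
    intro l
    have h4 : u l = (u ∘ τ) (τ.symm l) := by simp
    rw [h4]
    exact ⟨hmono (Fin.zero_le _), hmono (Fin.le_last _)⟩
  have hi := hall i
  have hj := hall j
  have hk := hall k
  omega

end Pool.Agent.helper49.Slope
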