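import Pool.Agent.helper49.Slope.DefsF

/-!
MP_aedd95_co (slope of k-fold hyperplane covers of triangular grids), module F4d.
Numerical inequalities for the block of size 4, `0 ≤ r ≤ 3/10`.
-/

set_option autoImplicit false

open MeasureTheory ProbabilityTheory
open scoped ENNReal

namespace Pool.Agent.helper49.Slope

/-- `a / √x ≤ U` from `a² ≤ U² x` -/
theorem F4d_div_sqrt {a x U : ℝ} (ha : 0 ≤ a) (hx : 0 < x) (hU : 0 ≤ U)
    (h : a ^ 2 ≤ U ^ 2 * x) : a / Real.sqrt x ≤ U := by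
  rw [div_le_iff₀ (Real.sqrt_pos.2 hx)]
  have h1 : U * Real.sqrt x = Real.sqrt (U ^ 2 * x) := by
    rw [Real.sqrt_mul (sq_nonneg U), Real.sqrt_sq hU]
  rw [h1, ← Real.sqrt_sq ha]
  exact Real.sqrt_le_sqrt h

/-- products of powers of `r - a` and `b - r` -/
theorem F4d_bern {a b r : ℝ} (h0 : a ≤ r) (h1 : r ≤ b) (i j : ℕ) :
    0 ≤ (r - a) ^ i * (b - r) ^ j :=
  mul_nonneg (pow_nonneg (by linarith) _) (pow_nonneg (by linarith) _)

/-- Values: `r = 0`: `0.86603 ≤ 0.8717`; `r = 0.15`: `0.763060 ≤ 0.763175`; `r = 0.3`: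
`0.64900 ≤ 0.65465`. With `c = 1-r`, `L = n4 r > 0` this is `c² ≤ L² (1 + c²/3)`, a polynomial
inequality of degree 4 in `r` (minimum of the difference near `r = 0.15`). -/
theorem n4_bound (r : ℝ) (h0 : 0 ≤ r) (h1 : r ≤ 3 / 10) :
    (1 - r) / Real.sqrt (1 + (1 - r) ^ 2 / 3) ≤ n4 r := by
  unfold n4
  apply F4d_div_sqrt (by linarith) (by positivity) (by linarith)
  rcases le_total r (3 / 20) with h | h
  · have e0 := F4d_bern h0 h 0 4
    have e1 := F4d_bern h0 h 1 3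
    have e2 := F4d_bern h0 h 2 2
    have e3 := F4d_bern h0 h 3 1
    have e4 := F4d_bern h0 h 4 0
    nlinarith [e0, e1, e2, e3, e4]
  · have e0 := F4d_bern h h1 0 4
    have e1 := F4d_bern h h1 1 3
    have e2 := F4d_bern h h1 2 2
    have e3 := F4d_bern h h1 3 1
    have e4 := F4d_bern h h1 4 0
    nlinarith [e0, e1, e2, e3, e4]

/-- Values: `r = 0`: `1.66667 ≤ 1.6667`; `r = 0.15`: `1.51123 ≤ 1.53230`; `r = 0.3`:
`1.39779 ≤ 1.39790`. The left side is convex in `r` (sum of two convex functions; or bound each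
term by its chord: `1/(3√(1-r)) ≤ 0.33334 + 0.21692 r` with equality-like values `0.33333` at 0 and
`0.39841` at 0.3, and `(2/3)/√(1/4+r/2+r²/2) ≤ 1.33334 - 1.1132 r` with values `1.33333` at 0,
`0.99938` at 0.3 — please recheck the last digits). -/
theorem e4_bound (r : ℝ) (h0 : 0 ≤ r) (h1 : r ≤ 3 / 10) :
    1 / 3 / Real.sqrt (1 - r) + 2 / 3 / Real.sqrt (1 / 4 + r / 2 + r ^ 2 / 2)
      ≤ 16667 / 10000 - 896 / 1000 * r := by
  have a1 : 1 / Real.sqrt (1 - r) ≤ 1 + 65077 / 100000 * r := by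
    apply F4d_div_sqrt zero_le_one (by linarith) (by linarith)
    have e0 := F4d_bern h0 h1 0 3
    have e1 := F4d_bern h0 h1 1 2
    have e2 := F4d_bern h0 h1 2 1
    have e3 := F4d_bern h0 h1 3 0
    nlinarith [e0, e1, e2, e3]
  have a2 : 1 / Real.sqrt (1 / 4 + r / 2 + r ^ 2 / 2) ≤ 2 - 166978 / 100000 * r := by
    apply F4d_div_sqrt zero_le_one (by positivity) (by linarith)
    have e0 := F4d_bern h0 h1 0 4
    have e1 := F4d_bern h0 h1 1 3
    have e2 := F4d_bern h0 h1 2 2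
    have e3 := F4d_bern h0 h1 3 1
    have e4 := F4d_bern h0 h1 4 0
    nlinarith [e0, e1, e2, e3, e4]
  have b1 : 1 / 3 / Real.sqrt (1 - r) = 1 / 3 * (1 / Real.sqrt (1 - r)) := by ring
  have b2 : 2 / 3 / Real.sqrt (1 / 4 + r / 2 + r ^ 2 / 2) =
      2 / 3 * (1 / Real.sqrt (1 / 4 + r / 2 + r ^ 2 / 2)) := by ring
  rw [b1, b2]
  linarith

/-- two-valued forms: `n4 r + r (1.6667 - 0.896 r) = P4 r` -/
theorem P4_two (r : ℝ) (h0 : 0 ≤ r) (h1 : r ≤ 3 / 10) :
    (1 - r) / Real.sqrt (1 + (1 - r) ^ 2 / 3)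
      + r * (1 / 3 / Real.sqrt (1 - r) + 2 / 3 / Real.sqrt (1 / 4 + r / 2 + r ^ 2 / 2)) ≤ P4 r := by
  have a1 := n4_bound r h0 h1
  have a2 := mul_le_mul_of_nonneg_left (e4_bound r h0 h1) h0
  unfold n4 at a1
  unfold P4
  linarith

/-- forms with at least three values. Values of the left / right side: `r = 0.05`: `0.742/0.917`,
`0.1`: `0.805/0.957`, `0.2`: `0.912/1.025`, `0.25`: `0.985/1.052`, `0.3`: `1.0631/1.0740`. For
`r ≥ 3/16` the maximum is `4/√3 = 2.3094`, then all terms are monotone; split the interval into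
small pieces and use monotonicity of the four terms (`(1-r)/√(1+5(1-r)²/3)` decreasing,
`r/√((1-r)(3+r))` increasing, `r·max(1/√r, 4/√3) = max(√r, 4r/√3)` increasing). -/
theorem P4_three (r : ℝ) (h0 : 0 < r) (h1 : r ≤ 3 / 10) :
    (1 - r) / Real.sqrt (1 + 5 * (1 - r) ^ 2 / 3)
      + r * (1 / Real.sqrt ((1 - r) * (3 + r)) + max (1 / Real.sqrt r) (4 / Real.sqrt 3) / 2)
      ≤ P4 r := by
  have h0' := h0.le
  have a1 : (1 - r) / Real.sqrt (1 + 5 * (1 - r) ^ 2 / 3) ≤ 6419 / 10000 - 4084 / 10000 * r := by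
    apply F4d_div_sqrt (by linarith) (by positivity) (by linarith)
    have e0 := F4d_bern h0' h1 0 4
    have e1 := F4d_bern h0' h1 1 3
    have e2 := F4d_bern h0' h1 2 2
    have e3 := F4d_bern h0' h1 3 1
    have e4 := F4d_bern h0' h1 4 0
    nlinarith [e0, e1, e2, e3, e4]
  have a2 : 1 / Real.sqrt ((1 - r) * (3 + r)) ≤ 57736 / 100000 + 26868 / 100000 * r := by
    apply F4d_div_sqrt zero_le_one (mul_pos (by linarith) (by linarith)) (by linarith)
    have e0 := F4d_bern h0' h1 0 4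
    have e1 := F4d_bern h0' h1 1 3
    have e2 := F4d_bern h0' h1 2 2
    have e3 := F4d_bern h0' h1 3 1
    have e4 := F4d_bern h0' h1 4 0
    nlinarith [e0, e1, e2, e3, e4]
  have a3 := mul_le_mul_of_nonneg_left a2 h0'
  -- the two terms of the maximum
  have b1 : r * (1 / Real.sqrt r) ≤ (r + 9 / 100) / (6 / 10) := by
    have e1 : r * (1 / Real.sqrt r) = Real.sqrt r := by
      rw [mul_one_div]
      exact Real.div_sqrt
    rw [e1, le_div_iff₀ (by norm_num)]
    have e2 := Real.sq_sqrt h0'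
    nlinarith [sq_nonneg (Real.sqrt r - 3 / 10)]
  have b2 : 4 / Real.sqrt 3 ≤ 230942 / 100000 := by
    apply F4d_div_sqrt (by norm_num) (by norm_num) (by norm_num)
    norm_num
  have b3 := mul_le_mul_of_nonneg_left b2 h0'
  unfold P4
  rcases le_total (1 / Real.sqrt r) (4 / Real.sqrt 3) with h | h
  · rw [max_eq_right h]
    nlinarith
  · rw [max_eq_left h]
    nlinarith

end Pool.Agent.helper49.Slope
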