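import Pool.Agent.helper49.Slope.DefsF
import Pool.Agent.helper49.Slope.F4a
import Pool.Agent.helper49.Slope.F4b
import Pool.Agent.helper49.Slope.F4c
import Pool.Agent.helper49.Slope.F4d
import Pool.Agent.helper49.Slope.B2b
import Pool.Agent.helper49.Slope.B5
import Pool.Agent.helper49.Slope.B7c
import Pool.Agent.helper49.Slope.B7d

/-!
MP_aedd95_co (slope of k-fold hyperplane covers of triangular grids), module F4.
The block of size 4: assembly.

PROOF. Let `ρ = |x|`. Take the kernels of `exists_polyKernel` for `(vN4, dN4)` and `(vE4, dE4)`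
(everything is measurable in `x`), symmetrise each (`exists_symKernel`) and mix them with weights
`1 - ρ'`, `ρ'`, `ρ' = min ρ 1` (`exists_twoKernel`). Facts from F4a (for `|x| ≤ 3/10`).
* Support: `F4a`: vectors sum to 0, `d` sums to `x`, `|v_i| + |d_i| ≤ 1` (for the E-state only
  needed when `x ≠ 0`, as its weight vanishes for `x = 0`).
* Singles: let `x > 0`. State N: `y_0` is
  uniform on `[-1+2ρ, 1]` with load `1/(1-ρ)`, the other three have load `1` on `[-1,1]`. State E:
  `y_0`: load `1/ρ` on `[-1,-1+2ρ]`; `y_1`: load `1` on `[-1,1]`; `y_2, y_3`: load `2` on `[0,1]`.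
  Up to endpoints (`HasLoad.mono_ae`) the sum over the positions of
  `(1-ρ) N + ρ E` is `1 + 3 (1-ρ) + ρ + 4 ρ 1_{[0,1]} = 4 (1 - ρ/2 + ρ 1_{[0,1]})`, i.e.
  `4 sprof (x/2)`. For `x < 0` reflect (`1_{[-1,0]}` instead of `1_{[0,1]}`). For `x = 0` only N.
* Rich forms: state N has load `≤ 1/√(1+c²/3)`, `c = 1-ρ`, for every permutation (F4b), and if `u`
  has at least three values `≤ 1/√(1+5c²/3)`. State E, average over the permutations: F4c.
  `P4` follows from the numerical inequalities of F4d. For `partner`: add an independent variable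
  of load `≤ M` in both states.
-/

set_option autoImplicit false

open MeasureTheory ProbabilityTheory
open scoped ENNReal

namespace Pool.Agent.helper49.Slope

/-- the coordinate form -/
theorem F4_lin_single {ι : Type} [Fintype ι] [DecidableEq ι] (i : ι) :
    (fun y : ι → ℝ => y i) = lin (Pi.single i (1 : ℤ)) := by
  funext y
  unfold lin
  rw [Finset.sum_eq_single i]
  · simp
  · intro j _ hj
    simp [hj]
  · intro h
    exact absurd (Finset.mem_univ i) h

theorem F4_vsq_single {ι : Type} [Fintype ι] [DecidableEq ι] (v : ι → Fin 3 → ℝ) (i : ι) :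
    vsq v (Pi.single i (1 : ℤ)) = ∑ k, v i k ^ 2 := by
  unfold vsq
  apply Finset.sum_congr rfl
  intro k _
  congr 1
  rw [Finset.sum_eq_single i]
  · simp
  · intro j _ hj
    simp [hj]
  · intro h
    exact absurd (Finset.mem_univ i) h

theorem F4_sum_single {ι : Type} [Fintype ι] [DecidableEq ι] (d : ι → ℝ) (i : ι) :
    ∑ j, ((Pi.single i (1 : ℤ) : ι → ℤ) j : ℝ) * d j = d i := by
  rw [Finset.sum_eq_single i]
  · simp
  · intro j _ hj
    simp [hj]
  · intro h
    exact absurd (Finset.mem_univ i) h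

theorem F4_rich_comp {ι : Type} (u : ι → ℤ) (σ : Equiv.Perm ι) (hu : Rich u) : Rich (u ∘ σ) := by
  intro h
  apply hu
  obtain ⟨i, t, h⟩ := h
  refine ⟨σ i, t, fun j hj => ?_⟩
  have h1 := h (σ.symm j) (fun h2 => hj (by rw [← h2, Equiv.apply_symm_apply]))
  simpa using h1

theorem F4_three_comp {ι : Type} (u : ι → ℤ) (σ : Equiv.Perm ι)
    (h : ∃ i j k, u i ≠ u j ∧ u i ≠ u k ∧ u j ≠ u k) :
    ∃ i j k, (u ∘ σ) i ≠ (u ∘ σ) j ∧ (u ∘ σ) i ≠ (u ∘ σ) k ∧ (u ∘ σ) j ≠ (u ∘ σ) k := by
  obtain ⟨i, j, k, h1, h2, h3⟩ := h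
  exact ⟨σ.symm i, σ.symm j, σ.symm k, by simpa using h1, by simpa using h2, by simpa using h3⟩

theorem F4_ker_le (D V L z : ℝ) (h : 1 / V ≤ L) (hL : 0 ≤ L) : ker D V z ≤ ENNReal.ofReal L := by
  unfold ker
  split_ifs
  · exact ENNReal.ofReal_le_ofReal h
  · exact zero_le

/-- mixing two constant loads, the second one only needed for positive weight -/
theorem F4_mix {μ ν : Measure ℝ} {ρ L M : ℝ} (h0 : 0 ≤ ρ) (h1 : ρ ≤ 1) (hL : 0 ≤ L) (hM : 0 ≤ M)
    (hμ : HasLoad μ (fun _ => ENNReal.ofReal L))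
    (hν : ρ ≠ 0 → HasLoad ν (fun _ => ENNReal.ofReal M)) :
    HasLoad (ENNReal.ofReal (1 - ρ) • μ + ENNReal.ofReal ρ • ν)
      (fun _ => ENNReal.ofReal ((1 - ρ) * L + ρ * M)) := by
  have h1' : 0 ≤ 1 - ρ := by linarith
  by_cases h : ρ = 0
  · subst h
    simpa using hμ
  · have := HasLoad.add_smul measurable_const measurable_const hμ (hν h) (ENNReal.ofReal (1 - ρ))
      (ENNReal.ofReal ρ) ENNReal.ofReal_ne_top ENNReal.ofReal_ne_top
    refine this.mono (fun z => ?_)
    rw [← ENNReal.ofReal_mul h1', ← ENNReal.ofReal_mul h0,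
      ← ENNReal.ofReal_add (mul_nonneg h1' hL) (mul_nonneg h0 hM)]

/-- average of constant loads over permutations -/
theorem F4_avg (F : Equiv.Perm (Fin 4) → ℝ) (hF : ∀ σ, 0 ≤ F σ) (L : ℝ)
    (h : (∑ σ, F σ) / 24 ≤ L) :
    (∑ σ : Equiv.Perm (Fin 4), ENNReal.ofReal (F σ)) /
      ((Fintype.card (Fin 4)).factorial : ℝ≥0∞) ≤ ENNReal.ofReal L := by
  rw [← ENNReal.ofReal_sum_of_nonneg (fun σ _ => hF σ)]
  have h24 : ((Fintype.card (Fin 4)).factorial : ℝ≥0∞) = ENNReal.ofReal 24 := by
    rw [Fintype.card_fin]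
    norm_num [Nat.factorial]
  rw [h24, ← ENNReal.ofReal_div_of_pos (by norm_num)]
  exact ENNReal.ofReal_le_ofReal h

/-- the real version of `ker` -/
noncomputable def F4_kerR (D V z : ℝ) : ℝ := if |z - D| ≤ V then 1 / V else 0

theorem F4_ker_eq (D V z : ℝ) : ker D V z = ENNReal.ofReal (F4_kerR D V z) := by
  unfold ker F4_kerR
  split_ifs <;> simp

theorem F4_kerR_nonneg (D V z : ℝ) (hV : 0 ≤ V) : 0 ≤ F4_kerR D V z := by
  unfold F4_kerR
  split_ifs
  · positivity
  · exact le_rfl

theorem F4_combine (ρ a0 a1 a2 a3 b0 b1 b2 b3 : ℝ) (h0 : 0 ≤ ρ) (h1 : ρ ≤ 1) (ha0 : 0 ≤ a0)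
    (ha1 : 0 ≤ a1) (ha2 : 0 ≤ a2) (ha3 : 0 ≤ a3) (hb0 : 0 ≤ b0) (hb1 : 0 ≤ b1) (hb2 : 0 ≤ b2)
    (hb3 : 0 ≤ b3) :
    ENNReal.ofReal (1 - ρ) * ((ENNReal.ofReal a0 + ENNReal.ofReal a1 + ENNReal.ofReal a2 +
        ENNReal.ofReal a3) / 4) + ENNReal.ofReal ρ * ((ENNReal.ofReal b0 + ENNReal.ofReal b1 +
        ENNReal.ofReal b2 + ENNReal.ofReal b3) / 4) =
      ENNReal.ofReal (((1 - ρ) * (a0 + a1 + a2 + a3) + ρ * (b0 + b1 + b2 + b3)) / 4) := by
  have h1' : 0 ≤ 1 - ρ := by linarith
  have h4 : (4 : ℝ≥0∞) = ENNReal.ofReal 4 := by norm_num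
  rw [← ENNReal.ofReal_add ha0 ha1, ← ENNReal.ofReal_add (by positivity) ha2,
    ← ENNReal.ofReal_add (by positivity) ha3, ← ENNReal.ofReal_add hb0 hb1,
    ← ENNReal.ofReal_add (by positivity) hb2, ← ENNReal.ofReal_add (by positivity) hb3, h4,
    ← ENNReal.ofReal_div_of_pos (by norm_num), ← ENNReal.ofReal_div_of_pos (by norm_num),
    ← ENNReal.ofReal_mul h1', ← ENNReal.ofReal_mul h0,
    ← ENNReal.ofReal_add (by positivity) (by positivity)]
  congr 1
  ring

/-- the profile inequality away from finitely many points -/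
theorem F4_profile (x z : ℝ) (hx : |x| ≤ 3 / 10) (hx0 : x ≠ 0) (hz0 : z ≠ 0)
    (hz1 : z ≠ 2 * x - 1) (hz2 : z ≠ 2 * x + 1) :
    ENNReal.ofReal (1 - |x|) * ((ker x (1 - |x|) z + ker 0 1 z + ker 0 1 z + ker 0 1 z) / 4) +
      ENNReal.ofReal |x| * ((ker (eps x * (1 - |x|)) |x| z + ker 0 1 z +
        ker (-eps x / 2) (1 / 2) z + ker (-eps x / 2) (1 / 2) z) / 4) ≤
      sprof (2 / 4 * x) z := by
  have hρ0 : 0 < |x| := abs_pos.mpr hx0
  have hc0 : 0 < 1 - |x| := by linarith
  simp only [F4_ker_eq]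
  rw [F4_combine |x| _ _ _ _ _ _ _ _ hρ0.le (by linarith) (F4_kerR_nonneg _ _ _ hc0.le)
    (F4_kerR_nonneg _ _ _ zero_le_one) (F4_kerR_nonneg _ _ _ zero_le_one)
    (F4_kerR_nonneg _ _ _ zero_le_one) (F4_kerR_nonneg _ _ _ hρ0.le)
    (F4_kerR_nonneg _ _ _ zero_le_one) (F4_kerR_nonneg _ _ _ (by norm_num))
    (F4_kerR_nonneg _ _ _ (by norm_num))]
  have hA : ∀ a : ℝ, a * F4_kerR 0 1 z = if |z| ≤ 1 then a else 0 := by
    intro a
    unfold F4_kerR
    rw [sub_zero]
    split_ifs <;> simp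
  have hN : (1 - |x|) * F4_kerR x (1 - |x|) z = if |z - x| ≤ 1 - |x| then 1 else 0 := by
    unfold F4_kerR
    split_ifs
    · field_simp
    · simp
  have hE : |x| * F4_kerR (eps x * (1 - |x|)) |x| z =
      if |z - eps x * (1 - |x|)| ≤ |x| then 1 else 0 := by
    unfold F4_kerR
    split_ifs
    · field_simp
    · simp
  have hH : ∀ a : ℝ, a * F4_kerR (-eps x / 2) (1 / 2) z = if |z - -eps x / 2| ≤ 1 / 2 then 2 * a else 0 := by
    intro a
    unfold F4_kerR
    split_ifs
    · ring
    · simp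
  have hsum : (1 - |x|) * (F4_kerR x (1 - |x|) z + F4_kerR 0 1 z + F4_kerR 0 1 z + F4_kerR 0 1 z) +
      |x| * (F4_kerR (eps x * (1 - |x|)) |x| z + F4_kerR 0 1 z +
        F4_kerR (-eps x / 2) (1 / 2) z + F4_kerR (-eps x / 2) (1 / 2) z) =
      (if |z - x| ≤ 1 - |x| then 1 else 0) + (if |z| ≤ 1 then (3 - 2 * |x|) else 0) +
      (if |z - eps x * (1 - |x|)| ≤ |x| then 1 else 0) +
      (if |z - -eps x / 2| ≤ 1 / 2 then 4 * |x| else 0) := by
    rw [← hN, ← hE, ← hA (3 - 2 * |x|)]
    have := hH (2 * |x|)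
    rw [show 4 * |x| = 2 * (2 * |x|) by ring, ← this]
    ring
  rw [hsum]
  unfold sprof
  rcases lt_or_gt_of_ne hx0 with hneg | hpos
  · -- x < 0, eps = 1
    have he : eps x = 1 := by
      unfold eps
      rw [if_neg (by linarith)]
    have ha : |x| = -x := abs_of_neg hneg
    rw [ha] at hx hρ0 hc0 ⊢
    rw [he]
    by_cases hz : |z| ≤ 1
    · obtain ⟨hzl, hzu⟩ := abs_le.mp hz
      rw [if_pos hz, if_pos hz]
      by_cases hz' : 0 ≤ z
      · have hz'' : 0 < z := lt_of_le_of_ne hz' (Ne.symm hz0)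
        rw [if_pos hz']
        apply ENNReal.ofReal_le_ofReal
        rw [if_neg (show ¬ |z - -1 / 2| ≤ 1 / 2 by
          intro h; have := (abs_le.mp h).2; linarith)]
        by_cases h2 : z < 2 * x + 1
        · rw [if_pos (show |z - x| ≤ 1 - -x by rw [abs_le]; constructor <;> linarith),
            if_neg (show ¬ |z - 1 * (1 - -x)| ≤ -x by
              intro h; have := (abs_le.mp h).1; linarith)]
          linarith
        · have h3 : 2 * x + 1 < z := lt_of_le_of_ne (not_lt.mp h2) (Ne.symm hz2)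
          rw [if_neg (show ¬ |z - x| ≤ 1 - -x by
              intro h; have := (abs_le.mp h).2; linarith),
            if_pos (show |z - 1 * (1 - -x)| ≤ -x by rw [abs_le]; constructor <;> linarith)]
          linarith
      · have hz'' : z < 0 := not_le.mp hz'
        rw [if_neg hz']
        apply ENNReal.ofReal_le_ofReal
        rw [if_pos (show |z - -1 / 2| ≤ 1 / 2 by rw [abs_le]; constructor <;> linarith),
          if_pos (show |z - x| ≤ 1 - -x by rw [abs_le]; constructor <;> linarith),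
          if_neg (show ¬ |z - 1 * (1 - -x)| ≤ -x by
            intro h; have := (abs_le.mp h).1; linarith)]
        linarith
    · rw [if_neg hz, if_neg hz]
      rw [if_neg (show ¬ |z - x| ≤ 1 - -x by
          intro h; apply hz; obtain ⟨h1, h2⟩ := abs_le.mp h
          rw [abs_le]; constructor <;> linarith),
        if_neg (show ¬ |z - 1 * (1 - -x)| ≤ -x by
          intro h; apply hz; obtain ⟨h1, h2⟩ := abs_le.mp h
          rw [abs_le]; constructor <;> linarith),
        if_neg (show ¬ |z - -1 / 2| ≤ 1 / 2 by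
          intro h; apply hz; obtain ⟨h1, h2⟩ := abs_le.mp h
          rw [abs_le]; constructor <;> linarith)]
      simp
  · -- x > 0, eps = -1
    have he : eps x = -1 := by
      unfold eps
      rw [if_pos hpos]
    have ha : |x| = x := abs_of_pos hpos
    rw [ha] at hx hρ0 hc0 ⊢
    rw [he]
    by_cases hz : |z| ≤ 1
    · obtain ⟨hzl, hzu⟩ := abs_le.mp hz
      rw [if_pos hz, if_pos hz]
      by_cases hz' : 0 ≤ z
      · have hz'' : 0 < z := lt_of_le_of_ne hz' (Ne.symm hz0)
        rw [if_pos hz']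
        apply ENNReal.ofReal_le_ofReal
        rw [if_pos (show |z - - -1 / 2| ≤ 1 / 2 by rw [abs_le]; constructor <;> linarith),
          if_pos (show |z - x| ≤ 1 - x by rw [abs_le]; constructor <;> linarith),
          if_neg (show ¬ |z - -1 * (1 - x)| ≤ x by
            intro h; have := (abs_le.mp h).2; linarith)]
        linarith
      · have hz'' : z < 0 := not_le.mp hz'
        rw [if_neg hz']
        apply ENNReal.ofReal_le_ofReal
        rw [if_neg (show ¬ |z - - -1 / 2| ≤ 1 / 2 by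
          intro h; have := (abs_le.mp h).1; linarith)]
        by_cases h2 : z < 2 * x - 1
        · rw [if_neg (show ¬ |z - x| ≤ 1 - x by
              intro h; have := (abs_le.mp h).1; linarith),
            if_pos (show |z - -1 * (1 - x)| ≤ x by rw [abs_le]; constructor <;> linarith)]
          linarith
        · have h3 : 2 * x - 1 < z := lt_of_le_of_ne (not_lt.mp h2) (Ne.symm hz1)
          rw [if_pos (show |z - x| ≤ 1 - x by rw [abs_le]; constructor <;> linarith),
            if_neg (show ¬ |z - -1 * (1 - x)| ≤ x by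
              intro h; have := (abs_le.mp h).2; linarith)]
          linarith
    · rw [if_neg hz, if_neg hz]
      rw [if_neg (show ¬ |z - x| ≤ 1 - x by
          intro h; apply hz; obtain ⟨h1, h2⟩ := abs_le.mp h
          rw [abs_le]; constructor <;> linarith),
        if_neg (show ¬ |z - -1 * (1 - x)| ≤ x by
          intro h; apply hz; obtain ⟨h1, h2⟩ := abs_le.mp h
          rw [abs_le]; constructor <;> linarith),
        if_neg (show ¬ |z - - -1 / 2| ≤ 1 / 2 by
          intro h; apply hz; obtain ⟨h1, h2⟩ := abs_le.mp h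
          rw [abs_le]; constructor <;> linarith)]
      simp

theorem F4_ker_measurable (D V : ℝ) : Measurable (ker D V) := B5_measurable_ker D V

theorem F4_sqrt_sq {a : ℝ} (h : 0 ≤ a) : Real.sqrt (a ^ 2) = a := Real.sqrt_sq h

/-- coordinate loads of a poly kernel -/
theorem F4_coord {ι : Type} [Fintype ι] [DecidableEq ι] (v : ι → Fin 3 → ℝ) (d : ι → ℝ)
    (μ : Measure (ι → ℝ))
    (h : ∀ u : ι → ℤ, 0 < vsq v u →
        HasLoad (μ.map (lin u)) (ker (∑ i, (u i : ℝ) * d i) (Real.sqrt (vsq v u))))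
    (i : ι) (r : ℝ) (hr : 0 < r) (hv : ∑ k, v i k ^ 2 = r ^ 2) :
    HasLoad (μ.map (fun y => y i)) (ker (d i) r) := by
  have h1 := h (Pi.single i 1) (by rw [F4_vsq_single, hv]; positivity)
  rw [F4_vsq_single, F4_sum_single, hv, Real.sqrt_sq hr.le, ← F4_lin_single] at h1
  exact h1

theorem block_four : ∃ κ : Kernel ℝ (Fin 4 → ℝ), IsMarkovKernel κ ∧ Blk κ (3 / 10) P4 n4 := by
  obtain ⟨κN, hκN, hN⟩ := exists_polyKernel vN4 vN4_measurable dN4 dN4_measurable
  obtain ⟨κE, hκE, hE⟩ := exists_polyKernel vE4 vE4_measurable dE4 dE4_measurable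
  obtain ⟨ζN, hζN, hNs⟩ := exists_symKernel κN
  obtain ⟨ζE, hζE, hEs⟩ := exists_symKernel κE
  obtain ⟨ζ, hζ, hmix⟩ := exists_twoKernel ζN ζE (fun x => min |x| 1)
    (measurable_abs.min measurable_const) (fun x => le_min (abs_nonneg x) zero_le_one)
    (fun x => min_le_right _ _)
  have hmix' : ∀ x : ℝ, |x| ≤ 3 / 10 →
      ζ x = ENNReal.ofReal (1 - |x|) • ζN x + ENNReal.ofReal |x| • ζE x := by
    intro x hx
    have := hmix x
    rw [min_eq_left (by linarith)] at this
    exact this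
  have hmap : ∀ x : ℝ, |x| ≤ 3 / 10 → ∀ f : (Fin 4 → ℝ) → ℝ, Measurable f →
      (ζ x).map f = ENNReal.ofReal (1 - |x|) • (ζN x).map f + ENNReal.ofReal |x| • (ζE x).map f := by
    intro x hx f hf
    rw [hmix' x hx, Measure.map_add _ _ hf, Measure.map_smul, Measure.map_smul]
  have hlm : ∀ u : Fin 4 → ℤ, Measurable (lin u) := B5_measurable_lin
  -- supports
  have hNsupp : ∀ x : ℝ, |x| ≤ 3 / 10 → Supp (ζN x) x := by
    intro x hx
    have hx1 : 0 ≤ 1 - |x| := by linarith
    apply (hNs x).1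
    apply (hN x).1 x (vN4_sum x) (dN4_sum x)
    intro i
    rw [vN4_norm x hx i]
    fin_cases i
    · simp only [Fin.zero_eta, Fin.isValue, ↓reduceIte, dN4, Matrix.cons_val_zero]
      rw [Real.sqrt_sq hx1]
      linarith
    · simp [dN4]
    · simp [dN4]
    · simp [dN4]
  have hEsupp : ∀ x : ℝ, |x| ≤ 3 / 10 → x ≠ 0 → Supp (ζE x) x := by
    intro x hx hx0
    have hx1 : 0 ≤ 1 - |x| := by linarith
    have heps : |eps x| = 1 := by
      unfold eps
      split_ifs <;> simp
    apply (hEs x).1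
    apply (hE x).1 x (vE4_sum x) (dE4_sum x hx0)
    intro i
    rw [vE4_norm x hx i]
    fin_cases i
    · simp only [Fin.zero_eta, Fin.isValue, dE4, Matrix.cons_val_zero]
      rw [Real.sqrt_sq (abs_nonneg x), abs_mul, heps, one_mul, abs_of_nonneg hx1]
      linarith
    · simp [dE4]
    · simp only [Fin.reduceFinMk, Fin.isValue, dE4, Matrix.cons_val]
      rw [Real.sqrt_sq (by norm_num), abs_div, abs_neg, heps]
      norm_num
    · simp only [Fin.reduceFinMk, Fin.isValue, dE4, Matrix.cons_val]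
      rw [Real.sqrt_sq (by norm_num), abs_div, abs_neg, heps]
      norm_num
  -- constant bounds
  have hNload : ∀ x : ℝ, |x| ≤ 3 / 10 → ∀ u : Fin 4 → ℤ, Rich u → ∀ L : ℝ, 0 < L →
      (∀ σ : Equiv.Perm (Fin 4), L ≤ vsq (vN4 x) (u ∘ σ)) →
      HasLoad ((ζN x).map (lin u)) (fun _ => ENNReal.ofReal (1 / Real.sqrt L)) := by
    intro x hx u hu L hL hσ
    have h1 := (hNs x).2.1 u (fun _ _ => ENNReal.ofReal (1 / Real.sqrt L))
      (fun σ => measurable_const) (fun σ => by
        have h2 := (hN x).2 (u ∘ σ) (hL.trans_le (hσ σ))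
        refine h2.mono (fun z => F4_ker_le _ _ _ _ ?_ (by positivity))
        apply one_div_le_one_div_of_le (Real.sqrt_pos.mpr hL)
        exact Real.sqrt_le_sqrt (hσ σ))
    refine h1.mono (fun z => ?_)
    apply F4_avg (fun _ => 1 / Real.sqrt L) (fun _ => by positivity)
    rw [Finset.sum_const, Finset.card_univ, Fintype.card_perm, Fintype.card_fin]
    norm_num [Nat.factorial]
  have hEload : ∀ x : ℝ, |x| ≤ 3 / 10 → x ≠ 0 → ∀ u : Fin 4 → ℤ, Rich u → ∀ L : ℝ,
      (∑ σ : Equiv.Perm (Fin 4), 1 / Real.sqrt (qE4 |x| (u ∘ σ))) / 24 ≤ L →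
      HasLoad ((ζE x).map (lin u)) (fun _ => ENNReal.ofReal L) := by
    intro x hx hx0 u hu L hL
    have hρ : 0 < |x| := abs_pos.mpr hx0
    have h1 := (hEs x).2.1 u (fun σ _ => ENNReal.ofReal (1 / Real.sqrt (qE4 |x| (u ∘ σ))))
      (fun σ => measurable_const) (fun σ => by
        have h3 : vsq (vE4 x) (u ∘ σ) = qE4 |x| (u ∘ σ) := vsq_E4 x hx (u ∘ σ)
        have h4 := qE4_pos |x| hρ hx (u ∘ σ) (F4_rich_comp u σ hu)
        have h2 := (hE x).2 (u ∘ σ) (by rw [h3]; exact h4)
        refine h2.mono (fun z => F4_ker_le _ _ _ _ ?_ (by positivity))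
        rw [h3])
    refine h1.mono (fun z => ?_)
    exact F4_avg (fun σ => 1 / Real.sqrt (qE4 |x| (u ∘ σ))) (fun _ => by positivity) L hL
  have hN2 : ∀ x : ℝ, |x| ≤ 3 / 10 → ∀ u : Fin 4 → ℤ, Rich u →
      HasLoad ((ζN x).map (lin u))
        (fun _ => ENNReal.ofReal (1 / Real.sqrt (1 + (1 - |x|) ^ 2 / 3))) := by
    intro x hx u hu
    apply hNload x hx u hu _ (by positivity)
    intro σ
    rw [vsq_N4 x hx]
    exact qN4_rich (1 - |x|) (by linarith) (by linarith [abs_nonneg x]) (u ∘ σ)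
      (F4_rich_comp u σ hu)
  refine ⟨ζ, hζ, ?_, ?_, ?_, ?_⟩
  · -- supp
    intro x hx
    unfold Supp
    rw [hmix' x hx, ae_add_measure_iff]
    refine ⟨Measure.ae_smul_measure (hNsupp x hx) _, ?_⟩
    by_cases hx0 : x = 0
    · subst hx0
      simp
    · exact Measure.ae_smul_measure (hEsupp x hx hx0) _
  · -- single
    intro x hx i
    have hx1 : 0 < 1 - |x| := by linarith
    rw [hmap x hx _ (measurable_pi_apply i)]
    have hNi := (hNs x).2.2 (fun j => ker (dN4 x j) (if j = 0 then 1 - |x| else 1))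
      (fun j => F4_ker_measurable _ _) (fun j => F4_coord (vN4 x) (dN4 x) (κN x) (hN x).2 j _
        (by split_ifs <;> linarith) (vN4_norm x hx j)) i
    have hNi' : HasLoad ((ζN x).map (fun y => y i))
        (fun z => (ker x (1 - |x|) z + ker 0 1 z + ker 0 1 z + ker 0 1 z) / 4) := by
      refine hNi.mono (fun z => le_of_eq ?_)
      rw [Fin.sum_univ_four]
      simp [dN4]
    by_cases hx0 : x = 0
    · subst hx0
      simp only [abs_zero, sub_zero, ENNReal.ofReal_one, one_smul, ENNReal.ofReal_zero,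
        zero_smul, add_zero, mul_zero] at hNi' ⊢
      refine hNi'.mono (fun z => ?_)
      unfold ker sprof
      simp only [sub_zero, add_zero, div_one, ENNReal.ofReal_one, ite_self]
      split_ifs
      · have : (1 + 1 + 1 + 1 : ℝ≥0∞) = 4 := by norm_num
        rw [this, ENNReal.div_self (by norm_num) (by norm_num)]
      · simp
    · have hρ : 0 < |x| := abs_pos.mpr hx0
      have hEi := (hEs x).2.2 (fun j => ker (dE4 x j) (![|x|, 1, 1 / 2, 1 / 2] j))
        (fun j => F4_ker_measurable _ _) (fun j => F4_coord (vE4 x) (dE4 x) (κE x) (hE x).2 j _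
          (by fin_cases j <;> simp [hx0]) (vE4_norm x hx j)) i
      have hEi' : HasLoad ((ζE x).map (fun y => y i))
          (fun z => (ker (eps x * (1 - |x|)) |x| z + ker 0 1 z + ker (-eps x / 2) (1 / 2) z +
            ker (-eps x / 2) (1 / 2) z) / 4) := by
        refine hEi.mono (fun z => le_of_eq ?_)
        rw [Fin.sum_univ_four]
        simp [dE4]
      have hmN : Measurable (fun z => (ker x (1 - |x|) z + ker 0 1 z + ker 0 1 z + ker 0 1 z) / 4) :=
        ((((F4_ker_measurable _ _).add (F4_ker_measurable _ _)).add (F4_ker_measurable _ _)).add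
          (F4_ker_measurable _ _)).div_const 4
      have hmE : Measurable (fun z => (ker (eps x * (1 - |x|)) |x| z + ker 0 1 z +
          ker (-eps x / 2) (1 / 2) z + ker (-eps x / 2) (1 / 2) z) / 4) :=
        ((((F4_ker_measurable _ _).add (F4_ker_measurable _ _)).add (F4_ker_measurable _ _)).add
          (F4_ker_measurable _ _)).div_const 4
      have := HasLoad.add_smul hmN hmE hNi' hEi' (ENNReal.ofReal (1 - |x|)) (ENNReal.ofReal |x|)
        ENNReal.ofReal_ne_top ENNReal.ofReal_ne_top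
      refine this.mono_ae ?_
      have hae : ∀ a : ℝ, ∀ᵐ z : ℝ, z ≠ a := fun a => by
        rw [ae_iff]
        simp
      filter_upwards [hae 0, hae (2 * x - 1), hae (2 * x + 1)] with z hz0 hz1 hz2
      have h := F4_profile x z hx hx0 hz0 hz1 hz2
      rw [Fintype.card_fin]
      exact_mod_cast h
  · -- rich
    intro x hx u hu
    rw [hmap x hx _ (hlm u)]
    by_cases h3 : ∃ i j k, u i ≠ u j ∧ u i ≠ u k ∧ u j ≠ u k
    · have hN3 : HasLoad ((ζN x).map (lin u))
          (fun _ => ENNReal.ofReal (1 / Real.sqrt (1 + 5 * (1 - |x|) ^ 2 / 3))) := by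
        apply hNload x hx u hu _ (by positivity)
        intro σ
        rw [vsq_N4 x hx]
        exact qN4_three (1 - |x|) (by linarith) (by linarith [abs_nonneg x]) (u ∘ σ)
          (F4_rich_comp u σ hu) (F4_three_comp u σ h3)
      by_cases hx0 : x = 0
      · have h2 := F4_mix (abs_nonneg x) (by linarith) (by positivity) le_rfl (hN2 x hx u hu)
          (fun h => absurd (by rw [hx0]; simp) h) (ν := (ζE x).map (lin u)) (M := 0)
        refine h2.mono (fun z => ENNReal.ofReal_le_ofReal ?_)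
        have := P4_two |x| (abs_nonneg x) hx
        rw [hx0] at this ⊢
        simpa using this
      · have hρ : 0 < |x| := abs_pos.mpr hx0
        have h2 := F4_mix (abs_nonneg x) (by linarith) (by positivity) (by positivity) hN3
          (fun _ => hEload x hx hx0 u hu _ (qE4_three |x| hρ hx u hu h3))
        refine h2.mono (fun z => ENNReal.ofReal_le_ofReal ?_)
        have := P4_three |x| hρ hx
        rw [mul_one_div]
        exact this
    · have h2 := F4_mix (abs_nonneg x) (by linarith) (by positivity) (by positivity) (hN2 x hx u hu)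
          (fun h => hEload x hx (by intro h0; apply h; rw [h0, abs_zero]) u hu _
            (qE4_two |x| (lt_of_le_of_ne (abs_nonneg x) (Ne.symm h)) hx u hu h3))
      refine h2.mono (fun z => ENNReal.ofReal_le_ofReal ?_)
      have := P4_two |x| (abs_nonneg x) hx
      rw [mul_one_div]
      exact this
  · -- partner
    intro x hx u hu ν hν M hM hload
    rw [hmap x hx _ (hlm u)]
    haveI : IsProbabilityMeasure ((ζN x).map (lin u)) :=
      Measure.isProbabilityMeasure_map (hlm u).aemeasurable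
    haveI : IsProbabilityMeasure ((ζE x).map (lin u)) :=
      Measure.isProbabilityMeasure_map (hlm u).aemeasurable
    rw [cnv_add_smul _ _ _ _ _ ENNReal.ofReal_ne_top ENNReal.ofReal_ne_top]
    have h1 : HasLoad (cnv ((ζN x).map (lin u)) ν)
        (fun _ => ENNReal.ofReal (1 / Real.sqrt (1 + (1 - |x|) ^ 2 / 3))) :=
      HasLoad.cnv_const (hN2 x hx u hu)
    have h2 : HasLoad (cnv ((ζE x).map (lin u)) ν) (fun _ => ENNReal.ofReal M) := by
      rw [cnv_comm]
      exact HasLoad.cnv_const hload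
    have h3 := F4_mix (abs_nonneg x) (by linarith) (by positivity) hM h1 (fun _ => h2)
    refine h3.mono (fun z => ENNReal.ofReal_le_ofReal ?_)
    have := n4_bound |x| (abs_nonneg x) hx
    rw [mul_one_div]
    linarith

end Pool.Agent.helper49.Slope
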