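import Pool.Agent.helper49.Slope.E4
import Pool.Agent.helper49.Slope.E5
import Pool.Agent.helper49.Slope.F4

/-!
MP_aedd95_co (slope of k-fold hyperplane covers of triangular grids), module E6.
The step: add a block of size 4 to a family with at least 9 elements.

PROOF. `Fam.blk` gives a block `κ` with `P = n = 1`, `h = 1/20`; `block_four` (module F4) gives `η`
with `h = 3/10`, `P4`, `n4`. Apply `two_block` with `π = unif (1/20)`, `h0 = 1/20` (so
`|X - ξ| ≤ 1/10 =: ρ`), `n = card ι ≥ 9` and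
`g C S = 1 + |y|/2`, `g C R = P4 |y|`, `g S C = 1 + 2/n |x|`, `g S S = 1 + (1/n) |x| |y|`,
`g S R = n4 |y| + |y| (1 + 2/n |x|)`, `g R C = 1`, `g R S = 1`, `g R R = n4 |y| + |y| * 1`
(`pair_S`, `pair_R`, `pair_SS`, `pair_RS`, `pair_RR`, `pair_symm`), and
`G C C = 20`, `G C S = 21/20`, `G C R = 1`, `G S C = 1 + 1/(10 n)`, `G S S = 1 + 1/(200 n)`,
`G S R = 9/10 + 1/(100 n)`, `G R C = G R S = 1`, `G R R = 9/10`.
(`P4 r ≤ 1` and `n4 r + r ≤ 9/10` for `0 ≤ r ≤ 1/10`: `0.8717 + 0.2765 r ≤ 0.89935`; and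
`|y| 2/n |x| ≤ 1/(100 n)`.) All integrals are bounded by suprema (`unif_ae`). Monotonicity: check.
Sum condition for `2 ≤ t`, `2 t ≤ n + 4`; write `i = t - j` for the number in the new block; every
`j` that occurs satisfies `j ≤ t ≤ (n+4)/2 ≤ n - 2` (as `n ≥ 9`: `t ≤ 6` for `n = 9`, in general
`(n+4)/2 ≤ n-2 ⟺ n ≥ 8`), so its type is `C` if `j = 0`, `S` if `j = 1`, `R` if `j ≥ 2`, and
`∑ choose * 1 = (n+4).choose t` (Vandermonde), so it suffices that
`∑ choose * (G - 1) ≤ 0`:
`t = 2`: `4n·1/(200n) + 6·0 ≤ ...`: here use the sharper `G C R = 97/100`: `P4 (1/10) < 0.9571`.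
  So take `G C R = 97/100`; then `0.02 - 0.18 ≤ 0`.
`t = 3`: `4·(1/20) + 6 n (-1/10 + 1/(100 n)) ≤ 0`.
`t = 4`: `19 + 4n/(200n) - 6·n(n-1)/2·(1/10) ≤ 19.02 - 21.6 ≤ 0`.
`t = 5`: `n/(10 n) + 6·C(n,3)(-1/10) ≤ 0`. `t ≥ 6`: only terms with `j ≥ 2`, all `G - 1 ≤ 0`.
-/

set_option autoImplicit false

open MeasureTheory ProbabilityTheory
open scoped ENNReal

namespace Pool.Agent.helper49.Slope

/-- the bounds by types for one pair of block sums -/
noncomputable def E6_g (n : ℝ) : Ty → Ty → ℝ → ℝ → ℝ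
  | .C, .C => fun _ _ => 0
  | .C, .S => fun _ y => 1 + 2 / 4 * |y|
  | .C, .R => fun _ y => P4 |y|
  | .S, .C => fun x _ => 1 + 2 / n * |x|
  | .S, .S => fun x y => 1 + 2 / n * (2 / 4) * (|x| * |y|)
  | .S, .R => fun x y => n4 |y| + |y| * (1 + 2 / n * |x|)
  | .R, .C => fun _ _ => 1
  | .R, .S => fun _ _ => 1
  | .R, .R => fun _ y => n4 |y| + |y| * 1

/-- the averaged bounds by types -/
noncomputable def E6_G (n : ℝ) : Ty → Ty → ℝ
  | .C, .C => 20
  | .C, .S => 21 / 20
  | .C, .R => 97 / 100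
  | .S, .C => 1 + 1 / (10 * n)
  | .S, .S => 1 + 1 / (200 * n)
  | .S, .R => 9 / 10 + 1 / (100 * n)
  | .R, .C => 1
  | .R, .S => 1
  | .R, .R => 9 / 10

theorem E6_meas (n : ℝ) (a b : Ty) : Measurable (Function.uncurry (E6_g n a b)) := by
  cases a <;> cases b <;> simp only [E6_g, Function.uncurry_def, P4, n4] <;> fun_prop

theorem E6_pos {n : ℝ} (hn : 9 ≤ n) (a b : Ty) : 0 ≤ E6_G n a b := by
  cases a <;> cases b <;> simp only [E6_G] <;> positivity

theorem E6_mono {n : ℝ} (hn : 9 ≤ n) (a a' b b' : Ty) (h : a.rk ≤ a'.rk) (h' : b.rk ≤ b'.rk) :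
    E6_G n a' b' ≤ E6_G n a b := by
  have h1 : 1 / (10 * n) ≤ 1 / 90 := by
    apply one_div_le_one_div_of_le <;> linarith
  have h2 : 1 / (200 * n) ≤ 1 / 1800 := by
    apply one_div_le_one_div_of_le <;> linarith
  have h3 : 1 / (100 * n) ≤ 1 / 900 := by
    apply one_div_le_one_div_of_le <;> linarith
  have h1' : 0 ≤ 1 / (10 * n) := by positivity
  have h2' : 0 ≤ 1 / (200 * n) := by positivity
  have h3' : 0 ≤ 1 / (100 * n) := by positivity
  have h4 : 1 / (200 * n) ≤ 1 / (10 * n) := by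
    apply one_div_le_one_div_of_le <;> linarith
  cases a <;> cases a' <;> simp only [Ty.rk] at h <;> first | omega | skip
  all_goals
    cases b <;> cases b' <;> simp only [Ty.rk] at h' <;> first | omega | skip
  all_goals
    simp only [E6_G]
    linarith

theorem E6_bd {n : ℝ} (hn : 9 ≤ n) {x y : ℝ} (hx : |x| ≤ 1 / 20) (hy : |y| ≤ 1 / 10) (a b : Ty)
    (hab : ¬ (a = Ty.C ∧ b = Ty.C)) : E6_g n a b x y ≤ E6_G n a b := by
  have hx0 := abs_nonneg x
  have hy0 := abs_nonneg y
  set r := |x|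
  set q := |y|
  have hn0 : (0 : ℝ) < n := by linarith
  have e1 : 2 / n * r ≤ 1 / (10 * n) := by
    have : 2 / n * r = 2 * r / n := by ring
    rw [this, div_le_div_iff₀ hn0 (by positivity)]
    nlinarith
  have e0 : 0 ≤ 2 / n * r := by positivity
  have e2 : q * (2 / n * r) ≤ 1 / 10 * (1 / (10 * n)) := by
    apply mul_le_mul hy e1 e0 (by norm_num)
  have e3 : 1 / 10 * (1 / (10 * n)) = 1 / (100 * n) := by
    field_simp; norm_num
  have e4 : 1 / 2 * (1 / (100 * n)) = 1 / (200 * n) := by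
    field_simp; norm_num
  cases a <;> cases b <;> simp only [E6_g, E6_G, P4, n4]
  · exact absurd ⟨rfl, rfl⟩ hab
  · linarith
  · nlinarith
  · linarith
  · have : 2 / n * (2 / 4) * (r * q) = 1 / 2 * (q * (2 / n * r)) := by ring
    rw [this, ← e4, ← e3]
    linarith
  · rw [← e3]
    nlinarith
  · exact le_refl _
  · exact le_refl _
  · nlinarith

theorem E6_tyc {n j : ℕ} (hj : j + 2 ≤ n) (h2 : 2 ≤ j) : tyc n j = Ty.R := by
  unfold tyc
  rw [if_neg (by omega), if_neg (by omega)]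

theorem E6_tyc0 {n : ℕ} : tyc n 0 = Ty.C := by
  unfold tyc
  rw [if_pos (by omega)]

theorem E6_tyc1 {n : ℕ} (h : 9 ≤ n) : tyc n 1 = Ty.S := by
  unfold tyc
  rw [if_neg (by omega), if_pos (by omega)]

theorem E6_ch (n s : ℕ) : (n + 4).choose (s + 4) =
    n.choose s + 4 * n.choose (s + 1) + 6 * n.choose (s + 2) + 4 * n.choose (s + 3)
      + n.choose (s + 4) := by
  simp only [Nat.choose_succ_succ, Nat.succ_eq_add_one, Nat.add_assoc, Nat.reduceAdd]
  ring

theorem E6_sum4 (n s : ℕ) (f : ℕ → ℕ → ℝ) :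
    ∑ j ∈ Finset.range (s + 4 + 1), (n.choose j : ℝ) * (Nat.choose 4 (s + 4 - j)) * f j (s + 4 - j)
      = n.choose s * f s 4 + 4 * n.choose (s + 1) * f (s + 1) 3
        + 6 * n.choose (s + 2) * f (s + 2) 2 + 4 * n.choose (s + 3) * f (s + 3) 1
        + n.choose (s + 4) * f (s + 4) 0 := by
  have h0 : ∑ j ∈ Finset.range s,
      (n.choose j : ℝ) * (Nat.choose 4 (s + 4 - j)) * f j (s + 4 - j) = 0 := by
    apply Finset.sum_eq_zero
    intro j hj
    rw [Finset.mem_range] at hj
    rw [Nat.choose_eq_zero_of_lt (show 4 < s + 4 - j by omega)]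
    simp
  rw [Finset.sum_range_succ, Finset.sum_range_succ, Finset.sum_range_succ, Finset.sum_range_succ,
    Finset.sum_range_succ, h0]
  have a0 : s + 4 - s = 4 := by omega
  have a1 : s + 4 - (s + 1) = 3 := by omega
  have a2 : s + 4 - (s + 2) = 2 := by omega
  have a3 : s + 4 - (s + 3) = 1 := by omega
  have a4 : s + 4 - (s + 4) = 0 := by omega
  rw [a0, a1, a2, a3, a4]
  have c0 : Nat.choose 4 4 = 1 := rfl
  have c1 : Nat.choose 4 3 = 4 := rfl
  have c2 : Nat.choose 4 2 = 6 := rfl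
  have c3 : Nat.choose 4 1 = 4 := rfl
  have c4 : Nat.choose 4 0 = 1 := rfl
  rw [c0, c1, c2, c3, c4]
  push_cast
  ring

theorem E6_sum {n : ℕ} (h9 : 9 ≤ n) (t : ℕ) (h2 : 2 ≤ t) (ht : 2 * t ≤ n + 4) :
    ∑ j ∈ Finset.range (t + 1), (n.choose j : ℝ) * (Nat.choose 4 (t - j)) *
        E6_G n (tyc n j) (tyc 4 (t - j)) ≤ ((n + 4).choose t : ℝ) := by
  have hn : (9 : ℝ) ≤ n := by exact_mod_cast h9
  have hn0 : (0 : ℝ) < n := by linarith
  have t4 : tyc 4 4 = Ty.C := by simp [tyc]
  have t3 : tyc 4 3 = Ty.S := by simp [tyc]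
  have t2 : tyc 4 2 = Ty.R := by simp [tyc]
  have t1 : tyc 4 1 = Ty.S := by simp [tyc]
  have t0 : tyc 4 0 = Ty.C := by simp [tyc]
  have x10 : (n : ℝ) * (1 / (10 * n)) = 1 / 10 := by field_simp
  have x200 : (n : ℝ) * (1 / (200 * n)) = 1 / 200 := by field_simp
  have x100 : (n : ℝ) * (1 / (100 * n)) = 1 / 100 := by field_simp
  have hc2 : (36 : ℝ) ≤ (n.choose 2 : ℝ) := by
    have : Nat.choose 9 2 ≤ n.choose 2 := Nat.choose_le_choose 2 h9
    have e : Nat.choose 9 2 = 36 := by decide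
    rw [e] at this
    exact_mod_cast this
  have hc3 : (84 : ℝ) ≤ (n.choose 3 : ℝ) := by
    have : Nat.choose 9 3 ≤ n.choose 3 := Nat.choose_le_choose 3 h9
    have e : Nat.choose 9 3 = 84 := by decide
    rw [e] at this
    exact_mod_cast this
  rcases lt_or_ge t 4 with hlt | hge
  · have hcase : t = 2 ∨ t = 3 := by omega
    have e1 : (n.choose 1 : ℝ) = n := by simp
    have e0 : (n.choose 0 : ℝ) = 1 := by simp
    have c4 : Nat.choose 4 3 = 4 := rfl
    have c2 : Nat.choose 4 2 = 6 := rfl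
    have c3 : Nat.choose 4 1 = 4 := rfl
    have c5 : Nat.choose 4 0 = 1 := rfl
    rcases hcase with rfl | rfl
    · have hch : (n + 4).choose 2 = n.choose 2 + 4 * n.choose 1 + 6 * n.choose 0 := by
        have a2 : ∀ m : ℕ, (m + 1).choose 2 = m.choose 1 + m.choose 2 :=
          fun m => Nat.choose_succ_succ m 1
        have a1 : ∀ m : ℕ, m.choose 1 = m := fun m => Nat.choose_one_right m
        have a0 : ∀ m : ℕ, m.choose 0 = 1 := fun m => Nat.choose_zero_right m
        rw [a2 (n + 3), a2 (n + 2), a2 (n + 1), a2 n, a1, a1, a1, a1, a0]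
        ring
      simp only [Finset.sum_range_succ, Finset.sum_range_zero, zero_add, Nat.sub_zero,
        Nat.reduceSub, Nat.sub_self]
      rw [E6_tyc0, E6_tyc1 h9, E6_tyc (n := n) (j := 2) (by omega) (le_refl 2), t2, t1, t0, hch,
        c2, c3, c5]
      simp only [E6_G]
      push_cast
      rw [e0, e1]
      nlinarith
    · have hch : (n + 4).choose 3 = n.choose 3 + 4 * n.choose 2 + 6 * n.choose 1
          + 4 * n.choose 0 := by
        have a3 : ∀ m : ℕ, (m + 1).choose 3 = m.choose 2 + m.choose 3 :=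
          fun m => Nat.choose_succ_succ m 2
        have a2 : ∀ m : ℕ, (m + 1).choose 2 = m.choose 1 + m.choose 2 :=
          fun m => Nat.choose_succ_succ m 1
        have a1 : ∀ m : ℕ, m.choose 1 = m := fun m => Nat.choose_one_right m
        have a0 : ∀ m : ℕ, m.choose 0 = 1 := fun m => Nat.choose_zero_right m
        rw [a3 (n + 3), a3 (n + 2), a3 (n + 1), a3 n, a2 (n + 2), a2 (n + 1), a2 n, a1, a1, a1, a0]
        ring
      simp only [Finset.sum_range_succ, Finset.sum_range_zero, zero_add, Nat.sub_zero,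
        Nat.reduceSub, Nat.sub_self]
      rw [E6_tyc0, E6_tyc1 h9, E6_tyc (n := n) (j := 2) (by omega) (le_refl 2),
        E6_tyc (n := n) (j := 3) (by omega) (by omega), t3, t2, t1, t0, hch, c2, c3, c4, c5]
      simp only [E6_G]
      push_cast
      rw [e0, e1]
      nlinarith
  · obtain ⟨s, rfl⟩ : ∃ s, t = s + 4 := ⟨t - 4, by omega⟩
    rw [E6_sum4 n s (fun j i => E6_G n (tyc n j) (tyc 4 i)), E6_ch, t4, t3, t2, t1, t0]
    rw [E6_tyc (n := n) (j := s + 4) (by omega) (by omega),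
      E6_tyc (n := n) (j := s + 3) (by omega) (by omega),
      E6_tyc (n := n) (j := s + 2) (by omega) (by omega)]
    have p0 : (0 : ℝ) ≤ (n.choose s : ℝ) := by positivity
    have p1 : (0 : ℝ) ≤ (n.choose (s + 1) : ℝ) := by positivity
    have p2 : (0 : ℝ) ≤ (n.choose (s + 2) : ℝ) := by positivity
    have p3 : (0 : ℝ) ≤ (n.choose (s + 3) : ℝ) := by positivity
    rcases Nat.lt_or_ge s 2 with hs | hs
    · have hcase : s = 0 ∨ s = 1 := by omega
      rcases hcase with rfl | rfl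
      · simp only [zero_add]
        rw [E6_tyc0, E6_tyc1 h9]
        simp only [E6_G]
        push_cast
        have e1 : (n.choose 1 : ℝ) = n := by simp
        have e0 : (n.choose 0 : ℝ) = 1 := by simp
        simp only [zero_add] at *
        rw [e0, e1]
        nlinarith
      · simp only [Nat.reduceAdd]
        rw [E6_tyc1 h9, E6_tyc (n := n) (j := 2) (by omega) (by omega)]
        simp only [E6_G]
        push_cast
        have e1 : (n.choose 1 : ℝ) = n := by simp
        rw [e1]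
        nlinarith
    · rw [E6_tyc (n := n) (j := s) (by omega) (by omega),
        E6_tyc (n := n) (j := s + 1) (by omega) (by omega)]
      simp only [E6_G]
      push_cast
      linarith

theorem fam_step {ι : Type} [Fintype ι] [DecidableEq ι] (h9 : 9 ≤ Fintype.card ι)
    (H : Fam ι (1 / 20)) : Fam (ι ⊕ Fin 4) (1 / 20) := by
  obtain ⟨κ, hκ, bA⟩ := H.blk
  obtain ⟨η, hη, bB⟩ := block_four
  have hn : (9 : ℝ) ≤ (Fintype.card ι : ℝ) := by exact_mod_cast h9
  have hn0 : (0 : ℝ) < (Fintype.card ι : ℝ) := by linarith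
  have hc4 : (2 : ℝ) / (Fintype.card (Fin 4) : ℝ) = 2 / 4 := by simp
  have : IsProbabilityMeasure (unif (1 / 20)) := unif_prob (by norm_num)
  refine two_block (α := ι) (β := Fin 4) (by omega) (by simp) κ η bA bB (by norm_num)
    (by norm_num) (unif (1 / 20)) ?_ (E6_g (Fintype.card ι)) (fun a b => E6_meas _ a b) ?_
    (E6_G (Fintype.card ι)) (E6_pos hn) ?_ ?_ (fun a a' b b' => E6_mono hn a a' b b') ?_
  · intro X hX
    filter_upwards [unif_ae (h := 1 / 20)] with ξ hξ
    refine ⟨hξ, ?_⟩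
    have := abs_sub X ξ
    linarith
  · intro x y hx hy a b hab
    cases a <;> cases b
    · exact absurd ⟨rfl, rfl⟩ hab
    · have := pair_symm (pair_S (η := κ) (by simp) bB (by norm_num) hy Ty.C) (x := x)
      rw [hc4] at this
      exact this
    · exact pair_symm (pair_R (η := κ) bB hy Ty.C)
    · exact pair_S (by omega) bA (by norm_num) hx Ty.C
    · have := pair_SS (by omega) (by simp) bA bB (by norm_num) (by norm_num) hx hy
      rw [hc4] at this
      exact this
    · exact pair_symm (pair_RS (by omega) bB bA (by norm_num) hy hx)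
    · exact pair_R bA hx Ty.C
    · exact pair_R bA hx Ty.S
    · exact pair_symm (pair_RR bB bA hy hx zero_le_one)
  · have := unif_load (h := 1 / 20) (by norm_num)
    have e : (1 : ℝ) / (1 / 20) = 20 := by norm_num
    rw [e] at this
    exact this
  · intro X hX a b hab
    calc ∫⁻ ξ, ENNReal.ofReal (E6_g (Fintype.card ι) a b ξ (X - ξ)) ∂(unif (1 / 20))
        ≤ ∫⁻ _, ENNReal.ofReal (E6_G (Fintype.card ι) a b) ∂(unif (1 / 20)) := by
          apply lintegral_mono_ae
          filter_upwards [unif_ae (h := 1 / 20)] with ξ hξ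
          apply ENNReal.ofReal_le_ofReal
          apply E6_bd hn hξ _ a b hab
          have := abs_sub X ξ
          linarith
      _ = _ := by rw [lintegral_const, measure_univ, mul_one]
  · intro t h2 ht
    have e4 : Fintype.card (Fin 4) = 4 := by simp
    rw [e4] at ht ⊢
    exact E6_sum h9 t h2 ht

end Pool.Agent.helper49.Slope
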