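import Pool.Agent.helper49.Slope.E2

/-!
MP_aedd95_co (slope of k-fold hyperplane covers of triangular grids), module E7.
Bounds for independent sums of three blocks, by types: adding an independent variable does not
increase constant load bounds (`HasLoad.cnv_const`, `cnv_comm`, `cnv_assoc`).
-/

set_option autoImplicit false

open MeasureTheory ProbabilityTheory
open scoped ENNReal

namespace Pool.Agent.helper49.Slope

theorem E7_measurable_lin {ι : Type} [Fintype ι] (u : ι → ℤ) : Measurable (lin u) := by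
  unfold lin
  fun_prop

theorem E7_prob_lin {ι : Type} [Fintype ι] (κ : Kernel ℝ (ι → ℝ)) [IsMarkovKernel κ] (x : ℝ)
    (u : ι → ℤ) : IsProbabilityMeasure ((κ x).map (lin u)) :=
  Measure.isProbabilityMeasure_map (E7_measurable_lin u).aemeasurable

theorem E7_prob_cnv (μ ν : Measure ℝ) [IsProbabilityMeasure μ] [IsProbabilityMeasure ν] :
    IsProbabilityMeasure (cnv μ ν) :=
  Measure.isProbabilityMeasure_map (measurable_fst.add measurable_snd).aemeasurable

section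
variable {α β γ : Type} [Fintype α] [Fintype β] [Fintype γ] [DecidableEq α] [DecidableEq β]
  [DecidableEq γ] {κ : Kernel ℝ (α → ℝ)} {η : Kernel ℝ (β → ℝ)} {θ : Kernel ℝ (γ → ℝ)}
  [IsMarkovKernel κ] [IsMarkovKernel η] [IsMarkovKernel θ]
  {hA hB hC : ℝ} {PA nA PB nB PC nC : ℝ → ℝ}

theorem tri_12 {x y w : ℝ} {a b : Ty} {g : ℝ} (h : PairBd κ η x y a b g) (c : Ty) :
    TriBd κ η θ x y w a b c g := by
  intro u v r hu hv _
  have := E7_prob_lin κ x u
  have := E7_prob_lin η y v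
  have := E7_prob_lin θ w r
  have := E7_prob_cnv ((κ x).map (lin u)) ((η y).map (lin v))
  exact (h u v hu hv).cnv_const

theorem tri_13 {x y w : ℝ} {a c : Ty} {g : ℝ} (h : PairBd κ θ x w a c g) (b : Ty) :
    TriBd κ η θ x y w a b c g := by
  intro u v r hu _ hr
  have := E7_prob_lin κ x u
  have := E7_prob_lin η y v
  have := E7_prob_lin θ w r
  have := E7_prob_cnv ((κ x).map (lin u)) ((θ w).map (lin r))
  rw [cnv_comm ((κ x).map (lin u)) ((η y).map (lin v)), cnv_assoc, cnv_comm]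
  exact (h u r hu hr).cnv_const

theorem tri_23 {x y w : ℝ} {b c : Ty} {g : ℝ} (h : PairBd η θ y w b c g) (a : Ty) :
    TriBd κ η θ x y w a b c g := by
  intro u v r _ hv hr
  have := E7_prob_lin κ x u
  have := E7_prob_lin η y v
  have := E7_prob_lin θ w r
  have := E7_prob_cnv ((η y).map (lin v)) ((θ w).map (lin r))
  rw [cnv_assoc, cnv_comm]
  exact (h v r hv hr).cnv_const

theorem E7_abs_le {m : ℕ} (h3 : 3 ≤ m) {h x : ℝ} (hx : |x| ≤ h) (h1 : h ≤ 1 / 2) :
    |2 / (m : ℝ) * x| ≤ 1 / 2 := by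
  have hm : (3 : ℝ) ≤ m := by exact_mod_cast h3
  have hm0 : (0 : ℝ) < m := by linarith
  rw [abs_mul, abs_of_nonneg (by positivity : (0 : ℝ) ≤ 2 / (m : ℝ))]
  have h2 : 2 / (m : ℝ) ≤ 1 := by rw [div_le_one hm0]; linarith
  calc 2 / (m : ℝ) * |x| ≤ 1 * (1 / 2) :=
        mul_le_mul h2 (hx.trans h1) (abs_nonneg x) (by norm_num)
    _ = 1 / 2 := by norm_num

theorem E7_abs_eq (m : ℕ) (x : ℝ) : |2 / (m : ℝ) * x| = 2 / (m : ℝ) * |x| := by
  rw [abs_mul, abs_of_nonneg (by positivity : (0 : ℝ) ≤ 2 / (m : ℝ))]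

/-- `load_affine_three` -/
theorem tri_SSS (h3 : 3 ≤ Fintype.card α) (h3' : 3 ≤ Fintype.card β) (h3'' : 3 ≤ Fintype.card γ)
    (bA : Blk κ hA PA nA) (bB : Blk η hB PB nB) (bC : Blk θ hC PC nC) (hA1 : hA ≤ 1 / 2)
    (hB1 : hB ≤ 1 / 2) (hC1 : hC ≤ 1 / 2) {x y w : ℝ} (hx : |x| ≤ hA) (hy : |y| ≤ hB)
    (hw : |w| ≤ hC) :
    TriBd κ η θ x y w Ty.S Ty.S Ty.S
      (3 / 4 * ((1 + 2 / (Fintype.card α : ℝ) * |x|) * (1 + 2 / (Fintype.card β : ℝ) * |y|) *
        (1 + 2 / (Fintype.card γ : ℝ) * |w|))) := by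
  intro u v r hu hv hr
  obtain ⟨μ, c, d, hμ, hc, hl, he⟩ := bA.single_form hx u hu
  obtain ⟨ν, c', d', hν, hc', hl', he'⟩ := bB.single_form hy v hv
  obtain ⟨ρ, c'', d'', hρ, hc'', hl'', he''⟩ := bC.single_form hw r hr
  rw [he, he', he'']
  have := load_affine_three (E7_abs_le h3 hx hA1) (E7_abs_le h3' hy hB1) (E7_abs_le h3'' hw hC1)
    hl hl' hl'' c c' c'' hc hc' hc'' d d' d''
  rw [E7_abs_eq, E7_abs_eq, E7_abs_eq] at this
  exact this

theorem TriBd.mono {x y w : ℝ} {a b c : Ty} {g g' : ℝ} (h : TriBd κ η θ x y w a b c g)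
    (hg : g ≤ g') : TriBd κ η θ x y w a b c g' := by
  intro u v r hu hv hr
  exact (h u v r hu hv hr).mono (fun _ => ENNReal.ofReal_le_ofReal hg)

theorem PairBd.mono {x y : ℝ} {a b : Ty} {g g' : ℝ} (h : PairBd κ η x y a b g)
    (hg : g ≤ g') : PairBd κ η x y a b g' := by
  intro u v hu hv
  exact (h u v hu hv).mono (fun _ => ENNReal.ofReal_le_ofReal hg)

end

end Pool.Agent.helper49.Slope
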