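import Pool.Agent.helper49.Slope.E1
import Pool.Agent.helper49.Slope.E3
import Pool.Agent.helper49.Slope.E7
import Pool.Agent.helper49.Slope.B8b

/-!
MP_aedd95_co (slope of k-fold hyperplane covers of triangular grids), module E8.
The mixture of three blocks: kernel (`three_kernel`) and criterion (`three_block`).

`three_kernel`: apply `exists_three` to `κ.comap (fun p => xa p.1 p.2)` etc. Support with
`a = xa X`, `b = xb X`, `c = xc X`. Singles: bounded by `sprof (2/m xa)`, … ; on `0 ≤ z ≤ 1`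
the sum over all positions is `∫ (m + 2 xa) + (m' + 2 xb) + (m'' + 2 xc) = N + 2 X
= N (1 + 2X/N)`, similarly `N - 2X` on `[-1,0)` (all integrands are nonnegative as `h ≤ 1/2`).
A permutation `σ` satisfies `TriOK … σ F` if the law of `u ∘ σ` has load at most `F`.

`three_block`: take `P` from `exists_half_levels`, `t = |T|`; for a permutation `σ` the three
restrictions of `u ∘ σ` have types `a, b, c` with ranks at least those of `tyc m j`, `tyc m' l`,
`tyc m'' (t-j-l)`. If they are not all `C`, `triLaw_load` with the constant function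
`g a b c (xa) (xb) (xc)` and `hG` give the load `G a b c ≤ G (tyc …) (tyc …) (tyc …)`. If all
are `C` with constants `p, q, s` (not all equal as `u` is not constant) the law is that of
`p xa + q xb + s xc`, use `hK`. Average by `sum_perm_three`.
-/

set_option autoImplicit false

open MeasureTheory ProbabilityTheory
open scoped ENNReal

namespace Pool.Agent.helper49.Slope

theorem E8_meas_sprof2 : Measurable (fun p : ℝ × ℝ => sprof p.1 p.2) := by
  unfold sprof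
  refine Measurable.ite (measurableSet_le (by fun_prop) measurable_const) ?_ measurable_const
  refine Measurable.ite (measurableSet_le measurable_const (by fun_prop)) ?_ ?_
  · exact ENNReal.measurable_ofReal.comp (by fun_prop)
  · exact ENNReal.measurable_ofReal.comp (by fun_prop)

theorem E8_meas_sprof_comp {Ω : Type} [MeasurableSpace Ω] (c : ℝ) (f : Ω → ℝ)
    (hf : Measurable f) : Measurable (Function.uncurry (fun (r : Ω) (z : ℝ) => sprof (c * f r) z)) := by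
  have h : Function.uncurry (fun (r : Ω) (z : ℝ) => sprof (c * f r) z) =
      (fun p : ℝ × ℝ => sprof p.1 p.2) ∘ (fun q : Ω × ℝ => (c * f q.1, q.2)) := by
    funext q
    rfl
  rw [h]
  refine E8_meas_sprof2.comp ?_
  exact ((hf.comp measurable_fst).const_mul c).prodMk measurable_snd

theorem E8_term {Ω : Type} [MeasurableSpace Ω] (π : Measure Ω) (m : ℕ) (hm : 3 ≤ m) (s : ℝ)
    (f : Ω → ℝ) (hf : Measurable f) :
    (m : ℝ≥0∞) * ∫⁻ ξ, ENNReal.ofReal (1 + s * (2 / (m : ℝ) * f ξ)) ∂π =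
      ∫⁻ ξ, ENNReal.ofReal ((m : ℝ) + 2 * s * f ξ) ∂π := by
  have hm0 : (0 : ℝ) < m := by
    have : (3 : ℝ) ≤ m := by exact_mod_cast hm
    linarith
  have hme : Measurable (fun ξ => ENNReal.ofReal (1 + s * (2 / (m : ℝ) * f ξ))) := by fun_prop
  rw [← lintegral_const_mul _ hme]
  refine lintegral_congr fun ξ => ?_
  rw [← ENNReal.ofReal_natCast m, ← ENNReal.ofReal_mul hm0.le]
  congr 1
  field_simp

theorem E8_key {Ω : Type} [MeasurableSpace Ω] (π : Measure Ω) [IsProbabilityMeasure π]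
    (m m' m'' : ℕ) (hm : 3 ≤ m) (hm' : 3 ≤ m') (hm'' : 3 ≤ m'') (s : ℝ) (hs : |s| ≤ 1)
    (a b c : Ω → ℝ) (ha : Measurable a) (hb : Measurable b) (hc : Measurable c) (X : ℝ)
    (hsum : ∀ ξ, a ξ + b ξ + c ξ = X)
    (hbd : ∀ᵐ ξ ∂π, |a ξ| ≤ 1 / 2 ∧ |b ξ| ≤ 1 / 2 ∧ |c ξ| ≤ 1 / 2) :
    ((m : ℝ≥0∞) * ∫⁻ ξ, ENNReal.ofReal (1 + s * (2 / (m : ℝ) * a ξ)) ∂π +
      (m' : ℝ≥0∞) * ∫⁻ ξ, ENNReal.ofReal (1 + s * (2 / (m' : ℝ) * b ξ)) ∂π +
      (m'' : ℝ≥0∞) * ∫⁻ ξ, ENNReal.ofReal (1 + s * (2 / (m'' : ℝ) * c ξ)) ∂π) /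
      ((m + m' + m'' : ℕ) : ℝ≥0∞) =
    ENNReal.ofReal (1 + s * (2 / ((m + m' + m'' : ℕ) : ℝ) * X)) := by
  have hm0 : (3 : ℝ) ≤ m := by exact_mod_cast hm
  have hm0' : (3 : ℝ) ≤ m' := by exact_mod_cast hm'
  have hm0'' : (3 : ℝ) ≤ m'' := by exact_mod_cast hm''
  rw [E8_term π m hm s a ha, E8_term π m' hm' s b hb, E8_term π m'' hm'' s c hc]
  have hm1 : Measurable (fun ξ => ENNReal.ofReal ((m : ℝ) + 2 * s * a ξ)) := by fun_prop
  have hm2 : Measurable (fun ξ => ENNReal.ofReal ((m : ℝ) + 2 * s * a ξ) +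
      ENNReal.ofReal ((m' : ℝ) + 2 * s * b ξ)) := by fun_prop
  rw [← lintegral_add_left hm1, ← lintegral_add_left hm2]
  have h1 : ∫⁻ ξ, (ENNReal.ofReal ((m : ℝ) + 2 * s * a ξ) + ENNReal.ofReal ((m' : ℝ) + 2 * s * b ξ)
      + ENNReal.ofReal ((m'' : ℝ) + 2 * s * c ξ)) ∂π =
      ∫⁻ _, ENNReal.ofReal (((m + m' + m'' : ℕ) : ℝ) + 2 * s * X) ∂π := by
    refine lintegral_congr_ae ?_
    filter_upwards [hbd] with ξ h
    have key : ∀ (n : ℝ) (t : ℝ), 3 ≤ n → |t| ≤ 1 / 2 → 0 ≤ n + 2 * s * t := by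
      intro n t hn ht
      have h2 : |s * t| ≤ 1 / 2 := by
        rw [abs_mul]
        calc |s| * |t| ≤ 1 * (1 / 2) := mul_le_mul hs ht (abs_nonneg _) (by norm_num)
          _ = 1 / 2 := by norm_num
      have h3 := neg_le_of_abs_le h2
      nlinarith
    rw [← ENNReal.ofReal_add (key _ _ hm0 h.1) (key _ _ hm0' h.2.1),
      ← ENNReal.ofReal_add (add_nonneg (key _ _ hm0 h.1) (key _ _ hm0' h.2.1))
        (key _ _ hm0'' h.2.2)]
    congr 1
    rw [← hsum ξ]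
    push_cast
    ring
  rw [h1, lintegral_const, measure_univ, mul_one]
  have hN : (0 : ℝ) < ((m + m' + m'' : ℕ) : ℝ) := by
    push_cast
    linarith
  rw [← ENNReal.ofReal_natCast (m + m' + m''), ← ENNReal.ofReal_div_of_pos hN]
  congr 1
  field_simp

theorem E8_coord {Ω : Type} [MeasurableSpace Ω] (π : Measure Ω) [IsProbabilityMeasure π]
    (m m' m'' : ℕ) (hm : 3 ≤ m) (hm' : 3 ≤ m') (hm'' : 3 ≤ m'')
    (a b c : Ω → ℝ) (ha : Measurable a) (hb : Measurable b) (hc : Measurable c) (X : ℝ)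
    (hsum : ∀ ξ, a ξ + b ξ + c ξ = X)
    (hbd : ∀ᵐ ξ ∂π, |a ξ| ≤ 1 / 2 ∧ |b ξ| ≤ 1 / 2 ∧ |c ξ| ≤ 1 / 2) (z : ℝ) :
    ((m : ℝ≥0∞) * ∫⁻ ξ, sprof (2 / (m : ℝ) * a ξ) z ∂π +
      (m' : ℝ≥0∞) * ∫⁻ ξ, sprof (2 / (m' : ℝ) * b ξ) z ∂π +
      (m'' : ℝ≥0∞) * ∫⁻ ξ, sprof (2 / (m'' : ℝ) * c ξ) z ∂π) /
      ((m + m' + m'' : ℕ) : ℝ≥0∞) = sprof (2 / ((m + m' + m'' : ℕ) : ℝ) * X) z := by
  by_cases h1 : |z| ≤ 1
  · by_cases h0 : 0 ≤ z
    · have e : ∀ t : ℝ, sprof t z = ENNReal.ofReal (1 + 1 * t) := by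
        intro t
        unfold sprof
        rw [if_pos h1, if_pos h0, one_mul]
      simp only [e]
      exact E8_key π m m' m'' hm hm' hm'' 1 (by norm_num) a b c ha hb hc X hsum hbd
    · have e : ∀ t : ℝ, sprof t z = ENNReal.ofReal (1 + (-1) * t) := by
        intro t
        unfold sprof
        rw [if_pos h1, if_neg h0]
        congr 1
        ring
      simp only [e]
      exact E8_key π m m' m'' hm hm' hm'' (-1) (by norm_num) a b c ha hb hc X hsum hbd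
  · have e : ∀ t : ℝ, sprof t z = 0 := by
      intro t
      unfold sprof
      rw [if_neg h1]
    simp only [e]
    simp

theorem E8_sum_ofReal {ι : Type} (s : Finset ι) (F : ι → ℝ) (hF : ∀ i, 0 ≤ F i) (N : ℕ) :
    (∑ i ∈ s, ENNReal.ofReal (F i)) / (N.factorial : ℝ≥0∞) =
      ENNReal.ofReal ((∑ i ∈ s, F i) / (N.factorial : ℝ)) := by
  rw [← ENNReal.ofReal_sum_of_nonneg (fun i _ => hF i), ← ENNReal.ofReal_natCast N.factorial,
    ← ENNReal.ofReal_div_of_pos (by exact_mod_cast N.factorial_pos)]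

/-- law of one coordinate and the cases of `TriOK` -/
theorem E8_card {α β γ : Type} [Fintype α] [Fintype β] [Fintype γ] :
    Fintype.card ((α ⊕ β) ⊕ γ) = Fintype.card α + Fintype.card β + Fintype.card γ := by
  rw [Fintype.card_sum, Fintype.card_sum]

section
variable {α β γ : Type} [Fintype α] [Fintype β] [Fintype γ] [DecidableEq α] [DecidableEq β]
  [DecidableEq γ]

theorem three_kernel (h3 : 3 ≤ Fintype.card α) (h3' : 3 ≤ Fintype.card β)
    (h3'' : 3 ≤ Fintype.card γ) (κ : Kernel ℝ (α → ℝ)) (η : Kernel ℝ (β → ℝ))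
    (θ : Kernel ℝ (γ → ℝ)) [IsMarkovKernel κ] [IsMarkovKernel η] [IsMarkovKernel θ]
    {hA hB hC h0 : ℝ} {PA nA PB nB PC nC : ℝ → ℝ} (bA : Blk κ hA PA nA) (bB : Blk η hB PB nB)
    (bC : Blk θ hC PC nC) (hA1 : hA ≤ 1 / 2) (hB1 : hB ≤ 1 / 2) (hC1 : hC ≤ 1 / 2)
    (π : Measure (ℝ × ℝ)) [IsProbabilityMeasure π] (xa xb xc : ℝ → ℝ × ℝ → ℝ)
    (hxa : Measurable (Function.uncurry xa)) (hxb : Measurable (Function.uncurry xb))
    (hxc : Measurable (Function.uncurry xc)) (hsum : ∀ X ξ, xa X ξ + xb X ξ + xc X ξ = X)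
    (hs : ∀ X : ℝ, |X| ≤ h0 → ∀ᵐ ξ ∂π, |xa X ξ| ≤ hA ∧ |xb X ξ| ≤ hB ∧ |xc X ξ| ≤ hC) :
    ∃ ζ : Kernel ℝ ((α ⊕ β) ⊕ γ → ℝ), IsMarkovKernel ζ ∧ ∀ X : ℝ, |X| ≤ h0 →
      Supp (ζ X) X ∧
      (∀ i, HasLoad ((ζ X).map (fun y => y i))
        (sprof (2 / (Fintype.card ((α ⊕ β) ⊕ γ) : ℝ) * X))) ∧
      ∀ (u : (α ⊕ β) ⊕ γ → ℤ) (F : Equiv.Perm ((α ⊕ β) ⊕ γ) → ℝ), (∀ σ, 0 ≤ F σ) →
        (∀ σ : Equiv.Perm ((α ⊕ β) ⊕ γ),
          (∃ g : ℝ × ℝ → ℝ, Measurable g ∧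
            (∀ᵐ ξ ∂π, HasLoad (cnv (cnv
              ((κ (xa X ξ)).map (lin (fun i => u (σ (Sum.inl (Sum.inl i))))))
              ((η (xb X ξ)).map (lin (fun i => u (σ (Sum.inl (Sum.inr i)))))))
              ((θ (xc X ξ)).map (lin (fun i => u (σ (Sum.inr i))))))
              (fun _ => ENNReal.ofReal (g ξ))) ∧
            ∫⁻ ξ, ENNReal.ofReal (g ξ) ∂π ≤ ENNReal.ofReal (F σ)) ∨
          (∃ p q s : ℤ, (∀ i, u (σ (Sum.inl (Sum.inl i))) = p) ∧
            (∀ i, u (σ (Sum.inl (Sum.inr i))) = q) ∧ (∀ i, u (σ (Sum.inr i)) = s) ∧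
            HasLoad (π.map (fun ξ => (p : ℝ) * xa X ξ + q * xb X ξ + s * xc X ξ))
              (fun _ => ENNReal.ofReal (F σ)))) →
        HasLoad ((ζ X).map (lin u)) (fun _ => ENNReal.ofReal
          ((∑ σ : Equiv.Perm ((α ⊕ β) ⊕ γ), F σ)
            / ((Fintype.card ((α ⊕ β) ⊕ γ)).factorial : ℝ))) := by
  obtain ⟨ζ, hζ, hζ2⟩ := exists_three (κ.comap (fun p : ℝ × (ℝ × ℝ) => xa p.1 p.2) hxa)
    (η.comap (fun p : ℝ × (ℝ × ℝ) => xb p.1 p.2) hxb)
    (θ.comap (fun p : ℝ × (ℝ × ℝ) => xc p.1 p.2) hxc) π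
  have mA : ∀ X, Measurable (xa X) := fun X => hxa.comp measurable_prodMk_left
  have mB : ∀ X, Measurable (xb X) := fun X => hxb.comp measurable_prodMk_left
  have mC : ∀ X, Measurable (xc X) := fun X => hxc.comp measurable_prodMk_left
  refine ⟨ζ, hζ, fun X hX => ⟨?_, ?_, ?_⟩⟩
  · refine (hζ2 X).1 (xa X) (xb X) (xc X) ?_
    filter_upwards [hs X hX] with ξ h
    refine ⟨?_, ?_, ?_, hsum X ξ⟩
    · rw [Kernel.comap_apply]
      exact bA.supp _ h.1
    · rw [Kernel.comap_apply]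
      exact bB.supp _ h.2.1
    · rw [Kernel.comap_apply]
      exact bC.supp _ h.2.2
  · intro i
    have key := (hζ2 X).2.1
      (fun _ ξ z => sprof (2 / (Fintype.card α : ℝ) * xa X ξ) z)
      (fun _ ξ z => sprof (2 / (Fintype.card β : ℝ) * xb X ξ) z)
      (fun _ ξ z => sprof (2 / (Fintype.card γ : ℝ) * xc X ξ) z)
      (fun _ => E8_meas_sprof_comp _ _ (mA X)) (fun _ => E8_meas_sprof_comp _ _ (mB X))
      (fun _ => E8_meas_sprof_comp _ _ (mC X))
      (fun j => by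
        filter_upwards [hs X hX] with ξ h
        rw [Kernel.comap_apply]
        exact bA.single _ h.1 j)
      (fun j => by
        filter_upwards [hs X hX] with ξ h
        rw [Kernel.comap_apply]
        exact bB.single _ h.2.1 j)
      (fun j => by
        filter_upwards [hs X hX] with ξ h
        rw [Kernel.comap_apply]
        exact bC.single _ h.2.2 j) i
    refine key.mono fun z => ?_
    have h1 := E8_coord π (Fintype.card α) (Fintype.card β) (Fintype.card γ) h3 h3' h3''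
      (xa X) (xb X) (xc X) (mA X) (mB X) (mC X) X (hsum X) (by
        filter_upwards [hs X hX] with ξ h
        exact ⟨h.1.trans hA1, h.2.1.trans hB1, h.2.2.trans hC1⟩) z
    simp only [Finset.sum_const, Finset.card_univ, nsmul_eq_mul]
    rw [E8_card, h1]
  · intro u F hF0 h
    have key := (hζ2 X).2.2 u (fun σ _ => ENNReal.ofReal (F σ)) (fun _ => measurable_const)
      (fun σ => by
        rcases h σ with ⟨g, hgm, hg1, hg2⟩ | ⟨p, q, s, hp, hq, hs', hl⟩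
        · have h1 := triLaw_load (κ.comap (fun p : ℝ × (ℝ × ℝ) => xa p.1 p.2) hxa)
            (η.comap (fun p : ℝ × (ℝ × ℝ) => xb p.1 p.2) hxb)
            (θ.comap (fun p : ℝ × (ℝ × ℝ) => xc p.1 p.2) hxc) π X (u ∘ σ)
            (fun ξ _ => ENNReal.ofReal (g ξ))
            (ENNReal.measurable_ofReal.comp (hgm.comp measurable_fst)) (by
              filter_upwards [hg1] with ξ hξ
              exact hξ)
          exact h1.mono fun _ => hg2
        · have h1 := triLaw_dirac (κ.comap (fun p : ℝ × (ℝ × ℝ) => xa p.1 p.2) hxa)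
            (η.comap (fun p : ℝ × (ℝ × ℝ) => xb p.1 p.2) hxb)
            (θ.comap (fun p : ℝ × (ℝ × ℝ) => xc p.1 p.2) hxc) π X (u ∘ σ)
            (fun ξ => (p : ℝ) * xa X ξ) (fun ξ => (q : ℝ) * xb X ξ) (fun ξ => (s : ℝ) * xc X ξ)
            ((mA X).const_mul _) ((mB X).const_mul _) ((mC X).const_mul _) (by
              filter_upwards [hs X hX] with ξ hξ
              refine ⟨?_, ?_, ?_⟩
              · rw [Kernel.comap_apply]
                exact bA.const_form hξ.1 p _ hp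
              · rw [Kernel.comap_apply]
                exact bB.const_form hξ.2.1 q _ hq
              · rw [Kernel.comap_apply]
                exact bC.const_form hξ.2.2 s _ hs')
          rw [h1]
          exact hl)
    simp only [E8_sum_ofReal _ F hF0] at key
    exact key

theorem three_block (h3 : 3 ≤ Fintype.card α) (h3' : 3 ≤ Fintype.card β)
    (h3'' : 3 ≤ Fintype.card γ) (κ : Kernel ℝ (α → ℝ)) (η : Kernel ℝ (β → ℝ))
    (θ : Kernel ℝ (γ → ℝ)) [IsMarkovKernel κ] [IsMarkovKernel η] [IsMarkovKernel θ]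
    {hA hB hC h0 : ℝ} {PA nA PB nB PC nC : ℝ → ℝ} (bA : Blk κ hA PA nA) (bB : Blk η hB PB nB)
    (bC : Blk θ hC PC nC) (hA1 : hA ≤ 1 / 2) (hB1 : hB ≤ 1 / 2) (hC1 : hC ≤ 1 / 2)
    (π : Measure (ℝ × ℝ)) [IsProbabilityMeasure π] (xa xb xc : ℝ → ℝ × ℝ → ℝ)
    (hxa : Measurable (Function.uncurry xa)) (hxb : Measurable (Function.uncurry xb))
    (hxc : Measurable (Function.uncurry xc)) (hsum : ∀ X ξ, xa X ξ + xb X ξ + xc X ξ = X)
    (hs : ∀ X : ℝ, |X| ≤ h0 → ∀ᵐ ξ ∂π, |xa X ξ| ≤ hA ∧ |xb X ξ| ≤ hB ∧ |xc X ξ| ≤ hC)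
    (g : Ty → Ty → Ty → ℝ → ℝ → ℝ → ℝ)
    (hgm : ∀ a b c, Measurable (fun p : ℝ × ℝ × ℝ => g a b c p.1 p.2.1 p.2.2))
    (hg : ∀ x y w : ℝ, |x| ≤ hA → |y| ≤ hB → |w| ≤ hC → ∀ a b c : Ty,
      ¬ (a = Ty.C ∧ b = Ty.C ∧ c = Ty.C) → TriBd κ η θ x y w a b c (g a b c x y w))
    (G : Ty → Ty → Ty → ℝ) (hpos : ∀ a b c, 0 ≤ G a b c)
    (hK : ∀ X : ℝ, |X| ≤ h0 → ∀ p q s : ℤ, ¬ (p = q ∧ q = s) →
      HasLoad (π.map (fun ξ => (p : ℝ) * xa X ξ + q * xb X ξ + s * xc X ξ))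
        (fun _ => ENNReal.ofReal (G Ty.C Ty.C Ty.C)))
    (hG : ∀ X : ℝ, |X| ≤ h0 → ∀ a b c : Ty, ¬ (a = Ty.C ∧ b = Ty.C ∧ c = Ty.C) →
      ∫⁻ ξ, ENNReal.ofReal (g a b c (xa X ξ) (xb X ξ) (xc X ξ)) ∂π ≤ ENNReal.ofReal (G a b c))
    (hmono : ∀ a a' b b' c c' : Ty, a.rk ≤ a'.rk → b.rk ≤ b'.rk → c.rk ≤ c'.rk →
      G a' b' c' ≤ G a b c)
    (hcount : ∀ t : ℕ, 2 ≤ t → 2 * t ≤ Fintype.card α + Fintype.card β + Fintype.card γ →
      ∑ j ∈ Finset.range (t + 1), ∑ l ∈ Finset.range (t - j + 1),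
        ((Fintype.card α).choose j : ℝ) * ((Fintype.card β).choose l) *
        ((Fintype.card γ).choose (t - j - l)) *
        G (tyc (Fintype.card α) j) (tyc (Fintype.card β) l) (tyc (Fintype.card γ) (t - j - l))
        ≤ ((Fintype.card α + Fintype.card β + Fintype.card γ).choose t : ℝ)) :
    Fam ((α ⊕ β) ⊕ γ) h0 := by
  obtain ⟨ζ, hζ, h⟩ := three_kernel h3 h3' h3'' κ η θ bA bB bC hA1 hB1 hC1 π xa xb xc hxa hxb hxc
    hsum hs
  refine ⟨ζ, hζ, fun X hX => ⟨(h X hX).1, (h X hX).2.1, fun u hu => ?_⟩⟩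
  obtain ⟨P, hP1, hP2⟩ := exists_half_levels (by rw [E8_card]; omega) u hu
  set T : Finset ((α ⊕ β) ⊕ γ) := Finset.univ.filter (fun i => P (u i) = true) with hT
  set F : Equiv.Perm ((α ⊕ β) ⊕ γ) → ℝ := fun σ =>
    G (tyc (Fintype.card α) (Finset.univ.filter (fun i : α => σ (Sum.inl (Sum.inl i)) ∈ T)).card)
      (tyc (Fintype.card β) (Finset.univ.filter (fun i : β => σ (Sum.inl (Sum.inr i)) ∈ T)).card)
      (tyc (Fintype.card γ) (Finset.univ.filter (fun i : γ => σ (Sum.inr i) ∈ T)).card) with hF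
  have key := (h X hX).2.2 u F (fun σ => hpos _ _ _) (fun σ => by
    have eA : (Finset.univ.filter (fun i : α => σ (Sum.inl (Sum.inl i)) ∈ T)) =
        Finset.univ.filter (fun i : α => P (u (σ (Sum.inl (Sum.inl i)))) = true) :=
      Finset.filter_congr fun i _ => by simp [hT]
    have eB : (Finset.univ.filter (fun i : β => σ (Sum.inl (Sum.inr i)) ∈ T)) =
        Finset.univ.filter (fun i : β => P (u (σ (Sum.inl (Sum.inr i)))) = true) :=
      Finset.filter_congr fun i _ => by simp [hT]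
    have eC : (Finset.univ.filter (fun i : γ => σ (Sum.inr i) ∈ T)) =
        Finset.univ.filter (fun i : γ => P (u (σ (Sum.inr i))) = true) :=
      Finset.filter_congr fun i _ => by simp [hT]
    have hle : G (ty (fun i : α => u (σ (Sum.inl (Sum.inl i)))))
        (ty (fun i : β => u (σ (Sum.inl (Sum.inr i))))) (ty (fun i : γ => u (σ (Sum.inr i))))
        ≤ F σ := by
      simp only [hF]
      rw [eA, eB, eC]
      exact hmono _ _ _ _ _ _ (tyc_le_ty (fun i : α => u (σ (Sum.inl (Sum.inl i)))) P)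
        (tyc_le_ty (fun i : β => u (σ (Sum.inl (Sum.inr i)))) P)
        (tyc_le_ty (fun i : γ => u (σ (Sum.inr i))) P)
    by_cases hc : ty (fun i : α => u (σ (Sum.inl (Sum.inl i)))) = Ty.C ∧
        ty (fun i : β => u (σ (Sum.inl (Sum.inr i)))) = Ty.C ∧
        ty (fun i : γ => u (σ (Sum.inr i))) = Ty.C
    · right
      obtain ⟨hc1, hc2, hc3⟩ := hc
      have hle2 : G Ty.C Ty.C Ty.C ≤ F σ := by
        rw [hc1, hc2, hc3] at hle
        exact hle
      rw [ty_eq_C] at hc1 hc2 hc3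
      have hαn : Nonempty α := Fintype.card_pos_iff.mp (by omega)
      have hβn : Nonempty β := Fintype.card_pos_iff.mp (by omega)
      have hγn : Nonempty γ := Fintype.card_pos_iff.mp (by omega)
      obtain ⟨i0⟩ := hαn
      obtain ⟨j0⟩ := hβn
      obtain ⟨k0⟩ := hγn
      refine ⟨u (σ (Sum.inl (Sum.inl i0))), u (σ (Sum.inl (Sum.inr j0))), u (σ (Sum.inr k0)),
        fun i => hc1 i i0, fun i => hc2 i j0, fun i => hc3 i k0, ?_⟩
      refine (hK X hX _ _ _ ?_).mono fun _ => ENNReal.ofReal_le_ofReal hle2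
      rintro ⟨h12, h23⟩
      refine Rich.perm u σ hu ⟨Sum.inr k0, u (σ (Sum.inr k0)), fun x _ => ?_⟩
      rcases x with (x | x) | x
      · exact (hc1 x i0).trans (h12.trans h23)
      · exact (hc2 x j0).trans h23
      · exact hc3 x k0
    · left
      refine ⟨fun ξ => g (ty (fun i : α => u (σ (Sum.inl (Sum.inl i)))))
        (ty (fun i : β => u (σ (Sum.inl (Sum.inr i))))) (ty (fun i : γ => u (σ (Sum.inr i))))
        (xa X ξ) (xb X ξ) (xc X ξ), ?_, ?_, ?_⟩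
      · exact (hgm _ _ _).comp ((hxa.comp measurable_prodMk_left).prodMk
          ((hxb.comp measurable_prodMk_left).prodMk (hxc.comp measurable_prodMk_left)))
      · filter_upwards [hs X hX] with ξ hξ
        exact hg _ _ _ hξ.1 hξ.2.1 hξ.2.2 _ _ _ hc _ _ _ rfl rfl rfl
      · exact (hG X hX _ _ _ hc).trans (ENNReal.ofReal_le_ofReal hle))
  refine key.mono fun _ => ?_
  have hsumσ : (∑ σ : Equiv.Perm ((α ⊕ β) ⊕ γ), F σ)
      / ((Fintype.card ((α ⊕ β) ⊕ γ)).factorial : ℝ) ≤ 1 := by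
    have h1 := sum_perm_three T (fun j l k =>
      G (tyc (Fintype.card α) j) (tyc (Fintype.card β) l) (tyc (Fintype.card γ) k))
    have h1' : ∑ σ : Equiv.Perm ((α ⊕ β) ⊕ γ), F σ =
      ((Fintype.card ((α ⊕ β) ⊕ γ)).factorial : ℝ) *
      (∑ j ∈ Finset.range (T.card + 1), ∑ l ∈ Finset.range (T.card - j + 1),
        ((Fintype.card α).choose j : ℝ) * ((Fintype.card β).choose l) *
        ((Fintype.card γ).choose (T.card - j - l)) * G (tyc (Fintype.card α) j)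
          (tyc (Fintype.card β) l) (tyc (Fintype.card γ) (T.card - j - l))) /
      ((Fintype.card ((α ⊕ β) ⊕ γ)).choose T.card) := by
      rw [← h1]
    have h2 := hcount T.card hP1 (by rw [← E8_card (α := α) (β := β) (γ := γ)]; exact hP2)
    have hfac : (0 : ℝ) < ((Fintype.card ((α ⊕ β) ⊕ γ)).factorial : ℝ) := by
      exact_mod_cast Nat.factorial_pos _
    have hch : (0 : ℝ) < ((Fintype.card ((α ⊕ β) ⊕ γ)).choose T.card : ℝ) := by
      exact_mod_cast Nat.choose_pos (by omega)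
    rw [h1', div_div, div_le_one (by positivity), mul_comm (((Fintype.card ((α ⊕ β) ⊕ γ)).choose T.card : ℝ))]
    refine mul_le_mul_of_nonneg_left ?_ hfac.le
    rw [E8_card] at *
    exact h2
  calc ENNReal.ofReal ((∑ σ : Equiv.Perm ((α ⊕ β) ⊕ γ), F σ)
      / ((Fintype.card ((α ⊕ β) ⊕ γ)).factorial : ℝ)) ≤ ENNReal.ofReal 1 :=
        ENNReal.ofReal_le_ofReal hsumσ
    _ = 1 := ENNReal.ofReal_one

end

end Pool.Agent.helper49.Slope
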