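import Pool.Agent.helper49.Slope.DefsF

/-!
MP_aedd95_co (slope of k-fold hyperplane covers of triangular grids), module F3a.
The vectors of the block of size 3 and a numerical inequality. `|x| ≤ 8/25`.
-/

set_option autoImplicit false

open MeasureTheory ProbabilityTheory
open scoped ENNReal

namespace Pool.Agent.helper49.Slope

theorem f3a_c (x : ℝ) (hx : |x| ≤ 8 / 25) : 0 ≤ 1 - (1 - |x|) ^ 2 / 4 := by
  have := abs_nonneg x
  nlinarith

theorem f3a_r (x : ℝ) (hx : |x| ≤ 8 / 25) : 0 ≤ 1 - |x| ^ 2 := by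
  have := abs_nonneg x
  nlinarith

theorem vN3_measurable : Measurable vN3 := by
  refine measurable_pi_lambda _ fun i => measurable_pi_lambda _ fun k => ?_
  have h0 : Continuous fun x : ℝ => |x| := continuous_abs
  apply Continuous.measurable
  fin_cases i <;> fin_cases k <;> simp [vN3] <;> fun_prop

theorem f3a_eps : Measurable eps := by
  unfold eps
  exact Measurable.ite measurableSet_Ioi measurable_const measurable_const

theorem dN3_measurable : Measurable dN3 := by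
  refine measurable_pi_lambda _ fun i => ?_
  fin_cases i <;> simp [dN3] <;> fun_prop

theorem vE3_measurable : Measurable vE3 := by
  refine measurable_pi_lambda _ fun i => measurable_pi_lambda _ fun k => ?_
  have h0 : Continuous fun x : ℝ => |x| := continuous_abs
  apply Continuous.measurable
  fin_cases i <;> fin_cases k <;> simp [vE3] <;> fun_prop

theorem dE3_measurable : Measurable dE3 := by
  have he := f3a_eps
  have h0 : Measurable fun x : ℝ => |x| := continuous_abs.measurable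
  refine measurable_pi_lambda _ fun i => ?_
  fin_cases i
  · exact he.mul (measurable_const.sub h0)
  · exact he.neg.div_const 2
  · exact he.neg.div_const 2

theorem vN3_sum (x : ℝ) (k : Fin 3) : ∑ i, vN3 x i k = 0 := by
  rw [Fin.sum_univ_three]
  fin_cases k
  · simp [vN3]; ring
  · simp [vN3]
  · simp [vN3]

theorem dN3_sum (x : ℝ) : ∑ i, dN3 x i = x := by
  rw [Fin.sum_univ_three]
  simp [dN3]

theorem vE3_sum (x : ℝ) (k : Fin 3) : ∑ i, vE3 x i k = 0 := by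
  rw [Fin.sum_univ_three]
  fin_cases k
  · simp [vE3]; ring
  · simp [vE3]
  · simp [vE3]

theorem dE3_sum (x : ℝ) (hx : x ≠ 0) : ∑ i, dE3 x i = x := by
  rw [Fin.sum_univ_three]
  simp only [dE3, eps, Matrix.cons_val_zero, Matrix.cons_val_one, Matrix.cons_val]
  rcases lt_or_gt_of_ne hx with h | h
  · rw [if_neg (not_lt.2 h.le), abs_of_neg h]; ring
  · rw [if_pos h, abs_of_pos h]; ring

/-- lengths `1 - |x|, 1, 1` -/
theorem vN3_norm (x : ℝ) (hx : |x| ≤ 8 / 25) (i : Fin 3) :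
    ∑ k, vN3 x i k ^ 2 = (![1 - |x|, 1, 1] i) ^ 2 := by
  have h := Real.sq_sqrt (f3a_c x hx)
  rw [Fin.sum_univ_three]
  fin_cases i
  · simp [vN3]
  · simp [vN3]
    rw [h]; ring
  · simp [vN3]
    rw [h]; ring

/-- lengths `|x|, 1/2, 1/2` -/
theorem vE3_norm (x : ℝ) (hx : |x| ≤ 8 / 25) (i : Fin 3) :
    ∑ k, vE3 x i k ^ 2 = (![|x|, 1 / 2, 1 / 2] i) ^ 2 := by
  have h := Real.sq_sqrt (f3a_r x hx)
  rw [Fin.sum_univ_three]
  fin_cases i
  · simp [vE3]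
  · simp only [vE3, Matrix.cons_val_zero, Matrix.cons_val_one, Matrix.cons_val, Fin.mk_one,
      Fin.isValue, div_pow, h, neg_sq]
    ring
  · simp only [vE3, Matrix.cons_val_zero, Matrix.cons_val_one, Matrix.cons_val, Fin.reduceFinMk,
      Fin.isValue, div_pow, h, neg_sq]
    ring

theorem vsq_N3 (x : ℝ) (hx : |x| ≤ 8 / 25) (u : Fin 3 → ℤ) :
    vsq (vN3 x) u = ((u 0 : ℝ) - (u 1 + u 2) / 2) ^ 2 * (1 - |x|) ^ 2
      + ((u 1 : ℝ) - u 2) ^ 2 * (1 - (1 - |x|) ^ 2 / 4) := by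
  have h := Real.sq_sqrt (f3a_c x hx)
  unfold vsq
  simp only [Fin.sum_univ_three, vN3, Matrix.cons_val_zero, Matrix.cons_val_one,
    Matrix.cons_val]
  generalize Real.sqrt (1 - (1 - |x|) ^ 2 / 4) = s at h ⊢
  linear_combination ((u 1 : ℝ) - u 2) ^ 2 * h

theorem vsq_E3 (x : ℝ) (hx : |x| ≤ 8 / 25) (u : Fin 3 → ℤ) :
    vsq (vE3 x) u = ((u 0 : ℝ) - (u 1 + u 2) / 2) ^ 2 * |x| ^ 2
      + ((u 1 : ℝ) - u 2) ^ 2 * (1 - |x| ^ 2) / 4 := by
  have h := Real.sq_sqrt (f3a_r x hx)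
  unfold vsq
  simp only [Fin.sum_univ_three, vE3, Matrix.cons_val_zero, Matrix.cons_val_one,
    Matrix.cons_val]
  generalize Real.sqrt (1 - |x| ^ 2) = s at h ⊢
  linear_combination ((u 1 : ℝ) - u 2) ^ 2 / 4 * h

/-- the quadratic form of the block of size 3 -/
noncomputable def f3a_Q (A B : ℝ) (a b c : ℤ) : ℝ :=
  ((a : ℝ) - (b + c) / 2) ^ 2 * A + ((b : ℝ) - c) ^ 2 * B

theorem f3a_Q_comm (A B : ℝ) (a b c : ℤ) : f3a_Q A B a b c = f3a_Q A B a c b := by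
  unfold f3a_Q; ring

theorem f3a_mid (A B : ℝ) (hA : 0 ≤ A) (hB : 0 < B) (p q s : ℤ) (h1 : p < q) (h2 : q < s) :
    1 / Real.sqrt (f3a_Q A B q p s) ≤ 1 / Real.sqrt (4 * B) := by
  have e1 : (p : ℝ) + 1 ≤ q := by exact_mod_cast h1
  have e2 : (q : ℝ) + 1 ≤ s := by exact_mod_cast h2
  have e3 : 4 ≤ ((p : ℝ) - s) ^ 2 := by nlinarith
  have e4 : 4 * B ≤ f3a_Q A B q p s := by
    unfold f3a_Q
    have := mul_nonneg (sq_nonneg ((q : ℝ) - (p + s) / 2)) hA
    nlinarith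
  exact one_div_le_one_div_of_le (Real.sqrt_pos.2 (by positivity)) (Real.sqrt_le_sqrt e4)

theorem f3a_end (A B : ℝ) (hA : 0 ≤ A) (hB : 0 < B) (a b c : ℤ)
    (h : (3 : ℝ) / 2 ≤ |(a : ℝ) - (b + c) / 2|) (h2 : b ≠ c) :
    1 / Real.sqrt (f3a_Q A B a b c) ≤ 1 / Real.sqrt (9 / 4 * A + B) := by
  have e1 : (9 : ℝ) / 4 ≤ ((a : ℝ) - (b + c) / 2) ^ 2 := by
    rw [← sq_abs]
    nlinarith
  have e2 : (1 : ℝ) ≤ ((b : ℝ) - c) ^ 2 := by
    have h3 : (1 : ℤ) ≤ (b - c) ^ 2 := by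
      have h4 : b - c ≠ 0 := sub_ne_zero.2 h2
      have h5 : 0 < (b - c) ^ 2 := by positivity
      omega
    exact_mod_cast h3
  have e4 : 9 / 4 * A + B ≤ f3a_Q A B a b c := by
    unfold f3a_Q
    nlinarith
  exact one_div_le_one_div_of_le (Real.sqrt_pos.2 (by positivity)) (Real.sqrt_le_sqrt e4)

theorem f3a_low (A B : ℝ) (hA : 0 ≤ A) (hB : 0 < B) (p q s : ℤ) (h1 : p < q) (h2 : q < s) :
    1 / Real.sqrt (f3a_Q A B p q s) ≤ 1 / Real.sqrt (9 / 4 * A + B) := by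
  have e1 : (p : ℝ) + 1 ≤ q := by exact_mod_cast h1
  have e2 : (q : ℝ) + 1 ≤ s := by exact_mod_cast h2
  refine f3a_end A B hA hB p q s ?_ h2.ne
  rw [abs_sub_comm]
  refine le_trans ?_ (le_abs_self _)
  linarith

theorem f3a_high (A B : ℝ) (hA : 0 ≤ A) (hB : 0 < B) (p q s : ℤ) (h1 : p < q) (h2 : q < s) :
    1 / Real.sqrt (f3a_Q A B s p q) ≤ 1 / Real.sqrt (9 / 4 * A + B) := by
  have e1 : (p : ℝ) + 1 ≤ q := by exact_mod_cast h1
  have e2 : (q : ℝ) + 1 ≤ s := by exact_mod_cast h2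
  refine f3a_end A B hA hB s p q ?_ h1.ne
  refine le_trans ?_ (le_abs_self _)
  linarith

theorem f3a_tri (A B : ℝ) (hA : 0 ≤ A) (hB : 0 < B) (a b c : ℤ) (hab : a ≠ b) (hac : a ≠ c)
    (hbc : b ≠ c) :
    1 / Real.sqrt (f3a_Q A B a b c) + 1 / Real.sqrt (f3a_Q A B b a c) +
      1 / Real.sqrt (f3a_Q A B c a b) ≤
      1 / Real.sqrt (4 * B) + 2 * (1 / Real.sqrt (9 / 4 * A + B)) := by
  have key : ∀ p q s : ℤ, p < q → q < s → 1 / Real.sqrt (f3a_Q A B q p s) +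
      1 / Real.sqrt (f3a_Q A B p q s) + 1 / Real.sqrt (f3a_Q A B s p q) ≤
      1 / Real.sqrt (4 * B) + 2 * (1 / Real.sqrt (9 / 4 * A + B)) := by
    intro p q s h1 h2
    have := f3a_mid A B hA hB p q s h1 h2
    have := f3a_low A B hA hB p q s h1 h2
    have := f3a_high A B hA hB p q s h1 h2
    linarith
  rcases lt_or_gt_of_ne hab with h1 | h1
  · rcases lt_or_gt_of_ne hbc with h2 | h2
    · have := key a b c h1 h2
      linarith
    · rcases lt_or_gt_of_ne hac with h3 | h3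
      · have := key a c b h3 h2
        rw [f3a_Q_comm A B a c b] at this
        linarith
      · have := key c a b h3 h1
        rw [f3a_Q_comm A B a c b, f3a_Q_comm A B b c a] at this
        linarith
  · rcases lt_or_gt_of_ne hac with h2 | h2
    · have := key b a c h1 h2
      rw [f3a_Q_comm A B c b a] at this
      linarith
    · rcases lt_or_gt_of_ne hbc with h3 | h3
      · have := key b c a h3 h2
        rw [f3a_Q_comm A B c b a, f3a_Q_comm A B b c a] at this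
        linarith
      · have := key c b a h3 h1
        rw [f3a_Q_comm A B c b a, f3a_Q_comm A B b c a, f3a_Q_comm A B a c b] at this
        linarith

theorem f3a_univ : (Finset.univ : Finset (Equiv.Perm (Fin 3))) =
    {1, Equiv.swap 1 2, Equiv.swap 0 1, Equiv.swap 0 1 * Equiv.swap 1 2, Equiv.swap 0 2,
      Equiv.swap 0 2 * Equiv.swap 1 2} := by decide

/-- For three distinct integers and `A, B ≥ 0`, `4B ≥ A`... : averages over the six permutations.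
Values `p < q < s` with gaps `g₁, g₂ ≥ 1`. If `u₀ = q`: `δ = u₁ - u₂ = ±(g₁+g₂)`, `δ² ≥ 4`. If
`u₀ = p` or `s`: `|u₀ - (u₁+u₂)/2| ≥ 3/2`, `δ² ≥ 1`. So two of the six permutations have
`Q ≥ 4 B` and the four others `Q ≥ 9/4 A + B`, where `Q = (u₀-(u₁+u₂)/2)² A + (u₁-u₂)² B`. -/
theorem tri_avg (A B : ℝ) (hA : 0 ≤ A) (hB : 0 < B) (u : Fin 3 → ℤ)
    (h : u 0 ≠ u 1 ∧ u 0 ≠ u 2 ∧ u 1 ≠ u 2) :
    (∑ σ : Equiv.Perm (Fin 3), 1 / Real.sqrt
        (((u (σ 0) : ℝ) - (u (σ 1) + u (σ 2)) / 2) ^ 2 * A + ((u (σ 1) : ℝ) - u (σ 2)) ^ 2 * B)) / 6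
      ≤ 1 / 3 / Real.sqrt (4 * B) + 2 / 3 / Real.sqrt (9 / 4 * A + B) := by
  have h1 := f3a_tri A B hA hB (u 0) (u 1) (u 2) h.1 h.2.1 h.2.2
  have h2 : (∑ σ : Equiv.Perm (Fin 3), 1 / Real.sqrt
        (((u (σ 0) : ℝ) - (u (σ 1) + u (σ 2)) / 2) ^ 2 * A +
          ((u (σ 1) : ℝ) - u (σ 2)) ^ 2 * B)) =
      2 * (1 / Real.sqrt (f3a_Q A B (u 0) (u 1) (u 2)) +
        1 / Real.sqrt (f3a_Q A B (u 1) (u 0) (u 2)) +
        1 / Real.sqrt (f3a_Q A B (u 2) (u 0) (u 1))) := by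
    change (∑ σ : Equiv.Perm (Fin 3), 1 / Real.sqrt (f3a_Q A B (u (σ 0)) (u (σ 1)) (u (σ 2)))) = _
    rw [f3a_univ, Finset.sum_insert (by decide), Finset.sum_insert (by decide),
      Finset.sum_insert (by decide), Finset.sum_insert (by decide), Finset.sum_insert (by decide),
      Finset.sum_singleton]
    have g1 : (Equiv.swap (1 : Fin 3) 2) 0 = 0 := by decide
    have g2 : (Equiv.swap (1 : Fin 3) 2) 1 = 2 := by decide
    have g3 : (Equiv.swap (1 : Fin 3) 2) 2 = 1 := by decide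
    have g4 : (Equiv.swap (0 : Fin 3) 1) 0 = 1 := by decide
    have g5 : (Equiv.swap (0 : Fin 3) 1) 1 = 0 := by decide
    have g6 : (Equiv.swap (0 : Fin 3) 1) 2 = 2 := by decide
    have g7 : (Equiv.swap (0 : Fin 3) 2) 0 = 2 := by decide
    have g8 : (Equiv.swap (0 : Fin 3) 2) 1 = 1 := by decide
    have g9 : (Equiv.swap (0 : Fin 3) 2) 2 = 0 := by decide
    simp only [Equiv.Perm.coe_one, id_eq, Equiv.Perm.mul_apply, g1, g2, g3, g4, g5, g6, g7, g8, g9]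
    rw [f3a_Q_comm A B (u 0) (u 2) (u 1), f3a_Q_comm A B (u 1) (u 2) (u 0),
      f3a_Q_comm A B (u 2) (u 1) (u 0)]
    ring
  rw [h2]
  have e1 : 1 / 3 / Real.sqrt (4 * B) = (1 / 3) * (1 / Real.sqrt (4 * B)) := by ring
  have e2 : 2 / 3 / Real.sqrt (9 / 4 * A + B) = (2 / 3) * (1 / Real.sqrt (9 / 4 * A + B)) := by
    ring
  rw [e1, e2]
  linarith

theorem f3a_mono (x y α β p : ℝ) (hx : 0 ≤ x) (hxy : x ≤ y) (hα : 0 ≤ α) (hp : 0 < p)
    (hp2 : p ^ 2 ≤ α + β * y ^ 2) (hpos : 0 < α + β * x ^ 2) :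
    x / Real.sqrt (α + β * x ^ 2) ≤ y / p := by
  have hs := Real.sqrt_pos.2 hpos
  rw [div_le_div_iff₀ hs hp]
  have hy : 0 ≤ y := hx.trans hxy
  apply le_of_sq_le_sq _ (by positivity)
  rw [mul_pow, mul_pow, Real.sq_sqrt hpos.le]
  have h1 : x ^ 2 ≤ y ^ 2 := pow_le_pow_left₀ hx hxy 2
  have h2 : x ^ 2 * p ^ 2 ≤ x ^ 2 * (α + β * y ^ 2) := mul_le_mul_of_nonneg_left hp2 (sq_nonneg x)
  have h3 : α * x ^ 2 ≤ α * y ^ 2 := mul_le_mul_of_nonneg_left h1 hα
  nlinarith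

theorem f3a_piece (a b r p1 p2 p3 p4 : ℝ) (h0 : 0 ≤ r) (h1 : r ≤ 8 / 25) (ha : a ≤ r) (hb : r ≤ b)
    (q1 : 0 < p1) (q2 : 0 < p2) (q3 : 0 < p3) (q4 : 0 < p4)
    (w1 : p1 ^ 2 ≤ 1 + 2 * (1 - a) ^ 2) (w2 : p2 ^ 2 ≤ 4 + (-1) * (1 - a) ^ 2)
    (w3 : p3 ^ 2 ≤ 1 / 4 + 2 * b ^ 2) (w4 : p4 ^ 2 ≤ 1 + (-1) * b ^ 2)
    (w : 1 / 3 * ((1 - a) / p2) + 2 / 3 * ((1 - a) / p1) + (1 / 3 * (b / p4) + 2 / 3 * (b / p3))
      ≤ 88 / 100) :
    (1 - r) * (1 / 3 / Real.sqrt (4 - (1 - r) ^ 2) + 2 / 3 / Real.sqrt (1 + 2 * (1 - r) ^ 2))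
      + r * (1 / 3 / Real.sqrt (1 - r ^ 2) + 2 / 3 / Real.sqrt (1 / 4 + 2 * r ^ 2))
      ≤ 88 / 100 := by
  have m1 := f3a_mono (1 - r) (1 - a) 1 2 p1 (by linarith) (by linarith) (by norm_num) q1 w1
    (by positivity)
  have m2 := f3a_mono (1 - r) (1 - a) 4 (-1) p2 (by linarith) (by linarith) (by norm_num) q2 w2
    (by nlinarith)
  have m3 := f3a_mono r b (1 / 4) 2 p3 h0 hb (by norm_num) q3 w3 (by positivity)
  have m4 := f3a_mono r b 1 (-1) p4 h0 hb (by norm_num) q4 w4 (by nlinarith)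
  have e1 : 4 + (-1) * (1 - r) ^ 2 = 4 - (1 - r) ^ 2 := by ring
  have e2 : 1 + (-1) * r ^ 2 = 1 - r ^ 2 := by ring
  rw [e1] at m2
  rw [e2] at m4
  have e3 : (1 - r) * (1 / 3 / Real.sqrt (4 - (1 - r) ^ 2) +
      2 / 3 / Real.sqrt (1 + 2 * (1 - r) ^ 2))
      + r * (1 / 3 / Real.sqrt (1 - r ^ 2) + 2 / 3 / Real.sqrt (1 / 4 + 2 * r ^ 2)) =
      1 / 3 * ((1 - r) / Real.sqrt (4 - (1 - r) ^ 2)) +
      2 / 3 * ((1 - r) / Real.sqrt (1 + 2 * (1 - r) ^ 2)) +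
      (1 / 3 * (r / Real.sqrt (1 - r ^ 2)) + 2 / 3 * (r / Real.sqrt (1 / 4 + 2 * r ^ 2))) := by
    ring
  rw [e3]
  linarith

/-- With `c = 1 - r`: N: `A = c²`, `B = 1 - c²/4`: `4B = 4 - c²`, `9/4 A + B = 1 + 2c²`; E:
`A = r²`, `B = (1-r²)/4`: `4B = 1 - r²`, `9/4 A + B = 1/4 + 2r²`. The sum
`(1-r)(2/3/√(1+2c²) + 1/3/√(4-c²)) + r (2/3/√(1/4+2r²) + 1/3/√(1-r²))` is at most `0.8762`
(its value at `r = 8/25`; it is increasing; margin `0.0038`; split `[0, 8/25]` into a few pieces: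
`r=0`: 0.577, `0.1`: 0.69, `0.2`: 0.79, `0.3`: 0.866; each of the four terms is monotone in `r`:
`(1-r)/√(1+2(1-r)²)` decreasing, `(1-r)/√(4-(1-r)²)` decreasing, `r/√(1/4+2r²)` increasing,
`r/√(1-r²)` increasing). -/
theorem b3_bound (r : ℝ) (h0 : 0 ≤ r) (h1 : r ≤ 8 / 25) :
    (1 - r) * (1 / 3 / Real.sqrt (4 - (1 - r) ^ 2) + 2 / 3 / Real.sqrt (1 + 2 * (1 - r) ^ 2))
      + r * (1 / 3 / Real.sqrt (1 - r ^ 2) + 2 / 3 / Real.sqrt (1 / 4 + 2 * r ^ 2))
      ≤ 88 / 100 := by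
  rcases le_total r (9/50) with t0 | t0
  · exact f3a_piece (0) (9/50) r (433/250) (433/250) (561/1000) (2459/2500) h0 h1 (by linarith) (by linarith)
      (by norm_num) (by norm_num) (by norm_num) (by norm_num) (by norm_num) (by norm_num)
      (by norm_num) (by norm_num) (by norm_num)
  rcases le_total r (13/50) with t1 | t1
  · exact f3a_piece (9/50) (13/50) r (957/625) (18241/10000) (3103/5000) (1207/1250) h0 h1 (by linarith) (by linarith)
      (by norm_num) (by norm_num) (by norm_num) (by norm_num) (by norm_num) (by norm_num)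
      (by norm_num) (by norm_num) (by norm_num)
  rcases le_total r (59/200) with t2 | t2
  · exact f3a_piece (13/50) (59/200) r (7237/5000) (929/500) (6511/10000) (4777/5000) h0 h1 (by linarith) (by linarith)
      (by norm_num) (by norm_num) (by norm_num) (by norm_num) (by norm_num) (by norm_num)
      (by norm_num) (by norm_num) (by norm_num)
  rcases le_total r (39/125) with t3 | t3
  · exact f3a_piece (59/200) (39/125) r (14121/10000) (4679/2500) (1667/2500) (19/20) h0 h1 (by linarith) (by linarith)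
      (by norm_num) (by norm_num) (by norm_num) (by norm_num) (by norm_num) (by norm_num)
      (by norm_num) (by norm_num) (by norm_num)
  exact f3a_piece (39/125) (8/25) r (872/625) (18779/10000) (6743/10000) (4737/5000) h0 h1 (by linarith) (by linarith)
      (by norm_num) (by norm_num) (by norm_num) (by norm_num) (by norm_num) (by norm_num)
      (by norm_num) (by norm_num) (by norm_num)

end Pool.Agent.helper49.Slope
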