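import Pool.Agent.helper49.Slope.DefsF
import Pool.Agent.helper49.Slope.F3a
import Pool.Agent.helper49.Slope.B2b
import Pool.Agent.helper49.Slope.B5
import Pool.Agent.helper49.Slope.B7c
import Pool.Agent.helper49.Slope.B7d

/-!
MP_aedd95_co (slope of k-fold hyperplane covers of triangular grids), module F3.
The block of size 3: assembly.

PROOF. Let `ρ = |x|`. Take the kernels of `exists_polyKernel` for `(vN3, dN3)` and `(vE3, dE3)`,
symmetrise each (`exists_symKernel`) and mix them with weights `1 - ρ'`, `ρ'`, `ρ' = min ρ 1`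
(`exists_twoKernel`). For `x = 0` the state E has weight `0`.
* Support: vectors sum to 0, `d` sums to `x`, `|v_i| + |d_i| ≤ 1` (F3a).
* Singles: let `x > 0`. State N: `y_0` has load `1/(1-ρ)` on `[-1+2ρ, 1]`, `y_1, y_2` load `1` on
  `[-1,1]`. State E: `y_0` has load `1/ρ` on `[-1, -1+2ρ]`, `y_1, y_2` load `2` on `[0,1]`. The sum
  over the positions of `(1-ρ) N + ρ E` is (up to endpoints) `1 + 2(1-ρ) + 4ρ 1_{[0,1]}
  = 3 (1 - 2ρ/3 + (4ρ/3) 1_{[0,1]}) = 3 sprof(2x/3)`. For `x < 0` reflect.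
* Rich forms (three distinct values): `tri_avg` and `b3_bound`. `partner`: the load `≤ 0.88` is
  kept when an independent variable is added (`HasLoad.cnv_const`), and `0.88 ≤ P3 ρ + ρ M`.
-/

set_option autoImplicit false

open MeasureTheory ProbabilityTheory
open scoped ENNReal

namespace Pool.Agent.helper49.Slope

/-- the coordinate form -/
theorem F3_lin_single {ι : Type} [Fintype ι] [DecidableEq ι] (i : ι) :
    (fun y : ι → ℝ => y i) = lin (Pi.single i (1 : ℤ)) := by
  funext y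
  unfold lin
  rw [Finset.sum_eq_single i]
  · simp
  · intro j _ hj
    simp [hj]
  · intro h
    exact absurd (Finset.mem_univ i) h

theorem F3_vsq_single {ι : Type} [Fintype ι] [DecidableEq ι] (v : ι → Fin 3 → ℝ) (i : ι) :
    vsq v (Pi.single i (1 : ℤ)) = ∑ k, v i k ^ 2 := by
  unfold vsq
  apply Finset.sum_congr rfl
  intro k _
  congr 1
  rw [Finset.sum_eq_single i]
  · simp
  · intro j _ hj
    simp [hj]
  · intro h
    exact absurd (Finset.mem_univ i) h

theorem F3_sum_single {ι : Type} [Fintype ι] [DecidableEq ι] (d : ι → ℝ) (i : ι) :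
    ∑ j, ((Pi.single i (1 : ℤ) : ι → ℤ) j : ℝ) * d j = d i := by
  rw [Finset.sum_eq_single i]
  · simp
  · intro j _ hj
    simp [hj]
  · intro h
    exact absurd (Finset.mem_univ i) h

theorem F3_rich_comp {ι : Type} (u : ι → ℤ) (σ : Equiv.Perm ι) (hu : Rich u) : Rich (u ∘ σ) := by
  intro h
  apply hu
  obtain ⟨i, t, h⟩ := h
  refine ⟨σ i, t, fun j hj => ?_⟩
  have h1 := h (σ.symm j) (fun h2 => hj (by rw [← h2, Equiv.apply_symm_apply]))
  simpa using h1

theorem F3_ker_le (D V L z : ℝ) (h : 1 / V ≤ L) (hL : 0 ≤ L) : ker D V z ≤ ENNReal.ofReal L := by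
  unfold ker
  split_ifs
  · exact ENNReal.ofReal_le_ofReal h
  · exact zero_le

/-- mixing two constant loads, the second one only needed for positive weight -/
theorem F3_mix {μ ν : Measure ℝ} {ρ L M : ℝ} (h0 : 0 ≤ ρ) (h1 : ρ ≤ 1) (hL : 0 ≤ L) (hM : 0 ≤ M)
    (hμ : HasLoad μ (fun _ => ENNReal.ofReal L))
    (hν : ρ ≠ 0 → HasLoad ν (fun _ => ENNReal.ofReal M)) :
    HasLoad (ENNReal.ofReal (1 - ρ) • μ + ENNReal.ofReal ρ • ν)
      (fun _ => ENNReal.ofReal ((1 - ρ) * L + ρ * M)) := by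
  have h1' : 0 ≤ 1 - ρ := by linarith
  by_cases h : ρ = 0
  · subst h
    simpa using hμ
  · have := HasLoad.add_smul measurable_const measurable_const hμ (hν h) (ENNReal.ofReal (1 - ρ))
      (ENNReal.ofReal ρ) ENNReal.ofReal_ne_top ENNReal.ofReal_ne_top
    refine this.mono (fun z => ?_)
    rw [← ENNReal.ofReal_mul h1', ← ENNReal.ofReal_mul h0,
      ← ENNReal.ofReal_add (mul_nonneg h1' hL) (mul_nonneg h0 hM)]

/-- average of constant loads over permutations -/
theorem F3_avg (F : Equiv.Perm (Fin 3) → ℝ) (hF : ∀ σ, 0 ≤ F σ) (L : ℝ)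
    (h : (∑ σ, F σ) / 6 ≤ L) :
    (∑ σ : Equiv.Perm (Fin 3), ENNReal.ofReal (F σ)) /
      ((Fintype.card (Fin 3)).factorial : ℝ≥0∞) ≤ ENNReal.ofReal L := by
  rw [← ENNReal.ofReal_sum_of_nonneg (fun σ _ => hF σ)]
  have h6 : ((Fintype.card (Fin 3)).factorial : ℝ≥0∞) = ENNReal.ofReal 6 := by
    rw [Fintype.card_fin]
    norm_num [Nat.factorial]
  rw [h6, ← ENNReal.ofReal_div_of_pos (by norm_num)]
  exact ENNReal.ofReal_le_ofReal h

/-- the real version of `ker` -/
noncomputable def F3_kerR (D V z : ℝ) : ℝ := if |z - D| ≤ V then 1 / V else 0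

theorem F3_ker_eq (D V z : ℝ) : ker D V z = ENNReal.ofReal (F3_kerR D V z) := by
  unfold ker F3_kerR
  split_ifs <;> simp

theorem F3_kerR_nonneg (D V z : ℝ) (hV : 0 ≤ V) : 0 ≤ F3_kerR D V z := by
  unfold F3_kerR
  split_ifs
  · positivity
  · exact le_rfl

theorem F3_combine (ρ a0 a1 a2 b0 b1 b2 : ℝ) (h0 : 0 ≤ ρ) (h1 : ρ ≤ 1) (ha0 : 0 ≤ a0)
    (ha1 : 0 ≤ a1) (ha2 : 0 ≤ a2) (hb0 : 0 ≤ b0) (hb1 : 0 ≤ b1) (hb2 : 0 ≤ b2) :
    ENNReal.ofReal (1 - ρ) * ((ENNReal.ofReal a0 + ENNReal.ofReal a1 + ENNReal.ofReal a2) / 3) +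
      ENNReal.ofReal ρ * ((ENNReal.ofReal b0 + ENNReal.ofReal b1 + ENNReal.ofReal b2) / 3) =
      ENNReal.ofReal (((1 - ρ) * (a0 + a1 + a2) + ρ * (b0 + b1 + b2)) / 3) := by
  have h1' : 0 ≤ 1 - ρ := by linarith
  have h3 : (3 : ℝ≥0∞) = ENNReal.ofReal 3 := by norm_num
  rw [← ENNReal.ofReal_add ha0 ha1, ← ENNReal.ofReal_add (by positivity) ha2,
    ← ENNReal.ofReal_add hb0 hb1, ← ENNReal.ofReal_add (by positivity) hb2, h3,
    ← ENNReal.ofReal_div_of_pos (by norm_num), ← ENNReal.ofReal_div_of_pos (by norm_num),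
    ← ENNReal.ofReal_mul h1', ← ENNReal.ofReal_mul h0,
    ← ENNReal.ofReal_add (by positivity) (by positivity)]
  congr 1
  ring

/-- the profile inequality away from finitely many points -/
theorem F3_profile (x z : ℝ) (hx : |x| ≤ 8 / 25) (hx0 : x ≠ 0) (hz0 : z ≠ 0)
    (hz1 : z ≠ 2 * x - 1) (hz2 : z ≠ 2 * x + 1) :
    ENNReal.ofReal (1 - |x|) * ((ker x (1 - |x|) z + ker 0 1 z + ker 0 1 z) / 3) +
      ENNReal.ofReal |x| * ((ker (eps x * (1 - |x|)) |x| z +
        ker (-eps x / 2) (1 / 2) z + ker (-eps x / 2) (1 / 2) z) / 3) ≤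
      sprof (2 / 3 * x) z := by
  have hρ0 : 0 < |x| := abs_pos.mpr hx0
  have hc0 : 0 < 1 - |x| := by linarith
  simp only [F3_ker_eq]
  rw [F3_combine |x| _ _ _ _ _ _ hρ0.le (by linarith) (F3_kerR_nonneg _ _ _ hc0.le)
    (F3_kerR_nonneg _ _ _ zero_le_one) (F3_kerR_nonneg _ _ _ zero_le_one)
    (F3_kerR_nonneg _ _ _ hρ0.le) (F3_kerR_nonneg _ _ _ (by norm_num))
    (F3_kerR_nonneg _ _ _ (by norm_num))]
  have hA : ∀ a : ℝ, a * F3_kerR 0 1 z = if |z| ≤ 1 then a else 0 := by
    intro a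
    unfold F3_kerR
    rw [sub_zero]
    split_ifs <;> simp
  have hN : (1 - |x|) * F3_kerR x (1 - |x|) z = if |z - x| ≤ 1 - |x| then 1 else 0 := by
    unfold F3_kerR
    split_ifs
    · field_simp
    · simp
  have hE : |x| * F3_kerR (eps x * (1 - |x|)) |x| z =
      if |z - eps x * (1 - |x|)| ≤ |x| then 1 else 0 := by
    unfold F3_kerR
    split_ifs
    · field_simp
    · simp
  have hH : ∀ a : ℝ, a * F3_kerR (-eps x / 2) (1 / 2) z = if |z - -eps x / 2| ≤ 1 / 2 then 2 * a else 0 := by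
    intro a
    unfold F3_kerR
    split_ifs
    · ring
    · simp
  have hsum : (1 - |x|) * (F3_kerR x (1 - |x|) z + F3_kerR 0 1 z + F3_kerR 0 1 z) +
      |x| * (F3_kerR (eps x * (1 - |x|)) |x| z +
        F3_kerR (-eps x / 2) (1 / 2) z + F3_kerR (-eps x / 2) (1 / 2) z) =
      (if |z - x| ≤ 1 - |x| then 1 else 0) + (if |z| ≤ 1 then (2 - 2 * |x|) else 0) +
      (if |z - eps x * (1 - |x|)| ≤ |x| then 1 else 0) +
      (if |z - -eps x / 2| ≤ 1 / 2 then 4 * |x| else 0) := by
    rw [← hN, ← hE, ← hA (2 - 2 * |x|)]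
    have := hH (2 * |x|)
    rw [show 4 * |x| = 2 * (2 * |x|) by ring, ← this]
    ring
  rw [hsum]
  unfold sprof
  rcases lt_or_gt_of_ne hx0 with hneg | hpos
  · -- x < 0, eps = 1
    have he : eps x = 1 := by
      unfold eps
      rw [if_neg (by linarith)]
    have ha : |x| = -x := abs_of_neg hneg
    rw [ha] at hx hρ0 hc0 ⊢
    rw [he]
    by_cases hz : |z| ≤ 1
    · obtain ⟨hzl, hzu⟩ := abs_le.mp hz
      rw [if_pos hz, if_pos hz]
      by_cases hz' : 0 ≤ z
      · have hz'' : 0 < z := lt_of_le_of_ne hz' (Ne.symm hz0)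
        rw [if_pos hz']
        apply ENNReal.ofReal_le_ofReal
        rw [if_neg (show ¬ |z - -1 / 2| ≤ 1 / 2 by
          intro h; have := (abs_le.mp h).2; linarith)]
        by_cases h2 : z < 2 * x + 1
        · rw [if_pos (show |z - x| ≤ 1 - -x by rw [abs_le]; constructor <;> linarith),
            if_neg (show ¬ |z - 1 * (1 - -x)| ≤ -x by
              intro h; have := (abs_le.mp h).1; linarith)]
          linarith
        · have h3 : 2 * x + 1 < z := lt_of_le_of_ne (not_lt.mp h2) (Ne.symm hz2)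
          rw [if_neg (show ¬ |z - x| ≤ 1 - -x by
              intro h; have := (abs_le.mp h).2; linarith),
            if_pos (show |z - 1 * (1 - -x)| ≤ -x by rw [abs_le]; constructor <;> linarith)]
          linarith
      · have hz'' : z < 0 := not_le.mp hz'
        rw [if_neg hz']
        apply ENNReal.ofReal_le_ofReal
        rw [if_pos (show |z - -1 / 2| ≤ 1 / 2 by rw [abs_le]; constructor <;> linarith),
          if_pos (show |z - x| ≤ 1 - -x by rw [abs_le]; constructor <;> linarith),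
          if_neg (show ¬ |z - 1 * (1 - -x)| ≤ -x by
            intro h; have := (abs_le.mp h).1; linarith)]
        linarith
    · rw [if_neg hz, if_neg hz]
      rw [if_neg (show ¬ |z - x| ≤ 1 - -x by
          intro h; apply hz; obtain ⟨h1, h2⟩ := abs_le.mp h
          rw [abs_le]; constructor <;> linarith),
        if_neg (show ¬ |z - 1 * (1 - -x)| ≤ -x by
          intro h; apply hz; obtain ⟨h1, h2⟩ := abs_le.mp h
          rw [abs_le]; constructor <;> linarith),
        if_neg (show ¬ |z - -1 / 2| ≤ 1 / 2 by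
          intro h; apply hz; obtain ⟨h1, h2⟩ := abs_le.mp h
          rw [abs_le]; constructor <;> linarith)]
      simp
  · -- x > 0, eps = -1
    have he : eps x = -1 := by
      unfold eps
      rw [if_pos hpos]
    have ha : |x| = x := abs_of_pos hpos
    rw [ha] at hx hρ0 hc0 ⊢
    rw [he]
    by_cases hz : |z| ≤ 1
    · obtain ⟨hzl, hzu⟩ := abs_le.mp hz
      rw [if_pos hz, if_pos hz]
      by_cases hz' : 0 ≤ z
      · have hz'' : 0 < z := lt_of_le_of_ne hz' (Ne.symm hz0)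
        rw [if_pos hz']
        apply ENNReal.ofReal_le_ofReal
        rw [if_pos (show |z - - -1 / 2| ≤ 1 / 2 by rw [abs_le]; constructor <;> linarith),
          if_pos (show |z - x| ≤ 1 - x by rw [abs_le]; constructor <;> linarith),
          if_neg (show ¬ |z - -1 * (1 - x)| ≤ x by
            intro h; have := (abs_le.mp h).2; linarith)]
        linarith
      · have hz'' : z < 0 := not_le.mp hz'
        rw [if_neg hz']
        apply ENNReal.ofReal_le_ofReal
        rw [if_neg (show ¬ |z - - -1 / 2| ≤ 1 / 2 by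
          intro h; have := (abs_le.mp h).1; linarith)]
        by_cases h2 : z < 2 * x - 1
        · rw [if_neg (show ¬ |z - x| ≤ 1 - x by
              intro h; have := (abs_le.mp h).1; linarith),
            if_pos (show |z - -1 * (1 - x)| ≤ x by rw [abs_le]; constructor <;> linarith)]
          linarith
        · have h3 : 2 * x - 1 < z := lt_of_le_of_ne (not_lt.mp h2) (Ne.symm hz1)
          rw [if_pos (show |z - x| ≤ 1 - x by rw [abs_le]; constructor <;> linarith),
            if_neg (show ¬ |z - -1 * (1 - x)| ≤ x by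
              intro h; have := (abs_le.mp h).2; linarith)]
          linarith
    · rw [if_neg hz, if_neg hz]
      rw [if_neg (show ¬ |z - x| ≤ 1 - x by
          intro h; apply hz; obtain ⟨h1, h2⟩ := abs_le.mp h
          rw [abs_le]; constructor <;> linarith),
        if_neg (show ¬ |z - -1 * (1 - x)| ≤ x by
          intro h; apply hz; obtain ⟨h1, h2⟩ := abs_le.mp h
          rw [abs_le]; constructor <;> linarith),
        if_neg (show ¬ |z - - -1 / 2| ≤ 1 / 2 by
          intro h; apply hz; obtain ⟨h1, h2⟩ := abs_le.mp h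
          rw [abs_le]; constructor <;> linarith)]
      simp

theorem F3_ker_measurable (D V : ℝ) : Measurable (ker D V) := B5_measurable_ker D V

theorem F3_sqrt_sq {a : ℝ} (h : 0 ≤ a) : Real.sqrt (a ^ 2) = a := Real.sqrt_sq h

/-- coordinate loads of a poly kernel -/
theorem F3_coord {ι : Type} [Fintype ι] [DecidableEq ι] (v : ι → Fin 3 → ℝ) (d : ι → ℝ)
    (μ : Measure (ι → ℝ))
    (h : ∀ u : ι → ℤ, 0 < vsq v u →
        HasLoad (μ.map (lin u)) (ker (∑ i, (u i : ℝ) * d i) (Real.sqrt (vsq v u))))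
    (i : ι) (r : ℝ) (hr : 0 < r) (hv : ∑ k, v i k ^ 2 = r ^ 2) :
    HasLoad (μ.map (fun y => y i)) (ker (d i) r) := by
  have h1 := h (Pi.single i 1) (by rw [F3_vsq_single, hv]; positivity)
  rw [F3_vsq_single, F3_sum_single, hv, Real.sqrt_sq hr.le, ← F3_lin_single] at h1
  exact h1

theorem F3_rich (u : Fin 3 → ℤ) (hu : Rich u) : u 0 ≠ u 1 ∧ u 0 ≠ u 2 ∧ u 1 ≠ u 2 := by
  refine ⟨fun h => hu ⟨2, u 0, fun j hj => ?_⟩, fun h => hu ⟨1, u 0, fun j hj => ?_⟩,
    fun h => hu ⟨0, u 1, fun j hj => ?_⟩⟩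
  · fin_cases j
    · rfl
    · exact h.symm
    · exact absurd rfl hj
  · fin_cases j
    · rfl
    · exact absurd rfl hj
    · exact h.symm
  · fin_cases j
    · exact absurd rfl hj
    · rfl
    · exact h.symm

/-- the quadratic form is positive for three distinct values -/
theorem F3_pos (A B : ℝ) (hA : 0 ≤ A) (hB : 0 < B) (u : Fin 3 → ℤ)
    (h : u 0 ≠ u 1 ∧ u 0 ≠ u 2 ∧ u 1 ≠ u 2) (σ : Equiv.Perm (Fin 3)) :
    0 < ((u (σ 0) : ℝ) - (u (σ 1) + u (σ 2)) / 2) ^ 2 * A + ((u (σ 1) : ℝ) - u (σ 2)) ^ 2 * B := by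
  have hinj : Function.Injective u := by
    intro i j hij
    fin_cases i <;> fin_cases j <;> simp_all
  have hne : u (σ 1) ≠ u (σ 2) := fun h' => by
    have := σ.injective (hinj h')
    exact absurd this (by decide)
  have hne' : (u (σ 1) : ℝ) - u (σ 2) ≠ 0 := by
    rw [sub_ne_zero]
    exact_mod_cast hne
  have h1 : 0 < ((u (σ 1) : ℝ) - u (σ 2)) ^ 2 := by positivity
  have h2 : 0 ≤ ((u (σ 0) : ℝ) - (u (σ 1) + u (σ 2)) / 2) ^ 2 * A := by positivity
  have h3 := mul_pos h1 hB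
  linarith

theorem block_three : ∃ κ : Kernel ℝ (Fin 3 → ℝ), IsMarkovKernel κ ∧ Blk κ (8 / 25) P3 P3 := by
  obtain ⟨κN, hκN, hN⟩ := exists_polyKernel vN3 vN3_measurable dN3 dN3_measurable
  obtain ⟨κE, hκE, hE⟩ := exists_polyKernel vE3 vE3_measurable dE3 dE3_measurable
  obtain ⟨ζN, hζN, hNs⟩ := exists_symKernel κN
  obtain ⟨ζE, hζE, hEs⟩ := exists_symKernel κE
  obtain ⟨ζ, hζ, hmix⟩ := exists_twoKernel ζN ζE (fun x => min |x| 1)
    (measurable_abs.min measurable_const) (fun x => le_min (abs_nonneg x) zero_le_one)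
    (fun x => min_le_right _ _)
  have hmix' : ∀ x : ℝ, |x| ≤ 8 / 25 →
      ζ x = ENNReal.ofReal (1 - |x|) • ζN x + ENNReal.ofReal |x| • ζE x := by
    intro x hx
    have := hmix x
    rw [min_eq_left (by linarith)] at this
    exact this
  have hmap : ∀ x : ℝ, |x| ≤ 8 / 25 → ∀ f : (Fin 3 → ℝ) → ℝ, Measurable f →
      (ζ x).map f = ENNReal.ofReal (1 - |x|) • (ζN x).map f + ENNReal.ofReal |x| • (ζE x).map f := by
    intro x hx f hf
    rw [hmix' x hx, Measure.map_add _ _ hf, Measure.map_smul, Measure.map_smul]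
  have hlm : ∀ u : Fin 3 → ℤ, Measurable (lin u) := B5_measurable_lin
  -- supports
  have hNsupp : ∀ x : ℝ, |x| ≤ 8 / 25 → Supp (ζN x) x := by
    intro x hx
    have hx1 : 0 ≤ 1 - |x| := by linarith
    apply (hNs x).1
    apply (hN x).1 x (vN3_sum x) (dN3_sum x)
    intro i
    rw [vN3_norm x hx i]
    fin_cases i
    · simp only [Fin.zero_eta, Fin.isValue, dN3, Matrix.cons_val_zero]
      rw [Real.sqrt_sq hx1]
      linarith
    · simp [dN3]
    · simp [dN3]
  have hEsupp : ∀ x : ℝ, |x| ≤ 8 / 25 → x ≠ 0 → Supp (ζE x) x := by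
    intro x hx hx0
    have hx1 : 0 ≤ 1 - |x| := by linarith
    have heps : |eps x| = 1 := by
      unfold eps
      split_ifs <;> simp
    apply (hEs x).1
    apply (hE x).1 x (vE3_sum x) (dE3_sum x hx0)
    intro i
    rw [vE3_norm x hx i]
    fin_cases i
    · simp only [Fin.zero_eta, Fin.isValue, dE3, Matrix.cons_val_zero]
      rw [Real.sqrt_sq (abs_nonneg x), abs_mul, heps, one_mul, abs_of_nonneg hx1]
      linarith
    · simp only [Fin.mk_one, Fin.isValue, dE3, Matrix.cons_val_one, Matrix.cons_val_zero]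
      rw [Real.sqrt_sq (by norm_num), abs_div, abs_neg, heps]
      norm_num
    · simp only [Fin.reduceFinMk, Fin.isValue, dE3, Matrix.cons_val]
      rw [Real.sqrt_sq (by norm_num), abs_div, abs_neg, heps]
      norm_num
  -- loads of the rich forms
  have hNload : ∀ x : ℝ, |x| ≤ 8 / 25 → ∀ u : Fin 3 → ℤ, Rich u →
      HasLoad ((ζN x).map (lin u)) (fun _ => ENNReal.ofReal
        (1 / 3 / Real.sqrt (4 - (1 - |x|) ^ 2) + 2 / 3 / Real.sqrt (1 + 2 * (1 - |x|) ^ 2))) := by
    intro x hx u hu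
    have h3 := F3_rich u hu
    have hB : 0 < 1 - (1 - |x|) ^ 2 / 4 := by nlinarith [abs_nonneg x]
    have hA : 0 ≤ (1 - |x|) ^ 2 := sq_nonneg _
    have hq : ∀ σ : Equiv.Perm (Fin 3), vsq (vN3 x) (u ∘ σ) =
        ((u (σ 0) : ℝ) - (u (σ 1) + u (σ 2)) / 2) ^ 2 * (1 - |x|) ^ 2
          + ((u (σ 1) : ℝ) - u (σ 2)) ^ 2 * (1 - (1 - |x|) ^ 2 / 4) := fun σ => vsq_N3 x hx (u ∘ σ)
    have hpos := F3_pos _ _ hA hB u h3
    have h1 := (hNs x).2.1 u (fun σ _ => ENNReal.ofReal (1 / Real.sqrt (vsq (vN3 x) (u ∘ σ))))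
      (fun σ => measurable_const) (fun σ => by
        have h2 := (hN x).2 (u ∘ σ) (by rw [hq]; exact hpos σ)
        exact h2.mono (fun z => F3_ker_le _ _ _ _ le_rfl (by positivity)))
    refine h1.mono (fun z => ?_)
    refine F3_avg (fun σ => 1 / Real.sqrt (vsq (vN3 x) (u ∘ σ))) (fun _ => by positivity) _ ?_
    have h4 := tri_avg _ _ hA hB u h3
    simp only [hq]
    refine h4.trans (le_of_eq ?_)
    rw [show 4 * (1 - (1 - |x|) ^ 2 / 4) = 4 - (1 - |x|) ^ 2 by ring,
      show 9 / 4 * (1 - |x|) ^ 2 + (1 - (1 - |x|) ^ 2 / 4) = 1 + 2 * (1 - |x|) ^ 2 by ring]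
  have hEload : ∀ x : ℝ, |x| ≤ 8 / 25 → ∀ u : Fin 3 → ℤ, Rich u →
      HasLoad ((ζE x).map (lin u)) (fun _ => ENNReal.ofReal
        (1 / 3 / Real.sqrt (1 - |x| ^ 2) + 2 / 3 / Real.sqrt (1 / 4 + 2 * |x| ^ 2))) := by
    intro x hx u hu
    have h3 := F3_rich u hu
    have hB : 0 < (1 - |x| ^ 2) / 4 := by nlinarith [abs_nonneg x]
    have hA : 0 ≤ |x| ^ 2 := sq_nonneg _
    have hq : ∀ σ : Equiv.Perm (Fin 3), vsq (vE3 x) (u ∘ σ) =
        ((u (σ 0) : ℝ) - (u (σ 1) + u (σ 2)) / 2) ^ 2 * |x| ^ 2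
          + ((u (σ 1) : ℝ) - u (σ 2)) ^ 2 * ((1 - |x| ^ 2) / 4) := by
      intro σ
      rw [vsq_E3 x hx (u ∘ σ)]
      simp only [Function.comp]
      ring
    have hpos := F3_pos _ _ hA hB u h3
    have h1 := (hEs x).2.1 u (fun σ _ => ENNReal.ofReal (1 / Real.sqrt (vsq (vE3 x) (u ∘ σ))))
      (fun σ => measurable_const) (fun σ => by
        have h2 := (hE x).2 (u ∘ σ) (by rw [hq]; exact hpos σ)
        exact h2.mono (fun z => F3_ker_le _ _ _ _ le_rfl (by positivity)))
    refine h1.mono (fun z => ?_)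
    refine F3_avg (fun σ => 1 / Real.sqrt (vsq (vE3 x) (u ∘ σ))) (fun _ => by positivity) _ ?_
    have h4 := tri_avg _ _ hA hB u h3
    simp only [hq]
    refine h4.trans (le_of_eq ?_)
    rw [show 4 * ((1 - |x| ^ 2) / 4) = 1 - |x| ^ 2 by ring,
      show 9 / 4 * |x| ^ 2 + (1 - |x| ^ 2) / 4 = 1 / 4 + 2 * |x| ^ 2 by ring]
  have hrich : ∀ x : ℝ, |x| ≤ 8 / 25 → ∀ u : Fin 3 → ℤ, Rich u →
      HasLoad ((ζ x).map (lin u)) (fun _ => ENNReal.ofReal (88 / 100)) := by
    intro x hx u hu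
    rw [hmap x hx _ (hlm u)]
    have h2 := F3_mix (abs_nonneg x) (by linarith) (by positivity) (by positivity)
      (hNload x hx u hu) (fun _ => hEload x hx u hu)
    refine h2.mono (fun z => ENNReal.ofReal_le_ofReal ?_)
    exact b3_bound |x| (abs_nonneg x) hx
  refine ⟨ζ, hζ, ?_, ?_, ?_, ?_⟩
  · -- supp
    intro x hx
    unfold Supp
    rw [hmix' x hx, ae_add_measure_iff]
    refine ⟨Measure.ae_smul_measure (hNsupp x hx) _, ?_⟩
    by_cases hx0 : x = 0
    · subst hx0
      simp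
    · exact Measure.ae_smul_measure (hEsupp x hx hx0) _
  · -- single
    intro x hx i
    have hx1 : 0 < 1 - |x| := by linarith
    rw [hmap x hx _ (measurable_pi_apply i)]
    have hNi := (hNs x).2.2 (fun j => ker (dN3 x j) (![1 - |x|, 1, 1] j))
      (fun j => F3_ker_measurable _ _) (fun j => F3_coord (vN3 x) (dN3 x) (κN x) (hN x).2 j _
        (by fin_cases j <;> simp <;> linarith) (vN3_norm x hx j)) i
    have hNi' : HasLoad ((ζN x).map (fun y => y i))
        (fun z => (ker x (1 - |x|) z + ker 0 1 z + ker 0 1 z) / 3) := by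
      refine hNi.mono (fun z => le_of_eq ?_)
      rw [Fin.sum_univ_three]
      simp [dN3]
    by_cases hx0 : x = 0
    · subst hx0
      simp only [abs_zero, sub_zero, ENNReal.ofReal_one, one_smul, ENNReal.ofReal_zero,
        zero_smul, add_zero, mul_zero] at hNi' ⊢
      refine hNi'.mono (fun z => ?_)
      unfold ker sprof
      simp only [sub_zero, add_zero, div_one, ENNReal.ofReal_one, ite_self]
      split_ifs
      · have : (1 + 1 + 1 : ℝ≥0∞) = 3 := by norm_num
        rw [this, ENNReal.div_self (by norm_num) (by norm_num)]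
      · simp
    · have hρ : 0 < |x| := abs_pos.mpr hx0
      have hEi := (hEs x).2.2 (fun j => ker (dE3 x j) (![|x|, 1 / 2, 1 / 2] j))
        (fun j => F3_ker_measurable _ _) (fun j => F3_coord (vE3 x) (dE3 x) (κE x) (hE x).2 j _
          (by fin_cases j <;> simp [hx0]) (vE3_norm x hx j)) i
      have hEi' : HasLoad ((ζE x).map (fun y => y i))
          (fun z => (ker (eps x * (1 - |x|)) |x| z + ker (-eps x / 2) (1 / 2) z +
            ker (-eps x / 2) (1 / 2) z) / 3) := by
        refine hEi.mono (fun z => le_of_eq ?_)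
        rw [Fin.sum_univ_three]
        simp [dE3]
      have hmN : Measurable (fun z => (ker x (1 - |x|) z + ker 0 1 z + ker 0 1 z) / 3) :=
        (((F3_ker_measurable _ _).add (F3_ker_measurable _ _)).add
          (F3_ker_measurable _ _)).div_const 3
      have hmE : Measurable (fun z => (ker (eps x * (1 - |x|)) |x| z +
          ker (-eps x / 2) (1 / 2) z + ker (-eps x / 2) (1 / 2) z) / 3) :=
        (((F3_ker_measurable _ _).add (F3_ker_measurable _ _)).add
          (F3_ker_measurable _ _)).div_const 3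
      have := HasLoad.add_smul hmN hmE hNi' hEi' (ENNReal.ofReal (1 - |x|)) (ENNReal.ofReal |x|)
        ENNReal.ofReal_ne_top ENNReal.ofReal_ne_top
      refine this.mono_ae ?_
      have hae : ∀ a : ℝ, ∀ᵐ z : ℝ, z ≠ a := fun a => by
        rw [ae_iff]
        simp
      filter_upwards [hae 0, hae (2 * x - 1), hae (2 * x + 1)] with z hz0 hz1 hz2
      have h := F3_profile x z hx hx0 hz0 hz1 hz2
      rw [Fintype.card_fin]
      exact_mod_cast h
  · -- rich
    intro x hx u hu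
    exact hrich x hx u hu
  · -- partner
    intro x hx u hu ν hν M hM hload
    haveI : IsProbabilityMeasure ((ζ x).map (lin u)) :=
      Measure.isProbabilityMeasure_map (hlm u).aemeasurable
    have h1 : HasLoad (cnv ((ζ x).map (lin u)) ν) (fun _ => ENNReal.ofReal (88 / 100)) :=
      HasLoad.cnv_const (hrich x hx u hu)
    refine h1.mono (fun z => ENNReal.ofReal_le_ofReal ?_)
    unfold P3
    have := mul_nonneg (abs_nonneg x) hM
    linarith

end Pool.Agent.helper49.Slope
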