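import Pool.Agent.helper49.Slope.DefsE
import Pool.Agent.helper49.Slope.E4

/-!
MP_aedd95_co (slope of k-fold hyperplane covers of triangular grids), module G8a.
A pairing inequality for the profile `ss`.
-/

set_option autoImplicit false

open MeasureTheory ProbabilityTheory
open scoped ENNReal

namespace Pool.Agent.helper49.Slope

theorem G8a_ss_neg (a b z : ℝ) : ss (-a) (-b) (-z) = ss a b z := by
  unfold ss
  rw [abs_neg]
  by_cases h1 : |z| ≤ 1
  · rw [if_pos h1, if_pos h1]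
    ring
  · rw [if_neg h1, if_neg h1]
    by_cases h2 : |z| ≤ 2
    · rw [if_pos h2, if_pos h2]
      rcases lt_trichotomy z 0 with h | h | h
      · rw [if_pos (by linarith), if_neg (not_le.2 h)]
        ring
      · rw [h] at h1
        simp at h1
      · rw [if_neg (by linarith), if_pos h.le]
        ring
    · rw [if_neg h2, if_neg h2]

theorem G8a_big {a v : ℝ} (ha : |a| ≤ 15 / 100) (hv : 1 < v) :
    ss a a v ≤ 13225 / 20000 := by
  obtain ⟨h1, h2⟩ := abs_le.1 ha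
  unfold ss
  rw [abs_of_pos (by linarith : 0 < v), if_neg (not_le.2 hv)]
  split_ifs with h3 h4
  · have h5 : (1 + a) * (1 + a) ≤ 13225 / 10000 := by nlinarith
    have h6 : 0 ≤ (1 + a) * (1 + a) := mul_self_nonneg _
    nlinarith
  · exfalso
    linarith
  · norm_num

theorem G8a_pos {x z : ℝ} (h0 : 0 ≤ x) (h1 : x ≤ 3 / 10) (hz : 0 ≤ z) :
    (ss (-x / 2) (-x / 2) (z - x) + ss (x / 2) (x / 2) (z + x)) / 2
      ≤ 1 - x / 2 + x ^ 2 / 4 + 3 / 8 * x ^ 3 := by
  by_cases hv : z + x ≤ 1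
  · have e2 : ss (x / 2) (x / 2) (z + x) = 1 - (z + x) / 2 + (x / 2 + x / 2) * (z + x) / 2 +
        (x / 2) * (x / 2) * (3 * (z + x) - 2) / 2 := by
      unfold ss
      rw [abs_of_nonneg (by linarith : 0 ≤ z + x), if_pos hv]
    have hw : |z - x| ≤ 1 := abs_le.2 ⟨by linarith, by linarith⟩
    have e1 : ss (-x / 2) (-x / 2) (z - x) = 1 - |z - x| / 2 + (-x / 2 + -x / 2) * (z - x) / 2 +
        (-x / 2) * (-x / 2) * (3 * |z - x| - 2) / 2 := by
      unfold ss
      rw [if_pos hw]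
    rw [e1, e2]
    rcases le_total x z with h | h
    · rw [abs_of_nonneg (by linarith : 0 ≤ z - x)]
      have h2 : 0 ≤ (z - x) * (1 / 2 - 3 / 8 * x ^ 2) := by
        refine mul_nonneg (by linarith) ?_
        nlinarith
      nlinarith
    · rw [abs_of_nonpos (by linarith : z - x ≤ 0)]
      nlinarith
  · rw [not_le] at hv
    have h2 : ss (x / 2) (x / 2) (z + x) ≤ 13225 / 20000 :=
      G8a_big (abs_le.2 ⟨by linarith, by linarith⟩) hv
    have hw0 : 4 / 10 ≤ z - x := by linarith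
    have h3 : ss (-x / 2) (-x / 2) (z - x) ≤ 82 / 100 := by
      by_cases hw : z - x ≤ 1
      · unfold ss
        rw [abs_of_pos (by linarith : 0 < z - x), if_pos hw]
        have h4 : 0 ≤ x * (z - x) := mul_nonneg h0 (by linarith)
        have h5 : x ^ 2 ≤ 9 / 100 := by nlinarith
        have h6 : x ^ 2 * (3 * (z - x) - 2) ≤ 9 / 100 := by
          have : 3 * (z - x) - 2 ≤ 1 := by linarith
          have h7 : 0 ≤ x ^ 2 := sq_nonneg x
          nlinarith
        nlinarith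
      · rw [not_le] at hw
        have := G8a_big (a := -x / 2) (abs_le.2 ⟨by linarith, by linarith⟩) hw
        linarith
    have h4 : 0 ≤ x ^ 2 := sq_nonneg x
    have h5 : 0 ≤ x ^ 3 := by positivity
    linarith

/-- `0 ≤ x ≤ 3/10`, all `z`. The left side is even in `z` (`ss (-a) (-b) (-z) = ss a b z`); let
`z ≥ 0`. If `z + x ≤ 1` it equals `1 - M/2 + x²/4 + 3/8 x² M` with `M = max z x`, decreasing in
`M`. If `z + x > 1`: `z > 7/10`; each of the two terms is small:
`ss (-x/2) (-x/2) (z-x)` is `1 - (z-x)/2 - x(z-x)/2 + x²(3(z-x)-2)/8` for `z - x ≤ 1`, and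
`ss (x/2) (x/2) (z+x) = (2-z-x)(1+x/2)²/2`; the average is `≤ 0.8`, and the right side is
`≥ 0.88`. -/
theorem ss_pairing (x z : ℝ) (h0 : 0 ≤ x) (h1 : x ≤ 3 / 10) :
    (ss (-x / 2) (-x / 2) (z - x) + ss (x / 2) (x / 2) (z + x)) / 2
      ≤ 1 - x / 2 + x ^ 2 / 4 + 3 / 8 * x ^ 3 := by
  rcases le_total 0 z with hz | hz
  · exact G8a_pos h0 h1 hz
  · have key := G8a_pos h0 h1 (z := -z) (by linarith)
    have e1 : ss (-x / 2) (-x / 2) (-z - x) = ss (x / 2) (x / 2) (z + x) := by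
      rw [← G8a_ss_neg (x / 2) (x / 2) (z + x)]
      congr 1 <;> ring
    have e2 : ss (x / 2) (x / 2) (-z + x) = ss (-x / 2) (-x / 2) (z - x) := by
      rw [← G8a_ss_neg (-x / 2) (-x / 2) (z - x)]
      congr 1 <;> ring
    rw [e1, e2] at key
    linarith

/-- `ss` is nonnegative for `|a|, |b| ≤ 1/2`, symmetric under reflection -/
theorem ss_nonneg (a b z : ℝ) (ha : |a| ≤ 1 / 2) (hb : |b| ≤ 1 / 2) : 0 ≤ ss a b z := by
  obtain ⟨a1, a2⟩ := abs_le.1 ha
  obtain ⟨b1, b2⟩ := abs_le.1 hb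
  have hp : 0 ≤ (1 + a) * (1 + b) := mul_nonneg (by linarith) (by linarith)
  have hm : 0 ≤ (1 - a) * (1 - b) := mul_nonneg (by linarith) (by linarith)
  have hab : 0 ≤ 1 - a * b := by nlinarith
  unfold ss
  split_ifs with h1 h2 h3
  · rcases le_total 0 z with hz | hz
    · rw [abs_of_nonneg hz] at h1 ⊢
      have e : 1 - z / 2 + (a + b) * z / 2 + a * b * (3 * z - 2) / 2 =
          (1 - z) * (1 - a * b) + z * ((1 + a) * (1 + b)) / 2 := by ring
      rw [e]
      have := mul_nonneg (by linarith : 0 ≤ 1 - z) hab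
      have := mul_nonneg hz hp
      linarith
    · rw [abs_of_nonpos hz] at h1 ⊢
      have e : 1 - -z / 2 + (a + b) * z / 2 + a * b * (3 * -z - 2) / 2 =
          (1 + z) * (1 - a * b) + (-z) * ((1 - a) * (1 - b)) / 2 := by ring
      rw [e]
      have := mul_nonneg (by linarith : 0 ≤ 1 + z) hab
      have := mul_nonneg (by linarith : 0 ≤ -z) hm
      linarith
  · have := mul_nonneg (by linarith : 0 ≤ 2 - |z|) hp
    linarith
  · have := mul_nonneg (by linarith : 0 ≤ 2 - |z|) hm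
    linarith
  · exact le_rfl

theorem ss_measurable : Measurable (fun p : ℝ × ℝ × ℝ => ss p.1 p.2.1 p.2.2) := by
  unfold ss
  refine Measurable.ite (measurableSet_le (by fun_prop) (by fun_prop)) (by fun_prop) ?_
  refine Measurable.ite (measurableSet_le (by fun_prop) (by fun_prop)) ?_ measurable_const
  refine Measurable.div_const ?_ 2
  refine Measurable.mul (by fun_prop) ?_
  exact Measurable.ite (measurableSet_le (by fun_prop) (by fun_prop)) (by fun_prop) (by fun_prop)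

/-- averaged over `ξ ∼ unif (29/100)` (`unif_symm`, `ss_pairing`, `unif_moment`):
`1 - 0.0725 + 0.0070084 + 0.0022865 = 0.936795 ≤ 9368/10000` -/
theorem ss_average (z : ℝ) :
    ∫⁻ ξ, ENNReal.ofReal (ss (-ξ / 2) (-ξ / 2) (z - ξ)) ∂(unif (29 / 100))
      ≤ ENNReal.ofReal (9368 / 10000) := by
  have hm : Measurable fun ξ : ℝ => ENNReal.ofReal (ss (-ξ / 2) (-ξ / 2) (z - ξ)) := by
    have h2 : Measurable fun ξ : ℝ => ((-ξ / 2, -ξ / 2, z - ξ) : ℝ × ℝ × ℝ) := by fun_prop
    exact (ss_measurable.comp h2).ennreal_ofReal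
  rw [unif_symm _ hm]
  have hle : ∫⁻ ξ, (ENNReal.ofReal (ss (-ξ / 2) (-ξ / 2) (z - ξ)) +
      ENNReal.ofReal (ss (- -ξ / 2) (- -ξ / 2) (z - -ξ))) / 2 ∂(unif (29 / 100)) ≤
      ∫⁻ ξ, ENNReal.ofReal (1 + (-1 / 2) * |ξ| + (1 / 4) * |ξ| ^ 2 + (3 / 8) * |ξ| ^ 3)
        ∂(unif (29 / 100)) := by
    refine lintegral_mono_ae ?_
    filter_upwards [unif_ae (h := 29 / 100)] with ξ hξ
    have hab := abs_le.1 hξ
    have n1 : 0 ≤ ss (-ξ / 2) (-ξ / 2) (z - ξ) :=
      ss_nonneg _ _ _ (abs_le.2 ⟨by linarith, by linarith⟩) (abs_le.2 ⟨by linarith, by linarith⟩)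
    have n2 : 0 ≤ ss (- -ξ / 2) (- -ξ / 2) (z - -ξ) :=
      ss_nonneg _ _ _ (abs_le.2 ⟨by linarith, by linarith⟩) (abs_le.2 ⟨by linarith, by linarith⟩)
    rw [← ENNReal.ofReal_add n1 n2]
    have e2 : (2 : ℝ≥0∞) = ENNReal.ofReal 2 := by simp
    rw [e2, ← ENNReal.ofReal_div_of_pos (by norm_num)]
    refine ENNReal.ofReal_le_ofReal ?_
    rcases le_total 0 ξ with h | h
    · rw [abs_of_nonneg h]
      have key := ss_pairing ξ z h (by linarith)
      have e3 : ss (- -ξ / 2) (- -ξ / 2) (z - -ξ) = ss (ξ / 2) (ξ / 2) (z + ξ) := by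
        congr 1 <;> ring
      rw [e3]
      linarith
    · rw [abs_of_nonpos h]
      have key := ss_pairing (-ξ) z (by linarith) (by linarith)
      have e3 : ss (-ξ / 2) (-ξ / 2) (z - ξ) = ss (-ξ / 2) (-ξ / 2) (z + -ξ) := by
        congr 1
      rw [e3]
      linarith
  refine hle.trans ?_
  rw [unif_moment (by norm_num) 1 (-1 / 2) (1 / 4) (3 / 8)]
  · exact ENNReal.ofReal_le_ofReal (by norm_num)
  · intro r hr hr1
    have : 0 ≤ r ^ 2 := sq_nonneg r
    have : 0 ≤ r ^ 3 := by positivity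
    linarith

end Pool.Agent.helper49.Slope
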