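import Pool.Agent.helper49.Slope.E1
import Pool.Agent.helper49.Slope.E2
import Pool.Agent.helper49.Slope.E3
import Pool.Agent.helper49.Slope.E4
import Pool.Agent.helper49.Slope.F4
import Pool.Agent.helper49.Slope.G8a
import Pool.Agent.helper49.Slope.B8a
import Pool.Agent.helper49.Slope.B9

/-!
MP_aedd95_co (slope of k-fold hyperplane covers of triangular grids), module G8.
The law for N = 8, blocks (4,4).

PROOF. `exists_two` with `R = ℝ`, `π = unif h`, `h = 29/100`, `κ (X,ξ) = block_four ξ`,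
`η (X,ξ) = block_four (-ξ)`; the law is `ζ 0`. Support: `a = ξ`, `b = -ξ`.
* Forms `u = t + c e_i`, `c ≠ 0`: `lin u y = c y_i` a.s., and `y_i` has load
  `(4 ∫ sprof(ξ/2) + 4 ∫ sprof(-ξ/2))/8 = 1_{|z| ≤ 1}`.
* Rich `u`. First suppose some `P` selects `t ∈ {2, 3}` elements (values of `u`). As in
  `two_block` (module E5), the load of `u ∘ σ` is at most `G (tyc 4 j) (tyc 4 (t-j))`, with
  `G S C = G C S = 1 + E|ξ|/2 = 1.0725`, `G R C = G C R = E P4|ξ| = 0.8717 + 0.9432·0.145 -
  0.896·h²/3 ≤ 0.98336`, `G S S = 1 + h²/12 ≤ 1.00701`, `G R S = G S R = E[n4 ρ + ρ(1+ρ/2)] =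
  0.8717 + 0.2765·0.145 + h²/6 ≤ 0.92581`, `G R R = E[n4 ρ + ρ P4 ρ] = 0.8717 - 0.7235·0.145 +
  0.8717·0.145 + 0.9432·h²/3 - 0.896·h³/4 ≤ 0.91417` (`ρ = |ξ|`, `h²/3 = 0.0280333…`,
  `h³/4 = 0.00609725`; types `(C,C)` do not occur for `t = 2, 3`: the ranks of the actual types are
  at least those of the `tyc`, which are not both `0`). Sums: `t = 2`: `12·0.98336 + 16·1.00701
  = 27.913 ≤ 28`; `t = 3`: `8·1.0725 + 48·0.92581 = 53.02 ≤ 56`.
* Otherwise `exists_half_levels` gives `P` with `t = 4`, and `u` is two-valued: if two elements of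
  `T` had different values, or two elements of the complement, some union of levels would have
  1..3 elements inside `T` (or inside the complement): a level `L` inside `T` with `|L| = 2` or
  `3` is excluded, so `|L| = 1` or `T∖L` of size 1; the levels inside `T` then have sizes with all
  partial sums in `{1, 4} ∪ …`: sizes `1 + 3` contain a union of size 3, `1+1+…` one of size 2. So
  `T` is a level, likewise the complement. Say `u = β + c 1_T`, `c ≠ 0`, `lin u y = c lin 1_T y`
  a.s. For `j = #(T ∩ A)`: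
  `j = 4`: law of `c ξ`; `j = 0`: law of `-c ξ`; load `1/h = 100/29`. `j = 2`: `G R R`.
  `j = 3`: given `ξ`, `lin = c (ξ - y_a + y_b)`, `y_a` of profile `sprof(ξ/2)`, `y_b` of profile
  `sprof(-ξ/2)`; load of `-y_a + y_b + ξ` at `z`: `ss (-ξ/2) (-ξ/2) (z-ξ)` (`load_ss`, reflection,
  `HasLoad.shift`), `pairLaw_load`, `ss_average`: `≤ 0.9368` (and `|c| ≥ 1`). `j = 1`:
  `lin = c (y_a - ξ - y_b)`, the reflection of the previous case.
  Sum: `2·100/29 + 32·0.9368 + 36·0.91417 = 69.785 ≤ 70`.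
-/

set_option autoImplicit false

open MeasureTheory ProbabilityTheory
open scoped ENNReal

namespace Pool.Agent.helper49.Slope

/-- load constants by types -/
noncomputable def G8_G (a b : Ty) : ℝ :=
  match a, b with
  | .C, .C => 4
  | .C, .S => 10725 / 10000
  | .S, .C => 10725 / 10000
  | .C, .R => 98336 / 100000
  | .R, .C => 98336 / 100000
  | .S, .S => 100701 / 100000
  | .S, .R => 92581 / 100000
  | .R, .S => 92581 / 100000
  | .R, .R => 91417 / 100000

/-- coefficients of the pointwise bounds, as polynomials in `|ξ|` -/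
noncomputable def G8_c (a b : Ty) : ℝ × ℝ × ℝ × ℝ :=
  match a, b with
  | .C, .C => (0, 0, 0, 0)
  | .C, .S => (1, 1 / 2, 0, 0)
  | .S, .C => (1, 1 / 2, 0, 0)
  | .C, .R => (8717 / 10000, 9432 / 10000, - (896 / 1000), 0)
  | .R, .C => (8717 / 10000, 9432 / 10000, - (896 / 1000), 0)
  | .S, .S => (1, 0, 1 / 4, 0)
  | .S, .R => (8717 / 10000, 2765 / 10000, 1 / 2, 0)
  | .R, .S => (8717 / 10000, 2765 / 10000, 1 / 2, 0)
  | .R, .R => (8717 / 10000, 1482 / 10000, 9432 / 10000, - (896 / 1000))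

noncomputable def G8_g (a b : Ty) (x : ℝ) : ℝ :=
  (G8_c a b).1 + (G8_c a b).2.1 * |x| + (G8_c a b).2.2.1 * |x| ^ 2 + (G8_c a b).2.2.2 * |x| ^ 3

theorem G8_g_meas (a b : Ty) : Measurable (G8_g a b) := by
  unfold G8_g
  have h : Measurable (fun x : ℝ => |x|) := measurable_id.abs
  exact (((measurable_const.add (measurable_const.mul h)).add (measurable_const.mul (h.pow_const 2))).add
    (measurable_const.mul (h.pow_const 3)))

theorem G8_int (a b : Ty) (hab : ¬ (a = Ty.C ∧ b = Ty.C)) :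
    ∫⁻ ξ, ENNReal.ofReal (G8_g a b ξ) ∂(unif (29 / 100)) ≤ ENNReal.ofReal (G8_G a b) := by
  unfold G8_g
  rw [unif_moment (by norm_num)]
  · refine ENNReal.ofReal_le_ofReal ?_
    cases a <;> cases b <;> simp only [G8_c, G8_G] <;>
      first | exact absurd ⟨rfl, rfl⟩ hab | norm_num
  · intro r h0 h1
    have h2 : 0 ≤ r ^ 2 := by positivity
    have h3 : 0 ≤ r ^ 3 := by positivity
    have h4 : r ^ 3 ≤ 29 / 100 * r ^ 2 := by nlinarith
    have h5 : r ^ 2 ≤ 29 / 100 * r := by nlinarith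
    cases a <;> cases b <;> simp only [G8_c] <;> nlinarith

theorem G8_PairBd_mono {α β : Type} [Fintype α] [Fintype β] {κ : Kernel ℝ (α → ℝ)}
    {η : Kernel ℝ (β → ℝ)} {x y : ℝ} {a b : Ty} {g g' : ℝ} (h : PairBd κ η x y a b g)
    (hg : g ≤ g') : PairBd κ η x y a b g' := fun u v hu hv =>
  (h u v hu hv).mono fun _ => ENNReal.ofReal_le_ofReal hg

theorem G8_pair {κ : Kernel ℝ (Fin 4 → ℝ)} [IsMarkovKernel κ] (hb : Blk κ (3 / 10) P4 n4)
    (x : ℝ) (hx : |x| ≤ 3 / 10) (a b : Ty) (hab : ¬ (a = Ty.C ∧ b = Ty.C)) :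
    PairBd κ κ x (-x) a b (G8_g a b x) := by
  have hx' : |-x| ≤ 3 / 10 := by rwa [abs_neg]
  have h3 : 3 ≤ Fintype.card (Fin 4) := by simp
  have hc : (Fintype.card (Fin 4) : ℝ) = 4 := by simp
  have h0 : 0 ≤ |x| := abs_nonneg x
  have hP : 0 ≤ P4 |x| := by
    unfold P4
    nlinarith
  cases a <;> cases b
  · exact absurd ⟨rfl, rfl⟩ hab
  · refine G8_PairBd_mono (pair_symm (pair_S (η := κ) h3 hb (by norm_num) hx' Ty.C)) ?_
    rw [hc, abs_neg]
    simp only [G8_g, G8_c]
    linarith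
  · refine G8_PairBd_mono (pair_symm (pair_R (η := κ) hb hx' Ty.C)) ?_
    rw [abs_neg]
    simp only [G8_g, G8_c, P4]
    linarith
  · refine G8_PairBd_mono (pair_S (η := κ) h3 hb (by norm_num) hx Ty.C) ?_
    rw [hc]
    simp only [G8_g, G8_c]
    linarith
  · refine G8_PairBd_mono (pair_SS h3 h3 hb hb (by norm_num) (by norm_num) hx hx') ?_
    rw [hc, abs_neg]
    simp only [G8_g, G8_c]
    linarith
  · refine G8_PairBd_mono (pair_symm (pair_RS h3 hb hb (by norm_num) hx' hx)) ?_
    rw [hc, abs_neg]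
    simp only [G8_g, G8_c, n4]
    linarith
  · refine G8_PairBd_mono (pair_R (η := κ) hb hx Ty.C) ?_
    simp only [G8_g, G8_c, P4]
    linarith
  · refine G8_PairBd_mono (pair_RS h3 hb hb (by norm_num) hx hx') ?_
    rw [hc, abs_neg]
    simp only [G8_g, G8_c, n4]
    linarith
  · refine G8_PairBd_mono (pair_RR hb hb hx hx' (by rwa [abs_neg])) ?_
    rw [abs_neg]
    simp only [G8_g, G8_c, n4, P4]
    linarith

theorem G8_unif_ae : ∀ᵐ ξ ∂(unif (29 / 100)), |ξ| ≤ 3 / 10 := by
  filter_upwards [unif_ae (h := 29 / 100)] with ξ h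
  linarith

/-- the two kernels -/
noncomputable def G8_k (κ : Kernel ℝ (Fin 4 → ℝ)) : Kernel (ℝ × ℝ) (Fin 4 → ℝ) :=
  κ.comap (fun p => p.2) measurable_snd

noncomputable def G8_e (κ : Kernel ℝ (Fin 4 → ℝ)) : Kernel (ℝ × ℝ) (Fin 4 → ℝ) :=
  κ.comap (fun p => -p.2) measurable_snd.neg

theorem G8_k_apply (κ : Kernel ℝ (Fin 4 → ℝ)) (X r : ℝ) : G8_k κ (X, r) = κ r :=
  Kernel.comap_apply κ measurable_snd (X, r)

theorem G8_e_apply (κ : Kernel ℝ (Fin 4 → ℝ)) (X r : ℝ) : G8_e κ (X, r) = κ (-r) :=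
  Kernel.comap_apply κ measurable_snd.neg (X, r)

instance (κ : Kernel ℝ (Fin 4 → ℝ)) [IsMarkovKernel κ] : IsMarkovKernel (G8_k κ) := by
  unfold G8_k
  infer_instance

instance (κ : Kernel ℝ (Fin 4 → ℝ)) [IsMarkovKernel κ] : IsMarkovKernel (G8_e κ) := by
  unfold G8_e
  infer_instance

section
variable {κ : Kernel ℝ (Fin 4 → ℝ)} [IsMarkovKernel κ]

theorem G8_types (hb : Blk κ (3 / 10) P4 n4) (w : Fin 4 ⊕ Fin 4 → ℤ) (a b : Ty)
    (ha : ty (fun i => w (Sum.inl i)) = a) (hb' : ty (fun i => w (Sum.inr i)) = b)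
    (hab : ¬ (a = Ty.C ∧ b = Ty.C)) :
    HasLoad (pairLaw (G8_k κ) (G8_e κ) (unif (29 / 100)) 0 w)
      (fun _ => ENNReal.ofReal (G8_G a b)) := by
  have := unif_prob (h := 29 / 100) (by norm_num)
  have h1 := pairLaw_load (G8_k κ) (G8_e κ) (unif (29 / 100)) 0 w
    (fun r _ => ENNReal.ofReal (G8_g a b r))
    (((G8_g_meas a b).comp measurable_fst).ennreal_ofReal) (by
      filter_upwards [G8_unif_ae] with r hr
      rw [G8_k_apply, G8_e_apply]
      exact G8_pair hb r hr a b hab _ _ ha hb')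
  exact h1.mono fun _ => G8_int a b hab

omit [IsMarkovKernel κ] in
/-- affine singles -/
theorem G8_single (hb : Blk κ (3 / 10) P4 n4) {x : ℝ} (hx : |x| ≤ 3 / 10) (w : Fin 4 → ℤ) (s t : ℤ)
    (a : Fin 4) (hw : ∀ i, w i = if i = a then s else t) :
    (κ x).map (lin w) =
      ((κ x).map (fun y => y a)).map (fun z => ((s : ℝ) - t) * z + t * x) := by
  rw [Measure.map_map (by fun_prop) (by fun_prop)]
  refine Measure.map_congr ?_
  filter_upwards [hb.supp x hx] with y hy
  have h1 : lin w y = ∑ i, ((t : ℝ) * y i + if i = a then ((s : ℝ) - t) * y i else 0) := by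
    unfold lin
    refine Finset.sum_congr rfl fun i _ => ?_
    rw [hw]
    split_ifs <;> ring
  rw [h1, Finset.sum_add_distrib, ← Finset.mul_sum, hy.2, Finset.sum_ite_eq' Finset.univ a]
  simp only [Finset.mem_univ, if_true, Function.comp]
  ring

theorem G8_sprof_neg (a z : ℝ) (hz : z ≠ 0) : sprof a (z / -1) = sprof (-a) z := by
  have h : z / -1 = -z := by ring
  rw [h]
  unfold sprof
  rw [abs_neg]
  by_cases h1 : |z| ≤ 1
  · rw [if_pos h1, if_pos h1]
    rcases lt_or_gt_of_ne hz with h2 | h2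
    · rw [if_pos (by linarith), if_neg (by linarith)]
      congr 1
      ring
    · rw [if_neg (by linarith), if_pos (by linarith)]
      rfl
  · rw [if_neg h1, if_neg h1]

theorem G8_cnv (μ ν : Measure ℝ) [IsProbabilityMeasure μ] [IsProbabilityMeasure ν] (c d d' r : ℝ)
    (hd : d + d' = c * r) :
    cnv (μ.map (fun z => (-c) * z + d)) (ν.map (fun z => c * z + d')) =
      ((cnv (μ.map (fun z => (-1 : ℝ) * z)) ν).map (fun z => z + r)).map (fun z => c * z) := by
  have h1 : cnv (μ.map (fun z => (-1 : ℝ) * z)) ν =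
      (μ.prod ν).map (fun p : ℝ × ℝ => (-1 : ℝ) * p.1 + p.2) := by
    unfold cnv
    have h5 : ν = ν.map (fun z => z) := (Measure.map_id').symm
    conv_lhs => rw [h5]
    rw [Measure.map_prod_map _ _ (by fun_prop) (by fun_prop), Measure.map_map (by fun_prop) (by fun_prop)]
    rfl
  rw [h1, Measure.map_map (by fun_prop) (by fun_prop), Measure.map_map (by fun_prop) (by fun_prop)]
  unfold cnv
  rw [Measure.map_prod_map _ _ (by fun_prop) (by fun_prop), Measure.map_map (by fun_prop) (by fun_prop)]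
  congr 1
  funext p
  simp only [Function.comp, Prod.map]
  linear_combination hd

/-- the law of `c (r - y_a + y_b)` -/
theorem G8_three_load (hb : Blk κ (3 / 10) P4 n4) {r : ℝ} (hr : |r| ≤ 3 / 10) (c d d' : ℝ) (hc : c ≠ 0)
    (hd : d + d' = c * r) (a b : Fin 4) :
    HasLoad (cnv (((κ r).map (fun y => y a)).map (fun z => (-c) * z + d))
      (((κ (-r)).map (fun y => y b)).map (fun z => c * z + d')))
      (fun z => ENNReal.ofReal (1 / |c|) * ENNReal.ofReal (ss (-r / 2) (-r / 2) (z / c - r))) := by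
  have hr' : |-r| ≤ 3 / 10 := by rwa [abs_neg]
  have hcard : (Fintype.card (Fin 4) : ℝ) = 4 := by simp
  have p1 : IsProbabilityMeasure ((κ r).map (fun y : Fin 4 → ℝ => y a)) :=
    Measure.isProbabilityMeasure_map (measurable_pi_apply a).aemeasurable
  have p2 : IsProbabilityMeasure ((κ (-r)).map (fun y : Fin 4 → ℝ => y b)) :=
    Measure.isProbabilityMeasure_map (measurable_pi_apply b).aemeasurable
  have p3 : IsProbabilityMeasure (((κ r).map (fun y : Fin 4 → ℝ => y a)).map (fun z => (-1 : ℝ) * z)) :=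
    Measure.isProbabilityMeasure_map (by fun_prop)
  have hA : HasLoad ((κ r).map (fun y => y a)) (sprof (r / 2)) := by
    have := hb.single r hr a
    rw [hcard] at this
    convert this using 2
    ring
  have hB : HasLoad ((κ (-r)).map (fun y => y b)) (sprof (-r / 2)) := by
    have := hb.single (-r) hr' b
    rw [hcard] at this
    convert this using 2
    ring
  have hA' : HasLoad (((κ r).map (fun y => y a)).map (fun z => (-1 : ℝ) * z)) (sprof (-r / 2)) := by
    refine (hA.scale (B3_measurable_sprof _) (-1) (by norm_num)).mono_ae ?_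
    have h0 : ∀ᵐ z : ℝ, z ≠ 0 := by
      have : volume ({0} : Set ℝ) = 0 := by simp
      filter_upwards [compl_mem_ae_iff.2 this] with z hz
      simpa using hz
    filter_upwards [h0] with z hz
    rw [G8_sprof_neg _ _ hz]
    have e1 : (1 : ℝ) / |(-1 : ℝ)| = 1 := by norm_num
    have e2 : -(r / 2) = -r / 2 := by ring
    rw [e1, ENNReal.ofReal_one, one_mul, e2]
  have hab : |-r / 2| ≤ 1 := by
    rw [abs_div, abs_neg, abs_two]
    linarith
  have h1 := load_ss hab hab hA' hB
  have hm : Measurable (fun z => ENNReal.ofReal (ss (-r / 2) (-r / 2) z)) :=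
    (B3_measurable_ss _ _).ennreal_ofReal
  have h2 := h1.shift hm r
  have h3 := h2.scale (hm.comp (measurable_id.sub_const r)) c hc
  rw [← G8_cnv _ _ c d d' r hd] at h3
  exact h3

theorem G8_three (hb : Blk κ (3 / 10) P4 n4) (s t : ℤ) (hst : s ≠ t) (w : Fin 4 ⊕ Fin 4 → ℤ)
    (a b : Fin 4) (hl : ∀ i, w (Sum.inl i) = if i = a then t else s)
    (hr : ∀ i, w (Sum.inr i) = if i = b then s else t) :
    HasLoad (pairLaw (G8_k κ) (G8_e κ) (unif (29 / 100)) 0 w)
      (fun _ => ENNReal.ofReal (9368 / 10000)) := by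
  have := unif_prob (h := 29 / 100) (by norm_num)
  have hc : ((s : ℝ) - t) ≠ 0 := by
    rw [sub_ne_zero]
    exact_mod_cast hst
  have hc1 : 1 ≤ |(s : ℝ) - t| := by
    have h1 : 1 ≤ |s - t| := Int.one_le_abs (sub_ne_zero.2 hst)
    have h2 : ((1 : ℤ) : ℝ) ≤ ((|s - t| : ℤ) : ℝ) := by exact_mod_cast h1
    rw [Int.cast_abs] at h2
    push_cast at h2
    exact h2
  have h1 := pairLaw_load (G8_k κ) (G8_e κ) (unif (29 / 100)) 0 w
    (fun r z => ENNReal.ofReal (1 / |(s : ℝ) - t|) *
      ENNReal.ofReal (ss (-r / 2) (-r / 2) (z / ((s : ℝ) - t) - r)))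
    (by
      have hm : Measurable (fun p : ℝ × ℝ => ss (-p.1 / 2) (-p.1 / 2) (p.2 / ((s : ℝ) - t) - p.1)) :=
        ss_measurable.comp (f := fun p : ℝ × ℝ => (-p.1 / 2, -p.1 / 2, p.2 / ((s : ℝ) - t) - p.1))
          (by fun_prop)
      exact measurable_const.mul hm.ennreal_ofReal) (by
      filter_upwards [G8_unif_ae] with r hr0
      rw [G8_k_apply, G8_e_apply, G8_single hb hr0 _ t s a hl,
        G8_single hb (by rwa [abs_neg]) _ s t b hr]
      have h3 := G8_three_load hb hr0 ((s : ℝ) - t) ((s : ℝ) * r) ((t : ℝ) * -r) hc (by ring) a b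
      have e1 : (-((s : ℝ) - t)) = (t : ℝ) - s := by ring
      rw [e1] at h3
      exact h3)
  refine h1.mono fun z => ?_
  rw [lintegral_const_mul' _ _ ENNReal.ofReal_ne_top]
  calc ENNReal.ofReal (1 / |(s : ℝ) - t|) *
        ∫⁻ r, ENNReal.ofReal (ss (-r / 2) (-r / 2) (z / ((s : ℝ) - t) - r)) ∂(unif (29 / 100))
      ≤ 1 * ENNReal.ofReal (9368 / 10000) := by
        refine mul_le_mul' ?_ (ss_average _)
        rw [← ENNReal.ofReal_one]
        refine ENNReal.ofReal_le_ofReal ?_
        rw [div_le_one (by linarith)]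
        exact hc1
    _ = ENNReal.ofReal (9368 / 10000) := one_mul _

theorem G8_const (hb : Blk κ (3 / 10) P4 n4) (s t : ℤ) (hst : s ≠ t) (w : Fin 4 ⊕ Fin 4 → ℤ)
    (hl : ∀ i, w (Sum.inl i) = s) (hr : ∀ i, w (Sum.inr i) = t) :
    HasLoad (pairLaw (G8_k κ) (G8_e κ) (unif (29 / 100)) 0 w)
      (fun _ => ENNReal.ofReal (100 / 29)) := by
  have := unif_prob (h := 29 / 100) (by norm_num)
  have hc1 : 1 ≤ |(s : ℝ) - t| := by
    have h1 : 1 ≤ |s - t| := Int.one_le_abs (sub_ne_zero.2 hst)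
    have h2 : ((1 : ℤ) : ℝ) ≤ ((|s - t| : ℤ) : ℝ) := by exact_mod_cast h1
    rw [Int.cast_abs] at h2
    push_cast at h2
    exact h2
  have h1 := pairLaw_dirac (G8_k κ) (G8_e κ) (unif (29 / 100)) 0 w (fun r => (s : ℝ) * r)
    (fun r => (t : ℝ) * -r) (by fun_prop) (by fun_prop) (by
      filter_upwards [G8_unif_ae] with r hr0
      rw [G8_k_apply, G8_e_apply]
      exact ⟨hb.const_form hr0 s _ hl, hb.const_form (by rwa [abs_neg]) t _ hr⟩)
  rw [h1]
  have e1 : (fun r : ℝ => (s : ℝ) * r + (t : ℝ) * -r) = fun r => ((s : ℝ) - t) * r + 0 := by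
    funext r
    ring
  rw [e1]
  have h2 := unif_affine_load (h := 29 / 100) (by norm_num) ((s : ℝ) - t) 0 hc1
  refine h2.mono fun z => ENNReal.ofReal_le_ofReal ?_
  norm_num

theorem G8_cards (T : Finset (Fin 4 ⊕ Fin 4)) (σ : Equiv.Perm (Fin 4 ⊕ Fin 4)) :
    (Finset.univ.filter (fun i : Fin 4 => σ (Sum.inl i) ∈ T)).card +
      (Finset.univ.filter (fun i : Fin 4 => σ (Sum.inr i) ∈ T)).card = T.card := by
  have h1 : T.card = ∑ x : Fin 4 ⊕ Fin 4, if σ x ∈ T then 1 else 0 := by
    rw [Equiv.sum_comp σ (fun x => if x ∈ T then 1 else 0)]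
    simp
  rw [h1, Fintype.sum_sum_type, Finset.card_filter, Finset.card_filter]

theorem G8_avg (T : Finset (Fin 4 ⊕ Fin 4)) (g : ℕ → ℕ → ℝ) (hg0 : ∀ a b, 0 ≤ g a b)
    (hsum : ∑ j ∈ Finset.range (T.card + 1), ((4 : ℕ).choose j : ℝ) *
      ((4 : ℕ).choose (T.card - j)) * g j (T.card - j) ≤ ((8 : ℕ).choose T.card : ℝ)) :
    (∑ σ : Equiv.Perm (Fin 4 ⊕ Fin 4),
      ENNReal.ofReal (g ((Finset.univ.filter (fun i : Fin 4 => σ (Sum.inl i) ∈ T)).card)
        ((Finset.univ.filter (fun i : Fin 4 => σ (Sum.inr i) ∈ T)).card))) /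
      ((Fintype.card (Fin 4 ⊕ Fin 4)).factorial : ℝ≥0∞) ≤ 1 := by
  rw [← ENNReal.ofReal_sum_of_nonneg (fun _ _ => hg0 _ _), sum_perm_two]
  have h4 : Fintype.card (Fin 4) = 4 := Fintype.card_fin 4
  have h8 : Fintype.card (Fin 4 ⊕ Fin 4) = 8 := by simp
  have hT : T.card ≤ 8 := by
    rw [← h8]
    exact Finset.card_le_univ T
  rw [h8, h4]
  refine ENNReal.div_le_of_le_mul ?_
  rw [one_mul, ← ENNReal.ofReal_natCast]
  refine ENNReal.ofReal_le_ofReal ?_
  have hc : (0 : ℝ) < ((8 : ℕ).choose T.card : ℝ) := by exact_mod_cast Nat.choose_pos hT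
  rw [div_le_iff₀ hc]
  exact mul_le_mul_of_nonneg_left hsum (Nat.cast_nonneg _)

theorem G8_mono (a a' b b' : Ty) (h : a'.rk ≤ a.rk) (h' : b'.rk ≤ b.rk) : G8_G a b ≤ G8_G a' b' := by
  cases a <;> cases a' <;> cases b <;> cases b' <;> simp only [Ty.rk] at h h' <;>
    first | (exfalso; omega) | (simp only [G8_G]; norm_num)

theorem G8_G_nonneg (a b : Ty) : 0 ≤ G8_G a b := by
  cases a <;> cases b <;> simp only [G8_G] <;> norm_num

/-- number of selected elements -/
def G8_num (u : Fin 4 ⊕ Fin 4 → ℤ) (P : ℤ → Bool) : ℕ :=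
  (Finset.univ.filter (fun i => P (u i) = true)).card

theorem G8_rich1 (hb : Blk κ (3 / 10) P4 n4) (ν : Measure (Fin 4 ⊕ Fin 4 → ℝ))
    (h3 : ∀ (u : Fin 4 ⊕ Fin 4 → ℤ) (F : Equiv.Perm (Fin 4 ⊕ Fin 4) → ℝ → ℝ≥0∞),
      (∀ σ, Measurable (F σ)) →
      (∀ σ : Equiv.Perm (Fin 4 ⊕ Fin 4),
        HasLoad (pairLaw (G8_k κ) (G8_e κ) (unif (29 / 100)) 0 (u ∘ σ)) (F σ)) →
      HasLoad (ν.map (lin u)) (fun z => (∑ σ : Equiv.Perm (Fin 4 ⊕ Fin 4), F σ z) /
        ((Fintype.card (Fin 4 ⊕ Fin 4)).factorial : ℝ≥0∞)))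
    (u : Fin 4 ⊕ Fin 4 → ℤ) (P : ℤ → Bool) (hP : G8_num u P = 2 ∨ G8_num u P = 3) :
    HasLoad (ν.map (lin u)) (fun _ => 1) := by
  have h4 : Fintype.card (Fin 4) = 4 := Fintype.card_fin 4
  have hmem : ∀ x, x ∈ (Finset.univ.filter (fun i => P (u i) = true)) ↔ P (u x) = true := by simp
  refine (h3 u (fun σ _ => ENNReal.ofReal (G8_G
    (tyc 4 (Finset.univ.filter (fun i : Fin 4 => σ (Sum.inl i) ∈
      (Finset.univ.filter (fun i => P (u i) = true)))).card)
    (tyc 4 (Finset.univ.filter (fun i : Fin 4 => σ (Sum.inr i) ∈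
      (Finset.univ.filter (fun i => P (u i) = true)))).card)))
    (fun _ => measurable_const) (fun σ => ?_)).mono (fun z =>
      G8_avg (Finset.univ.filter (fun i => P (u i) = true)) (fun j j' => G8_G (tyc 4 j) (tyc 4 j'))
        (fun _ _ => G8_G_nonneg _ _) ?_)
  · have hc := G8_cards (Finset.univ.filter (fun i => P (u i) = true)) σ
    have hL := tyc_le_ty (fun i : Fin 4 => u (σ (Sum.inl i))) P
    have hR := tyc_le_ty (fun i : Fin 4 => u (σ (Sum.inr i))) P
    rw [h4] at hL hR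
    simp only [hmem] at hc ⊢
    have hab : ¬ (ty (fun i : Fin 4 => u (σ (Sum.inl i))) = Ty.C ∧
        ty (fun i : Fin 4 => u (σ (Sum.inr i))) = Ty.C) := by
      rintro ⟨e1, e2⟩
      rw [e1] at hL
      rw [e2] at hR
      have hP' : (Finset.univ.filter (fun i => P (u i) = true)).card = 2 ∨
        (Finset.univ.filter (fun i => P (u i) = true)).card = 3 := hP
      have hl4 : (Finset.univ.filter (fun i : Fin 4 => P (u (σ (Sum.inl i))) = true)).card ≤ 4 := by
        simpa using Finset.card_le_univ (Finset.univ.filter (fun i : Fin 4 => P (u (σ (Sum.inl i))) = true))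
      have hr4 : (Finset.univ.filter (fun i : Fin 4 => P (u (σ (Sum.inr i))) = true)).card ≤ 4 := by
        simpa using Finset.card_le_univ (Finset.univ.filter (fun i : Fin 4 => P (u (σ (Sum.inr i))) = true))
      generalize (Finset.univ.filter (fun i : Fin 4 => P (u (σ (Sum.inl i))) = true)).card = j at *
      generalize (Finset.univ.filter (fun i : Fin 4 => P (u (σ (Sum.inr i))) = true)).card = j' at *
      rw [← hc] at hP'
      interval_cases j <;> interval_cases j' <;> simp [tyc, Ty.rk] at hL hR hP'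
    refine (G8_types hb (u ∘ σ) _ _ rfl rfl hab).mono fun _ => ENNReal.ofReal_le_ofReal ?_
    exact G8_mono _ _ _ _ hL hR
  · have hP' : (Finset.univ.filter (fun i => P (u i) = true)).card = 2 ∨
        (Finset.univ.filter (fun i => P (u i) = true)).card = 3 := hP
    rcases hP' with h | h <;> rw [h] <;>
      norm_num [Finset.sum_range_succ, tyc, G8_G, Nat.choose]

/-- the load table for two values with four coefficients each -/
noncomputable def G8_F2 (j : ℕ) (_ : ℕ) : ℝ :=
  if j = 4 ∨ j = 0 then (100 / 29 : ℝ) else if j = 3 ∨ j = 1 then 9368 / 10000 else 91417 / 100000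

theorem G8_rich2 (hb : Blk κ (3 / 10) P4 n4) (ν : Measure (Fin 4 ⊕ Fin 4 → ℝ))
    (h3 : ∀ (u : Fin 4 ⊕ Fin 4 → ℤ) (F : Equiv.Perm (Fin 4 ⊕ Fin 4) → ℝ → ℝ≥0∞),
      (∀ σ, Measurable (F σ)) →
      (∀ σ : Equiv.Perm (Fin 4 ⊕ Fin 4),
        HasLoad (pairLaw (G8_k κ) (G8_e κ) (unif (29 / 100)) 0 (u ∘ σ)) (F σ)) →
      HasLoad (ν.map (lin u)) (fun z => (∑ σ : Equiv.Perm (Fin 4 ⊕ Fin 4), F σ z) /
        ((Fintype.card (Fin 4 ⊕ Fin 4)).factorial : ℝ≥0∞)))
    (u : Fin 4 ⊕ Fin 4 → ℤ) (T : Finset (Fin 4 ⊕ Fin 4)) (hT : T.card = 4) (s t : ℤ) (hst : s ≠ t)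
    (hu : ∀ i, u i = if i ∈ T then s else t) :
    HasLoad (ν.map (lin u)) (fun _ => 1) := by
  have h4 : Fintype.card (Fin 4) = 4 := Fintype.card_fin 4
  refine (h3 u (fun σ _ => ENNReal.ofReal (G8_F2
    ((Finset.univ.filter (fun i : Fin 4 => σ (Sum.inl i) ∈ T)).card)
    ((Finset.univ.filter (fun i : Fin 4 => σ (Sum.inr i) ∈ T)).card)))
    (fun _ => measurable_const) (fun σ => ?_)).mono (fun z => G8_avg T G8_F2 ?_ ?_)
  · have hc := G8_cards T σ
    rw [hT] at hc
    have hwl : ∀ i, (u ∘ σ) (Sum.inl i) =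
        if i ∈ Finset.univ.filter (fun i : Fin 4 => σ (Sum.inl i) ∈ T) then s else t := by
      intro i
      rw [Function.comp, hu]
      simp
    have hwr : ∀ i, (u ∘ σ) (Sum.inr i) =
        if i ∈ Finset.univ.filter (fun i : Fin 4 => σ (Sum.inr i) ∈ T) then s else t := by
      intro i
      rw [Function.comp, hu]
      simp
    have hR : ∀ (A : Finset (Fin 4)) (w : Fin 4 → ℤ), A.card = 2 → (∀ i, w i = if i ∈ A then s else t) →
        ty w = Ty.R := by
      intro A w hA hw
      have hiff : ∀ i, (decide (w i = s) = true) ↔ i ∈ A := by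
        intro i
        rw [decide_eq_true_iff, hw]
        by_cases hi : i ∈ A
        · simp [hi]
        · simp [hi, hst.symm]
      have h5 := tyc_eq_ty (by rw [h4]; norm_num) w (fun v => decide (v = s)) (by
        intro i j hij
        have h6 := hiff i
        have h7 := hiff j
        rw [hw, hw]
        have h8 : (i ∈ A) ↔ (j ∈ A) := by
          rw [← h6, ← h7]
          rw [hij]
        by_cases hi : i ∈ A
        · rw [if_pos hi, if_pos (h8.1 hi)]
        · rw [if_neg hi, if_neg (fun h => hi (h8.2 h))])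
      have h9 : (Finset.univ.filter (fun i => decide (w i = s) = true)) = A := by
        ext i
        rw [Finset.mem_filter]
        simpa using hiff i
      rw [h9, h4, hA] at h5
      rw [← h5]
      simp [tyc]
    generalize hSL : (Finset.univ.filter (fun i : Fin 4 => σ (Sum.inl i) ∈ T)) = SL at *
    generalize hSR : (Finset.univ.filter (fun i : Fin 4 => σ (Sum.inr i) ∈ T)) = SR at *
    have hj4 : SL.card ≤ 4 := by omega
    have hcases : SL.card = 4 ∨ SL.card = 0 ∨ SL.card = 3 ∨ SL.card = 1 ∨ SL.card = 2 := by omega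
    rcases hcases with h | h | h | h | h
    · have e1 : SL = Finset.univ := Finset.eq_univ_of_card _ (by rw [h, h4])
      have e2 : SR = ∅ := Finset.card_eq_zero.1 (by omega)
      have := G8_const hb s t hst (u ∘ σ) (fun i => by rw [hwl, e1]; simp)
        (fun i => by rw [hwr, e2]; simp)
      simpa [h, G8_F2] using this
    · have e1 : SL = ∅ := Finset.card_eq_zero.1 h
      have e2 : SR = Finset.univ := Finset.eq_univ_of_card _ (by rw [h4]; omega)
      have := G8_const hb t s hst.symm (u ∘ σ) (fun i => by rw [hwl, e1]; simp)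
        (fun i => by rw [hwr, e2]; simp)
      simpa [h, G8_F2] using this
    · have hcl : SLᶜ.card = 1 := by rw [Finset.card_compl, h, h4]
      obtain ⟨a, ha⟩ := Finset.card_eq_one.1 hcl
      obtain ⟨b, hb'⟩ := Finset.card_eq_one.1 (show SR.card = 1 by omega)
      have hl : ∀ i, (u ∘ σ) (Sum.inl i) = if i = a then t else s := by
        intro i
        have h6 : i ∈ SLᶜ ↔ i = a := by rw [ha, Finset.mem_singleton]
        rw [Finset.mem_compl] at h6
        rw [hwl]
        by_cases hi : i ∈ SL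
        · rw [if_pos hi, if_neg (fun h7 => (h6.2 h7) hi)]
        · rw [if_neg hi, if_pos (h6.1 hi)]
      have hr : ∀ i, (u ∘ σ) (Sum.inr i) = if i = b then s else t := by
        intro i
        rw [hwr, hb']
        simp
      have := G8_three hb s t hst (u ∘ σ) a b hl hr
      simpa [h, G8_F2] using this
    · have hcl : SRᶜ.card = 1 := by
        rw [Finset.card_compl, h4]
        omega
      obtain ⟨b, hb'⟩ := Finset.card_eq_one.1 hcl
      obtain ⟨a, ha⟩ := Finset.card_eq_one.1 h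
      have hr : ∀ i, (u ∘ σ) (Sum.inr i) = if i = b then t else s := by
        intro i
        have h6 : i ∈ SRᶜ ↔ i = b := by rw [hb', Finset.mem_singleton]
        rw [Finset.mem_compl] at h6
        rw [hwr]
        by_cases hi : i ∈ SR
        · rw [if_pos hi, if_neg (fun h7 => (h6.2 h7) hi)]
        · rw [if_neg hi, if_pos (h6.1 hi)]
      have hl : ∀ i, (u ∘ σ) (Sum.inl i) = if i = a then s else t := by
        intro i
        rw [hwl, ha]
        simp
      have := G8_three hb t s hst.symm (u ∘ σ) a b hl hr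
      simpa [h, G8_F2] using this
    · have eL := hR SL (fun i => (u ∘ σ) (Sum.inl i)) h hwl
      have eR := hR SR (fun i => (u ∘ σ) (Sum.inr i)) (by omega) hwr
      have := G8_types hb (u ∘ σ) Ty.R Ty.R eL eR (by simp)
      simpa [h, G8_F2, G8_G] using this
  · intro a b
    simp only [G8_F2]
    split_ifs <;> norm_num
  · rw [hT]
    norm_num [Finset.sum_range_succ, Nat.choose, G8_F2]

/-- a selected set with four elements is a level if no selection has size 2 or 3 -/
theorem G8_level (u : Fin 4 ⊕ Fin 4 → ℤ) (hno : ∀ P, ¬ (G8_num u P = 2 ∨ G8_num u P = 3))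
    (P : ℤ → Bool) (hP : G8_num u P = 4) (x y : Fin 4 ⊕ Fin 4) (hx : P (u x) = true)
    (hy : P (u y) = true) : u x = u y := by
  by_contra hne
  have h1 := hno (fun v => P v && decide (v = u x))
  have h2 := hno (fun v => P v && !decide (v = u x))
  have h3 : G8_num u (fun v => P v && decide (v = u x)) +
      G8_num u (fun v => P v && !decide (v = u x)) = G8_num u P := by
    unfold G8_num
    rw [← Finset.card_union_of_disjoint]
    · congr 1
      ext i
      simp only [Finset.mem_union, Finset.mem_filter, Finset.mem_univ, true_and, Bool.and_eq_true,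
        decide_eq_true_eq, Bool.not_eq_true', decide_eq_false_iff_not]
      tauto
    · rw [Finset.disjoint_filter]
      intro i _ h5 h6
      simp only [Bool.and_eq_true, decide_eq_true_eq, Bool.not_eq_true',
        decide_eq_false_iff_not] at h5 h6
      exact h6.2 h5.2
  have h4 : 0 < G8_num u (fun v => P v && decide (v = u x)) := by
    refine Finset.card_pos.2 ⟨x, ?_⟩
    simp [hx]
  have h5 : 0 < G8_num u (fun v => P v && !decide (v = u x)) := by
    refine Finset.card_pos.2 ⟨y, ?_⟩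
    have : ¬ (u y = u x) := fun h => hne h.symm
    simp [hy, this]
  omega

theorem G8_sprof_meas : Measurable (fun p : ℝ × ℝ => sprof p.1 p.2) := by
  unfold sprof
  refine Measurable.ite (measurableSet_le (by fun_prop) (by fun_prop)) ?_ measurable_const
  refine Measurable.ite (measurableSet_le (by fun_prop) (by fun_prop)) ?_ ?_
  · exact (measurable_const.add measurable_fst).ennreal_ofReal
  · exact (measurable_const.sub measurable_fst).ennreal_ofReal

theorem G8_sprof_add (a z : ℝ) (ha : |a| ≤ 1) : sprof a z + sprof (-a) z ≤ 2 := by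
  have h1 := abs_le.1 ha
  unfold sprof
  split_ifs
  · rw [← ENNReal.ofReal_add (by linarith) (by linarith)]
    refine le_of_eq ?_
    rw [show 1 + a + (1 + -a) = (2 : ℝ) by ring]
    norm_num
  · rw [← ENNReal.ofReal_add (by linarith) (by linarith)]
    refine le_of_eq ?_
    rw [show 1 - a + (1 - -a) = (2 : ℝ) by ring]
    norm_num
  · simp

omit [IsMarkovKernel κ] in
theorem G8_coord (hb : Blk κ (3 / 10) P4 n4) (ν : Measure (Fin 4 ⊕ Fin 4 → ℝ))
    (h1 : ∀ (f : Fin 4 → ℝ → ℝ → ℝ≥0∞) (g : Fin 4 → ℝ → ℝ → ℝ≥0∞),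
        (∀ i, Measurable (Function.uncurry (f i))) → (∀ i, Measurable (Function.uncurry (g i))) →
        (∀ i, ∀ᵐ r ∂(unif (29 / 100)), HasLoad ((G8_k κ (0, r)).map (fun y => y i)) (f i r)) →
        (∀ i, ∀ᵐ r ∂(unif (29 / 100)), HasLoad ((G8_e κ (0, r)).map (fun y => y i)) (g i r)) →
        ∀ i : Fin 4 ⊕ Fin 4, HasLoad (ν.map (fun y => y i)) (fun z =>
          ((∑ j, ∫⁻ r, f j r z ∂(unif (29 / 100))) + ∑ j, ∫⁻ r, g j r z ∂(unif (29 / 100))) /
            (Fintype.card (Fin 4 ⊕ Fin 4) : ℝ≥0∞))) (i : Fin 4 ⊕ Fin 4) :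
    HasLoad (ν.map (fun y => y i)) (fun _ => 1) := by
  have hpr := unif_prob (h := 29 / 100) (by norm_num)
  have hcard : (Fintype.card (Fin 4) : ℝ) = 4 := by simp
  have h2 := h1 (fun _ r z => sprof (r / 2) z) (fun _ r z => sprof (-(r / 2)) z)
    (fun _ => G8_sprof_meas.comp (f := fun p : ℝ × ℝ => (p.1 / 2, p.2)) (by fun_prop))
    (fun _ => G8_sprof_meas.comp (f := fun p : ℝ × ℝ => (-(p.1 / 2), p.2)) (by fun_prop))
    (fun i => by
      filter_upwards [G8_unif_ae] with r hr
      have h3 := hb.single r hr i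
      rw [hcard] at h3
      rw [G8_k_apply]
      convert h3 using 2
      ring)
    (fun i => by
      filter_upwards [G8_unif_ae] with r hr
      have h3 := hb.single (-r) (by rwa [abs_neg]) i
      rw [hcard] at h3
      rw [G8_e_apply]
      convert h3 using 2
      ring) i
  refine h2.mono fun z => ?_
  have hI : ∫⁻ r, sprof (r / 2) z ∂(unif (29 / 100)) + ∫⁻ r, sprof (-(r / 2)) z ∂(unif (29 / 100)) ≤ 2 := by
    have hm : Measurable (fun r : ℝ => sprof (r / 2) z) :=
      G8_sprof_meas.comp (f := fun r : ℝ => (r / 2, z)) (by fun_prop)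
    rw [← lintegral_add_left hm]
    calc ∫⁻ r, (sprof (r / 2) z + sprof (-(r / 2)) z) ∂(unif (29 / 100))
        ≤ ∫⁻ _, 2 ∂(unif (29 / 100)) := by
          refine lintegral_mono_ae ?_
          filter_upwards [G8_unif_ae] with r hr
          refine G8_sprof_add _ _ ?_
          rw [abs_div, abs_two]
          linarith
      _ = 2 := by simp
  simp only [Finset.sum_const, Finset.card_univ, Fintype.card_sum, Fintype.card_fin, nsmul_eq_mul]
  rw [← mul_add]
  refine ENNReal.div_le_of_le_mul ?_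
  calc ((4 : ℕ) : ℝ≥0∞) * (∫⁻ r, sprof (r / 2) z ∂(unif (29 / 100)) +
        ∫⁻ r, sprof (-(r / 2)) z ∂(unif (29 / 100))) ≤ ((4 : ℕ) : ℝ≥0∞) * 2 := mul_le_mul_right hI _
    _ = 1 * ((4 + 4 : ℕ) : ℝ≥0∞) := by
      rw [one_mul]
      norm_num

theorem G8_aff (ν : Measure (Fin 4 ⊕ Fin 4 → ℝ)) (hs : Supp ν 0)
    (h1 : ∀ i, HasLoad (ν.map (fun y => y i)) (fun _ => 1)) (u : Fin 4 ⊕ Fin 4 → ℤ)
    (hu : ∃ i j, u i ≠ u j) (ha : AffSingle u) : HasLoad (ν.map (lin u)) (fun _ => 1) := by
  obtain ⟨a, t, hat⟩ := ha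
  have hc : u a - t ≠ 0 := by
    intro h0
    have h2 : ∀ i, u i = t := by
      intro i
      by_cases hi : i = a
      · rw [hi]
        omega
      · exact hat i hi
    obtain ⟨i, j, hij⟩ := hu
    exact hij (by rw [h2, h2])
  have hc' : ((u a - t : ℤ) : ℝ) ≠ 0 := by exact_mod_cast hc
  have hmap : ν.map (lin u) = (ν.map (fun y => y a)).map (fun z => ((u a - t : ℤ) : ℝ) * z) := by
    rw [Measure.map_map (by fun_prop) (by fun_prop)]
    refine Measure.map_congr ?_
    filter_upwards [hs] with y hy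
    have h2 : lin u y = ∑ i, ((t : ℝ) * y i + if i = a then ((u a - t : ℤ) : ℝ) * y i else 0) := by
      unfold lin
      refine Finset.sum_congr rfl fun i _ => ?_
      by_cases hi : i = a
      · rw [if_pos hi, hi]
        push_cast
        ring
      · rw [if_neg hi, hat i hi]
        ring
    rw [h2, Finset.sum_add_distrib, ← Finset.mul_sum, hy.2, Finset.sum_ite_eq' Finset.univ a]
    simp
  rw [hmap]
  refine ((h1 a).scale measurable_const _ hc').mono fun z => ?_
  rw [mul_one, ← ENNReal.ofReal_one]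
  refine ENNReal.ofReal_le_ofReal ?_
  have h2 : (1 : ℝ) ≤ |((u a - t : ℤ) : ℝ)| := by
    have h3 : 1 ≤ |u a - t| := Int.one_le_abs hc
    rw [← Int.cast_abs]
    exact_mod_cast h3
  rw [div_le_one (by linarith)]
  exact h2

end

theorem law_eight : LawOK (Fin 8) := by
  obtain ⟨κ, hκ, hb⟩ := block_four
  have hpr := unif_prob (h := 29 / 100) (by norm_num)
  obtain ⟨ζ, hζ, hX⟩ := exists_two (G8_k κ) (G8_e κ) (unif (29 / 100))
  obtain ⟨hs, h1, h3⟩ := hX 0
  have hs0 : Supp (ζ 0) 0 := hs (fun r => r) (fun r => -r) (by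
    filter_upwards [G8_unif_ae] with r hr
    rw [G8_k_apply, G8_e_apply]
    exact ⟨hb.supp r hr, hb.supp (-r) (by rwa [abs_neg]), by ring⟩)
  refine LawOK.equiv (finSumFinEquiv : Fin 4 ⊕ Fin 4 ≃ Fin 8) ⟨ζ 0, hζ.isProbabilityMeasure 0, hs0, ?_⟩
  intro u hu
  by_cases ha : AffSingle u
  · exact G8_aff (ζ 0) hs0 (fun i => G8_coord hb (ζ 0) h1 i) u hu ha
  · by_cases hP : ∃ P, G8_num u P = 2 ∨ G8_num u P = 3
    · obtain ⟨P, hP⟩ := hP
      exact G8_rich1 hb (ζ 0) h3 u P hP
    · push Not at hP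
      have hno : ∀ P, ¬ (G8_num u P = 2 ∨ G8_num u P = 3) := fun P h => by
        have := hP P
        omega
      obtain ⟨P, h2, h2'⟩ := exists_half_levels (by simp) u ha
      have h8 : Fintype.card (Fin 4 ⊕ Fin 4) = 8 := by simp
      rw [h8] at h2'
      have h4 : G8_num u P = 4 := by
        have := hno P
        have e1 : G8_num u P = (Finset.univ.filter (fun i => P (u i) = true)).card := rfl
        omega
      have h4' : G8_num u (fun v => !P v) = 4 := by
        have e1 : (Finset.univ.filter (fun i => (!P (u i)) = true)) =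
            (Finset.univ.filter (fun i => P (u i) = true))ᶜ := by
          ext i
          simp
        unfold G8_num at h4 ⊢
        rw [e1, Finset.card_compl, h8, h4]
      obtain ⟨x, hx⟩ := Finset.card_pos.1 (show 0 < G8_num u P by omega)
      obtain ⟨y, hy⟩ := Finset.card_pos.1 (show 0 < G8_num u (fun v => !P v) by omega)
      have hx' : P (u x) = true := by simpa using hx
      have hy' : (!P (u y)) = true := by simpa using hy
      have hne : u x ≠ u y := by
        intro h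
        rw [h] at hx'
        rw [hx'] at hy'
        simp at hy'
      refine G8_rich2 hb (ζ 0) h3 u (Finset.univ.filter (fun i => P (u i) = true)) h4 (u x) (u y) hne ?_
      intro i
      by_cases hi : P (u i) = true
      · rw [if_pos (by simpa using hi)]
        exact G8_level u hno P h4 i x hi hx'
      · rw [if_neg (by simpa using hi)]
        exact G8_level u hno (fun v => !P v) h4' i y (by simpa using hi) hy'

end Pool.Agent.helper49.Slope
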