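import Pool.Agent.helper49.Slope.G10b
import Pool.Agent.helper49.Slope.E8
import Pool.Agent.helper49.Slope.F3
import Pool.Agent.helper49.Slope.F4

/-!
MP_aedd95_co (slope of k-fold hyperplane covers of triangular grids), module G10.
The family with 10 elements, blocks (3,3,4).

PROOF. `three_kernel` with `κ = η` from `block_three`, `θ` from `block_four`, `pi10`, `x10a`, `x10b`,
`x10c`. For a rich `u` and a permutation `σ` let `a, b, c` be the types of the three restrictions
of `u ∘ σ`. If they are not all `C`, `g10_bound` shows that the law of `u ∘ σ` has load at most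
`G10 0 (1003/1000) a b c = G10 K (1003/1000) a b c`. Cases of `levels_ten` (`T` = selected set,
`t = |T|`, `j, l, r = t - j - l` the numbers of elements of `T` in the blocks, which give types of
rank at most those of `a, b, c`, `tyc_le_ty`):
1. `t = 2` or `t = 5`: no `(j,l,r)` has `tyc 3 j = tyc 3 l = tyc 4 r = C` with `j+l+r = t`; so
   `F σ = G10 (1069/1000) (1003/1000) (tyc 3 j) (tyc 3 l) (tyc 4 r)` by `G10_mono`; sums `S10_2`,
   `S10_5` (`sum_perm_three`).
2. two-valued, `t = 3` or `4`, `T = {u = a}`: now `a = tyc 3 j` etc. (`tyc_eq_ty`). Types not all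
   `C`: `G10 K (8705/10000)` by `g10_bound`, and `g10_bound_SSS` for `SSS`. All `C`: for `t = 3`
   only `(3,0,0)`, `(0,3,0)`: `g10_closure`, bound 5; for `t = 4` only `(0,0,4)`: `g10_closure'`,
   bound `50/3`. Sums `S10_3`, `S10_4`.
3. `T = {u = a}`, `t = 3`, and one value `b` is taken exactly once: then `u ∘ σ` is never constant
   on all three blocks (each block has at least 3 elements), so the load is at most
   `G10 0 (1003/1000) a b c ≤ G10 (1069/1000) (1003/1000) (tyc 3 j) (tyc 3 l) (tyc 4 r)`; `S10_3'`.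
4. level sizes 3, 3, 4, `T = {u = c}`, `t = 4`: if `a, b, c` are all `C` then the constants on the
   two 3-blocks are different or the 4-block... : the 4-block is constant, so its value is `c`
   (only level of size ≥ 4), the two 3-blocks carry the values `a ≠ b`: `g10_closure`, bound 5.
   Otherwise `G10 0 (1003/1000) a b c ≤ G10 5 (1003/1000) (tyc …)`. `S10_4'`.
-/

set_option autoImplicit false

open MeasureTheory ProbabilityTheory
open scoped ENNReal

namespace Pool.Agent.helper49.Slope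

/-- elements selected by the values, block by block -/
theorem G10_card (u : (Fin 3 ⊕ Fin 3) ⊕ Fin 4 → ℤ) (σ : Equiv.Perm ((Fin 3 ⊕ Fin 3) ⊕ Fin 4))
    (P : ℤ → Bool) :
    (Finset.univ.filter (fun i : Fin 3 => P (u (σ (Sum.inl (Sum.inl i)))) = true)).card +
    (Finset.univ.filter (fun i : Fin 3 => P (u (σ (Sum.inl (Sum.inr i)))) = true)).card +
    (Finset.univ.filter (fun i : Fin 4 => P (u (σ (Sum.inr i))) = true)).card =
    (Finset.univ.filter (fun i => P (u i) = true)).card := by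
  simp only [Finset.card_filter]
  rw [← Equiv.sum_comp σ (fun i => if P (u i) = true then 1 else 0), Fintype.sum_sum_type,
    Fintype.sum_sum_type]

theorem G10_const {m : ℕ} (v : Fin m → ℤ) (p : ℤ) (h : ∀ i, v i = p) (P : ℤ → Bool) :
    (Finset.univ.filter (fun i : Fin m => P (v i) = true)).card
      = if P p = true then m else 0 := by
  simp only [h]
  split_ifs with h1 <;> simp [h1]

theorem G10_tyC {m : ℕ} (v : Fin m → ℤ) (h : ty v = Ty.C) (hm : 0 < m) : ∃ p, ∀ i, v i = p :=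
  ⟨v ⟨0, hm⟩, fun _ => (ty_eq_C v).1 h _ _⟩

theorem G10_pos {K s : ℝ} (hK : 0 ≤ K) (hs : 0 ≤ s) (a b c : Ty) : 0 ≤ G10 K s a b c := by
  unfold G10
  split_ifs <;> first | assumption | norm_num

/-- the table only depends on `K` at the type `(C,C,C)` and on `s` at `(≠C, ≠C, S)` -/
theorem G10_eq (K : ℝ) (a b c : Ty) (h : ¬ (a = Ty.C ∧ b = Ty.C ∧ c = Ty.C)) :
    G10 0 (1003 / 1000) a b c = G10 K (1003 / 1000) a b c := by
  revert h
  cases a <;> cases b <;> cases c <;> simp [G10]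

theorem G10_eq' (K s : ℝ) (a b c : Ty) (h : ¬ (a = Ty.C ∧ b = Ty.C ∧ c = Ty.C))
    (h' : ¬ (a = Ty.S ∧ b = Ty.S ∧ c = Ty.S)) (ha : a ≠ Ty.R) (hb : b ≠ Ty.R) :
    G10 0 (1003 / 1000) a b c = G10 K s a b c := by
  revert h h' ha hb
  cases a <;> cases b <;> cases c <;> simp [G10]

/-- what has to be checked for a form (after a permutation) -/
def G10_cl (κ : Kernel ℝ (Fin 3 → ℝ)) (θ : Kernel ℝ (Fin 4 → ℝ)) (X : ℝ)
    (v : (Fin 3 ⊕ Fin 3) ⊕ Fin 4 → ℤ) (f : ℝ) : Prop :=
  (∃ g : ℝ × ℝ → ℝ, Measurable g ∧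
    (∀ᵐ ξ ∂pi10, HasLoad (cnv (cnv
      ((κ (x10a X ξ)).map (lin (fun i => v (Sum.inl (Sum.inl i)))))
      ((κ (x10b X ξ)).map (lin (fun i => v (Sum.inl (Sum.inr i))))))
      ((θ (x10c X ξ)).map (lin (fun i => v (Sum.inr i)))))
      (fun _ => ENNReal.ofReal (g ξ))) ∧
    ∫⁻ ξ, ENNReal.ofReal (g ξ) ∂pi10 ≤ ENNReal.ofReal f) ∨
  (∃ p q s : ℤ, (∀ i, v (Sum.inl (Sum.inl i)) = p) ∧
    (∀ i, v (Sum.inl (Sum.inr i)) = q) ∧ (∀ i, v (Sum.inr i) = s) ∧
    HasLoad (pi10.map (fun ξ => (p : ℝ) * x10a X ξ + q * x10b X ξ + s * x10c X ξ))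
      (fun _ => ENNReal.ofReal f))

theorem G10_cl_of {κ : Kernel ℝ (Fin 3 → ℝ)} {θ : Kernel ℝ (Fin 4 → ℝ)} [IsMarkovKernel κ]
    [IsMarkovKernel θ] (b3 : Blk κ (8 / 25) P3 P3) (b4 : Blk θ (3 / 10) P4 n4) (X : ℝ)
    (hX : |X| ≤ 1 / 20) (v : (Fin 3 ⊕ Fin 3) ⊕ Fin 4 → ℤ) (f : ℝ)
    (h : ¬ (ty (fun i => v (Sum.inl (Sum.inl i))) = Ty.C ∧
      ty (fun i => v (Sum.inl (Sum.inr i))) = Ty.C ∧ ty (fun i => v (Sum.inr i)) = Ty.C))
    (hf : G10 0 (1003 / 1000) (ty (fun i => v (Sum.inl (Sum.inl i))))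
      (ty (fun i => v (Sum.inl (Sum.inr i)))) (ty (fun i => v (Sum.inr i))) ≤ f) :
    G10_cl κ θ X v f := by
  obtain ⟨g, hg, hae, hint⟩ := g10_bound b3 b4 X hX _ _ _ h
  exact Or.inl ⟨g, hg, hae.mono (fun ξ hξ => hξ _ _ _ rfl rfl rfl),
    hint.trans (ENNReal.ofReal_le_ofReal hf)⟩

theorem G10_cl_SSS {κ : Kernel ℝ (Fin 3 → ℝ)} {θ : Kernel ℝ (Fin 4 → ℝ)} [IsMarkovKernel κ]
    [IsMarkovKernel θ] (b3 : Blk κ (8 / 25) P3 P3) (b4 : Blk θ (3 / 10) P4 n4) (X : ℝ)
    (hX : |X| ≤ 1 / 20) (v : (Fin 3 ⊕ Fin 3) ⊕ Fin 4 → ℤ) (f : ℝ)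
    (h : ty (fun i => v (Sum.inl (Sum.inl i))) = Ty.S ∧
      ty (fun i => v (Sum.inl (Sum.inr i))) = Ty.S ∧ ty (fun i => v (Sum.inr i)) = Ty.S)
    (hf : 8705 / 10000 ≤ f) :
    G10_cl κ θ X v f := by
  obtain ⟨g, hg, hae, hint⟩ := g10_bound_SSS b3 b4 X hX
  exact Or.inl ⟨g, hg, hae.mono (fun ξ hξ => hξ _ _ _ h.1 h.2.1 h.2.2),
    hint.trans (ENNReal.ofReal_le_ofReal hf)⟩

theorem G10_cl_C (κ : Kernel ℝ (Fin 3 → ℝ)) (θ : Kernel ℝ (Fin 4 → ℝ)) (X : ℝ)
    (v : (Fin 3 ⊕ Fin 3) ⊕ Fin 4 → ℤ) (f : ℝ) (p q s : ℤ) (hp : ∀ i, v (Sum.inl (Sum.inl i)) = p)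
    (hq : ∀ i, v (Sum.inl (Sum.inr i)) = q) (hs : ∀ i, v (Sum.inr i) = s) (hpq : p ≠ q)
    (hf : 5 ≤ f) : G10_cl κ θ X v f :=
  Or.inr ⟨p, q, s, hp, hq, hs, (g10_closure X p q s hpq).mono
    (fun _ => ENNReal.ofReal_le_ofReal hf)⟩

theorem G10_cl_C' (κ : Kernel ℝ (Fin 3 → ℝ)) (θ : Kernel ℝ (Fin 4 → ℝ)) (X : ℝ)
    (v : (Fin 3 ⊕ Fin 3) ⊕ Fin 4 → ℤ) (f : ℝ) (p q s : ℤ) (hp : ∀ i, v (Sum.inl (Sum.inl i)) = p)
    (hq : ∀ i, v (Sum.inl (Sum.inr i)) = q) (hs : ∀ i, v (Sum.inr i) = s)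
    (hpq : ¬ (p = q ∧ q = s)) (hf : 50 / 3 ≤ f) : G10_cl κ θ X v f :=
  Or.inr ⟨p, q, s, hp, hq, hs, (g10_closure' X p q s hpq).mono
    (fun _ => ENNReal.ofReal_le_ofReal hf)⟩

/-- average over the permutations -/
theorem G10_sum (u : (Fin 3 ⊕ Fin 3) ⊕ Fin 4 → ℤ) (P : ℤ → Bool) (K s : ℝ) (t : ℕ)
    (ht : (Finset.univ.filter (fun i => P (u i) = true)).card = t) (ht10 : t ≤ 10)
    (hS : S10 K s t ≤ ((10 : ℕ).choose t : ℝ)) :
    ENNReal.ofReal ((∑ σ : Equiv.Perm ((Fin 3 ⊕ Fin 3) ⊕ Fin 4),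
      G10 K s
        (tyc 3 (Finset.univ.filter (fun i : Fin 3 =>
          P (u (σ (Sum.inl (Sum.inl i)))) = true)).card)
        (tyc 3 (Finset.univ.filter (fun i : Fin 3 =>
          P (u (σ (Sum.inl (Sum.inr i)))) = true)).card)
        (tyc 4 (Finset.univ.filter (fun i : Fin 4 =>
          P (u (σ (Sum.inr i))) = true)).card))
      / ((Fintype.card ((Fin 3 ⊕ Fin 3) ⊕ Fin 4)).factorial : ℝ)) ≤ 1 := by
  classical
  have h := sum_perm_three (α := Fin 3) (β := Fin 3) (γ := Fin 4)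
    (Finset.univ.filter (fun i => P (u i) = true))
    (fun j l r => G10 K s (tyc 3 j) (tyc 3 l) (tyc 4 r))
  simp only [Finset.mem_filter, Finset.mem_univ, true_and] at h
  have hc : Fintype.card ((Fin 3 ⊕ Fin 3) ⊕ Fin 4) = 10 := by simp
  have h3 : Fintype.card (Fin 3) = 3 := by simp
  have h4 : Fintype.card (Fin 4) = 4 := by simp
  rw [ht, hc, h3, h4] at h
  rw [hc, ← ENNReal.ofReal_one]
  apply ENNReal.ofReal_le_ofReal
  have hch : (0 : ℝ) < ((10 : ℕ).choose t : ℝ) := by
    exact_mod_cast Nat.choose_pos ht10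
  have hfac : (0 : ℝ) < ((10 : ℕ).factorial : ℝ) := by exact_mod_cast Nat.factorial_pos 10
  rw [div_le_one hfac]
  refine (le_of_eq ?_).trans ((div_le_iff₀ hch).2 (mul_le_mul_of_nonneg_left hS hfac.le))
  rw [S10]
  convert h using 1

theorem fam_ten : Fam ((Fin 3 ⊕ Fin 3) ⊕ Fin 4) (1 / 20) := by
  classical
  obtain ⟨κ, hκ, b3⟩ := block_three
  obtain ⟨θ, hθ, b4⟩ := block_four
  have hpi := pi10_prob
  have hmess : Measurable (Function.uncurry x10a) ∧ Measurable (Function.uncurry x10b) ∧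
      Measurable (Function.uncurry x10c) := by
    refine ⟨?_, ?_, ?_⟩
    · unfold Function.uncurry x10a
      fun_prop
    · unfold Function.uncurry x10b
      fun_prop
    · unfold Function.uncurry x10c
      fun_prop
  obtain ⟨ζ, hζ, hmain⟩ := three_kernel (α := Fin 3) (β := Fin 3) (γ := Fin 4) (by simp) (by simp)
    (by simp) κ κ θ b3 b3 b4 (by norm_num) (by norm_num) (by norm_num) pi10 x10a x10b x10c
    hmess.1 hmess.2.1 hmess.2.2 (h0 := 1 / 20)
    (by intro X ξ; unfold x10a x10b x10c; ring)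
    (by
      intro X hX
      filter_upwards [x10_ae X hX] with ξ hξ
      exact ⟨hξ.1.trans (by norm_num), hξ.2.1.trans (by norm_num), hξ.2.2.trans (by norm_num)⟩)
  refine ⟨ζ, hζ, fun X hX => ?_⟩
  obtain ⟨hsupp, hsing, hform⟩ := hmain X hX
  refine ⟨hsupp, hsing, fun u hu => ?_⟩
  -- it is enough to find the selection
  have key : ∀ (P : ℤ → Bool) (K s : ℝ) (t : ℕ), 0 ≤ K → 0 ≤ s →
      (Finset.univ.filter (fun i => P (u i) = true)).card = t → t ≤ 10 →
      S10 K s t ≤ ((10 : ℕ).choose t : ℝ) →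
      (∀ σ : Equiv.Perm ((Fin 3 ⊕ Fin 3) ⊕ Fin 4), G10_cl κ θ X (fun i => u (σ i)) (G10 K s
        (tyc 3 (Finset.univ.filter (fun i : Fin 3 =>
          P (u (σ (Sum.inl (Sum.inl i)))) = true)).card)
        (tyc 3 (Finset.univ.filter (fun i : Fin 3 =>
          P (u (σ (Sum.inl (Sum.inr i)))) = true)).card)
        (tyc 4 (Finset.univ.filter (fun i : Fin 4 =>
          P (u (σ (Sum.inr i))) = true)).card))) →
      HasLoad ((ζ X).map (lin u)) (fun _ => 1) := by
    intro P K s t hK hs ht ht10 hS hcl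
    exact (hform u _ (fun σ => G10_pos hK hs _ _ _) hcl).mono
      (fun _ => G10_sum u P K s t ht ht10 hS)
  -- the domination
  have dom3 : ∀ (P : ℤ → Bool) (v : Fin 3 → ℤ),
      (tyc 3 (Finset.univ.filter (fun i => P (v i) = true)).card).rk ≤ (ty v).rk := by
    intro P v
    have := tyc_le_ty v P
    simpa using this
  have dom4 : ∀ (P : ℤ → Bool) (v : Fin 4 → ℤ),
      (tyc 4 (Finset.univ.filter (fun i => P (v i) = true)).card).rk ≤ (ty v).rk := by
    intro P v
    have := tyc_le_ty v P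
    simpa using this
  -- clause for forms that are not constant on all blocks
  have cl1 : ∀ (P : ℤ → Bool) (K : ℝ), 1069 / 1000 ≤ K →
      ∀ σ : Equiv.Perm ((Fin 3 ⊕ Fin 3) ⊕ Fin 4),
      ¬ (ty (fun i => u (σ (Sum.inl (Sum.inl i)))) = Ty.C ∧
        ty (fun i => u (σ (Sum.inl (Sum.inr i)))) = Ty.C ∧
        ty (fun i => u (σ (Sum.inr i))) = Ty.C) →
      G10_cl κ θ X (fun i => u (σ i)) (G10 K (1003 / 1000)
        (tyc 3 (Finset.univ.filter (fun i : Fin 3 =>
          P (u (σ (Sum.inl (Sum.inl i)))) = true)).card)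
        (tyc 3 (Finset.univ.filter (fun i : Fin 3 =>
          P (u (σ (Sum.inl (Sum.inr i)))) = true)).card)
        (tyc 4 (Finset.univ.filter (fun i : Fin 4 =>
          P (u (σ (Sum.inr i))) = true)).card)) := by
    intro P K hK σ hσ
    apply G10_cl_of b3 b4 X hX _ _ hσ
    rw [G10_eq K _ _ _ hσ]
    exact G10_mono K hK _ _ _ _ _ _ (dom3 P _) (dom3 P _) (dom4 P _)
  -- counting for constant blocks
  have cnt1 : ∀ (σ : Equiv.Perm ((Fin 3 ⊕ Fin 3) ⊕ Fin 4)) (p q s : ℤ),
      (∀ i, u (σ (Sum.inl (Sum.inl i))) = p) → (∀ i, u (σ (Sum.inl (Sum.inr i))) = q) →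
      (∀ i, u (σ (Sum.inr i)) = s) → ∀ P : ℤ → Bool,
      (Finset.univ.filter (fun i => P (u i) = true)).card =
        (if P p = true then 3 else 0) + (if P q = true then 3 else 0) +
          (if P s = true then 4 else 0) := by
    intro σ p q s hp hq hs P
    rw [← G10_card u σ P, G10_const _ p hp P, G10_const _ q hq P, G10_const _ s hs P]
  have getC : ∀ σ : Equiv.Perm ((Fin 3 ⊕ Fin 3) ⊕ Fin 4),
      (ty (fun i => u (σ (Sum.inl (Sum.inl i)))) = Ty.C ∧
        ty (fun i => u (σ (Sum.inl (Sum.inr i)))) = Ty.C ∧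
        ty (fun i => u (σ (Sum.inr i))) = Ty.C) →
      ∃ p q s : ℤ, (∀ i, u (σ (Sum.inl (Sum.inl i))) = p) ∧
        (∀ i, u (σ (Sum.inl (Sum.inr i))) = q) ∧ (∀ i, u (σ (Sum.inr i)) = s) := by
    rintro σ ⟨h1, h2, h3⟩
    obtain ⟨p, hp⟩ := G10_tyC _ h1 (by norm_num)
    obtain ⟨q, hq⟩ := G10_tyC _ h2 (by norm_num)
    obtain ⟨s, hs⟩ := G10_tyC _ h3 (by norm_num)
    exact ⟨p, q, s, hp, hq, hs⟩
  rcases levels_ten (by simp) u hu with ⟨P, hP⟩ | ⟨a, b, hab, hu2, ht⟩ | ⟨a, b, hab, ha, hb⟩ |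
    ⟨a, b, c, hab, hac, hbc, ha, hb, hc⟩
  · -- a union of levels with 2 or 5 elements
    have hC : ∀ σ : Equiv.Perm ((Fin 3 ⊕ Fin 3) ⊕ Fin 4),
        ¬ (ty (fun i => u (σ (Sum.inl (Sum.inl i)))) = Ty.C ∧
        ty (fun i => u (σ (Sum.inl (Sum.inr i)))) = Ty.C ∧
        ty (fun i => u (σ (Sum.inr i))) = Ty.C) := by
      intro σ hσ
      obtain ⟨p, q, s, hp, hq, hs⟩ := getC σ hσ
      have := cnt1 σ p q s hp hq hs P
      split_ifs at this <;> omega
    rcases hP with hP | hP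
    · refine key P (1069 / 1000) (1003 / 1000) 2 (by norm_num) (by norm_num) hP (by norm_num) ?_
        (fun σ => cl1 P _ le_rfl σ (hC σ))
      refine S10_2.trans ?_
      norm_num [Nat.choose]
    · refine key P (1069 / 1000) (1003 / 1000) 5 (by norm_num) (by norm_num) hP (by norm_num) ?_
        (fun σ => cl1 P _ le_rfl σ (hC σ))
      refine S10_5.trans ?_
      norm_num [Nat.choose]
  · -- two-valued forms
    set P : ℤ → Bool := fun z => decide (z = a) with hPdef
    have hP : ∀ z, P z = true ↔ z = a := fun z => by simp [hPdef]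
    have hfil : (Finset.univ.filter (fun i => P (u i) = true)) =
        (Finset.univ.filter (fun i => u i = a)) := by
      ext i; simp [hP]
    have h2 : ∀ i j, P (u i) = P (u j) → u i = u j := by
      intro i j hij
      rcases hu2 i with h | h <;> rcases hu2 j with h' | h'
      · rw [h, h']
      · rw [h, h'] at hij
        simp [hPdef, hab.symm] at hij
      · rw [h, h'] at hij
        simp [hPdef, hab.symm] at hij
      · rw [h, h']
    have eq3 : ∀ v : Fin 3 → (Fin 3 ⊕ Fin 3) ⊕ Fin 4,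
        tyc 3 (Finset.univ.filter (fun i => P (u (v i)) = true)).card = ty (fun i => u (v i)) := by
      intro v
      have := tyc_eq_ty (by simp) (fun i => u (v i)) P (fun i j => h2 _ _)
      simpa using this
    have eq4 : ∀ v : Fin 4 → (Fin 3 ⊕ Fin 3) ⊕ Fin 4,
        tyc 4 (Finset.univ.filter (fun i => P (u (v i)) = true)).card = ty (fun i => u (v i)) := by
      intro v
      have := tyc_eq_ty (by simp) (fun i => u (v i)) P (fun i j => h2 _ _)
      simpa using this
    have noR : ∀ v : Fin 3 → (Fin 3 ⊕ Fin 3) ⊕ Fin 4, ty (fun i => u (v i)) ≠ Ty.R := by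
      intro v
      rw [← eq3 v]
      have : (Finset.univ.filter (fun i => P (u (v i)) = true)).card ≤ 3 := by
        refine (Finset.card_le_univ _).trans (by simp)
      unfold tyc
      split_ifs with h1 h2
      · simp
      · simp
      · omega
    -- clause for the forms which are not constant on all blocks
    have cl2 : ∀ (K : ℝ) (σ : Equiv.Perm ((Fin 3 ⊕ Fin 3) ⊕ Fin 4)),
        ¬ (ty (fun i => u (σ (Sum.inl (Sum.inl i)))) = Ty.C ∧
          ty (fun i => u (σ (Sum.inl (Sum.inr i)))) = Ty.C ∧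
          ty (fun i => u (σ (Sum.inr i))) = Ty.C) →
        G10_cl κ θ X (fun i => u (σ i)) (G10 K (8705 / 10000)
          (ty (fun i => u (σ (Sum.inl (Sum.inl i)))))
          (ty (fun i => u (σ (Sum.inl (Sum.inr i)))))
          (ty (fun i => u (σ (Sum.inr i))))) := by
      intro K σ hσ
      by_cases hS : (ty (fun i => u (σ (Sum.inl (Sum.inl i)))) = Ty.S ∧
          ty (fun i => u (σ (Sum.inl (Sum.inr i)))) = Ty.S ∧
          ty (fun i => u (σ (Sum.inr i))) = Ty.S)
      · apply G10_cl_SSS b3 b4 X hX _ _ hS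
        rw [hS.1, hS.2.1, hS.2.2]
        simp [G10]
      · apply G10_cl_of b3 b4 X hX _ _ hσ
        rw [G10_eq' K (8705 / 10000) _ _ _ hσ hS (noR _) (noR _)]
    rcases ht with ht | ht
    · rw [← hfil] at ht
      refine key P 5 (8705 / 10000) 3 (by norm_num) (by norm_num) ht (by norm_num) ?_ ?_
      · refine S10_3.trans ?_
        norm_num [Nat.choose]
      · intro σ
        rw [eq3 (fun i => σ (Sum.inl (Sum.inl i))), eq3 (fun i => σ (Sum.inl (Sum.inr i))),
          eq4 (fun i => σ (Sum.inr i))]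
        by_cases hσ : (ty (fun i => u (σ (Sum.inl (Sum.inl i)))) = Ty.C ∧
          ty (fun i => u (σ (Sum.inl (Sum.inr i)))) = Ty.C ∧
          ty (fun i => u (σ (Sum.inr i))) = Ty.C)
        · obtain ⟨p, q, s, hp, hq, hs⟩ := getC σ hσ
          have h3 := cnt1 σ p q s hp hq hs P
          have hpq : p ≠ q := by
            rintro rfl
            split_ifs at h3 <;> omega
          apply G10_cl_C κ θ X _ _ p q s hp hq hs hpq
          rw [hσ.1, hσ.2.1, hσ.2.2]
          simp [G10]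
        · exact cl2 5 σ hσ
    · rw [← hfil] at ht
      refine key P (50 / 3) (8705 / 10000) 4 (by norm_num) (by norm_num) ht (by norm_num) ?_ ?_
      · refine S10_4.trans ?_
        norm_num [Nat.choose]
      · intro σ
        rw [eq3 (fun i => σ (Sum.inl (Sum.inl i))), eq3 (fun i => σ (Sum.inl (Sum.inr i))),
          eq4 (fun i => σ (Sum.inr i))]
        by_cases hσ : (ty (fun i => u (σ (Sum.inl (Sum.inl i)))) = Ty.C ∧
          ty (fun i => u (σ (Sum.inl (Sum.inr i)))) = Ty.C ∧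
          ty (fun i => u (σ (Sum.inr i))) = Ty.C)
        · obtain ⟨p, q, s, hp, hq, hs⟩ := getC σ hσ
          have h3 := cnt1 σ p q s hp hq hs P
          have hpq : ¬ (p = q ∧ q = s) := by
            rintro ⟨rfl, rfl⟩
            split_ifs at h3 <;> omega
          apply G10_cl_C' κ θ X _ _ p q s hp hq hs hpq
          rw [hσ.1, hσ.2.1, hσ.2.2]
          simp [G10]
        · exact cl2 (50 / 3) σ hσ
  · -- a level of size 3 and one of size 1
    set P : ℤ → Bool := fun z => decide (z = a) with hPdef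
    have hfil : (Finset.univ.filter (fun i => P (u i) = true)) =
        (Finset.univ.filter (fun i => u i = a)) := by
      ext i; simp [hPdef]
    rw [← hfil] at ha
    refine key P (1069 / 1000) (1003 / 1000) 3 (by norm_num) (by norm_num) ha (by norm_num) ?_
      (fun σ => cl1 P _ le_rfl σ ?_)
    · refine S10_3'.trans ?_
      norm_num [Nat.choose]
    · intro hσ
      obtain ⟨p, q, s, hp, hq, hs⟩ := getC σ hσ
      have h3 := cnt1 σ p q s hp hq hs (fun z => decide (z = b))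
      have hfil' : (Finset.univ.filter (fun i => (decide (u i = b)) = true)) =
          (Finset.univ.filter (fun i => u i = b)) := by
        ext i; simp
      rw [hfil', hb] at h3
      split_ifs at h3 <;> omega
  · -- level sizes 3, 3, 4
    set P : ℤ → Bool := fun z => decide (z = c) with hPdef
    have hPc : ∀ z, P z = true ↔ z = c := fun z => by simp [hPdef]
    have hfil : (Finset.univ.filter (fun i => P (u i) = true)) =
        (Finset.univ.filter (fun i => u i = c)) := by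
      ext i; simp [hPdef]
    rw [← hfil] at hc
    refine key P 5 (1003 / 1000) 4 (by norm_num) (by norm_num) hc (by norm_num) ?_ ?_
    · refine S10_4'.trans ?_
      norm_num [Nat.choose]
    · intro σ
      by_cases hσ : (ty (fun i => u (σ (Sum.inl (Sum.inl i)))) = Ty.C ∧
          ty (fun i => u (σ (Sum.inl (Sum.inr i)))) = Ty.C ∧
          ty (fun i => u (σ (Sum.inr i))) = Ty.C)
      · obtain ⟨p, q, s, hp, hq, hs⟩ := getC σ hσ
        have h3 := cnt1 σ p q s hp hq hs P
        have h4 := cnt1 σ p q s hp hq hs (fun z => decide (z = a))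
        have hfil' : (Finset.univ.filter (fun i => (decide (u i = a)) = true)) =
            (Finset.univ.filter (fun i => u i = a)) := by
          ext i; simp
        rw [hfil', ha] at h4
        have hpc : ¬ (P p = true) := by
          intro h
          rw [if_pos h] at h3
          split_ifs at h3 <;> omega
        have hqc : ¬ (P q = true) := by
          intro h
          rw [if_pos h] at h3
          split_ifs at h3 <;> omega
        have hsc : P s = true := by
          by_contra h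
          rw [if_neg hpc, if_neg hqc, if_neg h] at h3
          omega
        have hpq : p ≠ q := by
          rintro rfl
          split_ifs at h4 <;> omega
        have hf : (5 : ℝ) ≤ G10 5 (1003 / 1000)
          (tyc 3 (Finset.univ.filter (fun i : Fin 3 =>
            P (u (σ (Sum.inl (Sum.inl i)))) = true)).card)
          (tyc 3 (Finset.univ.filter (fun i : Fin 3 =>
            P (u (σ (Sum.inl (Sum.inr i)))) = true)).card)
          (tyc 4 (Finset.univ.filter (fun i : Fin 4 =>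
            P (u (σ (Sum.inr i))) = true)).card) := by
          rw [G10_const _ p hp P, G10_const _ q hq P, G10_const _ s hs P, if_neg hpc, if_neg hqc,
            if_pos hsc]
          simp [G10, tyc]
        exact G10_cl_C κ θ X _ _ p q s hp hq hs hpq hf
      · exact cl1 P 5 (by norm_num) σ hσ

end Pool.Agent.helper49.Slope
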