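import Pool.Agent.helper49.Slope.G44
import Pool.Agent.helper49.Slope.E4
import Pool.Agent.helper49.Slope.E8
import Pool.Agent.helper49.Slope.F3
import Pool.Agent.helper49.Slope.F4

/-!
MP_aedd95_co (slope of k-fold hyperplane covers of triangular grids), module G11.
The family with 11 elements, blocks (3,4,4).

PROOF. Apply `three_block` to `κ` from `block_three` and twice `block_four`, with
`π = (unif h).prod (unif h)`, `h = 3/25`, `h0 = 1/20`, `xa X ξ = X - ξ.1 - ξ.2`, `xb X ξ = ξ.1`,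
`xc X ξ = ξ.2`, `G = G44` (module G44). Almost surely `|ξ.1|, |ξ.2| ≤ 3/25`, so
`|xa| ≤ ρ := 1/20 + |ξ.1| + |ξ.2| ≤ 29/100`. `hK`: `p xa + q xb + s xc = p X + (q-p) ξ.1 +
(s-p) ξ.2`, one of `q-p`, `s-p` is a nonzero integer (`unif_lin_load_fst/snd`), `1/h = 25/3`.
Bounds `g` (`x,y,w` = block sums), from `pair_*`, `pair_symm`, `tri_12`, `tri_13`, `tri_23`:
`SCC: 1 + 2/3|x|`, `CSC: 1 + |y|/2`, `CCS: 1 + |w|/2`, `CRC: P4|y|`, `CCR: P4|w|`,
`SSC: 1 + 1/3|x||y|`, `SCS: 1 + 1/3|x||w|`, `CSS, SSS: 1 + 1/4|y||w|`, all `R__`: `88/100`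
(`pair_R` for the first block), `SRC: n4|y| + |y|(1+2/3|x|)`, `SCR: n4|w| + |w|(1+2/3|x|)`,
`CRS, SRS: n4|y| + |y|(1+|w|/2)`, `CSR, SSR: n4|w| + |w|(1+|y|/2)`,
`CRR, SRR: n4|y| + |y| P4|w|`.
-/

set_option autoImplicit false

open MeasureTheory ProbabilityTheory
open scoped ENNReal

namespace Pool.Agent.helper49.Slope

/-- the bounds -/
noncomputable def G11g : Ty → Ty → Ty → ℝ → ℝ → ℝ → ℝ
  | .C, .C, .C => fun _ _ _ => 1
  | .S, .C, .C => fun x _ _ => 1 + 2 / 3 * |x|
  | .C, .S, .C => fun _ y _ => 1 + 2 / 4 * |y|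
  | .C, .C, .S => fun _ _ w => 1 + 2 / 4 * |w|
  | .C, .R, .C => fun _ y _ => P4 |y|
  | .C, .C, .R => fun _ _ w => P4 |w|
  | .S, .S, .C => fun x y _ => 1 + 2 / 3 * (2 / 4) * (|x| * |y|)
  | .S, .C, .S => fun x _ w => 1 + 2 / 3 * (2 / 4) * (|x| * |w|)
  | .C, .S, .S => fun _ y w => 1 + 2 / 4 * (2 / 4) * (|y| * |w|)
  | .S, .S, .S => fun _ y w => 1 + 2 / 4 * (2 / 4) * (|y| * |w|)
  | .R, _, _ => fun _ _ _ => 88 / 100
  | .S, .R, .C => fun x y _ => n4 |y| + |y| * (1 + 2 / 3 * |x|)
  | .S, .C, .R => fun x _ w => n4 |w| + |w| * (1 + 2 / 3 * |x|)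
  | .C, .R, .S => fun _ y w => n4 |y| + |y| * (1 + 2 / 4 * |w|)
  | .S, .R, .S => fun _ y w => n4 |y| + |y| * (1 + 2 / 4 * |w|)
  | .C, .S, .R => fun _ y w => n4 |w| + |w| * (1 + 2 / 4 * |y|)
  | .S, .S, .R => fun _ y w => n4 |w| + |w| * (1 + 2 / 4 * |y|)
  | .C, .R, .R => fun _ y w => n4 |y| + |y| * P4 |w|
  | .S, .R, .R => fun _ y w => n4 |y| + |y| * P4 |w|

theorem G11g_measurable (a b c : Ty) :
    Measurable (fun p : ℝ × ℝ × ℝ => G11g a b c p.1 p.2.1 p.2.2) := by
  apply Continuous.measurable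
  cases a <;> cases b <;> cases c <;> simp only [G11g, P4, n4] <;> fun_prop

/-- the integral of a polynomial bound -/
theorem G11_int (F : ℝ × ℝ → ℝ) (a b c d e f g k L : ℝ)
    (hp : ∀ r s : ℝ, 0 ≤ r → r ≤ 3 / 25 → 0 ≤ s → s ≤ 3 / 25 →
      0 ≤ a + b * r + c * s + d * r ^ 2 + e * (r * s) + f * s ^ 2 + g * (r * s ^ 2) +
        k * (r ^ 2 * s))
    (hF : ∀ᵐ ξ ∂((unif (3 / 25)).prod (unif (3 / 25))), F ξ ≤ a + b * |ξ.1| + c * |ξ.2| +
      d * |ξ.1| ^ 2 + e * (|ξ.1| * |ξ.2|) + f * |ξ.2| ^ 2 + g * (|ξ.1| * |ξ.2| ^ 2) +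
        k * (|ξ.1| ^ 2 * |ξ.2|))
    (hL : a + b * (3 / 50) + c * (3 / 50) + d * (3 / 625) + e * (9 / 2500) + f * (3 / 625) +
      g * (9 / 31250) + k * (9 / 31250) ≤ L) :
    ∫⁻ ξ, ENNReal.ofReal (F ξ) ∂((unif (3 / 25)).prod (unif (3 / 25))) ≤ ENNReal.ofReal L := by
  set C : Fin 4 → Fin 4 → ℝ := ![![a, c, f, 0], ![b, e, g, 0], ![d, k, 0, 0], ![0, 0, 0, 0]] with hC
  have hsum : ∀ r s : ℝ, ∑ i : Fin 4, ∑ j : Fin 4, C i j * r ^ (i : ℕ) * s ^ (j : ℕ) =
      a + b * r + c * s + d * r ^ 2 + e * (r * s) + f * s ^ 2 + g * (r * s ^ 2) +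
        k * (r ^ 2 * s) := by
    intro r s
    simp [Fin.sum_univ_four, hC]
    ring
  have h1 := unif_moment_two (h := 3 / 25) (k := 3 / 25) (by norm_num) (by norm_num) C (by
    intro r s h0 h1 h2 h3
    rw [hsum]
    exact hp r s h0 h1 h2 h3)
  calc ∫⁻ ξ, ENNReal.ofReal (F ξ) ∂((unif (3 / 25)).prod (unif (3 / 25)))
      ≤ ∫⁻ ξ, ENNReal.ofReal (∑ i : Fin 4, ∑ j : Fin 4, C i j * |ξ.1| ^ (i : ℕ) * |ξ.2| ^ (j : ℕ))
        ∂((unif (3 / 25)).prod (unif (3 / 25))) := by
        apply lintegral_mono_ae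
        filter_upwards [hF] with ξ hξ
        apply ENNReal.ofReal_le_ofReal
        rw [hsum]
        exact hξ
    _ ≤ ENNReal.ofReal L := by
        rw [h1]
        apply ENNReal.ofReal_le_ofReal
        refine le_trans (le_of_eq ?_) hL
        simp [Fin.sum_univ_four, hC]
        ring

theorem G11_ae : ∀ᵐ ξ ∂((unif (3 / 25)).prod (unif (3 / 25))), |ξ.1| ≤ 3 / 25 ∧ |ξ.2| ≤ 3 / 25 := by
  have := unif_prob (h := 3 / 25) (by norm_num)
  have h1 : ∀ᵐ ξ ∂((unif (3 / 25)).prod (unif (3 / 25))), |ξ.1| ≤ 3 / 25 :=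
    Measure.quasiMeasurePreserving_fst.ae unif_ae
  have h2 : ∀ᵐ ξ ∂((unif (3 / 25)).prod (unif (3 / 25))), |ξ.2| ≤ 3 / 25 :=
    Measure.quasiMeasurePreserving_snd.ae unif_ae
  filter_upwards [h1, h2] with ξ h1 h2 using ⟨h1, h2⟩

theorem G11_aa {X : ℝ} (hX : |X| ≤ 1 / 20) (ξ : ℝ × ℝ) :
    |X - ξ.1 - ξ.2| ≤ 1 / 20 + |ξ.1| + |ξ.2| := by
  have h1 := abs_sub (X - ξ.1) ξ.2
  have h2 := abs_sub X ξ.1
  linarith

theorem G11_P4_nonneg {r : ℝ} (h0 : 0 ≤ r) (h1 : r ≤ 3 / 10) : 0 ≤ P4 r := by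
  unfold P4
  nlinarith

theorem G11_hG (X : ℝ) (hX : |X| ≤ 1 / 20) (a b c : Ty)
    (habc : ¬ (a = Ty.C ∧ b = Ty.C ∧ c = Ty.C)) :
    ∫⁻ ξ, ENNReal.ofReal (G11g a b c (X - ξ.1 - ξ.2) ξ.1 ξ.2)
      ∂((unif (3 / 25)).prod (unif (3 / 25))) ≤ ENNReal.ofReal (G44 a b c) := by
  have hR : ∀ L : ℝ, 88 / 100 ≤ L → ∫⁻ _ξ, ENNReal.ofReal (88 / 100 : ℝ)
      ∂((unif (3 / 25)).prod (unif (3 / 25))) ≤ ENNReal.ofReal L := by
    intro L hL
    apply G11_int (fun _ => 88 / 100) (88 / 100) 0 0 0 0 0 0 0 L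
    · intro r s _ _ _ _; norm_num
    · exact Filter.Eventually.of_forall (fun ξ => by simp)
    · linarith
  cases a
  · cases b
    · cases c
      · exact absurd ⟨rfl, rfl, rfl⟩ habc
      · -- CCS
        apply G11_int _ 1 0 (1 / 2) 0 0 0 0 0
        · intro r s h0 h1 h2 h3; positivity
        · exact Filter.Eventually.of_forall (fun ξ => by simp only [G11g]; linarith)
        · simp only [G44]; norm_num
      · -- CCR
        apply G11_int _ (8717 / 10000) 0 (9432 / 10000) 0 0 (-(896 / 1000)) 0 0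
        · intro r s h0 h1 h2 h3; nlinarith
        · exact Filter.Eventually.of_forall (fun ξ => by simp only [G11g, P4]; linarith)
        · simp only [G44]; norm_num
    · cases c
      · -- CSC
        apply G11_int _ 1 (1 / 2) 0 0 0 0 0 0
        · intro r s h0 h1 h2 h3; positivity
        · exact Filter.Eventually.of_forall (fun ξ => by simp only [G11g]; linarith)
        · simp only [G44]; norm_num
      · -- CSS
        apply G11_int _ 1 0 0 0 (1 / 4) 0 0 0
        · intro r s h0 h1 h2 h3; positivity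
        · exact Filter.Eventually.of_forall (fun ξ => by simp only [G11g]; linarith)
        · simp only [G44]; norm_num
      · -- CSR
        apply G11_int _ (8717 / 10000) 0 (2765 / 10000) 0 (1 / 2) 0 0 0
        · intro r s h0 h1 h2 h3; positivity
        · exact Filter.Eventually.of_forall (fun ξ => by simp only [G11g, n4]; linarith)
        · simp only [G44]; norm_num
    · cases c
      · -- CRC
        apply G11_int _ (8717 / 10000) (9432 / 10000) 0 (-(896 / 1000)) 0 0 0 0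
        · intro r s h0 h1 h2 h3; nlinarith
        · exact Filter.Eventually.of_forall (fun ξ => by simp only [G11g, P4]; linarith)
        · simp only [G44]; norm_num
      · -- CRS
        apply G11_int _ (8717 / 10000) (2765 / 10000) 0 0 (1 / 2) 0 0 0
        · intro r s h0 h1 h2 h3; positivity
        · exact Filter.Eventually.of_forall (fun ξ => by simp only [G11g, n4]; linarith)
        · simp only [G44]; norm_num
      · -- CRR
        apply G11_int _ (8717 / 10000) (-(7235 / 10000) + 8717 / 10000) 0 0 (9432 / 10000) 0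
          (-(896 / 1000)) 0
        · intro r s h0 h1 h2 h3
          have h4 : 0 ≤ r * s := mul_nonneg h0 h2
          have h5 : r * s ^ 2 ≤ r * s := by
            have : s ^ 2 ≤ s := by nlinarith
            exact mul_le_mul_of_nonneg_left this h0
          nlinarith
        · exact Filter.Eventually.of_forall (fun ξ => by simp only [G11g, n4, P4]; linarith)
        · simp only [G44]; norm_num
  · cases b
    · cases c
      · -- SCC
        apply G11_int _ (1 + 2 / 3 * (1 / 20)) (2 / 3) (2 / 3) 0 0 0 0 0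
        · intro r s h0 h1 h2 h3; positivity
        · exact Filter.Eventually.of_forall (fun ξ => by
            have := G11_aa hX ξ
            simp only [G11g]; linarith)
        · simp only [G44]; norm_num
      · -- SCS
        apply G11_int _ 1 0 (1 / 60) 0 (1 / 3) (1 / 3) 0 0
        · intro r s h0 h1 h2 h3; positivity
        · exact Filter.Eventually.of_forall (fun ξ => by
            have := mul_le_mul_of_nonneg_right (G11_aa hX ξ) (abs_nonneg ξ.2)
            simp only [G11g]; nlinarith)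
        · simp only [G44]; norm_num
      · -- SCR
        apply G11_int _ (8717 / 10000) 0 (2765 / 10000 + 2 / 60) 0 (2 / 3) (2 / 3) 0 0
        · intro r s h0 h1 h2 h3; positivity
        · exact Filter.Eventually.of_forall (fun ξ => by
            have := mul_le_mul_of_nonneg_right (G11_aa hX ξ) (abs_nonneg ξ.2)
            simp only [G11g, n4]; nlinarith)
        · simp only [G44]; norm_num
    · cases c
      · -- SSC
        apply G11_int _ 1 (1 / 60) 0 (1 / 3) (1 / 3) 0 0 0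
        · intro r s h0 h1 h2 h3; positivity
        · exact Filter.Eventually.of_forall (fun ξ => by
            have := mul_le_mul_of_nonneg_right (G11_aa hX ξ) (abs_nonneg ξ.1)
            simp only [G11g]; nlinarith)
        · simp only [G44]; norm_num
      · -- SSS
        apply G11_int _ 1 0 0 0 (1 / 4) 0 0 0
        · intro r s h0 h1 h2 h3; positivity
        · exact Filter.Eventually.of_forall (fun ξ => by simp only [G11g]; linarith)
        · simp only [G44]; norm_num
      · -- SSR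
        apply G11_int _ (8717 / 10000) 0 (2765 / 10000) 0 (1 / 2) 0 0 0
        · intro r s h0 h1 h2 h3; positivity
        · exact Filter.Eventually.of_forall (fun ξ => by simp only [G11g, n4]; linarith)
        · simp only [G44]; norm_num
    · cases c
      · -- SRC
        apply G11_int _ (8717 / 10000) (2765 / 10000 + 2 / 60) 0 (2 / 3) (2 / 3) 0 0 0
        · intro r s h0 h1 h2 h3; positivity
        · exact Filter.Eventually.of_forall (fun ξ => by
            have := mul_le_mul_of_nonneg_right (G11_aa hX ξ) (abs_nonneg ξ.1)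
            simp only [G11g, n4]; nlinarith)
        · simp only [G44]; norm_num
      · -- SRS
        apply G11_int _ (8717 / 10000) (2765 / 10000) 0 0 (1 / 2) 0 0 0
        · intro r s h0 h1 h2 h3; positivity
        · exact Filter.Eventually.of_forall (fun ξ => by simp only [G11g, n4]; linarith)
        · simp only [G44]; norm_num
      · -- SRR
        apply G11_int _ (8717 / 10000) (-(7235 / 10000) + 8717 / 10000) 0 0 (9432 / 10000) 0
          (-(896 / 1000)) 0
        · intro r s h0 h1 h2 h3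
          have h4 : 0 ≤ r * s := mul_nonneg h0 h2
          have h5 : r * s ^ 2 ≤ r * s := by
            have : s ^ 2 ≤ s := by nlinarith
            exact mul_le_mul_of_nonneg_left this h0
          nlinarith
        · exact Filter.Eventually.of_forall (fun ξ => by simp only [G11g, n4, P4]; linarith)
        · simp only [G44]; norm_num
  · cases b <;> cases c <;> simp only [G11g] <;> apply hR <;> simp only [G44] <;> norm_num

theorem G11_hg {κ : Kernel ℝ (Fin 3 → ℝ)} {η θ : Kernel ℝ (Fin 4 → ℝ)} [IsMarkovKernel κ]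
    [IsMarkovKernel η] [IsMarkovKernel θ] (bA : Blk κ (8 / 25) P3 P3) (bB : Blk η (3 / 10) P4 n4)
    (bC : Blk θ (3 / 10) P4 n4) (x y w : ℝ) (hx : |x| ≤ 8 / 25) (hy : |y| ≤ 3 / 10)
    (hw : |w| ≤ 3 / 10) (a b c : Ty) (habc : ¬ (a = Ty.C ∧ b = Ty.C ∧ c = Ty.C)) :
    TriBd κ η θ x y w a b c (G11g a b c x y w) := by
  have c3 : (Fintype.card (Fin 3) : ℝ) = 3 := by simp
  have c4 : (Fintype.card (Fin 4) : ℝ) = 4 := by simp
  have n3 : 3 ≤ Fintype.card (Fin 3) := by simp
  have n34 : 3 ≤ Fintype.card (Fin 4) := by simp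
  have hS12 : ∀ b, PairBd κ η x y Ty.S b (1 + 2 / 3 * |x|) := fun b => by
    have := pair_S (η := η) n3 bA (by norm_num) (y := y) hx b
    rwa [c3] at this
  have hS23 : ∀ b, PairBd η θ y w Ty.S b (1 + 2 / 4 * |y|) := fun b => by
    have := pair_S (η := θ) n34 bB (by norm_num) (y := w) hy b
    rwa [c4] at this
  have hS32 : ∀ b, PairBd η θ y w b Ty.S (1 + 2 / 4 * |w|) := fun b => by
    have := pair_S (η := η) n34 bC (by norm_num) (y := y) hw b
    rw [c4] at this
    exact pair_symm this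
  have hR23 : ∀ b, PairBd η θ y w Ty.R b (P4 |y|) := fun b => pair_R bB hy b
  have hR32 : ∀ b, PairBd η θ y w b Ty.R (P4 |w|) := fun b => pair_symm (pair_R bC hw b)
  have hSS12 : PairBd κ η x y Ty.S Ty.S (1 + 2 / 3 * (2 / 4) * (|x| * |y|)) := by
    have := pair_SS n3 n34 bA bB (by norm_num) (by norm_num) hx hy
    rwa [c3, c4] at this
  have hSS13 : PairBd κ θ x w Ty.S Ty.S (1 + 2 / 3 * (2 / 4) * (|x| * |w|)) := by
    have := pair_SS n3 n34 bA bC (by norm_num) (by norm_num) hx hw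
    rwa [c3, c4] at this
  have hSS23 : PairBd η θ y w Ty.S Ty.S (1 + 2 / 4 * (2 / 4) * (|y| * |w|)) := by
    have := pair_SS n34 n34 bB bC (by norm_num) (by norm_num) hy hw
    rwa [c4] at this
  have hSR12 : PairBd κ η x y Ty.S Ty.R (n4 |y| + |y| * (1 + 2 / 3 * |x|)) := by
    have := pair_RS n3 bB bA (by norm_num) hy hx
    rw [c3] at this
    exact pair_symm this
  have hSR13 : PairBd κ θ x w Ty.S Ty.R (n4 |w| + |w| * (1 + 2 / 3 * |x|)) := by
    have := pair_RS n3 bC bA (by norm_num) hw hx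
    rw [c3] at this
    exact pair_symm this
  have hRS23 : PairBd η θ y w Ty.R Ty.S (n4 |y| + |y| * (1 + 2 / 4 * |w|)) := by
    have := pair_RS n34 bB bC (by norm_num) hy hw
    rwa [c4] at this
  have hSR23 : PairBd η θ y w Ty.S Ty.R (n4 |w| + |w| * (1 + 2 / 4 * |y|)) := by
    have := pair_RS n34 bC bB (by norm_num) hw hy
    rw [c4] at this
    exact pair_symm this
  have hRR23 : PairBd η θ y w Ty.R Ty.R (n4 |y| + |y| * P4 |w|) :=
    pair_RR bB bC hy hw (G11_P4_nonneg (abs_nonneg w) hw)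
  cases a
  · cases b <;> cases c
    · exact absurd ⟨rfl, rfl, rfl⟩ habc
    · exact tri_23 (hS32 _) _
    · exact tri_23 (hR32 _) _
    · exact tri_23 (hS23 _) _
    · exact tri_23 hSS23 _
    · exact tri_23 hSR23 _
    · exact tri_23 (hR23 _) _
    · exact tri_23 hRS23 _
    · exact tri_23 hRR23 _
  · cases b <;> cases c
    · exact tri_12 (hS12 _) _
    · exact tri_13 hSS13 _
    · exact tri_13 hSR13 _
    · exact tri_12 hSS12 _
    · exact tri_23 hSS23 _
    · exact tri_23 hSR23 _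
    · exact tri_12 hSR12 _
    · exact tri_23 hRS23 _
    · exact tri_23 hRR23 _
  · have h : PairBd κ η x y Ty.R b (88 / 100) := pair_R bA hx b
    cases b <;> exact tri_12 h _

theorem fam_eleven : Fam ((Fin 3 ⊕ Fin 4) ⊕ Fin 4) (1 / 20) := by
  obtain ⟨κ, hκ, bA⟩ := block_three
  obtain ⟨η, hη, bB⟩ := block_four
  have hπ := unif_prob (h := 3 / 25) (by norm_num)
  refine three_block (by simp) (by simp) (by simp) κ η η bA bB bB (by norm_num) (by norm_num)
    (by norm_num) ((unif (3 / 25)).prod (unif (3 / 25))) (fun X ξ => X - ξ.1 - ξ.2)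
    (fun _ ξ => ξ.1) (fun _ ξ => ξ.2) ?_ ?_ ?_ (fun X ξ => by ring) ?_ G11g G11g_measurable
    (G11_hg bA bB bB) G44 G44_pos ?_ G11_hG (fun a a' b b' c c' => G44_mono a a' b b' c c') ?_
  · apply Continuous.measurable
    simp only [Function.uncurry_def]
    fun_prop
  · apply Continuous.measurable
    simp only [Function.uncurry_def]
    fun_prop
  · apply Continuous.measurable
    simp only [Function.uncurry_def]
    fun_prop
  · intro X hX
    filter_upwards [G11_ae] with ξ hξ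
    refine ⟨?_, ?_, ?_⟩
    · have := G11_aa hX ξ
      linarith [hξ.1, hξ.2]
    · linarith [hξ.1]
    · linarith [hξ.2]
  · intro X _ p q s hpqs
    have hfun : (fun ξ : ℝ × ℝ => (p : ℝ) * (X - ξ.1 - ξ.2) + q * ξ.1 + s * ξ.2) =
        (fun ξ : ℝ × ℝ => ((q - p : ℤ) : ℝ) * ξ.1 + ((s - p : ℤ) : ℝ) * ξ.2 + p * X) := by
      funext ξ
      push_cast
      ring
    have hint : ∀ z : ℤ, z ≠ 0 → (1 : ℝ) ≤ |(z : ℝ)| := by
      intro z hz
      have := Int.one_le_abs hz
      exact_mod_cast this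
    have h25 : G44 Ty.C Ty.C Ty.C = 1 / (3 / 25) := by
      simp only [G44]
      norm_num
    simp only [hfun]
    rw [h25]
    by_cases hq : q = p
    · have hs : s ≠ p := by
        intro hs
        exact hpqs ⟨hq.symm, by rw [hq, hs]⟩
      exact unif_lin_load_snd (by norm_num) (by norm_num) _ _ _ (hint _ (sub_ne_zero.mpr hs))
    · exact unif_lin_load_fst (by norm_num) (by norm_num) _ _ _ (hint _ (sub_ne_zero.mpr hq))
  · intro t h2 ht
    simp only [Fintype.card_fin] at ht ⊢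
    exact G44_sum3 t h2 ht

end Pool.Agent.helper49.Slope
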