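import Pool.Agent.helper49.Slope.G44
import Pool.Agent.helper49.Slope.E4
import Pool.Agent.helper49.Slope.E8
import Pool.Agent.helper49.Slope.F4

/-!
MP_aedd95_co (slope of k-fold hyperplane covers of triangular grids), module G12.
(author: helper75; architect: helper49)
The family with 12 elements, blocks (4,4,4).

PROOF. Apply `three_block` to three copies of `block_four`, with
`π = (unif h).prod (unif h)`, `h = 3/25`, `h0 = 1/20`, `xa X ξ = X - ξ.1 - ξ.2`, `xb X ξ = ξ.1`,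
`xc X ξ = ξ.2`, `G = G44` (module G44). Almost surely `|ξ.1|, |ξ.2| ≤ 3/25`, so
`|xa| ≤ ρ := 1/20 + |ξ.1| + |ξ.2| ≤ 29/100`. `hK`: `p xa + q xb + s xc = p X + (q-p) ξ.1 +
(s-p) ξ.2`, one of `q-p`, `s-p` is a nonzero integer (`unif_lin_load_fst/snd`), `1/h = 25/3`.
Bounds `g` (`x,y,w` = block sums), from `pair_*`, `pair_symm`, `tri_12`, `tri_13`, `tri_23`:
`SCC: 1 + |x|/2`, `CSC: 1 + |y|/2`, `CCS: 1 + |w|/2`, `RCC: P4|x|`, `CRC: P4|y|`, `CCR: P4|w|`,
`SSC: 1 + 1/4|x||y|`, `SCS: 1 + 1/4|x||w|`, `CSS, SSS: 1 + 1/4|y||w|`,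
`RSC, RSS: n4|x| + |x|(1+|y|/2)`, `RCS: n4|x| + |x|(1+|w|/2)`,
`SRC: n4|y| + |y|(1+|x|/2)`, `SCR: n4|w| + |w|(1+|x|/2)`,
`CRS, SRS, RRS: n4|y| + |y|(1+|w|/2)`, `CSR, SSR, RSR: n4|w| + |w|(1+|y|/2)`,
`CRR, SRR, RRR: n4|y| + |y| P4|w|`, `RRC: n4|y| + |y| P4|x|`, `RCR: n4|w| + |w| P4|x|`.
All are increasing in `|x| ≤ ρ ≤ 29/100` (`P4` is increasing on `[0, 3/10]`, `n4 r + r·M` is
increasing in `r` for `M ≥ 1`), so replace `|x|` by `ρ`. Expectations (`unif_moment_two`;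
`a = |ξ.1|`, `b = |ξ.2|`, `E a = 3/50`, `E a² = 3/625`, `E ρ = 17/100`, `E[ρ a] = 0.0114`,
`E ρ² = 0.0313`, `E[a ρ²] ≤ E a · (29/100)²` or exactly):
`SCC: 1.085`, `CSC: 1.03`, `RCC: 0.8717 + 0.9432·0.17 - 0.896·0.0313 = 1.00400 ≤ 1.005`,
`CRC: 0.92399 ≤ 0.925`, `SSC: 1.00285 ≤ 1.004`, `CSS: 1.0009 ≤ 1.001`,
`RSC: 0.8717 + 0.2765·0.17 + 0.0057 = 0.924405 ≤ 0.925`,
`SRC: 0.8717 + 0.2765·0.06 + 0.0057 = 0.89399`, `CRS: 0.89009`,
`CRR: 0.8717 - 0.7235·0.06 + 0.06·0.92399 = 0.88373`,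
`RRC: 0.8717 - 0.7235·0.06 + 0.8717·0.06 + 0.9432·0.0114 = 0.89134` (drop `-0.896 a ρ²`);
the last four are `≤ 9/10`.
-/

set_option autoImplicit false
set_option linter.unusedSimpArgs false

open MeasureTheory ProbabilityTheory
open scoped ENNReal

namespace Pool.Agent.helper49.Slope

/-- the bounds of the doc string, as functions of `r = |x|`, `a = |y|`, `b = |w|` -/
noncomputable def G12_g : Ty → Ty → Ty → ℝ → ℝ → ℝ → ℝ
  | .C, .C, .C, _, _, _ => 0
  | .S, .C, .C, r, _, _ => 1 + 1 / 2 * r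
  | .C, .S, .C, _, a, _ => 1 + 1 / 2 * a
  | .C, .C, .S, _, _, b => 1 + 1 / 2 * b
  | .R, .C, .C, r, _, _ => P4 r
  | .C, .R, .C, _, a, _ => P4 a
  | .C, .C, .R, _, _, b => P4 b
  | .S, .S, .C, r, a, _ => 1 + 1 / 4 * (r * a)
  | .S, .C, .S, r, _, b => 1 + 1 / 4 * (r * b)
  | .C, .S, .S, _, a, b => 1 + 1 / 4 * (a * b)
  | .S, .S, .S, _, a, b => 1 + 1 / 4 * (a * b)
  | .R, .S, .C, r, a, _ => n4 r + r * (1 + 1 / 2 * a)
  | .R, .S, .S, r, a, _ => n4 r + r * (1 + 1 / 2 * a)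
  | .R, .C, .S, r, _, b => n4 r + r * (1 + 1 / 2 * b)
  | .S, .R, .C, r, a, _ => n4 a + a * (1 + 1 / 2 * r)
  | .S, .C, .R, r, _, b => n4 b + b * (1 + 1 / 2 * r)
  | .C, .R, .S, _, a, b => n4 a + a * (1 + 1 / 2 * b)
  | .S, .R, .S, _, a, b => n4 a + a * (1 + 1 / 2 * b)
  | .R, .R, .S, _, a, b => n4 a + a * (1 + 1 / 2 * b)
  | .C, .S, .R, _, a, b => n4 b + b * (1 + 1 / 2 * a)
  | .S, .S, .R, _, a, b => n4 b + b * (1 + 1 / 2 * a)
  | .R, .S, .R, _, a, b => n4 b + b * (1 + 1 / 2 * a)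
  | .C, .R, .R, _, a, b => n4 a + a * P4 b
  | .S, .R, .R, _, a, b => n4 a + a * P4 b
  | .R, .R, .R, _, a, b => n4 a + a * P4 b
  | .R, .R, .C, r, a, _ => n4 a + a * P4 r
  | .R, .C, .R, r, _, b => n4 b + b * P4 r

theorem G12_meas (a b c : Ty) :
    Measurable (fun p : ℝ × ℝ × ℝ => G12_g a b c |p.1| |p.2.1| |p.2.2|) := by
  apply Continuous.measurable
  rcases a <;> rcases b <;> rcases c <;> simp only [G12_g, P4, n4] <;> fun_prop

theorem G12_P4 {r : ℝ} (h0 : 0 ≤ r) (h1 : r ≤ 3 / 10) : 0 ≤ P4 r := by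
  unfold P4
  nlinarith [mul_nonneg h0 (sub_nonneg.2 h1)]

/-- the moment computation in degree at most 2 -/
theorem G12_int (F : ℝ × ℝ → ℝ) (k0 k1 k2 k3 k4 k5 G : ℝ)
    (hp : ∀ r s : ℝ, 0 ≤ r → r ≤ 3 / 25 → 0 ≤ s → s ≤ 3 / 25 →
      0 ≤ k0 + k1 * r + k2 * s + k3 * r ^ 2 + k4 * (r * s) + k5 * s ^ 2)
    (hF : ∀ ξ : ℝ × ℝ, |ξ.1| ≤ 3 / 25 → |ξ.2| ≤ 3 / 25 →
      F ξ ≤ k0 + k1 * |ξ.1| + k2 * |ξ.2| + k3 * |ξ.1| ^ 2 + k4 * (|ξ.1| * |ξ.2|) + k5 * |ξ.2| ^ 2)
    (hG : k0 + k1 * (3 / 50) + k2 * (3 / 50) + k3 * (3 / 625) + k4 * (9 / 2500) + k5 * (3 / 625)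
      ≤ G) :
    ∫⁻ ξ, ENNReal.ofReal (F ξ) ∂((unif (3 / 25)).prod (unif (3 / 25))) ≤ ENNReal.ofReal G := by
  have hh : (0 : ℝ) < 3 / 25 := by norm_num
  have := unif_prob hh
  have hae : ∀ᵐ ξ ∂((unif (3 / 25)).prod (unif (3 / 25))), |ξ.1| ≤ 3 / 25 ∧ |ξ.2| ≤ 3 / 25 := by
    have h1 : ∀ᵐ ξ ∂((unif (3 / 25)).prod (unif (3 / 25))), |ξ.1| ≤ 3 / 25 :=
      Measure.quasiMeasurePreserving_fst.ae (unif_ae (h := 3 / 25))
    have h2 : ∀ᵐ ξ ∂((unif (3 / 25)).prod (unif (3 / 25))), |ξ.2| ≤ 3 / 25 :=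
      Measure.quasiMeasurePreserving_snd.ae (unif_ae (h := 3 / 25))
    filter_upwards [h1, h2] with ξ h1 h2
    exact ⟨h1, h2⟩
  let c : Fin 4 → Fin 4 → ℝ := ![![k0, k2, k5, 0], ![k1, k4, 0, 0], ![k3, 0, 0, 0], ![0, 0, 0, 0]]
  have hc : ∀ r s : ℝ, ∑ i : Fin 4, ∑ j : Fin 4, c i j * r ^ (i : ℕ) * s ^ (j : ℕ) =
      k0 + k1 * r + k2 * s + k3 * r ^ 2 + k4 * (r * s) + k5 * s ^ 2 := by
    intro r s
    simp [c, Fin.sum_univ_four]
    ring
  have hm := unif_moment_two hh hh c (fun r s h1 h2 h3 h4 => by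
    rw [hc]; exact hp r s h1 h2 h3 h4)
  calc ∫⁻ ξ, ENNReal.ofReal (F ξ) ∂((unif (3 / 25)).prod (unif (3 / 25)))
      ≤ ∫⁻ ξ, ENNReal.ofReal (∑ i : Fin 4, ∑ j : Fin 4, c i j * |ξ.1| ^ (i : ℕ) * |ξ.2| ^ (j : ℕ))
        ∂((unif (3 / 25)).prod (unif (3 / 25))) := by
        apply lintegral_mono_ae
        filter_upwards [hae] with ξ hξ
        rw [hc]
        exact ENNReal.ofReal_le_ofReal (hF ξ hξ.1 hξ.2)
    _ = ENNReal.ofReal (∑ i : Fin 4, ∑ j : Fin 4,
          c i j * ((3 / 25 : ℝ) ^ (i : ℕ) / ((i : ℕ) + 1)) *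
            ((3 / 25 : ℝ) ^ (j : ℕ) / ((j : ℕ) + 1))) := hm
    _ ≤ ENNReal.ofReal G := by
        apply ENNReal.ofReal_le_ofReal
        refine le_trans (le_of_eq ?_) hG
        simp [c, Fin.sum_univ_four]
        ring

theorem G12_tri {κ : Kernel ℝ (Fin 4 → ℝ)} [IsMarkovKernel κ] (bl : Blk κ (3 / 10) P4 n4)
    (x y w : ℝ) (hx : |x| ≤ 3 / 10) (hy : |y| ≤ 3 / 10) (hw : |w| ≤ 3 / 10) (a b c : Ty)
    (h : ¬ (a = Ty.C ∧ b = Ty.C ∧ c = Ty.C)) :
    TriBd κ κ κ x y w a b c (G12_g a b c |x| |y| |w|) := by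
  have h3 : 3 ≤ Fintype.card (Fin 4) := by simp
  have hh : (3 / 10 : ℝ) ≤ 1 / 2 := by norm_num
  have px := G12_P4 (abs_nonneg x) hx
  have py := G12_P4 (abs_nonneg y) hy
  have pw := G12_P4 (abs_nonneg w) hw
  rcases a <;> rcases b <;> rcases c
  -- C C C
  · exact absurd ⟨rfl, rfl, rfl⟩ h
  -- C C S
  · exact (tri_23 (pair_symm (pair_S h3 bl hh hw _)) _).mono
      (le_of_eq (by simp only [G12_g, Fintype.card_fin]; push_cast; ring))
  -- C C R
  · exact (tri_23 (pair_symm (pair_R bl hw _)) _).mono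
      (le_of_eq (by simp only [G12_g]))
  -- C S C
  · exact (tri_23 (pair_S h3 bl hh hy _) _).mono
      (le_of_eq (by simp only [G12_g, Fintype.card_fin]; push_cast; ring))
  -- C S S
  · exact (tri_23 (pair_SS h3 h3 bl bl hh hh hy hw) _).mono
      (le_of_eq (by simp only [G12_g, Fintype.card_fin]; push_cast; ring))
  -- C S R
  · exact (tri_23 (pair_symm (pair_RS h3 bl bl hh hw hy)) _).mono
      (le_of_eq (by simp only [G12_g, Fintype.card_fin]; push_cast; ring))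
  -- C R C
  · exact (tri_23 (pair_R bl hy _) _).mono
      (le_of_eq (by simp only [G12_g]))
  -- C R S
  · exact (tri_23 (pair_RS h3 bl bl hh hy hw) _).mono
      (le_of_eq (by simp only [G12_g, Fintype.card_fin]; push_cast; ring))
  -- C R R
  · exact (tri_23 (pair_RR bl bl hy hw pw) _).mono
      (le_of_eq (by simp only [G12_g]))
  -- S C C
  · exact (tri_12 (pair_S h3 bl hh hx _) _).mono
      (le_of_eq (by simp only [G12_g, Fintype.card_fin]; push_cast; ring))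
  -- S C S
  · exact (tri_13 (pair_SS h3 h3 bl bl hh hh hx hw) _).mono
      (le_of_eq (by simp only [G12_g, Fintype.card_fin]; push_cast; ring))
  -- S C R
  · exact (tri_13 (pair_symm (pair_RS h3 bl bl hh hw hx)) _).mono
      (le_of_eq (by simp only [G12_g, Fintype.card_fin]; push_cast; ring))
  -- S S C
  · exact (tri_12 (pair_SS h3 h3 bl bl hh hh hx hy) _).mono
      (le_of_eq (by simp only [G12_g, Fintype.card_fin]; push_cast; ring))
  -- S S S
  · exact (tri_23 (pair_SS h3 h3 bl bl hh hh hy hw) _).mono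
      (le_of_eq (by simp only [G12_g, Fintype.card_fin]; push_cast; ring))
  -- S S R
  · exact (tri_23 (pair_symm (pair_RS h3 bl bl hh hw hy)) _).mono
      (le_of_eq (by simp only [G12_g, Fintype.card_fin]; push_cast; ring))
  -- S R C
  · exact (tri_12 (pair_symm (pair_RS h3 bl bl hh hy hx)) _).mono
      (le_of_eq (by simp only [G12_g, Fintype.card_fin]; push_cast; ring))
  -- S R S
  · exact (tri_23 (pair_RS h3 bl bl hh hy hw) _).mono
      (le_of_eq (by simp only [G12_g, Fintype.card_fin]; push_cast; ring))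
  -- S R R
  · exact (tri_23 (pair_RR bl bl hy hw pw) _).mono
      (le_of_eq (by simp only [G12_g]))
  -- R C C
  · exact (tri_12 (pair_R bl hx _) _).mono
      (le_of_eq (by simp only [G12_g]))
  -- R C S
  · exact (tri_13 (pair_RS h3 bl bl hh hx hw) _).mono
      (le_of_eq (by simp only [G12_g, Fintype.card_fin]; push_cast; ring))
  -- R C R
  · exact (tri_13 (pair_symm (pair_RR bl bl hw hx px)) _).mono
      (le_of_eq (by simp only [G12_g]))
  -- R S C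
  · exact (tri_12 (pair_RS h3 bl bl hh hx hy) _).mono
      (le_of_eq (by simp only [G12_g, Fintype.card_fin]; push_cast; ring))
  -- R S S
  · exact (tri_12 (pair_RS h3 bl bl hh hx hy) _).mono
      (le_of_eq (by simp only [G12_g, Fintype.card_fin]; push_cast; ring))
  -- R S R
  · exact (tri_23 (pair_symm (pair_RS h3 bl bl hh hw hy)) _).mono
      (le_of_eq (by simp only [G12_g, Fintype.card_fin]; push_cast; ring))
  -- R R C
  · exact (tri_12 (pair_symm (pair_RR bl bl hy hx px)) _).mono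
      (le_of_eq (by simp only [G12_g]))
  -- R R S
  · exact (tri_23 (pair_RS h3 bl bl hh hy hw) _).mono
      (le_of_eq (by simp only [G12_g, Fintype.card_fin]; push_cast; ring))
  -- R R R
  · exact (tri_23 (pair_RR bl bl hy hw pw) _).mono
      (le_of_eq (by simp only [G12_g]))



theorem G12_exp (X : ℝ) (hX : |X| ≤ 1 / 20) (a b c : Ty)
    (h : ¬ (a = Ty.C ∧ b = Ty.C ∧ c = Ty.C)) :
    ∫⁻ ξ : ℝ × ℝ, ENNReal.ofReal (G12_g a b c |X - ξ.1 - ξ.2| |ξ.1| |ξ.2|)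
      ∂((unif (3 / 25)).prod (unif (3 / 25))) ≤ ENNReal.ofReal (G44 a b c) := by
  have hr : ∀ ξ : ℝ × ℝ, |X - ξ.1 - ξ.2| ≤ 1 / 20 + |ξ.1| + |ξ.2| := by
    intro ξ
    have h1 := abs_sub (X - ξ.1) ξ.2
    have h2 := abs_sub X ξ.1
    linarith
  rcases a <;> rcases b <;> rcases c
  · exact absurd ⟨rfl, rfl, rfl⟩ h
  -- C C S
  · refine G12_int _ (1) (0) (1/2) (0) (0) (0) _ ?_ ?_ ?_
    · intro r s h1 h2 h3 h4
      nlinarith [mul_nonneg h1 h3, mul_nonneg h1 (sub_nonneg.2 h2), mul_nonneg h3 (sub_nonneg.2 h4),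
        mul_nonneg h1 (sub_nonneg.2 h4), mul_nonneg h3 (sub_nonneg.2 h2)]
    · intro ξ h1 h2
      have h3 := hr ξ
      have h4 := abs_nonneg (X - ξ.1 - ξ.2)
      have h5 := abs_nonneg ξ.1
      have h6 := abs_nonneg ξ.2
      generalize |X - ξ.1 - ξ.2| = r at *
      generalize |ξ.1| = u at *
      generalize |ξ.2| = v at *
      simp only [G12_g, P4, n4]
      nlinarith [mul_nonneg h5 h6, mul_nonneg h5 (sub_nonneg.2 h3), mul_nonneg h6 (sub_nonneg.2 h3),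
        mul_nonneg h5 (sq_nonneg r), mul_nonneg h6 (sq_nonneg r), mul_nonneg h5 (sq_nonneg v),
        mul_nonneg (sub_nonneg.2 h3) (by linarith : (0 : ℝ) ≤ 3 / 5 - r - u - v)]
    · norm_num [G44]
  -- C C R
  · refine G12_int _ (8717/10000) (0) (9432/10000) (0) (0) (-(896/1000)) _ ?_ ?_ ?_
    · intro r s h1 h2 h3 h4
      nlinarith [mul_nonneg h1 h3, mul_nonneg h1 (sub_nonneg.2 h2), mul_nonneg h3 (sub_nonneg.2 h4),
        mul_nonneg h1 (sub_nonneg.2 h4), mul_nonneg h3 (sub_nonneg.2 h2)]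
    · intro ξ h1 h2
      have h3 := hr ξ
      have h4 := abs_nonneg (X - ξ.1 - ξ.2)
      have h5 := abs_nonneg ξ.1
      have h6 := abs_nonneg ξ.2
      generalize |X - ξ.1 - ξ.2| = r at *
      generalize |ξ.1| = u at *
      generalize |ξ.2| = v at *
      simp only [G12_g, P4, n4]
      nlinarith [mul_nonneg h5 h6, mul_nonneg h5 (sub_nonneg.2 h3), mul_nonneg h6 (sub_nonneg.2 h3),
        mul_nonneg h5 (sq_nonneg r), mul_nonneg h6 (sq_nonneg r), mul_nonneg h5 (sq_nonneg v),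
        mul_nonneg (sub_nonneg.2 h3) (by linarith : (0 : ℝ) ≤ 3 / 5 - r - u - v)]
    · norm_num [G44]
  -- C S C
  · refine G12_int _ (1) (1/2) (0) (0) (0) (0) _ ?_ ?_ ?_
    · intro r s h1 h2 h3 h4
      nlinarith [mul_nonneg h1 h3, mul_nonneg h1 (sub_nonneg.2 h2), mul_nonneg h3 (sub_nonneg.2 h4),
        mul_nonneg h1 (sub_nonneg.2 h4), mul_nonneg h3 (sub_nonneg.2 h2)]
    · intro ξ h1 h2
      have h3 := hr ξ
      have h4 := abs_nonneg (X - ξ.1 - ξ.2)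
      have h5 := abs_nonneg ξ.1
      have h6 := abs_nonneg ξ.2
      generalize |X - ξ.1 - ξ.2| = r at *
      generalize |ξ.1| = u at *
      generalize |ξ.2| = v at *
      simp only [G12_g, P4, n4]
      nlinarith [mul_nonneg h5 h6, mul_nonneg h5 (sub_nonneg.2 h3), mul_nonneg h6 (sub_nonneg.2 h3),
        mul_nonneg h5 (sq_nonneg r), mul_nonneg h6 (sq_nonneg r), mul_nonneg h5 (sq_nonneg v),
        mul_nonneg (sub_nonneg.2 h3) (by linarith : (0 : ℝ) ≤ 3 / 5 - r - u - v)]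
    · norm_num [G44]
  -- C S S
  · refine G12_int _ (1) (0) (0) (0) (1/4) (0) _ ?_ ?_ ?_
    · intro r s h1 h2 h3 h4
      nlinarith [mul_nonneg h1 h3, mul_nonneg h1 (sub_nonneg.2 h2), mul_nonneg h3 (sub_nonneg.2 h4),
        mul_nonneg h1 (sub_nonneg.2 h4), mul_nonneg h3 (sub_nonneg.2 h2)]
    · intro ξ h1 h2
      have h3 := hr ξ
      have h4 := abs_nonneg (X - ξ.1 - ξ.2)
      have h5 := abs_nonneg ξ.1
      have h6 := abs_nonneg ξ.2
      generalize |X - ξ.1 - ξ.2| = r at *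
      generalize |ξ.1| = u at *
      generalize |ξ.2| = v at *
      simp only [G12_g, P4, n4]
      nlinarith [mul_nonneg h5 h6, mul_nonneg h5 (sub_nonneg.2 h3), mul_nonneg h6 (sub_nonneg.2 h3),
        mul_nonneg h5 (sq_nonneg r), mul_nonneg h6 (sq_nonneg r), mul_nonneg h5 (sq_nonneg v),
        mul_nonneg (sub_nonneg.2 h3) (by linarith : (0 : ℝ) ≤ 3 / 5 - r - u - v)]
    · norm_num [G44]
  -- C S R
  · refine G12_int _ (8717/10000) (0) (2765/10000) (0) (1/2) (0) _ ?_ ?_ ?_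
    · intro r s h1 h2 h3 h4
      nlinarith [mul_nonneg h1 h3, mul_nonneg h1 (sub_nonneg.2 h2), mul_nonneg h3 (sub_nonneg.2 h4),
        mul_nonneg h1 (sub_nonneg.2 h4), mul_nonneg h3 (sub_nonneg.2 h2)]
    · intro ξ h1 h2
      have h3 := hr ξ
      have h4 := abs_nonneg (X - ξ.1 - ξ.2)
      have h5 := abs_nonneg ξ.1
      have h6 := abs_nonneg ξ.2
      generalize |X - ξ.1 - ξ.2| = r at *
      generalize |ξ.1| = u at *
      generalize |ξ.2| = v at *
      simp only [G12_g, P4, n4]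
      nlinarith [mul_nonneg h5 h6, mul_nonneg h5 (sub_nonneg.2 h3), mul_nonneg h6 (sub_nonneg.2 h3),
        mul_nonneg h5 (sq_nonneg r), mul_nonneg h6 (sq_nonneg r), mul_nonneg h5 (sq_nonneg v),
        mul_nonneg (sub_nonneg.2 h3) (by linarith : (0 : ℝ) ≤ 3 / 5 - r - u - v)]
    · norm_num [G44]
  -- C R C
  · refine G12_int _ (8717/10000) (9432/10000) (0) (-(896/1000)) (0) (0) _ ?_ ?_ ?_
    · intro r s h1 h2 h3 h4
      nlinarith [mul_nonneg h1 h3, mul_nonneg h1 (sub_nonneg.2 h2), mul_nonneg h3 (sub_nonneg.2 h4),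
        mul_nonneg h1 (sub_nonneg.2 h4), mul_nonneg h3 (sub_nonneg.2 h2)]
    · intro ξ h1 h2
      have h3 := hr ξ
      have h4 := abs_nonneg (X - ξ.1 - ξ.2)
      have h5 := abs_nonneg ξ.1
      have h6 := abs_nonneg ξ.2
      generalize |X - ξ.1 - ξ.2| = r at *
      generalize |ξ.1| = u at *
      generalize |ξ.2| = v at *
      simp only [G12_g, P4, n4]
      nlinarith [mul_nonneg h5 h6, mul_nonneg h5 (sub_nonneg.2 h3), mul_nonneg h6 (sub_nonneg.2 h3),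
        mul_nonneg h5 (sq_nonneg r), mul_nonneg h6 (sq_nonneg r), mul_nonneg h5 (sq_nonneg v),
        mul_nonneg (sub_nonneg.2 h3) (by linarith : (0 : ℝ) ≤ 3 / 5 - r - u - v)]
    · norm_num [G44]
  -- C R S
  · refine G12_int _ (8717/10000) (2765/10000) (0) (0) (1/2) (0) _ ?_ ?_ ?_
    · intro r s h1 h2 h3 h4
      nlinarith [mul_nonneg h1 h3, mul_nonneg h1 (sub_nonneg.2 h2), mul_nonneg h3 (sub_nonneg.2 h4),
        mul_nonneg h1 (sub_nonneg.2 h4), mul_nonneg h3 (sub_nonneg.2 h2)]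
    · intro ξ h1 h2
      have h3 := hr ξ
      have h4 := abs_nonneg (X - ξ.1 - ξ.2)
      have h5 := abs_nonneg ξ.1
      have h6 := abs_nonneg ξ.2
      generalize |X - ξ.1 - ξ.2| = r at *
      generalize |ξ.1| = u at *
      generalize |ξ.2| = v at *
      simp only [G12_g, P4, n4]
      nlinarith [mul_nonneg h5 h6, mul_nonneg h5 (sub_nonneg.2 h3), mul_nonneg h6 (sub_nonneg.2 h3),
        mul_nonneg h5 (sq_nonneg r), mul_nonneg h6 (sq_nonneg r), mul_nonneg h5 (sq_nonneg v),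
        mul_nonneg (sub_nonneg.2 h3) (by linarith : (0 : ℝ) ≤ 3 / 5 - r - u - v)]
    · norm_num [G44]
  -- C R R
  · refine G12_int _ (8717/10000) (1482/10000) (0) (0) (9432/10000) (0) _ ?_ ?_ ?_
    · intro r s h1 h2 h3 h4
      nlinarith [mul_nonneg h1 h3, mul_nonneg h1 (sub_nonneg.2 h2), mul_nonneg h3 (sub_nonneg.2 h4),
        mul_nonneg h1 (sub_nonneg.2 h4), mul_nonneg h3 (sub_nonneg.2 h2)]
    · intro ξ h1 h2
      have h3 := hr ξ
      have h4 := abs_nonneg (X - ξ.1 - ξ.2)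
      have h5 := abs_nonneg ξ.1
      have h6 := abs_nonneg ξ.2
      generalize |X - ξ.1 - ξ.2| = r at *
      generalize |ξ.1| = u at *
      generalize |ξ.2| = v at *
      simp only [G12_g, P4, n4]
      nlinarith [mul_nonneg h5 h6, mul_nonneg h5 (sub_nonneg.2 h3), mul_nonneg h6 (sub_nonneg.2 h3),
        mul_nonneg h5 (sq_nonneg r), mul_nonneg h6 (sq_nonneg r), mul_nonneg h5 (sq_nonneg v),
        mul_nonneg (sub_nonneg.2 h3) (by linarith : (0 : ℝ) ≤ 3 / 5 - r - u - v)]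
    · norm_num [G44]
  -- S C C
  · refine G12_int _ (1+1/40) (1/2) (1/2) (0) (0) (0) _ ?_ ?_ ?_
    · intro r s h1 h2 h3 h4
      nlinarith [mul_nonneg h1 h3, mul_nonneg h1 (sub_nonneg.2 h2), mul_nonneg h3 (sub_nonneg.2 h4),
        mul_nonneg h1 (sub_nonneg.2 h4), mul_nonneg h3 (sub_nonneg.2 h2)]
    · intro ξ h1 h2
      have h3 := hr ξ
      have h4 := abs_nonneg (X - ξ.1 - ξ.2)
      have h5 := abs_nonneg ξ.1
      have h6 := abs_nonneg ξ.2
      generalize |X - ξ.1 - ξ.2| = r at *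
      generalize |ξ.1| = u at *
      generalize |ξ.2| = v at *
      simp only [G12_g, P4, n4]
      nlinarith [mul_nonneg h5 h6, mul_nonneg h5 (sub_nonneg.2 h3), mul_nonneg h6 (sub_nonneg.2 h3),
        mul_nonneg h5 (sq_nonneg r), mul_nonneg h6 (sq_nonneg r), mul_nonneg h5 (sq_nonneg v),
        mul_nonneg (sub_nonneg.2 h3) (by linarith : (0 : ℝ) ≤ 3 / 5 - r - u - v)]
    · norm_num [G44]
  -- S C S
  · refine G12_int _ (1) (0) (1/80) (0) (1/4) (1/4) _ ?_ ?_ ?_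
    · intro r s h1 h2 h3 h4
      nlinarith [mul_nonneg h1 h3, mul_nonneg h1 (sub_nonneg.2 h2), mul_nonneg h3 (sub_nonneg.2 h4),
        mul_nonneg h1 (sub_nonneg.2 h4), mul_nonneg h3 (sub_nonneg.2 h2)]
    · intro ξ h1 h2
      have h3 := hr ξ
      have h4 := abs_nonneg (X - ξ.1 - ξ.2)
      have h5 := abs_nonneg ξ.1
      have h6 := abs_nonneg ξ.2
      generalize |X - ξ.1 - ξ.2| = r at *
      generalize |ξ.1| = u at *
      generalize |ξ.2| = v at *
      simp only [G12_g, P4, n4]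
      nlinarith [mul_nonneg h5 h6, mul_nonneg h5 (sub_nonneg.2 h3), mul_nonneg h6 (sub_nonneg.2 h3),
        mul_nonneg h5 (sq_nonneg r), mul_nonneg h6 (sq_nonneg r), mul_nonneg h5 (sq_nonneg v),
        mul_nonneg (sub_nonneg.2 h3) (by linarith : (0 : ℝ) ≤ 3 / 5 - r - u - v)]
    · norm_num [G44]
  -- S C R
  · refine G12_int _ (8717/10000) (0) (2765/10000+1/40) (0) (1/2) (1/2) _ ?_ ?_ ?_
    · intro r s h1 h2 h3 h4
      nlinarith [mul_nonneg h1 h3, mul_nonneg h1 (sub_nonneg.2 h2), mul_nonneg h3 (sub_nonneg.2 h4),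
        mul_nonneg h1 (sub_nonneg.2 h4), mul_nonneg h3 (sub_nonneg.2 h2)]
    · intro ξ h1 h2
      have h3 := hr ξ
      have h4 := abs_nonneg (X - ξ.1 - ξ.2)
      have h5 := abs_nonneg ξ.1
      have h6 := abs_nonneg ξ.2
      generalize |X - ξ.1 - ξ.2| = r at *
      generalize |ξ.1| = u at *
      generalize |ξ.2| = v at *
      simp only [G12_g, P4, n4]
      nlinarith [mul_nonneg h5 h6, mul_nonneg h5 (sub_nonneg.2 h3), mul_nonneg h6 (sub_nonneg.2 h3),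
        mul_nonneg h5 (sq_nonneg r), mul_nonneg h6 (sq_nonneg r), mul_nonneg h5 (sq_nonneg v),
        mul_nonneg (sub_nonneg.2 h3) (by linarith : (0 : ℝ) ≤ 3 / 5 - r - u - v)]
    · norm_num [G44]
  -- S S C
  · refine G12_int _ (1) (1/80) (0) (1/4) (1/4) (0) _ ?_ ?_ ?_
    · intro r s h1 h2 h3 h4
      nlinarith [mul_nonneg h1 h3, mul_nonneg h1 (sub_nonneg.2 h2), mul_nonneg h3 (sub_nonneg.2 h4),
        mul_nonneg h1 (sub_nonneg.2 h4), mul_nonneg h3 (sub_nonneg.2 h2)]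
    · intro ξ h1 h2
      have h3 := hr ξ
      have h4 := abs_nonneg (X - ξ.1 - ξ.2)
      have h5 := abs_nonneg ξ.1
      have h6 := abs_nonneg ξ.2
      generalize |X - ξ.1 - ξ.2| = r at *
      generalize |ξ.1| = u at *
      generalize |ξ.2| = v at *
      simp only [G12_g, P4, n4]
      nlinarith [mul_nonneg h5 h6, mul_nonneg h5 (sub_nonneg.2 h3), mul_nonneg h6 (sub_nonneg.2 h3),
        mul_nonneg h5 (sq_nonneg r), mul_nonneg h6 (sq_nonneg r), mul_nonneg h5 (sq_nonneg v),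
        mul_nonneg (sub_nonneg.2 h3) (by linarith : (0 : ℝ) ≤ 3 / 5 - r - u - v)]
    · norm_num [G44]
  -- S S S
  · refine G12_int _ (1) (0) (0) (0) (1/4) (0) _ ?_ ?_ ?_
    · intro r s h1 h2 h3 h4
      nlinarith [mul_nonneg h1 h3, mul_nonneg h1 (sub_nonneg.2 h2), mul_nonneg h3 (sub_nonneg.2 h4),
        mul_nonneg h1 (sub_nonneg.2 h4), mul_nonneg h3 (sub_nonneg.2 h2)]
    · intro ξ h1 h2
      have h3 := hr ξ
      have h4 := abs_nonneg (X - ξ.1 - ξ.2)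
      have h5 := abs_nonneg ξ.1
      have h6 := abs_nonneg ξ.2
      generalize |X - ξ.1 - ξ.2| = r at *
      generalize |ξ.1| = u at *
      generalize |ξ.2| = v at *
      simp only [G12_g, P4, n4]
      nlinarith [mul_nonneg h5 h6, mul_nonneg h5 (sub_nonneg.2 h3), mul_nonneg h6 (sub_nonneg.2 h3),
        mul_nonneg h5 (sq_nonneg r), mul_nonneg h6 (sq_nonneg r), mul_nonneg h5 (sq_nonneg v),
        mul_nonneg (sub_nonneg.2 h3) (by linarith : (0 : ℝ) ≤ 3 / 5 - r - u - v)]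
    · norm_num [G44]
  -- S S R
  · refine G12_int _ (8717/10000) (0) (2765/10000) (0) (1/2) (0) _ ?_ ?_ ?_
    · intro r s h1 h2 h3 h4
      nlinarith [mul_nonneg h1 h3, mul_nonneg h1 (sub_nonneg.2 h2), mul_nonneg h3 (sub_nonneg.2 h4),
        mul_nonneg h1 (sub_nonneg.2 h4), mul_nonneg h3 (sub_nonneg.2 h2)]
    · intro ξ h1 h2
      have h3 := hr ξ
      have h4 := abs_nonneg (X - ξ.1 - ξ.2)
      have h5 := abs_nonneg ξ.1
      have h6 := abs_nonneg ξ.2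
      generalize |X - ξ.1 - ξ.2| = r at *
      generalize |ξ.1| = u at *
      generalize |ξ.2| = v at *
      simp only [G12_g, P4, n4]
      nlinarith [mul_nonneg h5 h6, mul_nonneg h5 (sub_nonneg.2 h3), mul_nonneg h6 (sub_nonneg.2 h3),
        mul_nonneg h5 (sq_nonneg r), mul_nonneg h6 (sq_nonneg r), mul_nonneg h5 (sq_nonneg v),
        mul_nonneg (sub_nonneg.2 h3) (by linarith : (0 : ℝ) ≤ 3 / 5 - r - u - v)]
    · norm_num [G44]
  -- S R C
  · refine G12_int _ (8717/10000) (2765/10000+1/40) (0) (1/2) (1/2) (0) _ ?_ ?_ ?_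
    · intro r s h1 h2 h3 h4
      nlinarith [mul_nonneg h1 h3, mul_nonneg h1 (sub_nonneg.2 h2), mul_nonneg h3 (sub_nonneg.2 h4),
        mul_nonneg h1 (sub_nonneg.2 h4), mul_nonneg h3 (sub_nonneg.2 h2)]
    · intro ξ h1 h2
      have h3 := hr ξ
      have h4 := abs_nonneg (X - ξ.1 - ξ.2)
      have h5 := abs_nonneg ξ.1
      have h6 := abs_nonneg ξ.2
      generalize |X - ξ.1 - ξ.2| = r at *
      generalize |ξ.1| = u at *
      generalize |ξ.2| = v at *
      simp only [G12_g, P4, n4]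
      nlinarith [mul_nonneg h5 h6, mul_nonneg h5 (sub_nonneg.2 h3), mul_nonneg h6 (sub_nonneg.2 h3),
        mul_nonneg h5 (sq_nonneg r), mul_nonneg h6 (sq_nonneg r), mul_nonneg h5 (sq_nonneg v),
        mul_nonneg (sub_nonneg.2 h3) (by linarith : (0 : ℝ) ≤ 3 / 5 - r - u - v)]
    · norm_num [G44]
  -- S R S
  · refine G12_int _ (8717/10000) (2765/10000) (0) (0) (1/2) (0) _ ?_ ?_ ?_
    · intro r s h1 h2 h3 h4
      nlinarith [mul_nonneg h1 h3, mul_nonneg h1 (sub_nonneg.2 h2), mul_nonneg h3 (sub_nonneg.2 h4),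
        mul_nonneg h1 (sub_nonneg.2 h4), mul_nonneg h3 (sub_nonneg.2 h2)]
    · intro ξ h1 h2
      have h3 := hr ξ
      have h4 := abs_nonneg (X - ξ.1 - ξ.2)
      have h5 := abs_nonneg ξ.1
      have h6 := abs_nonneg ξ.2
      generalize |X - ξ.1 - ξ.2| = r at *
      generalize |ξ.1| = u at *
      generalize |ξ.2| = v at *
      simp only [G12_g, P4, n4]
      nlinarith [mul_nonneg h5 h6, mul_nonneg h5 (sub_nonneg.2 h3), mul_nonneg h6 (sub_nonneg.2 h3),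
        mul_nonneg h5 (sq_nonneg r), mul_nonneg h6 (sq_nonneg r), mul_nonneg h5 (sq_nonneg v),
        mul_nonneg (sub_nonneg.2 h3) (by linarith : (0 : ℝ) ≤ 3 / 5 - r - u - v)]
    · norm_num [G44]
  -- S R R
  · refine G12_int _ (8717/10000) (1482/10000) (0) (0) (9432/10000) (0) _ ?_ ?_ ?_
    · intro r s h1 h2 h3 h4
      nlinarith [mul_nonneg h1 h3, mul_nonneg h1 (sub_nonneg.2 h2), mul_nonneg h3 (sub_nonneg.2 h4),
        mul_nonneg h1 (sub_nonneg.2 h4), mul_nonneg h3 (sub_nonneg.2 h2)]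
    · intro ξ h1 h2
      have h3 := hr ξ
      have h4 := abs_nonneg (X - ξ.1 - ξ.2)
      have h5 := abs_nonneg ξ.1
      have h6 := abs_nonneg ξ.2
      generalize |X - ξ.1 - ξ.2| = r at *
      generalize |ξ.1| = u at *
      generalize |ξ.2| = v at *
      simp only [G12_g, P4, n4]
      nlinarith [mul_nonneg h5 h6, mul_nonneg h5 (sub_nonneg.2 h3), mul_nonneg h6 (sub_nonneg.2 h3),
        mul_nonneg h5 (sq_nonneg r), mul_nonneg h6 (sq_nonneg r), mul_nonneg h5 (sq_nonneg v),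
        mul_nonneg (sub_nonneg.2 h3) (by linarith : (0 : ℝ) ≤ 3 / 5 - r - u - v)]
    · norm_num [G44]
  -- R C C
  · refine G12_int _ (8717/10000+9432/200000-896/400000) (9432/10000-896/10000) (9432/10000-896/10000) (-(896/1000)) (-(1792/1000)) (-(896/1000)) _ ?_ ?_ ?_
    · intro r s h1 h2 h3 h4
      nlinarith [mul_nonneg h1 h3, mul_nonneg h1 (sub_nonneg.2 h2), mul_nonneg h3 (sub_nonneg.2 h4),
        mul_nonneg h1 (sub_nonneg.2 h4), mul_nonneg h3 (sub_nonneg.2 h2)]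
    · intro ξ h1 h2
      have h3 := hr ξ
      have h4 := abs_nonneg (X - ξ.1 - ξ.2)
      have h5 := abs_nonneg ξ.1
      have h6 := abs_nonneg ξ.2
      generalize |X - ξ.1 - ξ.2| = r at *
      generalize |ξ.1| = u at *
      generalize |ξ.2| = v at *
      simp only [G12_g, P4, n4]
      nlinarith [mul_nonneg h5 h6, mul_nonneg h5 (sub_nonneg.2 h3), mul_nonneg h6 (sub_nonneg.2 h3),
        mul_nonneg h5 (sq_nonneg r), mul_nonneg h6 (sq_nonneg r), mul_nonneg h5 (sq_nonneg v),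
        mul_nonneg (sub_nonneg.2 h3) (by linarith : (0 : ℝ) ≤ 3 / 5 - r - u - v)]
    · norm_num [G44]
  -- R C S
  · refine G12_int _ (8717/10000+2765/200000) (2765/10000) (2765/10000+1/40) (0) (1/2) (1/2) _ ?_ ?_ ?_
    · intro r s h1 h2 h3 h4
      nlinarith [mul_nonneg h1 h3, mul_nonneg h1 (sub_nonneg.2 h2), mul_nonneg h3 (sub_nonneg.2 h4),
        mul_nonneg h1 (sub_nonneg.2 h4), mul_nonneg h3 (sub_nonneg.2 h2)]
    · intro ξ h1 h2
      have h3 := hr ξ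
      have h4 := abs_nonneg (X - ξ.1 - ξ.2)
      have h5 := abs_nonneg ξ.1
      have h6 := abs_nonneg ξ.2
      generalize |X - ξ.1 - ξ.2| = r at *
      generalize |ξ.1| = u at *
      generalize |ξ.2| = v at *
      simp only [G12_g, P4, n4]
      nlinarith [mul_nonneg h5 h6, mul_nonneg h5 (sub_nonneg.2 h3), mul_nonneg h6 (sub_nonneg.2 h3),
        mul_nonneg h5 (sq_nonneg r), mul_nonneg h6 (sq_nonneg r), mul_nonneg h5 (sq_nonneg v),
        mul_nonneg (sub_nonneg.2 h3) (by linarith : (0 : ℝ) ≤ 3 / 5 - r - u - v)]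
    · norm_num [G44]
  -- R C R
  · refine G12_int _ (8717/10000) (0) (1482/10000+9432/200000) (0) (9432/10000) (9432/10000) _ ?_ ?_ ?_
    · intro r s h1 h2 h3 h4
      nlinarith [mul_nonneg h1 h3, mul_nonneg h1 (sub_nonneg.2 h2), mul_nonneg h3 (sub_nonneg.2 h4),
        mul_nonneg h1 (sub_nonneg.2 h4), mul_nonneg h3 (sub_nonneg.2 h2)]
    · intro ξ h1 h2
      have h3 := hr ξ
      have h4 := abs_nonneg (X - ξ.1 - ξ.2)
      have h5 := abs_nonneg ξ.1
      have h6 := abs_nonneg ξ.2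
      generalize |X - ξ.1 - ξ.2| = r at *
      generalize |ξ.1| = u at *
      generalize |ξ.2| = v at *
      simp only [G12_g, P4, n4]
      nlinarith [mul_nonneg h5 h6, mul_nonneg h5 (sub_nonneg.2 h3), mul_nonneg h6 (sub_nonneg.2 h3),
        mul_nonneg h5 (sq_nonneg r), mul_nonneg h6 (sq_nonneg r), mul_nonneg h5 (sq_nonneg v),
        mul_nonneg (sub_nonneg.2 h3) (by linarith : (0 : ℝ) ≤ 3 / 5 - r - u - v)]
    · norm_num [G44]
  -- R S C
  · refine G12_int _ (8717/10000+2765/200000) (2765/10000+1/40) (2765/10000) (1/2) (1/2) (0) _ ?_ ?_ ?_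
    · intro r s h1 h2 h3 h4
      nlinarith [mul_nonneg h1 h3, mul_nonneg h1 (sub_nonneg.2 h2), mul_nonneg h3 (sub_nonneg.2 h4),
        mul_nonneg h1 (sub_nonneg.2 h4), mul_nonneg h3 (sub_nonneg.2 h2)]
    · intro ξ h1 h2
      have h3 := hr ξ
      have h4 := abs_nonneg (X - ξ.1 - ξ.2)
      have h5 := abs_nonneg ξ.1
      have h6 := abs_nonneg ξ.2
      generalize |X - ξ.1 - ξ.2| = r at *
      generalize |ξ.1| = u at *
      generalize |ξ.2| = v at *
      simp only [G12_g, P4, n4]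
      nlinarith [mul_nonneg h5 h6, mul_nonneg h5 (sub_nonneg.2 h3), mul_nonneg h6 (sub_nonneg.2 h3),
        mul_nonneg h5 (sq_nonneg r), mul_nonneg h6 (sq_nonneg r), mul_nonneg h5 (sq_nonneg v),
        mul_nonneg (sub_nonneg.2 h3) (by linarith : (0 : ℝ) ≤ 3 / 5 - r - u - v)]
    · norm_num [G44]
  -- R S S
  · refine G12_int _ (8717/10000+2765/200000) (2765/10000+1/40) (2765/10000) (1/2) (1/2) (0) _ ?_ ?_ ?_
    · intro r s h1 h2 h3 h4
      nlinarith [mul_nonneg h1 h3, mul_nonneg h1 (sub_nonneg.2 h2), mul_nonneg h3 (sub_nonneg.2 h4),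
        mul_nonneg h1 (sub_nonneg.2 h4), mul_nonneg h3 (sub_nonneg.2 h2)]
    · intro ξ h1 h2
      have h3 := hr ξ
      have h4 := abs_nonneg (X - ξ.1 - ξ.2)
      have h5 := abs_nonneg ξ.1
      have h6 := abs_nonneg ξ.2
      generalize |X - ξ.1 - ξ.2| = r at *
      generalize |ξ.1| = u at *
      generalize |ξ.2| = v at *
      simp only [G12_g, P4, n4]
      nlinarith [mul_nonneg h5 h6, mul_nonneg h5 (sub_nonneg.2 h3), mul_nonneg h6 (sub_nonneg.2 h3),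
        mul_nonneg h5 (sq_nonneg r), mul_nonneg h6 (sq_nonneg r), mul_nonneg h5 (sq_nonneg v),
        mul_nonneg (sub_nonneg.2 h3) (by linarith : (0 : ℝ) ≤ 3 / 5 - r - u - v)]
    · norm_num [G44]
  -- R S R
  · refine G12_int _ (8717/10000) (0) (2765/10000) (0) (1/2) (0) _ ?_ ?_ ?_
    · intro r s h1 h2 h3 h4
      nlinarith [mul_nonneg h1 h3, mul_nonneg h1 (sub_nonneg.2 h2), mul_nonneg h3 (sub_nonneg.2 h4),
        mul_nonneg h1 (sub_nonneg.2 h4), mul_nonneg h3 (sub_nonneg.2 h2)]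
    · intro ξ h1 h2
      have h3 := hr ξ
      have h4 := abs_nonneg (X - ξ.1 - ξ.2)
      have h5 := abs_nonneg ξ.1
      have h6 := abs_nonneg ξ.2
      generalize |X - ξ.1 - ξ.2| = r at *
      generalize |ξ.1| = u at *
      generalize |ξ.2| = v at *
      simp only [G12_g, P4, n4]
      nlinarith [mul_nonneg h5 h6, mul_nonneg h5 (sub_nonneg.2 h3), mul_nonneg h6 (sub_nonneg.2 h3),
        mul_nonneg h5 (sq_nonneg r), mul_nonneg h6 (sq_nonneg r), mul_nonneg h5 (sq_nonneg v),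
        mul_nonneg (sub_nonneg.2 h3) (by linarith : (0 : ℝ) ≤ 3 / 5 - r - u - v)]
    · norm_num [G44]
  -- R R C
  · refine G12_int _ (8717/10000) (1482/10000+9432/200000) (0) (9432/10000) (9432/10000) (0) _ ?_ ?_ ?_
    · intro r s h1 h2 h3 h4
      nlinarith [mul_nonneg h1 h3, mul_nonneg h1 (sub_nonneg.2 h2), mul_nonneg h3 (sub_nonneg.2 h4),
        mul_nonneg h1 (sub_nonneg.2 h4), mul_nonneg h3 (sub_nonneg.2 h2)]
    · intro ξ h1 h2
      have h3 := hr ξ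
      have h4 := abs_nonneg (X - ξ.1 - ξ.2)
      have h5 := abs_nonneg ξ.1
      have h6 := abs_nonneg ξ.2
      generalize |X - ξ.1 - ξ.2| = r at *
      generalize |ξ.1| = u at *
      generalize |ξ.2| = v at *
      simp only [G12_g, P4, n4]
      nlinarith [mul_nonneg h5 h6, mul_nonneg h5 (sub_nonneg.2 h3), mul_nonneg h6 (sub_nonneg.2 h3),
        mul_nonneg h5 (sq_nonneg r), mul_nonneg h6 (sq_nonneg r), mul_nonneg h5 (sq_nonneg v),
        mul_nonneg (sub_nonneg.2 h3) (by linarith : (0 : ℝ) ≤ 3 / 5 - r - u - v)]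
    · norm_num [G44]
  -- R R S
  · refine G12_int _ (8717/10000) (2765/10000) (0) (0) (1/2) (0) _ ?_ ?_ ?_
    · intro r s h1 h2 h3 h4
      nlinarith [mul_nonneg h1 h3, mul_nonneg h1 (sub_nonneg.2 h2), mul_nonneg h3 (sub_nonneg.2 h4),
        mul_nonneg h1 (sub_nonneg.2 h4), mul_nonneg h3 (sub_nonneg.2 h2)]
    · intro ξ h1 h2
      have h3 := hr ξ
      have h4 := abs_nonneg (X - ξ.1 - ξ.2)
      have h5 := abs_nonneg ξ.1
      have h6 := abs_nonneg ξ.2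
      generalize |X - ξ.1 - ξ.2| = r at *
      generalize |ξ.1| = u at *
      generalize |ξ.2| = v at *
      simp only [G12_g, P4, n4]
      nlinarith [mul_nonneg h5 h6, mul_nonneg h5 (sub_nonneg.2 h3), mul_nonneg h6 (sub_nonneg.2 h3),
        mul_nonneg h5 (sq_nonneg r), mul_nonneg h6 (sq_nonneg r), mul_nonneg h5 (sq_nonneg v),
        mul_nonneg (sub_nonneg.2 h3) (by linarith : (0 : ℝ) ≤ 3 / 5 - r - u - v)]
    · norm_num [G44]
  -- R R R
  · refine G12_int _ (8717/10000) (1482/10000) (0) (0) (9432/10000) (0) _ ?_ ?_ ?_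
    · intro r s h1 h2 h3 h4
      nlinarith [mul_nonneg h1 h3, mul_nonneg h1 (sub_nonneg.2 h2), mul_nonneg h3 (sub_nonneg.2 h4),
        mul_nonneg h1 (sub_nonneg.2 h4), mul_nonneg h3 (sub_nonneg.2 h2)]
    · intro ξ h1 h2
      have h3 := hr ξ
      have h4 := abs_nonneg (X - ξ.1 - ξ.2)
      have h5 := abs_nonneg ξ.1
      have h6 := abs_nonneg ξ.2
      generalize |X - ξ.1 - ξ.2| = r at *
      generalize |ξ.1| = u at *
      generalize |ξ.2| = v at *
      simp only [G12_g, P4, n4]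
      nlinarith [mul_nonneg h5 h6, mul_nonneg h5 (sub_nonneg.2 h3), mul_nonneg h6 (sub_nonneg.2 h3),
        mul_nonneg h5 (sq_nonneg r), mul_nonneg h6 (sq_nonneg r), mul_nonneg h5 (sq_nonneg v),
        mul_nonneg (sub_nonneg.2 h3) (by linarith : (0 : ℝ) ≤ 3 / 5 - r - u - v)]
    · norm_num [G44]

theorem fam_twelve : Fam ((Fin 4 ⊕ Fin 4) ⊕ Fin 4) (1 / 20) := by
  obtain ⟨κ, hκ, bl⟩ := block_four
  have h3 : 3 ≤ Fintype.card (Fin 4) := by simp
  have hh : (3 / 10 : ℝ) ≤ 1 / 2 := by norm_num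
  have h25 : (0 : ℝ) < 3 / 25 := by norm_num
  have := unif_prob h25
  refine three_block (h0 := 1 / 20) h3 h3 h3 κ κ κ bl bl bl hh hh hh
    ((unif (3 / 25)).prod (unif (3 / 25)))
    (fun X ξ => X - ξ.1 - ξ.2) (fun _ ξ => ξ.1) (fun _ ξ => ξ.2) ?_ ?_ ?_ ?_ ?_
    (fun a b c x y w => G12_g a b c |x| |y| |w|) G12_meas
    (fun x y w hx hy hw a b c h => G12_tri bl x y w hx hy hw a b c h)
    G44 G44_pos ?_ G12_exp (fun a a' b b' c c' => G44_mono a a' b b' c c') ?_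
  · have : Measurable (fun p : ℝ × ℝ × ℝ => p.1 - p.2.1 - p.2.2) := by fun_prop
    exact this
  · have : Measurable (fun p : ℝ × ℝ × ℝ => p.2.1) := by fun_prop
    exact this
  · have : Measurable (fun p : ℝ × ℝ × ℝ => p.2.2) := by fun_prop
    exact this
  · intro X ξ
    ring
  · intro X hX
    have h1 : ∀ᵐ ξ ∂((unif (3 / 25)).prod (unif (3 / 25))), |ξ.1| ≤ 3 / 25 :=
      Measure.quasiMeasurePreserving_fst.ae (unif_ae (h := 3 / 25))
    have h2 : ∀ᵐ ξ ∂((unif (3 / 25)).prod (unif (3 / 25))), |ξ.2| ≤ 3 / 25 :=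
      Measure.quasiMeasurePreserving_snd.ae (unif_ae (h := 3 / 25))
    filter_upwards [h1, h2] with ξ h1 h2
    refine ⟨?_, by linarith, by linarith⟩
    have h3 := abs_sub (X - ξ.1) ξ.2
    have h4 := abs_sub X ξ.1
    linarith
  · intro X _ p q s hpqs
    have e : (fun ξ : ℝ × ℝ => (p : ℝ) * (X - ξ.1 - ξ.2) + q * ξ.1 + s * ξ.2) =
        fun ξ => ((q : ℝ) - p) * ξ.1 + ((s : ℝ) - p) * ξ.2 + p * X := by
      funext ξ
      ring
    have eG : G44 Ty.C Ty.C Ty.C = 1 / (3 / 25) := by norm_num [G44]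
    show HasLoad (((unif (3 / 25)).prod (unif (3 / 25))).map
      (fun ξ : ℝ × ℝ => (p : ℝ) * (X - ξ.1 - ξ.2) + q * ξ.1 + s * ξ.2)) _
    rw [e, eG]
    by_cases h : q = p
    · have hs : s ≠ p := by
        intro h'
        exact hpqs ⟨h.symm, h.trans h'.symm⟩
      apply unif_lin_load_snd h25 h25
      have : 1 ≤ |s - p| := Int.one_le_abs (sub_ne_zero.2 hs)
      exact_mod_cast this
    · apply unif_lin_load_fst h25 h25
      have : 1 ≤ |q - p| := Int.one_le_abs (sub_ne_zero.2 h)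
      exact_mod_cast this
  · intro t h2 ht
    have h := G44_sum4 t h2 (by simpa using ht)
    simpa using h

end Pool.Agent.helper49.Slope
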