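import Pool.Agent.helper49.Slope.DefsK

/-!
MP_aedd95_co (slope of k-fold hyperplane covers of triangular grids), module K1.
Geometry of the block 5* (9 elements). `C = ca q + cb q`, `|C| ≤ 7/6` for admissible `q`.
-/

set_option autoImplicit false

open MeasureTheory ProbabilityTheory
open scoped ENNReal

namespace Pool.Agent.helper49.Slope

theorem v9_measurable : Measurable v9 := by
  rw [measurable_pi_iff]
  rintro (i | i) <;> rw [measurable_pi_iff] <;> intro k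
  · fin_cases i <;> fin_cases k <;> simp [v9, ca, cb] <;> fun_prop
  · fin_cases i <;> fin_cases k <;> simp [v9, ca, cb] <;> fun_prop

theorem d9_measurable : Measurable d9 := by
  rw [measurable_pi_iff]
  rintro (i | i)
  · fin_cases i <;> simp [d9, ca, cb] <;> fun_prop
  · fin_cases i <;> simp [d9]

theorem xA_measurable : Measurable xA := by
  unfold xA
  fun_prop

theorem v9_sum (q : Q9) (k : Fin 3) : ∑ i, v9 q i k = 0 := by
  rw [Fintype.sum_sum_type, Fin.sum_univ_two, Fin.sum_univ_three]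
  fin_cases k <;> simp [v9] <;> ring

/-- `η (1 - ca) - η (1 - cb) = η (cb - ca)` -/
theorem d9_sum (q : Q9) : ∑ i, d9 q i = xA q := by
  rw [Fintype.sum_sum_type, Fin.sum_univ_two, Fin.sum_univ_three]
  simp only [d9, xA, ca, cb, Sum.elim_inl, Sum.elim_inr, Matrix.cons_val]
  ring

theorem K1_C_sq (q : Q9) (h : Val q) : (ca q + cb q) ^ 2 ≤ 49 / 36 := by
  have h1 := abs_le.mp h.1
  have h2 := abs_le.mp h.2.1
  unfold ca cb
  nlinarith [h1.1, h1.2, h2.1, h2.2]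

theorem K1_sqrt_sq (q : Q9) (h : Val q) :
    Real.sqrt (1 - (ca q + cb q) ^ 2 / 9) ^ 2 = 1 - (ca q + cb q) ^ 2 / 9 := by
  apply Real.sq_sqrt
  have := K1_C_sq q h
  linarith

theorem v9_norm (q : Q9) (h : Val q) (i : Fin 2 ⊕ Fin 3) :
    Real.sqrt (∑ k, v9 q i k ^ 2) + |d9 q i| ≤ 1 := by
  have h1 := abs_le.mp h.1
  have h2 := abs_le.mp h.2.1
  have hw := K1_sqrt_sq q h
  have h3 : Real.sqrt 3 ^ 2 = 3 := Real.sq_sqrt (by norm_num)
  have hη : |q.2| = 1 := by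
    rcases h.2.2 with h | h <;> rw [h] <;> simp
  have hca : 0 ≤ ca q := by unfold ca; linarith [h1.1]
  have hcb : 0 ≤ cb q := by unfold cb; linarith [h2.1]
  have hca' : 0 ≤ 1 - ca q := by unfold ca; linarith [h1.2]
  have hcb' : 0 ≤ 1 - cb q := by unfold cb; linarith [h2.2]
  rw [Fin.sum_univ_three]
  rcases i with i | i
  · fin_cases i
    · simp only [v9, d9, Sum.elim_inl, Matrix.cons_val, Fin.zero_eta, Fin.mk_one]
      have e : ca q ^ 2 + 0 ^ 2 + 0 ^ 2 = ca q ^ 2 := by ring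
      rw [e, Real.sqrt_sq hca, abs_mul, hη, one_mul, abs_of_nonneg hca']
      linarith
    · simp only [v9, d9, Sum.elim_inl, Matrix.cons_val, Fin.zero_eta, Fin.mk_one]
      have e : cb q ^ 2 + 0 ^ 2 + 0 ^ 2 = cb q ^ 2 := by ring
      rw [e, Real.sqrt_sq hcb, abs_neg, abs_mul, hη, one_mul, abs_of_nonneg hcb']
      linarith
  · have hd : |d9 q (Sum.inr i)| = 0 := by
      fin_cases i <;> simp [d9]
    have e1 : v9 q (Sum.inr i) 0 ^ 2 + v9 q (Sum.inr i) 1 ^ 2 + v9 q (Sum.inr i) 2 ^ 2 = 1 := by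
      fin_cases i
      · simp only [v9, Sum.elim_inr, Matrix.cons_val, Fin.zero_eta]
        linear_combination hw
      · simp only [v9, Sum.elim_inr, Matrix.cons_val, Fin.mk_one]
        linear_combination (1 / 4 + Real.sqrt 3 ^ 2 / 4) * hw
          + (1 - (ca q + cb q) ^ 2 / 9) / 4 * h3
      · simp only [v9, Sum.elim_inr, Matrix.cons_val, Fin.reduceFinMk]
        linear_combination (1 / 4 + Real.sqrt 3 ^ 2 / 4) * hw
          + (1 - (ca q + cb q) ^ 2 / 9) / 4 * h3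
    rw [e1, hd, Real.sqrt_one, add_zero]

/-- `V² = (a ca + b cb - C σ/3)² + (9 - C²)/18 Δ` with `σ` the sum over the units -/
theorem vsq_v9 (q : Q9) (h : Val q) (u : Fin 2 ⊕ Fin 3 → ℤ) :
    vsq (v9 q) u = ((u (Sum.inl 0) : ℝ) * ca q + (u (Sum.inl 1) : ℝ) * cb q
        - (ca q + cb q) * ((u (Sum.inr 0) : ℝ) + u (Sum.inr 1) + u (Sum.inr 2)) / 3) ^ 2
      + (9 - (ca q + cb q) ^ 2) / 18 * (del9 u : ℝ) := by
  have hw := K1_sqrt_sq q h
  have h3 : Real.sqrt 3 ^ 2 = 3 := Real.sq_sqrt (by norm_num)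
  unfold vsq
  rw [Fin.sum_univ_three]
  simp only [Fintype.sum_sum_type, Fin.sum_univ_two, Fin.sum_univ_three, v9, Sum.elim_inl,
    Sum.elim_inr, Matrix.cons_val, del9]
  push_cast
  set w := Real.sqrt (1 - (ca q + cb q) ^ 2 / 9) with hwdef
  set r := Real.sqrt 3 with hr
  linear_combination (((u (Sum.inr 0) : ℝ) - ((u (Sum.inr 1) : ℝ) + u (Sum.inr 2)) / 2) ^ 2
    + r ^ 2 / 4 * ((u (Sum.inr 1) : ℝ) - u (Sum.inr 2)) ^ 2) * hw
    + (1 - (ca q + cb q) ^ 2 / 9) / 4 * ((u (Sum.inr 1) : ℝ) - u (Sum.inr 2)) ^ 2 * h3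

theorem lin_d9 (q : Q9) (u : Fin 2 ⊕ Fin 3 → ℤ) :
    ∑ i, (u i : ℝ) * d9 q i
      = q.2 * ((u (Sum.inl 0) : ℝ) * (1 - ca q) - (u (Sum.inl 1) : ℝ) * (1 - cb q)) := by
  rw [Fintype.sum_sum_type, Fin.sum_univ_two, Fin.sum_univ_three]
  simp only [d9, Sum.elim_inl, Sum.elim_inr, Matrix.cons_val]
  ring

theorem K1_bound (q : Q9) (h : Val q) (u : Fin 2 ⊕ Fin 3 → ℤ) (m : ℝ) (hm : 0 ≤ m)
    (hu : m ≤ (del9 u : ℝ)) : m * (275 / 648) ≤ vsq (v9 q) u := by
  have hC := K1_C_sq q h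
  rw [vsq_v9 q h u]
  have h1 : (275 / 648 : ℝ) ≤ (9 - (ca q + cb q) ^ 2) / 18 := by linarith
  have h2 : m * (275 / 648) ≤ (9 - (ca q + cb q) ^ 2) / 18 * (del9 u : ℝ) := by
    calc m * (275 / 648) ≤ (del9 u : ℝ) * ((9 - (ca q + cb q) ^ 2) / 18) :=
          mul_le_mul hu h1 (by norm_num) (hm.trans hu)
      _ = _ := by ring
  have h3 := sq_nonneg ((u (Sum.inl 0) : ℝ) * ca q + (u (Sum.inl 1) : ℝ) * cb q
        - (ca q + cb q) * ((u (Sum.inr 0) : ℝ) + u (Sum.inr 1) + u (Sum.inr 2)) / 3)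
  linarith

/-- units not all equal: `Δ ≥ 2`, `V² ≥ 1 - C²/9 ≥ 275/324`, and `1/√(275/324) ≤ 1.0855` -/
theorem v9_unequal (q : Q9) (h : Val q) (u : Fin 2 ⊕ Fin 3 → ℤ) (hu : ¬ ∃ t, UEq u t) :
    0 < vsq (v9 q) u ∧ 1 / Real.sqrt (vsq (v9 q) u) ≤ 10855 / 10000 := by
  have hd : 2 ≤ del9 u := by
    unfold del9
    by_contra hcon
    apply hu
    have hcon' := not_le.1 hcon
    have a1 : (u (Sum.inr 0) - u (Sum.inr 1)) ^ 2 < 1 := by
      by_contra h1
      rw [not_lt] at h1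
      by_cases h2 : u (Sum.inr 0) = u (Sum.inr 2)
      · have h3 : (u (Sum.inr 1) - u (Sum.inr 2)) ^ 2 = (u (Sum.inr 0) - u (Sum.inr 1)) ^ 2 := by
          rw [← h2]; ring
        nlinarith [sq_nonneg (u (Sum.inr 0) - u (Sum.inr 2))]
      · have h3 : 1 ≤ (u (Sum.inr 0) - u (Sum.inr 2)) ^ 2 := by
          have : u (Sum.inr 0) - u (Sum.inr 2) ≠ 0 := sub_ne_zero.2 h2
          have := sq_pos_of_ne_zero this
          omega
        nlinarith [sq_nonneg (u (Sum.inr 1) - u (Sum.inr 2))]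
    have e1 : u (Sum.inr 0) = u (Sum.inr 1) := by
      have h5 : (u (Sum.inr 0) - u (Sum.inr 1)) ^ 2 = 0 := by
        have := sq_nonneg (u (Sum.inr 0) - u (Sum.inr 1))
        omega
      have := pow_eq_zero_iff (two_ne_zero) |>.1 h5
      linarith
    have e2 : u (Sum.inr 0) = u (Sum.inr 2) := by
      by_contra h2
      have h3 : 1 ≤ (u (Sum.inr 0) - u (Sum.inr 2)) ^ 2 := by
        have : u (Sum.inr 0) - u (Sum.inr 2) ≠ 0 := sub_ne_zero.2 h2
        have := sq_pos_of_ne_zero this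
        omega
      rw [← e1] at hcon'
      nlinarith
    refine ⟨u (Sum.inr 0), fun k => ?_⟩
    fin_cases k
    · rfl
    · exact e1.symm
    · exact e2.symm
  have hb := K1_bound q h u 2 (by norm_num) (by exact_mod_cast hd)
  have hpos : 0 < vsq (v9 q) u := by linarith
  refine ⟨hpos, ?_⟩
  have hs : 10000 / 10855 ≤ Real.sqrt (vsq (v9 q) u) := by
    apply Real.le_sqrt_of_sq_le
    have : ((10000 : ℝ) / 10855) ^ 2 ≤ 2 * (275 / 648) := by norm_num
    linarith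
  rw [div_le_iff₀ (by linarith)]
  calc (1 : ℝ) = 10855 / 10000 * (10000 / 10855) := by norm_num
    _ ≤ _ := by gcongr

/-- three different values on the units: `Δ ≥ 6`, `V² ≥ 3 - C²/3 ≥ 2.546` -/
theorem v9_three (q : Q9) (h : Val q) (u : Fin 2 ⊕ Fin 3 → ℤ)
    (hu : u (Sum.inr 0) ≠ u (Sum.inr 1) ∧ u (Sum.inr 0) ≠ u (Sum.inr 2) ∧
      u (Sum.inr 1) ≠ u (Sum.inr 2)) :
    0 < vsq (v9 q) u ∧ 1 / Real.sqrt (vsq (v9 q) u) ≤ 627 / 1000 := by
  have hd : 6 ≤ del9 u := by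
    unfold del9
    obtain ⟨h1, h2, h3⟩ := hu
    obtain ⟨x, hx⟩ : ∃ x, x = u (Sum.inr 0) - u (Sum.inr 1) := ⟨_, rfl⟩
    obtain ⟨y, hy⟩ : ∃ y, y = u (Sum.inr 1) - u (Sum.inr 2) := ⟨_, rfl⟩
    have hxy : u (Sum.inr 0) - u (Sum.inr 2) = x + y := by rw [hx, hy]; ring
    rw [← hx, ← hy, hxy]
    have hx0 : x ≠ 0 := by rw [hx]; exact sub_ne_zero.2 h1
    have hy0 : y ≠ 0 := by rw [hy]; exact sub_ne_zero.2 h3
    have hxy0 : x + y ≠ 0 := by rw [← hxy]; exact sub_ne_zero.2 h2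
    by_contra hcon
    rw [not_le] at hcon
    have hx1 : x ^ 2 < 6 := by nlinarith [sq_nonneg (x + y), sq_nonneg y]
    have hy1 : y ^ 2 < 6 := by nlinarith [sq_nonneg (x + y), sq_nonneg x]
    have hxl : -2 ≤ x := by nlinarith
    have hxu : x ≤ 2 := by nlinarith
    have hyl : -2 ≤ y := by nlinarith
    have hyu : y ≤ 2 := by nlinarith
    clear hx hy hxy h1 h2 h3 hx1 hy1
    interval_cases x <;> interval_cases y <;>
      first
        | exact absurd rfl hx0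
        | exact absurd rfl hy0
        | (revert hxy0; norm_num; done)
        | (revert hcon; norm_num; done)
  have hb := K1_bound q h u 6 (by norm_num) (by exact_mod_cast hd)
  have hpos : 0 < vsq (v9 q) u := by linarith
  refine ⟨hpos, ?_⟩
  have hs : 1000 / 627 ≤ Real.sqrt (vsq (v9 q) u) := by
    apply Real.le_sqrt_of_sq_le
    have : ((1000 : ℝ) / 627) ^ 2 ≤ 6 * (275 / 648) := by norm_num
    linarith
  rw [div_le_iff₀ (by linarith)]
  calc (1 : ℝ) = 627 / 1000 * (1000 / 627) := by norm_num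
    _ ≤ _ := by gcongr

/-- units equal to `t`: `V = |(a-t) ca + (b-t) cb|` -/
theorem vsq_v9_eq (q : Q9) (h : Val q) (u : Fin 2 ⊕ Fin 3 → ℤ) (t : ℤ) (hu : UEq u t) :
    vsq (v9 q) u = (((u (Sum.inl 0) : ℝ) - t) * ca q + ((u (Sum.inl 1) : ℝ) - t) * cb q) ^ 2 := by
  rw [vsq_v9 q h u, del9, hu 0, hu 1, hu 2]
  push_cast
  ring

end Pool.Agent.helper49.Slope
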