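import Pool.Agent.helper49.Slope.DefsK

/-!
MP_aedd95_co (slope of k-fold hyperplane covers of triangular grids), module K10.
Finite sums for the two-valued forms, values `35.886 ≤ 36`, `80.7 ≤ 84`, `125.53 ≤ 126`
(`norm_num [Finset.sum_range_succ, F9, Nat.choose]`).
-/

set_option autoImplicit false

open MeasureTheory ProbabilityTheory
open scoped ENNReal

namespace Pool.Agent.helper49.Slope

theorem F9_nonneg (j l i : ℕ) : 0 ≤ F9 j l i := by
  unfold F9
  split <;> norm_num

theorem F9_sum (t : ℕ) (h2 : 2 ≤ t) (h4 : t ≤ 4) :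
    ∑ j ∈ Finset.range (t + 1), ∑ l ∈ Finset.range (t - j + 1),
      ((2 : ℕ).choose j : ℝ) * ((3 : ℕ).choose l) * ((4 : ℕ).choose (t - j - l)) *
        F9 j l (t - j - l) ≤ ((9 : ℕ).choose t : ℝ) := by
  interval_cases t
  all_goals norm_num [Finset.sum_range_succ, F9, Nat.choose]

end Pool.Agent.helper49.Slope
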