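import Pool.Agent.helper49.Slope.DefsK

/-!
MP_aedd95_co (slope of k-fold hyperplane covers of triangular grids), module K11.
Three classes. `H9 w` depends on the pattern of `w` on the units (all equal or not) and on the
block of size 4. For class sizes `(n₀,n₁,n₂)`, all positive and at most one of them equal to 1, the
average of `H9 (c ∘ σ)` over the permutations is (sizes in decreasing order)
`(6,2,1): 0.951, (5,3,1): 0.950, (5,2,2): 0.871, (4,4,1): 0.961, (4,3,2): 0.834, (3,3,3): 0.797`,
all `≤ 1`. (The average over `σ` equals the average of `H9 w` over all words `w` with the class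
sizes of `c`. H9 is invariant under renaming the classes. Count words by the content of the units
(27 cases), of the block of size 4 (15 contents, multinomial weights) and of the pair.)

`class_map`: levels of sizes; at least three levels. If there are exactly three levels take them as
classes; at most one has size 1 by hypothesis. If there are at least four levels take one level as
class 2, the union of two further levels as class 1 and the rest as class 0: choose the largest
level inside class 0 (for exactly four levels class 0 is the largest level, of size ≥ 3; for at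
least five levels class 0 contains at least two levels).
-/

set_option autoImplicit false

open MeasureTheory ProbabilityTheory
open scoped ENNReal

namespace Pool.Agent.helper49.Slope

/-! ### The computation -/

/-- sum over `Fin 3` -/
def K11_S3 (f : Fin 3 → ℕ) : ℕ := f 0 + f 1 + f 2

/-- indicator -/
def K11_b (x k : Fin 3) : ℕ := if x = k then 1 else 0

/-- `10000 * H9` as a function of the pattern -/
def K11_h (U : Bool) (m0 m1 m2 : ℕ) : ℕ :=
  if m0 = 4 ∨ m1 = 4 ∨ m2 = 4 then (if U then 10855 else 140000)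
  else if m0 = 3 ∨ m1 = 3 ∨ m2 = 3 then 10423
  else if m0 = 1 ∨ m1 = 1 ∨ m2 = 1 then (if U then 7050 else 8040)
  else (if U then 9023 else 9450)

/-- multinomial coefficient -/
def K11_M (m0 m1 m2 : ℕ) : ℕ := 24 / (m0.factorial * m1.factorial * m2.factorial)

/-- contribution of a content of the pair and of the units -/
def K11_R (n0 n1 n2 a0 a1 a2 : ℕ) (U : Bool) : ℕ :=
  if a0 ≤ n0 ∧ a1 ≤ n1 ∧ a2 ≤ n2 then
    K11_M (n0 - a0) (n1 - a1) (n2 - a2) * K11_h U (n0 - a0) (n1 - a1) (n2 - a2)
  else 0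

/-- the sum over all words with given class sizes -/
def K11_T (n0 n1 n2 : ℕ) : ℕ :=
  K11_S3 fun p0 => K11_S3 fun p1 => K11_S3 fun u0 => K11_S3 fun u1 => K11_S3 fun u2 =>
    K11_R n0 n1 n2
      (K11_b p0 0 + K11_b p1 0 + (K11_b u0 0 + K11_b u1 0 + K11_b u2 0))
      (K11_b p0 1 + K11_b p1 1 + (K11_b u0 1 + K11_b u1 1 + K11_b u2 1))
      (K11_b p0 2 + K11_b p1 2 + (K11_b u0 2 + K11_b u1 2 + K11_b u2 2))
      (!(u0 = u1 && u0 = u2))

theorem K11_key : ∀ a ∈ Finset.range 10, ∀ b ∈ Finset.range 10, ∀ c ∈ Finset.range 10,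
    (a + b + c = 9 ∧ 1 ≤ a ∧ 1 ≤ b ∧ 1 ≤ c ∧
      ¬ (a = 1 ∧ b = 1) ∧ ¬ (a = 1 ∧ c = 1) ∧ ¬ (b = 1 ∧ c = 1)) →
    a.factorial * b.factorial * c.factorial * K11_T a b c ≤ 3628800000 := by decide +kernel

/-- number of letters `k` -/
def K11_c (d : Fin 4 → Fin 3) (k : Fin 3) : ℕ :=
  K11_b (d 0) k + K11_b (d 1) k + K11_b (d 2) k + K11_b (d 3) k

theorem K11_mult : ∀ a ∈ Finset.range 5, ∀ b ∈ Finset.range 5, ∀ c ∈ Finset.range 5,
    a + b + c = 4 →
    (Finset.univ.filter (fun d : Fin 4 → Fin 3 => K11_c d 0 = a ∧ K11_c d 1 = b ∧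
      K11_c d 2 = c)).card = K11_M a b c := by decide +kernel

theorem K11_c_eq (d : Fin 4 → Fin 3) (k : Fin 3) :
    (Finset.univ.filter (fun i : Fin 4 => d i = k)).card = K11_c d k := by
  rw [Finset.card_filter, Fin.sum_univ_four]
  rfl

theorem K11_c_sum (d : Fin 4 → Fin 3) : K11_c d 0 + K11_c d 1 + K11_c d 2 = 4 := by
  have h : ∀ x : Fin 3, K11_b x 0 + K11_b x 1 + K11_b x 2 = 1 := by decide
  have h0 := h (d 0)
  have h1 := h (d 1)
  have h2 := h (d 2)
  have h3 := h (d 3)
  simp only [K11_c]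
  omega

/-- the sum over the contents of the block of size 4 -/
theorem K11_block (n0 n1 n2 a0 a1 a2 : ℕ) (U : Bool) (hn : n0 + n1 + n2 = 9)
    (ha : a0 + a1 + a2 = 5) :
    ∑ d : Fin 4 → Fin 3, (if a0 + K11_c d 0 = n0 ∧ a1 + K11_c d 1 = n1 ∧ a2 + K11_c d 2 = n2 then
      K11_h U (K11_c d 0) (K11_c d 1) (K11_c d 2) else 0) = K11_R n0 n1 n2 a0 a1 a2 U := by
  rw [K11_R]
  split_ifs with h
  · obtain ⟨h0, h1, h2⟩ := h
    have h3 := K11_mult (n0 - a0) (by rw [Finset.mem_range]; omega) (n1 - a1)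
      (by rw [Finset.mem_range]; omega) (n2 - a2) (by rw [Finset.mem_range]; omega) (by omega)
    rw [← h3, Finset.card_filter, Finset.sum_mul]
    refine Finset.sum_congr rfl fun d _ => ?_
    by_cases h4 : a0 + K11_c d 0 = n0 ∧ a1 + K11_c d 1 = n1 ∧ a2 + K11_c d 2 = n2
    · have h5 : K11_c d 0 = n0 - a0 ∧ K11_c d 1 = n1 - a1 ∧ K11_c d 2 = n2 - a2 := by omega
      rw [if_pos h4, if_pos h5, one_mul, h5.1, h5.2.1, h5.2.2]
    · have h5 : ¬ (K11_c d 0 = n0 - a0 ∧ K11_c d 1 = n1 - a1 ∧ K11_c d 2 = n2 - a2) := by omega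
      rw [if_neg h4, if_neg h5, zero_mul]
  · refine Finset.sum_eq_zero fun d _ => ?_
    rw [if_neg]
    omega

/-! ### Words -/

theorem K11_sum_cons {n : ℕ} (f : (Fin (n + 1) → Fin 3) → ℕ) :
    ∑ w, f w = ∑ x : Fin 3, ∑ w : Fin n → Fin 3, f (Fin.cons x w) := by
  rw [← Fintype.sum_prod_type']
  exact ((Fin.consEquiv (fun _ : Fin (n + 1) => Fin 3)).sum_comp f).symm

theorem K11_sum_two (f : (Fin 2 → Fin 3) → ℕ) :
    ∑ w, f w = K11_S3 fun x => K11_S3 fun y => f ![x, y] := by
  rw [K11_sum_cons]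
  simp only [K11_sum_cons, Fintype.sum_unique, Fin.sum_univ_three, K11_S3]
  rfl

theorem K11_sum_three (f : (Fin 3 → Fin 3) → ℕ) :
    ∑ w, f w = K11_S3 fun x => K11_S3 fun y => K11_S3 fun z => f ![x, y, z] := by
  rw [K11_sum_cons]
  simp only [K11_sum_cons, Fintype.sum_unique, Fin.sum_univ_three, K11_S3]
  rfl

theorem K11_sum_sum {α β : Type} [Fintype α] [Fintype β] [DecidableEq α] [DecidableEq β]
    (f : (α ⊕ β → Fin 3) → ℕ) :
    ∑ w, f w = ∑ x : α → Fin 3, ∑ y : β → Fin 3, f (Sum.elim x y) := by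
  rw [← Fintype.sum_prod_type']
  exact ((Equiv.sumArrowEquivProdArrow α β (Fin 3)).symm.sum_comp f).symm

/-- number of letters `k` of a word -/
def K11_n (w : I9 → Fin 3) (k : Fin 3) : ℕ := (Finset.univ.filter (fun i => w i = k)).card

/-- `10000 * H9` -/
def K11_f (w : I9 → Fin 3) : ℕ :=
  K11_h (!(w (Sum.inl (Sum.inr 0)) = w (Sum.inl (Sum.inr 1)) &&
    w (Sum.inl (Sum.inr 0)) = w (Sum.inl (Sum.inr 2))))
    (K11_c (fun i => w (Sum.inr i)) 0) (K11_c (fun i => w (Sum.inr i)) 1)
    (K11_c (fun i => w (Sum.inr i)) 2)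

theorem K11_n_elim (p0 p1 u0 u1 u2 : Fin 3) (d : Fin 4 → Fin 3) (k : Fin 3) :
    K11_n (Sum.elim (Sum.elim ![p0, p1] ![u0, u1, u2]) d) k =
      K11_b p0 k + K11_b p1 k + (K11_b u0 k + K11_b u1 k + K11_b u2 k) + K11_c d k := by
  rw [K11_n, Finset.card_filter, Fintype.sum_sum_type, Fintype.sum_sum_type, Fin.sum_univ_two,
    Fin.sum_univ_three, Fin.sum_univ_four]
  rfl

/-- the sum over all words with given class sizes -/
theorem K11_words (n0 n1 n2 : ℕ) (hn : n0 + n1 + n2 = 9) :
    ∑ w : I9 → Fin 3, (if K11_n w 0 = n0 ∧ K11_n w 1 = n1 ∧ K11_n w 2 = n2 then K11_f w else 0) =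
      K11_T n0 n1 n2 := by
  rw [K11_sum_sum, K11_sum_sum, K11_sum_two]
  simp only [K11_sum_three, K11_n_elim]
  rw [K11_T]
  have hb : ∀ x : Fin 3, K11_b x 0 + K11_b x 1 + K11_b x 2 = 1 := by decide
  refine congrArg K11_S3 (funext fun p0 => congrArg K11_S3 (funext fun p1 =>
    congrArg K11_S3 (funext fun u0 => congrArg K11_S3 (funext fun u1 =>
    congrArg K11_S3 (funext fun u2 => ?_)))))
  have h0 := hb p0
  have h1 := hb p1
  have h2 := hb u0
  have h3 := hb u1
  have h4 := hb u2
  exact K11_block n0 n1 n2 _ _ _ _ hn (by omega)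

/-! ### Permutations -/

theorem K11_count (c w : I9 → Fin 3) (h : ∃ σ : Equiv.Perm I9, c ∘ σ = w) :
    (Finset.univ.filter (fun σ : Equiv.Perm I9 => c ∘ σ = w)).card =
      (K11_n c 0).factorial * (K11_n c 1).factorial * (K11_n c 2).factorial := by
  obtain ⟨τ, hτ⟩ := h
  have h1 : (Finset.univ.filter (fun σ : Equiv.Perm I9 => c ∘ σ = w)).card =
      (Finset.univ.filter (fun σ : Equiv.Perm I9 => c ∘ σ = c)).card := by
    refine Finset.card_bij (fun σ _ => σ * τ⁻¹) ?_ ?_ ?_
    · intro σ hσ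
      rw [Finset.mem_filter] at hσ ⊢
      refine ⟨Finset.mem_univ _, ?_⟩
      rw [Equiv.Perm.coe_mul, ← Function.comp_assoc, hσ.2, ← hτ, Function.comp_assoc,
        ← Equiv.Perm.coe_mul, mul_inv_cancel, Equiv.Perm.coe_one, Function.comp_id]
    · intro σ _ σ' _ h
      exact mul_right_cancel h
    · intro σ hσ
      rw [Finset.mem_filter] at hσ
      refine ⟨σ * τ, ?_, by simp⟩
      rw [Finset.mem_filter]
      refine ⟨Finset.mem_univ _, ?_⟩
      rw [Equiv.Perm.coe_mul, ← Function.comp_assoc, hσ.2, hτ]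
  rw [h1]
  have h2 := DomMulAct.stabilizer_card (f := c)
  rw [Fintype.card_subtype] at h2
  rw [h2, Fin.prod_univ_three]
  simp only [Fintype.card_subtype]
  rfl

theorem K11_n_comp (c : I9 → Fin 3) (σ : Equiv.Perm I9) (k : Fin 3) :
    K11_n (c ∘ σ) k = K11_n c k := by
  rw [K11_n, K11_n]
  refine Finset.card_bij (fun i _ => σ i) ?_ ?_ ?_
  · intro i hi
    rw [Finset.mem_filter] at hi ⊢
    exact ⟨Finset.mem_univ _, hi.2⟩
  · intro i _ j _ h
    exact σ.injective h
  · intro j hj
    rw [Finset.mem_filter] at hj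
    exact ⟨σ.symm j, by rw [Finset.mem_filter]; exact ⟨Finset.mem_univ _, by simpa using hj.2⟩,
      by simp⟩

theorem K11_perms (c : I9 → Fin 3) : ∑ σ : Equiv.Perm I9, K11_f (c ∘ σ) ≤
    (K11_n c 0).factorial * (K11_n c 1).factorial * (K11_n c 2).factorial *
      ∑ w : I9 → Fin 3, (if K11_n w 0 = K11_n c 0 ∧ K11_n w 1 = K11_n c 1 ∧
        K11_n w 2 = K11_n c 2 then K11_f w else 0) := by
  rw [← Finset.sum_fiberwise (s := Finset.univ) (g := fun σ : Equiv.Perm I9 => c ∘ σ),
    Finset.mul_sum]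
  refine Finset.sum_le_sum fun w _ => ?_
  have h1 : ∑ σ ∈ Finset.univ.filter (fun σ : Equiv.Perm I9 => c ∘ σ = w), K11_f (c ∘ σ) =
      (Finset.univ.filter (fun σ : Equiv.Perm I9 => c ∘ σ = w)).card * K11_f w := by
    rw [Finset.sum_congr rfl (g := fun _ => K11_f w), Finset.sum_const, smul_eq_mul]
    intro σ hσ
    rw [Finset.mem_filter] at hσ
    rw [hσ.2]
  rw [h1]
  by_cases h : ∃ σ : Equiv.Perm I9, c ∘ σ = w
  · rw [K11_count c w h]
    obtain ⟨τ, hτ⟩ := h
    rw [if_pos]
    rw [← hτ]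
    exact ⟨K11_n_comp c τ 0, K11_n_comp c τ 1, K11_n_comp c τ 2⟩
  · have h2 : (Finset.univ.filter (fun σ : Equiv.Perm I9 => c ∘ σ = w)).card = 0 := by
      rw [Finset.card_eq_zero, Finset.filter_eq_empty_iff]
      intro σ _ h3
      exact h ⟨σ, h3⟩
    rw [h2, zero_mul]
    exact Nat.zero_le _

theorem K11_exists_fin (P : Fin 3 → Prop) : (∃ c, P c) ↔ P 0 ∨ P 1 ∨ P 2 := by
  constructor
  · rintro ⟨c, hc⟩
    fin_cases c
    · exact Or.inl hc
    · exact Or.inr (Or.inl hc)
    · exact Or.inr (Or.inr hc)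
  · rintro (h | h | h)
    exacts [⟨_, h⟩, ⟨_, h⟩, ⟨_, h⟩]

theorem K11_H9 (w : I9 → Fin 3) : H9 w = (K11_f w : ℝ) / 10000 := by
  classical
  have hU : (∃ k l : Fin 3, w (Sum.inl (Sum.inr k)) ≠ w (Sum.inl (Sum.inr l))) ↔
      (!(w (Sum.inl (Sum.inr 0)) = w (Sum.inl (Sum.inr 1)) &&
        w (Sum.inl (Sum.inr 0)) = w (Sum.inl (Sum.inr 2)))) = true := by
    rw [K11_exists_fin]
    simp only [K11_exists_fin]
    generalize w (Sum.inl (Sum.inr 0)) = a
    generalize w (Sum.inl (Sum.inr 1)) = b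
    generalize w (Sum.inl (Sum.inr 2)) = c
    revert a b c
    decide
  simp only [H9, K11_f, K11_h]
  simp only [K11_c_eq (fun i => w (Sum.inr i))]
  rw [if_congr hU rfl rfl, if_congr hU rfl rfl, if_congr hU rfl rfl,
    if_congr (K11_exists_fin _) rfl rfl, if_congr (K11_exists_fin _) rfl rfl,
    if_congr (K11_exists_fin _) rfl rfl]
  split_ifs <;> norm_num

theorem H9_nonneg (w : I9 → Fin 3) : 0 ≤ H9 w := by
  rw [K11_H9]
  positivity

theorem K11_n_total (c : I9 → Fin 3) : K11_n c 0 + K11_n c 1 + K11_n c 2 = 9 := by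
  have h := Finset.card_eq_sum_card_fiberwise (f := c) (s := Finset.univ) (t := Finset.univ)
    (fun _ _ => Finset.mem_coe.2 (Finset.mem_univ _))
  rw [Fin.sum_univ_three] at h
  have h2 : (Finset.univ : Finset I9).card = 9 := by decide
  rw [h2] at h
  exact h.symm

theorem H9_sum (c : I9 → Fin 3)
    (h1 : ∀ k : Fin 3, 1 ≤ (Finset.univ.filter (fun i => c i = k)).card)
    (h2 : ∀ k l : Fin 3, (Finset.univ.filter (fun i => c i = k)).card = 1 →
      (Finset.univ.filter (fun i => c i = l)).card = 1 → k = l) :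
    ∑ σ : Equiv.Perm I9, H9 (c ∘ σ) ≤ ((9 : ℕ).factorial : ℝ) := by
  have ht := K11_n_total c
  have h3 := K11_perms c
  rw [K11_words _ _ _ ht] at h3
  have a0 : 1 ≤ K11_n c 0 := h1 0
  have a1 : 1 ≤ K11_n c 1 := h1 1
  have a2 : 1 ≤ K11_n c 2 := h1 2
  have h4 := K11_key (K11_n c 0) (by rw [Finset.mem_range]; omega) (K11_n c 1)
    (by rw [Finset.mem_range]; omega) (K11_n c 2) (by rw [Finset.mem_range]; omega)
    ⟨ht, a0, a1, a2, fun h => absurd (h2 0 1 h.1 h.2) (by decide),
      fun h => absurd (h2 0 2 h.1 h.2) (by decide), fun h => absurd (h2 1 2 h.1 h.2) (by decide)⟩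
  have h5 : ((∑ σ : Equiv.Perm I9, K11_f (c ∘ σ) : ℕ) : ℝ) ≤ 3628800000 := by
    exact_mod_cast h3.trans h4
  simp only [K11_H9]
  rw [← Finset.sum_div]
  push_cast at h5
  rw [div_le_iff₀ (by norm_num)]
  refine h5.trans ?_
  norm_num [Nat.factorial]

/-! ### The classes -/

theorem K11_level {ι : Type} [Fintype ι] [DecidableEq ι] (h9 : Fintype.card ι = 9) (u : ι → ℤ)
    (h7 : ¬ ∃ (i j : ι) (t a b : ℤ), i ≠ j ∧ ∀ k, u k = t + (if k = i then a else 0)
      + (if k = j then b else 0)) (t : ℤ) :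
    (Finset.univ.filter (fun i => u i = t)).card ≤ 6 := by
  by_contra hcon
  have h1 := Finset.card_filter_add_card_filter_not (s := (Finset.univ : Finset ι))
    (fun i => u i = t)
  rw [Finset.card_univ, h9] at h1
  have h2 : (Finset.univ.filter (fun i => ¬ u i = t)).card ≤ 2 := by omega
  obtain ⟨S, hS, hS2⟩ := Finset.exists_superset_card_eq h2 (by rw [h9]; norm_num)
  obtain ⟨i, j, hij, rfl⟩ := Finset.card_eq_two.1 hS2
  refine h7 ⟨i, j, t, u i - t, u j - t, hij, fun k => ?_⟩
  by_cases hk : u k = t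
  · by_cases hki : k = i
    · rw [if_pos hki, if_neg (fun h => hij (hki.symm.trans h)), ← hki, hk]; ring
    · by_cases hkj : k = j
      · rw [if_neg hki, if_pos hkj, ← hkj, hk]; ring
      · rw [if_neg hki, if_neg hkj, hk]; ring
  · have h3 : k ∈ ({i, j} : Finset ι) := hS (by rw [Finset.mem_filter]; exact ⟨Finset.mem_univ _, hk⟩)
    rw [Finset.mem_insert, Finset.mem_singleton] at h3
    rcases h3 with h3 | h3
    · rw [if_pos h3, if_neg (fun h => hij (h3.symm.trans h)), h3]; ring
    · rw [if_neg (fun h => hij (h.symm.trans h3)), if_pos h3, h3]; ring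

theorem class_map {ι : Type} [Fintype ι] [DecidableEq ι] (h9 : Fintype.card ι = 9) (u : ι → ℤ)
    (h3 : Three u)
    (h7 : ¬ ∃ (i j : ι) (t a b : ℤ), i ≠ j ∧ ∀ k, u k = t + (if k = i then a else 0)
      + (if k = j then b else 0)) :
    ∃ g : ℤ → Fin 3, (∀ k : Fin 3, 1 ≤ (Finset.univ.filter (fun i => g (u i) = k)).card) ∧
      ∀ k l : Fin 3, (Finset.univ.filter (fun i => g (u i) = k)).card = 1 →
        (Finset.univ.filter (fun i => g (u i) = l)).card = 1 → k = l := by
  have hlev := K11_level h9 u h7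
  -- the sum of the class sizes
  have htot : ∀ g : ℤ → Fin 3, (Finset.univ.filter (fun i => g (u i) = 0)).card +
      (Finset.univ.filter (fun i => g (u i) = 1)).card +
      (Finset.univ.filter (fun i => g (u i) = 2)).card = 9 := by
    intro g
    have h := Finset.card_eq_sum_card_fiberwise (f := fun i => g (u i)) (s := Finset.univ)
      (t := Finset.univ) (fun _ _ => Finset.mem_coe.2 (Finset.mem_univ _))
    rw [Fin.sum_univ_three, Finset.card_univ, h9] at h
    exact h.symm
  -- two elements in a class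
  have htwo : ∀ (P : ι → Prop) [DecidablePred P] (i j : ι), i ≠ j → P i → P j →
      2 ≤ (Finset.univ.filter P).card := by
    intro P _ i j hij hi hj
    rw [← Finset.card_pair hij]
    refine Finset.card_le_card fun k hk => ?_
    rw [Finset.mem_insert, Finset.mem_singleton] at hk
    rw [Finset.mem_filter]
    rcases hk with rfl | rfl
    · exact ⟨Finset.mem_univ _, hi⟩
    · exact ⟨Finset.mem_univ _, hj⟩
  have hone : ∀ (P : ι → Prop) [DecidablePred P] (i : ι), P i →
      1 ≤ (Finset.univ.filter P).card := by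
    intro P _ i hi
    rw [Nat.succ_le_iff, Finset.card_pos]
    exact ⟨i, by rw [Finset.mem_filter]; exact ⟨Finset.mem_univ _, hi⟩⟩
  obtain ⟨i, j, k, hij, hik, hjk⟩ := h3
  have neij : i ≠ j := fun h => hij (by rw [h])
  have neik : i ≠ k := fun h => hik (by rw [h])
  have nejk : j ≠ k := fun h => hjk (by rw [h])
  -- the conclusion from three inequalities
  have hfin : ∀ g : ℤ → Fin 3, 1 ≤ (Finset.univ.filter (fun i => g (u i) = 0)).card →
      1 ≤ (Finset.univ.filter (fun i => g (u i) = 1)).card →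
      1 ≤ (Finset.univ.filter (fun i => g (u i) = 2)).card →
      ¬ ((Finset.univ.filter (fun i => g (u i) = 0)).card = 1 ∧
        (Finset.univ.filter (fun i => g (u i) = 1)).card = 1) →
      ¬ ((Finset.univ.filter (fun i => g (u i) = 0)).card = 1 ∧
        (Finset.univ.filter (fun i => g (u i) = 2)).card = 1) →
      ¬ ((Finset.univ.filter (fun i => g (u i) = 1)).card = 1 ∧
        (Finset.univ.filter (fun i => g (u i) = 2)).card = 1) →
      (∀ k : Fin 3, 1 ≤ (Finset.univ.filter (fun i => g (u i) = k)).card) ∧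
      ∀ k l : Fin 3, (Finset.univ.filter (fun i => g (u i) = k)).card = 1 →
        (Finset.univ.filter (fun i => g (u i) = l)).card = 1 → k = l := by
    intro g b0 b1 b2 b01 b02 b12
    refine ⟨fun k => ?_, fun k l hk hl => ?_⟩
    · fin_cases k
      exacts [b0, b1, b2]
    · fin_cases k <;> fin_cases l
      exacts [rfl, absurd ⟨hk, hl⟩ b01, absurd ⟨hk, hl⟩ b02, absurd ⟨hl, hk⟩ b01, rfl,
        absurd ⟨hk, hl⟩ b12, absurd ⟨hl, hk⟩ b02, absurd ⟨hl, hk⟩ b12, rfl]
  -- the case of a fourth value together with a level of size two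
  have hfour : ∀ (a b c d e : ι), u a = u b → a ≠ b → u c ≠ u a → u d ≠ u a → u e ≠ u a →
      u c ≠ u d → u c ≠ u e → u d ≠ u e → ∃ g : ℤ → Fin 3,
      (∀ k : Fin 3, 1 ≤ (Finset.univ.filter (fun i => g (u i) = k)).card) ∧
      ∀ k l : Fin 3, (Finset.univ.filter (fun i => g (u i) = k)).card = 1 →
        (Finset.univ.filter (fun i => g (u i) = l)).card = 1 → k = l := by
    intro a b c d e hab nab hca hda hea hcd hce hde
    have nde : d ≠ e := fun h => hde (by rw [h])
    obtain ⟨g, hg⟩ : ∃ g : ℤ → Fin 3, ∀ x, g x =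
      if x = u c then 2 else if x = u d ∨ x = u e then 1 else 0 := ⟨_, fun _ => rfl⟩
    have c0 := htwo (fun i => g (u i) = 0) a b nab
      (by rw [hg, if_neg hca.symm, if_neg (by tauto)])
      (by rw [← hab, hg, if_neg hca.symm, if_neg (by tauto)])
    have c1 := htwo (fun i => g (u i) = 1) d e nde
      (by rw [hg, if_neg hcd.symm, if_pos (Or.inl rfl)])
      (by rw [hg, if_neg hce.symm, if_pos (Or.inr rfl)])
    have c2 := hone (fun i => g (u i) = 2) c (by rw [hg, if_pos rfl])
    exact ⟨g, hfin g (by omega) (by omega) (by omega) (fun h => by omega) (fun h => by omega)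
      (fun h => by omega)⟩
  by_cases hinj : Function.Injective u
  · obtain ⟨g, hg⟩ : ∃ g : ℤ → Fin 3, ∀ x, g x =
      if x = u i then 2 else if x = u j ∨ x = u k then 1 else 0 := ⟨_, fun _ => rfl⟩
    have c0 : (Finset.univ.filter (fun x => g (u x) = 2)).card ≤ 1 := by
      rw [← Finset.card_singleton i]
      refine Finset.card_le_card fun x hx => ?_
      rw [Finset.mem_filter] at hx
      rw [Finset.mem_singleton]
      by_contra hxi
      have h1 : u x ≠ u i := fun h => hxi (hinj h)
      have h2 := hx.2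
      rw [hg, if_neg h1] at h2
      split_ifs at h2 <;> exact absurd h2 (by decide)
    have c1 : (Finset.univ.filter (fun x => g (u x) = 1)).card ≤ 2 := by
      have h3 : (Finset.univ.filter (fun x => g (u x) = 1)).card ≤ ({j, k} : Finset ι).card := by
        refine Finset.card_le_card fun x hx => ?_
        rw [Finset.mem_filter] at hx
        rw [Finset.mem_insert, Finset.mem_singleton]
        have h2 := hx.2
        rw [hg] at h2
        by_cases h1 : u x = u i
        · rw [if_pos h1] at h2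
          exact absurd h2 (by decide)
        · rw [if_neg h1] at h2
          by_cases h4 : u x = u j ∨ u x = u k
          · exact h4.imp (fun h => hinj h) (fun h => hinj h)
          · rw [if_neg h4] at h2
            exact absurd h2 (by decide)
      rwa [Finset.card_pair nejk] at h3
    have d1 := htwo (fun x => g (u x) = 1) j k nejk
      (by rw [hg, if_neg hij.symm, if_pos (Or.inl rfl)])
      (by rw [hg, if_neg hik.symm, if_pos (Or.inr rfl)])
    have d2 := hone (fun x => g (u x) = 2) i (by rw [hg, if_pos rfl])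
    have t := htot g
    exact ⟨g, hfin g (by omega) (by omega) (by omega) (fun h => by omega) (fun h => by omega)
      (fun h => by omega)⟩
  obtain ⟨a, b, hab, nab⟩ : ∃ a b, u a = u b ∧ a ≠ b := by
    by_contra hcon
    push Not at hcon
    exact hinj fun a b h => hcon a b h
  by_cases h4 : ∃ l, u l ≠ u i ∧ u l ≠ u j ∧ u l ≠ u k
  · obtain ⟨l, hli, hlj, hlk⟩ := h4
    by_cases e1 : u a = u i
    · exact hfour a b j k l hab nab (by rw [e1]; exact hij.symm) (by rw [e1]; exact hik.symm)
        (by rw [e1]; exact hli) hjk hlj.symm hlk.symm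
    by_cases e2 : u a = u j
    · exact hfour a b i k l hab nab (by rw [e2]; exact hij) (by rw [e2]; exact hjk.symm)
        (by rw [e2]; exact hlj) hik hli.symm hlk.symm
    by_cases e3 : u a = u k
    · exact hfour a b i j l hab nab (by rw [e3]; exact hik) (by rw [e3]; exact hjk)
        (by rw [e3]; exact hlk) hij hli.symm hlj.symm
    · exact hfour a b i j k hab nab (Ne.symm e1) (Ne.symm e2) (Ne.symm e3) hij hik hjk
  · push Not at h4
    obtain ⟨g, hg⟩ : ∃ g : ℤ → Fin 3, ∀ x, g x =
      if x = u i then 0 else if x = u j then 1 else 2 := ⟨_, fun _ => rfl⟩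
    have c0 := hone (fun x => g (u x) = 0) i (by rw [hg, if_pos rfl])
    have c1 := hone (fun x => g (u x) = 1) j (by rw [hg, if_neg hij.symm, if_pos rfl])
    have c2 := hone (fun x => g (u x) = 2) k (by rw [hg, if_neg hik.symm, if_neg hjk.symm])
    have d0 : (Finset.univ.filter (fun x => g (u x) = 0)).card ≤ 6 := by
      refine (Finset.card_le_card fun x hx => ?_).trans (hlev (u i))
      rw [Finset.mem_filter] at hx ⊢
      refine ⟨hx.1, ?_⟩
      by_contra h5
      have h6 := hx.2
      rw [hg, if_neg h5] at h6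
      split_ifs at h6 <;> exact absurd h6 (by decide)
    have d1 : (Finset.univ.filter (fun x => g (u x) = 1)).card ≤ 6 := by
      refine (Finset.card_le_card fun x hx => ?_).trans (hlev (u j))
      rw [Finset.mem_filter] at hx ⊢
      refine ⟨hx.1, ?_⟩
      by_contra h5
      have h6 := hx.2
      rw [hg, if_neg h5] at h6
      split_ifs at h6 <;> exact absurd h6 (by decide)
    have d2 : (Finset.univ.filter (fun x => g (u x) = 2)).card ≤ 6 := by
      refine (Finset.card_le_card fun x hx => ?_).trans (hlev (u k))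
      rw [Finset.mem_filter] at hx ⊢
      refine ⟨hx.1, ?_⟩
      have h6 := hx.2
      rw [hg] at h6
      by_cases h7 : u x = u i
      · rw [if_pos h7] at h6
        exact absurd h6 (by decide)
      · by_cases h8 : u x = u j
        · rw [if_neg h7, if_pos h8] at h6
          exact absurd h6 (by decide)
        · exact h4 x h7 h8
    have t := htot g
    exact ⟨g, hfin g c0 c1 c2 (fun h => by omega) (fun h => by omega) (fun h => by omega)⟩

end Pool.Agent.helper49.Slope
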