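import Pool.Agent.helper49.Slope.DefsK
import Pool.Agent.helper49.Slope.B1
import Pool.Agent.helper49.Slope.B2a
import Pool.Agent.helper49.Slope.B2b
import Pool.Agent.helper49.Slope.B5

/-!
MP_aedd95_co (slope of k-fold hyperplane covers of triangular grids), module K2.
Polygon kernels over an arbitrary parameter space (generalise B5, whose proof works verbatim).
-/

set_option autoImplicit false

open MeasureTheory ProbabilityTheory
open scoped ENNReal

namespace Pool.Agent.helper49.Slope

/-- the vertices of the polygon -/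
def K2map {Q ι : Type} (v : Q → ι → Fin 3 → ℝ) (d : Q → ι → ℝ) (p : Q × (Fin 3 → ℝ)) : ι → ℝ :=
  fun i => ∑ k, v p.1 i k * p.2 k + d p.1 i

theorem K2_measurable_map {Q ι : Type} [MeasurableSpace Q] [Fintype ι] (v : Q → ι → Fin 3 → ℝ)
    (hv : Measurable v) (d : Q → ι → ℝ) (hd : Measurable d) : Measurable (K2map v d) := by
  refine measurable_pi_iff.mpr fun i => ?_
  unfold K2map
  refine Measurable.add (Finset.measurable_sum _ fun k _ => ?_) ?_
  · refine Measurable.mul ?_ ((measurable_pi_apply k).comp measurable_snd)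
    exact (measurable_pi_apply k).comp ((measurable_pi_apply i).comp (hv.comp measurable_fst))
  · exact (measurable_pi_apply i).comp (hd.comp measurable_fst)

theorem exists_polyKernelQ {Q ι : Type} [MeasurableSpace Q] [Fintype ι]
    (v : Q → ι → Fin 3 → ℝ) (hv : Measurable v) (d : Q → ι → ℝ) (hd : Measurable d) :
    ∃ κ : Kernel Q (ι → ℝ), IsMarkovKernel κ ∧ ∀ q : Q,
      (∀ s : ℝ, (∀ k, ∑ i, v q i k = 0) → ∑ i, d q i = s →
        (∀ i, Real.sqrt (∑ k, v q i k ^ 2) + |d q i| ≤ 1) → Supp (κ q) s) ∧
      (∀ u : ι → ℤ, 0 < vsq (v q) u →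
        HasLoad ((κ q).map (lin u)) (ker (∑ i, (u i : ℝ) * d q i) (Real.sqrt (vsq (v q) u)))) ∧
      (∀ u : ι → ℤ, vsq (v q) u = 0 →
        (κ q).map (lin u) = Measure.dirac (∑ i, (u i : ℝ) * d q i)) := by
  obtain ⟨σ, hσ, hunit, hload⟩ := exists_sphere
  have hg := K2_measurable_map v hv d hd
  have hgx : ∀ x, Measurable (fun ω => K2map v d (x, ω)) := fun x =>
    hg.comp measurable_prodMk_left
  set κ : Kernel Q (ι → ℝ) := (Kernel.id ×ₖ Kernel.const Q σ).map (K2map v d) with hκ
  have hκx : ∀ x, κ x = σ.map (fun ω => K2map v d (x, ω)) := by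
    intro x
    rw [hκ, Kernel.map_apply _ hg, Kernel.prod_apply, Kernel.id_apply, Kernel.const_apply,
      Measure.dirac_prod, Measure.map_map hg measurable_prodMk_left]
    rfl
  have hM : IsMarkovKernel κ := by
    rw [hκ]
    exact Kernel.IsMarkovKernel.map _ hg
  refine ⟨κ, hM, fun x => ⟨?_, ?_, ?_⟩⟩
  · intro s h0 hs hb
    unfold Supp
    rw [hκx x]
    have hms : MeasurableSet {y : ι → ℝ | (∀ i, |y i| ≤ 1) ∧ ∑ i, y i = s} := by
      apply MeasurableSet.inter
      · have : {y : ι → ℝ | ∀ i, |y i| ≤ 1} = ⋂ i, {y : ι → ℝ | |y i| ≤ 1} := by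
          ext y; simp
        change MeasurableSet {y : ι → ℝ | ∀ i, |y i| ≤ 1}
        rw [this]
        exact MeasurableSet.iInter fun i =>
          measurableSet_le ((measurable_pi_apply i).abs) measurable_const
      · exact measurableSet_eq_fun (Finset.measurable_sum _ fun i _ => measurable_pi_apply i)
          measurable_const
    rw [ae_map_iff (hgx x).aemeasurable hms]
    filter_upwards [hunit] with ω hω
    refine ⟨fun i => ?_, ?_⟩
    · have hcs : |∑ k, v x i k * ω k| ≤ Real.sqrt (∑ k, v x i k ^ 2) := by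
        apply Real.abs_le_sqrt
        have := Finset.sum_mul_sq_le_sq_mul_sq Finset.univ (fun k => v x i k) (fun k => ω k)
        rw [hω, mul_one] at this
        exact this
      calc |K2map v d (x, ω) i| = |∑ k, v x i k * ω k + d x i| := rfl
        _ ≤ |∑ k, v x i k * ω k| + |d x i| := abs_add_le _ _
        _ ≤ _ := by linarith
        _ ≤ 1 := hb i
    · change ∑ i, (∑ k, v x i k * ω k + d x i) = s
      rw [Finset.sum_add_distrib, hs, Finset.sum_comm]
      have : ∀ k, ∑ i, v x i k * ω k = 0 := by
        intro k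
        rw [← Finset.sum_mul, h0 k, zero_mul]
      simp [this]
  · intro u hu
    rw [hκx x, Measure.map_map (B5_measurable_lin u) (hgx x)]
    have hcomp : (lin u) ∘ (fun ω => K2map v d (x, ω)) =
        (fun z => z + ∑ i, (u i : ℝ) * d x i) ∘
          (fun ω : Fin 3 → ℝ => ∑ k, (∑ i, (u i : ℝ) * v x i k) * ω k) := by
      funext ω
      simp only [Function.comp, lin, K2map]
      have : ∀ i, (u i : ℝ) * (∑ k, v x i k * ω k + d x i) =
          ∑ k, (u i : ℝ) * v x i k * ω k + (u i : ℝ) * d x i := by
        intro i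
        rw [mul_add, Finset.mul_sum]
        simp only [mul_assoc]
      simp only [this]
      rw [Finset.sum_add_distrib, Finset.sum_comm]
      simp only [Finset.sum_mul]
    have hm2 : Measurable (fun ω : Fin 3 → ℝ => ∑ k, (∑ i, (u i : ℝ) * v x i k) * ω k) :=
      Finset.measurable_sum _ fun k _ => (measurable_pi_apply k).const_mul _
    have hm3 : Measurable (fun z : ℝ => z + ∑ i, (u i : ℝ) * d x i) := measurable_id.add_const _
    rw [hcomp, ← Measure.map_map hm3 hm2]
    have hl := hload (fun k => ∑ i, (u i : ℝ) * v x i k) hu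
    have hs := HasLoad.shift (B5_measurable_ker _ _) hl (∑ i, (u i : ℝ) * d x i)
    refine HasLoad.mono hs fun z => ?_
    unfold ker vsq
    simp only [sub_zero]
    exact le_rfl
  · intro u hu
    rw [hκx x, Measure.map_map (B5_measurable_lin u) (hgx x)]
    have hz : ∀ k, ∑ i, (u i : ℝ) * v x i k = 0 := by
      intro k
      unfold vsq at hu
      have := (Finset.sum_eq_zero_iff_of_nonneg (fun k _ => sq_nonneg _)).1 hu k (Finset.mem_univ k)
      exact pow_eq_zero_iff (two_ne_zero) |>.1 this
    have hcomp : (lin u) ∘ (fun ω => K2map v d (x, ω)) =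
        fun _ : Fin 3 → ℝ => ∑ i, (u i : ℝ) * d x i := by
      funext ω
      simp only [Function.comp, lin, K2map]
      have : ∀ i, (u i : ℝ) * (∑ k, v x i k * ω k + d x i) =
          ∑ k, (u i : ℝ) * v x i k * ω k + (u i : ℝ) * d x i := by
        intro i
        rw [mul_add, Finset.mul_sum]
        simp only [mul_assoc]
      simp only [this]
      rw [Finset.sum_add_distrib, Finset.sum_comm]
      have h2 : ∀ k, ∑ i, (u i : ℝ) * v x i k * ω k = 0 := by
        intro k
        rw [← Finset.sum_mul, hz k, zero_mul]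
      rw [Finset.sum_congr rfl fun k _ => h2 k, Finset.sum_const_zero, zero_add]
    rw [hcomp, Measure.map_const, measure_univ, one_smul]

/-- A probability measure with load `≤ ker D V`, `V > 0`, is uniform on `[D-V, D+V]` (both
measures have mass 1); here `|W| = V`. -/
theorem eq_unif_of_ker {ν : Measure ℝ} [IsProbabilityMeasure ν] {D W : ℝ} (hW : W ≠ 0)
    (h : HasLoad ν (ker D |W|)) : ν = (unif 1).map (fun ω => W * ω + D) := by
  have hV : 0 < |W| := abs_pos.2 hW
  have hm : Measurable (fun ω : ℝ => W * ω + D) := by fun_prop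
  have hp1 : IsProbabilityMeasure (unif 1) := by
    constructor
    unfold unif
    rw [Measure.smul_apply, Measure.restrict_apply MeasurableSet.univ, Set.univ_inter,
      Real.volume_Icc, smul_eq_mul, ← ENNReal.ofReal_mul (by norm_num)]
    norm_num
  have hp2 : IsProbabilityMeasure ((unif 1).map (fun ω => W * ω + D)) :=
    Measure.isProbabilityMeasure_map hm.aemeasurable
  have hu : HasLoad (unif 1) (ker 0 1) := by
    unfold HasLoad unif
    refine Measure.le_iff.2 fun s hs => ?_
    rw [Measure.smul_apply, Measure.restrict_apply hs, withDensity_apply _ hs]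
    have h1 : ∫⁻ z in s, ker 0 1 z / 2 = ∫⁻ z in s, (Set.Icc (-1 : ℝ) 1).indicator
        (fun _ => (1 / 2 : ℝ≥0∞)) z := by
      refine lintegral_congr fun z => ?_
      unfold ker
      by_cases hz : |z - 0| ≤ 1
      · have hz' : z ∈ Set.Icc (-1 : ℝ) 1 := by
          rw [sub_zero] at hz
          exact abs_le.1 hz
        rw [if_pos hz, Set.indicator_of_mem hz']
        norm_num
      · have hz' : z ∉ Set.Icc (-1 : ℝ) 1 := by
          rw [sub_zero] at hz
          exact fun h => hz (abs_le.2 h)
        rw [if_neg hz, Set.indicator_of_notMem hz']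
        simp
    rw [h1, lintegral_indicator measurableSet_Icc, Measure.restrict_restrict measurableSet_Icc,
      setLIntegral_const, smul_eq_mul, Set.inter_comm]
    gcongr
    rw [ENNReal.ofReal_div_of_pos (by norm_num)]
    norm_num
  have hl : HasLoad ((unif 1).map (fun ω => W * ω + D)) (ker D |W|) := by
    have h1 := HasLoad.scale (B5_measurable_ker 0 1) hu W hW
    have hmm : Measurable (fun z : ℝ => ENNReal.ofReal (1 / |W|) * ker 0 1 (z / W)) :=
      ((B5_measurable_ker 0 1).comp (measurable_id.div_const W)).const_mul _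
    have h2 := HasLoad.shift hmm h1 D
    rw [Measure.map_map (by fun_prop) (by fun_prop)] at h2
    refine HasLoad.mono h2 fun z => ?_
    unfold ker
    by_cases hz : |(z - D) / W - 0| ≤ 1
    · have hz' : |z - D| ≤ |W| := by
        rw [sub_zero, abs_div, div_le_one hV] at hz
        exact hz
      rw [if_pos hz, if_pos hz']
      simp
    · rw [if_neg hz]
      simp
  have hmass : (volume.withDensity (fun z => ker D |W| z / 2)) Set.univ = 1 := by
    rw [withDensity_apply _ MeasurableSet.univ, Measure.restrict_univ]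
    have h1 : ∀ z, ker D |W| z / 2 = (Set.Icc (D - |W|) (D + |W|)).indicator
        (fun _ => ENNReal.ofReal (1 / |W|) / 2) z := by
      intro z
      unfold ker
      by_cases hz : |z - D| ≤ |W|
      · have hz' : z ∈ Set.Icc (D - |W|) (D + |W|) := by
          have := abs_le.1 hz
          exact ⟨by linarith [this.1], by linarith [this.2]⟩
        rw [if_pos hz, Set.indicator_of_mem hz']
      · have hz' : z ∉ Set.Icc (D - |W|) (D + |W|) := by
          intro h'
          exact hz (abs_le.2 ⟨by linarith [h'.1], by linarith [h'.2]⟩)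
        rw [if_neg hz, Set.indicator_of_notMem hz']
        simp
    rw [lintegral_congr h1, lintegral_indicator measurableSet_Icc, setLIntegral_const,
      Real.volume_Icc]
    have h2 : D + |W| - (D - |W|) = 2 * |W| := by ring
    have h3 : ENNReal.ofReal (1 / |W|) / 2 = ENNReal.ofReal (1 / |W| / 2) := by
      rw [ENNReal.ofReal_div_of_pos (by norm_num : (0 : ℝ) < 2)]
      norm_num
    rw [h2, h3, ← ENNReal.ofReal_mul (by positivity)]
    have h4 : 1 / |W| / 2 * (2 * |W|) = 1 := by
      field_simp
    rw [h4, ENNReal.ofReal_one]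
  unfold HasLoad at h hl
  have e1 := Measure.eq_of_le_of_measure_univ_eq h (by rw [measure_univ, hmass])
  have e2 := Measure.eq_of_le_of_measure_univ_eq hl (by rw [measure_univ, hmass])
  rw [e2]
  exact e1

end Pool.Agent.helper49.Slope
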