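import Pool.Agent.helper49.Slope.DefsK
import Pool.Agent.helper49.Slope.J1
import Pool.Agent.helper49.Slope.E4
import Pool.Agent.helper49.Slope.B2a

/-!
MP_aedd95_co (slope of k-fold hyperplane covers of triangular grids), module K4.
Smearing: the density of an affine function of the digits. `p = ((s₁,s₂),η), ω)` with law
`pi9.prod (unif 1)`.

For fixed `η, ω` the function `L` is affine in `s₁` and in `s₂` with slopes (`η = 1`):
`∂₁ = m ω - a + β`, `∂₂ = n ω + b - β`, where `m = a - t`, `n = b - t`, `κ = t - β`: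
`∂₁ = -m(1-ω) - κ`, `∂₂ = n(1+ω) + κ`; for `η = -1`: `∂₁ = m(1+ω) + κ`, `∂₂ = -n(1-ω) - κ`.
As `m n < 0`, `|∂₁ + ∂₂| = |m|(1 ∓ ω) + |n|(1 ± ω) ≥ 2 min(|m|,|n|) ≥ 2`, so for every `ω` one of
`|∂₁|, |∂₂|` is `≥ 1`. Each digit has density `≤ (1/2+τ)/τ = 7` (`τ = 1/12`) and is independent of
the rest, hence (conditioning on everything else) the density of `L` is at most `7`, the load at
most `14`. If `β = t` (`κ = 0`) then the density given `ω`, `η` is at most
`7/max(|m|(1 ∓ ω), |n|(1 ± ω))`; using the first for `∓ω ≥ 0` and the second otherwise, the load is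
at most `7 (1/|m| ∫_0^1 dx/(1+x) + 1/|n| ∫_0^1 dx/(1+x)) = 7 log 2 (1/|m| + 1/|n|)`.
-/

set_option autoImplicit false

open MeasureTheory ProbabilityTheory
open scoped ENNReal

namespace Pool.Agent.helper49.Slope

/-- the value of the form with values `a, b` on the pair, `t` on the units and `β` on the block of
size 4 -/
noncomputable def L9 (a b t β : ℤ) (X : ℝ) (p : Q9 × ℝ) : ℝ :=
  (((a : ℝ) - t) * ca p.1 + ((b : ℝ) - t) * cb p.1) * p.2
    + p.1.2 * ((a : ℝ) * (1 - ca p.1) - (b : ℝ) * (1 - cb p.1)) + (β : ℝ) * (X - xA p.1)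

theorem K4_lam : IsProbabilityMeasure (lam (1 / 12)) := lam_prob (by norm_num) (by norm_num)

theorem pi9_prob : IsProbabilityMeasure pi9 := by
  have h1 := K4_lam
  have h2 := sgnM_prob
  unfold pi9
  infer_instance

theorem pi9_val : ∀ᵐ q ∂pi9, Val q := by
  have h1 := K4_lam
  have h2 := sgnM_prob
  have a1 : ∀ᵐ s ∂((lam (1 / 12)).prod (lam (1 / 12))), |s.1| ≤ 1 / 12 ∧ |s.2| ≤ 1 / 12 := by
    have b1 : ∀ᵐ s ∂((lam (1 / 12)).prod (lam (1 / 12))), |s.1| ≤ 1 / 12 :=
      Measure.quasiMeasurePreserving_fst.ae (lam_ae (1 / 12))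
    have b2 : ∀ᵐ s ∂((lam (1 / 12)).prod (lam (1 / 12))), |s.2| ≤ 1 / 12 :=
      Measure.quasiMeasurePreserving_snd.ae (lam_ae (1 / 12))
    filter_upwards [b1, b2] with s c1 c2
    exact ⟨c1, c2⟩
  unfold pi9
  have b1 : ∀ᵐ q ∂(((lam (1 / 12)).prod (lam (1 / 12))).prod sgnM),
      |q.1.1| ≤ 1 / 12 ∧ |q.1.2| ≤ 1 / 12 := Measure.quasiMeasurePreserving_fst.ae a1
  have b2 : ∀ᵐ q ∂(((lam (1 / 12)).prod (lam (1 / 12))).prod sgnM), q.2 = 1 ∨ q.2 = -1 :=
    Measure.quasiMeasurePreserving_snd.ae sgnM_ae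
  filter_upwards [b1, b2] with q c1 c2
  exact ⟨c1.1, c1.2, c2⟩

theorem K4_meas (a b t β : ℤ) (X : ℝ) : Measurable (L9 a b t β X) := by
  unfold L9 ca cb xA
  fun_prop

/-- affine preimages -/
theorem K4_vol {A : ℝ} (hA : A ≠ 0) (C : ℝ) (S : Set ℝ) :
    volume ((fun s : ℝ => A * s + C) ⁻¹' S) = ENNReal.ofReal (1 / |A|) * volume S := by
  have e : (fun s : ℝ => A * s + C) = (fun x => x + C) ∘ (fun x => A * x) := rfl
  rw [e, Set.preimage_comp, Real.volume_preimage_mul_left hA, measure_preimage_add_right,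
    abs_inv, one_div]

/-- one digit: the density is at most `7` -/
theorem K4_lam_le (T : Set ℝ) (hT : MeasurableSet T) :
    lam (1 / 12) T ≤ ENNReal.ofReal 7 * volume T := by
  unfold lam
  rw [withDensity_apply _ hT, Measure.restrict_restrict hT]
  calc ∫⁻ s in T ∩ Set.Icc (-(1 / 12)) (1 / 12), ENNReal.ofReal ((1 / 2 + s) / (1 / 12))
      ≤ ∫⁻ _s in T ∩ Set.Icc (-(1 / 12)) (1 / 12), ENNReal.ofReal 7 := by
        refine setLIntegral_mono' (hT.inter measurableSet_Icc) ?_
        intro s hs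
        apply ENNReal.ofReal_le_ofReal
        have := hs.2.2
        linarith
    _ = ENNReal.ofReal 7 * volume (T ∩ Set.Icc (-(1 / 12)) (1 / 12)) := setLIntegral_const _ _
    _ ≤ ENNReal.ofReal 7 * volume T := by
        gcongr
        exact Set.inter_subset_left

theorem K4_one {A : ℝ} (hA : A ≠ 0) (C : ℝ) {S : Set ℝ} (hS : MeasurableSet S) :
    lam (1 / 12) ((fun s : ℝ => A * s + C) ⁻¹' S) ≤ ENNReal.ofReal (7 / |A|) * volume S := by
  have hm : Measurable (fun s : ℝ => A * s + C) := by fun_prop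
  refine (K4_lam_le _ (hm hS)).trans ?_
  rw [K4_vol hA, ← mul_assoc, ← ENNReal.ofReal_mul (by norm_num)]
  rw [mul_one_div]

/-- two digits -/
theorem K4_fst {A : ℝ} (hA : A ≠ 0) (B C : ℝ) {S : Set ℝ} (hS : MeasurableSet S) :
    ((lam (1 / 12)).prod (lam (1 / 12))) ((fun s : ℝ × ℝ => A * s.1 + B * s.2 + C) ⁻¹' S)
      ≤ ENNReal.ofReal (7 / |A|) * volume S := by
  have h1 := K4_lam
  have hm : Measurable (fun s : ℝ × ℝ => A * s.1 + B * s.2 + C) := by fun_prop
  rw [Measure.prod_apply_symm (hm hS)]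
  calc ∫⁻ y, lam (1 / 12) ((fun x => (x, y)) ⁻¹'
        ((fun s : ℝ × ℝ => A * s.1 + B * s.2 + C) ⁻¹' S)) ∂(lam (1 / 12))
      ≤ ∫⁻ _y, ENNReal.ofReal (7 / |A|) * volume S ∂(lam (1 / 12)) := by
        refine lintegral_mono fun y => ?_
        have e : (fun x => (x, y)) ⁻¹' ((fun s : ℝ × ℝ => A * s.1 + B * s.2 + C) ⁻¹' S)
            = (fun s : ℝ => A * s + (B * y + C)) ⁻¹' S := by
          ext x
          simp only [Set.mem_preimage]
          rw [show A * x + (B * y + C) = A * x + B * y + C by ring]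
        rw [e]
        exact K4_one hA _ hS
    _ = _ := by
        rw [lintegral_const, measure_univ, mul_one]

theorem K4_snd (A : ℝ) {B : ℝ} (hB : B ≠ 0) (C : ℝ) {S : Set ℝ} (hS : MeasurableSet S) :
    ((lam (1 / 12)).prod (lam (1 / 12))) ((fun s : ℝ × ℝ => A * s.1 + B * s.2 + C) ⁻¹' S)
      ≤ ENNReal.ofReal (7 / |B|) * volume S := by
  have h1 := K4_lam
  have hm : Measurable (fun s : ℝ × ℝ => A * s.1 + B * s.2 + C) := by fun_prop
  rw [Measure.prod_apply (hm hS)]
  calc ∫⁻ x, lam (1 / 12) (Prod.mk x ⁻¹'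
        ((fun s : ℝ × ℝ => A * s.1 + B * s.2 + C) ⁻¹' S)) ∂(lam (1 / 12))
      ≤ ∫⁻ _y, ENNReal.ofReal (7 / |B|) * volume S ∂(lam (1 / 12)) := by
        refine lintegral_mono fun x => ?_
        have e : Prod.mk x ⁻¹' ((fun s : ℝ × ℝ => A * s.1 + B * s.2 + C) ⁻¹' S)
            = (fun s : ℝ => B * s + (A * x + C)) ⁻¹' S := by
          ext y
          simp only [Set.mem_preimage]
          rw [show B * y + (A * x + C) = A * x + B * y + C by ring]
        rw [e]
        exact K4_one hB _ hS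
    _ = _ := by
        rw [lintegral_const, measure_univ, mul_one]

/-- the value as an affine function of the digits -/
theorem K4_affine (a b t β : ℤ) (X : ℝ) (s : ℝ × ℝ) (η ω : ℝ) :
    L9 a b t β X ((s, η), ω)
      = (((a : ℝ) - t) * ω - η * (a - β)) * s.1 + (((b : ℝ) - t) * ω + η * (b - β)) * s.2
        + ((((a : ℝ) - t) / 2 + ((b : ℝ) - t) / 2) * ω + η * ((a : ℝ) / 2 - b / 2) + β * X) := by
  unfold L9 ca cb xA
  simp only
  ring

/-- the general estimate: `g` bounds the density for fixed `η, ω` -/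
theorem K4_master (a b t β : ℤ) (X : ℝ) (g : ℝ → ℝ → ℝ) (hg : Measurable (Function.uncurry g))
    (h : ∀ η ω : ℝ, (η = 1 ∨ η = -1) → |ω| ≤ 1 →
      (((a : ℝ) - t) * ω - η * (a - β) ≠ 0 ∧ 7 / |((a : ℝ) - t) * ω - η * (a - β)| ≤ g η ω) ∨
      (((b : ℝ) - t) * ω + η * (b - β) ≠ 0 ∧ 7 / |((b : ℝ) - t) * ω + η * (b - β)| ≤ g η ω))
    {S : Set ℝ} (hS : MeasurableSet S) :
    ((pi9.prod (unif 1)).map (L9 a b t β X)) S
      ≤ (∫⁻ ω, (ENNReal.ofReal (g 1 ω) + ENNReal.ofReal (g (-1) ω)) / 2 ∂(unif 1))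
        * volume S := by
  have h1 := K4_lam
  have h2 := sgnM_prob
  have h3 := pi9_prob
  have h4 : IsProbabilityMeasure (unif 1) := unif_prob one_pos
  have hm := K4_meas a b t β X
  rw [Measure.map_apply hm hS, Measure.prod_apply_symm (hm hS),
    ← lintegral_mul_const _ (by
      have m1 : Measurable (fun ω => g 1 ω) := hg.comp (measurable_const.prodMk measurable_id)
      have m2 : Measurable (fun ω => g (-1) ω) := hg.comp (measurable_const.prodMk measurable_id)
      fun_prop)]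
  refine lintegral_mono_ae ?_
  filter_upwards [unif_ae (h := 1)] with ω hω
  have hm1 : MeasurableSet ((fun q : Q9 => (q, ω)) ⁻¹' (L9 a b t β X ⁻¹' S)) :=
    (measurable_id.prodMk measurable_const) (hm hS)
  unfold pi9
  rw [Measure.prod_apply_symm hm1]
  calc ∫⁻ η, ((lam (1 / 12)).prod (lam (1 / 12))) ((fun s => (s, η)) ⁻¹'
        ((fun q : Q9 => (q, ω)) ⁻¹' (L9 a b t β X ⁻¹' S))) ∂sgnM
      ≤ ∫⁻ η, ENNReal.ofReal (g η ω) * volume S ∂sgnM := by
        refine lintegral_mono_ae ?_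
        filter_upwards [sgnM_ae] with η hη
        have e : (fun s => (s, η)) ⁻¹' ((fun q : Q9 => (q, ω)) ⁻¹' (L9 a b t β X ⁻¹' S))
            = (fun s : ℝ × ℝ => (((a : ℝ) - t) * ω - η * (a - β)) * s.1
                + (((b : ℝ) - t) * ω + η * (b - β)) * s.2
                + ((((a : ℝ) - t) / 2 + ((b : ℝ) - t) / 2) * ω + η * ((a : ℝ) / 2 - b / 2)
                  + β * X)) ⁻¹' S := by
          ext s
          simp only [Set.mem_preimage]
          rw [K4_affine]
        rw [e]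
        rcases h η ω hη hω with ⟨hA, hB⟩ | ⟨hA, hB⟩
        · refine (K4_fst hA _ _ hS).trans ?_
          gcongr
        · refine (K4_snd _ hA _ hS).trans ?_
          gcongr
    _ = _ := by
        have m1 : Measurable (fun η => g η ω) := hg.comp (measurable_id.prodMk measurable_const)
        rw [lintegral_sgnM (fun η => ENNReal.ofReal (g η ω) * volume S) (by fun_prop),
          ← add_mul, ENNReal.mul_div_right_comm]

/-- opposite signs -/
theorem K4_signs {m n : ℤ} (h : m * n < 0) :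
    (1 ≤ (m : ℝ) ∧ (n : ℝ) ≤ -1) ∨ ((m : ℝ) ≤ -1 ∧ 1 ≤ (n : ℝ)) := by
  rcases mul_neg_iff.1 h with ⟨h1, h2⟩ | ⟨h1, h2⟩
  · left
    constructor
    · exact_mod_cast h1
    · have : n ≤ -1 := by omega
      exact_mod_cast this
  · right
    constructor
    · have : m ≤ -1 := by omega
      exact_mod_cast this
    · exact_mod_cast h2

theorem smear14 (a b t β : ℤ) (h : (a - t) * (b - t) < 0) (X : ℝ) :
    HasLoad ((pi9.prod (unif 1)).map (L9 a b t β X)) (fun _ => ENNReal.ofReal 14) := by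
  unfold HasLoad
  refine Measure.le_iff.2 fun S hS => ?_
  rw [withDensity_apply _ hS, setLIntegral_const]
  have h4 : IsProbabilityMeasure (unif 1) := unif_prob one_pos
  refine (K4_master a b t β X (fun _ _ => 7) (by fun_prop) ?_ hS).trans (le_of_eq ?_)
  · intro η ω hη hω
    have hs := K4_signs h
    push_cast at hs
    have hω1 := (abs_le.1 hω).1
    have hω2 := (abs_le.1 hω).2
    have key : 1 ≤ |((a : ℝ) - t) * ω - η * (a - β)| ∨
        1 ≤ |((b : ℝ) - t) * ω + η * (b - β)| := by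
      by_contra hcon
      rw [not_or, not_le, not_le, abs_lt, abs_lt] at hcon
      obtain ⟨⟨c1, c2⟩, ⟨c3, c4⟩⟩ := hcon
      rcases hη with rfl | rfl
      · rcases hs with ⟨s1, s2⟩ | ⟨s1, s2⟩
        · nlinarith [mul_nonneg (sub_nonneg.2 s1) (sub_nonneg.2 hω2),
            mul_nonneg (sub_nonneg.2 s2) (by linarith : (0:ℝ) ≤ 1 + ω)]
        · nlinarith [mul_nonneg (sub_nonneg.2 s1) (sub_nonneg.2 hω2),
            mul_nonneg (sub_nonneg.2 s2) (by linarith : (0:ℝ) ≤ 1 + ω)]
      · rcases hs with ⟨s1, s2⟩ | ⟨s1, s2⟩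
        · nlinarith [mul_nonneg (sub_nonneg.2 s2) (sub_nonneg.2 hω2),
            mul_nonneg (sub_nonneg.2 s1) (by linarith : (0:ℝ) ≤ 1 + ω)]
        · nlinarith [mul_nonneg (sub_nonneg.2 s2) (sub_nonneg.2 hω2),
            mul_nonneg (sub_nonneg.2 s1) (by linarith : (0:ℝ) ≤ 1 + ω)]
    rcases key with k | k
    · left
      refine ⟨fun h0 => ?_, ?_⟩
      · rw [h0, abs_zero] at k
        linarith
      · exact div_le_self (by norm_num) k
    · right
      refine ⟨fun h0 => ?_, ?_⟩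
      · rw [h0, abs_zero] at k
        linarith
      · exact div_le_self (by norm_num) k
  · rw [lintegral_const, measure_univ, mul_one, ← ENNReal.ofReal_add (by norm_num) (by norm_num)]
    norm_num

theorem K4_log : ∫⁻ ω, ENNReal.ofReal (1 / (1 + |ω|)) ∂(unif 1) = ENNReal.ofReal (Real.log 2) := by
  have hc : Continuous (fun x : ℝ => 1 / (1 + |x|)) := by
    refine Continuous.div continuous_const (by fun_prop) (fun x => ?_)
    positivity
  rw [E4_lint one_pos (f := fun ω => 1 / (1 + |ω|)) hc (fun x _ => by positivity)]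
  have e := E4_abs (h := 1) one_pos hc
  simp only [abs_abs] at e
  rw [e]
  have e2 : ∫ r in (0:ℝ)..1, 1 / (1 + |r|) = Real.log 2 := by
    have e3 : ∫ r in (0:ℝ)..1, 1 / (1 + |r|) = ∫ r in (0:ℝ)..1, (fun x => 1 / x) (1 + r) := by
      apply intervalIntegral.integral_congr
      intro x hx
      rw [Set.uIcc_of_le zero_le_one] at hx
      simp only [abs_of_nonneg hx.1]
    rw [e3, intervalIntegral.integral_comp_add_left (fun x => 1 / x) 1, integral_one_div (by
      rw [Set.uIcc_of_le (by norm_num)]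
      simp)]
    norm_num
  rw [e2]
  congr 1
  ring

theorem smearlog (a b t : ℤ) (h : (a - t) * (b - t) < 0) (X : ℝ) :
    HasLoad ((pi9.prod (unif 1)).map (L9 a b t t X))
      (fun _ => ENNReal.ofReal (7 * Real.log 2 * (1 / |(a : ℝ) - t| + 1 / |(b : ℝ) - t|))) := by
  unfold HasLoad
  refine Measure.le_iff.2 fun S hS => ?_
  rw [withDensity_apply _ hS, setLIntegral_const]
  have hs := K4_signs h
  push_cast at hs
  set M : ℝ := |(a : ℝ) - t| with hM
  set N : ℝ := |(b : ℝ) - t| with hN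
  have hM1 : 1 ≤ M := by
    rcases hs with ⟨s1, s2⟩ | ⟨s1, s2⟩
    · exact le_trans s1 (le_abs_self _)
    · exact le_trans (by linarith) (neg_le_abs _)
  have hN1 : 1 ≤ N := by
    rcases hs with ⟨s1, s2⟩ | ⟨s1, s2⟩
    · exact le_trans (by linarith) (neg_le_abs _)
    · exact le_trans s2 (le_abs_self _)
  have h4 : IsProbabilityMeasure (unif 1) := unif_prob one_pos
  have hgm : Measurable (Function.uncurry (fun η ω : ℝ =>
      if 0 ≤ ω then (if 0 < η then 7 / N * (1 / (1 + |ω|)) else 7 / M * (1 / (1 + |ω|)))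
      else (if 0 < η then 7 / M * (1 / (1 + |ω|)) else 7 / N * (1 / (1 + |ω|))))) := by
    unfold Function.uncurry
    refine Measurable.ite (measurableSet_le measurable_const (by fun_prop)) ?_ ?_
    · exact Measurable.ite (measurableSet_lt measurable_const (by fun_prop)) (by fun_prop)
        (by fun_prop)
    · exact Measurable.ite (measurableSet_lt measurable_const (by fun_prop)) (by fun_prop)
        (by fun_prop)
  have hm0 : (a : ℝ) - t ≠ 0 := fun h0 => by
    rw [h0, abs_zero] at hM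
    linarith
  have hn0 : (b : ℝ) - t ≠ 0 := fun h0 => by
    rw [h0, abs_zero] at hN
    linarith
  refine (K4_master a b t t X _ hgm ?_ hS).trans ?_
  · intro η ω hη hω
    have hω1 := (abs_le.1 hω).1
    have hω2 := (abs_le.1 hω).2
    have eA : ((a : ℝ) - t) * ω - η * (a - t) = ((a : ℝ) - t) * (ω - η) := by ring
    have eB : ((b : ℝ) - t) * ω + η * (b - t) = ((b : ℝ) - t) * (ω + η) := by ring
    rw [eA, eB, abs_mul, abs_mul, ← hM, ← hN]
    have hkey : ∀ x y : ℝ, 0 < x → |y| = 1 + |ω| → 7 / (x * |y|) ≤ 7 / x * (1 / (1 + |ω|)) := by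
      intro x y hx hy
      rw [hy, div_mul_div_comm, mul_one]
    rcases hη with rfl | rfl
    · rcases le_or_gt 0 ω with h0 | h0
      · right
        refine ⟨mul_ne_zero hn0 (by linarith), ?_⟩
        simp only [if_pos h0, zero_lt_one, if_true]
        refine hkey N _ (by linarith) ?_
        rw [abs_of_nonneg h0, abs_of_nonneg (by linarith)]
        ring
      · left
        refine ⟨mul_ne_zero hm0 (by linarith), ?_⟩
        simp only [if_neg (not_le.2 h0), zero_lt_one, if_true]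
        refine hkey M _ (by linarith) ?_
        rw [abs_of_neg h0, abs_of_neg (by linarith)]
        ring
    · have hneg : ¬ (0 : ℝ) < -1 := by norm_num
      rcases le_or_gt 0 ω with h0 | h0
      · left
        refine ⟨mul_ne_zero hm0 (by linarith), ?_⟩
        simp only [if_pos h0, if_neg hneg]
        refine hkey M _ (by linarith) ?_
        rw [abs_of_nonneg h0, abs_of_nonneg (by linarith)]
        ring
      · right
        refine ⟨mul_ne_zero hn0 (by linarith), ?_⟩
        simp only [if_neg (not_le.2 h0), if_neg hneg]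
        refine hkey N _ (by linarith) ?_
        rw [abs_of_neg h0, abs_of_neg (by linarith)]
        ring
  · gcongr
    have hneg : ¬ (0 : ℝ) < -1 := by norm_num
    have e1 : ∀ ω : ℝ, (ENNReal.ofReal (if 0 ≤ ω then (if (0:ℝ) < 1 then 7 / N * (1 / (1 + |ω|))
          else 7 / M * (1 / (1 + |ω|))) else (if (0:ℝ) < 1 then 7 / M * (1 / (1 + |ω|))
          else 7 / N * (1 / (1 + |ω|))))
        + ENNReal.ofReal (if 0 ≤ ω then (if (0:ℝ) < -1 then 7 / N * (1 / (1 + |ω|))
          else 7 / M * (1 / (1 + |ω|))) else (if (0:ℝ) < -1 then 7 / M * (1 / (1 + |ω|))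
          else 7 / N * (1 / (1 + |ω|))))) / 2
        = ENNReal.ofReal (7 * (1 / M + 1 / N)) / 2 * ENNReal.ofReal (1 / (1 + |ω|)) := by
      intro ω
      have hp : (0:ℝ) ≤ 1 / (1 + |ω|) := by positivity
      have hMp : 0 ≤ 7 / M * (1 / (1 + |ω|)) := by positivity
      have hNp : 0 ≤ 7 / N * (1 / (1 + |ω|)) := by positivity
      simp only [zero_lt_one, if_true, if_neg hneg]
      rw [← ENNReal.mul_div_right_comm, ← ENNReal.ofReal_mul (by positivity)]
      rcases le_or_gt 0 ω with h0 | h0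
      · simp only [if_pos h0]
        rw [← ENNReal.ofReal_add hNp hMp]
        congr 2
        ring
      · simp only [if_neg (not_le.2 h0)]
        rw [← ENNReal.ofReal_add hMp hNp]
        congr 2
        ring
    simp_rw [e1]
    rw [lintegral_const_mul _ (by fun_prop), K4_log, ← ENNReal.mul_div_right_comm,
      ← ENNReal.ofReal_mul (by positivity)]
    refine le_of_eq ?_
    congr 2
    ring

/-- for `a = t + 1`, `b = t - 1` (or reversed) and `β = t = 0` the values satisfy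
`|L9| ≥ 2 - C - |ca - cb| ≥ 1 - 2 max(s₁,s₂) ≥ 5/6` -/
theorem smear_range (a : ℤ) (ha : |a| = 1) (X : ℝ) :
    ∀ᵐ p ∂(pi9.prod (unif 1)), 5 / 6 ≤ |L9 a (-a) 0 0 X p| := by
  have h3 := pi9_prob
  have h4 : IsProbabilityMeasure (unif 1) := unif_prob one_pos
  have b1 : ∀ᵐ p ∂(pi9.prod (unif 1)), Val p.1 := Measure.quasiMeasurePreserving_fst.ae pi9_val
  have b2 : ∀ᵐ p ∂(pi9.prod (unif 1)), |p.2| ≤ 1 :=
    Measure.quasiMeasurePreserving_snd.ae (unif_ae (h := 1))
  filter_upwards [b1, b2] with p c1 c2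
  obtain ⟨d1, d2, d3⟩ := c1
  have e : L9 a (-a) 0 0 X p = (a : ℝ) * ((p.1.1.1 - p.1.1.2) * p.2
      + p.1.2 * (1 - p.1.1.1 - p.1.1.2)) := by
    unfold L9 ca cb xA
    push_cast
    ring
  have ha2 : |(a : ℝ)| = 1 := by
    rw [← Int.cast_abs, ha, Int.cast_one]
  rw [e, abs_mul, ha2, one_mul]
  rw [abs_le] at c2 d1 d2
  obtain ⟨c3, c4⟩ := c2
  obtain ⟨d4, d5⟩ := d1
  obtain ⟨d6, d7⟩ := d2
  set s := p.1.1.1
  set r := p.1.1.2
  set ω := p.2
  rcases d3 with h5 | h5
  · rw [h5]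
    refine le_trans ?_ (le_abs_self _)
    nlinarith [mul_nonneg (by linarith : (0:ℝ) ≤ 1 / 12 - s) (by linarith : (0:ℝ) ≤ 1 - ω),
      mul_nonneg (by linarith : (0:ℝ) ≤ 1 / 12 - r) (by linarith : (0:ℝ) ≤ 1 + ω)]
  · rw [h5]
    refine le_trans ?_ (neg_le_abs _)
    nlinarith [mul_nonneg (by linarith : (0:ℝ) ≤ 1 / 12 - s) (by linarith : (0:ℝ) ≤ 1 + ω),
      mul_nonneg (by linarith : (0:ℝ) ≤ 1 / 12 - r) (by linarith : (0:ℝ) ≤ 1 - ω)]

end Pool.Agent.helper49.Slope
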