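import Pool.Agent.helper49.Slope.DefsK
import Pool.Agent.helper49.Slope.J1
import Pool.Agent.helper49.Slope.B2a
import Pool.Agent.helper49.Slope.E4

/-!
MP_aedd95_co (slope of k-fold hyperplane covers of triangular grids), module K5.
Numerical expectations over `pi9`, `τ = 1/12`. Moments (`lam_moment_two`, `lintegral_sgnM`):
`E s = 2τ²/3 = 0.0046297`, `E s² = τ²/3 = 0.0023149`, `E xA = 0`, `E xA² = 2 E s² - 2 (E s)²
≤ 0.00463`; for `|X| ≤ 1/20`: `E (X - xA)² = X² + E xA² ≤ 0.00713` (the cross term vanishes by the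
sign `η`). With `ρ = |X - xA| ≤ 13/60`:
* `ρ ≤ ρ²/(2m) + m/2`, `m = 17/200`: `E ρ ≤ 0.00713/0.17 + 0.0425 = 0.084442`.
* `P4 ρ ≤ 0.8717 + 0.9432 (ρ²/0.17 + 0.0425) - 0.896 ρ²`, expectation
  `≤ 0.911786 + 4.65224·0.00713 = 0.944957`.
-/

set_option autoImplicit false

open MeasureTheory ProbabilityTheory
open scoped ENNReal

namespace Pool.Agent.helper49.Slope

/-- integrals over `pi9` -/
theorem K5_int (f : Q9 → ℝ≥0∞) (hf : Measurable f) : ∫⁻ q, f q ∂pi9 =
    ∫⁻ p, (f (p, 1) + f (p, -1)) / 2 ∂((lam (1 / 12)).prod (lam (1 / 12))) := by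
  have := lam_prob (τ := 1 / 12) (by norm_num) (by norm_num)
  have := sgnM_prob
  unfold pi9
  rw [lintegral_prod _ hf.aemeasurable]
  refine lintegral_congr fun p => ?_
  exact lintegral_sgnM (fun η => f (p, η)) (hf.comp measurable_prodMk_left)

theorem K5_ae : ∀ᵐ p ∂((lam (1 / 12)).prod (lam (1 / 12))), |p.1| ≤ 1 / 12 ∧ |p.2| ≤ 1 / 12 := by
  have := lam_prob (τ := 1 / 12) (by norm_num) (by norm_num)
  have h1 := lam_ae (1 / 12)
  have h2 : ∀ᵐ p ∂((lam (1 / 12)).prod (lam (1 / 12))), |p.1| ≤ 1 / 12 :=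
    Measure.quasiMeasurePreserving_fst.ae h1
  have h3 : ∀ᵐ p ∂((lam (1 / 12)).prod (lam (1 / 12))), |p.2| ≤ 1 / 12 :=
    Measure.quasiMeasurePreserving_snd.ae h1
  filter_upwards [h2, h3] with p hp hq using ⟨hp, hq⟩

/-- a function bounded by `A` (nonnegative), for both signs, whose mean over the signs is bounded by
a polynomial of degree at most 2 -/
theorem K5_poly (F : Q9 → ℝ) (hF : Measurable F) (c0 c1 c2 c11 c12 c22 : ℝ)
    (h0 : ∀ s t : ℝ, |s| ≤ 1 / 12 → |t| ≤ 1 / 12 → 0 ≤ F ((s, t), 1) ∧ 0 ≤ F ((s, t), -1) ∧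
      (F ((s, t), 1) + F ((s, t), -1)) / 2 ≤
        c0 + c1 * s + c2 * t + c11 * s ^ 2 + c12 * (s * t) + c22 * t ^ 2) :
    ∫⁻ q, ENNReal.ofReal (F q) ∂pi9 ≤ ENNReal.ofReal (c0 + (c1 + c2) * (1 / 216)
      + (c11 + c22) * (1 / 432) + c12 * (1 / 46656)) := by
  rw [K5_int _ (by fun_prop)]
  have h1 := lam_moment_two (τ := 1 / 12) (by norm_num) (by norm_num) c0 c1 c2 c11 c12 c22
    (fun s t hs ht => by
      have h := h0 s t hs ht
      linarith [h.1, h.2.1, h.2.2])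
  have h2 : c0 + (c1 + c2) * (2 * (1 / 12 : ℝ) ^ 2 / 3) + (c11 + c22) * ((1 / 12 : ℝ) ^ 2 / 3)
      + c12 * (2 * (1 / 12 : ℝ) ^ 2 / 3) ^ 2 = c0 + (c1 + c2) * (1 / 216)
      + (c11 + c22) * (1 / 432) + c12 * (1 / 46656) := by norm_num
  rw [← h2, ← h1]
  refine lintegral_mono_ae ?_
  filter_upwards [K5_ae] with p hp
  obtain ⟨a1, a2, a3⟩ := h0 p.1 p.2 hp.1 hp.2
  have e : (2 : ℝ≥0∞) = ENNReal.ofReal 2 := by simp
  rw [← ENNReal.ofReal_add a1 a2, e, ← ENNReal.ofReal_div_of_pos (by norm_num)]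
  exact ENNReal.ofReal_le_ofReal a3

theorem K5_xA_meas : Measurable xA := by
  unfold xA
  fun_prop

theorem K5_quad (X : ℝ) (hX : |X| ≤ 1 / 20) (F : Q9 → ℝ) (hF : Measurable F) (a b : ℝ)
    (hb : 0 ≤ b) (h0 : ∀ q : Q9, Val q → 0 ≤ F q ∧ F q ≤ a + b * (X - xA q) ^ 2) :
    ∫⁻ q, ENNReal.ofReal (F q) ∂pi9 ≤ ENNReal.ofReal (a + b * (713 / 100000)) := by
  have hX2 : X ^ 2 ≤ 1 / 400 := by
    rw [abs_le] at hX
    nlinarith [hX.1, hX.2]
  refine (K5_poly F hF (a + b * X ^ 2) 0 0 b (-2 * b) b ?_).trans ?_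
  · intro s t hs ht
    have v1 : Val ((s, t), 1) := ⟨hs, ht, Or.inl rfl⟩
    have v2 : Val ((s, t), -1) := ⟨hs, ht, Or.inr rfl⟩
    obtain ⟨a1, a2⟩ := h0 _ v1
    obtain ⟨b1, b2⟩ := h0 _ v2
    refine ⟨a1, b1, ?_⟩
    have e1 : xA ((s, t), 1) = t - s := by simp [xA]
    have e2 : xA ((s, t), -1) = -(t - s) := by simp [xA]
    rw [e1] at a2
    rw [e2] at b2
    nlinarith
  · apply ENNReal.ofReal_le_ofReal
    nlinarith [mul_le_mul_of_nonneg_left hX2 hb]

/-- `ρ ≤ ρ²/(2m) + m/2`, `m = 17/200` -/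
theorem K5_rho (x : ℝ) : |x| ≤ 17 / 400 + 100 / 17 * x ^ 2 := by
  have : 0 ≤ (|x| - 17 / 200) ^ 2 := sq_nonneg _
  have h2 : |x| ^ 2 = x ^ 2 := sq_abs x
  nlinarith

theorem K5_rho_lt (X : ℝ) (hX : |X| ≤ 1 / 20) (q : Q9) (hq : Val q) : |X - xA q| ≤ 13 / 60 := by
  obtain ⟨h1, h2, h3⟩ := hq
  have h4 : |xA q| ≤ 1 / 6 := by
    unfold xA
    rw [abs_le] at h1 h2 ⊢
    rcases h3 with h3 | h3 <;> rw [h3] <;> constructor <;> linarith [h1.1, h1.2, h2.1, h2.2]
  rw [abs_le] at hX h4 ⊢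
  constructor <;> linarith [hX.1, hX.2, h4.1, h4.2]

theorem nine_I1 (X : ℝ) (hX : |X| ≤ 1 / 20) :
    ∫⁻ q, ENNReal.ofReal (1 + |X - xA q| / 2) ∂pi9 ≤ ENNReal.ofReal (10423 / 10000) := by
  refine (K5_quad X hX _ (by have := K5_xA_meas; fun_prop) (1 + 17 / 800) (50 / 17)
    (by norm_num) ?_).trans (ENNReal.ofReal_le_ofReal (by norm_num))
  intro q _
  have h1 := K5_rho (X - xA q)
  have h2 := abs_nonneg (X - xA q)
  constructor <;> linarith

theorem nine_I2 (X : ℝ) (hX : |X| ≤ 1 / 20) :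
    ∫⁻ q, ENNReal.ofReal (P4 |X - xA q|) ∂pi9 ≤ ENNReal.ofReal (945 / 1000) := by
  refine (K5_quad X hX _ (by have := K5_xA_meas; unfold P4; fun_prop)
    (8717 / 10000 + 9432 / 10000 * (17 / 400)) (9432 / 10000 * (100 / 17) - 896 / 1000)
    (by norm_num) ?_).trans (ENNReal.ofReal_le_ofReal (by norm_num))
  intro q hq
  have h1 := K5_rho (X - xA q)
  have h2 := abs_nonneg (X - xA q)
  have h3 := K5_rho_lt X hX q hq
  have h4 : |X - xA q| ^ 2 = (X - xA q) ^ 2 := sq_abs _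
  unfold P4
  constructor
  · nlinarith
  · rw [h4]
    linarith

theorem nine_I3 (X : ℝ) (hX : |X| ≤ 1 / 20) :
    ∫⁻ q, ENNReal.ofReal (70 / 100 + 122 / 100 * |X - xA q|) ∂pi9
      ≤ ENNReal.ofReal (804 / 1000) := by
  refine (K5_quad X hX _ (by have := K5_xA_meas; fun_prop)
    (70 / 100 + 122 / 100 * (17 / 400)) (122 / 100 * (100 / 17))
    (by norm_num) ?_).trans (ENNReal.ofReal_le_ofReal (by norm_num))
  intro q _
  have h1 := K5_rho (X - xA q)
  have h2 := abs_nonneg (X - xA q)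
  constructor <;> linarith

/-- `E[n4 ρ + ρ M] = 0.8717 + (M - 0.7235) E ρ`, `E ρ ≤ 0.08445` -/
theorem nine_I4 (X : ℝ) (hX : |X| ≤ 1 / 20) (M : ℝ) (hM : 7235 / 10000 ≤ M) :
    ∫⁻ q, ENNReal.ofReal (n4 |X - xA q| + |X - xA q| * M) ∂pi9
      ≤ ENNReal.ofReal (8717 / 10000 + (M - 7235 / 10000) * (8445 / 100000)) := by
  have hM' : 0 ≤ M - 7235 / 10000 := by linarith
  refine (K5_quad X hX _ (by have := K5_xA_meas; unfold n4; fun_prop)
    (8717 / 10000 + (M - 7235 / 10000) * (17 / 400)) ((M - 7235 / 10000) * (100 / 17))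
    (by positivity) ?_).trans (ENNReal.ofReal_le_ofReal (by nlinarith))
  intro q _
  have h1 := mul_le_mul_of_nonneg_left (K5_rho (X - xA q)) hM'
  have h2 := mul_nonneg hM' (abs_nonneg (X - xA q))
  unfold n4
  constructor <;> linarith

theorem nine_I5 (X : ℝ) (hX : |X| ≤ 1 / 20) (M : ℝ) (hM : 0 ≤ M) :
    ∫⁻ q, ENNReal.ofReal (613 / 1000 + |X - xA q| * M) ∂pi9
      ≤ ENNReal.ofReal (613 / 1000 + M * (8445 / 100000)) := by
  refine (K5_quad X hX _ (by have := K5_xA_meas; fun_prop)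
    (613 / 1000 + M * (17 / 400)) (M * (100 / 17))
    (by positivity) ?_).trans (ENNReal.ofReal_le_ofReal (by nlinarith))
  intro q _
  have h1 := mul_le_mul_of_nonneg_left (K5_rho (X - xA q)) hM
  have h2 := mul_nonneg hM (abs_nonneg (X - xA q))
  constructor <;> linarith

theorem K5_meas_sqrt {F : Q9 → ℝ} (hF : Measurable F) :
    Measurable (fun q => 1 / Real.sqrt (F q)) := by fun_prop

/-- linear upper bound for `1/√y` -/
theorem K5_inv_sqrt {y α β : ℝ} (hy : 0 < y) (hL : 0 < α - β * y)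
    (h : 1 ≤ (α - β * y) ^ 2 * y) : 1 / Real.sqrt y ≤ α - β * y := by
  have hs : 0 < Real.sqrt y := Real.sqrt_pos.2 hy
  rw [div_le_iff₀ hs]
  have h1 : Real.sqrt y ^ 2 = y := Real.sq_sqrt hy.le
  have h2 : 1 ≤ ((α - β * y) * Real.sqrt y) ^ 2 := by rw [mul_pow, h1]; exact h
  have h3 : 0 ≤ (α - β * y) * Real.sqrt y := by positivity
  nlinarith

theorem K5_chord7 {y : ℝ} (h1 : 133 / 108 ≤ y) (h2 : y ≤ 157 / 108) :
    1 / Real.sqrt y ≤ (9012 / 10000 + 3227 / 10000 * (12314 / 10000)) - 3227 / 10000 * y := by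
  refine K5_inv_sqrt (by linarith) (by linarith) ?_
  have a1 : 0 ≤ y - 133 / 108 := by linarith
  have a2 : 0 ≤ 157 / 108 - y := by linarith
  have a3 : 0 ≤ 536 / 100 - y := by linarith
  nlinarith [mul_nonneg (mul_nonneg a1 a2) a3, mul_nonneg a1 a2]

theorem K5_chord8 {y : ℝ} (h1 : 383 / 432 ≤ y) (h2 : y ≤ 137 / 144) :
    1 / Real.sqrt y ≤ (10621 / 10000 + 567 / 1000 * (8865 / 10000)) - 567 / 1000 * y := by
  refine K5_inv_sqrt (by linarith) (by linarith) ?_
  have a1 : 0 ≤ y - 383 / 432 := by linarith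
  have a2 : 0 ≤ 137 / 144 - y := by linarith
  have a3 : 0 ≤ 368 / 100 - y := by linarith
  nlinarith [mul_nonneg (mul_nonneg a1 a2) a3, mul_nonneg a1 a2]

/-- `4 ca cb ≤ (ca+cb)²`, so `∫∫ ca cb/(τ² (ca+cb)) ≤ ∫∫ (ca+cb)/(4τ²) = 1` -/
theorem nine_I6 : ∫⁻ q, ENNReal.ofReal (1 / (ca q + cb q)) ∂pi9 ≤ 1 := by
  have hm : Measurable (fun q : Q9 => 1 / (ca q + cb q)) := by unfold ca cb; fun_prop
  refine (K5_poly _ hm 1 (-1) (-1) (6 / 5) (12 / 5) (6 / 5) ?_).trans ?_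
  · intro s t hs ht
    rw [abs_le] at hs ht
    have e : ∀ η : ℝ, ca (((s, t), η) : Q9) + cb (((s, t), η) : Q9) = 1 + (s + t) := by
      intro η; unfold ca cb; ring
    rw [e, e]
    have hpos : 0 < 1 + (s + t) := by linarith [hs.1, ht.1]
    refine ⟨by positivity, by positivity, ?_⟩
    rw [add_self_div_two, div_le_iff₀ hpos]
    nlinarith [sq_nonneg (s + t), mul_nonneg (sq_nonneg (s + t))
      (show 0 ≤ 1 / 6 + (s + t) by linarith [hs.1, ht.1])]
  · rw [← ENNReal.ofReal_one]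
    exact ENNReal.ofReal_le_ofReal (by norm_num)

/-- chord bound: `y = 1 + C²/3 ∈ [133/108, 157/108]` = `[1.23148, 1.45371]`;
`1/√y ≤ 0.9012 - 0.3227 (y - 1.2314)` there, `E y = 1.341064`: `≤ 0.86582` -/
theorem nine_I7 :
    ∫⁻ q, ENNReal.ofReal (1 / Real.sqrt (1 + (ca q + cb q) ^ 2 / 3)) ∂pi9
      ≤ ENNReal.ofReal (867 / 1000) := by
  refine (K5_poly _ (K5_meas_sqrt (F := fun q : Q9 => 1 + (ca q + cb q) ^ 2 / 3)
    (by unfold ca cb; fun_prop))
    ((9012 / 10000 + 3227 / 10000 * (12314 / 10000)) - 3227 / 10000 * (4 / 3))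
    (-(3227 / 10000 * (2 / 3))) (-(3227 / 10000 * (2 / 3))) (-(3227 / 10000 * (1 / 3)))
    (-(3227 / 10000 * (2 / 3))) (-(3227 / 10000 * (1 / 3))) ?_).trans ?_
  · intro s t hs ht
    rw [abs_le] at hs ht
    have e : ∀ η : ℝ, 1 + (ca (((s, t), η) : Q9) + cb (((s, t), η) : Q9)) ^ 2 / 3 =
        1 + (1 + (s + t)) ^ 2 / 3 := by
      intro η; unfold ca cb; ring
    simp only [e]
    refine ⟨by positivity, by positivity, ?_⟩
    rw [add_self_div_two]
    have hd1 : -(1 / 6) ≤ s + t := by linarith [hs.1, ht.1]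
    have hd2 : s + t ≤ 1 / 6 := by linarith [hs.2, ht.2]
    refine (K5_chord7 (by nlinarith) (by nlinarith)).trans (le_of_eq (by ring))
  · exact ENNReal.ofReal_le_ofReal (by norm_num)

/-- chord bound: `y = 1 + ca²/3 - 2 ca cb/3 ∈ [383/432, 137/144]` = `[0.88657, 0.95139]`;
`1/√y ≤ 1.0621 - 0.567 (y - 0.8865)` there, `E y = 0.915881`: `≤ 1.04545` -/
theorem nine_I8 :
    ∫⁻ q, ENNReal.ofReal (1 / Real.sqrt (1 + ca q ^ 2 / 3 - 2 * (ca q * cb q) / 3)) ∂pi9
      ≤ ENNReal.ofReal (1046 / 1000) := by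
  refine (K5_poly _ (K5_meas_sqrt (F := fun q : Q9 => 1 + ca q ^ 2 / 3 - 2 * (ca q * cb q) / 3)
    (by unfold ca cb; fun_prop))
    ((10621 / 10000 + 567 / 1000 * (8865 / 10000)) - 567 / 1000 * (11 / 12))
    0 (567 / 1000 * (1 / 3)) (-(567 / 1000 * (1 / 3))) (567 / 1000 * (2 / 3)) 0 ?_).trans ?_
  · intro s t hs ht
    rw [abs_le] at hs ht
    have e : ∀ η : ℝ, 1 + ca (((s, t), η) : Q9) ^ 2 / 3 -
        2 * (ca (((s, t), η) : Q9) * cb (((s, t), η) : Q9)) / 3 =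
        11 / 12 - t / 3 + s ^ 2 / 3 - 2 / 3 * (s * t) := by
      intro η; unfold ca cb; ring
    simp only [e]
    refine ⟨by positivity, by positivity, ?_⟩
    rw [add_self_div_two]
    have ht2 : t ^ 2 ≤ 1 / 144 := by nlinarith [ht.1, ht.2]
    have hs2 : s ^ 2 ≤ 1 / 144 := by nlinarith [hs.1, hs.2]
    refine (K5_chord8 (by nlinarith [sq_nonneg (s - t), ht.2])
      (by nlinarith [sq_nonneg (s + t), ht.1])).trans (le_of_eq (by ring))
  · exact ENNReal.ofReal_le_ofReal (by norm_num)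

theorem nine_I8' :
    ∫⁻ q, ENNReal.ofReal (1 / Real.sqrt (1 + cb q ^ 2 / 3 - 2 * (ca q * cb q) / 3)) ∂pi9
      ≤ ENNReal.ofReal (1046 / 1000) := by
  refine (K5_poly _ (K5_meas_sqrt (F := fun q : Q9 => 1 + cb q ^ 2 / 3 - 2 * (ca q * cb q) / 3)
    (by unfold ca cb; fun_prop))
    ((10621 / 10000 + 567 / 1000 * (8865 / 10000)) - 567 / 1000 * (11 / 12))
    (567 / 1000 * (1 / 3)) 0 0 (567 / 1000 * (2 / 3)) (-(567 / 1000 * (1 / 3))) ?_).trans ?_
  · intro s t hs ht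
    rw [abs_le] at hs ht
    have e : ∀ η : ℝ, 1 + cb (((s, t), η) : Q9) ^ 2 / 3 -
        2 * (ca (((s, t), η) : Q9) * cb (((s, t), η) : Q9)) / 3 =
        11 / 12 - s / 3 + t ^ 2 / 3 - 2 / 3 * (s * t) := by
      intro η; unfold ca cb; ring
    simp only [e]
    refine ⟨by positivity, by positivity, ?_⟩
    rw [add_self_div_two]
    have ht2 : t ^ 2 ≤ 1 / 144 := by nlinarith [ht.1, ht.2]
    have hs2 : s ^ 2 ≤ 1 / 144 := by nlinarith [hs.1, hs.2]
    refine (K5_chord8 (by nlinarith [sq_nonneg (s - t), hs.2])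
      (by nlinarith [sq_nonneg (s + t), hs.1])).trans (le_of_eq (by ring))
  · exact ENNReal.ofReal_le_ofReal (by norm_num)

theorem K5_ker_meas (D z : ℝ) : Measurable (fun s : ℝ => ker D (1 / 2 + s) z) := by
  unfold ker
  refine Measurable.ite ?_ (by fun_prop) measurable_const
  exact measurableSet_le (by fun_prop) (by fun_prop)

theorem K5_ker_meas2 (e z : ℝ) :
    Measurable (fun p : ℝ × ℝ => ker (e * (1 / 2 - p.2)) (1 / 2 + p.1) z) := by
  unfold ker
  refine Measurable.ite ?_ (by fun_prop) measurable_const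
  exact measurableSet_le (by fun_prop) (by fun_prop)

theorem K5_one (z D y : ℝ) (hD : ∀ s : ℝ, |z - D| ≤ 1 / 2 + s → y ≤ s) :
    ∫⁻ s, ker D (1 / 2 + s) z ∂(lam (1 / 12)) ≤
      ENNReal.ofReal 12 * ENNReal.ofReal (1 / 12 - max (-(1 / 12)) y) := by
  rw [J1_lint _ _ (K5_ker_meas D z), ← J1_vol2, ← lintegral_const_mul _
    (measurable_const.indicator measurableSet_Ici)]
  refine setLIntegral_mono' measurableSet_Icc fun s hs => ?_
  have hs0 : (0 : ℝ) < 1 / 2 + s := by linarith [hs.1]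
  unfold ker
  split_ifs with h
  · have h1 := hD s h
    rw [Set.indicator_of_mem (Set.mem_Ici.2 h1), mul_one, ← ENNReal.ofReal_mul (by positivity)]
    apply ENNReal.ofReal_le_ofReal
    apply le_of_eq
    rw [div_mul_eq_mul_div, mul_one_div_cancel hs0.ne']
    norm_num
  · rw [mul_zero]
    exact zero_le

theorem K5_neg (f : ℝ → ℝ≥0∞) (hf : Measurable f) :
    ∫⁻ s in Set.Icc (-(1 / 12) : ℝ) (1 / 12), f (-s) = ∫⁻ s in Set.Icc (-(1 / 12) : ℝ) (1 / 12),
      f s := by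
  have h2 := (Measure.measurePreserving_neg (volume : Measure ℝ)).restrict_preimage
    (measurableSet_Icc (a := (-(1 / 12) : ℝ)) (b := 1 / 12))
  have h3 : (fun x : ℝ => -x) ⁻¹' Set.Icc (-(1 / 12)) (1 / 12) = Set.Icc (-(1 / 12)) (1 / 12) := by
    ext x
    simp only [Set.mem_preimage, Set.mem_Icc]
    constructor <;> rintro ⟨h4, h5⟩ <;> constructor <;> linarith
  have h4 : Neg.neg ⁻¹' Set.Icc (-(1 / 12) : ℝ) (1 / 12) = Set.Icc (-(1 / 12)) (1 / 12) := h3
  rw [h4] at h2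
  exact h2.lintegral_comp hf

theorem K5_double (z : ℝ) :
    ∫⁻ t, (∫⁻ s, ker (1 * (1 / 2 - t)) (1 / 2 + s) z ∂(lam (1 / 12))
      + ∫⁻ s, ker (-1 * (1 / 2 - t)) (1 / 2 + s) z ∂(lam (1 / 12))) ∂(lam (1 / 12))
      ≤ ENNReal.ofReal (7 / 3) := by
  set A : ℝ → ℝ≥0∞ := fun t => ENNReal.ofReal (1 / 12 - max (-(1 / 12)) (-t - z)) with hA
  set B : ℝ → ℝ≥0∞ := fun t => ENNReal.ofReal (1 / 12 - max (-(1 / 12)) (z - t)) with hB
  have hAm : Measurable A := by fun_prop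
  have hBm : Measurable B := by fun_prop
  calc _ ≤ ∫⁻ t, (ENNReal.ofReal 12 * A t + ENNReal.ofReal 12 * B t) ∂(lam (1 / 12)) := by
        refine lintegral_mono fun t => add_le_add (K5_one _ _ _ ?_) (K5_one _ _ _ ?_)
        · intro s h
          rw [abs_le] at h
          linarith [h.1]
        · intro s h
          rw [abs_le] at h
          linarith [h.2]
    _ = ∫⁻ t in Set.Icc (-(1 / 12)) (1 / 12), ENNReal.ofReal ((1 / 2 + t) / (1 / 12)) *
          (ENNReal.ofReal 12 * A t + ENNReal.ofReal 12 * B t) := J1_lint _ _ (by fun_prop)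
    _ ≤ ∫⁻ t in Set.Icc (-(1 / 12)) (1 / 12), ENNReal.ofReal 84 * (A t + B t) := by
        refine setLIntegral_mono' measurableSet_Icc fun s hs => ?_
        rw [← mul_add, ← mul_assoc, ← ENNReal.ofReal_mul' (by norm_num)]
        refine mul_le_mul_left (ENNReal.ofReal_le_ofReal ?_) _
        linarith [hs.2]
    _ = ENNReal.ofReal 84 * ((∫⁻ t in Set.Icc (-(1 / 12)) (1 / 12), A t)
          + ∫⁻ t in Set.Icc (-(1 / 12)) (1 / 12), B (-t)) := by
        rw [lintegral_const_mul _ (by fun_prop), lintegral_add_left hAm, K5_neg B hBm]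
    _ = ENNReal.ofReal 84 * ∫⁻ t in Set.Icc (-(1 / 12)) (1 / 12), (A t + B (-t)) := by
        rw [lintegral_add_left hAm]
    _ ≤ ENNReal.ofReal 84 * ∫⁻ t in Set.Icc (-(1 / 12) : ℝ) (1 / 12), ENNReal.ofReal (1 / 6) := by
        refine mul_le_mul_right (lintegral_mono fun t => ?_) _
        have h1 := J1_sum (τ := 1 / 12) (by norm_num) (2 * (z + t))
        rw [show -(2 * (z + t)) / 2 = -t - z by ring, show 2 * (z + t) / 2 = z - -t by ring,
          show (2 : ℝ) * (1 / 12) = 1 / 6 by norm_num] at h1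
        exact h1
    _ = ENNReal.ofReal (7 / 3) := by
        rw [setLIntegral_const, Real.volume_Icc, ← ENNReal.ofReal_mul (by norm_num),
          ← ENNReal.ofReal_mul (by norm_num)]
        norm_num

theorem K5_pair (z : ℝ) :
    ∫⁻ p, (ker (1 * (1 / 2 - p.2)) (1 / 2 + p.1) z + ker (-1 * (1 / 2 - p.2)) (1 / 2 + p.1) z) / 2
      ∂((lam (1 / 12)).prod (lam (1 / 12))) ≤ ENNReal.ofReal (7 / 6) := by
  have := lam_prob (τ := 1 / 12) (by norm_num) (by norm_num)
  have h1 := K5_ker_meas2 1 z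
  have h2 := K5_ker_meas2 (-1) z
  simp only [div_eq_mul_inv _ (2 : ℝ≥0∞)]
  rw [lintegral_mul_const _ (by fun_prop), lintegral_prod_symm _ (by fun_prop)]
  have e : ∀ t : ℝ, ∫⁻ s, (ker (1 * (1 / 2 - (s, t).2)) (1 / 2 + (s, t).1) z +
      ker (-1 * (1 / 2 - (s, t).2)) (1 / 2 + (s, t).1) z) ∂(lam (1 / 12)) =
      ∫⁻ s, ker (1 * (1 / 2 - t)) (1 / 2 + s) z ∂(lam (1 / 12))
      + ∫⁻ s, ker (-1 * (1 / 2 - t)) (1 / 2 + s) z ∂(lam (1 / 12)) :=
    fun t => lintegral_add_left (K5_ker_meas (1 * (1 / 2 - t)) z) _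
  simp only [e]
  calc _ ≤ ENNReal.ofReal (7 / 3) * 2⁻¹ := mul_le_mul_left (K5_double z) _
    _ = ENNReal.ofReal (7 / 6) := by
        rw [show (2 : ℝ≥0∞)⁻¹ = ENNReal.ofReal (1 / 2) by
          rw [one_div, ENNReal.ofReal_inv_of_pos two_pos, ENNReal.ofReal_ofNat],
          ← ENNReal.ofReal_mul (by norm_num)]
        norm_num

/-- Complement of an element of the pair. For `z ≥ 0` (the other case is symmetric): the centre
`1 - cb` covers `z` only if `s₁ + s₂ ≥ -z`, the centre `-(1 - cb)` only if `s₁ + s₂ ≥ z`; so the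
integral is at most `∫∫ (ca cb/τ²) (1/(2 ca)) (1{σ ≥ -z} + 1{σ ≥ z}) ≤ (7/12)/(2τ²) (2τ)² = 7/6`
because `|{σ ≥ -z}| + |{σ ≥ z}| = (2τ)²`. -/
theorem nine_I9 (e : ℝ) (he : e = 1 ∨ e = -1) (z : ℝ) :
    ∫⁻ q, ker (e * (q.2 * (1 - cb q))) (ca q) z ∂pi9 ≤ ENNReal.ofReal (7 / 6) := by
  have hm : Measurable (fun q : Q9 => ker (e * (q.2 * (1 - cb q))) (ca q) z) := by
    unfold ker ca cb
    refine Measurable.ite ?_ (by fun_prop) measurable_const
    exact measurableSet_le (by fun_prop) (by fun_prop)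
  rw [K5_int _ hm]
  refine le_trans (le_of_eq ?_) (K5_pair z)
  refine lintegral_congr fun p => ?_
  congr 1
  rcases he with he | he
  · rw [he]
    congr 1 <;> congr 1 <;> unfold cb <;> ring
  · rw [he, add_comm]
    congr 1 <;> congr 1 <;> unfold cb <;> ring

theorem nine_I9' (e : ℝ) (he : e = 1 ∨ e = -1) (z : ℝ) :
    ∫⁻ q, ker (e * (q.2 * (1 - ca q))) (cb q) z ∂pi9 ≤ ENNReal.ofReal (7 / 6) := by
  have := lam_prob (τ := 1 / 12) (by norm_num) (by norm_num)
  have hm : Measurable (fun q : Q9 => ker (e * (q.2 * (1 - ca q))) (cb q) z) := by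
    unfold ker ca cb
    refine Measurable.ite ?_ (by fun_prop) measurable_const
    exact measurableSet_le (by fun_prop) (by fun_prop)
  rw [K5_int _ hm]
  refine le_trans (le_of_eq ?_) (K5_pair z)
  have h1 := K5_ker_meas2 1 z
  have h2 := K5_ker_meas2 (-1) z
  rw [← lintegral_prod_swap (fun p : ℝ × ℝ => (ker (1 * (1 / 2 - p.2)) (1 / 2 + p.1) z +
    ker (-1 * (1 / 2 - p.2)) (1 / 2 + p.1) z) / 2)]
  refine lintegral_congr fun p => ?_
  congr 1
  rcases he with he | he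
  · rw [he]
    congr 1 <;> congr 1 <;> unfold ca <;> simp only [Prod.snd_swap] <;> ring
  · rw [he, add_comm]
    congr 1 <;> congr 1 <;> unfold ca <;> simp only [Prod.snd_swap] <;> ring

/-- `∫ w² = 48 ((7/12)³ - (5/12)³) = 6.0556` -/
theorem K5_wsq : ∫⁻ s in Set.Icc (-(1 / 12) : ℝ) (1 / 12),
    ENNReal.ofReal (((1 / 2 + s) / (1 / 12)) ^ 2 / 2) ≤ ENNReal.ofReal (303 / 100) := by
  have h := (J1_ftc (a := -(1 / 12)) (b := 1 / 12) (by norm_num)
    (fun s => ((1 / 2 + s) / (1 / 12)) ^ 2 / 2) (fun s => 24 * (1 / 2 + s) ^ 3)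
    (Continuous.continuousOn (by fun_prop)) (fun s _ => by positivity) (fun s _ => by
      have h2 := (((hasDerivAt_id s).const_add (1 / 2)).pow 3).const_mul 24
      refine h2.congr_deriv ?_
      simp
      ring)).1
  rw [h]
  exact ENNReal.ofReal_le_ofReal (by norm_num)

theorem K5_dens (T : Set ℝ) (hT : MeasurableSet T) :
    ∫⁻ p, T.indicator (fun _ => (1 : ℝ≥0∞)) (p.2 - p.1) ∂((lam (1 / 12)).prod (lam (1 / 12)))
      ≤ ENNReal.ofReal (303 / 50) * volume T := by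
  have := lam_prob (τ := 1 / 12) (by norm_num) (by norm_num)
  have hi : Measurable (T.indicator (fun _ => (1 : ℝ≥0∞))) := measurable_const.indicator hT
  have hi2 : Measurable (fun p : ℝ × ℝ => T.indicator (fun _ => (1 : ℝ≥0∞)) (p.2 - p.1)) :=
    hi.comp (by fun_prop)
  set I : Set ℝ := Set.Icc (-(1 / 12)) (1 / 12) with hI
  set w : ℝ → ℝ := fun s => (1 / 2 + s) / (1 / 12) with hw
  have hwm : Measurable w := by fun_prop
  have hv1 : ∀ s : ℝ, ∫⁻ t in I, T.indicator (fun _ => (1 : ℝ≥0∞)) (t - s) ≤ volume T := by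
    intro s
    refine (setLIntegral_le_lintegral I _).trans ?_
    rw [lintegral_sub_right_eq_self (fun t => T.indicator (fun _ => (1 : ℝ≥0∞)) t) s,
      lintegral_indicator_const hT, one_mul]
  have hv2 : ∀ t : ℝ, ∫⁻ s in I, T.indicator (fun _ => (1 : ℝ≥0∞)) (t - s) ≤ volume T := by
    intro t
    refine (setLIntegral_le_lintegral I _).trans ?_
    rw [lintegral_sub_left_eq_self (fun s => T.indicator (fun _ => (1 : ℝ≥0∞)) s) t,
      lintegral_indicator_const hT, one_mul]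
  calc _ = ∫⁻ s in I, ENNReal.ofReal (w s) * ∫⁻ t in I, ENNReal.ofReal (w t) *
          T.indicator (fun _ => (1 : ℝ≥0∞)) (t - s) := by
        rw [lintegral_prod _ hi2.aemeasurable, J1_lint _ _ (by
          exact hi2.lintegral_prod_right')]
        refine lintegral_congr fun s => ?_
        rw [J1_lint _ _ (by exact hi.comp (by fun_prop))]
    _ ≤ ∫⁻ s in I, ∫⁻ t in I, (ENNReal.ofReal (w s ^ 2 / 2) + ENNReal.ofReal (w t ^ 2 / 2)) *
          T.indicator (fun _ => (1 : ℝ≥0∞)) (t - s) := by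
        refine lintegral_mono fun s => ?_
        rw [← lintegral_const_mul' _ _ ENNReal.ofReal_ne_top]
        refine setLIntegral_mono' measurableSet_Icc fun t ht => ?_
        rw [← mul_assoc]
        refine mul_le_mul_left ?_ _
        have ht0 : 0 ≤ w t := div_nonneg (by linarith [ht.1]) (by norm_num)
        rw [← ENNReal.ofReal_mul' ht0, ← ENNReal.ofReal_add (by positivity) (by positivity)]
        apply ENNReal.ofReal_le_ofReal
        nlinarith [sq_nonneg (w s - w t)]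
    _ = (∫⁻ s in I, ∫⁻ t in I, ENNReal.ofReal (w s ^ 2 / 2) *
          T.indicator (fun _ => (1 : ℝ≥0∞)) (t - s))
        + ∫⁻ s in I, ∫⁻ t in I, ENNReal.ofReal (w t ^ 2 / 2) *
          T.indicator (fun _ => (1 : ℝ≥0∞)) (t - s) := by
        rw [← lintegral_add_left]
        · refine lintegral_congr fun s => ?_
          rw [← lintegral_add_left]
          · refine lintegral_congr fun t => ?_
            rw [add_mul]
          · exact measurable_const.mul (hi.comp (by fun_prop))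
        · refine Measurable.lintegral_prod_right' (f := fun p : ℝ × ℝ =>
            ENNReal.ofReal (w p.1 ^ 2 / 2) * T.indicator (fun _ => (1 : ℝ≥0∞)) (p.2 - p.1)) ?_
          exact Measurable.mul (by fun_prop) hi2
    _ = (∫⁻ s in I, ENNReal.ofReal (w s ^ 2 / 2) *
          ∫⁻ t in I, T.indicator (fun _ => (1 : ℝ≥0∞)) (t - s))
        + ∫⁻ t in I, ENNReal.ofReal (w t ^ 2 / 2) *
          ∫⁻ s in I, T.indicator (fun _ => (1 : ℝ≥0∞)) (t - s) := by
        congr 1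
        · refine lintegral_congr fun s => ?_
          rw [lintegral_const_mul' _ _ ENNReal.ofReal_ne_top]
        · rw [lintegral_lintegral_swap]
          · refine lintegral_congr fun s => ?_
            rw [lintegral_const_mul' _ _ ENNReal.ofReal_ne_top]
          · exact (Measurable.mul (by fun_prop) hi2).aemeasurable
    _ ≤ (∫⁻ s in I, ENNReal.ofReal (w s ^ 2 / 2) * volume T)
        + ∫⁻ t in I, ENNReal.ofReal (w t ^ 2 / 2) * volume T :=
        add_le_add (lintegral_mono fun s => mul_le_mul_right (hv1 s) _)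
          (lintegral_mono fun s => mul_le_mul_right (hv2 s) _)
    _ ≤ ENNReal.ofReal (303 / 100) * volume T + ENNReal.ofReal (303 / 100) * volume T := by
        rw [lintegral_mul_const _ (by fun_prop)]
        exact add_le_add (mul_le_mul_left K5_wsq _) (mul_le_mul_left K5_wsq _)
    _ = ENNReal.ofReal (303 / 50) * volume T := by
        rw [← add_mul, ← ENNReal.ofReal_add (by norm_num) (by norm_num)]
        norm_num

theorem K5_xA_load : HasLoad (pi9.map xA) (fun _ => ENNReal.ofReal (1212 / 100)) := by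
  have := lam_prob (τ := 1 / 12) (by norm_num) (by norm_num)
  unfold HasLoad
  rw [withDensity_const]
  refine Measure.le_iff.2 fun T hT => ?_
  have hi : Measurable (T.indicator (fun _ => (1 : ℝ≥0∞))) := measurable_const.indicator hT
  have hi2 : Measurable (fun p : ℝ × ℝ => T.indicator (fun _ => (1 : ℝ≥0∞)) (p.2 - p.1)) :=
    hi.comp (by fun_prop)
  rw [Measure.map_apply K5_xA_meas hT, Measure.smul_apply, smul_eq_mul,
    ← lintegral_indicator_one (K5_xA_meas hT)]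
  have e1 : ∫⁻ q, (xA ⁻¹' T).indicator (1 : Q9 → ℝ≥0∞) q ∂pi9 =
      ∫⁻ q, T.indicator (fun _ => (1 : ℝ≥0∞)) (xA q) ∂pi9 := by
    refine lintegral_congr fun q => ?_
    rfl
  rw [e1, K5_int (fun q => T.indicator (fun _ => (1 : ℝ≥0∞)) (xA q)) (hi.comp K5_xA_meas)]
  have e2 : ∀ p : ℝ × ℝ, (T.indicator (fun _ => (1 : ℝ≥0∞)) (xA (p, 1)) +
      T.indicator (fun _ => (1 : ℝ≥0∞)) (xA (p, -1))) / 2 =
      (T.indicator (fun _ => (1 : ℝ≥0∞)) (p.2 - p.1) +
      T.indicator (fun _ => (1 : ℝ≥0∞)) (p.swap.2 - p.swap.1)) * 2⁻¹ := by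
    intro p
    rw [div_eq_mul_inv]
    congr 2
    · congr 1
      simp [xA]
    · congr 1
      simp [xA]
  simp only [e2]
  rw [lintegral_mul_const _ (by exact hi2.add (hi2.comp measurable_swap)),
    lintegral_add_left hi2, lintegral_prod_swap
      (fun p : ℝ × ℝ => T.indicator (fun _ => (1 : ℝ≥0∞)) (p.2 - p.1))]
  have h3 := K5_dens T hT
  calc _ ≤ (ENNReal.ofReal (303 / 50) * volume T + ENNReal.ofReal (303 / 50) * volume T) * 2⁻¹ :=
        mul_le_mul_left (add_le_add h3 h3) _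
    _ = ENNReal.ofReal (1212 / 100) / 2 * volume T := by
        rw [← add_mul, ← ENNReal.ofReal_add (by norm_num) (by norm_num), mul_right_comm,
          ← div_eq_mul_inv]
        norm_num

theorem K5_affine {π : Measure ℝ} {K : ℝ≥0∞} (h : HasLoad π (fun _ => K)) (c : ℤ) (hc : c ≠ 0)
    (d : ℝ) : HasLoad (π.map (fun z => (c : ℝ) * z + d)) (fun _ => K) := by
  have hc' : (c : ℝ) ≠ 0 := by exact_mod_cast hc
  have h1 := HasLoad.scale measurable_const h (c : ℝ) hc'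
  have h2 : HasLoad (π.map (fun z => (c : ℝ) * z)) (fun _ => K) := by
    refine h1.mono fun z => ?_
    have h3 : ENNReal.ofReal (1 / |(c : ℝ)|) ≤ 1 := by
      rw [ENNReal.ofReal_le_one]
      have : (1 : ℝ) ≤ |(c : ℝ)| := by exact_mod_cast Int.one_le_abs hc
      rw [div_le_one (by linarith)]
      exact this
    calc ENNReal.ofReal (1 / |(c : ℝ)|) * K ≤ 1 * K := by gcongr
      _ = K := one_mul K
  have h3 := HasLoad.shift measurable_const h2 d
  rw [Measure.map_map (by fun_prop) (by fun_prop)] at h3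
  exact h3

/-- the law of `s₂ - s₁` has density `≤ ∫ w² = 1/(2τ) + 2τ/3` (Cauchy-Schwarz), load `≤ 12.112`,
`w(s) = (1/2+s)/τ`; the sign and the shift by `X` do not matter -/
theorem nine_I10 (c : ℤ) (hc : c ≠ 0) (r : ℝ) :
    HasLoad (pi9.map (fun q => (c : ℝ) * xA q + r)) (fun _ => ENNReal.ofReal (1212 / 100)) := by
  have h := K5_affine K5_xA_load c hc r
  rw [Measure.map_map (by fun_prop) K5_xA_meas] at h
  exact h

end Pool.Agent.helper49.Slope
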