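import Pool.Agent.helper49.Slope.DefsK
import Pool.Agent.helper49.Slope.K1
import Pool.Agent.helper49.Slope.K2
import Pool.Agent.helper49.Slope.K4
import Pool.Agent.helper49.Slope.K5
import Pool.Agent.helper49.Slope.B7f
import Pool.Agent.helper49.Slope.E2
import Pool.Agent.helper49.Slope.B2b
import Pool.Agent.helper49.Slope.B7a
import Pool.Agent.helper49.Slope.E4

/-!
MP_aedd95_co (slope of k-fold hyperplane covers of triangular grids), module K7.
Bounds for the law of a form `v` on `I9`, by the type of its restriction to the block of size 4.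
`vB i = v (inr i)`, `vA i = v (inl i)`. For admissible `q` (`pi9_val`) the block of size 4 has sum
`y = X - xA q`, `|y| ≤ 1/20 + 1/6 ≤ 3/10`. Use `pairLaw_load` with functions `f q z = ofReal (g q)`
not depending on `z`, `HasLoad.cnv_const`, `cnv_comm`, `Blk.single_form`, `load_affine`,
`Blk.rich`, `Blk.partner` and the integrals of K5. `|2/4 * y| = |y|/2`.
-/

set_option autoImplicit false

open MeasureTheory ProbabilityTheory
open scoped ENNReal

namespace Pool.Agent.helper49.Slope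

theorem K7_meas_y (X : ℝ) : Measurable (fun q : Q9 => |X - xA q|) :=
  (continuous_abs.measurable).comp (measurable_const.sub xA_measurable)

theorem K7_xA {q : Q9} (hq : Val q) : |xA q| ≤ 1 / 6 := by
  obtain ⟨h1, h2, h3⟩ := hq
  unfold xA
  rw [abs_mul]
  have h4 : |q.2| = 1 := by
    rcases h3 with h | h <;> rw [h] <;> norm_num
  rw [h4, one_mul]
  have h5 := abs_sub q.1.2 q.1.1
  linarith

theorem K7_y {X : ℝ} (hX : |X| ≤ 1 / 20) {q : Q9} (hq : Val q) : |X - xA q| ≤ 3 / 10 := by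
  have h1 := K7_xA hq
  have h2 := abs_sub X (xA q)
  linarith

theorem K7_ca {q : Q9} (hq : Val q) : 5 / 12 ≤ ca q := by
  have := neg_abs_le q.1.1
  unfold ca
  linarith [hq.1]

theorem K7_cb {q : Q9} (hq : Val q) : 5 / 12 ≤ cb q := by
  have := neg_abs_le q.1.2
  unfold cb
  linarith [hq.2.1]

theorem K7_ca_meas : Measurable ca := by
  unfold ca
  fun_prop

theorem K7_cb_meas : Measurable cb := by
  unfold cb
  fun_prop

theorem K7_ker_le (D V z M : ℝ) (h : 1 / V ≤ M) : ker D V z ≤ ENNReal.ofReal M := by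
  unfold ker
  split_ifs
  · exact ENNReal.ofReal_le_ofReal h
  · exact zero_le

theorem K7_prob_map {ι : Type} [Fintype ι] (μ : Measure (ι → ℝ)) [IsProbabilityMeasure μ]
    (u : ι → ℤ) : IsProbabilityMeasure (μ.map (lin u)) :=
  Measure.isProbabilityMeasure_map (E2_meas_lin u).aemeasurable

/-- forms `t + c e_i`: the law is the affine image of the law of the coordinate -/
theorem K7_form {ι : Type} [Fintype ι] [DecidableEq ι] {μ : Measure (ι → ℝ)} {x : ℝ}
    (hs : Supp μ x) (u : ι → ℤ) (i : ι) (t c : ℤ) (h : ∀ j, u j = t + if j = i then c else 0) :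
    μ.map (lin u) = (μ.map (fun y => y i)).map (fun z => (c : ℝ) * z + (t : ℝ) * x) := by
  have hpi : Measurable (fun y : ι → ℝ => y i) := measurable_pi_apply i
  have haf : Measurable (fun z : ℝ => (c : ℝ) * z + (t : ℝ) * x) := by fun_prop
  rw [Measure.map_map haf hpi]
  refine Measure.map_congr ?_
  filter_upwards [hs] with y hy
  have h1 : lin u y = ∑ j, ((t : ℝ) * y j + if j = i then (c : ℝ) * y i else 0) := by
    unfold lin
    refine Finset.sum_congr rfl fun j _ => ?_
    rw [h j]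
    by_cases hj : j = i
    · subst hj
      simp only [if_true]
      push_cast
      ring
    · simp only [if_neg hj]
      push_cast
      ring
  rw [h1, Finset.sum_add_distrib, ← Finset.mul_sum, hy.2, Finset.sum_ite_eq' Finset.univ i]
  simp only [Finset.mem_univ, if_true, Function.comp_apply]
  ring

/-- mixture of images of the uniform law -/
theorem K7_bind_unif (f : Q9 × ℝ → ℝ) (hf : Measurable f) (π : Measure Q9)
    [IsProbabilityMeasure π] :
    π.bind (fun q => (unif 1).map (fun ω => f (q, ω))) = (π.prod (unif 1)).map f := by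
  have : IsProbabilityMeasure (unif 1) := unif_prob one_pos
  have hq : ∀ q : Q9, Measurable (fun ω => f (q, ω)) := fun q => hf.comp measurable_prodMk_left
  have hm : Measurable (fun q => (unif 1).map (fun ω => f (q, ω))) := by
    refine Measure.measurable_of_measurable_coe _ fun s hs => ?_
    have : (fun q => (unif 1).map (fun ω => f (q, ω)) s)
        = fun q => unif 1 (Prod.mk q ⁻¹' (f ⁻¹' s)) := by
      funext q
      rw [Measure.map_apply (hq q) hs]
      rfl
    rw [this]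
    exact measurable_measure_prodMk_left (hf hs)
  refine Measure.ext fun s hs => ?_
  rw [Measure.bind_apply hs hm.aemeasurable, Measure.map_apply hf hs,
    Measure.prod_apply (hf hs)]
  refine lintegral_congr fun q => ?_
  rw [Measure.map_apply (hq q) hs]
  rfl

theorem K7_cnv_dirac (μ : Measure ℝ) [IsProbabilityMeasure μ] (a : ℝ) :
    cnv μ (Measure.dirac a) = μ.map (fun z => z + a) := by
  unfold cnv
  rw [Measure.prod_dirac, Measure.map_map (by fun_prop) (by fun_prop)]
  rfl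

theorem K7_L9_meas (a b t β : ℤ) (X : ℝ) : Measurable (L9 a b t β X) := by
  have h1 : Measurable (fun p : Q9 × ℝ => ca p.1) := K7_ca_meas.comp measurable_fst
  have h2 : Measurable (fun p : Q9 × ℝ => cb p.1) := K7_cb_meas.comp measurable_fst
  have h3 : Measurable (fun p : Q9 × ℝ => xA p.1) := xA_measurable.comp measurable_fst
  unfold L9
  fun_prop

section
variable {θ : Kernel ℝ (Fin 4 → ℝ)} [IsMarkovKernel θ]
  {κA : Kernel (ℝ × Q9) (Fin 2 ⊕ Fin 3 → ℝ)} {κB : Kernel (ℝ × Q9) (Fin 4 → ℝ)}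
  [IsMarkovKernel κA] [IsMarkovKernel κB]

/-- loads of the mixture from a bound not depending on `z` -/
theorem K7_load (κA : Kernel (ℝ × Q9) (Fin 2 ⊕ Fin 3 → ℝ)) (κB : Kernel (ℝ × Q9) (Fin 4 → ℝ))
    [IsMarkovKernel κA] [IsMarkovKernel κB] (X : ℝ) (v : I9 → ℤ) (g : Q9 → ℝ)
    (hg : Measurable g) (L : ℝ) (hL : ∫⁻ q, ENNReal.ofReal (g q) ∂pi9 ≤ ENNReal.ofReal L)
    (h : ∀ q, Val q → HasLoad (cnv ((κA (X, q)).map (lin (fun i => v (Sum.inl i))))
      ((κB (X, q)).map (lin (fun i => v (Sum.inr i))))) (fun _ => ENNReal.ofReal (g q))) :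
    HasLoad (pairLaw κA κB pi9 X v) (fun _ => ENNReal.ofReal L) := by
  have := pi9_prob
  have hf : Measurable (Function.uncurry (fun (q : Q9) (_ : ℝ) => ENNReal.ofReal (g q))) :=
    (hg.comp measurable_fst).ennreal_ofReal
  exact (pairLaw_load κA κB pi9 X v (fun q _ => ENNReal.ofReal (g q)) hf
    (pi9_val.mono fun q hq => h q hq)).mono fun _ => hL

/-- the block of size 4 alone gives the bound -/
theorem K7_loadB (h9 : Nine θ κA κB) (X : ℝ) (v : I9 → ℤ) (g : Q9 → ℝ)
    (hg : Measurable g) (L : ℝ) (hL : ∫⁻ q, ENNReal.ofReal (g q) ∂pi9 ≤ ENNReal.ofReal L)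
    (h : ∀ q, Val q → HasLoad ((θ (X - xA q)).map (lin (fun i => v (Sum.inr i))))
      (fun _ => ENNReal.ofReal (g q))) :
    HasLoad (pairLaw κA κB pi9 X v) (fun _ => ENNReal.ofReal L) := by
  refine K7_load κA κB X v g hg L hL fun q hq => ?_
  have := K7_prob_map (κA (X, q)) (fun i => v (Sum.inl i))
  have := K7_prob_map (θ (X - xA q)) (fun i => v (Sum.inr i))
  rw [h9.kB, cnv_comm]
  exact HasLoad.cnv_const (h q hq)

/-- the block 5* in front, partner bounds -/
theorem K7_loadAB (h9 : Nine θ κA κB) (X : ℝ) (v : I9 → ℤ) (M : ℝ) (g : Q9 → ℝ)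
    (hg : Measurable g) (L : ℝ) (hL : ∫⁻ q, ENNReal.ofReal (g q) ∂pi9 ≤ ENNReal.ofReal L)
    (hv : ∀ q, Val q → 0 < vsq (v9 q) (fun i => v (Sum.inl i)) ∧
      1 / Real.sqrt (vsq (v9 q) (fun i => v (Sum.inl i))) ≤ M)
    (h : ∀ q, Val q → ∀ (ν : Measure ℝ) [IsProbabilityMeasure ν],
      HasLoad ν (fun _ => ENNReal.ofReal M) →
      HasLoad (cnv ((θ (X - xA q)).map (lin (fun i => v (Sum.inr i)))) ν)
      (fun _ => ENNReal.ofReal (g q))) :
    HasLoad (pairLaw κA κB pi9 X v) (fun _ => ENNReal.ofReal L) := by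
  refine K7_load κA κB X v g hg L hL fun q hq => ?_
  have := K7_prob_map (κA (X, q)) (fun i => v (Sum.inl i))
  have := K7_prob_map (θ (X - xA q)) (fun i => v (Sum.inr i))
  rw [h9.kB, cnv_comm]
  refine h q hq _ ?_
  exact (h9.load X q hq _ (hv q hq).1).mono fun z => K7_ker_le _ _ _ _ (hv q hq).2

/-- N1: `∫ (1 + |y|/2)`; more precisely with the coefficient `c` of the single: load of the
restriction `≤ (1 + |y|/2)/|c|` -/
theorem nine_S (hθ : Blk4x θ) (h9 : Nine θ κA κB) (X : ℝ) (hX : |X| ≤ 1 / 20) (v : I9 → ℤ)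
    (h : ty (fun i => v (Sum.inr i)) = Ty.S) :
    HasLoad (pairLaw κA κB pi9 X v) (fun _ => ENNReal.ofReal (10423 / 10000)) := by
  refine K7_loadB h9 X v (fun q => 1 + |X - xA q| / 2)
    (measurable_const.add ((K7_meas_y X).div_const 2)) _ (nine_I1 X hX) fun q hq => ?_
  obtain ⟨μ, c, d, hμp, hc, hμ, he⟩ := hθ.blk.single_form (K7_y hX hq) _ h
  rw [he]
  have hy := K7_y hX hq
  have h1 : |2 / ((Fintype.card (Fin 4) : ℕ) : ℝ) * (X - xA q)| = |X - xA q| / 2 := by
    rw [abs_mul, Fintype.card_fin]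
    norm_num
    ring
  refine (load_affine (by rw [h1]; linarith) hμ c hc d).mono fun z => ?_
  refine ENNReal.ofReal_le_ofReal ?_
  have h4 := E2_one_le_abs hc
  have h5 := abs_nonneg (X - xA q)
  rw [h1, div_le_iff₀ (by linarith)]
  nlinarith

/-- coefficient `|c| ≥ 2`: half of it -/
theorem nine_S2 (hθ : Blk4x θ) (h9 : Nine θ κA κB) (X : ℝ) (hX : |X| ≤ 1 / 20) (v : I9 → ℤ)
    (i : Fin 4) (t c : ℤ) (hc : 2 ≤ |c|) (h : ∀ j, v (Sum.inr j) = t + if j = i then c else 0) :
    HasLoad (pairLaw κA κB pi9 X v) (fun _ => ENNReal.ofReal (5212 / 10000)) := by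
  refine K7_loadB h9 X v (fun q => 1 / 2 * (1 + |X - xA q| / 2))
    ((measurable_const.add ((K7_meas_y X).div_const 2)).const_mul _) _ ?_ fun q hq => ?_
  · have h1 : ∀ q : Q9, ENNReal.ofReal (1 / 2 * (1 + |X - xA q| / 2))
        = ENNReal.ofReal (1 / 2) * ENNReal.ofReal (1 + |X - xA q| / 2) := fun q =>
      ENNReal.ofReal_mul (by norm_num)
    have h2 : Measurable (fun q : Q9 => ENNReal.ofReal (1 + |X - xA q| / 2)) :=
      (measurable_const.add ((K7_meas_y X).div_const 2)).ennreal_ofReal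
    rw [lintegral_congr h1, lintegral_const_mul _ h2]
    calc ENNReal.ofReal (1 / 2) * ∫⁻ q, ENNReal.ofReal (1 + |X - xA q| / 2) ∂pi9
        ≤ ENNReal.ofReal (1 / 2) * ENNReal.ofReal (10423 / 10000) := by
          gcongr
          exact nine_I1 X hX
      _ = ENNReal.ofReal (1 / 2 * (10423 / 10000)) := (ENNReal.ofReal_mul (by norm_num)).symm
      _ ≤ ENNReal.ofReal (5212 / 10000) := ENNReal.ofReal_le_ofReal (by norm_num)
  · have hy := K7_y hX hq
    rw [K7_form (hθ.blk.supp _ hy) _ i t c h]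
    have hs := hθ.blk.single _ hy i
    have h1 : |2 / ((Fintype.card (Fin 4) : ℕ) : ℝ) * (X - xA q)| = |X - xA q| / 2 := by
      rw [abs_mul, Fintype.card_fin]
      norm_num
      ring
    have : IsProbabilityMeasure ((θ (X - xA q)).map (fun y => y i)) :=
      Measure.isProbabilityMeasure_map (measurable_pi_apply i).aemeasurable
    have hc0 : c ≠ 0 := by
      rintro rfl
      simp at hc
    refine (load_affine (by rw [h1]; linarith) hs c hc0 _).mono fun z => ?_
    refine ENNReal.ofReal_le_ofReal ?_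
    have h4 : (2 : ℝ) ≤ |(c : ℝ)| := by
      rw [← Int.cast_abs]
      exact_mod_cast hc
    have h5 := abs_nonneg (X - xA q)
    rw [h1, div_le_iff₀ (by linarith)]
    nlinarith

/-- N2: `∫ P4 |y|` -/
theorem nine_R (hθ : Blk4x θ) (h9 : Nine θ κA κB) (X : ℝ) (hX : |X| ≤ 1 / 20) (v : I9 → ℤ)
    (h : Rich (fun i => v (Sum.inr i))) :
    HasLoad (pairLaw κA κB pi9 X v) (fun _ => ENNReal.ofReal (945 / 1000)) := by
  have hm : Measurable (fun q : Q9 => P4 |X - xA q|) := by
    have := K7_meas_y X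
    unfold P4
    fun_prop
  exact K7_loadB h9 X v (fun q => P4 |X - xA q|) hm _ (nine_I2 X hX) fun q hq =>
    hθ.blk.rich _ (K7_y hX hq) _ h

/-- N3: `∫ (0.70 + 1.22 |y|)` -/
theorem nine_R3 (hθ : Blk4x θ) (h9 : Nine θ κA κB) (X : ℝ) (hX : |X| ≤ 1 / 20) (v : I9 → ℤ)
    (h : Rich (fun i => v (Sum.inr i))) (h3 : Three (fun i => v (Sum.inr i))) :
    HasLoad (pairLaw κA κB pi9 X v) (fun _ => ENNReal.ofReal (804 / 1000)) := by
  have hm : Measurable (fun q : Q9 => 70 / 100 + 122 / 100 * |X - xA q|) :=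
    measurable_const.add ((K7_meas_y X).const_mul _)
  exact K7_loadB h9 X v (fun q => 70 / 100 + 122 / 100 * |X - xA q|) hm _ (nine_I3 X hX)
    fun q hq => hθ.three _ (K7_y hX hq) _ h h3

/-- a constant bound `g q` for `1/V` of the restriction to 5*, anything on the block of size 4 -/
theorem nine_A (hθ : Blk4x θ) (h9 : Nine θ κA κB) (X : ℝ) (hX : |X| ≤ 1 / 20) (v : I9 → ℤ)
    (g : Q9 → ℝ) (hg : Measurable g) (hv : ∀ q, Val q → 0 < vsq (v9 q) (fun i => v (Sum.inl i)) ∧
      1 / Real.sqrt (vsq (v9 q) (fun i => v (Sum.inl i))) ≤ g q) (L : ℝ)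
    (hL : ∫⁻ q, ENNReal.ofReal (g q) ∂pi9 ≤ ENNReal.ofReal L) :
    HasLoad (pairLaw κA κB pi9 X v) (fun _ => ENNReal.ofReal L) := by
  refine K7_load κA κB X v g hg L hL fun q hq => ?_
  have := K7_prob_map (κA (X, q)) (fun i => v (Sum.inl i))
  have := K7_prob_map (κB (X, q)) (fun i => v (Sum.inr i))
  exact HasLoad.cnv_const ((h9.load X q hq _ (hv q hq).1).mono fun z =>
    K7_ker_le _ _ _ _ (hv q hq).2)

/-- a constant bound `M` for `1/V` of the restriction to 5*, rich on the block of size 4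
(`Blk.partner`, `nine_I4`) -/
theorem nine_AR (hθ : Blk4x θ) (h9 : Nine θ κA κB) (X : ℝ) (hX : |X| ≤ 1 / 20) (v : I9 → ℤ)
    (M : ℝ) (hM : 7235 / 10000 ≤ M) (hv : ∀ q, Val q → 0 < vsq (v9 q) (fun i => v (Sum.inl i)) ∧
      1 / Real.sqrt (vsq (v9 q) (fun i => v (Sum.inl i))) ≤ M)
    (h : Rich (fun i => v (Sum.inr i))) :
    HasLoad (pairLaw κA κB pi9 X v) (fun _ => ENNReal.ofReal
      (8717 / 10000 + (M - 7235 / 10000) * (8445 / 100000))) := by
  have hm : Measurable (fun q : Q9 => n4 |X - xA q| + |X - xA q| * M) := by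
    have := K7_meas_y X
    unfold n4
    fun_prop
  exact K7_loadAB h9 X v M (fun q => n4 |X - xA q| + |X - xA q| * M) hm _ (nine_I4 X hX M hM) hv
    fun q hq ν _ hν => hθ.blk.partner _ (K7_y hX hq) _ h ν M (by linarith) hν

/-- the same with three values (`Blk4x.threePartner`, `nine_I5`) -/
theorem nine_AR3 (hθ : Blk4x θ) (h9 : Nine θ κA κB) (X : ℝ) (hX : |X| ≤ 1 / 20) (v : I9 → ℤ)
    (M : ℝ) (hM : 0 ≤ M) (hv : ∀ q, Val q → 0 < vsq (v9 q) (fun i => v (Sum.inl i)) ∧
      1 / Real.sqrt (vsq (v9 q) (fun i => v (Sum.inl i))) ≤ M)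
    (h : Rich (fun i => v (Sum.inr i))) (h3 : Three (fun i => v (Sum.inr i))) :
    HasLoad (pairLaw κA κB pi9 X v) (fun _ => ENNReal.ofReal
      (613 / 1000 + M * (8445 / 100000))) := by
  have hm : Measurable (fun q : Q9 => 613 / 1000 + |X - xA q| * M) :=
    measurable_const.add ((K7_meas_y X).mul_const _)
  exact K7_loadAB h9 X v M (fun q => 613 / 1000 + |X - xA q| * M) hm _ (nine_I5 X hX M hM) hv
    fun q hq ν _ hν => hθ.threePartner _ (K7_y hX hq) _ h h3 ν M hM hν

/-- N4: units not all equal (`nine_A`, `v9_unequal`) -/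
theorem nine_U (hθ : Blk4x θ) (h9 : Nine θ κA κB) (X : ℝ) (hX : |X| ≤ 1 / 20) (v : I9 → ℤ)
    (h : ¬ ∃ t, UEq (fun i => v (Sum.inl i)) t) :
    HasLoad (pairLaw κA κB pi9 X v) (fun _ => ENNReal.ofReal (10855 / 10000)) := by
  have := pi9_prob
  refine nine_A hθ h9 X hX v (fun _ => 10855 / 10000) measurable_const
    (fun q hq => v9_unequal q hq _ h) _ ?_
  rw [lintegral_const, measure_univ, mul_one]

/-- the law as an image, units equal to `t`, `β` on the block of size 4 -/
theorem nine_law (hθ : Blk4x θ) (h9 : Nine θ κA κB) (X : ℝ) (hX : |X| ≤ 1 / 20) (v : I9 → ℤ)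
    (t β : ℤ) (hU : UEq (fun i => v (Sum.inl i)) t) (hB : ∀ i, v (Sum.inr i) = β) :
    pairLaw κA κB pi9 X v = (pi9.prod (unif 1)).map
      (L9 (v (Sum.inl (Sum.inl 0))) (v (Sum.inl (Sum.inl 1))) t β X) := by
  have := pi9_prob
  have : IsProbabilityMeasure (unif 1) := unif_prob one_pos
  rw [← K7_bind_unif _ (K7_L9_meas _ _ _ _ _) pi9]
  unfold pairLaw
  apply Measure.bind_congr_right
  filter_upwards [pi9_val] with q hq
  have hB2 : (κB (X, q)).map (lin (fun i => v (Sum.inr i)))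
      = Measure.dirac ((β : ℝ) * (X - xA q)) := by
    rw [h9.kB]
    exact hθ.blk.const_form (K7_y hX hq) β _ hB
  set u : Fin 2 ⊕ Fin 3 → ℤ := fun i => v (Sum.inl i) with hu
  set W : ℝ := ((u (Sum.inl 0) : ℝ) - t) * ca q + ((u (Sum.inl 1) : ℝ) - t) * cb q with hW
  have hV : vsq (v9 q) u = W ^ 2 := vsq_v9_eq q hq u t hU
  have hA2 : (κA (X, q)).map (lin u)
      = (unif 1).map (fun ω => W * ω + ∑ i, (u i : ℝ) * d9 q i) := by
    by_cases h0 : W = 0
    · rw [h9.det X q hq u (by rw [hV, h0]; ring), h0]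
      simp only [zero_mul, zero_add]
      rw [Measure.map_const, measure_univ, one_smul]
    · have := K7_prob_map (κA (X, q)) u
      refine eq_unif_of_ker h0 ?_
      have h1 := h9.load X q hq u (by rw [hV]; positivity)
      rw [hV, Real.sqrt_sq_eq_abs] at h1
      exact h1
  have hmW : Measurable (fun ω : ℝ => W * ω + ∑ i, (u i : ℝ) * d9 q i) := by fun_prop
  have : IsProbabilityMeasure ((unif 1).map (fun ω => W * ω + ∑ i, (u i : ℝ) * d9 q i)) :=
    Measure.isProbabilityMeasure_map hmW.aemeasurable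
  rw [hA2, hB2, K7_cnv_dirac, Measure.map_map (by fun_prop) hmW]
  congr 1
  funext ω
  simp only [Function.comp_apply]
  rw [lin_d9, hW]
  unfold L9
  rfl

/-- N6: units equal to `t`, block of size 4 constant `β`, not constant on 5*. If `(a-t)(b-t) < 0`:
the law is that of `L9 a b t β X` (`eq_unif_of_ker`, `Nine.det`, `pairLaw`), `smear14`. Otherwise
`V = |(a-t) ca + (b-t) cb| ≥ 5/12`, so `1/V ≤ 2.4`. -/
theorem nine_K (hθ : Blk4x θ) (h9 : Nine θ κA κB) (X : ℝ) (hX : |X| ≤ 1 / 20) (v : I9 → ℤ)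
    (t β : ℤ) (hU : UEq (fun i => v (Sum.inl i)) t) (hB : ∀ i, v (Sum.inr i) = β)
    (hA : ¬ (v (Sum.inl (Sum.inl 0)) = t ∧ v (Sum.inl (Sum.inl 1)) = t)) :
    HasLoad (pairLaw κA κB pi9 X v) (fun _ => ENNReal.ofReal 14) := by
  set a := v (Sum.inl (Sum.inl 0)) with ha
  set b := v (Sum.inl (Sum.inl 1)) with hb
  by_cases hs : (a - t) * (b - t) < 0
  · rw [nine_law hθ h9 X hX v t β hU hB]
    exact smear14 a b t β hs X
  · have := pi9_prob
    have hs' : 0 ≤ (a - t) * (b - t) := not_lt.1 hs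
    have hsr : 0 ≤ ((a : ℝ) - t) * ((b : ℝ) - t) := by exact_mod_cast hs'
    refine nine_A hθ h9 X hX v (fun _ => 14) measurable_const (fun q hq => ?_) _ ?_
    · have hV := vsq_v9_eq q hq (fun i => v (Sum.inl i)) t hU
      simp only [← ha, ← hb] at hV
      have h1 := K7_ca hq
      have h2 := K7_cb hq
      have h3 : (5 / 12 : ℝ) ^ 2
          ≤ (((a : ℝ) - t) * ca q + ((b : ℝ) - t) * cb q) ^ 2 := by
        have h4 : 1 ≤ ((a : ℝ) - t) ^ 2 ∨ 1 ≤ ((b : ℝ) - t) ^ 2 := by
          by_cases h5 : a = t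
          · right
            have h6 : b - t ≠ 0 := fun h => hA ⟨h5, by omega⟩
            have h7 : 1 ≤ (b - t) ^ 2 := by
              have := Int.one_le_abs h6
              nlinarith [sq_abs (b - t)]
            exact_mod_cast h7
          · left
            have h6 : a - t ≠ 0 := fun h => h5 (by omega)
            have h7 : 1 ≤ (a - t) ^ 2 := by
              have := Int.one_le_abs h6
              nlinarith [sq_abs (a - t)]
            exact_mod_cast h7
        have h8 : 0 ≤ ((a : ℝ) - t) * ((b : ℝ) - t) * (ca q * cb q) := by positivity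
        have h9 : (((a : ℝ) - t) * ca q + ((b : ℝ) - t) * cb q) ^ 2
            = ((a : ℝ) - t) ^ 2 * ca q ^ 2 + ((b : ℝ) - t) ^ 2 * cb q ^ 2
              + 2 * (((a : ℝ) - t) * ((b : ℝ) - t) * (ca q * cb q)) := by ring
        have h10 : (5 / 12 : ℝ) ^ 2 ≤ ca q ^ 2 := by gcongr
        have h11 : (5 / 12 : ℝ) ^ 2 ≤ cb q ^ 2 := by gcongr
        have h12 := sq_nonneg ((a : ℝ) - t)
        have h13 := sq_nonneg ((b : ℝ) - t)
        have h14 := mul_nonneg h12 (sq_nonneg (ca q))
        have h15 := mul_nonneg h13 (sq_nonneg (cb q))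
        rcases h4 with h4 | h4
        · nlinarith
        · nlinarith
      have h4 : 0 < vsq (v9 q) (fun i => v (Sum.inl i)) := by
        rw [hV]
        exact lt_of_lt_of_le (by norm_num) h3
      refine ⟨h4, ?_⟩
      have h5 : (5 / 12 : ℝ) ≤ Real.sqrt (vsq (v9 q) (fun i => v (Sum.inl i))) := by
        rw [hV]
        exact Real.le_sqrt_of_sq_le h3
      rw [div_le_iff₀ (by linarith)]
      linarith
    · rw [lintegral_const, measure_univ, mul_one]

/-- affine reduction: `v = r + c w` gives `lin v = c lin w + r X` almost surely -/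
theorem nine_affine (hθ : Blk4x θ) (h9 : Nine θ κA κB) (X : ℝ) (hX : |X| ≤ 1 / 20)
    (v w : I9 → ℤ) (r c : ℤ) (h : ∀ i, v i = r + c * w i) :
    pairLaw κA κB pi9 X v
      = (pairLaw κA κB pi9 X w).map (fun z => (c : ℝ) * z + (r : ℝ) * X) := by
  have := pi9_prob
  obtain ⟨ζ, hζ, hζ2⟩ := exists_prodKernel κA κB
  have hmap : ∀ u : I9 → ℤ, pairLaw κA κB pi9 X u
      = (pi9.bind (fun q => ζ (X, q))).map (lin u) := by
    intro u
    rw [bind_map ζ pi9 X (lin u) (B7a_measurable_lin u)]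
    unfold pairLaw
    congr 1
    funext q
    exact ((hζ2 (X, q)).2.1 u).symm
  have hsupp : Supp (pi9.bind (fun q => ζ (X, q))) X := by
    refine bind_supp ζ pi9 X X ?_
    filter_upwards [pi9_val] with q hq
    have h1 := (hζ2 (X, q)).1 (xA q) (X - xA q) (h9.supp X q hq)
      (by rw [h9.kB]; exact hθ.blk.supp _ (K7_y hX hq))
    have h2 : xA q + (X - xA q) = X := by ring
    rwa [h2] at h1
  rw [hmap v, hmap w, Measure.map_map (by fun_prop) (B7a_measurable_lin w)]
  refine Measure.map_congr ?_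
  filter_upwards [hsupp] with y hy
  simp only [Function.comp_apply]
  unfold lin
  have h1 : ∑ i, (v i : ℝ) * y i = ∑ i, ((r : ℝ) * y i + (c : ℝ) * ((w i : ℝ) * y i)) := by
    refine Finset.sum_congr rfl fun i _ => ?_
    rw [h i]
    push_cast
    ring
  rw [h1, Finset.sum_add_distrib, ← Finset.mul_sum, ← Finset.mul_sum, hy.2]
  ring

end

end Pool.Agent.helper49.Slope
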