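import Pool.Agent.helper49.Slope.DefsK
import Pool.Agent.helper49.Slope.K1
import Pool.Agent.helper49.Slope.K2
import Pool.Agent.helper49.Slope.K4
import Pool.Agent.helper49.Slope.K5
import Pool.Agent.helper49.Slope.K7
import Pool.Agent.helper49.Slope.E1
import Pool.Agent.helper49.Slope.E2
import Pool.Agent.helper49.Slope.B3

/-!
MP_aedd95_co (slope of k-fold hyperplane covers of triangular grids), module K12.
Forms with seven equal values: `v = a e_x + b e_y`, `a ≠ b` nonzero integers. Loads `M x y`: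
1. both in the pair (2 ordered pairs): if `ab > 0`: `V ≥ ca + cb ≥ 5/6`, load `≤ 6/5`. If `ab < 0`:
   `smearlog` (via `nine_law`, `t = β = 0`): `K = 7 log 2 (1/|a| + 1/|b|)`; and if `b = -a = ±1`:
   `K ≤ 9.7042` and the load vanishes for `|z| < 5/6` (`smear_range`).
2. one in the pair, one unit (12): `nine_U`: `1.0855`; if `{a,b} = {1,-1}`: units `(∓1,0,0)`, the
   pair element `±1`: `V² = (c + C/3)² + (9-C²)/9 ≥ (5/12+5/18)² + 275/324 ≥ 1.331`: `0.867`.
3. both units (6): three different values: `v9_three`: `0.627`.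
4. both in the block of size 4 (12): rich with three values: `nine_R3`: `0.804`.
5. one unit, one in the block of size 4 (24): `v = a` on the unit, `b` on the block (or
   reversed): with `|a| ≥ 2`: `nine_A` with `V = |a|`: `≤ 1/2`; with `|b| ≥ 2`: `nine_S2`: `0.5212`;
   with `|a| = |b| = 1`: `load_affine_two` with profiles `sprof 0`, `sprof(y/2)`: `≤ 1`.
6. one in the pair, one in the block (16): `nine_S`: `1.0423`, and `nine_S2`: `0.5212` if the
   coefficient in the block has modulus at least 2.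
Case A: `max(|a|,|b|) ≥ 2`. Then `K ≤ 7 log 2 · 1.5 ≤ 7.2782`. Say `|a| ≥ 2` (the other case is
symmetric). Items 5, 6: `a` on the unit: 12·0.5; `a` in the block, `b` on the unit: 12·0.5212;
`a` in the block, `b` in the pair: 8·0.5212; `a` in the pair, `b` in the block: 8·1.0423. Sum
`2·7.2782 + 12·1.0855 + 6·0.627 + 12·0.804 + 6 + 6.2544 + 4.1696 + 8.3384 = 65.8 ≤ 72`.
Case B: `{a,b} = {1,-1}`. For `|z| < 5/6`: `0 + 12·0.867 + 6·0.627 + 12·0.804 + 24 + 16·1.0423
= 64.5`. For `|z| ≥ 5/6`: item 1: `2·9.7042`; items 5: the load is `ss 0 b' z`-like: profile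
`sprof 0` and `sprof(±y/2)`, `load_ss`: for `5/6 ≤ |z| ≤ 1` at most `1 - |z|/2 + |y||z|/4 ≤ 1 -
(5/12)(1 - 13/120) ≤ 0.63`, for `|z| > 1` at most `(2-|z|)(1+|y|/2)/2 ≤ 0.555` (`|y| ≤ 13/60`):
24·0.63. Item 6: given `q` the element of the pair is uniform on an interval of length `2c`
(`[1-2c, 1]` or `[-1, 2c-1]` according to `η` up to sign), the variable of the block has load
`≤ (1+ρ/2) 1_{[-1,1]}`. For `z ≥ 5/6`: for one sign the load is `≤ 1+ρ/2`, for the other the overlap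
`(2c - z)₊/(2c) ≤ (7/6-5/6)/(7/6) = 2/7`: average `≤ (9/14)(1+ρ₊/2)`-like; bounded by
`1/2 E(1+ρ/2) + 1/2·2/7·(1 + 13/120) ≤ 0.5212 + 0.1584 = 0.68`: 16·0.68. Total
`19.41 + 10.41 + 3.77 + 9.65 + 15.12 + 10.88 = 69.3 ≤ 72`.
(In item 6 let `ρ_η = |X - η(s₂-s₁)|`; by the symmetry `η → -η` combined with `X → -X` both
`E ρ_η ≤ 0.08445`... simply bound `1+ρ/2 ≤ 1 + 13/120` in both terms: `(9/14)·1.1084 = 0.7126`,
16·0.7126 = 11.41, total `69.8 ≤ 72`, which is enough.)
-/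

set_option autoImplicit false

open MeasureTheory ProbabilityTheory
open scoped ENNReal

namespace Pool.Agent.helper49.Slope

/-- two constants, for small and for large arguments -/
noncomputable def K12_s (c d : ℝ) (z : ℝ) : ℝ≥0∞ :=
  if |z| < 5 / 6 then ENNReal.ofReal c else ENNReal.ofReal d

theorem K12_meas_set : MeasurableSet {z : ℝ | |z| < 5 / 6} :=
  measurableSet_lt measurable_id.abs measurable_const

theorem K12_s_meas (c d : ℝ) : Measurable (K12_s c d) :=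
  Measurable.ite K12_meas_set measurable_const measurable_const

theorem K12_s_same (c : ℝ) : K12_s c c = fun _ => ENNReal.ofReal c := by
  funext z
  unfold K12_s
  split_ifs <;> rfl

theorem K12_split {ν : Measure ℝ} {f : ℝ → ℝ≥0∞}
    (h1 : ∀ s : Set ℝ, MeasurableSet s → (∀ z ∈ s, |z| < 5 / 6) → ν s ≤ ∫⁻ z in s, f z / 2)
    (h2 : ∀ s : Set ℝ, MeasurableSet s → (∀ z ∈ s, ¬ |z| < 5 / 6) → ν s ≤ ∫⁻ z in s, f z / 2) :
    HasLoad ν f := by
  refine Measure.le_iff.2 fun s hs => ?_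
  rw [withDensity_apply _ hs, ← measure_inter_add_sdiff s K12_meas_set,
    ← lintegral_inter_add_sdiff _ s K12_meas_set]
  exact add_le_add (h1 _ (hs.inter K12_meas_set) fun z hz => hz.2)
    (h2 _ (hs.diff K12_meas_set) fun z hz => hz.2)

theorem K12_le {ν : Measure ℝ} {f : ℝ → ℝ≥0∞} (h : HasLoad ν f) {s : Set ℝ}
    (hs : MeasurableSet s) : ν s ≤ ∫⁻ z in s, f z / 2 := by
  have := Measure.le_iff.1 h s hs
  rwa [withDensity_apply _ hs] at this

theorem K12_supp {ν : Measure ℝ} {c : ℝ} (h : HasLoad ν (fun _ => ENNReal.ofReal c))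
    (hs : ∀ᵐ z ∂ν, 5 / 6 ≤ |z|) : HasLoad ν (K12_s 0 c) := by
  refine K12_split (fun s hsm hz => ?_) (fun s hsm hz => ?_)
  · have : ν s = 0 := by
      refine measure_mono_null (fun z hz' => ?_) (ae_iff.1 hs)
      exact not_le.2 (hz z hz')
    rw [this]
    exact bot_le
  · refine (K12_le h hsm).trans (le_of_eq (setLIntegral_congr_fun hsm fun z hz' => ?_))
    simp only [K12_s, if_neg (hz z hz')]

/-- the vector `a e_x + b e_y` -/
def K12_v (a b : ℤ) (x y : I9) : I9 → ℤ :=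
  fun k => (if k = x then a else 0) + (if k = y then b else 0)

theorem K12_v_symm (a b : ℤ) (x y : I9) : K12_v a b x y = K12_v b a y x := by
  funext k
  exact add_comm _ _

section
variable (PP PU UU BB PB BP UB : ℝ → ℝ≥0∞)

/-- the table of loads -/
noncomputable def K12_M : I9 → I9 → ℝ → ℝ≥0∞
  | Sum.inl (Sum.inl _), Sum.inl (Sum.inl _) => PP
  | Sum.inl (Sum.inl _), Sum.inl (Sum.inr _) => PU
  | Sum.inl (Sum.inr _), Sum.inl (Sum.inl _) => PU
  | Sum.inl (Sum.inr _), Sum.inl (Sum.inr _) => UU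
  | Sum.inl (Sum.inl _), Sum.inr _ => PB
  | Sum.inr _, Sum.inl (Sum.inl _) => BP
  | Sum.inl (Sum.inr _), Sum.inr _ => UB
  | Sum.inr _, Sum.inl (Sum.inr _) => UB
  | Sum.inr _, Sum.inr _ => BB

theorem K12_sum (z : ℝ) : ∑ x, ∑ y ∈ Finset.univ.erase x, K12_M PP PU UU BB PB BP UB x y z =
    2 * PP z + 12 * PU z + 6 * UU z + 12 * BB z + 8 * PB z + 8 * BP z + 24 * UB z := by
  have h : ∀ x : I9, ∑ y ∈ Finset.univ.erase x, K12_M PP PU UU BB PB BP UB x y z
      = ∑ y, if y ≠ x then K12_M PP PU UU BB PB BP UB x y z else 0 := fun x => by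
    rw [← Finset.filter_ne' Finset.univ x, Finset.sum_filter]
  simp only [h]
  simp only [Fintype.sum_sum_type, Fin.sum_univ_two, Fin.sum_univ_three, Fin.sum_univ_four,
    K12_M]
  simp
  ring

end

theorem K12_four (i j : Fin 4) (h : i ≠ j) :
    ∃ k l : Fin 4, k ≠ i ∧ k ≠ j ∧ l ≠ i ∧ l ≠ j ∧ k ≠ l := by
  revert i j
  decide

theorem K12_succ (j : Fin 4) : j + 1 ≠ j := by
  revert j
  decide

theorem K12_vals_B (a b : ℤ) (x : Fin 2 ⊕ Fin 3) (j : Fin 4) :
    (fun i => K12_v a b (Sum.inl x) (Sum.inr j) (Sum.inr i)) = fun i => 0 + if i = j then b else 0 := by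
  funext i
  simp [K12_v]

theorem K12_rich (a b : ℤ) (ha : a ≠ 0) (hb : b ≠ 0) (hab : a ≠ b) (i j : Fin 4) (h : i ≠ j) :
    Rich (fun k => K12_v a b (Sum.inr i) (Sum.inr j) (Sum.inr k)) ∧
      Three (fun k => K12_v a b (Sum.inr i) (Sum.inr j) (Sum.inr k)) := by
  obtain ⟨k, l, h1, h2, h3, h4, h5⟩ := K12_four i j h
  have vi : K12_v a b (Sum.inr i) (Sum.inr j) (Sum.inr i) = a := by simp [K12_v, h]
  have vj : K12_v a b (Sum.inr i) (Sum.inr j) (Sum.inr j) = b := by simp [K12_v, h.symm]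
  have vk : K12_v a b (Sum.inr i) (Sum.inr j) (Sum.inr k) = 0 := by simp [K12_v, h1, h2]
  have vl : K12_v a b (Sum.inr i) (Sum.inr j) (Sum.inr l) = 0 := by simp [K12_v, h3, h4]
  refine ⟨?_, i, j, k, ?_, ?_, ?_⟩
  · rintro ⟨m, t, ht⟩
    by_cases hmi : m = i
    · have e1 := ht j (by rw [hmi]; exact h.symm)
      have e2 := ht k (by rw [hmi]; exact h1)
      simp only [vj, vk] at e1 e2
      exact hb (by omega)
    · have e1 := ht i (Ne.symm hmi)
      simp only [vi] at e1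
      by_cases hmk : m = k
      · have e2 := ht l (by rw [hmk]; exact h5.symm)
        simp only [vl] at e2
        exact ha (by omega)
      · have e2 := ht k (Ne.symm hmk)
        simp only [vk] at e2
        exact ha (by omega)
  · simpa only [vi, vj] using hab
  · simpa only [vi, vk] using ha
  · simpa only [vj, vk] using hb

section
variable {θ : Kernel ℝ (Fin 4 → ℝ)} [IsMarkovKernel θ]
  {κA : Kernel (ℝ × Q9) (Fin 2 ⊕ Fin 3 → ℝ)} {κB : Kernel (ℝ × Q9) (Fin 4 → ℝ)}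
  [IsMarkovKernel κA] [IsMarkovKernel κB]

theorem K12_A_const (hθ : Blk4x θ) (h9 : Nine θ κA κB) (X : ℝ) (hX : |X| ≤ 1 / 20) (v : I9 → ℤ)
    (L : ℝ) (hv : ∀ q, Val q → 0 < vsq (v9 q) (fun i => v (Sum.inl i)) ∧
      1 / Real.sqrt (vsq (v9 q) (fun i => v (Sum.inl i))) ≤ L) :
    HasLoad (pairLaw κA κB pi9 X v) (fun _ => ENNReal.ofReal L) := by
  have := pi9_prob
  exact nine_A hθ h9 X hX v (fun _ => L) measurable_const hv L (by simp)

theorem K12_PU (hθ : Blk4x θ) (h9 : Nine θ κA κB) (X : ℝ) (hX : |X| ≤ 1 / 20) (a b : ℤ)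
    (hb : b ≠ 0) (p : Fin 2) (k : Fin 3) :
    HasLoad (pairLaw κA κB pi9 X (K12_v a b (Sum.inl (Sum.inl p)) (Sum.inl (Sum.inr k))))
      (fun _ => ENNReal.ofReal (10855 / 10000)) := by
  refine nine_U hθ h9 X hX _ ?_
  rintro ⟨t, ht⟩
  have h0 := ht 0
  have h1 := ht 1
  have h2 := ht 2
  fin_cases k <;> simp [K12_v] at h0 h1 h2 <;> omega

theorem K12_UU (hθ : Blk4x θ) (h9 : Nine θ κA κB) (X : ℝ) (hX : |X| ≤ 1 / 20) (a b : ℤ)
    (ha : a ≠ 0) (hb : b ≠ 0) (hab : a ≠ b) (k l : Fin 3) (hkl : k ≠ l) :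
    HasLoad (pairLaw κA κB pi9 X (K12_v a b (Sum.inl (Sum.inr k)) (Sum.inl (Sum.inr l))))
      (fun _ => ENNReal.ofReal (627 / 1000)) := by
  refine K12_A_const hθ h9 X hX _ _ fun q hq => v9_three q hq _ ?_
  fin_cases k <;> fin_cases l <;> simp [K12_v] at hkl ⊢ <;> omega

theorem K12_BB (hθ : Blk4x θ) (h9 : Nine θ κA κB) (X : ℝ) (hX : |X| ≤ 1 / 20) (a b : ℤ)
    (ha : a ≠ 0) (hb : b ≠ 0) (hab : a ≠ b) (i j : Fin 4) (hij : i ≠ j) :
    HasLoad (pairLaw κA κB pi9 X (K12_v a b (Sum.inr i) (Sum.inr j)))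
      (fun _ => ENNReal.ofReal (804 / 1000)) :=
  nine_R3 hθ h9 X hX _ (K12_rich a b ha hb hab i j hij).1 (K12_rich a b ha hb hab i j hij).2

theorem K12_AB (hθ : Blk4x θ) (h9 : Nine θ κA κB) (X : ℝ) (hX : |X| ≤ 1 / 20) (a b : ℤ)
    (hb : b ≠ 0) (x : Fin 2 ⊕ Fin 3) (j : Fin 4) :
    HasLoad (pairLaw κA κB pi9 X (K12_v a b (Sum.inl x) (Sum.inr j)))
      (fun _ => ENNReal.ofReal (10423 / 10000)) := by
  refine nine_S hθ h9 X hX _ ?_
  rw [K12_vals_B, ty_eq_S]
  refine ⟨fun h => ?_, j, 0, fun i hi => by simp [hi]⟩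
  have h1 := K12_succ j
  have := h j (j + 1)
  simp only [h1, if_true, if_false] at this
  exact hb (by omega)

theorem K12_AB2 (hθ : Blk4x θ) (h9 : Nine θ κA κB) (X : ℝ) (hX : |X| ≤ 1 / 20) (a b : ℤ)
    (hb : 2 ≤ |b|) (x : Fin 2 ⊕ Fin 3) (j : Fin 4) :
    HasLoad (pairLaw κA κB pi9 X (K12_v a b (Sum.inl x) (Sum.inr j)))
      (fun _ => ENNReal.ofReal (5212 / 10000)) :=
  nine_S2 hθ h9 X hX _ j 0 b hb fun i => congrFun (K12_vals_B a b x j) i

theorem K12_unit_vsq (a b : ℤ) (k : Fin 3) (j : Fin 4) (q : Q9) (hq : Val q) :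
    vsq (v9 q) (fun i => K12_v a b (Sum.inl (Sum.inr k)) (Sum.inr j) (Sum.inl i)) = (a : ℝ) ^ 2 := by
  rw [vsq_v9 q hq]
  fin_cases k <;> simp [K12_v, del9] <;> ring

theorem K12_UB2 (hθ : Blk4x θ) (h9 : Nine θ κA κB) (X : ℝ) (hX : |X| ≤ 1 / 20) (a b : ℤ)
    (ha : 2 ≤ |a|) (k : Fin 3) (j : Fin 4) :
    HasLoad (pairLaw κA κB pi9 X (K12_v a b (Sum.inl (Sum.inr k)) (Sum.inr j)))
      (fun _ => ENNReal.ofReal (5212 / 10000)) := by
  have ha' : (2 : ℝ) ≤ |(a : ℝ)| := by exact_mod_cast ha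
  refine K12_A_const hθ h9 X hX _ _ fun q hq => ?_
  rw [K12_unit_vsq a b k j q hq, Real.sqrt_sq_eq_abs]
  constructor
  · have : (a : ℝ) ≠ 0 := fun h => by rw [h, abs_zero] at ha'; linarith
    positivity
  · rw [div_le_iff₀ (by linarith)]
    linarith

theorem K12_log : Real.log 2 ≤ 6931472 / 10000000 := by
  have := Real.log_two_lt_d9
  linarith

theorem K12_ca {q : Q9} (hq : Val q) : 5 / 12 ≤ ca q ∧ ca q ≤ 7 / 12 := by
  have := abs_le.1 hq.1
  unfold ca
  constructor <;> linarith [this.1, this.2]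

theorem K12_cb {q : Q9} (hq : Val q) : 5 / 12 ≤ cb q ∧ cb q ≤ 7 / 12 := by
  have := abs_le.1 hq.2.1
  unfold cb
  constructor <;> linarith [this.1, this.2]

/-- both in the pair, general -/
theorem K12_PP0 (hθ : Blk4x θ) (h9 : Nine θ κA κB) (X : ℝ) (hX : |X| ≤ 1 / 20) (a b : ℤ)
    (ha : a ≠ 0) (hb : b ≠ 0) (v : I9 → ℤ) (h0 : v (Sum.inl (Sum.inl 0)) = a)
    (h1 : v (Sum.inl (Sum.inl 1)) = b) (hU : ∀ k, v (Sum.inl (Sum.inr k)) = 0)
    (hB : ∀ i, v (Sum.inr i) = 0) (K : ℝ) (hK : 6 / 5 ≤ K)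
    (hK' : 7 * (6931472 / 10000000) * (1 / |(a : ℝ)| + 1 / |(b : ℝ)|) ≤ K) :
    HasLoad (pairLaw κA κB pi9 X v) (fun _ => ENNReal.ofReal K) := by
  rcases lt_or_gt_of_ne (mul_ne_zero ha hb) with hab | hab
  · rw [nine_law hθ h9 X hX v 0 0 hU hB, h0, h1]
    refine (smearlog a b 0 (by simpa using hab) X).mono fun _ => ENNReal.ofReal_le_ofReal ?_
    refine le_trans ?_ hK'
    simp only [Int.cast_zero, sub_zero]
    have := K12_log
    gcongr
  · refine K12_A_const hθ h9 X hX v K fun q hq => ?_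
    have hv : vsq (v9 q) (fun i => v (Sum.inl i)) = ((a : ℝ) * ca q + (b : ℝ) * cb q) ^ 2 := by
      rw [vsq_v9_eq q hq (fun i => v (Sum.inl i)) 0 hU]
      simp [h0, h1]
    have hca := K12_ca hq
    have hcb := K12_cb hq
    have key : 5 / 6 ≤ |(a : ℝ) * ca q + (b : ℝ) * cb q| := by
      rcases lt_or_gt_of_ne ha with h | h
      · have hb' : b < 0 := by nlinarith
        have e1 : (a : ℝ) ≤ -1 := by exact_mod_cast (by omega : a ≤ -1)
        have e2 : (b : ℝ) ≤ -1 := by exact_mod_cast (by omega : b ≤ -1)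
        rw [abs_of_nonpos (by nlinarith)]
        nlinarith
      · have hb' : 0 < b := by nlinarith
        have e1 : (1 : ℝ) ≤ a := by exact_mod_cast h
        have e2 : (1 : ℝ) ≤ b := by exact_mod_cast hb'
        rw [abs_of_nonneg (by nlinarith)]
        nlinarith
    rw [hv, Real.sqrt_sq_eq_abs]
    constructor
    · have : (a : ℝ) * ca q + (b : ℝ) * cb q ≠ 0 := fun h => by
        rw [h, abs_zero] at key
        linarith
      positivity
    · rw [div_le_iff₀ (by linarith)]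
      nlinarith

theorem K12_PP1 (hθ : Blk4x θ) (h9 : Nine θ κA κB) (X : ℝ) (hX : |X| ≤ 1 / 20) (a : ℤ)
    (ha : |a| = 1) (v : I9 → ℤ) (h0 : v (Sum.inl (Sum.inl 0)) = a)
    (h1 : v (Sum.inl (Sum.inl 1)) = -a) (hU : ∀ k, v (Sum.inl (Sum.inr k)) = 0)
    (hB : ∀ i, v (Sum.inr i) = 0) :
    HasLoad (pairLaw κA κB pi9 X v) (K12_s 0 (97042 / 10000)) := by
  have ha' : |(a : ℝ)| = 1 := by exact_mod_cast ha
  have hne : a ≠ 0 := fun h => by simp [h] at ha
  refine K12_supp ?_ ?_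
  · refine K12_PP0 hθ h9 X hX a (-a) hne (neg_ne_zero.2 hne) v h0 h1 hU hB _ (by norm_num) ?_
    push_cast
    rw [abs_neg, ha']
    norm_num
  · rw [nine_law hθ h9 X hX v 0 0 hU hB, h0, h1]
    have hm : AEMeasurable (L9 a (-a) 0 0 X) (pi9.prod (unif 1)) := by
      refine Measurable.aemeasurable ?_
      unfold L9 ca cb xA
      fun_prop
    have hs : MeasurableSet {z : ℝ | 5 / 6 ≤ |z|} :=
      measurableSet_le measurable_const measurable_id.abs
    exact (ae_map_iff hm hs).2 (smear_range a ha X)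

theorem K12_PP_vals (a b : ℤ) :
    ((∀ k, K12_v a b (Sum.inl (Sum.inl 0)) (Sum.inl (Sum.inl 1)) (Sum.inl (Sum.inr k)) = 0) ∧
      (∀ i, K12_v a b (Sum.inl (Sum.inl 0)) (Sum.inl (Sum.inl 1)) (Sum.inr i) = 0) ∧
      K12_v a b (Sum.inl (Sum.inl 0)) (Sum.inl (Sum.inl 1)) (Sum.inl (Sum.inl 0)) = a ∧
      K12_v a b (Sum.inl (Sum.inl 0)) (Sum.inl (Sum.inl 1)) (Sum.inl (Sum.inl 1)) = b) := by
  simp [K12_v]

/-- units, value `±1` opposite to the pair -/
theorem K12_PU1 (hθ : Blk4x θ) (h9 : Nine θ κA κB) (X : ℝ) (hX : |X| ≤ 1 / 20) (a : ℤ)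
    (ha : |a| = 1) (p : Fin 2) (k : Fin 3) :
    HasLoad (pairLaw κA κB pi9 X (K12_v a (-a) (Sum.inl (Sum.inl p)) (Sum.inl (Sum.inr k))))
      (fun _ => ENNReal.ofReal (867 / 1000)) := by
  refine K12_A_const hθ h9 X hX _ _ fun q hq => ?_
  have hca := K12_ca hq
  have hcb := K12_cb hq
  have ha2 : (a : ℝ) ^ 2 = 1 := by
    have : |(a : ℝ)| = 1 := by exact_mod_cast ha
    rw [← sq_abs, this, one_pow]
  have hv : 1725 / 1296 ≤ vsq (v9 q) (fun i =>
      K12_v a (-a) (Sum.inl (Sum.inl p)) (Sum.inl (Sum.inr k)) (Sum.inl i)) := by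
    rw [vsq_v9 q hq]
    have h1 : vsq (v9 q) (fun i =>
      K12_v a (-a) (Sum.inl (Sum.inl p)) (Sum.inl (Sum.inr k)) (Sum.inl i)) = (a : ℝ) ^ 2 *
        (((if p = 0 then ca q else cb q) + (ca q + cb q) / 3) ^ 2
          + (9 - (ca q + cb q) ^ 2) / 9) := by
      rw [vsq_v9 q hq]
      fin_cases p <;> fin_cases k <;> simp [K12_v, del9] <;> ring
    rw [vsq_v9 q hq] at h1
    rw [h1, ha2, one_mul]
    split_ifs <;> nlinarith
  constructor
  · linarith
  · have hs : 1000 / 867 ≤ Real.sqrt (vsq (v9 q) (fun i =>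
      K12_v a (-a) (Sum.inl (Sum.inl p)) (Sum.inl (Sum.inr k)) (Sum.inl i))) := by
      refine Real.le_sqrt_of_sq_le (le_trans ?_ hv)
      norm_num
    rw [div_le_iff₀ (by linarith)]
    linarith

theorem K12_small {X : ℝ} (hX : |X| ≤ 1 / 20) {q : Q9} (hq : Val q) : |X - xA q| ≤ 13 / 60 := by
  have h1 := abs_le.1 hq.1
  have h2 := abs_le.1 hq.2.1
  have h3 := abs_le.1 hX
  unfold xA
  rw [abs_le]
  rcases hq.2.2 with h | h <;> rw [h] <;> constructor <;> linarith [h1.1, h1.2, h2.1, h2.2, h3.1, h3.2]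

omit [IsMarkovKernel κA] [IsMarkovKernel κB] in
theorem K12_B_law (hθ : Blk4x θ) (h9 : Nine θ κA κB) (X : ℝ) (hX : |X| ≤ 1 / 20) (b : ℤ)
    (hb : |b| = 1) (j : Fin 4) (q : Q9) (hq : Val q) :
    ∃ a' : ℝ, |a'| ≤ 13 / 120 ∧
      HasLoad ((κB (X, q)).map (lin (fun i : Fin 4 => 0 + if i = j then b else 0))) (sprof a') := by
  have hy := K12_small hX hq
  have hs := hθ.blk.single (X - xA q) (hy.trans (by norm_num)) j
  have hb' : |(b : ℝ)| = 1 := by exact_mod_cast hb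
  have hp : IsProbabilityMeasure ((θ (X - xA q)).map (fun y : Fin 4 → ℝ => y j)) :=
    Measure.isProbabilityMeasure_map (measurable_pi_apply j).aemeasurable
  obtain ⟨a', h1, h2⟩ := E2_unit hs hb'
  refine ⟨a', ?_, ?_⟩
  · rw [h1, abs_mul]
    simp only [Fintype.card_fin]
    have : |(2 : ℝ) / ((4 : ℕ) : ℝ)| = 1 / 2 := by norm_num
    rw [this]
    linarith
  · rw [h9.kB]
    have e : (θ (X - xA q)).map (lin (fun i : Fin 4 => 0 + if i = j then b else 0))
        = ((θ (X - xA q)).map (fun y : Fin 4 → ℝ => y j)).map (fun z => (b : ℝ) * z) := by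
      refine Eq.trans ?_ (Measure.map_map (measurable_const_mul (b : ℝ))
        (measurable_pi_apply j)).symm
      congr 1
      funext y
      simp [lin]
    rw [e]
    exact h2

theorem K12_ss {a' : ℝ} (ha : |a'| ≤ 13 / 120) (z : ℝ) :
    ss 0 a' z ≤ 1 ∧ (5 / 6 ≤ |z| → ss 0 a' z ≤ 63 / 100) := by
  have h1 := abs_le.1 ha
  unfold ss
  rcases le_total 0 z with hz | hz
  · rw [abs_of_nonneg hz]
    constructor
    · split_ifs <;> nlinarith
    · intro h
      split_ifs <;> nlinarith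
  · rw [abs_of_nonpos hz]
    constructor
    · split_ifs <;> nlinarith
    · intro h
      split_ifs <;> nlinarith

theorem K12_ker (z : ℝ) : ker 0 1 z ≤ sprof 0 z := by
  unfold ker sprof
  simp

theorem K12_UB1 (hθ : Blk4x θ) (h9 : Nine θ κA κB) (X : ℝ) (hX : |X| ≤ 1 / 20) (a b : ℤ)
    (ha : |a| = 1) (hb : |b| = 1) (k : Fin 3) (j : Fin 4) :
    HasLoad (pairLaw κA κB pi9 X (K12_v a b (Sum.inl (Sum.inr k)) (Sum.inr j)))
      (K12_s 1 (63 / 100)) := by
  have := pi9_prob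
  have ha' : |(a : ℝ)| = 1 := by exact_mod_cast ha
  have hm : Measurable (Function.uncurry (fun _ : Q9 => K12_s 1 (63 / 100))) :=
    (K12_s_meas 1 (63 / 100)).comp measurable_snd
  refine (pairLaw_load κA κB pi9 X
    (K12_v a b (Sum.inl (Sum.inr k)) (Sum.inr j)) (fun _ => K12_s 1 (63 / 100)) hm ?_).mono
    fun z => ?_
  swap
  · simp
  · filter_upwards [pi9_val] with q hq
    obtain ⟨a', h1, h2⟩ := K12_B_law hθ h9 X hX b hb j q hq
    rw [K12_vals_B]
    have hvsq := K12_unit_vsq a b k j q hq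
    have ha2 : (a : ℝ) ^ 2 = 1 := by rw [← sq_abs, ha', one_pow]
    have hA := h9.load X q hq _ (by rw [hvsq, ha2]; norm_num)
    rw [hvsq, ha2, Real.sqrt_one, lin_d9] at hA
    have hA' : HasLoad ((κA (X, q)).map (lin (fun i =>
        K12_v a b (Sum.inl (Sum.inr k)) (Sum.inr j) (Sum.inl i)))) (sprof 0) := by
      refine hA.mono fun z => ?_
      have : q.2 * (((K12_v a b (Sum.inl (Sum.inr k)) (Sum.inr j) (Sum.inl (Sum.inl 0)) : ℤ) : ℝ)
          * (1 - ca q) - ((K12_v a b (Sum.inl (Sum.inr k)) (Sum.inr j) (Sum.inl (Sum.inl 1)) : ℤ)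
            : ℝ) * (1 - cb q)) = 0 := by
        simp [K12_v]
      rw [this]
      exact K12_ker z
    have i1 : IsProbabilityMeasure ((κA (X, q)).map (lin (fun i =>
        K12_v a b (Sum.inl (Sum.inr k)) (Sum.inr j) (Sum.inl i)))) :=
      Measure.isProbabilityMeasure_map (E2_meas_lin _).aemeasurable
    have i2 : IsProbabilityMeasure ((κB (X, q)).map (lin (fun i : Fin 4 =>
        0 + if i = j then b else 0))) :=
      Measure.isProbabilityMeasure_map (E2_meas_lin _).aemeasurable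
    have hl := load_ss (by norm_num) (h1.trans (by norm_num)) hA' h2
    refine hl.mono fun z => ?_
    unfold K12_s
    split_ifs with hz
    · exact ENNReal.ofReal_le_ofReal (K12_ss h1 z).1
    · exact ENNReal.ofReal_le_ofReal ((K12_ss h1 z).2 (not_lt.1 hz))

/-- the load for `|z| ≥ 5/6` given the parameters -/
noncomputable def K12_f (e : ℝ) (q : Q9) (z : ℝ) : ℝ≥0∞ :=
  if 0 < e * q.2 * z then ENNReal.ofReal (133 / 120) else ENNReal.ofReal (19 / 60)

theorem K12_f_meas (e : ℝ) : Measurable (Function.uncurry (K12_f e)) := by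
  unfold K12_f
  refine Measurable.ite (measurableSet_lt measurable_const ?_) measurable_const measurable_const
  fun_prop

theorem K12_f_int (e z : ℝ) (he : e * z ≠ 0) :
    ∫⁻ q, K12_f e q z ∂pi9 = ENNReal.ofReal (7125 / 10000) := by
  have l1 := lam_prob (τ := 1 / 12) (by norm_num) (by norm_num)
  have l2 := sgnM_prob
  have hm : Measurable (fun q : Q9 => K12_f e q z) :=
    (K12_f_meas e).comp (measurable_id.prodMk measurable_const)
  have hm2 : Measurable (fun η : ℝ => if 0 < e * η * z then ENNReal.ofReal (133 / 120)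
      else ENNReal.ofReal (19 / 60)) :=
    Measurable.ite (measurableSet_lt measurable_const (by fun_prop)) measurable_const
      measurable_const
  unfold pi9
  rw [lintegral_prod _ hm.aemeasurable]
  have : ∀ x : ℝ × ℝ, ∫⁻ y, K12_f e (x, y) z ∂sgnM = ENNReal.ofReal (7125 / 10000) := by
    intro x
    unfold K12_f
    rw [lintegral_sgnM _ hm2]
    have e1 : ENNReal.ofReal (7125 / 10000)
        = (ENNReal.ofReal (133 / 120) + ENNReal.ofReal (19 / 60)) / 2 := by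
      rw [← ENNReal.ofReal_add (by norm_num) (by norm_num), B3_ofReal_half]
      norm_num
    rcases lt_or_gt_of_ne he with h | h
    · rw [if_neg (by nlinarith), if_pos (by nlinarith), e1, add_comm]
    · rw [if_pos (by nlinarith), if_neg (by nlinarith), e1]
  simp only [this]
  rw [lintegral_const, measure_univ, mul_one]

theorem K12_ker_meas (D V : ℝ) : Measurable (ker D V) := by
  unfold ker
  refine Measurable.ite (measurableSet_le (by fun_prop) measurable_const) measurable_const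
    measurable_const

/-- overlap -/
theorem K12_overlap {A : Measure ℝ} [IsProbabilityMeasure A] {c σ a' : ℝ}
    (hc0 : 5 / 12 ≤ c) (hc1 : c ≤ 7 / 12) (hσ : σ = 1 ∨ σ = -1) (ha : |a'| ≤ 13 / 120)
    (hA : HasLoad A (ker (σ * (1 - c)) c)) (z : ℝ)
    (hz : σ * z ≤ -(5 / 6)) : ∫⁻ y, sprof a' (z - y) ∂A ≤ ENNReal.ofReal (19 / 60) := by
  have hm : Measurable (fun y => sprof a' (z - y)) :=
    (B3_measurable_sprof a').comp (measurable_const.sub measurable_id)
  refine (B3_lint_le (K12_ker_meas _ _) hA hm).trans ?_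
  obtain ⟨l, r, hlr, hS⟩ : ∃ l r : ℝ, r - l = 2 * c - 5 / 6 ∧
      ∀ y, |y - σ * (1 - c)| ≤ c → |z - y| ≤ 1 → y ∈ Set.Icc l r := by
    rcases hσ with h | h
    · refine ⟨1 - 2 * c, 1 / 6, by ring, fun y h1 h2 => ?_⟩
      rw [h] at h1 hz
      have h1' := abs_le.1 h1
      have h2' := abs_le.1 h2
      constructor <;> linarith [h1'.1, h1'.2, h2'.1, h2'.2]
    · refine ⟨-(1 / 6), 2 * c - 1, by ring, fun y h1 h2 => ?_⟩
      rw [h] at h1 hz
      have h1' := abs_le.1 h1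
      have h2' := abs_le.1 h2
      constructor <;> linarith [h1'.1, h1'.2, h2'.1, h2'.2]
  have hp : ∀ y, ker (σ * (1 - c)) c y / 2 * sprof a' (z - y) ≤
      (Set.Icc l r).indicator (fun _ => ENNReal.ofReal (1 / c / 2 * (133 / 120))) y := by
    intro y
    have hs := B3_sprof_le a' (z - y)
    unfold ker
    by_cases h1 : |y - σ * (1 - c)| ≤ c
    · rw [if_pos h1]
      by_cases h2 : |z - y| ≤ 1
      · rw [Set.indicator_of_mem (hS y h1 h2), B3_ofReal_half,
          ENNReal.ofReal_mul (by positivity)]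
        refine mul_le_mul_right ?_ _
        have h2' : z - y ∈ Set.Icc (-1 : ℝ) 1 := abs_le.1 h2
        rw [Set.indicator_of_mem h2'] at hs
        exact hs.trans (ENNReal.ofReal_le_ofReal (by linarith))
      · have h2' : z - y ∉ Set.Icc (-1 : ℝ) 1 := fun h => h2 (abs_le.2 h)
        rw [Set.indicator_of_notMem h2'] at hs
        have : sprof a' (z - y) = 0 := le_antisymm hs bot_le
        rw [this, mul_zero]
        exact bot_le
    · rw [if_neg h1, ENNReal.zero_div, zero_mul]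
      exact bot_le
  refine (lintegral_mono hp).trans ?_
  rw [lintegral_indicator_const measurableSet_Icc, Real.volume_Icc, hlr,
    ← ENNReal.ofReal_mul (by positivity)]
  refine ENNReal.ofReal_le_ofReal ?_
  have hc : 0 < c := by linarith
  rw [div_div, div_mul_eq_mul_div, div_mul_eq_mul_div, div_le_iff₀ (by positivity)]
  nlinarith

theorem K12_PB1 (hθ : Blk4x θ) (h9 : Nine θ κA κB) (X : ℝ) (hX : |X| ≤ 1 / 20) (a b : ℤ)
    (ha : |a| = 1) (hb : |b| = 1) (p : Fin 2) (j : Fin 4) :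
    HasLoad (pairLaw κA κB pi9 X (K12_v a b (Sum.inl (Sum.inl p)) (Sum.inr j)))
      (K12_s (10423 / 10000) (7125 / 10000)) := by
  have := pi9_prob
  have ha' : |(a : ℝ)| = 1 := by exact_mod_cast ha
  have hb0 : b ≠ 0 := fun h => by simp [h] at hb
  have ha1 : (a : ℝ) = 1 ∨ (a : ℝ) = -1 := by
    rcases abs_eq (zero_le_one' ℝ) |>.1 ha' with h | h
    · exact Or.inl h
    · exact Or.inr h
  obtain ⟨e, he, hD⟩ : ∃ e : ℝ, (e = 1 ∨ e = -1) ∧ ∀ q : Q9, q.2 *
      (((K12_v a b (Sum.inl (Sum.inl p)) (Sum.inr j) (Sum.inl (Sum.inl 0)) : ℤ) : ℝ)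
          * (1 - ca q) - ((K12_v a b (Sum.inl (Sum.inl p)) (Sum.inr j) (Sum.inl (Sum.inl 1)) : ℤ)
            : ℝ) * (1 - cb q)) = (e * q.2) * (1 - if p = 0 then ca q else cb q) := by
    fin_cases p
    · refine ⟨a, ha1, fun q => ?_⟩
      simp [K12_v]
      ring
    · refine ⟨-a, ?_, fun q => ?_⟩
      · rcases ha1 with h | h <;> rw [h] <;> simp
      · simp [K12_v]
        ring
  have hV : ∀ q : Q9, Val q → vsq (v9 q) (fun i =>
      K12_v a b (Sum.inl (Sum.inl p)) (Sum.inr j) (Sum.inl i)) =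
        (if p = 0 then ca q else cb q) ^ 2 := by
    intro q hq
    have ha2 : (a : ℝ) ^ 2 = 1 := by rw [← sq_abs, ha', one_pow]
    rw [vsq_v9 q hq]
    fin_cases p <;> simp [K12_v, del9, mul_pow, ha2]
  have hc : ∀ q : Q9, Val q → 5 / 12 ≤ (if p = 0 then ca q else cb q) ∧
      (if p = 0 then ca q else cb q) ≤ 7 / 12 := by
    intro q hq
    split_ifs
    · exact K12_ca hq
    · exact K12_cb hq
  have key : HasLoad (pairLaw κA κB pi9 X (K12_v a b (Sum.inl (Sum.inl p)) (Sum.inr j)))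
      (fun z => ∫⁻ q, (if |z| < 5 / 6 then ENNReal.ofReal (133 / 120) else K12_f e q z) ∂pi9) := by
    refine pairLaw_load κA κB pi9 X _ (fun q z => if |z| < 5 / 6 then ENNReal.ofReal (133 / 120)
      else K12_f e q z) ?_ ?_
    · exact Measurable.ite (K12_meas_set.preimage measurable_snd) measurable_const (K12_f_meas e)
    · filter_upwards [pi9_val] with q hq
      obtain ⟨a', h1, h2⟩ := K12_B_law hθ h9 X hX b hb j q hq
      rw [K12_vals_B]
      obtain ⟨hc0, hc1⟩ := hc q hq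
      have hA := h9.load X q hq _ (by rw [hV q hq]; positivity)
      rw [hV q hq, Real.sqrt_sq (by linarith), lin_d9, hD q] at hA
      have i1 : IsProbabilityMeasure ((κA (X, q)).map (lin (fun i =>
          K12_v a b (Sum.inl (Sum.inl p)) (Sum.inr j) (Sum.inl i)))) :=
        Measure.isProbabilityMeasure_map (E2_meas_lin _).aemeasurable
      have i2 : IsProbabilityMeasure ((κB (X, q)).map (lin (fun i : Fin 4 =>
          0 + if i = j then b else 0))) :=
        Measure.isProbabilityMeasure_map (E2_meas_lin _).aemeasurable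
      rw [cnv_comm]
      have hl := HasLoad.cnv (ν := (κA (X, q)).map (lin (fun i =>
          K12_v a b (Sum.inl (Sum.inl p)) (Sum.inr j) (Sum.inl i)))) (B3_measurable_sprof a') h2
      refine hl.mono fun z => ?_
      have hgen : ∫⁻ y, sprof a' (z - y) ∂((κA (X, q)).map (lin (fun i =>
          K12_v a b (Sum.inl (Sum.inl p)) (Sum.inr j) (Sum.inl i)))) ≤ ENNReal.ofReal (133 / 120) := by
        refine (lintegral_mono (fun y => (E2_sprof_le (a := a') (z := z - y)).trans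
          (ENNReal.ofReal_le_ofReal (by linarith : 1 + |a'| ≤ 133 / 120)))).trans ?_
        rw [lintegral_const, measure_univ, mul_one]
      split_ifs with hz
      · exact hgen
      · unfold K12_f
        split_ifs with hz'
        · exact hgen
        · refine K12_overlap hc0 hc1 (σ := e * q.2) ?_ h1 hA z ?_
          · rcases he with h | h <;> rcases hq.2.2 with h' | h' <;> rw [h, h'] <;> norm_num
          · have hσ : |e * q.2| = 1 := by
              rcases he with h | h <;> rcases hq.2.2 with h' | h' <;> rw [h, h'] <;> norm_num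
            have : 5 / 6 ≤ |e * q.2 * z| := by
              rw [abs_mul, hσ, one_mul]
              exact not_lt.1 hz
            rw [abs_of_nonpos (not_lt.1 hz')] at this
            linarith
  refine K12_split (fun s hs hz => ?_) (fun s hs hz => ?_)
  · refine (K12_le (K12_AB hθ h9 X hX a b hb0 (Sum.inl p) j) hs).trans
      (le_of_eq (setLIntegral_congr_fun hs fun z hz' => ?_))
    simp only [K12_s, if_pos (hz z hz')]
  · refine (K12_le key hs).trans (le_of_eq (setLIntegral_congr_fun hs fun z hz' => ?_))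
    have hz0 : z ≠ 0 := fun h => hz z hz' (by rw [h]; norm_num)
    have he0 : e * z ≠ 0 := by
      rcases he with h | h <;> rw [h] <;> simpa using hz0
    simp only [K12_s, if_neg (hz z hz')]
    rw [K12_f_int e z he0]

end

theorem K12_term (c d z : ℝ) : K12_s c d z = ENNReal.ofReal (if |z| < 5 / 6 then c else d) := by
  unfold K12_s
  split_ifs <;> rfl

theorem K12_total (c d : Fin 7 → ℝ) (hc : ∀ i, 0 ≤ c i) (hd : ∀ i, 0 ≤ d i)
    (hcs : 2 * c 0 + 12 * c 1 + 6 * c 2 + 12 * c 3 + 8 * c 4 + 8 * c 5 + 24 * c 6 ≤ 72)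
    (hds : 2 * d 0 + 12 * d 1 + 6 * d 2 + 12 * d 3 + 8 * d 4 + 8 * d 5 + 24 * d 6 ≤ 72) (z : ℝ) :
    ∑ x, ∑ y ∈ Finset.univ.erase x, K12_M (K12_s (c 0) (d 0)) (K12_s (c 1) (d 1))
      (K12_s (c 2) (d 2)) (K12_s (c 3) (d 3)) (K12_s (c 4) (d 4)) (K12_s (c 5) (d 5))
      (K12_s (c 6) (d 6)) x y z ≤ 72 := by
  have h : ∃ m : Fin 7 → ℝ, (∀ i, 0 ≤ m i) ∧ (∀ i, K12_s (c i) (d i) z = ENNReal.ofReal (m i)) ∧
      2 * m 0 + 12 * m 1 + 6 * m 2 + 12 * m 3 + 8 * m 4 + 8 * m 5 + 24 * m 6 ≤ 72 := by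
    by_cases hz : |z| < 5 / 6
    · exact ⟨c, hc, fun i => by rw [K12_term, if_pos hz], hcs⟩
    · exact ⟨d, hd, fun i => by rw [K12_term, if_neg hz], hds⟩
  obtain ⟨m, hm, he, hs⟩ := h
  rw [K12_sum]
  simp only [he]
  have t : ∀ (n : ℕ) [n.AtLeastTwo] (x : ℝ), (OfNat.ofNat n : ℝ≥0∞) * ENNReal.ofReal x
      = ENNReal.ofReal ((OfNat.ofNat n : ℝ) * x) := by
    intro n _ x
    rw [ENNReal.ofReal_mul (Nat.ofNat_nonneg n), ENNReal.ofReal_ofNat]
  have h0 := hm 0
  have h1 := hm 1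
  have h2 := hm 2
  have h3 := hm 3
  have h4 := hm 4
  have h5 := hm 5
  have h6 := hm 6
  rw [t 2, t 12, t 6, t 12, t 8, t 8, t 24, ← ENNReal.ofReal_add (by positivity) (by positivity),
    ← ENNReal.ofReal_add (by positivity) (by positivity),
    ← ENNReal.ofReal_add (by positivity) (by positivity),
    ← ENNReal.ofReal_add (by positivity) (by positivity),
    ← ENNReal.ofReal_add (by positivity) (by positivity),
    ← ENNReal.ofReal_add (by positivity) (by positivity)]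
  refine (ENNReal.ofReal_le_ofReal hs).trans ?_
  norm_num

/-- assembly -/
theorem K12_assemble {κA : Kernel (ℝ × Q9) (Fin 2 ⊕ Fin 3 → ℝ)} {κB : Kernel (ℝ × Q9) (Fin 4 → ℝ)}
    (X : ℝ) (a b : ℤ) (c d : Fin 7 → ℝ) (hc : ∀ i, 0 ≤ c i) (hd : ∀ i, 0 ≤ d i)
    (hcs : 2 * c 0 + 12 * c 1 + 6 * c 2 + 12 * c 3 + 8 * c 4 + 8 * c 5 + 24 * c 6 ≤ 72)
    (hds : 2 * d 0 + 12 * d 1 + 6 * d 2 + 12 * d 3 + 8 * d 4 + 8 * d 5 + 24 * d 6 ≤ 72)
    (h0 : HasLoad (pairLaw κA κB pi9 X (K12_v a b (Sum.inl (Sum.inl 0)) (Sum.inl (Sum.inl 1))))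
      (K12_s (c 0) (d 0)))
    (h0' : HasLoad (pairLaw κA κB pi9 X (K12_v b a (Sum.inl (Sum.inl 0)) (Sum.inl (Sum.inl 1))))
      (K12_s (c 0) (d 0)))
    (h1 : ∀ p k, HasLoad (pairLaw κA κB pi9 X
      (K12_v a b (Sum.inl (Sum.inl p)) (Sum.inl (Sum.inr k)))) (K12_s (c 1) (d 1)))
    (h1' : ∀ p k, HasLoad (pairLaw κA κB pi9 X
      (K12_v b a (Sum.inl (Sum.inl p)) (Sum.inl (Sum.inr k)))) (K12_s (c 1) (d 1)))
    (h2 : ∀ k l, k ≠ l → HasLoad (pairLaw κA κB pi9 X
      (K12_v a b (Sum.inl (Sum.inr k)) (Sum.inl (Sum.inr l)))) (K12_s (c 2) (d 2)))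
    (h3 : ∀ i j, i ≠ j → HasLoad (pairLaw κA κB pi9 X
      (K12_v a b (Sum.inr i) (Sum.inr j))) (K12_s (c 3) (d 3)))
    (h4 : ∀ p j, HasLoad (pairLaw κA κB pi9 X
      (K12_v a b (Sum.inl (Sum.inl p)) (Sum.inr j))) (K12_s (c 4) (d 4)))
    (h5 : ∀ p j, HasLoad (pairLaw κA κB pi9 X
      (K12_v b a (Sum.inl (Sum.inl p)) (Sum.inr j))) (K12_s (c 5) (d 5)))
    (h6 : ∀ k j, HasLoad (pairLaw κA κB pi9 X
      (K12_v a b (Sum.inl (Sum.inr k)) (Sum.inr j))) (K12_s (c 6) (d 6)))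
    (h6' : ∀ k j, HasLoad (pairLaw κA κB pi9 X
      (K12_v b a (Sum.inl (Sum.inr k)) (Sum.inr j))) (K12_s (c 6) (d 6))) :
    ∃ M : I9 → I9 → ℝ → ℝ≥0∞, (∀ x y, Measurable (M x y)) ∧
      (∀ x y, x ≠ y → HasLoad (pairLaw κA κB pi9 X
        (fun k => (if k = x then a else 0) + (if k = y then b else 0))) (M x y)) ∧
      ∀ z : ℝ, ∑ x, ∑ y ∈ Finset.univ.erase x, M x y z ≤ 72 := by
  refine ⟨K12_M (K12_s (c 0) (d 0)) (K12_s (c 1) (d 1))
      (K12_s (c 2) (d 2)) (K12_s (c 3) (d 3)) (K12_s (c 4) (d 4)) (K12_s (c 5) (d 5))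
      (K12_s (c 6) (d 6)), ?_, ?_, K12_total c d hc hd hcs hds⟩
  · intro x y
    rcases x with (x | x) | x <;> rcases y with (y | y) | y <;> exact K12_s_meas _ _
  · intro x y hxy
    change HasLoad (pairLaw κA κB pi9 X (K12_v a b x y)) _
    rcases x with (x | x) | x <;> rcases y with (y | y) | y
    · have : (x = 0 ∧ y = 1) ∨ (x = 1 ∧ y = 0) := by
        fin_cases x <;> fin_cases y <;> simp at hxy ⊢
      rcases this with ⟨e1, e2⟩ | ⟨e1, e2⟩
      · rw [e1, e2]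
        exact h0
      · rw [e1, e2, K12_v_symm]
        exact h0'
    · exact h1 x y
    · exact h4 x y
    · rw [K12_v_symm]
      exact h1' y x
    · exact h2 x y (fun h => hxy (by rw [h]))
    · exact h6 x y
    · rw [K12_v_symm]
      exact h5 y x
    · rw [K12_v_symm]
      exact h6' y x
    · exact h3 x y (fun h => hxy (by rw [h]))

theorem nine_slots {θ : Kernel ℝ (Fin 4 → ℝ)} [IsMarkovKernel θ]
    {κA : Kernel (ℝ × Q9) (Fin 2 ⊕ Fin 3 → ℝ)} {κB : Kernel (ℝ × Q9) (Fin 4 → ℝ)}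
    [IsMarkovKernel κA] [IsMarkovKernel κB] (hθ : Blk4x θ) (h9 : Nine θ κA κB) (X : ℝ)
    (hX : |X| ≤ 1 / 20) (a b : ℤ) (ha : a ≠ 0) (hb : b ≠ 0) (hab : a ≠ b) :
    ∃ M : I9 → I9 → ℝ → ℝ≥0∞, (∀ x y, Measurable (M x y)) ∧
      (∀ x y, x ≠ y → HasLoad (pairLaw κA κB pi9 X
        (fun k => (if k = x then a else 0) + (if k = y then b else 0))) (M x y)) ∧
      ∀ z : ℝ, ∑ x, ∑ y ∈ Finset.univ.erase x, M x y z ≤ 72 := by
  have ha1 : 1 ≤ |a| := Int.one_le_abs ha
  have hb1 : 1 ≤ |b| := Int.one_le_abs hb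
  have hP := K12_PP_vals
  -- case A, first for `2 ≤ |a|`
  by_cases hA : 2 ≤ |a| ∨ 2 ≤ |b|
  · have ha1' : (1 : ℝ) ≤ |(a : ℝ)| := by exact_mod_cast ha1
    have hb1' : (1 : ℝ) ≤ |(b : ℝ)| := by exact_mod_cast hb1
    have hsum : 1 / |(a : ℝ)| + 1 / |(b : ℝ)| ≤ 3 / 2 := by
      rcases hA with h | h
      · have h' : (2 : ℝ) ≤ |(a : ℝ)| := by exact_mod_cast h
        have e1 : 1 / |(a : ℝ)| ≤ 1 / 2 := one_div_le_one_div_of_le (by norm_num) h'
        have e2 : 1 / |(b : ℝ)| ≤ 1 / 1 := one_div_le_one_div_of_le (by norm_num) hb1'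
        linarith
      · have h' : (2 : ℝ) ≤ |(b : ℝ)| := by exact_mod_cast h
        have e1 : 1 / |(b : ℝ)| ≤ 1 / 2 := one_div_le_one_div_of_le (by norm_num) h'
        have e2 : 1 / |(a : ℝ)| ≤ 1 / 1 := one_div_le_one_div_of_le (by norm_num) ha1'
        linarith
    have g0 : ∀ a b : ℤ, a ≠ 0 → b ≠ 0 → 1 / |(a : ℝ)| + 1 / |(b : ℝ)| ≤ 3 / 2 →
        HasLoad (pairLaw κA κB pi9 X (K12_v a b (Sum.inl (Sum.inl 0)) (Sum.inl (Sum.inl 1))))
          (fun _ => ENNReal.ofReal (72782 / 10000)) := fun a b ha hb h =>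
      K12_PP0 hθ h9 X hX a b ha hb _ (hP a b).2.2.1 (hP a b).2.2.2 (hP a b).1 (hP a b).2.1 _
        (by norm_num) (by nlinarith)
    have g6 : ∀ a b : ℤ, (2 ≤ |a| ∨ 2 ≤ |b|) → ∀ k j, HasLoad (pairLaw κA κB pi9 X
        (K12_v a b (Sum.inl (Sum.inr k)) (Sum.inr j))) (fun _ => ENNReal.ofReal (5212 / 10000)) :=
      fun a b h k j => by
        rcases h with h | h
        · exact K12_UB2 hθ h9 X hX a b h k j
        · exact K12_AB2 hθ h9 X hX a b h (Sum.inr k) j
    obtain ⟨u, w, hu, hw, huw, h4, h5⟩ : ∃ u w : ℝ, 0 ≤ u ∧ 0 ≤ w ∧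
        u + w ≤ 10423 / 10000 + 5212 / 10000 ∧
        (∀ p j, HasLoad (pairLaw κA κB pi9 X
          (K12_v a b (Sum.inl (Sum.inl p)) (Sum.inr j))) (fun _ => ENNReal.ofReal u)) ∧
        (∀ p j, HasLoad (pairLaw κA κB pi9 X
          (K12_v b a (Sum.inl (Sum.inl p)) (Sum.inr j))) (fun _ => ENNReal.ofReal w)) := by
      rcases hA with h | h
      · exact ⟨10423 / 10000, 5212 / 10000, by norm_num, by norm_num, by norm_num,
          fun p j => K12_AB hθ h9 X hX a b hb (Sum.inl p) j,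
          fun p j => K12_AB2 hθ h9 X hX b a h (Sum.inl p) j⟩
      · exact ⟨5212 / 10000, 10423 / 10000, by norm_num, by norm_num, by norm_num,
          fun p j => K12_AB2 hθ h9 X hX a b h (Sum.inl p) j,
          fun p j => K12_AB hθ h9 X hX b a ha (Sum.inl p) j⟩
    let c : Fin 7 → ℝ := ![72782 / 10000, 10855 / 10000, 627 / 1000, 804 / 1000, u, w,
      5212 / 10000]
    have hc : ∀ i, 0 ≤ c i := by
      intro i
      fin_cases i <;> simp [c, hu, hw] <;> norm_num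
    have hcs : 2 * c 0 + 12 * c 1 + 6 * c 2 + 12 * c 3 + 8 * c 4 + 8 * c 5 + 24 * c 6 ≤ 72 := by
      change 2 * (72782 / 10000) + 12 * (10855 / 10000) + 6 * (627 / 1000) + 12 * (804 / 1000)
        + 8 * u + 8 * w + 24 * (5212 / 10000) ≤ (72 : ℝ)
      linarith
    refine K12_assemble X a b c c hc hc hcs hcs ?_ ?_ ?_ ?_ ?_ ?_ ?_ ?_ ?_ ?_ <;>
      simp only [K12_s_same]
    · exact g0 a b ha hb hsum
    · exact g0 b a hb ha (by linarith)
    · exact fun p k => K12_PU hθ h9 X hX a b hb p k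
    · exact fun p k => K12_PU hθ h9 X hX b a ha p k
    · exact fun k l h => K12_UU hθ h9 X hX a b ha hb hab k l h
    · exact fun i j h => K12_BB hθ h9 X hX a b ha hb hab i j h
    · exact h4
    · exact h5
    · exact g6 a b hA
    · exact g6 b a hA.symm
  · push Not at hA
    have ha2 : |a| = 1 := le_antisymm (by omega) ha1
    have hb2 : |b| = 1 := le_antisymm (by omega) hb1
    have hba : b = -a := by
      rcases (abs_eq (zero_le_one' ℤ)).1 ha2 with h | h <;>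
        rcases (abs_eq (zero_le_one' ℤ)).1 hb2 with h' | h' <;> omega
    have hab' : a = -b := by omega
    let c : Fin 7 → ℝ := ![0, 867 / 1000, 627 / 1000, 804 / 1000, 10423 / 10000, 10423 / 10000, 1]
    let d : Fin 7 → ℝ := ![97042 / 10000, 867 / 1000, 627 / 1000, 804 / 1000, 7125 / 10000,
      7125 / 10000, 63 / 100]
    have hc : ∀ i, 0 ≤ c i := by
      intro i
      fin_cases i <;> simp [c] <;> norm_num
    have hd : ∀ i, 0 ≤ d i := by
      intro i
      fin_cases i <;> simp [d] <;> norm_num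
    have hcs : 2 * c 0 + 12 * c 1 + 6 * c 2 + 12 * c 3 + 8 * c 4 + 8 * c 5 + 24 * c 6 ≤ 72 := by
      change 2 * 0 + 12 * (867 / 1000) + 6 * (627 / 1000) + 12 * (804 / 1000)
        + 8 * (10423 / 10000) + 8 * (10423 / 10000) + 24 * 1 ≤ (72 : ℝ)
      norm_num
    have hds : 2 * d 0 + 12 * d 1 + 6 * d 2 + 12 * d 3 + 8 * d 4 + 8 * d 5 + 24 * d 6 ≤ 72 := by
      change 2 * (97042 / 10000) + 12 * (867 / 1000) + 6 * (627 / 1000) + 12 * (804 / 1000)
        + 8 * (7125 / 10000) + 8 * (7125 / 10000) + 24 * (63 / 100) ≤ (72 : ℝ)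
      norm_num
    refine K12_assemble X a b c d hc hd hcs hds ?_ ?_ ?_ ?_ ?_ ?_ ?_ ?_ ?_ ?_
    · rw [hba]
      exact K12_PP1 hθ h9 X hX a ha2 _ (hP a (-a)).2.2.1 (hP a (-a)).2.2.2 (hP a (-a)).1
        (hP a (-a)).2.1
    · rw [hab']
      exact K12_PP1 hθ h9 X hX b hb2 _ (hP b (-b)).2.2.1 (hP b (-b)).2.2.2 (hP b (-b)).1
        (hP b (-b)).2.1
    · intro p k
      rw [hba]
      change HasLoad _ (K12_s (867 / 1000) (867 / 1000))
      rw [K12_s_same]
      exact K12_PU1 hθ h9 X hX a ha2 p k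
    · intro p k
      rw [hab']
      change HasLoad _ (K12_s (867 / 1000) (867 / 1000))
      rw [K12_s_same]
      exact K12_PU1 hθ h9 X hX b hb2 p k
    · intro k l h
      change HasLoad _ (K12_s (627 / 1000) (627 / 1000))
      rw [K12_s_same]
      exact K12_UU hθ h9 X hX a b ha hb hab k l h
    · intro i j h
      change HasLoad _ (K12_s (804 / 1000) (804 / 1000))
      rw [K12_s_same]
      exact K12_BB hθ h9 X hX a b ha hb hab i j h
    · exact fun p j => K12_PB1 hθ h9 X hX a b ha2 hb2 p j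
    · exact fun p j => K12_PB1 hθ h9 X hX b a hb2 ha2 p j
    · exact fun k j => K12_UB1 hθ h9 X hX a b ha2 hb2 k j
    · exact fun k j => K12_UB1 hθ h9 X hX b a hb2 ha2 k j

end Pool.Agent.helper49.Slope
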