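import Pool.Agent.helper49.Slope.DefsK
import Pool.Agent.helper49.Slope.K1
import Pool.Agent.helper49.Slope.K7
import Pool.Agent.helper49.Slope.E1
import Pool.Agent.helper49.Slope.B2a

/-!
MP_aedd95_co (slope of k-fold hyperplane covers of triangular grids), module K12a.
Bounds by class patterns. `v` takes at least three values, `g` merges values into three classes,
`w = g ∘ v`. Cases of the definition of `H9`:
* the block of size 4 in one class: units in different classes are not all equal: `nine_U`. If the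
  units are in one class: actual units not all equal: `10855/10000 ≤ 14`; units all equal: if the
  block of size 4 is not constant, `nine_S` or `nine_R` (`ty` is `S` or `R`), `≤ 14`; if it is
  constant then 5* is not constant (otherwise `v` would have at most two values): `nine_K`.
* classes 3 + 1 on the block of size 4: not constant there: `nine_S` or `nine_R`: `≤ 10423/10000`.
* classes 2 + 1 + 1: rich with three values there: `nine_R3`, and with unequal units `nine_AR3` with
  `M = 10855/10000` (`v9_unequal`): `0.613 + 1.0855·0.08445 = 0.70467`.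
* classes 2 + 2: rich there: `nine_R`, and with unequal units `nine_AR` with `M = 10855/10000`:
  `0.8717 + 0.362·0.08445 = 0.90228`... (`0.362 * 0.08445 = 0.0305709`, total `0.9022709`).
-/

set_option autoImplicit false

open MeasureTheory ProbabilityTheory
open scoped ENNReal

namespace Pool.Agent.helper49.Slope

/-- number of elements of the block of size 4 in class `c` -/
def K12a_cnt (W : Fin 4 → Fin 3) (c : Fin 3) : ℕ :=
  (Finset.univ.filter (fun i : Fin 4 => W i = c)).card

theorem K12a_four (W : Fin 4 → Fin 3) (c : Fin 3) (h : K12a_cnt W c = 4) :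
    ∀ i, W i = c := by
  unfold K12a_cnt at h
  intro i
  have h1 : (Finset.univ.filter (fun i : Fin 4 => W i = c)) = Finset.univ := by
    apply Finset.eq_univ_of_card
    rw [h]; rfl
  have h2 : i ∈ Finset.univ.filter (fun i : Fin 4 => W i = c) := by
    rw [h1]; exact Finset.mem_univ i
  exact (Finset.mem_filter.1 h2).2

theorem K12a_three_not_const : ∀ (W : Fin 4 → Fin 3), (∃ c, K12a_cnt W c = 3) →
    ∃ i j, W i ≠ W j := by
  unfold K12a_cnt
  decide +kernel

theorem K12a_rich_aux : ∀ (W : Fin 4 → Fin 3), (¬ ∃ c, K12a_cnt W c = 4) →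
    (¬ ∃ c, K12a_cnt W c = 3) → ∀ i, ∃ j k, j ≠ i ∧ k ≠ i ∧ W j ≠ W k := by
  unfold K12a_cnt
  decide +kernel

theorem K12a_three_aux' : ∀ (W : Fin 4 → Fin 3), (¬ ∃ c, K12a_cnt W c = 3) →
    ∀ c, K12a_cnt W c = 1 → ∃ p : Fin 4 × Fin 4 × Fin 4,
      W p.1 ≠ W p.2.1 ∧ W p.1 ≠ W p.2.2 ∧ W p.2.1 ≠ W p.2.2 := by
  unfold K12a_cnt
  decide +kernel

theorem K12a_three_aux (W : Fin 4 → Fin 3) (h3 : ¬ ∃ c, K12a_cnt W c = 3)
    (h1 : ∃ c, K12a_cnt W c = 1) : ∃ i j k, W i ≠ W j ∧ W i ≠ W k ∧ W j ≠ W k := by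
  obtain ⟨c, hc⟩ := h1
  obtain ⟨p, hp⟩ := K12a_three_aux' W h3 c hc
  exact ⟨p.1, p.2.1, p.2.2, hp⟩

theorem K12a_mono {ν : Measure ℝ} {a b : ℝ} (h : HasLoad ν (fun _ => ENNReal.ofReal a))
    (hab : a ≤ b) : HasLoad ν (fun _ => ENNReal.ofReal b) :=
  h.mono (fun _ => ENNReal.ofReal_le_ofReal hab)

/-- the block of size 4 not constant -/
theorem K12a_nonconst {θ : Kernel ℝ (Fin 4 → ℝ)} [IsMarkovKernel θ]
    {κA : Kernel (ℝ × Q9) (Fin 2 ⊕ Fin 3 → ℝ)} {κB : Kernel (ℝ × Q9) (Fin 4 → ℝ)}
    [IsMarkovKernel κA] [IsMarkovKernel κB] (hθ : Blk4x θ) (h9 : Nine θ κA κB) (X : ℝ)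
    (hX : |X| ≤ 1 / 20) (v : I9 → ℤ) (hB : ¬ ∀ i j : Fin 4, v (Sum.inr i) = v (Sum.inr j)) :
    HasLoad (pairLaw κA κB pi9 X v) (fun _ => ENNReal.ofReal (10423 / 10000)) := by
  rcases hty : ty (fun i => v (Sum.inr i)) with _ | _ | _
  · exact absurd ((ty_eq_C _).1 hty) hB
  · exact nine_S hθ h9 X hX v hty
  · exact K12a_mono (nine_R hθ h9 X hX v ((ty_eq_R _).1 hty)) (by norm_num)

theorem K12a_rich (v : I9 → ℤ) (g : ℤ → Fin 3)
    (h4 : ¬ ∃ c, K12a_cnt (fun i => g (v (Sum.inr i))) c = 4)
    (h3 : ¬ ∃ c, K12a_cnt (fun i => g (v (Sum.inr i))) c = 3) :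
    Rich (fun i : Fin 4 => v (Sum.inr i)) := by
  rintro ⟨i, t, hi⟩
  obtain ⟨j, k, hj, hk, hjk⟩ := K12a_rich_aux _ h4 h3 i
  apply hjk
  have e1 := hi j hj
  have e2 := hi k hk
  simp only at e1 e2 ⊢
  rw [e1, e2]

theorem nine_H {θ : Kernel ℝ (Fin 4 → ℝ)} [IsMarkovKernel θ]
    {κA : Kernel (ℝ × Q9) (Fin 2 ⊕ Fin 3 → ℝ)} {κB : Kernel (ℝ × Q9) (Fin 4 → ℝ)}
    [IsMarkovKernel κA] [IsMarkovKernel κB] (hθ : Blk4x θ) (h9 : Nine θ κA κB) (X : ℝ)
    (hX : |X| ≤ 1 / 20) (v : I9 → ℤ) (h3 : Three v) (g : ℤ → Fin 3) :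
    HasLoad (pairLaw κA κB pi9 X v) (fun _ => ENNReal.ofReal (H9 (fun i => g (v i)))) := by
  classical
  -- the units in different classes
  have hUne : (∃ k l : Fin 3, g (v (Sum.inl (Sum.inr k))) ≠ g (v (Sum.inl (Sum.inr l)))) →
      ¬ ∃ t, UEq (fun i => v (Sum.inl i)) t := by
    rintro ⟨k, l, hkl⟩ ⟨t, ht⟩
    apply hkl
    have e1 := ht k
    have e2 := ht l
    simp only at e1 e2
    rw [e1, e2]
  unfold H9
  simp only
  have hW : ∀ c, (Finset.univ.filter (fun i : Fin 4 => g (v (Sum.inr i)) = c)).card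
      = K12a_cnt (fun i => g (v (Sum.inr i))) c := fun c => rfl
  by_cases h4 : ∃ c, (Finset.univ.filter (fun i : Fin 4 => g (v (Sum.inr i)) = c)).card = 4
  · rw [if_pos h4]
    split_ifs with hU
    · exact nine_U hθ h9 X hX v (hUne hU)
    · by_cases hu : ∃ t, UEq (fun i => v (Sum.inl i)) t
      · obtain ⟨t, ht⟩ := hu
        by_cases hB : ∀ i j : Fin 4, v (Sum.inr i) = v (Sum.inr j)
        · refine nine_K hθ h9 X hX v t (v (Sum.inr 0)) ht (fun i => hB i 0) ?_
          rintro ⟨ha, hb⟩
          obtain ⟨i, j, k, hij, hik, hjk⟩ := h3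
          have key : ∀ i : I9, v i = t ∨ v i = v (Sum.inr 0) := by
            intro i
            rcases i with (i | i) | i
            · left
              fin_cases i
              · exact ha
              · exact hb
            · left
              exact ht i
            · right
              exact hB i 0
          rcases key i with h1 | h1 <;> rcases key j with h2 | h2 <;> rcases key k with h5 | h5 <;>
            omega
        · exact K12a_mono (K12a_nonconst hθ h9 X hX v hB) (by norm_num)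
      · exact K12a_mono (nine_U hθ h9 X hX v hu) (by norm_num)
  · rw [if_neg h4]
    by_cases h3' : ∃ c, (Finset.univ.filter (fun i : Fin 4 => g (v (Sum.inr i)) = c)).card = 3
    · rw [if_pos h3']
      apply K12a_nonconst hθ h9 X hX v
      intro hc
      obtain ⟨i, j, hij⟩ := K12a_three_not_const (fun i => g (v (Sum.inr i))) h3'
      apply hij
      rw [hc i j]
    · rw [if_neg h3']
      have hR : Rich (fun i : Fin 4 => v (Sum.inr i)) := K12a_rich v g h4 h3'
      by_cases h1 : ∃ c, (Finset.univ.filter (fun i : Fin 4 => g (v (Sum.inr i)) = c)).card = 1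
      · rw [if_pos h1]
        have hT : Three (fun i : Fin 4 => v (Sum.inr i)) := by
          obtain ⟨i, j, k, hij, hik, hjk⟩ :=
            K12a_three_aux (fun i => g (v (Sum.inr i))) h3' h1
          exact ⟨i, j, k, fun h => hij (congrArg g h), fun h => hik (congrArg g h),
            fun h => hjk (congrArg g h)⟩
        split_ifs with hU
        · exact K12a_mono (nine_AR3 hθ h9 X hX v (10855 / 10000) (by norm_num)
            (fun q hq => v9_unequal q hq _ (hUne hU)) hR hT) (by norm_num)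
        · exact nine_R3 hθ h9 X hX v hR hT
      · rw [if_neg h1]
        split_ifs with hU
        · exact K12a_mono (nine_AR hθ h9 X hX v (10855 / 10000) (by norm_num)
            (fun q hq => v9_unequal q hq _ (hUne hU)) hR) (by norm_num)
        · exact nine_R hθ h9 X hX v hR

end Pool.Agent.helper49.Slope
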