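import Pool.Agent.helper49.Slope.DefsK
import Pool.Agent.helper49.Slope.DefsF
import Pool.Agent.helper49.Slope.F4a
import Pool.Agent.helper49.Slope.F4b
import Pool.Agent.helper49.Slope.F4c
import Pool.Agent.helper49.Slope.F4d
import Pool.Agent.helper49.Slope.F4
import Pool.Agent.helper49.Slope.B2b
import Pool.Agent.helper49.Slope.B5
import Pool.Agent.helper49.Slope.B7c
import Pool.Agent.helper49.Slope.B7d

/-!
MP_aedd95_co (slope of k-fold hyperplane covers of triangular grids), module K3.
The block of size 4 with the additional bounds for forms with at least three values. Same kernel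
as in `block_four` (module F4, adapt that file; F4b `qN4_three`, F4c `qE4_three`): state N has load
`≤ 1/√(1+5c²/3)`, `c = 1-ρ`, state E as in F4c. With
`f(ρ) = (1-ρ)/√(1+5(1-ρ)²/3) + ρ (1/√((1-ρ)(3+ρ)) + max(1/√ρ, 4/√3)/2)` one has
`f(ρ) ≤ 0.70 + 1.22 ρ` on `[0, 3/10]` (values `f`: `0: 0.6124, 0.01: 0.661, 0.02: 0.690, 0.05: 0.742,
0.1: 0.805, 0.1875: 0.897, 0.2: 0.912, 0.25: 0.985, 0.3: 1.0631`; minimal margin `0.0028` at `0.3`,
there `0.70+0.366 = 1.066`; e.g. `√ρ ≤ 0.1 + 2.5 ρ`... or split the interval and use monotonicity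
of the single terms as in F4d) and `(1-ρ)/√(1+5(1-ρ)²/3) ≤ 0.6124 ≤ 0.613` (decreasing in `ρ`).
-/

set_option autoImplicit false

open MeasureTheory ProbabilityTheory
open scoped ENNReal

namespace Pool.Agent.helper49.Slope

/-- the tangent line of the first term -/
theorem K3_tangent (r : ℝ) (h0 : 0 ≤ r) (h1 : r ≤ 3 / 10) :
    (1 - r) / Real.sqrt (1 + 5 * (1 - r) ^ 2 / 3) ≤ 6150 / 10000 - 275 / 1000 * r := by
  apply F4d_div_sqrt (by linarith) (by positivity) (by linarith)
  rcases le_total r (3 / 20) with h | h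
  · have e0 := F4d_bern h0 h 0 4
    have e1 := F4d_bern h0 h 1 3
    have e2 := F4d_bern h0 h 2 2
    have e3 := F4d_bern h0 h 3 1
    have e4 := F4d_bern h0 h 4 0
    nlinarith [e0, e1, e2, e3, e4]
  · have e0 := F4d_bern h h1 0 4
    have e1 := F4d_bern h h1 1 3
    have e2 := F4d_bern h h1 2 2
    have e3 := F4d_bern h h1 3 1
    have e4 := F4d_bern h h1 4 0
    nlinarith [e0, e1, e2, e3, e4]

theorem f3_bound (r : ℝ) (h0 : 0 < r) (h1 : r ≤ 3 / 10) :
    (1 - r) / Real.sqrt (1 + 5 * (1 - r) ^ 2 / 3)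
      + r * (1 / Real.sqrt ((1 - r) * (3 + r)) + max (1 / Real.sqrt r) (4 / Real.sqrt 3) / 2)
      ≤ 70 / 100 + 122 / 100 * r := by
  have h0' := h0.le
  have a1 : (1 - r) / Real.sqrt (1 + 5 * (1 - r) ^ 2 / 3) ≤ 6419 / 10000 - 4084 / 10000 * r := by
    apply F4d_div_sqrt (by linarith) (by positivity) (by linarith)
    have e0 := F4d_bern h0' h1 0 4
    have e1 := F4d_bern h0' h1 1 3
    have e2 := F4d_bern h0' h1 2 2
    have e3 := F4d_bern h0' h1 3 1
    have e4 := F4d_bern h0' h1 4 0
    nlinarith [e0, e1, e2, e3, e4]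
  have a1' := K3_tangent r h0' h1
  have a2 : 1 / Real.sqrt ((1 - r) * (3 + r)) ≤ 57736 / 100000 + 26868 / 100000 * r := by
    apply F4d_div_sqrt zero_le_one (mul_pos (by linarith) (by linarith)) (by linarith)
    have e0 := F4d_bern h0' h1 0 4
    have e1 := F4d_bern h0' h1 1 3
    have e2 := F4d_bern h0' h1 2 2
    have e3 := F4d_bern h0' h1 3 1
    have e4 := F4d_bern h0' h1 4 0
    nlinarith [e0, e1, e2, e3, e4]
  have a3 := mul_le_mul_of_nonneg_left a2 h0'
  -- the two terms of the maximum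
  have b1 : r * (1 / Real.sqrt r) ≤ (r + 9 / 100) / (6 / 10) := by
    have e1 : r * (1 / Real.sqrt r) = Real.sqrt r := by
      rw [mul_one_div]
      exact Real.div_sqrt
    rw [e1, le_div_iff₀ (by norm_num)]
    have e2 := Real.sq_sqrt h0'
    nlinarith [sq_nonneg (Real.sqrt r - 3 / 10)]
  have b2 : 4 / Real.sqrt 3 ≤ 230942 / 100000 := by
    apply F4d_div_sqrt (by norm_num) (by norm_num) (by norm_num)
    norm_num
  have b3 := mul_le_mul_of_nonneg_left b2 h0'
  have b4 := F4d_bern h0' h1 1 1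
  rcases le_total (1 / Real.sqrt r) (4 / Real.sqrt 3) with h | h
  · rw [max_eq_right h]
    nlinarith [b4]
  · rw [max_eq_left h]
    nlinarith [b4]

theorem n3_bound (r : ℝ) (h0 : 0 ≤ r) (h1 : r ≤ 3 / 10) :
    (1 - r) / Real.sqrt (1 + 5 * (1 - r) ^ 2 / 3) ≤ 613 / 1000 := by
  apply F4d_div_sqrt (by linarith) (by positivity) (by norm_num)
  nlinarith

theorem block_four_ext : ∃ θ : Kernel ℝ (Fin 4 → ℝ), IsMarkovKernel θ ∧ Blk4x θ := by
  obtain ⟨κN, hκN, hN⟩ := exists_polyKernel vN4 vN4_measurable dN4 dN4_measurable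
  obtain ⟨κE, hκE, hE⟩ := exists_polyKernel vE4 vE4_measurable dE4 dE4_measurable
  obtain ⟨ζN, hζN, hNs⟩ := exists_symKernel κN
  obtain ⟨ζE, hζE, hEs⟩ := exists_symKernel κE
  obtain ⟨ζ, hζ, hmix⟩ := exists_twoKernel ζN ζE (fun x => min |x| 1)
    (measurable_abs.min measurable_const) (fun x => le_min (abs_nonneg x) zero_le_one)
    (fun x => min_le_right _ _)
  have hmix' : ∀ x : ℝ, |x| ≤ 3 / 10 →
      ζ x = ENNReal.ofReal (1 - |x|) • ζN x + ENNReal.ofReal |x| • ζE x := by
    intro x hx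
    have := hmix x
    rw [min_eq_left (by linarith)] at this
    exact this
  have hmap : ∀ x : ℝ, |x| ≤ 3 / 10 → ∀ f : (Fin 4 → ℝ) → ℝ, Measurable f →
      (ζ x).map f = ENNReal.ofReal (1 - |x|) • (ζN x).map f + ENNReal.ofReal |x| • (ζE x).map f := by
    intro x hx f hf
    rw [hmix' x hx, Measure.map_add _ _ hf, Measure.map_smul, Measure.map_smul]
  have hlm : ∀ u : Fin 4 → ℤ, Measurable (lin u) := B5_measurable_lin
  -- supports
  have hNsupp : ∀ x : ℝ, |x| ≤ 3 / 10 → Supp (ζN x) x := by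
    intro x hx
    have hx1 : 0 ≤ 1 - |x| := by linarith
    apply (hNs x).1
    apply (hN x).1 x (vN4_sum x) (dN4_sum x)
    intro i
    rw [vN4_norm x hx i]
    fin_cases i
    · simp only [Fin.zero_eta, Fin.isValue, ↓reduceIte, dN4, Matrix.cons_val_zero]
      rw [Real.sqrt_sq hx1]
      linarith
    · simp [dN4]
    · simp [dN4]
    · simp [dN4]
  have hEsupp : ∀ x : ℝ, |x| ≤ 3 / 10 → x ≠ 0 → Supp (ζE x) x := by
    intro x hx hx0
    have hx1 : 0 ≤ 1 - |x| := by linarith
    have heps : |eps x| = 1 := by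
      unfold eps
      split_ifs <;> simp
    apply (hEs x).1
    apply (hE x).1 x (vE4_sum x) (dE4_sum x hx0)
    intro i
    rw [vE4_norm x hx i]
    fin_cases i
    · simp only [Fin.zero_eta, Fin.isValue, dE4, Matrix.cons_val_zero]
      rw [Real.sqrt_sq (abs_nonneg x), abs_mul, heps, one_mul, abs_of_nonneg hx1]
      linarith
    · simp [dE4]
    · simp only [Fin.reduceFinMk, Fin.isValue, dE4, Matrix.cons_val]
      rw [Real.sqrt_sq (by norm_num), abs_div, abs_neg, heps]
      norm_num
    · simp only [Fin.reduceFinMk, Fin.isValue, dE4, Matrix.cons_val]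
      rw [Real.sqrt_sq (by norm_num), abs_div, abs_neg, heps]
      norm_num
  -- constant bounds
  have hNload : ∀ x : ℝ, |x| ≤ 3 / 10 → ∀ u : Fin 4 → ℤ, Rich u → ∀ L : ℝ, 0 < L →
      (∀ σ : Equiv.Perm (Fin 4), L ≤ vsq (vN4 x) (u ∘ σ)) →
      HasLoad ((ζN x).map (lin u)) (fun _ => ENNReal.ofReal (1 / Real.sqrt L)) := by
    intro x hx u hu L hL hσ
    have h1 := (hNs x).2.1 u (fun _ _ => ENNReal.ofReal (1 / Real.sqrt L))
      (fun σ => measurable_const) (fun σ => by
        have h2 := (hN x).2 (u ∘ σ) (hL.trans_le (hσ σ))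
        refine h2.mono (fun z => F4_ker_le _ _ _ _ ?_ (by positivity))
        apply one_div_le_one_div_of_le (Real.sqrt_pos.mpr hL)
        exact Real.sqrt_le_sqrt (hσ σ))
    refine h1.mono (fun z => ?_)
    apply F4_avg (fun _ => 1 / Real.sqrt L) (fun _ => by positivity)
    rw [Finset.sum_const, Finset.card_univ, Fintype.card_perm, Fintype.card_fin]
    norm_num [Nat.factorial]
  have hEload : ∀ x : ℝ, |x| ≤ 3 / 10 → x ≠ 0 → ∀ u : Fin 4 → ℤ, Rich u → ∀ L : ℝ,
      (∑ σ : Equiv.Perm (Fin 4), 1 / Real.sqrt (qE4 |x| (u ∘ σ))) / 24 ≤ L →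
      HasLoad ((ζE x).map (lin u)) (fun _ => ENNReal.ofReal L) := by
    intro x hx hx0 u hu L hL
    have hρ : 0 < |x| := abs_pos.mpr hx0
    have h1 := (hEs x).2.1 u (fun σ _ => ENNReal.ofReal (1 / Real.sqrt (qE4 |x| (u ∘ σ))))
      (fun σ => measurable_const) (fun σ => by
        have h3 : vsq (vE4 x) (u ∘ σ) = qE4 |x| (u ∘ σ) := vsq_E4 x hx (u ∘ σ)
        have h4 := qE4_pos |x| hρ hx (u ∘ σ) (F4_rich_comp u σ hu)
        have h2 := (hE x).2 (u ∘ σ) (by rw [h3]; exact h4)
        refine h2.mono (fun z => F4_ker_le _ _ _ _ ?_ (by positivity))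
        rw [h3])
    refine h1.mono (fun z => ?_)
    exact F4_avg (fun σ => 1 / Real.sqrt (qE4 |x| (u ∘ σ))) (fun _ => by positivity) L hL
  have hN2 : ∀ x : ℝ, |x| ≤ 3 / 10 → ∀ u : Fin 4 → ℤ, Rich u →
      HasLoad ((ζN x).map (lin u))
        (fun _ => ENNReal.ofReal (1 / Real.sqrt (1 + (1 - |x|) ^ 2 / 3))) := by
    intro x hx u hu
    apply hNload x hx u hu _ (by positivity)
    intro σ
    rw [vsq_N4 x hx]
    exact qN4_rich (1 - |x|) (by linarith) (by linarith [abs_nonneg x]) (u ∘ σ)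
      (F4_rich_comp u σ hu)
  have hN3 : ∀ x : ℝ, |x| ≤ 3 / 10 → ∀ u : Fin 4 → ℤ, Rich u →
      (∃ i j k, u i ≠ u j ∧ u i ≠ u k ∧ u j ≠ u k) →
      HasLoad ((ζN x).map (lin u))
        (fun _ => ENNReal.ofReal (1 / Real.sqrt (1 + 5 * (1 - |x|) ^ 2 / 3))) := by
    intro x hx u hu h3
    apply hNload x hx u hu _ (by positivity)
    intro σ
    rw [vsq_N4 x hx]
    exact qN4_three (1 - |x|) (by linarith) (by linarith [abs_nonneg x]) (u ∘ σ)
      (F4_rich_comp u σ hu) (F4_three_comp u σ h3)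
  refine ⟨ζ, hζ, ⟨?_, ?_, ?_, ?_⟩, ?_, ?_⟩
  · -- supp
    intro x hx
    unfold Supp
    rw [hmix' x hx, ae_add_measure_iff]
    refine ⟨Measure.ae_smul_measure (hNsupp x hx) _, ?_⟩
    by_cases hx0 : x = 0
    · subst hx0
      simp
    · exact Measure.ae_smul_measure (hEsupp x hx hx0) _
  · -- single
    intro x hx i
    have hx1 : 0 < 1 - |x| := by linarith
    rw [hmap x hx _ (measurable_pi_apply i)]
    have hNi := (hNs x).2.2 (fun j => ker (dN4 x j) (if j = 0 then 1 - |x| else 1))
      (fun j => F4_ker_measurable _ _) (fun j => F4_coord (vN4 x) (dN4 x) (κN x) (hN x).2 j _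
        (by split_ifs <;> linarith) (vN4_norm x hx j)) i
    have hNi' : HasLoad ((ζN x).map (fun y => y i))
        (fun z => (ker x (1 - |x|) z + ker 0 1 z + ker 0 1 z + ker 0 1 z) / 4) := by
      refine hNi.mono (fun z => le_of_eq ?_)
      rw [Fin.sum_univ_four]
      simp [dN4]
    by_cases hx0 : x = 0
    · subst hx0
      simp only [abs_zero, sub_zero, ENNReal.ofReal_one, one_smul, ENNReal.ofReal_zero,
        zero_smul, add_zero, mul_zero] at hNi' ⊢
      refine hNi'.mono (fun z => ?_)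
      unfold ker sprof
      simp only [sub_zero, add_zero, div_one, ENNReal.ofReal_one, ite_self]
      split_ifs
      · have : (1 + 1 + 1 + 1 : ℝ≥0∞) = 4 := by norm_num
        rw [this, ENNReal.div_self (by norm_num) (by norm_num)]
      · simp
    · have hρ : 0 < |x| := abs_pos.mpr hx0
      have hEi := (hEs x).2.2 (fun j => ker (dE4 x j) (![|x|, 1, 1 / 2, 1 / 2] j))
        (fun j => F4_ker_measurable _ _) (fun j => F4_coord (vE4 x) (dE4 x) (κE x) (hE x).2 j _
          (by fin_cases j <;> simp [hx0]) (vE4_norm x hx j)) i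
      have hEi' : HasLoad ((ζE x).map (fun y => y i))
          (fun z => (ker (eps x * (1 - |x|)) |x| z + ker 0 1 z + ker (-eps x / 2) (1 / 2) z +
            ker (-eps x / 2) (1 / 2) z) / 4) := by
        refine hEi.mono (fun z => le_of_eq ?_)
        rw [Fin.sum_univ_four]
        simp [dE4]
      have hmN : Measurable (fun z => (ker x (1 - |x|) z + ker 0 1 z + ker 0 1 z + ker 0 1 z) / 4) :=
        ((((F4_ker_measurable _ _).add (F4_ker_measurable _ _)).add (F4_ker_measurable _ _)).add
          (F4_ker_measurable _ _)).div_const 4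
      have hmE : Measurable (fun z => (ker (eps x * (1 - |x|)) |x| z + ker 0 1 z +
          ker (-eps x / 2) (1 / 2) z + ker (-eps x / 2) (1 / 2) z) / 4) :=
        ((((F4_ker_measurable _ _).add (F4_ker_measurable _ _)).add (F4_ker_measurable _ _)).add
          (F4_ker_measurable _ _)).div_const 4
      have := HasLoad.add_smul hmN hmE hNi' hEi' (ENNReal.ofReal (1 - |x|)) (ENNReal.ofReal |x|)
        ENNReal.ofReal_ne_top ENNReal.ofReal_ne_top
      refine this.mono_ae ?_
      have hae : ∀ a : ℝ, ∀ᵐ z : ℝ, z ≠ a := fun a => by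
        rw [ae_iff]
        simp
      filter_upwards [hae 0, hae (2 * x - 1), hae (2 * x + 1)] with z hz0 hz1 hz2
      have h := F4_profile x z hx hx0 hz0 hz1 hz2
      rw [Fintype.card_fin]
      exact_mod_cast h
  · -- rich
    intro x hx u hu
    rw [hmap x hx _ (hlm u)]
    by_cases h3 : ∃ i j k, u i ≠ u j ∧ u i ≠ u k ∧ u j ≠ u k
    · have hN3 : HasLoad ((ζN x).map (lin u))
          (fun _ => ENNReal.ofReal (1 / Real.sqrt (1 + 5 * (1 - |x|) ^ 2 / 3))) := by
        apply hNload x hx u hu _ (by positivity)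
        intro σ
        rw [vsq_N4 x hx]
        exact qN4_three (1 - |x|) (by linarith) (by linarith [abs_nonneg x]) (u ∘ σ)
          (F4_rich_comp u σ hu) (F4_three_comp u σ h3)
      by_cases hx0 : x = 0
      · have h2 := F4_mix (abs_nonneg x) (by linarith) (by positivity) le_rfl (hN2 x hx u hu)
          (fun h => absurd (by rw [hx0]; simp) h) (ν := (ζE x).map (lin u)) (M := 0)
        refine h2.mono (fun z => ENNReal.ofReal_le_ofReal ?_)
        have := P4_two |x| (abs_nonneg x) hx
        rw [hx0] at this ⊢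
        simpa using this
      · have hρ : 0 < |x| := abs_pos.mpr hx0
        have h2 := F4_mix (abs_nonneg x) (by linarith) (by positivity) (by positivity) hN3
          (fun _ => hEload x hx hx0 u hu _ (qE4_three |x| hρ hx u hu h3))
        refine h2.mono (fun z => ENNReal.ofReal_le_ofReal ?_)
        have := P4_three |x| hρ hx
        rw [mul_one_div]
        exact this
    · have h2 := F4_mix (abs_nonneg x) (by linarith) (by positivity) (by positivity) (hN2 x hx u hu)
          (fun h => hEload x hx (by intro h0; apply h; rw [h0, abs_zero]) u hu _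
            (qE4_two |x| (lt_of_le_of_ne (abs_nonneg x) (Ne.symm h)) hx u hu h3))
      refine h2.mono (fun z => ENNReal.ofReal_le_ofReal ?_)
      have := P4_two |x| (abs_nonneg x) hx
      rw [mul_one_div]
      exact this
  · -- partner
    intro x hx u hu ν hν M hM hload
    rw [hmap x hx _ (hlm u)]
    haveI : IsProbabilityMeasure ((ζN x).map (lin u)) :=
      Measure.isProbabilityMeasure_map (hlm u).aemeasurable
    haveI : IsProbabilityMeasure ((ζE x).map (lin u)) :=
      Measure.isProbabilityMeasure_map (hlm u).aemeasurable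
    rw [cnv_add_smul _ _ _ _ _ ENNReal.ofReal_ne_top ENNReal.ofReal_ne_top]
    have h1 : HasLoad (cnv ((ζN x).map (lin u)) ν)
        (fun _ => ENNReal.ofReal (1 / Real.sqrt (1 + (1 - |x|) ^ 2 / 3))) :=
      HasLoad.cnv_const (hN2 x hx u hu)
    have h2 : HasLoad (cnv ((ζE x).map (lin u)) ν) (fun _ => ENNReal.ofReal M) := by
      rw [cnv_comm]
      exact HasLoad.cnv_const hload
    have h3 := F4_mix (abs_nonneg x) (by linarith) (by positivity) hM h1 (fun _ => h2)
    refine h3.mono (fun z => ENNReal.ofReal_le_ofReal ?_)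
    have := n4_bound |x| (abs_nonneg x) hx
    rw [mul_one_div]
    linarith
  · -- three
    intro x hx u hu h3
    rw [hmap x hx _ (hlm u)]
    by_cases hx0 : x = 0
    · have h2 := F4_mix (abs_nonneg x) (by linarith) (by positivity) le_rfl (hN3 x hx u hu h3)
        (fun h => absurd (by rw [hx0]; simp) h) (ν := (ζE x).map (lin u)) (M := 0)
      refine h2.mono (fun z => ENNReal.ofReal_le_ofReal ?_)
      have := n3_bound |x| (abs_nonneg x) hx
      rw [mul_one_div]
      linarith [abs_nonneg x]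
    · have hρ : 0 < |x| := abs_pos.mpr hx0
      have h2 := F4_mix (abs_nonneg x) (by linarith) (by positivity) (by positivity)
        (hN3 x hx u hu h3) (fun _ => hEload x hx hx0 u hu _ (qE4_three |x| hρ hx u hu h3))
      refine h2.mono (fun z => ENNReal.ofReal_le_ofReal ?_)
      have := f3_bound |x| hρ hx
      rw [mul_one_div]
      exact this
  · -- threePartner
    intro x hx u hu h3 ν hν M hM hload
    rw [hmap x hx _ (hlm u)]
    haveI : IsProbabilityMeasure ((ζN x).map (lin u)) :=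
      Measure.isProbabilityMeasure_map (hlm u).aemeasurable
    haveI : IsProbabilityMeasure ((ζE x).map (lin u)) :=
      Measure.isProbabilityMeasure_map (hlm u).aemeasurable
    rw [cnv_add_smul _ _ _ _ _ ENNReal.ofReal_ne_top ENNReal.ofReal_ne_top]
    have h1 : HasLoad (cnv ((ζN x).map (lin u)) ν)
        (fun _ => ENNReal.ofReal (1 / Real.sqrt (1 + 5 * (1 - |x|) ^ 2 / 3))) :=
      HasLoad.cnv_const (hN3 x hx u hu h3)
    have h2 : HasLoad (cnv ((ζE x).map (lin u)) ν) (fun _ => ENNReal.ofReal M) := by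
      rw [cnv_comm]
      exact HasLoad.cnv_const hload
    have h4 := F4_mix (abs_nonneg x) (by linarith) (by positivity) hM h1 (fun _ => h2)
    refine h4.mono (fun z => ENNReal.ofReal_le_ofReal ?_)
    have := n3_bound |x| (abs_nonneg x) hx
    rw [mul_one_div]
    linarith

end Pool.Agent.helper49.Slope
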