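import Pool.Agent.helper49.Slope.DefsK
import Pool.Agent.helper49.Slope.K1
import Pool.Agent.helper49.Slope.K2

/-!
MP_aedd95_co (slope of k-fold hyperplane covers of triangular grids), module K6.
Existence of the two kernels: `κA` from `exists_polyKernelQ` with the parameter space `ℝ × Q9` (the
vectors do not depend on the first coordinate), `κB = θ.comap (fun p => p.1 - xA p.2)`. Support
from `v9_sum`, `d9_sum`, `v9_norm`.
-/

set_option autoImplicit false

open MeasureTheory ProbabilityTheory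
open scoped ENNReal

namespace Pool.Agent.helper49.Slope

theorem nine_exists (θ : Kernel ℝ (Fin 4 → ℝ)) [IsMarkovKernel θ] :
    ∃ (κA : Kernel (ℝ × Q9) (Fin 2 ⊕ Fin 3 → ℝ)) (κB : Kernel (ℝ × Q9) (Fin 4 → ℝ)),
      IsMarkovKernel κA ∧ IsMarkovKernel κB ∧ Nine θ κA κB := by
  obtain ⟨κA, hM, hκ⟩ := exists_polyKernelQ (Q := ℝ × Q9) (ι := Fin 2 ⊕ Fin 3)
    (fun p => v9 p.2) (v9_measurable.comp measurable_snd)
    (fun p => d9 p.2) (d9_measurable.comp measurable_snd)
  have hf : Measurable (fun p : ℝ × Q9 => p.1 - xA p.2) :=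
    measurable_fst.sub (xA_measurable.comp measurable_snd)
  refine ⟨κA, θ.comap (fun p : ℝ × Q9 => p.1 - xA p.2) hf, hM, inferInstance, ?_, ?_, ?_, ?_⟩
  · intro X q
    rw [Kernel.comap_apply]
  · intro X q hq
    exact (hκ (X, q)).1 (xA q) (fun k => v9_sum q k) (d9_sum q) (fun i => v9_norm q hq i)
  · intro X q _ u hu
    exact (hκ (X, q)).2.1 u hu
  · intro X q _ u hu
    exact (hκ (X, q)).2.2 u hu

end Pool.Agent.helper49.Slope
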