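import Pool.Agent.helper49.Slope.DefsK
import Pool.Agent.helper49.Slope.K1
import Pool.Agent.helper49.Slope.K4
import Pool.Agent.helper49.Slope.K5
import Pool.Agent.helper49.Slope.J1
import Pool.Agent.helper49.Slope.B7f
import Pool.Agent.helper49.Slope.E2
import Pool.Agent.helper49.Slope.B2a
import Pool.Agent.helper49.Slope.B2b
import Pool.Agent.helper49.Slope.B3
import Pool.Agent.helper49.Slope.B5

/-!
MP_aedd95_co (slope of k-fold hyperplane covers of triangular grids), module K9.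
One element of the pair, one or two units, one element of the block of size 4.

Let the element of the pair have vector length `c` (`ca` or `cb`), so `D = ±η (1-c)` and
`V² = 1 + c'²/3 - 2 ca cb/3` with `c' ∈ {ca, cb}`; in all cases `V² ∈ [383/432, 137/144]`,
`0.94158 ≤ V ≤ 0.9754`. Given `q` the variable of the block of size 4 has load
`≤ (1+ρ/2) 1_{[-1,1]}`, `ρ = |X - xA q|`, and the variable of 5* is uniform on `[D-V, D+V]`; the sum
has load at `z` at most `(1+ρ/2) len(z-D)/(2V)`, `len(y) = |[y-V, y+V] ∩ [-1,1]| ≤ max(0, V+1-|y|)`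
and `len ≤ 2V`. Average over the sign `η` (`D = ±d`, `d = 1-c`):
`len(z-d) + len(z+d) ≤ 2 (V+1-d) = 2 (V + c)`: if both `V+1-|z∓d| ≥ 0` because
`|z-d| + |z+d| ≥ 2d`, if one `len` vanishes because the other is `≤ 2V`. So the average load is at
most `(V+c)/(2V) + (ρ₊ + ρ₋)/4` with `ρ_± = |X - (±1)(s₂-s₁)|` (using `len/(2V) ≤ 1` in the error
term), i.e. after integration over `pi9` at most `1/2 + E[c]/(2·0.94158) + E[ρ]/2
≤ 0.5 + 0.26799 + 0.04223 = 0.81022` (`E c = 0.50463`, `E ρ ≤ 0.08445`).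
-/

set_option autoImplicit false

open MeasureTheory ProbabilityTheory
open scoped ENNReal

namespace Pool.Agent.helper49.Slope

/-- length of `[y-V, y+V] ∩ [-1,1]` -/
noncomputable def K9_len (V y : ℝ) : ℝ := max 0 (min (y + V) 1 - max (y - V) (-1))

theorem K9_len_nonneg (V y : ℝ) : 0 ≤ K9_len V y := le_max_left _ _

theorem K9_len_le {V : ℝ} (hV : 0 ≤ V) (y : ℝ) : K9_len V y ≤ 2 * V := by
  unfold K9_len
  apply max_le (by linarith)
  have h1 := min_le_left (y + V) 1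
  have h2 := le_max_left (y - V) (-1)
  linarith

theorem K9_len_le' (V y : ℝ) : K9_len V y ≤ max 0 (V + 1 - |y|) := by
  unfold K9_len
  apply max_le (le_max_left _ _)
  refine le_trans ?_ (le_max_right _ _)
  have h1 := min_le_left (y + V) 1
  have h2 := le_max_left (y - V) (-1)
  have h3 := min_le_right (y + V) 1
  have h4 := le_max_right (y - V) (-1)
  rcases abs_cases y with ⟨h, _⟩ | ⟨h, _⟩
  · rw [h]
    linarith
  · rw [h]
    linarith

theorem K9_len_add {V d : ℝ} (hV : 0 ≤ V) (hd : |d| ≤ 1) (z : ℝ) :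
    K9_len V (z - d) + K9_len V (z + d) ≤ 2 * (V + 1 - |d|) := by
  have h1 := K9_len_le hV (z - d)
  have h2 := K9_len_le hV (z + d)
  have h3 := K9_len_le' V (z - d)
  have h4 := K9_len_le' V (z + d)
  have h5 : 2 * |d| ≤ |z - d| + |z + d| := by
    rcases abs_cases d with ⟨h, _⟩ | ⟨h, _⟩
    · rw [h]
      have := neg_abs_le (z - d)
      have := le_abs_self (z + d)
      linarith
    · rw [h]
      have := le_abs_self (z - d)
      have := neg_abs_le (z + d)
      linarith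
  rcases le_total 0 (V + 1 - |z - d|) with h6 | h6
  · rcases le_total 0 (V + 1 - |z + d|) with h7 | h7
    · rw [max_eq_right h6] at h3
      rw [max_eq_right h7] at h4
      linarith
    · rw [max_eq_left h7] at h4
      linarith
  · rw [max_eq_left h6] at h3
    linarith

theorem K9_len_measurable {Q : Type} [MeasurableSpace Q] {V y : Q → ℝ} (hV : Measurable V)
    (hy : Measurable y) : Measurable (fun q => K9_len (V q) (y q)) := by
  unfold K9_len
  fun_prop

/-- uniform law plus a variable of profile `sprof a` -/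
theorem K9_conv {μ ν : Measure ℝ} [IsProbabilityMeasure μ] [IsProbabilityMeasure ν] {D V a : ℝ}
    (hV : 0 < V) (hμ : HasLoad μ (ker D V)) (hν : HasLoad ν (sprof a)) :
    HasLoad (cnv μ ν)
      (fun z => ENNReal.ofReal ((1 + |a|) / (2 * V) * K9_len V (z - D))) := by
  refine (HasLoad.cnv (ν := ν) (B5_measurable_ker D V) hμ).mono fun z => ?_
  have hm : Measurable (fun y : ℝ => ker D V (z - y)) :=
    (B5_measurable_ker D V).comp (by fun_prop)
  have h0 : (0 : ℝ) ≤ (1 + |a|) / (2 * V) := by positivity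
  refine (lintegral_mono' hν le_rfl).trans ?_
  rw [lintegral_withDensity_eq_lintegral_mul _ ((B3_measurable_sprof a).div_const 2) hm]
  have h1 : ∀ y, ((fun y => sprof a y / 2) * fun y => ker D V (z - y)) y ≤
      (Set.Icc (max (z - D - V) (-1)) (min (z - D + V) 1)).indicator
        (fun _ => ENNReal.ofReal ((1 + |a|) / (2 * V))) y := by
    intro y
    simp only [Pi.mul_apply]
    by_cases hy : y ∈ Set.Icc (max (z - D - V) (-1)) (min (z - D + V) 1)
    · rw [Set.indicator_of_mem hy]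
      have h2 : sprof a y ≤ ENNReal.ofReal (1 + |a|) := E2_sprof_le
      have h3 : ker D V (z - y) ≤ ENNReal.ofReal (1 / V) := by
        unfold ker
        split_ifs
        · exact le_rfl
        · exact zero_le
      calc sprof a y / 2 * ker D V (z - y)
          ≤ ENNReal.ofReal (1 + |a|) / 2 * ENNReal.ofReal (1 / V) := by gcongr
        _ = ENNReal.ofReal ((1 + |a|) / (2 * V)) := by
            rw [B3_ofReal_half, ← ENNReal.ofReal_mul (by positivity)]
            congr 1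
            field_simp
    · rw [Set.indicator_of_notMem hy]
      have h4 : sprof a y = 0 ∨ ker D V (z - y) = 0 := by
        by_contra hcon
        push Not at hcon
        obtain ⟨ha, hb⟩ := hcon
        have h5 : |y| ≤ 1 := by
          by_contra hh
          exact ha (by unfold sprof; rw [if_neg hh])
        have h6 : |z - y - D| ≤ V := by
          by_contra hh
          exact hb (by unfold ker; rw [if_neg hh])
        apply hy
        rw [abs_le] at h5 h6
        constructor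
        · exact max_le (by linarith) (by linarith)
        · exact le_min (by linarith) (by linarith)
      rcases h4 with h4 | h4
      · rw [h4]
        simp
      · rw [h4]
        simp
  refine (lintegral_mono h1).trans ?_
  rw [lintegral_indicator measurableSet_Icc, setLIntegral_const, Real.volume_Icc,
    ← ENNReal.ofReal_mul h0]
  apply ENNReal.ofReal_le_ofReal
  apply mul_le_mul_of_nonneg_left _ h0
  exact le_max_right _ _

/-- length of the vector -/
noncomputable def K9_V (c' : Q9 → ℝ) (q : Q9) : ℝ :=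
  Real.sqrt (1 + c' q ^ 2 / 3 - 2 * (ca q * cb q) / 3)

theorem K9_V_sq {x y : ℝ} (hx : |x| ≤ 1 / 12) (hy : |y| ≤ 1 / 12) :
    (383 : ℝ) / 432 ≤ 1 + (1 / 2 + x) ^ 2 / 3 - 2 * ((1 / 2 + x) * (1 / 2 + y)) / 3 := by
  rw [abs_le] at hx hy
  nlinarith [hx.1, hx.2, hy.1, hy.2,
    mul_nonneg (by linarith [hx.1] : (0 : ℝ) ≤ 1 / 12 + x)
      (by linarith [hy.2] : (0 : ℝ) ≤ 1 / 12 - y),
    mul_nonneg (by linarith [hx.2] : (0 : ℝ) ≤ 1 / 12 - x)
      (by linarith [hy.2] : (0 : ℝ) ≤ 1 / 12 - y),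
    sq_nonneg (1 / 12 - x)]

theorem K9_V_bd {q : Q9} (h1 : |q.1.1| ≤ 1 / 12) (h2 : |q.1.2| ≤ 1 / 12) {c' : Q9 → ℝ}
    (hc' : c' = ca ∨ c' = cb) : 0 < K9_V c' q ∧ 1 / K9_V c' q ≤ 10621 / 10000 := by
  have h3 : (383 : ℝ) / 432 ≤ 1 + c' q ^ 2 / 3 - 2 * (ca q * cb q) / 3 := by
    rcases hc' with rfl | rfl
    · exact K9_V_sq h1 h2
    · have := K9_V_sq h2 h1
      unfold ca cb
      rw [mul_comm (1 / 2 + q.1.1)]
      exact this
  have h4 : (10000 : ℝ) / 10621 ≤ K9_V c' q := by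
    unfold K9_V
    apply Real.le_sqrt_of_sq_le
    refine le_trans ?_ h3
    norm_num
  constructor
  · exact lt_of_lt_of_le (by norm_num) h4
  · rw [div_le_iff₀ (lt_of_lt_of_le (by norm_num) h4)]
    rw [div_le_iff₀ (by norm_num)] at h4
    linarith

theorem K9_ca_meas : Measurable ca := by
  unfold ca
  fun_prop

theorem K9_cb_meas : Measurable cb := by
  unfold cb
  fun_prop

theorem K9_c_meas {c : Q9 → ℝ} (hc : c = ca ∨ c = cb) : Measurable c := by
  rcases hc with rfl | rfl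
  · exact K9_ca_meas
  · exact K9_cb_meas

theorem K9_V_meas {c' : Q9 → ℝ} (hc' : c' = ca ∨ c' = cb) : Measurable (K9_V c') := by
  have h1 := K9_ca_meas
  have h2 := K9_cb_meas
  have h3 := K9_c_meas hc'
  unfold K9_V
  fun_prop

theorem K9_xA_meas : Measurable xA := by
  unfold xA
  fun_prop

/-- the load given `q` -/
noncomputable def K9_f (c c' : Q9 → ℝ) (e X : ℝ) (q : Q9) (z : ℝ) : ℝ :=
  (1 + |X - xA q| / 2) / (2 * K9_V c' q) * K9_len (K9_V c' q) (z - e * (q.2 * (1 - c q)))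

theorem K9_f_meas {c c' : Q9 → ℝ} (hc : c = ca ∨ c = cb) (hc' : c' = ca ∨ c' = cb) (e X : ℝ) :
    Measurable (Function.uncurry (fun (q : Q9) (z : ℝ) => ENNReal.ofReal (K9_f c c' e X q z))) := by
  have h1 := K9_c_meas hc
  have h2 := K9_V_meas hc'
  have h3 := K9_xA_meas
  have h4 : Measurable (fun p : Q9 × ℝ =>
      K9_len (K9_V c' p.1) (p.2 - e * (p.1.2 * (1 - c p.1)))) :=
    K9_len_measurable (by fun_prop) (by fun_prop)
  refine ENNReal.measurable_ofReal.comp ?_
  unfold K9_f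
  refine Measurable.mul ?_ h4
  have h5 : Measurable (fun p : Q9 × ℝ => 2 * K9_V c' p.1) := by fun_prop
  have h6 : Measurable (fun p : Q9 × ℝ => 1 + |X - xA p.1| / 2) := by
    have h7 : Measurable (fun p : Q9 × ℝ => X - xA p.1) := by fun_prop
    exact (measurable_const.add ((continuous_abs.measurable.comp h7).div_const 2))
  exact h6.div h5

/-- the real inequality -/
theorem K9_real {V c r1 r2 L1 L2 : ℝ} (hV : 0 < V) (hV1 : 1 / V ≤ 10621 / 10000) (hc : 0 ≤ c)
    (hr1 : 0 ≤ r1) (hr2 : 0 ≤ r2) (h1 : L1 ≤ 2 * V) (h2 : L2 ≤ 2 * V)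
    (h : L1 + L2 ≤ 2 * (V + c)) :
    (1 + r1 / 2) / (2 * V) * L1 + (1 + r2 / 2) / (2 * V) * L2 ≤
      1 + 10621 / 10000 * c + r1 / 2 + r2 / 2 := by
  have e1 : ∀ r L : ℝ, (1 + r / 2) / (2 * V) * L = L / (2 * V) + r / 2 * (L / (2 * V)) := by
    intro r L
    field_simp
  have h2V : 0 < 2 * V := by linarith
  have e2 : L1 / (2 * V) ≤ 1 := (div_le_one h2V).2 h1
  have e3 : L2 / (2 * V) ≤ 1 := (div_le_one h2V).2 h2
  have e4 : L1 / (2 * V) + L2 / (2 * V) ≤ 1 + 10621 / 10000 * c := by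
    rw [← add_div]
    have : (L1 + L2) / (2 * V) ≤ 2 * (V + c) / (2 * V) := by gcongr
    refine this.trans ?_
    have e5 : 2 * (V + c) / (2 * V) = 1 + 1 / V * c := by field_simp
    rw [e5]
    have := mul_le_mul_of_nonneg_right hV1 hc
    linarith
  rw [e1, e1]
  have e6 : r1 / 2 * (L1 / (2 * V)) ≤ r1 / 2 * 1 := mul_le_mul_of_nonneg_left e2 (by linarith)
  have e7 : r2 / 2 * (L2 / (2 * V)) ≤ r2 / 2 * 1 := mul_le_mul_of_nonneg_left e3 (by linarith)
  linarith

/-- the majorant -/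
noncomputable def K9_G (c : Q9 → ℝ) (X : ℝ) (q : Q9) : ℝ≥0∞ :=
  ENNReal.ofReal (613 / 1000 + |X - xA q| * (1 / 2)) +
    ENNReal.ofReal (10621 / 20000 * c q - 113 / 1000)

theorem K9_point {c c' : Q9 → ℝ} (hc : c = ca ∨ c = cb) (hc' : c' = ca ∨ c' = cb) {e : ℝ}
    (he : e = 1 ∨ e = -1) (X z : ℝ) (s : ℝ × ℝ) (h1 : |s.1| ≤ 1 / 12) (h2 : |s.2| ≤ 1 / 12) :
    ENNReal.ofReal (K9_f c c' e X (s, 1) z) + ENNReal.ofReal (K9_f c c' e X (s, -1) z) ≤
      K9_G c X (s, 1) + K9_G c X (s, -1) := by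
  obtain ⟨hV, hV1⟩ := K9_V_bd (q := (s, 1)) h1 h2 hc'
  have hVV : K9_V c' (s, -1) = K9_V c' (s, 1) := by
    rcases hc' with rfl | rfl <;> rfl
  have hcc : c (s, -1) = c (s, 1) := by
    rcases hc with rfl | rfl <;> rfl
  have hcb : 5 / 12 ≤ c (s, 1) ∧ c (s, 1) ≤ 7 / 12 := by
    rw [abs_le] at h1 h2
    rcases hc with rfl | rfl
    · unfold ca
      constructor
      · linarith [h1.1]
      · linarith [h1.2]
    · unfold cb
      constructor
      · linarith [h2.1]
      · linarith [h2.2]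
  set V := K9_V c' (s, 1) with hVd
  set γ := c (s, 1) with hγ
  have hr1 := abs_nonneg (X - xA (s, 1))
  have hr2 := abs_nonneg (X - xA (s, -1))
  have hab : |e * (1 - γ)| = 1 - γ := by
    rw [abs_mul]
    have : |e| = 1 := by rcases he with rfl | rfl <;> norm_num
    rw [this, one_mul, abs_of_nonneg (by linarith [hcb.2])]
  have hadd := K9_len_add hV.le (d := e * (1 - γ)) (by rw [hab]; linarith [hcb.1]) z
  rw [hab] at hadd
  have e1 : K9_f c c' e X (s, 1) z =
      (1 + |X - xA (s, 1)| / 2) / (2 * V) * K9_len V (z - e * (1 - γ)) := by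
    unfold K9_f
    rw [← hVd, ← hγ, one_mul]
  have e2 : K9_f c c' e X (s, -1) z =
      (1 + |X - xA (s, -1)| / 2) / (2 * V) * K9_len V (z + e * (1 - γ)) := by
    unfold K9_f
    rw [hVV, hcc]
    congr 2
    ring
  have key := K9_real hV hV1 (by linarith [hcb.1] : 0 ≤ γ) hr1 hr2
    (K9_len_le hV.le (z - e * (1 - γ))) (K9_len_le hV.le (z + e * (1 - γ))) (by linarith)
  unfold K9_G
  rw [hcc, ← hγ, e1, e2]
  have hn := K9_len_nonneg V (z - e * (1 - γ))
  have hn' := K9_len_nonneg V (z + e * (1 - γ))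
  rw [← ENNReal.ofReal_add (by positivity) (by positivity),
    ← ENNReal.ofReal_add (by positivity) (by linarith [hcb.1]),
    ← ENNReal.ofReal_add (by positivity) (by linarith [hcb.1]),
    ← ENNReal.ofReal_add (by linarith [hcb.1]) (by linarith [hcb.1])]
  apply ENNReal.ofReal_le_ofReal
  refine key.trans (le_of_eq ?_)
  ring

theorem K9_prod (F : Q9 → ℝ≥0∞) (hF : Measurable F) :
    ∫⁻ q, F q ∂pi9 =
      ∫⁻ s, (F (s, 1) + F (s, -1)) / 2 ∂((lam (1 / 12)).prod (lam (1 / 12))) := by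
  have := sgnM_prob
  unfold pi9
  rw [lintegral_prod _ hF.aemeasurable]
  refine lintegral_congr fun s => ?_
  exact lintegral_sgnM (fun η => F (s, η)) (hF.comp measurable_prodMk_left)

theorem K9_ae : ∀ᵐ s ∂((lam (1 / 12)).prod (lam (1 / 12))), |s.1| ≤ 1 / 12 ∧ |s.2| ≤ 1 / 12 := by
  have := lam_prob (τ := 1 / 12) (by norm_num) (by norm_num)
  have h1 := (Measure.quasiMeasurePreserving_fst (μ := lam (1 / 12)) (ν := lam (1 / 12))).ae
    (lam_ae (1 / 12))
  have h2 := (Measure.quasiMeasurePreserving_snd (μ := lam (1 / 12)) (ν := lam (1 / 12))).ae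
    (lam_ae (1 / 12))
  filter_upwards [h1, h2] with s hs1 hs2
  exact ⟨hs1, hs2⟩

theorem K9_Ec {c : Q9 → ℝ} (hc : c = ca ∨ c = cb) :
    ∫⁻ q, ENNReal.ofReal (10621 / 20000 * c q - 113 / 1000) ∂pi9 ≤
      ENNReal.ofReal (15499 / 100000) := by
  have hl := lam_prob (τ := 1 / 12) (by norm_num) (by norm_num)
  have hcm := K9_c_meas hc
  rw [K9_prod _ (by fun_prop)]
  have hm := lam_moment (τ := 1 / 12) (by norm_num) (by norm_num)
    (10621 / 40000 - 113 / 1000) (10621 / 20000) 0 (by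
      intro s hs
      rw [abs_le] at hs
      linarith [hs.1])
  have hh : ∀ x : ℝ, (ENNReal.ofReal x + ENNReal.ofReal x) / 2 = ENNReal.ofReal x := by
    intro x
    rw [← two_mul, mul_comm, ENNReal.mul_div_cancel_right (by norm_num) (by norm_num)]
  rcases hc with rfl | rfl
  · have h1 : ∀ s : ℝ × ℝ, (ENNReal.ofReal (10621 / 20000 * ca (s, 1) - 113 / 1000) +
        ENNReal.ofReal (10621 / 20000 * ca (s, -1) - 113 / 1000)) / 2 =
        ENNReal.ofReal (10621 / 40000 - 113 / 1000 + 10621 / 20000 * s.1 + 0 * s.1 ^ 2) := by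
      intro s
      have e : ca (s, -1) = ca (s, 1) := rfl
      rw [e, hh]
      congr 1
      unfold ca
      ring
    simp only [h1]
    rw [lintegral_prod _ (by fun_prop)]
    simp only [lintegral_const, measure_univ, mul_one]
    rw [hm]
    apply ENNReal.ofReal_le_ofReal
    norm_num
  · have h1 : ∀ s : ℝ × ℝ, (ENNReal.ofReal (10621 / 20000 * cb (s, 1) - 113 / 1000) +
        ENNReal.ofReal (10621 / 20000 * cb (s, -1) - 113 / 1000)) / 2 =
        ENNReal.ofReal (10621 / 40000 - 113 / 1000 + 10621 / 20000 * s.2 + 0 * s.2 ^ 2) := by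
      intro s
      have e : cb (s, -1) = cb (s, 1) := rfl
      rw [e, hh]
      congr 1
      unfold cb
      ring
    simp only [h1]
    rw [lintegral_prod _ (by fun_prop)]
    simp only [hm, lintegral_const, measure_univ, mul_one]
    apply ENNReal.ofReal_le_ofReal
    norm_num

theorem K9_G_meas {c : Q9 → ℝ} (hc : c = ca ∨ c = cb) (X : ℝ) : Measurable (K9_G c X) := by
  have h1 := K9_c_meas hc
  have h3 := K9_xA_meas
  unfold K9_G
  have h7 : Measurable (fun q : Q9 => |X - xA q|) :=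
    continuous_abs.measurable.comp (measurable_const.sub h3)
  fun_prop

/-- the integral -/
theorem K9_core {c c' : Q9 → ℝ} (hc : c = ca ∨ c = cb) (hc' : c' = ca ∨ c' = cb) {e : ℝ}
    (he : e = 1 ∨ e = -1) {X : ℝ} (hX : |X| ≤ 1 / 20) (z : ℝ) :
    ∫⁻ q, ENNReal.ofReal (K9_f c c' e X q z) ∂pi9 ≤ ENNReal.ofReal (811 / 1000) := by
  have hfm : Measurable (fun q : Q9 => ENNReal.ofReal (K9_f c c' e X q z)) :=
    (K9_f_meas hc hc' e X).of_uncurry_right
  have h1 : ∫⁻ q, ENNReal.ofReal (K9_f c c' e X q z) ∂pi9 ≤ ∫⁻ q, K9_G c X q ∂pi9 := by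
    rw [K9_prod _ hfm, K9_prod _ (K9_G_meas hc X)]
    refine lintegral_mono_ae ?_
    filter_upwards [K9_ae] with s hs
    exact ENNReal.div_le_div_right (K9_point hc hc' he X z s hs.1 hs.2) 2
  refine h1.trans ?_
  unfold K9_G
  have h3 := K9_xA_meas
  have h7 : Measurable (fun q : Q9 => |X - xA q|) :=
    continuous_abs.measurable.comp (measurable_const.sub h3)
  rw [lintegral_add_left (by fun_prop)]
  refine (add_le_add (nine_I5 X hX (1 / 2) (by norm_num)) (K9_Ec hc)).trans ?_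
  rw [← ENNReal.ofReal_add (by norm_num) (by norm_num)]
  apply ENNReal.ofReal_le_ofReal
  norm_num

theorem K9_abs {q : Q9} (hq : Val q) {X : ℝ} (hX : |X| ≤ 1 / 20) : |X - xA q| ≤ 3 / 10 := by
  obtain ⟨h1, h2, h3⟩ := hq
  have h4 : |xA q| ≤ 1 / 6 := by
    unfold xA
    rw [abs_mul]
    have : |q.2| = 1 := by rcases h3 with h | h <;> rw [h] <;> norm_num
    rw [this, one_mul]
    exact (abs_sub _ _).trans (by linarith)
  exact (abs_sub _ _).trans (by linarith)

theorem K9_main {θ : Kernel ℝ (Fin 4 → ℝ)} [IsMarkovKernel θ]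
    {κA : Kernel (ℝ × Q9) (Fin 2 ⊕ Fin 3 → ℝ)} {κB : Kernel (ℝ × Q9) (Fin 4 → ℝ)}
    [IsMarkovKernel κA] [IsMarkovKernel κB] (hθ : Blk4x θ) (h9 : Nine θ κA κB) {X : ℝ}
    (hX : |X| ≤ 1 / 20) (v : I9 → ℤ) {c c' : Q9 → ℝ} (hc : c = ca ∨ c = cb)
    (hc' : c' = ca ∨ c' = cb) {e : ℝ} (he : e = 1 ∨ e = -1)
    (hV : ∀ q, Val q → vsq (v9 q) (fun i => v (Sum.inl i)) =
      1 + c' q ^ 2 / 3 - 2 * (ca q * cb q) / 3)
    (hD : ∀ q, ∑ i, (v (Sum.inl i) : ℝ) * d9 q i = e * (q.2 * (1 - c q)))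
    (i0 : Fin 4) (hB : ∀ i, v (Sum.inr i) = if i = i0 then 1 else 0) :
    HasLoad (pairLaw κA κB pi9 X v) (fun _ => ENNReal.ofReal (811 / 1000)) := by
  have hpi := pi9_prob
  refine (pairLaw_load κA κB pi9 X v (fun q z => ENNReal.ofReal (K9_f c c' e X q z))
    (K9_f_meas hc hc' e X) ?_).mono fun z => K9_core hc hc' he hX z
  filter_upwards [pi9_val] with q hq
  obtain ⟨hVp, hV1⟩ := K9_V_bd hq.1 hq.2.1 hc'
  have hVs : Real.sqrt (vsq (v9 q) (fun i => v (Sum.inl i))) = K9_V c' q := by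
    rw [hV q hq]
    rfl
  have hpos : 0 < vsq (v9 q) (fun i => v (Sum.inl i)) := by
    apply Real.sqrt_pos.1
    rw [hVs]
    exact hVp
  have h1 := h9.load X q hq (fun i => v (Sum.inl i)) hpos
  rw [hVs, hD q] at h1
  have h2 := hθ.blk.single (X - xA q) (K9_abs hq hX) i0
  have h3 : (κB (X, q)).map (lin (fun i => v (Sum.inr i))) =
      (θ (X - xA q)).map (fun y => y i0) := by
    rw [h9.kB]
    congr 1
    funext y
    unfold lin
    simp [hB]
  rw [h3]
  have hp1 : IsProbabilityMeasure ((κA (X, q)).map (lin (fun i => v (Sum.inl i)))) :=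
    Measure.isProbabilityMeasure_map (E2_meas_lin _).aemeasurable
  have hp2 : IsProbabilityMeasure ((θ (X - xA q)).map (fun y => y i0)) :=
    Measure.isProbabilityMeasure_map (measurable_pi_apply i0).aemeasurable
  refine (K9_conv hVp h1 h2).mono fun z => ?_
  apply ENNReal.ofReal_le_ofReal
  unfold K9_f
  have h4 : |2 / (Fintype.card (Fin 4) : ℝ) * (X - xA q)| = |X - xA q| / 2 := by
    rw [Fintype.card_fin, abs_mul]
    norm_num
    ring
  rw [h4]

theorem nine_SC {θ : Kernel ℝ (Fin 4 → ℝ)} [IsMarkovKernel θ]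
    {κA : Kernel (ℝ × Q9) (Fin 2 ⊕ Fin 3 → ℝ)} {κB : Kernel (ℝ × Q9) (Fin 4 → ℝ)}
    [IsMarkovKernel κA] [IsMarkovKernel κB] (hθ : Blk4x θ) (h9 : Nine θ κA κB) (X : ℝ)
    (hX : |X| ≤ 1 / 20) (S : Finset I9)
    (hj : (Finset.univ.filter (fun k : Fin 2 => (Sum.inl (Sum.inl k) : I9) ∈ S)).card = 1)
    (hl : (Finset.univ.filter (fun k : Fin 3 => (Sum.inl (Sum.inr k) : I9) ∈ S)).card = 1 ∨
      (Finset.univ.filter (fun k : Fin 3 => (Sum.inl (Sum.inr k) : I9) ∈ S)).card = 2)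
    (hi : (Finset.univ.filter (fun k : Fin 4 => (Sum.inr k : I9) ∈ S)).card = 1) :
    HasLoad (pairLaw κA κB pi9 X (fun x => if x ∈ S then 1 else 0))
      (fun _ => ENNReal.ofReal (811 / 1000)) := by
  obtain ⟨i0, hi0⟩ := Finset.card_eq_one.1 hi
  have hB : ∀ i : Fin 4, (if (Sum.inr i : I9) ∈ S then (1 : ℤ) else 0) = if i = i0 then 1 else 0 := by
    intro i
    have h1 : i ∈ Finset.univ.filter (fun k : Fin 4 => (Sum.inr k : I9) ∈ S) ↔ i = i0 := by
      rw [hi0, Finset.mem_singleton]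
    rw [Finset.mem_filter] at h1
    have h2 : (Sum.inr i : I9) ∈ S ↔ i = i0 := by
      rw [← h1]
      simp
    simp only [h2]
  rw [Finset.card_filter, Fin.sum_univ_two] at hj
  rw [Finset.card_filter, Fin.sum_univ_three] at hl
  -- the units
  have hunit : (∑ k : Fin 3, (if (Sum.inl (Sum.inr k) : I9) ∈ S then (1 : ℤ) else 0) = 1 ∨
      ∑ k : Fin 3, (if (Sum.inl (Sum.inr k) : I9) ∈ S then (1 : ℤ) else 0) = 2) ∧
      del9 (fun i => if (Sum.inl i : I9) ∈ S then (1 : ℤ) else 0) = 2 := by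
    rw [Fin.sum_univ_three]
    unfold del9
    by_cases a0 : (Sum.inl (Sum.inr 0) : I9) ∈ S <;>
    by_cases a1 : (Sum.inl (Sum.inr 1) : I9) ∈ S <;>
    by_cases a2 : (Sum.inl (Sum.inr 2) : I9) ∈ S <;>
    simp [a0, a1, a2] at hl ⊢
  obtain ⟨hsum, hdel⟩ := hunit
  rw [Fin.sum_univ_three] at hsum
  have hpair : ((Sum.inl (Sum.inl 0) : I9) ∈ S ∧ (Sum.inl (Sum.inl 1) : I9) ∉ S) ∨
      ((Sum.inl (Sum.inl 0) : I9) ∉ S ∧ (Sum.inl (Sum.inl 1) : I9) ∈ S) := by
    by_cases a0 : (Sum.inl (Sum.inl 0) : I9) ∈ S <;>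
    by_cases a1 : (Sum.inl (Sum.inl 1) : I9) ∈ S <;>
    simp [a0, a1] at hj ⊢
  have hvsq : ∀ q, Val q → ∀ l : ℤ,
      (if (Sum.inl (Sum.inr 0) : I9) ∈ S then (1 : ℤ) else 0) +
      (if (Sum.inl (Sum.inr 1) : I9) ∈ S then (1 : ℤ) else 0) +
      (if (Sum.inl (Sum.inr 2) : I9) ∈ S then (1 : ℤ) else 0) = l →
      vsq (v9 q) (fun i => if (Sum.inl i : I9) ∈ S then (1 : ℤ) else 0) =
        (((if (Sum.inl (Sum.inl 0) : I9) ∈ S then (1 : ℤ) else 0 : ℤ) : ℝ) * ca q +
          ((if (Sum.inl (Sum.inl 1) : I9) ∈ S then (1 : ℤ) else 0 : ℤ) : ℝ) * cb q -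
          (ca q + cb q) * (l : ℝ) / 3) ^ 2 + (9 - (ca q + cb q) ^ 2) / 9 := by
    intro q hq l hl'
    rw [vsq_v9 q hq, hdel, ← hl']
    push_cast
    ring
  have hdd : ∀ q, ∑ i, ((if (Sum.inl i : I9) ∈ S then (1 : ℤ) else 0 : ℤ) : ℝ) * d9 q i =
      q.2 * (((if (Sum.inl (Sum.inl 0) : I9) ∈ S then (1 : ℤ) else 0 : ℤ) : ℝ) * (1 - ca q) -
        ((if (Sum.inl (Sum.inl 1) : I9) ∈ S then (1 : ℤ) else 0 : ℤ) : ℝ) * (1 - cb q)) := by
    intro q
    exact lin_d9 q (fun i => if (Sum.inl i : I9) ∈ S then (1 : ℤ) else 0)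
  rcases hpair with ⟨p0, p1⟩ | ⟨p0, p1⟩
  · have hD : ∀ q, ∑ i, ((if (Sum.inl i : I9) ∈ S then (1 : ℤ) else 0 : ℤ) : ℝ) * d9 q i =
        1 * (q.2 * (1 - ca q)) := by
      intro q
      rw [hdd q, if_pos p0, if_neg p1]
      push_cast
      ring
    rcases hsum with hs | hs
    · refine K9_main hθ h9 hX _ (c := ca) (c' := ca) (e := 1) (Or.inl rfl) (Or.inl rfl)
        (Or.inl rfl) ?_ hD i0 hB
      intro q hq
      rw [hvsq q hq 1 hs, if_pos p0, if_neg p1]
      push_cast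
      ring
    · refine K9_main hθ h9 hX _ (c := ca) (c' := cb) (e := 1) (Or.inl rfl) (Or.inr rfl)
        (Or.inl rfl) ?_ hD i0 hB
      intro q hq
      rw [hvsq q hq 2 hs, if_pos p0, if_neg p1]
      push_cast
      ring
  · have hD : ∀ q, ∑ i, ((if (Sum.inl i : I9) ∈ S then (1 : ℤ) else 0 : ℤ) : ℝ) * d9 q i =
        (-1) * (q.2 * (1 - cb q)) := by
      intro q
      rw [hdd q, if_neg p0, if_pos p1]
      push_cast
      ring
    rcases hsum with hs | hs
    · refine K9_main hθ h9 hX _ (c := cb) (c' := cb) (e := -1) (Or.inr rfl) (Or.inr rfl)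
        (Or.inr rfl) ?_ hD i0 hB
      intro q hq
      rw [hvsq q hq 1 hs, if_neg p0, if_pos p1]
      push_cast
      ring
    · refine K9_main hθ h9 hX _ (c := cb) (c' := ca) (e := -1) (Or.inr rfl) (Or.inl rfl)
        (Or.inr rfl) ?_ hD i0 hB
      intro q hq
      rw [hvsq q hq 2 hs, if_neg p0, if_pos p1]
      push_cast
      ring

end Pool.Agent.helper49.Slope
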