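import Pool.Agent.helper49.Slope.DefsK
import Pool.Agent.helper49.Slope.K1
import Pool.Agent.helper49.Slope.K5
import Pool.Agent.helper49.Slope.K7
import Pool.Agent.helper49.Slope.K9
import Pool.Agent.helper49.Slope.E2
import Pool.Agent.helper49.Slope.B3
import Pool.Agent.helper49.Slope.E1

/-!
MP_aedd95_co (slope of k-fold hyperplane covers of triangular grids), module K8.
Two-valued forms: the indicator of a set `S` with `j` elements in the pair, `l` units and `i`
elements in the block of size 4. The bound is `F9 j l i`. Let `vA` be the restriction to 5*.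
`V²` from `vsq_v9`: one unit: 1; both elements of the pair or all three units: `C²`; two units, or
pair and one unit: `1 + C²/3`; one of the pair and one unit, or one of the pair and two units:
`1 + ca²/3 - 2 ca cb/3` or `1 + cb²/3 - 2 ca cb/3` (which of the two: for `{0, unit}` and for
`{0', unit, unit}` it is `ca`, for `{0', unit}` and `{0, unit, unit}` it is `cb`; check with
`vsq_v9`); pair and two units: 1; one of the pair and three units: `ca²` resp. `cb²` (the missing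
element). Integrals: K5.
* `i = 0`: `nine_A` with `nine_I6` (`(2,0,0)`, `(0,3,0)`), `nine_I8` (`(1,1,0)`, `(1,2,0)`), `nine_I7`
  (`(0,2,0)`, `(2,1,0)`), `g = 1` (`(2,2,0)`); `(1,3,0)`: `pairLaw_load` with the exact kernel
  `ker D V` (the block of size 4 is constant 0 and contributes nothing) and `nine_I9`, `nine_I9'`.
* `(0,0,4)`: the law of `X - xA q` (`pairLaw_dirac`), `nine_I10`.
* `i = 1, 3` (`ty = S` on the block of size 4): `(1,0,i)`, `(0,0,3)`: `nine_S`. `(0,1,i)`: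
  `load_affine_two` with profiles `sprof 0` and `sprof (y/2)`: load `≤ 1 + 0`. `(2,0,1)`, `(0,3,1)`:
  `nine_A`, `nine_I6`. `(0,2,1)`, `(2,1,1)`: `nine_A`, `nine_I7`. `(1,1,1)`, `(1,2,1)`: module K9.
* `i = 2` (rich): `(0,0,2)`, `(1,0,2)`: `nine_R`. `nine_AR` with `M = 1` for `(0,1,2)` (`0.89506`),
  `M = 6/5` for `(2,0,2)` (`0.91194`), `M = 1.0621` for `(1,1,2)` (`V² ≥ 383/432`, `0.90030`),
  `M = 0.9012` for `(0,2,2)` (`V² ≥ 133/108`, `0.88670`).
-/

set_option autoImplicit false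

open MeasureTheory ProbabilityTheory
open scoped ENNReal

namespace Pool.Agent.helper49.Slope

/-! ### squared lengths of indicators -/

theorem K8_range {q : Q9} (h : Val q) : 5 / 12 ≤ ca q ∧ ca q ≤ 7 / 12 ∧ 5 / 12 ≤ cb q ∧
    cb q ≤ 7 / 12 := by
  obtain ⟨h1, h2, _⟩ := h
  rw [abs_le] at h1 h2
  unfold ca cb
  refine ⟨?_, ?_, ?_, ?_⟩
  · linarith [h1.1]
  · linarith [h1.2]
  · linarith [h2.1]
  · linarith [h2.2]

theorem K8_vsq {q : Q9} (h : Val q) (u : Fin 2 ⊕ Fin 3 → ℤ) (hu : ∀ i, u i = 0 ∨ u i = 1) (l : ℤ)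
    (hl : u (Sum.inr 0) + u (Sum.inr 1) + u (Sum.inr 2) = l) :
    vsq (v9 q) u = ((u (Sum.inl 0) : ℝ) * ca q + (u (Sum.inl 1) : ℝ) * cb q
        - (ca q + cb q) * (l : ℝ) / 3) ^ 2
      + (9 - (ca q + cb q) ^ 2) / 18 * ((l : ℝ) * (3 - l)) := by
  rw [vsq_v9 q h u]
  have h1 : (u (Sum.inr 0) : ℝ) + u (Sum.inr 1) + u (Sum.inr 2) = (l : ℝ) := by
    rw [← hl]
    push_cast
    ring
  have h2 : (del9 u : ℝ) = (l : ℝ) * (3 - l) := by
    have : del9 u = l * (3 - l) := by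
      rw [← hl]
      unfold del9
      rcases hu (Sum.inr 0) with h0 | h0 <;> rcases hu (Sum.inr 1) with h1 | h1 <;>
        rcases hu (Sum.inr 2) with h2 | h2 <;> rw [h0, h1, h2] <;> norm_num
    rw [this]
    push_cast
    ring
  rw [h1, h2]

theorem K8_one_div_sqrt_le {y M : ℝ} (hM : 0 < M) (h : 1 ≤ M ^ 2 * y) :
    0 < y ∧ 1 / Real.sqrt y ≤ M := by
  have hy : 0 < y := by
    by_contra hy
    push Not at hy
    nlinarith [mul_nonneg (sq_nonneg M) (neg_nonneg.2 hy)]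
  refine ⟨hy, ?_⟩
  have hs : 0 < Real.sqrt y := Real.sqrt_pos.2 hy
  rw [div_le_iff₀ hs]
  have h1 : Real.sqrt 1 ≤ Real.sqrt (M ^ 2 * y) := Real.sqrt_le_sqrt h
  rwa [Real.sqrt_one, Real.sqrt_mul (sq_nonneg M), Real.sqrt_sq hM.le] at h1

section
variable {θ : Kernel ℝ (Fin 4 → ℝ)} [IsMarkovKernel θ]
  {κA : Kernel (ℝ × Q9) (Fin 2 ⊕ Fin 3 → ℝ)} {κB : Kernel (ℝ × Q9) (Fin 4 → ℝ)}
  [IsMarkovKernel κA] [IsMarkovKernel κB]

theorem K8_measurable_ca : Measurable ca := by
  unfold ca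
  fun_prop

theorem K8_measurable_cb : Measurable cb := by
  unfold cb
  fun_prop

theorem K8_C (hθ : Blk4x θ) (h9 : Nine θ κA κB) (X : ℝ) (hX : |X| ≤ 1 / 20) (v : I9 → ℤ)
    (h : ∀ q, Val q → vsq (v9 q) (fun i => v (Sum.inl i)) = (ca q + cb q) ^ 2) :
    HasLoad (pairLaw κA κB pi9 X v) (fun _ => ENNReal.ofReal 1) := by
  refine nine_A hθ h9 X hX v (fun q => 1 / (ca q + cb q)) ?_ ?_ 1 ?_
  · exact measurable_const.div (K8_measurable_ca.add K8_measurable_cb)
  · intro q hq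
    obtain ⟨r1, r2, r3, r4⟩ := K8_range hq
    rw [h q hq, Real.sqrt_sq (by linarith)]
    exact ⟨by positivity, le_rfl⟩
  · rw [ENNReal.ofReal_one]
    exact nine_I6

theorem K8_I7 (hθ : Blk4x θ) (h9 : Nine θ κA κB) (X : ℝ) (hX : |X| ≤ 1 / 20) (v : I9 → ℤ)
    (h : ∀ q, Val q → vsq (v9 q) (fun i => v (Sum.inl i)) = 1 + (ca q + cb q) ^ 2 / 3) :
    HasLoad (pairLaw κA κB pi9 X v) (fun _ => ENNReal.ofReal (867 / 1000)) := by
  refine nine_A hθ h9 X hX v (fun q => 1 / Real.sqrt (1 + (ca q + cb q) ^ 2 / 3)) ?_ ?_ _ nine_I7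
  · exact measurable_const.div (Measurable.sqrt (measurable_const.add
      (((K8_measurable_ca.add K8_measurable_cb).pow_const 2).div_const 3)))
  · intro q hq
    rw [h q hq]
    exact ⟨by positivity, le_rfl⟩

theorem K8_range8 {q : Q9} (hq : Val q) : 383 / 432 ≤ 1 + ca q ^ 2 / 3 - 2 * (ca q * cb q) / 3 := by
  obtain ⟨r1, r2, r3, r4⟩ := K8_range hq
  nlinarith [mul_nonneg (sub_nonneg.2 r1) (sub_nonneg.2 r4), mul_nonneg (sub_nonneg.2 r2)
    (sub_nonneg.2 r3), mul_nonneg (sub_nonneg.2 r2) (sub_nonneg.2 r4), mul_nonneg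
    (sub_nonneg.2 r1) (sub_nonneg.2 r3), sq_nonneg (ca q - 7 / 12), sq_nonneg (ca q - cb q)]

theorem K8_range8' {q : Q9} (hq : Val q) : 383 / 432 ≤ 1 + cb q ^ 2 / 3 - 2 * (ca q * cb q) / 3 := by
  obtain ⟨r1, r2, r3, r4⟩ := K8_range hq
  nlinarith [mul_nonneg (sub_nonneg.2 r1) (sub_nonneg.2 r4), mul_nonneg (sub_nonneg.2 r2)
    (sub_nonneg.2 r3), mul_nonneg (sub_nonneg.2 r2) (sub_nonneg.2 r4), mul_nonneg
    (sub_nonneg.2 r1) (sub_nonneg.2 r3), sq_nonneg (cb q - 7 / 12), sq_nonneg (ca q - cb q)]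

theorem K8_I8 (hθ : Blk4x θ) (h9 : Nine θ κA κB) (X : ℝ) (hX : |X| ≤ 1 / 20) (v : I9 → ℤ)
    (h : (∀ q, Val q → vsq (v9 q) (fun i => v (Sum.inl i))
        = 1 + ca q ^ 2 / 3 - 2 * (ca q * cb q) / 3) ∨
      (∀ q, Val q → vsq (v9 q) (fun i => v (Sum.inl i))
        = 1 + cb q ^ 2 / 3 - 2 * (ca q * cb q) / 3)) :
    HasLoad (pairLaw κA κB pi9 X v) (fun _ => ENNReal.ofReal (1046 / 1000)) := by
  rcases h with h | h
  · refine nine_A hθ h9 X hX v (fun q => 1 / Real.sqrt (1 + ca q ^ 2 / 3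
      - 2 * (ca q * cb q) / 3)) ?_ ?_ _ nine_I8
    · exact measurable_const.div (Measurable.sqrt ((measurable_const.add
        ((K8_measurable_ca.pow_const 2).div_const 3)).sub
          ((measurable_const.mul (K8_measurable_ca.mul K8_measurable_cb)).div_const 3)))
    · intro q hq
      rw [h q hq]
      exact ⟨by linarith [K8_range8 hq], le_rfl⟩
  · refine nine_A hθ h9 X hX v (fun q => 1 / Real.sqrt (1 + cb q ^ 2 / 3
      - 2 * (ca q * cb q) / 3)) ?_ ?_ _ nine_I8'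
    · exact measurable_const.div (Measurable.sqrt ((measurable_const.add
        ((K8_measurable_cb.pow_const 2).div_const 3)).sub
          ((measurable_const.mul (K8_measurable_ca.mul K8_measurable_cb)).div_const 3)))
    · intro q hq
      rw [h q hq]
      exact ⟨by linarith [K8_range8' hq], le_rfl⟩

theorem K8_one (hθ : Blk4x θ) (h9 : Nine θ κA κB) (X : ℝ) (hX : |X| ≤ 1 / 20) (v : I9 → ℤ)
    (h : ∀ q, Val q → vsq (v9 q) (fun i => v (Sum.inl i)) = 1) :
    HasLoad (pairLaw κA κB pi9 X v) (fun _ => ENNReal.ofReal 1) := by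
  have := pi9_prob
  refine nine_A hθ h9 X hX v (fun _ => 1) measurable_const ?_ 1 ?_
  · intro q hq
    rw [h q hq, Real.sqrt_one]
    norm_num
  · rw [lintegral_const, measure_univ, mul_one]

theorem K8_AR (hθ : Blk4x θ) (h9 : Nine θ κA κB) (X : ℝ) (hX : |X| ≤ 1 / 20) (v : I9 → ℤ)
    (M L : ℝ) (hM : 7235 / 10000 ≤ M)
    (hv : ∀ q, Val q → 1 ≤ M ^ 2 * vsq (v9 q) (fun i => v (Sum.inl i)))
    (h : Rich (fun i => v (Sum.inr i)))
    (hL : 8717 / 10000 + (M - 7235 / 10000) * (8445 / 100000) ≤ L) :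
    HasLoad (pairLaw κA κB pi9 X v) (fun _ => ENNReal.ofReal L) := by
  refine (nine_AR hθ h9 X hX v M hM (fun q hq => ?_) h).mono fun z => ENNReal.ofReal_le_ofReal hL
  exact K8_one_div_sqrt_le (by linarith) (hv q hq)

theorem K8_lin_zero {ι : Type} [Fintype ι] (μ : Measure (ι → ℝ)) [IsProbabilityMeasure μ]
    (u : ι → ℤ) (hu : ∀ i, u i = 0) : μ.map (lin u) = Measure.dirac 0 := by
  have h1 : lin u = fun _ => (0 : ℝ) := by
    funext y
    unfold lin
    refine Finset.sum_eq_zero fun i _ => ?_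
    rw [hu i, Int.cast_zero, zero_mul]
  rw [h1, Measure.map_const, measure_univ, one_smul]

theorem K8_cnv_dirac (μ : Measure ℝ) [IsProbabilityMeasure μ] : cnv μ (Measure.dirac 0) = μ := by
  unfold cnv
  rw [Measure.prod_dirac, Measure.map_map (by fun_prop) (by fun_prop)]
  have : (fun p : ℝ × ℝ => p.1 + p.2) ∘ (fun x : ℝ => (x, (0 : ℝ))) = id := by
    funext x
    simp
  rw [this, Measure.map_id]

theorem K8_measurable_ker {D V : Q9 → ℝ} (hD : Measurable D)
    (hV : Measurable V) : Measurable (fun p : Q9 × ℝ => ker (D p.1) (V p.1) p.2) := by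
  unfold ker
  refine Measurable.ite ?_ ?_ measurable_const
  · exact measurableSet_le
      ((measurable_snd.sub (hD.comp measurable_fst)).abs) (hV.comp measurable_fst)
  · exact ENNReal.measurable_ofReal.comp (measurable_const.div (hV.comp measurable_fst))

theorem K8_measurable_lin {ι : Type} [Fintype ι] (u : ι → ℤ) : Measurable (lin u) := by
  unfold lin
  exact Finset.measurable_sum _ fun i _ => (measurable_pi_apply i).const_mul _

theorem K8_map_prob {ι : Type} [Fintype ι] (μ : Measure (ι → ℝ)) [IsProbabilityMeasure μ]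
    (u : ι → ℤ) : IsProbabilityMeasure (μ.map (lin u)) :=
  Measure.isProbabilityMeasure_map (K8_measurable_lin u).aemeasurable

/-- `(1,3,0)` -/
theorem K8_130 (h9 : Nine θ κA κB) (X : ℝ) (v : I9 → ℤ)
    (h0 : ∀ i, v (Sum.inr i) = 0)
    (hU : ∀ k, v (Sum.inl (Sum.inr k)) = 1)
    (hP : (v (Sum.inl (Sum.inl 0)) = 1 ∧ v (Sum.inl (Sum.inl 1)) = 0) ∨
      (v (Sum.inl (Sum.inl 0)) = 0 ∧ v (Sum.inl (Sum.inl 1)) = 1)) :
    HasLoad (pairLaw κA κB pi9 X v) (fun _ => ENNReal.ofReal (7 / 6)) := by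
  have := pi9_prob
  have hB : ∀ q, (κB (X, q)).map (lin (fun i => v (Sum.inr i))) = Measure.dirac 0 :=
    fun q => K8_lin_zero _ _ h0
  rcases hP with ⟨ha, hb⟩ | ⟨ha, hb⟩
  · have key := pairLaw_load κA κB pi9 X v (fun q z => ker (1 * (q.2 * (1 - ca q))) (cb q) z)
      (K8_measurable_ker (D := fun q => 1 * (q.2 * (1 - ca q))) (V := cb)
        (measurable_const.mul (measurable_snd.mul
        (measurable_const.sub K8_measurable_ca))) K8_measurable_cb) ?_
    · exact key.mono fun z => nine_I9' 1 (Or.inl rfl) z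
    · filter_upwards [pi9_val] with q hq
      have := K8_map_prob (κA (X, q)) (fun i => v (Sum.inl i))
      rw [hB q, K8_cnv_dirac]
      obtain ⟨r1, r2, r3, r4⟩ := K8_range hq
      have hv2 : vsq (v9 q) (fun i => v (Sum.inl i)) = cb q ^ 2 := by
        rw [vsq_v9_eq q hq (fun i => v (Sum.inl i)) 1 (fun k => hU k), ha, hb]
        push_cast
        ring
      have hl := h9.load X q hq (fun i => v (Sum.inl i)) (by rw [hv2]; positivity)
      rw [hv2, Real.sqrt_sq (by linarith), lin_d9, ha, hb] at hl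
      convert hl using 2
      push_cast
      ring
  · have key := pairLaw_load κA κB pi9 X v (fun q z => ker (-1 * (q.2 * (1 - cb q))) (ca q) z)
      (K8_measurable_ker (D := fun q => -1 * (q.2 * (1 - cb q))) (V := ca)
        (measurable_const.mul (measurable_snd.mul
        (measurable_const.sub K8_measurable_cb))) K8_measurable_ca) ?_
    · exact key.mono fun z => nine_I9 (-1) (Or.inr rfl) z
    · filter_upwards [pi9_val] with q hq
      have := K8_map_prob (κA (X, q)) (fun i => v (Sum.inl i))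
      rw [hB q, K8_cnv_dirac]
      obtain ⟨r1, r2, r3, r4⟩ := K8_range hq
      have hv2 : vsq (v9 q) (fun i => v (Sum.inl i)) = ca q ^ 2 := by
        rw [vsq_v9_eq q hq (fun i => v (Sum.inl i)) 1 (fun k => hU k), ha, hb]
        push_cast
        ring
      have hl := h9.load X q hq (fun i => v (Sum.inl i)) (by rw [hv2]; positivity)
      rw [hv2, Real.sqrt_sq (by linarith), lin_d9, ha, hb] at hl
      convert hl using 2
      push_cast
      ring

theorem K8_abs (X : ℝ) (hX : |X| ≤ 1 / 20) {q : Q9} (hq : Val q) : |X - xA q| ≤ 3 / 10 := by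
  obtain ⟨h1, h2, h3⟩ := hq
  have h4 : |xA q| ≤ 1 / 6 := by
    unfold xA
    rw [abs_mul]
    have h5 : |q.2| = 1 := by
      rcases h3 with h3 | h3 <;> rw [h3] <;> norm_num
    rw [h5, one_mul]
    calc |q.1.2 - q.1.1| ≤ |q.1.2| + |q.1.1| := abs_sub _ _
      _ ≤ 1 / 6 := by linarith
  calc |X - xA q| ≤ |X| + |xA q| := abs_sub _ _
    _ ≤ 3 / 10 := by linarith

/-- `(0,0,4)` -/
theorem K8_004 (hθ : Blk4x θ) (h9 : Nine θ κA κB) (X : ℝ) (hX : |X| ≤ 1 / 20) (v : I9 → ℤ)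
    (h0 : ∀ i, v (Sum.inr i) = 1) (hA : ∀ i, v (Sum.inl i) = 0) :
    HasLoad (pairLaw κA κB pi9 X v) (fun _ => ENNReal.ofReal (1212 / 100)) := by
  have := pi9_prob
  have hm : Measurable (fun q => X - xA q) := measurable_const.sub xA_measurable
  rw [pairLaw_dirac κA κB pi9 X v (fun _ => 0) (fun q => X - xA q) measurable_const hm ?_]
  · have := nine_I10 (-1) (by norm_num) X
    convert this using 3 with q
    push_cast
    ring
  · filter_upwards [pi9_val] with q hq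
    refine ⟨K8_lin_zero _ _ hA, ?_⟩
    rw [h9.kB, hθ.blk.const_form (K8_abs X hX hq) 1 _ h0]
    simp

theorem K8_sprof_zero (z : ℝ) : ker 0 1 z = sprof 0 z := by
  unfold ker sprof
  rw [sub_zero]
  split_ifs <;> norm_num

/-- `(0,1,1)`, `(0,1,3)` -/
theorem K8_01S (hθ : Blk4x θ) (h9 : Nine θ κA κB) (X : ℝ) (hX : |X| ≤ 1 / 20) (v : I9 → ℤ)
    (hS : ty (fun i => v (Sum.inr i)) = Ty.S)
    (h0 : v (Sum.inl (Sum.inl 0)) = 0 ∧ v (Sum.inl (Sum.inl 1)) = 0)
    (h : ∀ q, Val q → vsq (v9 q) (fun i => v (Sum.inl i)) = 1) :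
    HasLoad (pairLaw κA κB pi9 X v) (fun _ => ENNReal.ofReal 1) := by
  have := pi9_prob
  have key := pairLaw_load κA κB pi9 X v (fun _ _ => ENNReal.ofReal 1) measurable_const ?_
  · refine key.mono fun z => ?_
    rw [lintegral_const, measure_univ, mul_one]
  · filter_upwards [pi9_val] with q hq
    have := K8_map_prob (κA (X, q)) (fun i => v (Sum.inl i))
    have hy := K8_abs X hX hq
    obtain ⟨μ, c, d, hμ, hc, hμ2, hμ3⟩ := hθ.blk.single_form hy _ hS
    rw [h9.kB, hμ3]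
    have hl := h9.load X q hq (fun i => v (Sum.inl i)) (by rw [h q hq]; norm_num)
    rw [h q hq, Real.sqrt_one, lin_d9, h0.1, h0.2] at hl
    have hl2 : HasLoad ((κA (X, q)).map (lin (fun i => v (Sum.inl i)))) (sprof 0) := by
      refine hl.mono fun z => ?_
      rw [← K8_sprof_zero]
      simp
    have hcard : (Fintype.card (Fin 4) : ℝ) = 4 := by simp
    rw [hcard] at hμ2
    have hb : |2 / 4 * (X - xA q)| ≤ 1 / 2 := by
      rw [abs_mul, abs_of_pos (by norm_num : (0 : ℝ) < 2 / 4)]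
      linarith
    have h2 := load_affine_two (a := 0) (b := 2 / 4 * (X - xA q)) (by norm_num) hb hl2 hμ2 1 c
      one_ne_zero hc 0 d
    have h3 : ((κA (X, q)).map (lin (fun i => v (Sum.inl i)))).map
        (fun z => ((1 : ℤ) : ℝ) * z + 0) = (κA (X, q)).map (lin (fun i => v (Sum.inl i))) := by
      have : (fun z : ℝ => ((1 : ℤ) : ℝ) * z + 0) = id := by
        funext z
        simp
      rw [this, Measure.map_id]
    rw [h3] at h2
    convert h2 using 2
    simp

end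

/-! ### the block of size 4 -/

theorem K8_ty (w : Fin 4 → ℤ) (hw : ∀ i, w i = 0 ∨ w i = 1) :
    tyc 4 (Finset.univ.filter (fun i => w i = 1)).card = ty w := by
  have h1 := tyc_eq_ty (ι := Fin 4) (by simp) w (fun z => decide (z = 1)) (by
    intro i j hij
    rcases hw i with hi | hi <;> rcases hw j with hj | hj
    · rw [hi, hj]
    · rw [hi, hj] at hij
      simp at hij
    · rw [hi, hj] at hij
      simp at hij
    · rw [hi, hj])
  simpa using h1

section
variable {θ : Kernel ℝ (Fin 4 → ℝ)} [IsMarkovKernel θ]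
  {κA : Kernel (ℝ × Q9) (Fin 2 ⊕ Fin 3 → ℝ)} {κB : Kernel (ℝ × Q9) (Fin 4 → ℝ)}
  [IsMarkovKernel κA] [IsMarkovKernel κB]

theorem K8_main (hθ : Blk4x θ) (h9 : Nine θ κA κB) (X : ℝ) (hX : |X| ≤ 1 / 20) (v : I9 → ℤ)
    (hv : ∀ x, v x = 0 ∨ v x = 1) (j l i : ℕ)
    (hj : v (Sum.inl (Sum.inl 0)) + v (Sum.inl (Sum.inl 1)) = j)
    (hl : v (Sum.inl (Sum.inr 0)) + v (Sum.inl (Sum.inr 1)) + v (Sum.inl (Sum.inr 2)) = l)
    (hi : (Finset.univ.filter (fun k : Fin 4 => v (Sum.inr k) = 1)).card = i)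
    (h2 : 2 ≤ j + l + i) (h4 : j + l + i ≤ 4)
    (hSC : j = 1 → (l = 1 ∨ l = 2) → i = 1 →
      HasLoad (pairLaw κA κB pi9 X v) (fun _ => ENNReal.ofReal (811 / 1000))) :
    HasLoad (pairLaw κA κB pi9 X v) (fun _ => ENNReal.ofReal (F9 j l i)) := by
  have hvs : ∀ q, Val q → vsq (v9 q) (fun i => v (Sum.inl i)) =
      ((v (Sum.inl (Sum.inl 0)) : ℝ) * ca q + (v (Sum.inl (Sum.inl 1)) : ℝ) * cb q
        - (ca q + cb q) * (l : ℝ) / 3) ^ 2
      + (9 - (ca q + cb q) ^ 2) / 18 * ((l : ℝ) * (3 - l)) := by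
    intro q hq
    have := K8_vsq hq (fun i => v (Sum.inl i)) (fun i => hv _) l hl
    rw [this]
    push_cast
    rfl
  have hty := K8_ty (fun k => v (Sum.inr k)) (fun k => hv _)
  rw [hi] at hty
  have hj2 : j ≤ 2 := by
    rcases hv (Sum.inl (Sum.inl 0)) with h | h <;> rcases hv (Sum.inl (Sum.inl 1)) with h' | h' <;>
      rw [h, h'] at hj <;> omega
  have hl3 : l ≤ 3 := by
    rcases hv (Sum.inl (Sum.inr 0)) with h | h <;> rcases hv (Sum.inl (Sum.inr 1)) with h' | h' <;>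
      rcases hv (Sum.inl (Sum.inr 2)) with h'' | h'' <;> rw [h, h', h''] at hl <;> omega
  have hi4 : i ≤ 4 := by
    rw [← hi]
    refine (Finset.card_filter_le _ _).trans ?_
    simp
  have hS : (i = 1 ∨ i = 3) → ty (fun k => v (Sum.inr k)) = Ty.S := by
    intro h
    rw [← hty]
    rcases h with rfl | rfl <;> rfl
  have hR : i = 2 → Rich (fun k => v (Sum.inr k)) := by
    rintro rfl
    rw [← ty_eq_R, ← hty]
    rfl
  have hp0 : j = 0 → v (Sum.inl (Sum.inl 0)) = 0 ∧ v (Sum.inl (Sum.inl 1)) = 0 := by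
    rintro rfl
    rcases hv (Sum.inl (Sum.inl 0)) with h | h <;> rcases hv (Sum.inl (Sum.inl 1)) with h' | h' <;>
      rw [h, h'] at hj <;> first | exact ⟨h, h'⟩ | (exfalso; omega)
  have hp2 : j = 2 → v (Sum.inl (Sum.inl 0)) = 1 ∧ v (Sum.inl (Sum.inl 1)) = 1 := by
    rintro rfl
    rcases hv (Sum.inl (Sum.inl 0)) with h | h <;> rcases hv (Sum.inl (Sum.inl 1)) with h' | h' <;>
      rw [h, h'] at hj <;> first | exact ⟨h, h'⟩ | (exfalso; omega)
  have hp1 : j = 1 → (v (Sum.inl (Sum.inl 0)) = 1 ∧ v (Sum.inl (Sum.inl 1)) = 0) ∨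
      (v (Sum.inl (Sum.inl 0)) = 0 ∧ v (Sum.inl (Sum.inl 1)) = 1) := by
    rintro rfl
    rcases hv (Sum.inl (Sum.inl 0)) with h | h <;> rcases hv (Sum.inl (Sum.inl 1)) with h' | h' <;>
      rw [h, h'] at hj <;> first | exact Or.inl ⟨h, h'⟩ | exact Or.inr ⟨h, h'⟩ | (exfalso; omega)
  have hu0 : l = 0 → ∀ k, v (Sum.inl (Sum.inr k)) = 0 := by
    rintro rfl
    have e0 := hv (Sum.inl (Sum.inr 0))
    have e1 := hv (Sum.inl (Sum.inr 1))
    have e2 := hv (Sum.inl (Sum.inr 2))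
    intro k
    fin_cases k
    · simp only [Fin.zero_eta]
      omega
    · simp only [Fin.mk_one]
      omega
    · simp only [Fin.reduceFinMk]
      omega
  have hu3 : l = 3 → ∀ k, v (Sum.inl (Sum.inr k)) = 1 := by
    rintro rfl
    have e0 := hv (Sum.inl (Sum.inr 0))
    have e1 := hv (Sum.inl (Sum.inr 1))
    have e2 := hv (Sum.inl (Sum.inr 2))
    intro k
    fin_cases k
    · simp only [Fin.zero_eta]
      omega
    · simp only [Fin.mk_one]
      omega
    · simp only [Fin.reduceFinMk]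
      omega
  have hb0 : i = 0 → ∀ k, v (Sum.inr k) = 0 := by
    rintro rfl k
    rw [Finset.card_eq_zero, Finset.filter_eq_empty_iff] at hi
    exact (hv (Sum.inr k)).resolve_right (hi (Finset.mem_univ k))
  have hb4 : i = 4 → ∀ k, v (Sum.inr k) = 1 := by
    rintro rfl k
    have h5 : (Finset.univ.filter (fun k : Fin 4 => v (Sum.inr k) = 1)) = Finset.univ := by
      rw [← Finset.card_eq_iff_eq_univ, hi]
      simp
    have h6 := Finset.mem_univ k
    rw [← h5, Finset.mem_filter] at h6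
    exact h6.2
  -- squared lengths
  have c20 : j = 2 → l = 0 → ∀ q, Val q → vsq (v9 q) (fun i => v (Sum.inl i))
      = (ca q + cb q) ^ 2 := by
    intro h h' q hq
    rw [hvs q hq, (hp2 h).1, (hp2 h).2, h']
    push_cast
    ring
  have c03 : j = 0 → l = 3 → ∀ q, Val q → vsq (v9 q) (fun i => v (Sum.inl i))
      = (ca q + cb q) ^ 2 := by
    intro h h' q hq
    rw [hvs q hq, (hp0 h).1, (hp0 h).2, h']
    push_cast
    ring
  have c02 : j = 0 → l = 2 → ∀ q, Val q → vsq (v9 q) (fun i => v (Sum.inl i))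
      = 1 + (ca q + cb q) ^ 2 / 3 := by
    intro h h' q hq
    rw [hvs q hq, (hp0 h).1, (hp0 h).2, h']
    push_cast
    ring
  have c21 : j = 2 → l = 1 → ∀ q, Val q → vsq (v9 q) (fun i => v (Sum.inl i))
      = 1 + (ca q + cb q) ^ 2 / 3 := by
    intro h h' q hq
    rw [hvs q hq, (hp2 h).1, (hp2 h).2, h']
    push_cast
    ring
  have c01 : j = 0 → l = 1 → ∀ q, Val q → vsq (v9 q) (fun i => v (Sum.inl i)) = 1 := by
    intro h h' q hq
    rw [hvs q hq, (hp0 h).1, (hp0 h).2, h']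
    push_cast
    ring
  have c22 : j = 2 → l = 2 → ∀ q, Val q → vsq (v9 q) (fun i => v (Sum.inl i)) = 1 := by
    intro h h' q hq
    rw [hvs q hq, (hp2 h).1, (hp2 h).2, h']
    push_cast
    ring
  have c11 : j = 1 → l = 1 → (∀ q, Val q → vsq (v9 q) (fun i => v (Sum.inl i))
        = 1 + ca q ^ 2 / 3 - 2 * (ca q * cb q) / 3) ∨
      (∀ q, Val q → vsq (v9 q) (fun i => v (Sum.inl i))
        = 1 + cb q ^ 2 / 3 - 2 * (ca q * cb q) / 3) := by
    intro h h'
    rcases hp1 h with ⟨e1, e2⟩ | ⟨e1, e2⟩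
    · left
      intro q hq
      rw [hvs q hq, e1, e2, h']
      push_cast
      ring
    · right
      intro q hq
      rw [hvs q hq, e1, e2, h']
      push_cast
      ring
  have c12 : j = 1 → l = 2 → (∀ q, Val q → vsq (v9 q) (fun i => v (Sum.inl i))
        = 1 + ca q ^ 2 / 3 - 2 * (ca q * cb q) / 3) ∨
      (∀ q, Val q → vsq (v9 q) (fun i => v (Sum.inl i))
        = 1 + cb q ^ 2 / 3 - 2 * (ca q * cb q) / 3) := by
    intro h h'
    rcases hp1 h with ⟨e1, e2⟩ | ⟨e1, e2⟩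
    · right
      intro q hq
      rw [hvs q hq, e1, e2, h']
      push_cast
      ring
    · left
      intro q hq
      rw [hvs q hq, e1, e2, h']
      push_cast
      ring
  -- the cases
  interval_cases j <;> interval_cases l <;> interval_cases i <;> try (exfalso; omega)
  -- j = 0
  · exact nine_R hθ h9 X hX v (hR rfl)
  · exact nine_S hθ h9 X hX v (hS (Or.inr rfl))
  · refine K8_004 hθ h9 X hX v (hb4 rfl) ?_
    rintro (k | k)
    · fin_cases k
      · exact (hp0 rfl).1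
      · exact (hp0 rfl).2
    · exact hu0 rfl k
  · exact K8_01S hθ h9 X hX v (hS (Or.inl rfl)) (hp0 rfl) (c01 rfl rfl)
  · refine K8_AR hθ h9 X hX v 1 (896 / 1000) (by norm_num) (fun q hq => ?_) (hR rfl) (by norm_num)
    rw [c01 rfl rfl q hq]
    norm_num
  · exact K8_01S hθ h9 X hX v (hS (Or.inr rfl)) (hp0 rfl) (c01 rfl rfl)
  · exact K8_I7 hθ h9 X hX v (c02 rfl rfl)
  · exact K8_I7 hθ h9 X hX v (c02 rfl rfl)
  · refine K8_AR hθ h9 X hX v (9012 / 10000) (887 / 1000) (by norm_num) (fun q hq => ?_) (hR rfl)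
      (by norm_num)
    obtain ⟨r1, r2, r3, r4⟩ := K8_range hq
    rw [c02 rfl rfl q hq]
    nlinarith
  · exact K8_C hθ h9 X hX v (c03 rfl rfl)
  · exact K8_C hθ h9 X hX v (c03 rfl rfl)
  -- j = 1
  · exact nine_S hθ h9 X hX v (hS (Or.inl rfl))
  · exact nine_R hθ h9 X hX v (hR rfl)
  · exact nine_S hθ h9 X hX v (hS (Or.inr rfl))
  · exact K8_I8 hθ h9 X hX v (c11 rfl rfl)
  · exact hSC rfl (Or.inl rfl) rfl
  · refine K8_AR hθ h9 X hX v (10621 / 10000) (901 / 1000) (by norm_num) (fun q hq => ?_) (hR rfl)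
      (by norm_num)
    have r1 := K8_range8 hq
    have r2 := K8_range8' hq
    rcases c11 rfl rfl with h | h
    · rw [h q hq]
      linarith
    · rw [h q hq]
      linarith
  · exact K8_I8 hθ h9 X hX v (c12 rfl rfl)
  · exact hSC rfl (Or.inr rfl) rfl
  · exact K8_130 h9 X v (hb0 rfl) (hu3 rfl) (hp1 rfl)
  -- j = 2
  · exact K8_C hθ h9 X hX v (c20 rfl rfl)
  · exact K8_C hθ h9 X hX v (c20 rfl rfl)
  · refine K8_AR hθ h9 X hX v (6 / 5) (912 / 1000) (by norm_num) (fun q hq => ?_) (hR rfl)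
      (by norm_num)
    obtain ⟨r1, r2, r3, r4⟩ := K8_range hq
    rw [c20 rfl rfl q hq]
    nlinarith
  · exact K8_I7 hθ h9 X hX v (c21 rfl rfl)
  · exact K8_I7 hθ h9 X hX v (c21 rfl rfl)
  · exact K8_one hθ h9 X hX v (c22 rfl rfl)

end

theorem nine_two {θ : Kernel ℝ (Fin 4 → ℝ)} [IsMarkovKernel θ]
    {κA : Kernel (ℝ × Q9) (Fin 2 ⊕ Fin 3 → ℝ)} {κB : Kernel (ℝ × Q9) (Fin 4 → ℝ)}
    [IsMarkovKernel κA] [IsMarkovKernel κB] (hθ : Blk4x θ) (h9 : Nine θ κA κB) (X : ℝ)
    (hX : |X| ≤ 1 / 20) (S : Finset I9) (h2 : 2 ≤ S.card) (h4 : S.card ≤ 4) :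
    HasLoad (pairLaw κA κB pi9 X (fun x => if x ∈ S then 1 else 0))
      (fun _ => ENNReal.ofReal (F9
        (Finset.univ.filter (fun k : Fin 2 => (Sum.inl (Sum.inl k) : I9) ∈ S)).card
        (Finset.univ.filter (fun k : Fin 3 => (Sum.inl (Sum.inr k) : I9) ∈ S)).card
        (Finset.univ.filter (fun k : Fin 4 => (Sum.inr k : I9) ∈ S)).card)) := by
  classical
  have e1 : ∀ x : I9, ((if x ∈ S then (1 : ℤ) else 0) = 1) ↔ x ∈ S := by
    intro x
    split_ifs with h <;> simp [h]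
  have hcard : S.card = (Finset.univ.filter (fun k : Fin 2 => (Sum.inl (Sum.inl k) : I9) ∈ S)).card +
        (Finset.univ.filter (fun k : Fin 3 => (Sum.inl (Sum.inr k) : I9) ∈ S)).card +
        (Finset.univ.filter (fun k : Fin 4 => (Sum.inr k : I9) ∈ S)).card := by
    have h : S.card = ∑ x : I9, if x ∈ S then 1 else 0 := by
      rw [← Finset.card_filter]
      congr 1
      ext x
      simp
    rw [h, Fintype.sum_sum_type, Fintype.sum_sum_type]
    simp only [Finset.card_filter]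
  refine K8_main hθ h9 X hX (fun x => if x ∈ S then 1 else 0) (fun x => ?_) _ _ _ ?_ ?_ ?_ ?_ ?_ ?_
  · by_cases h : x ∈ S
    · exact Or.inr (if_pos h)
    · exact Or.inl (if_neg h)
  · rw [Finset.card_filter, Fin.sum_univ_two]
    push_cast
    rfl
  · rw [Finset.card_filter, Fin.sum_univ_three]
    push_cast
    rfl
  · simp only [e1]
  · exact h2.trans (le_of_eq hcard)
  · exact le_trans (le_of_eq hcard.symm) h4
  · intro hj hl hi
    exact nine_SC hθ h9 X hX S hj hl hi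

end Pool.Agent.helper49.Slope
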