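import Pool.Agent.helper49.Slope.DefsK
import Pool.Agent.helper49.Slope.J1
import Pool.Agent.helper49.Slope.K1
import Pool.Agent.helper49.Slope.K3
import Pool.Agent.helper49.Slope.K4
import Pool.Agent.helper49.Slope.K5
import Pool.Agent.helper49.Slope.K6
import Pool.Agent.helper49.Slope.K7
import Pool.Agent.helper49.Slope.K8
import Pool.Agent.helper49.Slope.K10
import Pool.Agent.helper49.Slope.K11
import Pool.Agent.helper49.Slope.K12a
import Pool.Agent.helper49.Slope.K12
import Pool.Agent.helper49.Slope.B4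
import Pool.Agent.helper49.Slope.B8b
import Pool.Agent.helper49.Slope.B8d
import Pool.Agent.helper49.Slope.E1
import Pool.Agent.helper49.Slope.E3
import Pool.Agent.helper49.Slope.E5

/-!
MP_aedd95_co (slope of k-fold hyperplane covers of triangular grids), module K13.
The family with 9 elements: assembly. (helper9)

PROOF. `block_four_ext` gives `θ`, `nine_exists` gives `κA, κB`; apply `exists_two` with `R = Q9`,
`π = pi9`, `α = Fin 2 ⊕ Fin 3`, `β = Fin 4`. Let `|X| ≤ 1/20`.
* Support: `a q = xA q`, `b q = X - xA q`.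
* Singles: units: load `ker 0 1 ≤ 1_{|z| ≤ 1}`; elements of the pair: `f q = ker (±η(1-c)) c` (`lin` of
  a unit vector; `vsq = c²`), `∫ f ≤ 1_{|z| ≤ 1}` by `digit_single` (after a projection of `pi9`; the
  sign is symmetric); block of size 4: `g q = sprof((X - xA q)/2)`, whose integral is
  `sprof (X/2)` since `E xA = 0` (sign symmetry; `|X - xA| ≤ 3/10`, everything is nonnegative).
  Total for `0 ≤ z ≤ 1`: `5 + 4 (1 + X/2) = 9 (1 + 2X/9)`, similarly for `z < 0`: `sprof (2/9 X)`.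
* Rich `u`:
 (a) not `Three u`: two values. Let `S` be the set where the less frequent value is taken:
   `|S| ≤ 4`, and `|S| ≥ 2` as `u` is rich; `u = r + c 1_S`, `c ≠ 0`. For a permutation `σ`,
   `u ∘ σ = r + c 1_{σ⁻¹ S}`; `nine_affine`, `nine_two`, `HasLoad.scale`, `HasLoad.shift`: load
   `≤ F9 j l i / |c| ≤ F9 j l i`. Average: `sum_perm_three`, `F9_sum`.
 (b) `Three u` and `u = t + a e_i + b e_j`: then `a, b` are nonzero and different. `u ∘ σ
   = t + a e_{σ⁻¹ i} + b e_{σ⁻¹ j}`, `nine_affine` (`c = 1`) and `nine_slots` (the load function gets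
   shifted by `t X`, the same for all `σ`): `F σ z = M (σ⁻¹ i) (σ⁻¹ j) (z - t X)`, and
   `∑_σ F σ z ≤ 7! · 72 = 9!` (`sum_perm_pairs_symm`).
 (c) otherwise `class_map`, `nine_H`, `H9_sum`.
-/

set_option autoImplicit false

open MeasureTheory ProbabilityTheory
open scoped ENNReal

namespace Pool.Agent.helper49.Slope

/-! ### parameters -/

theorem K13_xA (q : Q9) (hq : Val q) : |xA q| ≤ 1 / 6 := by
  obtain ⟨h1, h2, h3⟩ := hq
  unfold xA
  rw [abs_mul]
  have e : |q.2| = 1 := by
    rcases h3 with h | h <;> rw [h] <;> simp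
  rw [e, one_mul]
  have := abs_sub q.1.2 q.1.1
  linarith

theorem K13_y (X : ℝ) (hX : |X| ≤ 1 / 20) (q : Q9) (hq : Val q) : |X - xA q| ≤ 13 / 60 := by
  have h1 := K13_xA q hq
  have h2 := abs_sub X (xA q)
  linarith

theorem K13_lam_prob : IsProbabilityMeasure (lam (1 / 12)) :=
  lam_prob (by norm_num) (by norm_num)

theorem K13_int (F : Q9 → ℝ≥0∞) (hF : Measurable F) :
    ∫⁻ q, F q ∂pi9 = ∫⁻ s, ∫⁻ t, ∫⁻ η, F ((s, t), η) ∂sgnM ∂(lam (1 / 12)) ∂(lam (1 / 12)) := by
  have h1 := K13_lam_prob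
  have h2 := sgnM_prob
  unfold pi9
  rw [lintegral_prod _ hF.aemeasurable, lintegral_prod]
  exact (Measurable.lintegral_prod_right' (f := fun p : (ℝ × ℝ) × ℝ => F (p.1, p.2))
    hF).aemeasurable

/-- projection to the first digit and the sign -/
theorem K13_fst (F : ℝ × ℝ → ℝ≥0∞) (hF : Measurable F) :
    ∫⁻ q, F (q.1.1, q.2) ∂pi9 = ∫⁻ p, F p ∂((lam (1 / 12)).prod sgnM) := by
  have h1 := K13_lam_prob
  have h2 := sgnM_prob
  have hm : Measurable (fun q : Q9 => F (q.1.1, q.2)) :=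
    hF.comp (f := fun q : Q9 => (q.1.1, q.2)) (by fun_prop)
  rw [K13_int _ hm, lintegral_prod _ hF.aemeasurable]
  refine lintegral_congr fun s => ?_
  show ∫⁻ _, (∫⁻ η, F (s, η) ∂sgnM) ∂(lam (1 / 12)) = _
  rw [lintegral_const, measure_univ, mul_one]

/-- projection to the second digit and the sign -/
theorem K13_snd (F : ℝ × ℝ → ℝ≥0∞) (hF : Measurable F) :
    ∫⁻ q, F (q.1.2, q.2) ∂pi9 = ∫⁻ p, F p ∂((lam (1 / 12)).prod sgnM) := by
  have h1 := K13_lam_prob
  have h2 := sgnM_prob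
  have hm : Measurable (fun q : Q9 => F (q.1.2, q.2)) :=
    hF.comp (f := fun q : Q9 => (q.1.2, q.2)) (by fun_prop)
  rw [K13_int _ hm, lintegral_prod _ hF.aemeasurable]
  show ∫⁻ _, (∫⁻ t, ∫⁻ η, F (t, η) ∂sgnM ∂(lam (1 / 12))) ∂(lam (1 / 12)) = _
  rw [lintegral_const, measure_univ, mul_one]

theorem K13_ker_neg (D V z : ℝ) : ker (-D) V z = ker D V (-z) := by
  unfold ker
  have : |z - -D| = |-z - D| := by
    rw [← abs_neg]
    congr 1
    ring
  rw [this]

theorem K13_p0 (z : ℝ) :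
    ∫⁻ q, ker (q.2 * (1 - ca q)) (ca q) z ∂pi9 ≤ if |z| ≤ 1 then 1 else 0 := by
  have h := digit_single (τ := 1 / 12) (by norm_num) (by norm_num) z
  have h2 := K13_fst (fun p => ker (p.2 * (1 / 2 - p.1)) (1 / 2 + p.1) z) (J1_ker_meas z)
  have e : ∀ q : Q9, ker (q.2 * (1 - ca q)) (ca q) z =
      ker (q.2 * (1 / 2 - q.1.1)) (1 / 2 + q.1.1) z := by
    intro q
    unfold ca
    congr 2
    ring
  simp only [e]
  rw [h2]
  exact h

theorem K13_p1 (z : ℝ) :
    ∫⁻ q, ker (-(q.2 * (1 - cb q))) (cb q) z ∂pi9 ≤ if |z| ≤ 1 then 1 else 0 := by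
  have h := digit_single (τ := 1 / 12) (by norm_num) (by norm_num) (-z)
  have h2 := K13_snd (fun p => ker (p.2 * (1 / 2 - p.1)) (1 / 2 + p.1) (-z)) (J1_ker_meas (-z))
  have e : ∀ q : Q9, ker (-(q.2 * (1 - cb q))) (cb q) z =
      ker (q.2 * (1 / 2 - q.1.2)) (1 / 2 + q.1.2) (-z) := by
    intro q
    rw [K13_ker_neg]
    unfold cb
    congr 2
    ring
  simp only [e]
  rw [h2]
  rw [abs_neg] at h
  exact h

/-- the mean of `xA` is zero -/
theorem K13_mean (a b : ℝ) (h : |b| ≤ a) :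
    ∫⁻ q, ENNReal.ofReal (a + b * xA q) ∂pi9 = ENNReal.ofReal a := by
  have h1 := K13_lam_prob
  have h2 := sgnM_prob
  have ha : 0 ≤ a := (abs_nonneg b).trans h
  have hm : Measurable (fun q : Q9 => ENNReal.ofReal (a + b * xA q)) := by
    unfold xA
    fun_prop
  rw [K13_int _ hm]
  have key : ∀ᵐ s ∂(lam (1 / 12)), ∫⁻ t, ∫⁻ η, ENNReal.ofReal (a + b * xA ((s, t), η)) ∂sgnM
      ∂(lam (1 / 12)) = ENNReal.ofReal a := by
    filter_upwards [lam_ae (1 / 12)] with s hs
    have key2 : ∀ᵐ t ∂(lam (1 / 12)), ∫⁻ η, ENNReal.ofReal (a + b * xA ((s, t), η)) ∂sgnM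
        = ENNReal.ofReal a := by
      filter_upwards [lam_ae (1 / 12)] with t ht
      rw [lintegral_sgnM _ (by unfold xA; fun_prop)]
      have h3 : |b * (t - s)| ≤ a := by
        rw [abs_mul]
        have h4 : |t - s| ≤ 1 := by
          have := abs_sub t s
          linarith
        nlinarith [abs_nonneg b, abs_nonneg (t - s)]
      rw [abs_le] at h3
      unfold xA
      simp only
      rw [← ENNReal.ofReal_add (by linarith) (by linarith)]
      have e : a + b * (1 * (t - s)) + (a + b * (-1 * (t - s))) = a * 2 := by ring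
      rw [e, ENNReal.ofReal_mul ha]
      simp only [ENNReal.ofReal_ofNat]
      rw [mul_div_assoc, ENNReal.div_self (by norm_num) (by norm_num), mul_one]
    rw [lintegral_congr_ae key2, lintegral_const, measure_univ, mul_one]
  rw [lintegral_congr_ae key, lintegral_const, measure_univ, mul_one]

/-! ### singles -/

/-- loads of the elements of 5* -/
noncomputable def K13f : Fin 2 ⊕ Fin 3 → Q9 → ℝ → ℝ≥0∞ :=
  Sum.elim ![fun q z => ker (q.2 * (1 - ca q)) (ca q) z,
    fun q z => ker (-(q.2 * (1 - cb q))) (cb q) z] (fun _ _ z => ker 0 1 z)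

theorem K13_ca_meas : Measurable ca := by
  unfold ca
  fun_prop

theorem K13_cb_meas : Measurable cb := by
  unfold cb
  fun_prop

theorem K13f_meas (i : Fin 2 ⊕ Fin 3) : Measurable (Function.uncurry (K13f i)) := by
  rcases i with i | i
  · fin_cases i
    · exact B4_measurable_ker (Q := Q9) (D := fun q => q.2 * (1 - ca q)) (V := ca)
        (measurable_snd.mul (K13_ca_meas.const_sub 1)) K13_ca_meas
    · exact B4_measurable_ker (Q := Q9) (D := fun q => -(q.2 * (1 - cb q))) (V := cb)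
        (measurable_snd.mul (K13_cb_meas.const_sub 1)).neg K13_cb_meas
  · exact (B4_measurable_ker' 0 1).comp measurable_snd

theorem K13_lin_single {ι : Type} [Fintype ι] [DecidableEq ι] (i : ι) :
    (lin (fun k => if k = i then (1 : ℤ) else 0) : (ι → ℝ) → ℝ) = fun y => y i := by
  funext y
  unfold lin
  simp

theorem K13_load {θ : Kernel ℝ (Fin 4 → ℝ)} [IsMarkovKernel θ]
    {κA : Kernel (ℝ × Q9) (Fin 2 ⊕ Fin 3 → ℝ)} {κB : Kernel (ℝ × Q9) (Fin 4 → ℝ)}
    (h9 : Nine θ κA κB) (X : ℝ) (q : Q9) (hq : Val q) (i : Fin 2 ⊕ Fin 3) :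
    HasLoad ((κA (X, q)).map (fun y => y i)) (K13f i q) := by
  have hc1 : 0 < ca q := by
    have := abs_le.1 hq.1
    unfold ca
    linarith
  have hc2 : 0 < cb q := by
    have := abs_le.1 hq.2.1
    unfold cb
    linarith
  have hv := vsq_v9 q hq (fun k => if k = i then (1 : ℤ) else 0)
  have hd := lin_d9 q (fun k => if k = i then (1 : ℤ) else 0)
  have hl := h9.load X q hq (fun k => if k = i then (1 : ℤ) else 0)
  rw [K13_lin_single] at hl
  rcases i with i | i
  · fin_cases i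
    · have hv2 : vsq (v9 q) (fun k => if k = Sum.inl 0 then (1 : ℤ) else 0) = ca q ^ 2 := by
        rw [show (Sum.inl 0 : Fin 2 ⊕ Fin 3) = Sum.inl ⟨0, by norm_num⟩ from rfl]
        refine hv.trans ?_
        simp [del9]
      have hd2 : ∑ k, (((if k = Sum.inl 0 then (1 : ℤ) else 0 : ℤ)) : ℝ) * d9 q k =
          q.2 * (1 - ca q) := by
        refine hd.trans ?_
        simp
      have hl2 := hl (by
        have : (0 : ℝ) < ca q ^ 2 := by positivity
        rw [← hv2] at this
        exact this)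
      have e1 : Real.sqrt (ca q ^ 2) = ca q := Real.sqrt_sq hc1.le
      rw [← hv2] at e1
      have e2 : K13f (Sum.inl ((fun i => i) ⟨0, by norm_num⟩)) q = ker
          (∑ k, (((if k = Sum.inl 0 then (1 : ℤ) else 0 : ℤ)) : ℝ) * d9 q k)
          (Real.sqrt (vsq (v9 q) (fun k => if k = Sum.inl 0 then (1 : ℤ) else 0))) := by
        rw [e1, hd2]
        rfl
      rw [e2]
      exact hl2
    · have hv2 : vsq (v9 q) (fun k => if k = Sum.inl 1 then (1 : ℤ) else 0) = cb q ^ 2 := by
        refine hv.trans ?_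
        simp [del9]
      have hd2 : ∑ k, (((if k = Sum.inl 1 then (1 : ℤ) else 0 : ℤ)) : ℝ) * d9 q k =
          -(q.2 * (1 - cb q)) := by
        refine hd.trans ?_
        simp
        ring
      have hl2 := hl (by
        have : (0 : ℝ) < cb q ^ 2 := by positivity
        rw [← hv2] at this
        exact this)
      have e1 : Real.sqrt (cb q ^ 2) = cb q := Real.sqrt_sq hc2.le
      rw [← hv2] at e1
      have e2 : K13f (Sum.inl 1) q = ker
          (∑ k, (((if k = Sum.inl 1 then (1 : ℤ) else 0 : ℤ)) : ℝ) * d9 q k)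
          (Real.sqrt (vsq (v9 q) (fun k => if k = Sum.inl 1 then (1 : ℤ) else 0))) := by
        rw [e1, hd2]
        rfl
      have e3 : K13f (Sum.inl ((fun i => i) ⟨1, by norm_num⟩)) q = K13f (Sum.inl 1) q := rfl
      rw [e3, e2]
      exact hl2
  · have hv2 : vsq (v9 q) (fun k => if k = Sum.inr i then (1 : ℤ) else 0) = 1 := by
      rw [hv]
      fin_cases i <;> simp [del9] <;> ring
    have hd2 : ∑ k, (((if k = Sum.inr i then (1 : ℤ) else 0 : ℤ)) : ℝ) * d9 q k = 0 := by
      rw [hd]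
      simp
    have hl2 := hl (by rw [hv2]; norm_num)
    rw [hv2, hd2, Real.sqrt_one] at hl2
    exact hl2

theorem K13_sumf (z : ℝ) : ∑ j, ∫⁻ q, K13f j q z ∂pi9 ≤ if |z| ≤ 1 then 5 else 0 := by
  have := pi9_prob
  have e : ∑ j, ∫⁻ q, K13f j q z ∂pi9 =
      (∫⁻ q, ker (q.2 * (1 - ca q)) (ca q) z ∂pi9 +
        ∫⁻ q, ker (-(q.2 * (1 - cb q))) (cb q) z ∂pi9) + (ker 0 1 z + ker 0 1 z + ker 0 1 z) := by
    rw [Fintype.sum_sum_type, Fin.sum_univ_two, Fin.sum_univ_three]
    have h1 : ∀ i : Fin 3, ∫⁻ q, K13f (Sum.inr i) q z ∂pi9 = ker 0 1 z := by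
      intro i
      show ∫⁻ _, ker 0 1 z ∂pi9 = _
      simp
    rw [h1, h1, h1]
    rfl
  rw [e]
  have h1 := K13_p0 z
  have h2 := K13_p1 z
  by_cases hz : |z| ≤ 1
  · rw [if_pos hz] at h1 h2 ⊢
    have h3 : ker 0 1 z = 1 := by
      unfold ker
      rw [sub_zero, if_pos hz]
      simp
    rw [h3]
    calc _ ≤ (1 + 1 : ℝ≥0∞) + (1 + 1 + 1) := by gcongr
      _ = 5 := by norm_num
  · rw [if_neg hz] at h1 h2 ⊢
    have h3 : ker 0 1 z = 0 := by
      unfold ker
      rw [sub_zero, if_neg hz]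
    rw [h3]
    have h4 := le_antisymm h1 zero_le
    have h5 := le_antisymm h2 zero_le
    rw [h4, h5]
    simp

theorem K13_sumg (X : ℝ) (hX : |X| ≤ 1 / 20) (z : ℝ) :
    ∫⁻ q, sprof (2 / ((Fintype.card (Fin 4) : ℕ) : ℝ) * (X - xA q)) z ∂pi9 = sprof (X / 2) z := by
  by_cases hz : |z| ≤ 1
  · by_cases h0 : 0 ≤ z
    · simp only [sprof, if_pos hz, if_pos h0]
      have h := K13_mean (1 + X / 2) (-(1 / 2)) (by
        rw [abs_neg, abs_of_pos (by norm_num : (0 : ℝ) < 1 / 2)]
        have := abs_le.1 hX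
        linarith)
      rw [← h]
      refine lintegral_congr fun q => ?_
      congr 1
      simp only [Fintype.card_fin]
      push_cast
      ring
    · simp only [sprof, if_pos hz, if_neg h0]
      have h := K13_mean (1 - X / 2) (1 / 2) (by
        rw [abs_of_pos (by norm_num : (0 : ℝ) < 1 / 2)]
        have := abs_le.1 hX
        linarith)
      rw [← h]
      refine lintegral_congr fun q => ?_
      congr 1
      simp only [Fintype.card_fin]
      push_cast
      ring
  · simp [sprof, hz]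

theorem K13_profile (X : ℝ) (hX : |X| ≤ 1 / 20) (z : ℝ) :
    ((∑ j, ∫⁻ q, K13f j q z ∂pi9) +
      ∑ _j : Fin 4, ∫⁻ q, sprof (2 / ((Fintype.card (Fin 4) : ℕ) : ℝ) * (X - xA q)) z ∂pi9)
      / (Fintype.card I9 : ℝ≥0∞) ≤ sprof (2 / ((Fintype.card I9 : ℕ) : ℝ) * X) z := by
  have hX2 := abs_le.1 hX
  have hcard : Fintype.card I9 = 9 := rfl
  have h1 := K13_sumf z
  have hg : ∑ _j : Fin 4, ∫⁻ q, sprof (2 / ((Fintype.card (Fin 4) : ℕ) : ℝ) * (X - xA q)) z ∂pi9
      = 4 * sprof (X / 2) z := by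
    rw [K13_sumg X hX z]
    simp
  rw [hg, hcard]
  refine ENNReal.div_le_of_le_mul ?_
  by_cases hz : |z| ≤ 1
  · rw [if_pos hz] at h1
    by_cases h0 : 0 ≤ z
    · simp only [sprof, if_pos hz, if_pos h0]
      calc _ ≤ (5 : ℝ≥0∞) + 4 * ENNReal.ofReal (1 + X / 2) := by gcongr
        _ = ENNReal.ofReal (5 + 4 * (1 + X / 2)) := by
            have h4 : (0 : ℝ) ≤ 4 * (1 + X / 2) := by linarith
            rw [ENNReal.ofReal_add (by norm_num) h4,
              ENNReal.ofReal_mul (p := 4) (by norm_num)]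
            simp
        _ ≤ ENNReal.ofReal ((1 + 2 / 9 * X) * 9) := ENNReal.ofReal_le_ofReal (by linarith)
        _ = _ := by
            rw [ENNReal.ofReal_mul (by linarith)]
            simp
    · simp only [sprof, if_pos hz, if_neg h0]
      calc _ ≤ (5 : ℝ≥0∞) + 4 * ENNReal.ofReal (1 - X / 2) := by gcongr
        _ = ENNReal.ofReal (5 + 4 * (1 - X / 2)) := by
            have h4 : (0 : ℝ) ≤ 4 * (1 - X / 2) := by linarith
            rw [ENNReal.ofReal_add (by norm_num) h4,
              ENNReal.ofReal_mul (p := 4) (by norm_num)]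
            simp
        _ ≤ ENNReal.ofReal ((1 - 2 / 9 * X) * 9) := ENNReal.ofReal_le_ofReal (by linarith)
        _ = _ := by
            rw [ENNReal.ofReal_mul (by linarith)]
            simp
  · rw [if_neg hz] at h1
    have h2 := le_antisymm h1 zero_le
    rw [h2]
    simp [sprof, hz]

/-! ### rich forms -/

theorem K13_not_three {ι : Type} (u : ι → ℤ) (p q : ℤ) (h : ∀ k, u k = p ∨ u k = q) :
    ¬ Three u := by
  rintro ⟨i, j, k, h1, h2, h3⟩
  rcases h i with hi | hi <;> rcases h j with hj | hj <;> rcases h k with hk | hk <;> omega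

theorem K13_three_perm {ι : Type} (u : ι → ℤ) (σ : Equiv.Perm ι) (h : Three u) :
    Three (u ∘ σ) := by
  obtain ⟨i, j, k, h1, h2, h3⟩ := h
  exact ⟨σ.symm i, σ.symm j, σ.symm k, by simpa using h1, by simpa using h2, by simpa using h3⟩

theorem K13_two (u : I9 → ℤ) (hu : Rich u) (h3 : ¬ Three u) :
    ∃ (r c : ℤ) (S : Finset I9), c ≠ 0 ∧ 2 ≤ S.card ∧ S.card ≤ 4 ∧
      ∀ i, u i = r + c * (if i ∈ S then 1 else 0) := by
  classical
  -- a value taken on at most four elements
  have main : ∀ p q : ℤ, p ≠ q → (∀ k, u k = p ∨ u k = q) →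
      (Finset.univ.filter (fun k => u k = p)).card ≤ 4 →
      ∃ (r c : ℤ) (S : Finset I9), c ≠ 0 ∧ 2 ≤ S.card ∧ S.card ≤ 4 ∧
        ∀ i, u i = r + c * (if i ∈ S then 1 else 0) := by
    intro p q hpq hk hc
    refine ⟨q, p - q, Finset.univ.filter (fun k => u k = p), sub_ne_zero.2 hpq, ?_, hc, ?_⟩
    · by_contra hlt
      apply hu
      have h1 : (Finset.univ.filter (fun k => u k = p)).card ≤ 1 := by omega
      rw [Finset.card_le_one] at h1
      by_cases he : ∃ s, u s = p
      · obtain ⟨s, hs⟩ := he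
        refine ⟨s, q, fun j hj => ?_⟩
        rcases hk j with h2 | h2
        · exact absurd (h1 j (by simpa using h2) s (by simpa using hs)) hj
        · exact h2
      · refine ⟨Sum.inr 0, q, fun j _ => ?_⟩
        rcases hk j with h2 | h2
        · exact absurd ⟨j, h2⟩ he
        · exact h2
    · intro i
      simp only [Finset.mem_filter, Finset.mem_univ, true_and]
      rcases hk i with h2 | h2
      · rw [if_pos h2, h2]
        ring
      · rw [if_neg (by rw [h2]; exact hpq.symm), h2]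
        ring
  have hne : ∃ i j, u i ≠ u j := by
    by_contra hall
    push Not at hall
    exact hu ⟨Sum.inr 0, u (Sum.inr 0), fun j _ => hall j _⟩
  obtain ⟨i, j, hij⟩ := hne
  have hk : ∀ k, u k = u i ∨ u k = u j := by
    intro k
    by_contra hcon
    push Not at hcon
    exact h3 ⟨i, j, k, hij, hcon.1.symm, hcon.2.symm⟩
  have hsum : (Finset.univ.filter (fun k => u k = u i)).card +
      (Finset.univ.filter (fun k => u k = u j)).card = 9 := by
    have h1 : Finset.univ.filter (fun k => u k = u j) =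
        Finset.univ.filter (fun k => ¬ u k = u i) := by
      ext k
      simp only [Finset.mem_filter, Finset.mem_univ, true_and]
      constructor
      · intro h2 h4
        exact hij (h4.symm.trans h2)
      · intro h2
        rcases hk k with h4 | h4
        · exact absurd h4 h2
        · exact h4
    rw [h1, Finset.card_filter_add_card_filter_not]
    rfl
  by_cases h4 : (Finset.univ.filter (fun k => u k = u i)).card ≤ 4
  · exact main _ _ hij hk h4
  · exact main _ _ hij.symm (fun k => (hk k).symm) (by omega)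

section
variable {θ : Kernel ℝ (Fin 4 → ℝ)} [IsMarkovKernel θ]
  {κA : Kernel (ℝ × Q9) (Fin 2 ⊕ Fin 3 → ℝ)} {κB : Kernel (ℝ × Q9) (Fin 4 → ℝ)}
  [IsMarkovKernel κA] [IsMarkovKernel κB]

/-- what has to be shown for rich forms -/
def K13R (κA : Kernel (ℝ × Q9) (Fin 2 ⊕ Fin 3 → ℝ)) (κB : Kernel (ℝ × Q9) (Fin 4 → ℝ)) (X : ℝ)
    (u : I9 → ℤ) : Prop :=
  ∃ F : Equiv.Perm I9 → ℝ → ℝ≥0∞, (∀ σ, Measurable (F σ)) ∧
    (∀ σ : Equiv.Perm I9, HasLoad (pairLaw κA κB pi9 X (u ∘ σ)) (F σ)) ∧
    ∀ z, ∑ σ, F σ z ≤ ((9 : ℕ).factorial : ℝ≥0∞)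

omit [IsMarkovKernel θ] [IsMarkovKernel κA] [IsMarkovKernel κB] in
theorem K13_count (S : Finset I9) :
    ∑ σ : Equiv.Perm I9, F9
        (Finset.univ.filter (fun k : Fin 2 => σ (Sum.inl (Sum.inl k)) ∈ S)).card
        (Finset.univ.filter (fun k : Fin 3 => σ (Sum.inl (Sum.inr k)) ∈ S)).card
        (Finset.univ.filter (fun k : Fin 4 => σ (Sum.inr k) ∈ S)).card =
      ((Fintype.card ((Fin 2 ⊕ Fin 3) ⊕ Fin 4)).factorial : ℝ) *
      (∑ j ∈ Finset.range (S.card + 1), ∑ l ∈ Finset.range (S.card - j + 1),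
        ((Fintype.card (Fin 2)).choose j : ℝ) * ((Fintype.card (Fin 3)).choose l) *
        ((Fintype.card (Fin 4)).choose (S.card - j - l)) * F9 j l (S.card - j - l)) /
      ((Fintype.card ((Fin 2 ⊕ Fin 3) ⊕ Fin 4)).choose S.card) := by
  rw [← sum_perm_three (α := Fin 2) (β := Fin 3) (γ := Fin 4) S F9]

theorem K13_count_le (S : Finset I9) (h2 : 2 ≤ S.card) (h4 : S.card ≤ 4) :
    ∑ σ : Equiv.Perm I9, F9
        (Finset.univ.filter (fun k : Fin 2 => σ (Sum.inl (Sum.inl k)) ∈ S)).card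
        (Finset.univ.filter (fun k : Fin 3 => σ (Sum.inl (Sum.inr k)) ∈ S)).card
        (Finset.univ.filter (fun k : Fin 4 => σ (Sum.inr k) ∈ S)).card ≤
      ((9 : ℕ).factorial : ℝ) := by
  have hc9 : Fintype.card ((Fin 2 ⊕ Fin 3) ⊕ Fin 4) = 9 := rfl
  rw [K13_count, hc9, Fintype.card_fin, Fintype.card_fin, Fintype.card_fin]
  have hpos : (0 : ℝ) < ((9 : ℕ).choose S.card : ℝ) := by
    have : S.card ≤ 9 := by omega
    exact_mod_cast Nat.choose_pos this
  rw [div_le_iff₀ hpos]
  exact mul_le_mul_of_nonneg_left (F9_sum S.card h2 h4) (by positivity)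

theorem K13_caseA (hθ : Blk4x θ) (h9 : Nine θ κA κB) (X : ℝ) (hX : |X| ≤ 1 / 20) (u : I9 → ℤ)
    (hu : Rich u) (h3 : ¬ Three u) : K13R κA κB X u := by
  obtain ⟨r, c, S, hc, h2, h4, hS⟩ := K13_two u hu h3
  refine ⟨fun (σ : Equiv.Perm I9) _ => ENNReal.ofReal (F9
        (Finset.univ.filter (fun k : Fin 2 => σ (Sum.inl (Sum.inl k)) ∈ S)).card
        (Finset.univ.filter (fun k : Fin 3 => σ (Sum.inl (Sum.inr k)) ∈ S)).card
        (Finset.univ.filter (fun k : Fin 4 => σ (Sum.inr k) ∈ S)).card),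
    fun σ => measurable_const, ?_, ?_⟩
  · intro σ
    set S' : Finset I9 := Finset.univ.filter (fun i => σ i ∈ S) with hS'
    have hcard : S'.card = S.card := by
      apply Finset.card_bij (fun x _ => σ x)
      · intro x hx
        exact (Finset.mem_filter.1 hx).2
      · intro x _ y _ hxy
        exact σ.injective hxy
      · intro y hy
        exact ⟨σ.symm y, Finset.mem_filter.2 ⟨Finset.mem_univ _, by simpa using hy⟩, by simp⟩
    have hmem : ∀ i, i ∈ S' ↔ σ i ∈ S := by
      intro i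
      rw [hS', Finset.mem_filter]
      simp
    have hn := nine_two hθ h9 X hX S' (by omega) (by omega)
    have ha := nine_affine hθ h9 X hX (u ∘ σ) (fun x => if x ∈ S' then 1 else 0) r c (by
      intro i
      simp only [Function.comp, hS (σ i), hmem])
    have e1 : Finset.univ.filter (fun k : Fin 2 => (Sum.inl (Sum.inl k) : I9) ∈ S') =
        Finset.univ.filter (fun k : Fin 2 => σ (Sum.inl (Sum.inl k)) ∈ S) := by
      ext k
      simp only [Finset.mem_filter, hmem]
    have e2 : Finset.univ.filter (fun k : Fin 3 => (Sum.inl (Sum.inr k) : I9) ∈ S') =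
        Finset.univ.filter (fun k : Fin 3 => σ (Sum.inl (Sum.inr k)) ∈ S) := by
      ext k
      simp only [Finset.mem_filter, hmem]
    have e3 : Finset.univ.filter (fun k : Fin 4 => (Sum.inr k : I9) ∈ S') =
        Finset.univ.filter (fun k : Fin 4 => σ (Sum.inr k) ∈ S) := by
      ext k
      simp only [Finset.mem_filter, hmem]
    rw [e1, e2, e3] at hn
    rw [ha]
    exact E5_affine hn c hc _
  · intro z
    rw [← ENNReal.ofReal_sum_of_nonneg fun σ _ => F9_nonneg _ _ _]
    exact (ENNReal.ofReal_le_ofReal (K13_count_le S h2 h4)).trans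
      (le_of_eq (ENNReal.ofReal_natCast _))

theorem K13_caseB (hθ : Blk4x θ) (h9 : Nine θ κA κB) (X : ℝ) (hX : |X| ≤ 1 / 20) (u : I9 → ℤ)
    (h3 : Three u) (i j : I9) (t a b : ℤ) (hij : i ≠ j)
    (hu : ∀ k, u k = t + (if k = i then a else 0) + (if k = j then b else 0)) :
    K13R κA κB X u := by
  have ha : a ≠ 0 := by
    rintro rfl
    refine K13_not_three u t (t + b) (fun k => ?_) h3
    rw [hu k]
    by_cases hk : k = j <;> simp [hk]
  have hb : b ≠ 0 := by
    rintro rfl
    refine K13_not_three u t (t + a) (fun k => ?_) h3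
    rw [hu k]
    by_cases hk : k = i <;> simp [hk]
  have hab : a ≠ b := by
    rintro rfl
    refine K13_not_three u t (t + a) (fun k => ?_) h3
    rw [hu k]
    by_cases hk : k = i
    · subst hk
      simp [hij]
    · by_cases hk2 : k = j
      · rw [if_neg hk, if_pos hk2]
        right
        ring
      · rw [if_neg hk, if_neg hk2]
        left
        ring
  obtain ⟨M, hM, hML, hMs⟩ := nine_slots hθ h9 X hX a b ha hb hab
  refine ⟨fun (σ : Equiv.Perm I9) z => M (σ.symm i) (σ.symm j) (z - t * X),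
    fun σ => (hM _ _).comp (measurable_id.sub_const _), ?_, ?_⟩
  · intro σ
    have h1 := nine_affine hθ h9 X hX (u ∘ σ)
      (fun k => (if k = σ.symm i then a else 0) + (if k = σ.symm j then b else 0)) t 1 (by
      intro k
      simp only [Function.comp, hu (σ k), Equiv.eq_symm_apply]
      ring)
    rw [h1]
    have h2 := HasLoad.shift (hM _ _) (hML (σ.symm i) (σ.symm j)
      (fun h => hij (σ.symm.injective h))) ((t : ℝ) * X)
    simpa using h2
  · intro z
    rw [sum_perm_pairs_symm i j hij (fun x y => M x y (z - t * X))]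
    have hc9 : Fintype.card I9 = 9 := rfl
    rw [hc9]
    calc _ ≤ (((9 - 2 : ℕ).factorial : ℕ) : ℝ≥0∞) * 72 := by
          gcongr
          exact hMs _
      _ = _ := by
          norm_num [Nat.factorial]

theorem K13_caseC (hθ : Blk4x θ) (h9 : Nine θ κA κB) (X : ℝ) (hX : |X| ≤ 1 / 20) (u : I9 → ℤ)
    (h3 : Three u)
    (h7 : ¬ ∃ (i j : I9) (t a b : ℤ), i ≠ j ∧ ∀ k, u k = t + (if k = i then a else 0)
      + (if k = j then b else 0)) : K13R κA κB X u := by
  obtain ⟨g, hg1, hg2⟩ := class_map (ι := I9) rfl u h3 h7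
  refine ⟨fun (σ : Equiv.Perm I9) _ => ENNReal.ofReal (H9 (fun i => g ((u ∘ σ) i))),
    fun σ => measurable_const,
    fun σ => nine_H hθ h9 X hX (u ∘ σ) (K13_three_perm u σ h3) g, ?_⟩
  intro z
  rw [← ENNReal.ofReal_sum_of_nonneg fun σ _ => H9_nonneg _]
  have h := H9_sum (fun i => g (u i)) hg1 hg2
  calc _ ≤ ENNReal.ofReal ((9 : ℕ).factorial : ℝ) := ENNReal.ofReal_le_ofReal h
    _ = _ := ENNReal.ofReal_natCast _

theorem K13_rich (hθ : Blk4x θ) (h9 : Nine θ κA κB) (X : ℝ) (hX : |X| ≤ 1 / 20) (u : I9 → ℤ)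
    (hu : Rich u) : K13R κA κB X u := by
  by_cases h3 : Three u
  · by_cases h7 : ∃ (i j : I9) (t a b : ℤ), i ≠ j ∧ ∀ k, u k = t + (if k = i then a else 0)
      + (if k = j then b else 0)
    · obtain ⟨i, j, t, a, b, hij, h⟩ := h7
      exact K13_caseB hθ h9 X hX u h3 i j t a b hij h
    · exact K13_caseC hθ h9 X hX u h3 h7
  · exact K13_caseA hθ h9 X hX u hu h3

end

theorem fam_nine : Fam I9 (1 / 20) := by
  obtain ⟨θ, hθM, hθ⟩ := block_four_ext
  obtain ⟨κA, κB, hA, hB, h9⟩ := nine_exists θ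
  have := pi9_prob
  obtain ⟨ζ, hζM, hζ⟩ := exists_two κA κB pi9
  refine ⟨ζ, hζM, fun X hX => ⟨?_, ?_, ?_⟩⟩
  · refine (hζ X).1 xA (fun q => X - xA q) ?_
    filter_upwards [pi9_val] with q hq
    refine ⟨h9.supp X q hq, ?_, by ring⟩
    rw [h9.kB]
    have := K13_y X hX q hq
    exact hθ.blk.supp (X - xA q) (by linarith)
  · intro i
    refine ((hζ X).2.1 K13f
      (fun _ q z => sprof (2 / ((Fintype.card (Fin 4) : ℕ) : ℝ) * (X - xA q)) z)
      K13f_meas ?_ ?_ ?_ i).mono fun z => K13_profile X hX z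
    · intro _
      have hm : Measurable (fun p : Q9 × ℝ =>
          (2 / ((Fintype.card (Fin 4) : ℕ) : ℝ) * (X - xA p.1), p.2)) :=
        ((measurable_const.mul (measurable_const.sub (xA_measurable.comp measurable_fst)))).prodMk
          measurable_snd
      exact E5_meas_sprof.comp hm
    · intro j
      filter_upwards [pi9_val] with q hq
      exact K13_load h9 X q hq j
    · intro j
      filter_upwards [pi9_val] with q hq
      rw [h9.kB]
      have := K13_y X hX q hq
      exact hθ.blk.single (X - xA q) (by linarith) j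
  · intro u hu
    obtain ⟨F, hF, hFL, hFs⟩ := K13_rich hθ h9 X hX u hu
    refine ((hζ X).2.2 u F hF hFL).mono fun z => ?_
    have hc9 : Fintype.card ((Fin 2 ⊕ Fin 3) ⊕ Fin 4) = 9 := rfl
    rw [hc9]
    refine ENNReal.div_le_of_le_mul ?_
    rw [one_mul]
    exact hFs z

end Pool.Agent.helper49.Slope
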