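import Pool.Agent.helper49.Slope.B9
import Pool.Agent.helper49.Slope.E6
import Pool.Agent.helper49.Slope.G10
import Pool.Agent.helper49.Slope.G11
import Pool.Agent.helper49.Slope.G12
import Pool.Agent.helper49.Slope.K13

/-!
MP_aedd95_co (slope of k-fold hyperplane covers of triangular grids), module Main9.
The laws for all N ≥ 9: strong induction on `N` for `Fam (Fin N) (1/20)`, base cases 9, 10, 11, 12
(transport with `Fam.equiv`, cardinalities), step `fam_step` and `Fin n ⊕ Fin 4 ≃ Fin (n+4)`;
then `Fam.law`. (helper9)
-/

set_option autoImplicit false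

open MeasureTheory ProbabilityTheory
open scoped ENNReal

namespace Pool.Agent.helper49.Slope

theorem fam_all (N : ℕ) (hN : 9 ≤ N) : Fam (Fin N) (1 / 20) := by
  induction N using Nat.strong_induction_on with
  | _ N ih =>
    by_cases h13 : 13 ≤ N
    · obtain ⟨n, rfl⟩ : ∃ n, N = n + 4 := ⟨N - 4, by omega⟩
      have H := fam_step (ι := Fin n) (by rw [Fintype.card_fin]; omega)
        (ih n (by omega) (by omega))
      exact H.equiv finSumFinEquiv
    · have h : N = 9 ∨ N = 10 ∨ N = 11 ∨ N = 12 := by omega
      rcases h with rfl | rfl | rfl | rfl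
      · exact fam_nine.equiv (Fintype.equivFinOfCardEq (by simp))
      · exact fam_ten.equiv (Fintype.equivFinOfCardEq (by simp))
      · exact fam_eleven.equiv (Fintype.equivFinOfCardEq (by simp))
      · exact fam_twelve.equiv (Fintype.equivFinOfCardEq (by simp))

theorem law_ge_nine (N : ℕ) (hN : 9 ≤ N) : LawOK (Fin N) :=
  (fam_all N hN).law (by norm_num)

end Pool.Agent.helper49.Slope
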