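import Pool.Agent.helper49.Slope.A10
import Pool.Agent.helper49.Slope.C1
import Pool.Agent.helper49.Slope.D5
import Pool.Agent.helper49.Slope.D6
import Pool.Agent.helper49.Slope.G8
import Pool.Agent.helper49.Slope.Main9

/-!
MP_aedd95_co (slope of k-fold hyperplane covers of triangular grids): assembly.
-/

set_option autoImplicit false

open MeasureTheory ProbabilityTheory
open scoped ENNReal

namespace Pool.Agent.helper49.Slope

/-- all laws, given the one for `N = 7` -/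
theorem law_all (h7 : LawOK (Fin 7)) (N : ℕ) (hN : 2 ≤ N) : LawOK (Fin N) := by
  rcases Nat.lt_or_ge N 9 with h | h
  · interval_cases N
    · exact law_two
    · exact law_three
    · exact law_four
    · exact law_five
    · exact law_six
    · exact h7
    · exact law_eight
  · exact law_ge_nine N h

/-- all laws except the one for `N = 7` -/
theorem law_ne_seven (N : ℕ) (hN : 2 ≤ N) (h : N ≠ 7) : LawOK (Fin N) := by
  rcases Nat.lt_or_ge N 9 with h9 | h9
  · interval_cases N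
    · exact law_two
    · exact law_three
    · exact law_four
    · exact law_five
    · exact law_six
    · exact absurd rfl h
    · exact law_eight
  · exact law_ge_nine N h9

/-- unconditional form of both bounds, in one dimension `d` -/
theorem bounds_of_law (d : ℕ) (hd : 1 ≤ d) (hL : LawOK (Fin (d + 1))) (k : ℕ) :
    (∀ ε : ℝ, 0 < ε → ∃ n₀ : ℕ, ∀ n : ℕ, n₀ ≤ n →
      (2 * (k : ℝ) / (d + 1) - ε) * n ≤ (f n d k : ℝ)) ∧
    (∃ B : ℝ, ∀ n : ℕ, 1 ≤ n → (f n d k : ℝ) ≤ (2 * (k : ℝ) / (d + 1) + 2) * n + B) := by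
  have hd1 : (0 : ℝ) < (d : ℝ) + 1 := by positivity
  constructor
  · intro ε hε
    -- choose δ with k / ((d+1)/2 + δ) ≥ 2k/(d+1) - ε
    obtain ⟨δ, hδ, hδk⟩ : ∃ δ : ℝ, 0 < δ ∧
        (2 * (k : ℝ) / (d + 1) - ε) * (((d : ℝ) + 1) / 2 + δ) ≤ k := by
      refine ⟨ε * ((d : ℝ) + 1) / 2 / (2 * (k : ℝ) / (d + 1) + 1), by positivity, ?_⟩
      set K := 2 * (k : ℝ) / (d + 1) with hK
      have hK0 : 0 ≤ K := by positivity
      have hKk : K * (((d : ℝ) + 1) / 2) = k := by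
        rw [hK]; field_simp
      have h1 : ε * ((d : ℝ) + 1) / 2 / (K + 1) * (K + 1) = ε * ((d : ℝ) + 1) / 2 := by
        field_simp
      have h2 : 0 < ε * ((d : ℝ) + 1) / 2 / (K + 1) := by positivity
      nlinarith
    obtain ⟨n₀, hn₀⟩ := discretise d hd hL δ hδ
    refine ⟨max n₀ 1, fun n hn => ?_⟩
    have hn1 : n₀ ≤ n := le_trans (le_max_left _ _) hn
    have hn2 : 1 ≤ n := le_trans (le_max_right _ _) hn
    have hnpos : (0 : ℝ) < n := by exact_mod_cast hn2
    obtain ⟨P, hP, hP0, hPb⟩ := hn₀ n hn1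
    obtain ⟨M, hM, hcard⟩ := A10_attained d hd k n hn2
    have hδ0 : (0 : ℝ) ≤ (((d : ℝ) + 1) / 2 + δ) / n := by positivity
    have hdual := duality hM P hP0 hδ0 hPb
    rw [hcard] at hdual
    have h2 : (k : ℝ) * n ≤ (((d : ℝ) + 1) / 2 + δ) * f n d k := by
      have := mul_le_mul_of_nonneg_right hdual hnpos.le
      rwa [div_mul_eq_mul_div, div_mul_cancel₀ _ hnpos.ne'] at this
    have h3 : (0 : ℝ) < ((d : ℝ) + 1) / 2 + δ := by positivity
    have h4 : (((d : ℝ) + 1) / 2 + δ) * ((2 * (k : ℝ) / (d + 1) - ε) * n)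
        ≤ (((d : ℝ) + 1) / 2 + δ) * f n d k := by
      have := mul_le_mul_of_nonneg_right hδk hnpos.le
      linarith [this]
    exact le_of_mul_le_mul_left h4 h3
  · obtain ⟨B, hB⟩ := upper d hd k
    refine ⟨B, fun n hn => ?_⟩
    obtain ⟨M, hM, hcard⟩ := hB n hn
    have h1 : (f n d k : ℝ) ≤ Multiset.card M := by exact_mod_cast A10_f_le hM
    linarith

/-- both bounds for the slope -/
theorem slope_of_bounds (d : ℕ) (k : ℕ)
    (h : (∀ ε : ℝ, 0 < ε → ∃ n₀ : ℕ, ∀ n : ℕ, n₀ ≤ n →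
      (2 * (k : ℝ) / (d + 1) - ε) * n ≤ (f n d k : ℝ)) ∧
    (∃ B : ℝ, ∀ n : ℕ, 1 ≤ n → (f n d k : ℝ) ≤ (2 * (k : ℝ) / (d + 1) + 2) * n + B))
    (C : ℝ) (hC : SlopeIs d k C) :
    2 * (k : ℝ) / (d + 1) ≤ C ∧ C ≤ 2 * (k : ℝ) / (d + 1) + 2 := by
  obtain ⟨B₀, hB₀⟩ := hC
  constructor
  · refine le_of_forall_pos_le_add fun ε hε => ?_
    obtain ⟨n₀, hn₀⟩ := h.1 ε hε
    have := A10_lin (a := 2 * (k : ℝ) / (d + 1) - ε) (b := C) (c := B₀) (n₀ := max n₀ 1)
      (fun n hn => by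
        have hn1 : n₀ ≤ n := le_trans (le_max_left _ _) hn
        have hn2 : 1 ≤ n := le_trans (le_max_right _ _) hn
        have h1 := (abs_le.1 (hB₀ n hn2)).2
        have h2 := hn₀ n hn1
        linarith)
    linarith
  · obtain ⟨B, hB⟩ := h.2
    apply A10_lin (c := B + B₀) (n₀ := 1)
    intro n hn
    have h1 := (abs_le.1 (hB₀ n hn)).1
    have h2 := hB n hn
    linarith

end Pool.Agent.helper49.Slope
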