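import Pool.Agent.helper49.Slope.DefsE

/-!
MP_aedd95_co (slope of k-fold hyperplane covers of triangular grids), module G10a.
Level sizes of a rich form on 10 elements; the table of bounds for the blocks (3,3,4).
-/

set_option autoImplicit false

open MeasureTheory ProbabilityTheory
open scoped ENNReal

namespace Pool.Agent.helper49.Slope

section levels
variable {ι : Type} [Fintype ι]

/-- size of a level -/
def G10a_N (u : ι → ℤ) (a : ℤ) : ℕ := (Finset.univ.filter (fun i => u i = a)).card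

theorem G10a_cnt (u : ι → ℤ) (S : Finset ℤ) :
    (Finset.univ.filter (fun i => u i ∈ S)).card = ∑ a ∈ S, G10a_N u a := by
  rw [Finset.card_eq_sum_card_fiberwise (f := u) (t := S) (fun i hi => by simpa using hi)]
  refine Finset.sum_congr rfl fun a ha => ?_
  unfold G10a_N
  congr 1
  ext i
  simp only [Finset.mem_filter, Finset.mem_univ, true_and]
  constructor
  · rintro ⟨-, h⟩
    exact h
  · intro h
    exact ⟨h ▸ ha, h⟩

theorem G10a_P (u : ι → ℤ) (S : Finset ℤ) :
    (Finset.univ.filter (fun i => (fun a : ℤ => decide (a ∈ S)) (u i) = true)).card =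
      ∑ a ∈ S, G10a_N u a := by
  rw [← G10a_cnt]
  congr 1
  ext i
  simp

theorem G10a_Pc (u : ι → ℤ) (S : Finset ℤ) :
    (Finset.univ.filter (fun i => (fun a : ℤ => decide (a ∉ S)) (u i) = true)).card +
      ∑ a ∈ S, G10a_N u a = Fintype.card ι := by
  have h := Finset.card_filter_add_card_filter_not (s := (Finset.univ : Finset ι))
    (fun i => u i ∈ S)
  rw [G10a_cnt] at h
  have h2 : (Finset.univ.filter (fun i => (fun a : ℤ => decide (a ∉ S)) (u i) = true)).card =
      (Finset.univ.filter (fun i => ¬ u i ∈ S)).card := by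
    congr 1
    ext i
    simp
  rw [h2, ← Finset.card_univ]
  omega

theorem G10a_all (u : ι → ℤ) (S : Finset ℤ) (h : ∀ i, u i ∈ S) :
    ∑ a ∈ S, G10a_N u a = Fintype.card ι := by
  rw [← G10a_cnt, ← Finset.card_univ]
  congr 1
  ext i
  simp [h i]

theorem G10a_le (u : ι → ℤ) (S : Finset ℤ) : ∑ a ∈ S, G10a_N u a ≤ Fintype.card ι := by
  rw [← G10a_cnt]
  exact Finset.card_le_univ _

theorem G10a_pos (u : ι → ℤ) (i : ι) : 1 ≤ G10a_N u (u i) :=
  Finset.card_pos.2 ⟨i, by simp⟩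

/-- rich forms have no level with at least `n-1` elements -/
theorem G10a_rich (u : ι → ℤ) (hu : Rich u) (i0 : ι) (a : ℤ) :
    G10a_N u a + 2 ≤ Fintype.card ι := by
  by_contra hcon
  apply hu
  have h1 : (Finset.univ.filter (fun i => ¬ u i = a)).card ≤ 1 := by
    have h := Finset.card_filter_add_card_filter_not (s := (Finset.univ : Finset ι))
      (fun i => u i = a)
    rw [Finset.card_univ] at h
    unfold G10a_N at hcon
    omega
  rw [Finset.card_le_one] at h1
  by_cases hex : ∃ i, u i ≠ a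
  · obtain ⟨i, hi⟩ := hex
    refine ⟨i, a, fun j hj => ?_⟩
    by_contra hja
    exact hj (h1 j (by simpa using hja) i (by simpa using hi))
  · push Not at hex
    exact ⟨i0, a, fun j _ => hex j⟩

end levels

/-- Suppose no union of levels has 2 or 5 elements (hence none has 8). Then there is at most one
level of size 1, no level of size 2, 5, 8, and (as `u` is rich) none of size 9, 10. So the sizes
are in `{1,3,4,6,7}` with sum 10 and at most one 1: `7+3`, `6+4`, `6+3+1`, `4+3+3`, `3+3+3+1`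
(`4+4+…` would leave 2; `7+…+…` would leave `1+2`). -/
theorem levels_ten {ι : Type} [Fintype ι] [DecidableEq ι] (h : Fintype.card ι = 10) (u : ι → ℤ)
    (hu : Rich u) :
    (∃ P : ℤ → Bool, (Finset.univ.filter (fun i => P (u i) = true)).card = 2 ∨
      (Finset.univ.filter (fun i => P (u i) = true)).card = 5) ∨
    (∃ a b : ℤ, a ≠ b ∧ (∀ i, u i = a ∨ u i = b) ∧
      ((Finset.univ.filter (fun i => u i = a)).card = 3 ∨
        (Finset.univ.filter (fun i => u i = a)).card = 4)) ∨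
    (∃ a b : ℤ, a ≠ b ∧ (Finset.univ.filter (fun i => u i = a)).card = 3 ∧
      (Finset.univ.filter (fun i => u i = b)).card = 1) ∨
    (∃ a b c : ℤ, a ≠ b ∧ a ≠ c ∧ b ≠ c ∧ (Finset.univ.filter (fun i => u i = a)).card = 3 ∧
      (Finset.univ.filter (fun i => u i = b)).card = 3 ∧
      (Finset.univ.filter (fun i => u i = c)).card = 4) := by
  by_contra hcon
  simp only [not_or] at hcon
  obtain ⟨h1, h2, h3, h4⟩ := hcon
  -- sums over sets of levels
  have hS : ∀ S : Finset ℤ, ∑ a ∈ S, G10a_N u a ≠ 2 ∧ ∑ a ∈ S, G10a_N u a ≠ 5 ∧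
      ∑ a ∈ S, G10a_N u a ≠ 8 := by
    intro S
    refine ⟨fun hc => h1 ⟨fun a => decide (a ∈ S), Or.inl ?_⟩,
      fun hc => h1 ⟨fun a => decide (a ∈ S), Or.inr ?_⟩,
      fun hc => h1 ⟨fun a => decide (a ∉ S), Or.inl ?_⟩⟩
    · rw [G10a_P, hc]
    · rw [G10a_P, hc]
    · have := G10a_Pc u S
      omega
  have hS1 : ∀ a, G10a_N u a ≠ 2 ∧ G10a_N u a ≠ 5 ∧ G10a_N u a ≠ 8 := fun a => by
    simpa using hS {a}
  have hS2 : ∀ a b, a ≠ b → G10a_N u a + G10a_N u b ≠ 2 ∧ G10a_N u a + G10a_N u b ≠ 5 ∧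
      G10a_N u a + G10a_N u b ≠ 8 := fun a b hab => by
    have := hS {a, b}
    rwa [Finset.sum_pair hab] at this
  have h3' : ∀ a b, a ≠ b → G10a_N u a = 3 → G10a_N u b = 1 → False := fun a b hab h5 h6 =>
    h3 ⟨a, b, hab, h5, h6⟩
  have h4' : ∀ a b c, a ≠ b → a ≠ c → b ≠ c →
      G10a_N u a = 3 → G10a_N u b = 3 → G10a_N u c = 4 → False :=
    fun a b c hab hac hbc h5 h6 h7 => h4 ⟨a, b, c, hab, hac, hbc, h5, h6, h7⟩
  have hne : Nonempty ι := by
    rw [← Fintype.card_pos_iff]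
    omega
  obtain ⟨i1⟩ := hne
  have hr : ∀ a, G10a_N u a ≤ 8 := fun a => by
    have := G10a_rich u hu i1 a
    omega
  have hm : ∀ i, G10a_N u (u i) = 1 ∨ G10a_N u (u i) = 3 ∨ G10a_N u (u i) = 4 ∨
      G10a_N u (u i) = 6 ∨ G10a_N u (u i) = 7 := fun i => by
    have p1 := G10a_pos u i
    have q1 := hS1 (u i)
    have r1 := hr (u i)
    omega
  have hm' : ∀ i, G10a_N u (u i) = 1 ∨ 3 ≤ G10a_N u (u i) := fun i => by
    rcases hm i with h | h | h | h | h <;> omega
  have h11 : ∀ a b, a ≠ b → G10a_N u a = 1 → G10a_N u b = 1 → False := fun a b hab h5 h6 =>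
    (hS2 a b hab).1 (by rw [h5, h6])
  have h14 : ∀ a b, a ≠ b → G10a_N u a = 1 → G10a_N u b = 4 → False := fun a b hab h5 h6 =>
    (hS2 a b hab).2.1 (by rw [h5, h6])
  have h17 : ∀ a b, a ≠ b → G10a_N u a = 1 → G10a_N u b = 7 → False := fun a b hab h5 h6 =>
    (hS2 a b hab).2.2 (by rw [h5, h6])
  have h16 : ∀ a b c, a ≠ b → a ≠ c → b ≠ c → G10a_N u a = 1 → G10a_N u b = 6 →
      G10a_N u c = 3 → False := fun a b c hab hac hbc h5 _ h7 => h3' c a (Ne.symm hac) h7 h5
  -- second level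
  by_cases e1 : ∀ i, u i ∈ ({u i1} : Finset ℤ)
  · have h5 := G10a_all u _ e1
    rw [Finset.sum_singleton] at h5
    have := hr (u i1)
    omega
  push Not at e1
  obtain ⟨i2, n2⟩ := e1
  rw [Finset.mem_singleton] at n2
  by_cases e2 : ∀ i, u i ∈ ({u i1, u i2} : Finset ℤ)
  · have h5 := G10a_all u _ e2
    rw [Finset.sum_pair (Ne.symm n2), h] at h5
    have e2' : ∀ i, u i = u i1 ∨ u i = u i2 := fun i => by simpa using e2 i
    have hc : (G10a_N u (u i1) = 3 ∨ G10a_N u (u i1) = 4) ∨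
        (G10a_N u (u i2) = 3 ∨ G10a_N u (u i2) = 4) := by
      rcases hm i1 with h6 | h6 | h6 | h6 | h6 <;> rcases hm i2 with h7 | h7 | h7 | h7 | h7 <;>
        rw [h6, h7] at h5 <;>
        first
          | exact Or.inl (Or.inl h6)
          | exact Or.inl (Or.inr h6)
          | exact Or.inr (Or.inl h7)
          | exact Or.inr (Or.inr h7)
          | exact absurd h5 (of_decide_eq_false rfl)
    rcases hc with hc | hc
    · exact h2 ⟨u i1, u i2, Ne.symm n2, e2', hc⟩
    · exact h2 ⟨u i2, u i1, n2, fun i => (e2' i).symm, hc⟩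
  push Not at e2
  obtain ⟨i3, n3⟩ := e2
  rw [Finset.mem_insert, Finset.mem_singleton, not_or] at n3
  obtain ⟨n31, n32⟩ := n3
  have s3 : ∑ a ∈ ({u i1, u i2, u i3} : Finset ℤ), G10a_N u a =
      G10a_N u (u i1) + (G10a_N u (u i2) + G10a_N u (u i3)) := by
    rw [Finset.sum_insert (by simp [Ne.symm n2, Ne.symm n31]), Finset.sum_pair (Ne.symm n32)]
  by_cases e3 : ∀ i, u i ∈ ({u i1, u i2, u i3} : Finset ℤ)
  · have h5 := G10a_all u _ e3
    rw [s3, h] at h5
    rcases hm i1 with h6 | h6 | h6 | h6 | h6 <;> rcases hm i2 with h7 | h7 | h7 | h7 | h7 <;>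
      rcases hm i3 with h8 | h8 | h8 | h8 | h8 <;> rw [h6, h7, h8] at h5 <;>
      first
        | exact h3' _ _ (Ne.symm n2) h6 h7
        | exact h3' _ _ n2 h7 h6
        | exact h3' _ _ (Ne.symm n31) h6 h8
        | exact h3' _ _ n31 h8 h6
        | exact h3' _ _ (Ne.symm n32) h7 h8
        | exact h3' _ _ n32 h8 h7
        | exact h4' _ _ _ (Ne.symm n2) (Ne.symm n31) (Ne.symm n32) h6 h7 h8
        | exact h4' _ _ _ (Ne.symm n31) (Ne.symm n2) n32 h6 h8 h7
        | exact h4' _ _ _ (Ne.symm n32) n2 n31 h7 h8 h6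
        | exact absurd h5 (of_decide_eq_false rfl)
  push Not at e3
  obtain ⟨i4, n4⟩ := e3
  rw [Finset.mem_insert, Finset.mem_insert, Finset.mem_singleton, not_or, not_or] at n4
  obtain ⟨n41, n42, n43⟩ := n4
  have s4 : ∑ a ∈ ({u i1, u i2, u i3, u i4} : Finset ℤ), G10a_N u a =
      G10a_N u (u i1) + (G10a_N u (u i2) + (G10a_N u (u i3) + G10a_N u (u i4))) := by
    rw [Finset.sum_insert (by simp [Ne.symm n2, Ne.symm n31, Ne.symm n41]),
      Finset.sum_insert (by simp [Ne.symm n32, Ne.symm n42]), Finset.sum_pair (Ne.symm n43)]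
  have l4 := G10a_le u ({u i1, u i2, u i3, u i4} : Finset ℤ)
  rw [s4, h] at l4
  rcases hm' i1 with h6 | h6
  · rcases hm' i2 with h7 | h7
    · exact h11 _ _ (Ne.symm n2) h6 h7
    rcases hm' i3 with h8 | h8
    · exact h11 _ _ (Ne.symm n31) h6 h8
    rcases hm' i4 with h9 | h9
    · exact h11 _ _ (Ne.symm n41) h6 h9
    exact h3' _ _ n2 (by omega) h6
  · rcases hm' i2 with h7 | h7
    · rcases hm' i3 with h8 | h8
      · exact h11 _ _ (Ne.symm n32) h7 h8
      rcases hm' i4 with h9 | h9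
      · exact h11 _ _ (Ne.symm n42) h7 h9
      exact h3' _ _ (Ne.symm n2) (by omega) h7
    · rcases hm' i3 with h8 | h8
      · rcases hm' i4 with h9 | h9
        · exact h11 _ _ (Ne.symm n43) h8 h9
        exact h3' _ _ (Ne.symm n31) (by omega) h8
      · rcases hm' i4 with h9 | h9
        · exact h3' _ _ (Ne.symm n41) (by omega) h9
        · omega

/-- bounds by types for the blocks (3,3,4): `K` for the type `(C,C,C)`, `s` for three nonconstant
blocks with the last one of type `S` -/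
noncomputable def G10 (K s : ℝ) (a b c : Ty) : ℝ :=
  if c = Ty.R then (if a = Ty.C ∧ b = Ty.C then 9 / 10 else 886 / 1000)
  else if c = Ty.S then
    (if a = Ty.C ∧ b = Ty.C then 1016 / 1000 else if a = Ty.C ∨ b = Ty.C then 1003 / 1000 else s)
  else
    (if a = Ty.C ∧ b = Ty.C then K else if a = Ty.C ∨ b = Ty.C then 1069 / 1000 else 1007 / 1000)

theorem G10_mono (K : ℝ) (hK : 1069 / 1000 ≤ K) (a a' b b' c c' : Ty) (ha : a.rk ≤ a'.rk)
    (hb : b.rk ≤ b'.rk) (hc : c.rk ≤ c'.rk) :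
    G10 K (1003 / 1000) a' b' c' ≤ G10 K (1003 / 1000) a b c := by
  have h1 : ∀ a a' b c : Ty, a.rk ≤ a'.rk →
      G10 K (1003 / 1000) a' b c ≤ G10 K (1003 / 1000) a b c := by
    intro a a' b c ha
    cases a <;> cases a' <;> simp only [Ty.rk] at ha <;> first
      | omega
      | (cases b <;> cases c <;> simp [G10] <;> linarith)
  have h2 : ∀ a b b' c : Ty, b.rk ≤ b'.rk →
      G10 K (1003 / 1000) a b' c ≤ G10 K (1003 / 1000) a b c := by
    intro a b b' c hb
    cases b <;> cases b' <;> simp only [Ty.rk] at hb <;> first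
      | omega
      | (cases a <;> cases c <;> simp [G10] <;> linarith)
  have h3 : ∀ a b c c' : Ty, c.rk ≤ c'.rk →
      G10 K (1003 / 1000) a b c' ≤ G10 K (1003 / 1000) a b c := by
    intro a b c c' hc
    cases c <;> cases c' <;> simp only [Ty.rk] at hc <;> first
      | omega
      | (cases a <;> cases b <;> simp [G10] <;> linarith)
  exact (h1 a a' b' c' ha).trans ((h2 a b b' c' hb).trans (h3 a b c c' hc))

noncomputable def S10 (K s : ℝ) (t : ℕ) : ℝ :=
  ∑ j ∈ Finset.range (t + 1), ∑ l ∈ Finset.range (t - j + 1),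
    ((3 : ℕ).choose j : ℝ) * ((3 : ℕ).choose l) * ((4 : ℕ).choose (t - j - l)) *
      G10 K s (tyc 3 j) (tyc 3 l) (tyc 4 (t - j - l))

/-- `44.949` -/
theorem S10_2 : S10 (1069 / 1000) (1003 / 1000) 2 ≤ 45 := by
  simp [S10, Finset.sum_range_succ, tyc, G10, Nat.choose]
  norm_num

/-- `239.68` -/
theorem S10_5 : S10 (1069 / 1000) (1003 / 1000) 5 ≤ 252 := by
  simp [S10, Finset.sum_range_succ, tyc, G10, Nat.choose]
  norm_num

/-- `119.496` -/
theorem S10_3 : S10 5 (8705 / 10000) 3 ≤ 120 := by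
  simp [S10, Finset.sum_range_succ, tyc, G10, Nat.choose]
  norm_num

/-- `206.76` -/
theorem S10_4 : S10 (50 / 3) (8705 / 10000) 4 ≤ 210 := by
  simp [S10, Finset.sum_range_succ, tyc, G10, Nat.choose]
  norm_num

/-- `116.41` -/
theorem S10_3' : S10 (1069 / 1000) (1003 / 1000) 3 ≤ 120 := by
  simp [S10, Finset.sum_range_succ, tyc, G10, Nat.choose]
  norm_num

/-- `204.64` -/
theorem S10_4' : S10 5 (1003 / 1000) 4 ≤ 210 := by
  simp [S10, Finset.sum_range_succ, tyc, G10, Nat.choose]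
  norm_num

end Pool.Agent.helper49.Slope
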