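import Pool.Agent.helper49.Slope.G10a
import Pool.Agent.helper49.Slope.E2
import Pool.Agent.helper49.Slope.E4
import Pool.Agent.helper49.Slope.E7

/-!
MP_aedd95_co (slope of k-fold hyperplane covers of triangular grids), module G10b.
Expectations of the bounds for the blocks (3,3,4). `π = (unif (3/50)).prod (unif (1/5))`,
`x10a X ξ = ξ.2 + (X - ξ.1)/2`, `x10b X ξ = -ξ.2 + (X - ξ.1)/2`, `x10c X ξ = ξ.1`, `|X| ≤ 1/20`.

With `s = (X - ξ.1)/2`: `|s| ≤ 11/200`, so `|xa|, |xb| ≤ 51/200 ≤ 8/25`. Facts: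
`∫ s² = (X² + h₁²/3)/4 ≤ 0.000925`; given `ξ.1`, `∫ |ξ.2 ± s| = (h₂² + s²)/(2 h₂) = 1/10 + 5/2 s²`
(`unif_shift_moment`), `|xa xb| ≤ (xa² + xb²)/2 = ξ.2² + s²`. `E|ξ.1| = 3/100`, `E ξ.1² = 0.0012`.
Bounds (only the types `≠ C` matter; types `S` and `R` of the 3-blocks are treated in the same
way where possible; if one of the 3-blocks has type `R` then `pair_R` gives the bound `88/100`,
which is below every entry of the table):
* `c = R`, `a = b = C`: `P4|ξ.1|`: `0.8717 + 0.9432·0.03 - 0.896·0.0012 = 0.89892 ≤ 0.9`.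
* `c = R`, `a = S` (or `b = S`): `n4|ξ.1| + |ξ.1|(1 + 2/3·51/200)`:
  `0.8717 + (0.2765 + 0.17)·0.03 = 0.885095 ≤ 0.886`.
* `c = S`, `a = b = C`: `1 + |ξ.1|/2`: `1.015 ≤ 1.016`; `a = S` or `b = S`:
  `1 + 1/3·51/200·|ξ.1|`: `1.00255 ≤ 1.003` (`pair_SS`).
* `c = C`, exactly one of `a, b` equal to `S`: `1 + 2/3 |xa|`: `1 + 2/3 (0.1 + 2.5·0.000925)
  = 1.06821 ≤ 1.069`; both `S`: `1 + 4/9 |xa||xb|`: `1 + 4/9 (1/75 + 0.000925) = 1.00634 ≤ 1.007`.
* `SSS` (`tri_SSS`): `3/4 (1+2/3|xa|)(1+2/3|xb|)(1+|ξ.1|/2)`; given `ξ.1` the product of the first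
  two factors has expectation `≤ 1 + 4/3 (1/10 + 5/2 s²) + 4/9 (1/75 + s²) = 1.139260 + 3.77778 s²`;
  and `s² ≤ (11/200)²`, so the total is
  `≤ 3/4 (1.139260·1.015 + 3.77778 (0.000925 + (11/200)²·0.015)) = 0.87002 ≤ 0.8705`.
-/

set_option autoImplicit false

open MeasureTheory ProbabilityTheory
open scoped ENNReal

namespace Pool.Agent.helper49.Slope

noncomputable def pi10 : Measure (ℝ × ℝ) := (unif (3 / 50)).prod (unif (1 / 5))

noncomputable def x10a (X : ℝ) (ξ : ℝ × ℝ) : ℝ := ξ.2 + (X - ξ.1) / 2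

noncomputable def x10b (X : ℝ) (ξ : ℝ × ℝ) : ℝ := -ξ.2 + (X - ξ.1) / 2

noncomputable def x10c (_ : ℝ) (ξ : ℝ × ℝ) : ℝ := ξ.1

theorem pi10_prob : IsProbabilityMeasure pi10 := by
  have := unif_prob (h := 3 / 50) (by norm_num)
  have := unif_prob (h := 1 / 5) (by norm_num)
  unfold pi10
  infer_instance

theorem g10b_ae : ∀ᵐ ξ ∂pi10, |ξ.1| ≤ 3 / 50 ∧ |ξ.2| ≤ 1 / 5 := by
  have := unif_prob (h := 3 / 50) (by norm_num)
  have := unif_prob (h := 1 / 5) (by norm_num)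
  unfold pi10
  have h1 : ∀ᵐ ξ ∂((unif (3 / 50)).prod (unif (1 / 5))), |ξ.1| ≤ 3 / 50 :=
    Measure.quasiMeasurePreserving_fst.ae unif_ae
  have h2 : ∀ᵐ ξ ∂((unif (3 / 50)).prod (unif (1 / 5))), |ξ.2| ≤ 1 / 5 :=
    Measure.quasiMeasurePreserving_snd.ae unif_ae
  filter_upwards [h1, h2] with ξ h3 h4
  exact ⟨h3, h4⟩

theorem x10_ae (X : ℝ) (hX : |X| ≤ 1 / 20) :
    ∀ᵐ ξ ∂pi10, |x10a X ξ| ≤ 51 / 200 ∧ |x10b X ξ| ≤ 51 / 200 ∧ |x10c X ξ| ≤ 3 / 50 := by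
  filter_upwards [g10b_ae] with ξ hξ
  obtain ⟨h1, h2⟩ := hξ
  obtain ⟨X1, X2⟩ := abs_le.1 hX
  obtain ⟨a1, a2⟩ := abs_le.1 h1
  obtain ⟨b1, b2⟩ := abs_le.1 h2
  unfold x10a x10b x10c
  refine ⟨abs_le.2 ⟨by linarith, by linarith⟩, abs_le.2 ⟨by linarith, by linarith⟩, h1⟩

/-- the general bounding function -/
noncomputable def g10b_g (c0 c1 c1' c2 e X : ℝ) (ξ : ℝ × ℝ) : ℝ :=
  (c0 + c1 * |x10a X ξ| + c1' * |x10b X ξ| + c2 * (ξ.2 ^ 2 + ((X - ξ.1) / 2) ^ 2)) *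
    (1 + e * |ξ.1|)

theorem g10b_cont (c0 c1 c1' c2 e X : ℝ) : Continuous (g10b_g c0 c1 c1' c2 e X) := by
  unfold g10b_g x10a x10b
  fun_prop

/-- the inner integral -/
theorem g10b_inner {c0 c1 c1' c2 w s : ℝ} (h0 : 0 ≤ c0) (h1 : 0 ≤ c1) (h1' : 0 ≤ c1')
    (h2 : 0 ≤ c2) (hw : 0 ≤ w) (hs : |s| ≤ 1 / 5) :
    ∫⁻ η, ENNReal.ofReal ((c0 + c1 * |η + s| + c1' * |-η + s| + c2 * (η ^ 2 + s ^ 2)) * w)
      ∂(unif (1 / 5)) =
    ENNReal.ofReal ((c0 + (c1 + c1') / 10 + c2 / 75 + (5 / 2 * (c1 + c1') + c2) * s ^ 2) * w) := by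
  have hh : (0 : ℝ) < 1 / 5 := by norm_num
  have e1 := unif_shift_moment hh s hs (w * (c0 + c2 * s ^ 2)) (w * c1) 0 (by positivity)
    (by positivity) le_rfl
  have e2 := unif_shift_moment hh (-s) (by rwa [abs_neg]) 0 (w * c1') 0 le_rfl (by positivity)
    le_rfl
  have e3 := unif_shift_moment hh 0 (by norm_num) 0 0 (w * c2) le_rfl le_rfl (by positivity)
  have hsplit : ∀ η : ℝ,
      ENNReal.ofReal ((c0 + c1 * |η + s| + c1' * |-η + s| + c2 * (η ^ 2 + s ^ 2)) * w) =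
      (ENNReal.ofReal (w * (c0 + c2 * s ^ 2) + w * c1 * |η + s| + 0 * (η + s) ^ 2) +
        ENNReal.ofReal (0 + w * c1' * |η + -s| + 0 * (η + -s) ^ 2)) +
        ENNReal.ofReal (0 + 0 * |η + 0| + w * c2 * (η + 0) ^ 2) := by
    intro η
    rw [← ENNReal.ofReal_add (by positivity) (by positivity),
      ← ENNReal.ofReal_add (by positivity) (by positivity)]
    congr 1
    have : |-η + s| = |η + -s| := by rw [← abs_neg]; congr 1; ring
    rw [this]
    ring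
  simp only [hsplit]
  rw [lintegral_add_left (by fun_prop), lintegral_add_left (by fun_prop), e1, e2, e3,
    ← ENNReal.ofReal_add (by positivity) (by positivity),
    ← ENNReal.ofReal_add (by positivity) (by positivity)]
  congr 1
  ring

/-- the outer integral -/
theorem g10b_outer {D0 D1 e X : ℝ} (h0 : 0 ≤ D0) (h1 : 0 ≤ D1) (he : 0 ≤ e) (hX : |X| ≤ 1 / 20) :
    ∫⁻ η, ENNReal.ofReal ((D0 + D1 * ((X - η) / 2) ^ 2) * (1 + e * |η|)) ∂(unif (3 / 50)) ≤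
    ENNReal.ofReal (D0 + D1 * (37 / 40000) + e * (3 / 100) * (D0 + D1 * (121 / 40000))) := by
  have hh : (0 : ℝ) < 3 / 50 := by norm_num
  have e1 := unif_shift_moment hh 0 (by norm_num) D0 (e * (D0 + D1 * (121 / 40000))) 0 h0
    (by positivity) le_rfl
  have e2 := unif_shift_moment hh (-X) (by rw [abs_neg]; linarith) 0 0 (D1 / 4) le_rfl le_rfl
    (by positivity)
  obtain ⟨X1, X2⟩ := abs_le.1 hX
  have hle : ∀ᵐ η ∂(unif (3 / 50)),
      ENNReal.ofReal ((D0 + D1 * ((X - η) / 2) ^ 2) * (1 + e * |η|)) ≤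
      ENNReal.ofReal (D0 + e * (D0 + D1 * (121 / 40000)) * |η + 0| + 0 * (η + 0) ^ 2) +
        ENNReal.ofReal (0 + 0 * |η + -X| + D1 / 4 * (η + -X) ^ 2) := by
    filter_upwards [unif_ae (h := 3 / 50)] with η hη
    rw [← ENNReal.ofReal_add (by positivity) (by positivity)]
    apply ENNReal.ofReal_le_ofReal
    obtain ⟨a1, a2⟩ := abs_le.1 hη
    have hs : ((X - η) / 2) ^ 2 ≤ 121 / 40000 := by
      have h3 : |(X - η) / 2| ≤ 11 / 200 := abs_le.2 ⟨by linarith, by linarith⟩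
      have h4 := pow_le_pow_left₀ (abs_nonneg _) h3 2
      rw [sq_abs] at h4
      linarith
    have h5 : D1 * ((X - η) / 2) ^ 2 * (e * |η|) ≤ D1 * (121 / 40000) * (e * |η|) := by
      apply mul_le_mul_of_nonneg_right _ (by positivity)
      exact mul_le_mul_of_nonneg_left hs h1
    rw [add_zero]
    have h6 : (D0 + D1 * ((X - η) / 2) ^ 2) * (1 + e * |η|) =
        D0 + D0 * (e * |η|) + D1 * ((X - η) / 2) ^ 2 + D1 * ((X - η) / 2) ^ 2 * (e * |η|) := by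
      ring
    rw [h6]
    have h7 : D1 / 4 * (η + -X) ^ 2 = D1 * ((X - η) / 2) ^ 2 := by ring
    linarith
  refine (lintegral_mono_ae hle).trans ?_
  rw [lintegral_add_left (by fun_prop), e1, e2,
    ← ENNReal.ofReal_add (by positivity) (by positivity)]
  apply ENNReal.ofReal_le_ofReal
  have hX2 : X ^ 2 ≤ 1 / 400 := by
    have h4 := pow_le_pow_left₀ (abs_nonneg _) hX 2
    rw [sq_abs] at h4
    linarith
  have h8 : D1 * X ^ 2 ≤ D1 * (1 / 400) := mul_le_mul_of_nonneg_left hX2 h1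
  have h9 : D1 / 4 * ((3 / 50) ^ 2 / 3 + (-X) ^ 2) = D1 * (3 / 10000) + D1 * X ^ 2 / 4 := by ring
  rw [h9]
  nlinarith

theorem g10b_int {c0 c1 c1' c2 e X : ℝ} (h0 : 0 ≤ c0) (h1 : 0 ≤ c1) (h1' : 0 ≤ c1')
    (h2 : 0 ≤ c2) (he : 0 ≤ e) (hX : |X| ≤ 1 / 20) :
    ∫⁻ ξ, ENNReal.ofReal (g10b_g c0 c1 c1' c2 e X ξ) ∂pi10 ≤
    ENNReal.ofReal ((c0 + (c1 + c1') / 10 + c2 / 75) + (5 / 2 * (c1 + c1') + c2) * (37 / 40000) +
      e * (3 / 100) * ((c0 + (c1 + c1') / 10 + c2 / 75) +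
        (5 / 2 * (c1 + c1') + c2) * (121 / 40000))) := by
  have := unif_prob (h := 3 / 50) (by norm_num)
  have := unif_prob (h := 1 / 5) (by norm_num)
  obtain ⟨X1, X2⟩ := abs_le.1 hX
  unfold pi10
  rw [lintegral_prod _ ((g10b_cont c0 c1 c1' c2 e X).measurable.ennreal_ofReal.aemeasurable)]
  refine le_trans (le_of_eq ?_) (g10b_outer (e := e) (X := X)
    (D0 := c0 + (c1 + c1') / 10 + c2 / 75) (D1 := 5 / 2 * (c1 + c1') + c2) (by positivity)
    (by positivity) he hX)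
  apply lintegral_congr_ae
  filter_upwards [unif_ae (h := 3 / 50)] with η hη
  obtain ⟨a1, a2⟩ := abs_le.1 hη
  have hs : |(X - η) / 2| ≤ 1 / 5 := abs_le.2 ⟨by linarith, by linarith⟩
  exact g10b_inner (c0 := c0) (c1 := c1) (c1' := c1') (c2 := c2) (w := 1 + e * |η|)
    (s := (X - η) / 2) h0 h1 h1' h2 (by positivity) hs

theorem g10b_case {κ : Kernel ℝ (Fin 3 → ℝ)} {θ : Kernel ℝ (Fin 4 → ℝ)} [IsMarkovKernel κ]
    [IsMarkovKernel θ] {X : ℝ} (hX : |X| ≤ 1 / 20) {a b c : Ty} {T : ℝ} (c0 c1 c1' c2 e : ℝ)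
    (h0 : 0 ≤ c0) (h1 : 0 ≤ c1) (h1' : 0 ≤ c1') (h2 : 0 ≤ c2) (he : 0 ≤ e)
    (hb : ∀ ξ : ℝ × ℝ, |x10a X ξ| ≤ 51 / 200 → |x10b X ξ| ≤ 51 / 200 → |ξ.1| ≤ 3 / 50 →
      TriBd κ κ θ (x10a X ξ) (x10b X ξ) ξ.1 a b c (g10b_g c0 c1 c1' c2 e X ξ))
    (hT : (c0 + (c1 + c1') / 10 + c2 / 75) + (5 / 2 * (c1 + c1') + c2) * (37 / 40000) +
      e * (3 / 100) * ((c0 + (c1 + c1') / 10 + c2 / 75) +
        (5 / 2 * (c1 + c1') + c2) * (121 / 40000)) ≤ T) :
    ∃ g : ℝ × ℝ → ℝ, Measurable g ∧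
      (∀ᵐ ξ ∂pi10, TriBd κ κ θ (x10a X ξ) (x10b X ξ) (x10c X ξ) a b c (g ξ)) ∧
      ∫⁻ ξ, ENNReal.ofReal (g ξ) ∂pi10 ≤ ENNReal.ofReal T := by
  refine ⟨g10b_g c0 c1 c1' c2 e X, (g10b_cont c0 c1 c1' c2 e X).measurable, ?_,
    (g10b_int h0 h1 h1' h2 he hX).trans (ENNReal.ofReal_le_ofReal hT)⟩
  filter_upwards [x10_ae X hX] with ξ hξ
  exact hb ξ hξ.1 hξ.2.1 hξ.2.2

/-- `|x_a x_b| ≤ ξ₂² + s²` -/
theorem g10b_prod (X : ℝ) (ξ : ℝ × ℝ) :
    |x10a X ξ| * |x10b X ξ| ≤ ξ.2 ^ 2 + ((X - ξ.1) / 2) ^ 2 := by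
  rw [← abs_mul]
  unfold x10a x10b
  rw [abs_le]
  constructor <;> nlinarith [sq_nonneg (ξ.2), sq_nonneg ((X - ξ.1) / 2)]

/-- the table, by cases -/
noncomputable def g10b_tab : Ty → Ty → Ty → ℝ
  | .C, .C, .R => 9 / 10
  | .C, .S, .R => 886 / 1000
  | .C, .R, .R => 886 / 1000
  | .S, _, .R => 886 / 1000
  | .R, _, .R => 886 / 1000
  | .C, .C, .S => 1016 / 1000
  | .C, .S, .S => 1003 / 1000
  | .C, .R, .S => 1003 / 1000
  | .S, _, .S => 1003 / 1000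
  | .R, _, .S => 1003 / 1000
  | .C, .C, .C => 0
  | .C, .S, .C => 1069 / 1000
  | .C, .R, .C => 1069 / 1000
  | .S, .C, .C => 1069 / 1000
  | .R, .C, .C => 1069 / 1000
  | .S, .S, .C => 1007 / 1000
  | .S, .R, .C => 1007 / 1000
  | .R, .S, .C => 1007 / 1000
  | .R, .R, .C => 1007 / 1000

theorem g10b_val (a b c : Ty) : G10 0 (1003 / 1000) a b c = g10b_tab a b c := by
  cases a <;> cases b <;> cases c <;> simp [G10, g10b_tab]

theorem g10_bound {κ : Kernel ℝ (Fin 3 → ℝ)} {θ : Kernel ℝ (Fin 4 → ℝ)} [IsMarkovKernel κ]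
    [IsMarkovKernel θ] (b3 : Blk κ (8 / 25) P3 P3) (b4 : Blk θ (3 / 10) P4 n4) (X : ℝ)
    (hX : |X| ≤ 1 / 20) (a b c : Ty) (h : ¬ (a = Ty.C ∧ b = Ty.C ∧ c = Ty.C)) :
    ∃ g : ℝ × ℝ → ℝ, Measurable g ∧
      (∀ᵐ ξ ∂pi10, TriBd κ κ θ (x10a X ξ) (x10b X ξ) (x10c X ξ) a b c (g ξ)) ∧
      ∫⁻ ξ, ENNReal.ofReal (g ξ) ∂pi10 ≤ ENNReal.ofReal (G10 0 (1003 / 1000) a b c) := by
  have h88 : (88 : ℝ) / 100 ≤ G10 0 (1003 / 1000) a b c := by
    rw [g10b_val]
    cases a <;> cases b <;> cases c <;> simp only [g10b_tab] <;>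
      first
        | exact absurd ⟨rfl, rfl, rfl⟩ h
        | norm_num
  have c3 : Fintype.card (Fin 3) = 3 := Fintype.card_fin 3
  have c4 : Fintype.card (Fin 4) = 4 := Fintype.card_fin 4
  have hR : ∀ {x : ℝ}, |x| ≤ 51 / 200 → |x| ≤ 8 / 25 := fun h => by linarith
  have hR4 : ∀ {x : ℝ}, |x| ≤ 3 / 50 → |x| ≤ 3 / 10 := fun h => by linarith
  by_cases ha : a = Ty.R
  · subst ha
    refine g10b_case hX (88 / 100) 0 0 0 0 (by norm_num) le_rfl le_rfl le_rfl le_rfl ?_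
      (by linarith)
    intro ξ h1 h2 h3
    refine (tri_12 (pair_R b3 (hR h1) b) c).mono ?_
    unfold g10b_g P3
    norm_num
  by_cases hb : b = Ty.R
  · subst hb
    refine g10b_case hX (88 / 100) 0 0 0 0 (by norm_num) le_rfl le_rfl le_rfl le_rfl ?_
      (by linarith)
    intro ξ h1 h2 h3
    refine (tri_12 (pair_symm (pair_R b3 (hR h2) a)) c).mono ?_
    unfold g10b_g P3
    norm_num
  -- the bound for `R` on the 4-block and `S` on a 3-block
  have hRS : ∀ {x w : ℝ}, |x| ≤ 51 / 200 → |w| ≤ 3 / 50 →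
      PairBd κ θ x w Ty.S Ty.R (8717 / 10000 + 4465 / 10000 * |w|) := by
    intro x w hx hw
    refine (pair_symm (pair_RS (by rw [c3]) b4 b3 (by norm_num) (hR4 hw) (hR hx))).mono ?_
    unfold n4
    rw [c3]
    have := mul_le_mul_of_nonneg_left hx (abs_nonneg w)
    push_cast
    nlinarith
  have hSS : ∀ {x w : ℝ}, |x| ≤ 51 / 200 → |w| ≤ 3 / 50 →
      PairBd κ θ x w Ty.S Ty.S (1 + 85 / 1000 * |w|) := by
    intro x w hx hw
    refine (pair_SS (by rw [c3]) (by rw [c4]; norm_num) b3 b4 (by norm_num) (by norm_num) (hR hx)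
      (hR4 hw)).mono ?_
    rw [c3, c4]
    have := mul_le_mul_of_nonneg_right hx (abs_nonneg w)
    push_cast
    nlinarith
  have hS3 : ∀ {η : Kernel ℝ (Fin 3 → ℝ)} [IsMarkovKernel η] {x y : ℝ} (b : Ty), |x| ≤ 51 / 200 →
      PairBd κ η x y Ty.S b (1 + 2 / 3 * |x|) := by
    intro η _ x y b hx
    refine (pair_S (by rw [c3]) b3 (by norm_num) (hR hx) b).mono ?_
    rw [c3]
    push_cast
    exact le_rfl
  rcases c with _ | _ | _
  · -- `c = C`
    rcases a with _ | _ | _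
    · rcases b with _ | _ | _
      · exact absurd ⟨rfl, rfl, rfl⟩ h
      · refine g10b_case hX 1 0 (2 / 3) 0 0 (by norm_num) le_rfl (by norm_num) le_rfl le_rfl ?_
          (by rw [g10b_val]; simp only [g10b_tab]; norm_num)
        intro ξ h1 h2 h3
        refine (tri_12 (pair_symm (hS3 Ty.C h2)) Ty.C).mono ?_
        unfold g10b_g
        linarith
      · exact absurd rfl hb
    · rcases b with _ | _ | _
      · refine g10b_case hX 1 (2 / 3) 0 0 0 (by norm_num) (by norm_num) le_rfl le_rfl le_rfl ?_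
          (by rw [g10b_val]; simp only [g10b_tab]; norm_num)
        intro ξ h1 h2 h3
        refine (tri_12 (hS3 Ty.C h1) Ty.C).mono ?_
        unfold g10b_g
        linarith
      · refine g10b_case hX 1 0 0 (4 / 9) 0 (by norm_num) le_rfl le_rfl (by norm_num) le_rfl ?_
          (by rw [g10b_val]; simp only [g10b_tab]; norm_num)
        intro ξ h1 h2 h3
        refine (tri_12 (pair_SS (by rw [c3]) (by rw [c3]) b3 b3 (by norm_num) (by norm_num)
          (hR h1) (hR h2)) Ty.C).mono ?_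
        unfold g10b_g
        rw [c3]
        have := g10b_prod X ξ
        push_cast
        linarith
      · exact absurd rfl hb
    · exact absurd rfl ha
  · -- `c = S`
    rcases a with _ | _ | _
    · rcases b with _ | _ | _
      · refine g10b_case hX 1 0 0 0 (1 / 2) (by norm_num) le_rfl le_rfl le_rfl (by norm_num) ?_
          (by rw [g10b_val]; simp only [g10b_tab]; norm_num)
        intro ξ h1 h2 h3
        refine (tri_13 (pair_symm (pair_S (by rw [c4]; norm_num) b4 (by norm_num) (hR4 h3) Ty.C))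
          Ty.C).mono ?_
        unfold g10b_g
        rw [c4]
        push_cast
        linarith
      · refine g10b_case hX 1 0 0 0 (85 / 1000) (by norm_num) le_rfl le_rfl le_rfl (by norm_num) ?_
          (by rw [g10b_val]; simp only [g10b_tab]; norm_num)
        intro ξ h1 h2 h3
        refine (tri_23 (hSS h2 h3) Ty.C).mono ?_
        unfold g10b_g
        linarith
      · exact absurd rfl hb
    · refine g10b_case hX 1 0 0 0 (85 / 1000) (by norm_num) le_rfl le_rfl le_rfl (by norm_num) ?_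
          (by rw [g10b_val]; cases b <;> simp only [g10b_tab] <;> norm_num)
      intro ξ h1 h2 h3
      refine (tri_13 (hSS h1 h3) b).mono ?_
      unfold g10b_g
      linarith
    · exact absurd rfl ha
  · -- `c = R`
    rcases a with _ | _ | _
    · rcases b with _ | _ | _
      · refine g10b_case hX (8717 / 10000) 0 0 0 (9432 / 8717) (by norm_num) le_rfl le_rfl le_rfl
          (by norm_num) ?_ (by rw [g10b_val]; simp only [g10b_tab]; norm_num)
        intro ξ h1 h2 h3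
        refine (tri_13 (pair_symm (pair_R b4 (hR4 h3) Ty.C)) Ty.C).mono ?_
        unfold g10b_g P4
        have := sq_nonneg |ξ.1|
        linarith
      · refine g10b_case hX (8717 / 10000) 0 0 0 (4465 / 8717) (by norm_num) le_rfl le_rfl le_rfl
          (by norm_num) ?_ (by rw [g10b_val]; simp only [g10b_tab]; norm_num)
        intro ξ h1 h2 h3
        refine (tri_23 (hRS h2 h3) Ty.C).mono ?_
        unfold g10b_g
        linarith
      · exact absurd rfl hb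
    · refine g10b_case hX (8717 / 10000) 0 0 0 (4465 / 8717) (by norm_num) le_rfl le_rfl le_rfl
          (by norm_num) ?_ (by rw [g10b_val]; cases b <;> simp only [g10b_tab] <;> norm_num)
      intro ξ h1 h2 h3
      refine (tri_13 (hRS h1 h3) b).mono ?_
      unfold g10b_g
      linarith
    · exact absurd rfl ha

theorem g10_bound_SSS {κ : Kernel ℝ (Fin 3 → ℝ)} {θ : Kernel ℝ (Fin 4 → ℝ)} [IsMarkovKernel κ]
    [IsMarkovKernel θ] (b3 : Blk κ (8 / 25) P3 P3) (b4 : Blk θ (3 / 10) P4 n4) (X : ℝ)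
    (hX : |X| ≤ 1 / 20) :
    ∃ g : ℝ × ℝ → ℝ, Measurable g ∧
      (∀ᵐ ξ ∂pi10, TriBd κ κ θ (x10a X ξ) (x10b X ξ) (x10c X ξ) Ty.S Ty.S Ty.S (g ξ)) ∧
      ∫⁻ ξ, ENNReal.ofReal (g ξ) ∂pi10 ≤ ENNReal.ofReal (8705 / 10000) := by
  have c3 : Fintype.card (Fin 3) = 3 := Fintype.card_fin 3
  have c4 : Fintype.card (Fin 4) = 4 := Fintype.card_fin 4
  refine g10b_case hX (3 / 4) (1 / 2) (1 / 2) (1 / 3) (1 / 2) (by norm_num) (by norm_num)
    (by norm_num) (by norm_num) (by norm_num) ?_ (by norm_num)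
  intro ξ h1 h2 h3
  refine (tri_SSS (by rw [c3]) (by rw [c3]) (by rw [c4]; norm_num) b3 b3 b4 (by norm_num)
    (by norm_num) (by norm_num) (by linarith : |x10a X ξ| ≤ 8 / 25)
    (by linarith : |x10b X ξ| ≤ 8 / 25) (by linarith : |ξ.1| ≤ 3 / 10)).mono ?_
  unfold g10b_g
  rw [c3, c4]
  push_cast
  have h4 := g10b_prod X ξ
  have h5 : 0 ≤ 1 + 1 / 2 * |ξ.1| := by positivity
  have h6 : 3 / 4 * ((1 + 2 / 3 * |x10a X ξ|) * (1 + 2 / 3 * |x10b X ξ|)) ≤
      3 / 4 + 1 / 2 * |x10a X ξ| + 1 / 2 * |x10b X ξ| +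
        1 / 3 * (ξ.2 ^ 2 + ((X - ξ.1) / 2) ^ 2) := by linarith
  have h7 := mul_le_mul_of_nonneg_right h6 h5
  linarith

/-- the form as an affine function of `ξ` -/
theorem g10b_form (X : ℝ) (p q s : ℤ) :
    (fun ξ : ℝ × ℝ => (p : ℝ) * x10a X ξ + q * x10b X ξ + s * x10c X ξ) =
    fun ξ : ℝ × ℝ => ((s : ℝ) - (p + q) / 2) * ξ.1 + ((p : ℝ) - q) * ξ.2 + (p + q) * X / 2 := by
  funext ξ
  unfold x10a x10b x10c
  ring

theorem g10b_one_le {p q : ℤ} (h : p ≠ q) : 1 ≤ |(p : ℝ) - q| := by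
  have h1 : 1 ≤ |p - q| := Int.one_le_abs (sub_ne_zero.2 h)
  exact_mod_cast h1

/-- closure, different constants on the two 3-blocks: the coefficient of `ξ.2` is `p - q` -/
theorem g10_closure (X : ℝ) (p q s : ℤ) (h : p ≠ q) :
    HasLoad (pi10.map (fun ξ => (p : ℝ) * x10a X ξ + q * x10b X ξ + s * x10c X ξ))
      (fun _ => ENNReal.ofReal 5) := by
  rw [g10b_form]
  unfold pi10
  have := unif_lin_load_snd (h := 3 / 50) (k := 1 / 5) (by norm_num) (by norm_num)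
    ((s : ℝ) - (p + q) / 2) ((p : ℝ) - q) ((p + q) * X / 2) (g10b_one_le h)
  rw [show (1 : ℝ) / (1 / 5) = 5 by norm_num] at this
  exact this

/-- closure in general: if `p = q ≠ s` the form is `p X + (s - p) ξ.1` -/
theorem g10_closure' (X : ℝ) (p q s : ℤ) (h : ¬ (p = q ∧ q = s)) :
    HasLoad (pi10.map (fun ξ => (p : ℝ) * x10a X ξ + q * x10b X ξ + s * x10c X ξ))
      (fun _ => ENNReal.ofReal (50 / 3)) := by
  by_cases hpq : p = q
  · subst hpq
    have hs : s ≠ p := fun h1 => h ⟨rfl, h1.symm⟩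
    rw [g10b_form]
    unfold pi10
    have h1 : 1 ≤ |(s : ℝ) - (p + p) / 2| := by
      rw [show ((p : ℝ) + p) / 2 = p by ring]
      exact g10b_one_le hs
    have := unif_lin_load_fst (h := 3 / 50) (k := 1 / 5) (by norm_num) (by norm_num)
      ((s : ℝ) - (p + p) / 2) ((p : ℝ) - p) ((p + p) * X / 2) h1
    rw [show (1 : ℝ) / (3 / 50) = 50 / 3 by norm_num] at this
    exact this
  · exact (g10_closure X p q s hpq).mono fun z => ENNReal.ofReal_le_ofReal (by norm_num)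

end Pool.Agent.helper49.Slope
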