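import Pool.Agent.helper49.Slope.DefsE

/-!
MP_aedd95_co (slope of k-fold hyperplane covers of triangular grids), module G44.
The table of bounds for the block structures (3,4,4) and (4,4,4).
-/

set_option autoImplicit false

open MeasureTheory ProbabilityTheory
open scoped ENNReal

namespace Pool.Agent.helper49.Slope

noncomputable def G44 : Ty → Ty → Ty → ℝ
  | .C, .C, .C => 25 / 3
  | .S, .C, .C => 112 / 100
  | .C, .S, .C => 103 / 100
  | .C, .C, .S => 103 / 100
  | .C, .R, .C => 925 / 1000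
  | .C, .C, .R => 925 / 1000
  | .S, .S, .C => 1004 / 1000
  | .S, .C, .S => 1004 / 1000
  | .C, .S, .S => 1001 / 1000
  | .S, .S, .S => 1001 / 1000
  | .R, .C, .C => 1005 / 1000
  | .R, .S, .C => 925 / 1000
  | .R, .C, .S => 925 / 1000
  | .R, .S, .S => 925 / 1000
  | _, _, _ => 9 / 10

theorem G44_pos (a b c : Ty) : 0 ≤ G44 a b c := by
  cases a <;> cases b <;> cases c <;> norm_num [G44]

theorem G44_mono1 (a a' b c : Ty) (ha : a.rk ≤ a'.rk) : G44 a' b c ≤ G44 a b c := by
  cases a <;> cases a' <;> simp only [Ty.rk] at ha <;> first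
    | omega
    | (cases b <;> cases c <;> norm_num [G44])

theorem G44_mono2 (a b b' c : Ty) (hb : b.rk ≤ b'.rk) : G44 a b' c ≤ G44 a b c := by
  cases b <;> cases b' <;> simp only [Ty.rk] at hb <;> first
    | omega
    | (cases a <;> cases c <;> norm_num [G44])

theorem G44_mono3 (a b c c' : Ty) (hc : c.rk ≤ c'.rk) : G44 a b c' ≤ G44 a b c := by
  cases c <;> cases c' <;> simp only [Ty.rk] at hc <;> first
    | omega
    | (cases a <;> cases b <;> norm_num [G44])

theorem G44_mono (a a' b b' c c' : Ty) (ha : a.rk ≤ a'.rk) (hb : b.rk ≤ b'.rk)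
    (hc : c.rk ≤ c'.rk) : G44 a' b' c' ≤ G44 a b c :=
  (G44_mono1 a a' b' c' ha).trans ((G44_mono2 a b b' c' hb).trans (G44_mono3 a b c c' hc))

/-- values of the sums for `t = 2, 3, 4, 5`: `54.572, 164.32, 323.5, 432.3` against
`55, 165, 330, 462` (`interval_cases t`, `simp [Finset.sum_range_succ, tyc, G44, Nat.choose]`,
`norm_num`) -/
theorem G44_sum3 (t : ℕ) (h2 : 2 ≤ t) (ht : 2 * t ≤ 11) :
    ∑ j ∈ Finset.range (t + 1), ∑ l ∈ Finset.range (t - j + 1),
      ((3 : ℕ).choose j : ℝ) * ((4 : ℕ).choose l) * ((4 : ℕ).choose (t - j - l)) *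
        G44 (tyc 3 j) (tyc 4 l) (tyc 4 (t - j - l)) ≤ ((11 : ℕ).choose t : ℝ) := by
  have ht' : t ≤ 5 := by omega
  interval_cases t <;> simp [Finset.sum_range_succ, tyc, G44, Nat.choose] <;> norm_num

/-- values of the sums for `t = 2, ..., 6`: `65.274, 207.6, 480.1, 737.2, 848.1` against
`66, 220, 495, 792, 924` -/
theorem G44_sum4 (t : ℕ) (h2 : 2 ≤ t) (ht : 2 * t ≤ 12) :
    ∑ j ∈ Finset.range (t + 1), ∑ l ∈ Finset.range (t - j + 1),
      ((4 : ℕ).choose j : ℝ) * ((4 : ℕ).choose l) * ((4 : ℕ).choose (t - j - l)) *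
        G44 (tyc 4 j) (tyc 4 l) (tyc 4 (t - j - l)) ≤ ((12 : ℕ).choose t : ℝ) := by
  have ht' : t ≤ 6 := by omega
  interval_cases t <;> simp [Finset.sum_range_succ, tyc, G44, Nat.choose] <;> norm_num

end Pool.Agent.helper49.Slope
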